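import Mathlib

namespace Pool.Agent.H95.Ekeland
open Filter Topology Metric Set

/-- Ekeland's variational principle, maximum form -/
theorem ekeland {Y : Type*} [MetricSpace Y] [CompleteSpace Y] {k : Y → ℝ} (hk : Continuous k)
    {M : ℝ} (hM : ∀ y, k y ≤ M) {ε : ℝ} (hε : 0 < ε) (y0 : Y) :
    ∃ x, k y0 ≤ k x ∧ ∀ y, k y ≤ k x + ε * dist x y := by
  let S : Y → Set Y := fun x => {y | k x + ε * dist x y ≤ k y}
  have tr : ∀ {x y z}, y ∈ S x → z ∈ S y → z ∈ S x := fun {x y z} a b => by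
    have := mul_le_mul_of_nonneg_left (dist_triangle x y z) hε.le
    simp only [S, mem_setOf_eq] at *; linarith
  have nx : ∀ x (n : ℕ), ∃ y ∈ S x, ∀ z ∈ S x, k z ≤ k y + 1 / (n + 1) := fun x n => by
    obtain ⟨_, ⟨y, hy, rfl⟩, h⟩ := exists_lt_of_lt_csSup (s := k '' S x) ⟨_, x, by simp [S], rfl⟩
      (sub_lt_self _ (Nat.one_div_pos_of_nat (n := n)))
    exact ⟨y, hy, fun z hz => by
      linarith [le_csSup (s := k '' S x) ⟨M, by rintro _ ⟨w, -, rfl⟩; exact hM w⟩ ⟨z, hz, rfl⟩]⟩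
  choose f f1 f2 using nx
  let u : ℕ → Y := fun n => Nat.rec y0 (fun n x => f x n) n
  have mono : ∀ n m, n ≤ m → u m ∈ S (u n) := fun n m h => by
    induction h with
    | refl => simp [S]
    | step _ ih => exact tr ih (f1 _ _)
  have sm : ∀ n, ∀ y ∈ S (u (n + 1)), dist (u (n + 1)) y ≤ ε⁻¹ * (1 / (n + 1)) := fun n y hy => by
    have := f2 (u n) n y (tr (f1 _ _) hy)
    rw [le_inv_mul_iff₀ hε]
    exact le_of_add_le_add_left (hy.trans this)
  have t0 : Tendsto (fun n : ℕ => ε⁻¹ * (1 / ((n : ℝ) + 1))) atTop (𝓝 0) := by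
    simpa using (tendsto_one_div_add_atTop_nhds_zero_nat (𝕜 := ℝ)).const_mul ε⁻¹
  obtain ⟨x, hx⟩ := cauchySeq_tendsto_of_complete (cauchySeq_of_le_tendsto_0' (s := fun n => u (n + 1)) _
    (fun n m h => sm n _ (mono (n + 1) (m + 1) (by omega))) t0)
  have xs : ∀ n, x ∈ S (u n) := fun n => (isClosed_le (by fun_prop) hk).mem_of_tendsto hx
    ((eventually_ge_atTop n).mono fun m h => mono n (m + 1) (by omega))
  refine ⟨x, le_trans (le_add_of_nonneg_right (by positivity)) (xs 0), fun y => le_of_not_gt fun h => ?_⟩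
  have : x = y := tendsto_nhds_unique hx (tendsto_iff_dist_tendsto_zero.2
    (squeeze_zero (fun _ => dist_nonneg) (fun n => sm n y (tr (xs (n + 1)) h.le)) t0))
  simp [this] at h

end Pool.Agent.H95.Ekeland
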