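import Pool.Agent.H95.AchDefs

namespace Pool.Agent.H95.Ach
open Finset ZeroAtInfty Filter Topology UniformSpace

theorem cab (x : C₀(ℕ, ℝ)) (n : ℕ) : |x n| ≤ ‖x‖ := x.toBCF.norm_coe_le_norm n
theorem cle {x : C₀(ℕ, ℝ)} {c : ℝ} (h : ∀ n, |x n| ≤ c) : ‖x‖ ≤ c :=
  (BoundedContinuousFunction.norm_le ((abs_nonneg _).trans (h 0))).2 h

noncomputable def e (n : ℕ) : C₀(ℕ, ℝ) := ⟨⟨Pi.single n 1, continuous_of_discreteTopology⟩, by
  rw [cocompact_eq_atTop]
  exact tendsto_const_nhds.congr' ((eventually_gt_atTop n).mono fun k h => (Pi.single_eq_of_ne (M := fun _ => ℝ) h.ne' _).symm)⟩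

theorem se (S : Finset ℕ) (s : ℕ → ℝ) (h : ∀ n, |s n| ≤ 1) : ‖∑ n ∈ S, s n • e n‖ ≤ 1 := cle fun k => by
  have : (∑ n ∈ S, s n • e n) k = ∑ n ∈ S, s n * (Pi.single n 1 : ℕ → ℝ) k := by
    induction S using Finset.induction_on with
    | empty => rfl
    | insert a S ha ih => rw [sum_insert ha, sum_insert ha, ← ih]; rfl
  rw [this]; simp only [Pi.single_apply, mul_ite, mul_one, mul_zero, sum_ite_eq]
  split_ifs <;> simp [h]

theorem sv {𝓕 : Cover} {H} (S : Finset ℕ) (s : ℕ → ℝ) (x : ℕ → C00 𝓕 H) (k) :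
    (∑ n ∈ S, s n • x n).1 k = ∑ n ∈ S, s n * (x n).1 k := by
  induction S using Finset.induction_on with
  | empty => rfl
  | insert a S ha ih => rw [sum_insert ha, sum_insert ha, ← ih]; rfl

theorem no {𝓕 : Cover} (hF : ∀ A : Finset (List Bool), IsAntichain (· <+: ·) (A : Set (List Bool)) → A ∈ 𝓕.F)
    {m : ℕ} {A : Fin m → Set (List Bool)} (hA : ∀ i, IsAntichain (· <+: ·) (A i)) :
    ¬HasC0 (Completion (C00 𝓕 (⋃ i, A i))) := by
  classical
  rintro ⟨T, c, hc, hT⟩
  have l2 : ∀ x : C00 𝓕 (⋃ i, A i), ∑ k ∈ x.1.support, |x.1 k| ≤ m * ‖x‖ := fun x => by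
    calc _ ≤ ∑ k ∈ x.1.support, ∑ i, if k ∈ A i then |x.1 k| else 0 := sum_le_sum fun k hk => by
          obtain ⟨i, hi⟩ := Set.mem_iUnion.1 (x.2 hk)
          refine le_trans (by rw [if_pos hi]) (single_le_sum (f := fun i => if k ∈ A i then |x.1 k| else 0)
            (fun i _ => by positivity) (mem_univ i))
      _ ≤ ∑ _i : Fin m, ‖x‖ := by
          rw [sum_comm]; refine sum_le_sum fun i _ => ?_
          rw [← sum_filter]
          exact le_nrm x (hF _ ((hA i).subset fun k hk => (mem_filter.1 hk).2))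
      _ = _ := by simp
  choose x hx using fun n : ℕ => Completion.denseRange_coe.exists_dist_lt (T (e n))
    (show 0 < c / 2 * (1 / 2) ^ n by positivity)
  simp only [dist_eq_norm] at hx
  have up : ∀ (S : Finset ℕ) (s : ℕ → ℝ), (∀ n, |s n| ≤ 1) → ‖∑ n ∈ S, s n • x n‖ ≤ ‖T‖ + c := fun S s h => by
    rw [← Completion.toComplₗᵢ (𝕜 := ℝ).norm_map, map_sum, show ∑ n ∈ S, Completion.toComplₗᵢ (𝕜 := ℝ) (s n • x n) =
      T (∑ n ∈ S, s n • e n) - ∑ n ∈ S, s n • (T (e n) - x n) by simp [smul_sub]]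
    refine (norm_sub_le _ _).trans (add_le_add ((T.le_of_opNorm_le_of_le le_rfl (se S s h)).trans_eq (mul_one _))
      ((norm_sum_le_of_le (n := fun n => c / 2 * (1 / 2) ^ n) _ fun n _ => ?_).trans ?_))
    · rw [norm_smul]; exact (mul_le_of_le_one_left (norm_nonneg _) (h n)).trans (hx n).le
    · have := summable_geometric_two.sum_le_tsum S fun n _ => by positivity
      rw [tsum_geometric_two] at this; rw [← mul_sum]; nlinarith
  have lo : ∀ n, c / 2 ≤ ‖x n‖ := fun n => by
    have h1 := cab (e n) n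
    rw [show e n n = 1 from Pi.single_eq_same n 1, abs_one] at h1
    have h2 := norm_sub_norm_le (T (e n)) (x n)
    rw [Completion.norm_coe] at h2
    have : (1 / 2 : ℝ) ^ n ≤ 1 := pow_le_one₀ (by norm_num) (by norm_num)
    nlinarith [hT (e n), hx n]
  have pt : ∀ k, Tendsto (fun n => |(x n).1 k|) atTop (𝓝 0) := fun k =>
    (summable_of_sum_le (c := ‖T‖ + c) (fun _ => abs_nonneg _) fun S => by
      refine le_trans ?_ ((le_abs_self _).trans ((ab_le _ k).trans
        (up S (fun n => if 0 ≤ (x n).1 k then 1 else -1) fun n => by split_ifs <;> simp)))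
      rw [sv]; refine sum_le_sum fun n _ => ?_
      split_ifs with h
      · simp [abs_of_nonneg h]
      · simp [abs_of_neg (not_le.1 h)]).tendsto_atTop_zero
  have gr : ∀ j : ℕ, ∃ S : Finset ℕ, j * (c / 4) ≤
      ∑ k ∈ (∑ n ∈ S, (1 : ℝ) • x n).1.support, |(∑ n ∈ S, (1 : ℝ) • x n).1 k| := fun j => by
    induction j with
    | zero => exact ⟨∅, by simp; positivity⟩
    | succ j ih =>
      obtain ⟨S, hS⟩ := ih
      set y := ∑ n ∈ S, (1 : ℝ) • x n
      have t := tendsto_finsetSum y.1.support fun k _ => pt k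
      rw [sum_const_zero] at t
      obtain ⟨n, h1, h2⟩ := ((t.eventually (gt_mem_nhds (show 0 < c / 8 by positivity))).and
        (Nat.cofinite_eq_atTop ▸ S.eventually_cofinite_notMem)).exists
      refine ⟨insert n S, le_trans ?_ (le_l1 _ (y.1.support ∪ (x n).1.support))⟩
      have a := sum_le_sum_of_subset_of_nonneg (f := fun k => |y.1 k|) (subset_union_left (s₁ := y.1.support) (s₂ := (x n).1.support))
        fun _ _ _ => abs_nonneg _
      have b := sum_le_sum_of_subset_of_nonneg (f := fun k => |(x n).1 k|) (subset_union_right (s₁ := y.1.support) (s₂ := (x n).1.support))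
        fun _ _ _ => abs_nonneg _
      have d := nrm_le (x := x n) fun A _ => le_l1 _ A
      have f : ∑ k ∈ y.1.support ∪ (x n).1.support, (|y.1 k| + |(x n).1 k| -
          2 * if k ∈ y.1.support then |(x n).1 k| else 0) ≤
          ∑ k ∈ y.1.support ∪ (x n).1.support, |(∑ n ∈ insert n S, (1 : ℝ) • x n).1 k| := sum_le_sum fun k _ => by
        rw [sum_insert h2, one_smul]
        change _ ≤ |(x n).1 k + y.1 k|
        split_ifs with h
        · have := abs_sub ((x n).1 k + y.1 k) ((x n).1 k)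
          rw [add_sub_cancel_left] at this; linarith
        · simp [Finsupp.notMem_support_iff.1 h]
      rw [sum_sub_distrib, sum_add_distrib, ← mul_sum, sum_ite_mem, union_inter_cancel_left] at f
      push_cast; linarith [lo n]
  obtain ⟨j, hj⟩ := exists_nat_gt (m * (‖T‖ + c) / (c / 4))
  obtain ⟨S, hS⟩ := gr j
  rw [div_lt_iff₀ (by positivity)] at hj
  exact hj.not_ge (hS.trans ((l2 _).trans (mul_le_mul_of_nonneg_left (up S _ (by simp)) m.cast_nonneg)))

theorem long {H : Set (List Bool)}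
    (h : ¬∃ (m : ℕ) (A : Fin m → Set (List Bool)), (∀ i, IsAntichain (· <+: ·) (A i)) ∧ H = ⋃ i, A i) (n : ℕ) :
    ∃ (C : Finset (List Bool)) (s : List Bool), C.card = n ∧ ∀ t ∈ C, t ∈ H ∧ n ≤ t.length ∧ t <+: s := by
  classical
  let P : List Bool → Finset (List Bool) := fun s => s.inits.toFinset.filter (· ∈ H)
  have hP : ∀ s t, t ∈ P s ↔ t <+: s ∧ t ∈ H := fun s t => by simp [P]
  obtain ⟨s, hs⟩ : ∃ s, n + n ≤ (P s).card := by
    by_contra! g
    refine h ⟨n + n, fun i => {s ∈ H | (P s).card = i}, fun i s hs t ht ne st => ?_, Set.ext fun s => ?_⟩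
    · have : P s ⊂ P t := (ssubset_iff_of_subset fun u hu => (hP _ _).2 ⟨((hP _ _).1 hu).1.trans st, ((hP _ _).1 hu).2⟩).2
        ⟨t, (hP _ _).2 ⟨List.prefix_rfl, ht.1⟩, fun k => ne (st.eq_of_length_le ((hP _ _).1 k).1.length_le)⟩
      exact (card_lt_card this).ne (hs.2.trans ht.2.symm)
    · exact ⟨fun k => Set.mem_iUnion.2 ⟨⟨_, g s⟩, k, rfl⟩, fun k => let ⟨_, k⟩ := Set.mem_iUnion.1 k; k.1⟩
  have a : ((P s).filter fun t => ¬n ≤ t.length).card ≤ (range n).card :=
    card_le_card_of_injOn List.length (fun t ht => by simpa using (mem_filter.1 ht).2) fun t ht u hu e =>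
      (List.prefix_of_prefix_length_le ((hP _ _).1 (mem_filter.1 ht).1).1 ((hP _ _).1 (mem_filter.1 hu).1).1
        e.le).eq_of_length e
  have b := card_filter_add_card_filter_not (s := P s) fun t => n ≤ t.length
  rw [card_range] at a
  obtain ⟨C, hC, e⟩ := exists_subset_card_eq (s := (P s).filter fun t => n ≤ t.length) (n := n) (by omega)
  exact ⟨C, s, e, fun t ht => let k := mem_filter.1 (hC ht); ⟨((hP _ _).1 k.1).2, k.2, ((hP _ _).1 k.1).1⟩⟩

def F0 : Cover where
  F := {A | IsAntichain (· <+: ·) (A : Set (List Bool)) ∨ ∀ t ∈ A, A.card ≤ t.length}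
  cov s := ⟨{s}, Or.inl (by simp), by simp⟩

theorem yes {H : Set (List Bool)}
    (h : ¬∃ (m : ℕ) (A : Fin m → Set (List Bool)), (∀ i, IsAntichain (· <+: ·) (A i)) ∧ H = ⋃ i, A i) :
    HasC0 (Completion (C00 F0 H)) := by
  classical
  choose C s hc hC using long h
  obtain ⟨N, N3, N1⟩ : ∃ N : ℕ → ℕ, N 0 = 1 ∧ ∀ k, N (k + 1) = 2 * N k + (s (N k)).length + 1 :=
    ⟨fun k => k.rec 1 fun _ n => 2 * n + (s n).length + 1, rfl, fun _ => rfl⟩
  have N2 : ∀ j i, 2 ^ i * N j ≤ N (j + i) := fun j i => by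
    induction i with
    | zero => simp
    | succ i ih => rw [← add_assoc, N1, pow_succ]; linarith
  have N0 : ∀ k, 2 ^ k ≤ N k := fun k => by simpa [N3] using N2 0 k
  have Np : ∀ k, (0 : ℝ) < (N k : ℝ) := fun k => by exact_mod_cast (Nat.two_pow_pos k).trans_le (N0 k)
  have dj : ∀ j k, j < k → ∀ t ∈ C (N j), t ∉ C (N k) := fun j k l t a b => by
    obtain ⟨i, rfl⟩ := Nat.exists_eq_add_of_lt l
    have := N2 (j + 1) i; have := (hC _ t a).2.2.length_le; have := (hC _ t b).2.1; have := Nat.two_pow_pos i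
    rw [show j + i + 1 = j + 1 + i by omega] at *; have := N1 j; nlinarith
  let u : ℕ → C00 F0 H := fun k => ⟨Finsupp.onFinset (C (N k)) (fun t => if t ∈ C (N k) then (N k : ℝ)⁻¹ else 0)
    fun t ht => by by_contra g; exact ht (if_neg g), fun t ht => (hC _ t (Finsupp.support_onFinset_subset ht)).1⟩
  have hu : ∀ k t, (u k).1 t = if t ∈ C (N k) then (N k : ℝ)⁻¹ else 0 := fun _ _ => rfl
  have bd : ∀ A ∈ F0.F, ∃ j, ∀ k, (A ∩ C (N k)).card * 2 ^ k ≤ if j ≤ k then 2 * 2 ^ j * N k else 0 := by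
    rintro A (hA | hA)
    · refine ⟨0, fun k => ?_⟩
      have : (A ∩ C (N k)).card ≤ 1 := card_le_one.2 fun a ha b hb => by
        rw [mem_inter] at ha hb
        rcases List.prefix_or_prefix_of_prefix (hC _ a ha.2).2.2 (hC _ b hb.2).2.2 with g | g
        exacts [hA.eq ha.1 hb.1 g, (hA.eq hb.1 ha.1 g).symm]
      have := N0 k
      rw [if_pos k.zero_le]; nlinarith [Nat.two_pow_pos k]
    · by_cases g : ∃ k, (A ∩ C (N k)).Nonempty
      · refine ⟨Nat.find g, fun k => ?_⟩
        obtain ⟨t, ht⟩ := Nat.find_spec g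
        have mn := Nat.find_min g (m := k)
        generalize Nat.find g = j at *
        rcases lt_trichotomy k j with l | rfl | l
        · simp [not_nonempty_iff_eq_empty.1 (mn l)]
        · have := (card_le_card (inter_subset_right (s₁ := A))).trans_eq (hc (N k))
          rw [if_pos le_rfl]; nlinarith [Nat.two_pow_pos k]
        · obtain ⟨i, rfl⟩ := Nat.exists_eq_add_of_lt l
          rw [mem_inter] at ht
          have a := (card_le_card (inter_subset_left (s₂ := C (N (j + i + 1))))).trans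
            ((hA t ht.1).trans (hC _ t ht.2).2.2.length_le)
          have b := N2 (j + 1) i
          rw [show j + 1 + i = j + i + 1 by omega] at b
          rw [if_pos l.le, show 2 ^ (j + i + 1) = 2 * 2 ^ j * 2 ^ i by ring, mul_left_comm]
          refine Nat.mul_le_mul_left _ (le_trans ?_ b)
          rw [mul_comm]; exact Nat.mul_le_mul_left _ (by have := N1 j; omega)
      · push Not at g; exact ⟨0, fun k => by simp [g k]⟩
  have up : ∀ (S : Finset ℕ) (a : ℕ → ℝ) (ε : ℝ), 0 ≤ ε → (∀ k ∈ S, |a k| ≤ ε) → ‖∑ k ∈ S, a k • u k‖ ≤ 4 * ε :=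
    fun S a ε hε ha => nrm_le fun A hA => by
      obtain ⟨j, hj⟩ := bd A hA
      calc _ ≤ ∑ t ∈ A, ∑ k ∈ S, ε * (u k).1 t := sum_le_sum fun t _ => by
            rw [sv]; refine (abs_sum_le_sum_abs _ _).trans (sum_le_sum fun k hk => ?_)
            have : 0 ≤ (u k).1 t := by rw [hu]; positivity
            rw [abs_mul, abs_of_nonneg this]; exact mul_le_mul_of_nonneg_right (ha k hk) this
        _ ≤ ∑ k ∈ S, ε * (2 * 2 ^ j * if j ≤ k then 2⁻¹ ^ k else 0) := by
            rw [sum_comm]; refine sum_le_sum fun k _ => ?_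
            rw [← mul_sum]; refine mul_le_mul_of_nonneg_left ?_ hε
            simp only [hu, sum_ite_mem, sum_const, nsmul_eq_mul]
            have : ((A ∩ C (N k)).card * 2 ^ k : ℝ) ≤ if j ≤ k then 2 * 2 ^ j * N k else 0 := by
              exact_mod_cast hj k
            have p := Np k
            rw [← div_eq_mul_inv, div_le_iff₀ p]
            refine le_of_mul_le_mul_right (this.trans_eq ?_) (show (0 : ℝ) < 2 ^ k by positivity)
            split_ifs
            · rw [inv_pow]; push_cast; field_simp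
            · simp
        _ ≤ _ := by
            have := Summable.sum_le_tsum (f := fun k => if j ≤ k then (2⁻¹ : ℝ) ^ k else 0) S (fun _ _ => by positivity)
              ((summable_geometric_of_lt_one (by norm_num) (by norm_num : (2⁻¹ : ℝ) < 1)).of_nonneg_of_le
                (fun _ => by positivity) fun _ => by split_ifs <;> [rfl; positivity])
            rw [tsum_geometric_inv_two_ge] at this
            rw [← mul_sum, ← mul_sum, mul_comm]
            refine mul_le_mul_of_nonneg_right ((mul_le_mul_of_nonneg_left this (by positivity)).trans_eq ?_) hε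
            rw [inv_pow]; field_simp; norm_num
  have lo : ∀ (S : Finset ℕ) (a : ℕ → ℝ), ∀ k ∈ S, |a k| ≤ ‖∑ k ∈ S, a k • u k‖ := fun S a k hk => by
    refine le_trans (le_of_eq ?_) (le_nrm _ (A := C (N k)) (Or.inr fun t ht => (hc _).trans_le (hC _ t ht).2.1))
    rw [sum_congr rfl (g := fun _ => |a k| * (N k : ℝ)⁻¹) fun t ht => ?_, sum_const, hc, nsmul_eq_mul]
    · have := Np k; field_simp
    · rw [sv, sum_eq_single_of_mem k hk fun i _ ne => ?_, hu, if_pos ht, abs_mul, abs_of_pos (inv_pos.2 (Np k))]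
      rw [hu, if_neg, mul_zero]
      rcases lt_or_gt_of_ne ne with l | l
      exacts [fun g => dj i k l t g ht, dj k i l t ht]
  let ι := Completion.toComplₗᵢ (𝕜 := ℝ) (E := C00 F0 H)
  have nι : ∀ (S : Finset ℕ) (a : ℕ → ℝ), ‖∑ k ∈ S, a k • ι (u k)‖ = ‖∑ k ∈ S, a k • u k‖ := fun S a => by
    rw [← ι.norm_map]; simp
  have sm : ∀ a : C₀(ℕ, ℝ), Summable fun k => a k • ι (u k) := fun a => summable_iff_vanishing_norm.2 fun ε hε => by
    have t := (zero_at_infty a).abs
    rw [cocompact_eq_atTop, abs_zero] at t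
    obtain ⟨M, hM⟩ := eventually_atTop.1 (t.eventually (gt_mem_nhds (show 0 < ε / 5 by positivity)))
    refine ⟨range M, fun S hS => ?_⟩
    rw [nι]
    exact (up S a (ε / 5) (by positivity) fun k hk => (hM k (by simpa using disjoint_left.1 hS hk)).le).trans_lt
      (by linarith)
  have td : ∀ a : C₀(ℕ, ℝ), Tendsto (fun S : Finset ℕ => ‖∑ k ∈ S, a k • ι (u k)‖) atTop (𝓝 ‖∑' k, a k • ι (u k)‖) :=
    fun a => Tendsto.norm (sm a).hasSum
  refine ⟨LinearMap.mkContinuous ⟨⟨fun a => ∑' k, a k • ι (u k), fun a b => ?_⟩, fun c a => ?_⟩ 4 fun a =>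
    le_of_tendsto' (td a) fun S => (nι S a).trans_le (up S a _ (norm_nonneg _) fun k _ => cab a k), 1, one_pos,
    fun a => (one_mul _).trans_le (cle fun k => ge_of_tendsto (td a) ?_)⟩
  · simp [add_smul, (sm a).tsum_add (sm b)]
  · simp [mul_smul, (sm a).tsum_const_smul]
  · filter_upwards [eventually_ge_atTop {k}] with S hS
    exact (lo S a k (hS (mem_singleton_self k))).trans_eq (nι S a).symm

theorem main : ∃ 𝓕 : Cover, ∀ H : Set (List Bool), ¬HasC0 (Completion (C00 𝓕 H)) ↔
    ∃ (m : ℕ) (A : Fin m → Set (List Bool)), (∀ i, IsAntichain (· <+: ·) (A i)) ∧ H = ⋃ i, A i :=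
  ⟨F0, fun H => ⟨fun h => by_contra fun g => h (yes g), by rintro ⟨m, A, hA, rfl⟩; exact no (fun _ => Or.inl) hA⟩⟩

end Pool.Agent.H95.Ach
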