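import Mathlib

namespace Pool.Agent.H95.Ach
open Finset ZeroAtInfty

/-- a family of finite subsets of the binary tree covering it -/
structure Cover where
  F : Set (Finset (List Bool))
  cov : ∀ s, ∃ A ∈ F, s ∈ A

/-- finitely supported vectors on H -/
def C00 (_ : Cover) (H : Set (List Bool)) : Type := Finsupp.supported ℝ ℝ H

variable {𝓕 : Cover} {H : Set (List Bool)}

noncomputable instance : AddCommGroup (C00 𝓕 H) := inferInstanceAs (AddCommGroup (Finsupp.supported ℝ ℝ H))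
noncomputable instance : Module ℝ (C00 𝓕 H) := inferInstanceAs (Module ℝ (Finsupp.supported ℝ ℝ H))
noncomputable instance : Norm (C00 𝓕 H) := ⟨fun x => ⨆ A : 𝓕.F, ∑ k ∈ A.1, |x.1 k|⟩

theorem le_l1 (x : List Bool →₀ ℝ) (A : Finset (List Bool)) : ∑ k ∈ A, |x k| ≤ ∑ k ∈ x.support, |x k| := by
  rw [← sum_filter_ne_zero]
  exact sum_le_sum_of_subset_of_nonneg (fun k h => by simpa using (mem_filter.1 h).2) fun _ _ _ => abs_nonneg _

theorem le_nrm (x : C00 𝓕 H) {A} (h : A ∈ 𝓕.F) : ∑ k ∈ A, |x.1 k| ≤ ‖x‖ :=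
  le_ciSup (f := fun A : 𝓕.F => ∑ k ∈ A.1, |x.1 k|) ⟨_, by rintro _ ⟨A, rfl⟩; exact le_l1 _ _⟩ ⟨A, h⟩

theorem nrm_le {x : C00 𝓕 H} {c : ℝ} (h : ∀ A ∈ 𝓕.F, ∑ k ∈ A, |x.1 k| ≤ c) : ‖x‖ ≤ c :=
  have : Nonempty 𝓕.F := let ⟨A, h, _⟩ := 𝓕.cov []; ⟨⟨A, h⟩⟩
  ciSup_le fun A => h A.1 A.2

theorem ab_le (x : C00 𝓕 H) (k) : |x.1 k| ≤ ‖x‖ :=
  let ⟨_, h, m⟩ := 𝓕.cov k
  (single_le_sum (f := fun k => |x.1 k|) (fun _ _ => abs_nonneg _) m).trans (le_nrm x h)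

theorem core : NormedSpace.Core ℝ (C00 𝓕 H) where
  norm_nonneg x := (abs_nonneg _).trans (ab_le x [])
  norm_smul c x := by
    change ⨆ A : 𝓕.F, ∑ k ∈ A.1, |c * x.1 k| = ‖c‖ * ⨆ A : 𝓕.F, ∑ k ∈ A.1, |x.1 k|
    simp only [Real.mul_iSup_of_nonneg (abs_nonneg c), mul_sum, abs_mul, Real.norm_eq_abs]
  norm_triangle x y := nrm_le fun A h => (sum_le_sum fun k _ => abs_add_le (x.1 k) (y.1 k)).trans
    (sum_add_distrib.trans_le (add_le_add (le_nrm x h) (le_nrm y h)))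
  norm_eq_zero_iff x := ⟨fun h => Subtype.ext (Finsupp.ext fun k => abs_nonpos_iff.1 (h ▸ ab_le x k)), by
    rintro rfl; exact (nrm_le fun A _ => (sum_eq_zero fun _ _ => abs_zero).le).antisymm
      ((abs_nonneg _).trans (ab_le 0 []))⟩

noncomputable instance : NormedAddCommGroup (C00 𝓕 H) := .ofCore core
noncomputable instance : NormedSpace ℝ (C00 𝓕 H) := .ofCore core

/-- X contains a subspace isomorphic to c0 -/
def HasC0 (X : Type) [NormedAddCommGroup X] [NormedSpace ℝ X] : Prop :=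
  ∃ T : C₀(ℕ, ℝ) →L[ℝ] X, ∃ c > 0, ∀ a, c * ‖a‖ ≤ ‖T a‖

end Pool.Agent.H95.Ach
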