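import Pool.Agent.H95.AluDefs

set_option autoImplicit false
open Filter Topology NormedSpace WeakDual MeasureTheory

namespace Pool.Agent.H95.Alu
open Pool.Agent.H95.AluDefs

theorem comm_unit {B : Type*} [NormedCommRing B] [NormedAlgebra ℂ B] [CompleteSpace B] (d : B)
    (hd : ∀ t : ℝ, ‖exp (((t : ℂ) * Complex.I) • d)‖ ≤ 1) {l m : ℝ} (hl : 0 < l) (hm : 0 < m) :
    ∃ u : B, IsUnit u ∧ u * d = exp ((l : ℂ) • d) + exp ((m : ℂ) • d) - 2 := by
  let _ : NormedAlgebra ℚ B := .restrictScalars ℚ ℂ B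
  have hD : ∀ t : ℝ, HasDerivAt (fun t : ℝ => exp ((t : ℂ) • d)) (exp ((t : ℂ) • d) * d) t :=
    fun t => ((hasDerivAt_exp_smul_const d (t : ℂ)).scomp t
      Complex.ofRealCLM.hasDerivAt).congr_deriv (by simp)
  have hc : Continuous fun t : ℝ => exp ((t : ℂ) • d) :=
    continuous_iff_continuousAt.2 fun t => (hD t).continuousAt
  let E : ℝ → B := fun c => ∫ t in (0 : ℝ)..c, exp ((t : ℂ) • d)
  have hE : ∀ c, E c * d = exp ((c : ℂ) • d) - 1 := fun c => by
    have h1 := intervalIntegral.integral_eq_sub_of_hasDerivAt (a := 0) (b := c) (fun t _ => hD t)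
      ((hc.mul continuous_const).intervalIntegrable _ _)
    have h2 := ((ContinuousLinearMap.mul ℂ B).flip d).intervalIntegral_comp_comm
      (hc.intervalIntegrable (μ := volume) 0 c)
    simp only [ContinuousLinearMap.flip_apply, ContinuousLinearMap.mul_apply'] at h2
    rw [← h2, h1]; simp
  refine ⟨E l + E m, ?_, by rw [add_mul, hE, hE]; ring⟩
  by_contra hu
  obtain ⟨χ, hχ⟩ := CharacterSpace.exists_apply_eq_zero hu
  have h1 : ∀ z : ℂ, χ (exp (z • d)) = Complex.exp (z * χ d) := fun z => by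
    rw [map_exp χ (map_continuous χ), map_smul, smul_eq_mul, Complex.exp_eq_exp_ℂ]
  have h2 : (χ d).im = 0 := by
    by_contra h
    have h3 : ∀ t : ℝ, Real.exp (-(t * (χ d).im)) ≤ ‖(1 : B)‖ := fun t => by
      have := (spectrum.norm_le_norm_mul_of_mem (AlgHom.apply_mem_spectrum χ
        (exp (((t : ℂ) * Complex.I) • d)))).trans (mul_le_of_le_one_left (norm_nonneg _) (hd t))
      rw [h1, Complex.norm_exp] at this
      simpa using this
    have h4 := h3 (-‖(1 : B)‖ / (χ d).im)
    rw [div_mul_cancel₀ _ h, neg_neg] at h4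
    linarith [Real.add_one_le_exp ‖(1 : B)‖]
  have h3 : ∀ c, 0 < c → 0 < (χ (E c)).re := fun c hc0 => by
    have h4 := (Complex.reCLM.comp ((CharacterSpace.toCLM χ).restrictScalars ℝ)).intervalIntegral_comp_comm
      (hc.intervalIntegrable (μ := volume) 0 c)
    change _ = (χ (E c)).re at h4
    rw [← h4]
    refine intervalIntegral.intervalIntegral_pos_of_pos
      (Continuous.intervalIntegrable (by fun_prop) _ _) (fun t => ?_) hc0
    change 0 < (χ (exp ((t : ℂ) • d))).re
    rw [h1, Complex.exp_re]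
    simp [h2, Real.exp_pos]
  have := add_pos (h3 l hl) (h3 m hm)
  rw [← Complex.add_re, ← map_add, hχ] at this
  simp at this

theorem gen_unit {R : Type*} [NormedRing R] [NormedAlgebra ℂ R] [CompleteSpace R] (d : R)
    (hd : ∀ t : ℝ, ‖exp (((t : ℂ) * Complex.I) • d)‖ ≤ 1) {l m : ℝ} (hl : 0 < l) (hm : 0 < m) :
    ∃ u : R, IsUnit u ∧ u * d = exp ((l : ℂ) • d) + exp ((m : ℂ) • d) - 2 := by
  let _ : NormedAlgebra ℚ R := .restrictScalars ℚ ℂ R
  let P := Algebra.elemental ℂ d
  let _ : NormedCommRing P := { (inferInstance : NormedRing P) with mul_comm := mul_comm }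
  let _ : NormedAlgebra ℚ P := .restrictScalars ℚ ℂ P
  have : CompleteSpace P := (Algebra.elemental.isClosed ℂ d).completeSpace_coe
  have h1 : ∀ x : P, ((exp x : P) : R) = exp (x : R) := fun x =>
    map_exp P.val continuous_subtype_val x
  obtain ⟨u, hu, h2⟩ := comm_unit (B := P) ⟨d, Algebra.elemental.self_mem ℂ d⟩
    (fun t => by
      change ‖((exp _ : P) : R)‖ ≤ 1
      rw [h1]; exact hd t) hl hm
  refine ⟨u, hu.map P.val, ?_⟩
  have := congrArg Subtype.val h2
  rw [← one_add_one_eq_two] at this ⊢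
  simpa [h1] using this

variable {A : Type*} [CStarAlgebra A]

theorem exp_der (a X : A) (z : ℂ) :
    exp (z • (ContinuousLinearMap.mul ℂ A a - (ContinuousLinearMap.mul ℂ A).flip a)) X =
      exp (z • a) * X * exp (z • -a) := by
  let _ : NormedAlgebra ℚ (A →L[ℂ] A) := .restrictScalars ℚ ℂ _
  set δ := ContinuousLinearMap.mul ℂ A a - (ContinuousLinearMap.mul ℂ A).flip a with hδ
  have h1 : ∀ z : ℂ, HasDerivAt (fun z : ℂ => exp (z • -δ) (exp (z • a) * X * exp (z • -a))) 0 z := by
    intro z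
    refine ((hasDerivAt_exp_smul_const (-δ) z).clm_apply
      (((hasDerivAt_exp_smul_const' a z).mul_const X).mul
        (hasDerivAt_exp_smul_const (-a) z))).congr_deriv ?_
    rw [mul_apply_eq_comp, ← map_add]
    simp [hδ, mul_assoc]
    abel
  have h2 := is_const_of_deriv_eq_zero (fun z => (h1 z).differentiableAt) (fun z => (h1 z).deriv) z 0
  simp only [zero_smul, exp_zero, one_mul, mul_one, one_apply_eq_self] at h2
  conv_lhs => rw [← h2]
  rw [← mul_apply_eq_comp, ← exp_add_of_commute (((Commute.refl δ).neg_right.smul_left z).smul_right z),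
    smul_neg, add_neg_cancel, exp_zero, one_apply_eq_self]

theorem comm_of {a W : A} (ha : IsSelfAdjoint a) {l m : ℝ} (hl : 0 < l) (hm : 0 < m)
    (h : exp (l • a) * W * exp (l • -a) + exp (m • a) * W * exp (m • -a) = W + W) :
    Commute a W := by
  let _ : NormedAlgebra ℚ A := .restrictScalars ℚ ℂ _
  obtain ⟨u, hu, h1⟩ := gen_unit
    (ContinuousLinearMap.mul ℂ A a - (ContinuousLinearMap.mul ℂ A).flip a) (fun t => by
      refine ContinuousLinearMap.opNorm_le_bound _ zero_le_one fun X => ?_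
      have hs : ∀ b : A, IsSelfAdjoint b → exp (((t : ℂ) * Complex.I) • b) ∈ unitary A := fun b hb =>
        exp_mem_unitary_of_mem_skewAdjoint (by
          rw [skewAdjoint.mem_iff, star_smul, hb.star_eq]; simp)
      rw [exp_der, CStarRing.norm_mul_mem_unitary _ (hs _ ha.neg),
        CStarRing.norm_mem_unitary_mul _ (hs _ ha), one_mul]) hl hm
  have h2 := congrArg (fun S : A →L[ℂ] A => S W) h1
  simp only [mul_apply_eq_comp, sub_apply, add_apply, exp_der] at h2
  simp only [Complex.coe_smul] at h2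
  rw [h, ← one_add_one_eq_two, add_apply, one_apply_eq_self, sub_self] at h2
  obtain ⟨v, rfl⟩ := hu
  have h3 := congrArg (↑v⁻¹ : A →L[ℂ] A) h2
  rw [← mul_apply_eq_comp, Units.inv_mul, one_apply_eq_self, map_zero] at h3
  exact sub_eq_zero.1 h3

variable [PartialOrder A] [StarOrderedRing A]

noncomputable def φ (ε x : ℝ) : ℝ := min 1 (max 0 ((x - ε) / ε))

@[fun_prop] theorem φ_cont (ε : ℝ) : Continuous (φ ε) := by unfold φ; fun_prop

theorem φ_lo {ε x : ℝ} (hε : 0 < ε) (h : x ≤ ε) : φ ε x = 0 := by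
  rw [φ, max_eq_left (div_nonpos_of_nonpos_of_nonneg (by linarith) hε.le)]; simp

theorem φ_hi {ε x : ℝ} (hε : 0 < ε) (h : 2 * ε ≤ x) : φ ε x = 1 :=
  min_eq_left (le_max_of_le_right ((one_le_div hε).2 (by linarith)))

theorem approx {P : A} (hP : 0 ≤ P) {μ : ℝ} (hμ : 0 < μ) :
    Tendsto (fun ε => P ^ μ * cfc (φ ε) P) (𝓝[>] 0) (𝓝 (P ^ μ)) := by
  rw [tendsto_iff_norm_sub_tendsto_zero]
  have h0 : Tendsto (fun ε : ℝ => (2 * ε) ^ μ) (𝓝[>] 0) (𝓝 0) := by
    have : Continuous fun ε : ℝ => (2 * ε) ^ μ := 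
      (Real.continuous_rpow_const hμ.le).comp (by fun_prop)
    simpa [hμ.ne'] using (this.tendsto 0).mono_left nhdsWithin_le_nhds
  refine squeeze_zero' (Eventually.of_forall fun _ => norm_nonneg _) ?_ h0
  filter_upwards [self_mem_nhdsWithin] with ε hε
  have hε' : (0 : ℝ) < ε := hε
  have hc : Continuous fun x : ℝ => x ^ μ := Real.continuous_rpow_const hμ.le
  rw [CFC.rpow_eq_cfc_real, ← cfc_mul .., ← cfc_sub ..]
  refine norm_cfc_le (by positivity) fun x hx => ?_
  have hx0 : 0 ≤ x := by grind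
  rcases le_total (2 * ε) x with h | h
  · rw [φ_hi hε' h]; simp; positivity
  · have h1 : 0 ≤ φ ε x := le_min zero_le_one (le_max_left _ _)
    have h2 : φ ε x ≤ 1 := min_le_left _ _
    have h3 : 0 ≤ x ^ μ := by positivity
    have h4 : x ^ μ ≤ (2 * ε) ^ μ := by gcongr
    rw [Real.norm_eq_abs, abs_le]
    constructor <;> nlinarith

theorem key {P V : A} (hP : 0 ≤ P) {l : ℝ} (hl : 0 < l) (hl2 : l < 1)
    (h : P ^ l * V * P ^ (1 - l) + P ^ (1 - l) * V * P ^ l = V * P + V * P) :
    P * (V * P) = V * P * P := by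
  let _ : NormedAlgebra ℚ A := .restrictScalars ℚ ℂ _
  have hm : 0 < 1 - l := by linarith
  have h1 : ∀ ε, 0 < ε → cfc (φ ε) P * (P * V - V * P) * cfc (φ ε) P = 0 := by
    intro ε hε
    have hg : Continuous fun x : ℝ => Real.log (max x ε) :=
      Continuous.log (by fun_prop) fun x => (hε.trans_le (le_max_right _ _)).ne'
    set a := cfc (fun x : ℝ => Real.log (max x ε)) P with ha
    set F := cfc (φ ε) P with hF
    have has : IsSelfAdjoint a := cfc_predicate _ P
    have e1 : ∀ c : ℝ, 0 < c → exp (c • a) * F = F * P ^ c ∧ F * exp (c • a) = P ^ c * F := by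
      intro c hc
      have hc2 : Continuous fun x : ℝ => x ^ c := Real.continuous_rpow_const hc.le
      have e : exp (c • a) = cfc (fun x : ℝ => Real.exp (c * Real.log (max x ε))) P := by
        rw [← CFC.real_exp_eq_normedSpace_exp ((IsSelfAdjoint.all c).smul has), ha,
          ← cfc_const_mul c _ P hg.continuousOn,
          ← cfc_comp' Real.exp (fun x : ℝ => c * Real.log (max x ε)) P (by fun_prop)
            (continuous_const.mul hg).continuousOn]
      have e2 : ∀ x, Real.exp (c * Real.log (max x ε)) * φ ε x = φ ε x * x ^ c := fun x => by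
        rcases le_total x ε with h | h
        · simp [φ_lo hε h]
        · rw [max_eq_left h, Real.rpow_def_of_pos (hε.trans_le h), mul_comm c, mul_comm]
      have hc3 : Continuous fun x : ℝ => Real.exp (c * Real.log (max x ε)) :=
        Real.continuous_exp.comp (continuous_const.mul hg)
      rw [e, CFC.rpow_eq_cfc_real, hF, ← cfc_mul _ _ P hc3.continuousOn, ← cfc_mul ..,
        ← cfc_mul _ _ P (by fun_prop) hc3.continuousOn, ← cfc_mul ..]
      exact ⟨cfc_congr fun x _ => e2 x, cfc_congr fun x _ => by rw [mul_comm, e2, mul_comm]⟩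
    have e3 : ∀ c d : ℝ, exp (c • a) * exp (d • a) = exp ((c + d) • a) := fun c d => by
      rw [add_smul, exp_add_of_commute (((Commute.refl a).smul_left c).smul_right d)]
    have e4 : ∀ c : ℝ, 0 < c → c < 1 → exp (c • a) * (F * V * F) * exp (c • -a) =
        F * (P ^ c * V * P ^ (1 - c)) * F * exp ((-1 : ℝ) • a) := fun c h0 h1 => by
      rw [smul_neg, ← neg_smul, show -c = (1 - c) + -1 by ring, ← e3]
      calc _ = (exp (c • a) * F) * V * (F * exp ((1 - c) • a)) * exp ((-1 : ℝ) • a) := by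
            simp only [mul_assoc]
        _ = _ := by rw [(e1 c h0).1, (e1 _ (by linarith)).2]; simp only [mul_assoc]
    have e5 : F * (V * P) * F * exp ((-1 : ℝ) • a) = F * V * F := by
      have := (e1 1 one_pos).2
      rw [CFC.rpow_one P] at this
      calc _ = F * V * (P * F) * exp ((-1 : ℝ) • a) := by simp only [mul_assoc]
        _ = _ := by rw [← this, mul_assoc (F * V), mul_assoc F (exp _), e3]; simp
    have e6 := (comm_of (W := F * V * F) has hl hm (by
      rw [e4 l hl hl2, e4 _ hm (by linarith), sub_sub_cancel, ← add_mul, ← add_mul, ← mul_add, h,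
        mul_add, add_mul, add_mul, e5])).exp_left
    have e7 := e1 1 one_pos
    rw [CFC.rpow_one P, one_smul] at e7
    calc _ = (F * P) * V * F - F * V * (P * F) := by noncomm_ring
      _ = exp a * (F * V * F) - F * V * F * exp a := by
          rw [← e7.1, ← e7.2]; simp only [mul_assoc]
      _ = 0 := sub_eq_zero.2 e6.eq
  have hcomm : ∀ ε, cfc (φ ε) P * P = P * cfc (φ ε) P := fun ε => by
    have := cfc_commute_cfc (φ ε) (fun x : ℝ => x) P
    rw [cfc_id' ℝ P] at this
    exact this.eq
  have a1 := approx hP one_pos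
  rw [CFC.rpow_one P] at a1
  have h2 : P * ((P * V - V * P) * P) = 0 := by
    refine tendsto_nhds_unique (a1.mul (a1.const_mul (P * V - V * P))) ?_
    refine tendsto_const_nhds.congr' ?_
    filter_upwards [self_mem_nhdsWithin] with ε hε
    nth_rewrite 2 [← hcomm ε]
    calc (0 : A) = P * (cfc (φ ε) P * (P * V - V * P) * cfc (φ ε) P) * P := by rw [h1 ε hε]; simp
      _ = _ := by simp only [mul_assoc]
  set Y := (P * V - V * P) * P with hY
  have h3 : ∀ μ : ℝ, 0 < μ → star Y * P ^ μ = 0 := fun μ hμ => by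
    have h4 : P ^ μ * Y = 0 := by
      refine tendsto_nhds_unique ((approx hP hμ).mul_const Y) (tendsto_const_nhds.congr' ?_)
      filter_upwards [self_mem_nhdsWithin] with ε hε
      have hε' : (0 : ℝ) < ε := hε
      have hc : Continuous fun x : ℝ => φ ε x / max x ε :=
        Continuous.div (by fun_prop) (by fun_prop) fun x => (hε'.trans_le (le_max_right _ _)).ne'
      have : cfc (φ ε) P = cfc (fun x : ℝ => φ ε x / max x ε) P * P := by
        nth_rewrite 3 [← cfc_id' ℝ P]
        rw [← cfc_mul _ _ P hc.continuousOn]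
        refine cfc_congr fun x _ => ?_
        rcases le_total x ε with h | h
        · simp [φ_lo hε' h]
        · rw [max_eq_left h, div_mul_cancel₀ _ (hε'.trans_le h).ne']
      rw [this, mul_assoc, mul_assoc, h2, mul_zero, mul_zero]
    have := congrArg star h4
    rwa [star_mul, star_zero, (IsSelfAdjoint.of_nonneg (CFC.rpow_nonneg (a := P) (y := μ))).star_eq] at this
  have h4 : star Y * (V * P) = 0 := by
    have : (2 : ℂ) • (star Y * (V * P)) = 0 := by
      rw [two_smul, ← mul_add, ← h, mul_add, mul_assoc, mul_assoc, ← mul_assoc, ← mul_assoc _ (P ^ (1 - l)),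
        h3 l hl, h3 _ hm]
      simp
    simpa using this
  have h5 := h3 1 one_pos
  rw [CFC.rpow_one P] at h5
  have h6 : star Y * Y = 0 := by
    nth_rewrite 2 [hY]
    rw [sub_mul, mul_sub, mul_assoc P, ← mul_assoc _ P, h5, ← mul_assoc _ (V * P), h4]
    simp
  have h7 := (CStarRing.star_mul_self_eq_zero_iff Y).1 h6
  rw [hY, sub_mul, sub_eq_zero] at h7
  rw [← mul_assoc, h7]

theorem main : FixedQuasiNormal A := by
  intro l T V h0 h1 hp h
  have hP := CFC.abs_nonneg T
  have h2 := hp.1
  rw [← CFC.abs_mul_abs T]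
  unfold meanAl aluthge at h
  set P := CFC.abs T
  have h3 : P ^ l * V * P ^ (1 - l) + P ^ (1 - l) * V * P ^ l = V * P + V * P := by
    rw [sub_sub_cancel] at h
    rw [← h2, ← two_smul ℝ T, ← h, smul_smul]
    norm_num
  have h4 : P * T = T * P := by
    rw [h2]
    rcases eq_or_lt_of_le h0 with rfl | h0
    · rw [sub_zero, CFC.rpow_zero P, CFC.rpow_one P, one_mul, mul_one, add_right_inj] at h3
      rw [← mul_assoc, h3]
    · exact key hP h0 (by linarith) h3
  rw [← mul_assoc, ← h4, mul_assoc, ← h4, mul_assoc]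

end Pool.Agent.H95.Alu
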