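import Mathlib

set_option autoImplicit false

namespace Pool.Agent.H95.AluDefs

variable {A : Type*} [CStarAlgebra A] [PartialOrder A] [StarOrderedRing A]

/-- `T = V |T|` with `V` a partial isometry having the same kernel projection as `T`
(`V X = 0` exactly when `T X = 0`) -/
def IsPolar (T V : A) : Prop :=
  T = V * CFC.abs T ∧ V * star V * V = V ∧ ∀ X : A, V * X = 0 ↔ T * X = 0

/-- `Δ_μ(T) = |T|^μ V |T|^{1-μ}` -/
noncomputable def aluthge (μ : ℝ) (T V : A) : A := CFC.abs T ^ μ * V * CFC.abs T ^ (1 - μ)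

/-- `M_λ(T) = (Δ_λ(T) + Δ_{1-λ}(T)) / 2` -/
noncomputable def meanAl (l : ℝ) (T V : A) : A :=
  (1 / 2 : ℝ) • (aluthge l T V + aluthge (1 - l) T V)

variable (A) in
/-- every fixed point of `M_λ`, `0 ≤ λ ≤ 1/2`, commutes with `T* T` -/
def FixedQuasiNormal : Prop :=
  ∀ (l : ℝ) (T V : A), 0 ≤ l → l ≤ 1 / 2 → IsPolar T V → meanAl l T V = T →
    T * (star T * T) = star T * T * T

end Pool.Agent.H95.AluDefs
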