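import Pool.Agent.H95.AlzDefs

set_option autoImplicit false
open MeasureTheory Set Real Filter
open scoped NNReal

namespace Pool.Agent.H95.Alz
open Pool.Agent.H95.AlzDefs

variable {A : Type*} [CStarAlgebra A] [PartialOrder A] [StarOrderedRing A]

theorem rep {p : ℝ} (hp : p ∈ Ioo (0 : ℝ) 1) {μ : Measure ℝ}
    (hμ : ∀ x ∈ Ici (0 : ℝ), (IntegrableOn (fun t => rpowIntegrand₀₁ p t x) (Ioi 0) μ)
      ∧ x ^ p = ∫ t in Ioi 0, rpowIntegrand₀₁ p t x ∂μ) {a : A} (ha : 0 ≤ a) :
    (IntegrableOn (fun t => cfc (rpowIntegrand₀₁ p t) a) (Ioi 0) μ)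
      ∧ a ^ p = ∫ t in Ioi 0, cfc (rpowIntegrand₀₁ p t) a ∂μ := by
  have p_pos : 0 < (p : ℝ) := hp.1
  let f t := rpowIntegrand₀₁ p t
  let bound (t : ℝ) := ‖f t (‖a‖ * ‖(1 : A)‖)‖
  have hf : ContinuousOn (Function.uncurry f) (Ioi (0 : ℝ) ×ˢ spectrum ℝ a) :=
    continuousOn_rpowIntegrand₀₁_uncurry hp (spectrum ℝ a) (by grind)
  have hbound : ∀ᵐ t ∂μ.restrict (Ioi 0), ∀ z ∈ spectrum ℝ a, ‖f t z‖ ≤ bound t := by
    filter_upwards [ae_restrict_mem measurableSet_Ioi] with t ht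
    intro z hz
    have hz' : 0 ≤ z := by grind
    unfold bound f
    rw [Real.norm_of_nonneg (rpowIntegrand₀₁_nonneg p_pos (le_of_lt ht) hz'),
        Real.norm_of_nonneg (rpowIntegrand₀₁_nonneg p_pos (le_of_lt ht) (by positivity))]
    refine rpowIntegrand₀₁_monotoneOn hp (le_of_lt ht) hz' (mem_Ici.2 (by positivity)) ?_
    exact (le_abs_self z).trans (spectrum.norm_le_norm_mul_of_mem hz)
  have hfin : HasFiniteIntegral bound (μ.restrict (Ioi 0)) := by
    rw [hasFiniteIntegral_norm_iff]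
    exact (hμ _ (mem_Ici.2 (by positivity))).1.2
  refine ⟨integrableOn_cfc measurableSet_Ioi _ bound a hf hbound hfin, ?_⟩
  calc a ^ p = cfc (fun r => ∫ t in Ioi 0, rpowIntegrand₀₁ p t r ∂μ) a := by
        rw [CFC.rpow_eq_cfc_real]
        exact cfc_congr fun r _ ↦ (hμ r (by grind)).2
    _ = _ := cfc_setIntegral measurableSet_Ioi _ bound a hf hbound hfin ha.isSelfAdjoint

theorem moments {p : ℝ} (hp : p ∈ Ioo (0 : ℝ) 1) {μ : Measure ℝ}
    (hμ : ∀ x ∈ Ici (0 : ℝ), (IntegrableOn (fun t => rpowIntegrand₀₁ p t x) (Ioi 0) μ)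
      ∧ x ^ p = ∫ t in Ioi 0, rpowIntegrand₀₁ p t x ∂μ) :
    IntegrableOn (fun t => rpowIntegrand₀₁ p t 1 * (t / (1 + t))) (Ioi 0) μ ∧
      ∫ t in Ioi 0, rpowIntegrand₀₁ p t 1 * (t / (1 + t)) ∂μ = p := by
  have h1 := hμ 1 (by simp)
  have hI : IntegrableOn (fun t => rpowIntegrand₀₁ p t 1 * (t / (1 + t))) (Ioi 0) μ := by
    refine Integrable.mul_bdd (c := 1) h1.1 (Measurable.aestronglyMeasurable (by fun_prop)) ?_
    filter_upwards [ae_restrict_mem measurableSet_Ioi] with t ht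
    have : (0 : ℝ) < t := ht
    rw [Real.norm_of_nonneg (by positivity), div_le_one (by positivity)]
    linarith
  refine ⟨hI, ?_⟩
  set s := ∫ t in Ioi 0, rpowIntegrand₀₁ p t 1 * (t / (1 + t)) ∂μ
  have h2 : ∀ x : ℝ, 0 < x → x ^ p ≤ 1 + s * (x - 1) := by
    intro x hx
    rw [(hμ x hx.le).2]
    nth_rewrite 1 [← one_rpow p]
    rw [h1.2, ← integral_mul_const, ← integral_add h1.1 (hI.mul_const _)]
    refine integral_mono_ae (hμ x hx.le).1 (h1.1.add (hI.mul_const _)) ?_
    filter_upwards [ae_restrict_mem measurableSet_Ioi] with t ht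
    have ht' : (0 : ℝ) < t := ht
    rw [rpowIntegrand₀₁_eq_pow_div hp ht'.le hx.le, rpowIntegrand₀₁_eq_pow_div hp ht'.le zero_le_one,
      ← sub_nonneg]
    have : t ^ (p - 1) * 1 / (t + 1) + t ^ (p - 1) * 1 / (t + 1) * (t / (1 + t)) * (x - 1) -
        t ^ (p - 1) * x / (t + x) = t ^ (p - 1) * t * (x - 1) ^ 2 / ((t + 1) ^ 2 * (t + x)) := by
      field_simp; ring
    rw [this]
    positivity
  have h3 : IsLocalMin (fun x : ℝ => 1 + s * (x - 1) - x ^ p) 1 := by
    filter_upwards [Ioi_mem_nhds one_pos] with x hx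
    simpa using h2 x hx
  have h4 := h3.hasDerivAt_eq_zero (((((hasDerivAt_id (1 : ℝ)).sub_const 1).const_mul s).const_add
    1).sub (hasDerivAt_rpow_const (Or.inl one_ne_zero)))
  simpa [sub_eq_zero] using h4

/-- data of a parallel sum -/
theorem par {Z X : A} (hZ : IsStrictlyPositive Z) (hX : 0 ≤ X) {p t : ℝ} (hp : p ∈ Ioo (0 : ℝ) 1)
    (ht : 0 < t) : ∃ h : A, Z ^ (1 / 2 : ℝ) * cfc (rpowIntegrand₀₁ p t)
      (Z ^ (-(1 / 2) : ℝ) * X * Z ^ (-(1 / 2) : ℝ)) * Z ^ (1 / 2 : ℝ) = t ^ (p - 1) • h ∧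
      (∀ y, ∃ a b, a + b = y ∧ star y * h * y = star a * Z * a + t⁻¹ • (star b * X * b)) ∧
      ∀ a b, star (a + b) * h * (a + b) ≤ star a * Z * a + t⁻¹ • (star b * X * b) := by
  set S := Z ^ (1 / 2 : ℝ)
  set Si := Z ^ (-(1 / 2) : ℝ)
  have h1 : S * Si = 1 := CFC.rpow_mul_rpow_neg _ hZ
  have h2 : Si * S = 1 := CFC.rpow_neg_mul_rpow _ hZ
  have h3 : S * S = Z := by
    rw [← CFC.rpow_add hZ.isUnit, add_halves, CFC.rpow_one _ hZ.nonneg]
  have hS : star S = S := (IsSelfAdjoint.of_nonneg CFC.rpow_nonneg).star_eq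
  have hC : 0 ≤ Si * X * Si := conjugate_nonneg_of_nonneg hX CFC.rpow_nonneg
  set C := Si * X * Si with hCd
  have hX2 : X = S * C * S := by
    rw [hCd, ← mul_assoc, ← mul_assoc, h1, one_mul, mul_assoc, h2, mul_one]
  have hne : ∀ x ∈ spectrum ℝ C, t + x ≠ 0 := fun x hx => by
    have : 0 ≤ x := by grind
    positivity
  have hc : ContinuousOn (fun x : ℝ => x / (t + x)) (spectrum ℝ C) :=
    continuousOn_id.div (by fun_prop) hne
  set K := cfc (fun x : ℝ => x / (t + x)) C with hK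
  have hKs : star K = K := (cfc_predicate _ C : IsSelfAdjoint K).star_eq
  have hCs : star C = C := hC.isSelfAdjoint.star_eq
  have hCK : C * K = C - t • K := by
    have : cfc (fun x : ℝ => x * (x / (t + x))) C = cfc (fun x : ℝ => x - t * (x / (t + x))) C :=
      cfc_congr fun x hx => by have := hne x hx; field_simp; ring
    rwa [cfc_mul .., cfc_sub .., cfc_const_mul .., cfc_id' ℝ C] at this
  have hKC : K * C = C - t • K := by
    have := congrArg star hCK
    rwa [star_mul, star_sub, star_smul, hKs, hCs, star_trivial] at this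
  have key : ∀ y e : A, star (K * y + e) * (K * y + e) +
      t⁻¹ • (star (y - K * y - e) * C * (y - K * y - e)) =
      star y * K * y + (star e * e + t⁻¹ • (star e * C * e)) := by
    intro y e
    have a1 : ∀ w, C * (K * w) = C * w - t • (K * w) := fun w => by
      rw [← mul_assoc, hCK, sub_mul, smul_mul_assoc]
    have a2 : ∀ w, K * (C * w) = C * w - t • (K * w) := fun w => by
      rw [← mul_assoc, hKC, sub_mul, smul_mul_assoc]
    simp only [star_add, star_sub, star_mul, hKs, mul_add, add_mul, mul_sub, sub_mul, mul_assoc, a1,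
      a2, mul_smul_comm, smul_sub, smul_add, smul_smul, inv_mul_cancel₀ ht.ne', one_smul]
    abel
  have tr : ∀ a b : A, star a * Z * a + t⁻¹ • (star b * X * b) =
      star (S * a) * (S * a) + t⁻¹ • (star (S * b) * C * (S * b)) := fun a b => by
    rw [← h3, hX2]
    simp only [star_mul, hS, mul_assoc]
  have tr2 : ∀ y : A, star y * (S * K * S) * y = star (S * y) * K * (S * y) := fun y => by
    simp only [star_mul, hS, mul_assoc]
  refine ⟨S * K * S, ?_, fun y => ⟨Si * (K * (S * y)), y - Si * (K * (S * y)), by abel, ?_⟩,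
    fun a b => ?_⟩
  · rw [← smul_mul_assoc, ← mul_smul_comm, hK, ← cfc_const_mul ..]
    congr 2
    refine cfc_congr fun x hx => ?_
    rw [rpowIntegrand₀₁_eq_pow_div hp ht.le (by grind), mul_div_assoc]
  · have := key (S * y) 0
    rw [tr, tr2, mul_sub, ← mul_assoc S Si, h1, one_mul]
    simpa using this.symm
  · have := key (S * (a + b)) (S * a - K * (S * (a + b)))
    rw [tr, tr2, show S * b = S * (a + b) - K * (S * (a + b)) - (S * a - K * (S * (a + b))) by
      rw [mul_add S]; abel]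
    rw [add_sub_cancel] at this
    rw [this]
    exact le_add_of_nonneg_right (add_nonneg (star_mul_self_nonneg _)
      (smul_nonneg (by positivity) (star_left_conjugate_nonneg hC _)))

def Q (Z Z' m : A) : Prop := ∀ p q : A,
  (1 / 2 : ℝ) • (star p * p - star q * q) +
    (1 / 2 : ℝ) • (star (p + q) * ((1 / 2 : ℝ) • 1 - m) * (p + q)) ≤ star p * Z' * p - star q * Z * q

theorem Q_base {X : A} (h : X ≤ (1 / 2 : ℝ) • 1) : Q X (1 - X) X := by
  intro p q
  have h1 := smul_nonneg (show (0 : ℝ) ≤ 1 / 2 by norm_num)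
    (star_left_conjugate_nonneg (sub_nonneg.2 h) (p - q))
  rw [← sub_nonneg]
  convert h1 using 1
  simp only [star_add, star_sub, mul_add, add_mul, mul_sub, sub_mul, mul_assoc, mul_smul_comm,
    smul_mul_assoc, one_mul]
  module

theorem Q_step {Z Z' m X X' : A} (h1 : Q Z Z' m) (h2 : Q X X' X) (hZ : IsStrictlyPositive Z)
    (hZ' : IsStrictlyPositive Z') (hX : 0 ≤ X) (hX' : 0 ≤ X') {n : ℕ} (hn : 2 ≤ n) :
    Q (Phi n X Z) (Phi n X' Z') (m + (1 / n : ℝ) • (X - m)) := by
  have hn' : (2 : ℝ) ≤ n := by exact_mod_cast hn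
  have hp : (1 / n : ℝ) ∈ Ioo (0 : ℝ) 1 := ⟨by positivity, (div_lt_one (by positivity)).2 (by linarith)⟩
  unfold Phi
  generalize (1 / n : ℝ) = r at hp
  obtain ⟨μ, hμ⟩ := exists_measure_rpow_eq_integral_rpowIntegrand₀₁ hp
  obtain ⟨m1, m2⟩ := moments hp hμ
  obtain ⟨m3, m4⟩ := hμ 1 (by simp)
  intro p q
  obtain ⟨i1, e1⟩ := rep hp hμ (conjugate_nonneg_of_nonneg hX
    (CFC.rpow_nonneg (a := Z) (y := -(1 / 2))))
  obtain ⟨i2, e2⟩ := rep hp hμ (conjugate_nonneg_of_nonneg hX'
    (CFC.rpow_nonneg (a := Z') (y := -(1 / 2))))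
  let L := fun y S : A => ContinuousLinearMap.mulLeftRight ℝ A (star y * S) (S * y)
  have hL : ∀ y S W : A, star y * (S * W * S) * y = L y S W := fun y S W => by
    simp [L, mul_assoc]
  set U := (1 / 2 : ℝ) • (star p * p - star q * q) +
    (1 / 2 : ℝ) • (star (p + q) * ((1 / 2 : ℝ) • 1 - m) * (p + q)) with hU
  set V := (1 / 2 : ℝ) • (star (p + q) * (m - X) * (p + q)) with hV
  have e3 : (1 / 2 : ℝ) • (star p * p - star q * q) + (1 / 2 : ℝ) • (star (p + q) *
      ((1 / 2 : ℝ) • 1 - (m + r • (X - m))) * (p + q)) = (1 : ℝ) ^ r • U + r • V := by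
    rw [hU, hV, one_rpow]
    simp only [mul_add, add_mul, mul_sub, sub_mul, mul_assoc, mul_smul_comm, smul_mul_assoc]
    module
  rw [e3, hL, hL, e1, e2, ← (L _ _).integral_comp_comm i1, ← (L _ _).integral_comp_comm i2,
    ← integral_sub ((L _ _).integrable_comp i2) ((L _ _).integrable_comp i1), m4]
  nth_rewrite 2 [← m2]
  rw [← integral_smul_const, ← integral_smul_const, ← integral_add (m3.smul_const _) (m1.smul_const _)]
  refine integral_mono_ae ((m3.smul_const _).add (m1.smul_const _))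
    (((L _ _).integrable_comp i2).sub ((L _ _).integrable_comp i1)) ?_
  filter_upwards [ae_restrict_mem measurableSet_Ioi] with t ht
  have ht' : (0 : ℝ) < t := ht
  obtain ⟨h, g1, -, g2⟩ := par hZ hX hp ht'
  obtain ⟨h', g3, g4, -⟩ := par hZ' hX' hp ht'
  obtain ⟨a, b, rfl, g5⟩ := g4 p
  set σ := a + b + q with hσ
  have g6 := g2 ((1 / (1 + t)) • σ - a) ((t / (1 + t)) • σ - b)
  have g7 : (1 / (1 + t)) • σ - a + ((t / (1 + t)) • σ - b) = q := by
    have : 1 / (1 + t) + t / (1 + t) = 1 := by field_simp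
    rw [sub_add_sub_comm, ← add_smul, this, one_smul, hσ]; abel
  rw [g7] at g6
  have g8 := h1 a ((1 / (1 + t)) • σ - a)
  have g9 := smul_le_smul_of_nonneg_left (h2 b ((t / (1 + t)) • σ - b)) (inv_pos.2 ht').le
  rw [← hL, ← hL, g1, g3, mul_smul_comm, smul_mul_assoc, mul_smul_comm, smul_mul_assoc, ← smul_sub,
    rpowIntegrand₀₁_eq_pow_div hp ht'.le zero_le_one, mul_div_assoc, mul_assoc, mul_smul, mul_smul,
    ← smul_add]
  refine smul_le_smul_of_nonneg_left ?_ (by positivity)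
  rw [g5]
  refine le_trans (le_of_eq ?_) ((add_le_add g8 g9).trans ?_)
  · have hq : q = σ - a - b := by rw [hσ]; abel
    rw [hU, hV, hq]
    clear_value σ
    simp only [add_sub_cancel, star_add, star_sub, star_smul, star_trivial, mul_add, add_mul,
      mul_sub, sub_mul, mul_assoc, mul_smul_comm, smul_mul_assoc, one_mul]
    match_scalars <;> field_simp <;> ring
  · rw [smul_sub, ← add_sub_add_comm]
    exact sub_le_sub_left g6 _

theorem Phi_pos {X Y : A} (hX : IsStrictlyPositive X) (hY : IsStrictlyPositive Y) (n : ℕ) :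
    IsStrictlyPositive (Phi n X Y) := by
  have h1 : IsStrictlyPositive (Y ^ (-(1 / 2) : ℝ) * X * Y ^ (-(1 / 2) : ℝ)) :=
    ⟨conjugate_nonneg_of_nonneg hX.nonneg CFC.rpow_nonneg,
      ((hY.rpow _ _).isUnit.mul hX.isUnit).mul (hY.rpow _ _).isUnit⟩
  exact ⟨conjugate_nonneg_of_nonneg CFC.rpow_nonneg CFC.rpow_nonneg,
    ((hY.rpow _ _).isUnit.mul (h1.rpow _ _).isUnit).mul (hY.rpow _ _).isUnit⟩

theorem compl_pos {X : A} (h : X ≤ (1 / 2 : ℝ) • 1) : IsStrictlyPositive (1 - X) := by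
  refine IsStrictlyPositive.of_le (a := (1 / 2 : ℝ) • (1 : A))
    (IsStrictlyPositive.smul (by norm_num) isStrictlyPositive_one) ?_
  rw [le_sub_comm]
  convert h using 1
  module

theorem ind (L : List A) : ∀ X : A, (∀ Y ∈ X :: L, IsStrictlyPositive Y ∧ Y ≤ (1 / 2 : ℝ) • 1) →
    IsStrictlyPositive (GM X L) ∧ IsStrictlyPositive (GM (1 - X) (L.map (1 - ·))) ∧
      Q (GM X L) (GM (1 - X) (L.map (1 - ·))) (AM X L) := by
  induction L with
  | nil =>
    intro X h
    have h1 := h X (by simp)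
    exact ⟨h1.1, compl_pos h1.2, by simpa [AM, GM] using Q_base h1.2⟩
  | cons Y L ih =>
    intro X h
    have h1 := h X (by simp)
    obtain ⟨a, b, c⟩ := ih Y fun W hW => h W (List.mem_cons_of_mem _ hW)
    refine ⟨Phi_pos h1.1 a _, Phi_pos (compl_pos h1.2) b _, ?_⟩
    have := Q_step c (Q_base h1.2) a b h1.1.nonneg (compl_pos h1.2).nonneg (n := L.length + 2)
      (by omega)
    simp only [List.map_cons, GM, List.length_map]
    convert this using 1
    simp only [AM, List.length_cons, List.sum_cons]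
    push_cast
    match_scalars <;> field_simp <;> ring

theorem main : Alzer A := by
  intro X L h
  have h1 := (ind L X h).2.2 1 1
  have h2 : ∀ L : List A, (L.map (1 - ·)).sum = (L.length : ℝ) • 1 - L.sum := fun L => by
    induction L with
    | nil => simp
    | cons Y L ih => simp only [List.map_cons, List.sum_cons, ih, List.length_cons]; push_cast; module
  have h3 : AM (1 - X) (L.map (1 - ·)) = 1 - AM X L := by
    simp only [AM, h2, List.length_map]
    match_scalars <;> field_simp <;> ring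
  rw [h3, ← sub_nonneg]
  convert sub_nonneg.2 h1 using 1
  simp only [star_add, star_one, mul_add, add_mul, mul_one, one_mul]
  module

end Pool.Agent.H95.Alz
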