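import Mathlib

set_option autoImplicit false

namespace Pool.Agent.H95.AlzDefs

variable {A : Type*} [CStarAlgebra A] [PartialOrder A] [StarOrderedRing A]

/-- `Φ_{1/m}(X, Y) = Y^{1/2} (Y^{-1/2} X Y^{-1/2})^{1/m} Y^{1/2}` -/
noncomputable def Phi (m : ℕ) (X Y : A) : A :=
  Y ^ (1 / 2 : ℝ) * (Y ^ (-(1 / 2) : ℝ) * X * Y ^ (-(1 / 2) : ℝ)) ^ (1 / m : ℝ) * Y ^ (1 / 2 : ℝ)

/-- the recursively defined geometric mean of `X :: L` -/
noncomputable def GM : A → List A → A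
  | X, [] => X
  | X, Y :: L => Phi (L.length + 2) X (GM Y L)

/-- the arithmetic mean of `X :: L` -/
noncomputable def AM (X : A) (L : List A) : A := (1 / (L.length + 1) : ℝ) • (X + L.sum)

variable (A) in
/-- Alzer's inequality for all finite sequences `X :: L` of elements with `0 < A_j ≤ 1/2` -/
def Alzer : Prop :=
  ∀ (X : A) (L : List A), (∀ Y ∈ X :: L, IsStrictlyPositive Y ∧ Y ≤ (1 / 2 : ℝ) • 1) →
    AM (1 - X) (L.map (1 - ·)) - GM (1 - X) (L.map (1 - ·)) ≤ AM X L - GM X L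

end Pool.Agent.H95.AlzDefs
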