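import Pool.Agent.H95.AsyDefs

set_option autoImplicit false
open Filter Topology Metric
open scoped BoundedContinuousFunction ComplexOrder

namespace Pool.Agent.H95.Asy
open Pool.Agent.H95.AsyDefs

variable {L : (ℕ →ᵇ ℂ) →ₗ[ℂ] ℂ}

theorem L_ge (hL : IsBanachLimit L) (f : ℕ →ᵇ ℂ) (c : ℝ) (h : ∀ n, (c : ℂ) ≤ f n) :
    c ≤ (L f).re := by
  have h1 := hL.pos (f - (c : ℂ) • 1) (fun n => by simpa using h n)
  rw [map_sub, map_smul, hL.one, smul_eq_mul, mul_one, sub_nonneg] at h1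
  simpa using (Complex.le_def.1 h1).1

theorem L_le (hL : IsBanachLimit L) (f : ℕ →ᵇ ℂ) (c : ℝ) (h : ∀ n, f n ≤ (c : ℂ)) :
    (L f).re ≤ c := by
  have h1 := hL.pos ((c : ℂ) • 1 - f) (fun n => by simpa using h n)
  rw [map_sub, map_smul, hL.one, smul_eq_mul, mul_one, sub_nonneg] at h1
  simpa using (Complex.le_def.1 h1).1

variable {H : Type*} [NormedAddCommGroup H] [InnerProductSpace ℂ H]

theorem exists_seq {T : H →L[ℂ] H} {M : ℝ} (hM : ∀ n : ℕ, ‖T ^ n‖ ≤ M) (x y : H) :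
    ∃ f : ℕ →ᵇ ℂ, ∀ n, f n = inner ℂ ((T ^ n) y) ((T ^ n) x) := by
  refine ⟨BoundedContinuousFunction.ofNormedAddCommGroupDiscrete
    (fun n => inner ℂ ((T ^ n) y) ((T ^ n) x)) (M * ‖y‖ * (M * ‖x‖)) fun n => ?_, fun n => rfl⟩
  have hM0 : 0 ≤ M := (norm_nonneg _).trans (hM 0)
  refine (norm_inner_le_norm _ _).trans ?_
  gcongr
  · exact (T ^ n).le_of_opNorm_le (hM n) _
  · exact (T ^ n).le_of_opNorm_le (hM n) _

theorem iso (hL : IsBanachLimit L) {T A : H →L[ℂ] H} {M : ℝ} (hM : ∀ n : ℕ, ‖T ^ n‖ ≤ M)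
    (hA : IsAsympLimit L T A) (m : ℕ) (x y : H) :
    inner ℂ ((T ^ m) y) (A ((T ^ m) x)) = inner ℂ y (A x) := by
  induction m generalizing x y with
  | zero => simp
  | succ m ih =>
    rw [pow_succ, mul_apply_eq_comp, mul_apply_eq_comp, ih]
    obtain ⟨f, hf⟩ := exists_seq hM x y
    obtain ⟨g, hg⟩ := exists_seq hM (T x) (T y)
    rw [hA _ _ f hf, hA _ _ g hg]
    refine hL.shift f g fun n => ?_
    rw [hg, hf, pow_succ, mul_apply_eq_comp, mul_apply_eq_comp]

theorem close {A : H →L[ℂ] H} (hA : IsCompactOperator A) (u : ℕ → H) (R : ℝ)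
    (hu : ∀ n, ‖u n‖ ≤ R) {ε : ℝ} (hε : 0 < ε) (m0 : ℕ) :
    ∃ m k, m0 ≤ k ∧ ‖A (u (m + k)) - A (u m)‖ < ε := by
  obtain ⟨K, hK, hKA⟩ := hA.image_closedBall_subset_compact (f := (A : H →ₗ[ℂ] H)) R
  obtain ⟨a, -, φ, hφ, hlim⟩ := hK.tendsto_subseq (x := fun n => A (u n))
    (fun n => hKA ⟨u n, by simpa using hu n, rfl⟩)
  obtain ⟨i, hi⟩ := Metric.tendsto_atTop.1 hlim (ε / 2) (by linarith)
  have h1 : φ i + m0 ≤ φ (i + m0) := by
    induction m0 with
    | zero => simp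
    | succ k ih => have := hφ (show i + k < i + (k + 1) by omega); omega
  refine ⟨φ i, φ (i + m0) - φ i, by omega, ?_⟩
  rw [show φ i + (φ (i + m0) - φ i) = φ (i + m0) by omega, ← dist_eq_norm]
  have := dist_triangle_right (A (u (φ (i + m0)))) (A (u (φ i))) a
  have h2 := hi (i + m0) (by omega)
  have h3 := hi i le_rfl
  simp only [Function.comp] at h2 h3
  linarith

theorem no_inj [CompleteSpace H] (hH : ¬ FiniteDimensional ℂ H) (hL : IsBanachLimit L)
    {T A : H →L[ℂ] H} (hT : PowerBounded T) (hA : IsAsympLimit L T A) (hp : A.IsPositive)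
    (hc : IsCompactOperator A) : ¬ Function.Injective A := by
  intro hinj
  obtain ⟨M0, hM0⟩ := hT
  set M := max M0 1 with hMd
  have hM : ∀ n : ℕ, ‖T ^ n‖ ≤ M := fun n => (hM0 n).trans (le_max_left _ _)
  have hM1 : 0 < M := lt_of_lt_of_le one_pos (le_max_right _ _)
  have hsym : ∀ z x, inner ℂ (A z) x = inner ℂ z (A x) := fun z x => hp.isSymmetric z x
  have hdense : DenseRange A := by
    have h1 : (LinearMap.range (A : H →ₗ[ℂ] H))ᗮ = ⊥ := by
      rw [Submodule.eq_bot_iff]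
      intro x hx
      have h2 : inner ℂ (A x) (A x) = 0 := by
        rw [← hsym]
        exact hx _ ⟨A x, rfl⟩
      exact hinj (by rw [map_zero]; exact inner_self_eq_zero.1 h2)
    have h2 := Submodule.dense_iff_topologicalClosure_eq_top.2
      (Submodule.topologicalClosure_eq_top_iff.2 h1)
    exact h2
  have low : ∀ x m, ‖x‖ ≤ M * ‖(T ^ m) x‖ := by
    intro x m0
    set R := M * ‖(T ^ m0) x‖
    have h1 : ∀ z, ‖inner ℂ (A z) x‖ ≤ R * ‖A z‖ := by
      intro z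
      refine le_of_forall_pos_le_add fun ε hε => ?_
      obtain ⟨m, k, hk, hmk⟩ := close hc (fun n => (T ^ n) x) (M * ‖x‖)
        (fun n => (T ^ n).le_of_opNorm_le (hM n) _) (ε := ε / (M * ‖z‖ + 1)) (by positivity) m0
      have e1 : inner ℂ (A z) x = inner ℂ (A z) ((T ^ k) x) -
          inner ℂ ((T ^ m) z) (A ((T ^ (m + k)) x) - A ((T ^ m) x)) := by
        rw [inner_sub_right, pow_add, mul_apply_eq_comp, iso hL hM hA, iso hL hM hA, hsym, hsym]
        ring
      have e2 : ‖(T ^ k) x‖ ≤ R := by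
        obtain ⟨j, rfl⟩ := Nat.exists_eq_add_of_le' hk
        rw [pow_add, mul_apply_eq_comp]
        exact (T ^ j).le_of_opNorm_le (hM j) _
      rw [e1]
      refine (norm_sub_le _ _).trans (add_le_add ?_ ?_)
      · refine (norm_inner_le_norm _ _).trans ?_
        rw [mul_comm]
        gcongr
      · refine (norm_inner_le_norm _ _).trans ?_
        have e3 : ‖(T ^ m) z‖ ≤ M * ‖z‖ + 1 :=
          ((T ^ m).le_of_opNorm_le (hM m) _).trans (by linarith)
        calc _ ≤ (M * ‖z‖ + 1) * (ε / (M * ‖z‖ + 1)) := by gcongr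
          _ = ε := by field_simp
    have h2 : ‖inner ℂ x x‖ ≤ R * ‖x‖ := by
      refine hdense.induction_on (p := fun w => ‖inner ℂ w x‖ ≤ R * ‖w‖) x ?_ ?_
      · exact isClosed_le (by fun_prop) (by fun_prop)
      · exact h1
    rw [inner_self_eq_norm_sq_to_K] at h2
    rcases eq_or_lt_of_le (norm_nonneg x) with h | h
    · rw [← h]; positivity
    · have h3 : ‖x‖ * ‖x‖ ≤ R * ‖x‖ := by simpa [sq] using h2
      exact le_of_mul_le_mul_right h3 h
  have low2 : ∀ x, ‖x‖ ≤ M ^ 2 * ‖A x‖ := by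
    intro x
    obtain ⟨f, hf⟩ := exists_seq hM x x
    have h1 := L_ge hL f ((‖x‖ / M) ^ 2) fun n => by
      rw [hf, inner_self_eq_norm_sq_to_K]
      have : (‖x‖ / M) ^ 2 ≤ ‖(T ^ n) x‖ ^ 2 := by
        gcongr
        rw [div_le_iff₀' hM1]
        exact low x n
      have h2 := Complex.real_le_real.2 this
      simpa using h2
    rw [← hA x x f hf] at h1
    have h2 : (inner ℂ x (A x)).re ≤ ‖x‖ * ‖A x‖ :=
      (Complex.re_le_norm _).trans (norm_inner_le_norm _ _)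
    rcases eq_or_lt_of_le (norm_nonneg x) with h | h
    · rw [← h]; positivity
    · have h3 : ‖x‖ * ‖x‖ ≤ (M ^ 2 * ‖A x‖) * ‖x‖ := by
        have := h1.trans h2
        rw [div_pow, div_le_iff₀ (by positivity)] at this
        nlinarith
      exact le_of_mul_le_mul_right h3 h
  obtain ⟨R, u, -, hu, hsep⟩ := exists_seq_norm_le_one_le_norm_sub hH
  obtain ⟨m, k, hk, hmk⟩ := close hc u R hu (ε := 1 / M ^ 2) (by positivity) 1
  have h1 := hsep (show m + k ≠ m by omega)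
  have h2 := low2 (u (m + k) - u m)
  rw [map_sub] at h2
  rw [lt_div_iff₀' (by positivity)] at hmk
  linarith

end Pool.Agent.H95.Asy
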