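import Pool.Agent.H95.Asy1

set_option autoImplicit false
open Filter Topology Metric
open scoped BoundedContinuousFunction ComplexOrder

namespace Pool.Agent.H95.Asy
open Pool.Agent.H95.AsyDefs

theorem ideal_lemma {𝒜 : Type*} [CStarAlgebra 𝒜] (P : 𝒜 → Prop) (h0 : P 0)
    (hadd : ∀ a b, P a → P b → P (a + b)) (hl : ∀ a b, P b → P (a * b))
    (hr : ∀ a b, P a → P (a * b)) (hcl : IsClosed {a | P a}) (a : 𝒜) (ha : IsStarNormal a)
    (t : ℂ) (h : ∀ z, z ≠ t → ∃ b, P ((a - z • 1) * b - 1)) : P (a - t • 1) := by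
  let φ := cfcHom (R := ℂ) ha
  let J : Ideal C(spectrum ℂ a, ℂ) :=
    { carrier := {g | P (φ g)}
      add_mem' := fun {f g} hf hg => by
        change P (φ (f + g)); rw [map_add]; exact hadd _ _ hf hg
      zero_mem' := by change P (φ 0); rw [map_zero]; exact h0
      smul_mem' := fun c g hg => by
        change P (φ (c * g)); rw [map_mul]; exact hl _ _ hg }
  have hJ : IsClosed (J : Set C(spectrum ℂ a, ℂ)) := hcl.preimage (cfcHom_continuous ha)
  let w : ℂ → C(spectrum ℂ a, ℂ) := fun z => ⟨fun s => (s : ℂ) - z, by fun_prop⟩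
  have hw : ∀ z, φ (w z) = a - z • 1 := by
    intro z
    have : w z = (ContinuousMap.id ℂ).restrict (spectrum ℂ a) - z • 1 := by
      ext s; simp [w]
    rw [this, map_sub, map_smul, map_one, cfcHom_id]
  have key : ∀ s : spectrum ℂ a, (s : ℂ) ≠ t → ∃ g ∈ J, g s ≠ 0 := by
    intro s0 hs0
    obtain ⟨b, hb⟩ := h s0 hs0
    set ε : ℝ := 1 / (2 * (‖b‖ + 1)) with hε
    have hεp : 0 < ε := by positivity
    let g : C(spectrum ℂ a, ℂ) := ⟨fun s => ((max 0 (ε - ‖(s : ℂ) - s0‖) : ℝ) : ℂ), by fun_prop⟩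
    let d : C(spectrum ℂ a, ℂ) := ⟨fun s => ((s : ℂ) - s0) * ((ε / max ε ‖(s : ℂ) - s0‖ : ℝ) : ℂ), by
      refine Continuous.mul (by fun_prop) (Complex.continuous_ofReal.comp ?_)
      exact Continuous.div continuous_const (by fun_prop)
        fun s => (lt_of_lt_of_le hεp (le_max_left _ _)).ne'⟩
    have hgd : g * w s0 = g * d := by
      ext s
      simp only [ContinuousMap.mul_apply, g, d, w, ContinuousMap.coe_mk]
      rcases le_total ε ‖(s : ℂ) - s0‖ with h1 | h1
      · rw [max_eq_left (by linarith)]; simp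
      · rw [max_eq_left h1, div_self hεp.ne']; simp
    have hd : ‖d‖ ≤ ε := by
      refine (ContinuousMap.norm_le _ hεp.le).2 fun s => ?_
      have hm : 0 < max ε ‖(s : ℂ) - s0‖ := lt_of_lt_of_le hεp (le_max_left _ _)
      simp only [d, ContinuousMap.coe_mk]
      rw [norm_mul, Complex.norm_real, Real.norm_of_nonneg (by positivity), ← mul_div_assoc,
        div_le_iff₀ hm, mul_comm]
      gcongr
      exact le_max_right _ _
    have hd2 : ‖φ d * b‖ < 1 := by
      have h1 : ‖φ d‖ ≤ ε := by rw [norm_cfcHom a d ha]; exact hd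
      calc ‖φ d * b‖ ≤ ε * ‖b‖ := (norm_mul_le _ _).trans (by gcongr)
        _ < ε * (2 * (‖b‖ + 1)) := by gcongr; linarith [norm_nonneg b]
        _ = 1 := by rw [hε]; field_simp
    refine ⟨g, ?_, ?_⟩
    · change P (φ g)
      have h1 := hl (-φ g) _ hb
      have h2 : -φ g * ((a - (s0 : ℂ) • 1) * b - 1) = φ g * (1 - φ d * b) := by
        rw [← hw, mul_sub, ← mul_assoc, neg_mul, neg_mul, ← map_mul, hgd, map_mul]
        noncomm_ring
      rw [h2] at h1
      have h3 := hr _ (↑(Units.oneSub _ hd2)⁻¹ : 𝒜) h1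
      have h4 : (1 - φ d * b) * (↑(Units.oneSub _ hd2)⁻¹ : 𝒜) = 1 := (Units.oneSub _ hd2).mul_inv
      rwa [mul_assoc, h4, mul_one] at h3
    · simp [g, hεp.ne', hεp.le]
  have : w t ∈ J := by
    rw [← ContinuousMap.idealOfSet_ofIdeal_isClosed hJ, ContinuousMap.mem_idealOfSet]
    intro s hs
    by_contra hne
    have hst : (s : ℂ) ≠ t := fun h => hne (by simp [w, h])
    exact hs (ContinuousMap.mem_setOfIdeal.2 (key s hst))
  rw [← hw]
  exact this

variable {H : Type*} [NormedAddCommGroup H] [InnerProductSpace ℂ H]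

theorem compact_of_ess [CompleteSpace H] {A : H →L[ℂ] H} (hp : A.IsPositive) {t : ℂ}
    (h : essSpec A = {t}) : IsCompactOperator (A - t • (1 : H →L[ℂ] H) : H →L[ℂ] H) := by
  refine ideal_lemma (𝒜 := H →L[ℂ] H) (fun X => IsCompactOperator X) isCompactOperator_zero
    (fun a b ha hb => ha.add hb) (fun a b hb => hb.clm_comp a) (fun a b ha => ha.comp_clm b)
    isClosed_setOf_isCompactOperator A hp.isSelfAdjoint.isStarNormal t fun z hz => ?_
  have hz2 : z ∉ essSpec A := by rw [h]; exact hz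
  obtain ⟨B, hB, -⟩ := not_not.1 hz2
  exact ⟨B, hB⟩

theorem exists_on [CompleteSpace H] (hH : ¬ FiniteDimensional ℂ H) :
    ∃ x : ℕ → H, Orthonormal ℂ x := by
  obtain ⟨w, b, hb⟩ := exists_hilbertBasis ℂ H
  have hw : w.Infinite := by
    intro hfin
    apply hH
    have h1 := b.dense_span
    have h2 : FiniteDimensional ℂ (Submodule.span ℂ (Set.range b)) := by
      have := hfin.to_subtype
      exact FiniteDimensional.span_of_finite _ (Set.finite_range _)
    rw [(Submodule.closed_of_finiteDimensional _).submodule_topologicalClosure_eq] at h1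
    rw [h1] at h2
    exact Module.Finite.equiv (Submodule.topEquiv (R := ℂ) (M := H))
  exact ⟨_, b.orthonormal.comp _ hw.natEmbedding.injective⟩

theorem bessel [CompleteSpace H] {K : H →L[ℂ] H} (hK : IsCompactOperator K) {x : ℕ → H}
    (hx : Orthonormal ℂ x) {M : ℝ} (hM : 0 < M) {η : ℝ} (hη : 0 < η) :
    ∃ N : ℕ, 0 < N ∧ ∀ S : H →L[ℂ] H, ‖S‖ ≤ M →
      ∑ i ∈ Finset.range N, ‖inner ℂ (S (x i)) (K (S (x i)))‖ ≤ η * N := by
  obtain ⟨C, hC, hKC⟩ := hK.image_closedBall_subset_compact (f := (K : H →ₗ[ℂ] H)) M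
  obtain ⟨F0, hF0, hcov⟩ := Metric.totallyBounded_iff.1 hC.totallyBounded (η / (3 * M))
    (by positivity)
  set F := hF0.toFinset
  set δ : ℝ := η / (3 * (F.card + 1)) with hδ
  have hδp : 0 < δ := by positivity
  set D : ℝ := ∑ u ∈ F, (M * ‖u‖) ^ 2 / δ
  obtain ⟨N, hN⟩ := exists_nat_gt (max 0 (3 * D / η))
  have hN0 : (0 : ℝ) < N := (le_max_left _ _).trans_lt hN
  have hN1 : D ≤ η / 3 * N := by
    have := (le_max_right _ _).trans_lt hN
    rw [div_lt_iff₀ hη] at this
    linarith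
  refine ⟨N, by exact_mod_cast hN0, fun S hS => ?_⟩
  have h1 : ∀ i, ‖inner ℂ (S (x i)) (K (S (x i)))‖ ≤ η / 3 +
      ∑ u ∈ F, (δ + ‖inner ℂ (x i) (S.adjoint u)‖ ^ 2 / δ) := by
    intro i
    have hy : ‖S (x i)‖ ≤ M := by simpa [hx.1 i] using S.le_of_opNorm_le hS (x i)
    obtain ⟨u, hu, hKu⟩ := Set.mem_iUnion₂.1 (hcov (hKC ⟨S (x i), by simpa using hy, rfl⟩))
    have hKu2 : ‖K (S (x i)) - u‖ ≤ η / (3 * M) := (mem_ball_iff_norm.1 hKu).le
    have e : inner ℂ (S (x i)) (K (S (x i))) =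
        inner ℂ (S (x i)) (K (S (x i)) - u) + inner ℂ (x i) (S.adjoint u) := by
      rw [ContinuousLinearMap.adjoint_inner_right, inner_sub_right]; ring
    rw [e]
    refine (norm_add_le _ _).trans (add_le_add ?_ ?_)
    · refine (norm_inner_le_norm _ _).trans ?_
      calc _ ≤ M * (η / (3 * M)) := by gcongr
        _ = η / 3 := by field_simp
    · refine le_trans ?_ (Finset.single_le_sum
        (f := fun u => δ + ‖inner ℂ (x i) (S.adjoint u)‖ ^ 2 / δ) (fun u _ => by positivity)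
        (hF0.mem_toFinset.2 hu))
      set r := ‖inner ℂ (x i) (S.adjoint u)‖
      have : δ + r ^ 2 / δ - r = ((δ - r) ^ 2 + δ * r) / δ := by field_simp; ring
      have h2 : 0 ≤ ((δ - r) ^ 2 + δ * r) / δ := by positivity
      linarith
  refine (Finset.sum_le_sum fun i _ => h1 i).trans ?_
  rw [Finset.sum_add_distrib, Finset.sum_comm]
  have h2 : ∀ u ∈ F, ∑ i ∈ Finset.range N, (δ + ‖inner ℂ (x i) (S.adjoint u)‖ ^ 2 / δ) ≤
      N * δ + (M * ‖u‖) ^ 2 / δ := by
    intro u _
    rw [Finset.sum_add_distrib]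
    refine add_le_add (by simp) ?_
    rw [← Finset.sum_div]
    refine div_le_div_of_nonneg_right ?_ hδp.le
    refine (hx.sum_inner_products_le _).trans ?_
    gcongr
    exact S.adjoint.le_of_opNorm_le (by rw [LinearIsometryEquiv.norm_map]; exact hS) u
  refine (add_le_add le_rfl (Finset.sum_le_sum h2)).trans ?_
  rw [Finset.sum_add_distrib]
  simp only [Finset.sum_const, Finset.card_range, nsmul_eq_mul]
  have h3 : (F.card : ℝ) * δ ≤ η / 3 := by
    rw [hδ, ← mul_div_assoc, div_le_div_iff₀ (by positivity) (by positivity)]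
    nlinarith
  have h4 : (F.card : ℝ) * (N * δ) ≤ η / 3 * N := by nlinarith
  linarith

theorem ess_one [CompleteSpace H] {L : (ℕ →ᵇ ℂ) →ₗ[ℂ] ℂ} (hH : ¬ FiniteDimensional ℂ H)
    (hL : IsBanachLimit L) {T A : H →L[ℂ] H} (hT : PowerBounded T) (hA : IsAsympLimit L T A)
    (hp : A.IsPositive) {t : ℝ} (ht : 0 < t) (h : essSpec A = {(t : ℂ)}) : t = 1 := by
  have hK := compact_of_ess hp h
  set K : H →L[ℂ] H := A - (t : ℂ) • 1 with hKd
  obtain ⟨M0, hM0⟩ := hT
  set M := max M0 1 with hMd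
  have hM : ∀ n : ℕ, ‖T ^ n‖ ≤ M := fun n => (hM0 n).trans (le_max_left _ _)
  have hM1 : 0 < M := lt_of_lt_of_le one_pos (le_max_right _ _)
  obtain ⟨x, hx⟩ := exists_on hH
  have key : ∀ η : ℝ, 0 < η → |1 - t| * (t - η) ≤ η := by
    intro η hη
    obtain ⟨N, hN, hb⟩ := bessel hK hx hM1 hη
    have hN' : (0 : ℝ) < N := by exact_mod_cast hN
    set α : ℝ := (∑ i ∈ Finset.range N, inner ℂ (x i) (A (x i))).re with hα
    have h1 : ∀ n : ℕ, |α - t * ∑ i ∈ Finset.range N, ‖(T ^ n) (x i)‖ ^ 2| ≤ η * N := by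
      intro n
      refine le_trans ?_ (hb _ (hM n))
      refine le_trans ?_ (norm_sum_le _ _)
      refine le_trans (le_of_eq ?_) (Complex.abs_re_le_norm _)
      congr 1
      rw [hα, Finset.mul_sum, Complex.re_sum, Complex.re_sum, ← Finset.sum_sub_distrib]
      refine Finset.sum_congr rfl fun i _ => ?_
      rw [← iso hL hM hA n, hKd, ContinuousLinearMap.sub_apply, inner_sub_right,
        ContinuousLinearMap.smul_apply, one_apply_eq_self, inner_smul_right,
        inner_self_eq_norm_sq_to_K]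
      simp [← Complex.ofReal_pow]
    have h2 : |α - t * N| ≤ η * N := by simpa [hx.1] using h1 0
    choose f hf using fun i => exists_seq hM (x i) (x i)
    have h3 : (L (∑ i ∈ Finset.range N, f i)).re = α := by
      rw [map_sum, hα]
      congr 1
      exact Finset.sum_congr rfl fun i _ => (hA _ _ _ (hf i)).symm
    have h4 : ∀ n, (∑ i ∈ Finset.range N, f i) n =
        ((∑ i ∈ Finset.range N, ‖(T ^ n) (x i)‖ ^ 2 : ℝ) : ℂ) := by
      intro n
      rw [BoundedContinuousFunction.sum_apply]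
      push_cast
      refine Finset.sum_congr rfl fun i _ => ?_
      rw [hf, inner_self_eq_norm_sq_to_K]
      simp
    have h5 := L_ge hL (∑ i ∈ Finset.range N, f i) ((α - η * N) / t) fun n => by
      rw [h4, Complex.real_le_real, div_le_iff₀' ht]
      linarith [(abs_le.1 (h1 n)).2]
    have h6 := L_le hL (∑ i ∈ Finset.range N, f i) ((α + η * N) / t) fun n => by
      rw [h4, Complex.real_le_real, le_div_iff₀' ht]
      linarith [(abs_le.1 (h1 n)).1]
    rw [h3] at h5 h6
    rw [div_le_iff₀' ht] at h5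
    rw [le_div_iff₀' ht] at h6
    have h7 : |1 - t| * α ≤ η * N := by
      rcases abs_cases (1 - t) with h8 | h8 <;> rw [h8.1] <;> linarith
    have h8 : (t - η) * N ≤ α := by linarith [(abs_le.1 h2).1]
    have h9 : |1 - t| * ((t - η) * N) ≤ η * N := le_trans (by gcongr) h7
    rw [← mul_assoc] at h9
    exact le_of_mul_le_mul_right h9 hN'
  by_contra hne
  have hpos : 0 < |1 - t| := abs_pos.2 (sub_ne_zero.2 (Ne.symm hne))
  have := key (|1 - t| * t / (2 * (|1 - t| + 1))) (by positivity)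
  set r := |1 - t|
  have e : r * t / (2 * (r + 1)) * (r + 1) = r * t / 2 := by field_simp
  have : 0 < r * t := by positivity
  nlinarith

end Pool.Agent.H95.Asy
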