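import Mathlib

set_option autoImplicit false
open scoped BoundedContinuousFunction ComplexOrder

namespace Pool.Agent.H95.AsyDefs

/-- A Banach limit on the bounded complex sequences. -/
structure IsBanachLimit (L : (ℕ →ᵇ ℂ) →ₗ[ℂ] ℂ) : Prop where
  pos : ∀ f : ℕ →ᵇ ℂ, (∀ n, 0 ≤ f n) → 0 ≤ L f
  shift : ∀ f g : ℕ →ᵇ ℂ, (∀ n, g n = f (n + 1)) → L g = L f
  one : L 1 = 1

variable {H : Type*} [NormedAddCommGroup H] [InnerProductSpace ℂ H]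

def PowerBounded (T : H →L[ℂ] H) : Prop := ∃ M : ℝ, ∀ n : ℕ, ‖T ^ n‖ ≤ M

/-- `A` is the `L`-asymptotic limit of `T`. -/
def IsAsympLimit (L : (ℕ →ᵇ ℂ) →ₗ[ℂ] ℂ) (T A : H →L[ℂ] H) : Prop :=
  ∀ (x y : H) (f : ℕ →ᵇ ℂ), (∀ n, f n = inner ℂ ((T ^ n) y) ((T ^ n) x)) →
    inner ℂ y (A x) = L f

/-- `X` is invertible modulo the compact operators. -/
def CalkinUnit (X : H →L[ℂ] H) : Prop :=
  ∃ B : H →L[ℂ] H, IsCompactOperator (fun x => X (B x) - x) ∧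
    IsCompactOperator (fun x => B (X x) - x)

/-- The essential spectrum. -/
def essSpec (A : H →L[ℂ] H) : Set ℂ := {z | ¬ CalkinUnit (A - z • ContinuousLinearMap.id ℂ H)}

end Pool.Agent.H95.AsyDefs
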