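import Pool.Agent.H95.BConvDefs

namespace Pool.Agent.H95.BConv
open MeasureTheory Set Metric Filter Topology

variable {β : ℝ} {ν : Measure ℝ}

theorem f_nonneg (h1 : 1 < β) (n : ℕ) (x : ℝ) : 0 ≤ f β n x := by
  induction n generalizing x with
  | zero => exact indicator_nonneg (fun _ _ => by linarith) _
  | succ n ih => exact indicator_nonneg (fun x _ => mul_nonneg (by linarith) (add_nonneg (ih _) (ih _))) _

theorem step (h1 : 1 < β) (h : IsBC β ν) (x r : ℝ) :
    ν.real (closedBall (β * x) (β * r)) + ν.real (closedBall (β * x - 1) (β * r)) ≤ 2 * ν.real (closedBall x r) := by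
  obtain ⟨_, h2, h3⟩ := h
  have b0 : 0 < β := by linarith
  have L : β * (1 / (β - 1)) = 1 / (β - 1) + 1 := by field_simp [(sub_pos.2 h1).ne']; ring
  have key : ∀ c ∈ Icc (0 : ℝ) 1, ν (closedBall (β * x - c) (β * r)) ≤
      ν ((fun x => β * x - c) '' (closedBall x r ∩ I β)) := fun c hc => by
    rw [← measure_inter_conull h2]
    refine measure_mono fun y ⟨a, b⟩ => ⟨(y + c) / β, ⟨?_, div_nonneg (add_nonneg b.1 hc.1) b0.le, ?_⟩, by field_simp; ring⟩
    · rw [mem_closedBall, Real.dist_eq] at *
      rwa [show (y + c) / β - x = (y - (β * x - c)) / β by field_simp; ring, abs_div, abs_of_pos b0, div_le_iff₀' b0]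
    · rw [div_le_iff₀' b0]; linarith [b.2, hc.2]
  have a := key 0 (by simp)
  simp only [sub_zero] at a
  have := (ENNReal.div_le_div_right (add_le_add a (key 1 (by simp))) 2).trans
    ((h3 _ (measurableSet_closedBall.inter measurableSet_Icc) inter_subset_right).symm.trans_le
      (measure_mono inter_subset_left))
  have := ENNReal.toReal_mono (measure_ne_top _ _) this
  rw [ENNReal.toReal_div, ENNReal.toReal_add (measure_ne_top _ _) (measure_ne_top _ _)] at this
  simp only [Measure.real, ENNReal.toReal_ofNat] at *; linarith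

theorem bound (h1 : 1 < β) (h : IsBC β ν) (n : ℕ) (x : ℝ) :
    f β n x ≤ (β - 1) * β ^ n * ν.real (closedBall x (1 / (β - 1) / β ^ n)) := by
  have b1 := sub_pos.2 h1
  haveI := h.1
  induction n generalizing x with
  | zero =>
    refine indicator_apply_le' (fun hx => ?_) fun _ => by positivity
    have : ν (closedBall x (1 / (β - 1))) = 1 := (prob_compl_eq_zero_iff measurableSet_closedBall).1
      (measure_mono_null (compl_subset_compl.2 fun y hy => by
        rw [mem_closedBall, Real.dist_eq, abs_le]; constructor <;> linarith [hx.1, hx.2, hy.1, hy.2]) h.2.1)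
    simp only [Measure.real, pow_zero, div_one, this]; simp
  | succ n ih =>
    refine indicator_apply_le' (fun _ => ?_) fun _ => by positivity
    have := step h1 h x (1 / (β - 1) / β ^ (n + 1))
    rw [show β * (1 / (β - 1) / β ^ (n + 1)) = 1 / (β - 1) / β ^ n by rw [pow_succ]; field_simp] at this
    generalize ν.real (closedBall x (1 / (β - 1) / β ^ (n + 1))) = c at *
    have p : 0 ≤ β / 2 * ((β - 1) * β ^ n) := by positivity
    have u := mul_le_mul_of_nonneg_left this p
    have v := mul_le_mul_of_nonneg_left (add_le_add (ih (β * x)) (ih (β * x - 1))) (show 0 ≤ β / 2 by positivity)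
    rw [pow_succ]; linarith

theorem main (h1 : 1 < β) (h : IsBC β ν) (hs : ν ⟂ₘ volume) :
    ∀ᵐ x, Tendsto (fun n => f β n x) atTop (𝓝 0) := by
  haveI := h.1
  have b1 := sub_pos.2 h1
  filter_upwards [Besicovitch.ae_tendsto_rnDeriv ν volume, (Measure.rnDeriv_eq_zero ν volume).2 hs] with x a b
  rw [b] at a
  have t : Tendsto (fun n : ℕ => 1 / (β - 1) / β ^ n) atTop (𝓝[>] 0) := tendsto_nhdsWithin_iff.2
    ⟨(tendsto_pow_atTop_atTop_of_one_lt h1).const_div_atTop _, Eventually.of_forall fun n => by
      simp only [mem_Ioi]; positivity⟩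
  have := ((ENNReal.tendsto_toReal ENNReal.zero_ne_top).comp (a.comp t)).const_mul 2
  refine squeeze_zero (fun n => f_nonneg h1 n x) (fun n => (bound h1 h n x).trans_eq ?_) (by simpa using this)
  simp only [Function.comp, Real.volume_closedBall, ENNReal.toReal_div, Measure.real]
  rw [ENNReal.toReal_ofReal (by positivity)]; field_simp

end Pool.Agent.H95.BConv
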