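import Mathlib

namespace Pool.Agent.H95.BConv
open MeasureTheory Set

def I (β : ℝ) : Set ℝ := Icc 0 (1 / (β - 1))

/-- the densities `f n`, zero outside the interval -/
noncomputable def f (β : ℝ) : ℕ → ℝ → ℝ
  | 0 => (I β).indicator fun _ => β - 1
  | n + 1 => (I β).indicator fun x => β / 2 * (f β n (β * x) + f β n (β * x - 1))

/-- probability measure on the interval with the self-similarity of the Bernoulli convolution -/
def IsBC (β : ℝ) (ν : Measure ℝ) : Prop :=
  IsProbabilityMeasure ν ∧ ν (I β)ᶜ = 0 ∧ ∀ A, MeasurableSet A → A ⊆ I β →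
    ν A = (ν ((fun x => β * x) '' A) + ν ((fun x => β * x - 1) '' A)) / 2

end Pool.Agent.H95.BConv
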