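import Pool.Agent.H95.BesDefs

/-! Besicovitch maps are meager among interval maps with dense periodic points. -/

set_option autoImplicit false

namespace Pool.Agent.H95.Bes

open Set Filter Topology unitInterval
open scoped Classical

lemma maxfam {X τ : Type} [TopologicalSpace X] (V : τ → Set X) (C : Set τ)
    (h : ∀ O, IsOpen O → O.Nonempty → ∃ s ∈ C, (V s).Nonempty ∧ V s ⊆ O) :
    ∃ F ⊆ C, F.PairwiseDisjoint V ∧ Dense (⋃ s ∈ F, V s) := by
  obtain ⟨F, hF⟩ := zorn_subset {F | F ⊆ C ∧ F.PairwiseDisjoint V} fun c hc hch =>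
    ⟨⋃₀ c, ⟨sUnion_subset fun F hF => (hc hF).1,
      (pairwiseDisjoint_sUnion hch.directedOn).2 fun F hF => (hc hF).2⟩,
      fun F hF => subset_sUnion_of_mem hF⟩
  refine ⟨F, hF.prop.1, hF.prop.2, dense_iff_inter_open.2 fun O hO hne => ?_⟩
  by_contra hc
  obtain ⟨s, h1, h2, h3⟩ := h O hO hne
  have h4 : ∀ s' ∈ F, Disjoint (V s) (V s') := fun s' hs' => disjoint_left.2 fun x hx hx' =>
    hc ⟨x, h3 hx, mem_biUnion hs' hx'⟩
  have h5 : s ∈ F := hF.le_of_ge (y := insert s F) ⟨insert_subset h1 hF.prop.1,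
    hF.prop.2.insert fun s' hs' _ => h4 s' hs'⟩ (subset_insert _ _) (mem_insert _ _)
  exact h2.ne_empty (disjoint_self.1 (h4 s h5))

theorem oxtoby {X τ : Type} [TopologicalSpace X] (V : τ → Set X) (P : ℕ → τ → Prop)
    (Rl : ℕ → τ → τ → Prop) {A : Set X} (hV : ∀ k s, P k s → IsOpen (V s))
    (h0 : ∀ O, IsOpen O → O.Nonempty → ∃ s, P 0 s ∧ (V s).Nonempty ∧ V s ⊆ O)
    (h1 : ∀ k s, P k s → ∀ O, IsOpen O → O.Nonempty → O ⊆ V s →
      ∃ s', P (k + 1) s' ∧ Rl k s s' ∧ (V s').Nonempty ∧ V s' ⊆ O)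
    (h2 : ∀ s : ℕ → τ, (∀ k, P k (s k)) → (∀ k, Rl k (s k) (s (k + 1))) →
      ∀ x, (∀ k, x ∈ V (s k)) → x ∈ A) : A ∈ residual X := by
  let Q : ℕ → Set τ → Prop := fun k F => (∀ s ∈ F, P k s) ∧ F.PairwiseDisjoint V ∧
    Dense (⋃ s ∈ F, V s)
  obtain ⟨F0, a0, b0⟩ := maxfam V {s | P 0 s} h0
  have st : ∀ k (F : {F // Q k F}), ∃ F', Q (k + 1) F' ∧
      ∀ s' ∈ F', ∃ s ∈ F.1, Rl k s s' ∧ V s' ⊆ V s := fun k F => by
    obtain ⟨F', a, b⟩ := maxfam V {s' | P (k + 1) s' ∧ ∃ s ∈ F.1, Rl k s s' ∧ V s' ⊆ V s}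
      fun O hO hne => by
        obtain ⟨x, hx, hx'⟩ := F.2.2.2.inter_open_nonempty O hO hne
        obtain ⟨s, hs, hx'⟩ := mem_iUnion₂.1 hx'
        obtain ⟨s', c1, c2, c3, c4⟩ := h1 k s (F.2.1 s hs) (O ∩ V s)
          (hO.inter (hV k s (F.2.1 s hs))) ⟨x, hx, hx'⟩ inter_subset_right
        exact ⟨s', ⟨c1, s, hs, c2, c4.trans inter_subset_right⟩, c3, c4.trans inter_subset_left⟩
    exact ⟨F', ⟨fun s hs => (a hs).1, b⟩, fun s hs => (a hs).2⟩
  choose nx n1 n2 using st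
  let F : ∀ k, {F // Q k F} := fun k => Nat.rec ⟨F0, a0, b0⟩ (fun k F => ⟨nx k F, n1 k F⟩) k
  refine mem_of_superset ((countable_iInter_mem (s := fun k => ⋃ s ∈ (F k).1, V s)).2 fun k =>
    residual_of_dense_open (isOpen_biUnion fun s hs => hV k s ((F k).2.1 s hs)) (F k).2.2.2)
    fun x hx => ?_
  choose s hs hx using fun k => mem_iUnion₂.1 (mem_iInter.1 hx k)
  refine h2 s (fun k => (F k).2.1 _ (hs k)) (fun k => ?_) x hx
  obtain ⟨s', c1, c2, c3⟩ := n2 k (F k) _ (hs (k + 1))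
  rwa [(F k).2.2.1.elim_set (hs k) c1 x (hx k) (c3 (hx (k + 1)))]

/-- a homeomorphism pushing `q` towards `p = q - η`, supported in `[q - η, q + η]` -/
lemma exists_h (q η c : ℝ) (hη : 0 < η) (h0 : 0 ≤ q - η) (h1 : q + η ≤ 1) (hc0 : 0 ≤ c)
    (hc1 : c < 1) : ∃ h : I ≃o I, (∀ t : I, (t : ℝ) ≤ q - η ∨ q + η ≤ t → h t = t) ∧
      (∀ t, h t ≤ t) ∧ (∀ t : I, (t : ℝ) - η ≤ h t) ∧ ∀ t : I, (t : ℝ) = q → (h t : ℝ) = q - c * η := by
  let H : ℝ → ℝ := fun t => t - c * max 0 (η - |t - q|)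
  have Hc : Continuous H := by fun_prop
  have Hm : StrictMono H := fun s t hst => by
    have h2 : max 0 (η - |t - q|) ≤ max 0 (η - |s - q|) + (t - s) := by
      have := abs_sub_abs_le_abs_sub (s - q) (t - q)
      rw [show s - q - (t - q) = -(t - s) by ring, abs_neg, abs_of_pos (sub_pos.2 hst)] at this
      apply max_le
      · linarith [le_max_left 0 (η - |s - q|)]
      · linarith [le_max_right 0 (η - |s - q|)]
    simp only [H]
    nlinarith
  have Hid : ∀ t, t ≤ q - η ∨ q + η ≤ t → H t = t := fun t ht => by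
    have : η - |t - q| ≤ 0 := by
      rcases ht with ht | ht
      · linarith [neg_le_abs (t - q)]
      · linarith [le_abs_self (t - q)]
    simp only [H, max_eq_left this]; ring
  have H0 : H 0 = 0 := Hid 0 (Or.inl h0)
  have H1 : H 1 = 1 := Hid 1 (Or.inr h1)
  let h : I → I := fun t => ⟨H t, H0 ▸ Hm.monotone t.2.1, H1 ▸ Hm.monotone t.2.2⟩
  have hm : StrictMono h := fun s t hst => Hm hst
  have hs : Function.Surjective h := fun y => by
    have := intermediate_value_Icc (zero_le_one' ℝ) Hc.continuousOn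
    rw [H0, H1] at this
    obtain ⟨t, ht, e⟩ := this y.2
    exact ⟨⟨t, ht⟩, Subtype.ext e⟩
  refine ⟨hm.orderIsoOfSurjective h hs, fun t ht => Subtype.ext (Hid t ht), fun t => ?_,
    fun t => ?_, fun t ht => ?_⟩
  · show H t ≤ t
    simp only [H]
    nlinarith [le_max_left 0 (η - |(t : ℝ) - q|)]
  · show (t : ℝ) - η ≤ H t
    simp only [H]
    have : max 0 (η - |(t : ℝ) - q|) ≤ η := max_le hη.le (by linarith [abs_nonneg ((t : ℝ) - q)])
    nlinarith [le_max_left 0 (η - |(t : ℝ) - q|)]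
  · show H t = _
    simp only [H, ht, sub_self, abs_zero, sub_zero, max_eq_right hη.le]

/-- conjugation -/
noncomputable def cj (h : I ≃o I) (f : CP) : CP :=
  ⟨⟨fun t => h (f.1 (h.symm t)),
    h.toHomeomorph.continuous.comp (f.1.continuous.comp h.toHomeomorph.symm.continuous)⟩, by
    refine (h.surjective.denseRange.dense_image h.toHomeomorph.continuous f.2).mono ?_
    rintro _ ⟨x, ⟨n, hn, hx⟩, rfl⟩
    exact ⟨n, hn, hx.map (g := h) fun t => by simp⟩⟩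

lemma cj_apply (h : I ≃o I) (f : CP) (t : I) : (cj h f).1 (h t) = h (f.1 t) := by
  show h (f.1 (h.symm (h t))) = _
  simp

lemma ev_le (f g : CP) (t : I) : |(f.1 t : ℝ) - g.1 t| ≤ dist f g :=
  ContinuousMap.dist_apply_le_dist (f := f.1) (g := g.1) t

lemma not_affine {f : I → I} (hf : IsBesicovitch f) {a b : I} (hab : a < b) (c : ℝ) :
    ∃ t, a ≤ t ∧ t ≤ b ∧ (f t : ℝ) - f a ≠ c * (t - a) := by
  by_contra hc
  push Not at hc
  refine hf.1 a (hab.trans_le b.2.2) ⟨c, tendsto_const_nhds.congr' ?_⟩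
  filter_upwards [Ioo_mem_nhdsGT hab] with t ht
  have : (t : ℝ) - a ≠ 0 := (sub_pos.2 (show (a : ℝ) < t from ht.1)).ne'
  simp only [dq, hc t ht.1.le ht.2.le]
  rw [mul_div_assoc, div_self this, mul_one]

/-- game state -/
structure St where
  V : Set CP
  a : I
  b : I
  v : ℝ
  τ : ℝ

def Good (k : ℕ) (s : St) : Prop :=
  s.a < s.b ∧ (s.τ = 1 ∨ s.τ = -1) ∧ ∀ φ ∈ s.V, (∀ t, s.a ≤ t → t ≤ s.b →
    ¬ (s.a ≤ φ.1 t ∧ φ.1 t ≤ s.b)) ∧ k * ((s.b : ℝ) - s.a) < s.τ * φ.1 s.b - s.τ * φ.1 s.a ∧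
    s.τ * φ.1 s.a + k * ((s.b : ℝ) - s.a) < s.v

def Rel (k : ℕ) (s s' : St) : Prop :=
  s'.τ = s.τ ∧ s.a ≤ s'.a ∧ s'.b < s.b ∧ s'.v ≤ s.v ∧ ∀ φ ∈ s'.V, ∀ y, s'.b ≤ y → y ≤ s.b →
    s'.v + k * ((y : ℝ) - s'.a) ≤ s.τ * φ.1 y

lemma start {f : CP} (hf : IsBesicovitch f.1) {O : Set CP} (hO : IsOpen O) (hfO : f ∈ O) :
    ∃ s : St, IsOpen s.V ∧ Good 0 s ∧ s.V.Nonempty ∧ s.V ⊆ O := by
  have : ∃ t0, f.1 t0 ≠ t0 := by
    by_contra hc
    push Not at hc
    obtain ⟨t, -, -, h⟩ := not_affine hf (zero_lt_one' I) 1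
    exact h (by rw [hc, hc]; ring)
  obtain ⟨t0, ht0⟩ := this
  have hd : 0 < |(f.1 t0 : ℝ) - t0| := abs_pos.2 (sub_ne_zero.2 fun e => ht0 (Subtype.ext e))
  set d := |(f.1 t0 : ℝ) - t0| with hdd
  obtain ⟨δ, hδ, hδ2⟩ := Metric.continuous_iff.1 f.1.continuous t0 (d / 4) (by positivity)
  obtain ⟨a, b0, hab, hI⟩ : ∃ a b0 : I, a < b0 ∧ ∀ t, a ≤ t → t ≤ b0 →
      |(t : ℝ) - t0| < min δ (d / 4) := by
    have hm : 0 < min δ (d / 4) := by positivity
    set m := min δ (d / 4)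
    have h0 := t0.2.1
    have h1 := t0.2.2
    refine ⟨⟨max 0 (t0 - m / 2), le_max_left _ _, max_le zero_le_one (by linarith)⟩,
      ⟨min 1 (t0 + m / 2), le_min zero_le_one (by linarith), min_le_left _ _⟩, ?_, ?_⟩
    · show max 0 ((t0 : ℝ) - m / 2) < min 1 (t0 + m / 2)
      exact max_lt (lt_min one_pos (by linarith)) (lt_min (by linarith) (by linarith))
    · intro t h2 h3
      have h2' : max 0 ((t0 : ℝ) - m / 2) ≤ t := h2
      have h3' : (t : ℝ) ≤ min 1 (t0 + m / 2) := h3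
      have := (max_le_iff.1 h2').2
      have := (le_min_iff.1 h3').2
      rw [abs_lt]; constructor <;> linarith
  obtain ⟨b, hb1, hb2, hb3⟩ := not_affine hf hab 0
  have hab' : a < b := lt_of_le_of_ne hb1 fun e => hb3 (by rw [e]; ring)
  obtain ⟨τ, hτ, hτ2⟩ : ∃ τ : ℝ, (τ = 1 ∨ τ = -1) ∧ 0 < τ * f.1 b - τ * f.1 a := by
    rcases lt_or_gt_of_ne hb3 with h | h
    · exact ⟨-1, Or.inr rfl, by linarith⟩
    · exact ⟨1, Or.inl rfl, by linarith⟩
  set e := τ * f.1 b - τ * f.1 a with he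
  have hr : 0 < min (d / 4) (e / 2) := by positivity
  refine ⟨⟨O ∩ Metric.ball f (min (d / 4) (e / 2)), a, b, 2, τ⟩, hO.inter Metric.isOpen_ball,
    ⟨hab', hτ, fun φ hφ => ?_⟩, ⟨f, hfO, Metric.mem_ball_self hr⟩, inter_subset_left⟩
  have h2 : dist φ f < min (d / 4) (e / 2) := hφ.2
  have h3 := (lt_min_iff.1 h2).1
  have h4 := (lt_min_iff.1 h2).2
  refine ⟨fun t h5 h6 h7 => ?_, ?_, ?_⟩
  · have h8 := lt_min_iff.1 (hI t h5 (h6.trans hb2))
    have h9 := lt_min_iff.1 (hI _ h7.1 (h7.2.trans hb2))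
    have h10 : |(f.1 t : ℝ) - f.1 t0| < d / 4 := hδ2 t h8.1
    have h11 := ev_le φ f t
    have h12 := abs_lt.1 h9.2
    have h13 := abs_lt.1 h10
    have h14 := abs_le.1 h11
    have : d < d := by
      conv_lhs => rw [hdd]
      rw [abs_lt]; constructor <;> linarith
    exact lt_irrefl _ this
  · have h5 := abs_le.1 (ev_le φ f a)
    have h6 := abs_le.1 (ev_le φ f b)
    simp only [Nat.cast_zero, zero_mul]
    rcases hτ with rfl | rfl <;> linarith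
  · have h5 := (φ.1 a).2.1
    have h6 := (φ.1 a).2.2
    simp only [Nat.cast_zero, zero_mul]
    rcases hτ with rfl | rfl <;> linarith

lemma step {k : ℕ} {s : St} (hs : Good k s) {O : Set CP} (hO : IsOpen O) (hne : O.Nonempty)
    (hOV : O ⊆ s.V) : ∃ s' : St, IsOpen s'.V ∧ Good (k + 1) s' ∧ Rel k s s' ∧ s'.V.Nonempty ∧
      s'.V ⊆ O := by
  obtain ⟨V, a, b, v, τ⟩ := s
  obtain ⟨hab, hτ, hV⟩ := hs
  simp only at hab hτ hV hOV
  obtain ⟨f, hf⟩ := hne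
  obtain ⟨-, f2, f3⟩ := hV f (hOV hf)
  have hab' : 0 < (b : ℝ) - a := sub_pos.2 hab
  obtain ⟨ε, hε, e1, e2⟩ : ∃ ε : ℝ, 0 < ε ∧ (k + ε) * ((b : ℝ) - a) < τ * f.1 b - τ * f.1 a ∧
      τ * f.1 a + (k + ε) * ((b : ℝ) - a) < v := by
    set m := min (τ * f.1 b - τ * f.1 a - k * ((b : ℝ) - a)) (v - (τ * f.1 a + k * ((b : ℝ) - a)))
    have hm : 0 < m := lt_min (by linarith) (by linarith)
    have m1 : m ≤ _ := min_le_left _ _
    have m2 : m ≤ _ := min_le_right _ _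
    have : m / 2 / ((b : ℝ) - a) * ((b : ℝ) - a) = m / 2 := div_mul_cancel₀ _ hab'.ne'
    exact ⟨m / 2 / ((b : ℝ) - a), by positivity, by linarith, by linarith⟩
  obtain ⟨p, ⟨hp1, hp2⟩, hp⟩ := (isCompact_Icc (a := a) (b := b)).exists_isMinOn
    (nonempty_Icc.2 hab.le) (f := fun t : I => τ * f.1 t - (k + ε) * (t : ℝ)) (by fun_prop)
  have hp' : ∀ t : I, a ≤ t → t ≤ b → τ * f.1 p + (k + ε) * ((t : ℝ) - p) ≤ τ * f.1 t :=
    fun t h1 h2 => by
      have : τ * f.1 p - (k + ε) * (p : ℝ) ≤ τ * f.1 t - (k + ε) * (t : ℝ) := hp ⟨h1, h2⟩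
      linarith
  have hpa := hp' a le_rfl hab.le
  have hpb : (p : ℝ) < b := by
    refine lt_of_le_of_ne hp2 fun e => ?_
    have : p = b := Subtype.ext e
    rw [this] at hpa
    linarith
  have hk : (0 : ℝ) ≤ k := Nat.cast_nonneg k
  have hp1' : (a : ℝ) ≤ p := hp1
  have hpv : τ * f.1 p < v := by nlinarith
  obtain ⟨ρ, hρ, hρ2⟩ := Metric.isOpen_iff.1 hO f hf
  obtain ⟨δ, hδ, hδ2⟩ := Metric.uniformContinuous_iff.1
    (CompactSpace.uniformContinuous_of_continuous f.1.continuous) (ρ / 4) (by positivity)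
  obtain ⟨η, hη, η1, η2, η3⟩ : ∃ η : ℝ, 0 < η ∧ η < δ ∧ η ≤ ρ / 4 ∧ (p : ℝ) + 2 * η ≤ b := by
    refine ⟨min (δ / 2) (min (ρ / 4) (((b : ℝ) - p) / 2)), ?_, ?_, ?_, ?_⟩
    · have := sub_pos.2 hpb
      positivity
    · linarith [min_le_left (δ / 2) (min (ρ / 4) (((b : ℝ) - p) / 2))]
    · exact (min_le_right _ _).trans (min_le_left _ _)
    · linarith [(min_le_right (δ / 2) _).trans (min_le_right (ρ / 4) (((b : ℝ) - p) / 2))]
  set v' := min v (τ * f.1 p + ε * η / 2) with hv'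
  have hμ : 0 < ε * η := by positivity
  have v1 : v' ≤ v := min_le_left _ _
  have v2 : v' ≤ τ * f.1 p + ε * η / 2 := min_le_right _ _
  have v3 : τ * f.1 p < v' := lt_min hpv (by linarith)
  set w := v' - τ * f.1 p with hw
  have hw0 : 0 < w := by linarith
  obtain ⟨l, hl, l1, l2⟩ : ∃ l : ℝ, 0 < l ∧ l ≤ η ∧ (k + 1) * l ≤ w / 4 := by
    refine ⟨min η (w / 4 / (k + 1)), by positivity, min_le_left _ _, ?_⟩
    have h1 : min η (w / 4 / (k + 1)) ≤ w / 4 / (k + 1) := min_le_right _ _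
    rwa [le_div_iff₀ (by positivity), mul_comm] at h1
  have hb1 := b.2.2
  have hp0 := p.2.1
  obtain ⟨h, h1, h2, h3, h4⟩ := exists_h (p + η) η (1 - l / η) hη (by linarith) (by linarith)
    (by rw [sub_nonneg, div_le_one hη]; exact l1) (by linarith [div_pos hl hη])
  let q : I := ⟨p + η, by linarith, by linarith⟩
  have hq : (h q : ℝ) = p + l := by
    rw [h4 q rfl]; field_simp; ring
  have hfix : ∀ t : I, a ≤ t → t ≤ b → (cj h f).1 (h t) = f.1 t := fun t t1 t2 => by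
    rw [cj_apply]
    apply h1
    have := (hV f (hOV hf)).1 t t1 t2
    by_contra hc
    push Not at hc
    exact this ⟨show (a : ℝ) ≤ _ by linarith [hc.1], show _ ≤ (b : ℝ) by linarith [hc.2]⟩
  have hhp : h p = p := h1 p (Or.inl (by linarith))
  have hhb : h b = b := h1 b (Or.inr (by linarith))
  have hgO : cj h f ∈ O := by
    apply hρ2
    show dist (cj h f).1 f.1 < ρ
    refine (ContinuousMap.dist_lt_iff hρ).2 fun y => ?_
    obtain ⟨t, rfl⟩ := h.surjective y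
    rw [cj_apply]
    have a1 : (h t : ℝ) ≤ t := h2 t
    have a2 := h3 t
    have a3 : (h (f.1 t) : ℝ) ≤ f.1 t := h2 _
    have a4 := h3 (f.1 t)
    have a5 : |(f.1 (h t) : ℝ) - f.1 t| < ρ / 4 :=
      hδ2 (show |(h t : ℝ) - t| < δ by rw [abs_lt]; constructor <;> linarith)
    have a6 := abs_lt.1 a5
    show |(h (f.1 t) : ℝ) - f.1 (h t)| < ρ
    rw [abs_lt]; constructor <;> linarith
  have haq : a ≤ q := show (a : ℝ) ≤ p + η by linarith
  have hqb : q ≤ b := show (p : ℝ) + η ≤ b by linarith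
  have hhq : h q < b := show (h q : ℝ) < b by linarith
  have gp : (cj h f).1 p = f.1 p := by
    have := hfix p hp1 hp2
    rwa [hhp] at this
  have gq := hfix q haq hqb
  have hfq := hp' q haq hqb
  have hqq : (q : ℝ) - p = η := by simp [q]
  rw [hqq] at hfq
  refine ⟨⟨O ∩ Metric.ball (cj h f) (w / 4), p, h q, v', τ⟩, hO.inter Metric.isOpen_ball,
    ⟨show (p : ℝ) < h q by linarith, hτ, fun φ hφ => ?_⟩, ⟨rfl, hp1, hhq, v1, fun φ hφ y y1 y2 => ?_⟩,
    ⟨_, hgO, Metric.mem_ball_self (by positivity)⟩, inter_subset_left⟩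
  · have d1 : dist φ (cj h f) < w / 4 := hφ.2
    have d2 := abs_le.1 (ev_le φ (cj h f) p)
    have d3 := abs_le.1 (ev_le φ (cj h f) (h q))
    rw [gp] at d2
    rw [gq] at d3
    have d4 : 0 ≤ k * η := by positivity
    refine ⟨fun t t1 t2 t3 => (hV φ (hOV hφ.1)).1 t (hp1.trans t1) (t2.trans hhq.le)
      ⟨hp1.trans t3.1, t3.2.trans hhq.le⟩, ?_, ?_⟩
    · simp only [hq]
      push_cast
      rw [add_mul] at hfq
      rw [add_sub_cancel_left]
      rcases hτ with rfl | rfl <;> linarith [d2.1, d2.2, d3.1, d3.2]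
    · simp only [hq]
      push_cast
      rw [add_sub_cancel_left]
      rcases hτ with rfl | rfl <;> linarith [d2.1, d2.2, d3.1, d3.2]
  · have d1 : dist φ (cj h f) < w / 4 := hφ.2
    obtain ⟨t, rfl⟩ := h.surjective y
    have t1 : q ≤ t := h.le_iff_le.1 y1
    have t2 : t ≤ b := h.le_iff_le.1 (by rw [hhb]; exact y2)
    have d2 := abs_le.1 (ev_le φ (cj h f) (h t))
    rw [hfix t (haq.trans t1) t2] at d2
    have d3 := hp' t (haq.trans t1) t2
    have d4 : (h t : ℝ) ≤ t := h2 t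
    have d5 : (p : ℝ) + η ≤ t := t1
    have d6 : k * ((h t : ℝ) - p) ≤ k * ((t : ℝ) - p) := by nlinarith
    have d7 : ε * η ≤ ε * ((t : ℝ) - p) := by nlinarith
    show v' + k * ((h t : ℝ) - p) ≤ τ * φ.1 (h t)
    rw [add_mul] at d3
    rcases hτ with rfl | rfl <;> linarith [d2.1, d2.2]

lemma finish (s : ℕ → St) (hg : ∀ k, Good k (s k)) (hr : ∀ k, Rel k (s k) (s (k + 1)))
    (φ : CP) (hφ : ∀ k, φ ∈ (s k).V) : ¬ IsBesicovitch φ.1 := by
  have hτ : ∀ k, (s k).τ = (s 0).τ := fun k => by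
    induction k with
    | zero => rfl
    | succ k ih => rw [(hr k).1, ih]
  have ma : Monotone fun k => ((s k).a : ℝ) := monotone_nat_of_le_succ fun k => (hr k).2.1
  have mb : Antitone fun k => ((s k).b : ℝ) := antitone_nat_of_succ_le fun k => (hr k).2.2.1.le
  have mv : Antitone fun k => (s k).v := antitone_nat_of_succ_le fun k => (hr k).2.2.2.1
  have hab : ∀ k m, ((s k).a : ℝ) ≤ (s m).b := fun k m =>
    (ma (le_max_left k m)).trans ((hg _).1.le.trans (mb (le_max_right k m)))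
  have bdd : BddAbove (range fun k => ((s k).a : ℝ)) := ⟨1, by rintro _ ⟨k, rfl⟩; exact (s k).a.2.2⟩
  have hax : ∀ k, ((s k).a : ℝ) ≤ ⨆ k, ((s k).a : ℝ) := fun k => le_ciSup bdd k
  have hxb : ∀ m, ⨆ k, ((s k).a : ℝ) ≤ (s m).b := fun m => ciSup_le fun k => hab k m
  let x : I := ⟨⨆ k, ((s k).a : ℝ), (s 0).a.2.1.trans (hax 0), (hxb 0).trans (s 0).b.2.2⟩
  have hT : Tendsto (fun k => (s k).a) atTop (𝓝 x) :=
    tendsto_subtype_rng.2 (tendsto_atTop_ciSup ma bdd)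
  have hxb' : ∀ m, x < (s m).b := fun m =>
    lt_of_le_of_lt (show x ≤ (s (m + 1)).b from hxb (m + 1)) (hr m).2.2.1
  set τ := (s 0).τ with hτ0
  have hτ1 : τ = 1 ∨ τ = -1 := (hg 0).2.1
  have hxv : ∀ m, τ * φ.1 x ≤ (s m).v := fun m => by
    have h1 : Tendsto (fun k => τ * (φ.1 (s k).a : ℝ)) atTop (𝓝 (τ * φ.1 x)) :=
      ((continuous_subtype_val.comp φ.1.continuous).tendsto x |>.comp hT).const_mul τ
    refine le_of_tendsto h1 (eventually_atTop.2 ⟨m, fun k hk => ?_⟩)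
    have h2 := ((hg k).2.2 φ (hφ k)).2.2
    rw [hτ k] at h2
    have h3 : 0 ≤ (k : ℝ) * (((s k).b : ℝ) - (s k).a) :=
      mul_nonneg (Nat.cast_nonneg k) (sub_nonneg.2 (hab k k))
    have h4 : (s k).v ≤ (s m).v := mv hk
    linarith
  have key : ∀ N : ℕ, ∀ y : I, x < y → y < (s N).b →
      N * ((y : ℝ) - x) ≤ τ * φ.1 y - τ * φ.1 x := fun N y y1 y2 => by
    have y1' : 0 < (y : ℝ) - x := sub_pos.2 y1
    obtain ⟨m, m1, m2, m3⟩ : ∃ m, N ≤ m ∧ (s (m + 1)).b ≤ y ∧ y ≤ (s m).b := by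
      by_contra hc
      push Not at hc
      have h1 : ∀ m, N ≤ m → y ≤ (s m).b := fun m hm => by
        induction m, hm using Nat.le_induction with
        | base => exact y2.le
        | succ m hm ih =>
          by_contra h
          exact absurd ih (not_le.2 (hc m hm (not_le.1 h).le))
      obtain ⟨m, hm⟩ := exists_nat_gt (1 / ((y : ℝ) - x))
      have h2 : (y : ℝ) ≤ (s (max N m)).b := h1 _ (le_max_left N m)
      have h3 := ((hg (max N m)).2.2 φ (hφ _)).2.1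
      rw [hτ] at h3
      have h4 : ((s (max N m)).a : ℝ) ≤ x := hax _
      have h5 : (m : ℝ) ≤ (max N m : ℕ) := by exact_mod_cast le_max_right N m
      rw [div_lt_iff₀ y1'] at hm
      have h6 := (φ.1 (s (max N m)).a).2
      have h7 := (φ.1 (s (max N m)).b).2
      have h8 : (m : ℝ) * ((y : ℝ) - x) ≤ (max N m : ℕ) * (((s (max N m)).b : ℝ) - (s (max N m)).a) :=
        mul_le_mul h5 (by linarith) y1'.le (Nat.cast_nonneg _)
      rcases hτ1 with e | e <;> rw [e] at h3 <;> linarith [h6.1, h6.2, h7.1, h7.2]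
    have h1 := (hr m).2.2.2.2 φ (hφ _) y m2 m3
    rw [hτ] at h1
    have h2 := hxv (m + 1)
    have h3 : ((s (m + 1)).a : ℝ) ≤ x := hax _
    have h4 : (N : ℝ) * ((y : ℝ) - x) ≤ m * ((y : ℝ) - (s (m + 1)).a) :=
      mul_le_mul (by exact_mod_cast m1) (by linarith) y1'.le (Nat.cast_nonneg _)
    linarith
  intro hB
  refine hB.1 x ((hxb' 0).trans_le (s 0).b.2.2) ?_
  rcases hτ1 with e | e
  · refine ⟨⊤, EReal.tendsto_nhds_top_iff_real.2 fun r => ?_⟩
    obtain ⟨N, hN⟩ := exists_nat_gt r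
    filter_upwards [Ioo_mem_nhdsGT (hxb' N)] with y hy
    have h1 := key N y hy.1 hy.2
    rw [e] at h1
    have y1' : 0 < (y : ℝ) - x := sub_pos.2 hy.1
    simp only [dq]
    refine EReal.coe_lt_coe_iff.2 (hN.trans_le ?_)
    rw [le_div_iff₀ y1']; linarith
  · refine ⟨⊥, EReal.tendsto_nhds_bot_iff_real.2 fun r => ?_⟩
    obtain ⟨N, hN⟩ := exists_nat_gt (-r)
    filter_upwards [Ioo_mem_nhdsGT (hxb' N)] with y hy
    have h1 := key N y hy.1 hy.2
    rw [e] at h1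
    have y1' : 0 < (y : ℝ) - x := sub_pos.2 hy.1
    simp only [dq]
    refine EReal.coe_lt_coe_iff.2 (lt_of_le_of_lt ?_ (show -(N : ℝ) < r by linarith))
    rw [div_le_iff₀ y1']; linarith

theorem main : IsMeagre {f : CP | IsBesicovitch f.1} := by
  refine oxtoby (τ := St) (fun s => s.V)
    (fun k s => IsOpen s.V ∧ (s.V ⊆ {f : CP | IsBesicovitch f.1}ᶜ ∨ Good k s))
    (fun k s s' => s'.V ⊆ {f : CP | IsBesicovitch f.1}ᶜ ∨ Rel k s s') (fun k s h => h.1)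
    (fun O hO hne => ?_) (fun k s hs O hO hne hOV => ?_) (fun s h1 h2 φ hφ => ?_)
  · by_cases h : O ⊆ {f : CP | IsBesicovitch f.1}ᶜ
    · exact ⟨⟨O, 0, 0, 0, 0⟩, ⟨hO, Or.inl h⟩, hne, Subset.rfl⟩
    · obtain ⟨f, hf, hB⟩ := not_subset.1 h
      obtain ⟨s, a1, a2, a3, a4⟩ := start (not_not.1 hB) hO hf
      exact ⟨s, ⟨a1, Or.inr a2⟩, a3, a4⟩
  · rcases hs.2 with h | h
    · exact ⟨⟨O, 0, 0, 0, 0⟩, ⟨hO, Or.inl (hOV.trans h)⟩, Or.inl (hOV.trans h), hne, Subset.rfl⟩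
    · obtain ⟨s', a1, a2, a3, a4, a5⟩ := step h hO hne hOV
      exact ⟨s', ⟨a1, Or.inr a2⟩, Or.inr a3, a4, a5⟩
  · by_cases h : ∃ k, (s k).V ⊆ {f : CP | IsBesicovitch f.1}ᶜ
    · obtain ⟨k, hk⟩ := h
      exact hk (hφ k)
    · push Not at h
      exact finish s (fun k => (h1 k).2.resolve_left (h k))
        (fun k => (h2 k).resolve_left (h (k + 1))) φ hφ

end Pool.Agent.H95.Bes
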