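import Mathlib

/-! Besicovitch maps of the unit interval and maps with dense periodic points. -/

set_option autoImplicit false

namespace Pool.Agent.H95.Bes

open Set Filter Topology unitInterval

/-- the difference quotient of `f` at `x`, as an extended real -/
noncomputable def dq (f : I → I) (x y : I) : EReal :=
  ((((f y : ℝ) - (f x : ℝ)) / ((y : ℝ) - (x : ℝ)) : ℝ) : EReal)

/-- `f` has no one-sided derivative, finite or infinite, at any point -/
def IsBesicovitch (f : I → I) : Prop :=
  (∀ x : I, x < 1 → ¬ ∃ L : EReal, Tendsto (dq f x) (𝓝[>] x) (𝓝 L)) ∧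
  (∀ x : I, 0 < x → ¬ ∃ L : EReal, Tendsto (dq f x) (𝓝[<] x) (𝓝 L))

/-- continuous self-maps of `I` whose periodic points are dense -/
def CP : Set C(I, I) := {f | Dense (Function.periodicPts f)}

end Pool.Agent.H95.Bes
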