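import Pool.Agent.H95.BillDefs

namespace Pool.Agent.H95.Bill
open Metric RealInnerProductSpace Filter Topology Set

section gen
variable {E : Type} [NormedAddCommGroup E] [InnerProductSpace ℝ E]

noncomputable def F (P : E →L[ℝ] E) (x : E) : ℝ := ‖x‖ ^ 2 + (‖P x‖ ^ 2) ^ 2

theorem dF (P : E →L[ℝ] E) (x w : E) : fderiv ℝ (F P) x w = 2 * ⟪x, w⟫ + 4 * ‖P x‖ ^ 2 * ⟪P x, P w⟫ := by
  have := ((hasFDerivAt_id x).norm_sq.add (P.hasFDerivAt (x := x).norm_sq.pow 2)).fderiv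
  rw [show fderiv ℝ (F P) x = _ from this]
  simp; ring

theorem body [FiniteDimensional ℝ E] (P : E →L[ℝ] E) : Body (F P) := by
  have c : ContDiff ℝ (⊤ : ℕ∞) (F P) := (contDiff_norm_sq ℝ).add ((P.contDiff.norm_sq ℝ).pow 2)
  haveI := FiniteDimensional.proper_real E
  refine ⟨c, (isCompact_closedBall 0 1).of_isClosed_subset (isClosed_le c.continuous continuous_const)
    fun x hx => mem_closedBall_zero_iff.2 ((sq_le_one_iff₀ (norm_nonneg x)).1
      (le_trans (le_add_of_nonneg_right (sq_nonneg _)) hx)), ⟨0, by simp [F]⟩, fun x v hv => ?_⟩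
  simp only [dF]
  have := ((((hasFDerivAt_id x).inner ℝ (hasFDerivAt_const v x)).const_mul 2).add
    (((P.hasFDerivAt (x := x)).norm_sq.const_mul 4).mul
      ((P.hasFDerivAt (x := x)).inner ℝ (hasFDerivAt_const (P v) x)))).fderiv
  erw [this]
  have := norm_pos_iff.2 hv
  simp
  nlinarith [mul_self_nonneg ⟪P x, P v⟫, mul_nonneg (sq_nonneg ‖P x‖) (sq_nonneg ‖P v‖), sq_pos_of_pos this]

theorem notEll [FiniteDimensional ℝ E] {F : E → ℝ} {a c : E} (ha : a ≠ 0)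
    (h : ∀ x z : ℝ, F (x • a + z • c) = x ^ 2 + z ^ 2 + (z ^ 2) ^ 2) : ¬ Ellipsoid {x | F x ≤ 1} := by
  rintro ⟨A, hA⟩
  have m : ∀ x, F x ≤ 1 ↔ ‖A.symm x‖ ≤ 1 := fun x => by
    rw [← mem_closedBall_zero_iff, ← mem_setOf_eq (p := fun x => F x ≤ 1), hA]
    exact ⟨by rintro ⟨y, hy, rfl⟩; simpa using hy, fun k => ⟨_, k, by simp⟩⟩
  have l : ∀ x z : ℝ, A.symm (x • a + z • c) = x • A.symm.linear a + z • A.symm.linear c + A.symm 0 := fun x z => by
    have := A.symm.map_vadd 0 (x • a + z • c)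
    simpa using this
  have a0 : 0 < ‖A.symm.linear a‖ := norm_pos_iff.2 (by simpa using ha)
  generalize A.symm.linear a = u at *
  generalize A.symm.linear c = w at *
  generalize A.symm 0 = b at *
  have e1 : ∀ x z : ℝ, x ^ 2 + z ^ 2 + (z ^ 2) ^ 2 = 1 → ‖x • u + z • w + b‖ = 1 := fun x z e => by
    refine le_antisymm (l x z ▸ (m _).1 (by rw [h, e])) (ge_of_tendsto (f := fun t : ℝ => ‖(t * x) • u + (t * z) • w + b‖)
      (x := 𝓝[>] 1) ((Continuous.tendsto' (by fun_prop) 1 _ (by simp)).mono_left nhdsWithin_le_nhds)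
      (eventually_nhdsWithin_of_forall fun t (ht : 1 < t) => ?_))
    rw [← l]
    refine le_of_not_ge fun k => ?_
    have k := (m _).2 k
    have t2 : 1 < t ^ 2 := by nlinarith
    rw [h, mul_pow, mul_pow, mul_pow] at k
    nlinarith [mul_nonneg (sq_nonneg (z ^ 2)) (mul_nonneg (sq_nonneg t) (sub_pos.2 t2).le)]
  have e2 : ∀ X z : ℝ, 0 ≤ X → X + z ^ 2 + (z ^ 2) ^ 2 = 1 → X * ‖u‖ ^ 2 + z ^ 2 * ‖w‖ ^ 2 + ‖b‖ ^ 2 = 1 :=
    fun X z h0 e => by
      obtain ⟨x, rfl⟩ : ∃ x, X = x ^ 2 := ⟨√X, (Real.sq_sqrt h0).symm⟩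
      have s : ∀ x z : ℝ, ‖x • u + z • w + b‖ ^ 2 = x ^ 2 * ‖u‖ ^ 2 + z ^ 2 * ‖w‖ ^ 2 + ‖b‖ ^ 2 +
          2 * (x * z * ⟪u, w⟫ + x * ⟪u, b⟫ + z * ⟪w, b⟫) := fun x z => by
        simp only [norm_add_sq_real, norm_smul, mul_pow, Real.norm_eq_abs, sq_abs, inner_add_left,
          real_inner_smul_left, real_inner_smul_right]; ring
      have := s x z; have := s (-x) z; have := s x (-z); have := s (-x) (-z)
      rw [e1 _ _ (by linarith [neg_sq x, neg_sq z, congrArg (· ^ 2) (neg_sq z)])] at *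
      linarith
  have := e2 1 0 (by norm_num) (by norm_num)
  have := e2 (11 / 16) (1 / 2) (by norm_num) (by norm_num)
  have := e2 (71 / 81) (1 / 3) (by norm_num) (by norm_num)
  nlinarith
end gen

open EuclideanSpace

noncomputable def P3 : EuclideanSpace ℝ (Fin 3) →L[ℝ] EuclideanSpace ℝ (Fin 3) :=
  (proj 2).smulRight (single 2 1)

theorem q1 : ∃ F : EuclideanSpace ℝ (Fin 3) → ℝ, Body F ∧ ¬ Ellipsoid {x | F x ≤ 1} ∧ ∃ g, InvLines F g := by
  refine ⟨F P3, body _, notEll (a := single 0 1) (c := single 2 1) (by simp) fun x z => ?_,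
    fun l => l.1 0 * l.2 1 - l.1 1 * l.2 0 - 1 / 2, by fun_prop, ⟨(single 0 (1 / 2), single 1 1),
      ⟨by simp, by simp [inner_single_left], 0, by simp [F, P3]; norm_num⟩, by simp⟩, fun l _ h => ?_, ?_⟩
  · simp [F, P3, real_norm_sq_eq, Fin.sum_univ_three]
  · refine ⟨(!₂[l.2 1, -l.2 0, 0], 0), by simp, by simp [PiLp.inner_apply, Fin.sum_univ_three]; ring, ?_⟩
    have d : ∀ i, HasFDerivAt (fun l : EuclideanSpace ℝ (Fin 3) × EuclideanSpace ℝ (Fin 3) => l.1 i) _ l := fun i =>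
      ((proj (𝕜 := ℝ) i).comp (ContinuousLinearMap.fst ℝ (EuclideanSpace ℝ (Fin 3)) (EuclideanSpace ℝ (Fin 3)))).hasFDerivAt
    have e : ∀ i, HasFDerivAt (fun l : EuclideanSpace ℝ (Fin 3) × EuclideanSpace ℝ (Fin 3) => l.2 i) _ l := fun i =>
      ((proj (𝕜 := ℝ) i).comp (ContinuousLinearMap.snd ℝ (EuclideanSpace ℝ (Fin 3)) (EuclideanSpace ℝ (Fin 3)))).hasFDerivAt
    erw [((((d 0).mul (e 1)).sub ((d 1).mul (e 0))).sub_const (1 / 2)).fderiv]
    simp
    intro k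
    have a : l.2 0 = 0 := by nlinarith
    have b : l.2 1 = 0 := by nlinarith
    simp [a, b] at h
  · rintro ⟨q, v⟩ - ⟨q', v'⟩ - ⟨p, ν, ⟨-, -, c, -, hc⟩, -, h1, s, t, h2, h3⟩
    have := hc !₂[-p 1, p 0, 0]
    rw [dF] at this
    simp [PiLp.inner_apply, Fin.sum_univ_three, P3] at this
    have a : ∀ i, q i = p i - s * v i := fun i => by simp [h2]
    have b : ∀ i, q' i = p i - t * v' i := fun i => by simp [h3]
    have d : ∀ i, v' i = v i - 2 * ⟪ν, v⟫ * ν i := fun i => by simp only at h1; simp [h1]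
    refine Eq.congr_left ?_
    simp only [a, b, d]
    linear_combination (2 * ⟪ν, v⟫) * this

noncomputable def P4 : EuclideanSpace ℝ (Fin 4) →L[ℝ] EuclideanSpace ℝ (Fin 4) :=
  (proj 2).smulRight (single 2 1) + (proj 3).smulRight (single 3 1)

theorem q2 : ∃ F : EuclideanSpace ℝ (Fin 4) → ℝ, Body F ∧ ¬ Ellipsoid {x | F x ≤ 1} ∧ ∃ g, InvOuter J4 F g := by
  refine ⟨F P4, body _, notEll (a := single 0 1) (c := single 2 1) (by simp) fun x z => ?_,
    fun x => x 0 ^ 2 + x 1 ^ 2 - 4, by fun_prop, ⟨single 0 2, by simp [F, P4], by simp; norm_num⟩,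
    fun x _ h k => ?_, ?_⟩
  · simp [F, P4, real_norm_sq_eq, Fin.sum_univ_four]
  · have d : ∀ i, HasFDerivAt (fun x : EuclideanSpace ℝ (Fin 4) => x i) _ x := fun i =>
      (proj (𝕜 := ℝ) i).hasFDerivAt
    erw [((((d 0).pow 2).add ((d 1).pow 2)).sub_const 4).fderiv] at k
    have := congrArg (fun L : _ →L[ℝ] ℝ => L x) k
    simp at this
    linarith
  · rintro _ _ ⟨y, ν, ⟨-, -, c, -, hc⟩, t, -, rfl, rfl⟩
    have := hc !₂[-y 1, y 0, 0, 0]
    rw [dF] at this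
    simp [PiLp.inner_apply, Fin.sum_univ_four, P4] at this
    refine Eq.congr_left ?_
    simp [J4]
    linear_combination (4 * t) * this

end Pool.Agent.H95.Bill
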