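import Mathlib

namespace Pool.Agent.H95.Bill
open Metric RealInnerProductSpace

variable {E : Type} [NormedAddCommGroup E] [InnerProductSpace ℝ E]

/-- `{F ≤ 1}` is a compact convex body with smooth boundary of positive curvature -/
def Body (F : E → ℝ) : Prop :=
  ContDiff ℝ (⊤ : ℕ∞) F ∧ IsCompact {x | F x ≤ 1} ∧ (∃ x, F x < 1) ∧
    ∀ x v, v ≠ 0 → 0 < fderiv ℝ (fun y => fderiv ℝ F y v) x v

def Ellipsoid (K : Set E) : Prop := ∃ A : E ≃ᵃ[ℝ] E, K = A '' closedBall 0 1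

/-- `ν` is the outer unit normal at the boundary point `p` -/
def Normal (F : E → ℝ) (p ν : E) : Prop := F p = 1 ∧ ‖ν‖ = 1 ∧ ∃ c > 0, ∀ w, ⟪ν, w⟫ = c * fderiv ℝ F p w

/-- oriented lines (foot point, direction) meeting the interior -/
def Lines (F : E → ℝ) : Set (E × E) := {l | ‖l.2‖ = 1 ∧ ⟪l.1, l.2⟫ = 0 ∧ ∃ t : ℝ, F (l.1 + t • l.2) < 1}

/-- graph of the billiard map -/
def Refl (F : E → ℝ) (l m : E × E) : Prop :=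
  ∃ p ν, Normal F p ν ∧ 0 < ⟪ν, l.2⟫ ∧ m.2 = l.2 - (2 * ⟪ν, l.2⟫) • ν ∧
    ∃ s t : ℝ, p = l.1 + s • l.2 ∧ p = m.1 + t • m.2

/-- `g = 0` cuts out a nonempty regular hypersurface of the space of lines, invariant under the map -/
def InvLines (F : E → ℝ) (g : E × E → ℝ) : Prop :=
  ContDiff ℝ (⊤ : ℕ∞) g ∧ (∃ l ∈ Lines F, g l = 0) ∧
    (∀ l ∈ Lines F, g l = 0 → ∃ d : E × E, ⟪l.2, d.2⟫ = 0 ∧ ⟪d.1, l.2⟫ + ⟪l.1, d.2⟫ = 0 ∧ fderiv ℝ g l d ≠ 0) ∧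
    ∀ l ∈ Lines F, ∀ m ∈ Lines F, Refl F l m → (g l = 0 ↔ g m = 0)

/-- graph of the outer billiard map -/
def Outer (J : E → E) (F : E → ℝ) (x x' : E) : Prop :=
  ∃ y ν, Normal F y ν ∧ ∃ t > (0 : ℝ), x = y - t • J ν ∧ x' = (2 : ℝ) • y - x

def InvOuter (J : E → E) (F : E → ℝ) (g : E → ℝ) : Prop :=
  ContDiff ℝ (⊤ : ℕ∞) g ∧ (∃ x, 1 < F x ∧ g x = 0) ∧ (∀ x, 1 < F x → g x = 0 → fderiv ℝ g x ≠ 0) ∧
    ∀ x x', Outer J F x x' → (g x = 0 ↔ g x' = 0)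

/-- the standard complex structure of `ℝ⁴` -/
noncomputable def J4 (x : EuclideanSpace ℝ (Fin 4)) : EuclideanSpace ℝ (Fin 4) := !₂[-x 1, x 0, -x 3, x 2]

end Pool.Agent.H95.Bill
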