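import Pool.Agent.H95.Ekeland

namespace Pool.Agent.H95.Blid
open Filter Topology Metric Set unitInterval

theorem rough (x : C(I, ℝ)) {δ : ℝ} (hδ : 0 < δ) :
    ∃ h : C(I, ℝ), ‖h‖ ≤ δ ∧ 2 * ‖x‖ + δ ≤ ‖x + h‖ + ‖x - h‖ := by
  obtain ⟨t, -, ht⟩ := isCompact_univ.exists_isMaxOn univ_nonempty (continuous_abs.comp x.continuous).continuousOn
  have e : ‖x‖ ≤ |x t| := (x.norm_le (abs_nonneg _)).2 fun s => ht (mem_univ s)
  obtain ⟨s, h1, h2⟩ := ((Metric.tendsto_nhds.1 (x.continuous.tendsto t) δ hδ).filter_mono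
    (nhdsWithin_le_nhds (s := {t}ᶜ))).and self_mem_nhdsWithin |>.exists
  obtain ⟨c, c1, c2⟩ : ∃ c : ℝ, |c| = δ ∧ |x t + c| = |x t| + δ := by
    rcases le_total 0 (x t) with h | h
    · exact ⟨δ, abs_of_pos hδ, by rw [abs_of_nonneg h, abs_of_nonneg (by linarith)]⟩
    · exact ⟨-δ, by simp [abs_of_pos hδ], by rw [abs_of_nonpos h, abs_of_nonpos (by linarith)]; ring⟩
  obtain ⟨f, f0, f1, f2⟩ := exists_continuous_zero_one_of_isClosed (isClosed_singleton (x := s))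
    isClosed_singleton (disjoint_singleton.2 h2)
  refine ⟨c • (f + f - 1), (ContinuousMap.norm_le _ hδ.le).2 fun y => ?_, ?_⟩
  · have : |f y + f y - 1| ≤ 1 := abs_le.2 ⟨by linarith [(f2 y).1], by linarith [(f2 y).2]⟩
    simpa [c1] using mul_le_of_le_one_right hδ.le this
  · have a := (x + c • (f + f - 1)).norm_coe_le_norm t
    have b := (x - c • (f + f - 1)).norm_coe_le_norm s
    have f0 : f s = 0 := f0 rfl
    have f1 : f t = 1 := f1 rfl
    norm_num [f0, f1] at a b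
    have := abs_sub_abs_le_abs_sub (x t + c) (x s + c)
    rw [add_sub_add_right_eq_sub, abs_sub_comm] at this
    linarith [show |x s - x t| < δ from h1]

theorem fix {r : ℝ} (hr : 0 < r) {H : C(I, ℝ) → C(I, ℝ)} (hH : Differentiable ℝ H)
    (h : ∀ x ∈ sphere 0 r, H x = x) : H 0 = 0 := by
  ext t
  by_contra h0
  let φ : C(I, ℝ) → ℝ := fun x => 2 * r * Real.sin (Real.pi / 2 / H 0 t * (H x - x) t)
  have dφ : Differentiable ℝ φ := ((((ContinuousMap.evalCLM ℝ t).differentiable.comp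
    (hH.sub differentiable_id)).const_mul _).sin).const_mul _
  haveI : CompleteSpace (closedBall (0 : C(I, ℝ)) r) := isClosed_closedBall.completeSpace_coe
  obtain ⟨⟨x, hx⟩, h1, h2⟩ := Ekeland.ekeland (k := fun x : closedBall (0 : C(I, ℝ)) r => φ x + ‖x.1‖)
    ((dφ.continuous.add continuous_norm).comp continuous_subtype_val) (M := 2 * r + r)
    (fun y => add_le_add (mul_le_of_le_one_right (by positivity) (Real.sin_le_one _))
      (mem_closedBall_zero_iff.1 y.2)) (show (0 : ℝ) < 1 / 8 by norm_num) ⟨0, mem_closedBall_self hr.le⟩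
  have p0 : φ 0 = 2 * r := by simp [φ, div_mul_cancel₀ _ (show H 0 t ≠ 0 from h0)]
  have xi : x ∈ ball 0 r := mem_ball_zero_iff.2 ((mem_closedBall_zero_iff.1 hx).lt_of_ne fun e => by
    have : φ x = 0 := by simp [φ, h x (mem_sphere_zero_iff_norm.2 e)]
    simp [p0, this, e] at h1; linarith)
  have o := (hasFDerivAt_iff_isLittleO_nhds_zero.1 (dφ x).hasFDerivAt).def (show (0 : ℝ) < 1 / 8 by norm_num)
  have b : ∀ᶠ v in 𝓝 (0 : C(I, ℝ)), x + v ∈ closedBall 0 r :=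
    (Continuous.tendsto' (by fun_prop) 0 x (add_zero x)).eventually (closedBall_mem_nhds_of_mem xi)
  obtain ⟨δ, d0, hd⟩ := nhds_basis_closedBall.eventually_iff.1 (o.and b)
  obtain ⟨v, v1, v2⟩ := rough x d0
  obtain ⟨a1, a2⟩ := hd (mem_closedBall_zero_iff.2 v1)
  obtain ⟨b1, b2⟩ := hd (mem_closedBall_zero_iff.2 ((norm_neg v).trans_le v1))
  have c1 := h2 ⟨_, a2⟩
  have c2 := h2 ⟨_, b2⟩
  simp only [Subtype.dist_eq, dist_self_add_right, norm_neg, map_neg, Real.norm_eq_abs] at *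
  rw [sub_eq_add_neg] at v2
  linarith [(abs_le.1 a1).1, (abs_le.1 b1).1]

theorem main (r : ℝ) (hr : 0 < r) : ∃ U ∈ 𝓝ˢ (sphere (0 : C(I, ℝ)) r), ∀ q : ℕ∞, 1 ≤ q →
    ¬ ∃ H : C(I, ℝ) → C(I, ℝ), ContDiff ℝ q H ∧ (∀ x, H x ∈ U) ∧
      ∃ V ∈ 𝓝ˢ (sphere (0 : C(I, ℝ)) r), ∀ x ∈ V, H x = x := by
  refine ⟨{0}ᶜ, isOpen_compl_singleton.mem_nhdsSet.2 fun x hx e => ?_, fun q hq ⟨H, h1, h2, V, h3, h4⟩ =>
    h2 0 (fix hr (h1.differentiable (by exact_mod_cast (zero_lt_one.trans_le hq).ne'))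
      fun x hx => h4 x (subset_of_mem_nhdsSet h3 hx))⟩
  rw [mem_singleton_iff.1 e] at hx
  simp [hr.ne] at hx

end Pool.Agent.H95.Blid
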