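import Mathlib

set_option autoImplicit false

namespace Pool.Agent.H95.BoolSub

variable {H : Type} [NormedAddCommGroup H] [InnerProductSpace ℂ H]

/-- A Boolean algebra of (closed) subspaces: meet is intersection, join is the closed span. -/
def IsBoolSub (E : Set (ClosedSubmodule ℂ H)) : Prop :=
  ⊥ ∈ E ∧ ⊤ ∈ E ∧ (∀ M ∈ E, ∀ N ∈ E, M ⊓ N ∈ E ∧ M ⊔ N ∈ E) ∧
    (∀ L ∈ E, ∀ M ∈ E, ∀ N ∈ E, L ⊓ (M ⊔ N) = (L ⊓ M) ⊔ (L ⊓ N)) ∧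
    ∀ M ∈ E, ∃ M' ∈ E, M ⊓ M' = ⊥ ∧ M ⊔ M' = ⊤

/-- Completeness in the Boolean sense: every subfamily has a supremum in E for inclusion. -/
def IsCompleteFam (E : Set (ClosedSubmodule ℂ H)) : Prop :=
  ∀ S ⊆ E, ∃ M ∈ E, (∀ N ∈ S, N ≤ M) ∧ ∀ M' ∈ E, (∀ N ∈ S, N ≤ M') → M ≤ M'

/-- E = Lat Alg E. -/
def IsReflexiveFam (E : Set (ClosedSubmodule ℂ H)) : Prop :=
  E = {M | ∀ T : H →L[ℂ] H, (∀ N ∈ E, ∀ x ∈ N, T x ∈ N) → ∀ x ∈ M, T x ∈ M}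

/-- A bijection between the two families preserving meets and joins. -/
def LatticeIso {K : Type} [NormedAddCommGroup K] [InnerProductSpace ℂ K]
    (E : Set (ClosedSubmodule ℂ H)) (F : Set (ClosedSubmodule ℂ K)) : Prop :=
  ∃ g : ClosedSubmodule ℂ H → ClosedSubmodule ℂ K, Set.BijOn g E F ∧
    ∀ M ∈ E, ∀ N ∈ E, g (M ⊓ N) = g M ⊓ g N ∧ g (M ⊔ N) = g M ⊔ g N

end Pool.Agent.H95.BoolSub
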