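import Mathlib

set_option autoImplicit false
open Filter Topology

namespace Pool.Agent.H95.L2

abbrev H (ι : Type) : Type := lp (fun _ : ι => ℂ) 2

variable {ι κ : Type}

theorem norm_sq_eq (x : H ι) : ‖x‖ ^ 2 = ∑' i, ‖x i‖ ^ 2 := by
  have h := lp.norm_rpow_eq_tsum (p := 2) (by norm_num) x
  simpa using h

theorem summable_sq (x : H ι) : Summable fun i => ‖x i‖ ^ 2 := by
  have h := (lp.memℓp x).summable (by norm_num : 0 < (2 : ENNReal).toReal)
  simpa using h

theorem mem_of_summable {f : ι → ℂ} (h : Summable fun i => ‖f i‖ ^ 2) : Memℓp f 2 := by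
  apply memℓp_gen
  simpa using h

/-- Diagonal operator with bounded weights. -/
noncomputable def diag (w : ι → ℂ) {K : ℝ} (hK : 0 ≤ K) (hw : ∀ i, ‖w i‖ ≤ K) : H ι →L[ℂ] H ι :=
  lp.mapCLM 2 (fun i => (w i) • ContinuousLinearMap.id ℂ ℂ) hK (fun i => by
    rw [norm_smul]; simpa using hw i)

@[simp] theorem diag_apply (w : ι → ℂ) {K : ℝ} (hK : 0 ≤ K) (hw : ∀ i, ‖w i‖ ≤ K) (x : H ι)
    (i : ι) : (diag w hK hw x) i = w i * x i := by
  simp [diag]

theorem norm_diag_le (w : ι → ℂ) {K : ℝ} (hK : 0 ≤ K) (hw : ∀ i, ‖w i‖ ≤ K) :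
    ‖diag w hK hw‖ ≤ K := lp.norm_mapCLM_le _ _ _ _

theorem le_norm_diag [DecidableEq ι] (w : ι → ℂ) {K : ℝ} (hK : 0 ≤ K) (hw : ∀ i, ‖w i‖ ≤ K)
    (i : ι) : ‖w i‖ ≤ ‖diag w hK hw‖ := by
  have h1 : ‖(lp.single 2 i (1 : ℂ) : H ι)‖ = 1 := by
    rw [lp.norm_single (by norm_num)]; simp
  have h2 := (diag w hK hw).le_opNorm (lp.single 2 i (1 : ℂ))
  have h3 := lp.norm_apply_le_norm (p := 2) (by norm_num)
    (diag w hK hw (lp.single 2 i (1 : ℂ))) i
  rw [diag_apply, lp.single_apply_self, mul_one] at h3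
  rw [h1, mul_one] at h2
  exact h3.trans h2

theorem summable_extend (φ : ι → κ) (hφ : Function.Injective φ) (x : H ι) :
    HasSum (fun k => ‖Function.extend φ (x : ι → ℂ) 0 k‖ ^ 2) (‖x‖ ^ 2) := by
  have h1 : HasSum (fun i => ‖x i‖ ^ 2) (‖x‖ ^ 2) := by
    rw [norm_sq_eq]; exact (summable_sq x).hasSum
  have h2 : (fun k => ‖Function.extend φ (x : ι → ℂ) 0 k‖ ^ 2) ∘ φ = fun i => ‖x i‖ ^ 2 := by
    funext i; simp [hφ.extend_apply]
  rw [← hφ.hasSum_iff]
  · rw [h2]; exact h1
  · intro k hk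
    rw [Function.extend_apply' _ _ _ (by simpa using hk)]
    simp

/-- The isometry induced by an injection of index sets. -/
noncomputable def push (φ : ι → κ) (hφ : Function.Injective φ) : H ι →L[ℂ] H κ :=
  LinearMap.mkContinuous
    { toFun := fun x => ⟨Function.extend φ (x : ι → ℂ) 0,
        mem_of_summable (summable_extend φ hφ x).summable⟩
      map_add' := fun x y => by
        ext k
        change Function.extend φ ((x : ι → ℂ) + (y : ι → ℂ)) 0 k =
          Function.extend φ (x : ι → ℂ) 0 k + Function.extend φ (y : ι → ℂ) 0 k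
        by_cases hk : ∃ i, φ i = k
        · obtain ⟨i, rfl⟩ := hk
          rw [hφ.extend_apply, hφ.extend_apply, hφ.extend_apply]; rfl
        · rw [Function.extend_apply' _ _ _ hk, Function.extend_apply' _ _ _ hk,
            Function.extend_apply' _ _ _ hk]; simp
      map_smul' := fun c x => by
        ext k
        by_cases hk : ∃ i, φ i = k
        · obtain ⟨i, rfl⟩ := hk
          simp [hφ.extend_apply]
        · simp [Function.extend_apply' _ _ _ hk] }
    1 (fun x => by
      rw [one_mul]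
      apply le_of_eq
      have h := norm_sq_eq (ι := κ) ⟨Function.extend φ (x : ι → ℂ) 0,
        mem_of_summable (summable_extend φ hφ x).summable⟩
      have h2 := (summable_extend φ hφ x).tsum_eq
      have h3 := h.trans h2
      exact (pow_left_inj₀ (norm_nonneg _) (norm_nonneg _) two_ne_zero).1 h3)

theorem push_coe (φ : ι → κ) (hφ : Function.Injective φ) (x : H ι) :
    ((push φ hφ x : H κ) : κ → ℂ) = Function.extend φ (x : ι → ℂ) 0 := rfl

theorem push_apply (φ : ι → κ) (hφ : Function.Injective φ) (x : H ι) (i : ι) :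
    (push φ hφ x : H κ) (φ i) = x i := by
  rw [push_coe, hφ.extend_apply]

theorem push_apply_of_not (φ : ι → κ) (hφ : Function.Injective φ) (x : H ι) (k : κ)
    (hk : ¬ ∃ i, φ i = k) : (push φ hφ x : H κ) k = 0 := by
  rw [push_coe, Function.extend_apply' _ _ _ hk]; rfl

theorem norm_push (φ : ι → κ) (hφ : Function.Injective φ) (x : H ι) : ‖push φ hφ x‖ = ‖x‖ := by
  have h := norm_sq_eq (push φ hφ x)
  have h2 := (summable_extend φ hφ x).tsum_eq
  have h3 := h.trans h2
  exact (pow_left_inj₀ (norm_nonneg _) (norm_nonneg _) two_ne_zero).1 h3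

theorem summable_pull (φ : ι → κ) (hφ : Function.Injective φ) (x : H κ) :
    Summable fun i => ‖x (φ i)‖ ^ 2 := (summable_sq x).comp_injective hφ

/-- Restriction along an injection of index sets. -/
noncomputable def pull (φ : ι → κ) (hφ : Function.Injective φ) : H κ →L[ℂ] H ι :=
  LinearMap.mkContinuous
    { toFun := fun x => ⟨fun i => x (φ i), mem_of_summable (summable_pull φ hφ x)⟩
      map_add' := fun x y => by ext k; rfl
      map_smul' := fun c x => by ext k; rfl }
    1 (fun x => by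
      rw [one_mul]
      have h := norm_sq_eq (ι := ι) ⟨fun i => x (φ i), mem_of_summable (summable_pull φ hφ x)⟩
      have h2 : ∑' i, ‖x (φ i)‖ ^ 2 ≤ ∑' k, ‖x k‖ ^ 2 :=
        tsum_comp_le_tsum_of_inj (summable_sq x) (fun _ => by positivity) hφ
      rw [← norm_sq_eq] at h2
      exact (pow_le_pow_iff_left₀ (norm_nonneg _) (norm_nonneg _) two_ne_zero).1 (h.trans_le h2))

@[simp] theorem pull_apply (φ : ι → κ) (hφ : Function.Injective φ) (x : H κ) (i : ι) :
    (pull φ hφ x : H ι) i = x (φ i) := rfl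

theorem norm_pull_le (φ : ι → κ) (hφ : Function.Injective φ) : ‖pull φ hφ‖ ≤ 1 :=
  LinearMap.mkContinuous_norm_le _ zero_le_one _

/-- basis vector -/
noncomputable def e [DecidableEq ι] (i : ι) : H ι := lp.single 2 i (1 : ℂ)

theorem norm_e [DecidableEq ι] (i : ι) : ‖(e i : H ι)‖ = 1 := by
  rw [e, lp.norm_single (by norm_num)]; simp

theorem e_apply [DecidableEq ι] (i j : ι) : (e i : H ι) j = if j = i then 1 else 0 := by
  simp [e, lp.single_apply, Pi.single_apply]

theorem inner_e [DecidableEq ι] (i : ι) (x : H ι) : inner ℂ (e i : H ι) x = x i := by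
  simp [e, lp.inner_single_left]

theorem apply_le (x : H ι) (i : ι) : ‖x i‖ ≤ ‖x‖ :=
  lp.norm_apply_le_norm (p := 2) (by norm_num) x i

/-- forward shift -/
noncomputable def fwd : H ℕ →L[ℂ] H ℕ := push Nat.succ Nat.succ_injective

/-- backward shift -/
noncomputable def bwd : H ℕ →L[ℂ] H ℕ := pull Nat.succ Nat.succ_injective

@[simp] theorem fwd_zero (x : H ℕ) : fwd x 0 = 0 := push_apply_of_not _ _ _ _ (by simp)
@[simp] theorem fwd_succ (x : H ℕ) (n : ℕ) : fwd x (n + 1) = x n := push_apply _ _ _ _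
@[simp] theorem bwd_apply (x : H ℕ) (n : ℕ) : bwd x n = x (n + 1) := rfl
theorem norm_fwd (x : H ℕ) : ‖fwd x‖ = ‖x‖ := norm_push _ _ _

end Pool.Agent.H95.L2
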