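import Pool.Agent.H95.BoolDefs
import Pool.Agent.H95.L2

set_option autoImplicit false

open Set Filter Topology TopologicalSpace

namespace Pool.Agent.H95.BoolSub
open Pool.Agent.H95.L2

lemma stone (B : Type) [BooleanAlgebra B] : ∃ (ι : Type) (f : B → Set ι), f ⊥ = ∅ ∧ f ⊤ = univ ∧
    (∀ a b, f (a ⊓ b) = f a ∩ f b) ∧ (∀ a b, f (a ⊔ b) = f a ∪ f b) ∧
    ∀ a b, f a ⊆ f b → a ≤ b := by
  refine ⟨{I : Order.Ideal B // I.IsPrime}, fun a => {I | a ∉ I.1}, ?_, ?_, fun a b => ?_,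
    fun a b => ?_, fun a b h => ?_⟩
  · ext I; simp
  · ext I
    haveI := I.2
    simpa using Order.Ideal.IsProper.top_notMem (I := I.1) inferInstance
  · ext I
    simp only [mem_setOf_eq, mem_inter_iff, ← not_or]
    exact not_congr ⟨I.2.mem_or_mem, fun h => h.elim (fun h => I.1.lower inf_le_left h)
      fun h => I.1.lower inf_le_right h⟩
  · ext I
    simp only [mem_setOf_eq, mem_union, Order.Ideal.sup_mem_iff, not_and_or]
  · by_contra hab
    obtain ⟨J, h1, h2, h3⟩ := DistribLattice.prime_ideal_of_disjoint_filter_ideal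
      (F := Order.PFilter.principal a) (I := Order.Ideal.principal b)
      (disjoint_left.2 fun x hx hx' => hab (le_trans hx hx'))
    exact h (a := ⟨J, h1⟩) (disjoint_left.1 h3 (Order.PFilter.mem_principal.2 le_rfl))
      (h2 Order.Ideal.mem_principal_self)

def M {ι : Type} (s : Set ι) : ClosedSubmodule ℂ (H ι) where
  carrier := {x | ∀ i, i ∉ s → x i = 0}
  add_mem' := fun hx hy i hi => by simp [hx i hi, hy i hi]
  zero_mem' := fun i _ => rfl
  smul_mem' := fun c x hx i hi => by simp [hx i hi]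
  isClosed' := by
    simp only [Set.setOf_forall]
    exact isClosed_iInter fun i => isClosed_iInter fun _ => isClosed_eq
      ((continuous_apply i).comp lp.uniformContinuous_coe.continuous) continuous_const

lemma mem_M {ι : Type} {s : Set ι} {x : H ι} : x ∈ M s ↔ ∀ i, i ∉ s → x i = 0 := Iff.rfl

lemma M_le {ι : Type} {s t : Set ι} : M s ≤ M t ↔ s ⊆ t := by
  classical
  refine ⟨fun h i hi => ?_, fun h x hx i hi => hx i fun h' => hi (h h')⟩
  by_contra hc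
  have := h (show e i ∈ M s from fun k hk => by
    rw [e_apply, if_neg (by rintro rfl; exact hk hi)]) i hc
  simp [e_apply] at this

lemma M_inter {ι : Type} (s t : Set ι) : M (s ∩ t) = M s ⊓ M t :=
  le_antisymm (le_inf (M_le.2 inter_subset_left) (M_le.2 inter_subset_right))
    fun _ hx i hi => (not_and_or.1 hi).elim (hx.1 i) (hx.2 i)

lemma M_union {ι : Type} (s t : Set ι) : M (s ∪ t) = M s ⊔ M t := by
  classical
  refine le_antisymm (fun x hx => ?_)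
    (sup_le (M_le.2 subset_union_left) (M_le.2 subset_union_right))
  let P := diag (fun i => if i ∈ s then (1 : ℂ) else 0) zero_le_one fun i => by split_ifs <;> simp
  have h1 : P x ∈ M s := fun i hi => by simp [P, hi]
  have h2 : x - P x ∈ M t := fun i hi => by
    by_cases h : i ∈ s
    · simp [P, h]
    · simp [P, h, hx i (not_or.2 ⟨h, hi⟩)]
  have := add_mem ((le_sup_left : M s ≤ M s ⊔ M t) h1) ((le_sup_right : M t ≤ M s ⊔ M t) h2)
  rwa [add_sub_cancel] at this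

lemma M_empty {ι : Type} : M (∅ : Set ι) = ⊥ :=
  le_bot_iff.1 fun _ hx => lp.ext (funext fun i => hx i (notMem_empty i))

lemma M_univ {ι : Type} : M (univ : Set ι) = ⊤ :=
  top_le_iff.1 fun _ _ i hi => absurd (mem_univ i) hi

theorem no_rep {B : Type} [BooleanAlgebra B] [Nontrivial B] (a : ℕ → ℕ → B)
    (hm : ∀ n, Monotone (a n)) (h1 : ∀ n c d, (∀ k, c ⊓ a n k ≤ d) → c ≤ d)
    (h2 : ∀ (κ : ℕ → ℕ) c, (∀ n, c ≤ a n (κ n)) → c = ⊥)
    {K : Type} [NormedAddCommGroup K] [InnerProductSpace ℂ K] [CompleteSpace K]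
    (h : B → ClosedSubmodule ℂ K) (hi : Function.Injective h) (hinf : ∀ b c, h (b ⊓ c) = h b ⊓ h c)
    (hbot : ⊥ ∈ range h) (hR : IsReflexiveFam (range h)) : False := by
  have hle : ∀ b c, h b ≤ h c ↔ b ≤ c := fun b c => by
    rw [← inf_eq_left, ← hinf, hi.eq_iff, inf_eq_left]
  have h0 : h ⊥ = ⊥ := by
    obtain ⟨b, hb⟩ := hbot
    exact le_bot_iff.1 (hb ▸ (hle _ _).2 bot_le)
  have hsup : ∀ b : ℕ → B, ∃ c, h c = ⨆ k, h (b k) := fun b => by
    show _ ∈ range h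
    rw [hR]
    intro T hT
    exact iSup_le (a := (⨆ k, h (b k)).comap T) fun k x hx =>
      le_iSup (fun k => h (b k)) k (hT _ ⟨_, rfl⟩ x hx)
  have hiInf : ∀ b : ℕ → B, ∃ c, h c = ⨅ k, h (b k) := fun b => by
    show _ ∈ range h
    rw [hR]
    intro T hT x hx
    rw [ClosedSubmodule.mem_iInf] at hx ⊢
    exact fun k => hT _ ⟨_, rfl⟩ x (hx k)
  have step : ∀ (n : ℕ) (p : B × K), p.2 ∈ h p.1 → ∀ ε > 0, ∃ (k : ℕ) (y : K),
      y ∈ h (p.1 ⊓ a n k) ∧ dist p.2 y < ε := by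
    rintro n ⟨c, x⟩ hx ε hε
    obtain ⟨d, hd⟩ := hsup fun k => c ⊓ a n k
    have h3 : x ∈ ⨆ k, h (c ⊓ a n k) := hd ▸ (hle _ _).2 (h1 n c d fun k =>
      (hle _ _).1 (hd ▸ le_iSup (fun k => h (c ⊓ a n k)) k)) hx
    rw [ClosedSubmodule.mem_iSup] at h3
    obtain ⟨y, hy, hxy⟩ := Metric.mem_closure_iff.1 h3 ε hε
    obtain ⟨k, hk⟩ := (Submodule.mem_iSup_of_directed _ (Monotone.directed_le fun k l hkl =>
      ClosedSubmodule.toSubmodule_le_toSubmodule.2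
        ((hle _ _).2 (inf_le_inf_left c (hm n hkl))))).1 hy
    exact ⟨k, y, hk, hxy⟩
  obtain ⟨x0, hx0, hx0'⟩ : ∃ x ∈ h ⊤, x ≠ 0 := by
    by_contra hc
    push Not at hc
    exact top_ne_bot (hi ((le_bot_iff.1 hc).trans h0.symm))
  have hδ := norm_pos_iff.2 hx0'
  choose! κ y hy1 hy2 using fun n p hp => step n p hp (‖x0‖ / 4 * (1 / 2) ^ n) (by positivity)
  let s : ℕ → B × K := fun n => Nat.rec (⊤, x0) (fun n p => (p.1 ⊓ a n (κ n p), y n p)) n
  have hs : ∀ n, (s n).2 ∈ h (s n).1 := fun n => by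
    induction n with
    | zero => exact hx0
    | succ n ih => exact hy1 n _ ih
  have hd : ∀ n, dist (s n).2 (s (n + 1)).2 ≤ ‖x0‖ / 4 * (1 / 2) ^ n := fun n => (hy2 n _ (hs n)).le
  obtain ⟨z, hz⟩ := cauchySeq_tendsto_of_complete
    (cauchySeq_of_le_geometric (1 / 2) _ (by norm_num) hd)
  have h3 := dist_le_of_le_geometric_of_tendsto₀ (1 / 2) _ (by norm_num) hd hz
  have hanti : Antitone fun n => (s n).1 := antitone_nat_of_succ_le fun n => inf_le_left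
  obtain ⟨c, hc⟩ := hiInf fun n => (s n).1
  have h4 : z ∈ h c := by
    rw [hc, ClosedSubmodule.mem_iInf]
    intro n
    refine (h (s n).1).isClosed.mem_of_tendsto hz ?_
    filter_upwards [eventually_ge_atTop n] with m hm' using (hle _ _).2 (hanti hm') (hs m)
  rw [h2 (fun n => κ n (s n)) c fun n => ((hle _ _).1
    (hc ▸ iInf_le (fun n => h (s n).1) (n + 1))).trans inf_le_right, h0,
    ClosedSubmodule.mem_bot] at h4
  rw [h4, dist_zero_right] at h3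
  change ‖x0‖ ≤ _ at h3
  norm_num at h3
  linarith

abbrev Co : Type := Heyting.Regular (Opens ℝ)

noncomputable def U (n k : ℕ) : Opens ℝ :=
  ⟨Metric.ball (denseSeq ℝ n) (1 / ((k : ℝ) + 1)), Metric.isOpen_ball⟩

noncomputable def a (n k : ℕ) : Co := ⟨(U n k)ᶜ, Heyting.isRegular_compl _⟩

instance : Nontrivial Co := ⟨⊥, ⊤, fun h => bot_ne_top (congrArg Heyting.Regular.val h)⟩

lemma a_mono (n : ℕ) : Monotone (a n) := fun k l hkl =>
  compl_le_compl (a := U n l) (b := U n k)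
    (Metric.ball_subset_ball (Nat.one_div_le_one_div hkl))

lemma a_sup (n : ℕ) (c d : Co) (h : ∀ k, c ⊓ a n k ≤ d) : c ≤ d := by
  have key : ∀ {B : Type} [BooleanAlgebra B] (x y : B), x ⊓ yᶜ = ⊥ ↔ x ≤ y := fun x y => by
    rw [← disjoint_iff, disjoint_compl_right_iff]
  refine (key c d).1 (Heyting.Regular.coe_injective ?_)
  let W : Opens ℝ := (c : Opens ℝ) ⊓ (d : Opens ℝ)ᶜ
  show W = ⊥
  have h1 : (W : Set ℝ) ⊆ {denseSeq ℝ n} := by
    intro x hx
    by_contra hne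
    obtain ⟨k, hk⟩ := exists_nat_one_div_lt (dist_pos.2 hne)
    let V : Opens ℝ := ⟨(Metric.closedBall (denseSeq ℝ n) (1 / ((k : ℝ) + 1)))ᶜ,
      Metric.isClosed_closedBall.isOpen_compl⟩
    have h2 : V ≤ (U n k)ᶜ := le_compl_iff_disjoint_right.2 (disjoint_iff.2 (le_bot_iff.1
      fun y hy => hy.1 (Metric.ball_subset_closedBall hy.2)))
    have h3 : (c : Opens ℝ) ⊓ (U n k)ᶜ ⊓ (d : Opens ℝ)ᶜ = ⊥ :=
      congrArg Heyting.Regular.val ((key _ _).2 (h k))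
    have h4 : x ∈ (c : Opens ℝ) ⊓ (U n k)ᶜ ⊓ (d : Opens ℝ)ᶜ := ⟨⟨hx.1, h2 (not_le.2 hk)⟩, hx.2⟩
    rw [h3] at h4
    exact h4
  rcases subset_singleton_iff_eq.1 h1 with h2 | h2
  · exact Opens.ext h2
  · exact absurd (h2 ▸ W.isOpen) (not_isOpen_singleton _)

lemma a_inf (κ : ℕ → ℕ) (c : Co) (h : ∀ n, c ≤ a n (κ n)) : c = ⊥ := by
  by_contra hc
  have h1 : ((c : Opens ℝ) : Set ℝ).Nonempty := by
    rw [nonempty_iff_ne_empty]
    exact fun h => hc (Heyting.Regular.coe_injective (Opens.ext h))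
  obtain ⟨n, hn⟩ := (denseRange_denseSeq ℝ).exists_mem_open (c : Opens ℝ).isOpen h1
  have h2 : (c : Opens ℝ) ⊓ U n (κ n) = ⊥ := disjoint_iff.1 (le_compl_iff_disjoint_right.1 (h n))
  have h3 : denseSeq ℝ n ∈ (c : Opens ℝ) ⊓ U n (κ n) :=
    ⟨hn, Metric.mem_ball_self Nat.one_div_pos_of_nat⟩
  rw [h2] at h3
  exact h3

lemma co_lub (S : Set Co) : ∃ c, IsLUB S c := by
  have := Heyting.Regular.gi.gc.isLUB_l_image
    (isLUB_sSup (((↑) : Co → Opens ℝ) '' S))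
  rw [image_image] at this
  simp only [Heyting.Regular.toRegular_coe, image_id'] at this
  exact ⟨_, this⟩

theorem main_aux {Co : Type} [BooleanAlgebra Co] [Nontrivial Co] (a : ℕ → ℕ → Co)
    (a_mono : ∀ n, Monotone (a n)) (a_sup : ∀ n c d, (∀ k, c ⊓ a n k ≤ d) → c ≤ d)
    (a_inf : ∀ (κ : ℕ → ℕ) c, (∀ n, c ≤ a n (κ n)) → c = ⊥)
    (co_lub : ∀ S : Set Co, ∃ c, IsLUB S c) :
    ∃ (H : Type) (_ : NormedAddCommGroup H) (_ : InnerProductSpace ℂ H)
    (_ : CompleteSpace H) (E : Set (ClosedSubmodule ℂ H)), IsBoolSub E ∧ IsCompleteFam E ∧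
    ∀ (K : Type) [NormedAddCommGroup K] [InnerProductSpace ℂ K] [CompleteSpace K]
      (F : Set (ClosedSubmodule ℂ K)), IsBoolSub F → IsReflexiveFam F → ¬ LatticeIso E F := by
  obtain ⟨ι, f, f0, f1, fi, fs, fle⟩ := stone Co
  let m : Co → ClosedSubmodule ℂ (H ι) := fun b => M (f b)
  have m0 : m ⊥ = ⊥ := by simp only [m, f0, M_empty]
  have m1 : m ⊤ = ⊤ := by simp only [m, f1, M_univ]
  have mi : ∀ b c, m (b ⊓ c) = m b ⊓ m c := fun b c => by simp only [m, fi, M_inter]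
  have ms : ∀ b c, m (b ⊔ c) = m b ⊔ m c := fun b c => by simp only [m, fs, M_union]
  have mle : ∀ b c, m b ≤ m c ↔ b ≤ c := fun b c => ⟨fun h => fle _ _ (M_le.1 h), fun h => by
    rw [← inf_eq_left, ← mi, inf_eq_left.2 h]⟩
  refine ⟨H ι, inferInstance, inferInstance, inferInstance, range m, ⟨⟨_, m0⟩, ⟨_, m1⟩, ?_, ?_, ?_⟩,
    fun S hS => ?_, ?_⟩
  · rintro _ ⟨b, rfl⟩ _ ⟨c, rfl⟩
    exact ⟨⟨_, mi b c⟩, _, ms b c⟩
  · rintro _ ⟨b, rfl⟩ _ ⟨c, rfl⟩ _ ⟨d, rfl⟩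
    rw [← ms, ← mi, ← mi, ← mi, ← ms, inf_sup_left]
  · rintro _ ⟨b, rfl⟩
    exact ⟨_, ⟨bᶜ, rfl⟩, by rw [← mi, inf_compl_eq_bot, m0], by rw [← ms, sup_compl_eq_top, m1]⟩
  · obtain ⟨c, hc⟩ := co_lub (m ⁻¹' S)
    refine ⟨_, ⟨c, rfl⟩, fun N hN => ?_, ?_⟩
    · obtain ⟨b, rfl⟩ := hS hN
      exact (mle _ _).2 (hc.1 hN)
    · rintro _ ⟨d, rfl⟩ hd
      exact (mle _ _).2 (hc.2 fun b hb => (mle _ _).1 (hd _ hb))
  · rintro K _ _ _ F hF hR ⟨g, hg1, hg2⟩
    have hr : range (g ∘ m) = F := by rw [range_comp, hg1.image_eq]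
    refine no_rep a a_mono a_sup a_inf (g ∘ m) (fun b c hbc => ?_) (fun b c => ?_)
      (hr ▸ hF.1) (hr ▸ hR)
    · have := hg1.injOn ⟨b, rfl⟩ ⟨c, rfl⟩ hbc
      exact le_antisymm ((mle _ _).1 this.le) ((mle _ _).1 this.ge)
    · simp only [Function.comp_apply, mi]
      exact (hg2 _ ⟨b, rfl⟩ _ ⟨c, rfl⟩).1

theorem main : ∃ (H : Type) (_ : NormedAddCommGroup H) (_ : InnerProductSpace ℂ H)
    (_ : CompleteSpace H) (E : Set (ClosedSubmodule ℂ H)), IsBoolSub E ∧ IsCompleteFam E ∧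
    ∀ (K : Type) [NormedAddCommGroup K] [InnerProductSpace ℂ K] [CompleteSpace K]
      (F : Set (ClosedSubmodule ℂ K)), IsBoolSub F → IsReflexiveFam F → ¬ LatticeIso E F :=
  main_aux a a_mono a_sup a_inf co_lub

end Pool.Agent.H95.BoolSub
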