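import Pool.Agent.H95.BpbDefs
import Pool.Agent.H95.Ekeland

namespace Pool.Agent.H95.Bpb
open Metric Set Filter Topology

variable {X : Type} [NormedAddCommGroup X] [NormedSpace ℝ X]

theorem par {f G : StrongDual ℝ X} {η : ℝ} (h0 : 0 < η) (h1 : η < ‖f‖) (hG : G ≠ 0)
    (h : ∀ v, η * ‖v‖ < f v → 0 ≤ G v) : ∃ c > (0 : ℝ), ‖f - c • G‖ ≤ η := by
  obtain ⟨w, hw⟩ : ∃ w, G w = 1 := by
    obtain ⟨w, hw⟩ := DFunLike.ne_iff.1 hG
    exact ⟨(G w)⁻¹ • w, by simp [inv_mul_cancel₀ (show G w ≠ 0 from hw)]⟩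
  have pos : ∀ v, η * ‖v‖ < f v → 0 < G v := fun v hv => by
    have : ∀ᶠ t in 𝓝[>] (0 : ℝ), η * ‖v - t • w‖ < f (v - t • w) := nhdsWithin_le_nhds
      (ContinuousAt.eventually_lt (by fun_prop) (by fun_prop) (by simpa using hv))
    obtain ⟨t, t1, t2⟩ := (this.and self_mem_nhdsWithin).exists
    have := h _ t1
    simp [hw] at this; exact lt_of_lt_of_le t2 this
  obtain ⟨ψ, p1, p2⟩ := exists_extension_norm_eq G.ker (f.comp G.ker.subtypeL)
  have pn : ‖ψ‖ ≤ η := p2 ▸ ContinuousLinearMap.opNorm_le_bound _ h0.le fun v => abs_le.2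
    ⟨le_of_not_gt fun k => (pos (-v.1) (by simp at k ⊢; linarith)).ne' (by simpa using v.2),
      le_of_not_gt fun k => (pos v.1 k).ne' v.2⟩
  have e : ∀ v, f v - ψ v = (f w - ψ w) * G v := fun v => by
    have := p1 ⟨v - G v • w, by simp [hw]⟩
    simp at this; linarith
  obtain ⟨v, v1, v2⟩ := f.exists_lt_apply_of_lt_opNorm h1
  obtain ⟨v, v2⟩ : ∃ v, η * ‖v‖ < f v := by
    rcases lt_abs.1 v2 with k | k
    exacts [⟨v, by nlinarith⟩, ⟨-v, by simp; nlinarith⟩]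
  refine ⟨f w - ψ w, pos_of_mul_pos_left (b := G v) ?_ (pos v v2).le, le_of_eq_of_le (congrArg _ ?_) pn⟩
  · have := (le_abs_self _).trans (ψ.le_of_opNorm_le pn v)
    linarith [e v]
  · ext v; simp; linarith [e v]

theorem sup_ball (F : StrongDual ℝ X) {c : ℝ} (h : ∀ a ∈ ball (0 : X) 1, F a ≤ c) : ‖F‖ ≤ c :=
  le_of_not_gt fun k => by
    obtain ⟨v, v1, v2⟩ := F.exists_lt_apply_of_lt_opNorm k
    rcases lt_abs.1 v2 with k | k
    · exact k.not_ge (h v (by simpa using v1))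
    · exact k.not_ge (by simpa using h (-v) (by simpa using v1))

theorem dec {x y : X} {f : StrongDual ℝ X} {η : ℝ} (h0 : 0 < η) (h1 : η < ‖f‖) (hx : ‖x‖ ≤ 1) (y1 : ‖y‖ ≤ 1)
    (y2 : ‖y - x‖ ≤ 1) (h : ∀ z, ‖z‖ ≤ 1 → ‖z - x‖ ≤ 1 → f z ≤ f y + η * ‖z - y‖) :
    ∃ F G : StrongDual ℝ X, F y = ‖F‖ ∧ G (y - x) = ‖G‖ ∧ ‖f - (F + G)‖ ≤ η := by
  obtain ⟨v, hv⟩ : ∃ v, η * ‖v‖ < f v := by
    by_contra! hn
    exact h1.not_ge (sup_ball f fun a ha => (hn a).trans (by simp at ha; nlinarith))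
  have cv : Convex ℝ {z | f y + η * ‖z - y‖ < f z} := by
    have := (((convexOn_univ_dist y).smul h0.le).sub (f.toLinearMap.concaveOn convex_univ)).convex_lt (-f y)
    refine (congrArg (Convex ℝ) (Set.ext fun z => ?_)).mp this
    simp [dist_eq_norm]; constructor <;> intro <;> linarith
  obtain ⟨L, u, l1, l2⟩ := geometric_hahn_banach_open (s := ball (0 : X) 1 ×ˢ ball x 1 ×ˢ {z | f y + η * ‖z - y‖ < f z})
    (t := range fun z => (z, z, z)) ((convex_ball _ _).prod ((convex_ball _ _).prod cv))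
    (isOpen_ball.prod (isOpen_ball.prod (isOpen_lt (by fun_prop) (by fun_prop))))
    ((LinearMap.id.prod (LinearMap.id.prod LinearMap.id) : X →ₗ[ℝ] _).range.convex)
    (disjoint_right.2 (by
      rintro _ ⟨z, rfl⟩ ⟨a, b, c⟩
      exact (h z (mem_ball_zero_iff.1 a).le (mem_ball_iff_norm.1 b).le).not_gt c))
  let F : StrongDual ℝ X := L.comp (.inl ℝ _ _)
  let G : StrongDual ℝ X := L.comp ((ContinuousLinearMap.inr ℝ _ _).comp (.inl ℝ _ _))
  let H : StrongDual ℝ X := L.comp ((ContinuousLinearMap.inr ℝ _ _).comp (.inr ℝ _ _))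
  have eL : ∀ a b c, L (a, b, c) = F a + G b + H c := fun a b c => by simp [F, G, H, ← map_add]
  have u0 : u ≤ 0 := by simpa using l2 0 ⟨0, rfl⟩
  have d0 : ∀ z, F z + G z + H z = 0 := fun z => by
    by_contra k
    have := l2 _ ⟨((u - 1) / (F z + G z + H z)) • z, rfl⟩
    simp only [eL, map_smul, smul_eq_mul, ← mul_add, div_mul_cancel₀ _ k] at this; linarith
  have key : ∀ w, η * ‖w‖ < f w → ∀ t > (0 : ℝ), ‖F‖ + ‖G‖ + G x + H y + t * H w ≤ 0 := fun w hw t ht => by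
    have : ‖F‖ ≤ -(‖G‖ + G x + H y + t * H w) := sup_ball F fun a ha => by
      have : ‖G‖ ≤ -(F a + G x + H y + t * H w) := sup_ball G fun b hb => by
        have := l1 (a, x + b, y + t • w) ⟨ha, by simpa using hb, by
          simp [norm_smul, abs_of_pos ht]; nlinarith⟩
        simp only [eL, map_add, map_smul, smul_eq_mul] at this; linarith
      linarith
    linarith
  have k0 : ‖F‖ + ‖G‖ + G x + H y ≤ 0 := le_of_tendsto (f := fun t : ℝ => ‖F‖ + ‖G‖ + G x + H y + t * H v)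
    (x := 𝓝[>] 0) ((Continuous.tendsto' (by fun_prop) 0 _ (by simp)).mono_left nhdsWithin_le_nhds)
    (eventually_nhdsWithin_of_forall (key v hv))
  have a1 := (le_abs_self _).trans (F.unit_le_opNorm y y1)
  have a2 := (le_abs_self _).trans (G.unit_le_opNorm _ y2)
  have e1 : F y = ‖F‖ := by linarith [d0 y, map_sub G y x]
  have e2 : G (y - x) = ‖G‖ := by linarith [d0 y, map_sub G y x]
  obtain ⟨c, c0, hc⟩ := par (G := F + G) h0 h1 (fun e => by
    have e' : ∀ z, F z + G z = 0 := DFunLike.congr_fun e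
    have n : ‖F‖ = ‖G‖ := by rw [eq_neg_of_add_eq_zero_left e, norm_neg]
    have := (le_abs_self _).trans (F.unit_le_opNorm x hx)
    have F0 : F = 0 := norm_le_zero_iff.1 (by linarith [e' y, e' x, map_sub G y x])
    have := l1 (0, x, y + v) ⟨by simp, by simp, by simpa using hv⟩
    have b := l2 _ ⟨0, rfl⟩
    have c := l2 _ ⟨y + v, rfl⟩
    simp only [eL] at this c
    have := e' x; have := e' (y + v)
    simp [F0] at *; linarith) fun w hw => by
      have := key w hw 1 one_pos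
      simp; linarith [d0 y, d0 w, map_sub G y x]
  exact ⟨c • F, c • G, by simp [norm_smul, abs_of_pos c0, e1], by rw [norm_smul, Real.norm_of_nonneg c0.le, ← e2]; rfl,
    by rwa [← smul_add]⟩

theorem close {f F G : StrongDual ℝ X} {η : ℝ} (h0 : 0 ≤ η) (hf : ‖f‖ = 1) (h : ‖f - (F + G)‖ ≤ η) (h1 : ‖G‖ ≤ ‖F‖)
    (F0 : 0 < ‖F‖) (h2 : ‖G‖ ≤ 1 + η) : ‖f - ‖F‖⁻¹ • F‖ ≤ 1 + 2 * η := by
  refine (norm_sub_le_norm_sub_add_norm_sub _ (F + G) _).trans ?_
  have i0 := inv_pos.2 F0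
  have i1 := inv_mul_cancel₀ F0.ne'
  rcases le_total ‖F‖ 1 with k | k
  · have : F + G - ‖F‖⁻¹ • F = G - (‖F‖⁻¹ - 1) • F := by module
    rw [this]
    have := norm_sub_le G ((‖F‖⁻¹ - 1) • F)
    rw [norm_smul, Real.norm_of_nonneg (by nlinarith)] at this
    linarith
  · have : F + G - ‖F‖⁻¹ • F = (1 - ‖F‖⁻¹) • (F + G) + ‖F‖⁻¹ • G := by module
    rw [this]
    have := norm_add_le ((1 - ‖F‖⁻¹) • (F + G)) (‖F‖⁻¹ • G)
    have p : 0 ≤ 1 - ‖F‖⁻¹ := by nlinarith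
    rw [norm_smul, norm_smul, Real.norm_of_nonneg p, Real.norm_of_nonneg i0.le] at this
    have q : ‖F + G‖ ≤ 1 + η := by linarith [norm_sub_norm_le (F + G) f, norm_sub_rev (F + G) f]
    nlinarith [mul_le_mul_of_nonneg_left q p, mul_le_mul_of_nonneg_left h2 i0.le]

theorem unit {F : StrongDual ℝ X} {y : X} (F0 : 0 < ‖F‖) (h : F y = ‖F‖) (hy : ‖y‖ ≤ 1) :
    ‖y‖ = 1 ∧ ‖‖F‖⁻¹ • F‖ = 1 ∧ (‖F‖⁻¹ • F) y = 1 :=
  ⟨le_antisymm hy (le_of_mul_le_mul_left (by linarith [(le_abs_self _).trans (F.le_opNorm y)]) F0),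
    by simp [norm_smul, F0.ne'], by simp [h, F0.ne']⟩

variable [CompleteSpace X]

theorem one (x : X) (f : StrongDual ℝ X) (hx : ‖x‖ = 1) (hf : ‖f‖ = 1) {δ : ℝ} (hδ : 1 < δ) :
    ∃ (y : X) (g : StrongDual ℝ X), ‖y‖ = 1 ∧ ‖g‖ = 1 ∧ |g y| = 1 ∧ ‖x - y‖ < δ ∧ ‖f - g‖ < δ := by
  set η := min ((δ - 1) / 3) (1 / 2)
  have h0 : 0 < η := lt_min (by linarith) one_half_pos
  have h1 : η ≤ (δ - 1) / 3 := min_le_left _ _
  have h2 : η ≤ 1 / 2 := min_le_right _ _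
  haveI : CompleteSpace (closedBall (0 : X) 1 ∩ closedBall x 1 :) :=
    (isClosed_closedBall.inter isClosed_closedBall).completeSpace_coe
  obtain ⟨⟨y, y1, y2⟩, -, hy⟩ := Ekeland.ekeland (k := fun z : (closedBall (0 : X) 1 ∩ closedBall x 1 :) => f z)
    (by fun_prop) (M := 1) (fun z => (le_abs_self _).trans ((f.unit_le_opNorm _ (mem_closedBall_zero_iff.1 z.2.1)).trans hf.le))
    h0 ⟨x, by simp [hx], by simp⟩
  rw [mem_closedBall_zero_iff] at y1
  rw [mem_closedBall_iff_norm] at y2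
  obtain ⟨F, G, e1, e2, h⟩ := dec h0 (by linarith) hx.le y1 y2 fun z a b => by
    simpa [Subtype.dist_eq, dist_eq_norm'] using hy ⟨z, by simpa using a, mem_closedBall_iff_norm.2 b⟩
  have q : ‖F + G‖ ≤ 1 + η := by linarith [norm_sub_norm_le (F + G) f, norm_sub_rev (F + G) f]
  have q2 : 1 - η ≤ ‖F‖ + ‖G‖ := by linarith [norm_sub_norm_le f (F + G), norm_add_le F G]
  have s : ‖F‖ + ‖G‖ ≤ 2 * (1 + η) := by
    have a := (le_abs_self _).trans ((F + G).le_of_opNorm_le_of_le q (x := y + (y - x))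
      ((norm_add_le _ _).trans (add_le_add y1 y2)))
    have b := (le_abs_self _).trans (F.unit_le_opNorm x hx.le)
    have c := (neg_le_abs _).trans (G.unit_le_opNorm x hx.le)
    simp only [ContinuousLinearMap.add_apply, map_add, map_sub] at a e2
    linarith
  rcases le_total ‖G‖ ‖F‖ with k | k
  · obtain ⟨u1, u2, u3⟩ := unit (by linarith) e1 y1
    exact ⟨y, _, u1, u2, by simp only [u3, abs_one], by rw [norm_sub_rev]; linarith,
      (close h0.le hf h k (by linarith) (by linarith)).trans_lt (by linarith)⟩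
  · obtain ⟨u1, u2, u3⟩ := unit (by linarith) e2 y2
    refine ⟨x - y, _, by rwa [norm_sub_rev], u2, by rw [← neg_sub, map_neg, u3]; simp, by simp; linarith,
      (close h0.le hf (add_comm F G ▸ h) k (by linarith) (by linarith)).trans_lt (by linarith)⟩

theorem ek {Y : Type} [MetricSpace Y] [CompleteSpace Y] {k : Y → ℝ} (hk : Continuous k)
    {M : ℝ} (hM : ∀ y, k y ≤ M) {ε : ℝ} (hε : 0 < ε) (y0 : Y) :
    ∃ x, k y0 + ε * dist y0 x ≤ k x ∧ ∀ y, k y ≤ k x + ε * dist x y := by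
  haveI : CompleteSpace {y | k y0 + ε * dist y0 y ≤ k y} := (isClosed_le (by fun_prop) hk).completeSpace_coe
  obtain ⟨⟨x, hx⟩, -, h⟩ := Ekeland.ekeland (k := fun z : {y | k y0 + ε * dist y0 y ≤ k y} => k z)
    (by fun_prop) (fun z => hM z) hε ⟨y0, by simp⟩
  refine ⟨x, hx, fun y => le_of_not_gt fun a => a.not_ge (h ⟨y, ?_⟩)⟩
  have := mul_le_mul_of_nonneg_left (dist_triangle y0 x y) hε.le
  have hx : k y0 + ε * dist y0 x ≤ k x := hx
  change k y0 + ε * dist y0 y ≤ k y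
  linarith

theorem two {ε : ℝ} (h0 : 0 < ε) (h2 : ε < 2) (x : X) (f : StrongDual ℝ X) (hx : ‖x‖ = 1) (hf : ‖f‖ = 1)
    (h : 1 - ε < f x) {δ : ℝ} (hδ : √(2 * ε) < δ) :
    ∃ (y : X) (g : StrongDual ℝ X), ‖y‖ = 1 ∧ ‖g‖ = 1 ∧ |g y| = 1 ∧ ‖x - y‖ < δ ∧ ‖f - g‖ < δ := by
  have r0 : 0 < √(2 * ε) := by positivity
  have r1 : √(2 * ε) ^ 2 = 2 * ε := Real.sq_sqrt (by positivity)
  generalize √(2 * ε) = r at *
  have r2 : r < 2 := by nlinarith
  haveI : CompleteSpace (closedBall (0 : X) 1) := isClosed_closedBall.completeSpace_coe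
  have b : ∀ z : closedBall (0 : X) 1, f z ≤ 1 := fun z =>
    (le_abs_self _).trans ((f.unit_le_opNorm _ (mem_closedBall_zero_iff.1 z.2)).trans hf.le)
  obtain ⟨⟨y, y1⟩, y2, hy⟩ := ek (k := fun z : closedBall (0 : X) 1 => f z) (by fun_prop) b (half_pos r0)
    ⟨x, by simp [hx]⟩
  have y3 := b ⟨y, y1⟩
  rw [mem_closedBall_zero_iff] at y1
  obtain ⟨F, G, e1, e2, e⟩ := dec (x := 0) (f := f) (half_pos r0) (by linarith) (by simp) y1 (by simpa) fun z a _ => by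
    simpa [Subtype.dist_eq, dist_eq_norm'] using hy ⟨z, by simpa using a⟩
  have q := abs_norm_sub_norm_le f (F + G)
  have p : 0 < ‖F + G‖ := by linarith [(abs_le.1 q).2]
  obtain ⟨u1, u2, u3⟩ := unit (y := y) p (le_antisymm ((le_abs_self _).trans ((F + G).unit_le_opNorm y y1))
    ((norm_add_le _ _).trans_eq (by simp_all))) y1
  refine ⟨y, _, u1, u2, by simp only [u3, abs_one], ?_,
    (norm_sub_le_norm_sub_add_norm_sub _ (F + G) _).trans_lt ?_⟩
  · simp only [Subtype.dist_eq, dist_eq_norm] at y2 y3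
    nlinarith
  · have : F + G - ‖F + G‖⁻¹ • (F + G) = (‖F + G‖ - 1) • ‖F + G‖⁻¹ • (F + G) := by
      ext v; simp; field_simp
    rw [this, norm_smul, u2, Real.norm_eq_abs, abs_sub_comm, mul_one]; rw [hf] at q; linarith

theorem main (ε : ℝ) (h0 : 0 < ε) (h2 : ε < 2) : Phi X ε ≤ ((min √(2 * ε) 1 : ℝ) : EReal) :=
  le_of_forall_gt_imp_ge_of_dense fun d hd => by
    obtain ⟨δ, h1, h3⟩ := EReal.lt_iff_exists_real_btwn.1 hd
    have h1 : min √(2 * ε) 1 < δ := by exact_mod_cast h1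
    exact iInf₂_le_of_le δ ⟨lt_of_le_of_lt (by positivity) h1, fun x f hx hf h =>
      (min_lt_iff.1 h1).elim (two h0 h2 x f hx hf h) (one x f hx hf)⟩ h3.le

end Pool.Agent.H95.Bpb
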