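import Mathlib

namespace Pool.Agent.H95.Bpb

/-- the Bishop-Phelps-Bollobas modulus for operators from `X` to the real line -/
noncomputable def Phi (X : Type) [NormedAddCommGroup X] [NormedSpace ℝ X] (ε : ℝ) : EReal :=
  ⨅ (δ : ℝ) (_ : 0 < δ ∧ ∀ (x : X) (f : StrongDual ℝ X), ‖x‖ = 1 → ‖f‖ = 1 → 1 - ε < f x →
    ∃ (y : X) (g : StrongDual ℝ X), ‖y‖ = 1 ∧ ‖g‖ = 1 ∧ |g y| = 1 ∧ ‖x - y‖ < δ ∧ ‖f - g‖ < δ), (δ : EReal)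

end Pool.Agent.H95.Bpb
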