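import Pool.Agent.H95.BratDefs
import Pool.Agent.H8.Analytic

set_option autoImplicit false

namespace Pool.Agent.H95.Brat

open Set Function MeasureTheory Filter

variable {V E : ℕ → Type} {s : ∀ i, E i → V i} {r : ∀ i, E i → V (i + 1)}

def XM (s : ∀ i, E i → V i) (r : ∀ i, E i → V (i + 1)) (o : ∀ i, E i → ℤ) : Set (Path s r) :=
  {x | ∀ i, IsMax r o i (x.1 i)}

lemma min_neg (o : ∀ i, E i → ℤ) (i : ℕ) (e : E i) : IsMax r (-o) i e ↔ IsMin r o i e := by
  simp [IsMax, IsMin]

lemma max_neg (o : ∀ i, E i → ℤ) (i : ℕ) (e : E i) : IsMin r (-o) i e ↔ IsMax r o i e := by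
  simp [IsMax, IsMin]

lemma IsOrder.neg {o : ∀ i, E i → ℤ} (h : IsOrder r o) : IsOrder r (-o) :=
  fun i e f a b => h i e f a (neg_injective b)

lemma ver_neg (o : ∀ i, E i → ℤ) (x y : Path s r) (h : Ver s r o x y) : Ver s r (-o) y x := by
  obtain ⟨n, a, ⟨b, c, d⟩, e⟩ := h
  refine ⟨n, fun i hi => ⟨(min_neg ..).2 (a i hi).2, (max_neg ..).2 (a i hi).1⟩,
    ⟨b.symm, neg_lt_neg c, fun g hg => ?_⟩, fun i hi => (e i hi).symm⟩
  simpa using (d g (hg.trans b.symm)).symm

lemma uniq {o : ∀ i, E i → ℤ} (ho : IsOrder r o) (x y : Path s r) (n : ℕ) (h : x.1 n = y.1 n)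
    (hx : ∀ i, i < n → IsMax r o i (x.1 i)) (hy : ∀ i, i < n → IsMax r o i (y.1 i)) :
    ∀ i, i ≤ n → x.1 i = y.1 i := by
  induction n with
  | zero => intro i hi; rwa [Nat.le_zero.1 hi]
  | succ n ih =>
    intro i hi
    rcases hi.eq_or_lt with rfl | hi
    · exact h
    have e : r n (x.1 n) = r n (y.1 n) := by rw [x.2, y.2, h]
    exact ih (ho _ _ _ e (le_antisymm (hy n n.lt_succ_self _ e) (hx n n.lt_succ_self _ e.symm)))
      (fun i hi => hx i (by omega)) (fun i hi => hy i (by omega)) i (by omega)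

section
variable (hr : ∀ i, Surjective (r i)) (hf : ∀ i v, {e | r i e = v}.Finite)
include hr hf

lemma down (o : ∀ i, E i → ℤ) (n : ℕ) : ∀ z : ∀ i, E i,
    (∀ i, n ≤ i → r i (z i) = s (i + 1) (z (i + 1))) →
    ∃ y : Path s r, (∀ i, n ≤ i → y.1 i = z i) ∧ ∀ i, i < n → IsMax r o i (y.1 i) := by
  induction n with
  | zero => exact fun z h => ⟨⟨z, fun i => h i i.zero_le⟩, fun _ _ => rfl, fun _ h => absurd h (by omega)⟩
  | succ n ih =>
    intro z h
    obtain ⟨e, he, hm⟩ := exists_max_image _ (o n) (hf n (s (n + 1) (z (n + 1)))) (hr n _)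
    obtain ⟨y, a, b⟩ := ih (update z n e) fun i hi => by
      rw [update_of_ne (show i + 1 ≠ n by omega)]
      rcases hi.eq_or_lt with rfl | hi
      · rwa [update_self]
      · rw [update_of_ne hi.ne', h i hi]
    refine ⟨y, fun i hi => by rw [a i (by omega), update_of_ne (by omega)], fun i hi => ?_⟩
    rcases (Nat.lt_succ_iff.1 hi).eq_or_lt with rfl | hi
    · rw [a i le_rfl, update_self]
      exact fun f hf => hm f (hf.trans he)
    · exact b i hi

lemma inj {o : ∀ i, E i → ℤ} (ho : IsOrder r o) (o' : ∀ i, E i → ℤ) (N : ℕ) (Y : Set (Path s r))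
    (hY : Y ⊆ XM s r o) (h : ∀ y ∈ Y, ∀ i, N ≤ i → IsMax r o' i (y.1 i)) :
    ∃ f : Y → XM s r o', Injective f := by
  choose f a b using fun y : Path s r => down hr hf o' N y.1 fun i _ => y.2 i
  refine ⟨fun y => ⟨f y, fun i => (lt_or_ge i N).elim (b y i) fun hi => a y i hi ▸ h y y.2 i hi⟩,
    fun x y e => Subtype.ext (Subtype.ext (funext fun i => ?_))⟩
  have e : f x = f y := congrArg Subtype.val e
  refine uniq ho x.1 y.1 (i + N) ?_ (fun j _ => hY x.2 j) (fun j _ => hY y.2 j) i (by omega)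
  rw [← a x _ (by omega), e, a y _ (by omega)]

lemma ver_ex (o : ∀ i, E i → ℤ) (x : Path s r) (hx : x ∉ XM s r o) : ∃ y, Ver s r o x y := by
  classical
  have hx : ∃ i, ¬ IsMax r o i (x.1 i) := not_forall.1 hx
  set n := Nat.find hx
  obtain ⟨e, he, hm⟩ := exists_min_image {e | r n e = r n (x.1 n) ∧ o n (x.1 n) < o n e} (o n)
    ((hf n _).subset fun e he => he.1) (by
      have := Nat.find_spec hx
      simp only [IsMax, not_forall, not_le] at this
      obtain ⟨e, a, b⟩ := this
      exact ⟨e, a, b⟩)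
  obtain ⟨y, a, b⟩ := down (s := s) hr hf (-o) n (update x.1 n e) fun i hi => by
    rw [update_of_ne (show i + 1 ≠ n by omega)]
    rcases hi.eq_or_lt with rfl | hi
    · rw [update_self, he.1, x.2]
    · rw [update_of_ne hi.ne', x.2]
  refine ⟨y, n, fun i hi => ⟨not_not.1 (Nat.find_min hx hi), (min_neg ..).1 (b i hi)⟩, ?_,
    fun i hi => by rw [a i hi.le, update_of_ne hi.ne']⟩
  rw [a n le_rfl, update_self]
  exact ⟨he.1.symm, he.2, fun g hg => (le_or_gt _ _).imp_right fun h => hm g ⟨hg, h⟩⟩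

lemma split {o : ∀ i, E i → ℤ} (ho : IsOrder r o) [∀ i, Countable (E i)]
    (h : ¬ (XM s r o).Countable) : ∃ o' : ∀ i, E i → ℤ, IsOrder r o' ∧
      ¬ Countable (XM s r o') ∧ ¬ Countable (XM s r (-o')) := by
  classical
  let B : ∀ i, E i → Set (Path s r) := fun i e => {x | x ∈ XM s r o ∧ x.1 i = e}
  obtain ⟨N, e, e', ne, h1, h2⟩ :
      ∃ N e e', e ≠ e' ∧ ¬ (B N e).Countable ∧ ¬ (B N e').Countable := by
    by_contra! c
    refine h (((countable_iUnion fun N => countable_iUnion fun e : {e // (B N e).Countable} =>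
      e.2).union (Set.Subsingleton.countable (s := {x : Path s r | ∀ N, ¬ (B N (x.1 N)).Countable})
      fun x hx y hy => Subtype.ext (funext fun i => ?_))).mono fun x hx => ?_)
    · exact not_not.1 fun ne => hy i (c i _ _ ne (hx i))
    · refine or_iff_not_imp_right.2 fun d => ?_
      obtain ⟨i, hi⟩ := not_forall.1 d
      exact mem_iUnion₂.2 ⟨i, ⟨_, not_not.1 hi⟩, hx, rfl⟩
  let F : ∀ i, V (i + 1) → Prop := fun i v => ∃ x ∈ B N e', r i (x.1 i) = v
  refine ⟨fun i g => if F i (r i g) then -o i g else o i g, fun i g g' a b => ho i g g' a ?_,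
    fun c => ?_, fun c => ?_⟩
  · simp only [a] at b
    split_ifs at b <;> omega
  · obtain ⟨f, hf⟩ := inj hr hf ho _ N (B N e) (fun _ h => h.1) fun y hy i hi g hg => by
      have : ¬ F i (r i (y.1 i)) := fun ⟨x, hx, a⟩ => ne (hy.2.symm.trans ((uniq ho y x i
        (ho _ _ _ a.symm (le_antisymm (hx.1 i _ a.symm) (hy.1 i _ a))) (fun j _ => hy.1 j)
        (fun j _ => hx.1 j) N hi).trans hx.2))
      change (if F i (r i g) then -o i g else o i g) ≤ if F i (r i (y.1 i)) then -o i (y.1 i) else _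
      rw [hg, if_neg this, if_neg this]
      exact hy.1 i g hg
    exact h1 hf.countable
  · obtain ⟨f, hf⟩ := inj hr hf ho _ N (B N e') (fun _ h => h.1) fun y hy i hi g hg => by
      have : F i (r i (y.1 i)) := ⟨y, hy, rfl⟩
      change -(if F i (r i g) then -o i g else o i g) ≤
        -if F i (r i (y.1 i)) then -o i (y.1 i) else o i (y.1 i)
      rw [hg, if_pos this, if_pos this, neg_neg, neg_neg]
      exact hy.1 i g hg
    exact h2 hf.countable

end

lemma ver_uniq {o : ∀ i, E i → ℤ} (ho : IsOrder r o) (x y y' : Path s r) (h : Ver s r o x y)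
    (h' : Ver s r o x y') : y = y' := by
  obtain ⟨n, a, b, c⟩ := h
  obtain ⟨m, a', b', c'⟩ := h'
  obtain rfl : n = m := by
    by_contra ne
    rcases lt_or_gt_of_ne ne with l | l
    · exact b.2.1.not_ge ((a' n l).1 _ b.1.symm)
    · exact b'.2.1.not_ge ((a m l).1 _ b'.1.symm)
  refine Subtype.ext (funext fun i => (le_or_gt i n).elim (uniq ho.neg y y' n ?_
    (fun i hi => (min_neg ..).2 (a i hi).2) (fun i hi => (min_neg ..).2 (a' i hi).2) i)
    fun h => (c i h).trans (c' i h).symm)
  have := b.2.2 _ b'.1.symm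
  have := b'.2.2 _ b.1.symm
  have := b.2.1
  have := b'.2.1
  exact ho _ _ _ (b.1.symm.trans b'.1) (by omega)

lemma ver_not {o : ∀ i, E i → ℤ} {x y : Path s r} (h : Ver s r o x y) : x ∉ XM s r o :=
  fun c => let ⟨n, _, b, _⟩ := h; b.2.1.not_ge (c n _ b.1.symm)

variable [∀ i, MeasurableSpace (E i)] [∀ i, DiscreteMeasurableSpace (E i)] [∀ i, Countable (E i)]

lemma m2 {Z A B : Type} [MeasurableSpace Z] [MeasurableSpace A] [MeasurableSpace B]
    [DiscreteMeasurableSpace A] [DiscreteMeasurableSpace B] [Countable A] [Countable B]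
    {a : Z → A} {b : Z → B} (ha : Measurable a) (hb : Measurable b) (P : A → B → Prop) :
    Measurable fun z => P (a z) (b z) :=
  (Measurable.of_discrete (f := fun p : A × B => P p.1 p.2)).comp (ha.prodMk hb)

lemma mc (i : ℕ) : Measurable fun x : Path s r => x.1 i :=
  (measurable_pi_apply i).comp measurable_subtype_coe

instance : StandardBorelSpace (Path s r) :=
  MeasurableSet.standardBorel (measurableSet_setOfPred.2 (.forall fun i =>
    m2 (measurable_pi_apply i) (measurable_pi_apply (i + 1)) fun a b => r i a = s (i + 1) b))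

lemma mXM (o : ∀ i, E i → ℤ) : MeasurableSet (XM s r o) :=
  measurableSet_setOfPred.2 (.forall fun i => m2 (mc i) (mc i) fun a _ => IsMax r o i a)

variable (hr : ∀ i, Surjective (r i)) (hf : ∀ i v, {e | r i e = v}.Finite)
include hr hf

lemma balance : ∃ o : ∀ i, E i → ℤ, IsOrder r o ∧ Nonempty (XM s r o ≃ᵐ XM s r (-o)) := by
  haveI := fun o => (mXM (s := s) (r := r) o).standardBorel
  by_cases h : ∃ o, IsOrder r o ∧ ¬ (XM s r o).Countable
  · obtain ⟨o, ho, h⟩ := h
    obtain ⟨o', a, b, c⟩ := split hr hf ho h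
    exact ⟨o', a, ⟨PolishSpace.measurableEquivOfNotCountable b c⟩⟩
  simp only [not_exists, not_and, not_not] at h
  choose o₀ h₀ using fun i => exists_injective_nat (E i)
  let o : (ℕ → ZMod 2) → ∀ i, E i → ℤ := fun S i e => if S i = 0 then o₀ i e else -o₀ i e
  have ho : ∀ S, IsOrder r (o S) := fun S i e f _ b => h₀ i (by
    simp only [o] at b
    split_ifs at b <;> omega)
  have hn : ∀ S, o (1 + S) = -o S := fun S => funext₂ fun i e => by
    have : ∀ a : ZMod 2, 1 + a = 0 ↔ ¬ a = 0 := by decide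
    simp only [o, Pi.add_apply, Pi.one_apply, this, Pi.neg_apply]
    split_ifs <;> simp
  let A : ℕ → Set (ℕ → ZMod 2) := fun j => {S | ∃ f : Fin j → XM s r (o S), Injective f}
  let μ : Measure (ℕ → ZMod 2) := Measure.addHaar
  have hA : ∀ j, EventuallyConst (A j) (ae μ) := fun j => by
    refine aeconst_of_dense_setOfPred_preimage_vadd_eq (M := ℕ → ZMod 2) ?_ ?_
    · letI := TopologicalSpace.metrizableSpaceMetric (ℕ → ZMod 2)
      have : A j = Prod.fst '' {p : (ℕ → ZMod 2) × (Fin j → Path s r) |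
          (∀ a b, (∀ i, (p.2 a).1 i = (p.2 b).1 i) → a = b) ∧
          ∀ a i, IsMax r (fun i e => if p.1 i = 0 then (o₀ i e : ℤ) else -o₀ i e) i ((p.2 a).1 i)} := by
        ext S
        refine ⟨fun ⟨f, hf⟩ => ⟨(S, fun a => f a), ⟨fun a b c => hf (Subtype.ext (Subtype.ext
          (funext c))), fun a => (f a).2⟩, rfl⟩, ?_⟩
        rintro ⟨p, ⟨a, b⟩, rfl⟩
        exact ⟨fun c => ⟨p.2 c, b c⟩, fun c d e => a c d fun i =>
          congrArg (fun x : XM s r (o p.1) => x.1.1 i) e⟩
      have m : ∀ a i, Measurable fun p : (ℕ → ZMod 2) × (Fin j → Path s r) => (p.2 a).1 i :=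
        fun a i => (mc i).comp ((measurable_pi_apply a).comp measurable_snd)
      rw [this]
      exact H8.Ana.nullMeasurable μ (MeasurableSet.analyticSet_image (measurableSet_setOfPred.2
        (.and (.forall fun a => .forall fun b => .imp (.forall fun i => m2 (m a i) (m b i) Eq)
        measurable_const) (.forall fun a => .forall fun i => m2 (m a i)
        ((measurable_pi_apply i).comp measurable_fst) fun e c => ∀ f, r i f = r i e →
        (if c = 0 then (o₀ i f : ℤ) else -o₀ i f) ≤ if c = 0 then (o₀ i e : ℤ) else -o₀ i e)))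
        measurable_fst)
    · have k : ∀ (N : ℕ) S T, (∀ i, N ≤ i → S i = T i) → S ∈ A j → T ∈ A j := by
        rintro N S T e ⟨f, hf'⟩
        obtain ⟨g, hg⟩ := inj hr hf (ho S) (o T) N _ subset_rfl fun y hy i hi => by
          have := hy i
          simp only [IsMax, o, e i hi] at this ⊢
          exact this
        exact ⟨_, hg.comp hf'⟩
      intro g
      refine mem_closure_of_tendsto (b := atTop) (f := fun N i => if i < N then g i else 0)
        (tendsto_pi_nhds.2 fun i => tendsto_const_nhds.congr' ?_) (.of_forall fun N => ?_)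
      · filter_upwards [eventually_gt_atTop i] with N hN using (if_pos hN).symm
      · ext S
        exact ⟨k N _ _ fun i hi => by simp [hi.not_gt], k N _ _ fun i hi => by simp [hi.not_gt]⟩
  have : ∀ᵐ S ∂μ, ∀ j, S ∈ A j ↔ 1 + S ∈ A j := ae_all_iff.2 fun j => by
    have q := (measurePreserving_add_left μ 1).quasiMeasurePreserving
    rcases eventuallyConst_set.1 (hA j) with c | c <;> filter_upwards [c, q.ae c] with S a b <;>
      simp only [a, b]
  obtain ⟨S, hS⟩ := this.exists
  refine ⟨o S, ho S, ?_⟩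
  rw [← hn]
  have c1 := (h _ (ho S)).to_subtype
  have c2 := (h _ (ho (1 + S))).to_subtype
  have key : ∀ (P Q : Type) [Countable P], (∀ j, (∃ f : Fin j → P, Injective f) →
      ∃ f : Fin j → Q, Injective f) → Nonempty (P ↪ Q) := fun P Q _ h => by
    cases finite_or_infinite P
    · obtain ⟨j, ⟨e⟩⟩ := Finite.exists_equiv_fin P
      obtain ⟨f, hf⟩ := h j ⟨_, e.symm.injective⟩
      exact ⟨⟨_, hf.comp e.injective⟩⟩
    · have : Infinite Q := not_finite_iff_infinite.1 fun _ => by
        obtain ⟨f, hf⟩ := h (Nat.card Q + 1)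
          ⟨_, (Infinite.natEmbedding P).injective.comp Fin.val_injective⟩
        simpa using Nat.card_le_card_of_injective f hf
      exact ⟨(nonempty_embedding_nat P).some.trans (Infinite.natEmbedding Q)⟩
  obtain ⟨e⟩ := (key _ _ fun j => (hS j).1).some.antisymm (key _ _ fun j => (hS j).2).some
  exact ⟨PolishSpace.Equiv.measurableEquiv e⟩

theorem main : ∃ o : ∀ i, E i → ℤ, IsOrder r o ∧ ∃ φ : Path s r → Path s r, Bijective φ ∧
    Measurable φ ∧ ∀ x, (¬ ∀ i, IsMax r o i (x.1 i)) → Ver s r o x (φ x) := by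
  obtain ⟨o, ho, ⟨e⟩⟩ := balance (s := s) hr hf
  let G : Set (Path s r × Path s r) := {p | Ver s r o p.1 p.2}
  have m1 : ∀ i, Measurable fun p : Path s r × Path s r => p.1.1 i :=
    fun i => (mc i).comp measurable_fst
  have m3 : ∀ i, Measurable fun p : Path s r × Path s r => p.2.1 i :=
    fun i => (mc i).comp measurable_snd
  have hG : MeasurableSet G := measurableSet_setOfPred.2 (.exists fun n => .and (.forall fun i =>
    .imp measurable_const (m2 (m1 i) (m3 i) fun a b => IsMax r o i a ∧ IsMin r o i b))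
    (.and (m2 (m1 n) (m3 n) (Succ r o n)) (.forall fun i => .imp measurable_const
      (m2 (m3 i) (m1 i) Eq))))
  haveI := hG.standardBorel
  haveI := (mXM (s := s) (r := r) o).standardBorel
  let p : G ⊕ XM s r o → Path s r := Sum.elim (fun g => g.1.1) Subtype.val
  let q : G ⊕ XM s r o → Path s r := Sum.elim (fun g => g.1.2) fun x => e x
  have hp : Bijective p := ⟨Injective.sumElim (fun a b (c : a.1.1 = b.1.1) => Subtype.ext (Prod.ext c
      (ver_uniq ho _ _ _ a.2 (c ▸ b.2)))) Subtype.val_injective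
      fun a b c => ver_not a.2 (c ▸ b.2), fun x => by
    by_cases c : x ∈ XM s r o
    · exact ⟨.inr ⟨x, c⟩, rfl⟩
    · obtain ⟨y, hy⟩ := ver_ex hr hf o x c
      exact ⟨.inl ⟨(x, y), hy⟩, rfl⟩⟩
  have hq : Bijective q := ⟨Injective.sumElim (fun a b (c : a.1.2 = b.1.2) => Subtype.ext (Prod.ext
      (ver_uniq ho.neg _ _ _ (ver_neg _ _ _ a.2) (c ▸ ver_neg _ _ _ b.2)) c))
      (Subtype.val_injective.comp e.injective)
      fun a b c => ver_not (ver_neg _ _ _ a.2) (c ▸ (e b).2), fun y => by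
    by_cases c : y ∈ XM s r (-o)
    · exact ⟨.inr (e.symm ⟨y, c⟩), by simp [q]⟩
    · obtain ⟨x, hx⟩ := ver_ex hr hf _ y c
      have := ver_neg _ _ _ hx
      rw [neg_neg] at this
      exact ⟨.inl ⟨(x, y), this⟩, rfl⟩⟩
  have mp : Measurable p := (measurable_subtype_coe.fst).sumElim measurable_subtype_coe
  have mq : Measurable q :=
    (measurable_subtype_coe.snd).sumElim (measurable_subtype_coe.comp e.measurable)
  let P := Equiv.ofBijective p hp
  refine ⟨o, ho, q ∘ P.symm, hq.comp P.symm.bijective, mq.comp fun B hB => ?_, fun x hx => ?_⟩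
  · rw [← P.image_eq_preimage_symm]
    have : P '' B = (p ∘ Sum.inl) '' (Sum.inl ⁻¹' B) ∪ (p ∘ Sum.inr) '' (Sum.inr ⁻¹' B) := by
      rw [image_comp, image_comp, ← image_union, image_preimage_inl_union_image_preimage_inr]
      rfl
    rw [this]
    exact (((mp.comp measurable_inl).measurableEmbedding (hp.1.comp Sum.inl_injective)
      ).measurableSet_image.2 (measurable_inl hB)).union (((mp.comp measurable_inr
      ).measurableEmbedding (hp.1.comp Sum.inr_injective)).measurableSet_image.2 (measurable_inr hB))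
  · obtain ⟨g | g, rfl⟩ := P.surjective x
    · rw [comp_apply, P.symm_apply_apply]
      exact g.2
    · exact absurd g.2 hx

end Pool.Agent.H95.Brat
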