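import Mathlib

set_option autoImplicit false

namespace Pool.Agent.H95.Brat

variable {V E : ℕ → Type} (s : ∀ i, E i → V i) (r : ∀ i, E i → V (i + 1))

/-- The infinite paths of the diagram with source map `s` and range map `r`. -/
abbrev Path : Type := {x : ∀ i, E i // ∀ i, r i (x i) = s (i + 1) (x (i + 1))}

/-- `o` ranks the edges injectively in each class `r⁻¹(v)`: it defines an order. -/
def IsOrder (o : ∀ i, E i → ℤ) : Prop := ∀ i e f, r i e = r i f → o i e = o i f → e = f

/-- `e` is maximal in its class. -/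
def IsMax (o : ∀ i, E i → ℤ) (i : ℕ) (e : E i) : Prop := ∀ f, r i f = r i e → o i f ≤ o i e

/-- `e` is minimal in its class. -/
def IsMin (o : ∀ i, E i → ℤ) (i : ℕ) (e : E i) : Prop := ∀ f, r i f = r i e → o i e ≤ o i f

/-- `f` is the successor of `e` in its class. -/
def Succ (o : ∀ i, E i → ℤ) (i : ℕ) (e f : E i) : Prop :=
  r i e = r i f ∧ o i e < o i f ∧ ∀ g, r i g = r i e → o i g ≤ o i e ∨ o i f ≤ o i g

/-- `y` is the image of `x` under the Vershik map. -/
def Ver (o : ∀ i, E i → ℤ) (x y : Path s r) : Prop :=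
  ∃ n, (∀ i, i < n → IsMax r o i (x.1 i) ∧ IsMin r o i (y.1 i)) ∧ Succ r o n (x.1 n) (y.1 n) ∧
    ∀ i, n < i → y.1 i = x.1 i

end Pool.Agent.H95.Brat
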