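import Pool.Agent.H95.CarlDefs

set_option autoImplicit false
open Filter Topology MeasureTheory Set

namespace Pool.Agent.H95.Carl
open Pool.Agent.H95.CarlDefs

instance : IsProbabilityMeasure mu := ⟨by simp [mu]⟩

/-- graph of the maximal operator of a kernel -/
def G (k : ℝ → ℝ → ℂ) (hk : ∀ x, MemLp (k x) 2 mu) : Submodule ℂ (L2 × L2) where
  carrier := {p | ∀ᵐ x ∂mu, (p.2 : ℝ → ℂ) x = ∫ y, k x y * (p.1 : ℝ → ℂ) y ∂mu}
  add_mem' := by
    intro p q hp hq
    filter_upwards [hp, hq, Lp.coeFn_add p.2 q.2] with x h1 h2 h3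
    rw [Prod.snd_add, h3, Pi.add_apply, h1, h2, ← integral_add (f := fun y => k x y * p.1 y)
      (g := fun y => k x y * q.1 y) ((hk x).integrable_mul (Lp.memLp _))
      ((hk x).integrable_mul (Lp.memLp _))]
    refine integral_congr_ae ?_
    filter_upwards [Lp.coeFn_add p.1 q.1] with y hy
    rw [Prod.fst_add, hy, Pi.add_apply, mul_add]
  zero_mem' := by
    filter_upwards [Lp.coeFn_zero ℂ 2 mu] with x h
    rw [Prod.snd_zero, h, Prod.fst_zero]
    symm
    refine integral_eq_zero_of_ae ?_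
    filter_upwards [Lp.coeFn_zero ℂ 2 mu] with y hy
    rw [hy]; simp
  smul_mem' := by
    intro c p hp
    filter_upwards [hp, Lp.coeFn_smul c p.2] with x h1 h3
    rw [Prod.smul_snd, h3, Pi.smul_apply, h1, smul_eq_mul, ← integral_const_mul]
    refine integral_congr_ae ?_
    filter_upwards [Lp.coeFn_smul c p.1] with y hy
    rw [Prod.smul_fst, hy, Pi.smul_apply, smul_eq_mul]; ring

theorem exists_op (k : ℝ → ℝ → ℂ) (hk : ∀ x, MemLp (k x) 2 mu) :
    ∃ A : L2 →ₗ.[ℂ] L2, gr A = G k hk := by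
  have h : ∀ p ∈ G k hk, p.1 = 0 → p.2 = 0 := by
    intro p hp h0
    refine Lp.ext ?_
    filter_upwards [hp, (G k hk).zero_mem] with x h1 h2
    rw [h1, h0]
    exact h2.symm
  refine ⟨(G k hk).toLinearPMap, ?_⟩
  conv_rhs => rw [← (G k hk).toLinearPMap_graph_eq h]
  ext p
  simp only [gr, mem_setOf_eq, SetLike.mem_coe, LinearPMap.mem_graph_iff]
  constructor
  · rintro ⟨h1, h2⟩
    exact ⟨⟨_, h1⟩, rfl, h2⟩
  · rintro ⟨⟨y, hy⟩, h1, h2⟩
    obtain rfl : y = p.1 := h1
    exact ⟨hy, h2⟩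

theorem dom_of {A : L2 →ₗ.[ℂ] L2} {f g : L2} (h : (f, g) ∈ gr A) : f ∈ A.domain := h.1

noncomputable def N (x : ℝ) : ℕ := ⌊x⁻¹⌋₊

theorem hN : Measurable N := Nat.measurable_floor.comp measurable_inv

noncomputable def m (j : ℕ) : ℝ := mu.real (N ⁻¹' {j})

theorem m_pos (j : ℕ) : 0 < m (j + 1) := by
  have h1 : Ioo (((j : ℝ) + 2)⁻¹) (((j : ℝ) + 1)⁻¹) ⊆ N ⁻¹' {j + 1} ∩ Ioo 0 1 := by
    intro x hx
    have h0 : 0 < x := lt_trans (by positivity) hx.1
    have h2 : (j : ℝ) + 1 < x⁻¹ := (lt_inv_comm₀ h0 (by positivity)).1 hx.2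
    have h3 : x⁻¹ < (j : ℝ) + 2 := (inv_lt_comm₀ (by positivity) h0).1 hx.1
    refine ⟨?_, h0, hx.2.trans_le (inv_le_one_of_one_le₀ (by linarith [Nat.cast_nonneg (α := ℝ) j]))⟩
    change ⌊x⁻¹⌋₊ = j + 1
    rw [Nat.floor_eq_iff (by positivity)]
    push_cast
    constructor <;> linarith
  refine ENNReal.toReal_pos (ne_of_gt ?_) (measure_ne_top _ _)
  rw [mu, Measure.restrict_apply (hN (measurableSet_singleton _))]
  refine lt_of_lt_of_le ?_ (measure_mono h1)
  rw [Real.volume_Ioo, ENNReal.ofReal_pos, sub_pos]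
  exact inv_strictAnti₀ (by positivity) (by linarith)

noncomputable def kk (x y : ℝ) : ℂ := if N y = N x then ((N x : ℝ) / m (N x) ^ 2 : ℝ) else 0

theorem kk_meas : Measurable (Function.uncurry kk) := by
  have : Function.uncurry kk = (fun q : ℕ × ℕ => if q.2 = q.1 then (((q.1 : ℝ) / m q.1 ^ 2 : ℝ) : ℂ)
      else 0) ∘ (fun p : ℝ × ℝ => (N p.1, N p.2)) := rfl
  rw [this]
  exact (measurable_of_countable _).comp ((hN.comp measurable_fst).prodMk (hN.comp measurable_snd))

theorem kk_eq (x : ℝ) : kk x = (N ⁻¹' {N x}).indicator fun _ => (((N x : ℝ) / m (N x) ^ 2 : ℝ) : ℂ) := by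
  funext y
  by_cases h : N y = N x <;> simp [kk, h]

theorem kk_mem (x : ℝ) : MemLp (kk x) 2 mu := by
  rw [kk_eq]
  exact (memLp_const _).indicator (hN (measurableSet_singleton _))

theorem memN (β : ℕ → ℂ) (n : ℕ) (h : ∀ j, n < j → β j = 0) : MemLp (fun x => β (N x)) 2 mu := by
  refine MemLp.of_bound ((measurable_of_countable β).comp hN).aestronglyMeasurable
    (∑ j ∈ Finset.range (n + 1), ‖β j‖) (Eventually.of_forall fun x => ?_)
  rcases lt_or_ge n (N x) with h1 | h1
  · rw [h _ h1, norm_zero]; positivity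
  · exact Finset.single_le_sum (f := fun j => ‖β j‖) (fun _ _ => norm_nonneg _)
      (Finset.mem_range.2 (by omega))

theorem main : ∃ A B : L2 →ₗ.[ℂ] L2, IsCarleman (gr A) ∧ IsCarleman (gr B) ∧
    dom A = univ ∧ Dense (dom B) ∧ ¬ IsCarleman (prodGr A B) := by
  obtain ⟨A, hA⟩ := exists_op (fun _ _ => 1) fun _ => memLp_const _
  obtain ⟨B, hB⟩ := exists_op kk kk_mem
  have hAg : ∀ f : L2, (f, (memLp_const (∫ y, f y ∂mu)).toLp _) ∈ gr A := by
    intro f
    rw [hA]
    filter_upwards [(memLp_const (p := 2) (μ := mu) (∫ y, f y ∂mu)).coeFn_toLp] with x hx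
    simpa using hx
  refine ⟨A, B, ⟨fun _ _ => 1, aestronglyMeasurable_const,
    Eventually.of_forall fun _ => memLp_const _, fun p hp => by rwa [hA] at hp⟩,
    ⟨kk, kk_meas.aestronglyMeasurable, Eventually.of_forall kk_mem, fun p hp => by rwa [hB] at hp⟩,
    eq_univ_of_forall fun f => dom_of (hAg f), ?_, ?_⟩
  · refine Submodule.dense_iff_topologicalClosure_eq_top.2
      (Submodule.topologicalClosure_eq_top_iff.2 ((Submodule.eq_bot_iff _).2 fun g hg => ?_))
    have key : ∀ n : ℕ, ∀ᵐ x ∂mu, N x ≤ n → g x = 0 := by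
      intro n
      have hS : MeasurableSet (N ⁻¹' Iic n) := hN measurableSet_Iic
      have hu := (Lp.memLp g).indicator hS
      set u : L2 := hu.toLp _
      have hu2 : ∀ᵐ y ∂mu, u y = (N ⁻¹' Iic n).indicator g y := hu.coeFn_toLp
      have hβ := memN (fun j => ∫ y, (if N y = j then ((((j : ℝ) / m j ^ 2 : ℝ)) : ℂ) else 0) * u y ∂mu)
        n (fun j hj => integral_eq_zero_of_ae (by
          filter_upwards [hu2] with y hy
          by_cases h : N y = j
          · rw [hy, indicator_of_notMem (by simp; omega)]; simp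
          · simp [h]))
      have hd : u ∈ B.domain := dom_of (g := hβ.toLp _) (by rw [hB]; exact hβ.coeFn_toLp)
      have h1 : inner ℂ u g = 0 := hg u hd
      have h2 : inner ℂ u u = 0 := by
        rw [← h1, L2.inner_def, L2.inner_def]
        refine integral_congr_ae ?_
        filter_upwards [hu2] with y hy
        rw [hy]
        by_cases h : y ∈ N ⁻¹' Iic n <;> simp [h]
      have h3 : u = 0 := inner_self_eq_zero.1 h2
      filter_upwards [hu2, Lp.coeFn_zero ℂ 2 mu] with y h4 h5 h6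
      rw [h3, h5, indicator_of_mem (by simpa using h6)] at h4
      exact h4.symm
    refine Lp.ext ?_
    filter_upwards [ae_all_iff.2 key, Lp.coeFn_zero ℂ 2 mu] with x h1 h2
    rw [h2, h1 _ le_rfl]; rfl
  · rintro ⟨h, -, h1, h2⟩
    have key : ∀ j : ℕ, ∀ᵐ x ∂mu, MemLp (h x) 2 mu → (j : ℝ) + 1 ≤ ∫ y, ‖h x y‖ ∂mu := by
      intro j
      have hS : MeasurableSet (N ⁻¹' {j + 1}) := hN (measurableSet_singleton _)
      have hmp := m_pos j
      have hf := (memLp_const (p := 2) (μ := mu) (1 : ℂ)).indicator hS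
      have hg := (memLp_const (p := 2) (μ := mu) ((((j : ℝ) + 1) / m (j + 1) : ℝ) : ℂ)).indicator hS
      have hfg : (hf.toLp _, hg.toLp _) ∈ gr B := by
        rw [hB]
        filter_upwards [hg.coeFn_toLp] with x hx
        rw [hx, integral_congr_ae (g := fun y => kk x y * (N ⁻¹' {j + 1}).indicator (fun _ => 1) y)
          (by filter_upwards [hf.coeFn_toLp] with y hy; rw [hy])]
        by_cases hx2 : N x = j + 1
        · have : (fun y => kk x y * (N ⁻¹' {j + 1}).indicator (fun _ => (1 : ℂ)) y) =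
              (N ⁻¹' {j + 1}).indicator fun _ => ((((j : ℝ) + 1) / m (j + 1) ^ 2 : ℝ) : ℂ) := by
            funext y
            by_cases hy : N y = j + 1 <;> simp [kk, hy, hx2]
          rw [this, integral_indicator_const _ hS, indicator_of_mem (by simpa using hx2)]
          change _ = m (j + 1) • _
          rw [Complex.real_smul, ← Complex.ofReal_mul]
          congr 1
          field_simp
        · rw [indicator_of_notMem (by simpa using hx2)]
          symm
          refine integral_eq_zero_of_ae (Eventually.of_forall fun y => ?_)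
          by_cases hy : N y = j + 1
          · simp [kk, hy, Ne.symm hx2]
          · simp [hy]
      have hint : ∫ y, (hg.toLp _ : L2) y ∂mu = (((j : ℝ) + 1 : ℝ) : ℂ) := by
        rw [integral_congr_ae hg.coeFn_toLp, integral_indicator_const _ hS]
        change m (j + 1) • _ = _
        rw [Complex.real_smul, ← Complex.ofReal_mul]
        congr 1
        field_simp
      filter_upwards [h2 (hf.toLp _, _) ⟨_, hfg, hAg _⟩,
        (memLp_const (p := 2) (μ := mu) (∫ y, (hg.toLp _ : L2) y ∂mu)).coeFn_toLp] with x h3 h4 h5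
      have h6 := congrArg norm ((h4.trans hint).symm.trans h3)
      rw [Complex.norm_real, Real.norm_of_nonneg (by positivity)] at h6
      rw [h6]
      refine norm_integral_le_of_norm_le (h5.integrable one_le_two).norm ?_
      filter_upwards [hf.coeFn_toLp] with y hy
      rw [hy, norm_mul]
      refine mul_le_of_le_one_right (norm_nonneg _) ?_
      by_cases h : y ∈ N ⁻¹' {j + 1} <;> simp [h]
    obtain ⟨x, h3, h4⟩ := (h1.and (ae_all_iff.2 key)).exists
    obtain ⟨j, hj⟩ := exists_nat_gt (∫ y, ‖h x y‖ ∂mu)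
    linarith [h4 j h3]

end Pool.Agent.H95.Carl
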