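import Mathlib

set_option autoImplicit false
open MeasureTheory

namespace Pool.Agent.H95.CarlDefs

/-- Lebesgue measure on `(0,1)`. -/
noncomputable def mu : Measure ℝ := volume.restrict (Set.Ioo 0 1)

/-- `L²(0,1)`. -/
abbrev L2 : Type := Lp ℂ 2 mu

/-- One Carleman kernel represents every pair `(f, h)` of `G`: `h(x) = ∫ k(x,y) f(y) dy` a.e. -/
def IsCarleman (G : Set (L2 × L2)) : Prop :=
  ∃ k : ℝ → ℝ → ℂ, AEStronglyMeasurable (Function.uncurry k) (mu.prod mu) ∧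
    (∀ᵐ x ∂mu, MemLp (k x) 2 mu) ∧
    ∀ p ∈ G, ∀ᵐ x ∂mu, (p.2 : ℝ → ℂ) x = ∫ y, k x y * (p.1 : ℝ → ℂ) y ∂mu

section
variable {E : Type} [AddCommGroup E] [Module ℂ E]

/-- The graph of an operator with a domain. -/
def gr (A : E →ₗ.[ℂ] E) : Set (E × E) := {p | ∃ h : p.1 ∈ A.domain, A ⟨p.1, h⟩ = p.2}

/-- The graph of the product `AB` on `{f ∈ D(B) : Bf ∈ D(A)}`. -/
def prodGr (A B : E →ₗ.[ℂ] E) : Set (E × E) := {p | ∃ g, (p.1, g) ∈ gr B ∧ (g, p.2) ∈ gr A}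

/-- The domain as a set. -/
def dom (A : E →ₗ.[ℂ] E) : Set E := A.domain

end

end Pool.Agent.H95.CarlDefs
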