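import Pool.Agent.H95.ChebDefs

set_option autoImplicit false

namespace Pool.Agent.H95.Cheb
open Pool.Agent.H95.ChebDefs

noncomputable def P (f : R2) : R2 := !₂[f 0 - f 1 / 10, f 1 / 2]
noncomputable def L (f : R2) : R1 := !₂[f 1]
noncomputable def y : R1 := !₂[3 / 5]
noncomputable def z : R2 := !₂[0, 67 / 125]

theorem nP (f : R2) : ‖P f‖ ^ 2 = (f 0 - f 1 / 10) ^ 2 + (f 1 / 2) ^ 2 := by
  simp [EuclideanSpace.norm_sq_eq, Fin.sum_univ_two, P]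

theorem nL (f : R2) : ‖y - L f‖ ^ 2 = (3 / 5 - f 1) ^ 2 := by
  simp [EuclideanSpace.norm_sq_eq, y, L]

theorem nd (f w : R2) : dist f w ^ 2 = (f 0 - w 0) ^ 2 + (f 1 - w 1) ^ 2 := by
  simp [dist_eq_norm, EuclideanSpace.norm_sq_eq, Fin.sum_univ_two]

theorem memK (f : R2) : f ∈ consistent P L 1 (3 / 5) y ↔
    (f 0 - f 1 / 10) ^ 2 + (f 1 / 2) ^ 2 ≤ 1 ∧ (3 / 5 - f 1) ^ 2 ≤ (3 / 5) ^ 2 := by
  rw [← nP, ← nL, sq_le_one_iff₀ (norm_nonneg _), sq_le_sq₀ (norm_nonneg _) (by norm_num)]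
  rfl

theorem up {f : R2} (hf : f ∈ consistent P L 1 (3 / 5) y) : dist f z ^ 2 ≤ 1 + (67 / 125) ^ 2 := by
  obtain ⟨h1, h2⟩ := (memK f).1 hf
  rw [nd]
  simp only [z, Matrix.cons_val_zero, Matrix.cons_val_one, sub_zero]
  have h3 : 0 ≤ f 1 := by nlinarith
  have h4 : f 1 ≤ 6 / 5 := by nlinarith
  have h5 : f 0 - f 1 / 10 ≤ 5 / 4 - 3 / 8 * f 1 := by
    nlinarith [sq_nonneg (f 0 - f 1 / 10 - 4 / 5), sq_nonneg (f 1 - 6 / 5)]
  nlinarith [mul_nonneg h3 (sub_nonneg.2 h5), mul_nonneg h3 (sub_nonneg.2 h4)]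

theorem low {w : R2} {r : ℝ} (h : consistent P L 1 (3 / 5) y ⊆ Metric.closedBall w r) :
    0 ≤ r ∧ 1 + (67 / 125) ^ 2 + dist w z ^ 2 ≤ r ^ 2 := by
  have h1 := h (a := !₂[1, 0]) ((memK _).2 (by norm_num))
  have h2 := h (a := !₂[-1, 0]) ((memK _).2 (by norm_num))
  have h3 := h (a := !₂[23 / 25, 6 / 5]) ((memK _).2 (by norm_num))
  rw [Metric.mem_closedBall] at h1 h2 h3
  refine ⟨dist_nonneg.trans h1, ?_⟩
  have a1 := pow_le_pow_left₀ dist_nonneg h1 2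
  have a2 := pow_le_pow_left₀ dist_nonneg h2 2
  have a3 := pow_le_pow_left₀ dist_nonneg h3 2
  rw [nd] at a1 a2 a3 ⊢
  simp only [z, Matrix.cons_val_zero, Matrix.cons_val_one] at a1 a2 a3 ⊢
  nlinarith

theorem main : ∃ (P : R2 → R2) (Λ : R2 → R1) (ε η : ℝ) (y : R1), IsLinearMap ℝ P ∧
    IsLinearMap ℝ Λ ∧ 0 < ε ∧ 0 < η ∧ (∀ f, P f = 0 → Λ f = 0 → f = 0) ∧
    (consistent P Λ ε η y).Nonempty ∧ ∃ z, (∀ w, IsCheb (consistent P Λ ε η y) w ↔ w = z) ∧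
      ∀ τ ∈ Set.Icc (0 : ℝ) 1, ∃ f, F P Λ y τ f < F P Λ y τ z := by
  refine ⟨P, L, 1, 3 / 5, y, ⟨fun a b => ?_, fun c a => ?_⟩, ⟨fun a b => ?_, fun c a => ?_⟩, one_pos,
    by norm_num, fun f h1 _ => ?_, ⟨0, (memK _).2 (by norm_num)⟩, z, fun w => ⟨fun h => ?_, ?_⟩,
    fun τ hτ => ?_⟩
  · ext i; fin_cases i <;> simp [P] <;> ring
  · ext i; fin_cases i <;> simp [P] <;> ring
  · ext i; fin_cases i; simp [L]
  · ext i; fin_cases i; simp [L]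
  · have h2 := nP f
    rw [h1, norm_zero] at h2
    have h3 : f 1 = 0 := by nlinarith [sq_nonneg (f 0 - f 1 / 10)]
    have h4 : f 0 = 0 := by rw [h3] at h2; nlinarith
    ext i; fin_cases i <;> simp [h3, h4]
  · have h1 := low (h z √(1 + (67 / 125) ^ 2) fun f hf => Real.le_sqrt_of_sq_le (up hf))
    rw [Real.sq_sqrt (by norm_num)] at h1
    exact dist_eq_zero.1 (by nlinarith [h1.2, dist_nonneg (x := w) (y := z)])
  · rintro rfl w r h f hf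
    have h1 := low h
    exact (sq_le_sq₀ dist_nonneg h1.1).1 (by nlinarith [up hf, h1.2, sq_nonneg (dist w z)])
  · rcases eq_or_lt_of_le hτ.2 with rfl | h
    · exact ⟨!₂[0, 3 / 5], by simp only [F, nL]; norm_num [z]⟩
    · refine ⟨!₂[67 / 1250, 67 / 125], ?_⟩
      simp only [F, nL, nP]
      norm_num [z]
      linarith

end Pool.Agent.H95.Cheb
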