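import Mathlib

set_option autoImplicit false

namespace Pool.Agent.H95.ChebDefs

section
variable {H E : Type} [NormedAddCommGroup H] [NormedAddCommGroup E]

/-- the elements consistent with the data -/
def consistent (P : H → H) (Λ : H → E) (ε η : ℝ) (y : E) : Set H :=
  {f | ‖P f‖ ≤ ε ∧ ‖y - Λ f‖ ≤ η}

/-- `z` is the centre of a smallest closed ball containing `K` -/
def IsCheb (K : Set H) (z : H) : Prop :=
  ∀ (w : H) (r : ℝ), K ⊆ Metric.closedBall w r → K ⊆ Metric.closedBall z r

/-- the regularization functional -/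
def F (P : H → H) (Λ : H → E) (y : E) (τ : ℝ) (f : H) : ℝ :=
  (1 - τ) * ‖P f‖ ^ 2 + τ * ‖y - Λ f‖ ^ 2

end

abbrev R2 : Type := EuclideanSpace ℝ (Fin 2)
abbrev R1 : Type := EuclideanSpace ℝ (Fin 1)

end Pool.Agent.H95.ChebDefs
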