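import Pool.Agent.H95.ClarkDefs

set_option autoImplicit false
open MeasureTheory ComplexConjugate Filter

namespace Pool.Agent.H95.Clark
open Pool.Agent.H95.ClarkDefs

instance : IsProbabilityMeasure mC := by unfold mC; infer_instance

def M : Matrix (Fin 3) (Fin 3) ℂ := !![0, 0, 1; 0, 0, 0; 1, 0, 0]

theorem zz_norm (t : UnitAddCircle) : ‖zz t‖ = 1 := by simp [zz]
theorem zz_ne (t : UnitAddCircle) : zz t ≠ 0 := norm_ne_zero_iff.1 (by simp [zz_norm])
@[fun_prop] theorem zz_cont : Continuous zz := (fourier 1).continuous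

theorem zz_zpow (n : ℤ) (t : UnitAddCircle) : zz t ^ n = fourier n t := by
  simp [zz, ← Circle.coe_zpow, fourier_apply, AddCircle.toCircle_zsmul]

theorem ip_coeff (f : UnitAddCircle → ℂ) (n : ℤ) : ip f (fun t => zz t ^ n) = fourierCoeff f n := by
  unfold ip fourierCoeff mC
  refine integral_congr_ae (Eventually.of_forall fun t => ?_)
  simp only [zz_zpow, fourier_neg, smul_eq_mul, mul_comm]

theorem ip_pow (m n : ℤ) : ip (fun t => zz t ^ m) (fun t => zz t ^ n) = if n = m then 1 else 0 := by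
  rw [ip_coeff]
  simp only [zz_zpow]
  rw [show (fun t => fourier m t) = (fourier m : UnitAddCircle → ℂ) from rfl, fourierCoeff_fourier,
    Pi.single_apply]

theorem mem_pow (n : ℤ) : MemLp (fun t => zz t ^ n) 2 mC :=
  MemLp.of_bound (zz_cont.zpow₀ n fun t => Or.inl (zz_ne t)).aestronglyMeasurable 1
    (Eventually.of_forall fun t => by simp [zz_norm])

theorem invp (n : ℕ) : (fun t => (zz t)⁻¹ ^ (n + 1)) = fun t => zz t ^ (-((n : ℤ) + 1)) := by
  funext t; rw [zpow_neg, inv_pow]; norm_cast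

theorem H2_pow (n : ℕ) : InH2 fun t => zz t ^ (n : ℤ) :=
  ⟨mem_pow n, fun k => by rw [invp, ip_pow, if_neg (by omega)]⟩

theorem bl3 (z : ℂ) : blaschke 1 (fun _ : Fin 3 => 0) z = z ^ (3 : ℤ) := by
  simp [blaschke]

theorem cz (t : UnitAddCircle) : conj (zz t) = (zz t)⁻¹ := (Complex.inv_eq_conj (zz_norm t)).symm

theorem onb : IsONB (blaschke 1 (fun _ : Fin 3 => 0)) fun (i : Fin 3) t => zz t ^ ((i : ℕ) : ℤ) := by
  refine ⟨fun i => ⟨H2_pow i, fun g hg => ?_⟩, fun i j => ?_, fun f hf => ?_⟩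
  · have h := congrArg conj (hg.2 (2 - i))
    rw [ip, ← integral_conj, map_zero] at h
    refine Eq.trans ?_ h
    refine integral_congr_ae (Eventually.of_forall fun t => ?_)
    have := zz_ne t
    fin_cases i <;> simp [bl3, cz] <;> field_simp
  · rw [ip_pow]; simp [Fin.val_inj]
  · have h0 : ∀ n : ℤ, n ∉ Finset.univ.image (fun i : Fin 3 => ((i : ℕ) : ℤ)) →
        fourierCoeff f n = 0 := by
      intro n hn
      have h1 : n ≠ 0 ∧ n ≠ 1 ∧ n ≠ 2 := by
        refine ⟨?_, ?_, ?_⟩ <;> rintro rfl <;> exact hn (by decide)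
      rw [← ip_coeff]
      rcases lt_or_ge n 0 with h | h
      · have := hf.1.2 (-n - 1).toNat
        rwa [invp, show -(((-n - 1).toNat : ℤ) + 1) = n by omega] at this
      · have := hf.2 _ (H2_pow (n - 3).toNat)
        simp only [bl3, ← zpow_add₀ (zz_ne _)] at this
        rwa [show 3 + ((n - 3).toNat : ℤ) = n by omega] at this
    have hf2 : MemLp f 2 AddCircle.haarAddCircle := hf.1.1
    have h1 := hasSum_fourier_series_L2 hf2.toLp
    have h2 : ∀ n, fourierCoeff (hf2.toLp : UnitAddCircle → ℂ) n = fourierCoeff f n := fun n =>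
      fourierCoeff_congr_ae hf2.coeFn_toLp ▸ rfl
    have h3 := h1.unique (hasSum_sum_of_ne_finset_zero
      (s := Finset.univ.image (fun i : Fin 3 => ((i : ℕ) : ℤ))) fun n hn => by
        rw [h2, h0 n hn, zero_smul])
    rw [Finset.sum_image (fun a _ b _ h => Fin.ext (by exact_mod_cast h))] at h3
    refine ⟨fun i => fourierCoeff f (i : ℕ), hf2.coeFn_toLp.symm.trans ?_⟩
    rw [h3]
    refine (Lp.coeFn_finsetSum _ _).trans ?_
    have h4 : ∀ i : Fin 3, ∀ᵐ t ∂AddCircle.haarAddCircle,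
        (fourierCoeff (hf2.toLp : UnitAddCircle → ℂ) (i : ℕ) • fourierLp (T := 1) 2 (i : ℕ)) t =
          fourierCoeff f (i : ℕ) * zz t ^ ((i : ℕ) : ℤ) := fun i => by
      filter_upwards [Lp.coeFn_smul (fourierCoeff (hf2.toLp : UnitAddCircle → ℂ) (i : ℕ))
        (fourierLp (T := 1) 2 (i : ℕ)), coeFn_fourierLp (T := 1) 2 (i : ℕ)] with t a b
      rw [a, Pi.smul_apply, b, h2, zz_zpow, smul_eq_mul]
    filter_upwards [ae_all_iff.2 h4] with t ht
    simp only [Finset.sum_apply, ht]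

theorem intg {φ : UnitAddCircle → ℂ} (hφ : MemLp φ ⊤ mC) {g : UnitAddCircle → ℂ}
    (hg : Continuous g) : Integrable (fun t => φ t * g t) mC :=
  Integrable.mul_of_top_right (hg.integrable_of_hasCompactSupport (HasCompactSupport.of_compactSpace _))
    hφ

theorem partA : ttoMatrix (fun t => zz t ^ (2 : ℤ) + zz t ^ (-2 : ℤ))
    (fun (i : Fin 3) t => zz t ^ ((i : ℕ) : ℤ)) = M := by
  ext i j
  have h : ttoMatrix (fun t => zz t ^ (2 : ℤ) + zz t ^ (-2 : ℤ))
      (fun (i : Fin 3) t => zz t ^ ((i : ℕ) : ℤ)) i j =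
      ip (fun t => zz t ^ (2 + (j : ℕ) : ℤ)) (fun t => zz t ^ ((i : ℕ) : ℤ)) +
        ip (fun t => zz t ^ (-2 + (j : ℕ) : ℤ)) (fun t => zz t ^ ((i : ℕ) : ℤ)) := by
    have I : ∀ m n : ℤ, Integrable (fun t => zz t ^ m * conj (zz t ^ n)) mC := fun m n =>
      (mem_pow m).integrable_mul (mem_pow n).star
    simp only [ttoMatrix, Matrix.of_apply, ip]
    rw [← integral_add (I _ _) (I _ _)]
    simp only [add_mul, zpow_add₀ (zz_ne _)]
  rw [h, ip_pow, ip_pow]
  fin_cases i <;> fin_cases j <;> simp [M]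

theorem ae_ne (ζ : ℂ) : ∀ᵐ t ∂mC, zz t ≠ ζ := by
  have h : {t | zz t = ζ}.Subsingleton := fun s hs t ht =>
    AddCircle.injective_toCircle one_ne_zero (Circle.ext (by
      simpa [zz] using (show zz s = ζ from hs).trans (show zz t = ζ from ht).symm))
  have : NullSingletonClass mC := ⟨fun x => by
    rw [mC, ← Metric.closedBall_zero]
    have h1 := AddCircle.volume_closedBall (T := 1) (x := x) 0
    rw [AddCircle.volume_eq_smul_haarAddCircle] at h1
    simpa using h1⟩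
  simpa [ae_iff] using h.measure_zero mC

theorem ker_cont {n : ℕ} (c : ℂ) {a : Fin n → ℂ} (ha : ∀ k, ‖a k‖ < 1) {α ζ : ℂ} (hα : ‖α‖ = 1)
    (hζ : ‖ζ‖ = 1) (h : blaschke c a ζ = α) :
    ∃ K, Continuous K ∧ bker (blaschke c a) α ζ =ᵐ[mC] K := by
  let s : Set ℂ := ⋂ k, {z | 1 - conj (a k) * z ≠ 0}
  have hs : IsOpen s := isOpen_iInter_of_finite fun k => isOpen_ne_fun (by fun_prop) (by fun_prop)
  have hm : ∀ z, ‖z‖ = 1 → z ∈ s := fun z hz => Set.mem_iInter.2 fun k h0 => by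
    have h1 := congrArg norm (sub_eq_zero.1 h0)
    simp [hz] at h1
    linarith [ha k]
  have hd : DifferentiableOn ℂ (blaschke c a) s := by
    refine DifferentiableOn.const_mul (DifferentiableOn.fun_finsetProd fun k _ => ?_) c
    exact DifferentiableOn.div (by fun_prop) (by fun_prop) fun z hz => Set.mem_iInter.1 hz k
  have h1 := (continuousOn_dslope (hs.mem_nhds (hm ζ hζ))).2
    ⟨hd.continuousOn, hd.differentiableAt (hs.mem_nhds (hm ζ hζ))⟩
  refine ⟨fun t => conj α * ζ * dslope (blaschke c a) ζ (zz t),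
    continuous_const.mul (h1.comp_continuous zz_cont fun t => hm _ (zz_norm t)), ?_⟩
  filter_upwards [ae_ne ζ] with t ht
  have a0 : α ≠ 0 := norm_ne_zero_iff.1 (by simp [hα])
  have z0 : ζ ≠ 0 := norm_ne_zero_iff.1 (by simp [hζ])
  have h2 := sub_ne_zero.2 ht
  have h3 := sub_ne_zero.2 ht.symm
  rw [bker, dslope_of_ne _ ht, slope_def_field, h, ← Complex.inv_eq_conj hα, ← Complex.inv_eq_conj hζ]
  field_simp
  ring

theorem partB (c : ℂ) {a : Fin 3 → ℂ} (ha : ∀ k, ‖a k‖ < 1) {φ : UnitAddCircle → ℂ}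
    (hφ : MemLp φ ⊤ mC) {e : Fin 3 → UnitAddCircle → ℂ} (he : IsClark (blaschke c a) e) :
    ttoMatrix φ e ≠ M := by
  intro hM
  obtain ⟨α, ζ, w, hα, hinj, h1, h2⟩ := he
  set k := fun j => bker (blaschke c a) α (ζ j) with hk
  set r := fun j => √(∫ s, ‖k j s‖ ^ 2 ∂mC) with hr
  choose K hK hKe using fun j => ker_cont c ha hα (h1 j).1 (h1 j).2.1
  let g := fun i j => ∫ t, φ t * (k j t * conj (k i t)) ∂mC
  have hg : ∀ i j, M i j = w j * conj (w i) / (r j * r i) * g i j := fun i j => by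
    rw [← hM, ← integral_const_mul]
    refine integral_congr_ae (Eventually.of_forall fun t => ?_)
    simp only [h2, map_mul, map_div₀, Complex.conj_ofReal]
    ring
  have hI : ∀ i j, Integrable (fun t => φ t * (k j t * conj (k i t))) mC := fun i j => by
    refine (intg hφ (g := fun t => K j t * conj (K i t)) (by have := hK i; have := hK j; fun_prop)).congr ?_
    filter_upwards [hKe i, hKe j] with t a b
    rw [← a, ← b]
  have z0 : ∀ j, ζ j ≠ 0 := fun j => norm_ne_zero_iff.1 (by simp [(h1 j).1])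
  have w0 : ∀ j, w j ≠ 0 := fun j h => by
    have := congrArg norm (h1 j).2.2
    simp [h, hα, (h1 j).1] at this
  have g02 := hg 0 2
  have hne : g 0 2 ≠ 0 ∧ (r 2 : ℂ) ≠ 0 ∧ (r 0 : ℂ) ≠ 0 := by
    refine ⟨?_, ?_, ?_⟩ <;> intro h <;> simp [h, M] at g02
  have r1 : (r 1 : ℂ) ≠ 0 := by
    intro h
    have h3 : ∫ s, ‖k 1 s‖ ^ 2 ∂mC = 0 :=
      le_antisymm (Real.sqrt_eq_zero'.1 (by exact_mod_cast h)) (integral_nonneg fun _ => by positivity)
    rw [integral_eq_zero_iff_of_nonneg (fun _ => by positivity)] at h3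
    · refine hne.1 (integral_eq_zero_of_ae ?_)
      filter_upwards [h3, ae_ne (ζ 1)] with t h4 h5
      have h6 : 1 - conj (ζ 1) * zz t ≠ 0 := by
        rw [← Complex.inv_eq_conj (h1 1).1, sub_ne_zero, Ne, eq_comm, inv_mul_eq_one₀ (z0 1)]
        exact h5.symm
      have h7 : 1 - conj α * blaschke c a (zz t) = 0 := by simpa [hk, bker, h6] using h4
      simp [hk, bker, h7]
    · refine (((hK 1).norm.pow 2).integrable_of_hasCompactSupport
        (HasCompactSupport.of_compactSpace _)).congr ?_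
      filter_upwards [hKe 1] with t a
      simp only [hk, a, Pi.pow_apply]
  have g01 : g 0 1 = 0 := by simpa [M, w0, r1, hne.2.2] using hg 0 1
  have g12 : g 1 2 = 0 := by simpa [M, w0, r1, hne.2.1] using hg 1 2
  have rel : (ζ 0 - ζ 2) / ζ 2 * g 0 2 = (ζ 0 - ζ 1) / ζ 1 * g 0 1 + (ζ 1 - ζ 2) / ζ 2 * g 1 2 := by
    simp only [g, ← integral_const_mul]
    rw [← integral_add ((hI 0 1).const_mul _) ((hI 1 2).const_mul _)]
    refine integral_congr_ae ?_
    filter_upwards [ae_ne (ζ 0), ae_ne (ζ 1), ae_ne (ζ 2)] with t a0 a1 a2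
    have e : ∀ j, zz t ≠ ζ j → k j t = (1 - conj α * blaschke c a (zz t)) * (ζ j / (ζ j - zz t)) ∧
        conj (k j t) = conj (1 - conj α * blaschke c a (zz t)) * (zz t / (zz t - ζ j)) := by
      intro j hj
      have := z0 j
      have := zz_ne t
      have h2 := sub_ne_zero.2 hj
      have h3 := sub_ne_zero.2 hj.symm
      simp only [hk, bker, map_div₀]
      rw [map_sub _ 1 (conj (ζ j) * _), map_mul, Complex.conj_conj, cz, map_one,
        ← Complex.inv_eq_conj (h1 j).1]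
      constructor <;> field_simp
    rw [(e 0 a0).2, (e 1 a1).2, (e 1 a1).1, (e 2 a2).1]
    have := z0 1
    have := z0 2
    have := sub_ne_zero.2 a0
    have := sub_ne_zero.2 a1
    have := sub_ne_zero.2 a1.symm
    have := sub_ne_zero.2 a2.symm
    field_simp
    ring
  rw [g01, g12] at rel
  have : ζ 0 - ζ 2 ≠ 0 := sub_ne_zero.2 (hinj.ne (by decide))
  simp [this, z0, hne.1] at rel

theorem main : ∃ M : Matrix (Fin 3) (Fin 3) ℂ, M.IsSymm ∧
    (∃ (c : ℂ) (a : Fin 3 → ℂ) (φ : UnitAddCircle → ℂ) (e : Fin 3 → UnitAddCircle → ℂ),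
      ‖c‖ = 1 ∧ (∀ k, ‖a k‖ < 1) ∧ MemLp φ ⊤ mC ∧ IsONB (blaschke c a) e ∧ ttoMatrix φ e = M) ∧
    ∀ (c : ℂ) (a : Fin 3 → ℂ) (φ : UnitAddCircle → ℂ) (e : Fin 3 → UnitAddCircle → ℂ),
      ‖c‖ = 1 → (∀ k, ‖a k‖ < 1) → MemLp φ ⊤ mC → IsClark (blaschke c a) e → ttoMatrix φ e ≠ M := by
  refine ⟨M, by ext i j; fin_cases i <;> fin_cases j <;> simp [M], ⟨1, fun _ => 0, _, _, norm_one,
    by simp, ?_, onb, partA⟩, fun c a φ e _ ha hφ he => partB c ha hφ he⟩
  refine memLp_top_of_bound ((mem_pow 2).1.add (mem_pow (-2)).1) 2 (Eventually.of_forall fun t => ?_)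
  refine (norm_add_le _ _).trans ?_
  simp [zz_norm]; norm_num

end Pool.Agent.H95.Clark
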