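import Mathlib

set_option autoImplicit false
open MeasureTheory ComplexConjugate

namespace Pool.Agent.H95.ClarkDefs

/-- normalised Lebesgue measure on the circle `ℝ/ℤ` -/
noncomputable def mC : Measure UnitAddCircle := AddCircle.haarAddCircle

/-- the point `e^{2πit}` of the unit circle -/
noncomputable def zz (t : UnitAddCircle) : ℂ := fourier 1 t

/-- the `L²` pairing `∫ f ḡ` -/
noncomputable def ip (f g : UnitAddCircle → ℂ) : ℂ := ∫ t, f t * conj (g t) ∂mC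

/-- finite Blaschke product -/
noncomputable def blaschke {n : ℕ} (c : ℂ) (a : Fin n → ℂ) (z : ℂ) : ℂ :=
  c * ∏ k, (z - a k) / (1 - conj (a k) * z)

def InH2 (f : UnitAddCircle → ℂ) : Prop :=
  MemLp f 2 mC ∧ ∀ n : ℕ, ip f (fun t => (zz t)⁻¹ ^ (n + 1)) = 0

/-- membership in the model space `H² ⊖ Θ H²` -/
def InK (Θ : ℂ → ℂ) (f : UnitAddCircle → ℂ) : Prop :=
  InH2 f ∧ ∀ g, InH2 g → ip f (fun t => Θ (zz t) * g t) = 0

/-- orthonormal basis of the model space -/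
def IsONB {n : ℕ} (Θ : ℂ → ℂ) (e : Fin n → UnitAddCircle → ℂ) : Prop :=
  (∀ i, InK Θ (e i)) ∧ (∀ i j, ip (e j) (e i) = if i = j then 1 else 0) ∧
    ∀ f, InK Θ f → ∃ x : Fin n → ℂ, f =ᵐ[mC] fun t => ∑ i, x i * e i t

/-- the matrix `[⟨φ e_j, e_i⟩]` -/
noncomputable def ttoMatrix {n : ℕ} (φ : UnitAddCircle → ℂ) (e : Fin n → UnitAddCircle → ℂ) :
    Matrix (Fin n) (Fin n) ℂ := Matrix.of fun i j => ip (fun t => φ t * e j t) (e i)

/-- boundary kernel -/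
noncomputable def bker (Θ : ℂ → ℂ) (α ζ : ℂ) (t : UnitAddCircle) : ℂ :=
  (1 - conj α * Θ (zz t)) / (1 - conj ζ * zz t)

/-- modified Aleksandrov-Clark basis -/
def IsClark {n : ℕ} (Θ : ℂ → ℂ) (e : Fin n → UnitAddCircle → ℂ) : Prop :=
  ∃ (α : ℂ) (ζ w : Fin n → ℂ), ‖α‖ = 1 ∧ Function.Injective ζ ∧
    (∀ j, ‖ζ j‖ = 1 ∧ Θ (ζ j) = α ∧ w j ^ 2 = α * conj (ζ j)) ∧
    ∀ j t, e j t = w j * (bker Θ α (ζ j) t / (√(∫ s, ‖bker Θ α (ζ j) s‖ ^ 2 ∂mC) : ℝ))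

end Pool.Agent.H95.ClarkDefs
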