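import Pool.Agent.H95.CliffDefs

set_option autoImplicit false
open Matrix Complex

namespace Pool.Agent.H95.Cliff
open Pool.Agent.H95.CliffDefs

def γ : Fin 3 → Matrix (Fin 2) (Fin 2) ℂ := ![!![0, 1; 1, 0], !![0, -I; I, 0], !![1, 0; 0, -1]]
def A : Fin 3 → Matrix (Fin 3) (Fin 3) ℂ :=
  ![!![0, 0, 0; 0, 0, 1; 0, 1, 0], !![0, 0, 1; 0, 0, 0; 1, 0, 0], !![0, 1, 0; 1, 0, 0; 0, 0, 0]]

theorem rep : IsCliffordRep γ where
  herm := fun j => by
    fin_cases j <;> ext a b <;> fin_cases a <;> fin_cases b <;> simp [γ, conjTranspose_apply]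
  rel := fun j l => by
    fin_cases j <;> fin_cases l <;> ext a b <;> fin_cases a <;> fin_cases b <;>
      simp [γ, Matrix.mul_apply, Fin.sum_univ_two] <;> norm_num
  pos := two_pos
  irred := fun W hW => by
    refine or_iff_not_imp_left.2 fun h => ?_
    obtain ⟨v, hv, hv0⟩ := (Submodule.ne_bot_iff W).1 h
    have h0 : ∀ a b : ℂ, ![a, b] ∈ W → ![b, a] ∈ W := fun a b h => by
      have := hW 0 _ h
      convert this using 1
      ext i; fin_cases i <;> simp [γ, mulVec, dotProduct, Fin.sum_univ_two]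
    have h1 : ∀ a b : ℂ, ![a, b] ∈ W → ![a, 0] ∈ W := fun a b h => by
      have := W.smul_mem (1 / 2 : ℂ) (W.add_mem h (hW 2 _ h))
      convert this using 1
      ext i; fin_cases i <;> simp [γ, vecHead, vecTail]
      ring
    have h2 : ∀ a : ℂ, a ≠ 0 → ![a, 0] ∈ W → ∀ c : ℂ, ![c, 0] ∈ W := fun a ha h c => by
      have := W.smul_mem (c / a) h
      convert this using 1
      ext i; fin_cases i <;> simp [ha]
    have e : v = ![v 0, v 1] := by ext i; fin_cases i <;> rfl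
    have h3 : ∀ c : ℂ, ![c, 0] ∈ W := by
      by_cases a0 : v 0 = 0
      · have a1 : v 1 ≠ 0 := fun a1 => hv0 (by rw [e, a0, a1]; ext i; fin_cases i <;> rfl)
        exact h2 _ a1 (h1 _ _ (h0 _ _ (e ▸ hv)))
      · exact h2 _ a0 (h1 _ _ (e ▸ hv))
    refine Submodule.eq_top_iff'.2 fun w => ?_
    have := W.add_mem (h3 (w 0)) (h0 _ _ (h3 (w 1)))
    convert this using 1
    ext i; fin_cases i <;> simp

theorem det6 (x y z : ℂ) : det !![-z, -x + I * y, 1, 0, 0, -I; -x - I * y, z, 0, -1, I, 0;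
    1, 0, -z, -x + I * y, 0, 1; 0, -1, -x - I * y, z, 1, 0;
    0, -I, 0, 1, -z, -x + I * y; I, 0, 1, 0, -x - I * y, z] =
    16 * x * y * z - (x ^ 2 + y ^ 2 + z ^ 2) * (x ^ 2 + y ^ 2 + z ^ 2 + 1) ^ 2 := by
  simp [det_succ_row_zero, Fin.sum_univ_succ, Fin.succAbove]
  ring_nf
  simp only [I_sq, I_pow_three, I_pow_four, show I ^ 5 = I by rw [pow_succ, I_pow_four, one_mul],
    show I ^ 6 = -1 by rw [show 6 = 4 + 2 from rfl, pow_add, I_pow_four, I_sq, one_mul]]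
  ring

theorem mem (x : Fin 3 → ℝ) : x ∈ cliffSpec A γ ↔
    (x 0 ^ 2 + x 1 ^ 2 + x 2 ^ 2) * (x 0 ^ 2 + x 1 ^ 2 + x 2 ^ 2 + 1) ^ 2 = 16 * x 0 * x 1 * x 2 := by
  have h : (localizer A γ x).det = ((16 * x 0 * x 1 * x 2 -
      (x 0 ^ 2 + x 1 ^ 2 + x 2 ^ 2) * (x 0 ^ 2 + x 1 ^ 2 + x 2 ^ 2 + 1) ^ 2 : ℝ) : ℂ) := by
    push_cast
    rw [← det6, ← det_submatrix_equiv_self (finProdFinEquiv (m := 3) (n := 2)).symm]
    congr 1
    ext i j
    fin_cases i <;> fin_cases j <;>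
      simp [localizer, A, γ, Fin.sum_univ_three, finProdFinEquiv, Fin.divNat, Fin.modNat,
        Matrix.one_apply, vecHead, vecTail] <;> ring
  change ¬ IsUnit _ ↔ _
  rw [isUnit_iff_isUnit_det, isUnit_iff_ne_zero, not_not, h, ofReal_eq_zero, sub_eq_zero, eq_comm]

theorem third {a b c : ℝ} (ha : 0 ≤ a) (hb : 0 ≤ b) (hc : 0 ≤ c) (h1 : a + b + c = 1 / 3)
    (h2 : a * b * c = 1 / 729) : c = 1 / 9 := by
  have h3 : a * b ≤ (1 / 3 - c) ^ 2 / 4 := by nlinarith [sq_nonneg (a - b)]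
  have h4 : 0 ≤ (c - 1 / 9) ^ 2 * (c - 4 / 9) := by nlinarith [mul_le_mul_of_nonneg_right h3 hc]
  have h5 : (c - 1 / 9) ^ 2 ≤ 0 := by
    by_contra h
    push Not at h
    nlinarith
  nlinarith

theorem amgm {a b c : ℝ} (ha : 0 ≤ a) (hb : 0 ≤ b) (hc : 0 ≤ c) :
    27 * (a * b * c) ≤ (a + b + c) ^ 3 := by
  have h3 : a * b ≤ (a + b) ^ 2 / 4 := by nlinarith [sq_nonneg (a - b)]
  nlinarith [mul_le_mul_of_nonneg_right h3 hc,
    mul_nonneg (sq_nonneg (a + b - 2 * c)) (by linarith : 0 ≤ 4 * (a + b) + c)]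

theorem fin : (cliffSpec A γ).Finite := by
  refine (Set.Finite.pi' (t := fun _ : Fin 3 => ({0, 1 / 3, -(1 / 3)} : Set ℝ))
    fun _ => Set.toFinite _).subset fun x hx => ?_
  rw [mem] at hx
  have h1 := amgm (sq_nonneg (x 0)) (sq_nonneg (x 1)) (sq_nonneg (x 2))
  set R := x 0 ^ 2 + x 1 ^ 2 + x 2 ^ 2 with hR
  have h2 : 256 * (x 0 ^ 2 * x 1 ^ 2 * x 2 ^ 2) = R ^ 2 * (R + 1) ^ 4 := by
    calc _ = (16 * x 0 * x 1 * x 2) ^ 2 := by ring
      _ = _ := by rw [← hx]; ring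
  rcases eq_or_lt_of_le (show 0 ≤ R by positivity) with h0 | h0
  · have : x 0 = 0 ∧ x 1 = 0 ∧ x 2 = 0 := by
      refine ⟨?_, ?_, ?_⟩ <;> nlinarith [sq_nonneg (x 0), sq_nonneg (x 1), sq_nonneg (x 2)]
    intro i
    fin_cases i <;> simp [this]
  · have h3 : R ^ 2 * ((3 * R - 1) ^ 2 * (3 * R ^ 2 + 14 * R + 27)) ≤ 0 := by nlinarith
    have h4 : (3 * R - 1) ^ 2 ≤ 0 := by
      by_contra h
      push Not at h
      exact absurd h3 (not_le.2 (by positivity))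
    have h5 : R = 1 / 3 := by nlinarith
    have h6 : x 0 ^ 2 * x 1 ^ 2 * x 2 ^ 2 = 1 / 729 := by rw [h5] at h2; linarith
    have key : ∀ t : ℝ, t ^ 2 = 1 / 9 → t ∈ ({0, 1 / 3, -(1 / 3)} : Set ℝ) := fun t ht => by
      have : (t - 1 / 3) * (t + 1 / 3) = 0 := by linarith
      rcases mul_eq_zero.1 this with h | h
      · exact Or.inr (Or.inl (by linarith))
      · exact Or.inr (Or.inr (show t = _ by linarith))
    have k0 := key (x 0) (third (sq_nonneg (x 2)) (sq_nonneg (x 1)) (sq_nonneg (x 0)) (by linarith)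
        (by linarith))
    have k1 := key (x 1) (third (sq_nonneg (x 0)) (sq_nonneg (x 2)) (sq_nonneg (x 1)) (by linarith)
        (by linarith))
    have k2 := key (x 2) (third (sq_nonneg (x 0)) (sq_nonneg (x 1)) (sq_nonneg (x 2)) (by linarith) h6)
    intro i
    fin_cases i
    exacts [k0, k1, k2]

theorem main : ∃ (γ : Fin 3 → Matrix (Fin 2) (Fin 2) ℂ) (A : Fin 3 → Matrix (Fin 3) (Fin 3) ℂ),
    IsCliffordRep γ ∧ (∀ j, (A j).IsHermitian) ∧ (cliffSpec A γ).Finite ∧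
      3 < (cliffSpec A γ).ncard := by
  refine ⟨γ, A, rep, fun j => ?_, fin, (Set.three_lt_ncard_iff fin).2
    ⟨![0, 0, 0], ![1 / 3, 1 / 3, 1 / 3], ![1 / 3, -(1 / 3), -(1 / 3)], ![-(1 / 3), 1 / 3, -(1 / 3)],
      ?_, ?_, ?_, ?_, ?_, ?_, ?_, ?_, ?_, ?_⟩⟩
  · fin_cases j <;> ext a b <;> fin_cases a <;> fin_cases b <;> simp [A, conjTranspose_apply]
  iterate 4 (rw [mem]; simp; try norm_num)
  all_goals
    intro h
    first
      | (have h0 := congrFun h 0; norm_num at h0; done)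
      | (have h0 := congrFun h 1; norm_num at h0; done)

end Pool.Agent.H95.Cliff
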