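import Mathlib

set_option autoImplicit false
open Matrix

namespace Pool.Agent.H95.CliffDefs

variable {n d k : ℕ}

/-- Hermitian matrices forming an irreducible representation of the Clifford relations -/
structure IsCliffordRep (γ : Fin d → Matrix (Fin k) (Fin k) ℂ) : Prop where
  herm : ∀ j, (γ j).IsHermitian
  rel : ∀ j l, γ j * γ l + γ l * γ j = if j = l then (2 : ℂ) • 1 else 0
  pos : 0 < k
  irred : ∀ W : Submodule ℂ (Fin k → ℂ), (∀ j, ∀ v ∈ W, γ j *ᵥ v ∈ W) → W = ⊥ ∨ W = ⊤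

/-- the spectral localizer -/
noncomputable def localizer (A : Fin d → Matrix (Fin n) (Fin n) ℂ)
    (γ : Fin d → Matrix (Fin k) (Fin k) ℂ) (x : Fin d → ℝ) :
    Matrix (Fin n × Fin k) (Fin n × Fin k) ℂ :=
  ∑ j, Matrix.kronecker (A j - (x j : ℂ) • 1) (γ j)

/-- the Clifford spectrum -/
def cliffSpec (A : Fin d → Matrix (Fin n) (Fin n) ℂ) (γ : Fin d → Matrix (Fin k) (Fin k) ℂ) :
    Set (Fin d → ℝ) := {x | ¬ IsUnit (localizer A γ x)}

end Pool.Agent.H95.CliffDefs
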