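import Pool.Agent.H95.ConeDefs

set_option autoImplicit false
open Filter Topology
open scoped BoundedContinuousFunction

namespace Pool.Agent.H95.Cone
open Pool.Agent.H95.ConeDefs

universe u
variable {X : Type u} [NormedAddCommGroup X] [NormedSpace ℝ X] {K : Set X}

theorem zero_mem (hK : IsCone K) : (0 : X) ∈ K := by
  have : (0 : X) ∈ K ∩ (-K) := by rw [hK.2.2.2]; rfl
  exact this.1

theorem anti (hK : IsCone K) {x : X} (h1 : x ∈ K) (h2 : -x ∈ K) : x = 0 := by
  have : x ∈ K ∩ (-K) := ⟨h1, h2⟩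
  rw [hK.2.2.2] at this
  exact this

theorem add' (hK : IsCone K) {x y z : X} (h1 : x ∈ K) (h2 : y ∈ K) (h : z = x + y) : z ∈ K :=
  h ▸ hK.2.1 x h1 y h2

theorem sum_mem (hK : IsCone K) {ι : Type*} (s : Finset ι) (f : ι → X) (h : ∀ i ∈ s, f i ∈ K) :
    ∑ i ∈ s, f i ∈ K :=
  Finset.sum_induction f (· ∈ K) (fun a b ha hb => hK.2.1 a ha b hb) (zero_mem hK) h

theorem incr_of_succ (hK : IsCone K) {x : ℕ → X} (h : ∀ n, x (n + 1) - x n ∈ K) :
    Increasing K x := by
  intro i j hij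
  induction j, hij using Nat.le_induction with
  | base => simpa using zero_mem hK
  | succ j _ ih => exact add' hK (h j) ih (by abel)

theorem nonnormal_seq (hK : IsCone K) (h : ¬ IsNormal K) (C : ℕ → ℝ) (hC : ∀ n, 1 ≤ C n) :
    ∃ a b : ℕ → X, ∀ n, a n ∈ K ∧ b n - a n ∈ K ∧ ‖a n‖ = 1 ∧ ‖b n‖ ≤ (C n)⁻¹ := by
  unfold IsNormal at h
  push Not at h
  choose x y h1 h2 h3 using fun n => h (C n) (hC n)
  have h4 : ∀ n, 0 < ‖x n‖ := fun n =>
    lt_of_le_of_lt (mul_nonneg (by linarith [hC n]) (norm_nonneg _)) (h3 n)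
  refine ⟨fun n => ‖x n‖⁻¹ • x n, fun n => ‖x n‖⁻¹ • y n, fun n => ⟨?_, ?_, ?_, ?_⟩⟩
  · exact hK.2.2.1 _ (inv_nonneg.2 (h4 n).le) _ (h1 n)
  · rw [← smul_sub]; exact hK.2.2.1 _ (inv_nonneg.2 (h4 n).le) _ (h2 n)
  · simp [norm_smul, (h4 n).ne']
  · have := hC n
    rw [norm_smul, norm_inv, norm_norm, inv_mul_le_iff₀ (h4 n), ← div_eq_mul_inv,
      le_div_iff₀ (by linarith)]
    linarith [h3 n]

/-! ### Dini property for nets -/

structure Idx (K : Set X) (u : ℕ → X) (ε : ℝ) where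
  z : X
  m : ℕ
  F : Finset (X →L[ℝ] ℝ)
  k : ℕ
  h1 : z - u m ∈ K
  h2 : ε ≤ ‖z‖
  h3 : ∀ f ∈ F, |f z| < 1 / ((k : ℝ) + 1)

theorem dini_normal [CompleteSpace X] (hK : IsCone K)
    (h : ∀ (J : Type u) [Preorder J] [IsDirectedOrder J] [Nonempty J] (x : J → X) (l : X),
      Increasing K x → (∀ f : X →L[ℝ] ℝ, Tendsto (fun j => f (x j)) atTop (𝓝 (f l))) →
      ∃ l', Tendsto x atTop (𝓝 l')) : IsNormal K := by
  classical
  by_contra hn
  obtain ⟨a, b, hab⟩ := nonnormal_seq hK hn (fun n => 2 ^ n) (fun n => one_le_pow₀ (by norm_num))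
  have hbs : Summable b := by
    refine Summable.of_norm_bounded summable_geometric_two fun n => ?_
    simpa using (hab n).2.2.2
  have hbK : ∀ n, b n ∈ K := fun n => add' hK (hab n).2.1 (hab n).1 (by abel)
  set u : ℕ → X := fun m => ∑' k, b (k + m) with hu
  have hu1 : ∀ m, u m = b m + u (m + 1) := fun m => by
    have := ((summable_nat_add_iff m).2 hbs).tsum_eq_zero_add
    simp only [hu, this, zero_add]
    congr 2; funext k; congr 1; ring
  have hu2 : ∀ m m', m ≤ m' → u m - u m' ∈ K := fun m m' hm => by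
    have := incr_of_succ hK (x := fun n => -u n) (fun n => by
      rw [hu1 n]; convert hbK n using 1; abel) m m' hm
    convert this using 1; beta_reduce; abel
  have hu3 : Tendsto u atTop (𝓝 0) := tendsto_sum_nat_add b
  have hntb : ¬ TotallyBounded (Set.range a) := by
    intro htb
    have hc : IsCompact (closure (Set.range a)) :=
      htb.closure.isCompact_of_isClosed isClosed_closure
    obtain ⟨l, -, φ, hφ, hl⟩ := hc.tendsto_subseq (x := a) fun n => subset_closure ⟨n, rfl⟩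
    have l1 : l ∈ K := hK.1.mem_of_tendsto hl (Eventually.of_forall fun n => (hab _).1)
    have l2 : -l ∈ K := by
      have := (hbs.tendsto_atTop_zero.comp hφ.tendsto_atTop).sub hl
      rw [zero_sub] at this
      exact hK.1.mem_of_tendsto this (Eventually.of_forall fun n => (hab _).2.1)
    have l3 : ‖l‖ = 1 := tendsto_nhds_unique hl.norm (by
      simp only [Function.comp, (hab _).2.2.1]; exact tendsto_const_nhds)
    rw [anti hK l1 l2] at l3
    simp at l3
  rw [Metric.totallyBounded_iff] at hntb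
  push Not at hntb
  obtain ⟨ε, hε, hsep⟩ := hntb
  obtain ⟨φ, -, hφ⟩ := exists_seq_of_forall_finset_exists (fun _ : ℕ => True)
    (fun i j => i < j ∧ ε ≤ ‖a i - a j‖) (fun s _ => by
      obtain ⟨_, ⟨j, rfl⟩, hj⟩ := Set.not_subset.1
        (hsep (a '' Set.Iic (s.sup id)) ((Set.finite_Iic _).image a))
      simp only [Set.mem_iUnion, not_exists, Metric.mem_ball, not_lt] at hj
      refine ⟨j, trivial, fun i hi => ⟨?_, ?_⟩⟩
      · by_contra hij
        have := hj (a j) ⟨j, (not_lt.1 hij).trans (Finset.le_sup (f := id) hi), rfl⟩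
        simp at this
        linarith
      · have := hj (a i) ⟨i, Finset.le_sup (f := id) hi, rfl⟩
        rwa [dist_comm, dist_eq_norm] at this)
  have hφm : StrictMono φ := fun i j hij => (hφ i j hij).1
  have pair : ∀ (F : Finset (X →L[ℝ] ℝ)) (η : ℝ) (m : ℕ), 0 < η → ∃ n n', m ≤ n ∧ n < n' ∧
      ε ≤ ‖a n - a n'‖ ∧ ∀ f ∈ F, |f (a n - a n')| < η := by
    intro F η m hη
    let Φ : ℕ → (F → ℝ) := fun k f => f.1 (a (φ k))
    obtain ⟨l, -, ψ, hψ, hl⟩ := tendsto_subseq_of_bounded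
      (Metric.isBounded_closedBall (x := (0 : F → ℝ)) (r := ∑ f ∈ F, ‖f‖)) (x := Φ) (fun k => by
        rw [mem_closedBall_zero_iff, pi_norm_le_iff_of_nonneg (by positivity)]
        intro f
        refine (f.1.le_opNorm _).trans ?_
        rw [(hab _).2.2.1, mul_one]
        exact Finset.single_le_sum (f := fun f : X →L[ℝ] ℝ => ‖f‖) (fun _ _ => norm_nonneg _) f.2)
    obtain ⟨N, hN⟩ := Metric.cauchySeq_iff.1 hl.cauchySeq η hη
    have h1 : ψ (max N m) < ψ (max N m + 1) := hψ (by omega)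
    refine ⟨φ (ψ (max N m)), φ (ψ (max N m + 1)), ?_, hφm h1, (hφ _ _ h1).2, fun f hf => ?_⟩
    · exact (le_max_right N m).trans (hψ.le_apply.trans hφm.le_apply)
    · have h2 := hN (max N m) (le_max_left _ _) (max N m + 1) (by omega)
      have h3 := (dist_le_pi_dist _ _ ⟨f, hf⟩).trans_lt h2
      rw [map_sub]
      exact h3
  have key : ∀ (m : ℕ) (F : Finset (X →L[ℝ] ℝ)) (k : ℕ), ∃ p : Idx K u (ε / 2),
      u m - p.z ∈ K ∧ p.F = F ∧ p.k = k := by
    intro m F k
    have hη : 0 < 1 / ((k : ℝ) + 1) / 2 := by positivity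
    have e1 : ∀ᶠ n in atTop, ‖u n‖ < ε / 2 := by
      have := hu3.norm
      rw [norm_zero] at this
      exact this.eventually (gt_mem_nhds (by linarith))
    have e2 : ∀ᶠ n in atTop, ∀ f ∈ F, |f (u n)| < 1 / ((k : ℝ) + 1) / 2 := by
      rw [eventually_all_finset]
      intro f _
      have := ((f.continuous.tendsto 0).comp hu3).abs
      rw [map_zero, abs_zero] at this
      exact this.eventually (gt_mem_nhds hη)
    obtain ⟨M, hM⟩ := eventually_atTop.1 (e1.and e2)
    obtain ⟨n, n', h1, h2, h3, h4⟩ := pair F _ (max M m) hη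
    have h5 := hM n' (by omega)
    refine ⟨⟨a n - a n' + u n', n' + 1, F, k, ?_, ?_, ?_⟩, ?_, rfl, rfl⟩
    · exact add' hK (hab n).1 (hab n').2.1 (by rw [hu1 n']; abel)
    · have := norm_sub_le (a n - a n' + u n') (u n')
      rw [add_sub_cancel_right] at this
      linarith [h5.1]
    · intro f hf
      rw [map_add]
      have := abs_add_le (f (a n - a n')) (f (u n'))
      linarith [h4 f hf, h5.2 f hf]
    · refine add' hK (hK.2.1 _ (hu2 m n (by omega)) _ (hab n).2.1)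
        (hK.2.1 _ (hu2 (n + 1) n' h2) _ (hab n').1) ?_
      rw [hu1 n]; dsimp only; abel
  letI : Preorder (Idx K u (ε / 2)) :=
    { le := fun p q => p.z - q.z ∈ K ∧ p.F ⊆ q.F ∧ p.k ≤ q.k
      le_refl := fun p => ⟨by simpa using zero_mem hK, subset_rfl, le_rfl⟩
      le_trans := fun p q r h1 h2 =>
        ⟨add' hK h1.1 h2.1 (by abel), h1.2.1.trans h2.2.1, h1.2.2.trans h2.2.2⟩ }
  haveI : IsDirectedOrder (Idx K u (ε / 2)) := ⟨fun p q => by
    obtain ⟨r, h1, h2, h3⟩ := key (max p.m q.m) (p.F ∪ q.F) (max p.k q.k)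
    refine ⟨r, ⟨?_, ?_, ?_⟩, ⟨?_, ?_, ?_⟩⟩
    · exact add' hK (hK.2.1 _ p.h1 _ (hu2 _ _ (le_max_left _ _))) h1 (by abel)
    · rw [h2]; exact Finset.subset_union_left
    · rw [h3]; exact le_max_left _ _
    · exact add' hK (hK.2.1 _ q.h1 _ (hu2 _ _ (le_max_right _ _))) h1 (by abel)
    · rw [h2]; exact Finset.subset_union_right
    · rw [h3]; exact le_max_right _ _⟩
  haveI : Nonempty (Idx K u (ε / 2)) := ⟨(key 0 ∅ 0).choose⟩
  have hw : ∀ f : X →L[ℝ] ℝ, Tendsto (fun p : Idx K u (ε / 2) => f (-p.z)) atTop (𝓝 (f 0)) := by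
    intro f
    rw [map_zero, Metric.tendsto_nhds]
    intro δ hδ
    rw [eventually_atTop]
    obtain ⟨k, hk⟩ := exists_nat_one_div_lt hδ
    obtain ⟨p, -, h2, h3⟩ := key 0 {f} k
    refine ⟨p, fun q hq => ?_⟩
    have h4 := q.h3 f (hq.2.1 (by simp [h2]))
    have h5 : (k : ℝ) ≤ q.k := by exact_mod_cast h3 ▸ hq.2.2
    have h6 : 1 / ((q.k : ℝ) + 1) ≤ 1 / ((k : ℝ) + 1) :=
      one_div_le_one_div_of_le (by positivity) (by linarith)
    rw [map_neg, Real.dist_eq, sub_zero, abs_neg]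
    linarith
  obtain ⟨l, hl⟩ := h (Idx K u (ε / 2)) (fun p => -p.z) 0 (fun p q hpq => by
    convert hpq.1 using 1; beta_reduce; abel) hw
  have h0 : l = 0 := SeparatingDual.eq_zero_of_forall_dual_eq_zero (R := ℝ) fun f => by
    have := tendsto_nhds_unique ((f.continuous.tendsto l).comp hl) (hw f)
    simpa using this
  have h1 : ε / 2 ≤ ‖l‖ := ge_of_tendsto' hl.norm fun p => by simpa using p.h2
  rw [h0, norm_zero] at h1
  linarith

/-! ### Property (S) -/

theorem sup_unique (hK : IsCone K) {x : ℕ → X} {s t : X} (hs : IsSup K x s) (ht : IsSup K x t) :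
    s = t :=
  sub_eq_zero.1 (anti hK (ht.2 s hs.1) (by simpa using hs.2 t ht.1))

theorem sup_add (hK : IsCone K) {x y : ℕ → X} {s t : X} (hx : Increasing K x)
    (hy : Increasing K y) (hs : IsSup K x s) (ht : IsSup K y t) :
    IsSup K (fun n => x n + y n) (s + t) := by
  refine ⟨fun n => add' hK (hs.1 n) (ht.1 n) (by beta_reduce; abel), fun w hw => ?_⟩
  have h1 : ∀ m, (w - y m) - s ∈ K := fun m => hs.2 _ fun n =>
    add' hK (hw (max n m)) (hK.2.1 _ (hx n _ (le_max_left n m)) _ (hy m _ (le_max_right n m)))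
      (by beta_reduce; abel)
  have h2 := ht.2 (w - s) fun m => by convert h1 m using 1; abel
  convert h2 using 1; abel

theorem sup_smul (hK : IsCone K) {x : ℕ → X} {s : X} (hs : IsSup K x s) {c : ℝ} (hc : 0 ≤ c) :
    IsSup K (fun n => c • x n) (c • s) := by
  refine ⟨fun n => by rw [← smul_sub]; exact hK.2.2.1 c hc _ (hs.1 n), fun w hw => ?_⟩
  rcases hc.eq_or_lt with rfl | hc'
  · simpa using hw 0
  · have h1 := hs.2 (c⁻¹ • w) fun n => by
      have := hK.2.2.1 c⁻¹ (inv_nonneg.2 hc) _ (hw n)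
      rwa [smul_sub, smul_smul, inv_mul_cancel₀ hc'.ne', one_smul] at this
    have := hK.2.2.1 c hc _ h1
    rwa [smul_sub, smul_smul, mul_inv_cancel₀ hc'.ne', one_smul] at this

theorem exists_T (hK : IsCone K)
    (hS : ∀ x : ℕ → X, (∀ n, x (n + 1) - x n ∈ K) → (∃ v, IsUB K x v) → ∃ s, IsSup K x s)
    (a : ℕ → X) (ha : ∀ n, a n ∈ K) (v : X) (hv : ∀ N, v - ∑ n ∈ Finset.range N, a n ∈ K) :
    ∃ T : (ℕ →ᵇ ℝ) →ₗ[ℝ] X, (∀ l : ℕ →ᵇ ℝ, (∀ n, 0 ≤ l n) → T l ∈ K) ∧
      ∀ (n : ℕ) (l : ℕ →ᵇ ℝ), (∀ m, l m = if m = n then 1 else 0) → T l = a n := by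
  let P : (ℕ → ℝ) → ℕ → X := fun l N => ∑ n ∈ Finset.range N, l n • a n
  have P1 : ∀ l : ℕ → ℝ, (∀ n, 0 ≤ l n) → ∀ N, P l (N + 1) - P l N ∈ K := fun l hl N => by
    simp only [P, Finset.sum_range_succ, add_sub_cancel_left]
    exact hK.2.2.1 _ (hl N) _ (ha N)
  have P2 : ∀ (l : ℕ → ℝ) (M : ℝ), (∀ n, 0 ≤ l n) → (∀ n, l n ≤ M) → ∃ s, IsSup K (P l) s := by
    intro l M h0 hM
    refine hS _ (P1 l h0) ⟨M • v, fun N => ?_⟩
    refine add' hK (hK.2.2.1 M ((h0 0).trans (hM 0)) _ (hv N))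
      (sum_mem hK (Finset.range N) (fun n => (M - l n) • a n) fun n _ =>
        hK.2.2.1 _ (sub_nonneg.2 (hM n)) _ (ha n)) ?_
    simp only [P, sub_smul, Finset.sum_sub_distrib, smul_sub, Finset.smul_sum]
    abel
  have Padd : ∀ l m : ℕ → ℝ, P (fun n => l n + m n) = fun N => P l N + P m N := fun l m => by
    funext N; simp [P, add_smul, Finset.sum_add_distrib]
  have Psmul : ∀ (c : ℝ) (l : ℕ → ℝ), P (fun n => c * l n) = fun N => c • P l N := fun c l => by
    funext N; simp [P, mul_smul, Finset.smul_sum]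
  obtain ⟨s1, hs1⟩ := P2 (fun _ => 1) 1 (fun _ => zero_le_one) (fun _ => le_rfl)
  have hsM : ∀ M : ℝ, 0 ≤ M → IsSup K (P fun _ => M) (M • s1) := fun M hM => by
    have := sup_smul hK hs1 hM
    rw [← Psmul] at this
    simpa using this
  let G : (ℕ →ᵇ ℝ) → X → Prop := fun l t => ∃ M : ℝ, 0 ≤ M ∧ (∀ n, 0 ≤ l n + M) ∧
    IsSup K (P fun n => l n + M) (t + M • s1)
  have Gex : ∀ l, ∃ t, G l t := fun l => by
    have h1 : ∀ n, |l n| ≤ ‖l‖ := fun n => l.norm_coe_le_norm n
    have h2 : ∀ n, 0 ≤ l n + ‖l‖ := fun n => by linarith [(abs_le.1 (h1 n)).1]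
    obtain ⟨s, hs⟩ := P2 (fun n => l n + ‖l‖) (2 * ‖l‖) h2
      fun n => by linarith [(abs_le.1 (h1 n)).2]
    exact ⟨s - ‖l‖ • s1, ‖l‖, norm_nonneg _, h2, by simpa using hs⟩
  have Gun : ∀ l t t', G l t → G l t' → t = t' := by
    rintro l t t' ⟨M, h1, h2, h3⟩ ⟨M', h1', h2', h3'⟩
    have e1 := sup_add hK (incr_of_succ hK (P1 _ h2)) (incr_of_succ hK (P1 _ fun _ => h1')) h3
      (hsM M' h1')
    have e2 := sup_add hK (incr_of_succ hK (P1 _ h2')) (incr_of_succ hK (P1 _ fun _ => h1)) h3'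
      (hsM M h1)
    rw [← Padd] at e1 e2
    simp only [add_right_comm _ M' M] at e2
    have := sup_unique hK e1 e2
    rw [add_right_comm t'] at this
    simpa using this
  have Gadd : ∀ l m t t', G l t → G m t' → G (l + m) (t + t') := by
    rintro l m t t' ⟨M, h1, h2, h3⟩ ⟨M', h1', h2', h3'⟩
    refine ⟨M + M', add_nonneg h1 h1', fun n => ?_, ?_⟩
    · have := h2 n; have := h2' n
      simp only [BoundedContinuousFunction.add_apply]; linarith
    · have e1 := sup_add hK (incr_of_succ hK (P1 _ h2)) (incr_of_succ hK (P1 _ h2')) h3 h3'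
      rw [← Padd] at e1
      convert e1 using 1
      · congr 1; funext n; simp only [BoundedContinuousFunction.add_apply]; ring
      · rw [add_smul]; abel
  have Gsmul : ∀ (c : ℝ) l t, 0 ≤ c → G l t → G (c • l) (c • t) := by
    rintro c l t hc ⟨M, h1, h2, h3⟩
    refine ⟨c * M, mul_nonneg hc h1, fun n => ?_, ?_⟩
    · have := mul_nonneg hc (h2 n)
      simp only [BoundedContinuousFunction.smul_apply, smul_eq_mul]; linarith
    · have e1 := sup_smul hK h3 hc
      rw [← Psmul] at e1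
      convert e1 using 1
      · congr 1; funext n; simp only [BoundedContinuousFunction.smul_apply, smul_eq_mul]; ring
      · rw [smul_add, mul_smul]
  choose T hT using Gex
  have Tadd : ∀ l m, T (l + m) = T l + T m := fun l m => Gun _ _ _ (hT _) (Gadd _ _ _ _ (hT _) (hT _))
  have Tsm : ∀ (c : ℝ) l, 0 ≤ c → T (c • l) = c • T l := fun c l hc =>
    Gun _ _ _ (hT _) (Gsmul _ _ _ hc (hT _))
  have Tneg : ∀ l, T (-l) = -T l := fun l => by
    have h0 : T 0 = 0 := by simpa using Tsm 0 0 le_rfl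
    have := Tadd (-l) l
    rw [neg_add_cancel, h0] at this
    exact eq_neg_of_add_eq_zero_left this.symm
  have Tpos : ∀ (l : ℕ →ᵇ ℝ) s, (∀ n, 0 ≤ l n) → IsSup K (P l) s → T l = s := fun l s hl hs =>
    Gun _ _ _ (hT l) ⟨0, le_rfl, by simpa using hl, by simpa using hs⟩
  refine ⟨{ toFun := T, map_add' := Tadd, map_smul' := fun c l => ?_ }, fun l hl => ?_,
    fun n l hl => ?_⟩
  · rcases le_total 0 c with hc | hc
    · exact Tsm c l hc
    · have := Tsm (-c) (-l) (by linarith)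
      rw [Tneg] at this
      simpa using this
  · obtain ⟨s, hs⟩ := P2 l ‖l‖ hl fun n => (le_abs_self _).trans (l.norm_coe_le_norm n)
    change T l ∈ K
    rw [Tpos l s hl hs]
    simpa [P] using hs.1 0
  · apply Tpos l _ (fun m => by rw [hl]; split_ifs <;> norm_num)
    have e : ∀ N, P l N = if n < N then a n else 0 := fun N => by simp [P, hl]
    refine ⟨fun N => ?_, fun w hw => ?_⟩
    · rw [e]; split_ifs
      · simpa using zero_mem hK
      · simpa using ha n
    · have := hw (n + 1)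
      rwa [e, if_pos (by omega)] at this

theorem mem_of_pos (hK : IsCone K) (z : X)
    (h : ∀ f : X →L[ℝ] ℝ, (∀ x ∈ K, 0 ≤ f x) → f z = 0) : z ∈ K := by
  by_contra hz
  have hconv : Convex ℝ K := fun x hx y hy a b ha hb _ =>
    hK.2.1 _ (hK.2.2.1 a ha x hx) _ (hK.2.2.1 b hb y hy)
  obtain ⟨f, u, h1, h2⟩ := geometric_hahn_banach_point_closed hconv hK.1 hz
  have h3 : u < 0 := by simpa using h2 0 (zero_mem hK)
  have h4 : ∀ x ∈ K, 0 ≤ f x := fun x hx => by
    by_contra h5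
    push Not at h5
    have := h2 _ (hK.2.2.1 (u / f x) (div_nonneg_of_nonpos h3.le h5.le) x hx)
    rw [map_smul, smul_eq_mul, div_mul_cancel₀ _ h5.ne] at this
    exact lt_irrefl _ this
  rw [h f h4] at h1
  linarith

theorem normal_of_S [CompleteSpace X] (hK : IsCone K)
    (hS : ∀ x : ℕ → X, (∀ n, x (n + 1) - x n ∈ K) → (∃ v, IsUB K x v) → ∃ s, IsSup K x s) :
    IsNormal K := by
  by_contra hn
  obtain ⟨a, b, hab⟩ := nonnormal_seq hK hn (fun n => 4 ^ n) (fun n => one_le_pow₀ (by norm_num))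
  have hbs : Summable fun n => (2 : ℝ) ^ n • b n := by
    refine Summable.of_norm_bounded summable_geometric_two fun n => ?_
    rw [norm_smul, norm_pow, Real.norm_two]
    refine (mul_le_mul_of_nonneg_left (hab n).2.2.2 (by positivity)).trans (le_of_eq ?_)
    rw [show (4 : ℝ) = 2 * 2 by norm_num, mul_pow]
    field_simp
    rw [← mul_pow]; simp
  have hbK : ∀ n, (2 : ℝ) ^ n • b n ∈ K := fun n =>
    hK.2.2.1 _ (by positivity) _ (add' hK (hab n).2.1 (hab n).1 (by abel))
  obtain ⟨T, hT1, hT2⟩ := exists_T hK hS (fun n => (2 : ℝ) ^ n • a n)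
    (fun n => hK.2.2.1 _ (by positivity) _ (hab n).1) (∑' n, (2 : ℝ) ^ n • b n) (fun N => by
      have h1 : ∑' n, (2 : ℝ) ^ (n + N) • b (n + N) ∈ K :=
        hK.1.mem_of_tendsto ((summable_nat_add_iff N).2 hbs).hasSum.tendsto_sum_nat
          (Eventually.of_forall fun M => sum_mem hK _ _ fun i _ => hbK _)
      refine add' hK h1 (sum_mem hK (Finset.range N) (fun n => (2 : ℝ) ^ n • (b n - a n))
        fun n _ => hK.2.2.1 _ (by positivity) _ (hab n).2.1) ?_
      rw [← hbs.sum_add_tsum_nat_add N]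
      simp only [smul_sub, Finset.sum_sub_distrib]
      abel)
  have hf : ∀ f : X →L[ℝ] ℝ, (∀ x ∈ K, 0 ≤ f x) → Continuous fun l => f (T l) := by
    intro f hf
    refine AddMonoidHomClass.continuous_of_bound ((f : X →ₗ[ℝ] ℝ).comp T) (f (T 1)) fun l => ?_
    have h1 : ∀ n, |l n| ≤ ‖l‖ := fun n => l.norm_coe_le_norm n
    have h2 := hf _ (hT1 (‖l‖ • 1 + l) fun n => by
      simp; linarith [(abs_le.1 (h1 n)).1])
    have h3 := hf _ (hT1 (‖l‖ • 1 - l) fun n => by
      simp; linarith [(abs_le.1 (h1 n)).2])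
    simp only [map_add, map_sub, map_smul, smul_eq_mul] at h2 h3
    change |f (T l)| ≤ _
    rw [abs_le]
    constructor <;> linarith
  have hc : Continuous T := by
    apply T.continuous_of_seq_closed_graph
    intro u x y hu hy
    have h1 : ∀ f : X →L[ℝ] ℝ, (∀ x ∈ K, 0 ≤ f x) → f y = f (T x) := fun f h =>
      tendsto_nhds_unique ((f.continuous.tendsto y).comp hy) (((hf f h).tendsto x).comp hu)
    exact sub_eq_zero.1 (anti hK (mem_of_pos hK _ fun f h => by simp [h1 f h])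
      (mem_of_pos hK _ fun f h => by simp [h1 f h]))
  let T' : (ℕ →ᵇ ℝ) →L[ℝ] X := ⟨T, hc⟩
  obtain ⟨n, hn⟩ := pow_unbounded_of_one_lt ‖T'‖ (by norm_num : (1 : ℝ) < 2)
  let l : ℕ →ᵇ ℝ := BoundedContinuousFunction.ofNormedAddCommGroupDiscrete
    (fun m => if m = n then 1 else 0) 1 (fun m => by split_ifs <;> simp)
  have h1 : ‖l‖ ≤ 1 := (BoundedContinuousFunction.norm_le zero_le_one).2 fun m => by
    change ‖(if m = n then (1 : ℝ) else 0)‖ ≤ 1
    split_ifs <;> simp
  have h2 := T'.le_opNorm l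
  have h3 : T' l = (2 : ℝ) ^ n • a n := hT2 n l fun m => rfl
  rw [h3, norm_smul, (hab n).2.2.1, norm_pow, Real.norm_two] at h2
  nlinarith [norm_nonneg T']

theorem conv_of_S [CompleteSpace X] [TopologicalSpace.SeparableSpace X] (hK : IsCone K)
    (hS : ∀ x : ℕ → X, (∀ n, x (n + 1) - x n ∈ K) → (∃ v, IsUB K x v) → ∃ s, IsSup K x s)
    (x : ℕ → X) (hx : ∀ n, x (n + 1) - x n ∈ K) (hv : ∃ v, IsUB K x v) :
    ∃ l, Tendsto x atTop (𝓝 l) := by
  classical
  obtain ⟨C, hC, hN⟩ := normal_of_S hK hS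
  obtain ⟨v, hv⟩ := hv
  apply cauchySeq_tendsto_of_complete
  by_contra hcon
  rw [Metric.cauchySeq_iff'] at hcon
  push Not at hcon
  obtain ⟨ε, hε, hcon⟩ := hcon
  choose g hg1 hg2 using hcon
  let φ : ℕ → ℕ := fun k => g^[k] 0
  have hφ : ∀ k, φ (k + 1) = g (φ k) := fun k => Function.iterate_succ_apply' _ _ _
  have hi := incr_of_succ hK hx
  obtain ⟨T, hT1, hT2⟩ := exists_T hK hS (fun k => x (φ (k + 1)) - x (φ k))
    (fun k => hi _ _ (by rw [hφ]; exact hg1 _)) (v - x (φ 0)) (fun N => by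
      rw [Finset.sum_range_sub (fun k => x (φ k))]
      convert hv (φ N) using 1; abel)
  let q : ℕ ≃ ℚ := (Denumerable.eqv ℚ).symm
  let l : ℝ → ℕ →ᵇ ℝ := fun r => BoundedContinuousFunction.ofNormedAddCommGroupDiscrete
    (fun m => if (q m : ℝ) < r then 1 else 0) 1 (fun m => by split_ifs <;> simp)
  have hsep : ∀ r r', r < r' → ε ≤ C * ‖T (l r') - T (l r)‖ := by
    intro r r' hr
    obtain ⟨s, hs1, hs2⟩ := exists_rat_btwn hr
    let n := q.symm s
    let e : ℕ →ᵇ ℝ := BoundedContinuousFunction.ofNormedAddCommGroupDiscrete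
      (fun m => if m = n then 1 else 0) 1 (fun m => by split_ifs <;> simp)
    have h1 := hT1 (l r' - l r - e) fun m => by
      change 0 ≤ (if (q m : ℝ) < r' then (1 : ℝ) else 0) - (if (q m : ℝ) < r then 1 else 0) -
        (if m = n then 1 else 0)
      by_cases hm : m = n
      · have : q m = s := by rw [hm]; simp [n]
        rw [this, if_pos hs2, if_neg (not_lt.2 hs1.le), if_pos hm]; norm_num
      · rw [if_neg hm]
        split_ifs with h1 h2 h3
        · norm_num
        · norm_num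
        · exact absurd (h3.trans hr) h1
        · norm_num
    rw [map_sub, map_sub, hT2 n e fun m => rfl] at h1
    refine le_trans ?_ (hN _ _ (hi _ _ (by rw [hφ]; exact hg1 _)) h1)
    rw [hφ, ← dist_eq_norm]
    exact hg2 _
  have hC0 : 0 < C := by linarith
  have : Countable ℝ := by
    apply Pairwise.countable_of_isOpen_disjoint
      (s := fun r => Metric.ball (T (l r)) (ε / C / 2))
    · intro r r' hr
      apply Metric.ball_disjoint_ball
      rw [add_halves, div_le_iff₀' hC0]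
      rcases lt_or_gt_of_ne hr with h | h
      · rw [dist_comm, dist_eq_norm]; exact hsep _ _ h
      · rw [dist_eq_norm]; exact hsep _ _ h
    · exact fun _ => Metric.isOpen_ball
    · exact fun _ => Metric.nonempty_ball.2 (by positivity)
  exact not_countable this

end Pool.Agent.H95.Cone
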