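import Mathlib

set_option autoImplicit false

namespace Pool.Agent.H95.ConeDefs

variable {X : Type*} [NormedAddCommGroup X] [NormedSpace ℝ X] {J : Type*}

/-- `K` is a closed cone; the order is `x ≤ y` iff `y - x ∈ K`. -/
def IsCone (K : Set X) : Prop :=
  IsClosed K ∧ (∀ x ∈ K, ∀ y ∈ K, x + y ∈ K) ∧ (∀ c : ℝ, 0 ≤ c → ∀ x ∈ K, c • x ∈ K) ∧
    K ∩ (-K) = {0}

/-- normality of the cone -/
def IsNormal (K : Set X) : Prop :=
  ∃ C : ℝ, 1 ≤ C ∧ ∀ x y : X, x ∈ K → y - x ∈ K → ‖x‖ ≤ C * ‖y‖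

/-- increasing net -/
def Increasing [Preorder J] (K : Set X) (x : J → X) : Prop :=
  ∀ i j, i ≤ j → x j - x i ∈ K

/-- upper bound of a net -/
def IsUB (K : Set X) (x : J → X) (u : X) : Prop := ∀ j, u - x j ∈ K

/-- supremum (least upper bound) of a net -/
def IsSup (K : Set X) (x : J → X) (u : X) : Prop :=
  IsUB K x u ∧ ∀ v, IsUB K x v → v - u ∈ K

/-- minimal upper bound of a net -/
def IsMinUB (K : Set X) (x : J → X) (u : X) : Prop :=
  IsUB K x u ∧ ∀ v, IsUB K x v → u - v ∈ K → v = u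

end Pool.Agent.H95.ConeDefs
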