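import Pool.Agent.H95.Cone

set_option autoImplicit false
open Filter Topology

namespace Pool.Agent.H95.ConeEx
open Pool.Agent.H95.ConeDefs Pool.Agent.H95.Cone

abbrev E : Type := C(OnePoint ℕ, ℝ) × ℝ

def K : Set E := {p | (∀ t, 0 ≤ p.1 t) ∧ 0 ≤ p.2 ∧ p.2 ≤ p.1 OnePoint.infty}

theorem cone : IsCone K := by
  refine ⟨?_, ?_, ?_, ?_⟩
  · simp only [K, Set.setOf_and, Set.setOf_forall]
    exact (isClosed_iInter fun t => isClosed_le continuous_const (by fun_prop)).inter
      ((isClosed_le continuous_const (by fun_prop)).inter (isClosed_le (by fun_prop) (by fun_prop)))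
  · rintro x ⟨h1, h2, h3⟩ y ⟨k1, k2, k3⟩
    exact ⟨fun t => add_nonneg (h1 t) (k1 t), add_nonneg h2 k2, add_le_add h3 k3⟩
  · rintro c hc x ⟨h1, h2, h3⟩
    exact ⟨fun t => mul_nonneg hc (h1 t), mul_nonneg hc h2, mul_le_mul_of_nonneg_left h3 hc⟩
  · ext x
    constructor
    · rintro ⟨⟨h1, h2, -⟩, ⟨k1, k2, -⟩⟩
      refine Prod.ext (ContinuousMap.ext fun t => le_antisymm ?_ (h1 t)) (le_antisymm ?_ h2)
      · simpa using k1 t
      · simpa using k2
    · rintro rfl
      simp [K]

theorem normal : IsNormal K := by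
  refine ⟨1, le_rfl, ?_⟩
  rintro x y ⟨h1, h2, -⟩ ⟨k1, k2, -⟩
  rw [one_mul, Prod.norm_def, max_le_iff]
  constructor
  · refine (ContinuousMap.norm_le _ (norm_nonneg _)).2 fun t => ?_
    rw [Real.norm_of_nonneg (h1 t)]
    have : x.1 t ≤ y.1 t := by simpa using k1 t
    exact this.trans ((le_abs_self _).trans ((y.1.norm_coe_le_norm t).trans (norm_fst_le y)))
  · rw [Real.norm_of_nonneg h2]
    have : x.2 ≤ y.2 := by simpa using k2
    exact this.trans ((le_abs_self _).trans (norm_snd_le y))

noncomputable def ind (p : ℕ → Prop) [DecidablePred p] (N : ℕ) (h : ∀ n, p n → n < N) :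
    C(OnePoint ℕ, ℝ) :=
  OnePoint.continuousMapMkNat (fun n => if p n then 1 else 0) 0
    (tendsto_const_nhds.congr' (eventually_atTop.2 ⟨N, fun n hn =>
      (if_neg fun hp => absurd (h n hp) (not_lt.2 hn)).symm⟩))

theorem ind_coe (p : ℕ → Prop) [DecidablePred p] (N : ℕ) (h : ∀ n, p n → n < N) (n : ℕ) :
    ind p N h n = if p n then 1 else 0 := rfl

theorem ind_infty (p : ℕ → Prop) [DecidablePred p] (N : ℕ) (h : ∀ n, p n → n < N) :
    ind p N h OnePoint.infty = 0 := rfl

noncomputable def x (N : ℕ) : E := (ind (fun n => n < N) N fun _ h => h, 0)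

theorem x_incr : Increasing K x := by
  intro i j hij
  refine ⟨fun t => ?_, by simp [x], by simp [x, ind_infty]⟩
  induction t using OnePoint.rec with
  | infty => simp [x, ind_infty]
  | coe n =>
    simp only [x, Prod.fst_sub, ContinuousMap.sub_apply, ind_coe]
    split_ifs <;> first | omega | norm_num

theorem ub (a : ℝ) (h0 : 0 ≤ a) (h1 : a ≤ 1) : IsUB K x (1, a) := by
  intro N
  refine ⟨fun t => ?_, by simpa [x] using h0, by simpa [x, ind_infty] using h1⟩
  induction t using OnePoint.rec with
  | infty => simp [x, ind_infty]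
  | coe n =>
    simp only [x, Prod.fst_sub, ContinuousMap.sub_apply, ind_coe, ContinuousMap.one_apply]
    split_ifs <;> norm_num

theorem minub : IsMinUB K x (1, 1) := by
  refine ⟨ub 1 zero_le_one le_rfl, ?_⟩
  rintro v hv ⟨h1, h2, h3⟩
  have e1 : ∀ n : ℕ, v.1 n = 1 := fun n => by
    have a1 := (hv (n + 1)).1 n
    have a2 := h1 n
    simp [x, ind_coe] at a1 a2
    linarith
  have e2 : v.1 = 1 := by
    apply ContinuousMap.coe_injective
    exact OnePoint.denseRange_coe.equalizer v.1.continuous continuous_const (funext e1)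
  simp [e2] at h2 h3
  exact Prod.ext e2 (le_antisymm h2 h3)

theorem nosup : ¬ ∃ s, IsSup K x s := by
  rintro ⟨s, hs⟩
  have h1 := minub.2 s hs.1 (hs.2 _ minub.1)
  have h2 := (hs.2 _ (ub 0 le_rfl zero_le_one)).2.1
  rw [h1] at h2
  norm_num at h2

theorem sup_of_tendsto {X : Type} [NormedAddCommGroup X] [NormedSpace ℝ X] {K : Set X}
    (hK : IsCone K) {x : ℕ → X} (hx : Increasing K x) {l : X} (hl : Tendsto x atTop (𝓝 l)) :
    IsSup K x l :=
  ⟨fun n => hK.1.mem_of_tendsto (hl.sub_const (x n)) (eventually_atTop.2 ⟨n, fun m => hx n m⟩),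
    fun v hv => hK.1.mem_of_tendsto (hl.const_sub v) (Eventually.of_forall hv)⟩

theorem tendsto_zero {J : Type*} [Preorder J] [IsDirectedOrder J] [Nonempty J] (y : J → ℝ)
    (h0 : ∀ j, 0 ≤ y j) (h1 : Antitone y) (h2 : ∀ δ > 0, ¬ ∀ j, δ ≤ y j) :
    Tendsto y atTop (𝓝 0) := by
  rw [Metric.tendsto_nhds]
  intro δ hδ
  have := h2 δ hδ
  push Not at this
  obtain ⟨j, hj⟩ := this
  refine eventually_atTop.2 ⟨j, fun k hk => ?_⟩
  rw [Real.dist_eq, sub_zero, abs_of_nonneg (h0 k)]
  exact (h1 hk).trans_lt hj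

theorem order_cont {J : Type*} [Preorder J] [IsDirectedOrder J] [Nonempty J] (y : J → E) (s : E)
    (hy : Increasing K y) (hs : IsSup K y s) : Tendsto y atTop (𝓝 s) := by
  have t1 : Tendsto (fun j => s.2 - (y j).2) atTop (𝓝 0) := by
    refine tendsto_zero _ (fun j => (hs.1 j).2.1) (fun i j hij => ?_) fun δ hδ h => ?_
    · have := (hy i j hij).2.1
      simp at this ⊢; linarith
    · have := (hs.2 (s - (0, δ)) fun j => ⟨by simpa using (hs.1 j).1, by
        have := h j; simp; linarith, by have := (hs.1 j).2.2; simp at this ⊢; linarith⟩).2.1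
      simp at this; linarith
  have t2 : Tendsto (fun j => (s.1 OnePoint.infty - (y j).1 OnePoint.infty) - (s.2 - (y j).2))
      atTop (𝓝 0) := by
    refine tendsto_zero _ (fun j => sub_nonneg.2 (hs.1 j).2.2) (fun i j hij => ?_) fun δ hδ h => ?_
    · have := (hy i j hij).2.2
      simp at this ⊢; linarith
    · have := (hs.2 (s + (0, δ)) fun j => ⟨by simpa using (hs.1 j).1, by
        have := (hs.1 j).2.1; simp at this ⊢; linarith, by have := h j; simp; linarith⟩).2.2
      simp at this; linarith
  have t3 : ∀ t, Tendsto (fun j => s.1 t - (y j).1 t) atTop (𝓝 0) := by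
    intro t
    induction t using OnePoint.rec with
    | infty => simpa using t2.add t1
    | coe n =>
      refine tendsto_zero _ (fun j => (hs.1 j).1 n) (fun i j hij => ?_) fun δ hδ h => ?_
      · have := (hy i j hij).1 n
        simp at this ⊢; linarith
      · have := (hs.2 (s - (δ • ind (fun m => m = n) (n + 1) (fun _ h => by omega), 0))
          fun j => ⟨fun t => ?_, by simpa using (hs.1 j).2.1, by
            simpa [ind_infty] using (hs.1 j).2.2⟩).1 n
        · simp [ind_coe] at this; linarith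
        · induction t using OnePoint.rec with
          | infty => simpa [ind_infty] using (hs.1 j).1 OnePoint.infty
          | coe m =>
            by_cases hm : m = n
            · have := h j
              simp [ind_coe, hm]; linarith
            · simpa [ind_coe, hm] using (hs.1 j).1 m
  have t4 : Tendsto (fun j => (y j).1) atTop (𝓝 s.1) := by
    apply ContinuousMap.tendsto_of_monotone_of_pointwise
    · intro i j hij t
      simpa using (hy i j hij).1 t
    · intro t
      simpa using (t3 t).const_sub (s.1 t)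
  have t5 : Tendsto (fun j => (y j).2) atTop (𝓝 s.2) := by simpa using t1.const_sub s.2
  exact t4.prodMk_nhds t5

end Pool.Agent.H95.ConeEx
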