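import Mathlib

set_option autoImplicit false
open Filter Topology
open scoped BoundedContinuousFunction

namespace Pool.Agent.H95.ConvCyc

/-- existence of an approximate eigenvalue -/
theorem approx_eig {W : Type} [NormedAddCommGroup W] [NormedSpace ℂ W] [CompleteSpace W]
    [Nontrivial W] (B : W →L[ℂ] W) :
    ∃ l : ℂ, ∀ ε > 0, ∃ w : W, ‖w‖ = 1 ∧ ‖B w - l • w‖ < ε := by
  obtain ⟨l, hl, hmax⟩ := (spectrum.isCompact (𝕜 := ℂ) B).exists_isMaxOn (spectrum.nonempty B)
    Complex.continuous_re.continuousOn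
  refine ⟨l, fun ε hε => ?_⟩
  set δ : ℝ := ε / 3 with hδ
  have hδ0 : 0 < δ := by positivity
  have h1 : l + δ ∉ spectrum ℂ B := fun h => by
    have := hmax h
    simp at this
    linarith
  rw [spectrum.notMem_iff] at h1
  obtain ⟨u, hu⟩ := h1
  have h2 : 1 / (2 * δ) < ‖(↑u⁻¹ : W →L[ℂ] W)‖ := by
    by_contra h
    push Not at h
    apply hl
    have h3 : ‖(δ : ℂ) • (↑u⁻¹ : W →L[ℂ] W)‖ < 1 := by
      rw [norm_smul, Complex.norm_real, Real.norm_of_nonneg hδ0.le]
      calc δ * _ ≤ δ * (1 / (2 * δ)) := by gcongr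
        _ = 1 / 2 := by field_simp
        _ < 1 := by norm_num
    have h4 := u.isUnit.mul (Units.oneSub _ h3).isUnit
    rw [Units.val_oneSub, mul_sub, mul_one, mul_smul_comm, Units.mul_inv, hu] at h4
    rw [spectrum.mem_resolventSet_iff]
    convert h4 using 1
    rw [map_add, Algebra.algebraMap_eq_smul_one (δ : ℂ)]
    abel
  obtain ⟨w, hw1, hw2⟩ := ContinuousLinearMap.exists_lt_apply_of_lt_opNorm _ h2
  set v := (↑u⁻¹ : W →L[ℂ] W) w with hv
  have hv0 : 0 < ‖v‖ := lt_trans (by positivity) hw2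
  have h5 : (l + δ) • v - B v = w := by
    have : (↑u : W →L[ℂ] W) v = w := by
      rw [hv, ← mul_apply_eq_comp, Units.mul_inv]; rfl
    rw [hu] at this
    simpa [Algebra.algebraMap_eq_smul_one] using this
  refine ⟨((‖v‖⁻¹ : ℝ) : ℂ) • v, by simp [norm_smul, hv0.ne'], ?_⟩
  have h6 : B (((‖v‖⁻¹ : ℝ) : ℂ) • v) - l • ((‖v‖⁻¹ : ℝ) : ℂ) • v =
      ((‖v‖⁻¹ : ℝ) : ℂ) • ((δ : ℂ) • v - w) := by
    rw [← h5, map_smul, smul_comm l, ← smul_sub, add_smul]
    congr 1; abel
  rw [h6, norm_smul, Complex.norm_real, Real.norm_of_nonneg (by positivity),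
    inv_mul_lt_iff₀ hv0]
  have h7 := norm_sub_le ((δ : ℂ) • v) w
  rw [norm_smul, Complex.norm_real, Real.norm_of_nonneg hδ0.le] at h7
  rw [div_lt_iff₀ (by positivity)] at hw2
  nlinarith

variable {X : Type} [NormedAddCommGroup X] [NormedSpace ℂ X]

theorem near (O : Set X) (hO : IsOpen O) (w z : X) (hw : w ∈ O) :
    ∃ δ > 0, ∀ σ : ℝ, |σ| < δ → w + σ • z ∈ O := by
  have : Continuous fun σ : ℝ => w + σ • z := by fun_prop
  have h := (hO.preimage this).mem_nhds (x := 0) (by simpa using hw)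
  obtain ⟨δ, hδ, h1⟩ := Metric.mem_nhds_iff.1 h
  exact ⟨δ, hδ, fun σ hσ => h1 (by simpa using hσ)⟩

/-- Krein's theorem for a cone with an interior point -/
theorem krein (Q : Set X) (hc : IsClosed Q) (hadd : ∀ a ∈ Q, ∀ b ∈ Q, a + b ∈ Q)
    (hsm : ∀ c : ℝ, 0 ≤ c → ∀ a ∈ Q, c • a ∈ Q) (hne : (interior Q).Nonempty)
    (h0 : (0 : X) ∉ interior Q) (T : X →L[ℂ] X) (hT : ∀ a ∈ Q, T a ∈ Q) :
    ∃ (c : ℂ) (φ : X →L[ℂ] ℂ), φ.comp T = c • φ ∧ φ ≠ 0 := by
  have Oadd : ∀ a ∈ interior Q, ∀ b ∈ Q, a + b ∈ interior Q := by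
    intro a ha b hb
    have h1 : IsOpen ((fun y => y + b) '' interior Q) :=
      (isOpenMap_add_right b) _ isOpen_interior
    refine interior_maximal ?_ h1 ⟨a, ha, rfl⟩
    rintro _ ⟨y, hy, rfl⟩
    exact hadd _ (interior_subset hy) _ hb
  have Osm : ∀ c : ℝ, 0 < c → ∀ a ∈ interior Q, c • a ∈ interior Q := by
    intro c hc a ha
    have h1 : IsOpen ((fun y : X => c • y) '' interior Q) :=
      (isOpenMap_smul₀ hc.ne') _ isOpen_interior
    refine interior_maximal ?_ h1 ⟨a, ha, rfl⟩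
    rintro _ ⟨y, hy, rfl⟩
    exact hsm c hc.le _ (interior_subset hy)
  have Tsm : ∀ (c : ℝ) (a : X), T (c • a) = c • T a := fun c a => T.map_smul_of_tower c a
  let S : Set ℝ := {s | ∃ y ∈ interior Q, s • y - T y ∈ Q}
  have S1 : S.Nonempty := by
    obtain ⟨y, hy⟩ := hne
    obtain ⟨δ, hδ, h⟩ := near _ isOpen_interior y (T y) hy
    refine ⟨2 / δ, y, hy, ?_⟩
    have := hsm (2 / δ) (by positivity) _ (interior_subset (h (-(δ / 2)) (by
      rw [abs_neg, abs_of_pos (by positivity)]; linarith)))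
    rw [smul_add, smul_smul, show 2 / δ * -(δ / 2) = -1 by field_simp, neg_one_smul,
      ← sub_eq_add_neg] at this
    exact this
  have S2 : ∀ s ∈ S, 0 ≤ s := by
    rintro s ⟨y, hy, h⟩
    by_contra hs
    push Not at hs
    have := Oadd _ (Osm (-s) (by linarith) y hy) _ (hadd _ h _ (hT y (interior_subset hy)))
    simp at this
    exact h0 this
  set t := sInf S with ht
  let R : Submodule ℂ X := LinearMap.range (((t : ℂ) • (1 : X →L[ℂ] X) - T : X →L[ℂ] X) : X →ₗ[ℂ] X)
  have hdis : Disjoint (interior Q) (R : Set X) := by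
    rw [Set.disjoint_left]
    rintro w hw ⟨z, hz⟩
    have hz' : t • z - T z = w := by simpa using hz
    obtain ⟨δ, hδ, h⟩ := near _ isOpen_interior w z hw
    obtain ⟨s, ⟨y, hy, hs⟩, hs2⟩ := exists_lt_of_csInf_lt S1 (show sInf S < t + δ by linarith)
    have hs1 : t ≤ s := csInf_le ⟨0, S2⟩ ⟨y, hy, hs⟩
    have hs0 : 0 ≤ s := S2 s ⟨y, hy, hs⟩
    let A : Set ℝ := {α | 0 ≤ α ∧ z + α • y ∈ Q}
    have A1 : IsClosed A := isClosed_Ici.inter (hc.preimage (by fun_prop))
    have A2 : A.Nonempty := by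
      obtain ⟨η, hη, h⟩ := near _ isOpen_interior y z hy
      refine ⟨2 / η, by positivity, ?_⟩
      have := hsm (2 / η) (by positivity) _ (interior_subset (h (η / 2) (by
        rw [abs_of_pos (by positivity)]; linarith)))
      rw [smul_add, smul_smul, show 2 / η * (η / 2) = 1 by field_simp, one_smul, add_comm] at this
      exact this
    have A3 : BddBelow A := ⟨0, fun α h => h.1⟩
    obtain ⟨hα0, hα⟩ := A1.csInf_mem A2 A3
    set α := sInf A with hαd
    have h1 : s • (z + α • y) ∈ interior Q := by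
      have := Oadd _ (h (s - t) (by rw [abs_of_nonneg (by linarith)]; linarith)) _
        (hadd _ (hT _ hα) _ (hsm α hα0 _ hs))
      convert this using 1
      rw [← hz', map_add, Tsm, smul_sub, smul_add, sub_smul, smul_comm α s]
      abel
    have hs3 : 0 < s := lt_of_le_of_ne hs0 (by
      rintro rfl
      rw [zero_smul] at h1
      exact h0 h1)
    have h2 : z + α • y ∈ interior Q := by
      have := Osm s⁻¹ (inv_pos.2 hs3) _ h1
      rwa [smul_smul, inv_mul_cancel₀ hs3.ne', one_smul] at this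
    have h3 : α = 0 := by
      by_contra hne
      have hpos : 0 < α := lt_of_le_of_ne hα0 (Ne.symm hne)
      obtain ⟨η, hη, h4⟩ := near _ isOpen_interior _ y h2
      have h5 : 0 < min α (η / 2) := by positivity
      have h6 : α - min α (η / 2) ∈ A := by
        refine ⟨sub_nonneg.2 (min_le_left _ _), ?_⟩
        have := interior_subset (h4 (-min α (η / 2)) (by
          rw [abs_neg, abs_of_pos h5]; exact (min_le_right _ _).trans_lt (by linarith)))
        convert this using 1
        rw [sub_smul, neg_smul]; abel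
      have := csInf_le A3 h6
      linarith
    rw [h3, zero_smul, add_zero] at h2
    have h4 : t - δ / 2 ∈ S := ⟨z, h2, by
      have := interior_subset (h (-(δ / 2)) (by rw [abs_neg, abs_of_pos (by positivity)]; linarith))
      convert this using 1
      rw [← hz', sub_smul, neg_smul]; abel⟩
    have := csInf_le ⟨0, S2⟩ h4
    linarith
  have hconv : Convex ℝ Q := fun a ha b hb c d hc hd _ => hadd _ (hsm c hc a ha) _ (hsm d hd b hb)
  obtain ⟨f, u, hf0, -, hf⟩ := RCLike.geometric_hahn_banach_of_nonempty_interior (𝕜 := ℂ) hconv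
    (R.restrictScalars ℝ).convex hdis hne ⟨0, R.zero_mem⟩
  refine ⟨t, f, ?_, hf0⟩
  ext z
  have hz : (t : ℂ) • z - T z ∈ R := ⟨z, by simp⟩
  have : f ((t : ℂ) • z - T z) = 0 := by
    by_contra hne
    have := hf _ (R.smul_mem (((u - 1 : ℝ) : ℂ) / f ((t : ℂ) • z - T z)) hz)
    rw [map_smul, smul_eq_mul, div_mul_cancel₀ _ hne] at this
    simp at this
    linarith
  rw [map_sub, map_smul, sub_eq_zero] at this
  simp [← this]

theorem main (X : Type) [NormedAddCommGroup X] [NormedSpace ℂ X] [CompleteSpace X]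
    (T : X →L[ℂ] X) (hT : ∀ (c : ℂ) (φ : X →L[ℂ] ℂ), φ.comp T = c • φ → φ = 0) (x : X)
    (hint : (interior (closure (convexHull ℝ (Set.range (fun n : ℕ => (T ^ n) x))))).Nonempty) :
    closure (convexHull ℝ (Set.range (fun n : ℕ => (T ^ n) x))) = Set.univ := by
  set K := closure (convexHull ℝ (Set.range (fun n : ℕ => (T ^ n) x))) with hK
  have Kc : Convex ℝ K := (convex_convexHull ℝ _).closure
  have Kmin : ∀ C : Set X, IsClosed C → Convex ℝ C → (∀ n : ℕ, (T ^ n) x ∈ C) → K ⊆ C :=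
    fun C h1 h2 h3 => closure_minimal (convexHull_min (Set.range_subset_iff.2 h3) h2) h1
  have Ko : ∀ n : ℕ, (T ^ n) x ∈ K := fun n => subset_closure (subset_convexHull _ _ ⟨n, rfl⟩)
  have KT : ∀ y ∈ K, T y ∈ K := Kmin (T ⁻¹' K) (isClosed_closure.preimage T.continuous)
    (Kc.is_linear_preimage (T.restrictScalars ℝ).isLinear) fun n => by
      have := Ko (n + 1)
      rwa [pow_succ'] at this
  have KTn : ∀ (n : ℕ), ∀ y ∈ K, (T ^ n) y ∈ K := fun n y hy => by
    induction n with
    | zero => exact hy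
    | succ n ih => rw [pow_succ']; exact KT _ ih
  have h0 : (0 : X) ∈ interior K := by
    by_contra h0
    obtain ⟨g, hg0, hg⟩ := geometric_hahn_banach_of_nonempty_interior_point Kc h0 hint
    rw [map_zero] at hg
    let Q : Set X := {y | ∀ g : X →L[ℝ] ℝ, (∀ a ∈ K, g a ≤ 0) → g y ≤ 0}
    obtain ⟨c, φ, h1, h2⟩ := krein Q (by
        simp only [Q, Set.setOf_forall]
        exact isClosed_iInter fun g => isClosed_iInter fun _ =>
          isClosed_le g.continuous continuous_const)
      (fun a ha b hb g h => by rw [map_add]; linarith [ha g h, hb g h])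
      (fun c hc a ha g h => by
        rw [map_smul]; exact mul_nonpos_of_nonneg_of_nonpos hc (ha g h))
      (hint.mono (interior_mono fun y hy g h => h y hy))
      (fun h => hg0 (by
        ext z
        obtain ⟨δ, hδ, h3⟩ := near _ isOpen_interior 0 z h
        have a1 := interior_subset (h3 (δ / 2) (by rw [abs_of_pos (by positivity)]; linarith)) g hg
        have a2 := interior_subset (h3 (-(δ / 2)) (by
          rw [abs_neg, abs_of_pos (by positivity)]; linarith)) g hg
        simp only [zero_add, map_smul, smul_eq_mul] at a1 a2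
        change g z = 0
        nlinarith))
      T (fun a ha g h => ha (g.comp (T.restrictScalars ℝ)) fun b hb => h _ (KT b hb))
    exact h2 (hT c φ h1)
  obtain ⟨r, hr, hball⟩ := Metric.mem_nhds_iff.1 (mem_interior_iff_mem_nhds.1 h0)
  have hbd : ∀ (f : X →L[ℂ] ℂ) (N : ℝ), (∀ n : ℕ, ‖f ((T ^ n) x)‖ ≤ N) → ‖f‖ ≤ 2 * N / r := by
    intro f N hN
    have hN0 : 0 ≤ N := (norm_nonneg _).trans (hN 0)
    have h1 := Kmin (f ⁻¹' Metric.closedBall 0 N) (Metric.isClosed_closedBall.preimage f.continuous)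
      ((convex_closedBall 0 N).is_linear_preimage (f.restrictScalars ℝ).isLinear)
      fun n => by simpa using hN n
    refine ContinuousLinearMap.opNorm_le_of_unit_norm (by positivity) fun y hy => ?_
    have h2 := h1 (hball (show ((r / 2 : ℝ) : ℂ) • y ∈ Metric.ball 0 r by
      rw [mem_ball_zero_iff, norm_smul, hy, Complex.norm_real, Real.norm_of_nonneg (by positivity)]
      linarith))
    rw [Set.mem_preimage, mem_closedBall_zero_iff, map_smul, norm_smul, Complex.norm_real,
      Real.norm_of_nonneg (by positivity)] at h2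
    rw [le_div_iff₀ hr]
    linarith
  by_contra hne
  obtain ⟨p, hp⟩ := (Set.ne_univ_iff_exists_notMem K).1 hne
  obtain ⟨f0, u, hf1, hf2⟩ := RCLike.geometric_hahn_banach_closed_point (𝕜 := ℂ) Kc
    isClosed_closure hp
  have hu : 0 < u := by simpa using hf1 0 (interior_subset h0)
  have hf0 : ∀ n : ℕ, ‖f0 ((T ^ n) x)‖ ≤ u * (2 * (‖x‖ + 1) / r) := by
    intro n
    obtain ⟨c, hc1, hc2⟩ := Complex.exists_norm_eq_mul_self (f0 ((T ^ n) x))
    have hx : 0 < ‖x‖ + 1 := by positivity
    have h1 := hf1 _ (KTn n _ (hball (show (((r / (2 * (‖x‖ + 1)) : ℝ) : ℂ) * c) • x ∈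
        Metric.ball 0 r by
      rw [mem_ball_zero_iff, norm_smul, norm_mul, hc1, mul_one, Complex.norm_real,
        Real.norm_of_nonneg (by positivity), div_mul_eq_mul_div, div_lt_iff₀ (by positivity)]
      nlinarith [norm_nonneg x])))
    rw [map_smul, map_smul, smul_eq_mul, mul_assoc, ← hc2, ← Complex.ofReal_mul] at h1
    simp only [RCLike.re_to_complex, Complex.ofReal_re] at h1
    rw [div_mul_eq_mul_div, div_lt_iff₀ (by positivity)] at h1
    rw [← mul_div_assoc, le_div_iff₀ hr]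
    linarith
  let W : Submodule ℂ (ℕ →ᵇ ℂ) :=
    { carrier := {a | ∃ f : X →L[ℂ] ℂ, ∀ n, a n = f ((T ^ n) x)}
      add_mem' := by
        rintro a b ⟨f, hf⟩ ⟨g, hg⟩
        exact ⟨f + g, fun n => by simp [hf, hg]⟩
      zero_mem' := ⟨0, fun n => by simp⟩
      smul_mem' := by
        rintro c a ⟨f, hf⟩
        exact ⟨c • f, fun n => by simp [hf]⟩ }
  have hWc : IsClosed (W : Set (ℕ →ᵇ ℂ)) := by
    apply IsSeqClosed.isClosed
    intro a b ha hab
    choose f hf using ha
    have hcau : CauchySeq f := by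
      rw [Metric.cauchySeq_iff]
      intro ε hε
      obtain ⟨N, hN⟩ := Metric.cauchySeq_iff.1 hab.cauchySeq (ε * r / 2) (by positivity)
      refine ⟨N, fun m hm n hn => ?_⟩
      rw [dist_eq_norm]
      refine (hbd _ (dist (a m) (a n)) fun k => ?_).trans_lt ?_
      · rw [ContinuousLinearMap.sub_apply, ← hf, ← hf, ← dist_eq_norm]
        exact BoundedContinuousFunction.dist_coe_le_dist k
      · rw [div_lt_iff₀ hr]; linarith [hN m hm n hn]
    obtain ⟨g, hg⟩ := cauchySeq_tendsto_of_complete hcau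
    refine ⟨g, fun n => tendsto_nhds_unique
      (((by fun_prop : Continuous fun a : ℕ →ᵇ ℂ => a n).tendsto b).comp hab) ?_⟩
    have := ((ContinuousLinearMap.apply ℂ ℂ ((T ^ n) x)).continuous.tendsto g).comp hg
    exact this.congr fun k => (hf k n).symm
  haveI : CompleteSpace W := hWc.completeSpace_coe
  haveI : Nontrivial W := by
    refine ⟨⟨⟨BoundedContinuousFunction.ofNormedAddCommGroupDiscrete
      (fun n => f0 ((T ^ n) x)) _ hf0, f0, fun n => rfl⟩, 0, fun h => ?_⟩⟩
    have h1 : ∀ n : ℕ, ‖f0 ((T ^ n) x)‖ ≤ 0 := fun n => by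
      have := congrArg (fun w : W => w.1 n) h
      exact (norm_eq_zero.2 this).le
    have h2 := hbd f0 0 h1
    rw [mul_zero, zero_div, norm_le_zero_iff] at h2
    rw [h2] at hf2
    simp at hf2
    linarith
  let B0 : (ℕ →ᵇ ℂ) →L[ℂ] (ℕ →ᵇ ℂ) :=
    BoundedContinuousFunction.compContinuousCLM ℂ ℂ ⟨Nat.succ, continuous_of_discreteTopology⟩
  have hB0 : ∀ a n, B0 a n = a (n + 1) := fun a n => rfl
  have hBW : ∀ a ∈ W, B0 a ∈ W := by
    rintro a ⟨f, hf⟩
    exact ⟨f.comp T, fun n => by rw [hB0, hf, pow_succ']; rfl⟩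
  obtain ⟨l, hl⟩ := approx_eig (B0.restrict hBW)
  let Z : ℕ → Set (WeakDual ℂ X) := fun k => {h | (∀ y, ‖h y‖ ≤ 2 * 1 / r * ‖y‖) ∧
    1 / 2 ≤ ‖h x‖ ∧ ∀ y, ‖h (T y) - l * h y‖ ≤ 2 * (1 / ((k : ℝ) + 1)) / r * ‖y‖}
  have Zc : ∀ k, IsClosed (Z k) := fun k => by
    simp only [Z, Set.setOf_and, Set.setOf_forall]
    refine (isClosed_iInter fun y => isClosed_le (WeakDual.eval_continuous y).norm
      continuous_const).inter ((isClosed_le continuous_const
        (WeakDual.eval_continuous x).norm).inter (isClosed_iInter fun y => isClosed_le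
          ((WeakDual.eval_continuous _).sub
            (continuous_const.mul (WeakDual.eval_continuous y))).norm continuous_const))
  obtain ⟨h, hh⟩ := IsCompact.nonempty_iInter_of_sequence_nonempty_isCompact_isClosed Z
    (fun k h hh => ⟨hh.1, hh.2.1, fun y => (hh.2.2 y).trans (by
      gcongr; exact Nat.le_succ k)⟩)
    (fun k => by
      obtain ⟨⟨w, f, hf⟩, hw1, hw2⟩ := hl (1 / ((k : ℝ) + 1)) (by positivity)
      have hw1' : ‖w‖ = 1 := hw1
      have hw2' : ‖B0 w - l • w‖ < 1 / ((k : ℝ) + 1) := hw2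
      obtain ⟨m, hm⟩ : ∃ m, 1 / 2 ≤ ‖w m‖ := by
        by_contra hcon
        push Not at hcon
        have := (BoundedContinuousFunction.norm_le (f := w) (by norm_num)).2 fun m => (hcon m).le
        linarith
      refine ⟨StrongDual.toWeakDual (f.comp (T ^ m)), fun y => ?_, by rwa [hf] at hm, fun y => ?_⟩
      · refine (f.comp (T ^ m)).le_of_opNorm_le (hbd _ 1 fun n => ?_) y
        have := w.norm_coe_le_norm (m + n)
        rwa [hf, hw1', pow_add] at this
      · refine ((f.comp (T ^ m)).comp T - l • f.comp (T ^ m)).le_of_opNorm_le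
          (hbd _ _ fun n => ?_) y
        have := ((B0 w - l • w).norm_coe_le_norm (m + n)).trans hw2'.le
        rw [BoundedContinuousFunction.sub_apply, BoundedContinuousFunction.smul_apply, hB0, hf, hf,
          add_assoc, pow_add T m (n + 1), pow_add T m n, pow_succ' T n] at this
        exact this)
    ((WeakDual.isCompact_closedBall (𝕜 := ℂ) (0 : StrongDual ℂ X) (2 * 1 / r)).of_isClosed_subset
      (Zc 0) fun h hh => by
        rw [Set.mem_preimage, mem_closedBall_zero_iff]
        exact ContinuousLinearMap.opNorm_le_bound _ (by positivity) hh.1)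
    Zc
  rw [Set.mem_iInter] at hh
  have h1 := hT l (WeakDual.toStrongDual h) (by
    ext y
    have h2 : Tendsto (fun k : ℕ => 2 * (1 / ((k : ℝ) + 1)) / r * ‖y‖) atTop
        (𝓝 (2 * 0 / r * ‖y‖)) :=
      ((tendsto_one_div_add_atTop_nhds_zero_nat.const_mul 2).div_const r).mul_const _
    have h3 := ge_of_tendsto' h2 fun k => (hh k).2.2 y
    simp only [mul_zero, zero_div, zero_mul, norm_le_zero_iff, sub_eq_zero] at h3
    exact h3)
  have h2 := (hh 0).2.1
  have h3 : h x = 0 := congrArg (fun f : StrongDual ℂ X => f x) h1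
  rw [h3] at h2
  norm_num at h2

end Pool.Agent.H95.ConvCyc
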