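import Pool.Agent.H95.CorrDefs

set_option autoImplicit false

namespace Pool.Agent.H95.Corr

variable {n : ℕ}

lemma sum_cen (hn : 0 < n) (x : Fin n → ℝ) : ∑ k, cen x k = 0 := by
  have : (n : ℝ) ≠ 0 := by positivity
  simp only [cen, Finset.sum_sub_distrib, Finset.sum_const, Finset.card_univ, Fintype.card_fin,
    nsmul_eq_mul]
  field_simp
  ring

lemma ss_pos {x : Fin n → ℝ} {i j : Fin n} (h : x j < x i) : 0 < ∑ k, cen x k ^ 2 := by
  by_contra hc
  have h0 := (Finset.sum_eq_zero_iff_of_nonneg fun k _ => sq_nonneg (cen x k)).1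
    (le_antisymm (not_lt.1 hc) (Finset.sum_nonneg fun k _ => sq_nonneg _))
  have a := pow_eq_zero_iff (two_ne_zero) |>.1 (h0 i (Finset.mem_univ _))
  have b := pow_eq_zero_iff (two_ne_zero) |>.1 (h0 j (Finset.mem_univ _))
  unfold cen at a b
  linarith

noncomputable def nv (x : Fin n → ℝ) (k : Fin n) : ℝ := cen x k / √(∑ k, cen x k ^ 2)

lemma nv_sq {x : Fin n → ℝ} (h : 0 < ∑ k, cen x k ^ 2) : ∑ k, nv x k ^ 2 = 1 := by
  simp only [nv, div_pow, Real.sq_sqrt h.le, ← Finset.sum_div]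
  exact div_self h.ne'

lemma corr_eq {x y : Fin n → ℝ} (hx : 0 < ∑ k, cen x k ^ 2) (hy : 0 < ∑ k, cen y k ^ 2) :
    corr x y = 1 - (∑ k, (nv x k - nv y k) ^ 2) / 2 := by
  have e : corr x y = ∑ k, nv x k * nv y k := by
    simp only [corr, nv, div_mul_div_comm, ← Finset.sum_div, Real.sqrt_mul hx.le]
  have e2 : ∑ k, (nv x k - nv y k) ^ 2 =
      ∑ k, nv x k ^ 2 + ∑ k, nv y k ^ 2 - 2 * ∑ k, nv x k * nv y k := by
    rw [Finset.mul_sum, ← Finset.sum_add_distrib, ← Finset.sum_sub_distrib]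
    exact Finset.sum_congr rfl fun k _ => by ring
  rw [e2, nv_sq hx, nv_sq hy, e]
  ring

lemma min_bd (u : Fin n → ℝ) (h0 : ∑ k, u k = 0) (h1 : ∑ k, u k ^ 2 = 1) (j : Fin n)
    (hj : ∀ k, u j ≤ u k) : u j ≤ 0 ∧ 1 ≤ (n : ℝ) ^ 3 * u j ^ 2 := by
  have hn : (1 : ℝ) ≤ n := by exact_mod_cast j.pos
  have s : ∑ k, (u k - u j) = -(n * u j) := by
    simp [Finset.sum_sub_distrib, h0]
  have b : ∀ k, u k - u j ≤ -(n * u j) := fun k => s ▸
    Finset.single_le_sum (f := fun k => u k - u j) (fun k _ => sub_nonneg.2 (hj k))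
      (Finset.mem_univ k)
  have u0 : u j ≤ 0 := by
    have := b j
    nlinarith
  refine ⟨u0, ?_⟩
  have c : ∀ k, u k ^ 2 ≤ (n * u j) ^ 2 := fun k => by
    have := b k
    have := hj k
    have := mul_le_mul_of_nonpos_right hn u0
    rw [← neg_sq (n * u j)]
    apply sq_le_sq'
    · linarith
    · linarith
  have := Finset.sum_le_sum fun k (_ : k ∈ Finset.univ) => c k
  rw [h1] at this
  simp only [Finset.sum_const, Finset.card_univ, Fintype.card_fin, nsmul_eq_mul] at this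
  linarith

def Good (A : Matrix (Fin n) (Fin n) ℝ) : Prop :=
  (∀ i j, A i j ≤ A i i) ∧ ∀ i, ∃ j, A i j < A i i

lemma step {A : Matrix (Fin n) (Fin n) ℝ} (h : Good A) :
    (∀ i, C A i i = 1) ∧ (∀ i j, C A i j ≤ 1) ∧
      ∀ i, ∃ j, C A i j ≤ 1 - 1 / (2 * (n : ℝ) ^ 3) := by
  have p : ∀ i, 0 < ∑ k, cen (A i) k ^ 2 := fun i => by
    obtain ⟨j, hj⟩ := h.2 i
    exact ss_pos hj
  refine ⟨fun i => ?_, fun i j => ?_, fun i => ?_⟩
  · change corr _ _ = 1
    rw [corr_eq (p i) (p i)]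
    simp
  · change corr _ _ ≤ 1
    rw [corr_eq (p i) (p j)]
    have : 0 ≤ ∑ k, (nv (A i) k - nv (A j) k) ^ 2 := Finset.sum_nonneg fun k _ => sq_nonneg _
    linarith
  · have hn : (0 : ℝ) < n := by exact_mod_cast i.pos
    obtain ⟨j, -, hj⟩ := Finset.exists_min_image Finset.univ (nv (A i)) ⟨i, Finset.mem_univ _⟩
    have s0 : ∑ k, nv (A i) k = 0 := by
      simp only [nv, ← Finset.sum_div, sum_cen i.pos, zero_div]
    obtain ⟨m1, m2⟩ := min_bd _ s0 (nv_sq (p i)) j fun k => hj k (Finset.mem_univ _)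
    have w : 0 ≤ nv (A j) j := by
      refine div_nonneg ?_ (Real.sqrt_nonneg _)
      rw [cen, sub_nonneg, div_le_iff₀ hn]
      have := Finset.sum_le_sum fun k (_ : k ∈ Finset.univ) => h.1 j k
      simpa [mul_comm] using this
    refine ⟨j, ?_⟩
    change corr _ _ ≤ _
    rw [corr_eq (p i) (p j)]
    have a := Finset.single_le_sum (f := fun k => (nv (A i) k - nv (A j) k) ^ 2)
      (fun k _ => sq_nonneg _) (Finset.mem_univ j)
    have b : 1 / (n : ℝ) ^ 3 ≤ nv (A i) j ^ 2 := by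
      rw [div_le_iff₀ (by positivity)]; linarith
    have c : 1 / (2 * (n : ℝ) ^ 3) = 1 / (n : ℝ) ^ 3 / 2 := by field_simp
    rw [c]
    nlinarith

lemma Good.C {A : Matrix (Fin n) (Fin n) ℝ} (h : Good A) : Good (C A) := by
  obtain ⟨h1, h2, h3⟩ := step h
  refine ⟨fun i j => by rw [h1]; exact h2 i j, fun i => ?_⟩
  obtain ⟨j, hj⟩ := h3 i
  have hn : (0 : ℝ) < n := by exact_mod_cast i.pos
  have : 0 < 1 / (2 * (n : ℝ) ^ 3) := by positivity
  exact ⟨j, by rw [h1]; linarith⟩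

lemma good_of {A : Matrix (Fin n) (Fin n) ℝ} (hp : A.PosSemidef) (hd : ∀ i, A i i = 1)
    (hne : A ≠ Matrix.of fun _ _ => 1) : Good A := by
  have sy : ∀ i j, A j i = A i j := fun i j => by simpa using hp.1.apply i j
  have q : ∀ (a b c : ℝ) (i j k : Fin n), 0 ≤ a ^ 2 + b ^ 2 + c ^ 2 + 2 * a * b * A i j +
      2 * a * c * A i k + 2 * b * c * A j k := by
    intro a b c i j k
    have := hp.dotProduct_mulVec_nonneg (Pi.single i a + Pi.single j b + Pi.single k c)
    simp only [star_trivial, Matrix.mulVec_add, add_dotProduct, dotProduct_add, single_dotProduct,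
      Matrix.mulVec_single, Pi.smul_apply, Matrix.col_apply, MulOpposite.smul_eq_mul_unop,
      MulOpposite.unop_op, hd, sy i j, sy i k, sy j k] at this
    linarith
  have le : ∀ i j, A i j ≤ 1 := fun i j => by
    have := q 1 (-1) 0 i j j
    linarith
  refine ⟨fun i j => by rw [hd]; exact le i j, fun i => ?_⟩
  by_contra hc
  push Not at hc
  apply hne
  ext j k
  have a := hc j
  have b := hc k
  rw [hd] at a b
  have := q (-2) 1 1 i j k
  have := le j k
  simp only [Matrix.of_apply]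
  linarith

theorem main {A : Matrix (Fin n) (Fin n) ℝ} (hp : A.PosSemidef) (hd : ∀ i, A i i = 1)
    (hne : A ≠ Matrix.of fun _ _ => 1) (k : ℕ) (i : Fin n) :
    ∃ j, C^[k + 1] A i j ≤ 1 - 1 / (2 * (n : ℝ) ^ 3) := by
  have g : ∀ k, Good (C^[k] A) := by
    intro k
    induction k with
    | zero => exact good_of hp hd hne
    | succ k ih => rw [Function.iterate_succ_apply']; exact ih.C
  rw [Function.iterate_succ_apply']
  exact (step (g k)).2.2 i

end Pool.Agent.H95.Corr
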