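import Mathlib

set_option autoImplicit false

namespace Pool.Agent.H95.Corr

/-- The centred vector `x - mean x`. -/
noncomputable def cen {n : ℕ} (x : Fin n → ℝ) (k : Fin n) : ℝ := x k - (∑ j, x j) / n

/-- Pearson correlation. -/
noncomputable def corr {n : ℕ} (x y : Fin n → ℝ) : ℝ :=
  (∑ k, cen x k * cen y k) / √((∑ k, cen x k ^ 2) * ∑ k, cen y k ^ 2)

/-- The correlation map. -/
noncomputable def C {n : ℕ} (A : Matrix (Fin n) (Fin n) ℝ) : Matrix (Fin n) (Fin n) ℝ :=
  Matrix.of fun i j => corr (A i) (A j)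

end Pool.Agent.H95.Corr
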