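import Pool.Agent.H95.CostDefs

namespace Pool.Agent.H95.Cost
open Filter Topology Set MeasureTheory NormedSpace Polynomial Finset

section alg
variable {R : Type} [NormedRing R] [NormedAlgebra ℂ R] [CompleteSpace R]

noncomputable def T (L : R) (t : ℝ) : R := exp ((t : ℂ) • L)

theorem T_der (L : R) (t : ℝ) : HasDerivAt (T L) (T L t * L) t := by
  have := (hasDerivAt_exp_smul_const (𝕂 := ℂ) L (t : ℂ)).scomp t Complex.ofRealCLM.hasDerivAt
  exact this.congr_deriv (one_smul _ _)

theorem T_cont (L : R) : Continuous (T L) := continuous_iff_continuousAt.2 fun t => (T_der L t).continuousAt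

theorem decay (L : R) {γ : ℝ} (hγ : 0 < γ) (s : Multiset ℂ) (hs : ∀ r ∈ s, r.re ≤ -γ) (b : R)
    (h : aeval L (s.map fun r => X - C r).prod * b = 0) :
    ∃ c, ∀ t ≥ 0, ‖T L t * b‖ ≤ c * Real.exp (-(γ / 2) * t) := by
  induction s using Multiset.induction_on generalizing b with
  | empty => exact ⟨0, fun t _ => by simp at h; simp [h]⟩
  | cons r s ih =>
    obtain ⟨c, hc⟩ := ih (fun x hx => hs x (Multiset.mem_cons_of_mem hx)) ((L - r • 1) * b) (by
      rw [Multiset.map_cons, Multiset.prod_cons, mul_comm (X - C r), map_mul, mul_assoc] at h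
      simpa [Algebra.algebraMap_eq_smul_one] using h)
    have hr := hs r (Multiset.mem_cons_self _ _)
    have c0 : 0 ≤ c := by simpa using (norm_nonneg _).trans (hc 0 le_rfl)
    set κ := -r.re - γ / 2 with hκ
    have k0 : 0 < κ := by linarith
    have ne : ∀ t : ℝ, ‖Complex.exp (-r * t)‖ = Real.exp (-r.re * t) := fun t => by
      simp [Complex.norm_exp]
    have du : ∀ t : ℝ, HasDerivAt (fun t : ℝ => Complex.exp (-r * t) • (T L t * b))
        (Complex.exp (-r * t) • (T L t * ((L - r • 1) * b))) t := fun t => by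
      have a := ((Complex.ofRealCLM.hasDerivAt (x := t)).const_mul (-r)).cexp
      refine (a.smul ((T_der L t).mul_const b)).congr_deriv ?_
      simp [add_mul, mul_add, mul_smul, mul_assoc, sub_eq_add_neg]
    refine ⟨‖b‖ + c / κ, fun t ht => ?_⟩
    have := image_norm_le_of_norm_deriv_right_le_deriv_boundary (a := 0) (b := t)
      (fun x _ => (du x).continuousAt.continuousWithinAt) (fun x _ => (du x).hasDerivWithinAt)
      (B := fun x => ‖b‖ + c / κ * Real.exp (κ * x)) (B' := fun x => c * Real.exp (κ * x))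
      (by simp [T]; positivity)
      (fun x => (((((hasDerivAt_id x).const_mul κ).exp).const_mul _).const_add _).congr_deriv
        (by simp only [id]; field_simp))
      (fun x hx => by
        rw [norm_smul, ne]
        refine (mul_le_mul_of_nonneg_left (hc x hx.1) (Real.exp_pos _).le).trans_eq ?_
        rw [mul_left_comm, ← Real.exp_add]; congr 2; ring) ⟨ht, le_rfl⟩
    rw [norm_smul, ne] at this
    have e : Real.exp (-r.re * t) = Real.exp (κ * t) / Real.exp (-(γ / 2) * t) := by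
      rw [← Real.exp_sub]; congr 1; ring
    have e1 : 1 ≤ Real.exp (κ * t) := Real.one_le_exp (by positivity)
    rw [e, div_mul_eq_mul_div, div_le_iff₀ (Real.exp_pos _)] at this
    refine le_of_mul_le_mul_left (this.trans ?_) (Real.exp_pos (κ * t))
    have := mul_le_mul_of_nonneg_left e1 (mul_nonneg (norm_nonneg b) (Real.exp_pos (-(γ / 2) * t)).le)
    linarith

noncomputable def D (L : R) (p : ℂ[X]) (s : ℂ) : R :=
  ∑ k ∈ range (p.natDegree + 1), ∑ i ∈ range k, s ^ i • p.coeff k • L ^ (k - 1 - i)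

omit [CompleteSpace R] in
theorem D_mul (L : R) {p : ℂ[X]} (h : aeval L p = 0) (s : ℂ) : (s • 1 - L) * D L p s = p.eval s • 1 := by
  have : ∀ k, (s • 1 - L) * ∑ i ∈ range k, s ^ i • p.coeff k • L ^ (k - 1 - i) =
      (p.coeff k * s ^ k) • 1 - p.coeff k • L ^ k := fun k => by
    have := ((Commute.one_left L).smul_left s).mul_geom_sum₂ k
    simp only [_root_.smul_pow, one_pow, smul_mul_assoc, one_mul] at this
    simp only [smul_comm (s ^ _) (p.coeff k), ← smul_sum, mul_smul_comm, this, smul_sub, mul_smul]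
  rw [D, mul_sum, sum_congr rfl fun k _ => this k, sum_sub_distrib, ← aeval_eq_sum_range, h, sub_zero,
    eval_eq_sum_range, sum_smul]

omit [CompleteSpace R] in
theorem D_fd (L : R) (p : ℂ[X]) (γ : ℂ) : ∑ j ∈ range (p.natDegree + 1),
    ((-1) ^ (p.natDegree - j) * p.natDegree.choose j : ℂ) • D L p (γ * j) = 0 := by
  simp only [D, smul_sum]
  rw [sum_comm]
  refine sum_eq_zero fun k hk => ?_
  rw [sum_comm]
  refine sum_eq_zero fun i hi => ?_
  have := congrFun (fwdDiff_iter_pow_eq_zero_of_lt (R := ℂ) (j := i) (n := p.natDegree)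
    (by simp at hk hi; omega)) 0
  rw [fwdDiff_iter_eq_sum_shift] at this
  simp only [smul_smul, ← mul_assoc, ← sum_smul, ← sum_mul, mul_pow, mul_comm (γ ^ i)]
  simp at this
  simp [this]
end alg

variable {E : Type} [NormedAddCommGroup E] [InnerProductSpace ℂ E] [CompleteSpace E]

theorem resolv (L : E →L[ℂ] E) {c δ : ℝ} (hδ : 0 < δ) (hc : ∀ t ≥ 0, ‖T L t‖ ≤ c * Real.exp (-δ * t))
    {s : ℝ} (hs : 0 < s) (y : E) :
    ‖y‖ ^ 2 ≤ ‖∫ t in Ioi (0 : ℝ), star (T L t) * T L t‖ * ‖(s : ℂ) • y - L y‖ ^ 2 / (2 * s) := by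
  set x := (s : ℂ) • y - L y with hx
  have i1 : IntegrableOn (fun t => star (T L t) * T L t) (Ioi 0) := by
    refine ((exp_neg_integrableOn_Ioi 0 (show 0 < δ + δ by linarith)).const_mul (c * c)).mono'
      ((T_cont L).star.mul (T_cont L)).aestronglyMeasurable ?_
    filter_upwards [ae_restrict_mem measurableSet_Ioi] with t ht
    rw [CStarRing.norm_star_mul_self]
    refine (mul_self_le_mul_self (norm_nonneg _) (hc t ht.le)).trans_eq ?_
    rw [mul_mul_mul_comm, ← Real.exp_add]; congr 2; ring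
  let l : E → E → (E →L[ℂ] E) →L[ℝ] ℝ := fun y z =>
    Complex.reCLM.comp (((innerSL ℂ y).comp (ContinuousLinearMap.apply ℂ E z)).restrictScalars ℝ)
  have hl : ∀ y z t, l y z (star (T L t) * T L t) = (inner ℂ (T L t y) (T L t z)).re := fun y z t => by
    simp [l, ContinuousLinearMap.star_eq_adjoint, ContinuousLinearMap.adjoint_inner_right]
  have dv : ∀ t, HasDerivAt (fun t => T L t y) (T L t (L y)) t := fun t =>
    ((ContinuousLinearMap.apply ℂ E y).restrictScalars ℝ).hasFDerivAt.comp_hasDerivAt t (T_der L t)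
  have d2 : ∀ t, HasDerivAt (fun t => ‖T L t y‖ ^ 2) (2 * l y (L y) (star (T L t) * T L t)) t := fun t => by
    have := Complex.reCLM.hasFDerivAt.comp_hasDerivAt t ((dv t).inner ℂ (dv t))
    refine (this.congr_deriv ?_).congr_of_eventuallyEq (Eventually.of_forall fun t => ?_)
    · rw [hl, map_add, two_mul]
      exact congrArg _ (inner_re_symm (𝕜 := ℂ) _ _)
    · exact (inner_self_eq_norm_sq (𝕜 := ℂ) _).symm
  have t0 : Tendsto (fun t => ‖T L t y‖ ^ 2) atTop (𝓝 (0 ^ 2)) := by
    refine Tendsto.pow (squeeze_zero' (Eventually.of_forall fun _ => norm_nonneg _)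
      (g := fun t => c * Real.exp (-δ * t) * ‖y‖) ?_ ?_) 2
    · filter_upwards [eventually_ge_atTop 0] with t ht
      exact ((T L t).le_opNorm y).trans (by gcongr; exact hc t ht)
    · simpa using ((Real.tendsto_exp_atBot.comp
        (tendsto_id.const_mul_atTop_of_neg (neg_neg_of_pos hδ))).const_mul c).mul_const ‖y‖
  have i2 := ((l y (L y)).integrable_comp i1).const_mul 2
  have e := integral_Ioi_of_hasDerivAt_of_tendsto' (fun t _ => d2 t) i2 t0
  have m := integral_mono i2.neg (((l x x).integrable_comp i1).div_const (2 * s)) fun t => by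
    simp only [Pi.neg_apply, hl]
    have : L y = (s : ℂ) • y - x := by simp [hx]
    have sq : ∀ v : E, (inner ℂ v v).re = ‖v‖ ^ 2 := inner_self_eq_norm_sq (𝕜 := ℂ)
    rw [this, map_sub, map_smul, inner_sub_right, inner_smul_right, Complex.sub_re, Complex.re_ofReal_mul,
      sq, sq, le_div_iff₀ (by positivity)]
    have := mul_le_mul_of_nonneg_left ((Complex.re_le_norm _).trans
      (norm_inner_le_norm (𝕜 := ℂ) (T L t y) (T L t x))) hs.le
    nlinarith [sq_nonneg (2 * s * ‖T L t y‖ - ‖T L t x‖)]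
  rw [integral_neg', e, integral_div, (l x x).integral_comp_comm i1] at m
  refine le_trans (by simp [T]) (m.trans ?_)
  gcongr
  refine (Complex.re_le_norm _).trans ((norm_inner_le_norm (𝕜 := ℂ) x _).trans ?_)
  rw [sq, ← mul_assoc, mul_comm]
  gcongr
  exact ContinuousLinearMap.le_opNorm _ x

theorem prod_le {γ t : ℝ} (hγ : 0 < γ) (ht : 0 ≤ t) (s : Multiset ℂ) (hs : ∀ r ∈ s, r.re ≤ -γ) :
    ‖(s.map fun r => X - C r).prod.eval (γ * t : ℂ)‖ ≤
      (t + 1) ^ s.card * ‖(s.map fun r => X - C r).prod.eval 0‖ := by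
  induction s using Multiset.induction_on with
  | empty => simp
  | cons r s ih =>
    simp only [Multiset.map_cons, Multiset.prod_cons, eval_mul, norm_mul, Multiset.card_cons, pow_succ']
    rw [mul_mul_mul_comm]
    have hr := hs r (Multiset.mem_cons_self _ _)
    have := ih fun x hx => hs x (Multiset.mem_cons_of_mem hx)
    gcongr
    have h1 : γ ≤ ‖r‖ := by linarith [Complex.re_le_norm (-r), norm_neg r, Complex.neg_re r]
    simp only [eval_sub, eval_X, eval_C, zero_sub, norm_neg]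
    refine (norm_sub_le _ _).trans ?_
    rw [norm_mul, Complex.norm_real, Complex.norm_real, Real.norm_of_nonneg hγ.le, Real.norm_of_nonneg ht]
    nlinarith

theorem core [FiniteDimensional ℂ E] (A L : E →L[ℂ] E) {w : E} (hw : ‖w‖ = 1)
    (hA : ∀ x, inner ℂ w (L x) = inner ℂ w (A x)) {γ : ℝ} (hγ : 0 < γ)
    (hs : ∀ z, Module.End.HasEigenvalue (L : E →ₗ[ℂ] E) z → z.re ≤ -γ) :
    γ ≤ ((2 * (Module.finrank ℂ E + 1)) ^ Module.finrank ℂ E * ‖A‖) ^ 2 *
      ‖∫ t in Ioi (0 : ℝ), star (T L t) * T L t‖ := by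
  set M := ‖∫ t in Ioi (0 : ℝ), star (T L t) * T L t‖
  set p := (L : E →ₗ[ℂ] E).charpoly
  have pd : p.natDegree = Module.finrank ℂ E := LinearMap.charpoly_natDegree _
  have ps : p = (p.roots.map fun r => X - C r).prod :=
    (IsAlgClosed.splits p).eq_prod_roots_of_monic (LinearMap.charpoly_monic _)
  have pr : ∀ r ∈ p.roots, r.re ≤ -γ := fun r hr =>
    hs r ((Module.End.hasEigenvalue_iff_isRoot_charpoly _ _).2 (isRoot_of_mem_roots hr))
  have p0 : aeval L p = 0 := by
    have := aeval_algHom_apply (Module.End.toContinuousLinearMap (𝕜 := ℂ) E) (L : E →ₗ[ℂ] E) p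
    rwa [LinearMap.aeval_self_charpoly, map_zero] at this
  obtain ⟨c, hc⟩ := decay L hγ p.roots pr 1 (by rw [← ps, p0, zero_mul])
  simp only [mul_one] at hc
  have dm : ∀ s : ℂ, s • D L p s w - L (D L p s w) = p.eval s • w := fun s =>
    congrArg (fun Z : E →L[ℂ] E => Z w) (D_mul L p0 s)
  have e0 : p.eval 0 ≠ 0 := fun h => by
    simpa [hγ.not_ge] using pr 0 ((mem_roots (LinearMap.charpoly_monic _).ne_zero).2 h)
  rw [← pd]
  set n := p.natDegree
  set Q := (n + 1 : ℝ) ^ n * ‖p.eval 0‖ * √(M / γ)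
  have bd : ∀ j ∈ range n, ‖D L p (γ * (j + 1 : ℕ)) w‖ ≤ Q := fun j hj => by
    have h1 := resolv L (half_pos hγ) hc (s := γ * (j + 1 : ℕ)) (by positivity) (D L p (γ * (j + 1 : ℕ)) w)
    have h2 := prod_le hγ (j + 1 : ℕ).cast_nonneg p.roots pr
    rw [← ps, IsAlgClosed.card_roots_eq_natDegree] at h2
    push_cast at h1 h2 ⊢
    rw [dm, norm_smul, hw, mul_one] at h1
    have h3 : (j : ℝ) + 1 ≤ n := by exact_mod_cast mem_range.1 hj
    refine abs_le_of_sq_le_sq' (h1.trans ?_) (by positivity) |>.2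
    rw [mul_pow, Real.sq_sqrt (by positivity), mul_comm M, mul_div_assoc]
    gcongr
    · exact h2.trans (by gcongr)
    · nlinarith [mul_nonneg hγ.le j.cast_nonneg]
  have fd := congrArg (fun Z : E →L[ℂ] E => inner ℂ w (A (Z w))) (D_fd L p γ)
  simp only [ContinuousLinearMap.sum_apply, ContinuousLinearMap.smul_apply, _root_.map_sum, map_smul,
    inner_sum, inner_smul_right, ContinuousLinearMap.zero_apply, map_zero, inner_zero_right] at fd
  have d0 := dm 0
  rw [zero_smul, zero_sub, neg_eq_iff_eq_neg] at d0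
  rw [sum_range_succ', add_eq_zero_iff_neg_eq, Nat.cast_zero, mul_zero, ← hA, d0] at fd
  have h4 := ((congrArg norm fd).symm.trans (norm_neg _)).le.trans (norm_sum_le_of_le (n := fun j => n.choose (j + 1) * (‖A‖ * Q)) _
    fun j hj => by
      rw [norm_mul, norm_mul, norm_pow, norm_neg, norm_one, one_pow, one_mul, Complex.norm_natCast]
      gcongr
      refine (norm_inner_le_norm _ _).trans ?_
      rw [hw, one_mul]
      exact (A.le_opNorm _).trans (by gcongr; exact bd j hj))
  have h5 : ∑ j ∈ range n, (n.choose (j + 1) : ℝ) ≤ 2 ^ n := by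
    have := Nat.sum_range_choose n
    rw [sum_range_succ'] at this
    exact_mod_cast (Nat.le_add_right _ _).trans_eq this
  rw [← sum_mul] at h4
  simp [hw, inner_smul_right] at h4
  have h6 : ‖p.eval 0‖ * 1 ≤ ‖p.eval 0‖ * ((2 * (n + 1)) ^ n * ‖A‖ * √(M / γ)) := by
    rw [mul_one]
    refine h4.trans ((mul_le_mul_of_nonneg_right h5 (by positivity)).trans_eq ?_)
    simp only [Q, mul_pow]; ring
  have h7 := pow_le_pow_left₀ zero_le_one (le_of_mul_le_mul_left h6 (norm_pos_iff.2 e0)) 2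
  rwa [one_pow, mul_pow, Real.sq_sqrt (by positivity), ← mul_div_assoc, one_le_div hγ] at h7

theorem main (n m : ℕ) (hm : m < n) (A : EuclideanSpace ℂ (Fin n) →L[ℂ] EuclideanSpace ℂ (Fin n))
    (B : EuclideanSpace ℂ (Fin m) →L[ℂ] EuclideanSpace ℂ (Fin n))
    (F : EuclideanSpace ℂ (Fin n) →L[ℂ] EuclideanSpace ℂ (Fin m)) (γ : ℝ) (hγ : 0 < γ)
    (h : IsLeast ((fun z : ℂ => -z.re) '' {z | Module.End.HasEigenvalue (A - B ∘L F).toLinearMap z}) γ) :
    γ / ((2 * (n + 1)) ^ n * (‖A‖ + 1)) ^ 2 ≤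
      ‖∫ t in Ioi (0 : ℝ), exp ((t : ℂ) • (A - B ∘L F).adjoint) * exp ((t : ℂ) • (A - B ∘L F))‖ := by
  have hr : (LinearMap.range B.toLinearMap)ᗮ ≠ ⊥ := fun e => by
    have h1 := (LinearMap.range B.toLinearMap).finrank_add_finrank_orthogonal
    have h2 := LinearMap.finrank_range_le B.toLinearMap
    rw [e, finrank_bot, finrank_euclideanSpace_fin] at h1
    rw [finrank_euclideanSpace_fin] at h2
    omega
  obtain ⟨v, hv, v0⟩ := Submodule.exists_mem_ne_zero_of_ne_bot hr
  have hw := Submodule.smul_mem _ ((‖v‖⁻¹ : ℝ) : ℂ) hv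
  have := core A (A - B ∘L F) (w := ((‖v‖⁻¹ : ℝ) : ℂ) • v) (by simp [norm_smul, v0])
    (fun x => by
      rw [ContinuousLinearMap.sub_apply, inner_sub_right, sub_eq_self]
      exact Submodule.inner_left_of_mem_orthogonal (LinearMap.mem_range_self B.toLinearMap (F x)) hw) hγ
    fun z hz => by linarith [h.2 ⟨z, hz, rfl⟩]
  simp only [finrank_euclideanSpace_fin, T, star_exp, star_smul, Complex.star_def, Complex.conj_ofReal,
    ContinuousLinearMap.star_eq_adjoint] at this
  rw [div_le_iff₀' (by positivity)]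
  exact this.trans (by gcongr; linarith)

theorem main' (n m : ℕ) (hm : m < n) (A : Cn n →L[ℂ] Cn n) (B : Cn m →L[ℂ] Cn n) (F : Cn n →L[ℂ] Cn m)
    (γ : ℝ) (h : Decay (loop A B F).toLinearMap γ) :
    γ / ((2 * (n + 1)) ^ n * (‖A‖ + 1)) ^ 2 ≤ ‖cost (loop A B F)‖ :=
  main n m hm A B F γ h.1 h.2

end Pool.Agent.H95.Cost
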