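import Mathlib

namespace Pool.Agent.H95.Cost
open Set MeasureTheory NormedSpace

/-- the cost integral -/
noncomputable def cost {R : Type} [NormedRing R] [NormedAlgebra ℂ R] [Star R] (L : R) : R :=
  ∫ t in Ioi (0 : ℝ), exp ((t : ℂ) • star L) * exp ((t : ℂ) • L)

/-- stable with decay rate `γ` -/
def Decay {E : Type} [AddCommGroup E] [Module ℂ E] (L : E →ₗ[ℂ] E) (γ : ℝ) : Prop :=
  0 < γ ∧ IsLeast ((fun z : ℂ => -z.re) '' {z | Module.End.HasEigenvalue L z}) γ

abbrev Cn (n : ℕ) : Type := EuclideanSpace ℂ (Fin n)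

/-- closed loop operator -/
noncomputable def loop {E U : Type} [NormedAddCommGroup E] [NormedSpace ℂ E] [NormedAddCommGroup U]
    [NormedSpace ℂ U] (A : E →L[ℂ] E) (B : U →L[ℂ] E) (F : E →L[ℂ] U) : E →L[ℂ] E := A - B ∘L F

end Pool.Agent.H95.Cost
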