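import Pool.Agent.H95.DSpDefs

set_option autoImplicit false

namespace Pool.Agent.H95.DSp

open Complex

lemma one_add (t : ℝ) : 1 + exp (-(2 * Real.pi * I * t)) = 0 ↔ ∃ n : ℤ, 2 * t = 2 * n + 1 := by
  have hp : (Real.pi : ℂ) * I ≠ 0 := mul_ne_zero (ofReal_ne_zero.2 Real.pi_ne_zero) I_ne_zero
  have : 1 + exp (-(2 * Real.pi * I * t)) = 0 ↔ exp (-(2 * Real.pi * I * t) + Real.pi * I) = 1 := by
    rw [exp_add, exp_pi_mul_I]
    constructor <;> intro h <;> linear_combination -h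
  rw [this, exp_eq_one_iff]
  constructor
  · rintro ⟨n, h⟩
    refine ⟨-n, ?_⟩
    have : ((2 * t : ℝ) : ℂ) = ((2 * ((-n : ℤ) : ℝ) + 1 : ℝ) : ℂ) := by
      apply mul_left_cancel₀ hp
      push_cast
      linear_combination -h
    exact_mod_cast this
  · rintro ⟨n, h⟩
    refine ⟨-n, ?_⟩
    have : (2 * t : ℂ) = 2 * n + 1 := by exact_mod_cast h
    push_cast
    linear_combination -(Real.pi * I) * this

lemma hat_iff (ξ : ℝ) : hat {0, 4, 16, 20} ξ = 0 ↔
    (∃ n : ℤ, 8 * ξ = 2 * n + 1) ∨ ∃ n : ℤ, 32 * ξ = 2 * n + 1 := by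
  have e : hat {0, 4, 16, 20} ξ = 1 / 4 * ((1 + exp (-(2 * Real.pi * I * ((4 * ξ : ℝ) : ℂ)))) *
      (1 + exp (-(2 * Real.pi * I * ((16 * ξ : ℝ) : ℂ))))) := by
    have : exp (-(2 * Real.pi * I * ξ * 20)) = exp (-(2 * Real.pi * I * ξ * 4)) *
        exp (-(2 * Real.pi * I * ξ * 16)) := by
      rw [← exp_add]; congr 1; ring
    rw [hat, show ({0, 4, 16, 20} : Finset ℤ).card = 4 from rfl, Finset.sum_insert (by decide),
      Finset.sum_insert (by decide), Finset.sum_insert (by decide), Finset.sum_singleton]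
    push_cast
    rw [this, mul_zero, neg_zero, exp_zero, show 2 * (Real.pi : ℂ) * I * (4 * ξ) =
      2 * Real.pi * I * ξ * 4 by ring, show 2 * (Real.pi : ℂ) * I * (16 * ξ) =
      2 * Real.pi * I * ξ * 16 by ring]
    ring
  rw [e, mul_eq_zero, mul_eq_zero, one_add, one_add, show 2 * (4 * ξ) = 8 * ξ by ring,
    show 2 * (16 * ξ) = 32 * ξ by ring]
  simp

lemma not_odd (x : ℝ) (p q : ℤ) (hq : (q : ℝ) * x = p) (h : ∀ n : ℤ, q * (2 * n + 1) ≠ p) :
    ¬∃ n : ℤ, x = 2 * n + 1 := by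
  rintro ⟨n, rfl⟩
  exact h n (by exact_mod_cast hq)

theorem main : Distributed 24 {0, 4, 16, 20} {0, 3, 18, 21} ∧
    ¬Spectral 24 {0, 4, 16, 20} {0, 3, 18, 21} ∧
    ¬Spectral (24 ^ 2) {0, 4, 16, 20} {0, 3, 18, 21} := by
  refine ⟨fun b hb b' hb' hne => ?_, fun h => ?_, fun h => ?_⟩
  · have h1 : ∀ b ∈ ({0, 3, 18, 21} : Finset ℤ), ∀ b' ∈ ({0, 3, 18, 21} : Finset ℤ), b ≠ b' →
        (b - b') % 6 = 3 ∨ (b - b') % 36 = 18 := by decide
    have h2 : ∀ b ∈ ({0, 3, 18, 21} : Finset ℤ), ∀ b' ∈ ({0, 3, 18, 21} : Finset ℤ),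
        (b - b') % 3 = 0 := by decide
    rcases h1 b hb b' hb' hne with h | h
    · refine Or.inl ((hat_iff _).2 (Or.inl ⟨(b - b') / 6, ?_⟩))
      have : b - b' = 6 * ((b - b') / 6) + 3 := by omega
      have : (b : ℝ) - b' = 6 * (((b - b') / 6 : ℤ) : ℝ) + 3 := by exact_mod_cast this
      rw [this]; push_cast; ring
    · refine Or.inr fun c hc c' hc' => (hat_iff _).2
        (Or.inr ⟨(b - b') / 36 + 2 * ((c - c') / 3), ?_⟩)
      have h3 := h2 c hc c' hc'
      have e1 : b - b' = 36 * ((b - b') / 36) + 18 := by omega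
      have e1 : (b : ℝ) - b' = 36 * (((b - b') / 36 : ℤ) : ℝ) + 18 := by exact_mod_cast e1
      have e2 : c - c' = 3 * ((c - c') / 3) := by omega
      have e2 : (c : ℝ) - c' = 3 * (((c - c') / 3 : ℤ) : ℝ) := by exact_mod_cast e2
      rw [e1, e2, Int.cast_add, Int.cast_mul]
      generalize (((b - b') / 36 : ℤ) : ℝ) = u
      generalize (((c - c') / 3 : ℤ) : ℝ) = v
      push_cast; ring
  · rcases (hat_iff _).1 (h 18 (by decide) 0 (by decide) (by decide)) with h | h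
    · exact not_odd _ 6 1 (by push_cast; ring) (fun n => by omega) h
    · exact not_odd _ 24 1 (by push_cast; ring) (fun n => by omega) h
  · rcases (hat_iff _).1 (h 3 (by decide) 0 (by decide) (by decide)) with h | h
    · exact not_odd _ 1 24 (by push_cast; ring) (fun n => by omega) h
    · exact not_odd _ 1 6 (by push_cast; ring) (fun n => by omega) h

end Pool.Agent.H95.DSp
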