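import Mathlib

set_option autoImplicit false

namespace Pool.Agent.H95.DSp

/-- The Fourier transform of the uniform measure on `E`. -/
noncomputable def hat (E : Finset ℤ) (ξ : ℝ) : ℂ :=
  (1 / (E.card : ℂ)) * ∑ a ∈ E, Complex.exp (-(2 * Real.pi * Complex.I * ξ * a))

/-- Spectral pair in the cyclic group of order `N`. -/
def Spectral (N : ℕ) (A B : Finset ℤ) : Prop :=
  ∀ b ∈ B, ∀ b' ∈ B, b ≠ b' → hat A (((b : ℝ) - b') / N) = 0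

/-- Distributed spectral pair with base `M`. -/
def Distributed (M : ℕ) (A B : Finset ℤ) : Prop :=
  ∀ b₁ ∈ B, ∀ b₁' ∈ B, b₁ ≠ b₁' → hat A (((b₁ : ℝ) - b₁') / M) = 0 ∨
    ∀ b₂ ∈ B, ∀ b₂' ∈ B, hat A (((b₁ : ℝ) - b₁') / (M : ℝ) ^ 2 + ((b₂ : ℝ) - b₂') / M) = 0

end Pool.Agent.H95.DSp
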