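import Pool.Agent.H95.DigDefs

namespace Pool.Agent.H95.Dig
open Real Set Filter Topology

theorem gamma_cd {x : ℝ} (hx : 0 < x) (n : ℕ) : ContDiffAt ℝ n Gamma x := by
  have h1 : DifferentiableOn ℂ Complex.Gamma {z | 0 < z.re} := fun z hz =>
    (Complex.differentiableAt_Gamma z fun m h => by
      rw [h] at hz; simp at hz; linarith [m.cast_nonneg (α := ℝ)]).differentiableWithinAt
  have ho : IsOpen {z : ℂ | 0 < z.re} := isOpen_lt continuous_const Complex.continuous_re
  have h2 : ContDiffAt ℂ n Complex.Gamma x := (h1.contDiffOn ho).contDiffAt (ho.mem_nhds (by simpa))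
  have := h2.real_of_complex
  simpa [Complex.Gamma_ofReal] using this

theorem psi_cd {x : ℝ} (hx : 0 < x) (n : ℕ) : ContDiffAt ℝ n psi x :=
  ((gamma_cd hx (n + 1)).derivWithin (m := n) (by simp)).div (gamma_cd hx n) (Gamma_pos_of_pos hx).ne'

theorem psi_add {x : ℝ} (hx : 0 < x) : psi (x + 1) = psi x + 1 / x := by
  have d : ∀ y, 0 < y → HasDerivAt Gamma (deriv Gamma y) y := fun y hy =>
    ((gamma_cd hy 1).differentiableAt (by simp)).hasDerivAt
  have h1 : HasDerivAt (fun y => Gamma (y + 1)) (deriv Gamma (x + 1)) x :=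
    (d (x + 1) (by linarith)).comp_add_const x 1
  have h2 : HasDerivAt (fun y => Gamma (y + 1)) (1 * Gamma x + x * deriv Gamma x) x :=
    ((hasDerivAt_id x).mul (d x hx)).congr_of_eventuallyEq (by
      filter_upwards [lt_mem_nhds hx] with y hy using Gamma_add_one hy.ne')
  have := (Gamma_pos_of_pos hx).ne'
  rw [psi, psi, h1.unique h2, Gamma_add_one hx.ne']; field_simp; ring

noncomputable def l (q : ℝ) : ℕ → ℝ → ℝ
  | 0, u => log (u ^ 2 + q)
  | 1, u => 2 * u / (u ^ 2 + q)
  | 2, u => 2 * (q - u ^ 2) / (u ^ 2 + q) ^ 2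
  | 3, u => 4 * u * (u ^ 2 - 3 * q) / (u ^ 2 + q) ^ 3
  | _, u => -12 * (u ^ 4 - 6 * q * u ^ 2 + q ^ 2) / (u ^ 2 + q) ^ 4

theorem l_der {q : ℝ} (hq : 0 < q) (k : ℕ) (hk : k < 4) (u : ℝ) :
    HasDerivAt (l q k) (l q (k + 1) u) u := by
  have h : u ^ 2 + q ≠ 0 := by positivity
  have h0 : HasDerivAt (fun u : ℝ => u ^ 2 + q) (2 * u) u := by
    simpa using (hasDerivAt_pow 2 u).add_const q
  have i := hasDerivAt_id' u
  interval_cases k
  · exact h0.log h
  · refine ((i.const_mul 2).div h0 h).congr_deriv ?_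
    simp only [l]; field_simp; ring
  · refine ((((i.pow 2).const_sub q).const_mul 2).div (h0.pow 2) (pow_ne_zero _ h)).congr_deriv ?_
    simp only [l, Pi.pow_apply]; field_simp; ring
  · refine (((i.const_mul 4).mul ((i.pow 2).sub_const (3 * q))).div (h0.pow 3)
      (pow_ne_zero _ h)).congr_deriv ?_
    simp only [l, Pi.pow_apply, Pi.mul_apply]; field_simp; ring

theorem iter {f : ℕ → ℝ → ℝ} (N : ℕ) (hf : ∀ k < N, ∀ x, -1 < x → HasDerivAt (f k) (f (k + 1) x) x)
    (k : ℕ) (hk : k ≤ N) : ∀ x, -1 < x → iteratedDeriv k (f 0) x = f k x := by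
  induction k with
  | zero => simp
  | succ k ih =>
    intro x hx
    rw [iteratedDeriv_succ, ← (hf k hk x hx).deriv]
    refine Filter.EventuallyEq.deriv_eq ?_
    filter_upwards [lt_mem_nhds hx] with y hy using ih (by omega) y hy

theorem main : ∃ (n : ℕ) (x : ℝ), -1 < x ∧ (-1) ^ n * iteratedDeriv n G x < 0 := by
  by_contra hc
  push Not at hc
  have s1 : (14.3 : ℝ) < √205 := lt_sqrt_of_sq_lt (by norm_num)
  have s2 : √205 < (14.33 : ℝ) := (sqrt_lt' (by norm_num)).2 (by norm_num)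
  have b1 : 0.789 < a1 := by unfold a1; linarith
  have b2 : a1 < 0.7905 := by unfold a1; linarith
  set q1 := (3 * a1 + 1) / 3 - 1 / 4 with hq1
  set q2 := (15 * a1 - 1) / (45 * a1) - 1 / 4 with hq2
  set c1 := 1 / (90 * a1 ^ 2 + 2) with hc1
  set c2 := 45 * a1 ^ 2 / (90 * a1 ^ 2 + 2) with hc2
  have p1 : 0 < q1 := by linarith
  have p2 : 0 < q2 := by rw [hq2, sub_pos, lt_div_iff₀ (by linarith)]; linarith
  have p3 : q2 < 0.056 := by rw [hq2, sub_lt_iff_lt_add, div_lt_iff₀ (by linarith)]; linarith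
  have p4 : 0 < c1 := by positivity
  have p5 : c1 < 1 := by rw [hc1, div_lt_one (by positivity)]; nlinarith
  have p6 : 0.48 < c2 := by rw [hc2, lt_div_iff₀ (by positivity)]; nlinarith
  have p7 : c2 < 1 := by rw [hc2, div_lt_one (by positivity)]; nlinarith
  have eL : ∀ x, LL x a1 = c1 * l q1 0 (x + 1 / 2) + c2 * l q2 0 (x + 1 / 2) := fun x => by
    simp only [LL, l, hq1, hq2]; congr 3 <;> ring
  have cG : ∀ x, -1 < x → ∀ n : ℕ, ContDiffAt ℝ n G x := fun x hx n => by
    have : G = fun x => c1 * log ((x + 1 / 2) ^ 2 + q1) + c2 * log ((x + 1 / 2) ^ 2 + q2) -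
      psi (x + 1) := by ext x; rw [G, eL]; rfl
    rw [this]
    refine ((contDiffAt_const.mul (ContDiffAt.log (by fun_prop) (by positivity))).add
      (contDiffAt_const.mul (ContDiffAt.log (by fun_prop) (by positivity)))).sub ?_
    exact ContDiffAt.comp (g := psi) (f := fun x => x + 1) x (psi_cd (by linarith) n) (by fun_prop)
  have cI : ∀ k x, -1 < x → ∀ n : ℕ, ContDiffAt ℝ n (iteratedDeriv k G) x := fun k => by
    induction k with
    | zero => simpa using cG
    | succ k ih =>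
      intro x hx n
      rw [iteratedDeriv_succ]
      exact (ih x hx (n + 1)).derivWithin (m := n) (by simp)
  have d4 : ∀ x, -1 < x → DifferentiableAt ℝ (iteratedDeriv 4 G) x := fun x hx =>
    (cI 4 x hx 1).differentiableAt (by simp)
  have anti : iteratedDeriv 4 G (-1 / 2 + 1) ≤ iteratedDeriv 4 G (-1 / 2) := by
    refine antitoneOn_of_deriv_nonpos (convex_Ioi (-1 : ℝ))
      (fun x hx => (d4 x hx).continuousAt.continuousWithinAt)
      (fun x hx => (d4 x (by simpa using hx)).differentiableWithinAt) (fun x hx => ?_)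
      (by norm_num) (by norm_num) (by norm_num)
    have := hc 5 x (by simpa using hx)
    rw [← iteratedDeriv_succ]; norm_num at this ⊢; linarith
  let f : ℕ → ℝ → ℝ := fun k x => c1 * l q1 k (x + 1 / 2) + c2 * l q2 k (x + 1 / 2) -
    (c1 * l q1 k (x + 3 / 2) + c2 * l q2 k (x + 3 / 2)) + (-1) ^ k * k.factorial / (x + 1) ^ (k + 1)
  have hf := iter (f := f) 4 (fun k hk x hx => by
    have h : x + 1 ≠ 0 := by linarith
    refine (((((l_der p1 k hk _).comp_add_const x _).const_mul c1).add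
      (((l_der p2 k hk _).comp_add_const x _).const_mul c2)).sub
      ((((l_der p1 k hk _).comp_add_const x _).const_mul c1).add
      (((l_der p2 k hk _).comp_add_const x _).const_mul c2))).add ?_
    refine ((hasDerivAt_const x ((-1) ^ k * (k.factorial : ℝ))).div
      (((hasDerivAt_id' x).add_const 1).pow (k + 1)) (pow_ne_zero _ h)).congr_deriv ?_
    simp only [Pi.pow_apply, Nat.factorial_succ, Nat.add_sub_cancel]
    push_cast; field_simp; ring) 4 le_rfl (-1 / 2) (by norm_num)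
  have e : f 0 =ᶠ[𝓝 (-1 / 2)] G - fun x => G (x + 1) := by
    filter_upwards [lt_mem_nhds (show (-1 : ℝ) < -1 / 2 by norm_num)] with x hx
    simp only [f, Pi.sub_apply, G, eL, psi_add (show 0 < x + 1 by linarith),
      show x + 1 + 1 / 2 = x + 3 / 2 by ring]
    simp; ring
  rw [e.iteratedDeriv_eq, iteratedDeriv_sub (cG _ (by norm_num) 4)
    (g := fun x => G (x + 1)) (ContDiffAt.comp (g := G) (f := fun x => x + 1) _
    (cG _ (by norm_num) 4) (by fun_prop)), iteratedDeriv_comp_add_const] at hf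
  have lb : ∀ q : ℝ, 0 < q → -12 ≤ l q 4 1 := fun q hq => by
    simp only [l]; rw [le_div_iff₀ (by positivity)]; nlinarith [pow_pos hq 2, pow_pos hq 3, pow_pos hq 4]
  have z : ∀ q : ℝ, 0 < q → l q 4 0 = -12 / q ^ 2 := fun q hq => by simp only [l]; field_simp; ring
  have n1 : l q1 4 0 ≤ 0 := by rw [z _ p1]; exact div_nonpos_of_nonpos_of_nonneg (by norm_num) (by positivity)
  have n2 : l q2 4 0 ≤ -3800 := by rw [z _ p2, div_le_iff₀ (by positivity)]; nlinarith
  simp only [f] at hf
  norm_num [Nat.factorial] at hf anti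
  nlinarith [lb _ p1, lb _ p2]

end Pool.Agent.H95.Dig
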