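import Mathlib

namespace Pool.Agent.H95.Dig
open Real

/-- the digamma function -/
noncomputable def psi (x : ℝ) : ℝ := deriv Gamma x / Gamma x

noncomputable def LL (x a : ℝ) : ℝ :=
  1 / (90 * a ^ 2 + 2) * log (x ^ 2 + x + (3 * a + 1) / 3) +
    45 * a ^ 2 / (90 * a ^ 2 + 2) * log (x ^ 2 + x + (15 * a - 1) / (45 * a))

noncomputable def a1 : ℝ := (40 + 3 * √205) / 105

noncomputable def G (x : ℝ) : ℝ := LL x a1 - psi (x + 1)

end Pool.Agent.H95.Dig
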