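import Pool.Agent.H95.DomDefs

set_option autoImplicit false

namespace Pool.Agent.H95.Dom

open MeasureTheory unitInterval Finset Filter Topology Real
open scoped Classical

noncomputable def dg (W : Graphon) (x : I) : ℝ := ∫ y, W.W x y

noncomputable def mo (W : Graphon) (k : ℕ) : ℝ := ∫ x, dg W x ^ k

lemma itg {X : Type} [MeasureSpace X] [IsFiniteMeasure (volume : Measure X)] {f : X → ℝ}
    (h : Measurable f) (b : ∀ x, f x ∈ Set.Icc (0 : ℝ) 1) : Integrable f :=
  .of_bound h.aestronglyMeasurable 1 (.of_forall fun x => by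
    rw [norm_of_nonneg (b x).1]; exact (b x).2)

lemma dg_mem (W : Graphon) (x : I) : dg W x ∈ Set.Icc (0 : ℝ) 1 :=
  ⟨integral_nonneg fun y => (W.mem x y).1, by
    simpa [dg] using integral_mono (itg (W.meas.comp measurable_prodMk_left) (W.mem x))
      (integrable_const 1) fun y => (W.mem x y).2⟩

lemma dg_int (W : Graphon) (k : ℕ) : Integrable fun x => dg W x ^ k :=
  itg (W.meas.stronglyMeasurable.integral_prod_right'.measurable.pow_const k) fun x =>
    ⟨pow_nonneg (dg_mem W x).1 k, pow_le_one₀ (dg_mem W x).1 (dg_mem W x).2⟩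

lemma mo_nn (W : Graphon) (k : ℕ) : 0 ≤ mo W k := integral_nonneg fun x => pow_nonneg (dg_mem W x).1 k

lemma mo_anti (W : Graphon) : Antitone (mo W) := fun _ _ h => integral_mono (dg_int W _) (dg_int W _)
  fun x => pow_le_pow_of_le_one (dg_mem W x).1 (dg_mem W x).2 h

lemma mo_zero (W : Graphon) : mo W 0 = 1 := by simp [mo]

lemma mo_cs (W : Graphon) (a s : ℕ) : mo W (a + s) ^ 2 ≤ mo W a * mo W (a + 2 * s) := by
  have := discrim_le_zero (a := mo W a) (b := -2 * mo W (a + s)) (c := mo W (a + 2 * s)) fun t => by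
    have : 0 ≤ ∫ x, dg W x ^ a * (t - dg W x ^ s) ^ 2 :=
      integral_nonneg fun x => mul_nonneg (pow_nonneg (dg_mem W x).1 _) (sq_nonneg _)
    rw [show (fun x => dg W x ^ a * (t - dg W x ^ s) ^ 2) = fun x => t * t * dg W x ^ a +
      -2 * t * dg W x ^ (a + s) + dg W x ^ (a + 2 * s) from funext fun x => by ring, integral_add
      (by exact ((dg_int W _).const_mul _).add ((dg_int W _).const_mul _)) (dg_int W _), integral_add
      ((dg_int W _).const_mul _) ((dg_int W _).const_mul _), integral_const_mul,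
      integral_const_mul] at this
    simp only [mo]
    linarith
  rw [discrim] at this
  linarith

def star {C : Type} (k : C → ℕ) : SimpleGraph (C ⊕ Σ c, Fin (k c)) :=
  SimpleGraph.fromEdgeSet (Set.range fun l => s(Sum.inl l.1, Sum.inr l))

lemma dens_star {C : Type} [Fintype C] (k : C → ℕ) (W : Graphon) :
    dens (star k) W = ∏ c, mo W (k c) := by
  have e : (star k).edgeFinset = univ.image fun l => s(Sum.inl l.1, Sum.inr l) := by
    ext e
    simp only [star, SimpleGraph.mem_edgeFinset, SimpleGraph.edgeSet_fromEdgeSet, Set.mem_diff,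
      Set.mem_range, mem_image, mem_univ, true_and, and_iff_left_iff_imp]
    rintro ⟨l, rfl⟩
    simp
  rw [dens, ← ((volume_measurePreserving_sumPiEquivProdPi fun _ => I).symm _).integral_comp']
  simp only [e]
  simp only [prod_image (s := univ) (g := fun l : Σ c, Fin (k c) => s(Sum.inl l.1, Sum.inr l))
    fun a _ b _ h => by simp at h; exact h.2, Sym2.lift_mk]
  change ∫ p : (C → I) × ((Σ c, Fin (k c)) → I), ∏ l, W.W (p.1 l.1) (p.2 l) = _
  rw [Measure.volume_eq_prod, integral_prod _ (itg (Finset.measurable_prod _ fun l _ =>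
    W.meas.comp (f := fun p : (C → I) × ((Σ c, Fin (k c)) → I) => (p.1 l.1, p.2 l)) (by fun_prop))
    fun p => ⟨prod_nonneg fun _ _ => (W.mem _ _).1, prod_le_one (fun _ _ => (W.mem _ _).1)
      fun _ _ => (W.mem _ _).2⟩)]
  refine Eq.trans (congrArg _ (funext fun x => ?_))
    (integral_fintype_prod_volume_eq_prod fun c x => dg W x ^ k c)
  simpa [Fintype.prod_sigma, dg] using integral_fintype_prod_volume_eq_prod
    fun (l : Σ c, Fin (k c)) y => W.W (x l.1) y

noncomputable def hub (α : I) (δ : ℝ) (h : δ ∈ Set.Icc (0 : ℝ) 1) : Graphon where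
  W x y := if x ≤ α ∨ y ≤ α then 1 else δ
  symm x y := by simp [or_comm]
  meas := Measurable.ite ((measurable_fst measurableSet_Iic).union
    (measurable_snd measurableSet_Iic)) measurable_const measurable_const
  mem x y := by split_ifs <;> simp [h.1, h.2]

lemma two (α : I) (b : ℝ) : ∫ x : I, (if x ≤ α then 1 else b) = α + (1 - α) * b := by
  rw [show (fun x : I => if x ≤ α then 1 else b) = fun x => b + (Set.Iic α).indicator
    (fun _ => 1 - b) x from funext fun x => by by_cases x ≤ α <;> simp [*], integral_add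
    (integrable_const _) ((integrable_const _).indicator measurableSet_Iic),
    integral_indicator_const _ measurableSet_Iic]
  simp [Measure.real, α.2.1]
  ring

lemma mo_hub (α : I) (δ : ℝ) (h : δ ∈ Set.Icc (0 : ℝ) 1) (k : ℕ) :
    mo (hub α δ h) k = α + (1 - α) * (α + (1 - α) * δ) ^ k := by
  rw [← two, mo]
  congr 1
  funext x
  by_cases c : x ≤ α <;> simp [dg, hub, c, two]

lemma rat (m : ℕ) (W : Graphon) : dens (star ![m, m, 4 * m]) W = mo W m ^ 2 * mo W (4 * m) ∧
    dens (star ![2 * m, 2 * m]) W = mo W (2 * m) ^ 2 := by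
  simp [dens_star, Fin.prod_univ_succ, sq, mul_assoc]

lemma key (m : ℕ) (W : Graphon) (h : dens (star ![m, m, 4 * m]) W ≠ 0) :
    ratio (star ![m, m, 4 * m]) (star ![2 * m, 2 * m]) W =
      2 * log (mo W (2 * m)) / (2 * log (mo W m) + log (mo W (4 * m))) ∧ 0 < mo W (4 * m) ∧
      2 * log (mo W m) ≤ log (mo W (2 * m)) := by
  rw [(rat m W).1] at h
  have a := (mul_ne_zero_iff.1 h).1
  have := mo_cs W 0 m
  rw [zero_add, zero_add, mo_zero, one_mul] at this
  refine ⟨by rw [ratio, (rat m W).1, (rat m W).2, log_mul a (mul_ne_zero_iff.1 h).2, log_pow,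
    log_pow, Nat.cast_ofNat], (mo_nn _ _).lt_of_ne' (mul_ne_zero_iff.1 h).2, ?_⟩
  simpa using log_le_log ((sq_nonneg _).lt_of_ne' a) this

lemma rho {m : ℕ} (hm : 0 < m) : RhoIs (star ![m, m, 4 * m]) (star ![2 * m, 2 * m]) 1 := by
  refine ⟨fun W h => ?_, ?_, fun b hb => le_of_forall_lt_imp_le_of_dense fun a ha => ?_⟩
  · rw [(rat m W).2]
    exact (pow_pos ((key m W h).2.1.trans_le (mo_anti W (by omega))) 2).ne'
  · rintro _ ⟨W, h, -, rfl⟩
    obtain ⟨k1, k2, k3⟩ := key m W h
    have a := log_le_log k2 (mo_anti W (show 2 * m ≤ 4 * m by omega))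
    have b := log_nonpos (mo_nn W (2 * m)) ((mo_anti W (Nat.zero_le _)).trans_eq (mo_zero W))
    rw [k1, ← neg_div_neg_eq]
    exact div_le_one_of_le₀ (by linarith) (by linarith)
  set L := log 2 / (1 - a) + 1 with hL
  have l2 := log_pos one_lt_two
  have L0 : (1 - a) * L = log 2 + (1 - a) := by rw [hL, mul_add, mul_div_cancel₀ _ (by linarith)]; ring
  have L1 : 1 ≤ L := le_add_of_nonneg_left (div_nonneg l2.le (by linarith))
  set δ := exp (-L) with hδ
  have d0 : 0 < δ := exp_pos _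
  have d1 : δ < 1 := exp_lt_one_iff.2 (by linarith)
  have a1 : δ ^ (2 * m) ≤ δ := pow_le_of_le_one d0.le d1.le (by omega)
  have a0 := pow_pos d0 (2 * m)
  have hh : (δ - δ ^ (2 * m)) / (1 - δ ^ (2 * m)) ∈ Set.Icc (0 : ℝ) 1 :=
    ⟨div_nonneg (by linarith) (by linarith), div_le_one_of_le₀ (by linarith) (by linarith)⟩
  set W := hub ⟨δ ^ (2 * m), a0.le, by linarith⟩ _ hh
  have e : ∀ k, mo W k = δ ^ (2 * m) + (1 - δ ^ (2 * m)) * δ ^ k := fun k => by
    rw [mo_hub, mul_div_cancel₀ _ (by dsimp only; linarith), add_sub_cancel]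
  have p : ∀ k, δ ^ k ≤ mo W k ∧ δ ^ (2 * m) ≤ mo W k := fun k => by
    have := pow_le_one₀ (n := k) d0.le d1.le
    have := pow_pos d0 k
    rw [e]
    constructor <;> nlinarith
  have h : dens (star ![m, m, 4 * m]) W ≠ 0 := by
    rw [(rat m W).1]
    exact (mul_pos (pow_pos (a0.trans_le (p _).2) 2) (a0.trans_le (p _).2)).ne'
  obtain ⟨k1, k2, k3⟩ := key m W h
  have b1 := log_le_log (pow_pos d0 _) (p m).1
  have b2 := log_le_log a0 (p (4 * m)).2
  have b3 := log_le_log (a0.trans_le (p (2 * m)).2) (show _ ≤ 2 * δ ^ (2 * m) by rw [e]; nlinarith)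
  have b4 := log_le_log k2 (mo_anti W (show 2 * m ≤ 4 * m by omega))
  rw [log_mul two_ne_zero a0.ne'] at b3
  simp only [log_pow, hδ, log_exp, Nat.cast_mul, Nat.cast_ofNat] at b1 b2 b3
  have m1 : (1 : ℝ) ≤ m := by exact_mod_cast hm
  have b5 : log 2 < L := by have := log_two_lt_d9; linarith
  have b6 : L ≤ m * L := by nlinarith
  have r : a < ratio (star ![m, m, 4 * m]) (star ![2 * m, 2 * m]) W := by
    rw [k1, lt_div_iff_of_neg (by linarith)]
    rcases le_total a 0 with c | c <;> nlinarith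
  by_cases c : dens (star ![m, m, 4 * m]) W = 1
  · have := congrArg log c
    rw [(rat m W).1, log_mul (pow_pos (a0.trans_le (p _).2) 2).ne' k2.ne', log_pow, log_one] at this
    norm_num at this
    linarith
  exact r.le.trans (hb ⟨W, h, c, rfl⟩)

lemma conc (W : Graphon) (s r : ℕ) (h : 0 < mo W (s * (r + 2))) :
    log (mo W s) + (r + 1) * (log (mo W (2 * s)) - log (mo W s)) ≤ log (mo W (s * (r + 2))) ∧
      log (mo W (2 * s)) - log (mo W s) ≤ log (mo W (s * (r + 2))) - log (mo W (s * (r + 1))) := by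
  induction r with
  | zero => simp [mul_comm]
  | succ r ih =>
    have p : ∀ j ≤ r + 1 + 2, 0 < mo W (s * j) := fun j a =>
      h.trans_le (mo_anti W (Nat.mul_le_mul_left _ a))
    have := log_le_log (pow_pos (p (r + 2) (by omega)) 2) (mo_cs W (s * (r + 1)) s)
    rw [show s * (r + 1) + 2 * s = s * (r + 1 + 2) by ring,
      log_mul (p _ (by omega)).ne' h.ne', log_pow] at this
    obtain ⟨a, b⟩ := ih (p _ (by omega))
    push_cast at *
    constructor <;> linarith

lemma excl {m r : ℕ} {W : ℕ → Graphon}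
    (h1 : Tendsto (fun n => ratio (star ![m, m, 4 * m]) (star ![2 * m, 2 * m]) (W n)) atTop (𝓝 1))
    (h2 : Tendsto (fun n => ratio (star ![2 * m * (r + 1), 2 * m * (r + 1), 4 * (2 * m * (r + 1))])
      (star ![2 * (2 * m * (r + 1)), 2 * (2 * m * (r + 1))]) (W n)) atTop (𝓝 1)) : False := by
  have nz : ∀ m (W : Graphon) (a : ℝ), 0 < a → a < ratio (star ![m, m, 4 * m]) (star ![2 * m, 2 * m]) W →
      0 < mo W (4 * m) ∧ 2 * log (mo W m) ≤ log (mo W (2 * m)) ∧ log (mo W (4 * m)) ≤ log (mo W (2 * m)) ∧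
      log (mo W (2 * m)) ≤ 0 ∧
        2 * log (mo W (2 * m)) < a * (2 * log (mo W m) + log (mo W (4 * m))) := fun m W a a0 h => by
    obtain ⟨k1, k2, k3⟩ := key m W fun c => by simp [ratio, c, a0.not_gt] at h
    have p := log_le_log k2 (mo_anti W (show 2 * m ≤ 4 * m by omega))
    have q := log_nonpos (mo_nn W (2 * m)) ((mo_anti W (Nat.zero_le _)).trans_eq (mo_zero W))
    rw [k1] at h
    refine ⟨k2, k3, p, q, (lt_div_iff_of_neg (lt_of_le_of_ne (by linarith) fun c => ?_)).1 h⟩
    simp [c, a0.not_gt] at h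
  have r0 : (0 : ℝ) ≤ r := r.cast_nonneg
  set ε : ℝ := 1 / (20 * r + 20) with hε
  have e0 : 0 < ε := by positivity
  have e1 : ε * (20 * r + 20) = 1 := by rw [hε]; field_simp
  obtain ⟨n, a, b⟩ := ((h1.eventually_const_lt (sub_lt_self 1 e0)).and
    (h2.eventually_const_lt (show 9 / 10 < (1 : ℝ) by norm_num))).exists
  obtain ⟨a1, a2, a3, a4, a5⟩ := nz _ _ _ (by nlinarith) a
  obtain ⟨b1, b2, b3, b4, b5⟩ := nz _ _ _ (by norm_num) b
  have c0 := b1.trans_le (mo_anti (W n) (show 2 * m * (2 * r + 2) ≤ _ by nlinarith))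
  have c := (conc (W n) (2 * m) (2 * r) c0).1
  have d := log_le_log ((c0.trans_le (mo_anti (W n) (show 2 * m * (r + 1) ≤ _ by nlinarith))))
    (mo_anti (W n) (show 2 * m ≤ 2 * m * (r + 1) by nlinarith))
  rw [show 2 * m * (2 * r + 2) = 2 * (2 * m * (r + 1)) by ring, show 2 * (2 * m) = 4 * m by ring] at c
  push_cast at c
  generalize log (mo (W n) (2 * m)) = x at *
  generalize log (mo (W n) (4 * m)) = y at *
  have f : (1 - ε) * (x - y) ≤ -2 * ε * x := by nlinarith
  have g : x - y ≤ -4 * ε * x := by nlinarith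
  nlinarith [mul_le_mul_of_nonneg_left g (show (0 : ℝ) ≤ 2 * r + 1 by positivity), mul_nonneg e0.le (neg_nonneg.2 a4)]

theorem main (N : ℕ) (F : Fin N → ℕ → Graphon) : ∃ (V U : Type) (_ : Fintype V) (_ : Fintype U)
    (G : SimpleGraph V) (H : SimpleGraph U) (ρ : ℝ), RhoIs G H ρ ∧
      ∀ i, ¬ Tendsto (fun n => ratio G H (F i n)) atTop (𝓝 ρ) := by
  by_contra! c
  choose f hf using fun j : ℕ => c _ _ _ _ _ _ _ (rho (pow_pos two_pos j))
  obtain ⟨i, j, ij, e⟩ := Finite.exists_ne_map_eq_of_infinite f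
  wlog h : i < j generalizing i j
  · exact this j i ij.symm e.symm (by omega)
  obtain ⟨k, rfl⟩ := Nat.exists_eq_add_of_lt h
  have a := hf (i + k + 1)
  rw [← e, show 2 ^ (i + k + 1) = 2 * 2 ^ i * (2 ^ k - 1 + 1) by
    rw [Nat.sub_add_cancel Nat.one_le_two_pow]; ring] at a
  exact excl (hf i) a

end Pool.Agent.H95.Dom
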