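import Mathlib

set_option autoImplicit false

namespace Pool.Agent.H95.Dom

open MeasureTheory unitInterval
open scoped Classical

/-- Graphons. -/
structure Graphon where
  W : I → I → ℝ
  symm : ∀ x y, W x y = W y x
  meas : Measurable fun p : I × I => W p.1 p.2
  mem : ∀ x y, W x y ∈ Set.Icc (0 : ℝ) 1

/-- The homomorphism density. -/
noncomputable def dens {V : Type} [Fintype V] (G : SimpleGraph V) (W : Graphon) : ℝ :=
  ∫ x : V → I, ∏ e ∈ G.edgeFinset, Sym2.lift ⟨fun a b => W.W (x a) (x b), fun _ _ => W.symm _ _⟩ e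

/-- The ratio `log t(H,W) / log t(G,W)`. -/
noncomputable def ratio {V U : Type} [Fintype V] [Fintype U] (G : SimpleGraph V)
    (H : SimpleGraph U) (W : Graphon) : ℝ :=
  Real.log (dens H W) / Real.log (dens G W)

/-- The density domination exponent is finite and equal to `ρ`. -/
def RhoIs {V U : Type} [Fintype V] [Fintype U] (G : SimpleGraph V) (H : SimpleGraph U)
    (ρ : ℝ) : Prop :=
  (∀ W, dens G W ≠ 0 → dens H W ≠ 0) ∧
    IsLUB {r | ∃ W, dens G W ≠ 0 ∧ dens G W ≠ 1 ∧ r = ratio G H W} ρ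

end Pool.Agent.H95.Dom
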