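import Pool.Agent.H95.EmbedDefs

set_option autoImplicit false
open Filter Topology

namespace Pool.Agent.H95.Embed
open Pool.Agent.H95.EmbedDefs

variable {H : Type*} [NormedAddCommGroup H] [InnerProductSpace ℂ H]

theorem orth_inf [CompleteSpace H] (hH : ¬ FiniteDimensional ℂ H) (e : H) :
    ¬ FiniteDimensional ℂ (ℂ ∙ e)ᗮ := by
  intro h
  apply hH
  have h2 : FiniteDimensional ℂ ((ℂ ∙ e) ⊔ (ℂ ∙ e)ᗮ : Submodule ℂ H) :=
    Submodule.finiteDimensional_sup _ _
  rw [Submodule.sup_orthogonal_of_hasOrthogonalProjection] at h2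
  exact Module.Finite.equiv (Submodule.topEquiv (R := ℂ) (M := H))

theorem exists_unit {V : Submodule ℂ H} (hV : ¬ FiniteDimensional ℂ V) : ∃ e ∈ V, ‖e‖ = 1 := by
  have : V ≠ ⊥ := by
    rintro rfl
    exact hV inferInstance
  obtain ⟨x, hx, hx0⟩ := (Submodule.ne_bot_iff V).1 this
  refine ⟨((‖x‖⁻¹ : ℝ) : ℂ) • x, V.smul_mem _ hx, ?_⟩
  rw [norm_smul, Complex.norm_real, norm_inv, norm_norm, inv_mul_cancel₀ (norm_ne_zero_iff.2 hx0)]

theorem main [CompleteSpace H] (hH : ¬ FiniteDimensional ℂ H) :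
    ∃ T : H →L[ℂ] H, IsPI T ∧ KerInf T ∧ CokerInf T ∧ ¬ Embeddable T := by
  obtain ⟨e, -, he⟩ := exists_unit (orth_inf hH 0)
  obtain ⟨f, hfe, hf⟩ := exists_unit (orth_inf hH e)
  have hef : inner ℂ e f = 0 := (Submodule.mem_orthogonal_singleton_iff_inner_right).1 hfe
  have hee : inner ℂ e e = 1 := by rw [inner_self_eq_norm_sq_to_K, he]; simp
  have hff : inner ℂ f f = 1 := by rw [inner_self_eq_norm_sq_to_K, hf]; simp
  let T : H →L[ℂ] H := (innerSL ℂ e).smulRight f
  have hT : ∀ x, T x = (inner ℂ e x : ℂ) • f := fun x => rfl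
  have hf0 : f ≠ 0 := by rintro rfl; simp at hf
  refine ⟨T, ?_, ?_, ?_, ?_⟩
  · intro x hx
    have h1 := hx (x - (inner ℂ e x : ℂ) • e) (by
      rw [hT, inner_sub_right, inner_smul_right, hee]; simp)
    have h2 : inner ℂ (x - (inner ℂ e x : ℂ) • e) (x - (inner ℂ e x : ℂ) • e) = 0 := by
      rw [inner_sub_right, h1, inner_smul_right, inner_sub_left, inner_smul_left, hee,
        ← inner_conj_symm x e]
      simp
    have h3 : x = (inner ℂ e x : ℂ) • e := sub_eq_zero.1 (inner_self_eq_zero.1 h2)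
    rw [hT, norm_smul, hf]
    conv_rhs => rw [h3, norm_smul, he]
  · have : LinearMap.ker (T : H →ₗ[ℂ] H) = (ℂ ∙ e)ᗮ := by
      ext x
      rw [Submodule.mem_orthogonal_singleton_iff_inner_right, LinearMap.mem_ker]
      change T x = 0 ↔ _
      rw [hT, smul_eq_zero]
      simp [hf0]
    unfold KerInf
    rw [this]
    exact orth_inf hH e
  · have : LinearMap.range (T : H →ₗ[ℂ] H) = (ℂ ∙ f) := by
      ext x
      rw [Submodule.mem_span_singleton, LinearMap.mem_range]
      constructor
      · rintro ⟨y, rfl⟩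
        exact ⟨_, (hT y).symm⟩
      · rintro ⟨c, rfl⟩
        refine ⟨c • e, ?_⟩
        change T _ = _
        rw [hT, inner_smul_right, hee, mul_one]
    unfold CokerInf
    rw [this]
    exact orth_inf hH f
  · rintro ⟨S, h0, hadd, hcont, h1⟩
    have hTe : T e = f := by rw [hT, hee, one_smul]
    have hc : ∀ t, S t f = (inner ℂ e (S t e) : ℂ) • f := by
      intro t
      have a1 : S (t + 1) e = S t f := by rw [hadd, h1, ContinuousLinearMap.mul_apply, hTe]
      have a2 : S (1 + t) e = T (S t e) := by rw [hadd, h1, ContinuousLinearMap.mul_apply]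
      rw [← a1, add_comm, a2, hT]
    -- `S t f = 0` implies `S (t/2) f = 0`
    have half : ∀ t, S t f = 0 → S (t / 2) f = 0 := by
      intro t ht
      have a1 : S t f = S (t / 2) (S (t / 2) f) := by
        conv_lhs => rw [← add_halves t, hadd]
        rfl
      rw [ht, hc (t / 2), map_smul, hc (t / 2), smul_smul] at a1
      have a2 := (smul_eq_zero.1 a1.symm).resolve_right hf0
      rw [hc, mul_self_eq_zero.1 a2, zero_smul]
    have hn : ∀ n : ℕ, S ((1 / 2) ^ n) f = 0 := by
      intro n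
      induction n with
      | zero => rw [pow_zero, h1, hT, hef, zero_smul]
      | succ n ih =>
        have := half _ ih
        rwa [pow_succ, mul_one_div]
    have hlim : Tendsto (fun n : ℕ => S ((1 / 2) ^ n) f) atTop (𝓝 (S 0 f)) :=
      ((hcont f).tendsto 0).comp (NNReal.tendsto_pow_atTop_nhds_zero_of_lt_one (by norm_num))
    simp only [hn, h0, ContinuousLinearMap.one_apply] at hlim
    exact hf0 (tendsto_nhds_unique tendsto_const_nhds hlim).symm

end Pool.Agent.H95.Embed
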