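import Mathlib

set_option autoImplicit false

namespace Pool.Agent.H95.EmbedDefs

variable {H : Type*} [NormedAddCommGroup H] [InnerProductSpace ℂ H]

/-- `T = S 1` for a strongly continuous semigroup `S` indexed by `t ≥ 0`. -/
def Embeddable (T : H →L[ℂ] H) : Prop :=
  ∃ S : NNReal → (H →L[ℂ] H), S 0 = 1 ∧ (∀ s t, S (t + s) = S t * S s) ∧
    (∀ x, Continuous fun t => S t x) ∧ S 1 = T

/-- isometric on the orthogonal complement of the kernel -/
def IsPI (T : H →L[ℂ] H) : Prop :=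
  ∀ x : H, (∀ y : H, T y = 0 → inner ℂ y x = 0) → ‖T x‖ = ‖x‖

/-- the kernel has infinite dimension -/
def KerInf (T : H →L[ℂ] H) : Prop :=
  ¬ FiniteDimensional ℂ (LinearMap.ker (T : H →ₗ[ℂ] H))

/-- the orthogonal complement of the range has infinite dimension -/
def CokerInf (T : H →L[ℂ] H) : Prop :=
  ¬ FiniteDimensional ℂ (LinearMap.range (T : H →ₗ[ℂ] H))ᗮ

end Pool.Agent.H95.EmbedDefs
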