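import Mathlib

namespace Pool.Agent.H95.Equi
open Set Function

variable {X : Type*} [MeasurableSpace X]

theorem meas_sel {ι Y Z : Type*} [Countable ι] [MeasurableSpace ι] [MeasurableSingletonClass ι]
    [MeasurableSpace Y] [MeasurableSpace Z] {F : ι → Y → Z} (hF : ∀ i, Measurable (F i))
    {k : X → ι} (hk : Measurable k) {f : X → Y} (hf : Measurable f) :
    Measurable fun x => F (k x) (f x) :=
  (measurable_from_prod_countable_right (f := fun p : ι × Y => F p.1 p.2) hF).comp (hk.prodMk hf)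

theorem sel (p : X → ℕ → Prop) (hp : ∀ t, MeasurableSet {x | p x t})
    (hinf : ∀ x m, ∃ t, m < t ∧ p x t) : ∃ τ : ℕ → X → ℕ, (∀ s, Measurable (τ s)) ∧
      (∀ s x, p x (τ s x)) ∧ ∀ x, Injective (fun s => τ s x) := by
  classical
  let nx : ℕ → X → ℕ := fun m x => Nat.find (hinf x m)
  have hnx : ∀ m, Measurable (nx m) := fun m => measurable_find (fun x => hinf x m) fun t => by
    by_cases h : m < t
    · simpa [h] using hp t
    · simp [h]
  have sp : ∀ m x, m < nx m x ∧ p x (nx m x) := fun m x => Nat.find_spec (hinf x m)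
  let τ : ℕ → X → ℕ := fun s => Nat.rec (nx 0) (fun _ f x => nx (f x) x) s
  refine ⟨τ, fun s => ?_, fun s x => ?_, fun x => (strictMono_nat_of_lt_succ fun s => ?_).injective⟩
  · induction s with
    | zero => exact hnx 0
    | succ s ih => exact meas_sel hnx ih measurable_id
  · cases s with
    | zero => exact (sp 0 x).2
    | succ s => exact (sp (τ s x) x).2
  · exact (sp (τ s x) x).1

variable (Γ : Type*) [Group Γ] [MulAction Γ X]

def Emb (A B : Set X) : Prop := ∃ (c : ℕ → Γ) (k : X → ℕ), Measurable k ∧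
  (∀ x ∈ A, c (k x) • x ∈ B) ∧ InjOn (fun x => c (k x) • x) A

variable {Γ}

theorem Emb.mono {A B A' B' : Set X} (h : Emb Γ A B) (hA : A' ⊆ A) (hB : B ⊆ B') : Emb Γ A' B' := by
  obtain ⟨c, k, h1, h2, h3⟩ := h
  exact ⟨c, k, h1, fun x hx => hB (h2 x (hA hx)), h3.mono hA⟩

theorem Emb.inter {A B W : Set X} (h : Emb Γ A B) (hW : ∀ (γ : Γ), ∀ x ∈ W, γ • x ∈ W) :
    Emb Γ (A ∩ W) (B ∩ W) := by
  obtain ⟨c, k, h1, h2, h3⟩ := h
  exact ⟨c, k, h1, fun x hx => ⟨h2 x hx.1, hW _ _ hx.2⟩, h3.mono inter_subset_left⟩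

theorem glue {A O : ℕ → Set X} (hA : ∀ n, MeasurableSet (A n)) (hO : Pairwise (Disjoint on O))
    (h : ∀ n, Emb Γ (A n) (O n)) : Emb Γ (⋃ n, A n) (⋃ n, O n) := by
  classical
  choose c k h1 h2 h3 using h
  have ex : ∀ x, ∃ n, x ∈ A n ∨ x ∉ ⋃ n, A n := fun x => by
    by_cases hx : x ∈ ⋃ n, A n
    · obtain ⟨n, hn⟩ := mem_iUnion.1 hx; exact ⟨n, Or.inl hn⟩
    · exact ⟨0, Or.inr hx⟩
  have hm : Measurable fun x => Nat.find (ex x) :=
    measurable_find ex fun n => (hA n).union (MeasurableSet.iUnion hA).compl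
  have hs : ∀ x ∈ ⋃ n, A n, x ∈ A (Nat.find (ex x)) := fun x hx =>
    (Nat.find_spec (ex x)).resolve_right (not_not.2 hx)
  refine ⟨fun m => c m.unpair.1 m.unpair.2,
    fun x => Nat.pair (Nat.find (ex x)) (k (Nat.find (ex x)) x), ?_, fun x hx => ?_,
    fun x hx y hy e => ?_⟩
  · exact meas_sel (F := fun n m => Nat.pair n m) (fun _ => Measurable.of_discrete) hm
      (meas_sel h1 hm measurable_id)
  · simp only [Nat.unpair_pair]
    exact mem_iUnion.2 ⟨_, h2 _ x (hs x hx)⟩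
  · simp only [Nat.unpair_pair] at e
    have a1 := h2 _ x (hs x hx)
    have a2 := h2 _ y (hs y hy)
    have a3 := hs x hx
    have a4 := hs y hy
    generalize Nat.find (ex x) = n at *
    generalize Nat.find (ex y) = m at *
    by_cases hnm : n = m
    · subst hnm; exact h3 n a3 a4 e
    · exact absurd (e ▸ a1) (disjoint_right.1 (hO hnm) a2)

variable [MeasurableConstSMul Γ X]

theorem greedy (e : ℕ → Γ) {A B : Set X} (hA : MeasurableSet A) (hB : MeasurableSet B) :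
    ∃ S : ℕ → Set X, (∀ s, MeasurableSet (S s)) ∧ (∀ s, S s ⊆ A) ∧ Pairwise (Disjoint on S) ∧
      (∀ s, ∀ x ∈ S s, e s • x ∈ B) ∧
      Pairwise (Disjoint on fun s => (fun y => (e s)⁻¹ • y) ⁻¹' S s) ∧
      ∀ x ∈ A, x ∉ ⋃ s, S s → ∀ s, e s • x ∈ B → ∃ j, (e j)⁻¹ • e s • x ∈ S j := by
  let St : ℕ → Set X × Set X → Set X := fun s u => (A \ u.1) ∩ (fun x => e s • x) ⁻¹' (B \ u.2)
  let u : ℕ → Set X × Set X := fun s => Nat.rec (∅, ∅)
    (fun s u => (u.1 ∪ St s u, u.2 ∪ (fun y => (e s)⁻¹ • y) ⁻¹' St s u)) s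
  have u1 : ∀ s, (u (s + 1)).1 = (u s).1 ∪ St s (u s) := fun s => rfl
  have u2 : ∀ s, (u (s + 1)).2 = (u s).2 ∪ (fun y => (e s)⁻¹ • y) ⁻¹' St s (u s) := fun s => rfl
  have mS : ∀ s v, MeasurableSet v.1 → MeasurableSet v.2 → MeasurableSet (St s v) :=
    fun s v h1 h2 => (hA.diff h1).inter (measurable_const_smul _ (hB.diff h2))
  have mu : ∀ s, MeasurableSet (u s).1 ∧ MeasurableSet (u s).2 := fun s => by
    induction s with
    | zero => exact ⟨MeasurableSet.empty, MeasurableSet.empty⟩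
    | succ s ih =>
      exact ⟨ih.1.union (mS _ _ ih.1 ih.2), ih.2.union (measurable_const_smul _ (mS _ _ ih.1 ih.2))⟩
  have sub : ∀ j s, j < s → St j (u j) ⊆ (u s).1 ∧
      (fun y => (e j)⁻¹ • y) ⁻¹' St j (u j) ⊆ (u s).2 := fun j s hjs => by
    induction s, hjs using Nat.le_induction with
    | base => exact ⟨subset_union_right, subset_union_right⟩
    | succ s _ ih => exact ⟨ih.1.trans subset_union_left, ih.2.trans subset_union_left⟩
  have sup : ∀ s, (∀ x ∈ (u s).1, ∃ j, x ∈ St j (u j)) ∧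
      ∀ y ∈ (u s).2, ∃ j, (e j)⁻¹ • y ∈ St j (u j) := fun s => by
    induction s with
    | zero => exact ⟨fun _ h => h.elim, fun _ h => h.elim⟩
    | succ s ih =>
      exact ⟨fun x hx => hx.elim (ih.1 x) fun h => ⟨s, h⟩, fun x hx => hx.elim (ih.2 x) fun h => ⟨s, h⟩⟩
  refine ⟨fun s => St s (u s), fun s => mS _ _ (mu s).1 (mu s).2, fun s x hx => hx.1.1, ?_,
    fun s x hx => hx.2.1, ?_, fun x hx hx' s hs => ?_⟩
  · refine (pairwise_disjoint_on _).2 fun j s hjs => ?_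
    exact disjoint_left.2 fun x h1 h2 => h2.1.2 ((sub j s hjs).1 h1)
  · refine (pairwise_disjoint_on _).2 fun j s hjs => ?_
    refine disjoint_left.2 fun x h1 h2 => h2.2.2 ?_
    simp only [smul_inv_smul]
    exact (sub j s hjs).2 h1
  · by_contra hc
    refine hx' (mem_iUnion.2 ⟨s, ⟨hx, fun h => ?_⟩, hs, fun h => hc ((sup s).2 _ h)⟩)
    exact hx' (mem_iUnion.2 ((sup s).1 x h))

variable [Countable Γ] [MeasurableSpace Γ] [MeasurableSingletonClass Γ]

omit [MeasurableConstSMul Γ X] in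
theorem Emb.of_meas {A B : Set X} {a : X → Γ} (ha : Measurable a) (h1 : ∀ x ∈ A, a x • x ∈ B)
    (h2 : InjOn (fun x => a x • x) A) : Emb Γ A B := by
  obtain ⟨e, he⟩ := exists_surjective_nat Γ
  refine ⟨e, fun x => surjInv he (a x), (Measurable.of_discrete (f := surjInv he)).comp ha, ?_, ?_⟩ <;>
    simpa only [surjInv_eq]

theorem msmul {Y : Type*} [MeasurableSpace Y] {a : Y → Γ} (ha : Measurable a) {f : Y → X}
    (hf : Measurable f) : Measurable fun y => a y • f y :=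
  meas_sel (F := fun (γ : Γ) (x : X) => γ • x) (fun γ => measurable_const_smul γ) ha hf

theorem mmul {Y : Type*} [MeasurableSpace Y] {a b : Y → Γ} (ha : Measurable a) (hb : Measurable b) :
    Measurable fun y => a y * b y :=
  meas_sel (F := fun (γ δ : Γ) => γ * δ) (fun _ => Measurable.of_discrete) ha hb

theorem cancel {K O : Set X} (hK : MeasurableSet K) (hO : MeasurableSet O) {n : ℕ} (hn : 0 < n)
    {a : X × ℕ → Γ} {l : X × ℕ → ℕ} (ha : Measurable a) (hl : Measurable l)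
    (h1 : ∀ y : X × ℕ, y.1 ∈ K → y.2 < n → a y • y.1 ∈ O ∧ l y < n)
    (h2 : InjOn (fun y : X × ℕ => (a y • y.1, l y)) {y | y.1 ∈ K ∧ y.2 < n}) : Emb Γ K O := by
  classical
  obtain ⟨e, he⟩ := exists_surjective_nat Γ
  obtain ⟨S, s1, s2, s3, s4, s5, s6⟩ := greedy e hK hO
  have E0 : Emb Γ (⋃ s, S s) O := by
    refine (glue s1 s5 fun s => ⟨fun _ => e s, fun _ => 0, measurable_const, fun x hx => by simpa,
      (MulAction.injective (e s)).injOn⟩).mono le_rfl (iUnion_subset fun s y hy => ?_)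
    simpa using s4 s _ hy
  set R := K \ ⋃ s, S s with hR
  have mR : MeasurableSet R := hK.diff (MeasurableSet.iUnion s1)
  have sat : ∀ {T : Set X}, MeasurableSet T → MeasurableSet {x | ∃ γ : Γ, γ • x ∈ T} := fun hT => by
    rw [setOf_exists]; exact MeasurableSet.iUnion fun γ => measurable_const_smul γ hT
  have inv : ∀ (T : Set X) (δ : Γ) (x : X), (∃ γ : Γ, γ • x ∈ T) ↔ ∃ γ : Γ, γ • δ • x ∈ T :=
    fun T δ x => ⟨fun ⟨γ, h⟩ => ⟨γ * δ⁻¹, by simpa [mul_smul]⟩, fun ⟨γ, h⟩ => ⟨γ * δ, by simpa [mul_smul]⟩⟩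
  have ex : ∀ y, ∃ j, (e j)⁻¹ • y ∈ S j ∨ ¬ (y ∈ O ∧ ∃ γ : Γ, γ • y ∈ R) := fun y => by
    by_cases hy : y ∈ O ∧ ∃ γ : Γ, γ • y ∈ R
    · obtain ⟨hy, γ, hγ⟩ := hy
      obtain ⟨s, hs⟩ := he γ⁻¹
      obtain ⟨j, hj⟩ := s6 _ hγ.1 hγ.2 s (by simpa [hs])
      exact ⟨j, Or.inl (by simpa [hs] using hj)⟩
    · exact ⟨0, Or.inr hy⟩
  have mj : Measurable fun y => Nat.find (ex y) := measurable_find ex fun j =>
    (measurable_const_smul _ (s1 j)).union (hO.inter (sat mR)).compl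
  let b : X → Γ := fun y => (e (Nat.find (ex y)))⁻¹
  have mb : Measurable b := (Measurable.of_discrete (f := fun j => (e j)⁻¹)).comp mj
  have hb : ∀ y, (y ∈ O ∧ ∃ γ : Γ, γ • y ∈ R) → b y • y ∈ S (Nat.find (ex y)) := fun y hy =>
    (Nat.find_spec (ex y)).resolve_right (not_not.2 hy)
  have binj : InjOn (fun y => b y • y) {y | y ∈ O ∧ ∃ γ : Γ, γ • y ∈ R} := fun y hy z hz h => by
    have a1 := hb y hy
    have a2 := hb z hz
    simp only [b] at h a1 a2
    generalize Nat.find (ex y) = i at *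
    generalize Nat.find (ex z) = j at *
    by_cases hij : i = j
    · subst hij; exact MulAction.injective _ h
    · exact absurd (h ▸ a1) (disjoint_right.1 (s3 hij) a2)
  let Ψ : X × ℕ → X × ℕ := fun y => (b (a y • y.1) • a y • y.1, l y)
  have mΨ : Measurable Ψ :=
    (msmul (mb.comp (msmul ha measurable_fst)) (msmul ha measurable_fst)).prodMk hl
  let Y : Set (X × ℕ) := {y | (y.1 ∈ K ∧ y.2 < n) ∧ ∃ γ : Γ, γ • y.1 ∈ R}
  have hY : ∀ y ∈ Y, a y • y.1 ∈ O ∧ ∃ γ : Γ, γ • a y • y.1 ∈ R := fun y hy =>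
    ⟨(h1 y hy.1.1 hy.1.2).1, (inv _ _ _).1 hy.2⟩
  have mapsΨ : MapsTo Ψ Y Y := fun y hy =>
    ⟨⟨s2 _ (hb _ (hY y hy)), (h1 y hy.1.1 hy.1.2).2⟩, (inv _ _ _).1 (hY y hy).2⟩
  have injΨ : InjOn Ψ Y := fun y hy z hz h => h2 hy.1 hz.1
    (Prod.ext (binj (hY y hy) (hY z hz) (congrArg Prod.fst h)) (congrArg Prod.snd h :))
  have notR : ∀ y ∈ Y, (Ψ y).1 ∉ R := fun y hy h => h.2 (mem_iUnion.2 ⟨_, hb _ (hY y hy)⟩)
  have RY : ∀ r ∈ R, (r, 0) ∈ Y := fun r hr => ⟨⟨hr.1, hn⟩, 1, by simpa⟩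
  have ray : ∀ t t', ∀ r ∈ R, ∀ r' ∈ R, Ψ^[t] (r, 0) = Ψ^[t'] (r', 0) → t = t' ∧ r = r' := by
    intro t
    induction t with
    | zero =>
      intro t' r hr r' hr' h
      cases t' with
      | zero => exact ⟨rfl, congrArg Prod.fst h⟩
      | succ t' =>
        rw [iterate_succ_apply', iterate_zero_apply] at h
        exact absurd (h ▸ hr : (Ψ _).1 ∈ R) (notR _ (mapsΨ.iterate t' (RY _ hr')))
    | succ t ih =>
      intro t' r hr r' hr' h
      cases t' with
      | zero =>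
        rw [iterate_succ_apply', iterate_zero_apply] at h
        exact absurd (h.symm ▸ hr' : (Ψ _).1 ∈ R) (notR _ (mapsΨ.iterate t (RY _ hr)))
      | succ t' =>
        rw [iterate_succ_apply', iterate_succ_apply'] at h
        have := ih t' r hr r' hr' (injΨ (mapsΨ.iterate t (RY _ hr)) (mapsΨ.iterate t' (RY _ hr')) h)
        exact ⟨by rw [this.1], this.2⟩
  have mI : ∀ t, Measurable fun r : X => Ψ^[t] (r, 0) := fun t =>
    (mΨ.iterate t).comp (measurable_id.prodMk measurable_const)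
  have coc : ∀ t, ∃ c : X → Γ, Measurable c ∧ ∀ r, (Ψ^[t] (r, 0)).1 = c r • r := fun t => by
    induction t with
    | zero => exact ⟨fun _ => 1, measurable_const, fun r => by simp⟩
    | succ t ih =>
      obtain ⟨c, mc, hc⟩ := ih
      refine ⟨fun r => b (a (Ψ^[t] (r, 0)) • (Ψ^[t] (r, 0)).1) * (a (Ψ^[t] (r, 0)) * c r),
        mmul (mb.comp (msmul (ha.comp (mI t)) (mI t).fst)) (mmul (ha.comp (mI t)) mc), fun r => ?_⟩
      rw [iterate_succ_apply', mul_smul, mul_smul, ← hc]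
  choose c mc hc using coc
  let Ri : ℕ → Set X := fun i => {r | r ∈ R ∧ ∀ m, ∃ t, m < t ∧ l (Ψ^[t] (r, 0)) = i}
  have ml : ∀ t i, MeasurableSet {r : X | l (Ψ^[t] (r, 0)) = i} := fun t i =>
    (hl.comp (mI t)) (measurableSet_singleton i)
  have mRi : ∀ i, MeasurableSet (Ri i) := fun i => by
    refine mR.inter (s₂ := {r | ∀ m, ∃ t, m < t ∧ l (Ψ^[t] (r, 0)) = i}) ?_
    rw [setOf_forall]
    refine MeasurableSet.iInter fun m => ?_
    rw [setOf_exists]
    exact MeasurableSet.iUnion fun t => (MeasurableSet.const _).inter (ml t i)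
  have Ei : ∀ i, Emb Γ {x | ∃ γ : Γ, γ • x ∈ Ri i} O := fun i => by
    obtain ⟨τ, m1, t1, t2⟩ := sel (fun r t => l (Ψ^[t] (r, 0)) = i ∨ r ∉ Ri i)
      (fun t => (ml t i).union (mRi i).compl) fun r m => by
        by_cases hr : r ∈ Ri i
        · obtain ⟨t, h, h'⟩ := hr.2 m; exact ⟨t, h, Or.inl h'⟩
        · exact ⟨m + 1, m.lt_succ_self, Or.inr hr⟩
    have ex2 : ∀ x, ∃ s, e s • x ∈ Ri i ∨ ¬ ∃ γ : Γ, γ • x ∈ Ri i := fun x => by
      by_cases hx : ∃ γ : Γ, γ • x ∈ Ri i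
      · obtain ⟨γ, hγ⟩ := hx
        obtain ⟨s, rfl⟩ := he γ
        exact ⟨s, Or.inl hγ⟩
      · exact ⟨0, Or.inr hx⟩
    let σ : X → ℕ := fun x => Nat.find (ex2 x)
    have mσ : Measurable σ := measurable_find ex2 fun j =>
      (measurable_const_smul _ (mRi i)).union (sat (mRi i)).compl
    have hσ : ∀ x, (∃ γ : Γ, γ • x ∈ Ri i) → e (σ x) • x ∈ Ri i := fun x hx =>
      (Nat.find_spec (ex2 x)).resolve_right (not_not.2 hx)
    have me : Measurable fun x => e (σ x) := (Measurable.of_discrete (f := e)).comp mσ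
    have mr : Measurable fun x => e (σ x) • x := msmul me measurable_id
    have mt : Measurable fun x => τ (σ x) (e (σ x) • x) := meas_sel m1 mσ mr
    refine Emb.of_meas (a := fun x => a (Ψ^[τ (σ x) (e (σ x) • x)] (e (σ x) • x, 0)) *
      (c (τ (σ x) (e (σ x) • x)) (e (σ x) • x) * e (σ x)))
      (mmul (ha.comp (meas_sel mI mt mr)) (mmul (meas_sel mc mt mr) me)) (fun x hx => ?_)
      fun x hx y hy h => ?_
    · rw [mul_smul, mul_smul, ← hc]
      exact (hY _ (mapsΨ.iterate _ (RY _ (hσ x hx).1))).1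
    · simp only [mul_smul, ← hc] at h
      have q1 := (t1 (σ x) _).resolve_right (not_not.2 (hσ x hx))
      have q2 := (t1 (σ y) _).resolve_right (not_not.2 (hσ y hy))
      have := h2 (mapsΨ.iterate _ (RY _ (hσ x hx).1)).1 (mapsΨ.iterate _ (RY _ (hσ y hy).1)).1
        (Prod.ext h (q1.trans q2.symm))
      obtain ⟨p1, p2⟩ := ray _ _ _ (hσ x hx).1 _ (hσ y hy).1 this
      rw [← p2] at p1
      have p3 : σ x = σ y := t2 _ p1
      rw [p3] at p2
      exact MulAction.injective _ p2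
  let Z : ℕ → Set X := fun i => Nat.casesOn i {x | ¬ ∃ γ : Γ, γ • x ∈ R}
    fun i => {x | ∃ γ : Γ, γ • x ∈ Ri i}
  have mZ : ∀ i, MeasurableSet (Z i) := fun i => by
    cases i with
    | zero => exact (sat mR).compl
    | succ i => exact sat (mRi i)
  have iZ : ∀ i (δ : Γ) x, x ∈ Z i ↔ δ • x ∈ Z i := fun i δ x => by
    cases i with
    | zero => exact not_congr (inv _ _ _)
    | succ i => exact inv _ _ _
  have EZ : ∀ i, Emb Γ (K ∩ Z i) O := fun i => by
    cases i with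
    | zero =>
      refine E0.mono (fun x hx => ?_) le_rfl
      by_contra h; exact hx.2 ⟨1, by simpa using ⟨hx.1, h⟩⟩
    | succ i => exact (Ei i).mono inter_subset_right le_rfl
  have cov : ∀ x, x ∈ ⋃ i, Z i := fun x => by
    by_cases hx : ∃ γ : Γ, γ • x ∈ R
    · obtain ⟨γ, hγ⟩ := hx
      by_contra hc'
      have : ∀ i, ∃ m, ∀ t, m < t → l (Ψ^[t] (γ • x, 0)) ≠ i := fun i => by
        by_contra h
        push Not at h
        exact hc' (mem_iUnion.2 ⟨i + 1, γ, hγ, h⟩)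
      choose m hm using this
      have y1 := (mapsΨ.iterate ((Finset.range n).sup m + 1) (RY _ hγ)).1
      exact hm _ _ (Nat.lt_succ_of_le (Finset.le_sup (Finset.mem_range.2 (h1 _ y1.1 y1.2).2))) rfl
    · exact mem_iUnion.2 ⟨0, hx⟩
  refine (glue (A := fun i => (K ∩ Z i) ∩ disjointed Z i) (O := fun i => O ∩ disjointed Z i)
    (fun i => (hK.inter (mZ i)).inter (MeasurableSet.disjointed mZ i))
    (fun i j hij => (disjoint_disjointed Z hij).mono inter_subset_right inter_subset_right)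
    fun i => (EZ i).inter fun γ x hx => ?_).mono (fun x hx => ?_)
    (iUnion_subset fun i => inter_subset_left)
  · rw [disjointed_eq_inter_compl] at hx ⊢
    refine ⟨(iZ _ _ _).1 hx.1, ?_⟩
    have := hx.2
    simp only [mem_iInter, mem_compl_iff] at this ⊢
    exact fun j hj h => this j hj ((iZ _ _ _).2 h)
  · have := cov x
    rw [← iUnion_disjointed] at this
    obtain ⟨i, hi⟩ := mem_iUnion.1 this
    exact mem_iUnion.2 ⟨i, ⟨hx, disjointed_subset Z i hi⟩, hi⟩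

end Pool.Agent.H95.Equi
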