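import Mathlib

namespace Pool.Agent.H95.Equi
open Set Function

/-- `A` is countably equidecomposable with `B` using left translations and measurable pieces. -/
def CEquid {G : Type*} [Group G] [MeasurableSpace G] (A B : Set G) : Prop :=
  ∃ (P R : ℕ → Set G) (g : ℕ → G), (∀ i, MeasurableSet (P i)) ∧ (∀ i, MeasurableSet (R i)) ∧
    Pairwise (Disjoint on P) ∧ Pairwise (Disjoint on R) ∧ ⋃ i, P i = A ∧ ⋃ i, R i = B ∧
    ∀ i, (fun x => g i * x) '' P i = R i

end Pool.Agent.H95.Equi
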