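import Pool.Agent.H95.Equi1
import Pool.Agent.H95.EquiDefs

namespace Pool.Agent.H95.Equi
open Set Function MeasureTheory Measure Filter Topology

section graph
variable {X : Type*} [MeasurableSpace X] {Γ : Type*} [Group Γ] [MulAction Γ X]
  [MeasurableConstSMul Γ X] [Countable Γ] [MeasurableSpace Γ] [MeasurableSingletonClass Γ]

open Classical in
theorem multigraph {K O : Set X} (hK : MeasurableSet K) (hO : MeasurableSet O) {J : Type*} [Fintype J]
    [Nonempty J] (γ : J → Γ) (D : J → Set X) (hD : ∀ j, MeasurableSet (D j)) {n : ℕ} (hn : 0 < n)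
    (h0 : ∀ j, ∀ x ∈ D j, γ j • x ∈ O)
    (h1 : ∀ x ∈ K, n ≤ (Finset.univ.filter fun j => x ∈ D j).card)
    (h2 : ∀ y, (Finset.univ.filter fun j => (γ j)⁻¹ • y ∈ D j).card ≤ n) : Emb Γ K O := by
  letI : MeasurableSpace J := ⊤
  let fs : (J → Prop) → Finset J := fun S => Finset.univ.filter S
  let out : (J → Prop) → ℕ → J := fun S i =>
    if h : i < (fs S).card then ((fs S).equivFin.symm ⟨i, h⟩ : J) else Classical.arbitrary J
  let inn : (J → Prop) → J → ℕ := fun S j => if h : j ∈ fs S then (fs S).equivFin ⟨j, h⟩ else 0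
  have o1 : ∀ S i, i < (fs S).card → S (out S i) := fun S i h => by
    simp only [out, dif_pos h]
    exact (Finset.mem_filter.1 ((fs S).equivFin.symm ⟨i, h⟩).2).2
  have o2 : ∀ S i i', i < (fs S).card → i' < (fs S).card → out S i = out S i' → i = i' :=
    fun S i i' h h' e => by
      simp only [out, dif_pos h, dif_pos h'] at e
      simpa using (fs S).equivFin.symm.injective (Subtype.ext e)
  have i1 : ∀ S j, S j → inn S j < (fs S).card := fun S j h => by
    have : j ∈ fs S := by simpa [fs]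
    simp only [inn, dif_pos this]; exact Fin.is_lt _
  have i2 : ∀ S j j', S j → S j' → inn S j = inn S j' → j = j' := fun S j j' h h' e => by
    have a : j ∈ fs S := by simpa [fs]
    have a' : j' ∈ fs S := by simpa [fs]
    simp only [inn, dif_pos a, dif_pos a'] at e
    simpa using (fs S).equivFin.injective (Fin.ext e)
  let S : X → J → Prop := fun x j => x ∈ D j
  let T : X → J → Prop := fun y j => (γ j)⁻¹ • y ∈ D j
  have mS : Measurable S := measurable_pi_lambda _ fun j => (hD j).mem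
  have mT : Measurable T := measurable_pi_lambda _ fun j =>
    (measurable_const_smul (γ j)⁻¹ (hD j)).mem
  have mj : Measurable fun y : X × ℕ => out (S y.1) y.2 :=
    meas_sel (F := out) (fun _ => Measurable.of_discrete) (mS.comp measurable_fst) measurable_snd
  have ma : Measurable fun y : X × ℕ => γ (out (S y.1) y.2) :=
    (Measurable.of_discrete (f := γ)).comp mj
  have key : ∀ y : X × ℕ, y.1 ∈ K → y.2 < n → y.1 ∈ D (out (S y.1) y.2) := fun y hy hy' =>
    o1 _ _ (hy'.trans_le (h1 _ hy))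
  refine cancel hK hO hn ma (l := fun y => inn (T (γ (out (S y.1) y.2) • y.1)) (out (S y.1) y.2))
    (meas_sel (F := inn) (fun _ => Measurable.of_discrete) (mT.comp (msmul ma measurable_fst)) mj)
    (fun y hy hy' => ⟨h0 _ _ (key y hy hy'), (i1 _ _ ?_).trans_le (h2 _)⟩) fun y hy z hz e => ?_
  · simpa [T] using key y hy hy'
  · obtain ⟨e1, e2⟩ := Prod.mk.inj e
    have a1 : T (γ (out (S y.1) y.2) • y.1) (out (S y.1) y.2) := by simpa [T] using key y hy.1 hy.2
    have a2 : T (γ (out (S z.1) z.2) • z.1) (out (S z.1) z.2) := by simpa [T] using key z hz.1 hz.2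
    rw [← e1] at e2 a2
    have e3 := i2 _ _ _ a1 a2 e2
    rw [e3] at e1
    have e4 : y.1 = z.1 := MulAction.injective _ e1
    rw [← e4] at e3
    exact Prod.ext e4 (o2 _ _ _ (hy.2.trans_le (h1 _ hy.1)) (hz.2.trans_le (h1 _ hy.1)) e3)

theorem cnt (N : ℕ) (c : ℝ) (h0 : 0 ≤ c) (hc : c ≤ N) :
    (Finset.univ.filter fun l : Fin N => (l : ℝ) + 1 ≤ c).card = ⌊c⌋₊ := by
  have : ⌊c⌋₊ ≤ N := Nat.floor_le_of_le hc
  have e : (Finset.univ.filter fun l : Fin N => (l : ℝ) + 1 ≤ c) =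
      Finset.univ.filter fun l : Fin N => (l : ℕ) < ⌊c⌋₊ := by
    refine Finset.filter_congr fun l _ => ?_
    rw [Nat.lt_iff_add_one_le, Nat.le_floor_iff h0]; push_cast; rfl
  rw [e, Fin.card_filter_val_lt, min_eq_right this]

theorem weights {K O : Set X} (hK : MeasurableSet K) (hO : MeasurableSet O) {ι : Type*} [Fintype ι]
    [Nonempty ι] (γ : ι → Γ) (w : ι → X → ℝ) (hw : ∀ i, Measurable (w i)) (w0 : ∀ i x, 0 ≤ w i x)
    (h0 : ∀ i x, w i x ≠ 0 → γ i • x ∈ O) (h1 : ∀ x ∈ K, 2 ≤ ∑ i, w i x)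
    (h2 : ∀ y, ∑ i, w i ((γ i)⁻¹ • y) ≤ 1) : Emb Γ K O := by
  classical
  set N := Fintype.card ι with hN
  have Np : 0 < N := Fintype.card_pos
  have Np' : (0 : ℝ) < N := by exact_mod_cast Np
  haveI : Nonempty (Fin N) := ⟨⟨0, Np⟩⟩
  have w1 : ∀ i x, N * w i x ≤ N := fun i x => by
    have := (Finset.single_le_sum (f := fun j => w j ((γ j)⁻¹ • γ i • x)) (fun j _ => w0 _ _)
      (Finset.mem_univ i)).trans (h2 (γ i • x))
    rw [inv_smul_smul] at this
    nlinarith
  have card : ∀ x : ι → X, (Finset.univ.filter fun j : ι × Fin N =>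
      (j.2 : ℝ) + 1 ≤ N * w j.1 (x j.1)).card = ∑ i, ⌊N * w i (x i)⌋₊ := fun x => by
    rw [Finset.card_filter, Fintype.sum_prod_type]
    refine Finset.sum_congr rfl fun i _ => ?_
    rw [← cnt N _ (mul_nonneg Np'.le (w0 _ _)) (w1 _ _), Finset.card_filter]
  refine multigraph hK hO (J := ι × Fin N) (fun j => γ j.1) (fun j => {x | (j.2 : ℝ) + 1 ≤ N * w j.1 x})
    (fun j => measurableSet_le measurable_const ((hw _).const_mul _)) Np
    (fun j x hx => h0 _ _ fun h => ?_) (fun x hx => ?_) fun y => ?_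
  · have : (j.2 : ℝ) + 1 ≤ N * w j.1 x := hx
    rw [h, mul_zero] at this
    linarith [Nat.cast_nonneg (α := ℝ) j.2]
  · refine le_of_le_of_eq ?_ ((card fun _ => x).symm.trans (by congr))
    have : ∑ i, (N * w i x - 1) ≤ ∑ i, (⌊N * w i x⌋₊ : ℝ) :=
      Finset.sum_le_sum fun i _ => (Nat.sub_one_lt_floor _).le
    rw [Finset.sum_sub_distrib, ← Finset.mul_sum, Finset.sum_const, Finset.card_univ, ← hN,
      nsmul_eq_mul, mul_one] at this
    have h3 : (N : ℝ) ≤ ∑ i, (⌊N * w i x⌋₊ : ℝ) := by nlinarith [h1 x hx]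
    exact_mod_cast h3
  · refine le_of_eq_of_le (Eq.trans (by congr) (card fun i => (γ i)⁻¹ • y)) ?_
    have : ∑ i, (⌊N * w i ((γ i)⁻¹ • y)⌋₊ : ℝ) ≤ ∑ i, N * w i ((γ i)⁻¹ • y) :=
      Finset.sum_le_sum fun i _ => Nat.floor_le (mul_nonneg Np'.le (w0 _ _))
    rw [← Finset.mul_sum] at this
    have h3 : ∑ i, (⌊N * w i ((γ i)⁻¹ • y)⌋₊ : ℝ) ≤ N := by nlinarith [h2 y]
    exact_mod_cast h3

end graph

variable {G : Type*} [Group G] [TopologicalSpace G] [IsTopologicalGroup G] [LocallyCompactSpace G]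
  [T2Space G] [MeasurableSpace G] [BorelSpace G]

theorem riemann {E : Type*} [NormedAddCommGroup E] [NormedSpace ℝ E] [CompleteSpace E]
    (ν : Measure G) [IsFiniteMeasureOnCompacts ν] [IsOpenPosMeasure ν] {Ψ : G → E}
    (hc : Continuous Ψ) (hs : HasCompactSupport Ψ) {η : ℝ} (hη : 0 < η) :
    ∃ (ι : Type) (_ : Fintype ι) (_ : Nonempty ι) (c : ι → ℝ) (z : ι → G), (∀ i, 0 ≤ c i) ∧
      ‖∑ i, c i • Ψ (z i) - ∫ x, Ψ x ∂ν‖ < η := by
  obtain ⟨T, hT, hT1, hT2⟩ : ∃ T : Set G, IsCompact T ∧ T ∈ 𝓝 1 ∧ tsupport Ψ ⊆ T := by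
    obtain ⟨W, hW, hW1⟩ := exists_compact_mem_nhds (1 : G)
    exact ⟨W ∪ tsupport Ψ, hW.union hs, mem_of_superset hW1 subset_union_left, subset_union_right⟩
  have h0 : ν T ≠ 0 := (measure_pos_of_mem_nhds ν hT1).ne'
  have h1 : ν T ≠ ⊤ := hT.measure_lt_top.ne
  have hp : 0 < ν.real T := ENNReal.toReal_pos h0 h1
  have := (convex_convexHull ℝ (range Ψ)).set_average_mem_closure h0 h1
    (ae_of_all _ fun x => subset_convexHull ℝ _ (mem_range_self x))
    (hc.integrable_of_hasCompactSupport hs).integrableOn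
  rw [setAverage_eq, setIntegral_eq_integral_of_forall_compl_eq_zero
    fun x hx => image_eq_zero_of_notMem_tsupport fun h => hx (hT2 h)] at this
  obtain ⟨v, hv, hd⟩ := Metric.mem_closure_iff.1 this (η / ν.real T) (by positivity)
  obtain ⟨ι, _, c, z, c0, c1, hz, rfl⟩ := mem_convexHull_iff_exists_fintype.1 hv
  choose x hx using hz
  refine ⟨ι, inferInstance, ?_, fun i => ν.real T * c i, x, fun i => mul_nonneg hp.le (c0 i), ?_⟩
  · by_contra h
    rw [not_nonempty_iff] at h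
    simp at c1
  · have e : ∑ i, (ν.real T * c i) • Ψ (x i) - ∫ x, Ψ x ∂ν =
        ν.real T • (∑ i, c i • z i - (ν.real T)⁻¹ • ∫ x, Ψ x ∂ν) := by
      simp only [hx, smul_sub, Finset.smul_sum, smul_smul, mul_inv_cancel₀ hp.ne', one_smul]
    rw [e, norm_smul, Real.norm_eq_abs, abs_of_pos hp, ← dist_eq_norm, dist_comm]
    rwa [lt_div_iff₀' hp] at hd

theorem compare (μ : Measure G) [IsHaarMeasure μ] {K O : Set G} (hK : IsCompact K) (hO : IsOpen O)
    {f g : G → ℝ} (hf : Continuous f) (hf' : HasCompactSupport f) (f1 : EqOn f 1 K) (f0 : 0 ≤ f)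
    (hg : Continuous g) (hg' : HasCompactSupport g) (g0 : 0 ≤ g) (g1 : ∀ x, g x ≤ 1)
    (gO : ∀ x, g x ≠ 0 → x ∈ O) {x₀ : G} (gp : g x₀ ≠ 0) (hI : ∫ x, f x ∂μ ≤ (∫ x, g x ∂μ) / 8) :
    Emb G K O := by
  set ν := μ.inv
  let D : G → ℝ := fun x => ∫ y, g (y⁻¹ * x) ∂ν
  have Dc : Continuous D := continuous_integral_apply_inv_mul hg hg'
  have Dp : ∀ x, 0 < D x := fun x =>
    Continuous.integral_pos_of_hasCompactSupport_nonneg_nonzero (x := x * x₀⁻¹) (by fun_prop)
      (hg'.comp_homeomorph ((Homeomorph.inv G).trans (Homeomorph.mulRight x))) (fun y => g0 (y⁻¹ * x))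
      (by simpa using gp)
  have Ip : 0 < ∫ x, g x ∂μ := hg.integral_pos_of_hasCompactSupport_nonneg_nonzero hg' g0 gp
  have combo := integral_isMulLeftInvariant_isMulRightInvariant_combo (μ := μ) (ν := ν) hf hf' hg hg'
    g0 gp
  have hθ : ∫ y, f y * (D y)⁻¹ ∂ν ≤ 1 / 8 := by
    refine le_of_mul_le_mul_right ?_ Ip
    rw [← combo]; linarith
  let W : G → G → ℝ := fun z x => f x * (D x)⁻¹ * g (z⁻¹ * x)
  have Wc : Continuous fun p : G × G => W p.1 p.2 :=
    ((hf.comp continuous_snd).mul ((Dc.comp continuous_snd).inv₀ fun _ => (Dp _).ne')).mul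
      (by fun_prop)
  have W0 : ∀ z x, 0 ≤ W z x := fun z x => mul_nonneg (mul_nonneg (f0 _) (inv_pos.2 (Dp _)).le) (g0 _)
  haveI : CompactSpace K := isCompact_iff_compactSpace.1 hK
  haveI : CompactSpace (tsupport g) := isCompact_iff_compactSpace.1 hg'
  let A : C(G × K, ℝ) := ⟨fun p => W p.1 p.2, 
    Wc.comp (f := fun p : G × K => (p.1, (p.2 : G))) (by fun_prop)⟩
  let B : C(G × tsupport g, ℝ) := ⟨fun p => W p.1 (p.1 * p.2),
    Wc.comp (f := fun p : G × tsupport g => (p.1, p.1 * p.2)) (by fun_prop)⟩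
  let Ψ : G → C(K, ℝ) × C(tsupport g, ℝ) := fun z => (A.curry z, B.curry z)
  have Ψc : Continuous Ψ := A.curry.continuous.prodMk B.curry.continuous
  have W1 : ∀ z, z ∉ (fun p : G × G => p.1 * p.2⁻¹) '' (tsupport f ×ˢ tsupport g) → ∀ x, W z x = 0 := by
    intro z hz x
    by_contra h
    have a1 : f x ≠ 0 := fun h' => h (by simp [W, h'])
    have a2 : g (z⁻¹ * x) ≠ 0 := fun h' => h (by simp [W, h'])
    exact hz ⟨(x, z⁻¹ * x), ⟨subset_tsupport _ a1, subset_tsupport _ a2⟩, by simp⟩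
  have Ψs : HasCompactSupport Ψ := HasCompactSupport.intro
    ((IsCompact.prod hf' hg').image (f := fun p : G × G => p.1 * p.2⁻¹) (by fun_prop)) fun z hz => by
      ext x <;> exact W1 z hz _
  have Ψi := Ψc.integrable_of_hasCompactSupport (μ := ν) Ψs
  obtain ⟨ι, _, _, c, z, c0, hz⟩ := riemann ν Ψc Ψs (η := 1 / 8) (by norm_num)
  have ev : ∀ L : (C(K, ℝ) × C(tsupport g, ℝ)) →L[ℝ] ℝ, (∀ v, |L v| ≤ ‖v‖) →
      |∑ i, c i * L (Ψ (z i)) - ∫ x, L (Ψ x) ∂ν| < 1 / 8 := fun L hL => by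
    have := (hL _).trans_lt hz
    rw [map_sub, _root_.map_sum, ← L.integral_comp_comm Ψi] at this
    simpa only [map_smul, smul_eq_mul] using this
  let H := (FreeGroup.lift fun i => (z i)⁻¹).range
  haveI : Countable H := (countable_range (FreeGroup.lift fun i => (z i)⁻¹)).to_subtype
  haveI : MeasurableConstSMul H G := ⟨fun c => measurable_const_mul (c : G)⟩
  have := weights (Γ := H) hK.measurableSet hO.measurableSet
    (fun i => ⟨(z i)⁻¹, FreeGroup.of i, by simp⟩) (fun i x => 4 * (c i * W (z i) x))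
    (fun i => ((Wc.comp (f := fun x => (z i, x)) (by fun_prop)).measurable.const_mul _).const_mul _)
    (fun i x => by have := c0 i; have := W0 (z i) x; positivity)
    (fun i x h => gO _ fun h' => h (by
      have : g ((z i)⁻¹ * x) = 0 := h'
      simp [W, this])) (fun x hx => ?_) fun y => ?_
  · obtain ⟨c, k, h1, h2, h3⟩ := this
    exact ⟨fun n => c n, k, h1, h2, h3⟩
  · have := ev ((ContinuousMap.evalCLM ℝ (⟨x, hx⟩ : K)).comp (ContinuousLinearMap.fst ℝ _ _))
      fun v => (v.1.norm_coe_le_norm _).trans (norm_fst_le v)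
    change |∑ i, c i * W (z i) x - ∫ u, f x * (D x)⁻¹ * g (u⁻¹ * x) ∂ν| < _ at this
    rw [integral_const_mul, f1 hx, Pi.one_apply, one_mul, inv_mul_cancel₀ (Dp x).ne'] at this
    rw [← Finset.mul_sum]
    linarith [(abs_lt.1 this).1]
  · rw [← Finset.mul_sum]
    change 4 * ∑ i, c i * W (z i) ((z i)⁻¹⁻¹ * y) ≤ 1
    simp only [inv_inv]
    by_cases hy : y ∈ tsupport g
    · have := ev ((ContinuousMap.evalCLM ℝ (⟨y, hy⟩ : tsupport g)).comp
        (ContinuousLinearMap.snd ℝ _ _)) fun v => (v.2.norm_coe_le_norm _).trans (norm_snd_le v)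
      change |∑ i, c i * W (z i) (z i * y) -
        ∫ u, f (u * y) * (D (u * y))⁻¹ * g (u⁻¹ * (u * y)) ∂ν| < _ at this
      simp only [inv_mul_cancel_left] at this
      rw [integral_mul_const, integral_mul_right_eq_self (fun u => f u * (D u)⁻¹)] at this
      have h0 : 0 ≤ ∫ y, f y * (D y)⁻¹ ∂ν :=
        integral_nonneg fun u => mul_nonneg (f0 _) (inv_pos.2 (Dp _)).le
      nlinarith [(abs_lt.1 this).2, g1 y, mul_le_mul_of_nonneg_left (g1 y) h0]
    · simp [W, image_eq_zero_of_notMem_tsupport hy]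

theorem null_compact (μ : Measure G) [IsHaarMeasure μ] [Regular μ] {E L : Set G}
    (hE : MeasurableSet E) (h0 : μ E = 0) (hL : IsCompact L) {O : ℕ → Set G}
    (hO : ∀ j, IsOpen (O j)) (hne : ∀ j, (O j).Nonempty) (hd : Pairwise (Disjoint on O)) :
    Emb G (E ∩ L) (⋃ j, O j) := by
  have : ∀ j, ∃ ε : ENNReal, 0 < ε ∧ ∀ K, IsCompact K → μ K < ε → Emb G K (O j) := fun j => by
    obtain ⟨x₀, hx⟩ := hne j
    obtain ⟨g, g1, g2, g3, g4⟩ := exists_continuous_one_zero_of_isCompact (isCompact_singleton (x := x₀))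
      (hO j).isClosed_compl (by simpa)
    have gp : g x₀ ≠ 0 := by rw [g1 rfl]; simp
    have Ip : 0 < ∫ x, g x ∂μ :=
      g.continuous.integral_pos_of_hasCompactSupport_nonneg_nonzero g3 (fun x => (g4 x).1) gp
    refine ⟨ENNReal.ofReal ((∫ x, g x ∂μ) / 8), by simpa, fun K hK h => ?_⟩
    rw [hK.measure_eq_biInf_integral_hasCompactSupport] at h
    simp only [iInf_lt_iff] at h
    obtain ⟨f, f1, f2, f3, f4, f5⟩ := h
    exact compare μ hK (hO j) f1 f2 f3 f4 g.continuous g3 (fun x => (g4 x).1) (fun x => (g4 x).2)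
      (fun x h => by_contra fun h' => h (g2 h')) gp
      ((ENNReal.ofReal_lt_ofReal_iff (by positivity)).1 f5).le
  choose ε εp hε using this
  have fin : μ (L \ E) ≠ ⊤ := ((measure_mono diff_subset).trans_lt hL.measure_lt_top).ne
  obtain ⟨S, S1, ⟨φ, φc, -, rfl⟩, S2⟩ :=
    (innerRegularWRT_preimage_one_hasCompactSupport_measure_ne_top_of_group (μ := μ)).exists_subset_lt_add
      (by
        obtain ⟨f, -, -, -⟩ := exists_continuous_nonneg_pos (1 : G)
        exact ⟨0, continuous_const, HasCompactSupport.zero, by ext; simp⟩)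
      ⟨hL.measurableSet.diff hE, fin⟩ fin (εp 0).ne'
  have mS : MeasurableSet (φ ⁻¹' {1}) := (isClosed_singleton.preimage φc).measurableSet
  have small : μ (L \ φ ⁻¹' {1}) < ε 0 := by
    rw [measure_diff_null h0] at S2
    exact measure_diff_lt_of_lt_add mS.nullMeasurableSet (S1.trans diff_subset)
      ((measure_mono (S1.trans diff_subset)).trans_lt hL.measure_lt_top).ne S2
  let ψ : G → ℝ := fun x => |φ x - 1|
  have ψc : Continuous ψ := by fun_prop
  let Wm : ℕ → Set G := fun m => L ∩ {x | 0 < ψ x ∧ ψ x ≤ 1 / ((m : ℝ) + 1)}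
  have lim : Tendsto (fun m => μ (Wm m)) atTop (𝓝 0) := by
    have := tendsto_measure_iInter_atTop (μ := μ) (s := Wm) (fun m => (hL.measurableSet.inter
      ((measurableSet_lt measurable_const ψc.measurable).inter
        (measurableSet_le ψc.measurable measurable_const))).nullMeasurableSet)
      (fun m n hmn x hx => ⟨hx.1, hx.2.1, hx.2.2.trans (Nat.one_div_le_one_div hmn)⟩)
      ⟨0, ((measure_mono inter_subset_left).trans_lt hL.measure_lt_top).ne⟩
    have e : ⋂ m, Wm m = ∅ := by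
      refine eq_empty_of_forall_notMem fun x hx => ?_
      rw [mem_iInter] at hx
      obtain ⟨n, hn⟩ := exists_nat_one_div_lt (hx 0).2.1
      exact absurd (hx n).2.2 (not_le.2 hn)
    rwa [e, measure_empty] at this
  have : ∀ j, ∃ m, μ (Wm m) < ε (j + 1) ∧ j ≤ m := fun j =>
    ((lim.eventually (gt_mem_nhds (εp (j + 1)))).and (eventually_ge_atTop j)).exists
  choose m m1 m2 using this
  let D : ℕ → Set G := fun j => Nat.casesOn j (L ∩ {x | 1 / ((m 0 : ℝ) + 1) ≤ ψ x})
    fun j => L ∩ {x | 1 / ((m (j + 1) : ℝ) + 1) ≤ ψ x ∧ ψ x ≤ 1 / ((m j : ℝ) + 1)}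
  have Dc : ∀ j, IsCompact (D j) := fun j => by
    cases j with
    | zero => exact hL.inter_right (isClosed_le continuous_const ψc)
    | succ j => exact hL.inter_right ((isClosed_le continuous_const ψc).inter
        (isClosed_le ψc continuous_const))
  have Dm : ∀ j, μ (D j) < ε j := fun j => by
    cases j with
    | zero =>
      refine lt_of_le_of_lt (measure_mono fun x hx => (⟨hx.1, fun h => ?_⟩ : x ∈ L \ _)) small
      have h1 : φ x = 1 := h
      have h2 : 1 / ((m 0 : ℝ) + 1) ≤ |φ x - 1| := hx.2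
      rw [h1, sub_self, abs_zero] at h2
      exact absurd h2 (not_le.2 Nat.one_div_pos_of_nat)
    | succ j =>
      exact lt_of_le_of_lt (measure_mono fun x hx =>
        (⟨hx.1, Nat.one_div_pos_of_nat.trans_le hx.2.1, hx.2.2⟩ : x ∈ Wm (m j))) (m1 j)
  refine (glue (fun j => (Dc j).measurableSet) hd fun j => hε j _ (Dc j) (Dm j)).mono
    (fun x hx => ?_) le_rfl
  have hp : 0 < ψ x := abs_pos.2 (sub_ne_zero.2 fun h => (S1 h).2 hx.1)
  have ex : ∃ j, 1 / ((m j : ℝ) + 1) ≤ ψ x := by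
    obtain ⟨n, hn⟩ := exists_nat_one_div_lt hp
    exact ⟨n, (Nat.one_div_le_one_div (m2 n)).trans hn.le⟩
  classical
  have a1 := Nat.find_spec ex
  have a2 := @Nat.find_min _ _ ex
  refine mem_iUnion.2 ⟨Nat.find ex, ?_⟩
  generalize Nat.find ex = j at *
  cases j with
  | zero => exact ⟨hx.2, a1⟩
  | succ j => exact ⟨hx.2, a1, (not_le.1 (a2 j.lt_succ_self)).le⟩

theorem sigma_cover (μ : Measure G) [IsHaarMeasure μ] [Regular μ] {V : Set G} (hV : IsOpen V)
    (hf : μ V ≠ ⊤) : ∃ L : ℕ → Set G, (∀ n, IsCompact (L n)) ∧ V ⊆ ⋃ n, L n := by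
  have : ∀ n : ℕ, ∃ K ⊆ V, IsCompact K ∧ μ (V \ K) < (n : ENNReal)⁻¹ := fun n =>
    hV.measurableSet.exists_isCompact_sdiff_lt hf (by simp)
  choose K K1 K2 K3 using this
  obtain ⟨W, hW, hW1⟩ := exists_compact_mem_nhds (1 : G)
  refine ⟨fun n => (fun p : G × G => p.1 * p.2) '' (K n ×ˢ W),
    fun n => ((K2 n).prod hW).image continuous_mul, fun x hx => ?_⟩
  have h1 : V ∩ (fun y => y⁻¹ * x) ⁻¹' W ∈ 𝓝 x := inter_mem (hV.mem_nhds hx)
    ((show Continuous fun y : G => y⁻¹ * x by fun_prop).continuousAt.preimage_mem_nhds (by simpa))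
  obtain ⟨n, hn⟩ := ENNReal.exists_inv_nat_lt (measure_pos_of_mem_nhds μ h1).ne'
  obtain ⟨y, hy, hy'⟩ := not_subset.1 fun h => absurd (measure_mono h) (not_le.2 ((K3 n).trans hn))
  have : y ∈ K n := by_contra fun h => hy' ⟨hy.1, h⟩
  exact mem_iUnion.2 ⟨n, (y, y⁻¹ * x), ⟨this, hy.2⟩, by simp⟩

theorem main (μ : Measure G) [IsHaarMeasure μ] [OuterRegular μ] {E U : Set G}
    (hE : MeasurableSet E) (h0 : μ E = 0) (hU : IsOpen U) (hne : U.Nonempty) :
    ∃ F ⊆ U, CEquid E F := by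
  have hE0 : (haar : Measure G) E = 0 := by
    refine le_antisymm (ENNReal.le_of_forall_pos_le_add fun ε hε _ => ?_) zero_le
    have := ENNReal.continuous_const_mul (a := haarScalarFactor (haar : Measure G) μ) ENNReal.coe_ne_top
    have h1 := (this.tendsto 0).eventually (gt_mem_nhds (a := (ε : ENNReal)) (by simpa))
    obtain ⟨r, hr, hr'⟩ := (ENNReal.nhds_zero_basis.eventually_iff.1 h1)
    obtain ⟨V, hV, hV1, hV2⟩ := E.exists_isOpen_lt_of_lt (μ := μ) r (by rwa [h0])
    rw [zero_add]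
    refine (measure_mono hV).trans ?_
    rw [measure_isHaarMeasure_eq_smul_of_isOpen haar μ hV1]
    exact (hr' hV2).le
  suffices h : Emb G E U by
    obtain ⟨c, k, h1, h2, h3⟩ := h
    have mP : ∀ i, MeasurableSet (E ∩ k ⁻¹' {i}) := fun i => hE.inter (h1 (measurableSet_singleton i))
    refine ⟨⋃ i, (fun x => c i * x) '' (E ∩ k ⁻¹' {i}), iUnion_subset fun i => ?_,
      fun i => E ∩ k ⁻¹' {i}, fun i => (fun x => c i * x) '' (E ∩ k ⁻¹' {i}), c, mP,
      fun i => (MeasurableEquiv.mulLeft (c i)).measurableEmbedding.measurableSet_image.2 (mP i),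
      fun i j hij => disjoint_left.2 fun x h h' => hij (h.2.symm.trans h'.2),
      fun i j hij => disjoint_left.2 ?_, ?_, rfl, fun i => rfl⟩
    · rintro _ ⟨x, ⟨hx, rfl⟩, rfl⟩; exact h2 x hx
    · rintro _ ⟨x, ⟨hx, rfl⟩, rfl⟩ ⟨y, ⟨hy, rfl⟩, e⟩
      exact hij (congrArg k (h3 hx hy e.symm))
    · ext x; simp
  by_cases hi : U.Finite
  · obtain ⟨x, hx⟩ := hne
    have h1 : IsOpen ({x} : Set G) := by
      have : ({x} : Set G) = U \ (U \ {x}) := by rw [diff_diff_cancel_left (by simpa)]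
      rw [this]; exact hU.sdiff (hi.subset diff_subset).isClosed
    have h2 : E = ∅ := eq_empty_of_forall_notMem fun y hy => by
      have h3 : IsOpen ({y} : Set G) := by
        simpa using isOpenMap_mul_left (y * x⁻¹) _ h1
      exact absurd (measure_mono_null (singleton_subset_iff.2 hy) h0)
        (h3.measure_pos μ ⟨y, rfl⟩).ne'
    exact ⟨1, 0, measurable_const, by simp [h2], by simp [h2]⟩
  haveI : Infinite U := Set.Infinite.to_subtype hi
  obtain ⟨O, O1, O2, O3⟩ := exists_seq_infinite_isOpen_pairwise_disjoint U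
  obtain ⟨V, hV, hV1, hV2⟩ := E.exists_isOpen_lt_of_lt (μ := haar) 1 (by simp [hE0])
  obtain ⟨L, L1, L2⟩ := sigma_cover haar hV1 (hV2.trans ENNReal.one_lt_top).ne
  have dis : Pairwise (Disjoint on fun m => Subtype.val '' O m) := fun i j hij =>
    (disjoint_image_iff Subtype.val_injective).2 (O3 hij)
  refine (glue (A := fun n => E ∩ L n) (O := fun n => ⋃ j, Subtype.val '' O (Nat.pair n j))
    (fun n => hE.inter (L1 n).measurableSet) (fun n n' h => ?_) fun n => null_compact haar hE hE0 (L1 n)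
      (fun j => hU.isOpenMap_subtype_val _ (O2 _)) (fun j => (O1 _).nonempty.image _)
      fun j j' h => dis (by simpa)).mono (fun x hx => ?_) ?_
  · exact disjoint_iUnion_left.2 fun j => disjoint_iUnion_right.2 fun j' => dis (by simp [h])
  · obtain ⟨n, hn⟩ := mem_iUnion.1 (L2 (hV hx))
    exact mem_iUnion.2 ⟨n, hx, hn⟩
  · exact iUnion_subset fun n => iUnion_subset fun j => by rintro _ ⟨x, -, rfl⟩; exact x.2

end Pool.Agent.H95.Equi
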