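import Pool.Agent.H95.EqvDefs

namespace Pool.Agent.H95.Eqv
open Function

def Lip0 (X : Type*) [NormedAddCommGroup X] : Submodule ℝ (X → ℝ) where
  carrier := {f | f 0 = 0 ∧ ∃ K, LipschitzWith K f}
  add_mem' := fun ⟨a, K, h⟩ ⟨b, L, k⟩ => ⟨by simp [a, b], K + L, h.add k⟩
  zero_mem' := ⟨rfl, 0, LipschitzWith.const' 0⟩
  smul_mem' := fun c _ ⟨a, K, h⟩ => ⟨by simp [a], ‖c‖₊ * K, (lipschitzWith_smul c).comp h⟩

abbrev H : Type := lp (fun _ : ℕ => ℝ) 2

theorem nsq (x : H) : HasSum (fun i => x i ^ 2) (‖x‖ ^ 2) := by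
  simpa using lp.hasSum_norm (p := 2) (by norm_num) x

noncomputable def pull (τ : ℕ → ℕ) (h : Injective τ) : H →L[ℝ] H :=
  LinearMap.mkContinuous
    { toFun := fun x => ⟨fun i => x (τ i), memℓp_gen (by
        simpa [Function.comp_def] using (nsq x).summable.comp_injective h)⟩
      map_add' := fun _ _ => rfl
      map_smul' := fun _ _ => rfl } 1 fun x => by
    rw [one_mul]
    refine (sq_le_sq₀ (norm_nonneg _) (norm_nonneg _)).1 ?_
    exact hasSum_le_inj τ h (fun _ _ => sq_nonneg _) (fun _ => le_rfl) (nsq _) (nsq x)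

theorem pull_apply (τ : ℕ → ℕ) (h : Injective τ) (x : H) (i : ℕ) : pull τ h x i = x (τ i) := rfl

theorem pull_sq (τ : ℕ → ℕ) (h : Injective τ) (x : H) :
    HasSum (fun i => x (τ i) ^ 2) (‖pull τ h x‖ ^ 2) := nsq (pull τ h x)

noncomputable def perm (σ : ℕ ≃ ℕ) : H ≃ₗᵢ[ℝ] H where
  toLinearMap := pull σ σ.injective
  invFun := pull σ.symm σ.symm.injective
  left_inv x := by ext i; simp [pull_apply]
  right_inv x := by ext i; simp [pull_apply]
  norm_map' x := (sq_eq_sq₀ (norm_nonneg _) (norm_nonneg _)).1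
    ((pull_sq σ σ.injective x).unique ((σ.hasSum_iff (f := fun i => x i ^ 2)).2 (nsq x)))

theorem exists_perm {a b : ℕ → ℕ} (ha : Injective a) (hb : Injective b)
    (ia : (Set.range a)ᶜ.Infinite) (ib : (Set.range b)ᶜ.Infinite) :
    ∃ σ : ℕ ≃ ℕ, ∀ i, σ (a i) = b i := by
  classical
  haveI := ia.to_subtype
  haveI := ib.to_subtype
  obtain ⟨f⟩ : Nonempty (↥(Set.range a)ᶜ ≃ ↥(Set.range b)ᶜ) := nonempty_equiv_of_countable
  refine ⟨Equiv.subtypeCongr ((Equiv.ofInjective a ha).symm.trans (Equiv.ofInjective b hb)) f,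
    fun i => ?_⟩
  simp [Equiv.subtypeCongr]

theorem lip {E : Type*} [NormedAddCommGroup E] [NormedSpace ℝ E] (l : H →L[ℝ] ℝ) (A : H →L[ℝ] E) :
    (fun x => l x * ‖A x‖ ^ 2 / ‖x‖ ^ 2) ∈ Lip0 H := by
  have key : ∀ x y : H, ‖y‖ ≤ ‖x‖ → |l x * ‖A x‖ ^ 2 / ‖x‖ ^ 2 - l y * ‖A y‖ ^ 2 / ‖y‖ ^ 2| ≤
      5 * ‖l‖ * ‖A‖ ^ 2 * ‖x - y‖ := fun x y hxy => by
    have sb : ∀ z : H, ‖A z‖ / ‖z‖ ≤ ‖A‖ := fun z => A.ratio_le_opNorm z
    have h1 : |l x - l y| ≤ ‖l‖ * ‖x - y‖ := by rw [← map_sub]; exact l.le_opNorm _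
    have h2 : |l y| * |‖A x‖ / ‖x‖ - ‖A y‖ / ‖y‖| ≤ ‖l‖ * (2 * ‖A‖ * ‖x - y‖) := by
      rcases eq_or_ne y 0 with rfl | hy
      · simp only [map_zero, abs_zero, zero_mul]; positivity
      have Y : 0 < ‖y‖ := norm_pos_iff.2 hy
      have X : 0 < ‖x‖ := Y.trans_le hxy
      have a1 : |‖A x‖ - ‖A y‖| ≤ ‖A‖ * ‖x - y‖ :=
        (abs_norm_sub_norm_le _ _).trans (by rw [← map_sub]; exact A.le_opNorm _)
      have a2 := abs_norm_sub_norm_le x y
      have a3 := A.le_opNorm y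
      have e : ‖A x‖ / ‖x‖ - ‖A y‖ / ‖y‖ =
          ((‖A x‖ - ‖A y‖) * ‖y‖ - ‖A y‖ * (‖x‖ - ‖y‖)) / (‖x‖ * ‖y‖) := by field_simp; ring
      have a4 : |(‖A x‖ - ‖A y‖) * ‖y‖ - ‖A y‖ * (‖x‖ - ‖y‖)| ≤ 2 * ‖A‖ * ‖x - y‖ * ‖y‖ := by
        refine (abs_sub _ _).trans ?_
        rw [abs_mul, abs_mul, abs_of_pos Y, abs_norm]
        nlinarith [mul_le_mul a3 a2 (abs_nonneg _) (by positivity), mul_le_mul_of_nonneg_right a1 Y.le]
      have a5 : |‖A x‖ / ‖x‖ - ‖A y‖ / ‖y‖| * ‖y‖ ≤ 2 * ‖A‖ * ‖x - y‖ := by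
        rw [e, abs_div, abs_of_pos (mul_pos X Y), div_mul_eq_mul_div, div_le_iff₀ (mul_pos X Y)]
        exact (mul_le_mul_of_nonneg_right a4 Y.le).trans (by
          rw [mul_assoc _ ‖y‖]; gcongr)
      calc _ ≤ (‖l‖ * ‖y‖) * |‖A x‖ / ‖x‖ - ‖A y‖ / ‖y‖| :=
            mul_le_mul_of_nonneg_right (l.le_opNorm y) (abs_nonneg _)
        _ = ‖l‖ * (|‖A x‖ / ‖x‖ - ‖A y‖ / ‖y‖| * ‖y‖) := by ring
        _ ≤ _ := by gcongr
    have s1 := sb x
    have s2 := sb y
    have s3 : 0 ≤ ‖A x‖ / ‖x‖ := by positivity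
    have s4 : 0 ≤ ‖A y‖ / ‖y‖ := by positivity
    rw [mul_div_assoc, mul_div_assoc, ← div_pow, ← div_pow]
    generalize ‖A x‖ / ‖x‖ = s at *
    generalize ‖A y‖ / ‖y‖ = t at *
    rw [show l x * s ^ 2 - l y * t ^ 2 = (l x - l y) * s ^ 2 + l y * (s - t) * (s + t) by ring]
    refine (abs_add_le _ _).trans ?_
    rw [abs_mul, abs_mul, abs_mul, abs_of_nonneg (sq_nonneg s), abs_of_nonneg (add_nonneg s3 s4)]
    have b1 := mul_le_mul h1 (pow_le_pow_left₀ s3 s1 2) (by positivity) (by positivity)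
    have b2 := mul_le_mul h2 (add_le_add s1 s2) (by positivity) (by positivity)
    nlinarith
  refine ⟨by simp, ⟨5 * ‖l‖ * ‖A‖ ^ 2, by positivity⟩, LipschitzWith.of_dist_le_mul fun x y => ?_⟩
  rw [Real.dist_eq, dist_eq_norm]
  rcases le_total ‖y‖ ‖x‖ with h | h
  · exact key x y h
  · rw [abs_sub_comm, norm_sub_rev]; exact key y x h

noncomputable def e (i : ℕ) : H := lp.single 2 i (1 : ℝ)
noncomputable def co (i : ℕ) : H →L[ℝ] ℝ := innerSL ℝ (e i)
theorem co_apply (i : ℕ) (x : H) : co i x = x i := by simp [co, e, lp.inner_single_left]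
theorem e_apply (i j : ℕ) : e i j = if j = i then 1 else 0 := by
  simp [e, lp.single_apply, Pi.single_apply]

theorem refl_co (v x u : H) : inner ℝ u ((ℝ ∙ v)ᗮ.reflection x) = inner ℝ ((ℝ ∙ v)ᗮ.reflection u) x := by
  conv_lhs => rw [← ((ℝ ∙ v)ᗮ.reflection).inner_map_map, Submodule.reflection_reflection]

theorem main (P : Lip0 H →ₗ[ℝ] (H →L[ℝ] ℝ))
    (h1 : ∀ (f : Lip0 H) (l : H →L[ℝ] ℝ), (∀ x, f.1 x = l x) → P f = l)
    (h2 : ∀ (T : H ≃ₗᵢ[ℝ] H) (f g : Lip0 H), (∀ x, g.1 x = f.1 (T.symm x)) →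
      ∀ x, P g x = P f (T.symm x)) : False := by
  have h3 : ∀ (T : H ≃ₗᵢ[ℝ] H) (f g : Lip0 H), (∀ x, g.1 x = f.1 (T x)) →
      ∀ x, P g x = P f (T x) := fun T => h2 T.symm
  let F : (τ : ℕ → ℕ) → Injective τ → Lip0 H := fun τ h => ⟨_, lip (co 0) (pull τ h)⟩
  let G : ℕ → ℕ → Lip0 H := fun i j => ⟨_, lip (co i) (co j)⟩
  have hG : ∀ i j x, (G i j).1 x = x i * x j ^ 2 / ‖x‖ ^ 2 := fun i j x => by simp [G, co_apply]
  have inj : ∀ a b : ℕ, Injective fun i => (a + 2) * i + (b + 1) := fun a b i j h => by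
    simpa using h
  have conj : ∀ a b : ℕ, P (F _ (inj a b)) (e 0) = P (F _ (inj 0 0)) (e 0) := fun a b => by
    have I : ∀ a b : ℕ, Injective fun i => (Nat.casesOn i 0 fun i => (a + 2) * i + (b + 1) : ℕ) := by
      intro a b i j h
      cases i <;> cases j <;> simp_all
    have C : ∀ a b : ℕ, (Set.range fun i =>
        (Nat.casesOn i 0 fun i => (a + 2) * i + (b + 1) : ℕ))ᶜ.Infinite := fun a b => by
      refine Set.infinite_of_injective_forall_mem (f := fun i => (a + 2) * i + (b + 1 + 1))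
        (inj a (b + 1)) ?_
      rintro i ⟨j, hj⟩
      cases j with
      | zero => simp at hj
      | succ j =>
        have h : (a + 2) * j = (a + 2) * i + 1 := by simp only at hj; omega
        have : (a + 2) ∣ 1 := (Nat.dvd_add_right (dvd_mul_right _ _)).1 (h ▸ dvd_mul_right _ _)
        have := Nat.le_of_dvd one_pos this
        omega
    obtain ⟨σ, hσ⟩ := exists_perm (I 0 0) (I a b) (C 0 0) (C a b)
    have s0 : σ 0 = 0 := hσ 0
    have := h3 (perm σ) (F _ (inj 0 0)) (F _ (inj a b)) (fun x => by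
      have e1 : pull _ (inj 0 0) (perm σ x) = pull _ (inj a b) x := by
        ext i; exact congrArg x (hσ (i + 1))
      have e2 : co 0 (perm σ x) = co 0 x := by rw [co_apply, co_apply]; exact congrArg x s0
      simp only [F, e1, e2, LinearIsometryEquiv.norm_map]) (e 0)
    rw [this]; congr 1; ext i
    change e 0 (σ i) = _
    rw [e_apply, e_apply]
    exact if_congr (by conv_lhs => rw [← s0]; rw [σ.apply_eq_iff_eq]) rfl rfl
  have s1 : F _ (inj 0 0) = F _ (inj 2 0) + F _ (inj 2 2) := by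
    ext x
    have := (pull_sq _ (inj 0 0) x).unique (HasSum.even_add_odd
      (by convert pull_sq _ (inj 2 0) x using 4; ring) (by convert pull_sq _ (inj 2 2) x using 4; ring))
    simp only [F, Submodule.coe_add, Pi.add_apply, this]; ring
  have z0 : P (F _ (inj 0 0)) (e 0) = 0 := by
    have := congrArg (fun f => P f (e 0)) s1
    simp only [map_add, ContinuousLinearMap.add_apply, conj] at this
    linarith
  have s2 : F _ (inj 0 0) = G 0 1 + F _ (inj 0 2) := by
    ext x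
    have := (pull_sq _ (inj 0 0) x).unique ((hasSum_nat_add_iff
      (f := fun i => x ((0 + 2) * i + (0 + 1)) ^ 2) 1).1
      (pull_sq _ (inj 0 2) x))
    simp only [F, Submodule.coe_add, Pi.add_apply, this, hG, co_apply]; simp; ring
  have z1 : P (G 0 1) (e 0) = 0 := by
    have := congrArg (fun f => P f (e 0)) s2
    simp only [map_add, ContinuousLinearMap.add_apply, conj] at this
    linarith
  have z2 : P (G 0 0) (e 0) = 1 := by
    have := h1 (G 0 0 + F _ (inj 0 0) + F _ (inj 0 1)) (co 0) fun x => by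
      have := (nsq x).unique ((hasSum_nat_add_iff 1).1 (HasSum.even_add_odd
        (by convert pull_sq _ (inj 0 0) x using 4) (by convert pull_sq _ (inj 0 1) x using 4)))
      simp only [F, Submodule.coe_add, Pi.add_apply, hG, co_apply]
      rcases eq_or_ne x 0 with rfl | hx
      · simp
      · have : ‖x‖ ≠ 0 := norm_ne_zero_iff.2 hx
        field_simp
        simp only [Finset.range_one, Finset.sum_singleton] at *
        linear_combination (-x 0) * ‹‖x‖ ^ 2 = _›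
    have := congrArg (fun l => l (e 0)) this
    simp only [map_add, ContinuousLinearMap.add_apply, conj, z0, co_apply, e_apply] at this
    simpa using this
  let S := (ℝ ∙ e 1)ᗮ.reflection
  have S0 : S (e 0) = e 0 := Submodule.reflection_mem_subspace_eq_self
    (Submodule.mem_orthogonal_singleton_iff_inner_right.2 (by
      change co 1 (e 0) = 0; simp [co_apply, e_apply]))
  have S1 : S (e 1) = -e 1 := Submodule.reflection_orthogonalComplement_singleton_eq_neg _
  have c0 : ∀ x, S x 0 = x 0 := fun x => by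
    rw [← co_apply, ← co_apply]; exact (refl_co _ _ _).trans (congrArg (inner ℝ · x) S0)
  have c1 : ∀ x, S x 1 = -x 1 := fun x => by
    rw [← co_apply, ← co_apply]
    exact (refl_co _ _ _).trans ((congrArg (inner ℝ · x) S1).trans (inner_neg_left _ _))
  have z3 : ∀ j, (j = 0 ∨ j = 1) → P (G 1 j) (e 0) = 0 := fun j hj => by
    have := h3 S (G 1 j) (-G 1 j) (fun x => by
      rcases hj with rfl | rfl <;> simp [hG, c0, c1] <;> ring) (e 0)
    rw [S0, map_neg, ContinuousLinearMap.neg_apply] at this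
    linarith
  have z4 : P (G 0 0) (e 1) = 0 := by
    have := h3 S (G 0 0) (G 0 0) (fun x => by simp [hG, c0]) (e 1)
    rw [S1, map_neg] at this
    linarith
  let w : H := (3 / 5 : ℝ) • e 0 + (4 / 5 : ℝ) • e 1
  have nw : ‖e 0‖ = ‖w‖ := by
    refine (sq_eq_sq₀ (norm_nonneg _) (norm_nonneg _)).1 ?_
    rw [← real_inner_self_eq_norm_sq, ← real_inner_self_eq_norm_sq]
    have : ∀ i x, inner ℝ (e i) x = x i := co_apply
    simp only [w, inner_add_left, inner_smul_left, this]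
    simp [e_apply]; norm_num
  let R := (ℝ ∙ (e 0 - w))ᗮ.reflection
  have R0 : R (e 0) = w := Submodule.reflection_sub nw
  have r0 : ∀ x, R x 0 = 3 / 5 * x 0 + 4 / 5 * x 1 := fun x => by
    rw [← co_apply, ← co_apply, ← co_apply]
    refine (refl_co _ _ _).trans ((congrArg (inner ℝ · x) R0).trans ?_)
    simp [w, inner_add_left, inner_smul_left, co]
  have := h3 R (G 0 0) ((27 / 125 : ℝ) • G 0 0 + (108 / 125 : ℝ) • G 1 0 + (144 / 125 : ℝ) • G 0 1 +
    (64 / 125 : ℝ) • G 1 1) (fun x => by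
      simp only [Submodule.coe_add, Submodule.coe_smul, Pi.add_apply, Pi.smul_apply, hG, r0,
        LinearIsometryEquiv.norm_map, smul_eq_mul]; ring) (e 0)
  rw [R0] at this
  simp only [w, map_add, map_smul, ContinuousLinearMap.add_apply, ContinuousLinearMap.smul_apply,
    z1, z2, z3 0 (Or.inl rfl), z3 1 (Or.inr rfl), z4, smul_eq_mul] at this
  norm_num at this

theorem main' : ¬ HasEqvProj H := by
  rintro ⟨P, h1, h2, h3⟩
  have z : P (fun _ => 0) = 0 := h2 0
  refine main ⟨⟨fun f => P f.1, fun f g => ?_⟩, fun c f => ?_⟩ (fun f l h => ?_) fun T f g h x => ?_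
  · ext x
    have := h1 1 f g f.2 g.2 x
    simp only [one_mul] at this
    exact this
  · ext x
    have := h1 c f (fun _ => 0) f.2 (Lip0 H).zero_mem x
    simp only [z, add_zero, ContinuousLinearMap.zero_apply] at this
    exact this
  · exact (congrArg P (funext h)).trans (h2 l)
  · exact (congrArg (P · x) (funext h)).trans (h3 T f f.2 x)

end Pool.Agent.H95.Eqv
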