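import Mathlib

namespace Pool.Agent.H95.Eqv

variable {X : Type*} [NormedAddCommGroup X] [NormedSpace ℝ X]

/-- Lipschitz real functions on `X` vanishing at `0` -/
def IsLip0 (f : X → ℝ) : Prop := f 0 = 0 ∧ ∃ K, LipschitzWith K f

/-- `P` is linear on `Lip_0(X)` -/
def IsLin (P : (X → ℝ) → StrongDual ℝ X) : Prop :=
  ∀ (c : ℝ) (f g : X → ℝ), IsLip0 f → IsLip0 g → ∀ x, P (fun y => c * f y + g y) x = c * P f x + P g x

/-- `P` fixes every continuous linear functional -/
def IsProj (P : (X → ℝ) → StrongDual ℝ X) : Prop := ∀ l : StrongDual ℝ X, P l = l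

/-- `P` is equivariant for all surjective linear isometries -/
def IsEqv (P : (X → ℝ) → StrongDual ℝ X) : Prop :=
  ∀ (T : X ≃ₗᵢ[ℝ] X) (f : X → ℝ), IsLip0 f → ∀ x, P (fun y => f (T.symm y)) x = P f (T.symm x)

/-- there is an equivariant linear projection of `Lip_0(X)` onto the dual -/
def HasEqvProj (X : Type*) [NormedAddCommGroup X] [NormedSpace ℝ X] : Prop :=
  ∃ P : (X → ℝ) → StrongDual ℝ X, IsLin P ∧ IsProj P ∧ IsEqv P

end Pool.Agent.H95.Eqv
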