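import Pool.Agent.H95.ExpCDefs

set_option autoImplicit false

namespace Pool.Agent.H95.ExpC

open Matrix Complex
open scoped Kronecker ComplexOrder MatrixOrder

section
variable {ι : Type} [Fintype ι] [DecidableEq ι]

lemma co (f : ℝ → ℝ) (A : Matrix ι ι ℂ) : ContinuousOn f (spectrum ℝ A) :=
  (Matrix.finite_real_spectrum (A := A)).continuousOn f

lemma eig {A : Matrix ι ι ℂ} (hA : A.IsHermitian) (f : ℝ → ℝ) (v : ι → ℂ) (μ : ℝ)
    (h : A *ᵥ v = (μ : ℂ) • v) : fc f A *ᵥ v = (f μ : ℂ) • v := by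
  have u := hA.eigenvectorUnitary.2
  have e := hA.spectral_theorem
  rw [fc, hA.cfc_eq, IsHermitian.cfc]
  simp only [Unitary.conjStarAlgAut_apply] at e ⊢
  set U : Matrix ι ι ℂ := hA.eigenvectorUnitary.1
  have : diagonal (RCLike.ofReal ∘ hA.eigenvalues) *ᵥ (star U *ᵥ v) = (μ : ℂ) • (star U *ᵥ v) := by
    rw [← mulVec_smul, ← h]
    conv_rhs => rw [e]
    rw [mulVec_mulVec, mulVec_mulVec, ← mul_assoc, ← mul_assoc, u.1, one_mul]
  have k : diagonal (RCLike.ofReal ∘ f ∘ hA.eigenvalues) *ᵥ (star U *ᵥ v) =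
      (f μ : ℂ) • (star U *ᵥ v) := funext fun i => by
    have := congrFun this i
    simp only [mulVec_diagonal, Function.comp_apply, Pi.smul_apply, smul_eq_mul,
      mul_eq_mul_right_iff, coe_algebraMap, ofReal_inj] at this ⊢
    exact this.imp_left (congrArg f)
  rw [← mulVec_mulVec, ← mulVec_mulVec, k, mulVec_smul, mulVec_mulVec, u.2, one_mulVec]

lemma fc_diag (f : ℝ → ℝ) (d : ι → ℝ) :
    fc f (diagonal fun i => (d i : ℂ)) = diagonal fun i => (f (d i) : ℂ) := by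
  ext i j
  have := congrFun (eig (A := diagonal fun i => (d i : ℂ)) (isHermitian_diagonal_of_self_adjoint _
    (funext fun i => conj_ofReal _)) f (Pi.single j 1) (d j) (by
      ext k; by_cases h : k = j <;> simp [mulVec_diagonal, h])) i
  rw [mulVec_single_one] at this
  by_cases h : i = j <;> simpa [h] using this

lemma kap {A : Matrix ι ι ℂ} (hA : A.PosSemidef) : fc (fun x => 2 / (1 + x)) A * (1 + A) = 2 := by
  have h := hA.1.isSelfAdjoint
  have : 1 + A = cfc (fun x : ℝ => 1 + x) A := by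
    rw [cfc_const_add _ _ _ (co _ _), cfc_id' ℝ A, map_one]
  rw [this, fc, ← cfc_mul _ _ _ (co _ _) (co _ _), cfc_congr (g := fun _ => 2) fun x hx => by
    have := spectrum_nonneg_of_nonneg hA.nonneg hx
    simp only
    field_simp, cfc_const _ A, map_ofNat]

lemma kap' {A : Matrix ι ι ℂ} (hA : A.PosDef) :
    fc (fun x => 2 / (1 + x)) A = (2 : ℝ) • (1 + A)⁻¹ := by
  have := (isUnit_iff_isUnit_det _).1 (PosDef.one.add hA).isUnit
  rw [← mul_nonsing_inv_cancel_right (1 + A) (fc _ A) this, kap hA.posSemidef, two_mul, two_smul]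

lemma sqf {A : Matrix ι ι ℂ} (hA : A.IsHermitian) :
    fc (fun x => (x - 1) ^ 2) A = (A - 1) * (A - 1) := by
  have h := hA.isSelfAdjoint
  rw [fc, cfc_pow _ _ _ (co _ _), cfc_sub _ _ _ (co _ _) (co _ _), cfc_id' ℝ A, cfc_const_one ℝ A, sq]

end

lemma cv1 : OpConvex fun x => (x - 1) ^ 2 := fun n A B t hA hB h0 h1 => by
  rw [sqf hA.1, sqf hB.1, sqf ((hA.posSemidef.smul h0).add (hB.posSemidef.smul (sub_nonneg.2 h1))).1]
  have := (posSemidef_conjTranspose_mul_self (A - B)).smul (mul_nonneg h0 (sub_nonneg.2 h1))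
  rw [(hA.1.sub hB.1).eq] at this
  convert this using 1
  simp only [mul_sub, sub_mul, mul_add, add_mul, smul_mul_assoc, mul_smul_comm, mul_one, one_mul]
  module

lemma cv2 : OpConvex fun x => 2 / (1 + x) := fun n A B t hA hB h0 h1 => by
  have h2 := sub_nonneg.2 h1
  have hC : (t • A + (1 - t) • B).PosDef := by
    rcases h0.eq_or_lt with rfl | h
    · simpa using hB
    · exact (hA.smul h).add_posSemidef (hB.posSemidef.smul h2)
  have k : ∀ P : Mat n, P.PosDef → (fromBlocks P 1 1ᴴ P⁻¹).PosSemidef := fun P hP => by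
    letI := hP.isUnit.invertible
    rw [hP.fromBlocks₁₁]
    simp [PosSemidef.zero]
  have := ((k _ (PosDef.one.add hA)).smul h0).add ((k _ (PosDef.one.add hB)).smul h2)
  letI inst := (PosDef.one.add hC).isUnit.invertible
  rw [fromBlocks_smul, fromBlocks_smul, fromBlocks_add, conjTranspose_one, ← add_smul,
    add_sub_cancel, one_smul, show t • (1 + A) + (1 - t) • (1 + B) = 1 + (t • A + (1 - t) • B) by
      module, ← congrArg (fromBlocks _ 1 · _) conjTranspose_one,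
    (PosDef.one.add hC).fromBlocks₁₁] at this
  rw [kap' hA, kap' hB, kap' hC]
  rw [conjTranspose_one, one_mul, mul_one] at this
  have e := this.smul (zero_le_two (α := ℝ))
  rwa [smul_sub, smul_add, smul_comm, smul_comm 2 (1 - t)] at e

variable {n : ℕ}

def vec (X : Mat n) : Fin n × Fin n → ℂ := fun p => X p.1 p.2

lemma kv (A B X : Mat n) : (A ⊗ₖ Bᵀ) *ᵥ vec X = vec (A * X * B) := by
  funext q
  simp only [vec, mulVec, dotProduct, Fintype.sum_prod_type, kroneckerMap_apply, transpose_apply,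
    mul_apply, Finset.sum_mul]
  rw [Finset.sum_comm]
  refine Finset.sum_congr rfl fun _ _ => Finset.sum_congr rfl fun _ _ => by ring

lemma vv (X Y : Mat n) : star (vec X) ⬝ᵥ vec Y = (Xᴴ * Y).trace := by
  simp only [dotProduct, Fintype.sum_prod_type, vec, Pi.star_apply, trace, diag_apply,
    mul_apply, conjTranspose_apply]
  exact Finset.sum_comm

lemma form_eq (g : ℝ → ℝ) (ρ σ X Y : Mat n) :
    form g ρ σ X Y = (star (vec X) ⬝ᵥ fc g (ρ ⊗ₖ (pinv σ)ᵀ) *ᵥ vec Y).re := rfl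

lemma pinv_psd {σ : Mat n} (h : σ.PosSemidef) : (pinv σ).PosSemidef :=
  nonneg_iff_posSemidef.1 (cfc_nonneg fun _ hx => inv_nonneg.2
    (spectrum_nonneg_of_nonneg h.nonneg hx))

lemma div_nonneg' (ρ γ : Mat n) : 0 ≤ div (fun x => (x - 1) ^ 2) ρ γ :=
  (Complex.nonneg_iff.1 ((nonneg_iff_posSemidef.1 (cfc_nonneg fun _ _ =>
    sq_nonneg _)).dotProduct_mulVec_nonneg _)).1

lemma nrm_eq {σ Y W : Mat n} (h : σ.PosSemidef) (e : W + σ * W * pinv σ = (2 : ℂ) • (Y * pinv σ)) :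
    nrm (fun x => 2 / (1 + x)) σ Y = (Yᴴ * W).trace.re := by
  have k := congrArg (· *ᵥ vec W) (kap (h.kronecker (pinv_psd h).transpose))
  have : vec W + vec (σ * W * pinv σ) = (2 : ℂ) • vec (Y * pinv σ) := congrArg vec e
  simp only [← mulVec_mulVec, add_mulVec, one_mulVec, kv, this, mulVec_smul] at k
  rw [← one_add_one_eq_two (R := Matrix _ _ ℂ), add_mulVec, one_mulVec, ← two_smul ℂ] at k
  rw [← vv, ← smul_right_injective _ (two_ne_zero' ℂ) k]
  rfl

lemma div_eq {ρ : Mat n} (h : ρ.IsHermitian) (d : Fin n → ℝ) (hd : ∀ i, 0 < d i) :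
    div (fun x => (x - 1) ^ 2) ρ (diagonal fun i => (d i : ℂ)) =
      ∑ i, ∑ j, normSq (ρ i j - diagonal (fun i => (d i : ℂ)) i j) / d j := by
  have hA : (ρ ⊗ₖ (pinv (diagonal fun i => (d i : ℂ)))ᵀ).IsHermitian := by
    rw [IsHermitian, conjTranspose_kronecker, h.eq, pinv, fc_diag]
    simp [Pi.star_def]
  have hB := hA.sub isHermitian_one
  rw [div, form_eq, sqf hA, ← mulVec_mulVec, dotProduct_mulVec, ← hB.eq, ← star_mulVec, hB.eq,
    sub_mulVec, one_mulVec, pinv, fc_diag, fc_diag, kv]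
  simp only [dotProduct, Fintype.sum_prod_type, re_sum, Pi.star_apply, star_def, ← normSq_eq_conj_mul_self,
    ofReal_re, Pi.sub_apply, vec, mul_diagonal]
  refine Finset.sum_congr rfl fun i _ => Finset.sum_congr rfl fun j _ => ?_
  have e := Real.mul_self_sqrt (hd j).le
  have p := Real.sqrt_pos.2 (hd j)
  have : ρ i j * (√(d j) : ℝ) * ((d j)⁻¹ : ℝ) - diagonal (fun i => ((√(d i) : ℝ) : ℂ)) i j =
      (ρ i j - diagonal (fun i => (d i : ℂ)) i j) / (√(d j) : ℝ) := by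
    have q : ((√(d j) : ℝ) : ℂ) ≠ 0 := ofReal_ne_zero.2 p.ne'
    have e' : (d j : ℂ) = (√(d j) : ℝ) * (√(d j) : ℝ) := by rw [← ofReal_mul, e]
    rw [ofReal_inv, e']
    by_cases c : i = j
    · subst c
      rw [diagonal_apply_eq, diagonal_apply_eq, e']
      generalize ((√(d i) : ℝ) : ℂ) = s at q
      field_simp
    · rw [diagonal_apply_ne _ c, diagonal_apply_ne _ c]
      generalize ((√(d j) : ℝ) : ℂ) = s at q
      field_simp
      ring
  rw [this, normSq_div, normSq_ofReal, e]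

lemma chan {a b : ℕ} {ι : Type} [Fintype ι] (ψ : ι → Fin b → ℂ) (t : ι → Fin a)
    (h : ∀ y, ∑ i, ∑ x, (if t i = y then star (ψ i x) * ψ i x else 0) = 1) (Φ : Mat a → Mat b)
    (e : ∀ ρ x x', Φ ρ x x' = ∑ i, ψ i x * ρ (t i) (t i) * star (ψ i x')) : IsChan Φ := by
  refine ⟨ι, inferInstance, fun i => .of fun x y => if t i = y then ψ i x else 0, ?_, fun ρ => ?_⟩
  · ext y y'
    simp only [Matrix.sum_apply, mul_apply, conjTranspose_apply, of_apply, one_apply]
    split_ifs with c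
    · subst c
      rw [← h y]
      refine Finset.sum_congr rfl fun i _ => Finset.sum_congr rfl fun x _ => ?_
      split_ifs <;> simp
    · refine Finset.sum_eq_zero fun i _ => Finset.sum_eq_zero fun x _ => ?_
      split_ifs with h1 h2
      · exact absurd (h1.symm.trans h2) c
      all_goals simp
  · ext x x'
    simp [e, Matrix.sum_apply, mul_apply, apply_ite star]

noncomputable def m2 (p q r : ℝ) : Mat 2 := !![p + (q + r) / 2, (q - r) / 2; (q - r) / 2, (q + r) / 2]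

noncomputable def n4 (p q r : ℝ) : Fin 4 → ℝ :=
  ![p / 2 + (q + r) / 4, (q + r) / 4, p / 4 + q / 2, p / 4 + r / 2]

noncomputable def chM (ρ : Mat 3) : Mat 2 :=
  !![ρ 0 0 + (ρ 1 1 + ρ 2 2) / 2, (ρ 1 1 - ρ 2 2) / 2; (ρ 1 1 - ρ 2 2) / 2, (ρ 1 1 + ρ 2 2) / 2]

noncomputable def chN (ρ : Mat 3) : Mat 4 := diagonal ![ρ 0 0 / 2 + (ρ 1 1 + ρ 2 2) / 4,
  (ρ 1 1 + ρ 2 2) / 4, ρ 0 0 / 4 + ρ 1 1 / 2, ρ 0 0 / 4 + ρ 2 2 / 2]

lemma cM : IsChan chM := by
  refine chan ![![1, 0], ![(1 + I) / 2, (1 + I) / 2], ![(1 + I) / 2, -((1 + I) / 2)]] id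
    (fun y => ?_) _ fun ρ x x' => ?_
  · fin_cases y <;> simp [Fin.sum_univ_succ, Complex.ext_iff, conj_ofNat] <;> norm_num
  · fin_cases x <;> fin_cases x' <;> simp [chM, Fin.sum_univ_succ, Complex.ext_iff, conj_ofNat] <;>
      constructor <;> ring

lemma cN : IsChan chN := by
  refine chan (ι := Fin 4 × Fin 3) (fun p x => if x = p.1 then ![![(1 + I) / 2, 1 / 2, 1 / 2],
    ![0, 1 / 2, 1 / 2], ![1 / 2, (1 + I) / 2, 0], ![1 / 2, 0, (1 + I) / 2]] p.1 p.2 else 0) Prod.snd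
    (fun y => ?_) _ fun ρ x x' => ?_
  · fin_cases y <;> simp [Fintype.sum_prod_type, Fin.sum_univ_succ, Complex.ext_iff, conj_ofNat] <;> norm_num
  · fin_cases x <;> fin_cases x' <;>
      simp [chN, Fintype.sum_prod_type, Fin.sum_univ_succ, Complex.ext_iff, conj_ofNat] <;> constructor <;> ring

lemma ch_eq {X : Mat 3} (h : X.IsHermitian) : chM X = m2 (X 0 0).re (X 1 1).re (X 2 2).re ∧
    chN X = diagonal fun i => (n4 (X 0 0).re (X 1 1).re (X 2 2).re i : ℂ) := by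
  have := fun i => h.coe_re_apply_self i
  simp only [RCLike.re_to_complex, coe_algebraMap] at this
  constructor
  · simp only [chM, m2, this]
  · rw [chN]
    congr 1
    funext i
    fin_cases i <;> simp [n4, this]

lemma nrmN (d y : Fin n → ℝ) (hd : ∀ i, 0 ≤ d i) : nrm (fun x => 2 / (1 + x))
    (diagonal fun i => (d i : ℂ)) (diagonal fun i => (y i : ℂ)) = ∑ i, y i ^ 2 / d i := by
  rw [nrm_eq (W := diagonal fun i => ((y i / d i : ℝ) : ℂ))
    (posSemidef_diagonal_iff.2 fun i => by simpa using hd i)]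
  · simp [← ofReal_div, sq, mul_div_assoc]
  simp only [pinv, fc_diag, diagonal_mul_diagonal, diagonal_add, ← diagonal_smul]
  congr 1
  funext i
  by_cases c : d i = 0
  · simp [c]
  · have : (d i : ℂ) ≠ 0 := ofReal_ne_zero.2 c
    simp
    field_simp
    ring

lemma nrmM {σ : Mat 2} (h : σ.PosSemidef) (x z a b : ℝ)
    (e : σ = !![((1 : ℂ) + z) / 2, x / 2; x / 2, (1 - z) / 2]) (hr : x ^ 2 + z ^ 2 ≤ 1) :
    nrm (fun x => 2 / (1 + x)) σ !![b / 2, a / 2; a / 2, -b / 2] =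
      if x ^ 2 + z ^ 2 = 1 then (a ^ 2 + b ^ 2) / 2 - (x * a + z * b) ^ 2 / 4
      else a ^ 2 + b ^ 2 + (x * a + z * b) ^ 2 / (1 - x ^ 2 - z ^ 2) := by
  have hs := h.1.isSelfAdjoint
  split_ifs with c
  · have c' : (x : ℂ) ^ 2 + z ^ 2 = 1 := by exact_mod_cast c
    have i : σ * σ = σ := by
      rw [e]
      ext i j
      fin_cases i <;> fin_cases j <;> simp [mul_apply] <;> first | ring1 | linear_combination c' / 4
    have p : pinv σ = σ := by
      rw [pinv, fc, cfc_congr (g := fun x => x) fun t ht => by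
        rcases IsIdempotentElem.spectrum_subset ℝ i ht with rfl | rfl <;> simp, cfc_id' ℝ σ]
    set Y : Mat 2 := !![b / 2, a / 2; a / 2, -b / 2] with hY
    rw [nrm_eq (W := (2 : ℂ) • (Y * σ) - σ * Y * σ) h (by
      simp only [p, mul_sub, sub_mul, mul_smul_comm, smul_mul_assoc, mul_assoc, i,
        ← mul_assoc σ σ]
      module), e, hY]
    simp [trace_fin_two, mul_apply, ← ofReal_mul, conj_ofNat]
    linear_combination (a ^ 2 + b ^ 2) / 8 * c
  · have d : 1 - x ^ 2 - z ^ 2 ≠ 0 := fun h => c (by linarith)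
    have d' : (1 : ℂ) - x ^ 2 - z ^ 2 ≠ 0 := by exact_mod_cast d
    have u : IsUnit σ := (isUnit_iff_isUnit_det _).2 (IsUnit.mk0 _ (by
      rw [e, det_fin_two_of]
      intro k
      exact d' (by linear_combination 4 * k)))
    have p : σ * pinv σ = 1 := by
      rw [pinv, fc, cfc_ringInverse_id _ u, Ring.mul_inverse_cancel _ u]
    obtain ⟨w, hw⟩ : ∃ w : ℝ, w * (1 - x ^ 2 - z ^ 2) = -(x * a + z * b) :=
      ⟨_, div_mul_cancel₀ _ d⟩
    have hw' : (w : ℂ) * (1 - x ^ 2 - z ^ 2) = -(x * a + z * b) := by exact_mod_cast hw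
    set W : Mat 2 := !![w + (b - w * z), a - w * x; a - w * x, w - (b - w * z)] with hW
    have k : W * σ + σ * W = (2 : ℂ) • !![(b : ℂ) / 2, a / 2; a / 2, -b / 2] := by
      rw [e, hW]
      ext i j
      fin_cases i <;> fin_cases j <;> simp [mul_apply] <;> first | ring1 | linear_combination hw'
    rw [nrm_eq (W := W) h (by rw [← smul_mul_assoc, ← k, add_mul, mul_assoc W, p, mul_one]), hW]
    simp [trace_fin_two, mul_apply, ← ofReal_mul, conj_ofNat]
    field_simp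
    linear_combination -2 * (x * a + z * b) * hw

lemma bd {x z a : ℝ} (hx : |x| + |z| ≤ 1) (hr : x ^ 2 + z ^ 2 < 1) :
    a ^ 2 + 2 * (x * a) ^ 2 / (1 - x ^ 2 - z ^ 2) ≤
      6 * ((a / 4) ^ 2 / ((1 + x) / 4) + (-a / 4) ^ 2 / ((1 - x) / 4)) := by
  have h1 : x ^ 2 < 1 := by nlinarith [sq_nonneg z]
  have h2 := abs_lt.1 ((sq_lt_one_iff_abs_lt_one x).1 h1)
  have h3 : 0 < 1 + x := by linarith
  have h4 : 0 < 1 - x := by linarith
  have h5 : 0 < 1 - x ^ 2 := by linarith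
  have h6 : x ^ 2 * (1 - x ^ 2) ≤ 1 - x ^ 2 - z ^ 2 := by
    rw [← sq_abs x, ← sq_abs z]
    have := abs_nonneg x
    have := abs_nonneg z
    generalize |x| = s at *
    generalize |z| = t at *
    have : t ^ 2 ≤ (1 - s) ^ 2 := by gcongr; linarith
    have : 0 ≤ s * (1 - s) * ((1 - s) * (2 + s)) := by
      have : 0 ≤ 1 - s := by linarith
      positivity
    nlinarith
  have e : 6 * ((a / 4) ^ 2 / ((1 + x) / 4) + (-a / 4) ^ 2 / ((1 - x) / 4)) =
      a ^ 2 / (1 - x ^ 2) + 2 * a ^ 2 / (1 - x ^ 2) := by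
    rw [show 1 - x ^ 2 = (1 + x) * (1 - x) by ring]
    field_simp
    ring
  rw [e]
  refine add_le_add ((le_div_iff₀ h5).2 (by nlinarith [sq_nonneg (a * x)])) ?_
  rw [div_le_div_iff₀ (by linarith) h5]
  nlinarith [mul_le_mul_of_nonneg_left h6 (sq_nonneg a)]

lemma bd' {x a : ℝ} (hx : |x| ≤ 1) :
    a ^ 2 / 2 ≤ 6 * ((a / 4) ^ 2 / ((1 + x) / 4) + (-a / 4) ^ 2 / ((1 - x) / 4)) := by
  obtain ⟨h1, h2⟩ := abs_le.1 hx
  have k : ∀ s : ℝ, 1 ≤ s → s ≤ 2 → a ^ 2 / 8 ≤ (a / 4) ^ 2 / (s / 4) := fun s p q => by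
    rw [le_div_iff₀ (by linarith)]
    nlinarith [sq_nonneg a]
  have k' : ∀ s : ℝ, 0 ≤ s → 0 ≤ (a / 4) ^ 2 / (s / 4) := fun s p => by positivity
  rw [neg_div, neg_sq]
  rcases le_total 0 x with h | h
  · nlinarith [k (1 + x) (by linarith) (by linarith), k' (1 - x) (by linarith), sq_nonneg a]
  · nlinarith [k (1 - x) (by linarith) (by linarith), k' (1 + x) (by linarith), sq_nonneg a]

lemma low : (6⁻¹ : ℝ) ∈ lowerBounds (nrmSet (fun x => 2 / (1 + x)) chN chM) := by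
  rintro _ ⟨ρ, X, ⟨hρ, tρ⟩, hX, tX, h0, rfl⟩
  have hM : (chM ρ).PosSemidef := by
    obtain ⟨ι, _, K, -, e⟩ := cM
    rw [e]
    exact posSemidef_sum _ fun i _ => hρ.mul_mul_conjTranspose_same _
  have p0 := fun i => (Complex.nonneg_iff.1 (hρ.diag_nonneg (i := i))).1
  have t1 := congrArg re tρ
  have t2 := congrArg re tX
  simp only [trace_fin_three, add_re, one_re, zero_re] at t1 t2
  have e1 := (ch_eq hρ.1).1
  rw [(ch_eq hρ.1).2, (ch_eq hX).2]
  rw [(ch_eq hX).1] at h0 ⊢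
  have hp := p0 0
  have hq := p0 1
  have hr := p0 2
  generalize (ρ 0 0).re = p, (ρ 1 1).re = q, (ρ 2 2).re = r, (X 0 0).re = b, (X 1 1).re = c,
    (X 2 2).re = d at *
  obtain rfl : r = 1 - p - q := by linarith
  obtain rfl : d = -b - c := by linarith
  have ab : |2 * q + p - 1| + |p| ≤ 1 := by
    rw [abs_of_nonneg hp, ← le_sub_iff_add_le, abs_le]
    constructor <;> linarith
  have a1 := abs_nonneg (2 * q + p - 1)
  have a2 := abs_nonneg p
  have hr1 : (2 * q + p - 1) ^ 2 + p ^ 2 ≤ 1 := by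
    rw [← sq_abs p, ← sq_abs (_ - _)]
    nlinarith [mul_nonneg a1 a2]
  have := nrmM hM (2 * q + p - 1) p (2 * c + b) b (by
    rw [e1]; ext i j; fin_cases i <;> fin_cases j <;> simp [m2] <;> ring) hr1
  rw [show m2 b c (-b - c) = !![(b : ℂ) / 2, (2 * c + b : ℝ) / 2; (2 * c + b : ℝ) / 2, -b / 2] by
    ext i j; fin_cases i <;> fin_cases j <;> simp [m2] <;> ring, this] at h0 ⊢
  rw [nrmN _ _ fun i => by fin_cases i <;> simp [n4] <;> linarith, Fin.sum_univ_four,
    show n4 p q (1 - p - q) = ![(1 + p) / 4, (1 - p) / 4, (1 + (2 * q + p - 1)) / 4,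
      (1 - (2 * q + p - 1)) / 4] by ext i; fin_cases i <;> simp [n4] <;> ring,
    show n4 b c (-b - c) = ![b / 4, -b / 4, (2 * c + b) / 4, -(2 * c + b) / 4] by
      ext i; fin_cases i <;> simp [n4] <;> ring]
  simp only [cons_val_zero, cons_val_one, cons_val]
  generalize 2 * q + p - 1 = x, 2 * c + b = a at *
  split_ifs at h0 ⊢ with e
  · have h1 : (x * a + p * b) ^ 2 ≤ a ^ 2 + b ^ 2 := by nlinarith [sq_nonneg (x * b - p * a)]
    rw [le_div_iff₀ (lt_of_le_of_ne (by nlinarith [sq_nonneg a, sq_nonneg b]) h0.symm)]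
    nlinarith [bd' (x := x) (a := a) (by linarith), bd' (x := p) (a := b) (by linarith),
      sq_nonneg (x * a + p * b)]
  · have l := lt_of_le_of_ne hr1 e
    have d : 0 < 1 - x ^ 2 - p ^ 2 := by linarith
    rw [le_div_iff₀ (lt_of_le_of_ne (by positivity) h0.symm)]
    have h1 := bd (a := a) ab l
    have h2 := bd (a := b) (x := p) (z := x) (by linarith) (by linarith)
    have h3 : (x * a + p * b) ^ 2 / (1 - x ^ 2 - p ^ 2) ≤
        2 * (x * a) ^ 2 / (1 - x ^ 2 - p ^ 2) + 2 * (p * b) ^ 2 / (1 - p ^ 2 - x ^ 2) := by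
      rw [sub_right_comm 1 (p ^ 2), ← add_div]
      gcongr
      nlinarith [sq_nonneg (x * a - p * b)]
    linarith

lemma glb : IsGLB (divSet (fun x => (x - 1) ^ 2) chN chM) 0 := by
  refine ⟨?_, fun c hc => le_of_forall_pos_le_add fun ε hε => ?_⟩
  · rintro _ ⟨ρ, γ, -, -, -, -, -, rfl⟩
    exact div_nonneg (div_nonneg' _ _) (div_nonneg' _ _)
  obtain ⟨t, t0, t1, t2⟩ : ∃ t : ℝ, 0 < t ∧ t ≤ 1 / 4 ∧ 2 * t ≤ ε :=
    ⟨min (1 / 4) (ε / 2), by positivity, min_le_left _ _, by linarith [min_le_right (1 / 4) (ε / 2)]⟩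
  have pd : ∀ u v : ℝ, 0 < u → 0 < v → u + v = 2 * t →
      (diagonal fun i => ((![1 - 2 * t, u, v] i : ℝ) : ℂ)).PosDef ∧
      (diagonal fun i => ((![1 - 2 * t, u, v] i : ℝ) : ℂ)).trace = 1 := fun u v hu hv e =>
    ⟨posDef_diagonal_iff.2 fun i => zero_lt_real.2 (by fin_cases i <;> simp [hu, hv]; linarith), by
      rw [trace_diagonal, ← ofReal_sum, ofReal_eq_one]; simp [Fin.sum_univ_three]; linarith⟩
  obtain ⟨a1, a2⟩ := pd (3 * t / 2) (t / 2) (by positivity) (by positivity) (by ring)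
  obtain ⟨b1, b2⟩ := pd t t t0 t0 (by ring)
  have t3 : 0 < 1 - t := by linarith
  have hM : div (fun x => (x - 1) ^ 2) (chM (diagonal fun i => ((![1 - 2 * t, 3 * t / 2, t / 2] i : ℝ) : ℂ)))
      (chM (diagonal fun i => ((![1 - 2 * t, t, t] i : ℝ) : ℂ))) = t / (4 * (1 - t)) := by
    rw [show chM (diagonal fun i => ((![1 - 2 * t, t, t] i : ℝ) : ℂ)) =
        diagonal fun i => ((![1 - t, t] i : ℝ) : ℂ) by
      ext i j; fin_cases i <;> fin_cases j <;> simp [chM]; ring,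
      show chM (diagonal fun i => ((![1 - 2 * t, 3 * t / 2, t / 2] i : ℝ) : ℂ)) =
        !![((1 - t : ℝ) : ℂ), (t / 2 : ℝ); (t / 2 : ℝ), t] by
      ext i j; fin_cases i <;> fin_cases j <;> simp [chM] <;> ring,
      div_eq (by ext i j; fin_cases i <;> fin_cases j <;> simp [conj_ofNat]) _ fun i => by
        fin_cases i <;> simp [t0]; linarith]
    simp
    field_simp
    ring
  have hN : div (fun x => (x - 1) ^ 2) (chN (diagonal fun i => ((![1 - 2 * t, 3 * t / 2, t / 2] i : ℝ) : ℂ)))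
      (chN (diagonal fun i => ((![1 - 2 * t, t, t] i : ℝ) : ℂ))) = t ^ 2 / 2 := by
    rw [(ch_eq b1.1).2, (ch_eq a1.1).2, div_eq (isHermitian_diagonal_of_self_adjoint _
      (funext fun i => conj_ofReal _)) _ fun i => by fin_cases i <;> simp [n4] <;> linarith]
    simp only [diagonal_apply_eq, ofReal_re, cons_val_zero, cons_val_one, cons_val,
      show n4 (1 - 2 * t) t t = ![(1 - t) / 2, t / 2, 1 / 4, 1 / 4] by ext i; fin_cases i <;> simp [n4] <;> ring,
      show n4 (1 - 2 * t) (3 * t / 2) (t / 2) = ![(1 - t) / 2, t / 2, 1 / 4 + t / 4, 1 / 4 - t / 4] by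
        ext i; fin_cases i <;> simp [n4] <;> ring]
    simp [Fin.sum_univ_four, diagonal_apply]
    ring
  have sj : ∀ A : Mat 3, A.PosDef → Set.range A.mulVec = Set.univ := fun A h =>
    (mulVec_surjective_iff_isUnit.2 h.isUnit).range_eq
  refine (hc ⟨_, _, ⟨a1.posSemidef, a2⟩, ⟨b1.posSemidef, b2⟩, fun h => ?_, (sj _ a1).trans
    (sj _ b1).symm, by rw [hM]; positivity, rfl⟩).trans ?_
  · have := congrArg (fun A : Mat 3 => (A 2 2).re) h
    simp at this
    linarith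
  · rw [hM, hN, div_le_iff₀ (by positivity), zero_add, ← mul_div_assoc, le_div_iff₀ (by positivity)]
    nlinarith [mul_pos t0 t0, mul_pos t0 (mul_pos t0 t0)]

theorem main : ∃ (N : Mat 3 → Mat 4) (M : Mat 3 → Mat 2), IsChan N ∧ IsChan M ∧
    OpConvex (fun x => (x - 1) ^ 2) ∧ OpConvex (fun x => 2 / (1 + x)) ∧
    IsGLB (divSet (fun x => (x - 1) ^ 2) N M) 0 ∧
    (6⁻¹ : ℝ) ∈ lowerBounds (nrmSet (fun x => 2 / (1 + x)) N M) :=
  ⟨chN, chM, cN, cM, cv1, cv2, glb, low⟩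

end Pool.Agent.H95.ExpC
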