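import Mathlib

set_option autoImplicit false

namespace Pool.Agent.H95.ExpC

open Matrix
open scoped Kronecker ComplexOrder

/-- Complex `n × n` matrices. -/
abbrev Mat (n : ℕ) : Type := Matrix (Fin n) (Fin n) ℂ

/-- Functional calculus of a Hermitian matrix. -/
noncomputable def fc {ι : Type} [Fintype ι] [DecidableEq ι] (f : ℝ → ℝ) (A : Matrix ι ι ℂ) :
    Matrix ι ι ℂ := cfc f A

/-- Operator convexity on `(0, ∞)`. -/
def OpConvex (f : ℝ → ℝ) : Prop :=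
  ∀ (n : ℕ) (A B : Mat n) (t : ℝ), A.PosDef → B.PosDef → 0 ≤ t → t ≤ 1 →
    (t • fc f A + (1 - t) • fc f B - fc f (t • A + (1 - t) • B)).PosSemidef

/-- Density matrices. -/
def IsState {n : ℕ} (ρ : Mat n) : Prop := ρ.PosSemidef ∧ ρ.trace = 1

/-- Quantum channels, in Kraus form. -/
def IsChan {a b : ℕ} (Φ : Mat a → Mat b) : Prop :=
  ∃ (ι : Type) (_ : Fintype ι) (K : ι → Matrix (Fin b) (Fin a) ℂ),
    ∑ i, (K i)ᴴ * K i = 1 ∧ ∀ ρ, Φ ρ = ∑ i, K i * ρ * (K i)ᴴ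

/-- The generalised inverse (`0⁻¹ = 0`). -/
noncomputable def pinv {n : ℕ} (σ : Mat n) : Mat n := fc (fun x => x⁻¹) σ

/-- `⟨X, g (L_ρ R_σ⁻¹) Y⟩` in the Hilbert-Schmidt inner product. -/
noncomputable def form {n : ℕ} (g : ℝ → ℝ) (ρ σ X Y : Mat n) : ℝ :=
  (star (fun p : Fin n × Fin n => X p.1 p.2) ⬝ᵥ
    fc g (ρ ⊗ₖ (pinv σ)ᵀ) *ᵥ fun p : Fin n × Fin n => Y p.1 p.2).re

/-- The standard `f`-divergence. -/
noncomputable def div {n : ℕ} (f : ℝ → ℝ) (ρ γ : Mat n) : ℝ :=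
  form f ρ γ (fc Real.sqrt γ) (fc Real.sqrt γ)

/-- The squared Riemannian semi-norm. -/
noncomputable def nrm {n : ℕ} (κ : ℝ → ℝ) (σ Y : Mat n) : ℝ := form κ σ σ Y (Y * pinv σ)

/-- The quotients whose infimum is the divergence expansion coefficient. -/
def divSet {a b c : ℕ} (f : ℝ → ℝ) (N : Mat a → Mat b) (M : Mat a → Mat c) : Set ℝ :=
  {r | ∃ ρ γ, IsState ρ ∧ IsState γ ∧ ρ ≠ γ ∧ Set.range ρ.mulVec = Set.range γ.mulVec ∧
    div f (M ρ) (M γ) ≠ 0 ∧ r = div f (N ρ) (N γ) / div f (M ρ) (M γ)}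

/-- The quotients whose infimum is the Riemannian expansion coefficient. -/
def nrmSet {a b c : ℕ} (κ : ℝ → ℝ) (N : Mat a → Mat b) (M : Mat a → Mat c) : Set ℝ :=
  {r | ∃ ρ X, IsState ρ ∧ X.IsHermitian ∧ X.trace = 0 ∧
    nrm κ (M ρ) (M X) ≠ 0 ∧ r = nrm κ (N ρ) (N X) / nrm κ (M ρ) (M X)}

end Pool.Agent.H95.ExpC
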