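import Pool.Agent.H95.FloqDefs

set_option autoImplicit false

namespace Pool.Agent.H95.Floq

open Matrix

variable {R : Type} [CommRing R]

def T (d : R) : Matrix (Fin 2) (Fin 2) R := !![-d, -1; 1, 0]

def G (d : ℕ → R) : ℕ → Matrix (Fin 2) (Fin 2) R
  | 0 => 1
  | j + 1 => T (d (j + 1)) * G d j

lemma det_T (d : R) : (T d).det = 1 := by simp [T, det_fin_two]

lemma det_G (d : ℕ → R) (j : ℕ) : (G d j).det = 1 := by
  induction j with
  | zero => simp [G]
  | succ j ih => rw [G, det_mul, det_T, ih, one_mul]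

lemma G_one (d : ℕ → R) (j : ℕ) (c : Fin 2) : G d (j + 1) 1 c = G d j 0 c := by
  simp [G, T, Matrix.mul_apply, Fin.sum_univ_two]

lemma G_zero (d : ℕ → R) (j : ℕ) (c : Fin 2) :
    G d (j + 1) 0 c = -d (j + 1) * G d j 0 c - G d j 1 c := by
  simp [G, T, Matrix.mul_apply, Fin.sum_univ_two, sub_eq_add_neg]

lemma row_mid (d f : ℕ → R) (i : Fin 13) :
    ∑ j : Fin 15, L 15 (fun j => d j) ⟨i + 1, by omega⟩ j * f j =
      f i + d (i + 1) * f (i + 1) + f (i + 2) := by
  fin_cases i <;> simp [L, Fin.sum_univ_succ] <;> ring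

lemma row_zero (d f : ℕ → R) :
    ∑ j : Fin 15, L 15 (fun j => d j) 0 j * f j = d 0 * f 0 + f 1 + f 14 := by
  simp [L, Fin.sum_univ_succ]; ring

lemma row_last (d f : ℕ → R) :
    ∑ j : Fin 15, L 15 (fun j => d j) 14 j * f j = f 0 + f 13 + d 14 * f 14 := by
  simp [L, Fin.sum_univ_succ]; ring

def B (d : ℕ → R) : Matrix (Fin 15) (Fin 15) R :=
  Matrix.of fun i j => if j = 0 then G d i 1 1 else if j = 1 then G d i 1 0 else
    if i = j then 1 else 0

lemma det_B (d : ℕ → R) : (B d).det = 1 := by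
  rw [det_of_lowerTriangular]
  · refine Finset.prod_eq_one fun i _ => ?_
    by_cases h0 : i = 0
    · subst h0; simp [B, G]
    by_cases h1 : i = 1
    · subst h1
      have := G_one d 0 0
      simpa [B, G] using this
    simp [B, h0, h1]
  · intro i j hij
    have hij : i < j := hij
    have h0 : j ≠ 0 := by rintro rfl; exact absurd hij (by simp)
    by_cases h1 : j = 1
    · subst h1
      have : i = 0 := by omega
      subst this
      simp [B, G]
    simp [B, h0, h1, hij.ne]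

lemma mul_B (d : ℕ → R) (A : Matrix (Fin 15) (Fin 15) R) (i j : Fin 15) (h0 : j ≠ 0)
    (h1 : j ≠ 1) : (A * B d) i j = A i j := by
  simp [Matrix.mul_apply, B, h0, h1]

lemma det_L (d : ℕ → R) : (L 15 fun j => d j).det = 2 - (G d 14 * T (d 0)).trace := by
  set A := L 15 fun j => d j with hA
  have c0 : ∀ i, (A * B d) i 0 = ∑ j : Fin 15, A i j * (fun n => G d n 1 1) j := fun i => by
    simp [Matrix.mul_apply, B]
  have c1 : ∀ i, (A * B d) i 1 = ∑ j : Fin 15, A i j * (fun n => G d n 1 0) j := fun i => by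
    simp [Matrix.mul_apply, B]
  have e1 : A.det = ((A * B d).submatrix (finRotate 15) (finRotate 15 * finRotate 15)).det := by
    have : (A * B d).submatrix (finRotate 15) (finRotate 15 * finRotate 15) =
        ((A * B d).submatrix id ⇑(finRotate 15 * finRotate 15)).submatrix (finRotate 15) id := rfl
    rw [this, det_permute, det_permute', det_mul, det_B, map_mul, sign_finRotate]
    norm_num
  rw [e1, ← det_submatrix_equiv_self (finSumFinEquiv (m := 13) (n := 2)),
    ← fromBlocks_toBlocks (submatrix _ _ _)]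
  have z : (((A * B d).submatrix (finRotate 15) (finRotate 15 * finRotate 15)).submatrix
      (finSumFinEquiv (m := 13) (n := 2)) (finSumFinEquiv (m := 13) (n := 2))).toBlocks₁₂ = 0 := by
    ext i j
    have ei : finRotate 15 (finSumFinEquiv (m := 13) (n := 2) (Sum.inl i)) = ⟨i + 1, by omega⟩ := by
      fin_cases i <;> rfl
    fin_cases j
    · change (A * B d) (finRotate 15 (finSumFinEquiv (m := 13) (n := 2) (Sum.inl i))) 0 = 0
      rw [ei, (c0 _).trans (row_mid d (fun n => G d n 1 1) i), G_one d (i + 1), G_zero, G_one]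
      ring
    · change (A * B d) (finRotate 15 (finSumFinEquiv (m := 13) (n := 2) (Sum.inl i))) 1 = 0
      rw [ei, (c1 _).trans (row_mid d (fun n => G d n 1 0) i), G_one d (i + 1), G_zero, G_one]
      ring
  have t : ∀ i j : Fin 13, (((A * B d).submatrix (finRotate 15)
      (finRotate 15 * finRotate 15)).submatrix (finSumFinEquiv (m := 13) (n := 2))
      (finSumFinEquiv (m := 13) (n := 2))).toBlocks₁₁ i j =
      A ⟨i + 1, by omega⟩ ⟨j + 2, by omega⟩ := by
    intro i j
    have ei : finRotate 15 (finSumFinEquiv (m := 13) (n := 2) (Sum.inl i)) = ⟨i + 1, by omega⟩ := by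
      fin_cases i <;> rfl
    have ej : (finRotate 15 * finRotate 15) (finSumFinEquiv (m := 13) (n := 2) (Sum.inl j)) =
        ⟨j + 2, by omega⟩ := by
      fin_cases j <;> rfl
    change (A * B d) (finRotate 15 _) ((finRotate 15 * finRotate 15) _) = _
    rw [ei, ej, mul_B _ _ _ _ (Fin.ne_of_val_ne (by change j.val + 2 ≠ 0; omega))
      (Fin.ne_of_val_ne (by change j.val + 2 ≠ 1; omega))]
  rw [z, det_fromBlocks_zero₁₂, det_of_lowerTriangular, det_fin_two]
  · rw [Finset.prod_eq_one fun i _ => by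
      rw [t]
      simp only [hA, L, of_apply, Fin.ext_iff]
      rw [if_neg (by omega), if_pos (by simp)]]
    change 1 * ((A * B d) 14 0 * (A * B d) 0 1 - (A * B d) 14 1 * (A * B d) 0 0) = _
    rw [(c0 _).trans (row_zero d fun n => G d n 1 1), (c1 _).trans (row_zero d fun n => G d n 1 0),
      (c0 _).trans (row_last d fun n => G d n 1 1), (c1 _).trans (row_last d fun n => G d n 1 0)]
    have h1 := det_G d 14
    have h2 := G_zero d 13 0
    have h3 := G_zero d 13 1
    have h4 := G_one d 13 0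
    have h5 := G_one d 13 1
    have h6 := G_one d 0 0
    have h7 := G_one d 0 1
    rw [det_fin_two] at h1
    rw [h6, h7, show G d 0 = 1 from rfl]
    simp only [Nat.reduceAdd] at h2 h3 h4 h5
    rw [← h4] at h2
    rw [← h5] at h3
    simp [T, Matrix.trace, Matrix.mul_apply, Fin.sum_univ_two]
    linear_combination (1 + G d 14 1 0) * h3 - (d 0 + G d 14 1 1) * h2 + h1
  · intro i j hij
    have hij : i < j := hij
    rw [t]
    simp only [hA, L, of_apply, Fin.ext_iff]
    rw [if_neg (by omega), if_neg (by omega)]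

lemma tr_cube (M : Matrix (Fin 2) (Fin 2) R) (h : M.det = 1) :
    (M * M * M).trace = M.trace ^ 3 - 3 * M.trace := by
  rw [det_fin_two] at h
  simp only [Matrix.trace, diag, Matrix.mul_apply, Fin.sum_univ_two]
  linear_combination (-3 * (M 0 0 + M 1 1)) * h

lemma tr_eps (M N N' : Matrix (Fin 2) (Fin 2) R) (e : R) (h : e * e = 0) :
    ((M - e • N') * (M + e • (N' - N)) * (M + e • N)).trace = (M * M * M).trace := by
  have : ((M - e • N') * (M + e • (N' - N)) * (M + e • N)).trace = (M * M * M).trace +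
      e * e * ((M * (N' - N) * N - N' * M * N - N' * (N' - N) * M).trace -
        e * (N' * (N' - N) * N).trace) := by
    simp only [Matrix.trace, diag, Matrix.mul_apply, Fin.sum_univ_two, Matrix.add_apply,
      Matrix.sub_apply, Matrix.smul_apply, smul_eq_mul]
    ring
  rw [this, h, zero_mul, add_zero]

lemma T_add (d e : R) : T (d + e) = T d + e • !![-1, 0; 0, 0] := by
  ext i j
  fin_cases i <;> fin_cases j <;> simp [T]
  ring

lemma T_sub (d e : R) : T (d - e) = T d - e • !![-1, 0; 0, 0] := by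
  ext i j
  fin_cases i <;> fin_cases j <;> simp [T]
  ring

lemma five (a b x : R) (h1 : a ^ 2 + b ^ 2 = 0) (h2 : 2 * a ^ 2 + b ^ 2 - 2 * a * b +
    a ^ 2 * b ^ 2 = 0) : (T (-a - x) * (T (-b - x) * T (-x) * T (b - x)) * T (a - x)).trace =
      x ^ 5 - 5 * x ^ 3 + 5 * x := by
  simp [T, Matrix.trace, Fin.sum_univ_two]
  linear_combination (-x ^ 3) * h1 + x * h2

def dd (a b e x : R) (j : ℕ) : R :=
  [a + e, b, 0, -b, -a, a - e, b, 0, -b, -a + e, a, b, 0, -b, -a - e].getD j 0 - x

lemma det_dd (a b e x : R) (h1 : a ^ 2 + b ^ 2 = 0) (h2 : 2 * a ^ 2 + b ^ 2 - 2 * a * b +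
    a ^ 2 * b ^ 2 = 0) (he : e * e = 0) : (L 15 fun j => dd a b e x j).det =
      2 - ((x ^ 5 - 5 * x ^ 3 + 5 * x) ^ 3 - 3 * (x ^ 5 - 5 * x ^ 3 + 5 * x)) := by
  rw [det_L, ← five a b x h1 h2, ← tr_cube _ (by simp only [det_mul, det_T, mul_one]),
    ← tr_eps _ (T (-a - x) * (T (-b - x) * T (-x) * T (b - x)) * !![-1, 0; 0, 0])
      (!![-1, 0; 0, 0] * (T (-b - x) * T (-x) * T (b - x)) * T (a - x)) e he]
  have e1 : G (dd a b e x) 14 * T (dd a b e x 0) =
      (T (-a - x - e) * (T (-b - x) * T (-x) * T (b - x)) * T (a - x)) *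
      (T (-a - x + e) * (T (-b - x) * T (-x) * T (b - x)) * T (a - x - e)) *
      (T (-a - x) * (T (-b - x) * T (-x) * T (b - x)) * T (a - x + e)) := by
    simp only [G, dd, Nat.reduceAdd, List.getD_cons_succ, List.getD_cons_zero, zero_sub,
      mul_assoc, mul_one, sub_right_comm _ e x, add_sub_right_comm _ e x]
  rw [e1, T_sub (-a - x) e, T_add (-a - x) e, T_sub (a - x) e, T_add (a - x) e]
  generalize T (-b - x) * T (-x) * T (b - x) = Q
  generalize T (-a - x) = S
  generalize T (a - x) = P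
  generalize (!![-1, 0; 0, 0] : Matrix (Fin 2) (Fin 2) R) = E
  simp only [mul_add, add_mul, sub_mul, mul_sub, smul_sub, smul_mul_assoc, mul_smul_comm,
    smul_smul, he, zero_smul, add_zero, sub_zero, smul_add, smul_zero]
  congr 2
  abel

lemma map_D {S : Type} [CommRing S] (f : R →+* S) (q : ℕ) (V : Fin q → R) :
    (D q V).map f = D q fun j => f (V j) := by
  rw [D, D, ← Polynomial.coe_mapRingHom, RingHom.map_det]
  congr 1
  ext i j : 2
  simp only [L, RingHom.mapMatrix_apply, map_apply, of_apply]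
  split_ifs <;> simp

lemma hU (θ : MvPolynomial (Fin (15 / 2)) ℂ →+* R) (a b e : R)
    (h : ∀ j : Fin (15 / 2), θ (MvPolynomial.X j) = ![a + e, b, 0, -b, -a, a - e, b] j) (j : Fin 15) :
    θ (U 15 j) = [a + e, b, 0, -b, -a, a - e, b, 0, -b, -a + e, a, b, 0, -b, -a - e].getD j 0 := by
  have h0 : θ (MvPolynomial.X ⟨0, by omega⟩) = a + e := h _
  have h1 : θ (MvPolynomial.X ⟨1, by omega⟩) = b := h _
  have h2 : θ (MvPolynomial.X ⟨2, by omega⟩) = 0 := h _
  have h3 : θ (MvPolynomial.X ⟨3, by omega⟩) = -b := h _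
  have h4 : θ (MvPolynomial.X ⟨4, by omega⟩) = -a := h _
  have h5 : θ (MvPolynomial.X ⟨5, by omega⟩) = a - e := h _
  have h6 : θ (MvPolynomial.X ⟨6, by omega⟩) = b := h _
  have n : ∀ x y, θ x = y → θ (-x) = -y := fun x y h => by rw [map_neg, h]
  fin_cases j
  · exact h0
  · exact h1
  · exact h2
  · exact h3
  · exact h4
  · exact h5
  · exact h6
  · exact map_zero θ
  · exact n _ _ h6
  · exact (n _ _ h5).trans (by change _ = -a + e; ring)
  · exact (n _ _ h4).trans (neg_neg a)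
  · exact (n _ _ h3).trans (neg_neg b)
  · exact (n _ _ h2).trans neg_zero
  · exact n _ _ h1
  · exact (n _ _ h0).trans (by change _ = -a - e; ring)

lemma D_zero : D 15 (fun _ => (0 : R)) = 2 - ((Polynomial.X ^ 5 - 5 * Polynomial.X ^ 3 +
    5 * Polynomial.X) ^ 3 - 3 * (Polynomial.X ^ 5 - 5 * Polynomial.X ^ 3 + 5 * Polynomial.X)) := by
  rw [← det_dd 0 0 0 _ (by ring) (by ring) (by ring), D]
  congr 2
  ext1 j
  unfold dd
  congr 1
  fin_cases j <;> simp

lemma D_pt (V : Fin 15 → R) (a b e : R) (h : ∀ j : Fin 15, V j =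
      [a + e, b, 0, -b, -a, a - e, b, 0, -b, -a + e, a, b, 0, -b, -a - e].getD j 0)
    (h1 : a ^ 2 + b ^ 2 = 0) (h2 : 2 * a ^ 2 + b ^ 2 - 2 * a * b + a ^ 2 * b ^ 2 = 0)
    (he : e * e = 0) : D 15 V = D 15 (fun _ => (0 : R)) := by
  rw [D_zero, ← det_dd (Polynomial.C a) (Polynomial.C b) (Polynomial.C e), D]
  · congr 2
    ext1 j
    unfold dd
    rw [h]
    congr 1
    fin_cases j <;> simp
  · have := congrArg Polynomial.C h1
    simpa only [map_add, map_pow, map_zero] using this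
  · have := congrArg Polynomial.C h2
    simpa only [map_add, map_pow, map_zero, map_sub, map_mul, map_ofNat] using this
  · rw [← map_mul, he, map_zero]

lemma kill0 (q : ℕ) (θ : MvPolynomial (Fin (q / 2)) ℂ →+* R)
    (h : (D q fun j => θ (U q j)) = D q fun _ => (0 : R)) : ∀ f ∈ I q, θ f = 0 := by
  have hD : (D q (U q) - D q 0).map θ = 0 := by
    rw [Polynomial.map_sub, map_D, map_D, sub_eq_zero, h]
    simp only [Pi.zero_apply, map_zero]
  intro f hf
  refine Ideal.span_le (I := RingHom.ker θ) |>.2 ?_ hf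
  rintro _ ⟨k, -, -, rfl⟩
  have := congrArg (fun g => Polynomial.coeff g (q - 2 * k)) hD
  simp only [Polynomial.coeff_map, Polynomial.coeff_zero] at this
  simp only [SetLike.mem_coe, RingHom.mem_ker, p, map_mul, this, mul_zero]

lemma kill (θ : MvPolynomial (Fin (15 / 2)) ℂ →+* R) (a b e : R)
    (h : ∀ j : Fin (15 / 2), θ (MvPolynomial.X j) = ![a + e, b, 0, -b, -a, a - e, b] j)
    (h1 : a ^ 2 + b ^ 2 = 0) (h2 : 2 * a ^ 2 + b ^ 2 - 2 * a * b + a ^ 2 * b ^ 2 = 0)
    (he : e * e = 0) : ∀ f ∈ I 15, θ f = 0 :=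
  kill0 15 θ (D_pt _ a b e (hU θ a b e h) h1 h2 he)

open TrivSqZeroExt DualNumber in
theorem main : ∃ a : Fin (15 / 2) → ℂ, a ≠ 0 ∧ (∀ f ∈ I 15, MvPolynomial.eval a f = 0) ∧
    2 ≤ mult 15 a := by
  obtain ⟨a, ha⟩ := IsAlgClosed.exists_eq_mul_self (1 - 2 * Complex.I)
  have a0 : a ≠ 0 := by
    rintro rfl
    have := congrArg Complex.re ha
    simp at this
  obtain ⟨b, hb⟩ : ∃ b, b = Complex.I * a := ⟨_, rfl⟩
  have r1 : a ^ 2 + b ^ 2 = 0 := by
    rw [hb]; linear_combination a ^ 2 * Complex.I_sq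
  have r2 : 2 * a ^ 2 + b ^ 2 - 2 * a * b + a ^ 2 * b ^ 2 = 0 := by
    rw [hb]; linear_combination (a ^ 2 + a ^ 4) * Complex.I_sq + a ^ 2 * ha
  set pt : Fin (15 / 2) → ℂ := ![a, b, 0, -b, -a, a, b] with hpt
  set w : Fin (15 / 2) → ℂ := ![1, 0, 0, 0, 0, -1, 0] with hw
  set θ : MvPolynomial (Fin (15 / 2)) ℂ →ₐ[ℂ] ℂ[ε] :=
    MvPolynomial.aeval fun j => inl (pt j) + inr (w j) with hθ
  have hX : ∀ j : Fin (15 / 2), θ (MvPolynomial.X j) = inl (pt j) + inr (w j) := fun j =>
    MvPolynomial.aeval_X _ _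
  have hf : ∀ f, (θ f).fst = MvPolynomial.eval pt f := fun f => by
    have : (fstHom ℂ ℂ ℂ).comp θ = MvPolynomial.aeval pt := by
      ext j; simp [hθ]
    exact congrArg (fun g : MvPolynomial (Fin (15 / 2)) ℂ →ₐ[ℂ] ℂ => g f) this
  have hI : ∀ f ∈ I 15, θ f = 0 := by
    refine kill θ.toRingHom (algebraMap ℂ _ a) (algebraMap ℂ _ b) ε (fun j => ?_) ?_ ?_ eps_mul_eps
    · refine (hX j).trans ?_
      fin_cases j <;> ext <;> simp [hpt, hw, algebraMap_eq_inl]
    · have := congrArg (algebraMap ℂ ℂ[ε]) r1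
      simpa only [map_add, map_pow, map_zero] using this
    · have := congrArg (algebraMap ℂ ℂ[ε]) r2
      simpa only [map_add, map_pow, map_zero, map_sub, map_mul, map_ofNat] using this
  refine ⟨pt, fun h => a0 (congrFun h 0), fun f h => by rw [← hf, hI f h]; rfl, ?_⟩
  have hu : ∀ y : (nonZeroDivisors ℂ).comap (MvPolynomial.eval pt), IsUnit (θ y) := fun y => by
    rw [isUnit_iff_isUnit_fst, hf]
    exact (nonZeroDivisors.ne_zero y.2).isUnit
  set φ : Loc 15 pt →ₐ[ℂ] ℂ[ε] := IsLocalization.liftAlgHom hu with hφ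
  have φa : ∀ f, φ (algebraMap _ _ f) = θ f := fun f => IsLocalization.lift_eq hu f
  set ψ := Ideal.Quotient.liftₐ ((I 15).map (algebraMap _ (Loc 15 pt))) φ (fun f hf => by
    refine (Ideal.map_le_iff_le_comap (K := RingHom.ker φ)).2 ?_ hf
    intro g hg
    exact (φa g).trans (hI g hg)) with hψ
  have li : LinearIndependent ℂ ![(1 : Loc 15 pt ⧸ (I 15).map (algebraMap _ (Loc 15 pt))),
      Ideal.Quotient.mk _ (algebraMap _ _ (MvPolynomial.X 0 : MvPolynomial (Fin (15 / 2)) ℂ))] := by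
    rw [LinearIndependent.pair_iff]
    intro s t h
    have h1 := congrArg ψ h
    rw [map_add, map_smul, map_smul, map_one, map_zero] at h1
    have e : ψ (Ideal.Quotient.mk _ (algebraMap _ _
        (MvPolynomial.X 0 : MvPolynomial (Fin (15 / 2)) ℂ))) = inl a + inr 1 := by
      refine (φa _).trans ?_
      exact hX 0
    rw [e] at h1
    have h2 := congrArg snd h1
    have h3 := congrArg fst h1
    simp at h2
    simp [h2] at h3
    exact ⟨h3, h2⟩
  simpa [mult] using li.cardinal_lift_le_rank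

end Pool.Agent.H95.Floq
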