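import Mathlib

set_option autoImplicit false

namespace Pool.Agent.H95.Floq

/-- The cyclic Jacobi matrix with diagonal `d` and ones on the cyclic neighbours. -/
def L {R : Type} [CommRing R] (q : ℕ) (d : Fin q → R) : Matrix (Fin q) (Fin q) R :=
  Matrix.of fun i j => if i = j then d i else
    if i.val + 1 = j.val ∨ j.val + 1 = i.val ∨ (i.val = 0 ∧ j.val + 1 = q) ∨
      (j.val = 0 ∧ i.val + 1 = q) then 1 else 0

/-- `D_V(λ) = det (L_V - λ I)` as a polynomial in `λ`. -/
noncomputable def D {R : Type} [CommRing R] (q : ℕ) (V : Fin q → R) : Polynomial R :=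
  (L q fun j => Polynomial.C (V j) - Polynomial.X).det

/-- The generic antisymmetric potential. -/
noncomputable def U (q : ℕ) (j : Fin q) : MvPolynomial (Fin (q / 2)) ℂ :=
  if h : j.val < q / 2 then MvPolynomial.X ⟨j.val, h⟩ else
    if h' : q - 1 - j.val < q / 2 then -MvPolynomial.X ⟨q - 1 - j.val, h'⟩ else 0

/-- The generators `p'_k`. -/
noncomputable def p (q k : ℕ) : MvPolynomial (Fin (q / 2)) ℂ :=
  (-1) ^ (q + k) * (D q (U q) - D q 0).coeff (q - 2 * k)

/-- The ideal `I'`. -/
noncomputable def I (q : ℕ) : Ideal (MvPolynomial (Fin (q / 2)) ℂ) :=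
  Ideal.span {f | ∃ k, 1 ≤ k ∧ k ≤ q / 2 ∧ f = p q k}

/-- The local ring of affine space at `a`: invert the polynomials not vanishing at `a`. -/
abbrev Loc (q : ℕ) (a : Fin (q / 2) → ℂ) : Type :=
  Localization ((nonZeroDivisors ℂ).comap (MvPolynomial.eval a))

/-- The multiplicity of `V(I')` at `a`: the dimension of the local ring modulo `I'`. -/
noncomputable def mult (q : ℕ) (a : Fin (q / 2) → ℂ) : Cardinal :=
  Module.rank ℂ (Loc q a ⧸ (I q).map (algebraMap _ (Loc q a)))

end Pool.Agent.H95.Floq
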