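import Pool.Agent.H95.FockDefs
import Pool.Agent.H97.Weier

set_option autoImplicit false

open MeasureTheory Set Filter Topology ComplexConjugate Real
open scoped Nat

namespace Pool.Agent.H95.Fock

noncomputable def H2 : Submodule ℂ (Lp ℂ 2 mu) where
  carrier := {f | ∃ F : ℂ × ℂ → ℂ, Differentiable ℂ F ∧ f =ᵐ[mu] F}
  add_mem' := fun ⟨F, hF, h⟩ ⟨G, hG, k⟩ => ⟨F + G, hF.add hG, (Lp.coeFn_add _ _).trans (h.add k)⟩
  zero_mem' := ⟨0, differentiable_const _, Lp.coeFn_zero _ _ _⟩
  smul_mem' := fun c _ ⟨F, hF, h⟩ =>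
    ⟨c • F, hF.const_smul c, (Lp.coeFn_smul _ _).trans (h.const_smul c)⟩

def graph (s : ℂ × ℂ → ℂ) : Set (H2 × H2) :=
  {p | ∃ h : Lp ℂ 2 mu, (h =ᵐ[mu] fun z => s z * p.1.1 z) ∧
    ∀ u ∈ H2, inner ℂ u (h - p.2.1) = 0}

noncomputable def ga : Measure ℂ :=
  volume.withDensity fun z => ENNReal.ofReal (Real.exp (-‖z‖ ^ 2))

instance : SFinite ga := by unfold ga; infer_instance

lemma mu_eq : mu = ga.prod ga := by
  rw [ga, prod_withDensity (by fun_prop) (by fun_prop), mu]
  congr 1
  ext p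
  rw [← ENNReal.ofReal_mul (Real.exp_pos _).le, ← Real.exp_add, neg_add]

lemma int_ga {E : Type} [NormedAddCommGroup E] [NormedSpace ℝ E] (h : ℂ → E) :
    ∫ z, h z ∂ga = ∫ z, Real.exp (-‖z‖ ^ 2) • h z := by
  rw [ga, integral_withDensity_eq_integral_toReal_smul (by fun_prop) (by simp)]
  simp only [ENNReal.toReal_ofReal (Real.exp_pos _).le]

lemma integ_ga {E : Type} [NormedAddCommGroup E] [NormedSpace ℝ E] (h : ℂ → E) :
    Integrable h ga ↔ Integrable fun z => Real.exp (-‖z‖ ^ 2) • h z := by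
  rw [ga, integrable_withDensity_iff_integrable_smul' (by fun_prop) (by simp)]
  simp only [ENNReal.toReal_ofReal (Real.exp_pos _).le]

lemma moment (a : ℕ) : ∫ z, ‖z‖ ^ (2 * a) ∂ga = π * a ! := by
  have h := Complex.integral_rpow_mul_exp_neg_rpow (p := 2) (q := ((2 * a : ℕ) : ℝ)) (by norm_num)
    (by have := Nat.cast_nonneg (α := ℝ) (2 * a); linarith)
  rw [show (((2 * a : ℕ) : ℝ) + 2) / 2 = a + 1 by push_cast; ring,
    Real.Gamma_nat_eq_factorial] at h
  simp only [Real.rpow_natCast, Real.rpow_two] at h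
  rw [int_ga]
  simp only [smul_eq_mul, mul_comm (Real.exp _)]
  rw [h]; ring

lemma moment_int (a : ℕ) : Integrable (fun z : ℂ => ‖z‖ ^ (2 * a)) ga :=
  Integrable.of_integral_ne_zero (by rw [moment]; positivity)

lemma circ {g : ℂ → ℂ} (hg : Differentiable ℂ g) (a : ℕ) (z : ℂ) :
    ∫ θ in (0 : ℝ)..2 * π, conj (circleMap 0 1 θ) ^ a * g (circleMap 0 1 θ * z) =
      2 * π / a ! * (z ^ a * iteratedDeriv a g 0) := by
  have h := DifferentiableOn.circleIntegral_one_div_sub_center_pow_smul (c := 0) one_pos a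
    (f := fun u => g (z * u)) (by fun_prop)
  rw [iteratedDeriv_comp_const_mul hg.contDiff, circleIntegral] at h
  simp only [mul_zero, deriv_circleMap, sub_zero, smul_eq_mul] at h
  refine mul_left_cancel₀ Complex.I_ne_zero ?_
  rw [← intervalIntegral.integral_const_mul]
  refine Eq.trans (intervalIntegral.integral_congr fun θ _ => ?_) (h.trans (by ring))
  have h1 : circleMap 0 1 θ ≠ 0 := circleMap_ne_center one_ne_zero
  have h2 : conj (circleMap 0 1 θ) = (circleMap 0 1 θ)⁻¹ :=
    (Complex.inv_eq_conj (by simp)).symm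
  rw [h2, mul_comm z, inv_pow]
  field_simp
  ring

lemma coeff1 {g : ℂ → ℂ} (hg : Differentiable ℂ g) (a : ℕ)
    (hi : Integrable (fun z => conj z ^ a * g z) ga) :
    ∫ z, conj z ^ a * g z ∂ga = π * iteratedDeriv a g 0 := by
  rw [integ_ga] at hi
  rw [int_ga]
  set H : ℂ → ℂ := fun z => Real.exp (-‖z‖ ^ 2) • (conj z ^ a * g z) with hH
  have hHc : Continuous H := by
    have := hg.continuous
    have := Complex.continuous_conj
    fun_prop
  have hrot : ∀ θ : ℝ, MeasurePreserving (fun z => circleMap 0 1 θ * z) volume volume := fun θ =>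
    (rotation ⟨circleMap 0 1 θ, by simp [Submonoid.unitSphere]⟩).measurePreserving
  have hemb : ∀ θ : ℝ, MeasurableEmbedding (fun z => circleMap 0 1 θ * z) := fun θ =>
    (rotation ⟨circleMap 0 1 θ, by simp [Submonoid.unitSphere]⟩).toHomeomorph.measurableEmbedding
  have h1 : Integrable (Function.uncurry fun (θ : ℝ) (z : ℂ) => H (circleMap 0 1 θ * z))
      ((volume.restrict (Ioc 0 (2 * π))).prod volume) := by
    have hc : Continuous (Function.uncurry fun (θ : ℝ) (z : ℂ) => H (circleMap 0 1 θ * z)) :=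
      hHc.comp (((continuous_circleMap 0 1).comp continuous_fst).mul continuous_snd)
    refine (integrable_prod_iff hc.aestronglyMeasurable).2 ⟨Eventually.of_forall fun θ =>
      (hrot θ).integrable_comp_of_integrable hi, ?_⟩
    simp only [Function.uncurry_apply_pair]
    have : ∀ θ : ℝ, ∫ z, ‖H (circleMap 0 1 θ * z)‖ = ∫ z, ‖H z‖ := fun θ =>
      (hrot θ).integral_comp (hemb θ) fun z => ‖H z‖
    simp only [this]
    exact integrable_const _
  have h2 := integral_integral_swap h1
  have h3 : ∀ θ : ℝ, ∫ z, H (circleMap 0 1 θ * z) = ∫ z, H z := fun θ =>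
    (hrot θ).integral_comp (hemb θ) H
  have h4 : ∀ z : ℂ, ∫ θ in Ioc 0 (2 * π), H (circleMap 0 1 θ * z) =
      ((Real.exp (-‖z‖ ^ 2) • ‖z‖ ^ (2 * a) : ℝ) : ℂ) * (2 * π / a ! * iteratedDeriv a g 0) := by
    intro z
    have h5 := circ hg a z
    rw [intervalIntegral.integral_of_le (by positivity)] at h5
    have h6 : ∀ θ : ℝ, H (circleMap 0 1 θ * z) = (Real.exp (-‖z‖ ^ 2) * conj z ^ a) *
        (conj (circleMap 0 1 θ) ^ a * g (circleMap 0 1 θ * z)) := fun θ => by
      simp only [hH, norm_mul, norm_circleMap_zero, abs_one, one_mul, map_mul, mul_pow,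
        Complex.real_smul]
      ring
    simp only [h6]
    rw [integral_const_mul, h5, smul_eq_mul, pow_mul]
    push_cast
    rw [← Complex.conj_mul', mul_pow]
    ring
  simp only [h3, h4] at h2
  rw [integral_mul_const, integral_complex_ofReal, ← int_ga fun z => ‖z‖ ^ (2 * a), moment,
    integral_const] at h2
  simp only [measureReal_def, MeasurableSet.univ, Measure.restrict_apply, univ_inter,
    Real.volume_Ioc, sub_zero, ENNReal.toReal_ofReal (show 0 ≤ 2 * π by positivity),
    Complex.real_smul] at h2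
  have h7 : ((2 * π : ℝ) : ℂ) ≠ 0 := by exact_mod_cast (show 2 * π ≠ 0 by positivity)
  have h8 : ((a ! : ℕ) : ℂ) ≠ 0 := by exact_mod_cast a.factorial_ne_zero
  refine mul_left_cancel₀ h7 (h2.trans ?_)
  push_cast
  field_simp

lemma mono_memLp (a : ℕ) : MemLp (fun z : ℂ => z ^ a) 2 ga := by
  rw [memLp_two_iff_integrable_sq_norm (by fun_prop)]
  simpa only [norm_pow, ← pow_mul, mul_comm a] using moment_int a

lemma int_conj_mul {X : Type} [MeasurableSpace X] {ν : Measure X} {f g : X → ℂ}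
    (hf : MemLp f 2 ν) (hg : MemLp g 2 ν) : Integrable (fun x => conj (f x) * g x) ν :=
  MemLp.integrable_mul (Complex.conjCLE.toContinuousLinearMap.comp_memLp' hf) hg

lemma orth1 (a b : ℕ) : ∫ z, conj z ^ a * z ^ b ∂ga = if a = b then π * a ! else 0 := by
  rw [coeff1 (by fun_prop) a (by simpa using int_conj_mul (mono_memLp a) (mono_memLp b)),
    iteratedDeriv_fun_pow_zero]
  split_ifs with h <;> simp [h]

lemma zero_of_derivs {g : ℂ → ℂ} (hg : Differentiable ℂ g) (h : ∀ a, iteratedDeriv a g 0 = 0)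
    (z : ℂ) : g z = 0 := by
  rw [← Complex.taylorSeries_eq_of_entire' 0 z hg]
  simp [h]

lemma partial_diff (a : ℕ) : ∀ {F : ℂ × ℂ → ℂ}, Differentiable ℂ F →
    Differentiable ℂ fun w => iteratedDeriv a (fun z => F (z, w)) 0 := by
  induction a with
  | zero => intro F hF; simp only [iteratedDeriv_zero]; fun_prop
  | succ a ih =>
    intro F hF
    have h1 : Differentiable ℂ fun p => fderiv ℂ F p (1, 0) := differentiableOn_univ.1
      (Pool.Agent.H97.SCV.differentiableOn_fderiv_apply isOpen_univ hF.differentiableOn _)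
    have h2 : ∀ w, deriv (fun z => F (z, w)) = fun z => fderiv ℂ F (z, w) (1, 0) := fun w => by
      ext z
      exact ((hF (z, w)).hasFDerivAt.comp_hasDerivAt z
        ((hasDerivAt_id z).prodMk (hasDerivAt_const z w))).deriv
    simp only [iteratedDeriv_succ', h2]
    exact ih h1

noncomputable def mon (i : ℕ × ℕ) (p : ℂ × ℂ) : ℂ := p.1 ^ i.1 * p.2 ^ i.2

lemma mon_diff (i : ℕ × ℕ) : Differentiable ℂ (mon i) := by unfold mon; fun_prop

lemma mon_memLp (i : ℕ × ℕ) : MemLp (mon i) 2 mu := by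
  rw [memLp_two_iff_integrable_sq_norm (mon_diff i).continuous.aestronglyMeasurable, mu_eq]
  simpa only [mon, norm_mul, norm_pow, mul_pow, ← pow_mul, mul_comm _ 2] using
    (moment_int i.1).mul_prod (moment_int i.2)

lemma mon_orth (i j : ℕ × ℕ) : ∫ p, conj (mon i p) * mon j p ∂mu =
    if i = j then ((π * i.1 ! * (π * i.2 !) : ℝ) : ℂ) else 0 := by
  have h := integral_prod_mul (μ := ga) (ν := ga) (fun z => conj z ^ i.1 * z ^ j.1)
    (fun z => conj z ^ i.2 * z ^ j.2)
  rw [orth1, orth1] at h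
  rw [mu_eq]
  refine Eq.trans (integral_congr_ae (Eventually.of_forall fun p => ?_)) (h.trans ?_)
  · simp only [mon, map_mul, map_pow]; ring
  · by_cases h1 : i.1 = j.1 <;> by_cases h2 : i.2 = j.2 <;> simp [h1, h2, Prod.ext_iff]

lemma complete {F : ℂ × ℂ → ℂ} (hF : Differentiable ℂ F) (h2 : MemLp F 2 mu)
    (h : ∀ i, ∫ p, conj (mon i p) * F p ∂mu = 0) (p : ℂ × ℂ) : F p = 0 := by
  have hπ : (π : ℂ) ≠ 0 := by exact_mod_cast Real.pi_ne_zero
  refine zero_of_derivs (g := fun z => F (z, p.2)) (by fun_prop) (fun a => ?_) p.1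
  refine zero_of_derivs (partial_diff a hF) (fun b => ?_) p.2
  have hi : ∀ b, Integrable (fun p => conj (mon (a, b) p) * F p) (ga.prod ga) := fun b =>
    mu_eq ▸ int_conj_mul (mon_memLp _) h2
  have h3 : (fun w => ∫ z, conj (mon (a, b) (z, w)) * F (z, w) ∂ga) =ᵐ[ga]
      fun w => π * (conj w ^ b * iteratedDeriv a (fun z => F (z, w)) 0) := by
    filter_upwards [(hi 0).prod_left_ae] with w hw
    simp only [mon, pow_zero, mul_one, map_pow] at hw
    rw [mul_left_comm, ← coeff1 (g := fun z => F (z, w)) (by fun_prop) a hw, ← integral_const_mul]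
    congr 1
    ext z
    simp only [mon, map_mul, map_pow]; ring
  have h4 := h (a, b)
  rw [mu_eq, integral_prod_symm _ (hi b), integral_congr_ae h3, integral_const_mul,
    coeff1 (partial_diff a hF) b ((integrable_const_mul_iff (IsUnit.mk0 _ hπ) _).1
      ((hi b).integral_prod_right.congr h3))] at h4
  simpa [hπ] using h4

end Pool.Agent.H95.Fock
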