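import Pool.Agent.H95.Fock1
import Pool.Agent.H95.L2

set_option autoImplicit false

open MeasureTheory Set Filter Topology ComplexConjugate Real
open scoped Nat

namespace Pool.Agent.H95.Fock
open Pool.Agent.H95.L2

section abstract
variable {E ι : Type} [NormedAddCommGroup E] [InnerProductSpace ℂ E] [CompleteSpace E]

lemma diag_compact (w : ι → ℂ) (hw : ∀ i, ‖w i‖ ≤ 1) (h0 : Tendsto w cofinite (𝓝 0)) :
    IsCompactOperator (diag w zero_le_one hw) := by
  classical
  let A : Finset ι → H ι →L[ℂ] H ι := fun s => ∑ i ∈ s, (innerSL ℂ (e i)).smulRight (w i • e i)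
  have hA : ∀ s, IsCompactOperator (A s) := fun s => by
    induction s using Finset.induction_on with
    | empty => simpa [A] using isCompactOperator_zero
    | insert i s hi ih =>
      simp only [A, Finset.sum_insert hi]
      exact ((isCompactOperator_of_locallyCompactSpace_dom (innerSL ℂ (e i))).clm_comp
        (ContinuousLinearMap.toSpanSingleton ℂ (w i • e i))).add ih
  refine isCompactOperator_of_tendsto (l := atTop) (F := A) ?_ (Eventually.of_forall hA)
  rw [Metric.tendsto_atTop]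
  intro ε hε
  have h1 := h0.eventually (Metric.ball_mem_nhds 0 (half_pos hε))
  rw [eventually_cofinite] at h1
  refine ⟨h1.toFinset, fun s hs => ?_⟩
  have h2 : ∀ i, ‖if i ∈ s then 0 else w i‖ ≤ ε / 2 := fun i => by
    split_ifs with h
    · rw [norm_zero]; positivity
    · by_contra hc
      exact h (hs (h1.mem_toFinset.2 fun h3 => hc (by simpa using (le_of_lt h3))))
  have h3 : diag w zero_le_one hw - A s = diag _ (half_pos hε).le h2 := by
    ext x i
    simp only [A, ContinuousLinearMap.sub_apply, lp.coeFn_sub, Pi.sub_apply, diag_apply,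
      ContinuousLinearMap.sum_apply, ContinuousLinearMap.smulRight_apply, innerSL_apply_apply,
      inner_e, lp.coeFn_sum, Finset.sum_apply, lp.coeFn_smul, Pi.smul_apply, e_apply, smul_eq_mul,
      mul_ite, mul_one, mul_zero, Finset.sum_ite_eq]
    split_ifs <;> ring
  rw [dist_comm, dist_eq_norm, h3]
  exact (norm_diag_le _ _ _).trans_lt (half_lt_self hε)

lemma closure_eq (b : HilbertBasis ι ℂ E) (w : ι → ℂ) (G : Submodule ℂ (E × E))
    (h1 : ∀ p ∈ G, ∀ i, inner ℂ (b i) p.2 = w i * inner ℂ (b i) p.1)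
    (h2 : ∀ i, (b i, w i • b i) ∈ G) (p : E × E) :
    p ∈ closure (G : Set (E × E)) ↔ ∀ i, inner ℂ (b i) p.2 = w i * inner ℂ (b i) p.1 := by
  constructor
  · intro hp i
    exact closure_minimal (t := {p : E × E | inner ℂ (b i) p.2 = w i * inner ℂ (b i) p.1})
      (fun p hp => h1 p hp i) (isClosed_eq (by fun_prop) (by fun_prop)) hp
  · intro h
    refine mem_closure_of_tendsto ((b.hasSum_repr p.1).prodMk (b.hasSum_repr p.2))
      (Eventually.of_forall fun s => G.sum_mem fun i _ => ?_)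
    have := G.smul_mem (b.repr p.1 i) (h2 i)
    rwa [Prod.smul_mk, smul_smul, mul_comm, b.repr_apply_apply, ← h, ← b.repr_apply_apply,
      ← b.repr_apply_apply] at this

lemma compact_res (b : HilbertBasis ι ℂ E) (w : ι → ℂ) (hw : ∀ i, 1 ≤ ‖w i‖)
    (h0 : Tendsto (fun i => (w i)⁻¹) cofinite (𝓝 0)) (G : Set (E × E))
    (hG : ∀ p, p ∈ G ↔ ∀ i, inner ℂ (b i) p.2 = w i * inner ℂ (b i) p.1) :
    CompactResolvent G := by
  have h1 : ∀ i, ‖-(w i)⁻¹‖ ≤ 1 := fun i => by
    rw [norm_neg, norm_inv]; exact inv_le_one_of_one_le₀ (hw i)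
  let U := b.repr.toContinuousLinearEquiv
  refine ⟨0, U.symm.toContinuousLinearMap ∘L diag _ zero_le_one h1 ∘L U.toContinuousLinearMap,
    ((diag_compact _ h1 (by simpa using h0.neg)).comp_clm U.toContinuousLinearMap).clm_comp
      U.symm.toContinuousLinearMap, fun f g => ?_⟩
  rw [hG]
  show _ ↔ f = b.repr.symm (diag _ zero_le_one h1 (b.repr g))
  rw [LinearIsometryEquiv.eq_symm_apply, lp.ext_iff, funext_iff]
  refine forall_congr' fun i => ?_
  have h2 : w i ≠ 0 := by rw [← norm_pos_iff]; linarith [hw i]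
  rw [diag_apply, b.repr_apply_apply, b.repr_apply_apply, zero_smul, zero_sub, inner_neg_right]
  constructor
  · intro h; field_simp; linear_combination -h
  · intro h; rw [h]; field_simp

omit [CompleteSpace E] in
lemma not_compact_res (v : ℕ → E) (hv : Orthonormal ℂ v) (G : Set (E × E))
    (hG : ∀ n, (v n, 0) ∈ G) : ¬ CompactResolvent G := by
  rintro ⟨l, R, hR, h⟩
  have h1 : ∀ n, v n = R (l • v n) := fun n => (h _ _).1 (by simpa using hG n)
  obtain ⟨K, hK, hK'⟩ := hR.image_closedBall_subset_compact ‖l‖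
  obtain ⟨y, -, ψ, hψ, hy⟩ := hK.tendsto_subseq (x := v) fun n =>
    hK' ⟨l • v n, by simp [norm_smul, hv.1 n], (h1 n).symm⟩
  obtain ⟨N, hN⟩ := Metric.cauchySeq_iff'.1 hy.cauchySeq 1 one_pos
  have h2 := hN (N + 1) (Nat.le_succ N)
  have h3 := norm_sub_sq (𝕜 := ℂ) (v (ψ (N + 1))) (v (ψ N))
  rw [hv.2 (hψ.injective.ne (Nat.succ_ne_self N)), hv.1, hv.1] at h3
  simp only [Function.comp_apply, dist_eq_norm, map_zero] at h2 h3
  nlinarith [norm_nonneg (v (ψ (N + 1)) - v (ψ N))]

end abstract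

noncomputable def N (i : ℕ × ℕ) : ℝ := π * i.1 ! * (π * i.2 !)

lemma N_pos (i : ℕ × ℕ) : 0 < N i := by unfold N; positivity

noncomputable def c (i : ℕ × ℕ) : ℂ := (((Real.sqrt (N i))⁻¹ : ℝ) : ℂ)

lemma cc (i : ℕ × ℕ) : c i * c i * N i = 1 := by
  have := N_pos i
  rw [c, ← Complex.ofReal_mul, ← Complex.ofReal_mul, ← mul_inv, Real.mul_self_sqrt this.le,
    inv_mul_cancel₀ this.ne', Complex.ofReal_one]

noncomputable def M (i : ℕ × ℕ) : Lp ℂ 2 mu := (mon_memLp i).toLp _

lemma M_ae (i : ℕ × ℕ) : M i =ᵐ[mu] mon i := MemLp.coeFn_toLp _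

lemma inner_M (i : ℕ × ℕ) (f : Lp ℂ 2 mu) {F : ℂ × ℂ → ℂ} (h : f =ᵐ[mu] F) :
    inner ℂ (M i) f = ∫ p, conj (mon i p) * F p ∂mu := by
  rw [L2.inner_def]
  refine integral_congr_ae ?_
  filter_upwards [M_ae i, h] with p h1 h2
  rw [h1, h2, RCLike.inner_apply, mul_comm]

noncomputable def E (i : ℕ × ℕ) : Lp ℂ 2 mu := c i • M i

lemma E_ae (i : ℕ × ℕ) : E i =ᵐ[mu] fun p => c i * mon i p :=
  (Lp.coeFn_smul _ _).trans ((M_ae i).const_smul (c i))

lemma inner_E (i : ℕ × ℕ) (f : Lp ℂ 2 mu) : inner ℂ (E i) f = c i * inner ℂ (M i) f := by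
  rw [E, inner_smul_left, c, Complex.conj_ofReal]

lemma E_orth : Orthonormal ℂ E := by
  classical
  rw [orthonormal_iff_ite]
  intro i j
  rw [inner_E, E, inner_smul_right, inner_M i _ (M_ae j), mon_orth]
  split_ifs with h
  · subst h
    rw [← mul_assoc]
    exact cc i
  · simp

lemma E_mem (i : ℕ × ℕ) : E i ∈ H2 := H2.smul_mem _ ⟨_, mon_diff i, M_ae i⟩

lemma zero_of_orth {f : Lp ℂ 2 mu} (hf : f ∈ H2) (h : ∀ i, inner ℂ (E i) f = 0) : f = 0 := by
  obtain ⟨F, hF, hfF⟩ := hf
  have h1 := complete hF ((Lp.memLp f).ae_eq hfF) fun i => by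
    have := h i
    rw [inner_E, inner_M i f hfF] at this
    exact (mul_eq_zero.1 this).resolve_left (left_ne_zero_of_mul (left_ne_zero_of_mul
      ((cc i).trans_ne one_ne_zero)))
  exact Lp.ext (hfF.trans (EventuallyEq.trans (Eventually.of_forall h1) (Lp.coeFn_zero _ _ _).symm))

lemma sum_mem (a : H (ℕ × ℕ)) (f : Lp ℂ 2 mu) (hf : HasSum (fun i => a i • E i) f) : f ∈ H2 := by
  classical
  let t : ℕ × ℕ → ℂ × ℂ → ℂ := fun i p => a i * (c i * mon i p)
  have ht : ∀ i, Differentiable ℂ (t i) := fun i => ((mon_diff i).const_mul _).const_mul _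
  obtain ⟨s, hs⟩ := exists_seq_tendsto (atTop : Filter (Finset (ℕ × ℕ)))
  have hU : ∀ x : ℂ × ℂ, TendstoUniformlyOn (fun n p => ∑ i ∈ s n, t i p) (fun p => ∑' i, t i p)
      atTop (Metric.ball x 1) := fun x => by
    set ρ := (‖x‖ + 1) ^ 2 with hρ
    have h1 := (Real.summable_pow_div_factorial ρ).mul_of_nonneg
      (Real.summable_pow_div_factorial ρ) (fun n => by positivity) fun n => by positivity
    refine (tendstoUniformlyOn_tsum ((summable_sq a).add h1) fun i p hp => ?_).seq_tendstoUniformlyOn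
      s hs
    have h2 : ‖p‖ ≤ ‖x‖ + 1 := by
      have := norm_sub_norm_le p x
      rw [mem_ball_iff_norm] at hp
      linarith
    have h3 : ‖c i * mon i p‖ ^ 2 ≤ ρ ^ i.1 / i.1 ! * (ρ ^ i.2 / i.2 !) := by
      have h4 : ‖c i‖ ^ 2 ≤ ((i.1 ! : ℝ) * i.2 !)⁻¹ := by
        rw [c, Complex.norm_real, Real.norm_eq_abs, sq_abs, inv_pow, Real.sq_sqrt (N_pos i).le]
        refine inv_anti₀ (by positivity) ?_
        have := Real.pi_gt_three
        rw [N]
        gcongr <;> exact le_mul_of_one_le_left (by positivity) (by linarith)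
      have h5 : ‖mon i p‖ ^ 2 ≤ ρ ^ i.1 * ρ ^ i.2 := by
        rw [mon, norm_mul, norm_pow, norm_pow, mul_pow, pow_right_comm, pow_right_comm ‖p.2‖, hρ]
        gcongr
        exacts [(norm_fst_le p).trans h2, (norm_snd_le p).trans h2]
      rw [norm_mul, mul_pow]
      refine (mul_le_mul h4 h5 (by positivity) (by positivity)).trans_eq ?_
      field_simp
    rw [norm_mul]
    nlinarith [sq_nonneg (‖a i‖ - ‖c i * mon i p‖), norm_nonneg (a i), norm_nonneg (c i * mon i p)]
  refine ⟨fun p => ∑' i, t i p, fun x =>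
    Pool.Agent.H97.SCV.differentiableAt_of_tendstoUniformlyOn one_pos
      (fun n => (Differentiable.fun_sum fun i _ => ht i).differentiableOn) (hU x), ?_⟩
  have h1 : ∀ u : Finset (ℕ × ℕ), (∑ i ∈ u, a i • E i : Lp ℂ 2 mu) =ᵐ[mu]
      fun p => ∑ i ∈ u, t i p := fun u => by
    induction u using Finset.induction_on with
    | empty => exact Lp.coeFn_zero _ _ _
    | insert i u hi ih =>
      simp only [Finset.sum_insert hi]
      exact (Lp.coeFn_add _ _).trans
        (((Lp.coeFn_smul _ _).trans ((E_ae i).const_smul (a i))).add ih)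
  obtain ⟨ns, hns, h2⟩ := (tendstoInMeasure_of_tendsto_Lp (Tendsto.comp hf hs)).exists_seq_tendsto_ae
  filter_upwards [h2, ae_all_iff.2 fun n => h1 (s n)] with p h3 h4
  refine tendsto_nhds_unique h3 ?_
  exact (((hU p).tendsto_at (Metric.mem_ball_self one_pos)).comp hns.tendsto_atTop).congr
    fun n => (h4 _).symm

lemma H2_closed : IsClosed (H2 : Set (Lp ℂ 2 mu)) := by
  let V := E_orth.orthogonalFamily.linearIsometry
  have hV : ∀ a, HasSum (fun i => a i • E i) (V a) := fun a => by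
    simpa using E_orth.orthogonalFamily.hasSum_linearIsometry a
  have h1 : (H2 : Set (Lp ℂ 2 mu)) = range V := by
    refine Subset.antisymm (fun f hf => ?_) (by rintro _ ⟨a, rfl⟩; exact sum_mem a _ (hV a))
    let a : H (ℕ × ℕ) := ⟨fun i => inner ℂ (E i) f,
      mem_of_summable (E_orth.inner_products_summable f)⟩
    refine ⟨a, (sub_eq_zero.1 (zero_of_orth (H2.sub_mem hf (sum_mem a _ (hV a))) fun i => ?_)).symm⟩
    classical
    have h2 := (hV a).mapL (innerSL ℂ (E i))
    simp only [innerSL_apply_apply, inner_smul_right, orthonormal_iff_ite.1 E_orth, mul_ite,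
      mul_one, mul_zero] at h2
    rw [inner_sub_right, sub_eq_zero]
    refine (h2.unique ?_).symm
    have h3 : (fun j => if i = j then a j else 0) = fun j => if j = i then a i else 0 := by
      ext j
      by_cases h : j = i
      · simp [h]
      · simp [h, Ne.symm h]
    rw [h3]
    exact hasSum_ite_eq i (a i)
  rw [h1]
  exact V.isometry.isClosedEmbedding.isClosed_range

instance : CompleteSpace H2 := H2_closed.completeSpace_coe

noncomputable def bas : HilbertBasis (ℕ × ℕ) ℂ H2 :=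
  HilbertBasis.mkOfOrthogonalEqBot (v := fun i => ⟨E i, E_mem i⟩)
    (E_orth.codRestrict H2 E_mem) (by
      rw [Submodule.eq_bot_iff]
      intro f hf
      exact Subtype.ext (zero_of_orth f.2 fun i =>
        hf ⟨E i, E_mem i⟩ (Submodule.subset_span ⟨i, rfl⟩)))

lemma bas_apply (i : ℕ × ℕ) : (bas i : Lp ℂ 2 mu) = E i := by
  rw [bas, HilbertBasis.coe_mkOfOrthogonalEqBot]

lemma orth_all {k : Lp ℂ 2 mu} (h : ∀ j, inner ℂ (E j) k = 0) (u : Lp ℂ 2 mu) (hu : u ∈ H2) :
    inner ℂ u k = 0 := by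
  have h1 := ((bas.hasSum_repr ⟨u, hu⟩).mapL H2.subtypeL).mapL (innerSL ℂ k)
  simp only [map_smul, Submodule.subtypeL_apply, bas_apply, innerSL_apply_apply,
    inner_eq_zero_symm.1 (h _), smul_zero] at h1
  exact inner_eq_zero_symm.1 (h1.unique hasSum_zero)

noncomputable def G (s : ℂ × ℂ → ℂ) : Submodule ℂ (H2 × H2) where
  carrier := graph s
  add_mem' := by
    rintro p q ⟨h, h1, h2⟩ ⟨k, k1, k2⟩
    refine ⟨h + k, ?_, fun u hu => ?_⟩
    · filter_upwards [Lp.coeFn_add h k, h1, k1, Lp.coeFn_add p.1.1 q.1.1] with z a1 a2 a3 a4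
      rw [a1, Pi.add_apply, a2, a3, ← mul_add]
      exact congrArg _ a4.symm
    · rw [Prod.snd_add, Submodule.coe_add, add_sub_add_comm, inner_add_right, h2 u hu, k2 u hu,
        add_zero]
  zero_mem' := ⟨0, by
    filter_upwards [Lp.coeFn_zero ℂ 2 mu] with z a1
    exact a1.trans (by rw [show ((0 : H2 × H2).1.1 : ℂ × ℂ → ℂ) z = 0 from a1]; simp),
    fun u _ => by simp⟩
  smul_mem' := by
    rintro a p ⟨h, h1, h2⟩
    refine ⟨a • h, ?_, fun u hu => ?_⟩
    · filter_upwards [Lp.coeFn_smul a h, h1, Lp.coeFn_smul a p.1.1] with z a1 a2 a4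
      rw [a1, Pi.smul_apply, a2, smul_eq_mul, mul_left_comm]
      exact congrArg _ a4.symm
    · rw [Prod.smul_snd, Submodule.coe_smul, ← smul_sub, inner_smul_right, h2 u hu, mul_zero]

structure Good (s : ℂ × ℂ → ℂ) (w : ℕ × ℕ → ℝ) : Prop where
  real : ∀ p, conj (s p) = s p
  mem : ∀ i, MemLp (fun p => s p * mon i p) 2 mu
  eig : ∀ i j, ∫ p, conj (mon j p) * (s p * mon i p) ∂mu =
    w i * ∫ p, conj (mon j p) * mon i p ∂mu

lemma Good.sub {s t : ℂ × ℂ → ℂ} {w v : ℕ × ℕ → ℝ} (hs : Good s w) (ht : Good t v) :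
    Good (fun p => s p - t p) fun i => w i - v i where
  real p := by rw [map_sub, hs.real, ht.real]
  mem i := by simp only [sub_mul]; exact (hs.mem i).sub (ht.mem i)
  eig i j := by
    simp only [sub_mul, mul_sub]
    rw [integral_sub (int_conj_mul (mon_memLp j) (hs.mem i)) (int_conj_mul (mon_memLp j) (ht.mem i)),
      hs.eig, ht.eig]
    push_cast; ring

lemma mon_add (i k : ℕ × ℕ) (p : ℂ × ℂ) : mon (i + k) p = mon i p * mon k p := by
  simp only [mon, Prod.fst_add, Prod.snd_add, pow_add]; ring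

lemma good_mon (k : ℕ × ℕ) :
    Good (fun p => mon k p * conj (mon k p)) fun i => N (i + k) / N i where
  real p := by simp [mul_comm]
  mem i := by
    have h1 := (mon_diff k).continuous
    have h2 := (mon_diff i).continuous
    have h3 := Complex.continuous_conj
    refine (mon_memLp (i + k + k)).of_le (Continuous.aestronglyMeasurable (by fun_prop))
      (Eventually.of_forall fun p => le_of_eq ?_)
    simp only [mon_add, norm_mul, Complex.norm_conj]; ring
  eig i j := by
    have h := mon_orth (j + k) (i + k)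
    rw [mon_orth]
    refine Eq.trans (integral_congr_ae (Eventually.of_forall fun p => ?_)) (h.trans ?_)
    · simp only [mon_add, map_mul]; ring
    · simp only [add_left_inj]
      split_ifs with h
      · subst h
        show ((N (j + k) : ℝ) : ℂ) = _ * ((N j : ℝ) : ℂ)
        rw [← Complex.ofReal_mul, div_mul_cancel₀ _ (N_pos j).ne']
      · simp

lemma Good.closure {s : ℂ × ℂ → ℂ} {w : ℕ × ℕ → ℝ} (hs : Good s w) (p : H2 × H2) :
    p ∈ closure (graph s) ↔ ∀ i, inner ℂ (bas i) p.2 = w i * inner ℂ (bas i) p.1 := by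
  have h1 : ∀ i, (c i • (hs.mem i).toLp _ : Lp ℂ 2 mu) =ᵐ[mu] fun p => c i * (s p * mon i p) :=
    fun i => (Lp.coeFn_smul _ _).trans ((hs.mem i).coeFn_toLp.const_smul (c i))
  have h2 : ∀ i, ∀ u ∈ H2, inner ℂ u (c i • (hs.mem i).toLp _ - (w i : ℂ) • E i) = 0 :=
    fun i => orth_all fun j => by
      rw [inner_E, inner_sub_right, inner_smul_right, inner_smul_right, E, inner_smul_right,
        inner_M j _ (hs.mem i).coeFn_toLp, inner_M j _ (M_ae i), hs.eig]
      ring
  refine closure_eq bas (fun i => w i) (G s) ?_ (fun i => ⟨c i • (hs.mem i).toLp _, ?_, ?_⟩) p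
  · rintro p ⟨h, k1, k2⟩ i
    have k3 := k2 _ (E_mem i)
    have k4 := inner_eq_zero_symm.1 (h2 i _ p.1.2)
    rw [inner_sub_right, sub_eq_zero] at k3
    rw [inner_sub_left, sub_eq_zero, inner_smul_left (E i), Complex.conj_ofReal] at k4
    rw [Submodule.coe_inner, Submodule.coe_inner, bas_apply, ← k3, ← k4, L2.inner_def,
      L2.inner_def]
    refine integral_congr_ae ?_
    filter_upwards [k1, h1 i, E_ae i] with z a1 a2 a3
    rw [a1, a2, a3, RCLike.inner_apply, RCLike.inner_apply]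
    simp only [map_mul, hs.real]
    ring
  · filter_upwards [h1 i, E_ae i] with z a1 a2
    rw [a1, bas_apply, a2]; ring
  · simpa only [Submodule.coe_smul, bas_apply] using h2 i

theorem main :
    CompactResolvent (closure (graph fun p => p.1 * conj p.1 * (p.2 * conj p.2))) ∧
    ¬ CompactResolvent
      (closure (graph fun p => p.1 * conj p.1 * (p.2 * conj p.2) + -(p.1 * conj p.1))) := by
  have e1 : (fun p : ℂ × ℂ => p.1 * conj p.1 * (p.2 * conj p.2)) =
      fun p => mon (1, 1) p * conj (mon (1, 1) p) := by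
    ext p; simp only [mon, pow_one, map_mul]; ring
  have e2 : (fun p : ℂ × ℂ => p.1 * conj p.1 * (p.2 * conj p.2) + -(p.1 * conj p.1)) =
      fun p => mon (1, 1) p * conj (mon (1, 1) p) - mon (1, 0) p * conj (mon (1, 0) p) := by
    ext p; simp only [mon, pow_one, map_mul, pow_zero, map_one]; ring
  have w1 : ∀ i, N (i + (1, 1)) / N i = (i.1 + 1) * (i.2 + 1) := fun i => by
    rw [div_eq_iff (N_pos i).ne']
    simp only [N, Prod.fst_add, Prod.snd_add, Nat.factorial_succ]
    push_cast; ring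
  have w2 : ∀ i, N (i + (1, 0)) / N i = i.1 + 1 := fun i => by
    rw [div_eq_iff (N_pos i).ne']
    simp only [N, Prod.fst_add, Prod.snd_add, Nat.factorial_succ, add_zero]
    push_cast; ring
  rw [e1, e2]
  constructor
  · refine compact_res bas _ (fun i => ?_) ?_ _ (good_mon (1, 1)).closure
    · rw [w1, Complex.norm_real, Real.norm_of_nonneg (by positivity)]
      nlinarith [Nat.cast_nonneg (α := ℝ) i.1, Nat.cast_nonneg (α := ℝ) i.2]
    · have h1 : Tendsto (fun i : ℕ × ℕ => i.1 + i.2) cofinite atTop := by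
        rw [← Nat.cofinite_eq_atTop]
        refine Tendsto.cofinite_of_finite_preimage_singleton fun n => ?_
        exact ((Finset.HasAntidiagonal.antidiagonal n).finite_toSet.subset fun i hi => by simpa using hi).to_subtype
      have h2 : Tendsto (fun i : ℕ × ℕ => N (i + (1, 1)) / N i) cofinite atTop := by
        refine tendsto_atTop_mono (fun i => ?_) (tendsto_natCast_atTop_atTop.comp h1)
        rw [w1, Function.comp_apply]
        push_cast
        nlinarith [Nat.cast_nonneg (α := ℝ) i.1, Nat.cast_nonneg (α := ℝ) i.2]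
      have h3 := (Complex.continuous_ofReal.tendsto 0).comp h2.inv_tendsto_atTop
      refine h3.congr fun i => ?_
      simp only [Function.comp_apply, Pi.inv_apply, Complex.ofReal_inv]
  · refine not_compact_res (fun n => bas (n, 0))
      (bas.orthonormal.comp _ fun a b h => (Prod.ext_iff.1 h).1) _ fun n => ?_
    rw [((good_mon (1, 1)).sub (good_mon (1, 0))).closure]
    intro i
    classical
    rw [orthonormal_iff_ite.1 bas.orthonormal, w1, w2]
    split_ifs with h
    · simp [h]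
    · simp

noncomputable def J (f : H2) : ℂ × ℂ → ℂ := f.2.choose

lemma J_diff (f : H2) : Differentiable ℂ (J f) := f.2.choose_spec.1

lemma J_ae (f : H2) : f.1 =ᵐ[mu] J f := f.2.choose_spec.2

instance : mu.IsOpenPosMeasure :=
  (withDensity_absolutelyContinuous' (μ := volume) (by fun_prop) (Eventually.of_forall fun p => by
    simp [Real.exp_pos])).isOpenPosMeasure

lemma J_eq {f : H2} {F : ℂ × ℂ → ℂ} (hF : Differentiable ℂ F) (h : f.1 =ᵐ[mu] F) : J f = F :=
  ((J_diff f).continuous.ae_eq_iff_eq mu hF.continuous).1 ((J_ae f).symm.trans h)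

lemma inner_ae (f g : Lp ℂ 2 mu) {F G : ℂ × ℂ → ℂ} (hf : f =ᵐ[mu] F) (hg : g =ᵐ[mu] G) :
    inner ℂ f g = ∫ p, conj (F p) * G p ∂mu := by
  rw [L2.inner_def]
  refine integral_congr_ae ?_
  filter_upwards [hf, hg] with p h1 h2
  rw [h1, h2, RCLike.inner_apply, mul_comm]

lemma isFock : IsFock J := by
  refine ⟨fun f g => congrFun (J_eq ((J_diff f).add (J_diff g))
    ((Lp.coeFn_add _ _).trans ((J_ae f).add (J_ae g)))),
    fun c f => congrFun (J_eq ((J_diff f).const_smul c)
    ((Lp.coeFn_smul _ _).trans ((J_ae f).const_smul c))), ?_,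
    fun f g => inner_ae _ _ (J_ae f) (J_ae g)⟩
  ext F
  constructor
  · rintro ⟨f, rfl⟩
    exact ⟨J_diff f, (Lp.memLp f.1).ae_eq (J_ae f)⟩
  · rintro ⟨h1, h2⟩
    exact ⟨⟨h2.toLp F, F, h1, h2.coeFn_toLp⟩, J_eq h1 h2.coeFn_toLp⟩

lemma graph_eq (s : ℂ × ℂ → ℂ) : graphT J s = graph s := by
  ext p
  have h0 : (fun z => s z * p.1.1 z) =ᵐ[mu] fun z => s z * J p.1 z := by
    filter_upwards [J_ae p.1] with z hz using congrArg _ hz
  constructor
  · rintro ⟨h1, h2⟩
    refine ⟨h1.toLp _, h1.coeFn_toLp.trans h0.symm, fun u hu => ?_⟩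
    rw [inner_sub_right, inner_ae _ _ (J_ae ⟨u, hu⟩) h1.coeFn_toLp, ← h2, sub_eq_zero]
    rfl
  · rintro ⟨h, h1, h2⟩
    refine ⟨(Lp.memLp h).ae_eq (h1.trans h0), fun u => ?_⟩
    have := h2 u.1 u.2
    rw [inner_sub_right, inner_ae _ _ (J_ae u) (h1.trans h0), sub_eq_zero] at this
    exact this.symm

theorem main' : ∃ (H : Type) (_ : NormedAddCommGroup H) (_ : InnerProductSpace ℂ H)
    (_ : CompleteSpace H) (J : H → ℂ × ℂ → ℂ), IsFock J ∧
    CompactResolvent (closure (graphT J fun p => p.1 * conj p.1 * (p.2 * conj p.2))) ∧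
    ¬ CompactResolvent
      (closure (graphT J fun p => p.1 * conj p.1 * (p.2 * conj p.2) + -(p.1 * conj p.1))) :=
  ⟨H2, inferInstance, inferInstance, inferInstance, J, isFock, by
    rw [graph_eq, graph_eq]; exact main⟩

end Pool.Agent.H95.Fock
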