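import Mathlib

set_option autoImplicit false

open MeasureTheory ComplexConjugate

namespace Pool.Agent.H95.Fock

/-- The Gaussian measure exp(-|z|^2) dz on C^2. -/
noncomputable def mu : Measure (ℂ × ℂ) :=
  volume.withDensity fun p => ENNReal.ofReal (Real.exp (-(‖p.1‖ ^ 2 + ‖p.2‖ ^ 2)))

variable {H : Type} [NormedAddCommGroup H] [InnerProductSpace ℂ H]

/-- J identifies the inner product space H with the Bargmann-Segal space: J is linear, its range is
the set of entire functions in L^2(mu), and the inner product is that of L^2(mu). -/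
def IsFock (J : H → ℂ × ℂ → ℂ) : Prop :=
  (∀ f g p, J (f + g) p = J f p + J g p) ∧ (∀ (c : ℂ) f p, J (c • f) p = c * J f p) ∧
    Set.range J = {F | Differentiable ℂ F ∧ MemLp F 2 mu} ∧
    ∀ f g, inner ℂ f g = ∫ p, conj (J f p) * J g p ∂mu

/-- The graph of the Toeplitz operator with symbol s: pairs (f, g) such that s f lies in L^2(mu)
and g is the orthogonal projection of s f onto the Bargmann-Segal space. -/
def graphT (J : H → ℂ × ℂ → ℂ) (s : ℂ × ℂ → ℂ) : Set (H × H) :=
  {p | MemLp (fun z => s z * J p.1 z) 2 mu ∧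
    ∀ u, inner ℂ u p.2 = ∫ z, conj (J u z) * (s z * J p.1 z) ∂mu}

/-- The operator with graph G has compact resolvent: for some l, l - A has a compact everywhere
defined bounded inverse R. -/
def CompactResolvent (G : Set (H × H)) : Prop :=
  ∃ (l : ℂ) (R : H →L[ℂ] H), IsCompactOperator R ∧ ∀ f g : H, (f, l • f - g) ∈ G ↔ f = R g

end Pool.Agent.H95.Fock
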