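import Mathlib

namespace Pool.Agent.H95.Freud
open Polynomial

variable (L : ℝ[X] →ₗ[ℝ] ℝ)

noncomputable def pr : ℕ → ℝ[X] × ℝ[X]
  | 0 => (0, 1)
  | n + 1 => ((pr n).2, (X - C (L (X * (pr n).2 * (pr n).2) / L ((pr n).2 * (pr n).2))) * (pr n).2 -
      C (L (X * (pr n).2 * (pr n).1) / L ((pr n).1 * (pr n).1)) * (pr n).1)

noncomputable def P (n : ℕ) : ℝ[X] := (pr L n).2
noncomputable def h (n : ℕ) : ℝ := L (P L n * P L n)
noncomputable def bb (n : ℕ) : ℝ := L (X * P L n * P L n) / h L n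

theorem P_zero : P L 0 = 1 := rfl
theorem P_one : P L 1 = (X - C (bb L 0)) * P L 0 := by
  simp [P, pr, bb, h]
theorem P_ss (n : ℕ) : P L (n + 2) = (X - C (bb L (n + 1))) * P L (n + 1) -
    C (L (X * P L (n + 1) * P L n) / h L n) * P L n := rfl

theorem red {Q q : ℝ[X]} {n : ℕ} (hm : Q.Monic) (hd : Q.natDegree = n)
    (hq : q.degree < ((n + 1 : ℕ) : WithBot ℕ)) :
    (q - C (q.coeff n) * Q).degree < (n : WithBot ℕ) := by
  rw [degree_lt_iff_coeff_zero] at hq ⊢
  intro m hm'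
  rcases eq_or_lt_of_le hm' with rfl | hlt
  · have : Q.coeff n = 1 := by rw [← hd]; exact hm
    simp [this]
  · have : Q.coeff m = 0 := coeff_eq_zero_of_natDegree_lt (by omega)
    simp [this, hq m (by omega)]

def Good (n : ℕ) : Prop := (P L n).Monic ∧ (P L n).natDegree = n ∧
  ∀ q : ℝ[X], q.degree < (n : WithBot ℕ) → L (P L n * q) = 0

theorem LC (c : ℝ) (q : ℝ[X]) : L (C c * q) = c * L q := by
  rw [C_mul', map_smul, smul_eq_mul]

variable {L}

theorem deg_lt {n : ℕ} (g : Good L n) : (P L n).degree < ((n + 1 : ℕ) : WithBot ℕ) := by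
  rw [degree_eq_natDegree g.1.ne_zero, g.2.1]; exact_mod_cast Nat.lt_succ_self n

theorem Xdeg {q : ℝ[X]} {n : ℕ} (hq : q.degree < (n : WithBot ℕ)) :
    (X * q).degree < ((n + 1 : ℕ) : WithBot ℕ) := by
  rw [degree_lt_iff_coeff_zero] at hq ⊢
  intro m hm
  obtain ⟨k, rfl⟩ : ∃ k, m = k + 1 := ⟨m - 1, by omega⟩
  rw [coeff_X_mul]; exact hq k (by omega)

theorem lt_succ {q : ℝ[X]} {n : ℕ} (hq : q.degree < (n : WithBot ℕ)) :
    q.degree < ((n + 1 : ℕ) : WithBot ℕ) := hq.trans (by exact_mod_cast Nat.lt_succ_self n)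

variable (hL : ∀ q : ℝ[X], q ≠ 0 → 0 < L (q * q))
include hL

theorem good2 (n : ℕ) : Good L n ∧ Good L (n + 1) := by
  induction n with
  | zero =>
    have g0 : Good L 0 := by
      refine ⟨monic_one, natDegree_one, fun q hq => ?_⟩
      have : q = 0 := by simpa using hq
      simp [this]
    refine ⟨g0, ?_, ?_, fun q hq => ?_⟩
    · rw [P_one, P_zero, mul_one]; exact monic_X_sub_C _
    · rw [P_one, P_zero, mul_one]; exact natDegree_X_sub_C _
    · have h0 : h L 0 ≠ 0 := (hL _ g0.1.ne_zero).ne'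
      have hq' : q = C (q.coeff 0) := eq_C_of_degree_le_zero (Nat.WithBot.lt_one_iff_le_zero.1 (by simpa using hq))
      have e : P L (0 + 1) * q = C (q.coeff 0) * (X * P L 0 * P L 0 - C (bb L 0) * (P L 0 * P L 0)) := by
        conv_lhs => rw [hq', zero_add, P_one]
        rw [P_zero]; ring
      rw [e, LC, map_sub, LC, bb]
      change _ * (_ - _ / h L 0 * h L 0) = 0
      rw [div_mul_cancel₀ _ h0, sub_self, mul_zero]
  | succ n ih =>
    obtain ⟨g0, g1⟩ := ih
    have h0 : h L n ≠ 0 := (hL _ g0.1.ne_zero).ne'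
    have h1 : h L (n + 1) ≠ 0 := (hL _ g1.1.ne_zero).ne'
    have m1 : ((X - C (bb L (n + 1))) * P L (n + 1)).Monic := (monic_X_sub_C _).mul g1.1
    have d1 : ((X - C (bb L (n + 1))) * P L (n + 1)).natDegree = n + 2 := by
      rw [(monic_X_sub_C _).natDegree_mul g1.1, natDegree_X_sub_C, g1.2.1]; ring
    have d2 : (C (L (X * P L (n + 1) * P L n) / h L n) * P L n).natDegree <
        ((X - C (bb L (n + 1))) * P L (n + 1)).natDegree := by
      rw [d1]; exact (natDegree_C_mul_le _ _).trans_lt (by rw [g0.2.1]; omega)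
    refine ⟨g1, ?_, ?_, fun q hq => ?_⟩
    · rw [P_ss]; exact m1.sub_of_left (degree_lt_degree d2)
    · rw [P_ss, natDegree_sub_eq_left_of_natDegree_lt d2, d1]
    · have r1 := red g1.1 g1.2.1 hq
      have r2 := red g0.1 g0.2.1 r1
      set c1 := q.coeff (n + 1)
      set c0 := (q - C c1 * P L (n + 1)).coeff n
      set r := q - C c1 * P L (n + 1) - C c0 * P L n
      have hq' : q = C c1 * P L (n + 1) + C c0 * P L n + r := by simp [r]
      have o1 := g1.2.2 _ (deg_lt g0)
      have o2 := g1.2.2 _ (Xdeg r2)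
      have o3 := g1.2.2 _ (lt_succ r2)
      have o4 := g0.2.2 _ r2
      set lam := L (X * P L (n + 1) * P L n) / h L n with hlam
      have e : P L (n + 1 + 1) * q =
          C c1 * (X * P L (n + 1) * P L (n + 1) - C (bb L (n + 1)) * (P L (n + 1) * P L (n + 1))
            - C lam * (P L (n + 1) * P L n)) +
          C c0 * (X * P L (n + 1) * P L n - C (bb L (n + 1)) * (P L (n + 1) * P L n)
            - C lam * (P L n * P L n)) +
          (P L (n + 1) * (X * r) - C (bb L (n + 1)) * (P L (n + 1) * r) - C lam * (P L n * r)) := by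
        conv_lhs => rw [hq', P_ss]
        ring
      rw [e]
      simp only [map_add, map_sub, LC, o1, o2, o3, o4]
      change c1 * (_ - bb L (n + 1) * h L (n + 1) - _) + c0 * (_ - _ - lam * h L n) + _ = 0
      rw [bb, hlam, div_mul_cancel₀ _ h0, div_mul_cancel₀ _ h1]; ring

theorem good (n : ℕ) : Good L n := (good2 hL n).1
theorem h_pos (n : ℕ) : 0 < h L n := hL _ (good hL n).1.ne_zero

theorem orthP {m n : ℕ} (hmn : m ≠ n) : L (P L m * P L n) = 0 := by
  have key : ∀ m n, m < n → L (P L n * P L m) = 0 := fun m n hlt =>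
    (good hL n).2.2 _ ((deg_lt (good hL m)).trans_le (by exact_mod_cast hlt))
  rcases lt_or_gt_of_ne hmn with hlt | hlt
  · rw [mul_comm]; exact key _ _ hlt
  · exact key _ _ hlt

theorem mon_diff {n : ℕ} {q : ℝ[X]} (hm : q.Monic) (hd : q.natDegree = n) :
    (q - P L n).degree < (n : WithBot ℕ) := by
  have := red (q := q) (good hL n).1 (good hL n).2.1
    (by rw [degree_eq_natDegree hm.ne_zero, hd]; exact_mod_cast Nat.lt_succ_self n)
  have e : q.coeff n = 1 := by rw [← hd]; exact hm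
  simpa [e] using this

theorem pair {n : ℕ} {q : ℝ[X]} (hm : q.Monic) (hd : q.natDegree = n) :
    L (P L n * q) = h L n := by
  have := (good hL n).2.2 _ (mon_diff hL hm hd)
  rw [mul_sub, map_sub] at this
  unfold h; linarith

theorem h_min {n : ℕ} {q : ℝ[X]} (hm : q.Monic) (hd : q.natDegree = n) : h L n ≤ L (q * q) := by
  have e : (q - P L n) * (q - P L n) = q * q - P L n * q - P L n * q + P L n * P L n := by ring
  have : 0 ≤ L ((q - P L n) * (q - P L n)) := by
    by_cases hz : q - P L n = 0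
    · simp [hz]
    · exact (hL _ hz).le
  rw [e, map_add, map_sub, map_sub, pair hL hm hd] at this
  unfold h at *; linarith

theorem P_rec (n : ℕ) : X * P L (n + 1) =
    P L (n + 2) + C (bb L (n + 1)) * P L (n + 1) + C (h L (n + 1) / h L n) * P L n := by
  have : L (X * P L (n + 1) * P L n) = h L (n + 1) := by
    rw [← pair hL (n := n + 1) (q := X * P L n) (monic_X.mul (good hL n).1)
      (by rw [monic_X.natDegree_mul (good hL n).1, natDegree_X, (good hL n).2.1]; ring)]
    congr 1; ring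
  rw [P_ss, this]; ring

omit hL
variable (L)
noncomputable def p (n : ℕ) : ℝ[X] := C (√(h L n))⁻¹ * P L n
noncomputable def aa (n : ℕ) : ℝ := √(h L n) / √(h L (n - 1))
variable {L}
include hL

theorem s_pos (n : ℕ) : 0 < √(h L n) := Real.sqrt_pos.2 (h_pos hL n)
theorem aa_pos (n : ℕ) : 0 < aa L n := div_pos (s_pos hL _) (s_pos hL _)
theorem aa_sq (n : ℕ) : aa L (n + 1) ^ 2 = h L (n + 1) / h L n := by
  rw [aa, div_pow, Real.sq_sqrt (h_pos hL _).le, Real.sq_sqrt (h_pos hL _).le]; rfl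

theorem P_eq (n : ℕ) : P L n = C √(h L n) * p L n := by
  rw [p, ← mul_assoc, ← C_mul, mul_inv_cancel₀ (s_pos hL n).ne', C_1, one_mul]

theorem PP_eq (n : ℕ) : P L n * P L n = C (h L n) * (p L n * p L n) := by
  conv_lhs => rw [P_eq hL]
  rw [← Real.mul_self_sqrt (h_pos hL n).le, C_mul, Real.mul_self_sqrt (h_pos hL n).le]; ring

theorem orthp (m n : ℕ) : L (p L m * p L n) = if m = n then 1 else 0 := by
  have e : p L m * p L n = C ((√(h L m))⁻¹ * (√(h L n))⁻¹) * (P L m * P L n) := by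
    rw [p, p, C_mul]; ring
  rw [e, LC]
  split_ifs with hmn
  · subst hmn
    change _ * h L m = 1
    have := s_pos hL m
    conv_lhs => rw [← Real.mul_self_sqrt (h_pos hL m).le]
    simp only [Real.sqrt_mul_self this.le]
    field_simp
  · rw [orthP hL hmn, mul_zero]

theorem p_deg (n : ℕ) : (p L n).natDegree = n := by
  rw [p, natDegree_C_mul (inv_ne_zero (s_pos hL n).ne'), (good hL n).2.1]

theorem p_lead (n : ℕ) : 0 < (p L n).leadingCoeff := by
  rw [p, leadingCoeff_mul, leadingCoeff_C, (good hL n).1.leadingCoeff, mul_one]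
  exact inv_pos.2 (s_pos hL n)

theorem p_rec0 : X * p L 0 = C (aa L 1) * p L 1 + C (bb L 0) * p L 0 := by
  have := s_pos hL 0
  have := s_pos hL 1
  have e : aa L 1 * (√(h L 1))⁻¹ = (√(h L 0))⁻¹ := by simp only [aa]; field_simp
  rw [p, p, ← mul_assoc (C (aa L 1)), ← C_mul, e, P_one]; ring

theorem p_rec (n : ℕ) : X * p L (n + 1) =
    C (aa L (n + 2)) * p L (n + 2) + C (bb L (n + 1)) * p L (n + 1) + C (aa L (n + 1)) * p L n := by
  have h0 := s_pos hL n
  have h1 := s_pos hL (n + 1)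
  have := s_pos hL (n + 2)
  have e : aa L (n + 2) * (√(h L (n + 2)))⁻¹ = (√(h L (n + 1)))⁻¹ := by
    simp only [aa, show n + 2 - 1 = n + 1 from rfl]; field_simp
  have e' : aa L (n + 1) * (√(h L n))⁻¹ = (√(h L (n + 1)))⁻¹ * (h L (n + 1) / h L n) := by
    rw [← aa_sq hL]; simp only [aa, show n + 1 - 1 = n from rfl]; field_simp
  rw [p, p, p, ← mul_assoc (C (aa L (n + 2))), ← C_mul, e, ← mul_assoc (C (aa L (n + 1))), ← C_mul,
    e', C_mul, mul_left_comm X, P_rec hL]
  ring

theorem E2 (m : ℕ) : L (((X - C (bb L (m + 1))) * p L (m + 1)) * ((X - C (bb L (m + 1))) * p L (m + 1)))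
    = aa L (m + 2) ^ 2 + aa L (m + 1) ^ 2 := by
  have e : (X - C (bb L (m + 1))) * p L (m + 1) = C (aa L (m + 2)) * p L (m + 2) +
      C (aa L (m + 1)) * p L m := by rw [sub_mul, p_rec hL]; ring
  rw [e]
  simp only [add_mul, mul_add, mul_assoc, map_add, LC, mul_left_comm (p L _) (C _), orthp hL]
  simp; ring

theorem E4 (m : ℕ) : L (((X - C (bb L (m + 2))) ^ 2 * p L (m + 2)) *
      ((X - C (bb L (m + 2))) ^ 2 * p L (m + 2))) =
    (aa L (m + 3) * aa L (m + 4)) ^ 2 + (aa L (m + 3) * (bb L (m + 3) - bb L (m + 2))) ^ 2 +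
    (aa L (m + 3) ^ 2 + aa L (m + 2) ^ 2) ^ 2 + (aa L (m + 2) * (bb L (m + 1) - bb L (m + 2))) ^ 2 +
    (aa L (m + 2) * aa L (m + 1)) ^ 2 := by
  have e : (X - C (bb L (m + 2))) ^ 2 * p L (m + 2) =
      C (aa L (m + 3) * aa L (m + 4)) * p L (m + 4) +
      C (aa L (m + 3) * (bb L (m + 3) - bb L (m + 2))) * p L (m + 3) +
      C (aa L (m + 3) ^ 2 + aa L (m + 2) ^ 2) * p L (m + 2) +
      C (aa L (m + 2) * (bb L (m + 1) - bb L (m + 2))) * p L (m + 1) +
      C (aa L (m + 2) * aa L (m + 1)) * p L m := by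
    have r0 := p_rec hL m
    have r1 := p_rec hL (m + 1)
    have r2 := p_rec hL (m + 2)
    simp only [C_mul, C_sub, C_add, C_pow]
    linear_combination (X - C (bb L (m + 2))) * r1 + C (aa L (m + 3)) * r2 + C (aa L (m + 2)) * r0
  rw [e]
  generalize aa L (m + 3) * aa L (m + 4) = c4
  generalize aa L (m + 3) * (bb L (m + 3) - bb L (m + 2)) = c3
  generalize aa L (m + 3) ^ 2 + aa L (m + 2) ^ 2 = c2
  generalize aa L (m + 2) * (bb L (m + 1) - bb L (m + 2)) = c1
  generalize aa L (m + 2) * aa L (m + 1) = c0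
  simp only [add_mul, mul_add, mul_assoc, map_add, LC, mul_left_comm (p L _) (C _), orthp hL]
  simp; ring

end Pool.Agent.H95.Freud
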