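import Mathlib

namespace Pool.Agent.H95.Freud
open MeasureTheory Filter Topology Polynomial Real

/-- `p n` are the orthonormal polynomials of the weight `exp (-2 Q)` (degree `n`, positive leading
coefficient) and `a`, `b` are the coefficients of their Jacobi recurrence. -/
structure IsOP (Q : ℝ → ℝ) (p : ℕ → ℝ[X]) (a b : ℕ → ℝ) : Prop where
  deg : ∀ n, (p n).natDegree = n
  lead : ∀ n, 0 < (p n).leadingCoeff
  orth : ∀ m n, ∫ x, (p m).eval x * (p n).eval x * exp (-2 * Q x) = if m = n then 1 else 0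
  pos : ∀ n, 0 < a (n + 1)
  rec0 : X * p 0 = C (a 1) * p 1 + C (b 0) * p 0
  recS : ∀ n, X * p (n + 1) =
    C (a (n + 2)) * p (n + 2) + C (b (n + 1)) * p (n + 1) + C (a (n + 1)) * p n

/-- slowly varying function on `(0, ∞)` -/
def SlowVar (L : ℝ → ℝ) : Prop :=
  Measurable L ∧ (∀ x, 0 < x → 0 < L x) ∧
    ∀ t, 0 < t → Tendsto (fun x => L (t * x) / L x) atTop (𝓝 1)

/-- `M` is a de Bruijn conjugate of `L` -/
def DeBruijn (L M : ℝ → ℝ) : Prop :=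
  SlowVar M ∧ Tendsto (fun x => M x * L (x * M x)) atTop (𝓝 1)

/-- standing assumptions on `Q` and hypothesis (H) -/
def HypH (Q : ℝ → ℝ) (α A B : ℝ) (L : ℝ → ℝ) : Prop :=
  Measurable Q ∧ (∀ k : ℕ, Integrable (fun x : ℝ => x ^ k * exp (-2 * Q x))) ∧
    0 < α ∧ 0 < A ∧ 0 < B ∧ A / B ≤ 1 ∧ SlowVar L ∧
    Tendsto (fun x => Q x / (A * x ^ α * L x ^ α)) atTop (𝓝 1) ∧
    Tendsto (fun x => Q x / (B * |x| ^ α * L |x| ^ α)) atBot (𝓝 1)

/-- the Gauss function 2F1(1/2, α; α + 1/2; z) for real `z < 1`, by Euler's integral -/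
noncomputable def F (α z : ℝ) : ℝ :=
  Gamma (α + 1 / 2) / (Gamma α * Gamma (1 / 2)) *
    ∫ t in (0 : ℝ)..1, t ^ (α - 1) * (1 - t) ^ (-(1 / 2) : ℝ) * (1 - z * t) ^ (-(1 / 2) : ℝ)

/-- the defining condition of the constant `c` -/
def IsC (α A B c : ℝ) : Prop :=
  ((1 / 2 < α ∨ cos (π * α) < A / B) →
    0 < c ∧ c ≤ 1 ∧ c ^ α * F α (-c) / F α (-1 / c) = A / B) ∧
  (¬ (1 / 2 < α ∨ cos (π * α) < A / B) → c = 1)

noncomputable def K (α A c : ℝ) : ℝ := √π / A * (Gamma α / Gamma (α + 1 / 2)) * F α (-c)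

noncomputable def aLim (α A c : ℝ) : ℝ := (1 + c) / 4 * K α A c ^ (1 / α)

noncomputable def bLim (α A c : ℝ) : ℝ := (1 - c) / 2 * K α A c ^ (1 / α)

/-- the scale `c_n` -/
noncomputable def cn (α : ℝ) (M : ℝ → ℝ) (n : ℕ) : ℝ := (n : ℝ) ^ (1 / α) * M ((n : ℝ) ^ (1 / α))

end Pool.Agent.H95.Freud
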