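import Pool.Agent.H95.Freud1
import Pool.Agent.H95.FreudDefs

namespace Pool.Agent.H95.Freud
open MeasureTheory Filter Topology Polynomial Real

structure BM where
  f : ℝ → ℝ
  meas : Measurable f
  bdd : ∀ x, |f x| ≤ 2

theorem int_poly (q : ℝ[X]) : Integrable (fun x : ℝ => q.eval x * exp (-x ^ 2)) := by
  induction q using Polynomial.induction_on' with
  | add p q hp hq => exact (hp.add hq).congr (ae_of_all _ fun x => by simp [add_mul])
  | monomial n a =>
    have := (integrable_rpow_mul_exp_neg_mul_sq (b := 1) one_pos (s := n)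
      (by have := n.cast_nonneg (α := ℝ); linarith)).const_mul a
    simpa [mul_assoc] using this

theorem int_J (g : BM) (q : ℝ[X]) : Integrable (fun x : ℝ => q.eval x * g.f x * exp (-x ^ 2)) := by
  have := (int_poly q).bdd_mul (c := 2) g.meas.aestronglyMeasurable (ae_of_all _ g.bdd)
  refine this.congr (ae_of_all _ fun x => by ring)

noncomputable def J (g : BM) : ℝ[X] →ₗ[ℝ] ℝ where
  toFun q := ∫ x, q.eval x * g.f x * exp (-x ^ 2)
  map_add' p q := by
    rw [← integral_add (int_J g p) (int_J g q)]; congr 1; ext x; simp only [eval_add]; ring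
  map_smul' c q := by
    simp only [RingHom.id_apply, smul_eq_mul]
    rw [← integral_const_mul]; congr 1; ext x; simp only [eval_smul, smul_eq_mul]; ring

theorem J_apply (g : BM) (q : ℝ[X]) : J g q = ∫ x, q.eval x * g.f x * exp (-x ^ 2) := rfl

theorem J_le4 {g0 g1 g2 g3 g4 : BM} {q0 q1 q2 q3 q4 : ℝ[X]}
    (H : ∀ x, q0.eval x * g0.f x ≤ q1.eval x * g1.f x + q2.eval x * g2.f x + q3.eval x * g3.f x
      + q4.eval x * g4.f x) : J g0 q0 ≤ J g1 q1 + J g2 q2 + J g3 q3 + J g4 q4 := by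
  have i1 := int_J g1 q1
  have i2 := int_J g2 q2
  have i3 := int_J g3 q3
  have i4 := int_J g4 q4
  have := integral_mono (int_J g0 q0) (((i1.add i2).add i3).add i4) fun x => by
    have := mul_le_mul_of_nonneg_right (H x) (exp_pos (-x ^ 2)).le
    simp only [Pi.add_apply]; linarith
  rw [integral_add' ((i1.add i2).add i3) i4, integral_add' (i1.add i2) i3, integral_add' i1 i2] at this
  exact this

theorem J_le1 {g0 g1 : BM} {q0 q1 : ℝ[X]} (H : ∀ x, q0.eval x * g0.f x ≤ q1.eval x * g1.f x) :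
    J g0 q0 ≤ J g1 q1 := by
  simpa using J_le4 (g2 := g0) (g3 := g0) (g4 := g0) (q2 := 0) (q3 := 0) (q4 := 0)
    (by simpa using H)

def one : BM := ⟨fun _ => 1, measurable_const, fun _ => by norm_num⟩

def Adm (g : BM) : Prop := ∀ x, 1 / 2 ≤ g.f x

theorem J_pos {g : BM} (hg : Adm g) (q : ℝ[X]) (hq : q ≠ 0) : 0 < J g (q * q) := by
  have h1 : J one (C (1 / 2) * (q * q)) ≤ J g (q * q) := J_le1 fun x => by
    have := hg x
    simp only [eval_mul, eval_C, one]; nlinarith [mul_self_nonneg (q.eval x)]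
  rw [LC] at h1
  obtain ⟨x, hx⟩ : ∃ x, q.eval x ≠ 0 := by
    by_contra hc; push Not at hc; exact hq (Polynomial.funext (by simpa using hc))
  have : 0 < J one (q * q) := by
    refine integral_pos_of_integrable_nonneg_nonzero (x := x) ?_ (int_J _ _) (fun y => ?_) ?_
    · simp only [one]; fun_prop
    · simp only [one, eval_mul]; have := mul_self_nonneg (q.eval y); positivity
    · simp only [one, eval_mul]; have := mul_self_pos.2 hx; positivity
  linarith

noncomputable def sg (R : ℝ) (q : ℝ[X]) : BM where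
  f x := if R ≤ |x| then (if 0 ≤ q.eval x then 1 else -1) else 0
  meas := Measurable.ite (measurableSet_le measurable_const measurable_abs)
    (Measurable.ite (measurableSet_le measurable_const q.continuous.measurable) measurable_const
      measurable_const) measurable_const
  bdd x := by split_ifs <;> norm_num

noncomputable def far (R : ℝ) : BM where
  f x := if R ≤ |x| then 1 else 0
  meas := Measurable.ite (measurableSet_le measurable_const measurable_abs) measurable_const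
    measurable_const
  bdd x := by split_ifs <;> norm_num

theorem sg_mul (R : ℝ) (q : ℝ[X]) (x : ℝ) :
    q.eval x * (sg R q).f x = if R ≤ |x| then |q.eval x| else 0 := by
  simp only [sg]; split_ifs with h1 h2
  · rw [abs_of_nonneg h2, mul_one]
  · rw [abs_of_neg (not_le.1 h2)]; ring
  · simp

theorem far_lim (q : ℝ[X]) : Tendsto (fun n : ℕ => J (far n) q) atTop (𝓝 0) := by
  have := tendsto_integral_of_dominated_convergence (μ := volume)
    (F := fun (n : ℕ) x => q.eval x * (far n).f x * exp (-x ^ 2)) (f := fun _ => 0)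
    (fun x => ‖q.eval x * exp (-x ^ 2)‖) (fun n => (int_J _ _).1) (int_poly q).norm
    (fun n => ae_of_all _ fun x => by simp only [far]; split_ifs <;> simp; positivity)
    (ae_of_all _ fun x => by
      refine tendsto_const_nhds.congr' ?_
      filter_upwards [eventually_gt_atTop ⌈|x|⌉₊] with n hn
      have : ¬ ((n : ℝ) ≤ |x|) := not_le.2 ((Nat.le_ceil _).trans_lt (by exact_mod_cast hn))
      simp [far, this])
  simpa [J_apply] using this

theorem heron {y s α U Y Z : ℝ} (e : y * Y = α * U + s * Z) :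
    y ^ 2 * (4 * s ^ 2 - y ^ 2) * Y ^ 2 ≤
      9 * s ^ 2 * (|α ^ 2 - s ^ 2| * U ^ 2 + s ^ 2 * |U * U - Y * Y| + s ^ 2 * |Y * Y - Z * Z|) := by
  set d := |α ^ 2 - s ^ 2| * U ^ 2 + s ^ 2 * |U * U - Y * Y| + s ^ 2 * |Y * Y - Z * Z| with hd
  have hs := sq_nonneg s
  have hU := sq_nonneg U
  have hY := sq_nonneg Y
  have hy := sq_nonneg y
  have d0 : 0 ≤ d := by positivity
  have a1 := abs_le.1 (le_refl |α ^ 2 - s ^ 2|)
  have a2 := abs_le.1 (le_refl |U * U - Y * Y|)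
  have a3 := abs_le.1 (le_refl |Y * Y - Z * Z|)
  have b1 : α ^ 2 * U ^ 2 - s ^ 2 * Z ^ 2 ≤ d := by nlinarith [a1.2, a2.2, a3.2]
  have b2 : -d ≤ α ^ 2 * U ^ 2 - s ^ 2 * Z ^ 2 := by nlinarith [a1.1, a2.1, a3.1]
  have b3 : 2 * s ^ 2 * Y ^ 2 - α ^ 2 * U ^ 2 - s ^ 2 * Z ^ 2 ≤ d := by nlinarith [a1.1, a2.1, a3.2]
  by_cases h4 : 4 * s ^ 2 ≤ y ^ 2
  · have : 0 ≤ y ^ 2 * (y ^ 2 - 4 * s ^ 2) * Y ^ 2 := by
      have : 0 ≤ y ^ 2 - 4 * s ^ 2 := by linarith
      positivity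
    nlinarith [mul_nonneg hs d0]
  push Not at h4
  by_cases h5 : s ^ 2 * Y ^ 2 ≤ d
  · have : y ^ 2 * (4 * s ^ 2 - y ^ 2) ≤ 4 * s ^ 2 * s ^ 2 := by nlinarith [sq_nonneg (y ^ 2 - 2 * s ^ 2)]
    nlinarith [mul_le_mul_of_nonneg_right this hY, mul_nonneg hs d0, mul_le_mul_of_nonneg_left h5 hs]
  push Not at h5
  have hY' : 0 < Y ^ 2 := by
    rcases hY.eq_or_lt with h0 | h0
    · rw [← h0] at h5; linarith
    · exact h0
  refine le_of_mul_le_mul_right ?_ hY'
  have id : y ^ 2 * (4 * s ^ 2 - y ^ 2) * Y ^ 2 * Y ^ 2 = (α ^ 2 * U ^ 2 - s ^ 2 * Z ^ 2) ^ 2 +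
      y ^ 2 * Y ^ 2 * (2 * (2 * s ^ 2 * Y ^ 2 - α ^ 2 * U ^ 2 - s ^ 2 * Z ^ 2)) := by
    have : y ^ 2 * (4 * s ^ 2 - y ^ 2) * Y ^ 2 * Y ^ 2 =
      (y * Y) ^ 2 * (4 * s ^ 2 * Y ^ 2 - (y * Y) ^ 2) := by ring
    rw [this, show y ^ 2 * Y ^ 2 = (y * Y) ^ 2 by ring, e]; ring
  have c1 : (α ^ 2 * U ^ 2 - s ^ 2 * Z ^ 2) ^ 2 ≤ d ^ 2 := sq_le_sq' b2 b1
  have c2 : y ^ 2 * Y ^ 2 * (2 * (2 * s ^ 2 * Y ^ 2 - α ^ 2 * U ^ 2 - s ^ 2 * Z ^ 2)) ≤
      y ^ 2 * Y ^ 2 * (2 * d) := mul_le_mul_of_nonneg_left (by linarith) (by positivity)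
  have c3 : y ^ 2 * (Y ^ 2 * (2 * d)) ≤ 4 * s ^ 2 * (Y ^ 2 * (2 * d)) :=
    mul_le_mul_of_nonneg_right h4.le (by positivity)
  have c4 : d * d ≤ d * (s ^ 2 * Y ^ 2) := mul_le_mul_of_nonneg_left h5.le d0
  rw [id]; nlinarith

/-- the oscillation of consecutive orthonormal polynomials outside `[-R, R]` -/
noncomputable def dq (g : BM) (n : ℕ) : ℝ[X] :=
  p (J g) (n + 1) * p (J g) (n + 1) - p (J g) n * p (J g) n
noncomputable def D (g : BM) (R : ℝ) (n : ℕ) : ℝ := J (sg R (dq g n)) (dq g n)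

noncomputable def G (a1 a2 a3 a4 b1 b2 b3 R : ℝ) : ℝ :=
  4 * a2 ^ 2 * (a3 ^ 2 + a2 ^ 2) - ((a3 * a4) ^ 2 + (a3 * (b3 - b2)) ^ 2 + (a3 ^ 2 + a2 ^ 2) ^ 2 +
    (a2 * (b1 - b2)) ^ 2 + (a2 * a1) ^ 2) - 4 * a2 ^ 2 * (R + |b2|) ^ 2 -
    9 * a2 ^ 2 * |a3 ^ 2 - a2 ^ 2| - 9 * a2 ^ 4 / 5

theorem D_lower {g : BM} (hg : Adm g) {R : ℝ} (h1 : ∀ x, R ≤ |x| → g.f x = 1) (m : ℕ)
    (hG : 0 ≤ G (aa (J g) (m + 1)) (aa (J g) (m + 2)) (aa (J g) (m + 3)) (aa (J g) (m + 4))
      (bb (J g) (m + 1)) (bb (J g) (m + 2)) (bb (J g) (m + 3)) R) :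
    1 / 5 ≤ D g R (m + 2) + D g R (m + 1) := by
  have hL := J_pos hg
  have e2 := E2 hL (m + 1)
  have e4 := E4 hL m
  have r := p_rec hL (m + 1)
  have o2 := orthp hL (m + 2) (m + 2)
  have o3 := orthp hL (m + 3) (m + 3)
  have sp := aa_pos hL (m + 2)
  simp only [if_true] at o2 o3
  unfold G at hG
  set s := aa (J g) (m + 2)
  set α := aa (J g) (m + 1 + 2)
  set b := bb (J g) (m + 1 + 1)
  have key := J_le4 (g0 := g) (g1 := g) (g2 := g) (g3 := sg R (dq g (m + 2)))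
    (g4 := sg R (dq g (m + 1)))
    (q0 := C (4 * s ^ 2) * (((X - C b) * p (J g) (m + 1 + 1)) * ((X - C b) * p (J g) (m + 1 + 1))) -
      ((X - C b) ^ 2 * p (J g) (m + 2)) * ((X - C b) ^ 2 * p (J g) (m + 2)))
    (q1 := C (4 * s ^ 2 * (R + |b|) ^ 2) * (p (J g) (m + 2) * p (J g) (m + 2)))
    (q2 := C (9 * s ^ 2 * |α ^ 2 - s ^ 2|) * (p (J g) (m + 3) * p (J g) (m + 3)))
    (q3 := C (9 * s ^ 4) * dq g (m + 2)) (q4 := C (9 * s ^ 4) * dq g (m + 1)) fun x => by
      rw [eval_C_mul (p := dq _ _), eval_C_mul (p := dq _ _), mul_assoc _ _ ((sg _ _).f x),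
        mul_assoc _ _ ((sg _ _).f x), sg_mul, sg_mul]
      have rx := congrArg (eval x) r
      simp only [eval_mul, eval_add, eval_sub, eval_C, eval_X, eval_pow, dq] at rx ⊢
      have g0 : 0 ≤ g.f x := by linarith [hg x]
      generalize (p (J g) (m + 2)).eval x = Y at *
      generalize (p (J g) (m + 3)).eval x = U at *
      generalize (p (J g) (m + 1)).eval x = Z at *
      split_ifs with hx
      · have := heron (y := x - b) (s := s) (α := α) (U := U) (Y := Y) (Z := Z) (by linarith)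
        rw [h1 x hx]
        have : 0 ≤ 4 * s ^ 2 * (R + |b|) ^ 2 * (Y * Y) := by
          have := mul_self_nonneg Y; positivity
        nlinarith
      · have hb : (x - b) ^ 2 ≤ (R + |b|) ^ 2 := by
          have := abs_sub x b
          exact sq_le_sq' (by linarith [neg_abs_le (x - b)]) (by linarith [le_abs_self (x - b)])
        have c1 : 4 * s ^ 2 * (Y * Y) * g.f x * (x - b) ^ 2 ≤ 4 * s ^ 2 * (Y * Y) * g.f x * (R + |b|) ^ 2 :=
          mul_le_mul_of_nonneg_left hb (by have := mul_self_nonneg Y; positivity)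
        have c2 : 0 ≤ ((x - b) ^ 2 * Y) ^ 2 * g.f x := by positivity
        have c3 : 0 ≤ 9 * s ^ 2 * |α ^ 2 - s ^ 2| * (U * U) * g.f x := by
          have := mul_self_nonneg U; positivity
        nlinarith
  rw [map_sub, LC, LC, LC, LC, LC, e2, e4, o2, o3] at key
  have : 0 < 9 * s ^ 4 := by positivity
  refine le_of_mul_le_mul_left ?_ this
  unfold D; nlinarith

end Pool.Agent.H95.Freud
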