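import Pool.Agent.H95.Freud2

namespace Pool.Agent.H95.Freud
open MeasureTheory Filter Topology Polynomial Real

theorem shift {f : ℕ → ℝ} {l : ℝ} (hf : Tendsto (fun n : ℕ => f n / √n) atTop (𝓝 l)) (k : ℕ) :
    Tendsto (fun m : ℕ => f (m + k) / √m) atTop (𝓝 l) := by
  have h1 := hf.comp (tendsto_add_atTop_nat k)
  have h2 : Tendsto (fun m : ℕ => √(1 + (k : ℝ) / m)) atTop (𝓝 √(1 + 0)) :=
    (tendsto_const_nhds.add (tendsto_const_div_atTop_nhds_zero_nat (k : ℝ))).sqrt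
  have := h1.mul h2
  simp only [add_zero, sqrt_one, mul_one] at this
  refine this.congr' ?_
  filter_upwards [eventually_gt_atTop 0] with m hm
  have hm' : (0 : ℝ) < m := by exact_mod_cast hm
  have e : 1 + (k : ℝ) / m = ((m + k : ℕ) : ℝ) / m := by push_cast; field_simp
  have : 0 < √((m + k : ℕ) : ℝ) := sqrt_pos.2 (by push_cast; positivity)
  simp only [Function.comp]
  rw [e, sqrt_div (Nat.cast_nonneg _)]; field_simp

theorem G_scale (a1 a2 a3 a4 b1 b2 b3 R : ℝ) {t : ℝ} (ht : 0 < t) :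
    G (a1 / t) (a2 / t) (a3 / t) (a4 / t) (b1 / t) (b2 / t) (b3 / t) (R / t) =
      G a1 a2 a3 a4 b1 b2 b3 R / t ^ 4 := by
  unfold G
  rw [show (a3 / t) ^ 2 - (a2 / t) ^ 2 = (a3 ^ 2 - a2 ^ 2) / t ^ 2 by field_simp, abs_div, abs_div,
    abs_of_pos ht, abs_of_pos (pow_pos ht 2)]
  field_simp

theorem G_ev {A B : ℕ → ℝ} {a : ℝ} (ha : 0 < a) (hA : Tendsto (fun n : ℕ => A n / √n) atTop (𝓝 a))
    (hB : Tendsto (fun n : ℕ => B n / √n) atTop (𝓝 0)) (R : ℝ) :
    ∀ᶠ m in atTop, 0 ≤ G (A (m + 1)) (A (m + 2)) (A (m + 3)) (A (m + 4)) (B (m + 1)) (B (m + 2))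
      (B (m + 3)) R := by
  have hc : Continuous fun v : Fin 8 → ℝ => G (v 0) (v 1) (v 2) (v 3) (v 4) (v 5) (v 6) (v 7) := by
    unfold G; fun_prop
  have hR : Tendsto (fun m : ℕ => R / √m) atTop (𝓝 0) :=
    tendsto_const_nhds.div_atTop (tendsto_sqrt_atTop.comp tendsto_natCast_atTop_atTop)
  have hv : Tendsto (fun m : ℕ => (![A (m + 1) / √m, A (m + 2) / √m, A (m + 3) / √m, A (m + 4) / √m,
      B (m + 1) / √m, B (m + 2) / √m, B (m + 3) / √m, R / √m] : Fin 8 → ℝ)) atTop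
      (𝓝 ![a, a, a, a, 0, 0, 0, 0]) := by
    rw [tendsto_pi_nhds]; intro i
    fin_cases i
    exacts [shift hA 1, shift hA 2, shift hA 3, shift hA 4, shift hB 1, shift hB 2, shift hB 3, hR]
  have h0 : 0 < G a a a a 0 0 0 0 := by
    have : G a a a a 0 0 0 0 = a ^ 4 / 5 := by unfold G; simp; ring
    rw [this]; positivity
  filter_upwards [((hc.tendsto _).comp hv).eventually (lt_mem_nhds h0), eventually_gt_atTop 0]
    with m hm hm0
  have ht : 0 < √(m : ℝ) := sqrt_pos.2 (by exact_mod_cast hm0)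
  have : 0 < G (A (m + 1)) (A (m + 2)) (A (m + 3)) (A (m + 4)) (B (m + 1)) (B (m + 2))
      (B (m + 3)) R / √(m : ℝ) ^ 4 := by rw [← G_scale _ _ _ _ _ _ _ _ ht]; exact hm
  exact ((div_pos_iff_of_pos_right (by positivity)).1 this).le

def Hyp (a : ℝ) : Prop := ∀ g : BM, Adm g → Tendsto (fun n : ℕ => aa (J g) n / √n) atTop (𝓝 a) ∧
  Tendsto (fun n : ℕ => bb (J g) n / √n) atTop (𝓝 0)

theorem sq_ev {A : ℕ → ℝ} {a : ℝ} (hA : Tendsto (fun n : ℕ => A n / √n) atTop (𝓝 a)) :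
    Tendsto (fun n : ℕ => A n ^ 2 / n) atTop (𝓝 (a ^ 2)) := by
  refine (hA.pow 2).congr fun n => ?_
  rw [div_pow, sq_sqrt (Nat.cast_nonneg n)]

theorem drop {g φ : BM} (hg : Adm g) (hφ : Adm φ) {R R' : ℝ} (hR : R ≤ R') (n : ℕ)
    (h1 : ∀ x, R ≤ |x| → g.f x = 1)
    (h2 : ∀ x, |x| < R' → φ.f x = g.f x - (sg R (dq g n)).f x / 100)
    (hD : 1 / 10 ≤ D g R n)
    (t1 : J (far R') (p (J g) (n + 1) * p (J g) (n + 1)) ≤ 1 / 10000)
    (t0 : J (far R') (p (J g) n * p (J g) n) ≤ 1 / 10000) :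
    aa (J φ) (n + 1) ^ 2 ≤ 9997 / 10000 * aa (J g) (n + 1) ^ 2 := by
  have hL := J_pos hg
  have hL' := J_pos hφ
  set σ := sg R (dq g n) with hσ
  have cases : ∀ x, (g.f x = 1 ∧ (far R').f x = 1 ∧ (σ.f x = 1 ∨ σ.f x = -1)) ∨
      (g.f x = 1 ∧ (far R').f x = 0 ∧ (σ.f x = 1 ∨ σ.f x = -1) ∧ φ.f x = 1 - σ.f x / 100) ∨
      ((far R').f x = 0 ∧ σ.f x = 0 ∧ φ.f x = g.f x) := fun x => by
    by_cases hx : R ≤ |x|
    · have : σ.f x = 1 ∨ σ.f x = -1 := by simp only [hσ, sg, if_pos hx]; split_ifs <;> simp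
      by_cases hx' : R' ≤ |x|
      · exact Or.inl ⟨h1 x hx, by simp [far, hx'], this⟩
      · exact Or.inr (Or.inl ⟨h1 x hx, by simp [far, hx'], this, by rw [h2 x (not_le.1 hx'), h1 x hx]⟩)
    · have hx' : ¬ R' ≤ |x| := fun h => hx (hR.trans h)
      have : σ.f x = 0 := by simp [hσ, sg, hx]
      exact Or.inr (Or.inr ⟨by simp [far, hx'], this, by rw [h2 x (not_le.1 hx'), this]; ring⟩)
  have u1 := h_min hL' (good hL (n + 1)).1 (good hL (n + 1)).2.1
  rw [PP_eq hL, LC] at u1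
  have u2 := J_le4 (g0 := φ) (g1 := g) (g2 := σ) (g3 := far R') (g4 := g)
    (q0 := p (J g) (n + 1) * p (J g) (n + 1)) (q1 := p (J g) (n + 1) * p (J g) (n + 1))
    (q2 := C (-1 / 100) * (p (J g) (n + 1) * p (J g) (n + 1)))
    (q3 := C 2 * (p (J g) (n + 1) * p (J g) (n + 1))) (q4 := 0) fun x => by
      simp only [eval_mul, eval_C, eval_zero]
      have := mul_self_nonneg ((p (J g) (n + 1)).eval x)
      have b2 := (abs_le.1 (φ.bdd x)).2
      generalize (p (J g) (n + 1)).eval x * (p (J g) (n + 1)).eval x = Y at *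
      rcases cases x with ⟨e1, e2, e3 | e3⟩ | ⟨e1, e2, e3 | e3, e4⟩ | ⟨e1, e2, e3⟩ <;>
        simp only [*] <;> nlinarith
  rw [LC, LC, orthp hL, if_pos rfl, map_zero] at u2
  have l1 := J_le4 (g0 := g) (g1 := φ) (g2 := g) (g3 := σ) (g4 := far R')
    (q0 := C 2 * (P (J g) n * P (J φ) n)) (q1 := P (J φ) n * P (J φ) n)
    (q2 := C (1 + 2 / 10000) * (P (J g) n * P (J g) n))
    (q3 := C (1 / 100) * (P (J g) n * P (J g) n)) (q4 := C 2 * (P (J g) n * P (J g) n)) fun x => by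
      simp only [eval_mul, eval_C]
      have b1 := hφ x
      have b2 := hg x
      generalize (P (J g) n).eval x = Y at *
      generalize (P (J φ) n).eval x = Z at *
      rcases cases x with ⟨e1, e2, e3 | e3⟩ | ⟨e1, e2, e3 | e3, e4⟩ | ⟨e1, e2, e3⟩
      · rw [e1, e2, e3]; nlinarith [sq_nonneg (Z - 2 * Y), sq_nonneg Y, sq_nonneg Z]
      · rw [e1, e2, e3]; nlinarith [sq_nonneg (Z - 2 * Y), sq_nonneg Y, sq_nonneg Z]
      · rw [e4, e1, e2, e3]; nlinarith [sq_nonneg (99 * Z - 100 * Y), sq_nonneg Y]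
      · rw [e4, e1, e2, e3]; nlinarith [sq_nonneg (101 * Z - 100 * Y), sq_nonneg Y]
      · rw [e1, e2, e3]
        nlinarith [mul_nonneg (sq_nonneg (Z - Y)) (show 0 ≤ g.f x by linarith),
          mul_nonneg (sq_nonneg Y) (show 0 ≤ g.f x by linarith)]
  rw [LC, pair hL (good hL' n).1 (good hL' n).2.1, PP_eq hL n, LC, LC, LC, LC, LC, LC, orthp hL,
    if_pos rfl] at l1
  have hB : ∀ c : ℝ, c = 1 ∨ c = -1 → c * J σ (p (J g) n * p (J g) n) ≤ 1 := fun c hc => by
    have := J_le1 (g0 := σ) (g1 := g) (q0 := C c * (p (J g) n * p (J g) n))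
      (q1 := p (J g) n * p (J g) n) fun x => by
        simp only [eval_mul, eval_C]
        have := mul_self_nonneg ((p (J g) n).eval x)
        have b2 := hg x
        generalize (p (J g) n).eval x * (p (J g) n).eval x = Y at *
        rcases cases x with ⟨e1, e2, e3 | e3⟩ | ⟨e1, e2, e3 | e3, e4⟩ | ⟨e1, e2, e3⟩ <;>
          rcases hc with rfl | rfl <;> simp only [*] <;> nlinarith
    rwa [LC, orthp hL, if_pos rfl] at this
  have B1 := hB 1 (Or.inl rfl)
  have B2 := hB (-1) (Or.inr rfl)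
  unfold D at hD
  rw [← hσ, dq, map_sub] at hD
  change _ ≤ h (J φ) n + _ + _ + _ at l1
  rw [aa_sq hL, aa_sq hL']
  have p0 := h_pos hL n
  have p1 := h_pos hL (n + 1)
  have p2 := h_pos hL' n
  set A := J σ (p (J g) (n + 1) * p (J g) (n + 1))
  set B := J σ (p (J g) n * p (J g) n)
  have v1 : h (J φ) (n + 1) ≤ h (J g) (n + 1) * (1 - B / 100 - 8 / 10000) :=
    u1.trans (mul_le_mul_of_nonneg_left (by linarith) p1.le)
  have v2 : h (J g) n * (1 - B / 100 - 4 / 10000) ≤ h (J φ) n := by nlinarith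
  rw [div_le_iff₀ p2]
  have v3 : 9997 / 10000 * (h (J g) (n + 1) / h (J g) n) * (h (J g) n * (1 - B / 100 - 4 / 10000)) =
      h (J g) (n + 1) * (9997 / 10000 * (1 - B / 100 - 4 / 10000)) := by field_simp
  have v4 := mul_le_mul_of_nonneg_left v2
    (show 0 ≤ 9997 / 10000 * (h (J g) (n + 1) / h (J g) n) by positivity)
  rw [v3] at v4
  exact v1.trans ((mul_le_mul_of_nonneg_left (by linarith) p1.le).trans v4)

structure St where
  g : BM
  R : ℝ
  adm : Adm g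
  one : ∀ x, R ≤ |x| → g.f x = 1

theorem step {a : ℝ} (ha : 0 < a) (H : Hyp a) (s : St) (N : ℕ) : ∃ s' : St, s.R + 1 ≤ s'.R ∧
    (∀ x, |x| < s.R → s'.g.f x = s.g.f x) ∧ ∃ n, N ≤ n ∧ ∀ φ : BM, Adm φ →
      (∀ x, |x| < s'.R → φ.f x = s'.g.f x) → aa (J φ) n ^ 2 / n ≤ 9999 / 10000 * a ^ 2 := by
  obtain ⟨hA, hB⟩ := H s.g s.adm
  have e1 := (sq_ev hA).eventually (gt_mem_nhds (show a ^ 2 < 10001 / 10000 * a ^ 2 by nlinarith [sq_pos_of_pos ha]))
  obtain ⟨M, hM⟩ := eventually_atTop.1 e1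
  obtain ⟨m, hG, hm1, hm2⟩ := ((G_ev ha hA hB s.R).and
    ((eventually_ge_atTop M).and (eventually_ge_atTop N))).exists
  have hD := D_lower s.adm s.one m hG
  obtain ⟨n, hn, hDn⟩ : ∃ n, m ≤ n ∧ 1 / 10 ≤ D s.g s.R n := by
    by_cases h : 1 / 10 ≤ D s.g s.R (m + 1)
    · exact ⟨m + 1, by omega, h⟩
    · exact ⟨m + 2, by omega, by linarith⟩
  obtain ⟨r, t1, t0, hr⟩ := (((far_lim (p (J s.g) (n + 1) * p (J s.g) (n + 1))).eventually
    (ge_mem_nhds (show (0 : ℝ) < 1 / 10000 by norm_num))).and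
    (((far_lim (p (J s.g) n * p (J s.g) n)).eventually
    (ge_mem_nhds (show (0 : ℝ) < 1 / 10000 by norm_num))).and
    (tendsto_natCast_atTop_atTop.eventually (eventually_ge_atTop (s.R + 1))))).exists
  have bd : ∀ x, 1 / 2 ≤ s.g.f x - (sg s.R (dq s.g n)).f x / 100 ∧
      s.g.f x - (sg s.R (dq s.g n)).f x / 100 ≤ 2 := fun x => by
    have := s.adm x
    have := (abs_le.1 (s.g.bdd x)).2
    simp only [sg]
    split_ifs with h1 h2
    · rw [s.one x h1]; norm_num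
    · rw [s.one x h1]; norm_num
    · constructor <;> linarith
  let g' : BM := ⟨fun x => if (r : ℝ) ≤ |x| then 1 else s.g.f x - (sg s.R (dq s.g n)).f x / 100,
    Measurable.ite (measurableSet_le measurable_const measurable_abs) measurable_const
      (s.g.meas.sub ((sg _ _).meas.div_const _)), fun x => by
      have := bd x
      split_ifs
      · norm_num
      · rw [abs_le]; constructor <;> linarith [this.1, this.2]⟩
  refine ⟨⟨g', r, fun x => ?_, fun x hx => if_pos hx⟩, hr, fun x hx => ?_, n + 1, by omega,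
    fun φ hφ hag => ?_⟩
  · simp only [g']; split_ifs
    · norm_num
    · exact (bd x).1
  · have : ¬ (r : ℝ) ≤ |x| := by linarith
    simp [g', this, sg, not_le.2 hx]
  · have := drop s.adm hφ (R := s.R) (R' := r) (by linarith) n s.one
      (fun x hx => by rw [hag x hx]; exact if_neg (not_le.2 hx)) hDn t1 t0
    have h2 := hM (n + 1) (by omega)
    have : aa (J φ) (n + 1) ^ 2 / ((n + 1 : ℕ) : ℝ) ≤
        9997 / 10000 * (aa (J s.g) (n + 1) ^ 2 / ((n + 1 : ℕ) : ℝ)) := by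
      rw [← mul_div_assoc]; exact div_le_div_of_nonneg_right this (Nat.cast_nonneg _)
    nlinarith [sq_pos_of_pos ha]

theorem not_hyp {a : ℝ} (ha : 0 < a) : ¬ Hyp a := by
  intro H
  choose nx h1 h2 nn h3 h4 using step ha H
  let s : ℕ → St := fun k => Nat.rec ⟨one, 0, fun x => by norm_num [one], fun _ _ => rfl⟩
    (fun k t => nx t k) k
  have hs : ∀ k, s (k + 1) = nx (s k) k := fun k => rfl
  have hR : ∀ k : ℕ, (k : ℝ) ≤ (s k).R := fun k => by
    induction k with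
    | zero => simp [s]
    | succ k ih => have := h1 (s k) k; rw [hs]; push_cast; linarith
  have hag : ∀ k j, k ≤ j → (s k).R ≤ (s j).R ∧ ∀ x, |x| < (s k).R → (s j).g.f x = (s k).g.f x := by
    intro k j hkj
    induction j, hkj using Nat.le_induction with
    | base => exact ⟨le_rfl, fun _ _ => rfl⟩
    | succ j _ ih =>
      have := h1 (s j) j
      rw [hs]
      exact ⟨by linarith [ih.1], fun x hx => by rw [h2 (s j) j x (hx.trans_le ih.1), ih.2 x hx]⟩
  have hlt : ∀ x : ℝ, |x| < (s (⌊|x|⌋₊ + 1)).R := fun x =>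
    (Nat.lt_floor_add_one _).trans_le (by exact_mod_cast hR (⌊|x|⌋₊ + 1))
  let φ : BM := ⟨fun x => (s (⌊|x|⌋₊ + 1)).g.f x,
    measurable_of_tendsto_metrizable (fun k => (s k).g.meas) (tendsto_pi_nhds.2 fun x => by
      refine tendsto_const_nhds.congr' ?_
      filter_upwards [eventually_ge_atTop (⌊|x|⌋₊ + 1)] with k hk
      exact ((hag _ _ hk).2 x (hlt x)).symm), fun x => BM.bdd _ x⟩
  have hφ : Adm φ := fun x => (s (⌊|x|⌋₊ + 1)).adm x
  have e1 := (sq_ev (H φ hφ).1).eventually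
    (lt_mem_nhds (show 9999 / 10000 * a ^ 2 < a ^ 2 by nlinarith [sq_pos_of_pos ha]))
  obtain ⟨M, hM⟩ := eventually_atTop.1 e1
  refine absurd (h4 (s M) M φ hφ fun x hx => ?_) (not_le.2 (hM _ (h3 _ _)))
  rw [← hs] at hx ⊢
  rcases le_total (M + 1) (⌊|x|⌋₊ + 1) with hle | hle
  · exact (hag _ _ hle).2 x hx
  · exact ((hag _ _ hle).2 x (hlt x)).symm

theorem F_pos : 0 < F 2 (-1) := by
  unfold F
  refine mul_pos (div_pos (Gamma_pos_of_pos (by norm_num))
    (mul_pos (Gamma_pos_of_pos (by norm_num)) (Gamma_pos_of_pos (by norm_num)))) ?_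
  refine intervalIntegral.intervalIntegral_pos_of_pos_on ?_ (fun t ht => ?_) one_pos
  · have i1 : IntervalIntegrable (fun t : ℝ => (1 - t) ^ (-(1 / 2) : ℝ)) volume 0 1 := by
      simpa using ((intervalIntegral.intervalIntegrable_rpow' (a := 0) (b := 1) (r := -(1 / 2))
        (by norm_num)).comp_sub_left 1).symm
    refine (i1.continuousOn_mul (g := fun t => t ^ ((2 : ℝ) - 1)) ?_).mul_continuousOn ?_
    · exact (continuous_rpow_const (by norm_num)).continuousOn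
    · refine ContinuousOn.rpow_const (by fun_prop) fun t ht => Or.inl ?_
      rw [Set.uIcc_of_le zero_le_one] at ht
      linarith [ht.1]
  · have := ht.1
    have : 0 < 1 - t := by linarith [ht.2]
    have : 0 < 1 - -1 * t := by linarith
    positivity

theorem main : ∃ (Q : ℝ → ℝ) (p : ℕ → ℝ[X]) (a b : ℕ → ℝ),
    (∀ x, |Q x - x ^ 2 / 2| ≤ 1) ∧ HypH Q 2 (1 / 2) (1 / 2) (fun _ => 1) ∧
    DeBruijn (fun _ => 1) (fun _ => 1) ∧ IsC 2 (1 / 2) (1 / 2) 1 ∧ IsOP Q p a b ∧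
    ¬ (Tendsto (fun n => a n / cn 2 (fun _ => 1) n) atTop (𝓝 (aLim 2 (1 / 2) 1)) ∧
      Tendsto (fun n => b n / cn 2 (fun _ => 1) n) atTop (𝓝 (bLim 2 (1 / 2) 1))) := by
  have ha : 0 < aLim 2 (1 / 2) 1 := by
    have := F_pos
    have : 0 < Gamma 2 := Gamma_pos_of_pos (by norm_num)
    have : 0 < Gamma (2 + 1 / 2) := Gamma_pos_of_pos (by norm_num)
    have : 0 < √π := sqrt_pos.2 pi_pos
    unfold aLim K; positivity
  have := not_hyp ha
  unfold Hyp at this
  push Not at this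
  obtain ⟨g, hg, hn⟩ := this
  have gp : ∀ x, 0 < g.f x := fun x => by linarith [hg x]
  have hL := J_pos hg
  have hw : ∀ x, exp (-2 * (x ^ 2 / 2 - log (g.f x) / 2)) = g.f x * exp (-x ^ 2) := fun x => by
    rw [show -2 * (x ^ 2 / 2 - log (g.f x) / 2) = log (g.f x) + -x ^ 2 by ring, exp_add, exp_log (gp x)]
  have hb : ∀ x, |(x ^ 2 / 2 - log (g.f x) / 2) - x ^ 2 / 2| ≤ 1 := fun x => by
    have h1 := log_le_sub_one_of_pos (gp x)
    have h2 := one_sub_inv_le_log_of_pos (gp x)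
    have h3 := (abs_le.1 (g.bdd x)).2
    have h4 : (g.f x)⁻¹ ≤ 2 := by rw [inv_le_comm₀ (gp x) two_pos]; linarith [hg x]
    rw [abs_le]; constructor <;> linarith
  have sv : SlowVar (fun _ => 1) := ⟨measurable_const, fun _ _ => one_pos, fun _ _ => by simp⟩
  have lim : ∀ l : Filter ℝ, Tendsto (fun x : ℝ => x ^ 2) l atTop →
      Tendsto (fun x => (x ^ 2 / 2 - log (g.f x) / 2) / (1 / 2 * x ^ 2)) l (𝓝 1) := fun l hl => by
    have h0 : Tendsto (fun x : ℝ => 2 / x ^ 2) l (𝓝 0) := tendsto_const_nhds.div_atTop hl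
    have h1 : Tendsto (fun x => (x ^ 2 / 2 - log (g.f x) / 2) / (1 / 2 * x ^ 2) - 1) l (𝓝 0) := by
      refine squeeze_zero_norm' ?_ h0
      filter_upwards [hl.eventually (eventually_gt_atTop 0)] with x hx
      have e : (x ^ 2 / 2 - log (g.f x) / 2) / (1 / 2 * x ^ 2) - 1 =
          2 * ((x ^ 2 / 2 - log (g.f x) / 2) - x ^ 2 / 2) / x ^ 2 := by
        generalize x ^ 2 = y at hx; field_simp
      rw [e, Real.norm_eq_abs, abs_div, abs_of_pos hx, abs_mul, abs_two]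
      exact div_le_div_of_nonneg_right (by linarith [hb x]) hx.le
    simpa using h1.add_const 1
  refine ⟨fun x => x ^ 2 / 2 - log (g.f x) / 2, p (J g), aa (J g), bb (J g), hb,
    ⟨?_, fun k => ?_, two_pos, by norm_num, by norm_num, by norm_num, sv, ?_, ?_⟩, ⟨sv, by simp⟩,
    ⟨fun _ => ⟨one_pos, le_rfl, ?_⟩, fun _ => rfl⟩,
    ⟨p_deg hL, p_lead hL, fun m n => ?_, fun n => aa_pos hL _, p_rec0 hL, p_rec hL⟩, ?_⟩
  · have := g.meas; fun_prop
  · simp only [hw]; simpa [mul_assoc] using int_J g (X ^ k)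
  · simpa using lim atTop (tendsto_pow_atTop two_ne_zero)
  · have : Tendsto (fun x : ℝ => x ^ 2) atBot atTop := by
      exact ((tendsto_pow_atTop two_ne_zero).comp (tendsto_abs_atBot_atTop (G := ℝ))).congr
        fun x => by simp
    simpa using lim atBot this
  · have := F_pos
    rw [one_rpow, one_mul, div_one, div_self this.ne']; norm_num
  · rw [← orthp hL m n, J_apply]; congr 1; ext x; rw [hw, eval_mul]; ring
  · rintro ⟨h1, h2⟩
    refine hn ?_ ?_
    · simpa [cn, sqrt_eq_rpow] using h1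
    · simpa [cn, sqrt_eq_rpow, bLim] using h2

end Pool.Agent.H95.Freud
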