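import Pool.Agent.H95.GbDefs

set_option autoImplicit false

open Set Filter Topology Function
open Cardinal hiding univ

universe u

namespace Pool.Agent.H95.Gb1

open Pool.Agent.H95.GbDefs

variable {l : Cardinal.{u}} {X Y : Type u} [TopologicalSpace X] [TopologicalSpace Y]

theorem mkT (l : Cardinal.{u}) : #(T l) = l := mk_ord_toType l

theorem mkIio (a : T l) : #(Iio a) < l := (mk_Iio_lt a (by simp)).trans_eq (mkT l)

theorem bdd (hl : l.IsRegular) {s : Set (T l)} (hs : #s < l) : ∃ b, ∀ a ∈ s, a < b :=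
  not_isCofinal_iff.1 fun h => hs.not_ge (by
    simpa [hl.cof_ord] using Order.cof_le h)

theorem neT (hl : l.IsRegular) : Nonempty (T l) :=
  (bdd hl (s := ∅) (by simpa using hl.pos)).nonempty

theorem N_eq {x y : GB l} {α : T l} (h : y ∈ N x α) : N y α = N x α :=
  Set.ext fun _ => forall₂_congr fun β hβ => by rw [h β hβ]

theorem N_self (x : GB l) (α : T l) : x ∈ N x α := fun _ _ => rfl

theorem N_open (x : GB l) (α : T l) : IsOpen (N x α) :=
  TopologicalSpace.isOpen_generateFrom_of_mem ⟨x, α, rfl⟩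

theorem N_anti (x : GB l) {α β : T l} (h : α ≤ β) : N x β ⊆ N x α :=
  fun _ hy γ hγ => hy γ (hγ.trans_le h)

theorem N_clopen (x : GB l) (α : T l) : IsClopen (N x α) :=
  ⟨⟨isOpen_iff_forall_mem_open.2 fun y hy => ⟨N y α, fun z hz h => hy
    (N_eq h ▸ N_eq hz ▸ N_self y α), N_open y α, N_self y α⟩⟩, N_open x α⟩

theorem N_sub (hl : l.IsRegular) {U : Set (GB l)} (hU : IsOpen U) : ∀ x ∈ U, ∃ α, N x α ⊆ U := by
  induction hU with
  | basic s hs =>
    obtain ⟨y, α, rfl⟩ := hs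
    exact fun x hx => ⟨α, (N_eq hx).le⟩
  | univ => exact fun x _ => ⟨(neT hl).some, subset_univ _⟩
  | inter s t _ _ a b =>
    intro x hx
    obtain ⟨α, h1⟩ := a x hx.1
    obtain ⟨β, h2⟩ := b x hx.2
    exact ⟨max α β, subset_inter ((N_anti x (le_max_left _ _)).trans h1)
      ((N_anti x (le_max_right _ _)).trans h2)⟩
  | sUnion S _ a =>
    rintro x ⟨s, hs, hx⟩
    exact (a s hs x hx).imp fun α h => h.trans (subset_sUnion_of_mem hs)

theorem cardN (hl : l.IsRegular) (h2 : 2 ^< l = l) (h0 : ℵ₀ < l) :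
    #{s : Set (GB l) | ∃ x α, s = N x α} ≤ l := by
  classical
  let F : T l × (Σ β : T l, Iio β → Iio β) → Set (GB l) := fun p =>
    N (fun γ => if h : γ < p.2.1 then p.2.2 ⟨γ, h⟩ else γ) p.1
  have : {s : Set (GB l) | ∃ x α, s = N x α} ⊆ range F := by
    rintro _ ⟨x, α, rfl⟩
    obtain ⟨β, hβ⟩ := bdd hl (s := insert α (x '' Iio α)) ((mk_insert_le).trans_lt
      (add_lt_of_lt hl.1 (mk_image_le.trans_lt (mkIio α)) (one_lt_aleph0.trans h0)))
    refine ⟨(α, ⟨β, fun γ => if h : γ.1 < α then ⟨x γ, hβ _ (Or.inr ⟨γ, h, rfl⟩)⟩ else γ⟩),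
      N_eq fun γ hγ => ?_⟩
    have : γ < β := hγ.trans (hβ _ (Or.inl rfl))
    simp [this, hγ]
  refine (mk_le_mk_of_subset this).trans (mk_range_le.trans ?_)
  rw [mk_prod, mk_sigma, lift_id, lift_id, mkT]
  refine (mul_le_mul' le_rfl (sum_le_sum _ (fun _ => l) fun β => ?_)).trans
    (by simp [mul_eq_self hl.1])
  rw [mk_arrow, lift_id]
  have a : max #(Iio β) ℵ₀ < l := max_lt (mkIio β) h0
  refine ((power_le_power_right (le_max_left _ ℵ₀)).trans ((power_le_power_left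
    (aleph0_pos.trans_le (le_max_right _ _)).ne' (le_max_left _ ℵ₀)).trans ?_)).trans h2.le
  rw [power_self_eq (le_max_right _ _)]
  exact le_powerlt 2 a

/-- every open set is a union of at most `l` clopen sets -/
def ZD (l : Cardinal.{u}) (X : Type u) [TopologicalSpace X] : Prop :=
  ∀ U : Set X, IsOpen U → ∃ (ι : Type u) (P : ι → Set X), #ι ≤ l ∧ (∀ i, IsClopen (P i)) ∧
    U = ⋃ i, P i

theorem zd (hl : l.IsRegular) (h2 : 2 ^< l = l) (h0 : ℵ₀ < l) {e : X → GB l} (he : IsInducing e) :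
    ZD l X := fun U hU => by
  obtain ⟨V, hV, rfl⟩ := he.isOpen_iff.1 hU
  refine ⟨{s : Set (GB l) | (∃ x α, s = N x α) ∧ s ⊆ V}, fun s => e ⁻¹' s,
    (mk_le_mk_of_subset fun s hs => hs.1).trans (cardN hl h2 h0), fun s => ?_,
    Subset.antisymm (fun x hx => ?_) (iUnion_subset fun s => preimage_mono s.2.2)⟩
  · obtain ⟨_, ⟨x, α, rfl⟩, -⟩ := s
    exact (N_clopen x α).preimage he.continuous
  · obtain ⟨α, h⟩ := N_sub hl hV _ hx
    exact mem_iUnion.2 ⟨⟨_, ⟨_, α, rfl⟩, h⟩, N_self _ _⟩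

theorem pos {ξ : Ordinal.{u}} {A : Set X} (h : Sig l ξ A) : 1 ≤ ξ := by
  cases h with
  | op => rfl
  | un _ _ _ _ h => exact h.le

theorem inv1 {ξ : Ordinal.{u}} {A : Set X} (h : Sig l ξ A) (e : ξ = 1) : IsOpen A := by
  cases h with
  | op _ h => exact h
  | un _ _ _ _ h => exact absurd e h.ne'

theorem inv2 {ξ : Ordinal.{u}} {A : Set X} (h : Sig l ξ A) (e : 1 < ξ) :
    ∃ (ι : Type u) (P : ι → Set X) (ρ : ι → Ordinal.{u}), #ι ≤ l ∧ (∀ i, ρ i < ξ) ∧
      (∀ i, Sig l (ρ i) (P i)ᶜ) ∧ A = ⋃ i, P i := by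
  cases h with
  | op => exact absurd e (lt_irrefl _)
  | un _ ι P ρ _ a b c => exact ⟨ι, P, ρ, a, b, c, rfl⟩

theorem mono (hX : ZD l X) {ξ η : Ordinal.{u}} {A : Set X} (h : Sig l ξ A) (e : ξ ≤ η) :
    Sig l η A := by
  rcases e.eq_or_lt with rfl | e
  · exact h
  cases h with
  | op _ h =>
    obtain ⟨ι, P, a, b, rfl⟩ := hX _ h
    exact .un _ ι P (fun _ => 1) e a (fun _ => e) fun i => .op _ (b i).compl.2
  | un _ ι P ρ h a b c => exact .un _ ι P ρ (h.trans e) a (fun i => (b i).trans e) c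

theorem union (hl : ℵ₀ ≤ l) {ξ : Ordinal.{u}} (h1 : 1 ≤ ξ) {ι : Type u} (hι : #ι ≤ l)
    {A : ι → Set X} (h : ∀ i, Sig l ξ (A i)) : Sig l ξ (⋃ i, A i) := by
  rcases h1.eq_or_lt with rfl | h1
  · exact .op _ (isOpen_iUnion fun i => inv1 (h i) rfl)
  choose κ P ρ a b c d using fun i => inv2 (h i) h1
  simp only [d, ← iUnion_sigma (fun p : Σ i, κ i => P p.1 p.2)]
  refine .un _ _ _ (fun p => ρ p.1 p.2) h1 ?_ (fun p => b _ _) fun p => c _ _
  rw [mk_sigma]
  exact (sum_le_sum _ (fun _ => l) a).trans (by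
    rw [sum_const']; exact (mul_le_mul' hι le_rfl).trans (mul_eq_self hl).le)

theorem union2 (hl : ℵ₀ ≤ l) {ξ : Ordinal.{u}} {A B : Set X} (hA : Sig l ξ A) (hB : Sig l ξ B) :
    Sig l ξ (A ∪ B) := by
  have := union hl (pos hA) (ι := ULift Bool) (mk_le_aleph0.trans hl)
    (A := fun b => cond b.down A B) (by rintro ⟨_ | _⟩ <;> assumption)
  rwa [show (⋃ b : ULift Bool, cond b.down A B) = A ∪ B by ext; simp [or_comm]] at this

theorem inter (hl : ℵ₀ ≤ l) (hX : ZD l X) {ξ : Ordinal.{u}} {A B : Set X} (hA : Sig l ξ A)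
    (hB : Sig l ξ B) : Sig l ξ (A ∩ B) := by
  rcases (pos hA).eq_or_lt with rfl | h1
  · exact .op _ ((inv1 hA rfl).inter (inv1 hB rfl))
  obtain ⟨ι, P, ρ, a, b, c, rfl⟩ := inv2 hA h1
  obtain ⟨κ, Q, σ, a', b', c', rfl⟩ := inv2 hB h1
  rw [show (⋃ i, P i) ∩ ⋃ j, Q j = ⋃ p : ι × κ, P p.1 ∩ Q p.2 by ext; simp]
  refine .un _ _ _ (fun p => max (ρ p.1) (σ p.2)) h1 ?_ (fun p => max_lt (b _) (b' _)) fun p => ?_
  · rw [mk_prod, lift_id, lift_id]
    exact (mul_le_mul' a a').trans (mul_eq_self hl).le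
  · rw [compl_inter]
    exact union2 hl (mono hX (c _) (le_max_left _ _)) (mono hX (c' _) (le_max_right _ _))

theorem cpl (hl : ℵ₀ ≤ l) {ξ η : Ordinal.{u}} {A : Set X} (hA : Sig l ξ A) (e : ξ < η) :
    Sig l η Aᶜ := by
  have := Sig.un (l := l) η PUnit (fun _ => Aᶜ) (fun _ => ξ) ((pos hA).trans_lt e)
    (mk_le_aleph0.trans hl) (fun _ => e) fun _ => by rwa [compl_compl]
  rwa [iUnion_const] at this

theorem card_ind {ι : Type u} (p : Set ι → Prop) (h0 : p ∅) (h1 : ∀ i s, p s → p (insert i s))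
    (h2 : ∀ κ : Cardinal.{u}, κ.IsRegular → κ ≤ l → ∀ S : T κ → Set ι, Monotone S →
      (∀ j, p (S j)) → p (⋃ j, S j)) (s : Set ι) (hs : #s ≤ l) : p s := by
  induction hμ : #s using WellFoundedLT.induction generalizing s with
  | ind μ ih =>
  subst hμ
  by_cases hf : s.Finite
  · clear ih hs
    induction s, hf using Set.Finite.induction_on with
    | empty => exact h0
    | insert _ _ ih => exact h1 _ _ ih
  have hi : ℵ₀ ≤ #s := aleph0_le_mk_iff.2 (Set.Infinite.to_subtype hf)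
  obtain ⟨e⟩ : Nonempty (T #s ≃ s) := Cardinal.eq.1 (mkT _)
  have := Cardinal.noMaxOrder hi
  obtain ⟨t, t1, t2⟩ := Ordinal.exists_ord_cof_eq (T #s)
  rw [Ordinal.cof_toType] at t2
  obtain ⟨φ⟩ := Ordinal.type_eq.1 ((Ordinal.type_toType _).trans t2.symm)
  let ψ := OrderIso.ofRelIsoLT φ
  have := h2 _ (isRegular_cof (isSuccLimit_ord hi)) ((Ordinal.cof_ord_le _).trans hs)
    (fun j => (fun a => (e a).1) '' Iio (ψ j).1)
    (fun i j h => image_mono (Iio_subset_Iio (ψ.monotone h))) fun j =>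
      have := mk_image_le.trans_lt (mkIio (ψ j).1)
      ih _ this _ (this.le.trans hs) rfl
  refine (congrArg p (Subset.antisymm (iUnion_subset fun j => ?_) (fun x hx => ?_))).mp this
  · rintro _ ⟨a, -, rfl⟩; exact (e a).2
  · obtain ⟨a, ha⟩ := exists_gt (e.symm ⟨x, hx⟩)
    obtain ⟨b, hb, hab⟩ := t1 a
    exact mem_iUnion.2 ⟨ψ.symm ⟨b, hb⟩, _, by simpa using ha.trans_le hab, by simp⟩

end Pool.Agent.H95.Gb1
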