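import Pool.Agent.H95.Gb1

set_option autoImplicit false

open Set Filter Topology Function
open Cardinal hiding univ

universe u

namespace Pool.Agent.H95.Gb2

open Pool.Agent.H95.GbDefs Pool.Agent.H95.Gb1

variable {l : Cardinal.{u}} {X Y : Type u} [TopologicalSpace X] [TopologicalSpace Y]

def B (l : Cardinal.{u}) (A : Set X) : Prop := ∃ ξ < (Order.succ l).ord, Sig l ξ A

theorem B.cpl (hl : ℵ₀ ≤ l) {A : Set X} (h : B l A) : B l Aᶜ := by
  obtain ⟨ξ, a, b⟩ := h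
  exact ⟨ξ + 1, (isSuccLimit_ord (hl.trans (Order.le_succ l))).succ_lt a,
    Gb1.cpl hl b (lt_add_one ξ)⟩

theorem B.op (hl : ℵ₀ ≤ l) {A : Set X} (h : IsOpen A) : B l A :=
  ⟨1, Ordinal.one_lt_of_isSuccLimit (isSuccLimit_ord (hl.trans (Order.le_succ l))), .op _ h⟩

theorem B.union (hl : ℵ₀ ≤ l) (hX : ZD l X) {ι : Type u} (hι : #ι ≤ l) {A : ι → Set X}
    (h : ∀ i, B l (A i)) : B l (⋃ i, A i) := by
  choose ξ a b using h
  refine ⟨max 1 (⨆ i, ξ i), max_lt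
    (Ordinal.one_lt_of_isSuccLimit (isSuccLimit_ord (hl.trans (Order.le_succ l))))
    (Ordinal.iSup_lt_of_lt_cof ?_ a), Gb1.union hl (le_max_left _ _) hι fun i =>
      mono hX (b i) ((Ordinal.le_iSup ξ i).trans (le_max_right _ _))⟩
  rw [(isRegular_succ hl).cof_ord]
  exact Order.lt_succ_of_le hι

theorem ev_clopen {κ : Cardinal.{u}} {g : T κ → X → Y} {f : X → Y}
    (h : ∀ x, Tendsto (fun i => g i x) atTop (𝓝 (f x))) {V : Set Y} (hV : IsClopen V) (x : X) :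
    ∀ᶠ i in atTop, g i x ∈ V ↔ f x ∈ V := by
  by_cases hx : f x ∈ V
  · exact ((h x).eventually (hV.2.mem_nhds hx)).mono fun i hi => iff_of_true hi hx
  · exact ((h x).eventually (hV.compl.2.mem_nhds hx)).mono fun i hi => iff_of_false hi hx

def Fam (l : Cardinal.{u}) (X Y : Type u) [TopologicalSpace X] [TopologicalSpace Y] :
    Set (Set (X → Y)) :=
  {C | (∀ f, Continuous f → f ∈ C) ∧ ∀ κ : Cardinal.{u}, κ.IsRegular → κ ≤ l → Lim κ C ⊆ C}

theorem bor_mem (hl : ℵ₀ ≤ l) (hX : ZD l X) (hY : ZD l Y) : Bor l ∈ Fam l X Y := by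
  refine ⟨fun f hf U hU => B.op hl (hU.preimage hf), fun κ hκ hk f ⟨g, g1, g2⟩ U hU => ?_⟩
  obtain ⟨ι, P, a, b, rfl⟩ := hY U hU
  have := neT hκ
  rw [preimage_iUnion]
  refine B.union hl hX a fun i => ?_
  have e : f ⁻¹' P i = ⋃ β, (⋃ α : Ici β, g α.1 ⁻¹' (P i)ᶜ)ᶜ := by
    ext x
    have := ev_clopen g2 (b i) x
    simp only [mem_preimage, mem_iUnion, mem_compl_iff, not_exists, not_not, Subtype.forall,
      mem_Ici]
    refine ⟨fun h => eventually_atTop.1 (this.mono fun j hj => hj.2 h), fun h => ?_⟩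
    obtain ⟨j, h1, h2⟩ := (this.and (eventually_atTop.2 h)).exists
    exact h1.1 h2
  rw [e]
  exact B.union hl hX ((mkT κ).trans_le hk) fun β => (B.union hl hX
    ((mk_set_le _).trans ((mkT κ).trans_le hk)) fun α => g1 α.1 _ (b i).compl.2).cpl hl

def K (l : Cardinal.{u}) (X Y : Type u) [TopologicalSpace X] [TopologicalSpace Y] : Set (X → Y) :=
  ⋂₀ Fam l X Y

theorem K_mem : K l X Y ∈ Fam l X Y :=
  ⟨fun f hf _ hC => hC.1 f hf, fun κ a b _ ⟨g, g1, g2⟩ C hC =>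
    hC.2 κ a b ⟨g, fun i => g1 i C hC, g2⟩⟩

open Classical in
noncomputable def pw {X Y : Type u} (A : Set X) (g h : X → Y) : X → Y :=
  fun x => if x ∈ A then g x else h x

def Pw (l : Cardinal.{u}) (Y : Type u) [TopologicalSpace Y] (A : Set X) : Prop :=
  ∀ g ∈ K l X Y, ∀ h ∈ K l X Y, pw A g h ∈ K l X Y

theorem pw_clopen {A : Set X} (hA : IsClopen A) : Pw l Y A := by
  classical
  have h1 : ∀ h : X → Y, Continuous h → ∀ g ∈ K l X Y, pw A g h ∈ K l X Y := fun h hh g hg =>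
    hg {g | pw A g h ∈ K l X Y} ⟨fun g hg => K_mem.1 _ (hg.piecewise (s := A)
      (by simp [hA.frontier_eq]) hh), fun κ a b f ⟨g, g1, g2⟩ => K_mem.2 κ a b ⟨_, g1, fun x => by
        by_cases hx : x ∈ A <;> simp [pw, hx, g2, tendsto_const_nhds]⟩⟩
  intro g hg h hh
  exact hh {h | pw A g h ∈ K l X Y} ⟨fun h hh => h1 h hh g hg,
    fun κ a b f ⟨g, g1, g2⟩ => K_mem.2 κ a b ⟨_, g1, fun x => by
      by_cases hx : x ∈ A <;> simp [pw, hx, g2, tendsto_const_nhds]⟩⟩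

theorem Pw.cpl {A : Set X} (h : Pw l Y A) : Pw l Y Aᶜ := fun g hg k hk => by
  have e := h k hk g hg
  rwa [show pw A k g = pw Aᶜ g k by ext x; by_cases hx : x ∈ A <;> simp [pw, hx]] at e

theorem glue {ι : Type u} (hι : #ι ≤ l) {A : ι → Set X} (hA : ∀ i, Pw l Y (A i))
    {g : ι → X → Y} (hg : ∀ i, g i ∈ K l X Y) {f h : X → Y} (hh : h ∈ K l X Y)
    (hf : ∀ i, EqOn f (g i) (A i)) : pw (⋃ i, A i) f h ∈ K l X Y := by
  have := card_ind (l := l) (fun s : Set ι => pw (⋃ i ∈ s, A i) f h ∈ K l X Y)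
    (by rwa [show pw (⋃ i ∈ (∅ : Set ι), A i) f h = h by ext; simp [pw]]) (fun i s hs => by
      have e := hA i _ (hg i) _ hs
      rwa [show pw (A i) (g i) (pw (⋃ i ∈ s, A i) f h) = pw (⋃ j ∈ insert i s, A j) f h by
          rw [biUnion_insert]
          generalize ⋃ i ∈ s, A i = S
          ext x
          by_cases hx : x ∈ A i
          · simp [pw, hx, hf i hx]
          · by_cases h' : x ∈ S <;> simp [pw, hx, h']] at e)
    (fun κ a b S s1 s2 => K_mem.2 κ a b ⟨_, s2, fun x => by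
      have := neT a
      refine tendsto_const_nhds.congr' ?_
      by_cases hx : x ∈ ⋃ i ∈ ⋃ j, S j, A i
      · obtain ⟨i, hi, hx'⟩ := mem_iUnion₂.1 hx
        obtain ⟨j, hj⟩ := mem_iUnion.1 hi
        filter_upwards [eventually_ge_atTop j] with k hk
        exact (if_pos hx).trans (if_pos (mem_biUnion (s1 hk hj) hx')).symm
      · exact Eventually.of_forall fun k => (if_neg hx).trans (if_neg fun h' =>
          hx (biUnion_subset_biUnion_left (subset_iUnion S k) h')).symm⟩) univ (by simpa using hι)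
  simpa using this

theorem pw_sig (hX : ZD l X) {ξ : Ordinal.{u}} {A : Set X} (h : Sig l ξ A) : Pw l Y A := by
  induction h with
  | op U hU =>
    obtain ⟨ι, P, a, b, rfl⟩ := hX U hU
    exact fun g hg h hh => glue a (fun i => pw_clopen (b i)) (fun _ => hg) hh fun _ _ _ => rfl
  | un ξ ι P ρ _ a _ _ ih =>
    exact fun g hg h hh => glue a (fun i => compl_compl (P i) ▸ (ih i).cpl) (fun _ => hg) hh
      fun _ _ _ => rfl

theorem q1 (hl : l.IsRegular) (h0 : ℵ₀ < l) (h2 : 2 ^< l = l) (X Y : Set (GB l)) :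
    IsLeast (Fam l X Y) (Bor l) := by
  classical
  have hX := zd hl h2 h0 (IsInducing.subtypeVal (t := X))
  refine ⟨bor_mem hl.1 hX (zd hl h2 h0 IsInducing.subtypeVal), fun C hC f hf => ?_⟩
  refine (?_ : f ∈ K l X Y) C hC
  cases isEmpty_or_nonempty X
  · exact K_mem.1 f continuous_of_discreteTopology
  have := neT hl
  have : ∀ α : T l, ∃ g ∈ K l X Y, ∀ x, (g x).1 ∈ N (f x).1 α := fun α => by
    let ι := {s : Set (GB l) | ∃ y : Y, s = N y.1 α}
    choose pt hp using fun s : ι => s.2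
    have := glue (l := l) (ι := ι) (le_trans (mk_le_mk_of_subset (by
      rintro s ⟨y, hy⟩; exact ⟨y, α, hy⟩)) (cardN hl h2 h0)) (A := fun s => f ⁻¹' (Subtype.val ⁻¹' s.1)) (fun s => by
        obtain ⟨ξ, -, h⟩ := hf (Subtype.val ⁻¹' s.1)
          (hp s ▸ (N_open _ _).preimage continuous_subtype_val)
        exact pw_sig hX h) (g := fun s _ => pt s) (fun s => K_mem.1 _ continuous_const)
      (f := fun x => pt ⟨_, f x, rfl⟩) (h := fun _ => f (Classical.arbitrary X))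
      (K_mem.1 _ continuous_const) fun s x hx => congrArg pt (Subtype.ext (by
        have : (f x).1 ∈ N (pt s).1 α := hp s ▸ hx
        exact (N_eq this).trans (hp s).symm))
    refine ⟨_, this, fun x => ?_⟩
    rw [pw, if_pos (mem_iUnion.2 ⟨(⟨_, f x, rfl⟩ : ι), N_self (f x).1 α⟩)]
    exact (hp ⟨_, f x, rfl⟩).ge (N_self _ _)
  choose g g1 g2 using this
  refine K_mem.2 l hl le_rfl ⟨g, g1, fun x => tendsto_subtype_rng.2 fun U hU => ?_⟩
  obtain ⟨V, v1, v2, v3⟩ := mem_nhds_iff.1 hU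
  obtain ⟨β, hβ⟩ := N_sub hl v2 _ v3
  exact mem_map.2 ((eventually_ge_atTop β).mono fun α hα => v1 (hβ (N_anti _ hα (g2 α x))))

theorem univ_set (hl : l.IsRegular) (h0 : ℵ₀ < l) (h2 : 2 ^< l = l) (ξ : Ordinal.{u}) (h1 : 1 ≤ ξ)
    (h3 : ξ < (Order.succ l).ord) : ∃ U : GB l → Set (GB l),
      (∀ A, Sig l ξ A → ∃ c, U c = A) ∧ ∀ π : T l → T l, Sig l ξ {x : GB l | x ∈ U (x ∘ π)} := by
  classical
  have := neT hl
  have := Cardinal.noMaxOrder hl.1
  induction ξ using WellFoundedLT.induction with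
  | ind ξ ih =>
  rcases h1.eq_or_lt with rfl | h1
  · obtain ⟨p, q, hpq⟩ := exists_pair_ne (T l)
    obtain ⟨e⟩ := (Cardinal.le_def _ _).1 ((cardN hl h2 h0).trans (mkT l).ge)
    have : Nonempty {s : Set (GB l) | ∃ x α, s = N x α} := ⟨⟨_, fun _ => p, p, rfl⟩⟩
    let s := invFun e
    refine ⟨fun c => ⋃ i ∈ {i | c i = p}, s i, fun A hA => ⟨fun i => if (s i).1 ⊆ A then p else q,
      Subset.antisymm (iUnion₂_subset fun i hi => by_contra fun h => hpq.symm (by simpa [h] using hi))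
        fun x hx => ?_⟩, fun π => .op _ (isOpen_iff_forall_mem_open.2 fun x hx => ?_)⟩
    · obtain ⟨α, hα⟩ := N_sub hl (inv1 hA rfl) x hx
      obtain ⟨i, hi⟩ := invFun_surjective e.injective ⟨_, x, α, rfl⟩
      have hi : (s i).1 = N x α := congrArg Subtype.val hi
      exact mem_biUnion (x := i) (by simp [hi, hα]) (hi ▸ N_self x α)
    · obtain ⟨i, hi, hx⟩ := mem_iUnion₂.1 hx
      obtain ⟨y, α, hy⟩ := (s i).2
      obtain ⟨β, hβ⟩ := exists_gt (π i)
      exact ⟨N x β ∩ s i, fun z hz => mem_biUnion (x := i) ((hz.1 _ hβ).trans hi) hz.2,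
        (N_open _ _).inter (hy ▸ N_open _ _), N_self _ _, hx⟩
  obtain ⟨r, r1, r2⟩ : ∃ r : T l → Ordinal.{u}, (∀ j, 1 ≤ r j ∧ r j < ξ) ∧
      ∀ ρ, 1 ≤ ρ → ρ < ξ → ∃ j, r j = ρ := by
    obtain ⟨e⟩ := (Cardinal.le_def ξ.ToType (T l)).1 (by
      rw [mkT, mk_toType]; exact Order.lt_succ_iff.1 (lt_ord.1 h3))
    have : Nonempty ξ.ToType := ⟨Ordinal.ToType.mk ⟨1, h1⟩⟩
    refine ⟨fun j => max 1 (Ordinal.ToType.mk.symm (invFun e j)).1, fun j => ⟨le_max_left _ _,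
      max_lt h1 (Ordinal.ToType.mk.symm _).2⟩, fun ρ a b => ?_⟩
    obtain ⟨j, hj⟩ := invFun_surjective e.injective (Ordinal.ToType.mk ⟨ρ, b⟩)
    exact ⟨j, by simp [hj, a]⟩
  choose U u1 u2 using fun j => ih (r j) (r1 j).2 (r1 j).1 ((r1 j).2.trans h3)
  obtain ⟨e⟩ := (Cardinal.le_def ((T l × T l) × T l) (T l)).1 (by simp [mul_eq_self hl.1])
  refine ⟨fun c => ⋃ p : T l × T l, (U p.1 fun m => c (e (p, m)))ᶜ, fun A hA => ?_, fun π => ?_⟩
  · obtain ⟨ι, P, ρ, a, b, c, rfl⟩ := inv2 hA h1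
    obtain ⟨k⟩ := (Cardinal.le_def _ _).1 (a.trans (mkT l).ge)
    have : ∀ p : T l × T l, ∃ d, (U p.1 d)ᶜ ⊆ ⋃ i, P i ∧
        ∀ i, p.2 = k i → r p.1 = ρ i → (U p.1 d)ᶜ = P i := fun p => by
      by_cases h : ∃ i, p.2 = k i ∧ r p.1 = ρ i
      · obtain ⟨i, i1, i2⟩ := h
        obtain ⟨d, hd⟩ := u1 p.1 _ (i2 ▸ c i)
        refine ⟨d, by rw [hd, compl_compl]; exact subset_iUnion P i, fun j j1 _ => ?_⟩
        rw [hd, compl_compl, k.injective (i1.symm.trans j1)]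
      · obtain ⟨d, hd⟩ := u1 p.1 _ (mono (zd hl h2 h0 IsInducing.id) (.op _ isOpen_univ) (r1 _).1)
        exact ⟨d, by simp [hd], fun i a b => absurd ⟨i, a, b⟩ h⟩
    choose d d1 d2 using this
    refine ⟨extend e (fun q => d q.1 q.2) id, ?_⟩
    simp only [e.injective.extend_apply]
    refine Subset.antisymm (iUnion_subset d1) (iUnion_subset fun i => ?_)
    obtain ⟨j, hj⟩ := r2 (ρ i) (pos (c i)) (b i)
    exact subset_iUnion_of_subset (j, k i) (d2 (j, k i) i rfl hj).ge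
  · rw [show {x : GB l | x ∈ ⋃ p : T l × T l, (U p.1 fun m => (x ∘ π) (e (p, m)))ᶜ} =
      ⋃ p : T l × T l, {x : GB l | x ∈ U p.1 (x ∘ fun m => π (e (p, m)))}ᶜ by ext; simp; rfl]
    exact .un _ _ _ (fun p => r p.1) h1 (by simp [mul_eq_self hl.1]) (fun p => (r1 _).2)
      fun p => by rw [compl_compl]; exact u2 _ _

theorem lim_sig (hl : l.IsRegular) (hX : ZD l X) {ξ : Ordinal.{u}} (h1 : Order.IsSuccLimit ξ)
    (h4 : ξ.cof < l) {D : T l → Set X} (hD : ∀ α, Sig l ξ (D α)) {A : Set X}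
    (hA : ∀ x, ∀ᶠ α in atTop, x ∈ D α ↔ x ∈ A) : Sig l ξ A := by
  have := neT hl
  have o : 1 < ξ := (Ordinal.one_lt_of_isSuccLimit h1)
  choose ι P ρ a b c d using fun α => inv2 (hD α) o
  obtain ⟨s, s1, s2⟩ := Order.exists_cof_eq ξ.ToType
  rw [Ordinal.cof_toType] at s2
  let η : s → Ordinal.{u} := fun t => max 1 (Ordinal.ToType.mk.symm t.1).1 + 1
  have e1 : ∀ t, η t < ξ := fun t => h1.succ_lt (max_lt o (Ordinal.ToType.mk.symm _).2)
  have e2 : ∀ t, 1 < η t := fun t => (le_max_left _ _).trans_lt (lt_add_one _)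
  let G : s → T l → Set X := fun t β => ⋃ α : Ici β, ⋃ i : {i // ρ α i < η t}, P α i
  have g : ∀ t β, Sig l (η t) (G t β) := fun t β => union hl.1 (e2 t).le
    ((mk_set_le _).trans (mkT l).le) fun α => .un _ _ _ (fun i => ρ α i) (e2 t)
      ((mk_subtype_le _).trans (a _)) (fun i => i.2) fun i => c _ _
  have : A = ⋃ t : s, (⋃ β, (G t β)ᶜ)ᶜ := by
    refine Subset.antisymm (fun x hx => ?_) (iUnion_subset fun t x hx => ?_)
    · by_contra h
      simp only [mem_iUnion, mem_compl_iff, not_exists, not_forall, not_not] at h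
      choose β hβ using h
      obtain ⟨γ, hγ⟩ := bdd hl (s := range β) (mk_range_le.trans_lt (s2 ▸ h4))
      obtain ⟨α, h5, h6⟩ := ((hA x).and (eventually_ge_atTop γ)).exists
      obtain ⟨i, hi⟩ := mem_iUnion.1 ((d α).le (h5.2 hx))
      obtain ⟨t, ht, h7⟩ := s1 (Ordinal.ToType.mk ⟨_, b α i⟩)
      have h8 : ρ α i ≤ (Ordinal.ToType.mk.symm t).1 := Ordinal.ToType.mk.le_symm_apply.2 h7
      exact hβ ⟨t, ht⟩ (mem_iUnion.2 ⟨⟨α, (hγ _ ⟨_, rfl⟩).le.trans h6⟩, mem_iUnion.2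
        ⟨⟨i, (h8.trans (le_max_right _ _)).trans_lt (lt_add_one _)⟩, hi⟩⟩)
    · obtain ⟨β, hβ⟩ := eventually_atTop.1 (hA x)
      have : x ∈ G t β := by_contra fun h => hx (mem_iUnion.2 ⟨β, h⟩)
      obtain ⟨α, h⟩ := mem_iUnion.1 this
      obtain ⟨i, h⟩ := mem_iUnion.1 h
      exact (hβ α α.2).1 ((d α).ge (mem_iUnion.2 ⟨i, h⟩))
  rw [this]
  refine .un _ _ _ (fun t => η t + 1) o (s2 ▸ h4.le) (fun t => h1.succ_lt (e1 t)) fun t => ?_
  rw [compl_compl]
  exact union hl.1 ((e2 t).le.trans (lt_add_one _).le) (mkT l).le fun β =>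
    cpl hl.1 (g t β) (lt_add_one _)

theorem q2 (hl : l.IsRegular) (h0 : ℵ₀ < l) (h2 : 2 ^< l = l) (ξ : Ordinal.{u})
    (h1 : Order.IsSuccLimit ξ) (h3 : ξ < (Order.succ l).ord) (h4 : ξ.cof < l) :
    ¬ (Meas l (ξ + 1) : Set (GB l → GB l)) ⊆ Lim l (HatLim l ξ ξ.cof (⋃ η < ξ, Meas l η)) := by
  classical
  intro h
  have hX := zd hl h2 h0 IsInducing.id
  have := neT hl
  have := Cardinal.noMaxOrder hl.1
  obtain ⟨U, u1, u2⟩ := univ_set hl h0 h2 ξ (Ordinal.one_lt_of_isSuccLimit h1).le h3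
  let D : Set (GB l) := {x | x ∈ U x}
  have hD : Sig l ξ D := u2 id
  let p := Classical.arbitrary (T l)
  obtain ⟨q, hq⟩ := exists_gt p
  let a : GB l := fun _ => p
  let b : GB l := fun _ => q
  have hb : b ∉ N a q := fun h => hq.ne' (h p hq)
  obtain ⟨g, g1, g2⟩ := h (a := D.piecewise (fun _ => b) fun _ => a) fun V _ => by
    have o : Sig l (ξ + 1) (univ : Set (GB l)) ∧ Sig l (ξ + 1) (∅ : Set (GB l)) :=
      ⟨mono hX (.op _ isOpen_univ) le_add_self, mono hX (.op _ isOpen_empty) le_add_self⟩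
    rw [piecewise_preimage, Set.ite]
    by_cases c : a ∈ V <;> by_cases d : b ∈ V
    · simpa [preimage_const, c, d] using o.1
    · simpa [preimage_const, c, d, ← compl_eq_univ_diff] using cpl hl.1 hD (lt_add_one ξ)
    · simpa [preimage_const, c, d] using mono hX hD le_self_add
    · simpa [preimage_const, c, d] using o.2
  have := lim_sig hl hX h1 h4 (D := fun α => g α ⁻¹' N a q) (A := Dᶜ) (fun α => by
    obtain ⟨F, C, f1, -, f3, f4, f5⟩ := g1 α
    have : g α ⁻¹' N a q = ⋃ i, C i ∩ F i ⁻¹' N a q := by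
      refine Subset.antisymm (fun x hx => ?_) (iUnion_subset fun i x hx => ?_)
      · obtain ⟨i, hi⟩ := mem_iUnion.1 (f3.ge (mem_univ x))
        exact mem_iUnion.2 ⟨i, hi, by rw [mem_preimage, f5 i i le_rfl hi]; exact hx⟩
      · rw [mem_preimage, ← f5 i i le_rfl hx.1]; exact hx.2
    rw [this]
    refine union hl.1 (Ordinal.one_lt_of_isSuccLimit h1).le ((mkT _).trans_le h4.le) fun i => inter hl.1 hX (f4 i) ?_
    obtain ⟨η, e1, e2⟩ := mem_iUnion₂.1 (f1 i)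
    exact mono hX (e2 _ (N_open _ _)) (le_of_lt e1)) fun x =>
      (ev_clopen g2 (N_clopen a q) x).mono fun α hα => hα.trans (by
        by_cases hx : x ∈ D <;> simp [hx, hb, N_self])
  obtain ⟨c, hc⟩ := u1 _ this
  have : c ∈ U c ↔ c ∉ U c := Set.ext_iff.1 hc c
  exact iff_not_self this

end Pool.Agent.H95.Gb2
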