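import Mathlib

set_option autoImplicit false

open Set Filter Topology Cardinal

universe u

namespace Pool.Agent.H95.GbDefs

/-- the ordinal `κ` as a well order -/
abbrev T (κ : Cardinal.{u}) : Type u := κ.ord.ToType

/-- the generalized Baire space -/
def GB (l : Cardinal.{u}) : Type u := T l → T l

/-- basic open sets of the bounded topology -/
def N {l : Cardinal.{u}} (x : GB l) (α : T l) : Set (GB l) := {y | ∀ β < α, y β = x β}

instance (l : Cardinal.{u}) : TopologicalSpace (GB l) := .generateFrom {s | ∃ x α, s = N x α}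

variable {X Y : Type u} [TopologicalSpace X] [TopologicalSpace Y]

/-- `Sig l ξ A`: the set `A` is in the class `Σ^0_ξ` of the `l⁺`-Borel hierarchy -/
inductive Sig (l : Cardinal.{u}) : Ordinal.{u} → Set X → Prop
  | op (U : Set X) : IsOpen U → Sig l 1 U
  | un (ξ : Ordinal.{u}) (ι : Type u) (P : ι → Set X) (ρ : ι → Ordinal.{u}) : 1 < ξ → #ι ≤ l →
      (∀ i, ρ i < ξ) → (∀ i, Sig l (ρ i) (P i)ᶜ) → Sig l ξ (⋃ i, P i)

/-- `l⁺`-Borel measurable functions -/
def Bor (l : Cardinal.{u}) : Set (X → Y) :=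
  {f | ∀ U, IsOpen U → ∃ ξ < (Order.succ l).ord, Sig l ξ (f ⁻¹' U)}

/-- the class `M_ξ` -/
def Meas (l : Cardinal.{u}) (ξ : Ordinal.{u}) : Set (X → Y) :=
  {f | ∀ U, IsOpen U → Sig l ξ (f ⁻¹' U)}

/-- pointwise `κ`-limits of families from `F` -/
def Lim (κ : Cardinal.{u}) (F : Set (X → Y)) : Set (X → Y) :=
  {f | ∃ g : T κ → X → Y, (∀ i, g i ∈ F) ∧ ∀ x, Tendsto (fun i => g i x) atTop (𝓝 (f x))}

/-- stabilising `κ`-limits along an increasing `Σ^0_ξ` cover -/
def HatLim (l : Cardinal.{u}) (ξ : Ordinal.{u}) (κ : Cardinal.{u}) (F : Set (X → Y)) :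
    Set (X → Y) :=
  {f | ∃ (g : T κ → X → Y) (C : T κ → Set X), (∀ i, g i ∈ F) ∧ Monotone C ∧ ⋃ i, C i = Set.univ ∧
    (∀ i, Sig l ξ (C i)) ∧ ∀ i j, i ≤ j → EqOn (g j) f (C i)}

end Pool.Agent.H95.GbDefs
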