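import Pool.Agent.H95.HahnDefs

namespace Pool.Agent.H95.Hahn
open PowerSeries Finset

theorem main (a b c q : ℝ) (hq : |q| < 1) (h : a * b * c ≠ 0) (l : ℝ⟦X⟧) :
    ∃ x, G 1 x a b c q ≠ AW 1 x a b c q * l * G 0 x a b c q := by
  by_contra! e
  obtain ⟨q1, q2⟩ := abs_lt.1 hq
  have p1 : 1 - q ≠ 0 := by linarith
  have p3 : 1 + q ≠ 0 := by linarith
  have p2 : 1 - q * q ≠ 0 := by rw [show 1 - q * q = (1 - q) * (1 + q) by ring]; exact mul_ne_zero p1 p3
  have hA : ∀ x, AW 1 x a b c q * l = C (2 * x) * l + AW 1 0 a b c q * l := fun x => by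
    simp only [AW, sum_range_succ, range_zero, sum_empty, psi, poch, Nat.sub_self, prod_empty, map_mul, map_ofNat,
      prod_range_succ, pow_zero, mul_one, one_mul, inv_one, map_zero, mul_zero, div_self p1, map_one,
      Nat.choose_zero_succ]
    ring
  have E : ∀ x, 2 * x * coeff 2 l + coeff 2 (AW 1 0 a b c q * l) = psi x a b c q 3 / ((1 - q) * (1 - q * q)) -
      (psi x a b c q 2 - psi x a b c q 1 ^ 2) / (1 - q) * (psi x a b c q 1 / (1 - q)) -
      psi x a b c q 1 * (psi x a b c q 2 / ((1 - q) * (1 - q * q))) := fun x => by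
    have e0 := congrArg (coeff 0) (e x)
    have e1 := congrArg (coeff 1) (e x)
    have e2 := congrArg (coeff 2) (e x)
    rw [coeff_mul, Nat.sum_antidiagonal_eq_sum_range_succ_mk] at e0 e1 e2
    simp only [G, coeff_mk, sum_range_succ, range_zero, sum_empty, poch, prod_range_succ, prod_empty] at e0 e1 e2
    norm_num at e0 e1 e2
    rw [← coeff_C_mul, ← map_add, ← hA]
    rw [show psi x a b c q 0 = 1 from rfl, mul_one] at e0 e1 e2
    rw [← e0] at e1 e2
    rw [show coeff 1 (AW 1 x a b c q * l) = (psi x a b c q 2 - psi x a b c q 1 ^ 2) / (1 - q) by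
      rw [sub_div]; linear_combination -e1] at e2
    linear_combination -e2
  apply mul_ne_zero h p3
  have k : ∀ x : ℝ, psi x a b c q 3 / ((1 - q) * (1 - q * q)) -
      (psi x a b c q 2 - psi x a b c q 1 ^ 2) / (1 - q) * (psi x a b c q 1 / (1 - q)) -
      psi x a b c q 1 * (psi x a b c q 2 / ((1 - q) * (1 - q * q))) =
      (psi x a b c q 3 - (1 + q) * (psi x a b c q 2 - psi x a b c q 1 ^ 2) * psi x a b c q 1 -
        psi x a b c q 1 * psi x a b c q 2) / ((1 - q) * (1 - q * q)) := fun x => by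
    rw [show 1 - q * q = (1 - q) * (1 + q) by ring]; field_simp
  have e1 := E 1; have e0 := E 0; have e2 := E (-1)
  rw [k, eq_div_iff (mul_ne_zero p1 p2)] at e0 e1 e2
  simp only [psi] at e0 e1 e2
  refine mul_right_cancel₀ (mul_ne_zero p1 p2) ?_
  linear_combination (2 * e0 - e1 - e2) / 8

end Pool.Agent.H95.Hahn
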