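import Mathlib

namespace Pool.Agent.H95.Hahn
open PowerSeries Finset

/-- the q-Pochhammer symbol -/
def poch {R : Type} [CommRing R] (α q : R) (n : ℕ) : R := ∏ j ∈ range n, (1 - α * q ^ j)

/-- continuous dual q-Hahn polynomials, by their recurrence -/
def psi {R : Type} [CommRing R] (x a b c q : R) : ℕ → R
  | 0 => 1
  | 1 => 2 * x - (a + b + c - a * b * c)
  | n + 2 => (2 * x - ((a + b + c) * q ^ (n + 1) + a * b * c * q ^ n * (1 - q ^ (n + 1) - q ^ (n + 2)))) *
      psi x a b c q (n + 1) -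
      (1 - q ^ (n + 1)) * ((1 - a * b * q ^ n) * (1 - a * c * q ^ n) * (1 - b * c * q ^ n)) * psi x a b c q n

/-- Askey-Wilson polynomial with fourth parameter the series variable t = X -/
noncomputable def AW (n : ℕ) (x a b c q : ℝ) : ℝ⟦X⟧ :=
  ∑ i ∈ range (n + 1), C (poch q q n / (poch q q i * poch q q (n - i)) * (-a) ^ (n - i) * q ^ (n - i).choose 2) *
    (poch (C (b * c * q ^ i)) (C q) (n - i) * poch (C (b * q ^ i) * X) (C q) (n - i) *
      poch (C (c * q ^ i) * X) (C q) (n - i)) * (poch (C (a * b * c * q ^ (n + i - 1)) * X) (C q) (n - i))⁻¹ *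
    psi (C x) (C b) (C c) X (C q) i

noncomputable def G (n : ℕ) (x a b c q : ℝ) : ℝ⟦X⟧ := mk fun i => psi x a b c q (i + n) / poch q q i

end Pool.Agent.H95.Hahn
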