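import Pool.Agent.H95.HenonDefs

namespace Pool.Agent.H95.Henon
open MeasureTheory Set Filter Convolution

theorem lap (m : ℕ) (φ : ℝ → ℝ) :
    (fun f => -Laplacian.laplacian f)^[m] φ = fun x => (-1) ^ m * iteratedDeriv (2 * m) φ x := by
  induction m with
  | zero => simp
  | succ m ih =>
    rw [Function.iterate_succ_apply', ih]
    ext x
    rw [Pi.neg_apply, InnerProductSpace.laplacian_eq_iteratedDeriv_real, iteratedDeriv_const_mul_field,
      iteratedDeriv_eq_iterate, iteratedDeriv_eq_iterate, iteratedDeriv_eq_iterate,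
      ← Function.iterate_add_apply, pow_succ, show 2 * (m + 1) = 2 + 2 * m by ring]
    ring

theorem down {V : ℕ → ℝ → ℝ} (h : ∀ k x, HasDerivAt (V k) (V (k + 1) x) x) (k : ℕ)
    (hk : ∃ a, ∃ c > 0, ∀ x ≥ a, V k x ≤ -c) : ∃ a, ∃ c > 0, ∀ x ≥ a, V 0 x ≤ -c := by
  induction k with
  | zero => exact hk
  | succ k ih =>
    obtain ⟨a, c, c0, hc⟩ := hk
    refine ih ⟨max a (a + (V k a + 1) / c), 1, one_pos, fun x hx => ?_⟩
    have := (convex_Ici a).image_sub_le_mul_sub_of_deriv_le (f := V k) (C := -c)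
      (fun x _ => (h k x).continuousAt.continuousWithinAt)
      (fun x _ => (h k x).differentiableAt.differentiableWithinAt)
      (fun x hx => (h k x).deriv ▸ hc x (interior_subset hx)) a self_mem_Ici x (le_of_max_le_left hx)
      (le_of_max_le_left hx)
    have h2 : (V k a + 1) / c ≤ x - a := by linarith [le_of_max_le_right hx]
    rw [div_le_iff₀ c0] at h2
    linarith

theorem pos {V : ℕ → ℝ → ℝ} (h : ∀ k x, HasDerivAt (V k) (V (k + 1) x) x) (h0 : ∀ x, 0 ≤ V 0 x) {k : ℕ}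
    (hk : ∀ x, V (k + 1) x ≤ 0) (x : ℝ) : 0 ≤ V k x := by
  by_contra! hx
  obtain ⟨a, c, c0, hc⟩ := down h k ⟨x, -V k x, by linarith, fun y hy => by
    simpa using antitone_of_hasDerivAt_nonpos (h k) hk hy⟩
  linarith [hc a le_rfl, h0 a]

theorem zero {V : ℕ → ℝ → ℝ} (h : ∀ k x, HasDerivAt (V k) (V (k + 1) x) x) (h0 : ∀ x, 0 ≤ V 0 x) {k : ℕ}
    (o : Odd k) (hk : ∀ x, V (k + 1) x ≤ 0) (x : ℝ) : V (k + 1) x = 0 := by
  have := pos (V := fun k x => (-1) ^ k * V k (-x)) (k := k)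
    (fun k x => (((h k (-x)).comp x (hasDerivAt_neg x)).const_mul _).congr_deriv (by ring))
    (fun x => by simpa using h0 _) fun x => by simpa [o.add_one.neg_one_pow] using hk _
  have e : V k = fun _ => 0 := funext fun x => le_antisymm
    (by simpa [o.neg_one_pow] using this (-x)) (pos h h0 hk x)
  exact (h k x).unique (e ▸ hasDerivAt_const x 0)

theorem main (m : ℕ) (o : Odd m) (p σ : ℝ) (u : ℝ → ℝ) : ¬ DistSol ℝ m p σ u := by
  rintro ⟨u0, un, i1, i2, h⟩
  refine un ?_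
  have w0 : ∀ᵐ x : ℝ, 0 ≤ ‖x‖ ^ σ * u x ^ p := u0.mono fun x hx => by positivity
  have key : ∀ n : ℕ, ∀ᵐ y : ℝ, |y| < n + 2 → ‖y‖ ^ σ * u y ^ p = 0 := fun n => by
    let ρ : ContDiffBump (0 : ℝ) := ⟨1, n + 2, one_pos, by linarith [n.cast_nonneg (α := ℝ)]⟩
    have c1 : ∀ k, HasCompactSupport (deriv^[k] ρ) := fun k => by
      induction k with
      | zero => exact ρ.hasCompactSupport
      | succ k ih => rw [Function.iterate_succ_apply']; exact ih.deriv
    let V : ℕ → ℝ → ℝ := fun k => deriv^[k] ρ ⋆[ContinuousLinearMap.lsmul ℝ ℝ] u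
    have hV : ∀ k x, HasDerivAt (V k) (V (k + 1) x) x := fun k x => by
      simp only [V, Function.iterate_succ_apply']
      exact (c1 k).hasDerivAt_convolution_left _
        ((ContDiff.iterate_deriv k ρ.contDiff).of_le (by simp)) i1 x
    have c2 : ∀ x, HasCompactSupport fun y => ρ (x - y) := fun x =>
      ρ.hasCompactSupport.comp_homeomorph (Homeomorph.subLeft x)
    have e : ∀ x, V (2 * m) x = -∫ y, ‖y‖ ^ σ * u y ^ p * ρ (x - y) := fun x => by
      rw [← h (fun y => ρ (x - y)) (ρ.contDiff.comp (by fun_prop)) (c2 x), lap, ← integral_neg]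
      simp only [V, convolution_eq_swap]
      simp [iteratedDeriv_comp_const_sub, o.neg_one_pow, ← iteratedDeriv_eq_iterate, mul_comm]
    obtain ⟨j, rfl⟩ := o
    have nn : ∀ x, 0 ≤ᵐ[volume] fun y => ‖y‖ ^ σ * u y ^ p * ρ (x - y) := fun x =>
      w0.mono fun y hy => mul_nonneg hy ρ.nonneg
    have := zero hV (fun x => by
      simp only [V, convolution_eq_swap]
      exact integral_nonneg_of_ae (u0.mono fun y hy => mul_nonneg ρ.nonneg hy))
      (k := 4 * j + 1) ⟨2 * j, by ring⟩ (fun x => by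
        rw [show 4 * j + 1 + 1 = 2 * (2 * j + 1) by ring, e]
        exact neg_nonpos.2 (integral_nonneg_of_ae (nn x))) 0
    rw [show 4 * j + 1 + 1 = 2 * (2 * j + 1) by ring, e, neg_eq_zero, integral_eq_zero_iff_of_nonneg_ae (nn 0)
      (i2.integrable_smul_right_of_hasCompactSupport (ρ.continuous.comp (by fun_prop)) (c2 0))] at this
    filter_upwards [this] with y hy hn
    exact (mul_eq_zero.1 hy).resolve_right (ρ.pos_of_mem_ball (by simpa using hn)).ne'
  filter_upwards [ae_all_iff.2 key, u0, Measure.ae_ne volume (0 : ℝ)] with y hy y0 yn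
  obtain ⟨n, hn⟩ := exists_nat_gt |y|
  by_contra hu
  exact (mul_pos (Real.rpow_pos_of_pos (norm_pos_iff.2 yn) _)
    (Real.rpow_pos_of_pos (y0.lt_of_ne' hu) _)).ne' (hy n (by linarith))

theorem main' : (∀ m, Odd m → ∀ p σ u, ¬ DistSol ℝ m p σ u) ∧
    ∃ (m : ℕ) (p σ : ℝ), 2 ≤ m ∧ 1 < p ∧ σ < -2 * m ∧ 0 < 1 - 2 * m - (2 * m + σ) / (p - 1) ∧
      ∀ u, ¬ DistSol ℝ m p σ u :=
  ⟨main, 3, 2, -12, by norm_num, by norm_num, by norm_num, by norm_num, main 3 (by decide) _ _⟩

end Pool.Agent.H95.Henon
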