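import Mathlib

namespace Pool.Agent.H95.Henon
open MeasureTheory

/-- distributional solution of the polyharmonic Hardy-Henon equation on a Euclidean space `E` -/
def DistSol (E : Type) [NormedAddCommGroup E] [InnerProductSpace ℝ E] [FiniteDimensional ℝ E]
    [MeasureSpace E] (m : ℕ) (p σ : ℝ) (u : E → ℝ) : Prop :=
  (∀ᵐ x, 0 ≤ u x) ∧ ¬ (∀ᵐ x, u x = 0) ∧ LocallyIntegrable u ∧
    LocallyIntegrable (fun x => ‖x‖ ^ σ * u x ^ p) ∧
    ∀ φ : E → ℝ, ContDiff ℝ (⊤ : ℕ∞) φ → HasCompactSupport φ →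
      ∫ x, u x * (fun f => -Laplacian.laplacian f)^[m] φ x = ∫ x, ‖x‖ ^ σ * u x ^ p * φ x

end Pool.Agent.H95.Henon
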