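import Pool.Agent.H95.HeunDefs

set_option autoImplicit false
open Polynomial

namespace Pool.Agent.H95.Heun
open Pool.Agent.H95.HeunDefs

theorem heun_eq (l μ lam : ℂ) (E : ℂ[X]) : heun l μ lam E =
    X * (X * derivative (derivative E)) + C (1 - l) * (X * derivative E) + C μ * derivative E -
      C μ * (X * (X * derivative E)) + C lam * E + C (μ * (l - 1)) * (X * E) := by
  unfold heun; ring

theorem c0 (l μ lam : ℂ) (E : ℂ[X]) : (heun l μ lam E).coeff 0 =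
    lam * E.coeff 0 + μ * E.coeff 1 := by
  rw [heun_eq]
  simp only [coeff_add, coeff_sub, coeff_C_mul, coeff_X_mul_zero, coeff_derivative]
  simp; ring

theorem cs (l μ lam : ℂ) (E : ℂ[X]) (k : ℕ) : (heun l μ lam E).coeff (k + 1) =
    ((k + 1) * (k + 1 - l) + lam) * E.coeff (k + 1) + μ * (k + 2) * E.coeff (k + 2) +
      μ * (l - k - 1) * E.coeff k := by
  rw [heun_eq]
  cases k with
  | zero =>
    simp only [coeff_add, coeff_sub, coeff_C_mul, coeff_X_mul, coeff_X_mul_zero, coeff_derivative]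
    simp; ring
  | succ k =>
    simp only [coeff_add, coeff_sub, coeff_C_mul, coeff_X_mul, coeff_derivative]
    push_cast; ring

theorem deg {l : ℕ} {μ lam : ℂ} (hμ : μ ≠ 0) {E : ℂ[X]} (hE : E ≠ 0)
    (h : heun l μ lam E = 0) : E.natDegree + 1 = l := by
  have h1 := cs l μ lam E E.natDegree
  rw [h, coeff_zero, coeff_eq_zero_of_natDegree_lt (by omega),
    coeff_eq_zero_of_natDegree_lt (n := E.natDegree + 2) (by omega)] at h1
  have h2 : E.coeff E.natDegree ≠ 0 := leadingCoeff_ne_zero.2 hE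
  have h3 : (l : ℂ) - E.natDegree - 1 = 0 := by
    simpa [hμ, h2, hE] using h1.symm
  have : ((E.natDegree + 1 : ℕ) : ℂ) = l := by push_cast; linear_combination -h3
  exact_mod_cast this

theorem has_iff (l : ℕ) (A : ℝ) : HasPoly (3 / 2) (l * (3 / 2)) A ↔
    ∃ E : ℂ[X], E ≠ 0 ∧ heun l (A / 3) (1 / 9 - (A / 3) ^ 2) E = 0 := by
  unfold HasPoly
  have e1 : (((l * (3 / 2) / (3 / 2) : ℝ)) : ℂ) = l := by push_cast; ring
  have e2 : (((A / (2 * (3 / 2)) : ℝ)) : ℂ) = A / 3 := by push_cast; ring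
  have e3 : (((1 / (4 * (3 / 2) ^ 2) - (A / (2 * (3 / 2))) ^ 2 : ℝ)) : ℂ) = 1 / 9 - (A / 3) ^ 2 := by
    push_cast; ring
  rw [e1, e2, e3]

theorem P1 : IsP (3 / 2) 1 1 := by
  constructor
  · refine (has_iff 1 1).2 ⟨1, one_ne_zero, ?_⟩
    simp [heun]; norm_num
  · intro A hA
    obtain ⟨E, hE, h⟩ := (has_iff 1 A).1 hA
    by_contra hlt
    push Not at hlt
    have hμ : (A : ℂ) / 3 ≠ 0 := by simp; linarith
    have hd := deg hμ hE h
    have h2 : E.coeff E.natDegree ≠ 0 := leadingCoeff_ne_zero.2 hE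
    have h0 := c0 (1 : ℕ) (A / 3) (1 / 9 - (A / 3) ^ 2) E
    rw [show E.natDegree = 0 by omega] at h2
    rw [h, coeff_zero, coeff_eq_zero_of_natDegree_lt (n := 1) (by omega)] at h0
    have h3 : ((1 / 9 - (A / 3) ^ 2 : ℝ) : ℂ) = 0 := by
      push_cast
      simpa [h2] using h0.symm
    have h4 := Complex.ofReal_eq_zero.1 h3
    nlinarith

theorem P2 : IsP (3 / 2) 2 2 := by
  constructor
  · refine (has_iff 2 2).2 ⟨C 2 + X, ?_, ?_⟩
    · intro h
      simpa using congrArg (fun p => p.coeff 1) h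
    · refine Polynomial.funext fun z => ?_
      simp [heun]; ring
  · intro A hA
    obtain ⟨E, hE, h⟩ := (has_iff 2 A).1 hA
    by_contra hlt
    push Not at hlt
    have hμ : (A : ℂ) / 3 ≠ 0 := by simp; linarith
    have hd := deg hμ hE h
    have h2 : E.coeff E.natDegree ≠ 0 := leadingCoeff_ne_zero.2 hE
    have h0 := c0 (2 : ℕ) (A / 3) (1 / 9 - (A / 3) ^ 2) E
    have h1 := cs (2 : ℕ) (A / 3) (1 / 9 - (A / 3) ^ 2) E 0
    rw [show E.natDegree = 1 by omega] at h2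
    rw [h, coeff_zero] at h0 h1
    rw [coeff_eq_zero_of_natDegree_lt (n := 0 + 2) (by omega)] at h1
    have h3 : (((1 / 9 - (A / 3) ^ 2) ^ 2 - 1 / 9 : ℝ) : ℂ) * E.coeff 1 = 0 := by
      push_cast at h1 ⊢
      linear_combination (A / 3 : ℂ) * h0 - (1 / 9 - (A / 3 : ℂ) ^ 2) * h1
    have h4 := Complex.ofReal_eq_zero.1 ((mul_eq_zero.1 h3).resolve_right h2)
    have h5 : 4 < A ^ 2 := by nlinarith
    nlinarith

noncomputable def det3 (A : ℝ) : ℝ :=
  (1 / 9 - (A / 3) ^ 2) * (1 / 9 - (A / 3) ^ 2 - 2) ^ 2 - 2 * (A / 3) ^ 2 * (1 / 9 - (A / 3) ^ 2) -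
    2 * (A / 3) ^ 2 * (1 / 9 - (A / 3) ^ 2 - 2)

theorem has3 {A : ℝ} (hA : A ≠ 0) : HasPoly (3 / 2) ((3 : ℕ) * (3 / 2)) A ↔ det3 A = 0 := by
  have hμ : (A : ℂ) / 3 ≠ 0 := by simpa using hA
  rw [has_iff]
  constructor
  · rintro ⟨E, hE, h⟩
    have hd := deg hμ hE h
    have h2 : E.coeff E.natDegree ≠ 0 := leadingCoeff_ne_zero.2 hE
    have h0 := c0 (3 : ℕ) (A / 3) (1 / 9 - (A / 3) ^ 2) E
    have h1 := cs (3 : ℕ) (A / 3) (1 / 9 - (A / 3) ^ 2) E 0
    have h3 := cs (3 : ℕ) (A / 3) (1 / 9 - (A / 3) ^ 2) E 1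
    rw [show E.natDegree = 2 by omega] at h2
    rw [h, coeff_zero] at h0 h1 h3
    rw [coeff_eq_zero_of_natDegree_lt (n := 1 + 2) (by omega)] at h3
    have h4 : (det3 A : ℂ) * E.coeff 2 = 0 := by
      unfold det3
      push_cast at h1 h3 ⊢
      set μ : ℂ := A / 3
      set lam : ℂ := 1 / 9 - μ ^ 2
      linear_combination (-2 * μ ^ 2) * h0 + lam * μ * h1 - (lam * (lam - 2) - 2 * μ ^ 2) * h3
    exact Complex.ofReal_eq_zero.1 ((mul_eq_zero.1 h4).resolve_right h2)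
  · intro h
    have h1 : (det3 A : ℂ) = 0 := by exact_mod_cast h
    unfold det3 at h1
    push_cast at h1
    have h2 : ((1 / 9 - (A / 3) ^ 2 - 2 : ℝ) : ℂ) ≠ 0 :=
      Complex.ofReal_ne_zero.2 (by nlinarith [sq_nonneg (A / 3)])
    push_cast at h2
    set μ : ℂ := A / 3
    set lam : ℂ := 1 / 9 - μ ^ 2
    refine ⟨C (μ * (lam - 2)) - C (lam * (lam - 2)) * X + C (μ * lam) * X ^ 2, fun h0 => ?_, ?_⟩
    · have := congrArg (fun p => p.eval 0) h0
      simp [hμ, h2] at this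
    · refine Polynomial.funext fun z => ?_
      simp only [heun, derivative_add, derivative_sub, derivative_C, derivative_C_mul, derivative_X,
        derivative_X_sq, derivative_one, derivative_zero, eval_add, eval_sub, eval_mul, eval_C,
        eval_X, eval_pow, eval_one, eval_zero]
      push_cast
      linear_combination (-z) * h1

theorem P3 : ∃ A, IsP (3 / 2) 3 A ∧ A ≠ 3 := by
  have hc : Continuous det3 := by unfold det3; fun_prop
  have h3 : 0 < det3 3 := by unfold det3; norm_num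
  have hneg : ∀ A, 6 ≤ A → det3 A < 0 := by
    intro A hA
    unfold det3
    have : 4 ≤ (A / 3) ^ 2 := by nlinarith
    set m := (A / 3) ^ 2
    nlinarith [mul_nonneg (sub_nonneg.2 this) (sq_nonneg m), mul_nonneg (sub_nonneg.2 this) (by linarith : 0 ≤ m)]
  have hK : IsCompact (Set.Icc 3 6 ∩ det3 ⁻¹' {0}) :=
    isCompact_Icc.inter_right (isClosed_singleton.preimage hc)
  have hne : (Set.Icc 3 6 ∩ det3 ⁻¹' {0}).Nonempty := by
    obtain ⟨x, hx, h0⟩ := intermediate_value_Icc' (show (3 : ℝ) ≤ 6 by norm_num) hc.continuousOn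
      (show (0 : ℝ) ∈ Set.Icc (det3 6) (det3 3) from ⟨(hneg 6 le_rfl).le, h3.le⟩)
    exact ⟨x, hx, h0⟩
  obtain ⟨A, ⟨hA1, hA2⟩, hA3⟩ := hK.exists_isGreatest hne
  refine ⟨A, ⟨(has3 (by linarith [hA1.1])).2 hA2, fun a ha => ?_⟩, ?_⟩
  · by_contra hlt
    push Not at hlt
    have h1 := (has3 (by linarith [hA1.1])).1 ha
    have h2 : a ≤ 6 := by
      by_contra h
      exact (hneg a (by linarith)).ne h1
    exact absurd (hA3 ⟨⟨by linarith [hA1.1], h2⟩, h1⟩) (not_le.2 hlt)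
  · rintro rfl
    exact h3.ne' hA2

theorem main : ∃ ω : ℝ, 0 < ω ∧ ∃ A1 A2 A3 : ℝ, IsP ω 1 A1 ∧ IsP ω 2 A2 ∧ IsP ω 3 A3 ∧
    ¬ Collinear ℝ ({(ω, A1), (2 * ω, A2), (3 * ω, A3)} : Set (ℝ × ℝ)) := by
  obtain ⟨A, h1, h2⟩ := P3
  refine ⟨3 / 2, by norm_num, 1, 2, A, P1, P2, h1, fun h => h2 ?_⟩
  obtain ⟨v, hv⟩ := (collinear_iff_of_mem (p₀ := ((3 / 2 : ℝ), (1 : ℝ))) (by simp)).1 h
  obtain ⟨r, hr⟩ := hv (2 * (3 / 2), 2) (by simp)
  obtain ⟨s, hs⟩ := hv (3 * (3 / 2), A) (by simp)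
  have a1 : 2 * (3 / 2 : ℝ) = r * v.1 + 3 / 2 := congrArg Prod.fst hr
  have a2 : (2 : ℝ) = r * v.2 + 1 := congrArg Prod.snd hr
  have a3 : 3 * (3 / 2 : ℝ) = s * v.1 + 3 / 2 := congrArg Prod.fst hs
  have a4 : A = s * v.2 + 1 := congrArg Prod.snd hs
  have : (r * v.1) * (s * v.2) = (s * v.1) * (r * v.2) := by ring
  rw [show r * v.1 = 3 / 2 by linarith, show s * v.1 = 3 by linarith, show r * v.2 = 1 by linarith]
    at this
  linarith

end Pool.Agent.H95.Heun
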