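import Mathlib

set_option autoImplicit false
open Polynomial

namespace Pool.Agent.H95.HeunDefs

/-- The left side of `z² E'' + ((1-l) z + μ (1 - z²)) E' + (λ + μ (l-1) z) E`. -/
noncomputable def heun (l μ lam : ℂ) (E : ℂ[X]) : ℂ[X] :=
  X ^ 2 * derivative (derivative E) + (C (1 - l) * X + C μ * (1 - X ^ 2)) * derivative E +
    (C lam + C (μ * (l - 1)) * X) * E

/-- At `(B, A)` the equation has a nonzero polynomial solution, with `l = B/ω`, `μ = A/(2ω)`,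
`λ = 1/(4ω²) - μ²`. -/
def HasPoly (ω B A : ℝ) : Prop :=
  ∃ E : ℂ[X], E ≠ 0 ∧
    heun ((B / ω : ℝ) : ℂ) ((A / (2 * ω) : ℝ) : ℂ) ((1 / (4 * ω ^ 2) - (A / (2 * ω)) ^ 2 : ℝ) : ℂ) E = 0

/-- `(l ω, A)` is the point `P_l`. -/
def IsP (ω : ℝ) (l : ℕ) (A : ℝ) : Prop := IsGreatest {a : ℝ | HasPoly ω (l * ω) a} A

end Pool.Agent.H95.HeunDefs
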