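import Pool.Agent.H95.HypFDefs

set_option autoImplicit false

open UpperHalfPlane Set Function

namespace Pool.Agent.H95.HypF1

open Pool.Agent.H95.HypFDefs

def PW (A : Set ℍ) (f : ℍ → ℍ) : Prop :=
  ∃ S : Set (ℍ ≃ᵢ ℍ), S.Finite ∧ ∀ x ∈ A, ∃ g ∈ S, g x = f x

structure Em (A B : Set ℍ) (f : ℍ → ℍ) : Prop where
  pw : PW A f
  mt : MapsTo f A B
  inj : InjOn f A

theorem Em.comp {A B D : Set ℍ} {f g : ℍ → ℍ} (hg : Em B D g) (hf : Em A B f) :
    Em A D (g ∘ f) := by
  refine ⟨?_, hg.mt.comp hf.mt, hg.inj.comp hf.inj hf.mt⟩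
  obtain ⟨S, s1, s2⟩ := hf.pw
  obtain ⟨T, t1, t2⟩ := hg.pw
  refine ⟨image2 IsometryEquiv.trans S T, s1.image2 _ t1, fun x hx => ?_⟩
  obtain ⟨a, a1, a2⟩ := s2 x hx
  obtain ⟨b, b1, b2⟩ := t2 _ (hf.mt hx)
  exact ⟨_, mem_image2_of_mem a1 b1, by simp [a2, b2]⟩

theorem Em.id (A : Set ℍ) : Em A A id :=
  ⟨⟨{IsometryEquiv.refl _}, finite_singleton _, fun _ _ => ⟨_, rfl, rfl⟩⟩, mapsTo_id _, injOn_id _⟩

variable {K : Set ℍ} {α β : ℍ → ℍ}

theorem union (hα : Em K K α) (hβ : Em K K β) (h : ∀ x ∈ K, ∀ y ∈ K, α x ≠ β y) {A B : Set ℍ}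
    {f g : ℍ → ℍ} (hf : Em A K f) (hg : Em B K g) : ∃ e, Em (A ∪ B) K e := by
  classical
  have h1 := hα.comp hf
  have h2 := hβ.comp hg
  refine ⟨fun x => if x ∈ A then α (f x) else β (g x), ?_, fun x hx => ?_, fun x hx y hy e => ?_⟩
  · obtain ⟨S, s1, s2⟩ := h1.pw
    obtain ⟨T, t1, t2⟩ := h2.pw
    refine ⟨S ∪ T, s1.union t1, fun x hx => ?_⟩
    dsimp only
    split_ifs with c
    · exact (s2 x c).imp fun a ha => ⟨Or.inl ha.1, ha.2⟩
    · exact (t2 x (hx.resolve_left c)).imp fun a ha => ⟨Or.inr ha.1, ha.2⟩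
  · split_ifs with c
    · exact h1.mt c
    · exact h2.mt (hx.resolve_left c)
  · split_ifs at e with c d d
    · exact h1.inj c d e
    · exact absurd e (h _ (hf.mt c) _ (hg.mt (hy.resolve_left d)))
    · exact absurd e.symm (h _ (hf.mt d) _ (hg.mt (hx.resolve_left c)))
    · exact h2.inj (hx.resolve_left c) (hy.resolve_left d) e

theorem cop (hα : Em K K α) (hβ : Em K K β) (n : ℕ) : Em K K (β^[n] ∘ α) := by
  induction n with
  | zero => exact hα
  | succ n ih => rw [iterate_succ']; exact hβ.comp ih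

theorem cop_inj (hα : Em K K α) (hβ : Em K K β) (h : ∀ x ∈ K, ∀ y ∈ K, α x ≠ β y) (n m : ℕ) :
    ∀ x ∈ K, ∀ y ∈ K, β^[n] (α x) = β^[m] (α y) → n = m := by
  induction n generalizing m with
  | zero =>
    intro x hx y hy e
    cases m with
    | zero => rfl
    | succ m =>
      rw [iterate_succ_apply'] at e
      exact absurd e (h _ hx _ ((cop hα hβ m).mt hy))
  | succ n ih =>
    intro x hx y hy e
    cases m with
    | zero =>
      rw [iterate_succ_apply'] at e
      exact absurd e.symm (h _ hy _ ((cop hα hβ n).mt hx))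
    | succ m =>
      rw [iterate_succ_apply', iterate_succ_apply'] at e
      rw [ih m x hx y hy (hβ.inj ((cop hα hβ n).mt hx) ((cop hα hβ m).mt hy) e)]

theorem free {X : Set ℍ} (hX : X.Nonempty) (hα : Em X X α) (hβ : Em X X β)
    (h : ∀ x ∈ X, ∀ y ∈ X, α x ≠ β y) : ∃ φ ψ : Equiv.Perm X, PiecewiseIso φ ∧ PiecewiseIso ψ ∧
      Injective (FreeGroup.lift ![φ, ψ]) ∧
      ∀ g ∈ Subgroup.closure {φ, ψ}, ∀ x, g x = x → g = 1 := by
  classical
  let en : Option (Fin 2 × Bool) → ℕ := Encodable.encode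
  let a : Option (Fin 2 × Bool) → X → X := fun i x => ⟨_, (cop hα hβ (en i)).mt x.2⟩
  have ai : ∀ i j x y, a i x = a j y → i = j ∧ x = y := fun i j x y e => by
    have e : β^[en i] (α x) = β^[en j] (α y) := congrArg Subtype.val e
    obtain rfl : i = j := Encodable.encode_injective (cop_inj hα hβ h _ _ _ x.2 _ y.2 e)
    exact ⟨rfl, Subtype.ext ((cop hα hβ _).inj x.2 y.2 e)⟩
  choose S s1 s2 using fun i => (cop hα hβ (en i)).pw
  let T : Set (ℍ ≃ᵢ ℍ) := insert (IsometryEquiv.refl _) (⋃ i, S i ∪ IsometryEquiv.symm '' S i)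
  have hT : T.Finite := (finite_iUnion fun i => (s1 i).union ((s1 i).image _)).insert _
  let N : X → X → Prop := fun x y => ∃ g ∈ T, g x = y
  have n0 : ∀ x, N x x := fun x => ⟨_, Or.inl rfl, rfl⟩
  have n1 : ∀ i x, N x (a i x) := fun i x => by
    obtain ⟨g, g1, g2⟩ := s2 i x x.2
    exact ⟨g, Or.inr (mem_iUnion.2 ⟨i, Or.inl g1⟩), g2⟩
  have n2 : ∀ i x, N (a i x) x := fun i x => by
    obtain ⟨g, g1, g2⟩ := s2 i x x.2
    exact ⟨g.symm, Or.inr (mem_iUnion.2 ⟨i, Or.inr ⟨g, g1, rfl⟩⟩), g.symm_apply_eq.2 g2.symm⟩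
  let w : List (Fin 2 × Bool) → X → X := fun l x => l.foldr (fun s y => a (some s) y) (a none x)
  have wi : ∀ l m x y, w l x = w m y → l = m ∧ x = y := fun l => by
    induction l with
    | nil =>
      intro m x y e
      cases m with
      | nil => exact ⟨rfl, (ai _ _ _ _ e).2⟩
      | cons s m => exact absurd (ai _ _ _ _ e).1 (by simp)
    | cons r l ih =>
      intro m x y e
      cases m with
      | nil => exact absurd (ai _ _ _ _ e).1 (by simp)
      | cons s m =>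
        obtain ⟨e1, e2⟩ := ai _ _ _ _ e
        obtain ⟨e3, e4⟩ := ih m x y e2
        exact ⟨by rw [Option.some.inj e1, e3], e4⟩
  let ι : FreeGroup (Fin 2) × X → X := fun p => w p.1.toWord p.2
  obtain ⟨θ, t1, t2⟩ := Function.Embedding.schroeder_bernstein_of_rel
    (f := fun x : X => ((1 : FreeGroup (Fin 2)), x)) (g := ι) (fun x y e => congrArg Prod.snd e)
    (fun p q e => Prod.ext (FreeGroup.toWord_injective (wi _ _ _ _ e).1) (wi _ _ _ _ e).2)
    (fun x p => N x (ι p) ∧ N (ι p) x) (fun x => ⟨n1 none x, n2 none x⟩) fun p => ⟨n0 _, n0 _⟩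
  let E := Equiv.ofBijective θ t1
  let ρ : FreeGroup (Fin 2) →* Equiv.Perm X := MonoidHom.mk'
    (fun g => (E.trans ((Equiv.mulLeft g).prodCongr (Equiv.refl X))).trans E.symm)
    fun g h => by ext x; simp [mul_assoc, Prod.map]
  have hρ : ∀ g x, θ (ρ g x) = (g * (θ x).1, (θ x).2) := fun g x => E.apply_symm_apply _
  have fr : ∀ g x, ρ g x = x → g = 1 := fun g x e => by
    have := congrArg Prod.fst (hρ g x)
    rw [e] at this
    simpa using this
  have pw : ∀ i, PiecewiseIso (ρ (FreeGroup.of i)) := fun i => by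
    have k : ∀ p : FreeGroup (Fin 2) × X, N (ι p) (ι (FreeGroup.of i * p.1, p.2)) := fun p => by
      have e : (FreeGroup.of i * p.1).toWord = FreeGroup.reduce ((i, true) :: p.1.toWord) :=
        FreeGroup.toWord_mul _ _
      rw [FreeGroup.reduce.cons, FreeGroup.reduce_toWord] at e
      simp only [ι, e]
      cases p.1.toWord with
      | nil => exact n1 _ _
      | cons r l =>
        dsimp only
        split_ifs
        · exact n2 _ _
        · exact n1 _ _
    have hU := hT.image2 IsometryEquiv.trans (hT.image2 IsometryEquiv.trans hT)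
    have : ∀ x : X, ∃ g : hU.toFinset, (ρ (FreeGroup.of i) x : ℍ) = g.1 x := fun x => by
      obtain ⟨g1, a1, b1⟩ := (t2 x).1
      obtain ⟨g2, a2, b2⟩ := k (θ x)
      obtain ⟨g3, a3, b3⟩ := (t2 (ρ (FreeGroup.of i) x)).2
      rw [hρ] at b3
      exact ⟨⟨_, hU.mem_toFinset.2 (mem_image2_of_mem a1 (mem_image2_of_mem a2 a3))⟩,
        by simp [b1, b2, b3]⟩
    choose c hc using this
    exact ⟨_, fun x => hU.toFinset.equivFin (c x), fun j => (hU.toFinset.equivFin.symm j).1,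
      fun x => by simpa using hc x⟩
  have e : FreeGroup.lift ![ρ (FreeGroup.of 0), ρ (FreeGroup.of 1)] = ρ :=
    FreeGroup.ext_hom _ _ fun i => by fin_cases i <;> simp
  refine ⟨_, _, pw 0, pw 1, ?_, fun g hg x hx => ?_⟩
  · rw [e, injective_iff_map_eq_one]
    exact fun g hg => fr g ⟨_, hX.some_mem⟩ (by rw [hg]; rfl)
  · obtain ⟨g, rfl⟩ : g ∈ ρ.range := (Subgroup.closure_le _).2 (by
      rintro _ (rfl | rfl) <;> exact ⟨_, rfl⟩) hg
    rw [fr g x hx, map_one]

end Pool.Agent.H95.HypF1
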