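import Pool.Agent.H95.HypF1

set_option autoImplicit false

open UpperHalfPlane Set Function Complex MatrixGroups

namespace Pool.Agent.H95.HypF2

open Pool.Agent.H95.HypF1

def Mq (a b c d : ℤ) (z w : ℍ) : Prop := (w : ℂ) * (c * z + d) = a * z + b

def Mb (n : ℤ) (z w : ℍ) : Prop := ∃ a b c d : ℤ, a * d - b * c = n ∧ Mq a b c d z w

noncomputable def N (c d : ℤ) (z : ℍ) : ℝ := (c * z.re + d) ^ 2 + (c * z.im) ^ 2

variable {a b c d n m : ℤ} {z w u : ℍ}

theorem Mq.re (h : Mq a b c d z w) :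
    w.re * (c * z.re + d) - w.im * (c * z.im) = a * z.re + b ∧
    w.re * (c * z.im) + w.im * (c * z.re + d) = a * z.im := by
  have h1 := congrArg Complex.re h
  have h2 := congrArg Complex.im h
  constructor
  · simpa using h1
  · simpa using h2

theorem Mq.im (h : Mq a b c d z w) : w.im * N c d z = (a * d - b * c : ℤ) * z.im := by
  obtain ⟨h1, h2⟩ := h.re
  unfold N
  push_cast
  linear_combination (c * z.re + d) * h2 - c * z.im * h1

theorem Mq.symm (h : Mq a b c d z w) : Mq d (-b) (-c) a w z := by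
  unfold Mq at *
  push_cast
  linear_combination -h

theorem Mq.trans {a' b' c' d' : ℤ} (h : Mq a b c d z w) (k : Mq a' b' c' d' w u) :
    Mq (a' * a + b' * c) (a' * b + b' * d) (c' * a + d' * c) (c' * b + d' * d) z u := by
  unfold Mq at *
  push_cast
  linear_combination (c * z + d) * k + (a' - u * c') * h

theorem Mb.symm (h : Mb n z w) : Mb n w z := by
  obtain ⟨a, b, c, d, h1, h2⟩ := h
  exact ⟨_, _, _, _, by linear_combination h1, h2.symm⟩

theorem Mb.trans (h : Mb n z w) (k : Mb m w u) : Mb (n * m) z u := by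
  obtain ⟨a, b, c, d, rfl, h2⟩ := h
  obtain ⟨a', b', c', d', rfl, k2⟩ := k
  exact ⟨_, _, _, _, by ring, h2.trans k2⟩

theorem Mb.refl (z : ℍ) : Mb 1 z z := ⟨1, 0, 0, 1, by simp, by simp [Mq]⟩

theorem Mb.tr (h : Mb 1 z w) (k : Mb n w u) : Mb n z u := one_mul n ▸ h.trans k

theorem den (z : ℍ) (h : ¬ (c = 0 ∧ d = 0)) : (c : ℂ) * z + d ≠ 0 := fun e => by
  have h2 := congrArg Complex.im e
  have hc : c = 0 := by simpa [z.im_ne_zero] using h2
  exact h ⟨hc, by simpa [hc] using e⟩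

theorem iso (h : 0 < a * d - b * c) : ∃ g : ℍ ≃ᵢ ℍ, (∀ z, Mq a b c d z (g z)) ∧
    ∀ z w, Mq a b c d z w → g z = w := by
  have h0 : ¬ (c = 0 ∧ d = 0) := by rintro ⟨rfl, rfl⟩; simp at h
  have h1 : (0 : ℝ) < (a * d - b * c : ℤ) := by exact_mod_cast h
  obtain ⟨s, s0, s1⟩ : ∃ s : ℝ, s ≠ 0 ∧ s * s = a * d - b * c :=
    ⟨√((a * d - b * c : ℤ) : ℝ), (Real.sqrt_pos.2 h1).ne', by
      rw [Real.mul_self_sqrt h1.le]; push_cast; ring⟩
  obtain ⟨γ, g1, g2, g3, g4⟩ : ∃ γ : SL(2, ℝ), γ 0 0 = a / s ∧ γ 0 1 = b / s ∧ γ 1 0 = c / s ∧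
      γ 1 1 = d / s := ⟨⟨!![a / s, b / s; c / s, d / s], by
    rw [Matrix.det_fin_two_of]; field_simp; linear_combination -s1⟩, rfl, rfl, rfl, rfl⟩
  have k : ∀ z, Mq a b c d z (γ • z) := fun z => by
    have s2 : (s : ℂ) ≠ 0 := by exact_mod_cast s0
    have := den z h0
    unfold Mq
    rw [coe_specialLinearGroup_apply, g1, g2, g3, g4]
    simp only [Algebra.algebraMap_self, RingHom.id_apply]
    push_cast
    rw [div_mul_eq_mul_div (a : ℂ), div_mul_eq_mul_div (c : ℂ), ← add_div, ← add_div,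
      div_div_div_cancel_right₀ s2, div_mul_cancel₀ _ this]
  refine ⟨IsometryEquiv.constSMul γ, k, fun z w hw => UpperHalfPlane.ext ?_⟩
  have := k z
  unfold Mq at this hw
  exact mul_right_cancel₀ (den z h0) (this.trans hw.symm)

def Box : Set ℍ := {z | |z.re| ≤ 1 ∧ 1 / 2 ≤ z.im ∧ z.im ≤ 3}

theorem bd1 (h : Mq a b c d z w) (h3 : a * d - b * c ≤ 3) (hz : z ∈ Box) (hw : w ∈ Box) :
    |(c : ℝ) * z.im| ≤ 5 ∧ |c * z.re + d| ≤ 5 ∧ |(c : ℝ)| ≤ 10 ∧ |(d : ℝ)| ≤ 15 := by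
  have e := h.im
  have h3 : ((a * d - b * c : ℤ) : ℝ) ≤ 3 := by exact_mod_cast h3
  have n0 : 0 ≤ N c d z := by unfold N; positivity
  have n1 : N c d z ≤ 18 := by nlinarith [hz.2.1, hz.2.2, hw.2.1]
  unfold N at n1
  have a1 : |(c : ℝ) * z.im| ≤ 5 := abs_le_of_sq_le_sq' (by nlinarith [sq_nonneg (c * z.re + d)])
    (by norm_num) |> abs_le.2
  have a2 : |c * z.re + d| ≤ 5 := abs_le_of_sq_le_sq' (by nlinarith [sq_nonneg (c * z.im)])
    (by norm_num) |> abs_le.2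
  have a3 : |(c : ℝ)| ≤ 10 := by
    rw [abs_mul, abs_of_pos z.im_pos] at a1
    nlinarith [abs_nonneg (c : ℝ), hz.2.1]
  have a4 : |c * z.re| ≤ 10 := by
    rw [abs_mul]; nlinarith [abs_nonneg (c : ℝ), hz.1, abs_nonneg z.re]
  refine ⟨a1, a2, a3, ?_⟩
  rw [abs_le] at *
  constructor <;> linarith [a2.1, a2.2, a4.1, a4.2]

theorem pw_box {A : Set ℍ} {f : ℍ → ℍ} (hA : A ⊆ Box) (hf : MapsTo f A Box)
    (h : ∀ x ∈ A, ∃ n, 0 < n ∧ n ≤ 3 ∧ Mb n x (f x)) : PW A f := by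
  choose! G g1 g2 using fun (p : ℤ × ℤ × ℤ × ℤ) (h : 0 < p.1 * p.2.2.2 - p.2.1 * p.2.2.1) => iso h
  refine ⟨G '' Icc (-40, -40, -40, -40) (40, 40, 40, 40), (finite_Icc _ _).image G, fun x hx => ?_⟩
  obtain ⟨_, n1, n2, a, b, c, d, rfl, e⟩ := h x hx
  refine ⟨_, mem_image_of_mem G (x := (a, b, c, d)) ?_, g2 _ n1 _ _ e⟩
  obtain ⟨p1, p2, p3, p4⟩ := bd1 e n2 (hA hx) (hf hx)
  obtain ⟨-, -, -, q4⟩ := bd1 e.symm (by linarith) (hf hx) (hA hx)
  have r := e.re.1
  have r1 : |(f x).re * (c * x.re + d)| ≤ 5 := by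
    rw [abs_mul]; nlinarith [abs_nonneg (c * x.re + d), (hf hx).1, abs_nonneg (f x).re]
  have r2 : |(f x).im * (c * x.im)| ≤ 15 := by
    rw [abs_mul, abs_of_pos (f x).im_pos]; nlinarith [abs_nonneg (c * x.im), (hf hx).2.2]
  have r3 : |a * x.re| ≤ 15 := by
    rw [abs_mul]; nlinarith [abs_nonneg (a : ℝ), (hA hx).1, abs_nonneg x.re]
  have k : ∀ t : ℤ, |(t : ℝ)| ≤ 40 → -40 ≤ t ∧ t ≤ 40 := fun t ht => by
    rw [abs_le] at ht; exact_mod_cast ht
  have ka := k a (by linarith)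
  have kb := k b (by rw [abs_le] at *; constructor <;> linarith [r1.1, r1.2, r2.1, r2.2, r3.1, r3.2])
  have kc := k c (by linarith)
  have kd := k d (by linarith)
  exact ⟨⟨ka.1, kb.1, kc.1, kd.1⟩, ka.2, kb.2, kc.2, kd.2⟩

theorem tri (h : Mq a b 0 d z w) (e : a * d = 1) : ∃ m : ℤ, (w : ℂ) = z + m := by
  unfold Mq at h
  rcases Int.eq_one_or_neg_one_of_mul_eq_one' e with ⟨rfl, rfl⟩ | ⟨rfl, rfl⟩
  · exact ⟨b, by push_cast at h; linear_combination h⟩
  · exact ⟨-b, by push_cast at h ⊢; linear_combination -h⟩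

def Good (z : ℍ) : Prop := ∀ c d : ℤ, ¬ (c = 0 ∧ d = 0) → z.im ≤ 3 * N c d z

theorem N_eq (c d : ℤ) (z : ℍ) : N c d z = normSq (c * z + d) := by
  simp [N, normSq_apply, sq]

theorem Good.mb (hz : Good z) (h : Mb 1 z w) : Good w := fun p q hpq => by
  obtain ⟨a, b, c, d, h1, h⟩ := h
  have e := h.im
  rw [h1] at e
  have n0 : 0 < N c d z := N_eq c d z ▸ normSq_pos.2 (den z (by rintro ⟨rfl, rfl⟩; simp at h1))
  have k : N (p * a + q * c) (p * b + q * d) z = N p q w * N c d z := by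
    rw [N_eq, N_eq, N_eq, ← map_mul]
    congr 1
    unfold Mq at h
    push_cast
    linear_combination -p * h
  have := hz (p * a + q * c) (p * b + q * d) fun ⟨e1, e2⟩ => hpq
    ⟨by linear_combination d * e1 - c * e2 - p * h1, by linear_combination a * e2 - b * e1 - q * h1⟩
  rw [k] at this
  push_cast at e
  exact le_of_mul_le_mul_right (by linarith) n0

def Tr (z : ℍ) : Prop := ¬ IsAlgebraic ℚ (z : ℂ)

theorem Tr.mb (hz : Tr z) (h : Mb n z w) (hn : n ≠ 0) : Tr w := fun hw => hz (by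
  obtain ⟨a, b, c, d, h1, h⟩ := h.symm
  have := den w (c := c) (d := d) (by rintro ⟨rfl, rfl⟩; simp at h1; exact hn h1.symm)
  rw [eq_div_of_mul_eq this h, ← mem_algebraicClosure_iff]
  rw [← mem_algebraicClosure_iff] at hw
  exact div_mem (add_mem (mul_mem (intCast_mem _ a) hw) (intCast_mem _ b))
    (add_mem (mul_mem (intCast_mem _ c) hw) (intCast_mem _ d)))

theorem Tr.nq (hz : Tr z) {p q r : ℚ} (h : (p : ℂ) * z ^ 2 + q * z + r = 0) : p = 0 := by
  by_contra hp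
  refine hz ⟨Polynomial.C p * Polynomial.X ^ 2 + Polynomial.C q * Polynomial.X + Polynomial.C r,
    fun e => ?_, by simpa using h⟩
  have := Polynomial.degree_quadratic (b := q) (c := r) hp
  rw [e] at this
  simp at this

def Up (z w : ℍ) : Prop := ∃ r s : ℚ, r ≠ 0 ∧ (w : ℂ) = r * z + s

theorem hnf (h : Mb n z w) (hn : 0 < n) : ∃ u, Mb 1 w u ∧ Up z u := by
  obtain ⟨a, b, c, d, rfl, h⟩ := h
  have g0 : 0 < Int.gcd a c := Int.gcd_pos_iff.2 (by
    by_contra k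
    push Not at k
    simp [k.1, k.2] at hn)
  obtain ⟨g, a', c', g1, g2, rfl, rfl⟩ := Int.exists_gcd_one' g0
  obtain ⟨x, y, e⟩ := Int.isCoprime_iff_gcd_eq_one.2 g2
  obtain ⟨G, k, -⟩ := iso (a := x) (b := y) (c := -c') (d := a') (by linarith)
  have t := h.trans (k w)
  have D0 : (-c' * b + a' * d : ℤ) ≠ 0 := fun e0 => hn.ne' (by linear_combination g * e0)
  refine ⟨G w, ⟨_, _, _, _, by linarith, k w⟩, g / (-c' * b + a' * d : ℤ),
    (x * b + y * d : ℤ) / (-c' * b + a' * d : ℤ),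
    div_ne_zero (by exact_mod_cast g1.ne') (by exact_mod_cast D0), ?_⟩
  have D1 : ((-c' * b + a' * d : ℤ) : ℂ) ≠ 0 := by exact_mod_cast D0
  have e' : (x : ℂ) * a' + y * c' = 1 := by exact_mod_cast e
  unfold Mq at t
  rw [Rat.cast_div, Rat.cast_div, Rat.cast_intCast, Rat.cast_intCast, Rat.cast_natCast,
    div_mul_eq_mul_div, ← add_div, eq_div_iff D1]
  push_cast at t ⊢
  linear_combination t + g * z * e'

theorem uniq (hz : Tr z) (hw : Up z w) (hu : Up z u) (h : Mb 1 w u) : ∃ m : ℤ, (u : ℂ) = w + m := by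
  obtain ⟨a, b, c, d, h1, h⟩ := h
  obtain ⟨r, s, r0, hr⟩ := hw
  obtain ⟨r', s', r1, hr'⟩ := hu
  have k := h
  unfold Mq at k
  rw [hr, hr'] at k
  have := hz.nq (p := r' * c * r) (q := r' * (c * s + d) + s' * c * r - a * r)
    (r := s' * (c * s + d) - a * s - b) (by push_cast; linear_combination k)
  obtain rfl : c = 0 := by simpa [r0, r1] using this
  exact tri h (by linarith)

theorem two (hw : Good w) {ch : ℤ → ℍ} (h : ∀ j, Mq 1 j 0 3 w (ch j)) {i j : ℤ}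
    (hij : ¬ (3 : ℤ) ∣ i - j) : Good (ch i) ∨ Good (ch j) := by
  have key : ∀ j, ¬ Good (ch j) → ∃ c e : ℤ, ¬ 3 ∣ c ∧ 3 ∣ e - c * j ∧ N c e w < w.im := by
    intro j hj
    simp only [Good, not_forall, not_le] at hj
    obtain ⟨c, d, h0, h1⟩ := hj
    obtain ⟨k1, k2⟩ := (h j).re
    have e : N c (c * j + 3 * d) w = 9 * N c d (ch j) := by
      have a1 : w.re = 3 * (ch j).re - j := by push_cast at k1; linarith
      have a2 : w.im = 3 * (ch j).im := by push_cast at k2; linarith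
      unfold N
      rw [a1, a2]; push_cast; ring
    have lt : N c (c * j + 3 * d) w < w.im := by push_cast at k2; linarith
    refine ⟨c, c * j + 3 * d, ?_, ⟨d, by ring⟩, lt⟩
    rintro ⟨c, rfl⟩
    have := hw c (c * j + d) fun ⟨e1, e2⟩ => h0 ⟨by simp [e1], by simpa [e1] using e2⟩
    have e : N (3 * c) (3 * c * j + 3 * d) w = 9 * N c (c * j + d) w := by
      unfold N; push_cast; ring
    linarith [w.im_pos]
  by_contra hc
  push Not at hc
  obtain ⟨c, e, a1, ⟨x, a2⟩, a3⟩ := key i hc.1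
  obtain ⟨c', e', b1, ⟨y, b2⟩, b3⟩ := key j hc.2
  have n0 : 0 ≤ N c e w := by unfold N; positivity
  have n1 : 0 ≤ N c' e' w := by unfold N; positivity
  have id : N c e w * N c' e' w = ((c * e' - c' * e : ℤ) * w.im) ^ 2 +
      ((c * w.re + e) * (c' * w.re + e') + c * c' * w.im ^ 2) ^ 2 := by
    unfold N; push_cast; ring
  have lt : N c e w * N c' e' w < w.im * w.im := mul_lt_mul'' a3 b3 n0 n1
  have l2 : ((c * e' - c' * e : ℤ) : ℝ) ^ 2 < 1 := by
    by_contra k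
    nlinarith [sq_nonneg ((c * w.re + e) * (c' * w.re + e') + c * c' * w.im ^ 2),
      mul_pos w.im_pos w.im_pos]
  have l3 : (c * e' - c' * e) ^ 2 < 1 := by exact_mod_cast l2
  have l4 : c * e' - c' * e = 0 := by nlinarith
  have : (3 : ℤ) ∣ c * c' * (i - j) := ⟨c * y - c' * x, by
    linear_combination -l4 + c * b2 - c' * a2⟩
  rcases Int.prime_three.dvd_or_dvd this with k | k
  · exact (Int.prime_three.dvd_or_dvd k).elim a1 b1
  · exact hij k

end Pool.Agent.H95.HypF2
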