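import Pool.Agent.H95.HypF2

set_option autoImplicit false

open UpperHalfPlane Set Function Complex MatrixGroups

namespace Pool.Agent.H95.HypF3

open Pool.Agent.H95.HypFDefs Pool.Agent.H95.HypF1 Pool.Agent.H95.HypF2

theorem ex_rep : ∃ rep : ℍ → ℍ, (∀ z, Mb 1 z (rep z)) ∧
    (∀ z, |(rep z).re| ≤ 1 ∧ 1 / 2 ≤ (rep z).im) ∧ ∀ z w, Mb 1 z w → rep z = rep w := by
  let s : Setoid ℍ := ⟨Mb 1, Mb.refl, Mb.symm, Mb.tr⟩
  have : ∀ z : ℍ, ∃ w, Mb 1 z w ∧ |w.re| ≤ 1 ∧ 1 / 2 ≤ w.im := fun z => by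
    obtain ⟨g, hg⟩ := ModularGroup.exists_smul_mem_fd z
    have hd := g.det_coe
    rw [Matrix.det_fin_two] at hd
    refine ⟨g • z, ⟨g 0 0, g 0 1, g 1 0, g 1 1, hd, ?_⟩, hg.2.trans (by norm_num), ?_⟩
    · have := den z (c := g 1 0) (d := g 1 1) (fun h => by simp [h.1, h.2] at hd)
      unfold Mq
      rw [coe_specialLinearGroup_apply]
      simp only [eq_intCast, ofReal_intCast]
      exact div_mul_cancel₀ _ this
    · have := ModularGroup.three_le_four_mul_im_sq_of_mem_fd hg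
      nlinarith [(g • z).im_pos]
  choose f f1 f2 using this
  refine ⟨fun z => f (Quotient.mk s z).out, fun z => ?_, fun z => f2 _, fun z w h => ?_⟩
  · exact (Mb.symm (Quotient.mk_out (s := s) z)).tr (f1 _)
  · simp only [Quotient.sound (s := s) h]

theorem ex_nf : ∃ base nf : ℍ → ℍ, (∀ z, Mb 1 z (nf z) ∧ Up (base z) (nf z)) ∧
    (∀ z, Tr z → Tr (base z)) ∧ ∀ z w n, 0 < n → Mb n z w → base z = base w := by
  let s : Setoid ℍ := ⟨fun z w => ∃ n, 0 < n ∧ Mb n z w, fun z => ⟨1, one_pos, Mb.refl z⟩,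
    fun ⟨n, a, b⟩ => ⟨n, a, b.symm⟩, fun ⟨n, a, b⟩ ⟨m, c, d⟩ => ⟨_, mul_pos a c, b.trans d⟩⟩
  have h : ∀ z, ∃ n, 0 < n ∧ Mb n (Quotient.mk s z).out z := fun z => Quotient.mk_out (s := s) z
  choose n n0 n1 using h
  choose nf hf using fun z => hnf (n1 z) (n0 z)
  exact ⟨_, nf, hf, fun z hz => hz.mb (n1 z).symm (n0 z).ne', fun z w n a b => by
    simp only [Quotient.sound (s := s) ⟨n, a, b⟩]⟩

theorem good_im {z : ℍ} (h : Good z) : z.im ≤ 3 := by simpa [N] using h 0 1 (by simp)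

theorem good_of {z : ℍ} (h1 : 1 < z.im) (h3 : z.im < 3) : Good z := fun c d h => by
  unfold N
  by_cases hc : c = 0
  · have : (1 : ℝ) ≤ d ^ 2 := by
      have : 0 < d ^ 2 := by have : d ≠ 0 := fun e => h ⟨hc, e⟩; positivity
      exact_mod_cast this
    simp only [hc, Int.cast_zero, zero_mul, zero_add]
    nlinarith
  · have : (1 : ℝ) ≤ c ^ 2 := by
      have : 0 < c ^ 2 := by positivity
      exact_mod_cast this
    have : 1 ≤ z.im ^ 2 := by nlinarith
    nlinarith [sq_nonneg (c * z.re + d)]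

theorem box_uniq {z w : ℍ} (h : Mb 1 z w) (hz : 1 < z.im) (hw : 1 < w.im) (rz : |z.re| < 1 / 2)
    (rw' : |w.re| < 1 / 2) : z = w := by
  obtain ⟨a, b, c, d, h1, h⟩ := h
  have e := h.im
  rw [h1] at e
  obtain rfl : c = 0 := by
    by_contra hc
    have : (1 : ℝ) ≤ c ^ 2 := by
      have : 0 < c ^ 2 := by positivity
      exact_mod_cast this
    have k : z.im ^ 2 ≤ N c d z := by unfold N; nlinarith [sq_nonneg (c * z.re + d)]
    push_cast at e
    nlinarith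
  obtain ⟨m, hm⟩ := tri h (by linarith)
  have r : w.re = z.re + m := by simpa using congrArg Complex.re hm
  rw [abs_lt] at rz rw'
  have m1 : (m : ℝ) < 1 := by linarith [rz.1, rw'.2]
  have m2 : (-1 : ℝ) < m := by linarith [rz.2, rw'.1]
  obtain rfl : m = 0 := by
    have : m < 1 := by exact_mod_cast m1
    have : -1 < m := by exact_mod_cast m2
    omega
  exact UpperHalfPlane.ext (by simpa using hm.symm)

theorem main : ∃ X : Set ℍ, Bornology.IsBounded X ∧ (interior X).Nonempty ∧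
    ∃ φ ψ : Equiv.Perm X, PiecewiseIso φ ∧ PiecewiseIso ψ ∧
      Injective (FreeGroup.lift ![φ, ψ]) ∧
      ∀ g ∈ Subgroup.closure {φ, ψ}, ∀ x, g x = x → g = 1 := by
  obtain ⟨rep, r1, r2, r3⟩ := ex_rep
  obtain ⟨base, nf, n1, n2, n3⟩ := ex_nf
  let K : Set ℍ := {z | Good z ∧ Tr z ∧ rep z = z}
  have KB : K ⊆ Box := fun z hz => ⟨hz.2.2 ▸ (r2 z).1, hz.2.2 ▸ (r2 z).2, good_im hz.1⟩
  have rK : ∀ z, Good z → Tr z → rep z ∈ K := fun z a b =>
    ⟨a.mb (r1 z), b.mb (r1 z) one_ne_zero, (r3 _ _ (r1 z)).symm⟩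
  choose G g1 g2 using fun j : ℤ => iso (a := 1) (b := j) (c := 0) (d := 3) (by simp)
  have m3 : ∀ j z, Mb 3 z (G j (nf z)) := fun j z => (n1 z).1.tr ⟨_, _, _, _, by simp, g1 j _⟩
  have up : ∀ j z, Up (base z) (G j (nf z)) := fun j z => by
    obtain ⟨r, s, a, b⟩ := (n1 z).2
    have := g1 j (nf z)
    unfold Mq at this
    exact ⟨r / 3, (s + j) / 3, by positivity, by
      push_cast at this ⊢; linear_combination (this + b) / 3⟩
  have ci : ∀ z ∈ K, ∀ w ∈ K, ∀ i j, rep (G i (nf z)) = rep (G j (nf w)) →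
      z = w ∧ (3 : ℤ) ∣ i - j := fun z hz w hw i j e => by
    have h1 : Mb 1 (G i (nf z)) (G j (nf w)) := (r1 _).tr (e ▸ (r1 _).symm)
    have hb : base z = base w := n3 _ _ _ (by norm_num) ((m3 i z).trans (h1.tr (m3 j w).symm))
    obtain ⟨m, hm⟩ := uniq (n2 z hz.2.1) (up i z) (hb ▸ up j w) h1
    have a := g1 i (nf z)
    have b := g1 j (nf w)
    unfold Mq at a b
    have c : (nf w : ℂ) = nf z + (i - j + 3 * m : ℤ) := by
      push_cast at a b ⊢; linear_combination a - b + 3 * hm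
    have h2 : Mb 1 (nf z) (nf w) := ⟨1, i - j + 3 * m, 0, 1, by simp, by simp [Mq, c]⟩
    obtain rfl : z = w := hz.2.2.symm.trans
      ((r3 _ _ ((n1 z).1.tr (h2.tr (n1 w).1.symm))).trans hw.2.2)
    have : i - j + 3 * m = 0 := by exact_mod_cast left_eq_add.1 c
    exact ⟨rfl, -m, by linarith⟩
  have : ∀ z, ∃ i j : ℤ, ¬ (3 : ℤ) ∣ i - j ∧ (z ∈ K → Good (G i (nf z)) ∧ Good (G j (nf z))) := by
    intro z
    by_cases hz : z ∈ K
    swap
    · exact ⟨0, 1, by decide, fun h => absurd h hz⟩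
    have t := fun i j => two (hz.1.mb (n1 z).1) (fun j => g1 j (nf z)) (i := i) (j := j)
    rcases t 0 1 (by decide) with a | a
    · rcases t 1 2 (by decide) with b | b
      · exact ⟨0, 1, by decide, fun _ => ⟨a, b⟩⟩
      · exact ⟨0, 2, by decide, fun _ => ⟨a, b⟩⟩
    · rcases t 0 2 (by decide) with b | b
      · exact ⟨0, 1, by decide, fun _ => ⟨b, a⟩⟩
      · exact ⟨1, 2, by decide, fun _ => ⟨a, b⟩⟩
  choose i j h0 h1 using this
  have em : ∀ i : ℍ → ℤ, (∀ z ∈ K, Good (G (i z) (nf z))) →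
      Em K K fun z => rep (G (i z) (nf z)) := fun i h => by
    have mt : MapsTo (fun z => rep (G (i z) (nf z))) K K := fun z hz =>
      rK _ (h z hz) (hz.2.1.mb (m3 _ z) (by norm_num))
    exact ⟨pw_box KB (mt.mono_right KB) fun z _ => ⟨3, by norm_num, le_rfl,
      (m3 _ z).trans (r1 _)⟩, mt, fun z hz w hw e => (ci z hz w hw _ _ e).1⟩
  have hα := em i fun z hz => (h1 z hz).1
  have hβ := em j fun z hz => (h1 z hz).2
  have hd : ∀ x ∈ K, ∀ y ∈ K, rep (G (i x) (nf x)) ≠ rep (G (j y) (nf y)) := fun x hx y hy e => by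
    obtain ⟨rfl, h⟩ := ci x hx y hy _ _ e
    exact h0 x h
  let B : ℝ → Set ℍ := fun r => {z | |z.re| < r ∧ 1 < z.im ∧ z.im < 3}
  have BB : B (1 / 2) ⊆ Box := fun z hz => ⟨by linarith [hz.1], by linarith [hz.2.1], hz.2.2.le⟩
  have e1 : Em (B (1 / 2) ∩ {z | Tr z}) K rep := by
    have mt : MapsTo rep (B (1 / 2) ∩ {z | Tr z}) K := fun z hz =>
      rK z (good_of hz.1.2.1 hz.1.2.2) hz.2
    exact ⟨pw_box (inter_subset_left.trans BB) (mt.mono_right KB) fun z _ =>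
      ⟨1, one_pos, by norm_num, r1 z⟩, mt, fun z hz w hw e => box_uniq
        ((r1 z).tr (e ▸ (r1 w).symm)) hz.1.2.1 hw.1.2.1 hz.1.1 hw.1.1⟩
  obtain ⟨t, t1, t2⟩ : ∃ t : ℝ, ¬ IsAlgebraic ℚ (t : ℂ) ∧ t ∈ Ioo (0 : ℝ) (1 / 4) :=
    (((Algebraic.countable ℚ ℂ).preimage_of_injOn ofReal_injective.injOn).dense_compl
      ℝ).exists_mem_open isOpen_Ioo (nonempty_Ioo.2 (by norm_num))
  have e2 : Em (B (1 / 4) \ {z | Tr z}) (B (1 / 2) ∩ {z | Tr z}) fun z => t +ᵥ z := by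
    refine ⟨⟨{IsometryEquiv.mk (Equiv.mk (t +ᵥ ·) ((-t) +ᵥ ·) (by intro z; simp [vadd_vadd])
      (by intro z; simp [vadd_vadd])) (isometry_real_vadd t)}, finite_singleton _,
      fun _ _ => ⟨_, rfl, rfl⟩⟩, fun z hz => ⟨⟨?_, by simpa using hz.1.2⟩, fun h => t1 ?_⟩,
      (isometry_real_vadd t).injective.injOn⟩
    · have := abs_lt.1 hz.1.1
      rw [vadd_re, abs_lt]
      constructor <;> linarith [this.1, this.2, t2.1, t2.2]
    · have := h.sub (not_not.1 hz.2)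
      simpa using this
  obtain ⟨f, hf⟩ := union hα hβ hd e1 (e1.comp e2)
  obtain ⟨e, he⟩ := union hα hβ hd (Em.id K) hf
  have sub : B (1 / 4) ⊆ K ∪ (B (1 / 2) ∩ {z | Tr z} ∪ B (1 / 4) \ {z | Tr z}) := fun z hz => by
    by_cases h : Tr z
    · exact Or.inr (Or.inl ⟨⟨by linarith [hz.1], hz.2⟩, h⟩)
    · exact Or.inr (Or.inr ⟨hz, h⟩)
  have op : IsOpen (B (1 / 4)) := (isOpen_lt UpperHalfPlane.continuous_re.abs continuous_const).inter
    ((isOpen_lt continuous_const UpperHalfPlane.continuous_im).inter 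
      (isOpen_lt UpperHalfPlane.continuous_im continuous_const))
  have ne : (B (1 / 4)).Nonempty := ⟨⟨⟨0, 2⟩, by norm_num⟩, by
    refine ⟨?_, ?_, ?_⟩ <;> norm_num [UpperHalfPlane.re, UpperHalfPlane.im]⟩
  have a := hα.comp he
  have b := hβ.comp he
  refine ⟨_, ?_, ne.mono (interior_maximal sub op), free (ne.mono sub)
    ⟨a.pw, a.mt.mono_right subset_union_left, a.inj⟩
    ⟨b.pw, b.mt.mono_right subset_union_left, b.inj⟩
    fun x hx y hy => hd _ (he.mt hx) _ (he.mt hy)⟩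
  refine Bornology.IsBounded.subset ?_ (union_subset KB (union_subset (inter_subset_left.trans BB)
    fun z hz => BB ⟨by linarith [hz.1.1], hz.1.2⟩))
  refine Metric.isBounded_iff.2 ⟨20, fun z hz w hw => (dist_le_dist_coe_div_sqrt z w).trans ?_⟩
  have s : 1 / 2 ≤ √(z.im * w.im) := Real.le_sqrt_of_sq_le (by nlinarith [hz.2.1, hw.2.1])
  have d : dist (z : ℂ) w ≤ 10 := by
    rw [dist_eq_norm]
    refine (norm_le_abs_re_add_abs_im _).trans ?_
    have a := abs_le.1 hz.1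
    have b := abs_le.1 hw.1
    have c : |((z : ℂ) - w).re| ≤ 5 := by
      rw [sub_re, coe_re, coe_re, abs_le]; constructor <;> linarith [a.1, a.2, b.1, b.2]
    have d : |((z : ℂ) - w).im| ≤ 5 := by
      rw [sub_im, coe_im, coe_im, abs_le]
      constructor <;> linarith [hz.2.1, hz.2.2, hw.2.1, hw.2.2]
    linarith
  rw [div_le_iff₀ (by linarith)]
  linarith

end Pool.Agent.H95.HypF3
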