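import Mathlib

set_option autoImplicit false

open UpperHalfPlane

namespace Pool.Agent.H95.HypFDefs

/-- `f` is a piecewise isometry of `X`: `X` is split into `n` pieces (the fibres of `c`), and
on the `i`-th piece `f` agrees with the isometry `g i` of the hyperbolic plane -/
def PiecewiseIso {X : Set ℍ} (f : Equiv.Perm X) : Prop :=
  ∃ (n : ℕ) (c : X → Fin n) (g : Fin n → ℍ ≃ᵢ ℍ), ∀ x, (f x : ℍ) = g (c x) x

end Pool.Agent.H95.HypFDefs
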