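import Pool.Agent.H95.IasDefs

namespace Pool.Agent.H95.Ias
open Filter Topology Set

variable {x : ℕ → ℝ} {J : Set (Set ℕ)}

noncomputable def pre (x : ℕ → ℝ) (M : ℕ) (B : Set ℕ) : ℝ := ∑ n ∈ Finset.range M, B.indicator x n
def spl (M : ℕ) (C B : Set ℕ) : Set ℕ := (C ∩ Iio M) ∪ (B ∩ Ici M)
def Tl (J : Set (Set ℕ)) : Prop := ∀ B ∈ J, ∀ C M, spl M C B ∈ J

theorem sp {B s} (h : Sums x B s) (M C) : Sums x (spl M C B) (s + (pre x M C - pre x M B)) := by
  refine (h.add_const _).congr' ((eventually_ge_atTop M).mono fun N hN => ?_)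
  induction N, hN using Nat.le_induction with
  | base =>
    simp only [pre, add_sub_cancel]
    exact Finset.sum_congr rfl fun n hn => by
      have := Finset.mem_range.1 hn
      by_cases h : n ∈ C <;> simp [spl, h, this, this.not_ge]
  | succ N hN ih =>
    simp only [Finset.sum_range_succ] at ih ⊢
    rw [← ih, show (spl M C B).indicator x N = B.indicator x N by
      by_cases h : N ∈ B <;> simp [spl, h, hN, hN.not_gt]]
    ring

theorem pre_eq (M B) : ∃ F ∈ (Finset.range M).powerset, pre x M B = ∑ n ∈ F, x n := by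
  classical
  exact ⟨_, Finset.mem_powerset.2 (Finset.filter_subset (· ∈ B) _), by
    simp only [pre, Finset.sum_filter, indicator_apply]⟩

theorem K (hJ : Tl J) {O : Set ℝ} (hO : IsOpen O) {c} (h1 : c ∈ O) (h2 : c ∈ Ach univ x)
    (h : IsMeagre (Ach J x ∩ O)) : IsMeagre (Ach J x) := by
  obtain ⟨C, -, hC⟩ := h2
  refine (isMeagre_iUnion fun p : Finset ℕ × Finset ℕ => h.preimage_of_isOpenMap
    (continuous_add_const (∑ n ∈ p.1, x n - ∑ n ∈ p.2, x n)) (isOpenMap_add_right _)).mono ?_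
  rintro s ⟨B, hB, hs⟩
  have t : Tendsto (fun M => s + (pre x M C - pre x M B)) atTop (𝓝 (s + (c - s))) := (Tendsto.sub hC hs).const_add s
  rw [add_sub_cancel] at t
  obtain ⟨M, hM⟩ := (t.eventually (hO.mem_nhds h1)).exists
  obtain ⟨F, -, hF⟩ := pre_eq (x := x) M C
  obtain ⟨G, -, hG⟩ := pre_eq (x := x) M B
  refine mem_iUnion.2 ⟨(F, G), ?_⟩
  simp only [mem_preimage, ← hF, ← hG]
  exact ⟨⟨_, hJ B hB C M, sp hs M C⟩, hM⟩

theorem greedy (h0 : Tendsto x atTop (𝓝 0)) (h : ¬Summable fun n => max (x n) 0) {r : ℝ} (hr : 0 ≤ r) :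
    ∃ B, Sums x B r := by
  obtain ⟨s, s0, s1⟩ : ∃ s : ℕ → ℝ, s 0 = 0 ∧ ∀ n, s (n + 1) = s n + if 0 ≤ x n ∧ s n + x n ≤ r then x n else 0 :=
    ⟨fun n => n.rec 0 fun n t => t + if 0 ≤ x n ∧ t + x n ≤ r then x n else 0, rfl, fun _ => rfl⟩
  have m : Monotone s := monotone_nat_of_le_succ fun n => by rw [s1]; split_ifs with h <;> simp [h]
  have b : ∀ n, s n ≤ r := fun n => by
    induction n with
    | zero => rwa [s0]
    | succ n ih => rw [s1]; split_ifs with h; exacts [h.2, by simpa]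
  have bd : BddAbove (range s) := ⟨r, by rintro _ ⟨n, rfl⟩; exact b n⟩
  have e : ⨆ n, s n = r := (ciSup_le b).antisymm (not_lt.1 fun l => h <| by
    obtain ⟨M, hM⟩ := eventually_atTop.1 (h0.eventually (gt_mem_nhds (sub_pos.2 l)))
    refine (summable_nat_add_iff M).1 (summable_of_sum_range_le (c := r - s M) (fun _ => le_max_right _ _) fun k => ?_)
    refine le_trans (le_of_eq ?_) (sub_le_sub_right (b (k + M)) _)
    induction k with
    | zero => simp
    | succ k ih =>
      rw [Finset.sum_range_succ, ih, show k + 1 + M = k + M + 1 by omega, s1]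
      have := hM (k + M) (by omega); have := le_ciSup bd (k + M)
      rcases le_or_gt 0 (x (k + M)) with g | g
      · rw [if_pos ⟨g, by linarith⟩, max_eq_left g]; ring
      · rw [if_neg fun k => k.1.not_gt g, max_eq_right g.le]; ring)
  refine ⟨{n | 0 ≤ x n ∧ s n + x n ≤ r}, (e ▸ tendsto_atTop_ciSup m bd).congr fun N => ?_⟩
  induction N with
  | zero => simpa
  | succ N ih => rw [Finset.sum_range_succ, ← ih, s1]; simp [indicator_apply]

theorem l1 {s} (hs : Sums x univ s) (h : IsMeagre (Ach univ x)) : Summable fun n => |x n| := by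
  have h0 : Tendsto x atTop (𝓝 0) := by
    have := ((tendsto_add_atTop_iff_nat 1).2 hs).sub hs
    simpa [Finset.sum_range_succ] using this
  by_contra g
  by_cases p : Summable fun n => max (x n) 0
  · have q : ¬Summable fun n => max ((-x) n) 0 := fun q => g ((p.add q).congr fun n => max_zero_add_max_neg_zero_eq_abs_self _)
    refine not_isMeagre_of_isOpen isOpen_Iio (nonempty_Iio (a := (0 : ℝ))) (h.mono fun r hr => ?_)
    obtain ⟨B, hB⟩ := greedy (x := -x) (by have := h0.neg; rwa [neg_zero] at this) q (neg_nonneg.2 (le_of_lt hr))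
    refine ⟨B, trivial, ?_⟩
    simpa [Sums, indicator_neg'] using Tendsto.neg hB
  · refine not_isMeagre_of_isOpen isOpen_Ioi (nonempty_Ioi (a := (0 : ℝ))) (h.mono fun r hr => ?_)
    obtain ⟨B, hB⟩ := greedy h0 p (le_of_lt hr)
    exact ⟨B, trivial, hB⟩

theorem sm (h : Summable fun n => |x n|) (B : Set ℕ) : Summable (B.indicator x) := h.of_abs.indicator B

theorem sums_iff (h : Summable fun n => |x n|) {B s} : Sums x B s ↔ ∑' n, B.indicator x n = s :=
  ⟨tendsto_nhds_unique (sm h B).hasSum.tendsto_sum_nat, fun e => e ▸ (sm h B).hasSum.tendsto_sum_nat⟩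

theorem cpt (h : Summable fun n => |x n|) : IsCompact (Ach univ x) := by
  have : Continuous fun b : ℕ → Bool => ∑' n, {n | b n}.indicator x n := continuous_tsum (fun n => by
    simp only [indicator_apply, mem_setOf]
    exact (continuous_of_discreteTopology (f := fun c : Bool => if c then x n else 0)).comp (continuous_apply n))
    h fun n b => norm_indicator_le_norm_self _ _
  convert isCompact_range this using 1
  classical
  ext s; exact ⟨fun ⟨B, _, e⟩ => ⟨fun n => decide (n ∈ B), by simpa using (sums_iff h).1 e⟩,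
    fun ⟨b, e⟩ => ⟨_, trivial, (sums_iff h).2 e⟩⟩

theorem gap (h : Summable fun n => |x n|) {a a' δ : ℝ} (hδ : 0 < δ) (ha : ∀ t ∈ Ach univ x, a - δ < t → a ≤ t)
    (m' : a' ∈ Ach univ x) (ha' : ∀ t ∈ Ach univ x, a' - δ < t → a' ≤ t) :
    ∃ ε > 0, ∀ J, Tl J → ∀ t, 0 ≤ t → t < ε → a + t ∈ Ach J x → a' + t ∈ Ach J x := by
  obtain ⟨M, hM⟩ := ((tendsto_sum_nat_add fun n => |x n|).eventually (gt_mem_nhds hδ)).exists
  let N : Set ℕ := {n | x n < 0}
  let q : Set ℕ → ℝ := fun B => ∑' n, N.indicator x n + (pre x M B - pre x M N)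
  have qA : ∀ B, q B ∈ Ach univ x := fun B => ⟨_, trivial, sp ((sums_iff h).2 rfl) M B⟩
  have qb : ∀ B s, Sums x B s → q B ≤ s ∧ s - δ < q B := fun B s e => by
    have s1 := fun B => (summable_nat_add_iff M).2 (sm h B)
    have d : s - q B = ∑' n, (B.indicator x (n + M) - N.indicator x (n + M)) := by
      rw [(s1 B).tsum_sub (s1 N), ← (sums_iff h).1 e]
      simp only [q, pre, ← (sm h B).sum_add_tsum_nat_add M, ← (sm h N).sum_add_tsum_nat_add M]; ring
    have k : ∀ n, 0 ≤ B.indicator x n - N.indicator x n ∧ B.indicator x n - N.indicator x n ≤ |x n| := fun n => by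
      rcases lt_or_ge (x n) 0 with g | g <;> by_cases b : n ∈ B
      · simp [N, b, g]
      · simp [N, b, g, g.le, abs_of_neg]
      · simp [N, b, g, g.not_gt, abs_of_nonneg]
      · simp [N, b, g.not_gt]
    have k1 : 0 ≤ ∑' n, (B.indicator x (n + M) - N.indicator x (n + M)) := tsum_nonneg fun n => (k (n + M)).1
    have k2 := ((s1 B).sub (s1 N)).tsum_le_tsum (fun n => (k (n + M)).2) ((summable_nat_add_iff M).2 h)
    constructor <;> linarith
  have fin : (range q).Finite := ((Finset.range M).powerset.finite_toSet.image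
    fun F => ∑' n, N.indicator x n + (∑ n ∈ F, x n - pre x M N)).subset (by
      rintro _ ⟨B, rfl⟩
      obtain ⟨F, m, e⟩ := pre_eq (x := x) M B
      exact ⟨F, m, by simp only [q, e]⟩)
  obtain ⟨ε, hε, e⟩ := Metric.isOpen_iff.1 (fin.diff (t := {a})).isClosed.isOpen_compl a (by simp)
  refine ⟨ε, hε, fun J hJ t t0 t1 ⟨B, hB, s⟩ => ?_⟩
  obtain ⟨C, -, hC⟩ := m'
  have e1 : q C = a' := (qb C _ hC).1.antisymm (ha' _ (qA C) (qb C _ hC).2)
  have e2 : q B = a := by
    by_contra g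
    obtain ⟨u, v⟩ := qb B _ s
    have := ha _ (qA B) (by linarith)
    exact e (show q B ∈ Metric.ball a ε by rw [Real.ball_eq_Ioo]; constructor <;> linarith) ⟨⟨B, rfl⟩, g⟩
  refine ⟨_, hJ B hB C M, ?_⟩
  convert sp s M C using 1
  simp only [q] at e1 e2; linarith

theorem lft {A : Set ℝ} (hA : IsCompact A) (h : IsMeagre A) {U : Set A} (hU : IsOpen U) (ne : U.Nonempty) :
    ∃ a ∈ A, ∃ δ > 0, (∀ t ∈ A, a - δ < t → a ≤ t) ∧ ∀ t : A, a ≤ t → t < a + δ → t ∈ U := by
  obtain ⟨O, hO, rfl⟩ := isOpen_induced_iff.1 hU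
  obtain ⟨c, hc⟩ := ne
  obtain ⟨ε, hε, e⟩ := Metric.isOpen_iff.1 hO c hc
  rw [Real.ball_eq_Ioo] at e
  obtain ⟨t, ht, tA⟩ := not_subset.1 fun k : Ioo (c - ε) c ⊆ A =>
    not_isMeagre_of_isOpen isOpen_Ioo (nonempty_Ioo.2 (by linarith)) (h.mono k)
  obtain ⟨a, ⟨aA, a1, a2⟩, ha⟩ := (hA.inter_right isClosed_Icc).exists_isLeast ⟨c, c.2, ht.2.le, le_rfl⟩
  have : t < a := a1.lt_of_ne fun k => tA (k ▸ aA)
  refine ⟨a, aA, min (a - t) ε, lt_min (by linarith) hε, fun u uA hu => ?_, fun u u1 u2 => e ⟨by linarith [ht.1], ?_⟩⟩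
  · rcases le_total u c with g | g
    exacts [ha ⟨uA, by linarith [min_le_left (a - t) ε], g⟩, a2.trans g]
  · linarith [min_le_right (a - t) ε]

theorem main {I : Set (Set ℕ)} (hI : IsIdeal I) {s} (hs : Sums x univ s)
    (hB : BaireMeasurableSet (Subtype.val ⁻¹' Ach I x : Set (Ach univ x))) :
    IsMeagre (Subtype.val ⁻¹' Ach I x : Set (Ach univ x)) ∨ (Subtype.val ⁻¹' Ach I x : Set (Ach univ x)) ∈ residual _ := by
  have tI : Tl I := fun B h C M => hI.union _ (hI.fin _ ((finite_Iio M).inter_of_right _)) _ (hI.sub B h _ inter_subset_left)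
  have tU : Tl univ := fun _ _ _ _ => trivial
  obtain ⟨U, hU, e⟩ := hB.residualEq_isOpen
  by_cases d : Dense U
  · exact Or.inr (by filter_upwards [e, residual_of_dense_open hU d] with u a b using (iff_of_eq a).2 b)
  left
  obtain ⟨V, hV, ne, dj⟩ : ∃ V, IsOpen V ∧ V.Nonempty ∧ ¬(V ∩ U).Nonempty := by
    simpa only [dense_iff_inter_open, not_forall, exists_prop] using d
  have bad : IsMeagre {u : Ach univ x | ¬(u.1 ∈ Ach I x ↔ u ∈ U)} := by
    rw [IsMeagre]; filter_upwards [e] with u hu; exact not_not.2 (iff_of_eq hu)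
  by_cases hA : IsMeagre (Ach univ x)
  · rcases U.eq_empty_or_nonempty with rfl | nU
    · exact bad.mono fun u hu => by simpa using hu
    exfalso
    have h := l1 hs hA
    obtain ⟨a, m, δ1, p1, g1, u1⟩ := lft (cpt h) hA hU nU
    obtain ⟨a', m', δ2, p2, g2, u2⟩ := lft (cpt h) hA hV ne
    have d1 := min_le_left δ1 δ2; have d2 := min_le_right δ1 δ2; have d0 := lt_min p1 p2
    generalize min δ1 δ2 = δ at *
    have G1 : ∀ t ∈ Ach univ x, a - δ < t → a ≤ t := fun t h k => g1 t h (by linarith)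
    have G2 : ∀ t ∈ Ach univ x, a' - δ < t → a' ≤ t := fun t h k => g2 t h (by linarith)
    obtain ⟨ε1, q1, f1⟩ := gap h d0 G1 m' G2
    obtain ⟨ε2, q2, f2⟩ := gap h d0 G2 m G1
    obtain ⟨ε, e0, e1, e2, e3⟩ : ∃ ε, 0 < ε ∧ ε ≤ ε1 ∧ ε ≤ ε2 ∧ ε ≤ δ := ⟨min ε1 (min ε2 δ), by positivity,
      min_le_left _ _, (min_le_right _ _).trans (min_le_left _ _), (min_le_right _ _).trans (min_le_right _ _)⟩
    let W : Set (Ach univ x) := Subtype.val ⁻¹' Ioo (a - δ) (a + ε)
    have hW : IsOpen W := isOpen_Ioo.preimage continuous_subtype_val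
    have tr : ∀ J, Tl J → ∀ u : W, u.1.1 ∈ Ach J x → a' + (u.1.1 - a) ∈ Ach J x := fun J hJ u k =>
      f1 J hJ _ (sub_nonneg.2 (G1 _ u.1.2 u.2.1)) (by linarith [u.2.2]) (by simpa using k)
    let φ : W → Ach univ x := fun u => ⟨_, tr univ tU u u.1.2⟩
    have c : Continuous φ := by fun_prop
    have o : IsOpenMap φ := fun Q hQ => by
      obtain ⟨Q1, h1, rfl⟩ := isOpen_induced_iff.1 hQ
      obtain ⟨O, hO, rfl⟩ := isOpen_induced_iff.1 h1
      convert ((hO.inter (isOpen_Ioo (a := a - δ) (b := a + ε))).preimage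
        (show Continuous fun v : Ach univ x => a + (v.1 - a') by fun_prop)) using 1
      ext v; constructor
      · rintro ⟨u, hu, rfl⟩; simpa [φ] using ⟨hu, u.2⟩
      · rintro ⟨v1, v2, v3⟩
        exact ⟨⟨⟨_, f2 univ tU _ (sub_nonneg.2 (G2 _ v.2 (by linarith))) (by linarith) (by simp)⟩, v2, v3⟩, v1,
          Subtype.ext (by simp [φ])⟩
    have := isCompact_iff_compactSpace.1 (cpt h)
    have := hW.baireSpace
    refine not_isMeagre_of_isOpen (X := W) isOpen_univ ⟨⟨⟨a, m⟩, by constructor <;> linarith⟩, trivial⟩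
      (((bad.preimage_of_isOpenMap continuous_subtype_val hW.isOpenMap_subtype_val).union
        (bad.preimage_of_isOpenMap c o)).mono fun u _ => ?_)
    have k := G1 _ u.1.2 u.2.1
    by_cases i : u.1.1 ∈ Ach I x
    · exact Or.inr fun j => dj ⟨φ u, u2 _ (by simpa [φ] using k) (by simp only [φ]; linarith [u.2.2]), j.1 (tr I tI u i)⟩
    · exact Or.inl fun j => i (j.2 (u1 _ k (by linarith [u.2.2])))
  · obtain ⟨O, hO, rfl⟩ := isOpen_induced_iff.1 hV
    obtain ⟨c, hc⟩ := ne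
    have := K tI hO hc c.2 (bad.image_val.mono (by
      rintro t ⟨⟨B, h1, h2⟩, h3⟩
      exact ⟨⟨t, B, trivial, h2⟩, fun j => dj ⟨⟨t, B, trivial, h2⟩, h3, j.1 ⟨B, h1, h2⟩⟩, rfl⟩))
    obtain ⟨S, h1, h2, h3⟩ := isMeagre_iff_countable_union_isNowhereDense.1 this
    refine (isMeagre_biUnion h2 (f := fun N => Subtype.val ⁻¹' closure N) fun N hN => ?_).mono fun u hu => ?_
    · refine ((isClosed_closure.preimage continuous_subtype_val).isNowhereDense_iff.2
        (eq_empty_of_forall_notMem fun u hu => hA ?_)).isMeagre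
      obtain ⟨Q, q1, q2, q3⟩ := mem_interior.1 hu
      obtain ⟨O, hO, rfl⟩ := isOpen_induced_iff.1 q2
      exact K tU hO q3 u.2 ((h1 N hN).closure.isMeagre.mono fun t ht => q1 (a := ⟨t, ht.1⟩) ht.2)
    · obtain ⟨N, hN, k⟩ := h3 hu
      exact mem_biUnion hN (subset_closure k)

end Pool.Agent.H95.Ias
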