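import Mathlib

namespace Pool.Agent.H95.Ias
open Filter Topology Set

structure IsIdeal (I : Set (Set ℕ)) : Prop where
  union : ∀ A ∈ I, ∀ B ∈ I, A ∪ B ∈ I
  sub : ∀ A ∈ I, ∀ B ⊆ A, B ∈ I
  proper : univ ∉ I
  fin : ∀ A : Set ℕ, A.Finite → A ∈ I

/-- the subseries of x along B converges to s -/
def Sums (x : ℕ → ℝ) (B : Set ℕ) (s : ℝ) : Prop :=
  Tendsto (fun N => ∑ n ∈ Finset.range N, B.indicator x n) atTop (𝓝 s)

/-- sums of the convergent subseries along members of J -/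
def Ach (J : Set (Set ℕ)) (x : ℕ → ℝ) : Set ℝ := {s | ∃ B ∈ J, Sums x B s}

end Pool.Agent.H95.Ias
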