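import Pool.Agent.H95.IenvDefs

namespace Pool.Agent.H95.Ienv
open Filter Metric Set Topology MeasureTheory Cardinal ZeroAtInfty BoundedContinuousFunction

/-- Ulam's theorem on the first uncountable cardinal -/
theorem ulam {T : Type} (hT : #T ≤ ℵ₁) (μ : @Measure T ⊤) [IsFiniteMeasure μ] (h : ∀ x, μ {x} = 0) :
    μ univ = 0 := by
  letI : MeasurableSpace T := ⊤
  haveI : NullSingletonClass μ := ⟨h⟩
  rcases em (Countable T) with hc | hc
  · exact countable_univ.measure_zero μ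
  obtain ⟨e⟩ := (Cardinal.le_def _ _).1 (hT.trans_eq (mk_ord_toType _).symm)
  have c : ∀ β, {α | e α < e β}.Countable := fun β =>
    ((countable_iff_lt_aleph_one _).2 (mk_Iio_toType_ord_lt (e β))).preimage e.injective
  choose f hf using fun β => countable_iff_exists_injOn.1 (c β)
  have := countable_iUnion fun n : ℕ => Measure.countable_meas_pos_of_disjoint_iUnion (μ := μ)
    (As := fun α => {β | e α < e β ∧ f β α = n}) (fun _ => trivial) fun a b hab =>
      disjoint_left.2 fun β h1 h2 => hab (hf β h1.1 h2.1 (h1.2.trans h2.2.symm))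
  obtain ⟨α, hα⟩ : ∃ α, α ∉ ⋃ n : ℕ, {α | 0 < μ {β | e α < e β ∧ f β α = n}} := by
    by_contra! hn; exact hc (countable_univ_iff.1 (eq_univ_of_forall hn ▸ this))
  refine measure_mono_null (t := (⋃ n : ℕ, {β | e α < e β ∧ f β α = n}) ∪ insert α {β | e β < e α})
    (fun β _ => ?_) (measure_union_null (measure_iUnion_null fun n => ?_) (((c α).insert α).measure_zero μ))
  · rcases lt_trichotomy (e α) (e β) with h | h | h
    · exact Or.inl (mem_iUnion.2 ⟨_, h, rfl⟩)
    · exact Or.inr (Or.inl (e.injective h).symm)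
    · exact Or.inr (Or.inr h)
  · simpa using fun h => hα (mem_iUnion.2 ⟨n, h⟩)

section gen
variable {X : Type} [NormedAddCommGroup X] [NormedSpace ℝ X] {A : Set (StrongDual ℝ X)} {ξ : StrongDual ℝ X}

theorem cvx (x : X) (c : ℝ) : Convex ℝ {ζ : StrongDual ℝ X | c ≤ ζ x} :=
  convex_halfSpace_ge ⟨fun _ _ => rfl, fun _ _ => rfl⟩ c

theorem wco_le (h : ξ ∈ wco A) {x : X} {c : ℝ} (hc : ∀ b ∈ A, c ≤ b x) : c ≤ ξ x :=
  closure_minimal (t := {η : WeakDual ℝ X | c ≤ η x})
    (by rintro _ ⟨b, hb, rfl⟩; exact convexHull_min hc (cvx x c) hb)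
    (isClosed_le continuous_const (WeakDual.eval_continuous x)) h

theorem wco_eq (h : ξ ∈ wco A) {x : X} {c : ℝ} (hc : ∀ b ∈ A, b x = c) : ξ x = c := by
  have := wco_le h (x := -x) (c := -c) fun b hb => by simp [hc b hb]
  exact le_antisymm (by simpa using this) (wco_le h fun b hb => (hc b hb).ge)

theorem I_le (h : ξ ∈ Ienv A) {x : X} {c : ℝ} (hc : ∀ b ∈ A, c ≤ b x) : c ≤ ξ x :=
  closure_minimal (convexHull_min (iUnion_subset fun _ _ h => wco_le h hc) (cvx x c))
    (isClosed_le continuous_const (ContinuousLinearMap.apply ℝ ℝ x).continuous) (h (fun _ => A) (iUnion_const A))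

theorem I_eq (h : ξ ∈ Ienv A) {x : X} {c : ℝ} (hc : ∀ b ∈ A, b x = c) : ξ x = c := by
  have := I_le h (x := -x) (c := -c) fun b hb => by simp [hc b hb]
  exact le_antisymm (by simpa using this) (I_le h fun b hb => (hc b hb).ge)

theorem I_lim (h : ξ ∈ Ienv A) {x : ℕ → X} {M : ℝ} (hM : ∀ k, ‖x k‖ ≤ M)
    (hc : ∀ b ∈ A, ∀ᶠ k in atTop, b (x k) = 1) : Tendsto (fun k => ξ (x k)) atTop (𝓝 1) := by
  refine closure_minimal (t := {ζ : StrongDual ℝ X | Tendsto (fun k => ζ (x k)) atTop (𝓝 1)})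
    (convexHull_min (iUnion_subset fun j ζ h => ?_) fun a ha b hb s t _ _ e => ?_) ?_
    (h (fun j => {b ∈ A | ∀ k ≥ j, b (x k) = 1}) ?_)
  · exact tendsto_const_nhds.congr' ((eventually_ge_atTop j).mono fun k hk =>
      (wco_eq h fun b hb => hb.2 k hk).symm)
  · simpa [e] using (Tendsto.const_mul s ha).add (Tendsto.const_mul t hb)
  · refine Equicontinuous.isClosed_setOf_tendsto (LipschitzWith.uniformEquicontinuous _ M.toNNReal
      fun k => LipschitzWith.of_dist_le' fun a b => ?_).equicontinuous continuous_const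
    rw [dist_eq_norm, dist_eq_norm, mul_comm]
    exact ((a - b).le_opNorm _).trans (by gcongr; exact hM k)
  · exact Subset.antisymm (iUnion_subset fun _ _ h => h.1) fun b hb =>
      mem_iUnion.2 ((eventually_atTop.1 (hc b hb)).imp fun j hj => ⟨hb, hj⟩)

theorem sub_I : A ⊆ Ienv A := fun a ha C hC => by
  obtain ⟨k, hk⟩ := mem_iUnion.1 (hC ▸ ha)
  have : a ∈ wco (C k) := subset_closure (X := WeakDual ℝ X) ⟨a, subset_convexHull _ _ hk, rfl⟩
  exact subset_closure (subset_convexHull _ _ (mem_iUnion.2 ⟨k, this⟩))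
end gen

def T : Type := ℕ × (ℵ₁ : Cardinal.{0}).ord.ToType
instance : TopologicalSpace T := ⊥
instance : DiscreteTopology T := ⟨rfl⟩
noncomputable instance : DecidableEq T := Classical.decEq _
instance : Uncountable (ℵ₁ : Cardinal.{0}).ord.ToType := aleph0_lt_mk_iff.1 (by simp)
theorem cT : #T ≤ ℵ₁ := by simp [T]

abbrev X : Type := C₀(T, ℝ) × (T →ᵇ ℝ)

noncomputable def a (γ : T) : StrongDual ℝ X := LinearMap.mkContinuous
  ⟨⟨fun x => (γ.1 + 1) * x.1 γ + (γ.1 + 1 : ℝ)⁻¹ * x.2 γ, fun x y => by simp; ring⟩, fun c x => by simp; ring⟩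
  (γ.1 + 1 + (γ.1 + 1 : ℝ)⁻¹) fun x => by
    refine (norm_add_le _ _).trans ?_
    rw [norm_mul, norm_mul, add_mul, Real.norm_of_nonneg (by positivity),
      Real.norm_of_nonneg (r := (γ.1 + 1 : ℝ)⁻¹) (by positivity)]
    gcongr
    exacts [(x.1.toBCF.norm_coe_le_norm γ).trans (norm_fst_le x), (x.2.norm_coe_le_norm γ).trans (norm_snd_le x)]

theorem a_le (γ : T) : ‖a γ‖ ≤ γ.1 + 1 + (γ.1 + 1 : ℝ)⁻¹ := LinearMap.mkContinuous_norm_le _ (by positivity) _

theorem a_app (γ : T) (x : X) : a γ x = (γ.1 + 1) * x.1 γ + (γ.1 + 1 : ℝ)⁻¹ * x.2 γ := rfl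

noncomputable def e (F : Finset T) : X :=
  (⟨⟨(F : Set T).indicator 1, continuous_of_discreteTopology⟩, by
    rw [cocompact_eq_cofinite]
    exact tendsto_const_nhds.congr' (F.eventually_cofinite_notMem.mono fun x hx => by simp [hx])⟩, 0)

theorem e_le (F : Finset T) : ‖e F‖ ≤ 1 := by
  refine max_le ((BoundedContinuousFunction.norm_le zero_le_one).2 fun x => ?_) (by simp [e])
  exact (norm_indicator_le_norm_self _ x).trans (by simp)

theorem a_e (γ : T) (F : Finset T) : a γ (e F) = (γ.1 + 1) * (F : Set T).indicator 1 γ := by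
  simp [a_app, e]

noncomputable def y (N : ℕ) (B : Set T) : X :=
  (0, ofNormedAddCommGroupDiscrete (B.indicator fun γ => min γ.1 N + 1) (N + 1) fun γ =>
    (norm_indicator_le_norm_self _ γ).trans (by
      rw [Real.norm_of_nonneg (by positivity)]; gcongr; exact min_le_right _ _))

theorem y_le (N : ℕ) (B : Set T) : ‖y N B‖ ≤ N + 1 :=
  max_le (by simp [y]; positivity) ((BoundedContinuousFunction.norm_le (by positivity)).2 fun γ =>
    (norm_indicator_le_norm_self (fun γ : T => ((min γ.1 N : ℕ) + 1 : ℝ)) γ).trans (by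
      rw [Real.norm_of_nonneg (by positivity)]; gcongr; exact min_le_right _ _))

theorem a_y {N : ℕ} {γ : T} (h : γ.1 ≤ N) (B : Set T) : a γ (y N B) = B.indicator 1 γ := by
  have : (γ.1 : ℝ) ≤ N := by exact_mod_cast h
  have : (γ.1 + 1 : ℝ) ≠ 0 := by positivity
  by_cases hB : γ ∈ B <;> simp [a_app, y, *]

theorem y_add (N : ℕ) {B C : Set T} (h : Disjoint B C) : y N (B ∪ C) = y N B + y N C :=
  Prod.ext (add_zero _).symm (BoundedContinuousFunction.ext (congrFun (indicator_union_of_disjoint h _)))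

theorem key {N : ℕ} {S : Set T} (hS : ∀ γ ∈ S, γ.1 ≤ N) {ξ : StrongDual ℝ X} (h : ξ ∈ Ienv (a '' S)) :
    1 ≤ ‖ξ‖ := by
  letI : MeasurableSpace T := ⊤
  have p : ∀ B, 0 ≤ ξ (y N B) := fun B => I_le h (by
    rintro _ ⟨γ, hγ, rfl⟩; rw [a_y (hS γ hγ)]; exact indicator_nonneg (fun _ _ => zero_le_one) _)
  have u : ξ (y N univ) = 1 := I_eq h (by rintro _ ⟨γ, hγ, rfl⟩; simp [a_y (hS γ hγ)])
  have z : ξ (y N ∅) = 0 := I_eq h (by rintro _ ⟨γ, hγ, rfl⟩; simp [a_y (hS γ hγ)])
  have hs : ∀ f : ℕ → Set T, Pairwise (Function.onFun Disjoint f) →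
      HasSum (fun i => ξ (y N (f i))) (ξ (y N (⋃ i, f i))) := fun f hf => by
    have fa : ∀ k, ξ (y N (⋃ i ∈ Finset.range k, f i)) = ∑ i ∈ Finset.range k, ξ (y N (f i)) := fun k => by
      induction k with
      | zero => simpa using z
      | succ k ih =>
        rw [Finset.sum_range_succ_comm, Finset.range_add_one, Finset.set_biUnion_insert, y_add, map_add, ih]
        exact disjoint_iUnion₂_right.2 fun i hi => hf (Finset.mem_range.1 hi).ne'
    have := (I_lim h (fun k => y_le N ((⋃ i ∈ Finset.range k, f i) ∪ (⋃ i, f i)ᶜ)) (by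
      rintro _ ⟨γ, hγ, rfl⟩
      simp only [a_y (hS γ hγ)]
      by_cases hg : γ ∈ ⋃ i, f i
      · obtain ⟨i, hi⟩ := mem_iUnion.1 hg
        exact (eventually_gt_atTop i).mono fun k hk =>
          indicator_of_mem (mem_union_left _ (mem_iUnion₂.2 ⟨i, Finset.mem_range.2 hk, hi⟩)) _
      · exact Eventually.of_forall fun k => indicator_of_mem (mem_union_right _ hg) _)).sub_const (ξ (y N (⋃ i, f i)ᶜ))
    rw [← u, ← union_compl_self (⋃ i, f i), y_add N disjoint_compl_right, map_add, add_sub_cancel_right] at this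
    refine (hasSum_iff_tendsto_nat_of_nonneg (fun _ => p _) _).2 (this.congr fun k => ?_)
    rw [y_add N (disjoint_compl_right.mono_left (iUnion₂_subset fun i _ => subset_iUnion f i)), map_add,
      add_sub_cancel_right, fa]
  let μ : Measure T := Measure.ofMeasurable (fun B _ => ENNReal.ofReal (ξ (y N B))) (by simp [z])
    fun f _ hf => by rw [← (hs f hf).tsum_eq, ENNReal.ofReal_tsum_of_nonneg (fun _ => p _) (hs f hf).summable]
  have hμ : ∀ B, μ B = ENNReal.ofReal (ξ (y N B)) := fun B => Measure.ofMeasurable_apply B trivial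
  haveI : IsProbabilityMeasure μ := ⟨by simp [hμ, u]⟩
  have cD : {γ | 0 < μ {γ}}.Countable := Measure.countable_meas_pos_of_disjoint_iUnion (fun _ => trivial)
    fun a b h => disjoint_singleton.2 h
  have nD := ulam cT (μ.restrict {γ | 0 < μ {γ}}ᶜ) fun γ => by
    rw [Measure.restrict_apply MeasurableSpace.measurableSet_top]
    by_cases hg : 0 < μ {γ}
    · rw [singleton_inter_of_notMem (not_not.2 hg), measure_empty]
    · exact measure_mono_null inter_subset_left (by simpa using hg)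
  rw [Measure.restrict_apply_univ, prob_compl_eq_zero_iff MeasurableSpace.measurableSet_top, ← Measure.restrict_apply_univ,
    ← lintegral_one, lintegral_countable _ cD] at nD
  rw [← ENNReal.ofReal_le_ofReal_iff (norm_nonneg ξ), ENNReal.ofReal_one, ← nD, ENNReal.tsum_eq_iSup_sum]
  refine iSup_le fun F => ?_
  simp only [one_mul]
  refine (Finset.sum_map F (Function.Embedding.subtype _) fun γ => μ {γ}).symm.trans_le ?_
  rw [sum_measure_singleton, hμ]
  refine ENNReal.ofReal_le_ofReal ?_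
  generalize F.map _ = G
  have := I_le h (x := e G - y N G) (c := 0) (by
    rintro _ ⟨γ, hγ, rfl⟩
    rw [map_sub, a_y (hS γ hγ), a_e, add_mul, one_mul, add_sub_cancel_right]
    exact mul_nonneg (by positivity) (indicator_nonneg (fun _ _ => zero_le_one) _))
  rw [map_sub, sub_nonneg] at this
  exact this.trans ((le_abs_self _).trans (ξ.unit_le_opNorm _ (e_le G)))

theorem small {n : ℕ} {B : Set (StrongDual ℝ X)} {S : Set T} (hS : S.Infinite) (h1 : ∀ γ ∈ S, γ.1 = n)
    (h2 : ∀ γ ∈ S, a γ ∈ B) : ∃ ζ ∈ wco B, ‖ζ‖ ≤ 1 / (n + 1) := by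
  haveI := hS.cofinite_inf_principal_neBot
  let U := Ultrafilter.of (cofinite ⊓ 𝓟 S)
  have u1 : ∀ᶠ γ in U, γ ∈ S := (Ultrafilter.of_le _).trans inf_le_right (mem_principal_self S)
  obtain ⟨ζ, -, hζ⟩ := (WeakDual.isCompact_closedBall (0 : StrongDual ℝ X) (n + 1 + (n + 1 : ℝ)⁻¹)).ultrafilter_le_nhds
    (U.map fun γ => StrongDual.toWeakDual (a γ)) (le_principal_iff.2 (u1.mono fun γ hγ =>
      mem_closedBall_zero_iff.2 (h1 γ hγ ▸ a_le γ)))
  refine ⟨WeakDual.toStrongDual ζ, mem_closure_of_tendsto (X := WeakDual ℝ X) hζ (u1.mono fun γ hγ =>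
    ⟨_, subset_convexHull _ _ (h2 γ hγ), rfl⟩), ContinuousLinearMap.opNorm_le_bound _ (by positivity) fun x => ?_⟩
  have t1 : Tendsto (fun γ => x.1 γ) U (𝓝 0) := (zero_at_infty x.1).mono_left
    (cocompact_eq_cofinite T ▸ (Ultrafilter.of_le _).trans inf_le_left)
  have t2 := (((WeakDual.eval_continuous x).tendsto ζ).comp hζ).sub (t1.const_mul (n + 1 : ℝ))
  rw [mul_zero, sub_zero] at t2
  refine le_of_tendsto t2.norm (u1.mono fun γ hγ => ?_)
  change ‖a γ x - _‖ ≤ _
  rw [a_app, h1 γ hγ, add_sub_cancel_left, norm_mul, one_div, Real.norm_of_nonneg (by positivity)]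
  gcongr
  exact (x.2.norm_coe_le_norm γ).trans (norm_snd_le x)

theorem main1 : ∃ (X : Type) (_ : NormedAddCommGroup X) (_ : NormedSpace ℝ X), CompleteSpace X ∧
    ∃ A : Set (StrongDual ℝ X), ¬ Ienv A ⊆ closure (Ienvb A) := by
  refine ⟨X, inferInstance, inferInstance, inferInstance, range a, fun h => ?_⟩
  have h0 : 0 ∈ Ienv (range a) := fun C hC => Metric.mem_closure_iff.2 fun ε hε => by
    obtain ⟨n, hn⟩ := exists_nat_one_div_lt hε
    obtain ⟨k, hk⟩ : ∃ k, {α | a (n, α) ∈ C k}.Infinite := by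
      by_contra! hf
      exact not_countable_univ (α := (ℵ₁ : Cardinal.{0}).ord.ToType) ((countable_iUnion fun k => (hf k).countable).mono fun α _ =>
        (mem_iUnion.1 (hC.ge (mem_range_self (f := a) (n, α)))).elim fun k hk => mem_iUnion.2 ⟨k, hk⟩)
    obtain ⟨ζ, h1, h2⟩ := small (n := n) (B := C k) (hk.image (Prod.mk_right_injective n).injOn)
      (by rintro _ ⟨α, -, rfl⟩; rfl) (by rintro _ ⟨α, h, rfl⟩; exact h)
    exact ⟨ζ, subset_convexHull _ _ (mem_iUnion.2 ⟨k, h1⟩), by simpa using h2.trans_lt hn⟩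
  have := closure_minimal (t := {ξ : StrongDual ℝ X | 1 ≤ ‖ξ‖}) (iUnion_subset fun N ξ hξ => key (N := N)
    (S := a ⁻¹' closedBall 0 N) (fun γ hγ => ?_) (by rwa [image_preimage_eq_range_inter]))
    (isClosed_le continuous_const (continuous_norm (E := StrongDual ℝ X))) (h h0)
  · exact absurd (this.trans_eq (norm_zero (E := StrongDual ℝ X))) (by norm_num)
  · have := ((a γ).unit_le_opNorm _ (e_le {γ})).trans (mem_closedBall_zero_iff.1 hγ)
    rw [a_e, indicator_of_mem (by simp), Pi.one_apply, mul_one, Real.norm_of_nonneg (by positivity)] at this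
    exact_mod_cast (lt_add_one _).le.trans this

theorem main2 (c : ℝ) (hc : 1 ≤ c) : ∃ (X : Type) (_ : NormedAddCommGroup X) (_ : NormedSpace ℝ X),
    CompleteSpace X ∧ ∃ (A : Set (StrongDual ℝ X)) (η : StrongDual ℝ X), A.Nonempty ∧ Bornology.IsBounded A ∧
      c * d2 A η < infDist η (Ienv A) := by
  obtain ⟨n, hn⟩ := exists_nat_gt c
  have ne : (a '' {γ | γ.1 = n}).Nonempty := ⟨_, (n, Classical.arbitrary _), rfl, rfl⟩
  have bd : ∀ ξ ∈ a '' {γ | γ.1 = n}, ‖ξ‖ ≤ n + 1 + (n + 1 : ℝ)⁻¹ := by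
    rintro _ ⟨γ, rfl, rfl⟩; exact LinearMap.mkContinuous_norm_le _ (by positivity) _
  refine ⟨X, inferInstance, inferInstance, inferInstance, a '' {γ | γ.1 = n}, 0, ne,
    isBounded_iff_forall_norm_le.2 ⟨_, bd⟩, lt_of_lt_of_le ?_ ((le_infDist (ne.mono sub_I)).2 fun ξ hξ =>
      (key (N := n) (fun _ h => le_of_eq h) hξ).trans_eq (by simp))⟩
  refine lt_of_le_of_lt (mul_le_mul_of_nonneg_left (ciSup_le (c := (1 / (n + 1) : ℝ)) fun x => ?_) (by linarith)) ?_
  · have b2 : ∀ ξ ∈ a '' {γ | γ.1 = n}, ∀ k, |ξ (x k)| ≤ n + 1 + (n + 1 : ℝ)⁻¹ := fun ξ h k =>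
      (ξ.unit_le_opNorm _ (mem_closedBall_zero_iff.1 (x k).2)).trans (bd ξ h)
    have cs : (⋃ k, Function.support (x k).1.1).Countable := countable_iUnion fun k =>
      Tendsto.countable_compl_preimage_ker (cocompact_eq_cofinite T ▸ zero_at_infty (x k).1.1) |>.mono
        fun γ hγ => by simpa using hγ
    obtain ⟨α, hα⟩ : ∃ α, ((n, α) : T) ∉ ⋃ k, Function.support (x k).1.1 := by
      by_contra! hf
      exact not_countable_univ ((cs.preimage (Prod.mk_right_injective n)).mono fun α _ => hf α)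
    have lo : -(1 / (n + 1 : ℝ)) ≤ limsup (fun k => a (n, α) (x k)) atTop :=
      le_limsup_of_frequently_le (Frequently.of_forall fun k => by
        have : (x k).1.1 (n, α) = 0 := not_not.1 fun h => hα (mem_iUnion.2 ⟨k, h⟩)
        have b := ((x k).1.2.norm_coe_le_norm (n, α)).trans ((norm_snd_le _).trans (mem_closedBall_zero_iff.1 (x k).2))
        rw [a_app, this, mul_zero, zero_add, one_div, ← mul_neg_one]
        gcongr; exact (abs_le.1 b).1)
        (isBoundedUnder_of ⟨_, fun k => (abs_le.1 (b2 _ ⟨_, rfl, rfl⟩ k)).2⟩)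
    have := lo.trans (le_ciSup (f := fun ξ : a '' {γ | γ.1 = n} => limsup (fun k => ξ.1 (x k)) atTop)
      ⟨_, by
        rintro _ ⟨ξ, rfl⟩
        exact limsup_le_of_le (isCoboundedUnder_le_of_le _ fun k => (abs_le.1 (b2 _ ξ.2 k)).1)
          (Eventually.of_forall fun k => (abs_le.1 (b2 _ ξ.2 k)).2)⟩ ⟨_, (n, α), rfl, rfl⟩)
    simp only [s, ContinuousLinearMap.zero_apply, ciInf_const]; linarith
  · rw [mul_one_div, div_lt_one (by positivity)]; linarith

end Pool.Agent.H95.Ienv
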