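import Mathlib

namespace Pool.Agent.H95.Ienv
open Filter Metric

variable {X : Type} [NormedAddCommGroup X] [NormedSpace ℝ X]

/-- weak-star closure of the convex hull -/
def wco (B : Set (StrongDual ℝ X)) : Set (StrongDual ℝ X) :=
  {ξ | StrongDual.toWeakDual ξ ∈ closure (StrongDual.toWeakDual '' convexHull ℝ B)}

/-- the (I)-envelope -/
def Ienv (A : Set (StrongDual ℝ X)) : Set (StrongDual ℝ X) :=
  {ξ | ∀ C : ℕ → Set (StrongDual ℝ X), ⋃ k, C k = A → ξ ∈ closure (convexHull ℝ (⋃ k, wco (C k)))}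

def Ienvb (A : Set (StrongDual ℝ X)) : Set (StrongDual ℝ X) := ⋃ n : ℕ, Ienv (A ∩ closedBall 0 n)

noncomputable def s (A : Set (StrongDual ℝ X)) (η : StrongDual ℝ X) (x : ℕ → closedBall (0 : X) 1) : ℝ :=
  (⨅ k, η (x k)) - ⨆ ξ : A, limsup (fun k => ξ.1 (x k)) atTop

noncomputable def d2 (A : Set (StrongDual ℝ X)) (η : StrongDual ℝ X) : ℝ := ⨆ x, s A η x

end Pool.Agent.H95.Ienv
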