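import Pool.Agent.H95.IssDefs

namespace Pool.Agent.H95.Iss
open Filter Topology NNReal Set MeasureTheory intervalIntegral ZeroAtInfty ENNReal

abbrev C0 := C₀(ℕ, ℝ)

theorem ab_le (x : C0) (n : ℕ) : |x n| ≤ ‖x‖ := x.toBCF.norm_coe_le_norm n

theorem nrm_le {x : C0} {c : ℝ} (h : ∀ n, |x n| ≤ c) : ‖x‖ ≤ c :=
  (BoundedContinuousFunction.norm_le ((abs_nonneg _).trans (h 0))).2 h

theorem tz (x : C0) : Tendsto (fun n => |x n|) atTop (𝓝 0) := by
  have := (zero_at_infty x).abs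
  rwa [cocompact_eq_atTop, abs_zero] at this

def mk0 (f : ℕ → ℝ) {m : ℕ → ℝ} (hm : Tendsto m atTop (𝓝 0)) (h : ∀ n, |f n| ≤ m n) : C0 :=
  ⟨⟨f, continuous_of_discreteTopology⟩, by rw [cocompact_eq_atTop]; exact squeeze_zero_norm h hm⟩

theorem cont0 {T : Type} [TopologicalSpace T] {f : T → C0} (hc : ∀ n, Continuous fun t => f t n)
    {m : ℕ → ℝ} (hm : Tendsto m atTop (𝓝 0)) (h : ∀ t n, |f t n| ≤ m n) : Continuous f := by
  refine continuous_iff_continuousAt.2 fun t => Metric.tendsto_nhds.2 fun ε hε => ?_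
  obtain ⟨N, hN⟩ := eventually_atTop.1 (hm.eventually (gt_mem_nhds (show 0 < ε / 4 by positivity)))
  have : ∀ᶠ s in 𝓝 t, ∀ n ∈ Finset.range N, dist (f s n) (f t n) < ε / 2 :=
    (eventually_all_finset _).2 fun n _ => Metric.tendsto_nhds.1 (hc n).continuousAt _ (half_pos hε)
  filter_upwards [this] with s hs
  rw [dist_eq_norm]
  refine (nrm_le fun n => ?_).trans_lt (half_lt_self hε)
  change |f s n - f t n| ≤ _
  by_cases hn : n < N
  · exact (hs n (Finset.mem_range.2 hn)).le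
  · linarith [abs_sub (f s n) (f t n), h s n, h t n, hN n (not_lt.1 hn)]

def Adm (u : ℝ≥0 → C0) : Prop :=
  (∀ n, Measurable fun t => u t n) ∧ ∃ m : ℕ → ℝ, Tendsto m atTop (𝓝 0) ∧ ∀ t n, |u t n| ≤ m n

def In : Submodule ℝ (lp (fun _ : ℝ≥0 => C0) ∞) where
  carrier := {u | Adm u}
  zero_mem' := ⟨fun _ => measurable_const, 0, tendsto_const_nhds, fun _ _ => by simp⟩
  add_mem' := fun ⟨a, m, m1, m2⟩ ⟨b, k, k1, k2⟩ => ⟨fun n => (a n).add (b n), fun n => m n + k n,
    by simpa using m1.add k1, fun t n => (abs_add_le _ _).trans (add_le_add (m2 t n) (k2 t n))⟩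
  smul_mem' := fun c _ ⟨a, m, m1, m2⟩ => ⟨fun n => (a n).const_mul c, fun n => |c| * m n,
    by simpa using m1.const_mul |c|, fun t n =>
      (abs_mul _ _).trans_le (mul_le_mul_of_nonneg_left (m2 t n) (abs_nonneg c))⟩

def ι : In →ₗ[ℝ] (ℝ≥0 → C0) where
  toFun u := u.1
  map_add' _ _ := rfl
  map_smul' _ _ := rfl

theorem ι_le (u : In) (t : ℝ≥0) : ‖ι u t‖ ≤ ‖u‖ := lp.norm_apply_le_norm (by simp) u.1 t

theorem exIn {u : ℝ≥0 → C0} (h : Adm u) {c : ℝ} (hc : ∀ t, ‖u t‖ ≤ c) : ∃ v : In, ι v = u ∧ ‖v‖ ≤ c :=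
  ⟨⟨⟨u, memℓp_infty ⟨c, by rintro _ ⟨t, rfl⟩; exact hc t⟩⟩, h⟩, rfl,
    lp.norm_le_of_forall_le ((norm_nonneg _).trans (hc 0)) hc⟩

noncomputable def F (a : ℝ) (g : ℝ≥0 → ℝ) (t : ℝ) : ℝ := ∫ s in (0 : ℝ)..t, a * Real.exp (a * s) * g s.toNNReal

theorem F_int (a : ℝ) {g : ℝ≥0 → ℝ} (hg : Measurable g) {M : ℝ} (h : ∀ t, |g t| ≤ M) (s t : ℝ) :
    IntervalIntegrable (fun s => a * Real.exp (a * s) * g s.toNNReal) volume s t := by
  refine IntervalIntegrable.continuousOn_mul ?_ (by fun_prop)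
  exact (intervalIntegrable_const (c := M)).mono_fun' (hg.comp measurable_real_toNNReal).aestronglyMeasurable
    (Eventually.of_forall fun s => h _)

theorem F_one (a t : ℝ) : ∫ s in (0 : ℝ)..t, a * Real.exp (a * s) = Real.exp (a * t) - 1 := by
  rw [integral_eq_sub_of_hasDerivAt (f := fun s => Real.exp (a * s))
    (fun s _ => (((hasDerivAt_id s).const_mul a).exp).congr_deriv (by simp [mul_comm]))
    (Continuous.intervalIntegrable (by fun_prop) _ _)]
  simp

theorem F_le {a : ℝ} (ha : 0 ≤ a) {g : ℝ≥0 → ℝ} {M : ℝ} (h : ∀ t, |g t| ≤ M) {t : ℝ} (ht : 0 ≤ t) :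
    |F a g t| ≤ (Real.exp (a * t) - 1) * M := by
  rw [← F_one, ← intervalIntegral.integral_mul_const]
  rw [F, ← Real.norm_eq_abs]
  refine norm_integral_le_of_norm_le (g := fun s => a * Real.exp (a * s) * M) ht
    (Eventually.of_forall fun s _ => ?_) (Continuous.intervalIntegrable (by fun_prop) _ _)
  rw [Real.norm_eq_abs, abs_mul, abs_of_nonneg (by positivity)]
  gcongr; exact h _

noncomputable def G (a x : ℝ) (g : ℝ≥0 → ℝ) (t : ℝ) : ℝ := Real.exp (-(a * t)) * (x + F a g t)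

theorem G_le {a : ℝ} (ha : 0 ≤ a) (x : ℝ) {g : ℝ≥0 → ℝ} {M : ℝ} (h : ∀ t, |g t| ≤ M) {t : ℝ} (ht : 0 ≤ t) :
    |G a x g t| ≤ Real.exp (-(a * t)) * |x| + (1 - Real.exp (-(a * t))) * M := by
  rw [G, abs_mul, abs_of_pos (Real.exp_pos _)]
  refine (mul_le_mul_of_nonneg_left ((abs_add_le _ _).trans (add_le_add_right (F_le ha h ht) _))
    (Real.exp_pos _).le).trans_eq ?_
  rw [Real.exp_neg]; field_simp

theorem G_le' {a : ℝ} (ha : 0 ≤ a) (x : ℝ) {g : ℝ≥0 → ℝ} {M : ℝ} (h : ∀ t, |g t| ≤ M) {t : ℝ} (ht : 0 ≤ t) :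
    |G a x g t| ≤ |x| + M := by
  have := G_le ha x h ht
  have e : Real.exp (-(a * t)) ≤ 1 := Real.exp_le_one_iff.2 (neg_nonpos.2 (by positivity))
  have := Real.exp_pos (-(a * t))
  have := (abs_nonneg _).trans (h 0)
  nlinarith [abs_nonneg x]

theorem G_add (a x : ℝ) {g k : ℝ≥0 → ℝ} (hg : Measurable g) {M : ℝ} (h : ∀ t, |g t| ≤ M) (t s : ℝ≥0)
    (hk : ∀ s, k s = g (t + s)) : G a (G a x g t) k s = G a x g (t + s : ℝ≥0) := by
  have : F a g (t + s : ℝ≥0) = F a g t + Real.exp (a * t) * F a k s := by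
    rw [F, ← integral_add_adjacent_intervals (F_int a hg h 0 t) (F_int a hg h _ _), F, F,
      ← intervalIntegral.integral_const_mul]
    congr 1
    have := integral_comp_add_left (a := 0) (b := s) (fun s => a * Real.exp (a * s) * g s.toNNReal) (t : ℝ)
    rw [add_zero] at this
    rw [NNReal.coe_add, ← this]
    refine integral_congr fun r hr => ?_
    rw [uIcc_of_le s.coe_nonneg] at hr
    simp only [hk, Real.toNNReal_add t.coe_nonneg hr.1, mul_add, Real.exp_add, Real.toNNReal_coe]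
    ring
  rw [G, G, G, this, NNReal.coe_add, mul_add a, neg_add, Real.exp_add, Real.exp_neg (a * t)]
  field_simp; ring

noncomputable def φ (t : ℝ≥0) (x : C0) (u : In) : C0 :=
  mk0 (fun n => G (n + 1) (x n) (fun s => ι u s n) t) (m := fun n => |x n| + u.2.2.choose n)
    (by simpa using (tz x).add u.2.2.choose_spec.1)
    fun n => G_le' (by positivity) _ (fun s => u.2.2.choose_spec.2 s n) t.2

theorem φ_app (t : ℝ≥0) (x : C0) (u : In) (n : ℕ) : φ t x u n = G (n + 1) (x n) (fun s => ι u s n) t := rfl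

theorem cs : CS ι φ where
  inj u v h := Subtype.ext (lp.ext h)
  shift u τ := by
    obtain ⟨a, m, m1, m2⟩ := u.2
    obtain ⟨v, h1, h2⟩ := exIn (u := fun t => ι u (t + τ))
      ⟨fun n => (a n).comp (measurable_add_const τ), m, m1, fun t n => m2 _ n⟩ fun t => ι_le u _
    exact ⟨v, fun t => by rw [h1], h2⟩
  concat u v t _ := by
    obtain ⟨a, m, m1, m2⟩ := u.2
    obtain ⟨b, k, k1, k2⟩ := v.2
    refine (exIn (u := fun s => if s ≤ t then ι u s else ι v (s - t)) (c := max ‖u‖ ‖v‖)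
      ⟨fun n => ?_, fun n => max (m n) (k n), by simpa using m1.max k1, fun s n => ?_⟩ fun s => ?_).imp
      fun w h s => by rw [h.1]
    · simp only [apply_ite (fun x : C0 => x n)]
      exact Measurable.ite measurableSet_Iic (a n) ((b n).comp (by fun_prop))
    · beta_reduce; split_ifs
      exacts [le_max_of_le_left (m2 _ n), le_max_of_le_right (k2 _ n)]
    · split_ifs
      exacts [le_max_of_le_left (ι_le _ _), le_max_of_le_right (ι_le _ _)]
  init x u := by ext n; simp [φ_app, G, F]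
  causal t x u v h := by
    ext n
    rw [φ_app, φ_app, G, G, F, F]
    congr 2
    refine integral_congr fun r hr => ?_
    rw [uIcc_of_le t.coe_nonneg] at hr
    simp only [h _ (Real.toNNReal_le_iff_le_coe.2 hr.2)]
  cont x u := by
    obtain ⟨a, m, m1, m2⟩ := u.2
    refine cont0 (fun n => ?_) (m := fun n => |x n| + m n) (by simpa using (tz x).add m1)
      fun t n => G_le' (by positivity) _ (fun s => m2 s n) t.2
    have := continuous_primitive (F_int (n + 1) (a n) fun s => m2 s n) 0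
    exact Continuous.mul (by fun_prop) (continuous_const.add (this.comp NNReal.continuous_coe))
  cocycle t h x u v e := by
    obtain ⟨a, m, m1, m2⟩ := u.2
    ext n
    exact G_add _ _ (a n) (fun s => m2 s n) t h fun s => by rw [e]; rfl

theorem kc {c : ℝ≥0} (hc : 0 < c) : Kinf fun r => c * r :=
  ⟨⟨⟨by fun_prop, mul_zero c, fun r hr => by positivity⟩, strictMono_mul_left_of_pos hc⟩,
    not_bddAbove_iff.2 fun b => ⟨_, ⟨(b + 1) / c, rfl⟩, by
      simp only [mul_div_cancel₀ _ hc.ne']; exact lt_add_one b⟩⟩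

theorem impl : Impl φ fun x => ‖x‖₊ := by
  refine ⟨⟨continuous_nnnorm, _, _, kc one_pos, kc one_pos, fun x => by simp⟩, _, fun r => 4⁻¹ * r,
    kc two_pos, (kc (by norm_num)).1.1, fun x u h => limsup_le_of_le (h := ?_)⟩
  have h : 2 * ‖u‖ ≤ ‖x‖ := by exact_mod_cast h
  filter_upwards [self_mem_nhdsWithin, nhdsWithin_le_nhds (Iio_mem_nhds one_pos)] with t t0 t1
  have t0 : (0 : ℝ) < t := t0
  have t1 : (t : ℝ) < 1 := t1
  rw [EReal.coe_le_coe_iff, div_le_iff₀ t0]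
  have : ‖φ t x u‖ ≤ ‖x‖ - t * ‖x‖ / 4 := nrm_le fun n => by
    have a1 := G_le (a := n + 1) (by positivity) (x n) (fun s => (ab_le _ n).trans (ι_le u s)) t0.le
    have a2 : Real.exp (-((n + 1) * t)) ≤ 1 - t / 2 := by
      rw [Real.exp_neg, inv_le_comm₀ (Real.exp_pos _) (by linarith)]
      refine le_trans ?_ (Real.add_one_le_exp _)
      rw [inv_le_iff_one_le_mul₀ (by linarith)]
      have : 0 ≤ n * (t : ℝ) * (1 - t / 2) := mul_nonneg (by positivity) (by linarith)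
      nlinarith
    have a3 := mul_le_mul_of_nonneg_left (ab_le x n) (Real.exp_pos (-((n + 1) * t))).le
    have a4 := mul_le_mul_of_nonneg_left h (show 0 ≤ 1 - Real.exp (-((n + 1) * t)) by linarith)
    have a5 := mul_le_mul_of_nonneg_right a2 (norm_nonneg x)
    rw [φ_app]; linarith
  simp; linarith

noncomputable def e (k : ℕ) : C0 := mk0 (fun n => if n = k then 1 else 0) (m := fun n => if n = k then 1 else 0)
  (tendsto_const_nhds.congr' ((eventually_ne_atTop k).mono fun n h => by simp [h]))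
  fun n => by split_ifs <;> simp

theorem e_le (k : ℕ) : ‖e k‖ ≤ 1 := nrm_le fun n => by
  change |if n = k then 1 else 0| ≤ (1 : ℝ); split_ifs <;> simp

theorem dini {X I : Type} [NormedAddCommGroup X] {φ : ℝ≥0 → X → I → X} {V : X → ℝ≥0} {x : X} {u : I}
    (hc : Continuous fun t => V (φ t x u)) (co : ∀ t h, φ h (φ t x u) u = φ (t + h) x u) {c : ℝ}
    (h : ∀ y, dV φ V y u ≤ c) (t : ℝ≥0) : (V (φ t x u) : ℝ) ≤ V (φ 0 x u) + c * t := by
  have := image_le_of_liminf_slope_right_le_deriv_boundary (f := fun s => (V (φ s.toNNReal x u) : ℝ))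
    (a := 0) (b := t) (B := fun s => V (φ 0 x u) + c * s) (B' := fun _ => c)
    (NNReal.continuous_coe.comp (hc.comp continuous_real_toNNReal)).continuousOn (by simp) (by fun_prop)
    (fun s _ => ((((hasDerivAt_id s).const_mul c).const_add _).congr_deriv (mul_one c)).hasDerivWithinAt)
    (fun s hs r hr => ?_) ⟨t.2, le_rfl⟩
  · simpa using this
  have ev := eventually_lt_of_limsup_lt ((h (φ s.toNNReal x u)).trans_lt (EReal.coe_lt_coe_iff.2 hr))
  have td : Tendsto (fun z => (z - s).toNNReal) (𝓝[>] s) (𝓝[>] 0) :=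
    tendsto_nhdsWithin_iff.2 ⟨(Continuous.tendsto' (by fun_prop) s 0 (by simp)).mono_left nhdsWithin_le_nhds,
      eventually_nhdsWithin_of_forall fun z hz => Real.toNNReal_pos.2 (sub_pos.2 hz)⟩
  refine Eventually.frequently ?_
  filter_upwards [td.eventually ev, self_mem_nhdsWithin] with z hz zs
  have zs : 0 ≤ z - s := (sub_pos.2 zs).le
  rw [co, ← Real.toNNReal_add hs.1 zs, add_sub_cancel, EReal.coe_lt_coe_iff, Real.coe_toNNReal _ zs] at hz
  rwa [slope_def_field]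

theorem noDiss (W : C0 → ℝ≥0) : ¬ Diss φ W := by
  rintro ⟨⟨hc, p, q, hp, hq, hs⟩, α, σ, -, hσ, h⟩
  have p0 : (0 : ℝ) < p 2⁻¹ := hp.1.1.2.2 _ (by norm_num)
  set t : ℝ≥0 := p 2⁻¹ / (σ 1 + 1)
  have t0 : (0 : ℝ) < t := by simp only [t]; push_cast; positivity
  obtain ⟨k, hk⟩ := exists_nat_ge (1 / (t : ℝ))
  obtain ⟨u, u1, u2⟩ := exIn (u := fun _ => e k)
    ⟨fun _ => measurable_const, _, tz (e k), fun _ _ => le_rfl⟩ fun _ => e_le k
  have := dini ((hc.comp (cs.cont 0 u))) (fun t h => cs.cocycle t h 0 u u fun s => by rw [u1])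
    (c := σ 1) (fun y => (h y u).trans (EReal.coe_le_coe_iff.2 (by
      have : (σ ‖u‖₊ : ℝ) ≤ σ 1 := hσ.2.monotone (show ‖u‖₊ ≤ 1 from u2)
      linarith [(α ‖y‖₊).2]))) t
  have w0 : W 0 = 0 := by simpa [hq.1.1.2.1] using (hs 0).2
  rw [cs.init, w0] at this
  have lo : 2⁻¹ ≤ ‖φ t 0 u‖ := by
    refine le_trans ?_ ((le_abs_self _).trans (ab_le _ k))
    have : e k k = 1 := if_pos rfl
    simp only [φ_app, u1, G, F, this, mul_one, F_one]
    have : 2 ≤ Real.exp ((k + 1) * t) := by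
      rw [div_le_iff₀ t0] at hk
      linarith [Real.add_one_le_exp ((k + 1) * t)]
    rw [Real.exp_neg, le_inv_mul_iff₀ (Real.exp_pos _)]
    simp; linarith
  have a1 : (p 2⁻¹ : ℝ) ≤ W (φ t 0 u) :=
    (hp.1.2.monotone (show (2⁻¹ : ℝ≥0) ≤ ‖φ t 0 u‖₊ by exact_mod_cast lo)).trans (hs _).1
  have a2 : (σ 1 + 1 : ℝ) * t = p 2⁻¹ := by simp only [t]; push_cast; field_simp
  simp at this; linarith

theorem infd : ¬ FiniteDimensional ℝ C0 := fun _ => by
  refine Module.Finite.not_linearIndependent_of_infinite (R := ℝ) e (linearIndependent_iff'.2 fun s g h i hi => ?_)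
  let L : C0 →ₗ[ℝ] ℝ := ⟨⟨fun x => x i, fun _ _ => rfl⟩, fun _ _ => rfl⟩
  have ee : ∀ j, L (e j) = if i = j then 1 else 0 := fun _ => rfl
  simpa [_root_.map_sum, ee, hi] using congrArg L h

theorem main : ∃ (X U I : Type) (_ : NormedAddCommGroup X) (_ : NormedSpace ℝ X)
    (_ : NormedAddCommGroup U) (_ : NormedSpace ℝ U) (_ : NormedAddCommGroup I) (_ : NormedSpace ℝ I)
    (ι : I →ₗ[ℝ] (ℝ≥0 → U)) (φ : ℝ≥0 → X → I → X), CompleteSpace X ∧ ¬ FiniteDimensional ℝ X ∧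
      CS ι φ ∧ Impl φ (fun x => ‖x‖₊) ∧ ∀ W, ¬ Diss φ W :=
  ⟨C0, C0, In, inferInstance, inferInstance, inferInstance, inferInstance, inferInstance,
    inferInstance, ι, φ, inferInstance, infd, cs, impl, noDiss⟩

end Pool.Agent.H95.Iss
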