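import Mathlib

namespace Pool.Agent.H95.Iss
open Filter Topology NNReal

def PD (γ : ℝ≥0 → ℝ≥0) : Prop := Continuous γ ∧ γ 0 = 0 ∧ ∀ r > 0, 0 < γ r
def K (γ : ℝ≥0 → ℝ≥0) : Prop := PD γ ∧ StrictMono γ
def Kinf (γ : ℝ≥0 → ℝ≥0) : Prop := K γ ∧ ¬ BddAbove (Set.range γ)

variable {X U I : Type} [NormedAddCommGroup X] [NormedAddCommGroup I]

/-- forward complete control system; `ι` realizes the input space `I` as functions of time -/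
structure CS (ι : I → ℝ≥0 → U) (φ : ℝ≥0 → X → I → X) : Prop where
  inj : Function.Injective ι
  shift : ∀ u τ, ∃ v, (∀ t, ι v t = ι u (t + τ)) ∧ ‖v‖ ≤ ‖u‖
  concat : ∀ u v, ∀ t > 0, ∃ w, ∀ s, ι w s = if s ≤ t then ι u s else ι v (s - t)
  init : ∀ x u, φ 0 x u = x
  causal : ∀ t x u v, (∀ s ≤ t, ι u s = ι v s) → φ t x u = φ t x v
  cont : ∀ x u, Continuous fun t => φ t x u
  cocycle : ∀ t h x u v, (∀ s, ι v s = ι u (t + s)) → φ h (φ t x u) v = φ (t + h) x u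

/-- upper right Dini derivative of `V` along the trajectory -/
noncomputable def dV (φ : ℝ≥0 → X → I → X) (V : X → ℝ≥0) (x : X) (u : I) : EReal :=
  limsup (fun t : ℝ≥0 => ((((V (φ t x u) : ℝ) - V x) / t : ℝ) : EReal)) (𝓝[>] 0)

def Sand (V : X → ℝ≥0) : Prop :=
  Continuous V ∧ ∃ ψ₁ ψ₂, Kinf ψ₁ ∧ Kinf ψ₂ ∧ ∀ x, ψ₁ ‖x‖₊ ≤ V x ∧ V x ≤ ψ₂ ‖x‖₊

def Diss (φ : ℝ≥0 → X → I → X) (V : X → ℝ≥0) : Prop :=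
  Sand V ∧ ∃ α σ, Kinf α ∧ K σ ∧ ∀ x u, dV φ V x u ≤ ((σ ‖u‖₊ - α ‖x‖₊ : ℝ) : EReal)

def Impl (φ : ℝ≥0 → X → I → X) (V : X → ℝ≥0) : Prop :=
  Sand V ∧ ∃ χ α, Kinf χ ∧ PD α ∧ ∀ x u, χ ‖u‖₊ ≤ ‖x‖₊ → dV φ V x u ≤ ((-α ‖x‖₊ : ℝ) : EReal)

end Pool.Agent.H95.Iss
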