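import Pool.Agent.H95.JmpDefs

namespace Pool.Agent.H95.Jmp
open MeasureTheory Filter Topology Set Real

theorem eig {E : Type} [NormedAddCommGroup E] [NormedSpace ℂ E] [NormedSpace ℝ E] [IsScalarTower ℝ ℂ E] {T : ℝ → E →L[ℂ] E} (h0 : T 0 = 1)
    (ha : ∀ s t, 0 ≤ s → 0 ≤ t → T (s + t) = T s * T t) {φ : E} (hc : ContinuousOn (fun t => T t φ) (Ici 0)) {l : ℝ}
    (h : Tendsto (fun h : ℝ => h⁻¹ • (T h φ - φ)) (𝓝[>] 0) (𝓝 (l • φ))) {t : ℝ} (ht : 0 ≤ t) :
    T t φ = exp (l * t) • φ := by
  have := constant_of_has_deriv_right_zero (f := fun s => exp (-l * s) • T s φ) (a := 0) (b := t)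
    (ContinuousOn.smul (f := fun s => exp (-l * s)) (by fun_prop) (hc.mono Icc_subset_Ici_self)) (fun x hx => by
      have d : HasDerivWithinAt (fun s => T s φ) (l • T x φ) (Ici x) x := by
        rw [← hasDerivWithinAt_Ioi_iff_Ici, hasDerivWithinAt_iff_tendsto_slope' self_notMem_Ioi]
        have s : Tendsto (fun y => y - x) (𝓝[>] x) (𝓝[>] 0) := tendsto_nhdsWithin_iff.2
          ⟨(Continuous.tendsto' (f := fun y => y - x) (by fun_prop) x 0 (sub_self x)).mono_left nhdsWithin_le_nhds,
            eventually_nhdsWithin_of_forall fun y hy => sub_pos.2 (show x < y from hy)⟩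
        have := ((T x).continuous.tendsto _).comp (h.comp s)
        rw [(T x).map_smul_of_tower] at this
        refine this.congr' (eventually_nhdsWithin_of_forall fun y hy => ?_)
        have e := ha x (y - x) hx.1 (sub_nonneg.2 (le_of_lt hy))
        rw [add_sub_cancel] at e
        simp [slope, e]
      refine (((hasDerivAt_id x).const_mul (-l)).exp.hasDerivWithinAt.smul d).congr_deriv ?_
      simp [smul_smul]) t ⟨ht, le_rfl⟩
  simp only [mul_zero, exp_zero, h0, one_smul, ContinuousLinearMap.one_apply] at this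
  rw [← congrArg (exp (l * t) • ·) this, smul_smul, ← exp_add]; simp

abbrev W := ℕ × Bool
noncomputable def v (x : W) : ℝ := if x.2 then (1 / 2) ^ x.1 else (1 / 2) ^ x.1 * (1 / 2) ^ x.1
def bar (x : W) : W := (x.1, !x.2)
noncomputable def pp (y x : W) : ℝ := if y = bar x then (1 / 2) ^ x.1 / v y else 0
noncomputable def nu : Measure W := mu .count v

theorem v0 (x : W) : 0 < v x := by unfold v; split_ifs <;> positivity
theorem bb (x : W) : bar (bar x) = x := by simp [bar]
theorem mus (m : Measure W) (x : W) : mu m v {x} = ENNReal.ofReal (v x) * m {x} := by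
  rw [mu, withDensity_apply _ (measurableSet_singleton x), lintegral_singleton]
theorem nus (x : W) : nu {x} = ENNReal.ofReal (v x) := by simp [nu, mus]
theorem nur (x : W) : nu.real {x} = v x := by simp [Measure.real, nus, (v0 x).le]
theorem mur (x : W) : (mu nu v).real {x} = v x * v x := by simp [Measure.real, mus, nus, (v0 x).le]
theorem muf (x : W) : mu nu v {x} ≠ ⊤ := by simp [mus, nus, ENNReal.mul_eq_top]

theorem II {E : Type} [NormedAddCommGroup E] [NormedSpace ℝ E] [CompleteSpace E] {m : Measure W} {y : W}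
    (hm : m {y} ≠ ⊤) {f : W → E} (h : ∀ x, x ≠ y → f x = 0) : Integrable f m ∧ ∫ x, f x ∂m = m.real {y} • f y :=
  ⟨(integrableOn_singleton (hx := hm.lt_top)).integrable_of_forall_notMem_eq_zero h,
    by rw [← setIntegral_eq_integral_of_forall_compl_eq_zero (s := {y}) h, integral_singleton]⟩

theorem pz (y x : W) (h : x ≠ bar y) : pp y x = 0 := if_neg fun e => h (by rw [e, bb])
theorem sg (x : W) : sig nu pp x = (1 / 2) ^ x.1 := by
  rw [sig, (II (y := bar x) (f := fun y => pp y x) (by simp [nus]) fun y h => if_neg h).2, nur, pp, if_pos rfl, smul_eq_mul,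
    mul_div_cancel₀ _ (v0 _).ne']

theorem data : Data nu pp v := by
  have f : IsFiniteMeasure nu := ⟨by
    rw [nu, mu, withDensity_apply _ .univ, Measure.restrict_univ, lintegral_count]
    refine (Summable.tsum_ofReal_ne_top ?_).lt_top
    refine ((summable_prod_of_nonneg fun _ => by positivity).2 ⟨fun _ => .of_finite, ?_⟩ :
      Summable fun x : W => (1 / 2 : ℝ) ^ x.1).of_nonneg_of_le (fun x => (v0 x).le) fun x => ?_
    · simpa using summable_geometric_two.mul_left 2
    · unfold v; split_ifs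
      exacts [le_rfl, mul_le_of_le_one_left (by positivity) (pow_le_one₀ (by norm_num) (by norm_num))]⟩
  refine ⟨inferInstance, .of_discrete, fun x y => ?_, .of_discrete, v0, fun x y => ?_, fun x => ⟨(II (y := bar x)
    (by simp [nus]) fun y h => if_neg h).1, (II (y := bar x) (by simp [nus]) (pz x)).1, by rw [sg]; positivity⟩,
    ⟨1, fun y => ?_⟩, ?_⟩
  · have := v0 x; unfold pp; positivity
  · by_cases h : x = bar y
    · subst h; simp only [pp, bb, if_true, mul_div_cancel₀ _ (v0 _).ne']; rfl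
    · rw [pz y x h, pp, if_neg h, mul_zero, mul_zero]
  · rw [sg, div_le_one (by positivity), sigh, (II (y := bar y) (by simp [nus]) (pz y)).2, nur, pp, if_pos (bb y).symm,
      smul_eq_mul, ← mul_div_assoc, div_le_iff₀ (v0 y)]
    have a : (0 : ℝ) < (1 / 2) ^ y.1 := by positivity
    have b : (1 / 2 : ℝ) ^ y.1 ≤ 1 := pow_le_one₀ (by norm_num) (by norm_num)
    rcases y with ⟨n, _ | _⟩ <;> simp only [v, bar, Bool.not_false, Bool.not_true, if_true, Bool.false_eq_true,
      if_false] at * <;> nlinarith [mul_pos a a]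
  · rw [mu, integrable_withDensity_iff .of_discrete (by simp)]
    refine (integrable_const (1 : ℝ)).congr (Eventually.of_forall fun x => ?_)
    simp [(v0 x).le, (v0 x).ne']

noncomputable def u (y : W) : Lp ℂ 1 (mu nu v) := indicatorConstLp 1 (measurableSet_singleton y) (muf y) ((v y)⁻¹ : ℝ)
theorem ev {P : W → Prop} (h : ∀ᵐ x ∂mu nu v, P x) (x : W) : P x :=
  ae_iff_of_countable.1 h x (by simp [mus, nus, v0])
theorem uv (y x : W) : u y x = if x = y then (((v y)⁻¹ : ℝ) : ℂ) else 0 := by
  rw [u, ev indicatorConstLp_coeFn x]; simp [indicator_apply]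
theorem un (y : W) : ‖u y‖ = v y := by
  rw [u, norm_indicatorConstLp (by simp) (by simp), mur]; simp [abs_of_pos (v0 y), (v0 y).ne']

theorem main : ∃ (Ω : Type) (_ : MeasurableSpace Ω) (ν : Measure Ω) (p : Ω → Ω → ℝ) (ω : Ω → ℝ), Data ν p ω ∧
    ∀ T, Generates ν p ω T → ¬∃ M, ∀ t, 0 ≤ t → ‖T t‖ ≤ M := by
  refine ⟨W, inferInstance, nu, pp, v, data, fun T hT ⟨M, hM⟩ => ?_⟩
  have g : ∀ y, Tendsto (fun h : ℝ => h⁻¹ • (T h (u y) - u y)) (𝓝[>] 0) (𝓝 ((1 / 2 : ℝ) ^ y.1 • (u (bar y) - u y))) :=
    fun y => Tendsto.congr (fun h => Complex.coe_smul _ _) <| (hT.2 _ _).2 ⟨(II (muf y) fun x h => by simp [uv, h]).1, by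
      filter_upwards [Lp.coeFn_smul ((1 / 2 : ℝ) ^ y.1) (u (bar y) - u y), Lp.coeFn_sub (u (bar y)) (u y)] with x a b
      rw [a, Pi.smul_apply, b, Pi.sub_apply, (II (y := y) (by simp [nus]) fun z h => by simp [uv, h]).2, nur, sg]
      have := Complex.ofReal_ne_zero.2 (v0 y).ne'
      simp only [uv, pp, if_true, smul_sub]
      rw [sub_eq_neg_add]; congr 1
      · split_ifs with h <;> simp [h]
      · split_ifs with h
        · simp [h]; field_simp
        · simp⟩
  obtain ⟨n, hn⟩ := pow_unbounded_of_one_lt (4 * M + 4) one_lt_two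
  have ga := g (n, true); have gb := g (n, false)
  have r : (0 : ℝ) < (1 / 2) ^ n := by positivity
  simp only [bar, Bool.not_true, Bool.not_false] at ga gb
  have t0 : 0 ≤ log 2 / (2 * (1 / 2) ^ n) := by positivity
  have e0 := eig hT.1.zero hT.1.add (hT.1.cont (u (n, true) + u (n, false))) (l := 0)
    (by convert ga.add gb using 2 <;> simp only [map_add, smul_sub, smul_add, zero_smul] <;> abel) t0
  have e1 := eig hT.1.zero hT.1.add (hT.1.cont (u (n, true) - u (n, false))) (l := -(2 * (1 / 2) ^ n))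
    (by convert ga.sub gb using 2
        · simp only [map_sub, smul_sub]; abel
        · module) t0
  rw [neg_mul, mul_div_cancel₀ _ (by positivity), exp_neg, exp_log two_pos] at e1
  rw [zero_mul, exp_zero, one_smul] at e0
  set S := T (log 2 / (2 * (1 / 2) ^ n))
  have e : (2⁻¹ : ℝ) • u (n, true) = (2 : ℝ) • S (u (n, false)) - (3 / 2 : ℝ) • u (n, false) := by
    rw [map_add] at e0; rw [map_sub] at e1
    linear_combination (norm := module) e1 - e0
  have k := (congrArg norm e).trans_le (norm_sub_le _ _)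
  have l := S.le_of_opNorm_le (hM _ t0) (u (n, false))
  simp only [norm_smul, un, v, if_true, Bool.false_eq_true, if_false, norm_eq_abs] at k l
  have o : (1 / 2 : ℝ) ^ n * 2 ^ n = 1 := by rw [← mul_pow]; simp
  norm_num [abs_of_pos] at k
  nlinarith [mul_pos r r, mul_lt_mul_of_pos_right hn (mul_pos r r)]

end Pool.Agent.H95.Jmp
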