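import Mathlib

namespace Pool.Agent.H95.Jmp
open MeasureTheory Filter Topology

variable {Ω : Type} [MeasurableSpace Ω]

noncomputable def sig (ν : Measure Ω) (p : Ω → Ω → ℝ) (x : Ω) : ℝ := ∫ y, p y x ∂ν
noncomputable def sigh (ν : Measure Ω) (p : Ω → Ω → ℝ) (y : Ω) : ℝ := ∫ x, p y x ∂ν
noncomputable def mu (ν : Measure Ω) (ω : Ω → ℝ) : Measure Ω := ν.withDensity fun x => ENNReal.ofReal (ω x)

/-- the standing assumptions of the problem -/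
structure Data (ν : Measure Ω) (p : Ω → Ω → ℝ) (ω : Ω → ℝ) : Prop where
  sf : SigmaFinite ν
  mp : Measurable (Function.uncurry p)
  p0 : ∀ x y, 0 ≤ p x y
  mω : Measurable ω
  ω0 : ∀ x, 0 < ω x
  db : ∀ x y, ω x * p x y = ω y * p y x
  fin : ∀ x, Integrable (fun y => p y x) ν ∧ Integrable (p x) ν ∧ 0 < sig ν p x
  condA : ∃ C, ∀ y, sigh ν p y / (1 + sig ν p y) ≤ C
  inv : Integrable (fun x => (ω x)⁻¹) (mu ν ω)

noncomputable abbrev L1 (ν : Measure Ω) (ω : Ω → ℝ) : Type := Lp ℂ 1 (mu ν ω)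

/-- T is a C0-semigroup -/
structure IsC0 {E : Type} [NormedAddCommGroup E] [NormedSpace ℂ E] (T : ℝ → E →L[ℂ] E) : Prop where
  zero : T 0 = 1
  add : ∀ s t, 0 ≤ s → 0 ≤ t → T (s + t) = T s * T t
  cont : ∀ φ, ContinuousOn (fun t => T t φ) (Set.Ici 0)

/-- the graph of the generator of T -/
def Gen {E : Type} [NormedAddCommGroup E] [NormedSpace ℂ E] (T : ℝ → E →L[ℂ] E) (φ ψ : E) : Prop :=
  Tendsto (fun h : ℝ => ((h⁻¹ : ℝ) : ℂ) • (T h φ - φ)) (𝓝[>] 0) (𝓝 ψ)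

/-- the graph of M1 + P on D(M1) -/
def U1 (ν : Measure Ω) (p : Ω → Ω → ℝ) (ω : Ω → ℝ) (φ ψ : Ω → ℂ) : Prop :=
  Integrable (fun x => (sig ν p x : ℂ) * φ x) (mu ν ω) ∧
    ∀ᵐ x ∂mu ν ω, ψ x = -(sig ν p x : ℂ) * φ x + ∫ y, (p x y : ℂ) * φ y ∂ν

/-- T is a C0-semigroup on L1(mu) with generator M1 + P on D(M1) -/
def Generates (ν : Measure Ω) (p : Ω → Ω → ℝ) (ω : Ω → ℝ) (T : ℝ → L1 ν ω →L[ℂ] L1 ν ω) : Prop :=
  IsC0 T ∧ ∀ φ ψ : L1 ν ω, Gen T φ ψ ↔ U1 ν p ω φ ψ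

end Pool.Agent.H95.Jmp
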