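import Pool.Agent.H95.KlODefs

/-! A functional clarifying all well-orders to which Kleene's O is not continuously reducible. -/

set_option autoImplicit false

namespace Pool.Agent.H95.KlO

open Function Set Filter Topology Cardinal
open scoped Classical

lemma num_inj (a : OC) : ∀ b : OC, a.num = b.num → a = b := by
  induction a with
  | pair a b iha ihb | comp a b iha ihb | prec a b iha ihb =>
    intro c h
    cases c <;> simp only [OC.num] at h <;> try omega
    have := Nat.pair_eq_pair.1 (mul_left_cancel₀ four_ne_zero (add_right_cancel h))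
    rw [iha _ this.1, ihb _ this.2]
  | rfind a iha =>
    intro c h
    cases c <;> simp only [OC.num] at h <;> try omega
    rw [iha _ (mul_left_cancel₀ four_ne_zero (add_right_cancel h))]
  | _ => intro c h; cases c <;> simp only [OC.num] at h <;> first | rfl | omega

lemma code {f : ℕ →. ℕ} (h : Nat.Partrec f) : ∃ c : OC, ∀ g, c.eval g = f := by
  induction h with
  | zero => exact ⟨.zero, fun _ => rfl⟩
  | succ => exact ⟨.succ, fun _ => rfl⟩
  | left => exact ⟨.left, fun _ => rfl⟩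
  | right => exact ⟨.right, fun _ => rfl⟩
  | pair _ _ a b =>
    obtain ⟨a, ha⟩ := a
    obtain ⟨b, hb⟩ := b
    exact ⟨.pair a b, fun g => by simp only [OC.eval, ha, hb]⟩
  | comp _ _ a b =>
    obtain ⟨a, ha⟩ := a
    obtain ⟨b, hb⟩ := b
    exact ⟨.comp a b, fun g => by simp only [OC.eval, ha, hb]⟩
  | prec _ _ a b =>
    obtain ⟨a, ha⟩ := a
    obtain ⟨b, hb⟩ := b
    exact ⟨.prec a b, fun g => by simp only [OC.eval, ha, hb]⟩
  | rfind _ a =>
    obtain ⟨a, ha⟩ := a
    exact ⟨.rfind a, fun g => by simp only [OC.eval, ha]⟩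

def tower (k : ℕ) : ℕ := (fun a => 2 ^ a)^[k] 1

lemma tower_lt (x : ℕ → Bool) (k : ℕ) : LtO x (tower k) (tower (k + 1)) := by
  induction k with
  | zero => exact LtO.one
  | succ k ih =>
    have : tower (k + 1 + 1) = 2 ^ tower (k + 1) := iterate_succ_apply' _ _ _
    exact this ▸ ih.succ

lemma test (n : ℕ) : ∃ c : OC, ∀ x k, c.eval (chi x) k =
    cond (x n) (Part.some (tower k)) Part.none := by
  have h1 : Primrec tower := Primrec.nat_iterate (h := fun _ a => 2 ^ a) Primrec.id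
    (Primrec.const 1) ((Primrec₂.unpaired'.1 Nat.Primrec.pow).comp (Primrec.const 2) Primrec.snd)
  have h2 : Partrec fun p : ℕ => cond (decide ((Nat.unpair p).2 = 1))
      (Part.some (tower (Nat.unpair p).1)) Part.none :=
    Partrec.cond (Primrec.eq.decide.comp (Primrec.snd.comp Primrec.unpair)
      (Primrec.const 1)).to_comp (h1.comp (Primrec.fst.comp Primrec.unpair)).to_comp Partrec.none
  obtain ⟨a, ha⟩ := code (Partrec.nat_iff.1 h2)
  obtain ⟨b, hb⟩ := code (Partrec.nat_iff.1 (Computable.id (α := ℕ)))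
  obtain ⟨c, hc⟩ := code (Partrec.nat_iff.1 (Computable.const (α := ℕ) n))
  refine ⟨.comp a (.pair b (.comp .oracle c)), fun x k => ?_⟩
  simp only [OC.eval, ha, hb, hc, chi]
  cases h : x n <;> simp [Seq.seq, h, chi]

lemma inv {x : ℕ → Bool} {a b : ℕ} (h : LtO x a b) :
    (∀ c : OC, a = 3 * 5 ^ c.num → (c.eval (chi x) 0).Dom) ∧
    ∀ c : OC, b = 3 * 5 ^ c.num → (c.eval (chi x) 0).Dom := by
  induction h with
  | one => exact ⟨fun c h => by omega, fun c h => by omega⟩
  | succ _ ih =>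
    refine ⟨ih.2, fun c h => ?_⟩
    have := Nat.prime_three.dvd_of_dvd_pow (h ▸ Dvd.intro _ rfl)
    omega
  | lim c f h1 _ n ih =>
    refine ⟨(ih n).1, fun c' h => ?_⟩
    rw [← num_inj c c' (Nat.pow_right_injective (by norm_num : 2 ≤ 5) (by simp only; omega))]
    exact (h1 0).1
  | trans _ _ a b => exact ⟨a.1, b.2⟩

lemma O_inj : Injective kleeneO := fun x y h => funext fun n => by
  obtain ⟨c, hc⟩ := test n
  have : ∀ x, kleeneO x (3 * 5 ^ c.num) = x n := fun x => by
    cases h : x n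
    · refine decide_eq_false ?_
      rintro ⟨b, h1 | h1⟩
      · simpa [hc, h] using (inv h1).1 c rfl
      · simpa [hc, h] using (inv h1).2 c rfl
    · exact decide_eq_true ⟨_, Or.inr (LtO.lim c tower (fun k => by simp [hc, h])
        (tower_lt x) 0)⟩
  rw [← this x, ← this y, h]

def val (k : ℕ) (z G : ℕ → Bool) : ℕ → Bool := fun n => if n < k then z n else G (n - k)

lemma val_tend (z G : ℕ → Bool) : Tendsto (fun k => val k z G) atTop (𝓝 z) :=
  tendsto_pi_nhds.2 fun n => tendsto_const_nhds.congr'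
    ((eventually_gt_atTop n).mono fun k hk => (if_pos hk).symm)

def graph (p : ℕ → ℕ) : ℕ → Bool := fun n => decide (p (Nat.unpair n).1 = (Nat.unpair n).2)

lemma comp_iso (p q : ℕ ≃ ℕ) (k l : ℕ) (z w : ℕ → Bool) :
    ComputableIn {chi (join (val k z (graph p)) (val l w (graph q)))} fun a => q.symm (p a) := by
  set g := chi (join (val k z (graph p)) (val l w (graph q))) with hg
  have ho : Nat.RecursiveIn {g} g := .oracle g rfl
  have u1 : Primrec fun n : ℕ => (Nat.unpair n).1 := Primrec.fst.comp Primrec.unpair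
  have u2 : Primrec fun n : ℕ => (Nat.unpair n).2 := Primrec.snd.comp Primrec.unpair
  have pr : ∀ {f : ℕ → ℕ}, Primrec f → Nat.RecursiveIn {g} fun n => Part.some (f n) := fun h =>
    (Partrec.nat_iff.1 h.to_comp).recursiveIn
  have h1 := ho.comp (pr (Primrec.nat_mul.comp (Primrec.const 2) (Primrec.nat_add.comp
    (Primrec₂.natPair.comp u1 (u1.comp u2)) (Primrec.const k))))
  have h2 := ho.comp (pr (Primrec.succ.comp (Primrec.nat_mul.comp (Primrec.const 2)
    (Primrec.nat_add.comp (Primrec₂.natPair.comp (u2.comp u2) (u1.comp u2)) (Primrec.const l)))))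
  have h3 := (pr (Primrec.nat_sub.comp (Primrec.const 1) (Primrec.nat_mul.comp u1 u2))).comp
    (h1.pair h2)
  have h4 : Nat.RecursiveIn {g} fun n => Part.some (if p (Nat.unpair n).1 =
      (Nat.unpair (Nat.unpair n).2).1 ∧ q (Nat.unpair (Nat.unpair n).2).2 =
      (Nat.unpair (Nat.unpair n).2).1 then 0 else 1) := h3.of_eq fun n => by
    have e1 : ∀ m, (2 * m + 1) % 2 = 1 := fun m => by omega
    have e2 : ∀ m, (2 * m + 1) / 2 = m := fun m => by omega
    simp only [hg, chi, join, val, graph, Seq.seq]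
    by_cases a : p (Nat.unpair n).1 = (Nat.unpair (Nat.unpair n).2).1 <;>
    by_cases b : q (Nat.unpair (Nat.unpair n).2).2 = (Nat.unpair (Nat.unpair n).2).1 <;>
    simp [a, b, e1, e2, chi, join, val, graph]
  refine RecursiveIn.iff_nat.2 ((Nat.RecursiveIn.right.comp h4.rfind).of_eq_tot fun a => ?_)
  refine Part.mem_bind_iff.2 ⟨Nat.pair (p a) (q.symm (p a)), Nat.mem_rfind.2 ⟨by simp, ?_⟩, by simp⟩
  intro m hm
  have : ¬ (p a = (Nat.unpair m).1 ∧ q (Nat.unpair m).2 = (Nat.unpair m).1) := fun h => by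
    rw [h.1, ← h.2, q.symm_apply_apply, h.2, Nat.pair_unpair] at hm
    exact lt_irrefl _ hm
  simp only [Nat.unpair_pair, if_neg this]
  simp

lemma card_C : #C(ℕ → Bool, ℕ → Bool) ≤ 𝔠 := by
  have : Injective fun (R : C(ℕ → Bool, ℕ → Bool)) n =>
      R (TopologicalSpace.denseSeq (ℕ → Bool) n) := fun R R' h => ContinuousMap.ext (congrFun
    ((TopologicalSpace.denseRange_denseSeq _).equalizer R.continuous R'.continuous h))
  simpa using mk_le_of_injective this

theorem diag (O : (ℕ → Bool) → ℕ → Bool) (hO : Injective O) (G : (ℕ → Bool) → ℕ → Bool) :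
    ∃ (k : (ℕ → Bool) → ℕ) (z : (ℕ → Bool) → ℕ → Bool), ¬ ∃ R0 R1 : (ℕ → Bool) → ℕ → Bool,
      Continuous R0 ∧ Continuous R1 ∧ ∀ x, R1 (val (k (R0 x)) (z (R0 x)) (G (R0 x))) = O x := by
  obtain ⟨e, he⟩ : ∃ e : (ord 𝔠).ToType → C(ℕ → Bool, ℕ → Bool) × C(ℕ → Bool, ℕ → Bool),
      Surjective e := by
    obtain ⟨f⟩ : Nonempty (C(ℕ → Bool, ℕ → Bool) × C(ℕ → Bool, ℕ → Bool) ↪ (ord 𝔠).ToType) := by
      rw [← Cardinal.le_def, mk_ord_toType, mk_prod, lift_id, ← continuum_mul_self]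
      exact mul_le_mul' card_C card_C
    exact ⟨invFun f, invFun_surjective f.injective⟩
  have ex0 : ∀ (R : (ℕ → Bool) → ℕ → Bool) (S : Set (ℕ → Bool)), Injective R → #S < 𝔠 →
      ∃ x, R x ∉ S := fun R S h1 h2 => by
    by_contra h
    push Not at h
    have := mk_le_of_injective (f := fun x => (⟨R x, h x⟩ : S))
      fun a b e => h1 (congrArg Subtype.val e)
    exact h2.not_ge (by simpa using this)
  have ex : ∀ (R : (ℕ → Bool) → ℕ → Bool) (S : Set (ℕ → Bool)), ∃ v, #S < 𝔠 → v ∉ S ∧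
      (Injective R → v ∈ range R) := fun R S => by
    by_cases h : #S < 𝔠
    · by_cases h1 : Injective R
      · obtain ⟨x, hx⟩ := ex0 R S h1 h
        exact ⟨R x, fun _ => ⟨hx, fun _ => ⟨x, rfl⟩⟩⟩
      · obtain ⟨x, hx⟩ := ex0 id S injective_id h
        exact ⟨x, fun _ => ⟨hx, fun a => absurd a h1⟩⟩
    · exact ⟨fun _ => true, fun a => absurd a h⟩
  choose ch hch using ex
  let y : (ord 𝔠).ToType → ℕ → Bool := wellFounded_lt.fix fun α u =>
    ch (e α).1 (range fun β : Iio α => u β.1 β.2)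
  have hy : ∀ α, y α = ch (e α).1 (range fun β : Iio α => y β.1) := fun α =>
    wellFounded_lt.fix_eq _ α
  have hy2 : ∀ α, y α ∉ range (fun β : Iio α => y β.1) ∧
      (Injective (e α).1 → y α ∈ range (e α).1) := fun α => by
    rw [hy α]
    exact hch _ _ (mk_range_le.trans_lt (by simpa using mk_Iio_lt α))
  have hi : Injective y := fun α β h => by
    rcases lt_trichotomy α β with h1 | h1 | h1
    · exact absurd ⟨⟨α, h1⟩, h⟩ (hy2 β).1
    · exact h1
    · exact absurd ⟨⟨β, h1⟩, h.symm⟩ (hy2 α).1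
  have : ∀ v, ∃ k z, ∀ α x, y α = v → Injective (e α).1 → (¬ ∃ w, ∀ z, (e α).2 z = w) →
      (e α).1 x = v → (e α).2 (val k z (G v)) ≠ O x := fun v => by
    by_cases h : ∃ α x, y α = v ∧ Injective (e α).1 ∧ (¬ ∃ w, ∀ z, (e α).2 z = w) ∧ (e α).1 x = v
    · obtain ⟨α, x, h1, h2, h3, h4⟩ := h
      have : ∃ k z, (e α).2 (val k z (G v)) ≠ O x := by
        by_contra h
        push Not at h
        refine h3 ⟨O x, fun z => tendsto_nhds_unique
          (((e α).2.continuous.tendsto z).comp (val_tend z (G v))) ?_⟩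
        exact tendsto_const_nhds.congr fun k => (h k z).symm
      obtain ⟨k, z, h5⟩ := this
      refine ⟨k, z, fun β x' a _ _ b => ?_⟩
      obtain rfl := hi (a.trans h1.symm)
      rwa [h2 (b.trans h4.symm)]
    · exact ⟨0, v, fun α x a b c d => absurd ⟨α, x, a, b, c, d⟩ h⟩
  choose k z h using this
  refine ⟨k, z, fun ⟨R0, R1, h0, h1, h2⟩ => ?_⟩
  obtain ⟨α, hα⟩ := he (⟨R0, h0⟩, ⟨R1, h1⟩)
  have a : Injective R0 := fun x x' e => hO (by rw [← h2, ← h2, e])
  obtain ⟨x, hx⟩ := (hy2 α).2 (hα ▸ a)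
  refine h _ α x rfl (hα ▸ a) ?_ hx ?_
  · rw [hα]
    rintro ⟨w, hw⟩
    have := hO ((h2 fun _ => true).symm.trans ((hw _).trans ((hw _).symm.trans (h2 fun _ => false))))
    simpa using congrFun this 0
  · rw [← hx, hα]
    exact h2 x

theorem main (d : (ℕ → ℕ → Prop) → ℕ → Bool) (hd : Injective d) :
    ∃ F : (ℕ → Bool) → ℕ → Bool, Clarifies d F ∧ ¬ ∃ R0 R1 : (ℕ → Bool) → ℕ → Bool,
      Continuous R0 ∧ Continuous R1 ∧ ∀ x, R1 (F (R0 x)) = kleeneO x := by
  let can : (ℕ → ℕ → Prop) → ℕ → ℕ → Prop := fun r =>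
    Classical.epsilon fun s => Nonempty (r ≃r s)
  have h1 : ∀ r, Nonempty (r ≃r can r) := fun r =>
    Classical.epsilon_spec (p := fun s => Nonempty (r ≃r s)) ⟨r, ⟨RelIso.refl r⟩⟩
  have h2 : ∀ r s, Nonempty (r ≃r s) → can r = can s := fun r s ⟨i⟩ =>
    congrArg Classical.epsilon (funext fun t => propext
      ⟨fun ⟨j⟩ => ⟨i.symm.trans j⟩, fun ⟨j⟩ => ⟨i.trans j⟩⟩)
  let π : ∀ r, r ≃r can r := fun r => (h1 r).some
  obtain ⟨k, z, h⟩ := diag kleeneO O_inj fun v => graph (π (invFun d v)).toEquiv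
  refine ⟨fun v => val (k v) (z v) (graph (π (invFun d v)).toEquiv), fun r s _ _ hi => ?_, h⟩
  refine ⟨⟨(π r).toEquiv.trans (π s).toEquiv.symm, fun {a b} => ?_⟩, ?_⟩
  · rw [← (π r).map_rel_iff, ← (π s).map_rel_iff]
    show can s ((π s) ((π s).symm ((π r) a))) ((π s) ((π s).symm ((π r) b))) ↔ _
    rw [RelIso.apply_symm_apply, RelIso.apply_symm_apply]
    exact iff_of_eq (congrFun₂ (h2 r s hi).symm _ _)
  · have e : ∀ r, (π (invFun d (d r))).toEquiv = (π r).toEquiv := fun r =>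
      congrArg (fun t => (π t).toEquiv) (leftInverse_invFun hd r)
    simp only [e]
    exact comp_iso (π r).toEquiv (π s).toEquiv _ _ _ _

end Pool.Agent.H95.KlO
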