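import Mathlib

/-! Oracle programs, Kleene's O relative to a real, functionals clarifying well-orders. -/

set_option autoImplicit false

namespace Pool.Agent.H95.KlO

/-- a real as an oracle -/
def chi (x : ℕ → Bool) : ℕ →. ℕ := fun n => Part.some (x n).toNat

/-- the join of two reals -/
def join (x y : ℕ → Bool) : ℕ → Bool := fun n => if n % 2 = 0 then x (n / 2) else y (n / 2)

/-- oracle programs; the clauses are those of `Nat.RecursiveIn` -/
inductive OC : Type
  | zero | succ | left | right | oracle
  | pair (a b : OC) | comp (a b : OC) | prec (a b : OC) | rfind (a : OC)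

/-- the function computed by an oracle program with oracle `g` -/
def OC.eval (g : ℕ →. ℕ) : OC → ℕ →. ℕ
  | zero => fun _ => 0
  | succ => Nat.succ
  | left => fun n => (Nat.unpair n).1
  | right => fun n => (Nat.unpair n).2
  | oracle => g
  | pair a b => fun n => Nat.pair <$> a.eval g n <*> b.eval g n
  | comp a b => fun n => b.eval g n >>= a.eval g
  | prec a b => fun p => (Nat.unpair p).2.rec (a.eval g (Nat.unpair p).1) fun y IH => do
      let i ← IH
      b.eval g (Nat.pair (Nat.unpair p).1 (Nat.pair y i))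
  | rfind a => fun x => Nat.rfind fun n => (fun m => m = 0) <$> a.eval g (Nat.pair x n)

/-- the Goedel number of a program -/
def OC.num : OC → ℕ
  | zero => 0
  | succ => 1
  | left => 2
  | right => 3
  | oracle => 4
  | pair a b => 4 * Nat.pair a.num b.num + 5
  | comp a b => 4 * Nat.pair a.num b.num + 6
  | prec a b => 4 * Nat.pair a.num b.num + 7
  | rfind a => 4 * a.num + 8

/-- Kleene's ordering of ordinal notations relative to `x` -/
inductive LtO (x : ℕ → Bool) : ℕ → ℕ → Prop
  | one : LtO x 1 2
  | succ {a b : ℕ} : LtO x a b → LtO x b (2 ^ b)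
  | lim (c : OC) (f : ℕ → ℕ) : (∀ n, f n ∈ c.eval (chi x) n) → (∀ n, LtO x (f n) (f (n + 1))) →
      ∀ n, LtO x (f n) (3 * 5 ^ c.num)
  | trans {a b c : ℕ} : LtO x a b → LtO x b c → LtO x a c

open Classical in
/-- Kleene's O relative to `x`: the field of `LtO x` -/
noncomputable def kleeneO (x : ℕ → Bool) : ℕ → Bool :=
  fun a => decide (∃ b, LtO x a b ∨ LtO x b a)

/-- `F` clarifies the well-orderings of the naturals, a relation `r` being coded by `d r` -/
def Clarifies (d : (ℕ → ℕ → Prop) → ℕ → Bool) (F : (ℕ → Bool) → ℕ → Bool) : Prop :=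
  ∀ r s : ℕ → ℕ → Prop, IsWellOrder ℕ r → IsWellOrder ℕ s → Nonempty (r ≃r s) →
    ∃ i : r ≃r s, ComputableIn {chi (join (F (d r)) (F (d s)))} (i : ℕ → ℕ)

end Pool.Agent.H95.KlO
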