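import Pool.Agent.H95.KrDefs

/-! A product of two sequential spaces which is a k_R-space but not a k-space. -/

set_option autoImplicit false

namespace Pool.Agent.H95.Kr

open Set Filter Topology Function
open scoped Classical

abbrev N := ℕ × ℕ

lemma exists_mad : ∃ 𝒜 : Set (Set N), (∀ A ∈ 𝒜, A.Infinite) ∧
    (∀ A ∈ 𝒜, ∀ B ∈ 𝒜, A ≠ B → (A ∩ B).Finite) ∧
    (∀ B : Set N, B.Infinite → ∃ A ∈ 𝒜, (A ∩ B).Infinite) ∧ 𝒜.Infinite := by
  let col : ℕ → Set N := fun i => {p | p.1 = i}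
  have hc : Injective col := fun i j h => by
    have : (i, 0) ∈ col j := h ▸ rfl
    exact this
  obtain ⟨𝒜, h0, hm⟩ := zorn_subset_nonempty {𝒜 : Set (Set N) | (∀ A ∈ 𝒜, A.Infinite) ∧
      ∀ A ∈ 𝒜, ∀ B ∈ 𝒜, A ≠ B → (A ∩ B).Finite} (fun c hc hch _ => ⟨⋃₀ c, ⟨by
        rintro A ⟨s, hs, hA⟩
        exact (hc hs).1 A hA, by
        rintro A ⟨s, hs, hA⟩ B ⟨t, ht, hB⟩ hne
        rcases hch.total hs ht with h | h
        · exact (hc ht).2 A (h hA) B hB hne
        · exact (hc hs).2 A hA B (h hB) hne⟩,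
      fun s hs => subset_sUnion_of_mem hs⟩) (range col) ⟨by
        rintro _ ⟨i, rfl⟩
        exact infinite_of_injective_forall_mem (f := fun j => (i, j))
          (fun a b h => (Prod.ext_iff.1 h).2) fun _ => rfl, by
        rintro _ ⟨i, rfl⟩ _ ⟨j, rfl⟩ hne
        refine Set.finite_empty.subset fun p hp => hne ?_
        rw [show i = j from hp.1.symm.trans hp.2]⟩
  refine ⟨𝒜, hm.prop.1, hm.prop.2, fun B hB => ?_, (infinite_range_of_injective hc).mono h0⟩
  by_contra h
  push Not at h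
  refine hB (inter_self B ▸ (h B (hm.le_of_ge (y := insert B 𝒜) ⟨?_, ?_⟩ (subset_insert _ _)
    (mem_insert _ _))))
  · rintro A (rfl | hA)
    exacts [hB, hm.prop.1 A hA]
  · rintro A (rfl | hA) A' (rfl | hA') hne
    · exact absurd rfl hne
    · exact inter_comm A A' ▸ h A' hA'
    · exact h A hA
    · exact hm.prop.2 A hA A' hA' hne

/-- the topology generated by a family of clopen sets -/
@[reducible] noncomputable def top {Z I : Type} (C : I → Set Z) : TopologicalSpace Z :=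
  TopologicalSpace.induced (fun z i => decide (z ∈ C i)) inferInstance

lemma clopen {Z I : Type} (C : I → Set Z) (i : I) : @IsClopen Z (top C) (C i) := by
  letI := top C
  have h : Continuous fun z => decide (z ∈ C i) :=
    (continuous_apply i).comp (continuous_induced_dom (f := fun z i => decide (z ∈ C i)))
  have := (isClopen_discrete {true}).preimage h
  rwa [show (fun z => decide (z ∈ C i)) ⁻¹' {true} = C i from by ext; simp] at this

lemma tend {Z I α : Type} (C : I → Set Z) {u : α → Z} {l : Filter α} {z : Z}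
    (h : ∀ i, ∀ᶠ n in l, (u n ∈ C i ↔ z ∈ C i)) : Tendsto u l (@nhds Z (top C) z) := by
  rw [nhds_induced, tendsto_comap_iff, tendsto_pi_nhds]
  exact fun i => tendsto_const_nhds.congr' ((h i).mono fun n hn => by simp [hn])

lemma t35 {Z I : Type} (C : I → Set Z) (h : ∀ z z', (∀ i, z ∈ C i ↔ z' ∈ C i) → z = z') :
    @T35Space Z (top C) := by
  letI := top C
  refine IsEmbedding.t35Space (f := fun z i => decide (z ∈ C i)) ⟨⟨rfl⟩, fun z z' e => ?_⟩
  exact h z z' fun i => by simpa using congrFun e i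

/-- the sequential fan -/
def S : Type := Option N

def CS : N ⊕ (ℕ → ℕ) → Set S
  | .inl p => {some p}
  | .inr f => {y | ∀ p, y = some p → f p.1 ≤ p.2}

noncomputable instance : TopologicalSpace S := top CS

instance : T35Space S := t35 CS fun z z' h => by
  cases z with
  | some p => exact ((h (.inl p)).1 rfl).symm
  | none =>
    cases z' with
    | some p => exact (h (.inl p)).2 rfl
    | none => rfl

lemma S_tend (m : ℕ) {j : ℕ → ℕ} (hj : Tendsto j atTop atTop) :
    Tendsto (fun k => (some (m, j k) : S)) atTop (@nhds S _ none) := by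
  refine tend CS fun i => ?_
  cases i with
  | inl p =>
    filter_upwards [hj.eventually_gt_atTop p.2] with k hk
    refine iff_of_false (fun h => ?_) fun h => by cases h
    cases h
    exact lt_irrefl _ hk
  | inr f =>
    filter_upwards [hj.eventually_ge_atTop (f m)] with k hk
    exact iff_of_true (fun p h => by cases h; exact hk) fun p h => by cases h

instance : SequentialSpace S := ⟨fun A hA => isOpen_compl_iff.1 (isOpen_iff_mem_nhds.2 fun y hy => by
  cases y with
  | some p =>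
    exact mem_of_superset ((clopen CS (.inl p)).isOpen.mem_nhds rfl) fun z hz => hz ▸ hy
  | none =>
    have : ∀ m, ∃ J, ∀ j, J ≤ j → (some (m, j) : S) ∉ A := fun m => by
      by_contra h
      push Not at h
      choose j h1 h2 using h
      exact hy (hA h2 (S_tend m (tendsto_atTop_mono h1 tendsto_id)))
    choose f hf using this
    refine mem_of_superset ((clopen CS (.inr f)).isOpen.mem_nhds fun p h => by cases h)
      fun z hz => ?_
    cases z with
    | some p => exact hf p.1 p.2 (hz p rfl)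
    | none => exact hy)⟩

lemma fin_of_cover {Z ι : Type} [TopologicalSpace Z] {K D : Set Z} (hK : IsCompact K)
    (hD : IsClosed D) (d : ι → Z) (U : ι → Set Z) (hU : ∀ i, IsOpen (U i))
    (h1 : D ⊆ ⋃ i, U i) (h2 : ∀ i j, d i ∈ U j → i = j) (h3 : ∀ i, d i ∈ D) :
    {i | d i ∈ K}.Finite := by
  obtain ⟨t, ht⟩ := (hK.inter_right hD).elim_finite_subcover U hU (inter_subset_right.trans h1)
  refine t.finite_toSet.subset fun i hi => ?_
  obtain ⟨j, hj, h⟩ := mem_iUnion₂.1 (ht ⟨hi, h3 i⟩)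
  exact h2 i j h ▸ hj

lemma S_cpt {K : Set S} (hK : IsCompact K) : {m | ∃ j, (some (m, j) : S) ∈ K}.Finite := by
  have : ∀ m, ∃ j, (∃ j, (some (m, j) : S) ∈ K) → (some (m, j) : S) ∈ K := fun m => by
    by_cases h : ∃ j, (some (m, j) : S) ∈ K
    · exact ⟨h.choose, fun _ => h.choose_spec⟩
    · exact ⟨0, fun h' => absurd h' h⟩
  choose j hj using this
  refine (fin_of_cover hK (clopen CS (.inr fun m => j m + 1)).isOpen.isClosed_compl
    (fun m => (some (m, j m) : S)) (fun m => ⋃ i, CS (.inl (m, i)))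
    (fun m => isOpen_iUnion fun i => (clopen CS _).isOpen) (fun y hy => ?_) (fun m m' h => ?_)
    fun m h => ?_).subset fun m hm => hj m hm
  · cases y with
    | some p => exact mem_iUnion₂.2 ⟨p.1, p.2, rfl⟩
    | none => exact absurd (fun p h => by cases h) hy
  · obtain ⟨i, hi⟩ := mem_iUnion.1 h
    cases hi
    rfl
  · have := h _ rfl
    simp at this

/-- countably many Mrowka spaces converging to a point -/
def X (𝒜 : Set (Set N)) : Type := Option (ℕ × (N ⊕ 𝒜))

variable {𝒜 : Set (Set N)}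

def pt (p : ℕ × N) : X 𝒜 := some (p.1, .inl p.2)

def CX : (ℕ × N) ⊕ (ℕ × 𝒜) ⊕ ℕ → Set (X 𝒜)
  | .inl p => {pt p}
  | .inr (.inl q) => {z | z = some (q.1, .inr q.2) ∨ ∃ n ∈ q.2.1, z = pt (q.1, n)}
  | .inr (.inr m) => {z | ∃ w, z = some (m, w)}

noncomputable instance : TopologicalSpace (X 𝒜) := top CX

instance : T35Space (X 𝒜) := t35 CX fun z z' h => by
  have key : ∀ z z' : X 𝒜, (∀ i, z ∈ CX i ↔ z' ∈ CX i) → (∀ p, z' ≠ pt p) → ∀ q, z = some q →
      z = z' := fun z z' h h1 q e => by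
    obtain ⟨m, w⟩ := q
    cases w with
    | inl n => exact absurd ((h (.inl (m, n))).1 e) (h1 _)
    | inr A =>
      rcases (h (.inr (.inl (m, A)))).1 (Or.inl e) with h2 | ⟨n, -, h2⟩
      · exact e.trans h2.symm
      · exact absurd h2 (h1 _)
  by_cases h1 : ∃ p, z' = pt p
  · obtain ⟨p, rfl⟩ := h1
    exact (h (.inl p)).2 rfl
  push Not at h1
  cases z with
  | some q => exact key _ _ h h1 q rfl
  | none =>
    cases z' with
    | some q => exact (key _ _ (fun i => (h i).symm) (fun p e => by cases e) q rfl).symm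
    | none => rfl

lemma X_inf {u : ℕ → ℕ × (N ⊕ 𝒜)} (h : ∀ m, ∀ᶠ k in atTop, (u k).1 ≠ m) :
    Tendsto (fun k => (some (u k) : X 𝒜)) atTop (@nhds (X 𝒜) _ none) := by
  refine tend CX fun i => ?_
  rcases i with p | q | m
  · exact (h p.1).mono fun k hk => iff_of_false
      (fun e => hk (congrArg Prod.fst (Option.some.inj e))) fun e => by cases e
  · refine (h q.1).mono fun k hk => iff_of_false ?_ ?_
    · rintro (e | ⟨n, -, e⟩) <;> exact hk (congrArg Prod.fst (Option.some.inj e))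
    · rintro (e | ⟨n, -, e⟩) <;> cases e
  · refine (h m).mono fun k hk => iff_of_false ?_ ?_
    · rintro ⟨w, e⟩
      exact hk (congrArg Prod.fst (Option.some.inj e))
    · rintro ⟨w, e⟩
      cases e

lemma X_tend (h2 : ∀ A ∈ 𝒜, ∀ B ∈ 𝒜, A ≠ B → (A ∩ B).Finite) (m : ℕ) (A : 𝒜) {n : ℕ → N}
    (hn : Tendsto n atTop cofinite) (hA : ∀ k, n k ∈ A.1) :
    Tendsto (fun k => (pt (m, n k) : X 𝒜)) atTop (@nhds (X 𝒜) _ (some (m, .inr A))) := by
  refine tend CX fun i => ?_
  rcases i with p | q | m'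
  · filter_upwards [hn (finite_singleton p.2).compl_mem_cofinite] with k hk
    refine iff_of_false (fun e => hk ?_) fun e => by cases e
    exact Sum.inl.inj (congrArg Prod.snd (Option.some.inj e))
  · obtain ⟨m', B⟩ := q
    by_cases h : A = B
    · subst h
      refine .of_forall fun k => ⟨?_, ?_⟩
      · rintro (e | ⟨n, -, e⟩) <;> cases e
        exact Or.inl rfl
      · rintro (e | ⟨n, -, e⟩) <;> cases e
        exact Or.inr ⟨_, hA k, rfl⟩
    · filter_upwards [hn (h2 A A.2 B B.2 fun e => h (Subtype.ext e)).compl_mem_cofinite] with k hk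
      refine iff_of_false ?_ ?_
      · rintro (e | ⟨n, h3, e⟩) <;> cases e
        exact hk ⟨hA k, h3⟩
      · rintro (e | ⟨n, h3, e⟩) <;> cases e
        exact h rfl
  · refine .of_forall fun k => ⟨?_, ?_⟩ <;> rintro ⟨w, e⟩ <;> cases e <;> exact ⟨_, rfl⟩

lemma inj_tend {B : Set N} (hB : B.Infinite) : ∃ n : ℕ → N, Tendsto n atTop cofinite ∧
    ∀ k, n k ∈ B :=
  ⟨fun k => hB.natEmbedding B k, Nat.cofinite_eq_atTop ▸ Injective.tendsto_cofinite
    (Subtype.val_injective.comp (hB.natEmbedding B).injective), fun k => (hB.natEmbedding B k).2⟩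

lemma X_seq (h2 : ∀ A ∈ 𝒜, ∀ B ∈ 𝒜, A ≠ B → (A ∩ B).Finite) : SequentialSpace (X 𝒜) :=
  ⟨fun F hF => isOpen_compl_iff.1 (isOpen_iff_mem_nhds.2 fun z hz => by
  rcases z with _ | ⟨m, n | A⟩
  · have : {m | ∃ w, (some (m, w) : X 𝒜) ∈ F}.Finite := by
      by_contra h
      choose m h1 h3 using Set.Infinite.exists_gt h
      choose w hw using h1
      exact hz (hF hw (X_inf (u := fun k => (m k, w k)) fun m' =>
        (eventually_ge_atTop m').mono fun k hk => (hk.trans_lt (h3 k)).ne'))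
    refine mem_of_superset ((this.isOpen_biInter fun m _ =>
      (clopen CX (.inr (.inr m))).compl.isOpen).mem_nhds (mem_iInter₂.2 ?_)) ?_
    · rintro m - ⟨w, e⟩
      cases e
    · rintro (_ | ⟨m, w⟩) h h'
      · exact hz h'
      · exact mem_iInter₂.1 h m ⟨w, h'⟩ ⟨w, rfl⟩
  · exact mem_of_superset ((clopen CX (.inl (m, n))).isOpen.mem_nhds rfl) fun z h => h ▸ hz
  · have : {n | n ∈ A.1 ∧ pt (m, n) ∈ F}.Finite := by
      by_contra h
      obtain ⟨n, h1, h3⟩ := inj_tend h
      exact hz (hF (fun k => (h3 k).2) (X_tend h2 m A h1 fun k => (h3 k).1))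
    refine mem_of_superset (((clopen CX (.inr (.inl (m, A)))).isOpen.inter
      (this.isOpen_biInter fun n _ => (clopen CX (.inl (m, n))).compl.isOpen)).mem_nhds
      ⟨Or.inl rfl, mem_iInter₂.2 fun n _ e => by cases e⟩) ?_
    rintro z ⟨rfl | ⟨n, h1, rfl⟩, h⟩ h'
    · exact hz h'
    · exact mem_iInter₂.1 h n ⟨h1, h'⟩ rfl)⟩

lemma X_dense (h1 : ∀ A ∈ 𝒜, A.Infinite) (h2 : ∀ A ∈ 𝒜, ∀ B ∈ 𝒜, A ≠ B → (A ∩ B).Finite)
    {U : Set (X 𝒜)} (hU : IsOpen U) {z : X 𝒜} (hz : z ∈ U) : ∃ p, pt p ∈ U := by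
  rcases z with _ | ⟨m, n | A⟩
  · obtain ⟨k, hk⟩ := ((X_inf (u := fun k => (k, .inl 0)) fun m =>
      eventually_ne_atTop m).eventually (hU.mem_nhds hz)).exists
    exact ⟨(k, 0), hk⟩
  · exact ⟨(m, n), hz⟩
  · obtain ⟨n, h3, h4⟩ := inj_tend (h1 A A.2)
    obtain ⟨k, hk⟩ := ((X_tend h2 m A h3 h4).eventually (hU.mem_nhds hz)).exists
    exact ⟨_, hk⟩

lemma X_sub (h2 : ∀ A ∈ 𝒜, ∀ B ∈ 𝒜, A ≠ B → (A ∩ B).Finite)
    (h3 : ∀ B : Set N, B.Infinite → ∃ A ∈ 𝒜, (A ∩ B).Infinite) (u : ℕ → ℕ × N) :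
    ∃ φ : ℕ → ℕ, Tendsto φ atTop atTop ∧ ∃ x : X 𝒜,
      Tendsto (fun k => pt (u (φ k))) atTop (𝓝 x) := by
  by_cases h : ∃ p, ∃ᶠ k in atTop, u k = p
  · obtain ⟨p, hp⟩ := h
    obtain ⟨φ, a, b⟩ := extraction_of_frequently_atTop hp
    exact ⟨φ, a.tendsto_atTop, pt p, by simp only [b]; exact tendsto_const_nhds⟩
  by_cases h' : ∃ m, ∃ᶠ k in atTop, (u k).1 = m
  · obtain ⟨m, hm⟩ := h'
    obtain ⟨φ, a, b⟩ := extraction_of_frequently_atTop hm
    have c : Tendsto (fun k => (u (φ k)).2) atTop cofinite := by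
      refine le_cofinite_iff_eventually_ne.2 fun n => eventually_map.2 ?_
      have := a.tendsto_atTop.eventually (not_frequently.1 fun e => h ⟨(m, n), e⟩)
      exact this.mono fun k hk e => hk (Prod.ext (b k) e)
    have d : (range fun k => (u (φ k)).2).Infinite := fun hf => by
      obtain ⟨k, hk⟩ := (c.eventually hf.compl_mem_cofinite).exists
      exact hk ⟨k, rfl⟩
    obtain ⟨A, a1, a2⟩ := h3 _ d
    have e : ∃ᶠ k in atTop, (u (φ k)).2 ∈ A := by
      rw [← Nat.cofinite_eq_atTop, frequently_cofinite_iff_infinite]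
      refine fun hf => a2 ((hf.image fun k => (u (φ k)).2).subset ?_)
      rintro _ ⟨a3, k, rfl⟩
      exact ⟨k, a3, rfl⟩
    obtain ⟨ψ, a', b'⟩ := extraction_of_frequently_atTop e
    refine ⟨φ ∘ ψ, a.tendsto_atTop.comp a'.tendsto_atTop, _,
      (X_tend h2 m ⟨A, a1⟩ (c.comp a'.tendsto_atTop) b').congr fun k => ?_⟩
    rw [← b (ψ k)]
    rfl
  · exact ⟨id, tendsto_id, _, X_inf (u := fun k => ((u k).1, .inl (u k).2)) fun m =>
      not_frequently.1 fun e => h' ⟨m, e⟩⟩

lemma X_cpt {K : Set (X 𝒜)} (hK : IsCompact K) (m : ℕ) :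
    {A : 𝒜 | (some (m, .inr A) : X 𝒜) ∈ K}.Finite := by
  refine fin_of_cover hK ((clopen CX (.inr (.inr m))).isClosed.inter
    (isOpen_iUnion fun p => (clopen CX (.inl p)).isOpen).isClosed_compl)
    (fun A : 𝒜 => (some (m, .inr A) : X 𝒜)) (fun A => CX (.inr (.inl (m, A))))
    (fun A => (clopen CX _).isOpen) ?_ ?_ fun A => ⟨⟨_, rfl⟩, fun h => ?_⟩
  · rintro z ⟨⟨n | A, rfl⟩, h⟩
    · exact (h (mem_iUnion.2 ⟨(m, n), rfl⟩)).elim
    · exact mem_iUnion.2 ⟨A, Or.inl rfl⟩
  · rintro A B (e | ⟨n, -, e⟩) <;> cases e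
    rfl
  · obtain ⟨p, e⟩ := mem_iUnion.1 h
    cases e

theorem not_k (h4 : 𝒜.Infinite) : ¬ IsKSpace (X 𝒜 × S) := fun h => by
  let a := h4.natEmbedding 𝒜
  let d : N → X 𝒜 × S := fun p => (some (p.1, .inr (a p.2)), some p)
  have hc := h (range d) fun K hK => by
    refine Set.Finite.isClosed (Set.Finite.subset (Set.Finite.preimage
      Subtype.val_injective.injOn (Set.Finite.image d (s := {p | d p ∈ K}) ?_)) ?_)
    · refine (((S_cpt (hK.image continuous_snd)).biUnion fun m _ =>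
        ((X_cpt (hK.image continuous_fst) m).preimage a.injective.injOn).image
          fun j => (m, j))).subset fun p hp => ?_
      exact mem_biUnion (x := p.1) ⟨p.2, _, hp, rfl⟩ ⟨p.2, ⟨_, hp, rfl⟩, rfl⟩
    · rintro z ⟨p, hp⟩
      exact ⟨p, show d p ∈ K from hp ▸ z.2, hp⟩
  have h0 : ((none : Option _), (none : Option _)) ∈ (range d)ᶜ := by
    rintro ⟨p, e⟩
    cases e
  obtain ⟨U, hU, V, hV, h1⟩ := mem_nhds_prod_iff.1 (hc.isOpen_compl.mem_nhds h0)
  choose j hj using fun m => ((S_tend m tendsto_id).eventually hV).exists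
  obtain ⟨k, hk⟩ := ((X_inf (u := fun k => (k, .inr (a (j k)))) fun m =>
    eventually_ne_atTop m).eventually hU).exists
  exact h1 (mk_mem_prod hk (hj k)) ⟨(k, j k), rfl⟩

theorem is_kr (h1 : ∀ A ∈ 𝒜, A.Infinite) (h2 : ∀ A ∈ 𝒜, ∀ B ∈ 𝒜, A ≠ B → (A ∩ B).Finite)
    (h3 : ∀ B : Set N, B.Infinite → ∃ A ∈ 𝒜, (A ∩ B).Infinite) : IsKRSpace (X 𝒜 × S) := by
  refine ⟨inferInstance, fun f hf => ?_⟩
  haveI := X_seq h2
  have hs : ∀ (u : ℕ → X 𝒜 × S) z, Tendsto u atTop (𝓝 z) →
      Tendsto (fun k => f (u k)) atTop (𝓝 (f z)) := fun u z hu =>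
    ((hf _ hu.isCompact_insert_range).tendsto ⟨z, mem_insert _ _⟩).comp
      (tendsto_subtype_rng.2 hu : Tendsto (fun k => (⟨u k, Or.inr ⟨k, rfl⟩⟩ :
        (insert z (range u) : Set _))) atTop _)
  have c1 : ∀ y, Continuous fun x => f (x, y) := fun y => SeqContinuous.continuous
    fun u x hu => hs _ _ (hu.prodMk_nhds tendsto_const_nhds)
  have un : ∀ ε > 0, ∀ m, ∃ J, ∀ j, J ≤ j → ∀ x,
      dist (f (x, (some (m, j) : Option _))) (f (x, (none : Option _))) ≤ ε := fun ε hε m => by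
    by_contra h
    push Not at h
    choose j j1 x hx using h
    choose p hp using fun J => X_dense h1 h2
      (isOpen_lt continuous_const ((c1 _).dist (c1 _))) (hx J)
    obtain ⟨φ, a, z, b⟩ := X_sub h2 h3 p
    have := (hs _ _ (b.prodMk_nhds (S_tend m ((tendsto_atTop_mono j1 tendsto_id).comp a)))).dist
      (hs _ _ (b.prodMk_nhds (@tendsto_const_nhds S _ _ none _)))
    rw [dist_self] at this
    obtain ⟨k, hk⟩ := (this.eventually (gt_mem_nhds hε)).exists
    exact lt_asymm hk (hp (φ k))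
  refine continuous_iff_continuousAt.2 fun ⟨x, y⟩ => ?_
  cases y with
  | some q =>
    refine ((c1 (some q)).comp continuous_fst).continuousAt.congr ?_
    filter_upwards [continuous_snd.continuousAt.preimage_mem_nhds
      ((clopen CS (.inl q)).isOpen.mem_nhds rfl)] with z hz
    exact congrArg f (Prod.ext rfl (Eq.symm hz))
  | none =>
    refine Metric.tendsto_nhds.2 fun ε hε => ?_
    choose J hJ using un (ε / 2) (half_pos hε)
    filter_upwards [continuous_snd.continuousAt.preimage_mem_nhds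
      ((clopen CS (.inr J)).isOpen.mem_nhds fun p h => by cases h), Metric.tendsto_nhds.1
      ((c1 (none : Option N)).comp continuous_fst).continuousAt _ (half_pos hε)] with z a b
    obtain ⟨x', y'⟩ := z
    have c : dist (f (x', y')) (f (x', (none : Option _))) ≤ ε / 2 := by
      cases y' with
      | some p => exact hJ p.1 p.2 (a p rfl) x'
      | none => rw [dist_self]; exact (half_pos hε).le
    exact (dist_triangle _ _ _).trans_lt (by
      have := add_lt_add_of_le_of_lt c b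
      rwa [add_halves] at this)

end Pool.Agent.H95.Kr
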