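import Mathlib

/-! k-spaces and k_R-spaces. -/

set_option autoImplicit false

namespace Pool.Agent.H95.Kr

/-- a set is closed as soon as its trace on every compact subspace is closed there -/
def IsKSpace (Z : Type) [TopologicalSpace Z] : Prop :=
  ∀ F : Set Z, (∀ K : Set Z, IsCompact K → IsClosed ((Subtype.val : K → Z) ⁻¹' F)) → IsClosed F

/-- Tychonoff, and real functions continuous on every compact subspace are continuous -/
def IsKRSpace (Z : Type) [TopologicalSpace Z] : Prop :=
  T35Space Z ∧ ∀ f : Z → ℝ, (∀ K : Set Z, IsCompact K → Continuous fun x : K => f x) →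
    Continuous f

end Pool.Agent.H95.Kr
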