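import Mathlib

set_option autoImplicit false

namespace Pool.Agent.H95.La
open Matrix

theorem lift_field {E L B : Type} [Field E] [CharZero E] [Field L] [CommRing B] (θ : E →+* B)
    (g : B →+* L) (hg : Function.Surjective g) (hn : IsNilpotent (RingHom.ker g)) :
    ∃ σ : L →+* B, (∀ l, g (σ l) = l) ∧ ∀ e, σ (g (θ e)) = θ e := by
  letI : Algebra E B := θ.toAlgebra
  letI : Algebra E L := (g.comp θ).toAlgebra
  obtain ⟨s, hs⟩ := exists_isTranscendenceBasis E L
  haveI := hs.isAlgebraic_field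
  haveI : Algebra.IsSeparable (IntermediateField.adjoin E (Set.range ((↑) : s → L))) L :=
    Algebra.IsAlgebraic.isSeparable_of_perfectField
  haveI : Algebra.FormallySmooth E L := .of_algebraicIndependent_of_isSeparable hs.1
  let g' : B →ₐ[E] L := { g with commutes' := fun _ => rfl }
  let σ := Algebra.FormallySmooth.liftOfSurjective (AlgHom.id E L) g' hg hn
  exact ⟨σ, fun l => Algebra.FormallySmooth.liftOfSurjective_apply (AlgHom.id E L) g' hg hn l,
    fun e => σ.commutes e⟩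

theorem ext_der {K P R : Type} [Field K] [CharZero K] [CommRing P] [CommRing R] [Algebra K P]
    [Algebra K R] [Nontrivial R] [IsReduced R] (ρ : P →ₐ[K] R) (δ : P →ₗ[K] R)
    (hδ : ∀ f g, δ (f * g) = ρ f * δ g + ρ g * δ f) (h0 : ∀ f, ρ f = 0 → δ f = 0) :
    ∃ (L : Type) (_ : Field L) (_ : Algebra K L) (τ : R →ₐ[K] L) (S : R →ₐ[K] DualNumber L),
      (∀ r, (S r).fst = τ r) ∧ ∀ f, (S (ρ f)).snd = τ (δ f) := by
  have hI : (Ideal.comap (ρ : P →+* R) ⊥) ≠ ⊤ := Ideal.comap_ne_top _ bot_ne_top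
  obtain ⟨⟨q, hq⟩⟩ := Ideal.nonempty_minimalPrimes hI
  obtain ⟨p, hp, -, hpq⟩ := Ideal.exists_comap_eq_of_mem_minimalPrimes (ρ : P →+* R) q hq
  haveI hqp : q.IsPrime := hq.1.1
  let L := FractionRing (R ⧸ p)
  let τ : R →ₐ[K] L := (IsScalarTower.toAlgHom K (R ⧸ p) L).comp (Ideal.Quotient.mkₐ K p)
  have hτ : ∀ r, τ r = 0 ↔ r ∈ p := fun r => by
    simp only [τ, AlgHom.comp_apply, IsScalarTower.coe_toAlgHom', Ideal.Quotient.mkₐ_eq_mk]
    rw [map_eq_zero_iff _ (IsFractionRing.injective (R ⧸ p) L), Ideal.Quotient.eq_zero_iff_mem]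
  have hq' : ∀ f, τ (ρ f) = 0 ↔ f ∈ q := fun f => by rw [hτ, ← hpq]; rfl
  have hδq : ∀ a ∈ q, τ (δ a) = 0 := by
    intro a ha
    have h1 : algebraMap P (Localization.AtPrime q) a ∈
        ((Ideal.comap (ρ : P →+* R) ⊥).map (algebraMap P (Localization.AtPrime q))).radical := by
      rw [IsLocalization.AtPrime.radical_map_of_mem_minimalPrimes _ q _ hq]
      exact Ideal.mem_map_of_mem _ ha
    obtain ⟨n, hn⟩ := h1
    rw [← map_pow, IsLocalization.algebraMap_mem_map_algebraMap_iff q.primeCompl] at hn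
    obtain ⟨s, hs, hsa⟩ := hn
    have h2 : ρ s * ρ a ^ n = 0 := by simpa using hsa
    have h3 : ρ (s * a) = 0 := IsReduced.eq_zero _ ⟨n + 1, by
      rw [map_mul, mul_pow, pow_succ, pow_succ]
      linear_combination (ρ s ^ n * ρ a) * h2⟩
    have h4 := congrArg τ (h0 _ h3)
    rw [hδ, map_add, map_mul, map_mul, (hq' a).2 ha, zero_mul, add_zero, map_zero] at h4
    exact (mul_eq_zero.1 h4).resolve_left fun h => hs ((hq' s).1 h)
  have hδ1 : δ 1 = 0 := by simpa using hδ 1 1
  let θ : P →+* DualNumber L :=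
    { toFun := fun f => ⟨τ (ρ f), τ (δ f)⟩
      map_one' := by ext <;> simp [hδ1]
      map_mul' := fun f g => by ext <;> simp [hδ, mul_comm]
      map_zero' := by ext <;> simp
      map_add' := fun f g => by ext <;> simp }
  have hθ1 : ∀ f, (θ f).fst = τ (ρ f) := fun _ => rfl
  have hθ2 : ∀ f, (θ f).snd = τ (δ f) := fun _ => rfl
  let θ1 : P ⧸ q →+* DualNumber L := Ideal.Quotient.lift q θ fun a ha => by
    ext
    · rw [hθ1]; exact (hq' a).2 ha
    · rw [hθ2]; exact hδq a ha
  let E := FractionRing (P ⧸ q)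
  have hu : ∀ y : nonZeroDivisors (P ⧸ q), IsUnit (θ1 y) := by
    rintro ⟨y, hy⟩
    obtain ⟨f, rfl⟩ := Ideal.Quotient.mk_surjective y
    rw [TrivSqZeroExt.isUnit_iff_isUnit_fst]
    refine IsUnit.mk0 _ fun h => nonZeroDivisors.ne_zero hy ?_
    exact Ideal.Quotient.eq_zero_iff_mem.2 ((hq' f).1 h)
  let θ2 : E →+* DualNumber L := IsLocalization.lift hu
  haveI : CharZero E := charZero_of_injective_algebraMap (algebraMap K E).injective
  obtain ⟨σ, h1, h2⟩ := lift_field θ2 (TrivSqZeroExt.fstHom L L L).toRingHom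
    (fun l => ⟨TrivSqZeroExt.inl l, rfl⟩) ⟨2, by
      rw [pow_two, Ideal.zero_eq_bot, eq_bot_iff, Ideal.mul_le]
      intro x hx y hy
      have hx' : x.fst = 0 := hx
      have hy' : y.fst = 0 := hy
      rw [Ideal.mem_bot]
      ext <;> simp [hx', hy']⟩
  have h3 : ∀ f, σ (τ (ρ f)) = θ f := fun f => by
    have := h2 (algebraMap (P ⧸ q) E (Ideal.Quotient.mk q f))
    rwa [show θ2 (algebraMap (P ⧸ q) E (Ideal.Quotient.mk q f)) = θ f from
      IsLocalization.lift_eq hu _] at this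
  refine ⟨L, inferInstance, inferInstance, τ, { σ.comp (τ : R →+* L) with commutes' := fun c => ?_ },
    fun r => h1 _, fun f => congrArg TrivSqZeroExt.snd (h3 f)⟩
  have := h3 (algebraMap K P c)
  rw [ρ.commutes] at this
  refine this.trans ?_
  ext
  · simp [hθ1, TrivSqZeroExt.algebraMap_eq_inl']
  · rw [hθ2, Algebra.algebraMap_eq_smul_one, map_smul, hδ1]
    simp [TrivSqZeroExt.algebraMap_eq_inl']

variable {K : Type} [Field K] {n : ℕ} (c : Fin n → Fin n → Fin n → K)

def mu (B : Type) [CommRing B] [Algebra K B] :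
    (Fin n → B) →ₗ[B] (Fin n → B) →ₗ[B] (Fin n → B) :=
  LinearMap.mk₂ B (fun x y k => ∑ i, ∑ j, algebraMap K B (c i j k) * x i * y j)
    (fun x x' y => by ext k; simp [mul_add, add_mul, Finset.sum_add_distrib])
    (fun a x y => by ext k; simp [Finset.mul_sum, mul_assoc, mul_left_comm])
    (fun x y y' => by ext k; simp [mul_add, Finset.sum_add_distrib])
    (fun a x y => by ext k; simp [Finset.mul_sum, mul_assoc, mul_left_comm])

variable {B B' : Type} [CommRing B] [Algebra K B] [CommRing B'] [Algebra K B']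

def Au (M : Matrix (Fin n) (Fin n) B) : Prop :=
  ∀ a b k, ∑ l, M k l * algebraMap K B (c a b l) =
    ∑ i, ∑ j, algebraMap K B (c i j k) * M i a * M j b

variable {c}

theorem au_iff {M : Matrix (Fin n) (Fin n) B} :
    Au c M ↔ ∀ x y, M *ᵥ mu c B x y = mu c B (M *ᵥ x) (M *ᵥ y) := by
  have key : ∀ a b k, (M *ᵥ mu c B (Pi.single a 1) (Pi.single b 1)) k =
      ∑ l, M k l * algebraMap K B (c a b l) := fun a b k => by
    simp [mu, mulVec, dotProduct, Pi.single_apply]
  have key2 : ∀ a b k, mu c B (M *ᵥ Pi.single a 1) (M *ᵥ Pi.single b 1) k =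
      ∑ i, ∑ j, algebraMap K B (c i j k) * M i a * M j b := fun a b k => by
    simp [mu]
  constructor
  · intro h x y
    have : (mu c B).compr₂ M.mulVecLin = (mu c B).compl₁₂ M.mulVecLin M.mulVecLin := by
      refine (Pi.basisFun B (Fin n)).ext fun a => (Pi.basisFun B (Fin n)).ext fun b => ?_
      ext k
      simp only [Pi.basisFun_apply, LinearMap.compr₂_apply, LinearMap.compl₁₂_apply,
        mulVecLin_apply]
      rw [key, key2, h]
    exact LinearMap.congr_fun₂ this x y
  · intro h a b k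
    rw [← key, ← key2, h]

theorem Au.map {M : Matrix (Fin n) (Fin n) B} (h : Au c M) (φ : B →ₐ[K] B') :
    Au c (M.map φ) := fun a b k => by
  simpa [map_sum] using congrArg φ (h a b k)

theorem Au.mul {M N : Matrix (Fin n) (Fin n) B} (h : Au c M) (h' : Au c N) : Au c (M * N) :=
  au_iff.2 fun x y => by
    rw [← mulVec_mulVec, ← mulVec_mulVec, ← mulVec_mulVec, au_iff.1 h', au_iff.1 h]

/-- the tangent lemma -/
theorem tangent [CharZero K] {P R : Type} [CommRing P] [CommRing R] [Algebra K P]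
    [Algebra K R] [Nontrivial R] [IsReduced R] (ρ : P →ₐ[K] R) (δ : P →ₗ[K] R)
    (hδ : ∀ f g, δ (f * g) = ρ f * δ g + ρ g * δ f) (h0 : ∀ f, ρ f = 0 → δ f = 0)
    (γ γ' : Matrix (Fin n) (Fin n) R) (h1 : γ' * γ = 1) (ha : Au c γ) (ha' : Au c γ')
    (x v : Fin n → K) (X : Fin n → P) (hx : ∀ i, ρ (X i) = ∑ j, γ i j * algebraMap K R (x j))
    (hv : ∀ i, δ (X i) = ∑ j, γ i j * algebraMap K R (v j)) :
    ∃ ξ : Matrix (Fin n) (Fin n) K, ξ *ᵥ x = v ∧
      ∀ a b k, ∑ l, ξ k l * c a b l = ∑ i, c i b k * ξ i a + ∑ j, c a j k * ξ j b := by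
  obtain ⟨L, _, _, τ, S, s1, s2⟩ := ext_der ρ δ hδ h0
  obtain ⟨pr, hpr⟩ : ∃ pr : L →ₗ[K] K, pr 1 = 1 := by
    obtain ⟨g, -, h2⟩ := LinearMap.exists_extend_of_notMem (0 : (⊥ : Submodule K L) →ₗ[K] K)
      (v := 1) (by simp) 1
    exact ⟨g, h2⟩
  have hp : ∀ (a : K) (l : L), pr (l * algebraMap K L a) = pr l * a := fun a l => by
    rw [mul_comm, ← Algebra.smul_def, map_smul, smul_eq_mul, mul_comm]
  let ι : R →ₐ[K] DualNumber L := (TrivSqZeroExt.inlAlgHom K L L).comp τ
  set N := γ'.map ι * γ.map S with hN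
  have hNa : Au c N := (ha'.map ι).mul (ha.map S)
  have hτ : ∀ i j, ∑ l, τ (γ' i l) * τ (γ l j) = if i = j then 1 else 0 := fun i j => by
    have := congrArg τ (congrFun (congrFun h1 i) j)
    simpa [Matrix.mul_apply, map_sum, Matrix.one_apply, apply_ite τ] using this
  have n1 : ∀ i j, (N i j).fst = if i = j then 1 else 0 := fun i j => by
    rw [← hτ]; simp [hN, Matrix.mul_apply, TrivSqZeroExt.fst_sum, ι, s1]
  have n2 : ∀ i j, (N i j).snd = ∑ l, τ (γ' i l) * (S (γ l j)).snd := fun i j => by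
    simp [hN, Matrix.mul_apply, TrivSqZeroExt.snd_sum, ι]
  refine ⟨fun i j => pr (N i j).snd, ?_, fun a b k => ?_⟩
  · ext i
    have e1 : ∀ l, ∑ j, (S (γ l j)).snd * algebraMap K L (x j) =
        ∑ j, τ (γ l j) * algebraMap K L (v j) := fun l => by
      have := s2 (X l)
      rw [hx, hv] at this
      simpa [map_sum, TrivSqZeroExt.snd_sum, TrivSqZeroExt.algebraMap_eq_inl'] using this
    have e2 : ∑ j, (N i j).snd * algebraMap K L (x j) = algebraMap K L (v i) := by
      simp only [n2, Finset.sum_mul, mul_assoc]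
      rw [Finset.sum_comm]
      simp only [← Finset.mul_sum, e1]
      simp only [Finset.mul_sum, ← mul_assoc]
      rw [Finset.sum_comm]
      simp [← Finset.sum_mul, hτ]
    have := congrArg pr e2
    rw [map_sum, ← one_mul (algebraMap K L (v i)), hp, hpr, one_mul] at this
    simpa [hp, mulVec, dotProduct] using this
  · have := congrArg TrivSqZeroExt.snd (hNa a b k)
    have e : ∑ l, (N k l).snd * algebraMap K L (c a b l) =
        ∑ i, (N i a).snd * algebraMap K L (c i b k) + ∑ j, (N j b).snd * algebraMap K L (c a j k) := by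
      simp only [TrivSqZeroExt.snd_sum, TrivSqZeroExt.algebraMap_eq_inl', DualNumber.snd_mul,
        TrivSqZeroExt.fst_mul, TrivSqZeroExt.fst_inl, TrivSqZeroExt.snd_inl, n1, mul_zero,
        zero_add, zero_mul, add_zero, Finset.sum_add_distrib] at this
      rw [this, add_comm]
      congr 1
      · simp [mul_comm]
      · rw [Finset.sum_comm]; simp [mul_comm]
    have e' := congrArg pr e
    simp only [map_add, map_sum, hp] at e'
    simpa only [mul_comm] using e'

end Pool.Agent.H95.La
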