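import Mathlib

set_option autoImplicit false

namespace Pool.Agent.H95.LaDefs

variable {𝕜 : Type} [RCLike 𝕜] {n : ℕ}

/-- `ψ ∈ GL(𝕜ⁿ)` is an automorphism of the algebra `(𝕜ⁿ, m)`. -/
def IsAut (m : (Fin n → 𝕜) →ₗ[𝕜] (Fin n → 𝕜) →ₗ[𝕜] (Fin n → 𝕜))
    (ψ : ((Fin n → 𝕜) →L[𝕜] (Fin n → 𝕜))ˣ) : Prop :=
  ∀ x y, ψ.val (m x y) = m (ψ.val x) (ψ.val y)

/-- `φ` is a local automorphism of the algebra `(𝕜ⁿ, m)`. -/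
def IsLocAut (m : (Fin n → 𝕜) →ₗ[𝕜] (Fin n → 𝕜) →ₗ[𝕜] (Fin n → 𝕜))
    (φ : (Fin n → 𝕜) →L[𝕜] (Fin n → 𝕜)) : Prop :=
  ∀ x, ∃ ψ, IsAut m ψ ∧ φ x = ψ.val x

end Pool.Agent.H95.LaDefs
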