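import Pool.Agent.H95.La1
import Pool.Agent.H95.LaDefs

set_option autoImplicit false

namespace Pool.Agent.H95.La
open Matrix Pool.Agent.H95.LaDefs Filter Topology NormedSpace

variable {𝕜 : Type} [RCLike 𝕜] {n : ℕ}
  {m : (Fin n → 𝕜) →ₗ[𝕜] (Fin n → 𝕜) →ₗ[𝕜] (Fin n → 𝕜)}

theorem aut_one : IsAut m 1 := fun _ _ => rfl

theorem aut_mul {g h : ((Fin n → 𝕜) →L[𝕜] (Fin n → 𝕜))ˣ} (hg : IsAut m g) (hh : IsAut m h) :
    IsAut m (g * h) := fun x y => by
  show g.val (h.val (m x y)) = m (g.val (h.val x)) (g.val (h.val y))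
  rw [hh, hg]

theorem inv_app (g : ((Fin n → 𝕜) →L[𝕜] (Fin n → 𝕜))ˣ) (x : Fin n → 𝕜) :
    (g⁻¹).val (g.val x) = x := by
  show ((g⁻¹).val * g.val) x = x
  rw [Units.inv_mul]; rfl

theorem app_inv (g : ((Fin n → 𝕜) →L[𝕜] (Fin n → 𝕜))ˣ) (x : Fin n → 𝕜) :
    g.val ((g⁻¹).val x) = x := inv_app g⁻¹ x

theorem aut_inv {g : ((Fin n → 𝕜) →L[𝕜] (Fin n → 𝕜))ˣ} (hg : IsAut m g) : IsAut m g⁻¹ :=
  fun x y => by
  conv_lhs => rw [← app_inv g x, ← app_inv g y, ← hg, inv_app]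

theorem app_sum (h : (Fin n → 𝕜) →ₗ[𝕜] (Fin n → 𝕜)) (y : Fin n → 𝕜) (i : Fin n) :
    h y i = ∑ l, h (Pi.single l 1) i * y l := by
  conv_lhs => rw [pi_eq_sum_univ' y]
  simp only [map_sum, map_smul, Finset.sum_apply, Pi.smul_apply, smul_eq_mul, mul_comm]

theorem m_sum (x y : Fin n → 𝕜) (k : Fin n) :
    m x y k = ∑ i, ∑ j, m (Pi.single i 1) (Pi.single j 1) k * x i * y j := by
  have := app_sum (m.flip y) x k
  simp only [LinearMap.flip_apply] at this
  rw [this]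
  refine Finset.sum_congr rfl fun i _ => ?_
  rw [app_sum (m _) y, Finset.sum_mul]
  exact Finset.sum_congr rfl fun j _ => by ring

def Der (m : (Fin n → 𝕜) →ₗ[𝕜] (Fin n → 𝕜) →ₗ[𝕜] (Fin n → 𝕜)) :
    Submodule 𝕜 ((Fin n → 𝕜) →L[𝕜] (Fin n → 𝕜)) where
  carrier := {ξ | ∀ x y, ξ (m x y) = m (ξ x) y + m x (ξ y)}
  add_mem' := fun {a b} ha hb x y => by
    simp only [ContinuousLinearMap.add_apply, map_add, LinearMap.add_apply, ha x y, hb x y]; abel
  zero_mem' := fun x y => by simp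
  smul_mem' := fun c a ha x y => by
    simp only [ContinuousLinearMap.smul_apply, map_smul, LinearMap.smul_apply, ha x y, smul_add]

theorem exp_aut {ξ : (Fin n → 𝕜) →L[𝕜] (Fin n → 𝕜)} (hξ : ξ ∈ Der m) :
    ∃ g, IsAut m g ∧ g.val = exp ξ := by
  letI : NormedAlgebra ℚ ((Fin n → 𝕜) →L[𝕜] (Fin n → 𝕜)) := NormedAlgebra.restrictScalars ℚ 𝕜 _
  have e1 : exp ξ * exp (-ξ) = 1 := by
    rw [← exp_add_of_commute (Commute.refl ξ).neg_right]; simp
  have e2 : exp (-ξ) * exp ξ = 1 := by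
    rw [← exp_add_of_commute (Commute.refl ξ).neg_left]; simp
  refine ⟨⟨_, _, e1, e2⟩, fun x y => ?_, rfl⟩
  let m' : (Fin n → 𝕜) →L[𝕜] (Fin n → 𝕜) →L[𝕜] (Fin n → 𝕜) := LinearMap.toContinuousLinearMap
    ((LinearMap.toContinuousLinearMap (𝕜 := 𝕜)).toLinearMap ∘ₗ m)
  have hm : ∀ a b, m' a b = m a b := fun _ _ => rfl
  have hd : ∀ t : 𝕜, HasDerivAt (fun u : 𝕜 => exp (u • (-ξ)) (m' (exp (u • ξ) x) (exp (u • ξ) y)))
      0 t := by
    intro t
    have d1 := (hasDerivAt_exp_smul_const' ξ t).clm_apply (hasDerivAt_const t x)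
    have d2 := (hasDerivAt_exp_smul_const' ξ t).clm_apply (hasDerivAt_const t y)
    have d3 := (m'.hasFDerivAt.comp_hasDerivAt t d1).clm_apply d2
    have d4 := (hasDerivAt_exp_smul_const (-ξ) t).clm_apply d3
    refine d4.congr_deriv ?_
    simp only [map_zero, add_zero, ContinuousLinearMap.mul_apply, Function.comp, hm,
      ContinuousLinearMap.neg_apply]
    rw [← map_add, hξ]
    simp
  have := is_const_of_deriv_eq_zero (fun t => (hd t).differentiableAt) (fun t => (hd t).deriv) 1 0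
  have z : ∀ η : (Fin n → 𝕜) →L[𝕜] (Fin n → 𝕜), (0 : 𝕜) • η = 0 := fun η => zero_smul 𝕜 η
  simp only [one_smul, z, exp_zero, ContinuousLinearMap.one_apply, hm] at this
  show exp ξ (m x y) = m (exp ξ x) (exp ξ y)
  rw [← this, ← ContinuousLinearMap.mul_apply, e1]; rfl

def C1 (𝕜 : Type) [RCLike 𝕜] (n : ℕ) : Subalgebra 𝕜 ((Fin n → 𝕜) → 𝕜) where
  carrier := {f | ContDiff 𝕜 1 f}
  mul_mem' := fun {a b} (ha : ContDiff 𝕜 1 a) (hb : ContDiff 𝕜 1 b) =>
    (ha.mul hb : ContDiff 𝕜 1 (a * b))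
  add_mem' := fun {a b} (ha : ContDiff 𝕜 1 a) (hb : ContDiff 𝕜 1 b) =>
    (ha.add hb : ContDiff 𝕜 1 (a + b))
  algebraMap_mem' := fun r => (contDiff_const : ContDiff 𝕜 1 fun _ : Fin n → 𝕜 => r)

theorem mem_C1 {f : (Fin n → 𝕜) → 𝕜} : f ∈ C1 𝕜 n ↔ ContDiff 𝕜 1 f := Iff.rfl

theorem tang (x v : Fin n → 𝕜) (hv : ∀ f : (Fin n → 𝕜) → 𝕜, ContDiff 𝕜 1 f →
    (∀ g, IsAut m g → f (g.val x) = 0) → fderiv 𝕜 f x v = 0) : ∃ ξ ∈ Der m, ξ x = v := by
  let G := {g // IsAut m g}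
  haveI : Nonempty G := ⟨⟨1, aut_one⟩⟩
  have hd : ∀ (f : C1 𝕜 n) z, DifferentiableAt 𝕜 f.1 z := fun f z =>
    ((mem_C1.1 f.2).differentiable one_ne_zero) z
  let ρ : C1 𝕜 n →ₐ[𝕜] (G → 𝕜) :=
    { toFun := fun f g => f.1 (g.1.val x)
      map_one' := rfl
      map_mul' := fun _ _ => rfl
      map_zero' := rfl
      map_add' := fun _ _ => rfl
      commutes' := fun _ => rfl }
  let δ : C1 𝕜 n →ₗ[𝕜] (G → 𝕜) :=
    { toFun := fun f g => fderiv 𝕜 f.1 (g.1.val x) (g.1.val v)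
      map_add' := fun f f' => by
        ext g
        show fderiv 𝕜 (f.1 + f'.1) _ _ = _
        rw [fderiv_add (hd f _) (hd f' _)]; rfl
      map_smul' := fun c f => by
        ext g
        show fderiv 𝕜 (c • f.1) _ _ = _
        rw [fderiv_const_smul (hd f _)]; rfl }
  let c : Fin n → Fin n → Fin n → 𝕜 := fun a b k => m (Pi.single a 1) (Pi.single b 1) k
  have hau : ∀ φ : G → G, Au c (Matrix.of fun i j (g : G) => (φ g).1.val (Pi.single j 1) i) := by
    intro φ a b k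
    ext g
    have h1 := congrFun ((φ g).2 (Pi.single a 1) (Pi.single b 1)) k
    rw [m_sum] at h1
    have h2 := app_sum ((φ g).1.val : _ →ₗ[𝕜] _) (m (Pi.single a 1) (Pi.single b 1)) k
    simp only [Finset.sum_apply, Pi.mul_apply, Pi.algebraMap_apply, Matrix.of_apply,
      Algebra.algebraMap_self, RingHom.id_apply]
    exact h2.symm.trans h1
  obtain ⟨ξ, h1, h2⟩ := tangent (c := c) ρ δ (fun f f' => by
      ext g
      show fderiv 𝕜 (f.1 * f'.1) _ _ = _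
      rw [fderiv_mul (hd f _) (hd f' _)]; rfl)
    (fun f hf => by
      ext g
      have := hv (f.1 ∘ g.1.val) ((mem_C1.1 f.2).comp g.1.val.contDiff) fun h hh =>
        congrFun hf ⟨g.1 * h, aut_mul g.2 hh⟩
      rw [fderiv_comp _ (hd f _) g.1.val.differentiableAt, ContinuousLinearMap.fderiv] at this
      exact this)
    _ _ (by
      ext i j g
      have h2 := app_sum ((g.1⁻¹).val : _ →ₗ[𝕜] _) (g.1.val (Pi.single j 1)) i
      simp only [ContinuousLinearMap.coe_coe, inv_app] at h2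
      simp only [Matrix.mul_apply, Finset.sum_apply, Pi.mul_apply, Matrix.of_apply]
      refine h2.symm.trans ?_
      by_cases hij : i = j <;> simp [hij, Matrix.one_apply])
    (hau id) (hau fun g => ⟨g.1⁻¹, aut_inv g.2⟩) x v
    (fun i => ⟨fun z => z i, mem_C1.2 (contDiff_apply 𝕜 𝕜 i)⟩)
    (fun i => by
      ext g
      simpa [ρ] using app_sum (g.1.val : _ →ₗ[𝕜] _) x i)
    (fun i => by
      ext g
      have : fderiv 𝕜 (fun z : Fin n → 𝕜 => z i) (g.1.val x) = ContinuousLinearMap.proj i :=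
        (ContinuousLinearMap.proj (R := 𝕜) (φ := fun _ : Fin n => 𝕜) i).fderiv
      simpa [δ, this] using app_sum (g.1.val : _ →ₗ[𝕜] _) v i)
  refine ⟨LinearMap.toContinuousLinearMap ξ.mulVecLin, fun a b => ?_, h1⟩
  have : m.compr₂ ξ.mulVecLin = m.compl₁₂ ξ.mulVecLin LinearMap.id +
      m.compl₁₂ LinearMap.id ξ.mulVecLin := by
    refine (Pi.basisFun 𝕜 (Fin n)).ext fun a => (Pi.basisFun 𝕜 (Fin n)).ext fun b => ?_
    ext k
    simp only [Pi.basisFun_apply, LinearMap.compr₂_apply, LinearMap.compl₁₂_apply,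
      mulVecLin_apply, LinearMap.add_apply, LinearMap.id_apply, Pi.add_apply]
    rw [app_sum (m _) (ξ *ᵥ _), ← LinearMap.flip_apply m (ξ *ᵥ _), app_sum (m.flip _) (ξ *ᵥ _)]
    simpa [c, mulVec, dotProduct, Pi.single_apply] using h2 a b k
  exact LinearMap.congr_fun₂ this a b

theorem loc_closed (x : Fin n → 𝕜) : ∀ᶠ z in 𝓝 x,
    z ∈ closure {y | ∃ g, IsAut m g ∧ y = g.val x} → ∃ g, IsAut m g ∧ z = g.val x := by
  let ev : Der m →ₗ[𝕜] (Fin n → 𝕜) :=
    ((ContinuousLinearMap.apply 𝕜 (Fin n → 𝕜) x).toLinearMap).comp (Der m).subtype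
  obtain ⟨s, hs⟩ := ev.rangeRestrict.exists_rightInverse_of_surjective ev.range_rangeRestrict
  obtain ⟨p, hp⟩ := (LinearMap.range ev).subtype.exists_leftInverse_of_injective
    (Submodule.ker_subtype _)
  let A := LinearMap.toContinuousLinearMap ((Der m).subtype ∘ₗ s ∘ₗ p)
  let π := LinearMap.toContinuousLinearMap ((LinearMap.range ev).subtype ∘ₗ p)
  have hA : ∀ w, A w ∈ Der m := fun w => (s (p w)).2
  have hAx : ∀ w, A w x = π w := fun w =>
    congrArg Subtype.val (LinearMap.congr_fun hs (p w))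
  have hπ : ∀ w ∈ LinearMap.range ev, π w = w := fun w hw =>
    congrArg Subtype.val (LinearMap.congr_fun hp ⟨w, hw⟩)
  have hππ : ∀ w, π (π w) = π w := fun w => hπ _ (p w).2
  let Λ : Submodule 𝕜 (Module.Dual 𝕜 (Fin n → 𝕜)) :=
    { carrier := {l | ∃ f : (Fin n → 𝕜) → 𝕜, ContDiff 𝕜 1 f ∧ (∀ g, IsAut m g → f (g.val x) = 0) ∧
        (fderiv 𝕜 f x).toLinearMap = l}
      add_mem' := by
        rintro _ _ ⟨f, h1, h2, rfl⟩ ⟨f', k1, k2, rfl⟩
        refine ⟨f + f', h1.add k1, fun g hg => by simp [h2 g hg, k2 g hg], ?_⟩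
        rw [fderiv_add (h1.differentiable one_ne_zero x) (k1.differentiable one_ne_zero x)]; rfl
      zero_mem' := ⟨fun _ => 0, contDiff_const, fun _ _ => rfl, by simp⟩
      smul_mem' := by
        rintro c _ ⟨f, h1, h2, rfl⟩
        refine ⟨c • f, h1.const_smul c, fun g hg => by simp [h2 g hg], ?_⟩
        rw [fderiv_const_smul (h1.differentiable one_ne_zero x)]; rfl }
  have hΛ : ∀ i, (LinearMap.proj i : _ →ₗ[𝕜] 𝕜) ∘ₗ (LinearMap.id - π.toLinearMap) ∈ Λ := by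
    intro i
    rw [← Subspace.dualCoannihilator_dualAnnihilator_eq (W := Λ), Submodule.mem_dualAnnihilator]
    intro v hv
    rw [Submodule.mem_dualCoannihilator] at hv
    obtain ⟨ξ, h1, h2⟩ := tang (m := m) x v fun f k1 k2 => hv _ ⟨f, k1, k2, rfl⟩
    simp [hπ v ⟨⟨ξ, h1⟩, h2⟩]
  choose f f1 f2 f3 using hΛ
  have dΘ : HasStrictFDerivAt (fun z => π z + fun i => f i z)
      (ContinuousLinearEquiv.refl 𝕜 (Fin n → 𝕜) : (Fin n → 𝕜) →L[𝕜] (Fin n → 𝕜)) x := by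
    refine (π.hasStrictFDerivAt.add (hasStrictFDerivAt_pi.2 fun i =>
      ((f1 i).contDiffAt.hasStrictFDerivAt one_ne_zero))).congr_fderiv ?_
    ext1 v
    ext i
    have := LinearMap.congr_fun (f3 i) v
    simp at this
    simp [this]
  have dE : HasStrictFDerivAt (fun w => exp (A w) x) π 0 := by
    have d1 : HasStrictFDerivAt exp (1 : ((Fin n → 𝕜) →L[𝕜] (Fin n → 𝕜)) →L[𝕜] _) (A 0) := by
      rw [map_zero]; exact hasStrictFDerivAt_exp_zero
    refine (((ContinuousLinearMap.apply 𝕜 (Fin n → 𝕜) x).hasStrictFDerivAt).comp 0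
      (d1.comp 0 A.hasStrictFDerivAt)).congr_fderiv ?_
    ext1 w
    exact hAx w
  have dΨ : HasStrictFDerivAt (fun w => π (exp (A w) x) + (w - π w))
      (ContinuousLinearEquiv.refl 𝕜 (Fin n → 𝕜) : (Fin n → 𝕜) →L[𝕜] (Fin n → 𝕜)) 0 := by
    refine ((π.hasStrictFDerivAt.comp 0 dE).add
      ((hasStrictFDerivAt_id 0).sub π.hasStrictFDerivAt)).congr_fderiv ?_
    ext1 w
    simp [hππ]
  have hinj := dΘ.eventually_left_inverse
  have hE : Tendsto (fun w => exp (A w) x) (𝓝 0) (𝓝 x) := by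
    simpa using dE.continuousAt.tendsto
  have h3 := image_mem_map (m := fun w => π (exp (A w) x) + (w - π w)) (hE.eventually hinj)
  rw [dΨ.map_nhds_eq_of_equiv] at h3
  simp only [map_zero, exp_zero, ContinuousLinearMap.one_apply, sub_self, add_zero] at h3
  filter_upwards [hinj, π.continuous.continuousAt.eventually_mem h3] with z z1 ⟨w, w1, w2⟩ hz
  obtain ⟨g, hg, hge⟩ := exp_aut (hA w)
  refine ⟨g, hg, ?_⟩
  have hfz : ∀ i, f i z = 0 := fun i =>
    closure_minimal (t := {y | f i y = 0}) (by rintro _ ⟨g, hg, rfl⟩; exact f2 i g hg)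
      (isClosed_eq (f1 i).continuous continuous_const) hz
  have h4 : π (exp (A w) x) = π z := by simpa [hππ] using congrArg π w2
  have h5 : ∀ i, f i (exp (A w) x) = 0 := fun i => hge ▸ f2 i g hg
  have w1' : dΘ.localInverse _ _ _ (π (exp (A w) x) + fun i => f i (exp (A w) x)) =
    exp (A w) x := w1
  rw [hge, ← w1', ← z1]
  simp only [h4, h5, hfz]

end Pool.Agent.H95.La
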