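import Mathlib

set_option autoImplicit false

namespace Pool.Agent.H95.LaMDefs

variable {𝕜 : Type} [RCLike 𝕜] {n : ℕ}

/-- The product on `𝕜ⁿ` with structure constants `c`: `e_i e_j = ∑ k, c i j k • e_k`. -/
def mul (c : Fin n → Fin n → Fin n → 𝕜) (x y : Fin n → 𝕜) : Fin n → 𝕜 :=
  fun k => ∑ i, ∑ j, c i j k * x i * y j

/-- The invertible matrix `g` is an automorphism of the algebra `(𝕜ⁿ, mul c)`. -/
def IsAut (c : Fin n → Fin n → Fin n → 𝕜) (g : GL (Fin n) 𝕜) : Prop :=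
  ∀ x y, g.val.mulVec (mul c x y) = mul c (g.val.mulVec x) (g.val.mulVec y)

/-- The matrix `A` is a local automorphism of the algebra `(𝕜ⁿ, mul c)`. -/
def IsLocAut (c : Fin n → Fin n → Fin n → 𝕜) (A : Matrix (Fin n) (Fin n) 𝕜) : Prop :=
  ∀ x, ∃ g, IsAut c g ∧ A.mulVec x = g.val.mulVec x

end Pool.Agent.H95.LaMDefs
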