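import Mathlib

set_option autoImplicit false

namespace Pool.Agent.H95.LimSol

open Filter Topology Set

lemma limsol (x : ℕ → ℝ) (lo hi : ℝ) (hb : ∀ n, x n ∈ Icc lo hi) (L : ℝ)
    (hL : MapClusterPt L atTop x) : ∃ y : ℕ → ℝ, y 0 = L ∧
      (∀ j, liminf x atTop ≤ y j ∧ y j ≤ limsup x atTop) ∧
      ∃ U : Ultrafilter ℕ, (U : Filter ℕ) ≤ atTop ∧ ∀ j, Tendsto (fun n => x (n - j)) U (𝓝 (y j)) := by
  obtain ⟨U, hU, hx⟩ := mapClusterPt_iff_ultrafilter.1 hL
  have h1 : ∀ j, ∃ c, Tendsto (fun n => x (n - j)) U (𝓝 c) := fun j => by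
    obtain ⟨c, -, hc⟩ := (isCompact_Icc (a := lo) (b := hi)).ultrafilter_le_nhds
      (U.map fun n => x (n - j)) (by
        rw [Ultrafilter.coe_map, le_principal_iff, mem_map]
        exact univ_mem' fun n => hb _)
    exact ⟨c, hc⟩
  choose y hy using h1
  refine ⟨y, tendsto_nhds_unique (hy 0) hx, fun j => ?_, U, hU, hy⟩
  have c : MapClusterPt (y j) atTop x := mapClusterPt_iff_ultrafilter.2
    ⟨U.map fun n => n - j, (tendsto_sub_atTop_nat j).mono_left hU, hy j⟩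
  exact ⟨c.liminf_le (isBoundedUnder_of ⟨lo, fun n => (hb n).1⟩),
    c.le_limsup (isBoundedUnder_of ⟨hi, fun n => (hb n).2⟩)⟩

variable {β : ℝ} {x : ℕ → ℝ}

lemma bdd (h1 : 3 / 4 ≤ β) (h2 : β < 1) (h0 : ∀ n, 0 ≤ x n)
    (hr : ∀ n, x (n + 3) * (β + x (n + 2)) = β + x n) : ∃ K, ∀ n, x n ≤ K := by
  refine ⟨100 + x 0 + x 1 + x 2 + x 3 + x 4, fun n => ?_⟩
  generalize hK : 100 + x 0 + x 1 + x 2 + x 3 + x 4 = K
  have := h0 0; have := h0 1; have := h0 2; have := h0 3; have := h0 4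
  induction n using Nat.strong_induction_on with
  | _ n ih =>
    by_cases hn : n < 5
    · interval_cases n <;> linarith
    obtain ⟨m, rfl⟩ : ∃ m, n = m + 5 := ⟨n - 5, by omega⟩
    have e1 : x (m + 5) * (β + x (m + 4)) = β + x (m + 2) := hr (m + 2)
    have e2 : x (m + 4) * (β + x (m + 3)) = β + x (m + 1) := hr (m + 1)
    have e3 := hr m
    have i0 := ih m (by omega)
    have i2 := ih (m + 2) (by omega)
    have p1 := h0 (m + 1); have p3 := h0 (m + 3); have p4 := h0 (m + 4)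
    have hK : 100 ≤ K := by linarith
    by_contra hc
    push Not at hc
    have a1 : K * (β + x (m + 4)) ≤ β + x (m + 2) := by
      rw [← e1]; exact mul_le_mul_of_nonneg_right hc.le (by linarith)
    have a2 : β + x (m + 4) ≤ 101 / 100 := by
      by_contra h
      push Not at h
      have := mul_lt_mul_of_pos_left h (show 0 < K by linarith)
      linarith
    have a3 : x (m + 3) ≤ 27 / 20 := by
      by_contra h
      push Not at h
      have b1 : K * (3 / 4) ≤ K * (β + x (m + 4)) := by gcongr; linarith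
      have b2 : 27 / 20 * (K * (3 / 4)) ≤ x (m + 3) * (β + x (m + 2)) :=
        mul_le_mul h.le (by linarith) (by linarith) p3
      linarith
    have a4 : x (m + 4) * (β + x (m + 3)) ≤ 26 / 100 * (47 / 20) :=
      mul_le_mul (by linarith) (by linarith) (by linarith) (by norm_num)
    linarith

lemma lowX {q X : ℝ} (h1 : 3 / 4 ≤ β) (h2 : β < 1) (q0 : 0 < q) (q1 : q ≤ 1) (X1 : 1 ≤ X)
    (t3 : (β + q) ^ 2 ≤ (X - β) * (β * (β + q) + X)) : β + 1 - 7 / 10 * (1 - q) ≤ X := by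
  have b0 : 0 < β := by linarith
  have c2 : 0 ≤ 49 / 100 + β * (7 / 10) - 1 := by linarith
  have c1 : 49 / 100 + β * (7 / 10) - 1 ≤ 7 / 10 * (β ^ 2 + 2 * β + 2) - (β + 2) := by nlinarith
  by_contra h
  push Not at h
  have k1 : (X - β) * (β * (β + q) + X) < (β + 1 - 7 / 10 * (1 - q) - β) *
      (β * (β + q) + (β + 1 - 7 / 10 * (1 - q))) :=
    mul_lt_mul'' (by linarith) (by linarith) (by linarith) (by positivity)
  have k2 := mul_le_mul_of_nonneg_left c1 (sub_nonneg.2 q1)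
  have k3 := mul_nonneg (mul_nonneg (sub_nonneg.2 q1) q0.le) c2
  linarith

lemma upY {p Y : ℝ} (h1 : 3 / 4 ≤ β) (p1 : 1 ≤ p)
    (s3 : (Y - β) * (β * (β + p) + Y) ≤ (β + p) ^ 2) : Y ≤ β + 1 + 7 / 10 * (p - 1) := by
  have b0 : 0 < β := by linarith
  have c2 : 0 ≤ 49 / 100 + β * (7 / 10) - 1 := by linarith
  have c1 : 0 ≤ 7 / 10 * (β ^ 2 + 2 * β + 2) - (β + 2) := by nlinarith
  by_contra h
  push Not at h
  have k0 : 0 ≤ β * (β + p) := mul_nonneg b0.le (by linarith)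
  have k1 : (β + 1 + 7 / 10 * (p - 1) - β) * (β * (β + p) + (β + 1 + 7 / 10 * (p - 1))) <
      (Y - β) * (β * (β + p) + Y) :=
    mul_lt_mul'' (by linarith) (by linarith) (by linarith) (by linarith)
  have k2 := mul_nonneg (sub_nonneg.2 p1) c1
  have k3 := mul_nonneg (sq_nonneg (p - 1)) c2
  linarith

lemma sideA {p q X y1 y2 y3 y4 y5 : ℝ} (b0 : 0 < β) (b1 : β < 1) (q0 : 0 < q) (p0 : 0 < p)
    (hX : X * p = β + p) (e0 : p * (β + y1) = β + y3) (e1 : y1 * (β + y2) = β + y4)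
    (e2 : y2 * (β + y3) = β + y5) (h1 : q ≤ y1) (h2 : q ≤ y2) (h3 : y3 ≤ p) (h4 : q ≤ y4)
    (h5 : y5 ≤ p) : (β + q) ^ 2 ≤ (X - β) * (β * (β + q) + X) := by
  have t1 : β + y1 ≤ X := le_of_mul_le_mul_right (by linarith) p0
  have t2 : y2 * (β + q) ≤ X := by
    have : y2 * (β + y1) ≤ X := le_of_mul_le_mul_right (by
      rw [hX, mul_assoc, mul_comm _ p, e0, e2]; linarith) p0
    have := mul_le_mul_of_nonneg_left h1 (q0.le.trans h2)
    linarith
  have y0 : 0 ≤ y2 := q0.le.trans h2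
  calc (β + q) ^ 2 = (β + q) * (β + q) := by ring
    _ ≤ (y1 * (β + y2)) * (β + q) := mul_le_mul_of_nonneg_right (by linarith) (by linarith)
    _ = y1 * (β * (β + q) + y2 * (β + q)) := by ring
    _ ≤ _ := mul_le_mul (by linarith) (by linarith) (by positivity) (by linarith)

lemma sideB {p q Y z1 z2 z3 z4 z5 : ℝ} (b0 : 0 < β) (b1 : β < 1) (q0 : 0 < q) (p0 : 0 < p)
    (hY : Y * q = β + q) (f0 : q * (β + z1) = β + z3) (f1 : z1 * (β + z2) = β + z4)
    (f2 : z2 * (β + z3) = β + z5) (h0 : q ≤ z1) (h1 : z1 ≤ p) (h2 : q ≤ z2) (h3 : q ≤ z3)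
    (h4 : z4 ≤ p) (h5 : q ≤ z5) : (Y - β) * (β * (β + p) + Y) ≤ (β + p) ^ 2 := by
  have s1 : Y ≤ β + z1 := le_of_mul_le_mul_right (by linarith) q0
  have s2 : Y ≤ z2 * (β + p) := by
    have : Y ≤ z2 * (β + z1) := le_of_mul_le_mul_right (by
      rw [hY, mul_assoc, mul_comm _ q, f0, f2]; linarith) q0
    have := mul_le_mul_of_nonneg_left h1 (q0.le.trans h2)
    linarith
  have Y1 : 1 ≤ Y := le_of_mul_le_mul_right (by linarith) q0
  calc _ ≤ z1 * (β * (β + p) + z2 * (β + p)) :=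
        mul_le_mul (by linarith) (by linarith) (by positivity) (by linarith)
    _ = (z1 * (β + z2)) * (β + p) := by ring
    _ ≤ (β + p) * (β + p) := mul_le_mul_of_nonneg_right (by linarith) (by linarith)
    _ = _ := by ring

lemma sandwich {p q : ℝ} (b0 : 0 < β) (q0 : 0 < q) (qp : q ≤ p) (g1 : β + q ≤ q * (β + p))
    (g2 : p * (β + q) ≤ β + p) : q ≤ 1 ∧ 1 ≤ p := by
  constructor
  · by_contra h
    push Not at h
    nlinarith
  · by_contra h
    push Not at h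
    nlinarith

lemma alg {p q : ℝ} (h1 : 3 / 4 ≤ β) (h2 : β < 1) (y z : ℕ → ℝ) (hq : 0 ≤ q)
    (hy : ∀ j, q ≤ y j ∧ y j ≤ p) (hz : ∀ j, q ≤ z j ∧ z j ≤ p) (y0 : y 0 = p) (z0 : z 0 = q)
    (ry : ∀ j, y j * (β + y (j + 1)) = β + y (j + 3))
    (rz : ∀ j, z j * (β + z (j + 1)) = β + z (j + 3)) : p = 1 ∧ q = 1 := by
  have e0 : p * (β + y 1) = β + y 3 := y0 ▸ ry 0
  have f0 : q * (β + z 1) = β + z 3 := z0 ▸ rz 0
  have b0 : 0 < β := by linarith
  have qp : q ≤ p := (hy 1).1.trans (hy 1).2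
  have q0 : 0 < q := by
    rcases hq.lt_or_eq with h | h
    · exact h
    · have := (hz 3).1
      rw [← h] at f0 this; linarith
  have p0 : 0 < p := by linarith
  have g1 : β + q ≤ q * (β + p) := by
    have := mul_le_mul_of_nonneg_left (hz 1).2 hq
    linarith [(hz 3).1]
  have g2 : p * (β + q) ≤ β + p := by
    have := mul_le_mul_of_nonneg_left (hy 1).1 p0.le
    linarith [(hy 3).2]
  obtain ⟨q1, p1⟩ := sandwich b0 q0 qp g1 g2
  obtain ⟨X, hX⟩ : ∃ X, X * p = β + p := ⟨(β + p) / p, by field_simp⟩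
  obtain ⟨Y, hY⟩ : ∃ Y, Y * q = β + q := ⟨(β + q) / q, by field_simp⟩
  have X1 : 1 ≤ X := le_of_mul_le_mul_right (by linarith) p0
  have u1 := lowX h1 h2 q0 q1 X1 (sideA b0 h2 q0 p0 hX e0 (ry 1) (ry 2) (hy 1).1 (hy 2).1
    (hy 3).2 (hy 4).1 (hy 5).2)
  have u2 := upY h1 p1 (sideB b0 h2 q0 p0 hY f0 (rz 1) (rz 2) (hz 1).1 (hz 1).2 (hz 2).1
    (hz 3).1 (hz 4).2 (hz 5).1)
  have v1 := mul_le_mul_of_nonneg_right u1 p0.le
  have v2 := mul_le_mul_of_nonneg_right u2 hq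
  have v3 : (β - 7 / 10) * (p - q) ≤ 0 := by linarith
  have v4 : p - q ≤ 0 := by
    by_contra h
    push Not at h
    have := mul_pos (show 0 < β - 7 / 10 by linarith) h
    linarith
  constructor <;> linarith

theorem conv (h1 : 3 / 4 ≤ β) (h2 : β < 1) (h0 : ∀ i < 3, 0 ≤ x i)
    (hr : ∀ n, x (n + 3) = (β + x n) / (β + x (n + 2))) : Tendsto x atTop (𝓝 1) := by
  have pos : ∀ n, 0 ≤ x n := by
    intro n
    induction n using Nat.strong_induction_on with
    | _ n ih =>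
      by_cases hn : n < 3
      · exact h0 n hn
      obtain ⟨m, rfl⟩ : ∃ m, n = m + 3 := ⟨n - 3, by omega⟩
      have := ih m (by omega)
      have := ih (m + 2) (by omega)
      rw [hr]
      exact div_nonneg (by linarith) (by linarith)
  have hr' : ∀ n, x (n + 3) * (β + x (n + 2)) = β + x n := fun n => by
    have := pos (n + 2)
    rw [hr, div_mul_cancel₀ _ (by linarith)]
  obtain ⟨K, hK⟩ := bdd h1 h2 pos hr'
  have b1 : IsBoundedUnder (· ≤ ·) atTop x := isBoundedUnder_of ⟨K, hK⟩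
  have b2 : IsBoundedUnder (· ≥ ·) atTop x := isBoundedUnder_of ⟨0, pos⟩
  have rel : ∀ (y : ℕ → ℝ) (U : Ultrafilter ℕ), (U : Filter ℕ) ≤ atTop →
      (∀ j, Tendsto (fun n => x (n - j)) U (𝓝 (y j))) →
      ∀ j, y j * (β + y (j + 1)) = β + y (j + 3) := by
    intro y U hU hy j
    refine tendsto_nhds_unique_of_eventuallyEq ((hy j).mul ((hy (j + 1)).const_add β))
      ((hy (j + 3)).const_add β) (hU ?_)
    filter_upwards [eventually_ge_atTop (j + 3)] with n hn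
    have := hr' (n - (j + 3))
    rwa [show n - (j + 3) + 3 = n - j by omega, show n - (j + 3) + 2 = n - (j + 1) by omega] at this
  obtain ⟨y, y0, hy, U, hU, ty⟩ := limsol x 0 K (fun n => ⟨pos n, hK n⟩) _
    (MapClusterPt.limsup b2.isCoboundedUnder_le b1)
  obtain ⟨z, z0, hz, W, hW, tz⟩ := limsol x 0 K (fun n => ⟨pos n, hK n⟩) _
    (MapClusterPt.liminf b1.isCoboundedUnder_ge b2)
  have hq : 0 ≤ liminf x atTop := z0 ▸ ge_of_tendsto' (tz 0) fun n => pos _
  obtain ⟨e1, e2⟩ := alg h1 h2 y z hq hy hz y0 z0 (rel y U hU ty) (rel z W hW tz)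
  exact tendsto_of_liminf_eq_limsup e2 e1 b1 b2

end Pool.Agent.H95.LimSol
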