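import Pool.Agent.H95.LinkDefs

set_option autoImplicit false
open Filter Topology

namespace Pool.Agent.H95.Link
open Pool.Agent.H95.LinkDefs

section
variable {B : Type} [CStarAlgebra B] [PartialOrder B] [StarOrderedRing B]

noncomputable def ι : B →⋆ₙₐ[ℂ] M2 B where
  toFun := corner 0 0
  map_smul' := fun c x => by ext i j; fin_cases i <;> fin_cases j <;> simp [corner]
  map_zero' := by ext i j; fin_cases i <;> fin_cases j <;> simp [corner]
  map_add' := fun x y => by ext i j; fin_cases i <;> fin_cases j <;> simp [corner]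
  map_mul' := fun x y => by
    ext i j; fin_cases i <;> fin_cases j <;> simp [corner, CStarMatrix.mul_apply]
  map_star' := fun x => by
    ext i j; fin_cases i <;> fin_cases j <;> simp [corner, CStarMatrix.star_apply]

theorem unit_like {F : Submodule ℂ B} {Φ : M2 B → M2 B} (h : IsBlockCE F Φ) :
    ∃ u ∈ CF F, ∀ c ∈ CF F, ‖u - (2 : ℂ) • c‖ ≤ ‖1 - (2 : ℂ) • c‖ := by
  refine ⟨Φ (ι 1) 0 0, (h.mem _).1, fun c hc => ?_⟩
  have h1 : Φ (ι c) = ι c := h.fix _ ⟨by simpa [ι, corner] using hc, by simp [ι, corner],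
    by simp [ι, corner], by simpa [ι, corner, KF] using subset_closure (Submodule.zero_mem _)⟩
  have h2 := (h.contr (ι (1 - (2 : ℂ) • c))).trans (NonUnitalStarAlgHom.norm_apply_le ι _)
  rw [map_sub, map_smul, h.lin.map_sub, h.lin.map_smul, h1] at h2
  refine le_trans ?_ ((CStarMatrix.norm_entry_le_norm (i := 0) (j := 0)).trans h2)
  simp [ι, corner]
end

abbrev X : Type := Set.Icc (-1 : ℝ) 1
abbrev B : Type := C(X, ℂ)

def ng : C(X, X) := ⟨fun t => ⟨-t, by constructor <;> linarith [t.2.1, t.2.2]⟩, by fun_prop⟩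

theorem ng_ng (t : X) : ng (ng t) = t := Subtype.ext (neg_neg _)

def F : Submodule ℂ B where
  carrier := {f | ∀ t, f (ng t) = -f t}
  add_mem' := fun {f g} hf hg t => by simp [hf t, hg t]; ring
  zero_mem' := fun t => by simp
  smul_mem' := fun c f hf t => by simp [hf t]

noncomputable def P (f : B) : B := (1 / 2 : ℂ) • (f - f.comp ng)

theorem P_apply (f : B) (t : X) : P f t = (f t - f (ng t)) / 2 := by simp [P]; ring

theorem tern : IsTernary F := by
  refine ⟨?_, fun x hx y hy z hz t => by simp [hx t, hy t, hz t]⟩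
  have : (F : Set B) = ⋂ t, {f : B | f (ng t) = -f t} := by ext f; simp only [Set.mem_iInter]; rfl
  rw [this]
  exact isClosed_iInter fun t => isClosed_eq (by fun_prop) (by fun_prop)

theorem P_lin : IsLinearMap ℂ P :=
  ⟨fun f g => by ext t; simp [P_apply]; ring, fun c f => by ext t; simp [P_apply]; ring⟩

theorem P_mem (f : B) : P f ∈ F := fun t => by rw [P_apply, P_apply, ng_ng]; ring

theorem P_fix (f : B) (hf : f ∈ F) : P f = f := by ext t; rw [P_apply, hf t]; ring

theorem P_norm (f : B) : ‖P f‖ ≤ ‖f‖ := by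
  refine (ContinuousMap.norm_le _ (norm_nonneg _)).2 fun t => ?_
  rw [P_apply, norm_div]
  have := norm_sub_le (f t) (f (ng t))
  have h1 := f.norm_coe_le_norm t
  have h2 := f.norm_coe_le_norm (ng t)
  simp only [Complex.norm_ofNat]
  linarith

theorem P_id (x y z : B) : P (P x * (star y * P z)) = P x * (star (P y) * P z) := by
  ext t
  simp only [P_apply, ContinuousMap.mul_apply, ContinuousMap.star_apply, ng_ng, star_div₀, star_sub,
    star_ofNat]
  ring

theorem not_ext [PartialOrder B] [StarOrderedRing B] : ¬ Extends F P := by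
  rintro ⟨Φ, h, -⟩
  obtain ⟨u, hu, h1⟩ := unit_like h
  let o : X := ⟨0, by norm_num⟩
  have h0 : u o = 0 := by
    refine closure_minimal (t := {f : B | f o = 0}) ?_ (isClosed_eq (by fun_prop) continuous_const) hu
    intro f hf
    induction hf using Submodule.span_induction with
    | mem b hb =>
      obtain ⟨x, -, y, hy, rfl⟩ := hb
      have h2 := hy o
      rw [show ng o = o from Subtype.ext neg_zero] at h2
      have h3 : y o = 0 := by linear_combination h2 / 2
      simp [h3]
    | zero => rfl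
    | add a b _ _ ha hb => simp only [Set.mem_setOf_eq] at ha hb ⊢; simp [ha, hb]
    | smul c a _ ha => simp only [Set.mem_setOf_eq] at ha ⊢; simp [ha]
  have h2 : ∀ n : ℕ, ∀ t : X, (t : ℝ) = 1 / ((n : ℝ) + 1) → 1 ≤ ‖u t‖ := by
    intro n t ht
    let r : X → ℝ := fun s => max (-1) (min 1 (((n : ℝ) + 1) * s))
    let f : B := ⟨fun s => (r s : ℂ), by fun_prop⟩
    have hf : f ∈ F := fun s => by
      change ((max (-1) (min 1 (((n : ℝ) + 1) * -(s : ℝ))) : ℝ) : ℂ) = -(r s : ℂ)
      rw [← Complex.ofReal_neg, mul_neg]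
      congr 1
      simp only [r, max_def, min_def]
      split_ifs <;> linarith
    have h3 := h1 (star f * f) (subset_closure (Submodule.subset_span ⟨f, hf, f, hf, rfl⟩))
    have e : ∀ (v : B) s, (v - (2 : ℂ) • (star f * f)) s = v s - ((2 * r s ^ 2 : ℝ) : ℂ) :=
      fun v s => by simp [f, sq]
    have h4 : ‖(1 : B) - (2 : ℂ) • (star f * f)‖ ≤ 1 := by
      refine (ContinuousMap.norm_le _ zero_le_one).2 fun s => ?_
      rw [e, ContinuousMap.one_apply, ← Complex.ofReal_one, ← Complex.ofReal_sub, Complex.norm_real,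
        Real.norm_eq_abs, abs_le]
      have a1 : -1 ≤ r s := le_max_left _ _
      have a2 : r s ≤ 1 := max_le (by norm_num) (min_le_left _ _)
      constructor <;> nlinarith
    have h5 := ((u - (2 : ℂ) • (star f * f)).norm_coe_le_norm t).trans (h3.trans h4)
    have h6 : r t = 1 := by
      simp only [r, ht]
      rw [mul_one_div_cancel (by positivity)]; norm_num
    rw [e, h6] at h5
    have := norm_sub_norm_le (((2 * 1 ^ 2 : ℝ)) : ℂ) (u t)
    rw [norm_sub_rev] at this
    norm_num at this h5 ⊢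
    linarith
  let t : ℕ → X := fun n => ⟨1 / ((n : ℝ) + 1), by
    have : (0 : ℝ) < 1 / ((n : ℝ) + 1) := by positivity
    exact ⟨by linarith, (div_le_one (by positivity)).2 (by linarith [Nat.cast_nonneg (α := ℝ) n])⟩⟩
  have h3 : Tendsto t atTop (𝓝 o) := tendsto_subtype_rng.2 tendsto_one_div_add_atTop_nhds_zero_nat
  have h4 := ge_of_tendsto' ((u.continuous.tendsto o).comp h3).norm fun n => h2 n (t n) rfl
  rw [h0] at h4
  norm_num at h4

theorem main1 : ∃ (B : Type) (_ : CStarAlgebra B) (_ : PartialOrder B) (_ : StarOrderedRing B)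
    (F : Submodule ℂ B) (P : B → B), IsTernary F ∧ IsLinearMap ℂ P ∧ (∀ x, P x ∈ F) ∧
      (∀ x ∈ F, P x = x) ∧ (∀ x, ‖P x‖ ≤ ‖x‖) ∧ ¬ Extends F P :=
  ⟨B, inferInstance, CStarAlgebra.spectralOrder B, CStarAlgebra.spectralOrderedRing B, F, P, tern,
    P_lin, P_mem, P_fix, P_norm, @not_ext (_) (_)⟩

theorem main2 : ∃ (B : Type) (_ : CStarAlgebra B) (_ : PartialOrder B) (_ : StarOrderedRing B)
    (F : Submodule ℂ B) (P : B → B), IsTernary F ∧ IsLinearMap ℂ P ∧ (∀ x, P x ∈ F) ∧
      (∀ x ∈ F, P x = x) ∧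
      (∀ x y z, P (P x * (star y * P z)) = P x * (star (P y) * P z)) ∧ ¬ Extends F P :=
  ⟨B, inferInstance, CStarAlgebra.spectralOrder B, CStarAlgebra.spectralOrderedRing B, F, P, tern,
    P_lin, P_mem, P_fix, P_id, @not_ext (_) (_)⟩

end Pool.Agent.H95.Link
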