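import Mathlib

set_option autoImplicit false

namespace Pool.Agent.H95.LinkDefs

variable {B : Type} [CStarAlgebra B]

/-- closed ternary subspace of `E = B`, with inner product `⟨x, y⟩ = x* y` -/
def IsTernary (F : Submodule ℂ B) : Prop :=
  IsClosed (F : Set B) ∧ ∀ x ∈ F, ∀ y ∈ F, ∀ z ∈ F, x * (star y * z) ∈ F

/-- closed span of the inner products `x* y` -/
def CF (F : Submodule ℂ B) : Set B :=
  closure (Submodule.span ℂ {b : B | ∃ x ∈ F, ∃ y ∈ F, b = star x * y} : Set B)

/-- closed span of the rank-one operators `x y*` -/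
def KF (F : Submodule ℂ B) : Set B :=
  closure (Submodule.span ℂ {b : B | ∃ x ∈ F, ∃ y ∈ F, b = x * star y} : Set B)

/-- the linking algebra of `E = B` -/
abbrev M2 (B : Type) : Type := CStarMatrix (Fin 2) (Fin 2) B

/-- the linking algebra of `F` -/
def linkF (F : Submodule ℂ B) : Set (M2 B) :=
  {M | M 0 0 ∈ CF F ∧ star (M 0 1) ∈ F ∧ M 1 0 ∈ F ∧ M 1 1 ∈ KF F}

/-- the matrix with `x` in place `(i, j)` and zero elsewhere -/
def corner (i j : Fin 2) (x : B) : M2 B := CStarMatrix.ofMatrix (Matrix.single i j x)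

variable [PartialOrder B] [StarOrderedRing B]

/-- blockwise conditional expectation of `M₂(B)` onto the linking algebra of `F` -/
structure IsBlockCE (F : Submodule ℂ B) (Φ : M2 B → M2 B) : Prop where
  lin : IsLinearMap ℂ Φ
  contr : ∀ M, ‖Φ M‖ ≤ ‖M‖
  mem : ∀ M, Φ M ∈ linkF F
  fix : ∀ M ∈ linkF F, Φ M = M
  block : ∀ i j x, ∃ y, Φ (corner i j x) = corner i j y

/-- `P` is the `(2,1)`-corner of a blockwise conditional expectation -/
def Extends (F : Submodule ℂ B) (P : B → B) : Prop :=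
  ∃ Φ : M2 B → M2 B, IsBlockCE F Φ ∧ ∀ x, Φ (corner 1 0 x) = corner 1 0 (P x)

end Pool.Agent.H95.LinkDefs
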