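import Pool.Agent.H95.PurDefs

set_option autoImplicit false

namespace Pool.Agent.H95.Pur

open Matrix Complex Finset
open scoped ComplexOrder

variable {d D : ℕ}

def Com (π : Mt d →ₗ[ℂ] Mt d) (Z : Mt d) : Prop := ∀ a, π (Z * a - a * Z) = Z * π a - π a * Z

def Eqv (π : Mt d →ₗ[ℂ] Mt d) (u : GL (Fin d) ℂ) : Prop :=
  ∀ a, π (u.val * a * u⁻¹.val) = u.val * π a * u⁻¹.val

lemma Com.add {π : Mt d →ₗ[ℂ] Mt d} {Y Z : Mt d} (h : Com π Y) (k : Com π Z) : Com π (Y + Z) :=
  fun a => by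
    rw [show (Y + Z) * a - a * (Y + Z) = Y * a - a * Y + (Z * a - a * Z) by noncomm_ring, map_add,
      h, k]
    noncomm_ring

lemma Com.smul {π : Mt d →ₗ[ℂ] Mt d} {Z : Mt d} (h : Com π Z) (z : ℂ) : Com π (z • Z) := fun a => by
  simp only [smul_mul_assoc, mul_smul_comm, ← smul_sub, map_smul, h a]

open scoped Matrix.Norms.Operator in
lemma Com.exp {π : Mt d →ₗ[ℂ] Mt d} {Z : Mt d} (h : Com π Z) (a : Mt d) :
    NormedSpace.exp (-Z) * π (NormedSpace.exp Z * a * NormedSpace.exp (-Z)) * NormedSpace.exp Z =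
      π a := by
  have k : ∀ t : ℂ, HasDerivAt (fun t : ℂ => NormedSpace.exp (t • -Z) *
      π (NormedSpace.exp (t • Z) * a * NormedSpace.exp (t • -Z)) * NormedSpace.exp (t • Z)) 0 t :=
    fun t => by
    have h1 := ((hasDerivAt_exp_smul_const' Z t).mul_const a).mul (hasDerivAt_exp_smul_const (-Z) t)
    have h2 := (LinearMap.toContinuousLinearMap π).hasFDerivAt.comp_hasDerivAt t h1
    refine (((hasDerivAt_exp_smul_const (-Z) t).mul h2).mul
      (hasDerivAt_exp_smul_const' Z t)).congr_deriv ?_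
    have := h (NormedSpace.exp (t • Z) * a * NormedSpace.exp (t • -Z))
    simp only [LinearMap.coe_toContinuousLinearMap', Function.comp, Pi.mul_apply, mul_neg,
      ← sub_eq_add_neg, mul_assoc] at this ⊢
    erw [this]
    exact (by intros; noncomm_ring : ∀ E P F : Mt d,
      (-(E * Z) * P + E * (Z * P - P * Z)) * F + E * (P * (Z * F)) = 0) _ _ _
  simpa using is_const_of_deriv_eq_zero (fun t => (k t).differentiableAt) (fun t => (k t).deriv) 1 0

lemma eqv {π : Mt d →ₗ[ℂ] Mt d} {g : Fin D → Mt d} (h : ∀ a ∈ lie g, Com π a) {u : GL (Fin d) ℂ}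
    (hu : u ∈ cfo g) : Eqv π u := by
  refine Subgroup.closure_induction (p := fun u _ => Eqv π u) ?_ (fun a => by simp) ?_ ?_ hu
  · rintro u (⟨a, ha, b, hb, e⟩ | ⟨z, e⟩) x
    · have := ((h a ha).add ((h b hb).smul I)).exp x
      rw [Matrix.exp_neg, ← e, ← coe_units_inv] at this
      rw [← this]
      simp only [mul_assoc, Units.mul_inv_cancel_left, Units.mul_inv, mul_one]
    · have c : ∀ y, u.val * y * u⁻¹.val = y := fun y => by
        rw [show u.val * y = y * u.val by simp [e], Units.mul_inv_cancel_right]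
      rw [c, c]
  · intro u v _ _ a b x
    have := a (v.val * x * v⁻¹.val)
    rw [b] at this
    simpa only [_root_.mul_inv_rev, Units.val_mul, mul_assoc] using this
  · intro u _ a x
    have := a (u⁻¹.val * x * u.val)
    simp only [mul_assoc, Units.mul_inv_cancel_left, Units.mul_inv, mul_one] at this
    rw [this]
    simp only [mul_assoc, Units.inv_mul_cancel_left, Units.inv_mul, mul_one, inv_inv]

noncomputable def pr (c : ℝ) (g : Fin D → Mt d) : Mt d →ₗ[ℂ] Mt d :=
  ∑ i, ((c : ℂ)⁻¹ • traceLinearMap _ ℂ ℂ ∘ₗ LinearMap.mulLeft ℂ (g i)).smulRight (g i)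

lemma pr_ap (c : ℝ) (g : Fin D → Mt d) (a : Mt d) :
    pr c g a = ∑ i, ((c : ℂ)⁻¹ * (g i * a).trace) • g i := by simp [pr]

lemma pr_g {c : ℝ} {g : Fin D → Mt d} (hc : 0 < c)
    (h : ∀ i j, (g i * g j).trace = if i = j then (c : ℂ) else 0) (j : Fin D) : pr c g (g j) = g j := by
  simp [pr_ap, h, hc.ne']

lemma pr_com {c : ℝ} {g : Fin D → Mt d} (hc : 0 < c)
    (h : ∀ i j, (g i * g j).trace = if i = j then (c : ℂ) else 0)
    (hl : ∀ a ∈ lie g, ∀ b ∈ lie g, a * b - b * a ∈ lie g) : ∀ Z ∈ lie g, Com (pr c g) Z := by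
  intro Z hZ a
  have f2 : ∀ a ∈ lie g, pr c g a = a := fun a ha => by
    induction ha using Submodule.span_induction with
    | mem x hx => obtain ⟨j, rfl⟩ := hx; rw [map_smul, pr_g hc h]
    | zero => simp
    | add x y _ _ p q => rw [map_add, p, q]
    | smul r x _ p => rw [LinearMap.map_smul_of_tower, p]
  have f3 : ∀ a b, (pr c g a * b).trace = (a * pr c g b).trace := fun a b => by
    simp only [pr_ap, sum_mul, mul_sum, trace_sum, smul_mul_assoc, mul_smul_comm, trace_smul,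
      smul_eq_mul]
    exact sum_congr rfl fun i _ => by rw [trace_mul_comm a]; ring
  have f4 : ∀ j, pr c g (Z * g j - g j * Z) = Z * g j - g j * Z := fun j => by
    have := f2 _ (hl Z hZ _ (Submodule.subset_span ⟨j, rfl⟩))
    simp only [smul_mul_assoc, mul_smul_comm, ← smul_sub, map_smul] at this
    exact smul_right_injective _ I_ne_zero this
  have f5 : ∀ j a, (g j * (Z * a - a * Z)).trace = -((Z * g j - g j * Z) * a).trace := fun j a => by
    rw [mul_sub, sub_mul, trace_sub, trace_sub, ← mul_assoc _ a, trace_mul_comm _ Z]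
    simp only [mul_assoc, neg_sub]
  calc _ = pr c g (Z * pr c g a - pr c g a * Z) := by
        rw [pr_ap, pr_ap c g (_ - _)]
        exact sum_congr rfl fun i _ => by rw [f5, f5, ← f3, f4]
    _ = _ := by
        rw [pr_ap c g a]
        simp only [sum_mul, mul_sum, smul_mul_assoc, mul_smul_comm, ← sum_sub_distrib, ← smul_sub,
          map_sum, map_smul, f4]

def S (X : Mt d) : Submodule ℂ (Mt d) :=
  Submodule.span ℂ {a | ∃ l : ℝ, 0 < l ∧ X * a - a * X = (l : ℂ) • a}

lemma S_map {π : Mt d →ₗ[ℂ] Mt d} {X a : Mt d} (h : Com π X) (ha : a ∈ S X) : π a ∈ S X :=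
  (Submodule.span_le (p := (S X).comap π)).2 (by
    rintro a ⟨l, p, q⟩
    exact Submodule.subset_span ⟨l, p, by rw [← h, q, map_smul]⟩) ha

lemma S_tr {X a b : Mt d} (ha : a ∈ S X) (hb : b ∈ S X) : (a * b).trace = 0 := by
  induction ha, hb using Submodule.span_induction₂ with
  | mem_mem a b ha hb =>
    obtain ⟨l, p, q⟩ := ha
    obtain ⟨m, r, s⟩ := hb
    have : ((X * a - a * X) * b + a * (X * b - b * X)).trace = 0 := by
      rw [show (X * a - a * X) * b + a * (X * b - b * X) = X * (a * b) - a * b * X by noncomm_ring,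
        trace_sub, trace_mul_comm, sub_self]
    rw [q, s, smul_mul_assoc, mul_smul_comm, ← add_smul, trace_smul, ← ofReal_add] at this
    exact (smul_eq_zero.1 this).resolve_left (ofReal_ne_zero.2 (add_pos p r).ne')
  | _ => simp [add_mul, mul_add, *]

lemma S_mem {W T : Mt d} (hW : Wᴴ * W = 1) {x : Fin d → ℝ} (h : ∀ k l, x k ≤ x l → T k l = 0) :
    W * T * Wᴴ ∈ S (W * diagonal (fun i => (x i : ℂ)) * Wᴴ) := by
  rw [matrix_eq_sum_single T]
  simp only [mul_sum, sum_mul]
  refine Submodule.sum_mem _ fun k _ => Submodule.sum_mem _ fun l _ => ?_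
  rcases le_or_gt (x k) (x l) with c | c
  · simp [h k l c]
  refine Submodule.subset_span ⟨x k - x l, sub_pos.2 c, ?_⟩
  have e : ∀ y, Wᴴ * (W * y) = y := fun y => by rw [← mul_assoc, hW, one_mul]
  simp only [mul_assoc, e, ← mul_sub, ← mul_smul_comm]
  rw [← mul_assoc, ← mul_assoc, ← sub_mul, mul_smul_comm, ← smul_mul_assoc]
  congr 2
  ext i j
  simp only [Matrix.sub_apply, diagonal_mul, mul_diagonal, Matrix.smul_apply, single_apply]
  split_ifs with q
  · obtain ⟨rfl, rfl⟩ := q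
    simp
    ring
  · simp

lemma qr (M : Mt d) : ∃ U B : Mt d, Uᴴ * U = 1 ∧ B.BlockTriangular id ∧ M = U * B := by
  let f : Fin d → EuclideanSpace ℂ (Fin d) := fun j => WithLp.toLp 2 fun i => M i j
  have h : Module.finrank ℂ (EuclideanSpace ℂ (Fin d)) = Fintype.card (Fin d) := by simp
  refine ⟨_, _, ((EuclideanSpace.basisFun (Fin d) ℂ).toMatrix_orthonormalBasis_mem_unitary
    (InnerProductSpace.gramSchmidtOrthonormalBasis h f)).1,
    InnerProductSpace.gramSchmidtOrthonormalBasis_inv_isUpperTriangular h f, ?_⟩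
  rw [← OrthonormalBasis.coe_toBasis, Module.Basis.toMatrix_mul_toMatrix]
  ext i j
  simp [Module.Basis.toMatrix_apply, f]

lemma sorted {X : Mt d} (h : X.IsHermitian) : ∃ (W : Mt d) (x : Fin d → ℝ), Wᴴ * W = 1 ∧
    Antitone x ∧ X = W * diagonal (fun i => (x i : ℂ)) * Wᴴ := by
  set σ := Tuple.sort (-h.eigenvalues)
  refine ⟨h.eigenvectorUnitary.1.submatrix id σ, h.eigenvalues ∘ σ, ?_, fun a b c =>
    neg_le_neg_iff.1 (Tuple.monotone_sort (-h.eigenvalues) c), ?_⟩
  · rw [conjTranspose_submatrix, ← submatrix_mul _ _ _ _ _ Function.bijective_id,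
      show h.eigenvectorUnitary.1ᴴ * _ = 1 from h.eigenvectorUnitary.2.1, submatrix_one_equiv]
  · conv_lhs => rw [h.spectral_theorem]
    rw [conjTranspose_submatrix, show diagonal (fun i => (((h.eigenvalues ∘ σ) i : ℝ) : ℂ)) =
      (diagonal (RCLike.ofReal ∘ h.eigenvalues)).submatrix σ σ from
        (submatrix_diagonal_equiv (RCLike.ofReal ∘ h.eigenvalues) σ).symm, submatrix_mul_equiv, submatrix_mul_equiv]
    rfl

lemma fix {π : Mt d →ₗ[ℂ] Mt d} {W U B : Mt d} {x : Fin d → ℝ} {u : GL (Fin d) ℂ} (hW : Wᴴ * W = 1)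
    (hU : Uᴴ * U = 1) (hx : Antitone x) (hB : B.BlockTriangular id) (e : u.val * W = U * B)
    (h1 : Com π (W * diagonal (fun i => (x i : ℂ)) * Wᴴ)) (h2 : Eqv π u)
    (h3 : π (W * diagonal (fun i => (x i : ℂ)) * Wᴴ) = W * diagonal (fun i => (x i : ℂ)) * Wᴴ)
    (h4 : ∀ a, a.IsHermitian → (π a).IsHermitian) :
    π (U * diagonal (fun i => (x i : ℂ)) * Uᴴ) = U * diagonal (fun i => (x i : ℂ)) * Uᴴ := by
  set Δ : Mt d := diagonal fun i => (x i : ℂ) with hΔ
  have hY : (U * Δ * Uᴴ).IsHermitian := isHermitian_mul_mul_conjTranspose _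
    (isHermitian_diagonal_iff.2 fun i => conj_ofReal _)
  have w := mul_eq_one_comm.1 hW
  have i : Wᴴ * u⁻¹.val * U * B = 1 := by rw [mul_assoc, ← e, mul_assoc, Units.inv_mul_cancel_left, hW]
  letI := invertibleOfLeftInverse _ _ i
  have b := blockTriangular_inv_of_blockTriangular hB
  have i1 : B⁻¹ * B = 1 := inv_mul_of_invertible B
  have m := S_mem (T := B⁻¹ * (B * Δ - Δ * B)) hW (x := x) fun k l c => by
    rw [mul_apply]
    refine sum_eq_zero fun j _ => ?_
    rcases lt_or_ge j k with p | p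
    · rw [b p, zero_mul]
    rcases lt_or_ge l j with q | q
    · simp [hΔ, hB q]
    simp [hΔ, le_antisymm (hx q) ((hx p).trans c), mul_comm]
  have k : u.val * (W * (B⁻¹ * Δ * B) * Wᴴ) * u⁻¹.val = U * Δ * Uᴴ := by
    have : B * Wᴴ * u⁻¹.val = Uᴴ := by
      rw [← one_mul B, ← hU, mul_assoc Uᴴ, ← e]
      simp only [mul_assoc, ← mul_assoc W, w, one_mul, Units.mul_inv, mul_one]
    rw [← this, ← mul_assoc, ← mul_assoc, e]
    simp only [mul_assoc, mul_inv_cancel_left_of_invertible]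
  have s := (S _).sub_mem m (S_map h1 m)
  rw [mul_sub, ← mul_assoc, i1, one_mul, mul_sub, sub_mul, map_sub, h3, ← hΔ, sub_sub_sub_cancel_left,
    ← mul_assoc B⁻¹] at s
  have t := S_tr s s
  rw [← k] at hY ⊢
  generalize W * (B⁻¹ * Δ * B) * Wᴴ = A at *
  rw [← sub_eq_zero, ← trace_conjTranspose_mul_self_eq_zero_iff, ((h4 _ hY).sub hY).eq, h2,
    ← sub_mul, ← mul_sub, ← mul_assoc, trace_mul_comm]
  simpa only [mul_assoc, Units.inv_mul_cancel_left] using t

lemma abel' (x c : ℕ → ℝ) (hx : Antitone x) (n : ℕ) (h : ∀ k ≤ n, 0 ≤ ∑ i ∈ range k, c i) :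
    x n * ∑ i ∈ range n, c i ≤ ∑ i ∈ range n, x i * c i := by
  induction n with
  | zero => simp
  | succ n ih =>
    have := ih fun k hk => h k (by omega)
    have := mul_le_mul_of_nonneg_right (hx n.le_succ) (h _ le_rfl)
    simp only [sum_range_succ] at *
    linarith

lemma abel {x c : Fin d → ℝ} (hx : Antitone x) (h0 : ∑ i, c i = 0)
    (h : ∀ k : ℕ, ∑ i with k ≤ i.val, c i ≤ 0) : 0 ≤ ∑ i, x i * c i := by
  rcases d with _ | d
  · simp
  let r : ℕ → Fin (d + 1) := fun i => ⟨min i d, by omega⟩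
  have e : ∀ f : Fin (d + 1) → ℝ, ∑ i ∈ range (d + 1), f (r i) = ∑ i, f i := fun f => by
    rw [← Fin.sum_univ_eq_sum_range (fun i => f (r i))]
    exact sum_congr rfl fun i _ => congrArg f (Fin.ext (by simp only [r]; omega))
  have := abel' (x ∘ r) (c ∘ r) (fun a b p => hx (by simp only [r, Fin.mk_le_mk]; omega)) (d + 1)
    fun k hk => by
      have p := h k
      rw [sum_filter, ← e] at p
      rw [← e, ← sum_range_add_sum_Ico _ hk] at h0
      rw [← sum_range_add_sum_Ico _ hk, sum_eq_zero fun i hi => if_neg (by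
        simp only [r, mem_range] at *; omega), sum_congr rfl fun i hi => if_pos (by
        simp only [r, mem_Ico] at *; omega)] at p
      simp only [Function.comp]
      linarith
  simp only [Function.comp] at this
  rwa [e c, h0, mul_zero, e fun i => x i * c i] at this

lemma maj {K : Type} [Fintype K] {B : K → Mt d} (hB : ∀ k, (B k).BlockTriangular id)
    (h : ∑ k, (B k)ᴴ * B k = 1) {x : Fin d → ℝ} (hx : Antitone x) (v : Fin d → ℂ) :
    ∑ i, x i * normSq (v i) ≤ ∑ k, ∑ i, x i * normSq ((B k *ᵥ v) i) := by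
  have n : ∀ v : Fin d → ℂ, (star v ⬝ᵥ v).re = ∑ i, normSq (v i) := fun v => by
    simp [dotProduct, normSq_apply]
  have t : ∀ v : Fin d → ℂ, ∑ i, ∑ k, normSq ((B k *ᵥ v) i) = ∑ i, normSq (v i) := fun v => by
    rw [sum_comm, ← n v]
    conv_rhs => enter [1, 2]; rw [← one_mulVec v, ← h, sum_mulVec]
    simp only [← n, dotProduct_sum, re_sum, star_mulVec, ← dotProduct_mulVec, mulVec_mulVec]
  have := abel (c := fun i => ∑ k, normSq ((B k *ᵥ v) i) - normSq (v i)) hx
    (by rw [sum_sub_distrib, t, sub_self]) fun m => by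
      have := t fun l => if m ≤ l.val then v l else 0
      rw [sum_sub_distrib, sub_nonpos, sum_filter _ fun i => normSq (v i)]
      refine le_of_le_of_eq ?_ (this.trans (sum_congr rfl fun i _ => by split_ifs <;> simp))
      refine le_of_eq_of_le ?_ (sum_le_univ_sum_of_nonneg (s := univ.filter fun i => m ≤ i.val)
        fun i => sum_nonneg fun k _ => normSq_nonneg _)
      refine sum_congr rfl fun i hi => sum_congr rfl fun k _ => congrArg _ ?_
      simp only [mulVec, dotProduct]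
      refine sum_congr rfl fun l _ => ?_
      have := (mem_filter.1 hi).2
      split_ifs with c
      · rfl
      · simp [hB k (show l < i from Fin.lt_def.2 (by omega))]
  simp only [mul_sub, sum_sub_distrib, mul_sum] at this
  rw [sum_comm]
  linarith

lemma qf (W : Mt d) (x : Fin d → ℝ) (v : Fin d → ℂ) :
    (star v ⬝ᵥ (W * diagonal (fun i => (x i : ℂ)) * Wᴴ) *ᵥ v).re =
      ∑ i, x i * normSq ((Wᴴ *ᵥ v) i) := by
  rw [← mulVec_mulVec, ← mulVec_mulVec, dotProduct_mulVec, ← conjTranspose_conjTranspose W,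
    ← star_mulVec, conjTranspose_conjTranspose]
  simp only [dotProduct, mulVec_diagonal, re_sum]
  exact sum_congr rfl fun i _ => by simp [normSq_apply]; ring

theorem main {g : Fin D → Mt d} (hg : IsFrame g) {N : ℝ} (hN : 0 < N) {K : Type} [Fintype K]
    {M : K → GL (Fin d) ℂ} (hM : ∀ k, M k ∈ cfo g) (h1 : ∑ k, (M k).valᴴ * (M k).val = 1)
    {ψ : Fin d → ℂ} (hψ : star ψ ⬝ᵥ ψ = 1) :
    purity N g ψ ≤ ∑ k, prob (M k).val ψ *
      purity N g (((√(prob (M k).val ψ) : ℝ) : ℂ)⁻¹ • (M k).val *ᵥ ψ) := by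
  obtain ⟨g1, ⟨c, hc, g2⟩, g3⟩ := hg
  have cm := pr_com hc g2 g3
  have tr : ∀ (v : Fin d → ℂ) (a : Mt d), (vecMulVec v (star v) * a).trace = star v ⬝ᵥ a *ᵥ v :=
    fun v a => by rw [vecMulVec_mul, trace_vecMulVec, dotProduct_comm, dotProduct_mulVec]
  set m : (Fin d → ℂ) → Fin D → ℝ := fun v i => (star v ⬝ᵥ g i *ᵥ v).re with hm
  have ex : ∀ (y : Fin D → ℝ) v, (star v ⬝ᵥ (∑ i, (y i : ℂ) • g i) *ᵥ v).re = ∑ i, y i * m v i :=
    fun y v => by simp [sum_mulVec, dotProduct_sum, smul_mulVec, hm]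
  have nr : ∀ y : Fin D → ℝ, ((∑ i, (y i : ℂ) • g i) * ∑ i, (y i : ℂ) • g i).trace =
      ((c * ∑ i, y i ^ 2 : ℝ) : ℂ) := fun y => by
    simp [sum_mul, mul_sum, trace_sum, g2, sq, mul_comm, mul_left_comm]
  have re : ∀ a : Mt d, a.IsHermitian → ∃ y : Fin D → ℝ, pr c g a = ∑ i, (y i : ℂ) • g i :=
    fun a ha => ⟨fun i => c⁻¹ * (g i * a).trace.re, by
      rw [pr_ap]
      refine sum_congr rfl fun i _ => ?_
      rw [ofReal_mul, ofReal_inv, conj_eq_iff_re.1]
      rw [← star_def, ← trace_conjTranspose, conjTranspose_mul, ha.eq, (g1 i).eq, trace_mul_comm]⟩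
  have he : ∀ y : Fin D → ℝ, (∑ i, (y i : ℂ) • g i).IsHermitian := fun y => by
    simp [IsHermitian, conjTranspose_sum, (g1 _).eq]
  obtain ⟨W, x, hW, hx, e⟩ := sorted (he (m ψ))
  choose U B hU hB q using fun k => qr ((M k).val * W)
  have c1 : Com (pr c g) (∑ i, (m ψ i : ℂ) • g i) :=
    sum_induction _ _ (fun _ _ => Com.add) (fun a => by simp) fun i _ => by
      simpa [smul_smul, mul_assoc] using (cm _ (Submodule.subset_span ⟨i, rfl⟩)).smul (-(m ψ i * I))
  have fx := fun k => fix hW (hU k) hx (hB k) (q k) (e ▸ c1) (eqv cm (hM k))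
    (by rw [← e]; simp [pr_g hc g2]) fun a ha => by
      obtain ⟨y, p⟩ := re a ha
      exact p ▸ he y
  choose y hy using fun k => re _ (isHermitian_mul_mul_conjTranspose (U k)
    (isHermitian_diagonal_iff.2 fun i => conj_ofReal (x i)))
  simp only [fx] at hy
  have t2 : ∀ V : Mt d, Vᴴ * V = 1 → (V * diagonal (fun i => (x i : ℂ)) * Vᴴ *
      (V * diagonal (fun i => (x i : ℂ)) * Vᴴ)).trace = (diagonal (fun i => (x i : ℂ)) *
        diagonal (fun i => (x i : ℂ))).trace := fun V hV => by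
    rw [← mul_assoc, trace_mul_comm]
    simp only [← mul_assoc, hV, one_mul, mul_assoc _ Vᴴ, mul_one]
  have y2 : ∀ k, ∑ i, y k i ^ 2 = ∑ i, m ψ i ^ 2 := fun k => mul_left_cancel₀ hc.ne'
    (ofReal_injective (by rw [← nr, ← nr, ← hy, e, t2 _ hW, t2 _ (hU k)]))
  have b : ∀ k, B k = (U k)ᴴ * (M k).val * W := fun k => by
    rw [mul_assoc, q, ← mul_assoc, hU, one_mul]
  have w := mul_eq_one_comm.1 hW
  have mj := maj hB (by
    have : ∀ k, (B k)ᴴ * B k = Wᴴ * ((M k).valᴴ * (M k).val) * W := fun k => by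
      rw [← mul_assoc, mul_assoc, ← conjTranspose_mul, q, conjTranspose_mul, mul_assoc,
        ← mul_assoc _ (U k), hU, one_mul]
    simp only [this, ← sum_mul, ← mul_sum, h1, mul_one, hW]) hx (Wᴴ *ᵥ ψ)
  rw [← qf, ← e, ex] at mj
  have mk : ∀ k, ∑ i, x i * normSq ((B k *ᵥ Wᴴ *ᵥ ψ) i) = ∑ i, y k i * m ((M k).val *ᵥ ψ) i :=
    fun k => by
      rw [← ex, ← hy, qf, b, mulVec_mulVec, mulVec_mulVec, mul_assoc _ W, w, mul_one]
  have ps : ∑ k, prob (M k).val ψ = 1 := by
    simp only [prob, ← re_sum, ← dotProduct_sum, ← sum_mulVec, h1, one_mulVec, hψ, one_re]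
  have pp : ∀ k, 0 < prob (M k).val ψ := fun k => (Complex.pos_iff.1 ((PosDef.one.conjTranspose_mul_mul_same
    (mulVec_injective_of_isUnit (M k).isUnit)).dotProduct_mulVec_pos (x := ψ) (by
      rintro rfl
      simp at hψ))).1.trans_eq (by rw [mul_one, prob])
  have pu : ∀ k, 2 * ∑ i, y k i * m ((M k).val *ᵥ ψ) i - prob (M k).val ψ * ∑ i, m ψ i ^ 2 ≤
      prob (M k).val ψ * ∑ i, m (((√(prob (M k).val ψ) : ℝ) : ℂ)⁻¹ • (M k).val *ᵥ ψ) i ^ 2 := fun k => by
    rw [← y2 k]
    simp only [mul_sum, ← sum_sub_distrib]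
    refine sum_le_sum fun i _ => ?_
    have : m ((M k).val *ᵥ ψ) i = prob (M k).val ψ *
        m (((√(prob (M k).val ψ) : ℝ) : ℂ)⁻¹ • (M k).val *ᵥ ψ) i := by
      simp only [hm, star_smul, mulVec_smul, smul_dotProduct, dotProduct_smul, smul_eq_mul,
        ← ofReal_inv, star_def, conj_ofReal, re_ofReal_mul]
      rw [← mul_assoc, ← mul_assoc, mul_assoc (prob _ _), ← mul_inv, Real.mul_self_sqrt (pp k).le,
        mul_inv_cancel₀ (pp k).ne', one_mul]
    rw [this]
    nlinarith [mul_nonneg (pp k).le (sq_nonneg (y k i -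
      m (((√(prob (M k).val ψ) : ℝ) : ℂ)⁻¹ • (M k).val *ᵥ ψ) i))]
  have := sum_le_sum fun k (_ : k ∈ univ) => pu k
  simp only [purity, tr, mul_left_comm _ (1 / N), ← mul_sum]
  simp only [sum_sub_distrib, ← mul_sum, ← sum_mul, ps, mk, ← sq] at this mj
  exact mul_le_mul_of_nonneg_left (by linarith) (by positivity)

end Pool.Agent.H95.Pur
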