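import Pool.Agent.H95.LyaDefs
import Pool.Agent.H95.Pur

set_option autoImplicit false

namespace Pool.Agent.H95.Lya

open Matrix Complex Finset Filter Topology MeasureTheory
open scoped MatrixOrder ComplexOrder

variable {d m : ℕ}

noncomputable def cd (U : Op d) (x : Fin d → ℝ) : Op d := U * diagonal (fun i => (x i : ℂ)) * Uᴴ

lemma tr_cd (P U : Op d) (x : Fin d → ℝ) :
    (P * cd U x).trace.re = ∑ i, ((Uᴴ * P * U) i i).re * x i := by
  rw [cd, ← mul_assoc, trace_mul_comm, ← mul_assoc, ← mul_assoc]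
  simp [trace, mul_diagonal]

lemma cd_mul {U : Op d} (hU : Uᴴ * U = 1) (x y : Fin d → ℝ) :
    cd U x * cd U y = cd U fun i => x i * y i := by
  simp only [cd, mul_assoc, ← mul_assoc Uᴴ U, hU, one_mul]
  simp only [← mul_assoc (diagonal _), diagonal_mul_diagonal, ofReal_mul]

lemma cd_tr {U : Op d} (hU : Uᴴ * U = 1) (x : Fin d → ℝ) : (cd U x).trace.re = ∑ i, x i := by
  simpa [hU] using tr_cd 1 U x

lemma cd_psd (U : Op d) {x : Fin d → ℝ} (h : ∀ i, 0 ≤ x i) : (cd U x).PosSemidef :=
  (PosSemidef.diagonal fun i => zero_le_real.2 (h i)).mul_mul_conjTranspose_same U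

lemma cd_herm (U : Op d) (x : Fin d → ℝ) : (cd U x).IsHermitian :=
  isHermitian_mul_mul_conjTranspose _ (isHermitian_diagonal_iff.2 fun _ => conj_ofReal _)

lemma tn_cd {U : Op d} (hU : Uᴴ * U = 1) (x : Fin d → ℝ) : tn (cd U x) = ∑ i, |x i| := by
  rw [tn, (cd_herm U x).eq, CFC.sqrt_unique (b := cd U fun i => |x i|) (by
    simp only [cd_mul hU, abs_mul_abs_self]) (cd_psd U fun i => abs_nonneg _).nonneg, cd_tr hU]

def PK (d k : ℕ) : Set (Op d) := {P | P.PosSemidef ∧ (1 - P).PosSemidef ∧ P.trace.re ≤ k}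

lemma kf {U P : Op d} (hU : Uᴴ * U = 1) {x : Fin d → ℝ} (hx : Antitone x) {k : ℕ} (h : P ∈ PK d k) :
    (P * cd U x).trace.re ≤ ∑ i with i.val < k, max (x i) 0 := by
  have p0 : ∀ i, 0 ≤ ((Uᴴ * P * U) i i).re := fun i =>
    (nonneg_iff.1 (h.1.conjTranspose_mul_mul_same U).diag_nonneg).1
  have p1 : ∀ i, ((Uᴴ * P * U) i i).re ≤ 1 := fun i => by
    have := (nonneg_iff.1 ((h.2.1.conjTranspose_mul_mul_same U).diag_nonneg (i := i))).1
    simpa [mul_sub, sub_mul, hU] using this
  have p2 : ∑ i, ((Uᴴ * P * U) i i).re ≤ k := by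
    have := h.2.2
    rw [← mul_one P, ← mul_eq_one_comm.1 hU, ← mul_assoc, trace_mul_comm, ← mul_assoc] at this
    simpa [trace] using this
  rw [tr_cd, sum_filter]
  rcases lt_or_ge k d with c | c
  · have t := le_max_right (x ⟨k, c⟩) 0
    calc _ ≤ ∑ i, (((Uᴴ * P * U) i i).re * max (x ⟨k, c⟩) 0 +
          ((if i.val < k then max (x i) 0 else 0) - if i.val < k then max (x ⟨k, c⟩) 0 else 0)) := by
          refine sum_le_sum fun i _ => ?_
          split_ifs with q
          · have := max_le_max_right 0 (hx (show i ≤ ⟨k, c⟩ from q.le))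
            nlinarith [p0 i, p1 i, le_max_left (x i) 0]
          · nlinarith [p0 i, hx (show ⟨k, c⟩ ≤ i from not_lt.1 q), le_max_left (x ⟨k, c⟩) 0]
      _ ≤ _ := by
          rw [sum_add_distrib, sum_sub_distrib, ← sum_mul, ← sum_filter _ fun _ => max (x ⟨k, c⟩) 0,
            sum_const, Fin.card_filter_val_lt, min_eq_right c.le, nsmul_eq_mul]
          nlinarith
  · refine sum_le_sum fun i _ => ?_
    rw [if_pos (i.2.trans_le c)]
    nlinarith [p0 i, p1 i, le_max_left (x i) 0, le_max_right (x i) 0]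

noncomputable def T (k : ℕ) (y : Op d) : ℝ := sSup ((fun P => (P * y).trace.re) '' PK d k)

lemma pj {U : Op d} (hU : Uᴴ * U = 1) (x : Fin d → ℝ) (k : ℕ) :
    cd U (fun i => if i.val < k ∧ 0 < x i then 1 else 0) ∈ PK d k := by
  refine ⟨cd_psd U fun i => by positivity, ?_, ?_⟩
  · have := cd_psd U (x := fun i => 1 - if i.val < k ∧ 0 < x i then 1 else 0) fun i => by
      split_ifs <;> simp
    simp only [cd, ofReal_sub, ← diagonal_sub, mul_sub, sub_mul, ofReal_one, diagonal_one, mul_one,
      mul_eq_one_comm.1 hU] at this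
    exact this
  · rw [cd_tr hU, sum_boole, Nat.cast_le]
    exact (card_le_card fun i hi => by simpa using (mem_filter.1 hi).2.1).trans
      (Fin.card_filter_val_lt (n := d) (m := k) ▸ min_le_right _ _)

lemma T_cd {U : Op d} (hU : Uᴴ * U = 1) {x : Fin d → ℝ} (hx : Antitone x) (k : ℕ) :
    (cd U (fun i => if i.val < k ∧ 0 < x i then 1 else 0) * cd U x).trace.re = T k (cd U x) ∧
      T k (cd U x) = ∑ i with i.val < k, max (x i) 0 := by
  have e : (cd U (fun i => if i.val < k ∧ 0 < x i then 1 else 0) * cd U x).trace.re =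
      ∑ i with i.val < k, max (x i) 0 := by
    rw [cd_mul hU, cd_tr hU, sum_filter]
    refine sum_congr rfl fun i _ => ?_
    by_cases i.val < k <;> rcases lt_or_ge 0 (x i) with c | c <;> simp [*, le_of_lt, not_lt.2]
  have : T k (cd U x) = _ := IsGreatest.csSup_eq ⟨⟨_, pj hU x k, e⟩, by
    rintro _ ⟨P, h, rfl⟩
    exact kf hU hx h⟩
  exact ⟨e.trans this.symm, this⟩

lemma le_T {P y : Op d} (hy : y.IsHermitian) {k : ℕ} (h : P ∈ PK d k) :
    (P * y).trace.re ≤ T k y ∧ T k y ≤ tn y := by
  obtain ⟨U, x, hU, hx, rfl⟩ := Pur.sorted hy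
  refine ⟨(kf hU hx h).trans (T_cd hU hx k).2.ge, (T_cd hU hx k).2.trans_le
    (le_of_le_of_eq ?_ (tn_cd hU x).symm)⟩
  exact (sum_le_sum fun i _ => max_le (le_abs_self _) (abs_nonneg _)).trans
    (sum_le_univ_sum_of_nonneg fun i => abs_nonneg _)

lemma T_sub {y z : Op d} (hy : y.IsHermitian) (hz : z.IsHermitian) (k : ℕ) :
    T k y - T k z ≤ tn (y - z) := by
  have a := fun P (h : P ∈ PK d k) => le_T (hy.sub hz) h
  obtain ⟨U, x, hU, hx, rfl⟩ := Pur.sorted hy
  have := a _ (pj hU x k)
  have b := (le_T hz (pj hU x k)).1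
  rw [mul_sub, trace_sub, sub_re] at this
  have e := (T_cd hU hx k).1
  simp only [cd] at *
  linarith [this.1, this.2]

open scoped Matrix.Norms.L2Operator in
lemma c_tn : Continuous (tn : Op d → ℝ) :=
  continuous_re.comp (CFC.continuous_abs (A := Op d)).matrix_trace

lemma c_T {y : ℝ → Op d} {s : Set ℝ} (h : ContinuousOn y s) (hy : ∀ t, (y t).IsHermitian) (k : ℕ) :
    ContinuousOn (fun t => T k (y t)) s := fun t ht => by
  have a : Tendsto (fun u => tn (y u - y t) + tn (y t - y u)) (𝓝[s] t) (𝓝 0) := by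
    have := (c_tn.continuousAt.comp_continuousWithinAt ((h t ht).sub continuousWithinAt_const
      (g := fun _ => y t))).add (c_tn.continuousAt.comp_continuousWithinAt
        (continuousWithinAt_const.sub (f := fun _ => y t) (h t ht)))
    have z : tn (0 : Op d) = 0 := by simp [tn]
    simpa [ContinuousWithinAt, z, Function.comp_def, Pi.add_def] using this
  have n : ∀ z : Op d, 0 ≤ tn z := fun z =>
    (nonneg_iff.1 (CFC.sqrt_nonneg _).posSemidef.trace_nonneg).1
  refine tendsto_iff_dist_tendsto_zero.2 (squeeze_zero (fun _ => dist_nonneg) (fun u => ?_) a)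
  rw [Real.dist_eq, abs_le]
  constructor <;> linarith [T_sub (hy u) (hy t) k, T_sub (hy t) (hy u) k, n (y u - y t), n (y t - y u)]

noncomputable def rt (L : Fin m → Op d) (U : Op d) (i j : Fin d) : ℝ :=
  ∑ l, normSq ((Uᴴ * L l * U) i j)

lemma dis {U : Op d} (hU : Uᴴ * U = 1) (L : Fin m → Op d) (e x : Fin d → ℝ) :
    (cd U e * diss L (cd U x)).trace.re = ∑ i, ∑ j, rt L U i j * (x j * (e i - e j)) := by
  have w : ∀ a, U * (Uᴴ * a) = a := fun a => by rw [← mul_assoc, mul_eq_one_comm.1 hU, one_mul]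
  simp only [diss, mul_sum, trace_sum, re_sum, rt, sum_mul, sum_comm (α := Fin m)]
  refine sum_congr rfl fun l _ => ?_
  have k : ∀ a : Op d, (U * a * Uᴴ).trace = a.trace := fun a => by
    rw [trace_mul_comm, ← mul_assoc, hU, one_mul]
  set A := Uᴴ * L l * U with hA
  rw [show cd U e * (L l * cd U x * (L l)ᴴ - (1 / 2 : ℂ) • ((L l)ᴴ * L l * cd U x + cd U x *
    ((L l)ᴴ * L l))) = U * (diagonal (fun i => (e i : ℂ)) * (A * diagonal (fun i => (x i : ℂ)) * Aᴴ -
    (1 / 2 : ℂ) • (Aᴴ * A * diagonal (fun i => (x i : ℂ)) + diagonal (fun i => (x i : ℂ)) *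
      (Aᴴ * A)))) * Uᴴ by
    simp only [cd, hA, conjTranspose_mul, conjTranspose_conjTranspose, mul_sub, sub_mul, mul_add,
      add_mul, smul_add, smul_mul_assoc, mul_smul_comm, mul_assoc, w, mul_eq_one_comm.1 hU, mul_one,
      ← mul_assoc Uᴴ U, hU, one_mul], k]
  simp only [mul_sub, sum_sub_distrib]
  rw [sum_comm (f := fun i j => normSq (A i j) * (x j * e j)), trace_sub, sub_re]
  congr 1
  · simp only [trace, Matrix.diag, diagonal_mul, Matrix.mul_apply (N := Aᴴ), mul_diagonal, mul_sum, re_sum]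
    refine sum_congr rfl fun i _ => sum_congr rfl fun j _ => ?_
    simp [normSq_apply]
    ring
  · simp only [trace, Matrix.diag, diagonal_mul, Matrix.mul_apply (M := Aᴴ) (N := A), mul_diagonal, mul_sum, re_sum,
      Matrix.smul_apply, Matrix.add_apply, sum_mul, ← sum_add_distrib, smul_eq_mul]
    refine sum_congr rfl fun i _ => sum_congr rfl fun j _ => ?_
    simp [normSq_apply]
    ring

lemma rt_sum {U : Op d} (hU : Uᴴ * U = 1) (L : Fin m → Op d) :
    ∑ i, ∑ j, rt L U i j = ∑ l, ((L l)ᴴ * L l).trace.re := by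
  simp only [rt, sum_comm (α := Fin m)]
  refine sum_congr rfl fun l _ => ?_
  have : ((L l)ᴴ * L l).trace = ((Uᴴ * L l * U)ᴴ * (Uᴴ * L l * U)).trace := by
    rw [← mul_assoc, trace_mul_comm _ U]
    simp only [conjTranspose_mul, conjTranspose_conjTranspose, mul_assoc, ← mul_assoc U Uᴴ,
      mul_eq_one_comm.1 hU, one_mul]
  rw [this, sum_comm]
  generalize Uᴴ * L l * U = A
  simp [trace, mul_apply, normSq_apply]

lemma cut {L : Fin m → Op d} (h : Algebra.adjoin ℂ (Set.range L) = ⊤) : ∃ c, 0 < c ∧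
    ∀ U : Op d, Uᴴ * U = 1 → ∀ k, k + 1 < d →
      c ≤ ∑ i : Fin d, ∑ j : Fin d, if j.val ≤ k ∧ k < i.val then rt L U i j else 0 := by
  have K : IsCompact {U : Op d | Uᴴ * U = 1} :=
    (isCompact_univ_pi fun _ : Fin d => isCompact_univ_pi fun _ : Fin d =>
      isCompact_closedBall (0 : ℂ) 1).of_isClosed_subset (isClosed_eq (by fun_prop) continuous_const)
      fun U hU i _ j _ => mem_closedBall_zero_iff.2
        (entry_norm_bound_of_unitary (mem_unitaryGroup_iff'.2 hU) i j)
  have n : ∀ U i j, 0 ≤ rt L U i j := fun U i j => sum_nonneg fun _ _ => normSq_nonneg _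
  have E : ∀ k : Fin d, ∀ᶠ c in 𝓝[>] (0 : ℝ), ∀ U : Op d, Uᴴ * U = 1 → k.val + 1 < d →
      c ≤ ∑ i : Fin d, ∑ j : Fin d, if j.val ≤ k.val ∧ k.val < i.val then rt L U i j else 0 := fun k => by
    by_cases q : k.val + 1 < d
    swap
    · simp [q]
    obtain ⟨c, c0, hc⟩ := K.exists_forall_le' (f := fun U => ∑ i : Fin d, ∑ j : Fin d,
      if j.val ≤ k.val ∧ k.val < i.val then rt L U i j else 0) (a := 0) (Continuous.continuousOn
        (continuous_finsetSum _ fun i _ => continuous_finsetSum _ fun j _ => by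
          split_ifs
          · exact continuous_finsetSum _ fun l _ => continuous_normSq.comp
              (Continuous.matrix_elem (by fun_prop) i j)
          · exact continuous_const)) fun U hU => by
      have n' : ∀ i j : Fin d, 0 ≤ if j.val ≤ k.val ∧ k.val < i.val then rt L U i j else 0 :=
        fun i j => by split_ifs <;> simp [n]
      refine (sum_nonneg fun i _ => sum_nonneg fun j _ => n' i j).lt_of_ne' fun z => ?_
      have w : ∀ a, U * (Uᴴ * a) = a := fun a => by
        rw [← mul_assoc, mul_eq_one_comm.1 hU, one_mul]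
      have : ∀ a ∈ Algebra.adjoin ℂ (Set.range L),
          (Uᴴ * a * U).BlockTriangular fun i => decide (k.val < i.val) := fun a ha => by
        induction ha using Algebra.adjoin_induction with
        | mem x hx =>
          obtain ⟨l, rfl⟩ := hx
          intro i j p
          rw [Bool.lt_iff, decide_eq_false_iff_not, decide_eq_true_iff, not_lt] at p
          have := (sum_eq_zero_iff_of_nonneg fun j _ => n' i j).1 ((sum_eq_zero_iff_of_nonneg
            fun i _ => sum_nonneg fun j _ => n' i j).1 z i (mem_univ _)) j (mem_univ _)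
          rw [if_pos p] at this
          exact normSq_eq_zero.1 ((sum_eq_zero_iff_of_nonneg fun _ _ => normSq_nonneg _).1 this l
            (mem_univ _))
        | algebraMap r =>
          rw [← Algebra.commutes, mul_assoc, show Uᴴ * U = 1 from hU, mul_one]
          exact blockTriangular_diagonal _
        | add x y _ _ p q => rw [mul_add, add_mul]; exact p.add q
        | mul x y _ _ p q => simpa only [mul_assoc, w] using p.mul q
      have := this (U * single ⟨_, q⟩ k 1 * Uᴴ) (h ▸ Algebra.mem_top) (i := ⟨_, q⟩) (j := k) (by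
        simp [Bool.lt_iff])
      simp [mul_assoc, ← mul_assoc Uᴴ U, show Uᴴ * U = 1 from hU] at this
    filter_upwards [nhdsWithin_le_nhds (Iic_mem_nhds c0)] with b hb U hU _
    exact le_trans hb (hc U hU)
  obtain ⟨c, c1, c2⟩ := ((eventually_all.2 E).and self_mem_nhdsWithin).exists
  exact ⟨c, c2, fun U hU k q => c1 ⟨k, by omega⟩ U hU q⟩

lemma ite_zero_mul_ite_zero_aux {p : Prop} [Decidable p] (a b : ℝ) :
    (a * if p then b else 0) = (if p then a else 0) * b := by split_ifs <;> simp

noncomputable def V (q : ℝ) (y : Op d) : ℝ := ∑ k ∈ range d, q ^ k * T (k + 1) y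

lemma key {L : Fin m → Op d} (h : Algebra.adjoin ℂ (Set.range L) = ⊤) : ∃ q γ A : ℝ, 0 < q ∧ 0 < γ ∧
    0 < A ∧ ∀ y : Op d, y.IsHermitian → y.trace.re = 0 → tn y ≤ 2 * d * V q y ∧ V q y ≤ A * tn y ∧
      ∃ W : Op d, (W * y).trace.re = V q y ∧ (∀ z, z.IsHermitian → (W * z).trace.re ≤ V q z) ∧
        y * W = W * y ∧ (W * diss L y).trace.re ≤ -γ * V q y := by
  obtain ⟨c, c0, hc⟩ := cut h
  set R := ∑ l, ((L l)ᴴ * L l).trace.re
  have R0 : 0 ≤ R := sum_nonneg fun l _ =>
    (nonneg_iff.1 (posSemidef_conjTranspose_mul_self _).trace_nonneg).1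
  set q := R / c + 1
  have q0 : 0 < q := by positivity
  have q1 : R ≤ q * c := by rw [add_mul, div_mul_cancel₀ _ c0.ne']; linarith
  set A := ∑ k ∈ range d, q ^ k + 1 with hA
  have A0 : 0 < A := by positivity
  refine ⟨q, c / (A * (d + 1)), A, q0, by positivity, A0, fun y hy h0 => ?_⟩
  have t2 := fun k => (le_T hy (k := k) (P := 0) ⟨.zero, by simpa using .one, by simp⟩)
  obtain ⟨U, x, hU, hx, e⟩ := Pur.sorted hy
  obtain rfl : y = cd U x := e
  rw [cd_tr hU] at h0
  set μ : ℕ → ℝ := fun k => if h : k < d then max (x ⟨k, h⟩) 0 else 0 with hμ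
  have m0 : ∀ k, 0 ≤ μ k := fun k => by simp only [hμ]; split_ifs <;> simp
  have m1 : ∀ k (i : Fin d), k ≤ i.val → x i ≤ μ k := fun k i p => by
    simp only [hμ, dif_pos (p.trans_lt i.2)]
    exact le_max_of_le_left (hx p)
  have m2 : ∀ k (i : Fin d), i.val ≤ k → μ k ≤ max (x i) 0 := fun k i p => by
    simp only [hμ]
    split_ifs
    · exact max_le_max_right 0 (hx p)
    · simp
  have s0 : ∑ i, max (x i) 0 ≤ d * μ 0 := by
    simpa using sum_le_sum fun i (_ : i ∈ univ) => max_le (m1 0 i i.1.zero_le) (m0 0)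
  have v1 : μ 0 ≤ V q (cd U x) := by
    rcases d with _ | d
    · simp [hμ, V]
    refine le_of_eq_of_le ?_ (single_le_sum (f := fun k => q ^ k * T (k + 1) (cd U x))
      (fun k _ => mul_nonneg (by positivity) (by simpa using (t2 _).1)) (mem_range.2 d.succ_pos))
    simp [(T_cd hU hx _).2, hμ, sum_filter]
  have v2 : ∀ b, 0 ≤ b → (∀ k, T k (cd U x) ≤ b) → V q (cd U x) ≤ A * b := fun b b0 hb => by
    rw [hA, add_mul, sum_mul]
    exact le_add_of_le_of_nonneg (sum_le_sum fun k _ => by gcongr; exact hb _) (by linarith)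
  refine ⟨?_, v2 _ (le_trans (by simp) ((t2 0).1.trans (t2 0).2)) fun k => (t2 k).2,
    ∑ k ∈ range d, ((q ^ k : ℝ) : ℂ) • cd U fun i => if i.val < k + 1 ∧ 0 < x i then 1 else 0,
    ?_, fun z hz => ?_, ?_, ?_⟩
  · have : ∑ i, |x i| = 2 * ∑ i, max (x i) 0 - ∑ i, x i := by
      rw [mul_sum, ← sum_sub_distrib]
      exact sum_congr rfl fun i _ => by
        rcases le_total 0 (x i) with p | p <;> simp [p, abs_of_nonneg, abs_of_nonpos, two_mul]
    rw [tn_cd hU, this, h0]
    nlinarith [mul_le_mul_of_nonneg_left v1 d.cast_nonneg]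
  · simp only [sum_mul, smul_mul_assoc, trace_sum, trace_smul, re_sum, smul_eq_mul, re_ofReal_mul,
      (T_cd hU hx _).1, V]
  · simp only [sum_mul, smul_mul_assoc, trace_sum, trace_smul, re_sum, smul_eq_mul, re_ofReal_mul, V]
    exact sum_le_sum fun k _ => mul_le_mul_of_nonneg_left (le_T hz (pj hU x _)).1 (by positivity)
  · simp only [sum_mul, mul_sum, smul_mul_assoc, mul_smul_comm, cd_mul hU, mul_comm (x _)]
  have b : ∀ k, (cd U (fun i => if i.val < k + 1 ∧ 0 < x i then 1 else 0) *
      diss L (cd U x)).trace.re ≤ q * c * μ (k + 1) - c * μ k := fun k => by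
    have n : ∀ i j, 0 ≤ rt L U i j := fun i j => sum_nonneg fun _ _ => normSq_nonneg _
    rw [dis hU]
    calc _ ≤ ∑ i, ∑ j, (rt L U i j * μ (k + 1) -
          (if j.val ≤ k ∧ k < i.val then rt L U i j else 0) * μ k) := by
          refine sum_le_sum fun i _ => sum_le_sum fun j _ => ?_
          rw [← ite_zero_mul_ite_zero_aux, ← mul_sub]
          refine mul_le_mul_of_nonneg_left ?_ (n i j)
          have a1 := m0 k
          have a2 := m0 (k + 1)
          have a3 := m1 (k + 1) j
          have a4 := m2 k j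
          by_cases p : j.val ≤ k
          · have a4 := a4 p
            rcases lt_or_ge 0 (x j) with r | r
            · rw [max_eq_left r.le] at a4
              rw [if_pos (And.intro (Nat.lt_succ_of_le p) r)]
              split_ifs with s t <;> first | omega | linarith
            · rw [max_eq_right r] at a4
              rw [if_neg (fun s : _ ∧ _ => r.not_gt s.2)]
              split_ifs with s t <;> linarith
          · have a3 := a3 (by omega)
            rw [if_neg (fun s : j.val < k + 1 ∧ _ => by omega), if_neg (fun s : _ ∧ _ => p s.1)]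
            split_ifs <;> linarith
      _ ≤ _ := by
          simp only [sum_sub_distrib, ← sum_mul, rt_sum hU]
          refine sub_le_sub (mul_le_mul_of_nonneg_right q1 (m0 _)) ?_
          by_cases p : k + 1 < d
          · exact mul_le_mul_of_nonneg_right (hc U hU k p) (m0 _)
          have : μ k = 0 := (m0 k).antisymm' (not_lt.1 fun r => by
            have f : ∀ i, 0 < x i := fun i =>
              (lt_max_iff.1 (r.trans_le (m2 k i (by omega)))).resolve_right (lt_irrefl _)
            by_cases s : k < d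
            · exact (sum_pos' (fun i _ => (f i).le) ⟨⟨k, s⟩, mem_univ _, f _⟩).ne' h0
            · simp [hμ, s] at r)
          simp [this]
  have v3 := v2 ((d + 1) * μ 0) (mul_nonneg (by positivity) (m0 0)) fun k => by
    rw [(T_cd hU hx k).2]
    linarith [sum_le_univ_sum_of_nonneg (s := univ.filter fun i => i.val < k)
      fun i => le_max_right (x i) 0, m0 0]
  simp only [sum_mul, smul_mul_assoc, trace_sum, trace_smul, re_sum, smul_eq_mul, re_ofReal_mul]
  calc _ ≤ ∑ k ∈ range d, (q ^ (k + 1) * c * μ (k + 1) - q ^ k * c * μ k) := sum_le_sum fun k _ =>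
        (mul_le_mul_of_nonneg_left (b k) (by positivity)).trans_eq (by ring)
    _ = -(c * μ 0) := by
        rw [sum_range_sub fun k => q ^ k * c * μ k]
        simp [hμ]
    _ ≤ _ := by
        rw [neg_mul, neg_le_neg_iff, div_mul_eq_mul_div, div_le_iff₀ (by positivity)]
        nlinarith

def Sol (F y : ℝ → Op d) (s : ℝ) : Prop := ContinuousOn y (Set.Ici s) ∧
  ∀ φ : Op d →ₗ[ℝ] ℝ, ∀ t, s ≤ t → IntervalIntegrable (fun u => φ (F u)) volume s t ∧
    φ (y t) = φ (y s) + ∫ u in s..t, φ (F u)

lemma Sol.map {F y : ℝ → Op d} {s : ℝ} (h : Sol F y s) (Φ : Op d →ₗ[ℝ] Op d) :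
    Sol (fun u => Φ (F u)) (fun u => Φ (y u)) s :=
  ⟨Φ.continuous_of_finiteDimensional.comp_continuousOn h.1, fun φ => h.2 (φ ∘ₗ Φ)⟩

lemma Sol.sub {F G y z : ℝ → Op d} {s : ℝ} (h : Sol F y s) (k : Sol G z s) :
    Sol (fun u => F u - G u) (fun u => y u - z u) s := ⟨h.1.sub k.1, fun φ t p => by
  simp only [map_sub]
  refine ⟨(h.2 φ t p).1.sub (k.2 φ t p).1, ?_⟩
  rw [intervalIntegral.integral_sub (h.2 φ t p).1 (k.2 φ t p).1, (h.2 φ t p).2, (k.2 φ t p).2]
  ring⟩

lemma sol_of {F y : ℝ → Op d} {s : ℝ} {ρ : Op d} (h : ∀ t i j, s ≤ t →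
    IntervalIntegrable (fun u => F u i j) volume s t ∧ y t i j = ρ i j + ∫ u in s..t, F u i j) :
    y s = ρ ∧ Sol F y s := by
  have e : y s = ρ := by ext i j; simpa using (h s i j le_rfl).2
  refine ⟨e, fun t ht => ?_, fun φ t p => ?_⟩
  · have q : s ≤ t + 1 := le_trans ht (by simp)
    have c : ContinuousOn y (Set.uIcc s (t + 1)) := continuousOn_pi.2 fun i => continuousOn_pi.2
      fun j => (continuousOn_const.add (intervalIntegral.continuousOn_primitive_interval'
        (h _ i j q).1 Set.left_mem_uIcc)).congr fun u hu => (h u i j (Set.uIcc_of_le q ▸ hu).1).2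
    rw [Set.uIcc_of_le q] at c
    exact (c t ⟨ht, by simp⟩).mono_of_mem_nhdsWithin
      (inter_mem_nhdsWithin _ (Iic_mem_nhds (by simp)))
  · let ψ : Fin d → Fin d → ℂ →L[ℝ] ℝ := fun i j =>
      LinearMap.toContinuousLinearMap (φ ∘ₗ singleLinearMap ℝ i j)
    have a : ∀ x, φ x = ∑ i, ∑ j, ψ i j (x i j) := fun x => by
      conv_lhs => rw [matrix_eq_sum_single x]
      simp [ψ]
    have b : ∀ i j, IntervalIntegrable (fun u => ψ i j (F u i j)) volume s t := fun i j =>
      ⟨(ψ i j).integrable_comp (h t i j p).1.1, (ψ i j).integrable_comp (h t i j p).1.2⟩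
    have c : ∀ i, IntervalIntegrable (fun u => ∑ j, ψ i j (F u i j)) volume s t := fun i => by
      simpa only [sum_fn] using IntervalIntegrable.sum univ fun j _ => b i j
    simp only [a]
    refine ⟨by simpa only [sum_fn] using IntervalIntegrable.sum univ fun i _ => c i, ?_⟩
    rw [intervalIntegral.integral_finsetSum fun i _ => c i, ← sum_add_distrib]
    refine sum_congr rfl fun i _ => ?_
    rw [intervalIntegral.integral_finsetSum fun j _ => b i j, ← sum_add_distrib]
    exact sum_congr rfl fun j _ => by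
      rw [(ψ i j).intervalIntegral_comp_comm (h t i j p).1, (h t i j p).2, map_add, e]

noncomputable def ph (W : Op d) : Op d →ₗ[ℝ] ℝ where
  toFun a := (W * a).trace.re
  map_add' a b := by simp [mul_add]
  map_smul' r a := by simp

lemma tr0 (H : Op d) (L : Fin m → Op d) (y : Op d) : (lind H L y).trace = 0 := by
  simp only [lind, diss, trace_add, trace_smul, trace_sub, trace_sum, smul_eq_mul]
  rw [trace_mul_comm H, sum_eq_zero fun l _ => by
    rw [trace_mul_comm y, trace_mul_cycle (L l) y]; ring]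
  simp

lemma decay {L : Fin m → Op d} {q γ : ℝ} (hk : ∀ y : Op d, y.IsHermitian → y.trace.re = 0 →
    ∃ W : Op d, (W * y).trace.re = V q y ∧ (∀ z, z.IsHermitian → (W * z).trace.re ≤ V q z) ∧
      y * W = W * y ∧ (W * diss L y).trace.re ≤ -γ * V q y) {H y : ℝ → Op d} {s t : ℝ}
    (hH : IsDrive H) (hs : 0 ≤ s) (ht : s ≤ t) (h : Sol (fun u => lind (H u) L (y u)) y s)
    (hy : ∀ u, (y u).IsHermitian) (h0 : (y s).trace.re = 0) :
    (y t).trace.re = 0 ∧ V q (y t) ≤ Real.exp (-γ * (t - s)) * V q (y s) := by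
  have t0 : ∀ u, s ≤ u → (y u).trace.re = 0 := fun u p => by
    simpa [ph, tr0, h0] using (h.2 (ph 1) u p).2
  obtain ⟨M, hM⟩ := hH.2.2 t
  have := le_gronwallBound_of_liminf_deriv_right_le (f := fun τ => -V q (y (-τ)))
    (f' := fun τ => γ * -V q (y (-τ))) (K := γ) (ε := 0) (a := -t) (b := -s)
    ((continuousOn_finsetSum _ fun k _ => continuousOn_const.mul (c_T h.1 hy _)).comp
      continuous_neg.continuousOn fun τ p => le_neg.1 p.2).neg (fun τ p r hr => by
      have p1 : s < -τ := lt_neg.1 p.2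
      have p2 : -τ ≤ t := neg_le.1 p.1
      obtain ⟨W, w1, w2, w3, w4⟩ := hk _ (hy _) (t0 _ p1.le)
      have cy := h.1.continuousAt (Ici_mem_nhds p1)
      have c : ContinuousAt (fun u => ∑ i, ∑ j, M * ‖(y u * W - W * y u) j i‖ +
          (W * diss L (y u)).trace.re) (-τ) := by
        refine ContinuousAt.comp (f := y) (g := fun a : Op d => ∑ i, ∑ j, M * ‖(a * W - W * a) j i‖ +
          (W * diss L a).trace.re) (Continuous.continuousAt (.add (continuous_finsetSum _ fun i _ =>
            continuous_finsetSum _ fun j _ => continuous_const.mul (Continuous.matrix_elem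
              (by fun_prop) j i).norm) (continuous_re.comp (Continuous.matrix_trace ?_)))) cy
        unfold diss
        fun_prop
      obtain ⟨r', r1, r2⟩ := exists_between hr
      obtain ⟨l, l1, l2⟩ := exists_Ioc_subset_of_mem_nhds ((c.eventually_lt_const (u := r') (by
        simp only [w3, sub_self, Matrix.zero_apply, norm_zero, mul_zero, sum_const_zero]
        linarith)).and (Ioi_mem_nhds p1)) ⟨s, p1⟩
      refine Eventually.frequently ?_
      filter_upwards [Ioo_mem_nhdsGT (lt_neg.1 l1)] with z hz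
      have z1 : l < -z := lt_neg.1 hz.2
      have z2 : -z < -τ := neg_lt_neg hz.1
      have z3 : s < -z := (l2 ⟨z1, z2.le⟩).2
      have i1 := h.2 (ph W) _ p1.le
      have i2 := h.2 (ph W) _ z3.le
      have i3 := intervalIntegral.integral_mono_on z2.le (i2.1.symm.trans i1.1)
        (g := fun _ => r') intervalIntegrable_const fun u hu => by
          refine le_trans ?_ (l2 ⟨z1.trans_le hu.1, hu.2⟩).1.le
          simp only [ph, lind, LinearMap.coe_mk, AddHom.coe_mk, mul_add, trace_add, add_re]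
          refine add_le_add_left ((re_le_norm _).trans ?_) _
          rw [mul_smul_comm, trace_smul, norm_smul, norm_neg, norm_I, one_mul, mul_sub, trace_sub,
            trace_mul_comm W, ← mul_assoc W, trace_mul_comm (W * _), mul_assoc, ← trace_sub, ← mul_sub]
          refine norm_sum_le_of_le _ fun i _ => ?_
          rw [Matrix.diag, Matrix.mul_apply]
          refine norm_sum_le_of_le _ fun j _ => ?_
          rw [norm_mul]
          gcongr
          exact hM u ⟨by linarith [hu.1], hu.2.trans p2⟩ i j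
      rw [← intervalIntegral.integral_interval_sub_left i1.1 i2.1, intervalIntegral.integral_const,
        smul_eq_mul] at i3
      have := w2 _ (hy (-z))
      have a1 : (W * y (-τ)).trace.re = _ := i1.2
      have a2 : (W * y (-z)).trace.re = _ := i2.2
      rw [inv_mul_lt_iff₀ (sub_pos.2 hz.1)]
      nlinarith [sub_pos.2 hz.1]) le_rfl (fun _ _ => (add_zero _).ge) (-s) ⟨neg_le_neg ht, le_rfl⟩
  refine ⟨t0 t ht, ?_⟩
  simp only [gronwallBound_ε0, neg_neg, neg_mul, neg_le_neg_iff] at this
  rw [neg_mul, Real.exp_neg, le_inv_mul_iff₀ (Real.exp_pos _), mul_comm]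
  rwa [show -s - -t = t - s by ring] at this

noncomputable def hp (z : ℂ) : Op d →ₗ[ℝ] Op d where
  toFun a := z • a + (z • a)ᴴ
  map_add' a b := by simp; abel
  map_smul' r a := by simp [smul_comm z r]

lemma hp_lind {H : Op d} (h : H.IsHermitian) (L : Fin m → Op d) (z : ℂ) (a : Op d) :
    hp z (lind H L a) = lind H L (hp z a) := by
  simp only [hp, lind, diss, LinearMap.coe_mk, AddHom.coe_mk, conjTranspose_add, conjTranspose_smul,
    conjTranspose_sub, conjTranspose_mul, conjTranspose_sum, conjTranspose_conjTranspose, h.eq,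
    smul_add, smul_sum, mul_add, add_mul, smul_mul_assoc, mul_smul_comm, smul_sub, mul_assoc,
    star_neg, star_def, conj_I, map_div₀, map_one, conj_ofNat, sum_add_distrib, sum_sub_distrib,
    ← smul_sum]
  module

theorem main {L : Fin m → Op d} (h : Algebra.adjoin ℂ (Set.range L) = ⊤) : ∃ K γ : ℝ, 0 < K ∧
    0 < γ ∧ ∀ H E, IsDrive H → IsProp H L E → ∀ ρ σ, IsState ρ → IsState σ → ∀ s t, 0 ≤ s → s ≤ t →
      tn (E t s ρ - E t s σ) ≤ K * Real.exp (-γ * (t - s)) * tn (ρ - σ) := by
  obtain ⟨q, γ, A, -, g0, A0, hk⟩ := key h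
  refine ⟨(2 * d + 1) * A, γ, by positivity, g0, fun H E hH hE ρ σ h1 h2 s t hs ht => ?_⟩
  obtain ⟨e1, s1⟩ := sol_of (y := fun u => E u s ρ) fun t i j p => hE s t ρ i j hs p
  obtain ⟨e2, s2⟩ := sol_of (y := fun u => E u s σ) fun t i j p => hE s t σ i j hs p
  have he : ∀ z (a : Op d), (hp z a).IsHermitian := fun z a => isHermitian_add_transpose_self _
  have hx := h1.1.1.sub h2.1.1
  have D := fun z => decay (fun y a b => (hk y a b).2.2) hH hs ht
    (y := fun u => hp z (E u s ρ - E u s σ)) (by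
      have := (s1.sub s2).map (hp z)
      simp only [← hp_lind (hH.1 _)]
      convert this using 3 with u
      simp only [lind, diss, mul_sub, sub_mul, smul_sub, smul_add, sum_sub_distrib, sum_add_distrib]
      abel) (fun _ => he _ _) (by simp [hp, e1, e2, h1.2, h2.2])
  simp only [e1, e2] at D
  have n : ∀ z : Op d, 0 ≤ tn z := fun z =>
    (nonneg_iff.1 (CFC.sqrt_nonneg _).posSemidef.trace_nonneg).1
  have a := D I
  have v := (hk 0 isHermitian_zero (by simp)).2.1
  have b := (hk _ (he _ _) a.1).1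
  generalize E t s ρ - E t s σ = x at *
  have z : hp I x = 0 := by
    rw [show hp I (ρ - σ) = 0 by simp [hp, hx.eq, -conjTranspose_sub]] at a
    rw [show tn (0 : Op d) = 0 by simp [tn], mul_zero] at v
    have p := (CFC.sqrt_nonneg ((hp I x)ᴴ * hp I x)).posSemidef
    have t0 : tn (hp I x) = 0 := (n _).antisymm' (b.trans (mul_nonpos_of_nonneg_of_nonpos
      (by positivity) (a.2.trans (mul_nonpos_of_nonneg_of_nonpos (Real.exp_pos _).le v))))
    rw [← conjTranspose_mul_self_eq_zero, ← CFC.sqrt_mul_sqrt_self ((hp I x)ᴴ * hp I x)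
      (posSemidef_conjTranspose_mul_self _).nonneg, p.trace_eq_zero_iff.1
        (Complex.ext t0 (nonneg_iff.1 p.trace_nonneg).2.symm), zero_mul]
  have f : ∀ y : Op d, yᴴ = y → hp 2⁻¹ y = y := fun y p => by
    simp [hp, p, ← add_smul]
    norm_num
  have c := D 2⁻¹
  have hx' : x.IsHermitian := by
    simp only [hp, LinearMap.coe_mk, AddHom.coe_mk, conjTranspose_smul, star_def, conj_I, neg_smul,
      ← sub_eq_add_neg, ← smul_sub, smul_eq_zero, I_ne_zero, false_or, sub_eq_zero] at z
    exact z.symm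
  rw [f _ hx, f x hx'] at c
  have k1 := (hk _ hx' c.1).1
  have k2 := (hk _ hx (by simp [h1.2, h2.2])).2.1
  have k3 := mul_le_mul_of_nonneg_left (c.2.trans (mul_le_mul_of_nonneg_left k2 (Real.exp_pos _).le))
    (show (0 : ℝ) ≤ 2 * d by positivity)
  nlinarith [mul_nonneg (mul_pos A0 (Real.exp_pos (-γ * (t - s)))).le (n (ρ - σ))]

end Pool.Agent.H95.Lya
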