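import Mathlib

set_option autoImplicit false

namespace Pool.Agent.H95.Lya

open Matrix Complex MeasureTheory
open scoped MatrixOrder ComplexOrder

/-- Operators on `ℂ^d`. -/
abbrev Op (d : ℕ) : Type := Matrix (Fin d) (Fin d) ℂ

variable {d m : ℕ}

/-- The dissipator of the jump operators `L`. -/
noncomputable def diss (L : Fin m → Op d) (ρ : Op d) : Op d :=
  ∑ j, (L j * ρ * (L j)ᴴ - (1 / 2 : ℂ) • ((L j)ᴴ * L j * ρ + ρ * ((L j)ᴴ * L j)))

/-- The Lindbladian with Hamiltonian `H`. -/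
noncomputable def lind (H : Op d) (L : Fin m → Op d) (ρ : Op d) : Op d :=
  -I • (H * ρ - ρ * H) + diss L ρ

/-- The trace norm. -/
noncomputable def tn (x : Op d) : ℝ := (CFC.sqrt (xᴴ * x)).trace.re

/-- Density matrices. -/
def IsState (ρ : Op d) : Prop := ρ.PosSemidef ∧ ρ.trace = 1

/-- Hermitian, measurable, locally bounded drives. -/
def IsDrive (H : ℝ → Op d) : Prop :=
  (∀ t, (H t).IsHermitian) ∧ (∀ i j, Measurable fun t => H t i j) ∧
    ∀ T, ∃ M, ∀ t ∈ Set.Icc 0 T, ∀ i j, ‖H t i j‖ ≤ M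

/-- `E t s` is the propagator: the evolution equation in integral form, entry by entry. -/
def IsProp (H : ℝ → Op d) (L : Fin m → Op d) (E : ℝ → ℝ → Op d → Op d) : Prop :=
  ∀ s t ρ i j, 0 ≤ s → s ≤ t →
    IntervalIntegrable (fun u => lind (H u) L (E u s ρ) i j) volume s t ∧
      E t s ρ i j = ρ i j + ∫ u in s..t, lind (H u) L (E u s ρ) i j

end Pool.Agent.H95.Lya
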