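import Pool.Agent.H95.MMDefs

/-! Basic facts on the box distance. -/

set_option autoImplicit false

namespace Pool.Agent.H95.Mms

open MeasureTheory ProbabilityTheory Set Filter Topology TopologicalSpace

abbrev I := unitInterval

lemma par_ex (X : MM) : ∃ φ, Par X φ :=
  haveI : Nonempty X.X := nonempty_of_isProbabilityMeasure X.μ
  X.μ.exists_measurable_map_eq

lemma Par.real {X : MM} {φ : I → X.X} (h : Par X φ) {B : Set X.X} (hB : MeasurableSet B) :
    volume.real (φ ⁻¹' B) = X.μ.real B := by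
  rw [← h.2, map_measureReal_apply h.1 hB]

def BL (X Y : MM) (ε : ℝ) : Prop :=
  0 ≤ ε ∧ ∃ φ ψ, Par X φ ∧ Par Y ψ ∧ ∃ I0 : Set unitInterval, MeasurableSet I0 ∧
    1 - ε ≤ volume.real I0 ∧ ∀ s ∈ I0, ∀ t ∈ I0, |dist (φ s) (φ t) - dist (ψ s) (ψ t)| ≤ ε

lemma bl_one (X Y : MM) : BL X Y 1 :=
  let ⟨φ, h⟩ := par_ex X
  let ⟨ψ, k⟩ := par_ex Y
  ⟨zero_le_one, φ, ψ, h, k, ∅, .empty, by simp, by simp⟩

lemma BL.le {X Y : MM} {ε : ℝ} (h : BL X Y ε) : box0 X Y ≤ ε := csInf_le ⟨0, fun _ h => h.1⟩ h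

lemma of_lt {X Y : MM} {r : ℝ} (h : box0 X Y < r) : ∃ ε < r, BL X Y ε :=
  let ⟨ε, h1, h2⟩ := exists_lt_of_csInf_lt ⟨1, bl_one X Y⟩ h
  ⟨ε, h2, h1⟩

lemma box0_nonneg (X Y : MM) : 0 ≤ box0 X Y := Real.sInf_nonneg fun _ h => h.1

lemma BL.symm {X Y : MM} {ε : ℝ} (h : BL X Y ε) : BL Y X ε :=
  let ⟨h0, φ, ψ, h1, h2, J, h3, h4, h5⟩ := h
  ⟨h0, ψ, φ, h2, h1, J, h3, h4, fun s hs t ht => (abs_sub_comm _ _).trans_le (h5 s hs t ht)⟩

lemma box0_comm (X Y : MM) : box0 X Y = box0 Y X :=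
  congrArg sInf (Set.ext fun _ => ⟨BL.symm, BL.symm⟩)

lemma real_inter {α : Type*} [MeasurableSpace α] (μ : Measure α) [IsProbabilityMeasure μ]
    (A : Set α) {B : Set α} (hB : MeasurableSet B) : μ.real A + μ.real B - 1 ≤ μ.real (A ∩ B) := by
  have h1 := measureReal_union_add_inter (μ := μ) (s := A) hB
  have h2 : μ.real (A ∪ B) ≤ 1 := measureReal_le_one
  linarith

lemma meet {α : Type*} [MeasurableSpace α] (μ : Measure α) [IsProbabilityMeasure μ]
    (A : Set α) {B : Set α} (hB : MeasurableSet B) (h : 1 < μ.real A + μ.real B) :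
    (A ∩ B).Nonempty :=
  nonempty_of_measureReal_ne_zero (μ := μ) (by linarith [real_inter μ A hB] : 0 < μ.real (A ∩ B)).ne'

lemma reparam {Y : MM} {ψ ψ' : I → Y.X} (h : Par Y ψ) (h' : Par Y ψ') :
    ∃ f g : I → I, MeasurePreserving f ∧ MeasurePreserving g ∧ ∀ᵐ s, ψ (f s) = ψ' (g s) := by
  let κ : Kernel Y.X I := condDistrib id ψ' volume
  have e : Y.μ ⊗ₘ κ = volume.map fun t => (ψ' t, t) := by
    rw [← h'.2]; exact compProd_map_condDistrib aemeasurable_id
  have m : MeasurableSet {p : Y.X × I | p.1 = ψ' p.2} :=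
    measurableSet_eq_fun measurable_fst (h'.1.comp measurable_snd)
  have a1 : ∀ᵐ y ∂Y.μ, ∀ᵐ t ∂κ y, y = ψ' t := by
    refine (Measure.ae_compProd_iff m).1 ?_
    rw [e]
    exact (ae_map_iff (h'.1.prodMk measurable_id).aemeasurable m).2 (.of_forall fun _ => rfl)
  let π : Measure (I × I) := volume ⊗ₘ κ.comap ψ h.1
  obtain ⟨F, F1, F2⟩ := π.exists_measurable_map_eq
  refine ⟨fun s => (F s).1, fun s => (F s).2, ⟨F1.fst, ?_⟩, ⟨F1.snd, ?_⟩, ?_⟩
  · rw [← Measure.fst_map_prodMk F1.snd]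
    exact F2 ▸ Measure.fst_compProd _ _
  · rw [← Measure.snd_map_prodMk F1.fst]
    show (volume.map F).snd = _
    have e2 : κ ∘ₘ (volume.map ψ) = volume := by
      rw [h.2, ← h'.2, condDistrib_comp_map h'.1.aemeasurable aemeasurable_id, Measure.map_id]
    rw [F2, Measure.snd_compProd]
    refine Eq.trans ?_ e2
    ext s hs
    rw [Measure.bind_apply hs (Kernel.aemeasurable _), Measure.bind_apply hs (Kernel.aemeasurable _),
      lintegral_map (Kernel.measurable_coe _ hs) h.1]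
    rfl
  · have m' : MeasurableSet {p : I × I | ψ p.1 = ψ' p.2} :=
      measurableSet_eq_fun (h.1.comp measurable_fst) (h'.1.comp measurable_snd)
    refine ae_of_ae_map (p := fun p : I × I => ψ p.1 = ψ' p.2) F1.aemeasurable ?_
    rw [F2]
    refine (Measure.ae_compProd_iff m').2 ?_
    rw [← h.2] at a1
    exact ae_of_ae_map h.1.aemeasurable a1

lemma Par.comp {X : MM} {φ : I → X.X} (h : Par X φ) {f : I → I} (hf : MeasurePreserving f) :
    Par X (φ ∘ f) := ⟨h.1.comp hf.1, by rw [← Measure.map_map h.1 hf.1, hf.2, h.2]⟩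

lemma BL.trans {X Y Z : MM} {ε δ : ℝ} (h : BL X Y ε) (k : BL Y Z δ) : BL X Z (ε + δ) := by
  obtain ⟨h0, φ, ψ, h1, h2, J, h3, h4, h5⟩ := h
  obtain ⟨k0, ψ', χ, k1, k2, L, k3, k4, k5⟩ := k
  obtain ⟨f, g, hf, hg, e⟩ := reparam h2 k1
  have m : MeasurableSet {s | ψ (f s) = ψ' (g s)} :=
    measurableSet_eq_fun (h2.1.comp hf.1) (k1.1.comp hg.1)
  refine ⟨by linarith, _, _, h1.comp hf, k2.comp hg, f ⁻¹' J ∩ g ⁻¹' L ∩ {s | ψ (f s) = ψ' (g s)},
    ((hf.1 h3).inter (hg.1 k3)).inter m, ?_, fun s hs t ht => ?_⟩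
  · have a1 := real_inter volume (f ⁻¹' J ∩ g ⁻¹' L) m
    have a2 := real_inter volume (f ⁻¹' J) (hg.1 k3)
    rw [hf.measureReal_preimage h3.nullMeasurableSet,
      hg.measureReal_preimage k3.nullMeasurableSet] at a2
    have a3 : volume.real {s | ψ (f s) = ψ' (g s)} = 1 := by
      rw [Measure.real, (prob_compl_eq_zero_iff m).1 e]; rfl
    linarith
  · have a1 := abs_le.1 (h5 _ hs.1.1 _ ht.1.1)
    have a2 := abs_le.1 (k5 _ hs.1.2 _ ht.1.2)
    rw [show ψ (f s) = _ from hs.2, show ψ (f t) = _ from ht.2] at a1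
    simp only [Function.comp]
    exact abs_le.2 ⟨by linarith, by linarith⟩

lemma box0_tri (X Y Z : MM) : box0 X Z ≤ box0 X Y + box0 Y Z :=
  le_of_forall_pos_le_add fun η hη => by
    obtain ⟨ε, h1, h2⟩ := of_lt (lt_add_of_pos_right (box0 X Y) (half_pos hη))
    obtain ⟨δ, h3, h4⟩ := of_lt (lt_add_of_pos_right (box0 Y Z) (half_pos hη))
    linarith [(h2.trans h4).le]

lemma bl_self (X : MM) : BL X X 0 :=
  let ⟨φ, h⟩ := par_ex X
  ⟨le_rfl, φ, φ, h, h, univ, .univ, by simp, by simp⟩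

lemma Iso.bl {X Y : MM} (h : Iso X Y) : BL X Y 0 := by
  obtain ⟨f, f1, f2⟩ := h
  have m : MeasurableSet X.μ.support := Measure.isClosed_support.measurableSet
  have e : (X.μ.comap (Subtype.val : X.μ.support → X.X)).map Subtype.val = X.μ := by
    rw [map_comap_subtype_coe m]
    exact Measure.restrict_eq_self_of_ae_mem Measure.support_mem_ae
  haveI : IsProbabilityMeasure (X.μ.comap (Subtype.val : X.μ.support → X.X)) :=
    haveI : IsProbabilityMeasure ((X.μ.comap (Subtype.val : X.μ.support → X.X)).map Subtype.val) :=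
      e.symm ▸ inferInstance
    Measure.isProbabilityMeasure_of_map Subtype.val
  haveI : Nonempty X.μ.support := nonempty_of_isProbabilityMeasure (X.μ.comap Subtype.val)
  haveI := m.standardBorel
  obtain ⟨F, F1, F2⟩ := (X.μ.comap (Subtype.val : X.μ.support → X.X)).exists_measurable_map_eq
  have m2 : Measurable fun x => (f x : Y.X) := (continuous_subtype_val.comp f1.continuous).measurable
  refine ⟨le_rfl, Subtype.val ∘ F, (fun x => (f x : Y.X)) ∘ F, ⟨measurable_subtype_coe.comp F1, ?_⟩,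
    ⟨m2.comp F1, ?_⟩, univ, .univ, by simp, fun s _ t _ => ?_⟩
  · rw [← Measure.map_map measurable_subtype_coe F1, F2, e]
  · rw [← Measure.map_map m2 F1, F2, f2]
  · have := f1.dist_eq (F s) (F t)
    simp only [Subtype.dist_eq] at this
    simp [this]

def mk (X : MM) : Cl := Quot.mk _ X

lemma bl_out (X : MM) : BL (Quot.out (mk X)) X 0 := by
  have : ∀ X Y, Relation.EqvGen Iso X Y → BL X Y 0 := fun X Y h => by
    induction h with
    | rel _ _ h => exact h.bl
    | refl => exact bl_self _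
    | symm _ _ _ h => exact h.symm
    | trans _ _ _ _ _ h k => simpa using h.trans k
  exact this _ _ (Quot.eqvGen_exact (Quot.out_eq _))

lemma box_mk (X Y : MM) : box (mk X) (mk Y) = box0 X Y := by
  have a1 := (bl_out X).le
  have a2 := (bl_out Y).le
  have a3 := (bl_out X).symm.le
  have a4 := (bl_out Y).symm.le
  refine le_antisymm ?_ ?_
  · linarith [box0_tri (Quot.out (mk X)) X (Quot.out (mk Y)), box0_tri X Y (Quot.out (mk Y)),
      show box (mk X) (mk Y) = box0 (Quot.out (mk X)) (Quot.out (mk Y)) from rfl]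
  · linarith [box0_tri X (Quot.out (mk X)) Y, box0_tri (Quot.out (mk X)) (Quot.out (mk Y)) Y,
      show box (mk X) (mk Y) = box0 (Quot.out (mk X)) (Quot.out (mk Y)) from rfl]

noncomputable instance pms : PseudoMetricSpace Cl :=
  PseudoMetricSpace.ofDistTopology box (fun _ => (bl_self _).le.antisymm (box0_nonneg _ _))
    (fun _ _ => box0_comm _ _) (fun _ _ _ => box0_tri _ _ _) fun _ => Iff.rfl

lemma dist_mk (X Y : MM) : dist (mk X) (mk Y) = box0 X Y := box_mk X Y

lemma mk_out (a : Cl) : mk (Quot.out a) = a := Quot.out_eq a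

/-- Two sets of mass more than `κ` separated by a Lipschitz function. -/
def Sep (X : MM) (κ R : ℝ) : Prop :=
  ∃ (f : X.X → ℝ) (c : ℝ), LipschitzWith 1 f ∧ κ < X.μ.real {x | f x ≤ c} ∧
    κ < X.μ.real {x | c + R ≤ f x}

lemma ball_big (X : MM) (x : X.X) {κ : ℝ} (hκ : 0 < κ) :
    ∃ n : ℕ, 1 - κ < X.μ.real (Metric.ball x n) := by
  have h := tendsto_measure_iUnion_atTop (μ := X.μ) (s := fun n : ℕ => Metric.ball x n)
    fun a b hab => Metric.ball_subset_ball (by exact_mod_cast hab)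
  rw [Metric.iUnion_ball_nat, measure_univ] at h
  exact (((ENNReal.tendsto_toReal ENNReal.one_ne_top).comp h).eventually
    (lt_mem_nhds (by simpa using hκ))).exists

lemma not_sep (X : MM) {κ : ℝ} (hκ : 0 < κ) : ∃ n : ℕ, ∀ R : ℝ, n ≤ R → ¬ Sep X κ R := by
  obtain ⟨x⟩ : Nonempty X.X := nonempty_of_isProbabilityMeasure X.μ
  obtain ⟨n, hn⟩ := ball_big X x hκ
  refine ⟨2 * n, ?_⟩
  rintro R hR ⟨f, c, h1, h2, h3⟩
  obtain ⟨a, a1, a2⟩ := meet X.μ {x | f x ≤ c} (measurableSet_ball (x := x) (ε := n))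
    (by linarith)
  obtain ⟨b, b1, b2⟩ := meet X.μ {x | c + R ≤ f x} (measurableSet_ball (x := x) (ε := n))
    (by linarith)
  have := h1.le_add_mul b a
  have := dist_triangle_right b a x
  simp only [mem_setOf_eq, Metric.mem_ball, NNReal.coe_one, one_mul] at *
  push_cast at hR
  linarith

lemma BL.sep {X Y : MM} {ε m : ℝ} (h : BL X Y ε) (hm : 2 * ε < m) {p q : Y.X}
    (hp : m ≤ Y.μ.real {p}) (hq : m ≤ Y.μ.real {q}) : Sep X (m / 2) (dist q p - 2 * ε) := by
  obtain ⟨h0, φ, ψ, h1, h2, J, h3, h4, h5⟩ := h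
  have a1 := real_inter volume J (h2.1 (measurableSet_singleton p))
  have a2 := real_inter volume J (h2.1 (measurableSet_singleton q))
  rw [h2.real (measurableSet_singleton _)] at a1 a2
  obtain ⟨s, s1, s2⟩ := meet volume J (h2.1 (measurableSet_singleton p))
    (by rw [h2.real (measurableSet_singleton _)]; linarith)
  refine ⟨fun x => dist x (φ s), ε, LipschitzWith.dist_left _, ?_, ?_⟩
  · rw [← h1.real (measurableSet_le (by fun_prop) measurable_const)]
    refine lt_of_lt_of_le (by linarith) (a1.trans (measureReal_mono fun t ht => ?_))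
    have := abs_le.1 (h5 t ht.1 s s1)
    rw [show ψ t = p from ht.2, show ψ s = p from s2, dist_self] at this
    exact (by linarith : dist (φ t) (φ s) ≤ ε)
  · rw [← h1.real (measurableSet_le measurable_const (by fun_prop))]
    refine lt_of_lt_of_le (by linarith) (a2.trans (measureReal_mono fun t ht => ?_))
    have := abs_le.1 (h5 t ht.1 s s1)
    rw [show ψ t = q from ht.2, show ψ s = p from s2] at this
    exact (by linarith : ε + (dist q p - 2 * ε) ≤ dist (φ t) (φ s))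

end Pool.Agent.H95.Mms
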