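import Pool.Agent.H95.MM1

/-! The Kuratowski topologization is not Hausdorff; the concentration topology is not
sigma-compact. -/

set_option autoImplicit false

namespace Pool.Agent.H95.Mms

open MeasureTheory ProbabilityTheory Set Filter Topology TopologicalSpace

lemma not_t2 {α : Type*} [PseudoMetricSpace α] (x : α) (y : ℕ → ℕ → α)
    (h1 : ∀ n k, dist x (y n k) ≤ 1 / (n + 1))
    (h2 : ∀ n z, ∃ ε > 0, ∀ᶠ k in atTop, ε ≤ dist z (y n k)) : ¬ @T2Space _ (tauK α) := by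
  intro h
  letI := tauK α
  have key : ∀ (A : ℕ → Closeds α) B, KConv (map A atTop) B → Tendsto A atTop (𝓝 B) := by
    intro A B hB
    rw [Tendsto, nhds_sInf]
    exact le_iInf₂ fun t ht => ht _ _ inferInstance hB
  let c : α → Closeds α := fun z => Closeds.closure {z}
  have hc : ∀ z w, w ∈ (c z : Set α) ↔ dist w z = 0 := fun z w => by
    show w ∈ closure {z} ↔ _
    rw [Metric.mem_closure_iff_infDist_zero (singleton_nonempty z), Metric.infDist_singleton]
  have ne : (⊥ : Closeds α) ≠ c x := fun e => by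
    have : x ∈ (c x : Set α) := (hc _ _).2 (dist_self x)
    rw [← e] at this
    exact this
  obtain ⟨U, V, hU, hV, u, v, d⟩ := t2_separation ne
  have a1 : ∀ n, ∃ k, c (y n k) ∈ U := fun n => by
    refine ((key (fun k => c (y n k)) ⊥ ⟨fun z hz => ?_, fun z hz => hz.elim⟩).eventually
      (hU.mem_nhds u)).exists
    obtain ⟨ε, e0, e1⟩ := h2 n z
    obtain ⟨k, ⟨w, w1, w2⟩, k2⟩ := ((frequently_map.1 (hz _ (Metric.ball_mem_nhds z e0))).and_eventually
      e1).exists
    have := dist_triangle_left z (y n k) w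
    rw [(hc _ _).1 w2] at this
    rw [Metric.mem_ball] at w1
    exact absurd k2 (by linarith)
  choose k hk using a1
  have sm : ∀ δ : ℝ, 0 < δ → ∀ᶠ n : ℕ in atTop, 1 / ((n : ℝ) + 1) < δ := fun δ hδ =>
    tendsto_one_div_add_atTop_nhds_zero_nat.eventually (gt_mem_nhds hδ)
  refine ((key (fun n => c (y n (k n))) (c x) ⟨fun z hz => ?_, fun z hz W hW => ?_⟩).eventually
    (hV.mem_nhds v)).exists.elim fun n hn => disjoint_left.1 d (hk n) hn
  · refine (hc _ _).2 (dist_nonneg.antisymm' (le_of_forall_pos_le_add fun η hη => ?_))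
    obtain ⟨n, ⟨w, w1, w2⟩, n2⟩ := ((frequently_map.1 (hz _ (Metric.ball_mem_nhds z
      (half_pos hη)))).and_eventually (sm _ (half_pos hη))).exists
    have := dist_triangle4 z w (y n (k n)) x
    rw [(hc _ _).1 w2, dist_comm (y n (k n))] at this
    rw [Metric.mem_ball, dist_comm] at w1
    linarith [h1 n (k n)]
  · obtain ⟨ε, e0, e1⟩ := Metric.mem_nhds_iff.1 hW
    rw [eventually_map]
    filter_upwards [sm _ e0] with n hn
    refine ⟨y n (k n), e1 ?_, (hc _ _).2 (dist_self _)⟩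
    have := dist_triangle z x (y n (k n))
    rw [(hc _ _).1 hz] at this
    rw [Metric.mem_ball, dist_comm]
    linarith [h1 n (k n)]

noncomputable abbrev two (p : unitInterval) (r : ℝ) : MM :=
  { X := ℝ, μ := bernoulliMeasure r 0 p }

lemma two_l (p : unitInterval) (r : ℝ) : 1 - p ≤ (two p r).μ.real {0} := by
  show _ ≤ (bernoulliMeasure r 0 p).real {0}
  by_cases h : r = 0
  · rw [bernoulliMeasure_real_apply_of_mem_of_mem p (measurableSet_singleton _) h rfl]
    linarith [p.2.1]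
  · rw [bernoulliMeasure_real_apply_of_notMem_of_mem p (measurableSet_singleton _) h rfl]

lemma two_r (p : unitInterval) (r : ℝ) : p ≤ (two p r).μ.real {r} := by
  show _ ≤ (bernoulliMeasure r 0 p).real {r}
  by_cases h : 0 = r
  · rw [bernoulliMeasure_real_apply_of_mem_of_mem p (measurableSet_singleton _) rfl h]
    exact p.2.2
  · rw [bernoulliMeasure_real_apply_of_mem_of_notMem p (measurableSet_singleton _) rfl h]

theorem cl_not_t2 : ¬ @T2Space _ (tauK Cl) := by
  let p : ℕ → unitInterval := fun n => ⟨1 / (n + 2), by positivity,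
    (div_le_one (by positivity)).2 (by linarith [Nat.cast_nonneg (α := ℝ) n])⟩
  have p0 : ∀ n, (0 : ℝ) < p n := fun n => by show (0 : ℝ) < 1 / (n + 2); positivity
  have p1 : ∀ n, (p n : ℝ) ≤ 1 / 2 := fun n =>
    one_div_le_one_div_of_le two_pos (by linarith [Nat.cast_nonneg (α := ℝ) n])
  refine not_t2 (mk { X := ℝ, μ := .dirac 0 }) (fun n k => mk (two (p n) k)) (fun n k => ?_)
    fun n z => ?_
  · obtain ⟨ψ, h⟩ := par_ex (two (p n) k)
    rw [dist_mk]
    refine (BL.le (ε := p n) ⟨(p0 n).le, fun _ => 0, ψ, ⟨measurable_const, by simp⟩, h, ψ ⁻¹' {0},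
      h.1 (measurableSet_singleton _), ?_, fun s hs t ht => ?_⟩).trans
      (one_div_le_one_div_of_le (by positivity) (by linarith))
    · rw [h.real (measurableSet_singleton _)]
      exact two_l _ _
    · rw [show ψ s = _ from hs, show ψ t = _ from ht]
      simpa using (p0 n).le
  · obtain ⟨N, hN⟩ := not_sep (Quot.out z) (half_pos (p0 n))
    refine ⟨p n / 2, half_pos (p0 n), ?_⟩
    filter_upwards [eventually_ge_atTop (N + 1)] with k hk
    rw [← mk_out z, dist_mk]
    by_contra h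
    obtain ⟨ε, e1, e2⟩ := of_lt (not_le.1 h)
    refine hN _ ?_ (e2.sep (m := p n) (by linarith) ((by linarith [p1 n] : _ ≤ _).trans (two_l _ _))
      (two_r _ _))
    have : (N : ℝ) + 1 ≤ k := by exact_mod_cast hk
    show (N : ℝ) ≤ dist (k : ℝ) 0 - 2 * ε
    rw [Real.dist_eq, sub_zero, Nat.abs_cast]
    linarith [p1 n]

lemma kf_nonneg (f g : I → ℝ) : 0 ≤ kf f g := Real.sInf_nonneg fun _ h => h.1

lemma kf_le_one (f g : I → ℝ) : kf f g ≤ 1 :=
  csInf_le ⟨0, fun _ h => h.1⟩ ⟨zero_le_one, measureReal_le_one⟩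

lemma of_kf_lt {f g : I → ℝ} {r : ℝ} (h : kf f g < r) : volume.real {s | r < |f s - g s|} ≤ r := by
  obtain ⟨ε, h1, h2⟩ := exists_lt_of_csInf_lt ⟨1, by exact ⟨zero_le_one, measureReal_le_one⟩⟩ h
  exact (measureReal_mono fun s hs => h2.trans hs).trans (h1.2.trans h2.le)

instance (X : MM) : Nonempty (Lip X) := ⟨⟨fun _ => 0, (LipschitzWith.const 0).weaken zero_le_one⟩⟩

instance (X : MM) : Nonempty {φ // Par X φ} := nonempty_subtype.2 (par_ex X)

def CL (X Y : MM) (r : ℝ) : Prop :=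
  ∃ φ ψ, Par X φ ∧ Par Y ψ ∧ (∀ f : Lip X, ∃ g : Lip Y, kf (f.1 ∘ φ) (g.1 ∘ ψ) < r) ∧
    ∀ g : Lip Y, ∃ f : Lip X, kf (f.1 ∘ φ) (g.1 ∘ ψ) < r

lemma of_conc_lt {X Y : MM} {r : ℝ} (h : conc0 X Y < r) : CL X Y r := by
  obtain ⟨φ, h⟩ := exists_lt_of_ciInf_lt h
  obtain ⟨ψ, h⟩ := exists_lt_of_ciInf_lt h
  rw [max_lt_iff] at h
  refine ⟨φ, ψ, φ.2, ψ.2, fun f => exists_lt_of_ciInf_lt (lt_of_le_of_lt ?_ h.1),
    fun g => exists_lt_of_ciInf_lt (lt_of_le_of_lt ?_ h.2)⟩
  · refine le_ciSup (f := fun f : Lip X => ⨅ g : Lip Y, kf (f.1 ∘ φ.1) (g.1 ∘ ψ.1)) ⟨1, ?_⟩ f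
    rintro _ ⟨f, rfl⟩
    exact ciInf_le_of_le ⟨0, by rintro _ ⟨g, rfl⟩; exact kf_nonneg _ _⟩ (Classical.arbitrary _)
      (kf_le_one _ _)
  · refine le_ciSup (f := fun g : Lip Y => ⨅ f : Lip X, kf (f.1 ∘ φ.1) (g.1 ∘ ψ.1)) ⟨1, ?_⟩ g
    rintro _ ⟨f, rfl⟩
    exact ciInf_le_of_le ⟨0, by rintro _ ⟨g, rfl⟩; exact kf_nonneg _ _⟩ (Classical.arbitrary _)
      (kf_le_one _ _)

lemma CL.sep {X Y : MM} {r κ R : ℝ} (h : CL X Y r) (hs : Sep Y κ R) :
    Sep X (κ - r) (R - 2 * r) := by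
  obtain ⟨φ, ψ, h1, h2, -, h3⟩ := h
  obtain ⟨g, c, g1, g2, g3⟩ := hs
  obtain ⟨f, hf⟩ := h3 ⟨g, g1⟩
  have a1 := of_kf_lt hf
  have mf := f.2.continuous.measurable
  have mg := g1.continuous.measurable
  refine ⟨f.1, c + r, f.2, ?_, ?_⟩
  · rw [← h1.real (measurableSet_le mf measurable_const)]
    rw [← h2.real (measurableSet_le mg measurable_const)] at g2
    refine sub_lt_iff_lt_add.2 (g2.trans_le ((measureReal_mono fun s hs => ?_).trans
      ((measureReal_union_le _ _).trans (add_le_add le_rfl a1))))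
    by_contra h4
    simp only [mem_union, mem_preimage, mem_setOf_eq, not_or, not_le, not_lt, Function.comp,
      abs_le] at h4 hs
    linarith [h4.2.2]
  · rw [← h1.real (measurableSet_le measurable_const mf)]
    rw [← h2.real (measurableSet_le measurable_const mg)] at g3
    refine sub_lt_iff_lt_add.2 (g3.trans_le ((measureReal_mono fun s hs => ?_).trans
      ((measureReal_union_le _ _).trans (add_le_add le_rfl a1))))
    by_contra h4
    simp only [mem_union, mem_preimage, mem_setOf_eq, not_or, not_le, not_lt, Function.comp,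
      abs_le] at h4 hs
    linarith [h4.2.1]

lemma Sep.mono {X : MM} {κ R R' : ℝ} (h : Sep X κ R) (hR : R' ≤ R) : Sep X κ R' :=
  let ⟨f, c, h1, h2, h3⟩ := h
  ⟨f, c, h1, h2, h3.trans_le (measureReal_mono fun x hx => by
    simp only [mem_setOf_eq] at *; linarith)⟩

theorem not_sigma : ¬ @SigmaCompactSpace Cl (ballTop conc) := by
  intro h
  letI := ballTop conc
  obtain ⟨K, K1, K2⟩ := isSigmaCompact_univ (X := Cl)
  have a1 : ∀ (κ : ℝ), 0 < κ → ∀ n, ∃ R : ℕ, ∀ a ∈ K n, ¬ Sep (Quot.out a) κ R := by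
    intro κ hκ n
    let O : ℕ → Set Cl := fun R => {a | ∃ δ > 0, ¬ Sep (Quot.out a) (κ - δ) (R - 2 * δ)}
    refine ((K1 n).elim_directed_cover O (fun R a ⟨δ, d0, d1⟩ => ⟨δ / 2, half_pos d0,
      fun b hb => ⟨δ / 2, half_pos d0, fun hs => d1 ?_⟩⟩) (fun a _ => ?_)
      (Monotone.directed_le fun R R' hR a ⟨δ, d0, d1⟩ =>
        ⟨δ, d0, fun hs => d1 (hs.mono ?_)⟩)).imp fun R hR a ha hs => ?_
    rotate_right
    · obtain ⟨δ, d0, d1⟩ := hR ha
      obtain ⟨f, c, h1, h2, h3⟩ := hs.mono (show R - 2 * δ ≤ R by linarith)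
      exact d1 ⟨f, c, h1, by linarith, by linarith⟩
    · have := (of_conc_lt hb).sep hs
      rwa [show κ - δ / 2 - δ / 2 = κ - δ by ring,
        show R - 2 * (δ / 2) - 2 * (δ / 2) = R - 2 * δ by ring] at this
    · obtain ⟨N, hN⟩ := not_sep (Quot.out a) (half_pos hκ)
      obtain ⟨M, hM⟩ := exists_nat_ge (N + κ)
      refine mem_iUnion.2 ⟨M, κ / 2, half_pos hκ, ?_⟩
      rw [show κ - κ / 2 = κ / 2 by ring]
      exact hN _ (by linarith)
    · have : (R : ℝ) ≤ R' := by exact_mod_cast hR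
      linarith
  let p : unitInterval := ⟨1 / 2, by norm_num, by norm_num⟩
  let ν : Measure ℕ := geometricMeasure p
  have hp : p ≠ 0 := fun e => by simpa [p] using congrArg Subtype.val e
  have ν0 : ∀ n, 0 < ν.real {n} := fun n => by
    rw [geometricMeasure_real_singleton hp]
    norm_num [p]
  choose R hR using fun n => a1 (min (ν.real {0}) (ν.real {n + 1}) / 2)
    (half_pos (lt_min (ν0 _) (ν0 _))) n
  let a : ℕ → ℝ := fun n => Nat.casesOn n 0 fun n => R n
  have ma : Measurable a := measurable_from_top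
  haveI := Measure.isProbabilityMeasure_map (μ := ν) ma.aemeasurable
  let Y : MM := { X := ℝ, μ := ν.map a }
  have hY : ∀ n, ν.real {n} ≤ Y.μ.real {a n} := fun n => by
    show _ ≤ (ν.map a).real {a n}
    rw [map_measureReal_apply ma (measurableSet_singleton _)]
    exact measureReal_mono (by simp)
  obtain ⟨n, hn⟩ := mem_iUnion.1 (K2.symm ▸ mem_univ (mk Y))
  refine hR n _ hn (((bl_out Y).sep (by simpa using ⟨ν0 0, ν0 (n + 1)⟩)
    ((min_le_left _ _).trans (hY 0)) ((min_le_right _ _).trans (hY (n + 1)))).mono ?_)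
  show (R n : ℝ) ≤ dist (R n : ℝ) 0 - 2 * 0
  simp

end Pool.Agent.H95.Mms
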