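import Pool.Agent.H95.MMDefs

/-! Pyramids and hyperspace topologies. -/

set_option autoImplicit false

namespace Pool.Agent.H95.Mms

open MeasureTheory Set Filter Topology TopologicalSpace

/-- The Lipschitz order on classes: `a` is dominated by `b`. -/
def Prec (a b : Cl) : Prop :=
  ∃ Y X : MM, Quot.mk Iso Y = a ∧ Quot.mk Iso X = b ∧
    ∃ f : X.X → Y.X, LipschitzWith 1 f ∧ X.μ.map f = Y.μ

/-- Pyramids: nonempty, downward closed, directed box-closed sets. -/
structure Pyr : Type 1 where
  val : Closeds Cl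
  prop : (val : Set Cl).Nonempty ∧ (∀ a b, b ∈ val → Prec a b → a ∈ val) ∧
    ∀ a ∈ val, ∀ b ∈ val, ∃ c ∈ val, Prec a c ∧ Prec b c

/-- Box distance from a class to a closed set (infinite for the empty set). -/
noncomputable def dP (a : Cl) (F : Closeds Cl) : ENNReal := ⨅ b ∈ F, ENNReal.ofReal (box a b)

/-- Weak convergence of a sequence of pyramids. -/
def WConv (P : ℕ → Pyr) (Q : Pyr) : Prop :=
  (∀ a ∈ Q.val, Tendsto (fun n => dP a (P n).val) atTop (𝓝 0)) ∧
    ∀ a ∉ Q.val, 0 < liminf (fun n => dP a (P n).val) atTop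

/-- The weak topology: open sets are the sequentially open sets for weak convergence. -/
@[reducible] def weakTop : TopologicalSpace Pyr where
  IsOpen U := ∀ P Q, WConv P Q → Q ∈ U → ∀ᶠ n in atTop, P n ∈ U
  isOpen_univ := fun _ _ _ _ => Eventually.of_forall fun _ => trivial
  isOpen_inter := fun _ _ hs ht P Q h hQ => (hs P Q h hQ.1).and (ht P Q h hQ.2)
  isOpen_sUnion := fun _ h P Q hPQ hQ => hQ.elim fun t ht =>
    (h t ht.1 P Q hPQ ht.2).mono fun _ hn => ⟨t, ht.1, hn⟩

/-- The Fell topology. -/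
@[reducible] def fell (α : Type*) [TopologicalSpace α] : TopologicalSpace (Closeds α) :=
  generateFrom ({S | ∃ U, IsOpen U ∧ S = {F : Closeds α | ((F : Set α) ∩ U).Nonempty}} ∪
    {S | ∃ K, IsCompact K ∧ S = {F : Closeds α | (F : Set α) ∩ K = ∅}})

/-- The Wijsman topology of the box distance. -/
@[reducible] noncomputable def wijs : TopologicalSpace (Closeds Cl) :=
  ⨅ a : Cl, induced (dP a) inferInstance

end Pool.Agent.H95.Mms
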