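import Pool.Agent.H95.MM1
import Pool.Agent.H95.PyrDefs

/-! The space of pyramids embeds in the Fell and Wijsman hyperspaces. -/

set_option autoImplicit false

namespace Pool.Agent.H95.Mms

open MeasureTheory ProbabilityTheory Set Filter Topology TopologicalSpace Function
open scoped ENNReal

lemma bl_of_sub {X Y : MM} (ρ : Measure (X.X × Y.X)) (h1 : ρ.fst ≤ X.μ) (h2 : ρ.snd ≤ Y.μ)
    {S : Set (X.X × Y.X)} (hS : MeasurableSet S) {δ : ℝ} (h0 : 0 ≤ δ)
    (h3 : ENNReal.ofReal (1 - δ) ≤ ρ S)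
    (h4 : ∀ p ∈ S, ∀ q ∈ S, |dist p.1 q.1 - dist p.2 q.2| ≤ δ) : BL X Y δ := by
  haveI : IsFiniteMeasure ρ.fst := isFiniteMeasure_of_le _ h1
  haveI : IsFiniteMeasure ρ.snd := isFiniteMeasure_of_le _ h2
  let α := X.μ - ρ.fst
  let β := Y.μ - ρ.snd
  have e : β univ = α univ := by
    rw [Measure.sub_apply .univ h1, Measure.sub_apply .univ h2, Measure.fst_univ, Measure.snd_univ]
    simp
  have k : ∀ b : ℝ≥0∞, b ≤ α univ → (α univ)⁻¹ * (b * α univ) = b := fun b hb => by
    by_cases h : α univ = 0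
    · simp [h, le_zero_iff.1 (h ▸ hb)]
    · rw [mul_comm b, ← mul_assoc, ENNReal.inv_mul_cancel h (measure_ne_top _ _), one_mul]
  let π := ρ + (α univ)⁻¹ • α.prod β
  have p1 : π.fst = X.μ := by
    rw [← Measure.sub_add_cancel_of_le h1, Measure.fst_add, add_comm]
    congr 1
    ext s hs
    rw [Measure.fst_apply hs, Measure.smul_apply, ← prod_univ, Measure.prod_prod, e, smul_eq_mul,
      k _ (measure_mono (subset_univ _))]
  have p2 : π.snd = Y.μ := by
    rw [← Measure.sub_add_cancel_of_le h2, Measure.snd_add, add_comm]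
    congr 1
    ext s hs
    rw [Measure.snd_apply hs, Measure.smul_apply, ← univ_prod, Measure.prod_prod, smul_eq_mul,
      mul_comm (α univ), k _ (e ▸ measure_mono (subset_univ _))]
  haveI : IsProbabilityMeasure π := ⟨by rw [← Measure.fst_univ, p1, measure_univ]⟩
  haveI : Nonempty (X.X × Y.X) := nonempty_of_isProbabilityMeasure π
  obtain ⟨F, F1, F2⟩ := π.exists_measurable_map_eq
  refine ⟨h0, fun s => (F s).1, fun s => (F s).2, ⟨F1.fst, ?_⟩, ⟨F1.snd, ?_⟩, F ⁻¹' S, F1 hS, ?_,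
    fun s hs t ht => h4 _ hs _ ht⟩
  · rw [← Measure.fst_map_prodMk F1.snd, ← p1, ← F2]
  · rw [← Measure.snd_map_prodMk F1.fst, ← p2, ← F2]
  · rw [← map_measureReal_apply F1 hS, F2]
    exact (ENNReal.ofReal_le_iff_le_toReal (measure_ne_top _ _)).1 (h3.trans le_self_add)

lemma bl_of_parts {X Y : MM} {ι : Type} [Countable ι] {G : ι → Set X.X} {H : ι → Set Y.X}
    (g1 : ∀ i, MeasurableSet (G i)) (h1 : ∀ i, MeasurableSet (H i))
    (g2 : Pairwise (Disjoint on G)) (h2 : Pairwise (Disjoint on H)) {δ : ℝ} (h0 : 0 ≤ δ)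
    (h3 : ENNReal.ofReal (1 - δ) ≤ ∑' i, min (X.μ (G i)) (Y.μ (H i)))
    (h4 : ∀ i j, ∀ x ∈ G i, ∀ y ∈ H i, ∀ x' ∈ G j, ∀ y' ∈ H j, |dist x x' - dist y y'| ≤ δ) :
    BL X Y δ := by
  have k : ∀ a b c : ℝ≥0∞, b ≤ c → c⁻¹ * (a * b) ≤ a := fun a b c h => by
    rw [mul_left_comm]
    exact mul_le_of_le_one_right' ((mul_le_mul_right h _).trans (ENNReal.inv_mul_le_one c))
  refine bl_of_sub (Measure.sum fun i => (max (X.μ (G i)) (Y.μ (H i)))⁻¹ •
    (X.μ.restrict (G i)).prod (Y.μ.restrict (H i))) (Measure.le_iff.2 fun s hs => ?_)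
    (Measure.le_iff.2 fun s hs => ?_) (S := ⋃ i, G i ×ˢ H i)
    (.iUnion fun i => (g1 i).prod (h1 i)) h0 (h3.trans ?_) ?_
  · rw [Measure.fst_apply hs, Measure.sum_apply _ (measurable_fst hs)]
    refine le_trans (ENNReal.tsum_le_tsum fun i => ?_) (((Measure.sum_apply _ hs).symm.trans
      (by rw [← Measure.restrict_iUnion g2 g1])).trans_le (Measure.restrict_le_self s))
    rw [Measure.smul_apply, ← prod_univ, Measure.prod_prod, smul_eq_mul,
      Measure.restrict_apply_univ]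
    exact k _ _ _ (le_max_right _ _)
  · rw [Measure.snd_apply hs, Measure.sum_apply _ (measurable_snd hs)]
    refine le_trans (ENNReal.tsum_le_tsum fun i => ?_) (((Measure.sum_apply _ hs).symm.trans
      (by rw [← Measure.restrict_iUnion h2 h1])).trans_le (Measure.restrict_le_self s))
    rw [Measure.smul_apply, ← univ_prod, Measure.prod_prod, smul_eq_mul,
      Measure.restrict_apply_univ, mul_comm (X.μ (G i))]
    exact k _ _ _ (le_max_left _ _)
  · rw [Measure.sum_apply _ (.iUnion fun i => (g1 i).prod (h1 i))]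
    refine ENNReal.tsum_le_tsum fun i => le_trans ?_
      (measure_mono (subset_iUnion (fun i => G i ×ˢ H i) i))
    rw [Measure.smul_apply, Measure.prod_prod, smul_eq_mul, Measure.restrict_apply_self,
      Measure.restrict_apply_self, ← min_mul_max (X.μ (G i)), mul_comm (min _ _), ← mul_assoc]
    by_cases h : max (X.μ (G i)) (Y.μ (H i)) = 0
    · exact (min_le_max.trans h.le).trans zero_le
    · rw [ENNReal.inv_mul_cancel h (max_lt (measure_lt_top _ _) (measure_lt_top _ _)).ne, one_mul]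
  · simp only [mem_iUnion]
    rintro p ⟨i, hi⟩ q ⟨j, hj⟩
    exact h4 i j _ hi.1 _ hi.2 _ hj.1 _ hj.2

lemma cont_mk (C : Type) [MetricSpace C] [CompleteSpace C] [SeparableSpace C] [MeasurableSpace C]
    [BorelSpace C] : Continuous fun ν : ProbabilityMeasure C => mk { X := C, μ := ν } := by
  refine continuous_iff_continuousAt.2 fun ν => Metric.tendsto_nhds.2 fun ε hε => ?_
  haveI : Nonempty C := nonempty_of_isProbabilityMeasure (ν : Measure C)
  let c := denseSeq C
  obtain ⟨r, r1, r2, r3⟩ : ∃ r, 0 < r ∧ r < ε / 8 ∧ ∀ j, (ν : Measure C) {x | dist x (c j) = r} = 0 := by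
    obtain ⟨r, r1, r2⟩ := ((countable_iUnion fun j => Measure.countable_meas_level_set_pos
      (μ := ν) (g := fun x => dist x (c j)) (by fun_prop)).dense_compl ℝ).exists_between
      (show 0 < ε / 8 by positivity)
    exact ⟨r, r2.1, r2.2, fun j => by simpa using fun h => r1 (mem_iUnion.2 ⟨j, pos_iff_ne_zero.2 h⟩)⟩
  let G : ℕ → Set C := fun j => Metric.ball (c j) r \ ⋃ i ∈ Iio j, Metric.closedBall (c i) r
  have g1 : ∀ j, IsOpen (G j) := fun j => Metric.isOpen_ball.sdiff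
    ((finite_Iio j).isClosed_biUnion fun _ _ => Metric.isClosed_closedBall)
  have g2 : Pairwise (Disjoint on G) := (pairwise_disjoint_on _).2 fun i j hij =>
    disjoint_left.2 fun x h1 h2 => h2.2 (mem_biUnion hij (Metric.ball_subset_closedBall h1.1))
  have g3 : ∑' j, (ν : Measure C) (G j) = 1 := by
    rw [← measure_iUnion g2 fun j => (g1 j).measurableSet,
      ← prob_compl_eq_zero_iff (.iUnion fun j => (g1 j).measurableSet)]
    refine measure_mono_null (fun x hx => ?_) (measure_iUnion_null r3)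
    by_contra h
    simp only [mem_iUnion, mem_setOf_eq, not_exists] at h
    have ex : ∃ j, dist x (c j) < r := (denseRange_denseSeq C).exists_dist_lt x r1
    classical
    refine hx (mem_iUnion.2 ⟨Nat.find ex, Nat.find_spec ex, fun h2 => ?_⟩)
    obtain ⟨i, i1, i2⟩ := mem_iUnion₂.1 h2
    exact Nat.find_min ex i1 (lt_of_le_of_ne i2 (h i))
  have g4 : (1 : ℝ≥0∞) ≤ liminf (fun ν' : ProbabilityMeasure C =>
      ∑' j, min ((ν' : Measure C) (G j)) ((ν : Measure C) (G j))) (𝓝 ν) := by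
    rw [← g3]
    refine LowerSemicontinuousAt.le_liminf (f := fun ν' : ProbabilityMeasure C =>
      ∑' j, min ((ν' : Measure C) (G j)) ((ν : Measure C) (G j))) ?_ |>.trans' (by simp)
    refine lowerSemicontinuousAt_tsum fun j y hy => ?_
    replace hy : y < (ν : Measure C) (G j) := by simpa using hy
    filter_upwards [eventually_lt_of_lt_liminf (hy.trans_le
      (ProbabilityMeasure.le_liminf_measure_open_of_tendsto tendsto_id (g1 j)))] with ν' h
    exact lt_min h hy
  filter_upwards [eventually_lt_of_lt_liminf (lt_of_lt_of_le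
    (ENNReal.ofReal_lt_one.2 (show 1 - ε / 2 < 1 by linarith)) g4)] with ν' h
  rw [dist_mk]
  refine (bl_of_parts (X := { X := C, μ := ν' }) (Y := { X := C, μ := ν })
    (fun j => (g1 j).measurableSet) (fun j => (g1 j).measurableSet) g2 g2 (half_pos hε).le h.le
    fun i j x hx y hy x' hx' y' hy' => ?_).le.trans_lt (half_lt_self hε)
  have a1 := dist_dist_dist_le x x' y y'
  have a2 := dist_triangle_right x y (c i)
  have a3 := dist_triangle_right x' y' (c j)
  rw [Real.dist_eq] at a1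
  linarith [Metric.mem_ball.1 hx.1, Metric.mem_ball.1 hy.1, Metric.mem_ball.1 hx'.1,
    Metric.mem_ball.1 hy'.1]

abbrev Cube (N R : ℕ) := Fin N → Icc (0 : ℝ) R

def KK (p : ℕ × ℕ) : Set Cl :=
  range fun ν : ProbabilityMeasure (Cube p.1 p.2) => mk { X := Cube p.1 p.2, μ := ν }

lemma KK_compact (p : ℕ × ℕ) : IsCompact (KK p) := isCompact_range (cont_mk _)

lemma proj (a : Cl) {η : ℝ} (hη : 0 < η) :
    ∃ p, ∀ b r, dist a b < r → ∃ c ∈ KK p, Prec c b ∧ dist a c < r + 2 * η := by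
  let X : MM := Quot.out a
  haveI : Nonempty X.X := nonempty_of_isProbabilityMeasure X.μ
  let x := denseSeq X.X
  obtain ⟨N, hN⟩ : ∃ N : ℕ, 1 - η < X.μ.real (⋃ i ∈ Iio N, Metric.ball (x i) η) := by
    have h := tendsto_measure_iUnion_atTop (μ := X.μ)
      (s := fun N : ℕ => ⋃ i ∈ Iio N, Metric.ball (x i) η)
      fun a b hab => biUnion_subset_biUnion_left (Iio_subset_Iio hab)
    rw [show (⋃ N : ℕ, ⋃ i ∈ Iio N, Metric.ball (x i) η) = univ from eq_univ_of_forall fun z => by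
      obtain ⟨j, hj⟩ := (denseRange_denseSeq X.X).exists_dist_lt z hη
      exact mem_iUnion.2 ⟨j + 1, mem_biUnion (Nat.lt_succ_self j) hj⟩, measure_univ] at h
    exact (((ENNReal.tendsto_toReal ENNReal.one_ne_top).comp h).eventually
      (lt_mem_nhds (by simpa using hη))).exists
  obtain ⟨R, hR⟩ : ∃ R : ℕ, ∀ i j : Fin N, dist (x i) (x j) ≤ R := by
    obtain ⟨M, hM⟩ := (finite_range fun p : Fin N × Fin N => dist (x p.1) (x p.2)).bddAbove
    exact ⟨⌈M⌉₊, fun i j => (hM ⟨(i, j), rfl⟩).trans (Nat.le_ceil M)⟩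
  refine ⟨(N, R), fun b r hb => ?_⟩
  obtain ⟨ε, e1, e0, φ, ψ, h1, h2, J, h3, h4, h5⟩ := of_lt hb
  let A : Fin N → Set (Quot.out b).X := fun i => ψ '' (J ∩ φ ⁻¹' Metric.ball (x i) η)
  let F : (Quot.out b).X → Cube N R := fun y i => projIcc (0 : ℝ) R R.cast_nonneg (Metric.infDist y (A i))
  have F1 : LipschitzWith 1 F := LipschitzWith.of_dist_le_mul fun y z =>
    (dist_pi_le_iff (by positivity)).2 fun i => by
      simpa using ((LipschitzWith.projIcc _).comp (Metric.lipschitz_infDist_pt (A i))).dist_le_mul y z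
  have F2 := F1.continuous.measurable
  let ν : ProbabilityMeasure (Cube N R) :=
    ⟨(Quot.out b).μ.map F, Measure.isProbabilityMeasure_map F2.aemeasurable⟩
  have mB : MeasurableSet (⋃ i ∈ Iio N, Metric.ball (x i) η) :=
    (isOpen_biUnion fun _ _ => Metric.isOpen_ball).measurableSet
  refine ⟨_, ⟨ν, rfl⟩, ⟨_, Quot.out b, rfl, mk_out b, F, F1, rfl⟩, ?_⟩
  rw [← mk_out a, dist_mk]
  refine (BL.le (ε := ε + 2 * η) ⟨by linarith, φ, F ∘ ψ, h1, ⟨F2.comp h2.1, ?_⟩,
    J ∩ φ ⁻¹' ⋃ i ∈ Iio N, Metric.ball (x i) η, h3.inter (h1.1 mB), ?_,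
    fun s hs t ht => ?_⟩).trans_lt (by linarith)
  · rw [← Measure.map_map F2 h2.1, h2.2]; rfl
  · have := real_inter volume J (h1.1 mB)
    rw [h1.real mB] at this
    linarith
  obtain ⟨i, i1, i2⟩ := mem_iUnion₂.1 hs.2
  obtain ⟨j, j1, j2⟩ := mem_iUnion₂.1 ht.2
  have a1 := F1.dist_le_mul (ψ s) (ψ t)
  have a2 := abs_le.1 (h5 s hs.1 t ht.1)
  have a3 := dist_le_pi_dist (F (ψ s)) (F (ψ t)) ⟨j, j1⟩
  have a4 : ψ t ∈ A ⟨j, j1⟩ := ⟨t, ⟨ht.1, j2⟩, rfl⟩
  have a5 : dist (φ s) (φ t) - 2 * η - ε ≤ Metric.infDist (ψ s) (A ⟨j, j1⟩) := by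
    refine (Metric.le_infDist ⟨_, a4⟩).2 ?_
    rintro _ ⟨u, hu, rfl⟩
    linarith [(abs_le.1 (h5 s hs.1 u hu.1)).2, dist_triangle (φ s) (φ u) (φ t),
      dist_triangle_right (φ u) (φ t) (x j), Metric.mem_ball.1 j2, Metric.mem_ball.1 hu.2]
  have a6 : dist (φ s) (φ t) - 2 * η - ε ≤ R := by
    linarith [hR ⟨i, i1⟩ ⟨j, j1⟩, dist_triangle4 (φ s) (x i) (x j) (φ t), Metric.mem_ball.1 i2,
      Metric.mem_ball'.1 j2]
  have a7 : dist (φ s) (φ t) - 2 * η - ε ≤ dist (F (ψ s) ⟨j, j1⟩) (F (ψ t) ⟨j, j1⟩) := by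
    simp only [F, Metric.infDist_zero_of_mem a4, Subtype.dist_eq, coe_projIcc, Real.dist_eq]
    rw [min_eq_right (Nat.cast_nonneg (α := ℝ) R), max_self, sub_zero]
    exact ((le_min a6 a5).trans (le_max_right _ _)).trans (le_abs_self _)
  simp only [comp, NNReal.coe_one, one_mul] at a1 ⊢
  exact abs_le.2 ⟨by linarith, by linarith⟩

instance : SeparableSpace Cl := isSeparable_univ_iff.1 <|
  (isSeparable_iUnion.2 fun p => (KK_compact p).isSeparable).closure.mono fun a _ =>
    Metric.mem_closure_iff.2 fun ε hε => by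
      obtain ⟨p, hp⟩ := proj a (show 0 < ε / 3 by positivity)
      obtain ⟨c, c1, -, c2⟩ := hp a (ε / 3) (by simpa using hε)
      exact ⟨c, mem_iUnion.2 ⟨p, c1⟩, by linarith⟩

lemma dP_eq (a : Cl) (F : Closeds Cl) : dP a F = Metric.infEDist a F := by
  simp only [dP, Metric.infEDist, edist_dist]; rfl

lemma weak_le_fell : weakTop ≤ induced Pyr.val (fell Cl) := by
  rw [← continuous_iff_le_induced, continuous_generateFrom_iff]
  rintro _ (⟨U, hU, rfl⟩ | ⟨K, hK, rfl⟩) P Q h hQ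
  · obtain ⟨a, a1, a2⟩ := hQ
    obtain ⟨ε, e0, e1⟩ := EMetric.isOpen_iff.1 hU a a2
    filter_upwards [(h.1 a a1).eventually (gt_mem_nhds e0)] with n hn
    rw [dP_eq, Metric.infEDist_lt_iff] at hn
    obtain ⟨y, y1, y2⟩ := hn
    exact ⟨y, y1, e1 (by rwa [Metric.mem_eball, edist_comm])⟩
  · by_contra h1
    have h2 : ∀ n, ∃ y, ¬ ((P n).1 : Set Cl) ∩ K = ∅ → y ∈ ((P n).1 : Set Cl) ∩ K := fun n => by
      by_cases e : ((P n).1 : Set Cl) ∩ K = ∅
      · exact ⟨(P n).2.1.some, fun h => (h e).elim⟩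
      · exact (nonempty_iff_ne_empty.2 e).imp fun _ h _ => h
    choose y hy using h2
    obtain ⟨φ, φ1, φ2⟩ := extraction_of_frequently_atTop (not_eventually.1 h1)
    obtain ⟨a, a1, ψ, ψ1, ψ2⟩ := hK.tendsto_subseq fun n => (hy _ (φ2 n)).2
    obtain ⟨δ, d0, d1⟩ := exists_between (h.2 a fun h3 => (eq_empty_iff_forall_notMem.1 hQ) a ⟨h3, a1⟩)
    obtain ⟨n, n1, n2⟩ := ((((φ1.comp ψ1).tendsto_atTop).eventually
      (eventually_lt_of_lt_liminf d1)).and (ψ2.eventually (Metric.eball_mem_nhds a d0))).exists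
    rw [dP_eq] at n1
    refine lt_asymm (n1.trans_le (Metric.infEDist_le_edist_of_mem (hy _ (φ2 _)).1)) ?_
    rwa [edist_comm]

lemma fell_le_wijs : induced Pyr.val (fell Cl) ≤ induced Pyr.val wijs := by
  rw [induced_iInf]
  refine le_iInf fun a => ?_
  letI := fell Cl
  letI : TopologicalSpace Pyr := induced Pyr.val (fell Cl)
  rw [induced_compose, ← continuous_iff_le_induced]
  have hv : Continuous Pyr.val := continuous_induced_dom
  refine continuous_iff_continuousAt.2 fun P => tendsto_order.2 ⟨fun r hr => ?_, fun r hr => ?_⟩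
  · obtain ⟨s, s0, s1, s2⟩ := ENNReal.lt_iff_exists_real_btwn.1 hr
    obtain ⟨t, t0, t1, t2⟩ := ENNReal.lt_iff_exists_real_btwn.1 s2
    have st : s < t := (ENNReal.ofReal_lt_ofReal_iff'.1 t1).1
    obtain ⟨p, hp⟩ := proj a (half_pos (sub_pos.2 st))
    have o : IsOpen {F : Closeds Cl | (F : Set Cl) ∩ (KK p ∩ Metric.closedBall a t) = ∅} :=
      isOpen_generateFrom_of_mem (Or.inr ⟨_, (KK_compact p).inter_right Metric.isClosed_closedBall, rfl⟩)
    refine mem_of_superset ((o.preimage hv).mem_nhds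
      (eq_empty_iff_forall_notMem.2 fun c hc => ?_)) fun Q hQ => ?_
    swap
    · refine s1.trans_le (not_lt.1 fun h => ?_)
      rw [comp, dP_eq, Metric.infEDist_lt_iff] at h
      obtain ⟨b, b1, b2⟩ := h
      obtain ⟨c, c1, c2, c3⟩ := hp b s (edist_lt_ofReal.1 b2)
      exact eq_empty_iff_forall_notMem.1 hQ c ⟨Q.2.2.1 c b b1 c2, c1,
        Metric.mem_closedBall'.2 (by linarith)⟩
    · rw [comp, dP_eq] at t2
      refine (t2.trans_le (Metric.infEDist_le_edist_of_mem hc.1)).not_ge ?_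
      rw [edist_dist]
      exact ENNReal.ofReal_le_ofReal (Metric.mem_closedBall'.1 hc.2.2)
  · have o : IsOpen {F : Closeds Cl | ((F : Set Cl) ∩ Metric.eball a r).Nonempty} :=
      isOpen_generateFrom_of_mem (Or.inl ⟨_, Metric.isOpen_eball, rfl⟩)
    rw [comp, dP_eq, gt_iff_lt, Metric.infEDist_lt_iff] at hr
    obtain ⟨b, b1, b2⟩ := hr
    filter_upwards [(o.preimage hv).mem_nhds ⟨b, b1, by rwa [Metric.mem_eball, edist_comm]⟩]
      with Q ⟨c, c1, c2⟩
    rw [comp, dP_eq, Metric.infEDist_lt_iff]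
    exact ⟨c, c1, by rwa [Metric.mem_eball, edist_comm] at c2⟩

lemma wijs_le_weak : induced Pyr.val wijs ≤ weakTop := by
  haveI : Nonempty Cl := ⟨mk { X := ℝ, μ := .dirac 0 }⟩
  let a := denseSeq Cl
  let g : Pyr → ℕ → ℝ≥0∞ := fun P i => dP (a i) P.1
  have h1 : induced Pyr.val wijs ≤ induced g inferInstance := by
    rw [← continuous_iff_le_induced]
    letI := wijs
    letI : TopologicalSpace Pyr := induced Pyr.val wijs
    have c1 : ∀ b, Continuous (dP b) := fun b => continuous_iff_le_induced.2 (iInf_le _ b)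
    exact continuous_pi fun i => (c1 (a i)).comp continuous_induced_dom
  refine h1.trans fun U hU => ?_
  letI : TopologicalSpace Pyr := induced g inferInstance
  haveI : SecondCountableTopology Pyr := secondCountableTopology_induced _ _ g
  refine isClosed_compl_iff.1 (IsSeqClosed.isClosed fun P Q hP hQ hU' => ?_)
  have t : ∀ i, Tendsto (fun n => Metric.infEDist (a i) (P n).1) atTop
      (𝓝 (Metric.infEDist (a i) Q.1)) := fun i => by
    simp only [← dP_eq]
    exact ((continuous_apply i).tendsto _).comp ((continuous_induced_dom.tendsto Q).comp hQ)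
  refine (hU P Q ⟨fun b hb => ?_, fun b hb => ?_⟩ hU').exists.elim fun n hn => hP n hn
  · refine ENNReal.tendsto_nhds_zero.2 fun ε hε => ?_
    obtain ⟨_, ⟨i, rfl⟩, hi⟩ := EMetric.mem_closure_iff.1 (denseRange_denseSeq Cl b) _
      (ENNReal.half_pos hε.ne')
    filter_upwards [(t i).eventually (gt_mem_nhds ((Metric.infEDist_le_edist_of_mem hb).trans_lt
      (edist_comm b _ ▸ hi)))] with n hn
    rw [dP_eq, ← ENNReal.add_halves ε]
    exact Metric.infEDist_le_infEDist_add_edist.trans (add_le_add hn.le hi.le)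
  · obtain ⟨δ, d0, d1⟩ := Metric.exists_real_pos_lt_infEDist_of_notMem_closure
      (E := Q.1) (x := b) (by rwa [Q.1.isClosed.closure_eq])
    obtain ⟨i, hi⟩ := (denseRange_denseSeq Cl).exists_dist_lt b (show 0 < δ / 3 by positivity)
    have e : ∀ r : ℝ, 0 ≤ r → ∀ u v : Cl, dist u v < δ / 3 → ∀ S : Set Cl,
        ENNReal.ofReal (r + δ / 3) < Metric.infEDist u S → ENNReal.ofReal r < Metric.infEDist v S := by
      intro r r0 u v huv S h
      by_contra h2
      refine h.not_ge ((Metric.infEDist_le_infEDist_add_edist (y := v)).trans ?_)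
      rw [ENNReal.ofReal_add r0 (by positivity)]
      exact add_le_add (not_lt.1 h2) (edist_lt_ofReal.2 huv).le
    refine (ENNReal.ofReal_pos.2 (show 0 < δ / 3 by positivity)).trans_le (le_liminf_of_le
      (by isBoundedDefault) ?_)
    filter_upwards [(t i).eventually (lt_mem_nhds (e (δ / 3 + δ / 3) (by positivity) b _ hi _
      (by rwa [show δ / 3 + δ / 3 + δ / 3 = δ by ring])))] with n hn
    rw [dP_eq]
    exact (e _ (by positivity) _ b (dist_comm b _ ▸ hi) _ hn).le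

lemma val_inj : Injective Pyr.val := fun ⟨_, _⟩ ⟨_, _⟩ h => by cases h; rfl

theorem emb_fell : @IsEmbedding Pyr (Closeds Cl) weakTop (fell Cl) Pyr.val :=
  @IsEmbedding.mk _ _ weakTop (fell Cl) _ (@IsInducing.mk _ _ weakTop (fell Cl) _
    (weak_le_fell.antisymm (fell_le_wijs.trans wijs_le_weak))) val_inj

theorem emb_wijs : @IsEmbedding Pyr (Closeds Cl) weakTop wijs Pyr.val :=
  @IsEmbedding.mk _ _ weakTop wijs _ (@IsInducing.mk _ _ weakTop wijs _
    ((weak_le_fell.trans fell_le_wijs).antisymm wijs_le_weak)) val_inj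

end Pool.Agent.H95.Mms
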