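import Pool.Agent.H95.MMDefs

/-! The punctured space of mm-spaces and its scaling quotient. -/

set_option autoImplicit false

namespace Pool.Agent.H95.Mms

open MeasureTheory Set Filter Topology TopologicalSpace

/-- The class of the one-point space. -/
noncomputable def star : Cl := Quot.mk Iso { X := Unit, μ := Measure.dirac () }

/-- The punctured space. -/
def Punct : Type 1 := {a : Cl // a ≠ star}

/-- Subspace topology on the punctured space for a distance `d`. -/
@[reducible] def punctTop (d : Cl → Cl → ℝ) : TopologicalSpace Punct :=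
  induced (fun a : Punct => a.1) (ballTop d)

/-- `Y` is mm-isomorphic to `tX`. -/
def Sc (t : ℝ) (X Y : MM) : Prop :=
  ∃ f : X.μ.support → Y.μ.support, (∀ x y, dist (f x) (f y) = t * dist x y) ∧
    (X.μ.comap Subtype.val).map (fun x => (f x : Y.X)) = Y.μ

/-- Orbit relation of the scaling action. -/
def Orb (a b : Punct) : Prop :=
  ∃ t > 0, ∃ X Y : MM, Quot.mk Iso X = a.1 ∧ Quot.mk Iso Y = b.1 ∧ Sc t X Y

/-- The scaling quotient. -/
def Sig : Type 1 := Quot Orb

/-- Quotient topology on the scaling quotient. -/
@[reducible] def sigTop (d : Cl → Cl → ℝ) : TopologicalSpace Sig :=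
  coinduced (Quot.mk Orb) (punctTop d)

end Pool.Agent.H95.Mms
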