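import Pool.Agent.H95.MM2
import Pool.Agent.H95.SigDefs

/-! Scaling and products of mm-spaces; estimates for both distances. -/

set_option autoImplicit false

namespace Pool.Agent.H95.Mms

open MeasureTheory ProbabilityTheory Set Filter Topology TopologicalSpace Function WithLp

def Near (u v : I → ℝ) (r : ℝ) : Prop := volume.real {s | r < |u s - v s|} ≤ r

def CN (X Y : MM) (r : ℝ) : Prop :=
  0 ≤ r ∧ ∃ φ ψ, Par X φ ∧ Par Y ψ ∧ (∀ f : Lip X, ∃ g : Lip Y, Near (f.1 ∘ φ) (g.1 ∘ ψ) r) ∧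
    ∀ g : Lip Y, ∃ f : Lip X, Near (g.1 ∘ ψ) (f.1 ∘ φ) r

lemma Near.symm {u v : I → ℝ} {r : ℝ} (h : Near u v r) : Near v u r := by
  simpa only [Near, abs_sub_comm] using h

lemma Near.of {u v : I → ℝ} {r : ℝ} {S : Set I} (h : volume.real S ≤ r)
    (k : ∀ᵐ s, s ∉ S → |u s - v s| ≤ r) : Near u v r := by
  refine le_trans (ENNReal.toReal_mono (measure_ne_top _ _) (measure_mono_ae ?_)) h
  filter_upwards [k] with s hs h1
  by_contra h2
  exact (hs h2).not_gt h1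

lemma pre_le {f : I → I} (hf : MeasurePreserving f) (S : Set I) :
    volume.real (f ⁻¹' S) ≤ volume.real S :=
  ENNReal.toReal_mono (measure_ne_top _ _) ((Measure.le_map_apply hf.aemeasurable S).trans_eq
    (by rw [hf.2]))

lemma CN.symm {X Y : MM} {r : ℝ} (h : CN X Y r) : CN Y X r :=
  let ⟨h0, φ, ψ, h1, h2, h3, h4⟩ := h
  ⟨h0, ψ, φ, h2, h1, h4, h3⟩

lemma CN.le {X Y : MM} {r : ℝ} (h : CN X Y r) : conc0 X Y ≤ r := by
  obtain ⟨h0, φ, ψ, h1, h2, h3, h4⟩ := h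
  have k : ∀ u v, Near u v r → kf u v ≤ r := fun u v h => csInf_le ⟨0, fun _ h => h.1⟩ ⟨h0, h⟩
  have p : ∀ (φ : {φ // Par X φ}) (ψ : {ψ // Par Y ψ}), 0 ≤ max
      (⨆ f : Lip X, ⨅ g : Lip Y, kf (f.1 ∘ φ.1) (g.1 ∘ ψ.1))
      (⨆ g : Lip Y, ⨅ f : Lip X, kf (f.1 ∘ φ.1) (g.1 ∘ ψ.1)) := fun φ ψ =>
    le_max_of_le_left (Real.iSup_nonneg fun _ => Real.iInf_nonneg fun _ => kf_nonneg _ _)
  refine ciInf_le_of_le ⟨0, ?_⟩ ⟨φ, h1⟩ (ciInf_le_of_le ⟨0, ?_⟩ ⟨ψ, h2⟩
    (max_le (ciSup_le fun f => ?_) (ciSup_le fun g => ?_)))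
  · rintro _ ⟨φ, rfl⟩
    exact Real.iInf_nonneg (p φ)
  · rintro _ ⟨ψ, rfl⟩
    exact p ⟨φ, h1⟩ ψ
  · obtain ⟨g, hg⟩ := h3 f
    exact ciInf_le_of_le ⟨0, by rintro _ ⟨g, rfl⟩; exact kf_nonneg _ _⟩ g (k _ _ hg)
  · obtain ⟨f, hf⟩ := h4 g
    exact ciInf_le_of_le ⟨0, by rintro _ ⟨g, rfl⟩; exact kf_nonneg _ _⟩ f (k _ _ hf.symm)

lemma cn_of_lt {X Y : MM} {r : ℝ} (h : conc0 X Y < r) : CN X Y r := by
  obtain ⟨φ, ψ, h1, h2, h3, h4⟩ := of_conc_lt h
  obtain ⟨g, hg⟩ := h3 (Classical.arbitrary _)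
  exact ⟨((kf_nonneg _ _).trans_lt hg).le, φ, ψ, h1, h2, fun f => (h3 f).imp fun _ h => of_kf_lt h,
    fun g => (h4 g).imp fun _ h => Near.symm (of_kf_lt h)⟩

lemma CN.trans {X Y Z : MM} {ε δ : ℝ} (h : CN X Y ε) (k : CN Y Z δ) : CN X Z (ε + δ) := by
  obtain ⟨h0, φ, ψ, h1, h2, h3, h4⟩ := h
  obtain ⟨k0, ψ', χ, k1, k2, k3, k4⟩ := k
  obtain ⟨f, g, hf, hg, e⟩ := reparam h2 k1
  have key : ∀ (u : Lip X) (v : Lip Y) (w : Lip Z), Near (u.1 ∘ φ) (v.1 ∘ ψ) ε →
      Near (v.1 ∘ ψ') (w.1 ∘ χ) δ → Near (u.1 ∘ φ ∘ f) (w.1 ∘ χ ∘ g) (ε + δ) := by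
    intro u v w a1 a2
    refine Near.of ((measureReal_union_le _ _).trans (add_le_add ((pre_le hf _).trans a1)
      ((pre_le hg _).trans a2))) ?_
    filter_upwards [e] with s hs h
    simp only [mem_union, mem_preimage, mem_setOf_eq, not_or, not_lt, comp, abs_le, hs] at h ⊢
    constructor <;> linarith [h.1.1, h.1.2, h.2.1, h.2.2]
  refine ⟨by linarith, _, _, h1.comp hf, k2.comp hg, fun u => ?_, fun w => ?_⟩
  · obtain ⟨v, hv⟩ := h3 u
    obtain ⟨w, hw⟩ := k3 v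
    exact ⟨w, key u v w hv hw⟩
  · obtain ⟨v, hv⟩ := k4 w
    obtain ⟨u, hu⟩ := h4 v
    exact ⟨u, (key u v w hu.symm hv.symm).symm⟩

lemma lip_of {α : Type*} [PseudoMetricSpace α] {f : α → ℝ} (h : ∀ x y, f x ≤ f y + dist x y) :
    LipschitzWith 1 f := LipschitzWith.of_le_add h

lemma Lip.le {X : MM} (f : Lip X) (x y : X.X) : f.1 x ≤ f.1 y + dist x y := by
  simpa using f.2.le_add_mul x y

lemma BL.cn {X Y : MM} {ε : ℝ} (h : BL X Y ε) : CN X Y ε := by
  have key : ∀ {X Y : MM} (φ : I → X.X) (ψ : I → Y.X) (J : Set I), MeasurableSet J →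
      1 - ε ≤ volume.real J → (∀ s ∈ J, ∀ t ∈ J, |dist (φ s) (φ t) - dist (ψ s) (ψ t)| ≤ ε) →
      ∀ f : Lip X, ∃ g : Lip Y, Near (f.1 ∘ φ) (g.1 ∘ ψ) ε := by
    intro X Y φ ψ J h3 h4 h5 f
    have hJ : volume.real Jᶜ ≤ ε := by
      rw [probReal_compl_eq_one_sub h3]; linarith
    rcases J.eq_empty_or_nonempty with rfl | ⟨s0, hs0⟩
    · exact ⟨Classical.arbitrary _, Near.of hJ (.of_forall fun s hs => by simp at hs)⟩
    haveI : Nonempty J := ⟨⟨s0, hs0⟩⟩
    have lo : ∀ t ∈ J, ∀ y (s : J), f.1 (φ t) - ε - dist (ψ t) y ≤ f.1 (φ s) + dist (ψ s) y :=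
      fun t ht y s => by
        linarith [f.le (φ t) (φ s), (abs_le.1 (h5 t ht s s.2)).2, dist_triangle_right (ψ t) (ψ s) y]
    have bd : ∀ y, BddBelow (range fun s : J => f.1 (φ s) + dist (ψ s) y) := fun y =>
      ⟨_, by rintro _ ⟨s, rfl⟩; exact lo s0 hs0 y s⟩
    refine ⟨⟨fun y => ⨅ s : J, f.1 (φ s) + dist (ψ s) y, lip_of fun y z => ?_⟩,
      Near.of hJ (.of_forall fun t ht => ?_)⟩
    · rw [← sub_le_iff_le_add]
      refine le_ciInf fun s => ?_
      linarith [ciInf_le (bd y) s, dist_triangle_right (ψ s) y z, dist_comm y z,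
        dist_triangle (ψ s) z y]
    · have ht : t ∈ J := not_not.1 ht
      have a1 := ciInf_le (bd (ψ t)) ⟨t, ht⟩
      have a2 := le_ciInf (lo t ht (ψ t))
      simp only [dist_self, comp] at a1 a2 ⊢
      exact abs_le.2 ⟨by linarith [h.1], by linarith⟩
  obtain ⟨h0, φ, ψ, h1, h2, J, h3, h4, h5⟩ := h
  exact ⟨h0, φ, ψ, h1, h2, key φ ψ J h3 h4 h5,
    key ψ φ J h3 h4 fun s hs t ht => (abs_sub_comm _ _).trans_le (h5 s hs t ht)⟩

lemma CN.sep {X Y : MM} {r κ R : ℝ} (h : CN X Y r) (hs : Sep Y κ R) :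
    Sep X (κ - r) (R - 2 * r) := by
  obtain ⟨-, φ, ψ, h1, h2, -, h3⟩ := h
  obtain ⟨g, c, g1, g2, g3⟩ := hs
  obtain ⟨f, hf⟩ := h3 ⟨g, g1⟩
  have a1 := hf.symm
  have mf := f.2.continuous.measurable
  have mg := g1.continuous.measurable
  refine ⟨f.1, c + r, f.2, ?_, ?_⟩
  · rw [← h1.real (measurableSet_le mf measurable_const)]
    rw [← h2.real (measurableSet_le mg measurable_const)] at g2
    refine sub_lt_iff_lt_add.2 (g2.trans_le ((measureReal_mono fun s hs => ?_).trans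
      ((measureReal_union_le _ _).trans (add_le_add le_rfl a1))))
    by_contra h4
    simp only [mem_union, mem_preimage, mem_setOf_eq, not_or, not_le, not_lt, Function.comp,
      abs_le] at h4 hs
    linarith [h4.2.2]
  · rw [← h1.real (measurableSet_le measurable_const mf)]
    rw [← h2.real (measurableSet_le measurable_const mg)] at g3
    refine sub_lt_iff_lt_add.2 (g3.trans_le ((measureReal_mono fun s hs => ?_).trans
      ((measureReal_union_le _ _).trans (add_le_add le_rfl a1))))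
    by_contra h4
    simp only [mem_union, mem_preimage, mem_setOf_eq, not_or, not_le, not_lt, Function.comp,
      abs_le] at h4 hs
    linarith [h4.2.1]

lemma BL.mono {X Y : MM} {ε δ : ℝ} (h : BL X Y ε) (k : ε ≤ δ) : BL X Y δ :=
  let ⟨h0, φ, ψ, h1, h2, J, h3, h4, h5⟩ := h
  ⟨h0.trans k, φ, ψ, h1, h2, J, h3, by linarith, fun s hs t ht => (h5 s hs t ht).trans k⟩

/-- A similarity defined on the whole space. -/
def WM (c : ℝ) (X Y : MM) : Prop :=
  ∃ e : X.X → Y.X, Continuous e ∧ (∀ x y, dist (e x) (e y) = c * dist x y) ∧ X.μ.map e = Y.μ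

lemma cont_of {α β : Type*} [PseudoMetricSpace α] [PseudoMetricSpace β] {e : α → β} {c : ℝ}
    (h : ∀ x y, dist (e x) (e y) = c * dist x y) : Continuous e :=
  (LipschitzWith.of_dist_le' (K := c) fun x y => (h x y).le).continuous

lemma WM.trans {c k : ℝ} {X Y Z : MM} (h : WM c X Y) (h' : WM k Y Z) : WM (k * c) X Z := by
  obtain ⟨e, e0, e1, e2⟩ := h
  obtain ⟨f, f0, f1, f2⟩ := h'
  exact ⟨f ∘ e, f0.comp e0, fun x y => by simp only [comp, f1, e1, mul_assoc],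
    by rw [← Measure.map_map f0.measurable e0.measurable, e2, f2]⟩

lemma supp_map (X : MM) :
    (X.μ.comap (Subtype.val : X.μ.support → X.X)).map Subtype.val = X.μ := by
  rw [map_comap_subtype_coe Measure.isClosed_support.measurableSet]
  exact Measure.restrict_eq_self_of_ae_mem Measure.support_mem_ae

lemma WM.sc' {c : ℝ} {X Y : MM} (h : WM c X Y) : Sc c X Y := by
  obtain ⟨e, e0, e1, e2⟩ := h
  refine ⟨fun x => ⟨e x, (Measure.mem_support_iff_forall _).2 fun U hU => ?_⟩,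
    fun x y => e1 x y, ?_⟩
  · rw [← e2]
    exact ((Measure.mem_support_iff_forall _).1 x.2 _ (e0.continuousAt hU)).trans_le
      (Measure.le_map_apply e0.aemeasurable U)
  · exact (Measure.map_map e0.measurable measurable_subtype_coe).symm.trans
      (by rw [supp_map X, e2])

lemma WM.mk_eq {X Y : MM} (h : WM 1 X Y) : mk X = mk Y :=
  let ⟨f, f1, f2⟩ := h.sc'
  Quot.sound ⟨f, Isometry.of_dist_eq fun x y => by rw [f1, one_mul], f2⟩

lemma bl_of_eq {X Y : MM} (h : mk X = mk Y) : BL X Y 0 := by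
  have := (bl_out X).symm.trans (h ▸ bl_out Y)
  rwa [add_zero] at this

noncomputable def nm (X : MM) : MM :=
  { X := X.μ.support, μ := X.μ.comap Subtype.val
    cpl := Measure.isClosed_support.completeSpace_coe
    prob :=
      haveI : IsProbabilityMeasure
        ((X.μ.comap (Subtype.val : X.μ.support → X.X)).map Subtype.val) :=
        (supp_map X).symm ▸ inferInstance
      Measure.isProbabilityMeasure_of_map Subtype.val }

lemma nm_wm (X : MM) : WM 1 (nm X) X :=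
  ⟨Subtype.val, continuous_subtype_val, fun _ _ => (one_mul _).symm, supp_map X⟩

lemma Sc.wm {c : ℝ} {X Y : MM} (h : Sc c X Y) : WM c (nm X) (nm Y) := by
  obtain ⟨f, f1, f2⟩ := h
  refine ⟨f, cont_of f1, f1, ?_⟩
  have m := MeasurableEmbedding.subtype_coe (Measure.isClosed_support (μ := Y.μ)).measurableSet
  refine m.map_injective ?_
  refine (Measure.map_map m.measurable (cont_of f1).measurable).trans (f2.trans (supp_map Y).symm)

@[reducible] noncomputable def scMet0 (α : Type) [MetricSpace α] (a : ℝ) (h : 0 < a) :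
    MetricSpace α where
  dist x y := a * dist x y
  dist_self x := by simp
  dist_comm x y := by rw [dist_comm]
  dist_triangle x y z := by nlinarith [dist_triangle x y z]
  eq_of_dist_eq_zero e := by simpa [h.ne'] using e

@[reducible] noncomputable def scMet (α : Type) [m : MetricSpace α] (a : ℝ) (h : 0 < a) :
    MetricSpace α :=
  (scMet0 α a h).replaceUniformity <| Metric.uniformity_basis_dist.ext
    (@Metric.uniformity_basis_dist α (scMet0 α a h).toPseudoMetricSpace)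
    (fun ε e => ⟨a * ε, mul_pos h e, fun _ hp => lt_of_mul_lt_mul_left hp h.le⟩)
    fun ε e => ⟨ε / a, div_pos e h, fun _ hp => (lt_div_iff₀' h).1 hp⟩

noncomputable abbrev pt : MM := { X := Unit, μ := Measure.dirac () }

noncomputable def scp (a : ℝ) (h : 0 < a) (X : MM) : MM :=
  @MM.mk X.X (scMet X.X a h) X.cpl X.sep X.mea X.bor X.μ X.prob

noncomputable def sc (a : ℝ) (X : MM) : MM := if h : 0 < a then scp a h X else pt

lemma sc_wm (a : ℝ) (X : MM) : WM (max a 0) X (sc a X) := by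
  unfold sc
  split_ifs with h
  · exact ⟨id, continuous_id, fun x y => by rw [max_eq_left h.le]; rfl, Measure.map_id⟩
  · exact ⟨fun _ => (), continuous_const, fun x y => by simp [max_eq_right (not_lt.1 h)],
      by simp [pt]⟩

lemma WM.sc {c k a a' : ℝ} {X Y : MM} (h : WM c X Y) (hc : 0 < c) (hk : 0 < k)
    (e : a' * c = k * a) : WM k (sc a X) (sc a' Y) := by
  unfold Mms.sc
  by_cases ha : 0 < a
  · have ha' : 0 < a' := pos_of_mul_pos_left (e ▸ mul_pos hk ha) hc.le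
    rw [dif_pos ha, dif_pos ha']
    obtain ⟨f, f0, f1, f2⟩ := h
    refine ⟨f, f0, fun x y => ?_, f2⟩
    show a' * dist (f x) (f y) = k * (a * @dist X.X _ x y)
    rw [f1, ← mul_assoc, e, mul_assoc]
  · rw [dif_neg ha, dif_neg fun h => ha (pos_of_mul_pos_right (e ▸ mul_pos h hc) hk.le)]
    exact ⟨id, continuous_id, fun x y => by simp [Subsingleton.elim (α := Unit) x y],
      Measure.map_id⟩

lemma WM.par {c : ℝ} {X Y : MM} (h : WM c X Y) : ∃ e : X.X → Y.X,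
    (∀ x y, dist (e x) (e y) = c * dist x y) ∧ ∀ φ, Par X φ → Par Y (e ∘ φ) :=
  let ⟨e, e0, e1, e2⟩ := h
  ⟨e, e1, fun φ h => ⟨e0.measurable.comp h.1, by
    rw [← Measure.map_map e0.measurable h.1, h.2, e2]⟩⟩

lemma BL.sc {X Y : MM} {ε : ℝ} (h : BL X Y ε) (a : ℝ) :
    BL (sc a X) (sc a Y) ((1 + |a|) * ε) := by
  obtain ⟨h0, φ, ψ, h1, h2, J, h3, h4, h5⟩ := h
  obtain ⟨e, e1, e2⟩ := (sc_wm a X).par
  obtain ⟨f, f1, f2⟩ := (sc_wm a Y).par
  have := mul_nonneg (abs_nonneg a) h0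
  refine ⟨by linarith, _, _, e2 _ h1, f2 _ h2, J, h3, by linarith, fun s hs t ht => ?_⟩
  simp only [comp, e1, f1]
  rw [← mul_sub, abs_mul, abs_of_nonneg (le_max_right _ _)]
  exact mul_le_mul (max_le (by linarith [le_abs_self a]) (by positivity)) (h5 s hs t ht)
    (abs_nonneg _) (by positivity)

lemma CN.sc {X Y : MM} {ε : ℝ} (h : CN X Y ε) (a : ℝ) :
    CN (sc a X) (sc a Y) ((1 + |a|) * ε) := by
  have h0 := h.1
  have := mul_nonneg (abs_nonneg a) h0
  unfold Mms.sc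
  split_ifs with ha
  swap
  · exact ((bl_self _).mono (by linarith)).cn
  have key : ∀ {X Y : MM} (φ : I → X.X) (ψ : I → Y.X),
      (∀ f : Lip X, ∃ g : Lip Y, Near (f.1 ∘ φ) (g.1 ∘ ψ) ε) → ∀ f : Lip (scp a ha X),
      ∃ g : Lip (scp a ha Y), Near (f.1 ∘ φ) (g.1 ∘ ψ) ((1 + |a|) * ε) := by
    intro X Y φ ψ h f
    obtain ⟨g, hg⟩ := h ⟨fun x => f.1 x / a, lip_of fun x y => by
      have : f.1 x ≤ f.1 y + a * @dist X.X _ x y := f.le x y
      rw [div_add' _ _ _ ha.ne', div_le_div_iff_of_pos_right ha]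
      linarith⟩
    refine ⟨⟨fun y => a * g.1 y, lip_of fun x y => ?_⟩, Near.of (hg.trans (by linarith))
      (.of_forall fun s hs => ?_)⟩
    · show _ ≤ _ + a * @dist Y.X _ x y
      nlinarith [g.le x y]
    · simp only [mem_setOf_eq, not_lt, comp] at hs ⊢
      rw [show f.1 (φ s) - a * g.1 (ψ s) = a * (f.1 (φ s) / a - g.1 (ψ s)) by field_simp, abs_mul]
      exact mul_le_mul (by linarith) hs (abs_nonneg _) (by positivity)
  obtain ⟨-, φ, ψ, h1, h2, h3, h4⟩ := h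
  exact ⟨by linarith, φ, ψ, h1, h2, key φ ψ h3, key ψ φ h4⟩

lemma bl_sc (X : MM) {η : ℝ} (hη : 0 < η) :
    ∃ δ > 0, ∀ a a', |a - a'| < δ → BL (sc a X) (sc a' X) η := by
  obtain ⟨x⟩ : Nonempty X.X := nonempty_of_isProbabilityMeasure X.μ
  obtain ⟨n, hn⟩ := ball_big X x hη
  obtain ⟨φ, h⟩ := par_ex X
  refine ⟨η / (2 * n + 1), by positivity, fun a a' ha => ?_⟩
  obtain ⟨e, e1, e2⟩ := (sc_wm a X).par
  obtain ⟨f, f1, f2⟩ := (sc_wm a' X).par
  refine ⟨hη.le, _, _, e2 _ h, f2 _ h, φ ⁻¹' Metric.ball x n, h.1 measurableSet_ball,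
    by rw [h.real measurableSet_ball]; exact hn.le, fun s hs t ht => ?_⟩
  simp only [comp, e1, f1]
  rw [← sub_mul, abs_mul, abs_dist]
  rw [lt_div_iff₀ (by positivity)] at ha
  refine (mul_le_mul (abs_max_sub_max_le_abs _ _ _) (?_ : _ ≤ 2 * (n : ℝ) + 1) dist_nonneg
    (abs_nonneg _)).trans ha.le
  linarith [dist_triangle_right (φ s) (φ t) x, Metric.mem_ball.1 hs, Metric.mem_ball.1 ht]

noncomputable def half : unitInterval := ⟨1 / 2, by norm_num, by norm_num⟩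

lemma d1 {α : Type} [MetricSpace α] (x y : WithLp 1 (α × ℝ)) :
    dist x y = dist x.fst y.fst + |x.snd - y.snd| := by
  rw [prod_dist_eq_add (by simp)]
  simp [Real.dist_eq]

lemma d2 {α : Type} [MetricSpace α] (x y : α) (s t : ℝ) :
    dist (toLp 1 (x, s)) (toLp 1 (y, t)) = dist x y + |s - t| := d1 _ _

noncomputable abbrev pr (b : ℝ) (X : MM) : MM :=
  { X := WithLp 1 (X.X × ℝ)
    μ := (X.μ.prod (bernoulliMeasure (1 : ℝ) 0 half)).map fun p => toLp 1 (p.1, b * p.2)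
    prob := Measure.isProbabilityMeasure_map (by fun_prop) }

lemma WM.pr {k : ℝ} {X Y : MM} (h : WM k X Y) (hk : 0 ≤ k) (b : ℝ) :
    WM k (pr b X) (pr (k * b) Y) := by
  obtain ⟨e, e0, e1, e2⟩ := h
  have hd : ∀ x y : WithLp 1 (X.X × ℝ), dist (toLp 1 (e x.fst, k * x.snd))
      (toLp 1 (e y.fst, k * y.snd)) = k * dist x y := fun x y => by
    rw [d2, d1, e1, ← mul_sub, abs_mul, abs_of_nonneg hk, mul_add]
  refine ⟨fun x => toLp 1 (e x.fst, k * x.snd), cont_of hd, hd, ?_⟩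
  show Measure.map _ (Measure.map _ _) = Measure.map _ _
  rw [Measure.map_map (cont_of hd).measurable (by fun_prop), ← e2]
  conv_rhs => rw [← Measure.map_id (μ := bernoulliMeasure (1 : ℝ) 0 half),
    Measure.map_prod_map _ _ e0.measurable measurable_id,
    Measure.map_map (by fun_prop) (e0.measurable.prodMap measurable_id)]
  congr 1
  ext p
  simp [mul_assoc]

lemma pr_zero (X : MM) : WM 1 X (pr 0 X) := by
  have hd : ∀ x y : X.X, dist (toLp 1 (x, (0 : ℝ))) (toLp 1 (y, (0 : ℝ))) = 1 * dist x y :=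
    fun x y => by simp [d2]
  refine ⟨fun x => toLp 1 (x, 0), cont_of hd, hd, ?_⟩
  show _ = Measure.map _ _
  conv_lhs => rw [← Measure.fst_prod (μ := X.μ) (ν := bernoulliMeasure (1 : ℝ) 0 half),
    Measure.fst, Measure.map_map (cont_of hd).measurable measurable_fst]
  congr 1
  ext p
  simp

lemma coin : ∃ (f : I → I) (c : I → ℝ), MeasurePreserving f ∧ Measurable c ∧
    (∀ᵐ s, c s = 0 ∨ c s = 1) ∧
    ∀ X φ b, Par X φ → Par (pr b X) fun s => toLp 1 (φ (f s), b * c s) := by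
  obtain ⟨F, F1, F2⟩ := ((volume : Measure I).prod
    (bernoulliMeasure (1 : ℝ) 0 half)).exists_measurable_map_eq
  refine ⟨fun s => (F s).1, fun s => (F s).2, ⟨F1.fst, ?_⟩, F1.snd, ?_, fun X φ b h => ⟨?_, ?_⟩⟩
  · rw [← Measure.fst_map_prodMk F1.snd]
    exact F2 ▸ Measure.fst_prod
  · refine ae_of_ae_map (p := fun x : ℝ => x = 0 ∨ x = 1) F1.snd.aemeasurable ?_
    rw [← Measure.snd_map_prodMk F1.fst]
    show ∀ᵐ x ∂(volume.map F).snd, _
    rw [F2, Measure.snd_prod]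
    have m : MeasurableSet {x : ℝ | x = 0 ∨ x = 1} := by measurability
    exact (prob_compl_eq_zero_iff m).2
      (bernoulliMeasure_apply_of_mem_of_mem half m (Or.inr rfl) (Or.inl rfl))
  · exact (measurable_toLp _ _).comp ((h.1.comp F1.fst).prodMk (F1.snd.const_mul b))
  · show _ = Measure.map _ _
    rw [← h.2, ← Measure.map_id (μ := bernoulliMeasure (1 : ℝ) 0 half),
      Measure.map_prod_map _ _ h.1 measurable_id, ← F2,
      Measure.map_map (h.1.prodMap measurable_id) F1,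
      Measure.map_map (by fun_prop) ((h.1.prodMap measurable_id).comp F1)]
    rfl

lemma BL.pr {X Y : MM} {ε : ℝ} (h : BL X Y ε) (b b' : ℝ) :
    BL (pr b X) (pr b' Y) (ε + |b - b'|) := by
  obtain ⟨h0, φ, ψ, h1, h2, J, h3, h4, h5⟩ := h
  obtain ⟨f, c, hf, hc, e, k⟩ := coin
  have m : MeasurableSet {s | c s = 0 ∨ c s = 1} := by measurability
  refine ⟨by positivity, _, _, k _ _ b h1, k _ _ b' h2, f ⁻¹' J ∩ {s | c s = 0 ∨ c s = 1},
    (hf.1 h3).inter m, ?_, fun s hs t ht => ?_⟩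
  · have a1 := real_inter volume (f ⁻¹' J) m
    rw [hf.measureReal_preimage h3.nullMeasurableSet] at a1
    have a3 : volume.real {s | c s = 0 ∨ c s = 1} = 1 := by
      rw [Measure.real, (prob_compl_eq_zero_iff m).1 e]; rfl
    linarith [abs_nonneg (b - b')]
  · have a1 := abs_le.1 (h5 _ hs.1 _ ht.1)
    have a2 := abs_le.1 (abs_abs_sub_abs_le_abs_sub b b')
    rw [d2, d2]
    have := abs_nonneg (b - b')
    rcases hs.2 with a | a <;> rcases ht.2 with a' | a' <;>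
      simp only [a, a', mul_zero, mul_one, sub_self, abs_zero, sub_zero, zero_sub, abs_neg] <;>
      exact abs_le.2 ⟨by linarith, by linarith⟩

lemma CN.pr {X Y : MM} {ε : ℝ} (h : CN X Y ε) (b : ℝ) : CN (pr b X) (pr b Y) (2 * ε) := by
  obtain ⟨f, c, hf, hc, e, k⟩ := coin
  have h0 := h.1
  have key : ∀ {X Y : MM} (φ : I → X.X) (ψ : I → Y.X),
      (∀ f : Lip X, ∃ g : Lip Y, Near (f.1 ∘ φ) (g.1 ∘ ψ) ε) → ∀ u : Lip (Mms.pr b X),
      ∃ g : Lip (Mms.pr b Y), Near (u.1 ∘ fun s => toLp 1 (φ (f s), b * c s))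
        (g.1 ∘ fun s => toLp 1 (ψ (f s), b * c s)) (2 * ε) := by
    intro X Y φ ψ h u
    have hu : ∀ x y s t, u.1 (toLp 1 (x, s)) ≤ u.1 (toLp 1 (y, t)) + (dist x y + |s - t|) :=
      fun x y s t => (u.le _ _).trans_eq (by rw [d2])
    obtain ⟨g0, h1⟩ := h ⟨fun x => u.1 (toLp 1 (x, 0)), lip_of fun x y => by simpa using hu x y 0 0⟩
    obtain ⟨g1, h2⟩ := h ⟨fun x => u.1 (toLp 1 (x, b)), lip_of fun x y => by simpa using hu x y b b⟩
    refine ⟨⟨fun y : WithLp 1 (Y.X × ℝ) => min (g0.1 y.fst + |y.snd|) (g1.1 y.fst + |y.snd - b|),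
      lip_of fun x y => ?_⟩, Near.of ((measureReal_union_le _ _).trans ((add_le_add
        ((pre_le hf _).trans h1) ((pre_le hf _).trans h2)).trans_eq (two_mul ε).symm)) ?_⟩
    · rw [d1, ← min_add_add_right]
      refine min_le_min ?_ ?_
      · linarith [g0.le x.fst y.fst, abs_sub_abs_le_abs_sub x.snd y.snd]
      · have := abs_sub_abs_le_abs_sub (x.snd - b) (y.snd - b)
        rw [sub_sub_sub_cancel_right] at this
        linarith [g1.le x.fst y.fst]
    · filter_upwards [e] with s hs h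
      have a1 := hu (φ (f s)) (φ (f s)) 0 b
      have a2 := hu (φ (f s)) (φ (f s)) b 0
      simp only [mem_union, mem_preimage, mem_setOf_eq, not_or, not_lt, comp, abs_le] at h
      obtain ⟨⟨b1, b2⟩, b3, b4⟩ := h
      rcases hs with a | a <;>
        simp only [comp, a, mul_zero, mul_one, toLp_fst, toLp_snd, dist_self, zero_sub, abs_neg,
          sub_zero, zero_add, abs_zero, add_zero, sub_self] at a1 a2 ⊢ <;>
        refine abs_le.2 ⟨?_, ?_⟩
      · linarith [min_le_left (g0.1 (ψ (f s))) (g1.1 (ψ (f s)) + |b|)]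
      · rcases min_choice (g0.1 (ψ (f s))) (g1.1 (ψ (f s)) + |b|) with h | h <;> linarith
      · linarith [min_le_right (g0.1 (ψ (f s)) + |b|) (g1.1 (ψ (f s)))]
      · rcases min_choice (g0.1 (ψ (f s)) + |b|) (g1.1 (ψ (f s))) with h | h <;> linarith
  obtain ⟨-, φ, ψ, h1, h2, h3, h4⟩ := h
  exact ⟨by linarith, _, _, k _ _ b h1, k _ _ b h2, key φ ψ h3, key ψ φ h4⟩

end Pool.Agent.H95.Mms
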