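import Pool.Agent.H95.MM4

/-! Contractibility of the punctured space and of its scaling quotient. -/

set_option autoImplicit false

namespace Pool.Agent.H95.Mms

open MeasureTheory ProbabilityTheory Set Filter Topology TopologicalSpace Function WithLp

lemma Sep.pull {X Y : MM} {k R : ℝ} (h : Sep X k R) (g : Y.X → X.X) (g1 : LipschitzWith 1 g)
    (g2 : Y.μ.map g = X.μ) : Sep Y k R := by
  obtain ⟨f, c, h1, h2, h3⟩ := h
  have m := h1.continuous.measurable
  rw [← g2, map_measureReal_apply g1.continuous.measurable] at h2 h3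
  · exact ⟨f ∘ g, c, by simpa using h1.comp g1, h2, h3⟩
  · exact measurableSet_le measurable_const m
  · exact measurableSet_le m measurable_const

lemma Sep.bl {X Y : MM} {k R : ℝ} (h : Sep Y k R) (e : BL X Y 0) : Sep X k R := by
  simpa using e.cn.sep h

lemma Sep.scp {X : MM} {k R a : ℝ} (h : Sep X k R) (ha : 0 < a) : Sep (sc a X) k (a * R) := by
  obtain ⟨f, c, h1, h2, h3⟩ := h
  rw [sc, dif_pos ha]
  refine ⟨fun x => a * f x, a * c, lip_of fun x y => ?_, h2.trans_le (measureReal_mono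
    fun x hx => ?_), h3.trans_le (measureReal_mono fun x hx => ?_)⟩
  · show _ ≤ _ + a * @dist X.X _ x y
    have := Lip.le ⟨f, h1⟩ x y
    nlinarith
  · exact mul_le_mul_of_nonneg_left hx ha.le
  · exact (mul_add a c R).ge.trans (mul_le_mul_of_nonneg_left hx ha.le)

lemma WM.sep {c k R : ℝ} {X Y : MM} (h : WM c X Y) (hc : 0 < c) (s : Sep X k R) :
    Sep Y k (c * R) := by
  have h1 := (h.sc hc one_pos (a := c) (a' := 1) rfl).mk_eq
  have h2 := sc_wm 1 Y
  rw [max_eq_left zero_le_one] at h2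
  exact (s.scp hc).bl (bl_of_eq (h2.mk_eq.trans h1.symm))

lemma WM.sep' {c k R : ℝ} {X Y : MM} (h : WM c X Y) (hc : 0 < c) (s : Sep Y k R) :
    Sep X k (c⁻¹ * R) := by
  have h1 := (h.sc hc one_pos (a := 1) (a' := c⁻¹) (by simp [hc.ne'])).mk_eq
  have h2 := sc_wm 1 X
  rw [max_eq_left zero_le_one] at h2
  exact (s.scp (inv_pos.2 hc)).bl (bl_of_eq (h2.mk_eq.trans h1))

lemma Sep.ne {X : MM} {k R : ℝ} (h : Sep X k R) (hk : 0 ≤ k) (hR : 0 < R) : mk X ≠ star := by
  intro e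
  obtain ⟨f, c, -, h2, h3⟩ := h.bl (bl_of_eq (X := pt) e.symm)
  obtain ⟨_, a1⟩ := nonempty_of_measureReal_ne_zero (hk.trans_lt h2).ne'
  obtain ⟨_, a2⟩ := nonempty_of_measureReal_ne_zero (hk.trans_lt h3).ne'
  exact absurd ((show c + R ≤ f () from a2).trans (show f () ≤ c from a1)) (by linarith)

lemma sep_of_ne {X : MM} (h : mk X ≠ star) : ∃ k > 0, ∃ R > 0, Sep X k R := by
  by_contra h1
  obtain ⟨p, hp⟩ := Measure.nonempty_support (μ := X.μ) (IsProbabilityMeasure.ne_zero _)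
  have a1 : ∀ q ∈ X.μ.support, q = p := fun q hq => by
    by_contra h2
    have d0 : 0 < dist q p / 3 := by have := dist_pos.2 h2; positivity
    have b : ∀ x ∈ X.μ.support, 0 < X.μ.real (Metric.ball x (dist q p / 3)) := fun x hx =>
      ENNReal.toReal_pos ((Measure.mem_support_iff_forall _).1 hx _
        (Metric.ball_mem_nhds _ d0)).ne' (measure_ne_top _ _)
    obtain ⟨k, k0, k1⟩ := exists_between (lt_min (b p hp) (b q hq))
    refine h1 ⟨k, k0, _, d0, fun x => dist x p, dist q p / 3, LipschitzWith.dist_left _,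
      (k1.trans_le (min_le_left _ _)).trans_le (measureReal_mono fun x hx => (Metric.mem_ball.1 hx).le),
      (k1.trans_le (min_le_right _ _)).trans_le (measureReal_mono fun x hx => ?_)⟩
    have := dist_triangle_left q p x
    rw [Metric.mem_ball] at hx
    show _ ≤ dist x p
    linarith
  refine h (WM.mk_eq (X := pt) ⟨fun _ => p, continuous_const, fun _ _ => by simp, ?_⟩).symm
  have : X.μ.map id = X.μ.map fun _ => p :=
    Measure.map_congr (Filter.mem_of_superset Measure.support_mem_ae a1)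
  simpa using this.symm

lemma Sep.anti {X : MM} {k k' R : ℝ} (h : Sep X k R) (hk : k' ≤ k) : Sep X k' R :=
  let ⟨f, c, h1, h2, h3⟩ := h
  ⟨f, c, h1, hk.trans_lt h2, hk.trans_lt h3⟩

lemma Sep.lt {X : MM} {k R : ℝ} (h : Sep X k R) : k < 1 :=
  let ⟨_, _, _, h2, _⟩ := h
  h2.trans_le measureReal_le_one

def LS (κ : ℝ) (X : MM) : Set ℝ :=
  {v | v = 0 ∨ ∃ k R, κ ≤ k ∧ 0 ≤ R ∧ Sep X k R ∧ v = R * (k - κ)}

noncomputable def lam (κ : ℝ) (X : MM) : ℝ := sSup (LS κ X)

lemma le_lam {κ : ℝ} (hκ : 0 < κ) {X : MM} {v : ℝ} (h : v ∈ LS κ X) : v ≤ lam κ X := by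
  obtain ⟨N, hN⟩ := not_sep X hκ
  refine le_csSup ⟨N, ?_⟩ h
  rintro _ (rfl | ⟨k, R, h1, h2, h3, rfl⟩)
  · positivity
  · have : R < N := not_le.1 fun h => hN R h (h3.anti h1)
    nlinarith [h3.lt]

lemma lam_le {κ : ℝ} {X : MM} {b : ℝ} (h0 : 0 ≤ b)
    (h : ∀ k R, κ ≤ k → 0 ≤ R → Sep X k R → R * (k - κ) ≤ b) : lam κ X ≤ b := by
  refine csSup_le ⟨0, Or.inl rfl⟩ ?_
  rintro _ (rfl | ⟨k, R, h1, h2, h3, rfl⟩)
  exacts [h0, h k R h1 h2 h3]

lemma lam_nonneg {κ : ℝ} (hκ : 0 < κ) (X : MM) : 0 ≤ lam κ X := le_lam hκ (Or.inl rfl)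

lemma lam_one (X : MM) : lam 1 X = 0 :=
  (lam_le le_rfl fun _ _ h1 _ h3 => absurd h3.lt h1.not_gt).antisymm (lam_nonneg one_pos X)

lemma lam_anti {κ κ' : ℝ} (hκ : 0 < κ) (h : κ ≤ κ') (X : MM) : lam κ' X ≤ lam κ X :=
  lam_le (lam_nonneg hκ X) fun k R h1 h2 h3 =>
    le_trans (by nlinarith) (le_lam hκ (Or.inr ⟨k, R, h.trans h1, h2, h3, rfl⟩))

lemma lam_est {X Y : MM} {r κ κ' B : ℝ} (h : CN X Y r) (hκ : 0 < κ) (hκ' : 0 < κ') (B0 : 0 ≤ B)
    (hB : ∀ k R, κ' ≤ k → Sep Y k R → R ≤ B) :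
    lam κ' Y ≤ lam κ X + 2 * r + B * (r + |κ - κ'|) := by
  have r0 := h.1
  have a0 := lam_nonneg hκ X
  have a1 := le_abs_self (κ - κ')
  have a2 : 0 ≤ r + |κ - κ'| := by positivity
  have a3 := mul_nonneg B0 a2
  refine lam_le (by linarith) fun k R h1 h2 h3 => ?_
  have a4 := mul_le_mul_of_nonneg_right (hB k R h1 h3) a2
  have a5 := h3.lt
  by_cases c1 : κ ≤ k - r
  · by_cases c2 : 0 ≤ R - 2 * r
    · have := le_lam hκ (Or.inr ⟨_, _, c1, c2, h.sep h3, rfl⟩)
      nlinarith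
    · nlinarith
  · nlinarith

lemma WM.lam {c κ : ℝ} {X Y : MM} (h : WM c X Y) (hc : 0 < c) (hκ : 0 < κ) :
    lam κ Y = c * lam κ X := by
  refine le_antisymm (lam_le (mul_nonneg hc.le (lam_nonneg hκ X)) fun k R h1 h2 h3 => ?_) ?_
  · have := le_lam hκ (Or.inr ⟨_, _, h1, by positivity, h.sep' hc h3, rfl⟩)
    rwa [mul_assoc, inv_mul_le_iff₀ hc] at this
  · rw [← le_inv_mul_iff₀ hc]
    refine lam_le (mul_nonneg (inv_pos.2 hc).le (lam_nonneg hκ Y)) fun k R h1 h2 h3 => ?_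
    have := le_lam hκ (Or.inr ⟨_, _, h1, by positivity, h.sep hc h3, rfl⟩)
    rwa [mul_assoc, ← le_inv_mul_iff₀ hc] at this

lemma Iso.wm {X Y : MM} (h : Iso X Y) : WM 1 (nm X) (nm Y) :=
  let ⟨f, f1, f2⟩ := h
  Sc.wm ⟨f, fun x y => by rw [f1.dist_eq, one_mul], f2⟩

noncomputable def G (a b : ℝ) : Cl → Cl :=
  Quot.lift (fun X => mk (pr b (sc a (nm X)))) fun _ _ h => by
    have := (h.wm.sc one_pos one_pos (a := a) (a' := a) (mul_comm _ _)).pr zero_le_one b
    rw [one_mul] at this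
    exact this.mk_eq

noncomputable def L (κ : ℝ) (x : Cl) : ℝ := lam κ (Quot.out x)

lemma L_mk {κ : ℝ} (hκ : 0 < κ) (X : MM) : L κ (mk X) = lam κ (nm X) := by
  have e : BL (Quot.out (mk X)) (nm X) 0 := bl_of_eq ((mk_out _).trans (nm_wm X).mk_eq.symm)
  refine le_antisymm (lam_le (lam_nonneg hκ _) fun k R h1 h2 h3 => ?_)
    (lam_le (lam_nonneg hκ _) fun k R h1 h2 h3 => ?_)
  · exact le_lam hκ (Or.inr ⟨_, _, h1, h2, h3.bl e.symm, rfl⟩)
  · exact le_lam hκ (Or.inr ⟨_, _, h1, h2, h3.bl e, rfl⟩)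

lemma G_out (a b : ℝ) (x : Cl) : G a b x = mk (pr b (sc a (nm (Quot.out x)))) := by
  conv_lhs => rw [← mk_out x]
  rfl

lemma G_one (x : Cl) : G 1 0 x = x := by
  have h2 := sc_wm 1 (nm (Quot.out x))
  rw [max_eq_left zero_le_one] at h2
  rw [G_out, ← (pr_zero _).mk_eq, ← h2.mk_eq, (nm_wm _).mk_eq, mk_out]

lemma G_zero (b : ℝ) (x y : Cl) : G 0 b x = G 0 b y := by
  simp only [G_out, sc, lt_irrefl, dif_neg, not_false_eq_true]

lemma G_ne {a : ℝ} (ha : 0 < a) (b : ℝ) {x : Cl} (hx : x ≠ star) : G a b x ≠ star := by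
  obtain ⟨k, k0, R, R0, h⟩ := sep_of_ne (X := nm (Quot.out x))
    (by rwa [(nm_wm _).mk_eq, mk_out])
  rw [G_out]
  refine ((h.scp ha).pull WithLp.fst (LipschitzWith.of_dist_le_mul fun x y => ?_) ?_).ne k0.le
    (mul_pos ha R0)
  · rw [d1]; simp
  · rw [Measure.map_map (by fun_prop) (by fun_prop)]
    exact Measure.fst_prod

lemma G_ne' (a : ℝ) {b : ℝ} (hb : 0 < b) (x : Cl) : G a b x ≠ star := by
  have h := (bl_self (two half 1)).sep (m := 1 / 2) (by norm_num)
    ((by norm_num [half] : _ ≤ _).trans (two_l half 1)) (two_r half 1)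
  have h1 : mk (pr 1 (sc (b⁻¹ * a) (nm (Quot.out x)))) ≠ star := by
    refine (h.pull WithLp.snd (LipschitzWith.of_dist_le_mul fun x y => ?_) ?_).ne (by norm_num)
      (by norm_num)
    · rw [d1]; simp [Real.dist_eq]
    · rw [Measure.map_map (by fun_prop) (by fun_prop)]
      refine Eq.trans ?_ (Measure.snd_prod (μ := (sc (b⁻¹ * a) (nm (Quot.out x))).μ))
      congr 1
      ext p
      simp
  obtain ⟨k, k0, R, R0, h2⟩ := sep_of_ne h1
  have w : WM 1 (nm (Quot.out x)) (nm (Quot.out x)) :=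
    ⟨id, continuous_id, fun _ _ => (one_mul _).symm, Measure.map_id⟩
  have := ((w.sc one_pos hb (a := b⁻¹ * a) (a' := a) (by field_simp)).pr hb.le 1).sep hb h2
  rw [mul_one] at this
  rw [G_out]
  exact this.ne k0.le (mul_pos hb R0)

/-- The two distances share these properties. -/
structure Th (D : MM → MM → ℝ) (R : MM → MM → ℝ → Prop) : Prop where
  le : ∀ {X Y r}, R X Y r → D X Y ≤ r
  of : ∀ {X Y r}, D X Y < r → R X Y r
  bl : ∀ {X Y r}, BL X Y r → R X Y r
  cn : ∀ {X Y r}, R X Y r → CN X Y r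
  symm : ∀ {X Y r}, R X Y r → R Y X r
  trans : ∀ {X Y Z r s}, R X Y r → R Y Z s → R X Z (r + s)
  sc : ∀ {X Y r} a, R X Y r → R (sc a X) (sc a Y) ((1 + |a|) * r)
  pr : ∀ {X Y r} b, R X Y r → R (pr b X) (pr b Y) (2 * r)

lemma th_box : Th box0 BL :=
  ⟨BL.le, fun h => let ⟨_, h1, h2⟩ := of_lt h; h2.mono h1.le, id, BL.cn, BL.symm, BL.trans,
    fun a h => h.sc a, fun b h => (h.pr b b).mono (by simpa using by linarith [h.1])⟩

lemma th_conc : Th conc0 CN :=
  ⟨CN.le, cn_of_lt, BL.cn, id, CN.symm, CN.trans, fun a h => h.sc a, fun b h => h.pr b⟩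

variable {D : MM → MM → ℝ} {R : MM → MM → ℝ → Prop}

attribute [-instance] boxTop pms

@[reducible] noncomputable def Th.pm (h : Th D R) : PseudoMetricSpace Cl :=
  @PseudoMetricSpace.ofDistTopology Cl (ballTop fun a b => D (Quot.out a) (Quot.out b))
    (fun a b => D (Quot.out a) (Quot.out b))
    (fun _ => (h.le (h.bl (bl_self _))).antisymm (not_lt.1 fun e =>
      let ⟨_, h1, h2⟩ := exists_between e
      (h.cn (h.of h1)).1.not_gt h2))
    (fun _ _ => le_antisymm (le_of_forall_gt_imp_ge_of_dense fun _ e => h.le (h.symm (h.of e)))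
      (le_of_forall_gt_imp_ge_of_dense fun _ e => h.le (h.symm (h.of e))))
    (fun _ b _ => le_of_forall_pos_le_add fun η hη => (h.le (h.trans (Y := Quot.out b)
      (h.of (lt_add_of_pos_right _ (half_pos hη))) (h.of (lt_add_of_pos_right _ (half_pos hη))))).trans
        (by linarith))
    fun _ => Iff.rfl

lemma Th.mk_le (h : Th D R) {X Y : MM} {r : ℝ} (k : R X Y r) :
    D (Quot.out (Mms.mk X)) (Quot.out (Mms.mk Y)) ≤ r := by
  simpa using h.le (h.trans (h.trans (h.bl (bl_out X)) k) (h.bl (bl_out Y).symm))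

lemma Th.contG (h : Th D R) :
    letI := h.pm
    Continuous fun p : ℝ × ℝ × Cl => G p.1 p.2.1 p.2.2 := by
  letI := h.pm
  refine continuous_iff_continuousAt.2 fun ⟨a, b, x⟩ => Metric.tendsto_nhds.2 fun ε hε => ?_
  obtain ⟨δ, d0, d1⟩ := bl_sc (nm (Quot.out x)) (show 0 < ε / 4 by positivity)
  have t1 : Tendsto (fun p : ℝ × ℝ × Cl => 2 * ((1 + |p.1|) * (2 * dist p.2.2 x)) + |p.2.1 - b|)
      (𝓝 (a, b, x)) (𝓝 (2 * ((1 + |a|) * (2 * dist x x)) + |b - b|)) :=
    Continuous.tendsto (by fun_prop) (a, b, x)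
  have t2 : Tendsto (fun p : ℝ × ℝ × Cl => |p.1 - a|) (𝓝 (a, b, x)) (𝓝 |a - a|) :=
    Continuous.tendsto (by fun_prop) (a, b, x)
  filter_upwards [t1.eventually (gt_mem_nhds (show _ < ε / 4 by simpa using hε)),
    t2.eventually (gt_mem_nhds (show _ < δ by simpa using d0))] with ⟨a', b', x'⟩ h1 h2
  refine lt_of_le_of_lt (le_of_forall_pos_le_add fun η hη => ?_) (show ε / 2 < ε by linarith)
  have p0 : 0 < 1 + |a'| := by positivity
  have k1 : R (Quot.out x') (Quot.out x) (2 * dist x' x + η / 2 / (1 + |a'|)) :=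
    h.of (show dist x' x < _ by linarith [dist_nonneg (x := x') (y := x),
      show 0 < η / 2 / (1 + |a'|) by positivity])
  have k2 := h.trans (h.trans (h.bl (bl_of_eq (nm_wm _).mk_eq)) k1)
    (h.bl (bl_of_eq (nm_wm _).mk_eq.symm))
  have k3 := h.mk_le (h.trans (h.pr b' (h.sc a' k2)) (h.bl ((d1 a' a h2).pr b' b)))
  rw [← G_out, ← G_out, zero_add, add_zero, mul_add (1 + |a'|), mul_div_cancel₀ _ p0.ne'] at k3
  exact k3.trans (by simp only at h1; linarith)

lemma Th.contL (h : Th D R) {κ : ℝ} (hκ : 0 < κ) (x : Cl) :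
    letI := h.pm
    ContinuousAt (fun p : ℝ × Cl => L p.1 p.2) (κ, x) := by
  letI := h.pm
  refine Metric.tendsto_nhds.2 fun ε hε => ?_
  obtain ⟨N, hN⟩ := not_sep (Quot.out x) (show 0 < κ / 4 by positivity)
  obtain ⟨r, r0, r1, r2⟩ : ∃ r, 0 < r ∧ r < κ / 4 ∧ 2 * r + (N + κ) * (r + r) < ε := by
    have t : Tendsto (fun r : ℝ => 2 * r + (N + κ) * (r + r)) (𝓝 0)
        (𝓝 (2 * 0 + (N + κ) * (0 + 0))) := Continuous.tendsto (by fun_prop) 0
    obtain ⟨r, r1, r2⟩ := (((t.eventually (gt_mem_nhds (by simpa using hε))).and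
      (gt_mem_nhds (show 0 < κ / 4 by positivity))).filter_mono nhdsWithin_le_nhds |>.and
      (self_mem_nhdsWithin (s := Ioi (0 : ℝ)))).exists
    exact ⟨r, r2, r1.2, r1.1⟩
  filter_upwards [Metric.ball_mem_nhds _ r0] with ⟨κ', x'⟩ hp
  rw [Metric.mem_ball, Prod.dist_eq, max_lt_iff, Real.dist_eq] at hp
  have k1 : CN (Quot.out x') (Quot.out x) r := h.cn (h.of hp.2)
  have k2 := abs_lt.1 hp.1
  have B0 : 0 ≤ (N : ℝ) + κ := by positivity
  have a1 := lam_est k1 (κ := κ') (κ' := κ) (by linarith) hκ B0 fun k R h1 h2 =>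
    (not_le.1 fun e => hN R e (h2.anti (by linarith))).le.trans (by linarith)
  have a2 := lam_est k1.symm (κ := κ) (κ' := κ') hκ (by linarith) B0 fun k R h1 h2 => by
    have := not_le.1 fun e => hN _ e ((k1.symm.sep h2).anti (by linarith))
    linarith
  rw [abs_sub_comm] at a2
  have a3 := mul_le_mul_of_nonneg_left (add_le_add_right hp.1.le r) B0
  rw [Real.dist_eq, abs_lt]
  simp only [L] at *
  constructor <;> linarith

theorem Th.punct (h : Th D R) :
    @ContractibleSpace Punct (punctTop fun a b => D (Quot.out a) (Quot.out b)) := by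
  letI := h.pm
  letI := punctTop fun a b => D (Quot.out a) (Quot.out b)
  have ne : ∀ p : unitInterval × Punct, G (1 - p.1) p.1 p.2.1 ≠ star := fun p => by
    rcases p.1.2.1.eq_or_lt with e | e
    · exact G_ne (by linarith) _ p.2.2
    · exact G_ne' _ e _
  have cv : Continuous fun a : Punct => a.1 := continuous_induced_dom
  refine (contractible_iff_id_nullhomotopic _).2 ⟨⟨G 0 1 star, G_ne' _ one_pos _⟩,
    ⟨⟨⟨fun p => ⟨_, ne p⟩, continuous_induced_rng.2 ?_⟩, fun x => Subtype.ext ?_,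
      fun x => Subtype.ext ?_⟩⟩⟩
  · exact h.contG.comp (f := fun p : unitInterval × Punct => (1 - (p.1 : ℝ), (p.1 : ℝ), p.2.1))
      (by fun_prop)
  · simpa using G_one x.1
  · simpa using G_zero 1 _ _

lemma orb_G {a a' b c k : ℝ} {X Y : MM} (w : WM c (nm X) (nm Y)) (hc : 0 < c) (hk : 0 < k)
    (e : a' * c = k * a) (n1 : G a b (mk X) ≠ star) (n2 : G a' (k * b) (mk Y) ≠ star) :
    Quot.mk Orb ⟨_, n1⟩ = Quot.mk Orb ⟨_, n2⟩ :=
  Quot.sound ⟨k, hk, _, _, rfl, rfl, ((w.sc hc hk e).pr hk.le b).sc'⟩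

theorem Th.sig (h : Th D R) :
    @ContractibleSpace Sig (sigTop fun a b => D (Quot.out a) (Quot.out b)) := by
  letI := h.pm
  letI := punctTop fun a b => D (Quot.out a) (Quot.out b)
  letI := sigTop fun a b => D (Quot.out a) (Quot.out b)
  classical
  let b : unitInterval → Cl → ℝ := fun t x => if t = 1 then 1 else L (1 - t) x
  have p1 : ∀ t : unitInterval, t ≠ 1 → (0 : ℝ) < 1 - t := fun t ht =>
    sub_pos.2 (lt_of_le_of_ne t.2.2 fun e => ht (Subtype.ext e))
  have ne : ∀ (t : unitInterval) (x : Punct), G (1 - t) (b t x.1) x.1 ≠ star := fun t x => by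
    by_cases e : t = 1
    · exact G_ne' _ (by simp [b, e]) _
    · exact G_ne (p1 t e) _ x.2
  have cv : Continuous fun a : Punct => a.1 := continuous_induced_dom
  have q : IsQuotientMap (Quot.mk Orb : Punct → Sig) := isQuotientMap_quot_mk
  have ind : IsInducing fun a : Punct => a.1 := ⟨rfl⟩
  let H : unitInterval × Sig → Sig := fun p => Quot.lift
    (fun x : Punct => Quot.mk Orb ⟨_, ne p.1 x⟩) (by
      rintro ⟨_, n1⟩ ⟨_, n2⟩ ⟨c, hc, X, Y, rfl, rfl, s⟩
      by_cases e : p.1 = 1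
      · congr 2
        simpa [b, e] using G_zero 1 _ _
      · have e1 : b p.1 (Mms.mk Y) = c * b p.1 (Mms.mk X) := by
          simp only [b, if_neg e, L_mk (p1 _ e), s.wm.lam hc (p1 _ e)]
        refine (orb_G s.wm hc hc (mul_comm _ _) _ (e1 ▸ ne p.1 ⟨_, n2⟩)).trans ?_
        congr 2
        exact congrArg (fun v => G _ v _) e1.symm) p.2
  refine (contractible_iff_id_nullhomotopic _).2 ⟨Quot.mk _ ⟨G 0 1 star, G_ne' _ one_pos _⟩,
    ⟨⟨⟨H, q.continuous_lift_prod_right (continuous_iff_continuousAt.2 fun ⟨t, x⟩ => ?_)⟩, ?_, ?_⟩⟩⟩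
  rotate_left
  · rintro ⟨x⟩
    refine congrArg (Quot.mk Orb) (Subtype.ext ?_)
    simpa [b, L, lam_one] using G_one x.1
  · rintro ⟨x⟩
    refine congrArg (Quot.mk Orb) (Subtype.ext ?_)
    simpa [b] using G_zero 1 _ _
  by_cases e : t = 1
  · subst e
    obtain ⟨k, k0, r, r0, s⟩ := sep_of_ne (X := Quot.out x.1) (by rw [mk_out]; exact x.2)
    have l0 : 0 < L (k / 2) x.1 := lt_of_lt_of_le (mul_pos r0 (by linarith))
      (le_lam (half_pos k0) (Or.inr ⟨k, r, by linarith, r0.le, s, rfl⟩))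
    let δ := min 1 (L (k / 2) x.1 / 2)
    have d0 : 0 < δ := lt_min one_pos (half_pos l0)
    have ev : ∀ᶠ p : unitInterval × Punct in 𝓝 (1, x), δ ≤ b p.1 p.2.1 := by
      have c1 : ContinuousAt (fun p : unitInterval × Punct => L (k / 2) p.2.1) (1, x) :=
        (h.contL (half_pos k0) x.1).comp_of_eq
          (f := fun p : unitInterval × Punct => (k / 2, p.2.1)) (by fun_prop) rfl
      have c2 : ContinuousAt (fun p : unitInterval × Punct => 1 - (p.1 : ℝ)) (1, x) := by fun_prop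
      filter_upwards [c1.eventually (lt_mem_nhds (half_lt_self l0)),
        c2.eventually (gt_mem_nhds (show _ < k / 2 by simpa using k0))] with p h1 h2
      by_cases e : p.1 = 1
      · simp [b, e, δ]
      · simp only [b, if_neg e]
        exact (min_le_right _ _).trans (h1.le.trans (lam_anti (p1 _ e) h2.le _))
    have c3 : ContinuousAt (fun p : unitInterval × Punct => (b p.1 p.2.1)⁻¹ * (1 - (p.1 : ℝ)))
        (1, x) := by
      have c2 : ContinuousAt (fun p : unitInterval × Punct => δ⁻¹ * (1 - (p.1 : ℝ))) (1, x) := by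
        fun_prop
      simp only [ContinuousAt, Set.Icc.coe_one, sub_self, mul_zero] at c2 ⊢
      refine squeeze_zero' (ev.mono fun p hp => mul_nonneg (inv_nonneg.2 (d0.le.trans hp))
        (sub_nonneg.2 p.1.2.2)) (ev.mono fun p hp => mul_le_mul_of_nonneg_right
          (inv_anti₀ d0 hp) (sub_nonneg.2 p.1.2.2)) c2
    refine (q.continuous.continuousAt.comp (f := fun p : unitInterval × Punct =>
      (⟨G ((b p.1 p.2.1)⁻¹ * (1 - p.1)) 1 p.2.1, G_ne' _ one_pos _⟩ : Punct))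
      (ind.continuousAt_iff.2 (h.contG.continuousAt.comp (f := fun p : unitInterval × Punct =>
        ((b p.1 p.2.1)⁻¹ * (1 - (p.1 : ℝ)), (1 : ℝ), p.2.1)) (c3.prodMk (by fun_prop))))).congr
      (ev.mono ?_)
    rintro ⟨t, ⟨X⟩, n⟩ hp
    have b0 := d0.trans_le hp
    have w : WM 1 (nm X) (nm X) := ⟨id, continuous_id, fun _ _ => (one_mul _).symm, Measure.map_id⟩
    refine Eq.trans ?_ (orb_G w one_pos (inv_pos.2 b0) (mul_one _) (ne t ⟨_, n⟩)
      (G_ne' _ (mul_pos (inv_pos.2 b0) b0) _)).symm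
    refine congrArg (Quot.mk Orb) (Subtype.ext ?_)
    exact congrArg (fun v => G ((b t (Mms.mk X))⁻¹ * (1 - t)) v (Mms.mk X))
      (inv_mul_cancel₀ b0.ne').symm
  · have c1 : ContinuousAt (fun p : unitInterval × Punct => b p.1 p.2.1) (t, x) := by
      refine ((h.contL (p1 t e) x.1).comp_of_eq (f := fun p : unitInterval × Punct =>
        (1 - (p.1 : ℝ), p.2.1)) (by fun_prop) rfl).congr ?_
      filter_upwards [continuousAt_fst.eventually_ne e] with p hp
      simp only [b, if_neg hp, comp]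
    exact q.continuous.continuousAt.comp (f := fun p : unitInterval × Punct =>
      (⟨_, ne p.1 p.2⟩ : Punct)) (ind.continuousAt_iff.2 (h.contG.continuousAt.comp
        (f := fun p : unitInterval × Punct => (1 - (p.1 : ℝ), b p.1 p.2.1, p.2.1))
        (ContinuousAt.prodMk (by fun_prop) (c1.prodMk (by fun_prop)))))

end Pool.Agent.H95.Mms
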