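import Mathlib

/-! Metric measure spaces, the box distance and the observable distance. -/

set_option autoImplicit false

namespace Pool.Agent.H95.Mms

open MeasureTheory Set Filter Topology TopologicalSpace

/-- An mm-space: a complete separable metric space with a Borel probability measure. -/
structure MM where
  X : Type
  [met : MetricSpace X]
  [cpl : CompleteSpace X]
  [sep : SeparableSpace X]
  [mea : MeasurableSpace X]
  [bor : BorelSpace X]
  μ : Measure X
  [prob : IsProbabilityMeasure μ]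

attribute [instance] MM.met MM.cpl MM.sep MM.mea MM.bor MM.prob

/-- mm-isomorphism: an isometry between the supports pushing one measure to the other. -/
def Iso (X Y : MM) : Prop :=
  ∃ f : X.μ.support → Y.μ.support, Isometry f ∧
    (X.μ.comap Subtype.val).map (fun x => (f x : Y.X)) = Y.μ

/-- The set of mm-isomorphism classes. -/
def Cl : Type 1 := Quot Iso

/-- Parameters: Borel maps from the unit interval pushing Lebesgue measure to the measure. -/
def Par (X : MM) (φ : unitInterval → X.X) : Prop := Measurable φ ∧ volume.map φ = X.μ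

/-- The box distance between mm-spaces. -/
noncomputable def box0 (X Y : MM) : ℝ :=
  sInf {ε | 0 ≤ ε ∧ ∃ φ ψ, Par X φ ∧ Par Y ψ ∧ ∃ I0 : Set unitInterval, MeasurableSet I0 ∧
    1 - ε ≤ volume.real I0 ∧ ∀ s ∈ I0, ∀ t ∈ I0, |dist (φ s) (φ t) - dist (ψ s) (ψ t)| ≤ ε}

/-- The box distance between classes. -/
noncomputable def box (a b : Cl) : ℝ := box0 (Quot.out a) (Quot.out b)

/-- The Ky Fan distance. -/
noncomputable def kf (f g : unitInterval → ℝ) : ℝ :=
  sInf {ε | 0 ≤ ε ∧ volume.real {s | ε < |f s - g s|} ≤ ε}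

/-- Real 1-Lipschitz functions. -/
def Lip (X : MM) : Type := {f : X.X → ℝ // LipschitzWith 1 f}

/-- The observable distance between mm-spaces. -/
noncomputable def conc0 (X Y : MM) : ℝ :=
  ⨅ φ : {φ // Par X φ}, ⨅ ψ : {ψ // Par Y ψ},
    max (⨆ f : Lip X, ⨅ g : Lip Y, kf (f.1 ∘ φ.1) (g.1 ∘ ψ.1))
      (⨆ g : Lip Y, ⨅ f : Lip X, kf (f.1 ∘ φ.1) (g.1 ∘ ψ.1))

/-- The observable distance between classes. -/
noncomputable def conc (a b : Cl) : ℝ := conc0 (Quot.out a) (Quot.out b)

/-- The topology induced by a distance function. -/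
@[reducible] def ballTop {α : Type*} (d : α → α → ℝ) : TopologicalSpace α where
  IsOpen U := ∀ a ∈ U, ∃ ε > 0, ∀ b, d a b < ε → b ∈ U
  isOpen_univ := fun _ _ => ⟨1, one_pos, fun _ _ => trivial⟩
  isOpen_inter := fun _ _ hs ht a ha =>
    (hs a ha.1).elim fun e he => (ht a ha.2).elim fun f hf =>
      ⟨min e f, lt_min he.1 hf.1, fun b hb =>
        ⟨he.2 b (hb.trans_le (min_le_left _ _)), hf.2 b (hb.trans_le (min_le_right _ _))⟩⟩
  isOpen_sUnion := fun _ h a ha => ha.elim fun t ht => (h t ht.1 a ht.2).elim fun e he =>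
    ⟨e, he.1, fun b hb => ⟨t, ht.1, he.2 b hb⟩⟩

/-- The box topology. -/
noncomputable instance boxTop : TopologicalSpace Cl := ballTop box

/-- Kuratowski-Painleve convergence of a filter of closed sets: `Ls ⊆ A ⊆ Li`. -/
def KConv {α : Type*} [TopologicalSpace α] (l : Filter (Closeds α)) (A : Closeds α) : Prop :=
  (∀ x, (∀ U ∈ 𝓝 x, ∃ᶠ B : Closeds α in l, (U ∩ (B : Set α)).Nonempty) → x ∈ A) ∧
    ∀ x ∈ A, ∀ U ∈ 𝓝 x, ∀ᶠ B : Closeds α in l, (U ∩ (B : Set α)).Nonempty

/-- The finest topology in which Kuratowski-Painleve convergence implies convergence. -/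
@[reducible] def tauK (α : Type*) [TopologicalSpace α] : TopologicalSpace (Closeds α) :=
  sInf {t | ∀ (l : Filter (Closeds α)) A, l.NeBot → KConv l A → l ≤ @nhds _ t A}

end Pool.Agent.H95.Mms
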