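import Mathlib

set_option autoImplicit false
open scoped ContDiff

namespace Pool.Agent.H95.MY3

theorem hurwitz (a b c : ℝ) (ha : 0 < a) (hc : 0 < c) (habc : c < a * b) (z : ℂ)
    (hz : z ^ 3 + a * z ^ 2 + b * z + c = 0) : z.re < 0 := by
  by_contra hx
  push Not at hx
  have hb : 0 < b := by
    by_contra hb
    push Not at hb
    nlinarith
  have h1 := congrArg Complex.re hz
  have h2 := congrArg Complex.im hz
  simp [pow_succ] at h1 h2
  set x := z.re
  set y := z.im
  have h3 : y * (3 * x ^ 2 - y ^ 2 + 2 * a * x + b) = 0 := by linarith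
  rcases mul_eq_zero.1 h3 with h | h
  · rw [h] at h1
    have : 0 ≤ x * x * x := by positivity
    have : 0 ≤ a * (x * x) := by positivity
    have : 0 ≤ b * x := by positivity
    nlinarith
  · have hy : y ^ 2 = 3 * x ^ 2 + 2 * a * x + b := by linarith
    have h4 : -8 * x ^ 3 - 8 * a * x ^ 2 - 2 * (b + a ^ 2) * x - (a * b - c) = 0 := by
      linear_combination h1 + (3 * x + a) * hy
    have : 0 ≤ x ^ 3 := by positivity
    have : 0 ≤ a * x ^ 2 := by positivity
    have : 0 ≤ (b + a ^ 2) * x := by positivity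
    nlinarith

noncomputable def bump : ContDiffBump (0 : ℝ) := ⟨1, 2, by norm_num, by norm_num⟩

noncomputable def r (u : ℝ) : ℝ := u * bump u

theorem r_smooth : ContDiff ℝ ∞ r := contDiff_id.mul bump.contDiff

theorem r_eq (u : ℝ) (hu : u ∈ Set.Icc (-1 : ℝ) 1) : r u = u := by
  have : bump u = 1 := bump.one_of_mem_closedBall (by
    simpa [bump, Real.dist_eq, abs_le] using hu)
  simp [r, this]

theorem r_abs (u : ℝ) : |r u| ≤ 2 := by
  by_cases h : |u| ≤ 2
  · have h1 := bump.nonneg (x := u)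
    have h2 := bump.le_one (x := u)
    rw [r, abs_mul, abs_of_nonneg h1]
    nlinarith [abs_nonneg u]
  · have : bump u = 0 := bump.zero_of_le_dist (by
      simp only [bump, Real.dist_eq, sub_zero]; linarith [not_le.1 h])
    simp [r, this]

theorem ext (P p : ℝ → ℝ) (hP : ∀ u, HasDerivAt P (p u) u) (hp : ContDiff ℝ ∞ p) :
    ∃ Q : ℝ → ℝ, ContDiff ℝ ∞ Q ∧ (∀ u, HasDerivAt Q (p (r u)) u) ∧
      ∀ u ∈ Set.Icc (-1 : ℝ) 1, Q u = P u := by
  have hc : ContDiff ℝ ∞ (fun u => p (r u)) := hp.comp r_smooth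
  have hd : ∀ u, HasDerivAt (fun u => P 0 + ∫ s in (0 : ℝ)..u, p (r s)) (p (r u)) u := fun u =>
    (hc.continuous.integral_hasStrictDerivAt 0 u).hasDerivAt.const_add _
  refine ⟨fun u => P 0 + ∫ s in (0 : ℝ)..u, p (r s), ?_, hd, ?_⟩
  · rw [contDiff_infty_iff_deriv]
    refine ⟨fun u => (hd u).differentiableAt, ?_⟩
    have : deriv (fun u => P 0 + ∫ s in (0 : ℝ)..u, p (r s)) = fun u => p (r u) :=
      funext fun u => (hd u).deriv
    rw [this]; exact hc
  · intro u hu
    have h1 : ∫ s in (0 : ℝ)..u, p (r s) = ∫ s in (0 : ℝ)..u, p s := by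
      apply intervalIntegral.integral_congr
      intro s hs
      have : s ∈ Set.Icc (-1 : ℝ) 1 := Set.uIcc_subset_Icc (by norm_num) hu hs
      simp [r_eq s this]
    have h2 := intervalIntegral.integral_eq_sub_of_hasDerivAt (a := 0) (b := u)
      (fun x _ => hP x) (hp.continuous.intervalIntegrable _ _)
    simp only [h1, h2]; ring

noncomputable def a (u : ℝ) : ℝ := 1 + (-1/200) * u + (1/320000) * u^2
noncomputable def b (u : ℝ) : ℝ :=
  (199999/200000) + (-239999/80000000) * u + (13/1000000) * u^2 + (-7/320000000) * u^3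
noncomputable def c (u : ℝ) : ℝ :=
  (159998840001/160000000000) + (-1999997/250000000) * u + (1991997/64000000000) * u^2
    + (-1/62500000) * u^3 + (3/64000000000) * u^4
noncomputable def A0 (u : ℝ) : ℝ := u + (-1/400) * u^2 + (1/960000) * u^3
noncomputable def B0 (u : ℝ) : ℝ :=
  (199999/200000) * u + (-239999/160000000) * u^2 + (13/3000000) * u^3 + (-7/1280000000) * u^4
noncomputable def C0 (u : ℝ) : ℝ :=
  (999999/500000000) + (159998840001/160000000000) * u + (-1999997/500000000) * u^2
    + (663999/64000000000) * u^3 + (-1/250000000) * u^4 + (3/320000000000) * u^5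

theorem dA0 (u : ℝ) : HasDerivAt A0 (a u) u := by
  have h := hasDerivAt_id u
  have := (h.add ((h.pow 2).const_mul (-1/400))).add ((h.pow 3).const_mul (1/960000))
  refine HasDerivAt.congr_deriv this ?_
  simp [a]; ring

theorem da (u : ℝ) : HasDerivAt a (-1/200 + 1/160000 * u) u := by
  have h := hasDerivAt_id u
  have := ((h.const_mul (-1/200)).const_add 1).add ((h.pow 2).const_mul (1/320000))
  refine HasDerivAt.congr_deriv this ?_
  simp; ring

theorem dB0 (u : ℝ) : HasDerivAt B0 (b u) u := by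
  have h := hasDerivAt_id u
  have := (((h.const_mul (199999/200000)).add ((h.pow 2).const_mul (-239999/160000000))).add
    ((h.pow 3).const_mul (13/3000000))).add ((h.pow 4).const_mul (-7/1280000000))
  refine HasDerivAt.congr_deriv this ?_
  simp [b]; ring

theorem dC0 (u : ℝ) : HasDerivAt C0 (c u) u := by
  have h := hasDerivAt_id u
  have := (((((h.const_mul (159998840001/160000000000)).const_add (999999/500000000)).add
    ((h.pow 2).const_mul (-1999997/500000000))).add
    ((h.pow 3).const_mul (663999/64000000000))).add ((h.pow 4).const_mul (-1/250000000))).add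
    ((h.pow 5).const_mul (3/320000000000))
  refine HasDerivAt.congr_deriv this ?_
  simp [c]; ring

theorem ineq (u : ℝ) (hu : |u| ≤ 2) : 0 < a u ∧ 0 < c u ∧ c u < a u * b u := by
  have h : ∀ k : ℕ, -(2 : ℝ) ^ k ≤ u ^ k ∧ u ^ k ≤ 2 ^ k := fun k => by
    rw [← abs_le, abs_pow]
    exact pow_le_pow_left₀ (abs_nonneg _) hu k
  have h1 := h 1
  have h2 := h 2
  have h3 := h 3
  have h4 := h 4
  have h5 := h 5
  norm_num at h1 h2 h3 h4 h5
  refine ⟨?_, ?_, ?_⟩
  · unfold a; linarith [h1.1, h1.2, h2.1, h2.2]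
  · unfold c; linarith [h1.1, h1.2, h2.1, h2.2, h3.1, h3.2, h4.1, h4.2]
  · unfold a b c
    ring_nf
    linarith [h1.1, h1.2, h2.1, h2.2, h3.1, h3.2, h4.1, h4.2, h5.1, h5.2]

/-- the closed curve on the circle -/
theorem circle : ∃ (co si : ℝ → ℝ) (T : ℝ), 0 < T ∧ (∀ t, si t ^ 2 = 1 - co t ^ 2) ∧
    (∀ t, HasDerivAt co (-(si t * (1 + 1/1000 * si t))) t) ∧
    (∀ t, HasDerivAt si (co t * (1 + 1/1000 * si t)) t) ∧
    (∀ t, co (t + T) = co t) ∧ (∀ t, si (t + T) = si t) ∧ ∃ t, co t ≠ co 0 := by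
  set w : ℝ := Real.sqrt (1 - (1/1000)^2) with hw
  have hw0 : 0 < w := Real.sqrt_pos.2 (by norm_num)
  have hw2 : w ^ 2 = 1 - (1/1000)^2 := Real.sq_sqrt (by norm_num)
  have hden : ∀ t, (1 - 1/1000 * Real.sin (w * t)) ≠ 0 := fun t => by
    have := Real.sin_le_one (w * t)
    linarith
  have hs : ∀ t, HasDerivAt (fun t => Real.sin (w * t)) (Real.cos (w * t) * w) t := fun t => by
    simpa using ((hasDerivAt_id t).const_mul w).sin
  have hc : ∀ t, HasDerivAt (fun t => Real.cos (w * t)) (-Real.sin (w * t) * w) t := fun t => by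
    simpa using ((hasDerivAt_id t).const_mul w).cos
  have hper : ∀ t, w * (t + 2 * Real.pi / w) = w * t + 2 * Real.pi := fun t => by
    field_simp
  refine ⟨fun t => w * Real.cos (w * t) / (1 - 1/1000 * Real.sin (w * t)),
    fun t => (Real.sin (w * t) - 1/1000) / (1 - 1/1000 * Real.sin (w * t)),
    2 * Real.pi / w, by positivity, ?_, ?_, ?_, ?_, ?_, ?_⟩
  · intro t
    have := hden t
    have h2 := Real.cos_sq' (w * t)
    simp only [div_pow, mul_pow, h2, hw2]
    rw [eq_sub_iff_add_eq, ← add_div, div_eq_one_iff_eq (pow_ne_zero 2 this)]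
    ring
  · intro t
    have := hden t
    have h2 := Real.cos_sq' (w * t)
    have h3 := ((hc t).const_mul w).div (((hs t).const_mul (1/1000)).const_sub 1) this
    refine HasDerivAt.congr_deriv h3 ?_
    beta_reduce
    set s := Real.sin (w * t)
    set k := Real.cos (w * t)
    have e : (1 + 1/1000 * ((s - 1/1000) / (1 - 1/1000 * s))) = w ^ 2 / (1 - 1/1000 * s) := by
      rw [hw2, eq_div_iff this, add_mul, mul_assoc, div_mul_cancel₀ _ this]; ring
    simp only [e]
    rw [div_mul_div_comm, ← neg_div, ← sq]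
    congr 1
    linear_combination (1/1000 * w ^ 2) * h2
  · intro t
    have := hden t
    have h3 := ((hs t).sub_const (1/1000)).div (((hs t).const_mul (1/1000)).const_sub 1) this
    refine HasDerivAt.congr_deriv h3 ?_
    beta_reduce
    set s := Real.sin (w * t)
    set k := Real.cos (w * t)
    have e : (1 + 1/1000 * ((s - 1/1000) / (1 - 1/1000 * s))) = w ^ 2 / (1 - 1/1000 * s) := by
      rw [hw2, eq_div_iff this, add_mul, mul_assoc, div_mul_cancel₀ _ this]; ring
    simp only [e]
    rw [div_mul_div_comm, ← sq, hw2]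
    congr 1
    ring
  · intro t; simp only [hper, Real.cos_add_two_pi, Real.sin_add_two_pi]
  · intro t; simp only [hper, Real.sin_add_two_pi]
  · refine ⟨Real.pi / w, ?_⟩
    have : w * (Real.pi / w) = Real.pi := by field_simp
    simp only [this, Real.cos_pi, Real.sin_pi, mul_zero, Real.cos_zero, Real.sin_zero]
    norm_num
    linarith

theorem main :
    ∃ F : (Fin 3 → ℝ) → (Fin 3 → ℝ),
      ContDiff ℝ ∞ F ∧ F 0 = 0 ∧
      (∀ (x : Fin 3 → ℝ) (z : ℂ),
        Polynomial.aeval z
            (LinearMap.toMatrix' (fderiv ℝ F x).toLinearMap).charpoly = 0 →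
          z.re < 0) ∧
      ∃ γ : ℝ → (Fin 3 → ℝ), ∃ T : ℝ, 0 < T ∧
        (∀ t : ℝ, HasDerivAt γ (F (γ t)) t) ∧
        (∀ t : ℝ, γ (t + T) = γ t) ∧
        ∃ t : ℝ, γ t ≠ γ 0 := by
  obtain ⟨A, hA1, hA2, hA3⟩ := ext A0 a dA0 (by unfold a; fun_prop)
  obtain ⟨B, hB1, hB2, hB3⟩ := ext B0 b dB0 (by unfold b; fun_prop)
  obtain ⟨C, hC1, hC2, hC3⟩ := ext C0 c dC0 (by unfold c; fun_prop)
  obtain ⟨u0, -, hu0⟩ : (0 : ℝ) ∈ C '' Set.Icc (-1 : ℝ) 1 := by
    apply intermediate_value_Icc (by norm_num) hC1.continuous.continuousOn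
    rw [hC3 _ (by norm_num), hC3 _ (by norm_num)]
    constructor <;> norm_num [C0]
  obtain ⟨co, si, T, hT, hcs, hco, hsi, hp1, hp2, t0, ht0⟩ := circle
  refine ⟨fun x => ![x 1 + A u0 - A (x 0 + u0), x 2 + B u0 - B (x 0 + u0), - C (x 0 + u0)],
    ?_, ?_, ?_, fun t => ![co t - u0, -(si t * (1 + 1/1000 * si t)) + A0 (co t) - A u0,
      -(co t * (1 + 1/1000 * si t) * (1 + 2/1000 * si t))
        - a (co t) * (si t * (1 + 1/1000 * si t)) + B0 (co t) - B u0], T, hT, ?_, ?_, t0, ?_⟩
  · rw [contDiff_pi]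
    intro i
    fin_cases i <;> simp <;> fun_prop
  · ext i
    fin_cases i <;> simp [hu0]
  · intro x z hz
    let p : Fin 3 → ((Fin 3 → ℝ) →L[ℝ] ℝ) := fun i => ContinuousLinearMap.proj i
    have hp : ∀ i, HasFDerivAt (fun y : Fin 3 → ℝ => y i) (p i) x := fun i => (p i).hasFDerivAt
    set u := r (x 0 + u0)
    have hF : HasFDerivAt (fun x : Fin 3 → ℝ =>
        ![x 1 + A u0 - A (x 0 + u0), x 2 + B u0 - B (x 0 + u0), - C (x 0 + u0)])
        (ContinuousLinearMap.pi ![p 1 - a u • p 0, p 2 - b u • p 0, -(c u • p 0)]) x := by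
      rw [hasFDerivAt_pi']
      intro i
      fin_cases i
      · have := ((hp 1).add_const (A u0)).sub
          ((hA2 (x 0 + u0)).comp_hasFDerivAt x ((hp 0).add_const u0))
        exact this
      · have := ((hp 2).add_const (B u0)).sub
          ((hB2 (x 0 + u0)).comp_hasFDerivAt x ((hp 0).add_const u0))
        exact this
      · have := ((hC2 (x 0 + u0)).comp_hasFDerivAt x ((hp 0).add_const u0)).neg
        exact this
    rw [hF.fderiv] at hz
    have hM : LinearMap.toMatrix' (ContinuousLinearMap.pi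
        ![p 1 - a u • p 0, p 2 - b u • p 0, -(c u • p 0)]).toLinearMap
        = !![-a u, 1, 0; -b u, 0, 1; -c u, 0, 0] := by
      ext i j
      fin_cases i <;> fin_cases j <;> simp [p]
    rw [hM] at hz
    obtain ⟨h1, h2, h3⟩ := ineq u (r_abs _)
    apply hurwitz _ _ _ h1 h2 h3
    simp [Matrix.charpoly, Matrix.det_fin_three] at hz
    linear_combination hz
  · intro t
    have hin : co t ∈ Set.Icc (-1 : ℝ) 1 := by
      have := hcs t
      constructor <;> nlinarith [sq_nonneg (si t)]
    rw [hasDerivAt_pi]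
    intro i
    have h1 := hco t
    have h2 := hsi t
    fin_cases i
    · have := h1.sub_const u0
      refine HasDerivAt.congr_deriv this ?_
      simp [hA3 _ hin]
    · have := (((h2.mul ((h2.const_mul (1/1000)).const_add 1)).neg).add
        ((dA0 (co t)).comp t h1)).sub_const (A u0)
      refine HasDerivAt.congr_deriv this ?_
      simp [hB3 _ hin]
      ring
    · have := (((((h1.mul ((h2.const_mul (1/1000)).const_add 1)).mul
        ((h2.const_mul (2/1000)).const_add 1)).neg).sub (((da (co t)).comp t h1).mul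
        (h2.mul ((h2.const_mul (1/1000)).const_add 1)))).add
        ((dB0 (co t)).comp t h1)).sub_const (B u0)
      refine HasDerivAt.congr_deriv this ?_
      simp [hC3 _ hin]
      have e2 := hcs t
      have e3 : si t ^ 3 = si t * (1 - co t ^ 2) := by rw [← e2]; ring
      have e4 : si t ^ 4 = (1 - co t ^ 2) ^ 2 := by rw [← e2]; ring
      unfold C0 a b
      set x := co t
      set s := si t
      linear_combination
        ((4/1000 - 4/1000^3 * x^2 + (-1/200 + 1/160000 * x)
          - 2/1000^2 * (1 + (-1/200) * x + (1/320000) * x^2) * x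
          - 1/1000 * ((199999/200000) + (-239999/80000000) * x + (13/1000000) * x^2
            + (-7/320000000) * x^3))) * e2
        + (5/1000^2 + 2/1000 * (-1/200 + 1/160000 * x)) * e3
        + (2/1000^3 + 1/1000^2 * (-1/200 + 1/160000 * x)) * e4
  · intro t; simp only [hp1, hp2]
  · intro h
    have := congrFun h 0
    simp at this
    exact ht0 this

end Pool.Agent.H95.MY3
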