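import Pool.Agent.H95.MeasAlgDefs

namespace Pool.Agent.H95.MeasAlg
open Finset MeasureTheory Complex

abbrev G : Type := ℕ → ℤˣ

noncomputable def r (i : ℕ) : C(G, ℂ) :=
  ⟨fun x => ((x i : ℤ) : ℂ), (continuous_of_discreteTopology (f := fun u : ℤˣ => ((u : ℤ) : ℂ))).comp
    (continuous_apply i)⟩

noncomputable def w (S : Finset ℕ) : C(G, ℂ) := ∏ i ∈ S, r i

theorem r_mul (i : ℕ) (x y : G) : r i (x * y) = r i x * r i y := by simp [r]
theorem w_mul (S : Finset ℕ) (x y : G) : w S (x * y) = w S x * w S y := by simp [w, r_mul, prod_mul_distrib]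
theorem r_pm (i : ℕ) (x : G) : r i x = 1 ∨ r i x = -1 := by
  rcases Int.units_eq_one_or (x i) with h | h <;> simp [r, h]
theorem r_le (i : ℕ) : ‖r i‖ ≤ 1 := (ContinuousMap.norm_le _ zero_le_one).2 fun x => by
  rcases r_pm i x with h | h <;> simp [h]
theorem r_s (i j : ℕ) : r i (Pi.mulSingle j (-1)) = if i = j then -1 else 1 := by
  simp only [r, ContinuousMap.coe_mk, Pi.mulSingle_apply]; split_ifs <;> simp

theorem conv_w (μ ν : M G) (S : Finset ℕ) : conv μ ν (w S) = μ (w S) * ν (w S) := by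
  rw [mul_comm, ← smul_eq_mul, ← map_smul, conv]
  congr 1; ext x
  have : ((w S).comp ⟨fun p : G × G => p.1 * p.2, continuous_mul⟩).curry x = w S x • w S := by
    ext y; simp [w_mul]
  simp [this, mul_comm]

def J : Set (M G) := {μ | ∀ S : Finset ℕ, S.card ≠ 1 → μ (w S) = 0}

theorem closedJ : IsClosed J := by
  simp only [J, Set.setOf_forall]
  exact isClosed_iInter fun S => isClosed_iInter fun _ =>
    isClosed_eq (WeakDual.eval_continuous _) continuous_const

theorem idealJ : LeftIdeal J :=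
  ⟨fun _ _ => rfl, fun μ a ν b S h => (congrArg₂ (· + ·) (a S h) (b S h)).trans (add_zero _),
    fun μ ν b ρ e S h => by rw [e, conv_w, b S h, mul_zero]⟩

theorem bd (μ : M G) : ∃ C ≥ 0, ∀ f, ‖μ f‖ ≤ C * ‖f‖ :=
  ⟨_, norm_nonneg _, (WeakDual.toStrongDual μ).le_opNorm⟩

theorem riesz {μ : M G} (h : μ ∈ J) {C : ℝ} (C0 : 0 ≤ C) (hC : ∀ f, ‖μ f‖ ≤ C * ‖f‖) (N : ℕ) (hN : 0 < N)
    (a : ℕ → ℝ) (ha : ∀ i, a i ^ 2 = 1) : ‖∑ i ∈ range (N ^ 2), a i * μ (r i)‖ ≤ 3 * C * N := by
  have N0 : (0 : ℝ) < N := by exact_mod_cast hN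
  have h1 := hC (∏ i ∈ range (N ^ 2), (1 + (I * (a i / N : ℝ)) • r i))
  have h2 : ‖∏ i ∈ range (N ^ 2), (1 + (I * (a i / N : ℝ)) • r i)‖ ≤ 3 := by
    refine (ContinuousMap.norm_le _ (by norm_num)).2 fun x => ?_
    rw [ContinuousMap.prod_apply, norm_prod]
    refine (prod_le_prod (fun _ _ => norm_nonneg _) (g := fun _ => Real.exp (1 / N ^ 2)) fun i _ => ?_).trans ?_
    · refine le_trans (abs_le_of_sq_le_sq' ?_ (by positivity)).2 (Real.add_one_le_exp _)
      have : (0 : ℝ) ≤ 1 / N ^ 2 := by positivity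
      have e : (a i / N) * (a i / N) = 1 / N ^ 2 := by rw [← sq, div_pow, ha]
      rw [Complex.sq_norm, normSq_apply]
      generalize a i / N = t at *
      generalize (1 / N ^ 2 : ℝ) = s at *
      rcases r_pm i x with h | h <;> simp [h] <;> nlinarith
    · rw [prod_const, ← Real.exp_nat_mul, card_range]; push_cast
      rw [mul_one_div_cancel (by positivity)]
      linarith [Real.exp_one_lt_d9]
  rw [prod_one_add, _root_.map_sum, ← sum_subset (s₁ := (range (N ^ 2)).map ⟨_, singleton_injective⟩)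
    (fun T hT => by simp at hT ⊢; obtain ⟨i, hi, rfl⟩ := hT; simpa using hi) (fun T hT hn => by
      rw [prod_smul, map_smul, show μ (∏ i ∈ T, r i) = 0 from h T fun e => hn ?_, smul_zero]
      obtain ⟨i, rfl⟩ := card_eq_one.1 e
      simpa using hT), sum_map, ← prod_one_add] at h1
  simp only [Function.Embedding.coeFn_mk, prod_singleton, map_smul, smul_eq_mul] at h1
  have e : ∑ i ∈ range (N ^ 2), a i * μ (r i) = (-I * N) * ∑ i ∈ range (N ^ 2), I * (a i / N : ℝ) * μ (r i) := by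
    rw [mul_sum]
    refine sum_congr rfl fun i _ => ?_
    have : (N : ℂ) ≠ 0 := by exact_mod_cast hN.ne'
    push_cast; field_simp; simp
  rw [e, norm_mul]
  simp only [norm_mul, norm_neg, norm_I, one_mul, Complex.norm_natCast]
  nlinarith [mul_le_mul_of_nonneg_left h2 C0]

theorem sum_le {μ : M G} (h : μ ∈ J) : ∃ C ≥ 0, ∀ N : ℕ, 0 < N → ∑ i ∈ range (N ^ 2), ‖μ (r i)‖ ≤ C * N := by
  obtain ⟨C, C0, hC⟩ := bd μ
  refine ⟨6 * C, by positivity, fun N hN => ?_⟩
  have sg : ∀ t : ℝ, (if 0 ≤ t then 1 else -1) * t = |t| := fun t => by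
    split_ifs with h
    · simp [abs_of_nonneg h]
    · simp [abs_of_neg (not_le.1 h)]
  have h1 := (re_le_norm _).trans (riesz h C0 hC N hN (fun i => if 0 ≤ (μ (r i)).re then 1 else -1)
    fun i => by split_ifs <;> simp)
  have h2 := (im_le_norm _).trans (riesz h C0 hC N hN (fun i => if 0 ≤ (μ (r i)).im then 1 else -1)
    fun i => by split_ifs <;> simp)
  simp only [re_sum, im_sum, re_ofReal_mul, im_ofReal_mul, sg] at h1 h2
  refine (sum_le_sum fun i _ => norm_le_abs_re_add_abs_im _).trans ?_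
  rw [sum_add_distrib]; linarith

theorem small {n : ℕ} {ν : Fin n → M G} (h : ∀ i, ν i ∈ J) {ε : ℝ} (hε : 0 < ε) :
    ∃ k, ∑ i, ‖ν i (r k)‖ < ε := by
  choose C C0 hC using fun i => sum_le (h i)
  by_contra! hn
  obtain ⟨N, hN⟩ := exists_nat_gt ((∑ i, C i) / ε)
  have N0 : (0 : ℝ) < N := lt_of_le_of_lt (div_nonneg (sum_nonneg fun i _ => C0 i) hε.le) hN
  have h1 := card_nsmul_le_sum (range (N ^ 2)) _ _ fun k _ => hn k
  rw [sum_comm, card_range, nsmul_eq_mul] at h1
  have h2 := h1.trans (sum_le_sum fun i _ => hC i N (by exact_mod_cast N0))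
  rw [← sum_mul] at h2
  rw [div_lt_iff₀ hε] at hN
  push_cast at h2
  nlinarith

theorem haar : ∃ m : C(G, ℂ) →L[ℂ] ℂ, m 1 = 1 ∧
    ∀ f : C(G, ℂ), ∀ a, (∀ x, f (a * x) = -f x) → m f = 0 := by
  borelize G
  let μ : Measure G := Measure.haarMeasure ⊤
  haveI : IsProbabilityMeasure μ := ⟨by simpa using Measure.haarMeasure_self (K₀ := (⊤ : TopologicalSpace.PositiveCompacts G))⟩
  have i : ∀ f : C(G, ℂ), Integrable f μ := fun f =>
    f.continuous.integrable_of_hasCompactSupport (HasCompactSupport.of_compactSpace f)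
  refine ⟨LinearMap.mkContinuous ⟨⟨fun f => ∫ x, f x ∂μ, fun f g => integral_add (i f) (i g)⟩,
    fun c f => integral_smul c f⟩ 1 fun f => ?_, by simp, fun f a h => ?_⟩
  · simpa using norm_integral_le_of_norm_le_const (μ := μ) (Filter.Eventually.of_forall f.norm_coe_le_norm)
  · have := integral_mul_left_eq_self (μ := μ) f a
    simp only [h, integral_neg] at this
    exact self_eq_neg.1 this.symm

theorem notFG : ¬ FinGen J := by
  rintro ⟨n, ν, hν, h⟩
  obtain ⟨m, m1, m2⟩ := haar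
  have o1 : ∀ k S, S ≠ {k} → m (r k * w S) = 0 := fun k S hS => by
    have : ∃ j, r k (Pi.mulSingle j (-1)) * w S (Pi.mulSingle j (-1)) = -1 := by
      by_cases hk : k ∈ S
      · obtain ⟨j, hj, jk⟩ : ∃ j ∈ S, j ≠ k := by
          by_contra! hn; exact hS (eq_singleton_iff_unique_mem.2 ⟨hk, hn⟩)
        exact ⟨j, by simp [w, r_s, hj, jk.symm]⟩
      · exact ⟨k, by simp [w, r_s, hk]⟩
    obtain ⟨j, hj⟩ := this
    exact m2 _ (Pi.mulSingle j (-1)) fun x => by
      simp only [ContinuousMap.mul_apply, r_mul, w_mul]; rw [mul_mul_mul_comm, hj]; ring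
  have o2 : ∀ k, m (r k * w {k}) = 1 := fun k => by
    rw [← m1]; congr 1; ext x; rcases r_pm k x with h | h <;> simp [w, h]
  choose s hs using fun k : ℕ => small hν (show (0 : ℝ) < (1 / 2) ^ k * (1 / 2) ^ k by positivity)
  have sm : Summable fun k => (((1 / 2) ^ k : ℝ) : ℂ) • r (s k) :=
    .of_norm_bounded summable_geometric_two fun k => by
      rw [norm_smul, Complex.norm_real, Real.norm_of_nonneg (by positivity)]
      exact mul_le_of_le_one_right (by positivity) (r_le _)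
  let ρ : M G := m.comp (ContinuousLinearMap.mul ℂ _ (∑' k, (((1 / 2) ^ k : ℝ) : ℂ) • r (s k)))
  have hρ : ∀ S, HasSum (fun k => (((1 / 2) ^ k : ℝ) : ℂ) * m (r (s k) * w S)) (ρ (w S)) := fun S => by
    have := (sm.hasSum.mul_right (w S)).mapL m
    simp only [smul_mul_assoc, map_smul, smul_eq_mul] at this
    exact this
  obtain ⟨μ, hμ⟩ := h ρ fun S hS => (hρ S).unique (by
    have : ∀ k, m (r (s k) * w S) = 0 := fun k => o1 _ S fun e => hS (by simp [e])
    simpa only [this, mul_zero] using hasSum_zero)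
  choose C C0 hC using fun i => bd (μ i)
  obtain ⟨k, hk⟩ := exists_pow_lt_of_lt_one (show 0 < 1 / (∑ i, C i + 1) by
    have := sum_nonneg fun i (_ : i ∈ univ) => C0 i; positivity) (show (1 / 2 : ℝ) < 1 by norm_num)
  have lo : (1 / 2) ^ k ≤ (ρ (w {s k})).re := by
    refine le_trans ?_ (le_hasSum ((hρ {s k}).mapL reCLM) k fun j _ => ?_)
    · simp only [o2, mul_one, reCLM_apply, ofReal_re, le_refl]
    · by_cases e : s k = s j
      · simp only [e, o2, mul_one, reCLM_apply, ofReal_re]; positivity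
      · simp [o1 _ _ (singleton_injective.ne e)]
  have hi : ‖ρ (w {s k})‖ ≤ (∑ i, C i + 1) * ∑ i, ‖ν i (r (s k))‖ := by
    rw [hμ, mul_sum]
    refine norm_sum_le_of_le _ fun i _ => ?_
    rw [conv_w, norm_mul, w, prod_singleton]
    gcongr
    have := single_le_sum (fun i _ => C0 i) (mem_univ i)
    nlinarith [hC i (r (s k)), mul_le_mul_of_nonneg_left (r_le (s k)) (C0 i)]
  have p : 0 < ∑ i, C i + 1 := by have := sum_nonneg fun i (_ : i ∈ univ) => C0 i; positivity
  rw [lt_div_iff₀ p] at hk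
  have := mul_lt_mul_of_pos_left (hs k) p
  have q : (0 : ℝ) < (1 / 2) ^ k := by positivity
  nlinarith [re_le_norm (ρ (w {s k}))]

theorem main : ∃ (G : Type) (_ : CommGroup G) (_ : TopologicalSpace G) (_ : IsTopologicalGroup G)
    (_ : CompactSpace G), T2Space G ∧ ∃ J : Set (M G), LeftIdeal J ∧ IsClosed J ∧ ¬ FinGen J :=
  ⟨G, inferInstance, inferInstance, inferInstance, inferInstance, inferInstance, J, idealJ, closedJ, notFG⟩

end Pool.Agent.H95.MeasAlg
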