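import Mathlib

namespace Pool.Agent.H95.MeasAlg

variable {G : Type} [Group G] [TopologicalSpace G] [IsTopologicalGroup G] [CompactSpace G]

/-- the measure algebra of a compact group as the dual of `C(G)`, with the weak-star topology -/
abbrev M (G : Type) [TopologicalSpace G] : Type := WeakDual ℂ C(G, ℂ)

/-- the convolution of `μ` and `ν` applied to `f`: integrate `f (x y)` in `y` against `ν`,
then in `x` against `μ` -/
noncomputable def conv (μ ν : M G) (f : C(G, ℂ)) : ℂ :=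
  μ ((⟨ν, map_continuous ν⟩ : C(C(G, ℂ), ℂ)).comp
    (f.comp ⟨fun p : G × G => p.1 * p.2, continuous_mul⟩).curry)

def LeftIdeal (J : Set (M G)) : Prop :=
  0 ∈ J ∧ (∀ μ ∈ J, ∀ ν ∈ J, μ + ν ∈ J) ∧ ∀ μ, ∀ ν ∈ J, ∀ ρ : M G, (∀ f, ρ f = conv μ ν f) → ρ ∈ J

def FinGen (J : Set (M G)) : Prop :=
  ∃ (n : ℕ) (ν : Fin n → M G), (∀ i, ν i ∈ J) ∧
    ∀ ρ ∈ J, ∃ μ : Fin n → M G, ∀ f, ρ f = ∑ i, conv (μ i) (ν i) f

end Pool.Agent.H95.MeasAlg
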