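import Pool.Agent.H95.MiniDefs

set_option autoImplicit false
open MeasureTheory Real Finset

namespace Pool.Agent.H95.Mini
open Pool.Agent.H95.MiniDefs

noncomputable def aa (m : ℕ) (t : ℝ) (j : ℤ) : ℂ :=
  (if j = 0 then 1 else 0) - if (m : ℤ) ∣ j then (t : ℂ) else 0

theorem block {ι : Type*} (F : Finset ι) (x : ι → ℂ) {t : ℝ} (ht : 0 ≤ t) (h : F.card * t ≤ 2) :
    ∑ j ∈ F, ‖x j - t * ∑ k ∈ F, x k‖ ^ 2 ≤ ∑ j ∈ F, ‖x j‖ ^ 2 := by
  set S := ∑ k ∈ F, x k with hS
  have e : ∀ j, ‖x j - t * S‖ ^ 2 = ‖x j‖ ^ 2 - 2 * t * ((x j).re * S.re + (x j).im * S.im) +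
      t ^ 2 * (S.re * S.re + S.im * S.im) := fun j => by
    simp only [Complex.sq_norm, Complex.normSq_apply, Complex.sub_re, Complex.sub_im,
      Complex.re_ofReal_mul, Complex.im_ofReal_mul]
    ring
  simp only [e, sum_add_distrib, sum_sub_distrib, ← mul_sum, ← sum_mul, sum_const, nsmul_eq_mul]
  rw [← Complex.re_sum, ← Complex.im_sum, ← hS]
  have h0 : 0 ≤ t * (S.re * S.re + S.im * S.im) :=
    mul_nonneg ht (add_nonneg (mul_self_nonneg _) (mul_self_nonneg _))
  nlinarith

theorem norm_le {N m : ℕ} {t : ℝ} (ht : 0 ≤ t) (h : ((N / m + 1 : ℕ) : ℝ) * t ≤ 2) :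
    specNorm (toep N (aa m t)) ≤ 1 := by
  refine csInf_le ⟨0, fun c hc => hc.1⟩ ⟨zero_le_one, fun x => ?_⟩
  let r : Fin (N + 1) → ℕ := fun j => j % m
  have e : ∀ j, (toep N (aa m t)).mulVec x j = x j - t * ∑ k ∈ univ.filter (r · = r j), x k := by
    intro j
    simp only [Matrix.mulVec, dotProduct, toep, Matrix.of_apply, aa, sub_mul, sum_sub_distrib,
      sub_eq_zero, Nat.cast_inj, Fin.val_inj, ite_mul, one_mul, zero_mul, sum_ite_eq, mem_univ,
      if_true, mul_sum, sum_filter, mul_ite, mul_zero]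
    congr 1
    refine sum_congr rfl fun k _ => if_congr ?_ rfl rfl
    exact (Nat.modEq_iff_dvd (n := m) (a := k) (b := j)).symm
  rw [one_pow, one_mul, ← sum_fiberwise_of_maps_to (t := univ.image r) (g := r)
    (fun j _ => mem_image_of_mem _ (mem_univ j)), ← sum_fiberwise_of_maps_to (t := univ.image r)
    (g := r) (fun j _ => mem_image_of_mem _ (mem_univ j))]
  refine sum_le_sum fun s _ => ?_
  refine le_trans (le_of_eq (sum_congr rfl fun j hj => ?_)) (block _ x ht ?_)
  · rw [e, (mem_filter.1 hj).2]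
  · refine le_trans (mul_le_mul_of_nonneg_right ?_ ht) h
    have : #(univ.filter (r · = s)) ≤ #(range (N / m + 1)) := by
      refine card_le_card_of_injOn (fun j => (j : ℕ) / m) (fun j _ => ?_) fun j hj k hk hjk => ?_
      · simpa using Nat.lt_succ_of_le (Nat.div_le_div_right (Nat.le_of_lt_succ j.2))
      · have h1 : (j : ℕ) % m = k % m :=
          (mem_filter.1 (mem_coe.1 hj)).2.trans (mem_filter.1 (mem_coe.1 hk)).2.symm
        have h2 : (j : ℕ) / m = k / m := hjk
        exact Fin.ext (by rw [← Nat.div_add_mod j m, h1, h2, Nat.div_add_mod])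
    exact_mod_cast this.trans_eq (card_range _)

theorem abs_int {p q F : ℝ → ℝ} {α : ℝ} (h0 : 0 ≤ α) (h1 : α ≤ π) (hp : Continuous p)
    (hF : ∀ x, HasDerivAt F (p x) x) (hq : ∀ x, 0 ≤ q x) (e : ∀ x, p x = (cos x - cos α) * q x) :
    ∫ x in (-π)..π, |p x| = 2 * (F α - F (-α)) - (F π - F (-π)) := by
  have hi : ∀ a b, IntervalIntegrable (fun x => |p x|) volume a b := fun a b =>
    hp.abs.intervalIntegrable a b
  have ft : ∀ a b, ∫ x in a..b, p x = F b - F a := fun a b =>
    intervalIntegral.integral_eq_sub_of_hasDerivAt (fun x _ => hF x) (hp.intervalIntegrable a b)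
  have neg : ∀ x, α ≤ |x| → |x| ≤ π → |p x| = -p x := fun x a b => abs_of_nonpos (by
    rw [e, ← cos_abs x]
    exact mul_nonpos_of_nonpos_of_nonneg
      (sub_nonpos.2 (cos_le_cos_of_nonneg_of_le_pi h0 b a)) (hq x))
  rw [← intervalIntegral.integral_add_adjacent_intervals (hi (-π) (-α)) (hi (-α) π),
    ← intervalIntegral.integral_add_adjacent_intervals (hi (-α) α) (hi α π),
    intervalIntegral.integral_congr (a := -π) (g := fun x => -p x),
    intervalIntegral.integral_congr (a := -α) (g := fun x => p x),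
    intervalIntegral.integral_congr (a := α) (f := fun x => |p x|) (g := fun x => -p x),
    intervalIntegral.integral_neg, intervalIntegral.integral_neg, ft, ft, ft]
  · ring
  · intro x hx
    rw [Set.uIcc_of_le h1] at hx
    exact neg x (hx.1.trans (le_abs_self x)) (abs_le.2 ⟨by linarith [hx.1], hx.2⟩)
  · intro x hx
    rw [Set.uIcc_of_le (by linarith)] at hx
    refine abs_of_nonneg ?_
    rw [e, ← cos_abs x]
    exact mul_nonneg (sub_nonneg.2 (cos_le_cos_of_nonneg_of_le_pi (abs_nonneg x) h1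
      (abs_le.2 hx))) (hq x)
  · intro x hx
    rw [Set.uIcc_of_le (by linarith)] at hx
    exact neg x (by linarith [neg_le_abs x, hx.2]) (abs_le.2 ⟨hx.1, by linarith [hx.2]⟩)

theorem scale {p : ℝ → ℝ} (hp : Continuous p) (hper : Function.Periodic p (2 * π)) {m : ℕ}
    (hm : 0 < m) : ∫ x, |p (m * x)| ∂mT = ∫ x in (-π)..π, |p x| := by
  have hm' : (m : ℝ) ≠ 0 := by positivity
  have hper2 : Function.Periodic (fun x => |p x|) (2 * π) := fun x => by simp only [hper x]
  rw [mT, ← intervalIntegral.integral_of_le (by linarith [pi_pos]),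
    intervalIntegral.integral_comp_mul_left (fun x => |p x|) hm',
    show (m : ℝ) * π = m * (-π) + (m : ℤ) • (2 * π) by simp; ring,
    hper2.intervalIntegral_add_zsmul_eq _ _ (fun a b => hp.abs.intervalIntegrable a b),
    hper2.intervalIntegral_add_eq _ (-π), show -π + 2 * π = π by ring]
  simp [hm']

instance : IsFiniteMeasure mT := by unfold mT; infer_instance

theorem intg {f : ℝ → ℂ} (hf : MemLp f ⊤ mT) {g : ℝ → ℂ} (hg : Continuous g) :
    Integrable (fun x => f x * g x) mT :=
  Integrable.mul_of_top_right (hg.integrableOn_Ioc) hf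

theorem cosint {N m : ℕ} {t : ℝ} {f : ℝ → ℂ} (hf : IsSymbol N (aa m t) f) (hm : 0 < m) {k : ℕ}
    (hk : 0 < k) (hN : k * m ≤ N) :
    ∫ x, f x * (cos (k * (m * x)) : ℝ) ∂mT = -(2 * π * t : ℝ) := by
  have h1 := hf.2 (k * m : ℕ) (by rw [Int.abs_natCast]; exact_mod_cast hN)
  have h2 := hf.2 (-(k * m : ℕ)) (by rw [abs_neg, Int.abs_natCast]; exact_mod_cast hN)
  have hp : (2 * π : ℂ) ≠ 0 := by simp [pi_ne_zero]
  rw [fc, inv_mul_eq_iff_eq_mul₀ hp] at h1 h2
  have h3 := integral_add (intg hf.1 (g := fun θ => Complex.exp (-(((k * m : ℕ) : ℤ) * θ * Complex.I)))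
    (by fun_prop)) (intg hf.1
    (g := fun θ => Complex.exp (-((-((k * m : ℕ) : ℤ) : ℤ) * θ * Complex.I))) (by fun_prop))
  rw [h1, h2] at h3
  have h4 : ∀ x : ℝ, f x * (cos (k * (m * x)) : ℝ) = (1 / 2 : ℂ) *
      (f x * Complex.exp (-(((k * m : ℕ) : ℤ) * x * Complex.I)) +
        f x * Complex.exp (-((-((k * m : ℕ) : ℤ) : ℤ) * x * Complex.I))) := fun x => by
    push_cast
    rw [Complex.cos]
    ring_nf
  simp only [h4]
  rw [integral_const_mul, h3]
  simp [aa, hk.ne', hm.ne']
  ring

theorem dual {N m : ℕ} {t : ℝ} {f : ℝ → ℂ} (hf : IsSymbol N (aa m t) f) {p : ℝ → ℝ}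
    (hp : Continuous p) (hper : Function.Periodic p (2 * π)) (hm : 0 < m) {s L : ℝ}
    (hs : ∫ x, f x * (p (m * x) : ℝ) ∂mT = -(s : ℝ)) (hL : ∫ x in (-π)..π, |p x| = L)
    (hL0 : 0 < L) : ENNReal.ofReal (s / L) ≤ eLpNorm f ⊤ mT := by
  have h2 : eLpNormEssSup f mT ≠ ⊤ := by simpa using hf.1.2.ne
  rw [eLpNorm_exponent_top]
  refine ENNReal.ofReal_le_of_le_toReal ?_
  rw [div_le_iff₀ hL0, ← hL, ← scale hp hper hm, ← integral_const_mul]
  have h1 : s ≤ ‖∫ x, f x * (p (m * x) : ℝ) ∂mT‖ := by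
    rw [hs, norm_neg, Complex.norm_real]; exact le_abs_self s
  refine h1.trans (norm_integral_le_of_norm_le (Integrable.const_mul ?_ _) ?_)
  · exact Continuous.integrableOn_Ioc (by fun_prop)
  · filter_upwards [ae_le_eLpNormEssSup (f := f) (μ := mT)] with x hx
    have := ENNReal.toReal_mono h2 hx
    rw [toReal_enorm] at this
    rw [norm_mul, Complex.norm_real, Real.norm_eq_abs]
    gcongr

theorem L2 : ∫ x in (-π)..π, |cos x + cos (2 * x)| = 3 * √3 := by
  rw [abs_int (α := π / 3) (q := fun x => 2 * (cos x + 1)) (F := fun x => sin x + sin (2 * x) / 2)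
    (by positivity) (by linarith [pi_pos]) (by fun_prop) (fun x => ?_)
    (fun x => by linarith [neg_one_le_cos x]) (fun x => by rw [cos_two_mul, cos_pi_div_three]; ring)]
  · simp only [sin_two_mul, sin_neg, cos_neg, sin_pi, sin_pi_div_three, cos_pi_div_three]; ring
  · exact ((hasDerivAt_sin x).add (((hasDerivAt_id x).const_mul 2).sin.div_const 2)).congr_deriv
      (by simp)

theorem L3 : ∫ x in (-π)..π, |cos x + √2 * cos (2 * x) + cos (3 * x)| = 14 * √2 / 3 := by
  have h2 : √2 * √2 = 2 := mul_self_sqrt (by norm_num)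
  rw [abs_int (α := π / 4) (q := fun x => (2 * cos x + √2) ^ 2)
    (F := fun x => sin x + √2 * (sin (2 * x) / 2) + sin (3 * x) / 3)
    (by positivity) (by linarith [pi_pos]) (by fun_prop) (fun x => ?_)
    (fun x => by positivity) (fun x => by
      rw [cos_two_mul, cos_three_mul, cos_pi_div_four]
      linear_combination (√2 / 2 + cos x) * h2)]
  · simp only [sin_two_mul, sin_three_mul, sin_neg, cos_neg, sin_pi, sin_pi_div_four,
      cos_pi_div_four]
    linear_combination (√2 / 3) * h2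
  · exact (((hasDerivAt_sin x).add ((((hasDerivAt_id x).const_mul 2).sin.div_const 2).const_mul
      √2)).add (((hasDerivAt_id x).const_mul 3).sin.div_const 3)).congr_deriv (by simp)

theorem main (N : ℕ) (hN : 2 ≤ N) : ∃ a : ℤ → ℂ, (∀ n, a (-n) = starRingEnd ℂ (a n)) ∧
    toep N a ≠ 0 ∧ ∃ C : ℝ, π / 2 * specNorm (toep N a) < C ∧
      ∀ f, IsSymbol N a f → ENNReal.ofReal C ≤ eLpNorm f ⊤ mT := by
  have herm : ∀ m t n, aa m t (-n) = starRingEnd ℂ (aa m t n) := fun m t n => by
    simp only [aa, neg_eq_zero, dvd_neg]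
    split_ifs <;> simp
  have nz : ∀ m (t : ℝ), t ≠ 1 → toep N (aa m t) ≠ 0 := fun m t ht h => by
    have h1 := congrFun (congrFun h 0) 0
    simp only [toep, aa, Matrix.of_apply, sub_self, if_true, dvd_zero, Matrix.zero_apply,
      sub_eq_zero] at h1
    exact ht (by exact_mod_cast h1.symm)
  have hp := pi_pos
  rcases eq_or_ne N 3 with rfl | h3
  · have s2 : 0 < √2 := by positivity
    have h2 : √2 * √2 = 2 := mul_self_sqrt (by norm_num)
    refine ⟨aa 1 (1 / 2), herm _ _, nz _ _ (by norm_num), π * (2 + √2) / (14 * √2 / 3), ?_,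
      fun f hf => dual hf (p := fun x => cos x + √2 * cos (2 * x) + cos (3 * x)) (by fun_prop)
        (fun x => ?_) one_pos ?_ L3 (by positivity)⟩
    · refine (mul_le_of_le_one_right (by positivity) (norm_le (by norm_num) (by norm_num))).trans_lt ?_
      rw [lt_div_iff₀ (by positivity)]
      have : √2 < 3 / 2 := by nlinarith
      nlinarith
    · simp only [mul_add]
      rw [cos_add_two_pi, show 2 * (2 * π) = (2 : ℕ) * (2 * π) by norm_num, cos_add_nat_mul_two_pi,
        show 3 * (2 * π) = (3 : ℕ) * (2 * π) by norm_num, cos_add_nat_mul_two_pi]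
    · have c1 := cosint hf one_pos (k := 1) one_pos (by norm_num)
      have c2 := cosint hf one_pos (k := 2) two_pos (by norm_num)
      have c3 := cosint hf one_pos (k := 3) three_pos (by norm_num)
      have i := fun k : ℕ => intg hf.1 (g := fun x => (cos (k * ((1 : ℕ) * x)) : ℝ)) (by fun_prop)
      have e := integral_add ((i 1).add ((i 2).const_mul (√2 : ℝ))) (i 3)
      simp only [Pi.add_apply] at e
      rw [integral_add (i 1) ((i 2).const_mul _), integral_const_mul, c1, c2, c3] at e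
      refine Eq.trans (integral_congr_ae (Filter.Eventually.of_forall fun x => ?_)) (e.trans ?_)
      · push_cast; ring_nf
      · push_cast; ring
  · have hm : 0 < N / 2 := by omega
    have hd : N / (N / 2) = 2 := by
      refine Nat.div_eq_of_lt_le (by omega) (by omega)
    have h2 : √3 * √3 = 3 := mul_self_sqrt (by norm_num)
    refine ⟨aa (N / 2) (2 / 3), herm _ _, nz _ _ (by norm_num), 8 * π / 3 / (3 * √3), ?_,
      fun f hf => dual hf (p := fun x => cos x + cos (2 * x)) (by fun_prop)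
        (fun x => ?_) hm ?_ L2 (by positivity)⟩
    · refine (mul_le_of_le_one_right (by positivity)
        (norm_le (by norm_num) (by rw [hd]; norm_num))).trans_lt ?_
      rw [lt_div_iff₀ (by positivity)]
      have : √3 < 16 / 9 := by nlinarith [sqrt_nonneg 3]
      nlinarith
    · simp only [mul_add]
      rw [cos_add_two_pi, show 2 * (2 * π) = (2 : ℕ) * (2 * π) by norm_num, cos_add_nat_mul_two_pi]
    · have c1 := cosint hf hm (k := 1) one_pos (by omega)
      have c2 := cosint hf hm (k := 2) two_pos (by omega)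
      have i := fun k : ℕ => intg hf.1 (g := fun x => (cos (k * ((N / 2 : ℕ) * x)) : ℝ)) (by fun_prop)
      have e := integral_add (i 1) (i 2)
      rw [c1, c2] at e
      refine Eq.trans (integral_congr_ae (Filter.Eventually.of_forall fun x => ?_)) (e.trans ?_)
      · generalize N / 2 = m
        push_cast; ring_nf
      · push_cast; ring

end Pool.Agent.H95.Mini
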