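import Mathlib

set_option autoImplicit false
open MeasureTheory

namespace Pool.Agent.H95.MiniDefs

/-- Lebesgue measure on `(-π, π]`, the circle being parametrised by `θ ↦ e^{iθ}`. -/
noncomputable def mT : Measure ℝ := volume.restrict (Set.Ioc (-Real.pi) Real.pi)

/-- Fourier coefficient for the normalised measure. -/
noncomputable def fc (f : ℝ → ℂ) (n : ℤ) : ℂ :=
  (2 * Real.pi : ℂ)⁻¹ * ∫ θ, f θ * Complex.exp (-(n * θ * Complex.I)) ∂mT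

/-- The Toeplitz matrix `(a_{j-k})`. -/
def toep (N : ℕ) (a : ℤ → ℂ) : Matrix (Fin (N + 1)) (Fin (N + 1)) ℂ :=
  Matrix.of fun j k => a ((j : ℤ) - (k : ℤ))

/-- The spectral norm. -/
noncomputable def specNorm {n : ℕ} (A : Matrix (Fin n) (Fin n) ℂ) : ℝ :=
  sInf {c : ℝ | 0 ≤ c ∧ ∀ x : Fin n → ℂ, ∑ j, ‖A.mulVec x j‖ ^ 2 ≤ c ^ 2 * ∑ j, ‖x j‖ ^ 2}

/-- `f` is an essentially bounded symbol of `(a_{j-k})_{j,k ≤ N}`. -/
def IsSymbol (N : ℕ) (a : ℤ → ℂ) (f : ℝ → ℂ) : Prop :=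
  MemLp f ⊤ mT ∧ ∀ n : ℤ, |n| ≤ N → fc f n = a n

end Pool.Agent.H95.MiniDefs
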