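import Mathlib

set_option autoImplicit false
open Matrix Polynomial

namespace Pool.Agent.H95.Moment

section Sm
variable {E : Type} [NormedAddCommGroup E] [NormedSpace ℝ E]

/-- entrywise continuously differentiable matrix functions -/
def Sm {m n : Type} (f : E → Matrix m n ℂ) : Prop := ∀ i j, ContDiff ℝ 1 (fun x => f x i j)

variable {l m n : Type}

theorem Sm.const (A : Matrix m n ℂ) : Sm (fun _ : E => A) := fun _ _ => contDiff_const

theorem Sm.add {f g : E → Matrix m n ℂ} (hf : Sm f) (hg : Sm g) : Sm (fun x => f x + g x) :=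
  fun i j => (hf i j).add (hg i j)

theorem Sm.sub {f g : E → Matrix m n ℂ} (hf : Sm f) (hg : Sm g) : Sm (fun x => f x - g x) :=
  fun i j => (hf i j).sub (hg i j)

theorem Sm.smul {c : E → ℂ} {g : E → Matrix m n ℂ} (hc : ContDiff ℝ 1 c) (hg : Sm g) :
    Sm (fun x => c x • g x) :=
  fun i j => hc.mul (hg i j)

theorem Sm.mul [Fintype m] {f : E → Matrix l m ℂ} {g : E → Matrix m n ℂ} (hf : Sm f) (hg : Sm g) :
    Sm (fun x => f x * g x) := fun i j => by
  simp only [Matrix.mul_apply]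
  exact ContDiff.sum fun k _ => (hf i k).mul (hg k j)

theorem Sm.ct {f : E → Matrix m n ℂ} (hf : Sm f) : Sm (fun x => (f x)ᴴ) := fun i j => by
  simp only [Matrix.conjTranspose_apply]
  exact Complex.conjCLE.contDiff.comp (hf j i)

theorem Sm.sum {ι : Type} (s : Finset ι) {f : ι → E → Matrix m n ℂ} (hf : ∀ i, Sm (f i)) :
    Sm (fun x => ∑ i ∈ s, f i x) := fun i j => by
  simp only [Matrix.sum_apply]
  exact ContDiff.sum fun k _ => hf k i j

theorem Sm.comp {F : Type} [NormedAddCommGroup F] [NormedSpace ℝ F] {f : E → Matrix m n ℂ}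
    (hf : Sm f) {g : F → E} (hg : ContDiff ℝ 1 g) : Sm (fun x => f (g x)) :=
  fun i j => (hf i j).comp hg

variable [Fintype n] [DecidableEq n]

theorem Sm.pow {f : E → Matrix n n ℂ} (hf : Sm f) (k : ℕ) : Sm (fun x => f x ^ k) := by
  induction k with
  | zero => simpa using Sm.const (1 : Matrix n n ℂ)
  | succ k ih => simpa [pow_succ] using ih.mul hf

theorem Sm.aeval {f : E → Matrix n n ℂ} (hf : Sm f) (p : ℂ[X]) :
    Sm (fun x => Polynomial.aeval (f x) p) := by
  simp only [Polynomial.aeval_eq_sum_range]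
  exact Sm.sum _ fun k => Sm.smul contDiff_const (hf.pow k)

theorem Sm.det {f : E → Matrix n n ℂ} (hf : Sm f) : ContDiff ℝ 1 (fun x => (f x).det) := by
  simp only [Matrix.det_apply']
  exact ContDiff.sum fun σ _ => contDiff_const.mul (contDiff_prod fun i _ => hf _ _)

theorem Sm.adj {f : E → Matrix n n ℂ} (hf : Sm f) : Sm (fun x => (f x).adjugate) := fun i j => by
  simp only [Matrix.adjugate_apply]
  apply Sm.det
  intro a b
  by_cases h : a = j
  · subst h; simp only [Matrix.updateRow_self]; exact contDiff_const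
  · simp only [Matrix.updateRow_ne h]; exact hf a b

end Sm

variable {ι κ : Type}

noncomputable def hr (B : Matrix ι ι ℂ) : Matrix ι ι ℂ := (1 / 2 : ℂ) • (B + Bᴴ)
noncomputable def hi (B : Matrix ι ι ℂ) : Matrix ι ι ℂ := (-Complex.I / 2) • (B - Bᴴ)
def cl (y : κ → ℂ) : Matrix κ Unit ℂ := Matrix.of fun i _ => y i

variable [Fintype ι] [DecidableEq ι] [Fintype κ] [DecidableEq κ]

noncomputable def val (p q : ℂ[X]) (P N : Matrix κ κ ℂ) (y : κ → ℂ) (t : ℂ) : ℂ :=
  ((Polynomial.aeval (t • P.adjugate * hr N) p * cl y)ᴴ * hi N *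
    (Polynomial.aeval (t • P.adjugate * hr N) q * cl y)) () ()

theorem intertwine (K : Matrix κ ι ℂ) (A : Matrix ι ι ℂ) (A' : Matrix κ κ ℂ)
    (h : K * A = A' * K) (p : ℂ[X]) :
    K * Polynomial.aeval A p = Polynomial.aeval A' p * K := by
  have hk : ∀ k : ℕ, K * A ^ k = A' ^ k * K := by
    intro k
    induction k with
    | zero => simp
    | succ k ih => rw [pow_succ, ← Matrix.mul_assoc, ih, Matrix.mul_assoc, h, pow_succ,
        Matrix.mul_assoc]
  simp only [Polynomial.aeval_eq_sum_range, Matrix.mul_sum, Matrix.sum_mul, Matrix.mul_smul,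
    Matrix.smul_mul, hk]

theorem val_eq (hc : Fintype.card ι = Fintype.card κ) (B : Matrix ι ι ℂ) (K : Matrix ι κ ℂ)
    (P N : Matrix κ κ ℂ) (hB : B = K * N * Kᴴ) (hP : K * P * Kᴴ = 1) (ξ : Matrix ι Unit ℂ) :
    ∃ y t, ∀ p q, val p q P N y t =
      ((Polynomial.aeval (hr B) p * ξ)ᴴ * hi B * (Polynomial.aeval (hr B) q * ξ)) () () := by
  have h1 : Kᴴ * (K * P) = 1 := (Matrix.mul_eq_one_comm_of_card_eq ι κ ℂ hc).1 hP
  have h2 : P⁻¹ = Kᴴ * K := Matrix.inv_eq_left_inv (by rw [Matrix.mul_assoc, h1])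
  have h3 : hr B = K * hr N * Kᴴ := by
    rw [hB]; simp [hr, Matrix.mul_add, Matrix.add_mul, Matrix.mul_assoc]
  have h4 : hi B = K * hi N * Kᴴ := by
    rw [hB]; simp [hi, Matrix.mul_sub, Matrix.sub_mul, Matrix.mul_assoc, smul_sub]
  refine ⟨fun i => (Kᴴ * ξ) i (), Ring.inverse P.det, fun p q => ?_⟩
  have h5 : cl (fun i => (Kᴴ * ξ) i ()) = Kᴴ * ξ := rfl
  have h6 : ∀ p : ℂ[X], Polynomial.aeval (Kᴴ * K * hr N) p * (Kᴴ * ξ)
      = Kᴴ * (Polynomial.aeval (hr B) p * ξ) := fun p => by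
    rw [← Matrix.mul_assoc, ← intertwine Kᴴ (hr B) _ (by rw [h3]; simp [Matrix.mul_assoc]),
      Matrix.mul_assoc]
  rw [val, ← Matrix.inv_def, h2, h5, h6, h6, h4]
  simp [Matrix.mul_assoc]

theorem dimH_le {E : Type} [NormedAddCommGroup E] [NormedSpace ℝ E] [FiniteDimensional ℝ E]
    {α : Type} [Fintype α] (P N : E → Matrix κ κ ℂ) (hP : Sm P) (hN : Sm N) (p : α → ℂ[X]) :
    dimH {X : Sym2 α → ℝ | ∃ θ y t, ∀ i j,
      X s(i, j) = (val (p i) (p j) (P θ) (N θ) y t).re} ≤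
      ((Module.finrank ℝ E + 2 * Fintype.card κ + 2 : ℕ) : ENNReal) := by
  let Φ : E × (κ → ℂ) × ℂ → (Sym2 α → ℝ) := fun w z =>
    (val (p z.out.1) (p z.out.2) (P w.1) (N w.1) w.2.1 w.2.2).re
  have hΦ : ContDiff ℝ 1 Φ := by
    rw [contDiff_pi]
    intro z
    apply Complex.reCLM.contDiff.comp
    have a1 : Sm (fun w : E × (κ → ℂ) × ℂ => P w.1) := hP.comp contDiff_fst
    have a2 : Sm (fun w : E × (κ → ℂ) × ℂ => N w.1) := hN.comp contDiff_fst
    have a3 : Sm (fun w : E × (κ → ℂ) × ℂ => cl w.2.1) := fun i j => by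
      simp only [cl, Matrix.of_apply]; fun_prop
    have a4 : Sm (fun w : E × (κ → ℂ) × ℂ => w.2.2 • (P w.1).adjugate * hr (N w.1)) :=
      (Sm.smul (by fun_prop) a1.adj).mul (Sm.smul contDiff_const (a2.add a2.ct))
    have a5 : Sm (fun w : E × (κ → ℂ) × ℂ => hi (N w.1)) :=
      Sm.smul contDiff_const (a2.sub a2.ct)
    exact ((((a4.aeval _).mul a3).ct.mul a5).mul ((a4.aeval _).mul a3)) () ()
  refine le_trans (dimH_mono ?_) (hΦ.dimH_range_le.trans (le_of_eq ?_))
  · rintro X ⟨θ, y, t, h⟩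
    refine ⟨(θ, y, t), funext fun z => ?_⟩
    have := h z.out.1 z.out.2
    rw [Sym2.mk, z.out_eq] at this
    exact this.symm
  · simp [Module.finrank_prod, Module.finrank_pi_fintype, Complex.finrank_real_complex]
    ring

theorem aeval_diag (d : ι → ℂ) (p : ℂ[X]) :
    Polynomial.aeval (Matrix.diagonal d) p = Matrix.diagonal (fun i => p.eval (d i)) := by
  simp only [Polynomial.aeval_eq_sum_range, Matrix.diagonal_pow, Polynomial.eval_eq_sum_range]
  ext i j
  by_cases h : i = j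
  · subst h; simp [Matrix.sum_apply]
  · simp [Matrix.sum_apply, Matrix.diagonal_apply_ne _ h]

/-- the test matrix -/
noncomputable def A {n : ℕ} (X : Sym2 (Fin n) → ℝ) : Matrix (Fin n) (Fin n) ℂ :=
  Matrix.diagonal (fun i : Fin n => ((i : ℕ) : ℂ)) +
    Matrix.of fun i j => Complex.I * (X s(i, j) : ℂ)

noncomputable def lag {n : ℕ} (i : Fin n) : ℂ[X] :=
  Lagrange.basis Finset.univ (fun i : Fin n => ((i : ℕ) : ℂ)) i

theorem lag_eval {n : ℕ} (i j : Fin n) :
    (lag i).eval ((j : ℕ) : ℂ) = if j = i then 1 else 0 := by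
  split_ifs with h
  · subst h
    refine Lagrange.eval_basis_self (v := fun i : Fin n => ((i : ℕ) : ℂ)) ?_ (Finset.mem_univ _)
    intro a _ b _ hab
    exact Fin.ext (by simpa using hab)
  · exact Lagrange.eval_basis_of_ne (v := fun i : Fin n => ((i : ℕ) : ℂ)) (Ne.symm h)
      (Finset.mem_univ _)

theorem A_transpose {n : ℕ} (X : Sym2 (Fin n) → ℝ) : (A X)ᵀ = A X := by
  ext i j
  simp [A, Matrix.diagonal_apply, Sym2.eq_swap, eq_comm]
  split_ifs with h
  · rw [h]
  · rfl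

theorem hr_A {n : ℕ} (X : Sym2 (Fin n) → ℝ) :
    hr (A X) = Matrix.diagonal (fun i : Fin n => ((i : ℕ) : ℂ)) := by
  ext i j
  by_cases h : i = j
  · subst h; simp [hr, A]; ring
  · simp [hr, A, Matrix.diagonal_apply_ne _ h , Sym2.eq_swap (a := j)]

theorem hi_A {n : ℕ} (X : Sym2 (Fin n) → ℝ) (i j : Fin n) : hi (A X) i j = X s(i, j) := by
  by_cases h : i = j
  · subst h; simp [hi, A]; ring_nf; simp
  · simp [hi, A, Matrix.diagonal_apply_ne _ h , Sym2.eq_swap (a := j)]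
    ring_nf; simp

end Pool.Agent.H95.Moment
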