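import Pool.Agent.H95.MuCDefs

namespace Pool.Agent.H95.MuC
open MeasureTheory Filter Topology Set Metric ENNReal

def UC (E : Type) [NormedAddCommGroup E] [NormedSpace ℝ E] (p : ℝ) : Prop :=
  ∀ ε > 0, ∃ c ≥ 0, ∀ a b : E, ‖a - b‖ ^ p ≤ ε * (‖a‖ ^ p + ‖b‖ ^ p) +
    c * ((‖a‖ ^ p + ‖b‖ ^ p) / 2 - ‖(1 / 2 : ℝ) • (a + b)‖ ^ p)

theorem strict {p : ℝ} (hp : 1 < p) {a b : ℝ} (h : a ≠ b) :
    ‖(1 / 2 : ℝ) • (a + b)‖ ^ p < (‖a‖ ^ p + ‖b‖ ^ p) / 2 := by
  by_cases e : |a| = |b|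
  · obtain rfl : a = -b := (abs_eq_abs.1 e).resolve_left h
    have : b ≠ 0 := fun e => by simp [e] at h
    simp [Real.zero_rpow (show p ≠ 0 by linarith)]; positivity
  · have := (strictConvexOn_rpow hp).2 (abs_nonneg a) (abs_nonneg b) e one_half_pos one_half_pos (add_halves 1)
    refine lt_of_le_of_lt (Real.rpow_le_rpow (norm_nonneg _) ?_ (by linarith)) (this.trans_eq ?_)
    · rw [norm_smul, ← smul_add, Real.norm_of_nonneg (by norm_num), smul_eq_mul]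
      gcongr; exact abs_add_le a b
    · simp; ring

theorem ucR {p : ℝ} (hp : 1 < p) : UC ℝ p := fun ε hε => by
  have p0 : 0 < p := by linarith
  have cn : Continuous fun x : ℝ => ‖x‖ ^ p := continuous_norm.rpow_const fun _ => Or.inr p0.le
  let D : ℝ × ℝ → ℝ := fun z => (‖z.1‖ ^ p + ‖z.2‖ ^ p) / 2 - ‖(1 / 2 : ℝ) • (z.1 + z.2)‖ ^ p
  have D0 : ∀ z, 0 ≤ D z := fun z => by
    rcases eq_or_ne z.1 z.2 with h | h
    · simp only [D, h]; rw [← two_smul ℝ z.2, smul_smul]; simp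
    · exact (sub_pos.2 (strict hp h)).le
  obtain ⟨m, m0, hm⟩ := ((isCompact_sphere (0 : ℝ × ℝ) 1).inter_right (t := {z | ε * (‖z.1‖ ^ p + ‖z.2‖ ^ p) ≤
    ‖z.1 - z.2‖ ^ p}) (isClosed_le (by fun_prop (disch := exact p0.le)) (by fun_prop (disch := exact p0.le)))).exists_forall_le' (f := D) (a := 0)
    (Continuous.continuousOn (by simp only [D]; fun_prop (disch := exact p0.le))) fun ⟨a, b⟩ ⟨h1, h2⟩ => sub_pos.2 (strict hp (by
      rintro (rfl : a = b)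
      have : 0 < ‖a‖ ^ p := by simp [Prod.norm_def] at h1; simp [h1]
      simp [Real.zero_rpow p0.ne'] at h2 this; nlinarith))
  have key : ∀ z ∈ sphere (0 : ℝ × ℝ) 1, ‖z.1 - z.2‖ ^ p ≤ ε * (‖z.1‖ ^ p + ‖z.2‖ ^ p) + 2 ^ p / m * D z :=
    fun z hz => by
      by_cases h : ε * (‖z.1‖ ^ p + ‖z.2‖ ^ p) ≤ ‖z.1 - z.2‖ ^ p
      · refine le_add_of_nonneg_of_le (by positivity) ?_
        rw [div_mul_eq_mul_div, mul_div_assoc]
        refine (Real.rpow_le_rpow (norm_nonneg _) ?_ p0.le).trans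
          (le_mul_of_one_le_right (by positivity) ((one_le_div m0).2 (hm z ⟨hz, h⟩)))
        linarith [norm_sub_le z.1 z.2, norm_fst_le z, norm_snd_le z, mem_sphere_zero_iff_norm.1 hz]
      · exact le_add_of_le_of_nonneg (not_le.1 h).le (by have := D0 z; positivity)
  refine ⟨2 ^ p / m, by positivity, fun a b => ?_⟩
  rcases eq_or_ne ((a, b) : ℝ × ℝ) 0 with h | h
  · obtain ⟨rfl, rfl⟩ := Prod.mk_eq_zero.1 h; simp [Real.zero_rpow p0.ne']
  have t0 := norm_pos_iff.2 h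
  have := key (‖((a, b) : ℝ × ℝ)‖⁻¹ • (a, b)) (by rw [mem_sphere_zero_iff_norm, norm_smul, norm_inv, norm_norm, inv_mul_cancel₀ t0.ne'])
  generalize ‖((a, b) : ℝ × ℝ)‖ = t at *
  simp only [D, Prod.smul_fst, Prod.smul_snd, ← smul_sub, ← smul_add, smul_comm (1 / 2 : ℝ) t⁻¹,
    norm_smul t⁻¹, Real.mul_rpow (norm_nonneg _) (norm_nonneg _)] at this
  refine le_of_mul_le_mul_left (this.trans_eq (by ring)) (Real.rpow_pos_of_pos (norm_pos_iff.2 (inv_pos.2 t0).ne') p)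

theorem uclp {p : ℝ≥0∞} [Fact (1 ≤ p)] (hp : 1 < p.toReal) : UC (lp (fun _ : ℕ => ℝ) p) p.toReal := fun ε hε => by
  obtain ⟨c, c0, h⟩ := ucR hp ε hε
  have s := fun x : lp (fun _ : ℕ => ℝ) p => lp.hasSum_norm (zero_lt_one.trans hp) x
  exact ⟨c, c0, fun a b => hasSum_le (fun i => h (a i) (b i)) (s (a - b)) ((((s a).add (s b)).mul_left ε).add
    (((((s a).add (s b)).div_const 2).sub (s ((1 / 2 : ℝ) • (a + b)))).mul_left c))⟩

theorem ucLp {Ω : Type} [MeasurableSpace Ω] (μ : Measure Ω) {p : ℝ≥0∞} [Fact (1 ≤ p)] (hp : 1 < p.toReal) :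
    UC (Lp ℝ p μ) p.toReal := fun ε hε => by
  obtain ⟨c, c0, h⟩ := ucR hp ε hε
  have p0 : p ≠ 0 := by rintro rfl; simp at hp; linarith
  have p1 : p ≠ ⊤ := by rintro rfl; simp at hp; linarith
  have i := fun x : Lp ℝ p μ => (Lp.memLp x).integrable_norm_rpow p0 p1
  have e : ∀ x : Lp ℝ p μ, ‖x‖ ^ p.toReal = ∫ t, ‖x t‖ ^ p.toReal ∂μ := fun x => by
    have : 0 ≤ ∫ t, ‖x t‖ ^ p.toReal ∂μ := integral_nonneg fun _ => by positivity
    rw [Lp.norm_def, (Lp.memLp x).eLpNorm_eq_integral_rpow_norm p0 p1, toReal_ofReal (by positivity),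
      Real.rpow_inv_rpow this (by linarith)]
  refine ⟨c, c0, fun a b => ?_⟩
  have j := (i a).add (i b)
  have k := (j.div_const 2).sub (i ((1 / 2 : ℝ) • (a + b)))
  refine (e _).trans_le ((integral_mono_ae (i _) ((j.const_mul ε).add (k.const_mul c)) ?_).trans_eq ?_)
  · filter_upwards [Lp.coeFn_sub a b, Lp.coeFn_smul (1 / 2 : ℝ) (a + b), Lp.coeFn_add a b] with t h1 h2 h3
    simp only [Pi.add_apply, Pi.sub_apply, h1, h2, h3, Pi.smul_apply]
    exact h _ _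
  · rw [integral_add' (j.const_mul ε) (k.const_mul c), integral_const_mul, integral_const_mul,
      integral_sub' (j.div_const 2) (i _), integral_div, integral_add' (i a) (i b), e, e, e]

theorem core {E : Type} [NormedAddCommGroup E] [NormedSpace ℝ E] [CompleteSpace E] {p : ℝ} (hp : 0 < p)
    (h : UC E p) : AllCompact E := fun A cl bd cv mc => by
  letI : MeasurableSpace A := borel A
  haveI : BorelSpace A := ⟨rfl⟩
  refine isCompact_iff_isSeqCompact.2 fun x hx => ?_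
  obtain ⟨R, hR⟩ := bd.exists_norm_le
  have sub : ∀ N, convexHull ℝ (x '' Ici N) ⊆ A := fun N => convexHull_min (by rintro _ ⟨n, -, rfl⟩; exact hx n) cv
  let d : ℕ → ℝ := fun N => sInf ((fun z => ‖z‖ ^ p) '' convexHull ℝ (x '' Ici N))
  have ne : ∀ N, ((fun z => ‖z‖ ^ p) '' convexHull ℝ (x '' Ici N)).Nonempty := fun N =>
    ⟨_, _, subset_convexHull _ _ ⟨N, self_mem_Ici, rfl⟩, rfl⟩
  have bb : ∀ N, BddBelow ((fun z => ‖z‖ ^ p) '' convexHull ℝ (x '' Ici N)) := fun N =>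
    ⟨0, by rintro _ ⟨z, -, rfl⟩; positivity⟩
  have mo : ∀ N M, N ≤ M → convexHull ℝ (x '' Ici M) ⊆ convexHull ℝ (x '' Ici N) := fun N M h =>
    convexHull_mono (image_mono (Ici_subset_Ici.2 h))
  have dm : Monotone d := fun N M h => csInf_le_csInf (bb N) (ne M) (image_mono (mo N M h))
  have Rp : ∀ z ∈ A, ‖z‖ ^ p ≤ R ^ p := fun z hz => Real.rpow_le_rpow (norm_nonneg _) (hR z hz) hp.le
  have db : BddAbove (range d) := ⟨R ^ p, by
    rintro _ ⟨N, rfl⟩; exact csInf_le_of_le (bb N) ⟨_, subset_convexHull _ _ ⟨N, self_mem_Ici, rfl⟩, rfl⟩ (Rp _ (hx N))⟩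
  choose y y1 y2 using fun N : ℕ => (show ∃ z ∈ convexHull ℝ (x '' Ici N), ‖z‖ ^ p < d N + 1 / (N + 1) by
    obtain ⟨_, ⟨z, hz, rfl⟩, h⟩ := exists_lt_of_csInf_lt (ne N) (lt_add_of_pos_right _ (Nat.one_div_pos_of_nat (n := N)))
    exact ⟨z, hz, h⟩)
  have t0 : Tendsto (fun N : ℕ => (⨆ i, d i) - d N + 1 / (N + 1)) atTop (𝓝 0) := by
    simpa using ((tendsto_atTop_ciSup dm db).const_sub (⨆ i, d i)).add (tendsto_one_div_add_atTop_nhds_zero_nat (𝕜 := ℝ))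
  have R0 : 0 ≤ R ^ p := le_trans (by positivity) (Rp _ (hx 0))
  obtain ⟨w, hw⟩ := cauchySeq_tendsto_of_complete (u := y) (Metric.cauchySeq_iff'.2 fun ε hε => by
    have e0 := Real.rpow_pos_of_pos hε p
    obtain ⟨c, c0, hc⟩ := h (ε ^ p / 2 / (2 * R ^ p + 1)) (by positivity)
    obtain ⟨N, hN⟩ := ((t0.const_mul c).eventually (gt_mem_nhds (show c * 0 < ε ^ p / 2 by simpa))).exists
    refine ⟨N, fun M hM => ?_⟩
    rw [dist_eq_norm, ← Real.rpow_lt_rpow_iff (norm_nonneg _) hε.le hp]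
    have h1 : d N ≤ ‖(1 / 2 : ℝ) • (y M + y N)‖ ^ p := csInf_le (bb N) ⟨_, smul_add (1 / 2 : ℝ) (y M) (y N) ▸
      convex_convexHull ℝ _ (mo N M hM (y1 M)) (y1 N) one_half_pos.le one_half_pos.le (add_halves 1), rfl⟩
    have h2 : ε ^ p / 2 / (2 * R ^ p + 1) * (‖y M‖ ^ p + ‖y N‖ ^ p) ≤ ε ^ p / 2 := by
      rw [div_mul_eq_mul_div, div_le_iff₀ (by positivity)]
      exact mul_le_mul_of_nonneg_left (by linarith [Rp _ (sub _ (y1 M)), Rp _ (sub _ (y1 N))]) (by positivity)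
    have h3 : (‖y M‖ ^ p + ‖y N‖ ^ p) / 2 - ‖(1 / 2 : ℝ) • (y M + y N)‖ ^ p ≤ (⨆ i, d i) - d N + 1 / (N + 1) := by
      linarith [y2 M, y2 N, le_ciSup db M, le_ciSup db N, Nat.one_div_le_one_div (α := ℝ) hM]
    linarith [hc (y M) (y N), mul_le_mul_of_nonneg_left h3 c0])
  have ex : ∀ N, ∃ μ : Measure A, IsProbabilityMeasure μ ∧ Integrable Subtype.val μ ∧
      (∀ᵐ z ∂μ, z.1 ∈ closure (x '' Ici N)) ∧ ∫ z, z.1 ∂μ = y N := fun N => by
    refine convexHull_min (t := {v | ∃ μ : Measure A, IsProbabilityMeasure μ ∧ Integrable Subtype.val μ ∧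
      (∀ᵐ z ∂μ, z.1 ∈ closure (x '' Ici N)) ∧ ∫ z, z.1 ∂μ = v}) ?_ ?_ (y1 N)
    · rintro _ ⟨n, hn, rfl⟩
      exact ⟨Measure.dirac ⟨x n, hx n⟩, inferInstance, integrable_dirac (by simp),
        by simpa using subset_closure (mem_image_of_mem x hn), by simp⟩
    · rintro _ ⟨μ, _, a1, a2, rfl⟩ _ ⟨ν, _, b1, b2, rfl⟩ s t hs ht e
      have i1 := a1.smul_measure (c := ENNReal.ofReal s) ofReal_ne_top
      have i2 := b1.smul_measure (c := ENNReal.ofReal t) ofReal_ne_top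
      exact ⟨ENNReal.ofReal s • μ + ENNReal.ofReal t • ν, ⟨by simp [← ENNReal.ofReal_add hs ht, e]⟩,
        i1.add_measure i2, ae_add_measure_iff.2 ⟨Measure.ae_smul_measure a2 _, Measure.ae_smul_measure b2 _⟩,
        by rw [integral_add_measure i1 i2]; simp [hs, ht]⟩
  choose μ m1 _ m2 m3 using ex
  have := mc _ (insert_subset (cl.mem_of_tendsto hw (Eventually.of_forall fun N => sub N (y1 N)))
    (range_subset_iff.2 fun N => sub N (y1 N))) hw.isCompact_insert_range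
  obtain ⟨ν, -, hν⟩ := this.ultrafilter_le_nhds ((Ultrafilter.of atTop).map fun N => ⟨μ N, m1 N⟩)
    (tendsto_principal.2 (Eventually.of_forall fun N => Or.inr ⟨N, (m3 N).symm⟩))
  have : ∀ᵐ z ∂ν.toMeasure, ∀ N, z.1 ∈ closure (x '' Ici N) := ae_all_iff.2 fun N => by
    have c : IsClosed {z : A | z.1 ∈ closure (x '' Ici N)} := isClosed_closure.preimage continuous_subtype_val
    refine (mem_ae_iff_prob_eq_one c.measurableSet).2 (le_antisymm prob_le_one ?_)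
    refine le_trans (le_limsup_of_frequently_le' (Eventually.frequently ?_))
      (ProbabilityMeasure.limsup_measure_closed_le_of_tendsto hν c)
    filter_upwards [Ultrafilter.of_le atTop (eventually_ge_atTop N)] with M hM
    exact ((mem_ae_iff_prob_eq_one c.measurableSet).1 ((m2 M).mono fun z hz =>
      closure_mono (image_mono (Ici_subset_Ici.2 hM)) hz)).ge
  obtain ⟨z, hz⟩ := this.exists
  exact ⟨z, z.2, (mapClusterPt_atTop_iff_forall_mem_closure.2 hz).tendsto_subseq⟩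

theorem main (p : ℝ≥0∞) [Fact (1 ≤ p)] (h1 : 1 < p) (h2 : p < ⊤) :
    AllCompact (lp (fun _ : ℕ => ℝ) p) ∧ AllCompact (Lp ℝ p (volume : Measure unitInterval)) := by
  have : 1 < p.toReal := by simpa using (toReal_lt_toReal one_ne_top h2.ne).2 h1
  exact ⟨core (by linarith) (uclp this), core (by linarith) (ucLp _ this)⟩

end Pool.Agent.H95.MuC
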