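import Mathlib

namespace Pool.Agent.H95.MuC
open MeasureTheory

/-- `A` is mu-compact: the barycentre map on Borel probability measures on `A` (weak topology)
has compact preimages of compact subsets of `A` -/
def MuCompact {E : Type} [NormedAddCommGroup E] [NormedSpace ℝ E] (A : Set E) : Prop :=
  letI : MeasurableSpace A := borel A
  haveI : BorelSpace A := ⟨rfl⟩
  ∀ K ⊆ A, IsCompact K → IsCompact {μ : ProbabilityMeasure A | ∫ x, x.1 ∂μ.toMeasure ∈ K}

/-- every mu-compact closed bounded convex subset of `E` is norm-compact -/
def AllCompact (E : Type) [NormedAddCommGroup E] [NormedSpace ℝ E] : Prop :=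
  ∀ A : Set E, IsClosed A → Bornology.IsBounded A → Convex ℝ A → MuCompact A → IsCompact A

end Pool.Agent.H95.MuC
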