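import Pool.Agent.H95.NevZDefs

set_option autoImplicit false

namespace Pool.Agent.H95.NevZ

open Complex Polynomial Filter Topology Finset
open scoped ENNReal Real

lemma ord_poly (p : ℂ[X]) (hp : p ≠ 0) (z : ℂ) :
    meromorphicOrderAt (fun w => p.eval w) z = (p.roots.count z : ℤ) := by
  obtain ⟨q, e, h⟩ := exists_eq_pow_rootMultiplicity_mul_and_not_dvd p hp z
  rw [meromorphicOrderAt_eq_int_iff (p.differentiable.analyticAt z).meromorphicAt, count_roots]
  refine ⟨fun w => q.eval w, q.differentiable.analyticAt z, mt dvd_iff_isRoot.2 h,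
    Eventually.of_forall fun w => ?_⟩
  conv_lhs => rw [e]
  simp

open Classical in
lemma tsum_count (s : Multiset ℂ) (U : Set ℂ) :
    ∑' z : U, (s.count z.1 : ℝ≥0∞) ≤ (s.filter (· ∈ U)).card := by
  induction s using Multiset.induction_on with
  | empty => simp
  | cons a s ih =>
    simp only [Multiset.count_cons, Nat.cast_add, ENNReal.tsum_add, Multiset.filter_cons,
      Multiset.card_add]
    rw [add_comm]
    refine add_le_add ?_ ih
    split_ifs with h
    · rw [tsum_eq_single ⟨a, h⟩ fun b hb => by rw [if_neg fun c => hb (Subtype.ext c)]; simp]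
      simp
    · rw [ENNReal.tsum_eq_zero.2 fun b => by rw [if_neg fun c : b.1 = a => h (c ▸ b.2)]; simp]
      simp

lemma count_cos (θ : ℝ → ℝ) (hθ : Continuous θ) (u v : ℝ) (huv : u < v) (n : ℕ)
    (h : θ u + n * π < θ v) :
    ∃ T : Finset ℝ, T.card = n ∧ ∀ x ∈ T, u < x ∧ x < v ∧ Real.cos (θ x) = 0 := by
  set l : ℤ := ⌊(θ u - π / 2) / π⌋
  have p := Real.pi_pos
  have h1 : l * π ≤ θ u - π / 2 := (le_div_iff₀ p).1 (Int.floor_le _)
  have h2 : θ u - π / 2 < (l + 1) * π := (div_lt_iff₀ p).1 (Int.lt_floor_add_one _)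
  have : ∀ i : Fin n, ∃ x ∈ Set.Ioo u v, θ x = (l + 1 + (i : ℕ)) * π + π / 2 := fun i => by
    have : ((i : ℕ) : ℝ) + 1 ≤ n := by exact_mod_cast i.2
    have : (0 : ℝ) ≤ (i : ℕ) := by positivity
    exact intermediate_value_Ioo huv.le hθ.continuousOn ⟨by nlinarith, by nlinarith⟩
  choose x hx e using this
  refine ⟨univ.image x, ?_, fun y hy => ?_⟩
  · rw [card_image_of_injective _ fun i j c => ?_, card_fin]
    have := (e i).symm.trans (c ▸ e j)
    have := mul_right_cancel₀ p.ne' (add_right_cancel this)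
    exact Fin.ext (by exact_mod_cast add_left_cancel this)
  · obtain ⟨i, -, rfl⟩ := mem_image.1 hy
    refine ⟨(hx i).1, (hx i).2, Real.cos_eq_zero_iff.2 ⟨l + 1 + (i : ℕ), ?_⟩⟩
    rw [e]
    push_cast
    ring

lemma fac (t : ℝ) : (t : ℂ) - I = (√(1 + t ^ 2) : ℝ) * exp ((t.arctan - π / 2 : ℝ) * I) := by
  have : √(1 + t ^ 2) ≠ 0 := by positivity
  rw [exp_mul_I, ← ofReal_cos, ← ofReal_sin, Real.cos_sub_pi_div_two, Real.sin_sub_pi_div_two,
    Real.sin_arctan, Real.cos_arctan]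
  apply Complex.ext <;> simp only [sub_re, sub_im, mul_re, mul_im, add_re, add_im, ofReal_re,
    ofReal_im, I_re, I_im] <;> field_simp <;> ring

lemma im_pos (A B : ℂ) (h : ‖A‖ < ‖B‖) : 0 < (I * (B - A) / (B + A)).im := by
  have h0 : B + A ≠ 0 := fun c => by
    rw [eq_neg_of_add_eq_zero_left c, norm_neg] at h
    exact lt_irrefl _ h
  have h1 : normSq A < normSq B := by
    rw [normSq_eq_norm_sq, normSq_eq_norm_sq]
    gcongr
  rw [div_im, ← sub_div]
  refine div_pos ?_ (normSq_pos.2 h0)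
  simp only [normSq_apply] at h1
  simp
  nlinarith

lemma prod_lt (n : ℕ) (hn : 0 < n) (f g : ℕ → ℂ) (h : ∀ k, ‖f k‖ < ‖g k‖) :
    ‖∏ k ∈ range n, f k‖ < ‖∏ k ∈ range n, g k‖ := by
  rw [norm_prod, norm_prod]
  by_cases c : ∀ k ∈ range n, 0 < ‖f k‖
  · exact prod_lt_prod_of_nonempty c (fun k _ => h k) ⟨0, mem_range.2 hn⟩
  · simp only [not_forall, norm_pos_iff, not_not] at c
    obtain ⟨k, hk, c⟩ := c
    rw [prod_eq_zero (f := fun k => ‖f k‖) hk (norm_eq_zero.2 c)]
    exact prod_pos fun k _ => (norm_nonneg _).trans_lt (h k)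

section
variable (n : ℕ) (α : ℕ → ℝ) (ε : ℝ)

noncomputable def P : ℂ[X] := ∏ k ∈ range n, (X - C (α k + ε * I))

noncomputable def M (z : ℂ) : ℂ :=
  I * ((P n α (-ε)).eval z - (P n α ε).eval z) / ((P n α (-ε)).eval z + (P n α ε).eval z)

noncomputable def th (x : ℝ) : ℝ := ∑ k ∈ range n, (((x - α k) / ε).arctan - π / 2)

lemma evP (z : ℂ) : (P n α ε).eval z = ∏ k ∈ range n, (z - (α k + ε * I)) := by
  simp [P, eval_prod]

lemma P_ne : P n α ε ≠ 0 := (monic_prod_X_sub_C _ _).ne_zero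

variable {n ε}

lemma P_lt (hn : 0 < n) (z : ℂ) (hz : 0 < z.im * ε) :
    ‖(P n α ε).eval z‖ < ‖(P n α (-ε)).eval z‖ := by
  rw [evP, evP]
  refine prod_lt n hn _ _ fun k => lt_of_pow_lt_pow_left₀ 2 (norm_nonneg _) ?_
  rw [← normSq_eq_norm_sq, ← normSq_eq_norm_sq]
  simp [normSq_apply]
  nlinarith

lemma Q_ne (hn : 0 < n) (hε : 0 < ε) : P n α (-ε) + P n α ε ≠ 0 := fun c => by
  have := P_lt α hn I (by simpa using hε)
  rw [eq_neg_of_add_eq_zero_left c, eval_neg, norm_neg] at this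
  exact lt_irrefl _ this

lemma nev (hn : 0 < n) (hε : 0 < ε) : IsNev (M n α ε) := by
  refine ⟨fun z => ?_, fun z hz => im_pos _ _ (P_lt α hn z (mul_pos hz hε)), fun z hz => ?_⟩
  · have := fun p : ℂ[X] => p.differentiable.analyticAt z
    exact (analyticAt_const.mul ((this _).sub (this _))).meromorphicAt.div
      ((this _).add (this _)).meromorphicAt
  · have := im_pos _ _ (P_lt (ε := -ε) α hn z (by nlinarith))
    rw [neg_neg, ← neg_sub, mul_neg, neg_div, neg_im, add_comm] at this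
    exact neg_pos.1 this

lemma ord_div (p q : ℂ[X]) (hp : p ≠ 0) (hq : q ≠ 0) (z : ℂ) :
    meromorphicOrderAt (fun w => p.eval w / q.eval w) z =
      ((p.roots.count z - q.roots.count z : ℤ) : WithTop ℤ) := by
  have := fun p : ℂ[X] => (p.differentiable.analyticAt z).meromorphicAt
  rw [fun_meromorphicOrderAt_div (this p) (this q), ord_poly p hp, ord_poly q hq]
  rfl

open Classical in
lemma zeros_le (hn : 0 < n) (hε : 0 < ε) (U : Set ℂ) : zeros (fun z => M n α ε z - I) U ≤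
    ((range n).filter fun k => (α k + ε * I : ℂ) ∈ U).card := by
  have hc : (-2 * I : ℂ) ≠ 0 := by simp
  have : ∀ z, meromorphicOrderAt (fun z => M n α ε z - I) z = meromorphicOrderAt (fun w =>
      (C (-2 * I) * P n α ε).eval w / (P n α (-ε) + P n α ε).eval w) z := fun z => by
    refine meromorphicOrderAt_congr ?_
    filter_upwards [(meromorphicOrderAt_ne_top_iff_eventually_ne_zero
      ((P n α (-ε) + P n α ε).differentiable.analyticAt z).meromorphicAt).1
      (by rw [ord_poly _ (Q_ne α hn hε)]; simp)] with w hw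
    rw [eval_add] at hw
    rw [M, eval_add, eval_mul, eval_C]
    field_simp
    ring
  refine le_trans (ENNReal.tsum_le_tsum fun z => ?_)
    ((tsum_count (P n α ε).roots U).trans (le_of_eq ?_))
  · rw [this, ord_div _ _ (mul_ne_zero (C_ne_zero.2 hc) (P_ne _ _ _)) (Q_ne α hn hε),
      roots_C_mul _ hc, WithTop.map_coe]
    change ((_ : ℕ) : ℝ≥0∞) ≤ _
    exact Nat.cast_le.2 (by omega)
  · have := Multiset.map_map (fun a : ℂ => X - C a) (fun k => (α k + ε * I : ℂ)) (range n).val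
    rw [Function.comp_def] at this
    rw [P, prod_eq_multiset_prod, ← this, roots_multiset_prod_X_sub_C, Multiset.filter_map, Multiset.card_map]
    rfl

lemma N_ne (hn : 0 < n) (hε : 0 < ε) : C I * (P n α (-ε) - P n α ε) ≠ 0 :=
  mul_ne_zero (C_ne_zero.2 I_ne_zero) fun c => by
    have := P_lt α hn I (by simpa using hε)
    rw [sub_eq_zero.1 c] at this
    exact lt_irrefl _ this

lemma ordM (hn : 0 < n) (hε : 0 < ε) (z : ℂ) : meromorphicOrderAt (M n α ε) z =
    (((C I * (P n α (-ε) - P n α ε)).roots.count z -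
      (P n α (-ε) + P n α ε).roots.count z : ℤ) : WithTop ℤ) := by
  rw [← ord_div _ _ (N_ne α hn hε) (Q_ne α hn hε)]
  congr 1
  funext w
  simp [M]

lemma poles_fin (hn : 0 < n) (hε : 0 < ε) (U : Set ℂ) : poles (M n α ε) U ≠ ⊤ := by
  refine ne_top_of_le_ne_top (ENNReal.natCast_ne_top _) (le_trans
    (ENNReal.tsum_le_tsum fun z => ?_) (tsum_count (P n α (-ε) + P n α ε).roots U))
  rw [ordM α hn hε, WithTop.untop₀_coe]
  exact Nat.cast_le.2 (by omega)

lemma pole (hn : 0 < n) (hε : 0 < ε) (x : ℝ) (h : Real.cos (th n α ε x) = 0) :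
    1 ≤ (-(meromorphicOrderAt (M n α ε) x).untop₀).toNat := by
  have e : (P n α ε).eval (x : ℂ) = (∏ k ∈ range n, ε * √(1 + ((x - α k) / ε) ^ 2) : ℝ) *
      exp (th n α ε x * I) := by
    rw [evP, th, ofReal_sum, sum_mul, exp_sum, ofReal_prod, ← prod_mul_distrib]
    refine prod_congr rfl fun k _ => ?_
    have : (ε : ℂ) ≠ 0 := ofReal_ne_zero.2 hε.ne'
    rw [ofReal_mul, mul_assoc, ← fac]
    push_cast
    field_simp
    ring
  have e' : (P n α (-ε)).eval (x : ℂ) = (starRingEnd ℂ) ((P n α ε).eval (x : ℂ)) := by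
    simp [evP]
  have q : (P n α (-ε) + P n α ε).eval (x : ℂ) = 0 := by
    rw [eval_add, e', add_comm, add_conj, e, re_ofReal_mul, exp_ofReal_mul_I_re, h]
    simp
  have p : (P n α ε).eval (x : ℂ) ≠ 0 := by
    rw [evP]
    exact prod_ne_zero_iff.2 fun k _ c => by simpa [hε.ne'] using congrArg im c
  have r : ¬ (C I * (P n α (-ε) - P n α ε)).IsRoot x := fun c => p (by
    simp only [IsRoot, eval_mul, eval_C, eval_sub, eval_add] at c q
    linear_combination (1 / 2) * q + I / 2 * c -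
      (eval (x : ℂ) (P n α (-ε)) - eval (x : ℂ) (P n α ε)) / 2 * I_mul_I)
  have r1 := Multiset.count_eq_zero.2 (mt (mem_roots (N_ne α hn hε)).1 r)
  have r2 := Multiset.one_le_count_iff_mem.2 ((mem_roots (Q_ne α hn hε)).2 q)
  rw [ordM α hn hε, WithTop.untop₀_coe]
  omega

lemma poles_ge (hn : 0 < n) (hε : 0 < ε) (u v : ℝ) (huv : u < v) (c : ℕ) (S : Finset ℕ)
    (hS : ∀ k ∈ S, k < n ∧ α k ≤ v ∧ u + ε ≤ α k) (hc : 4 * c < S.card) (U : Set ℂ)
    (hU : seg u v ⊆ U) : (c : ℝ≥0∞) ≤ poles (M n α ε) U := by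
  have m := Real.arctan_strictMono.monotone
  have : (S.card : ℝ) * (π / 4) ≤ th n α ε v - th n α ε u := by
    rw [th, th, ← sum_sub_distrib, ← nsmul_eq_mul]
    refine (card_nsmul_le_sum S _ _ fun k hk => ?_).trans (sum_le_sum_of_subset_of_nonneg
      (fun k hk => mem_range.2 (hS k hk).1) fun k _ _ => ?_)
    · have h1 := m (div_nonneg (sub_nonneg.2 (hS k hk).2.1) hε.le)
      have h2 := m (show (u - α k) / ε ≤ -1 by rw [div_le_iff₀ hε]; linarith [(hS k hk).2.2])
      rw [Real.arctan_neg, Real.arctan_one, Real.arctan_zero] at *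
      linarith
    · have := m (show (u - α k) / ε ≤ (v - α k) / ε by gcongr)
      linarith
  have hc' : 4 * (c : ℝ) < S.card := by exact_mod_cast hc
  obtain ⟨T, hT, h⟩ := count_cos (th n α ε) (by unfold th; fun_prop) u v huv c
    (by nlinarith [Real.pi_pos])
  let f : T → U := fun x => ⟨(x.1 : ℂ), hU ⟨(h _ x.2).1, (h _ x.2).2.1, ofReal_im _⟩⟩
  have hf : Function.Injective f := fun x y c =>
    Subtype.ext (ofReal_injective (congrArg Subtype.val c))
  refine le_trans ?_ (ENNReal.tsum_comp_le_tsum_of_injective hf _)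
  rw [tsum_fintype, ← hT, ← Fintype.card_coe, ← card_univ, ← nsmul_one]
  exact card_nsmul_le_sum _ _ _ fun x _ => Nat.one_le_cast.2 (pole α hn hε x (h _ x.2).2.2)

lemma M_eq (hε : 0 < ε) (z : ℂ) (hz : 0 < z.im) : ∃ B : ℂ, M n α ε z = I * (1 - B) / (1 + B) ∧
    ‖B - 1‖ ≤ Real.exp (n * ε * (2 / z.im)) - 1 := by
  have h : ∀ k, z.im ≤ ‖z - (α k + (-ε : ℝ) * I)‖ := fun k =>
    le_trans (by simp [hε.le]) (im_le_norm _)
  have h0 : ∀ k, z - (α k + (-ε : ℝ) * I) ≠ 0 := fun k => norm_pos_iff.1 (hz.trans_le (h k))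
  have e : (P n α ε).eval z = (P n α (-ε)).eval z *
      ∏ k ∈ range n, (1 + -2 * ε * I / (z - (α k + (-ε : ℝ) * I))) := by
    rw [evP, evP, ← prod_mul_distrib]
    refine prod_congr rfl fun k _ => ?_
    rw [mul_add, mul_div_cancel₀ _ (h0 k)]
    push_cast
    ring
  have p : (P n α (-ε)).eval z ≠ 0 := by rw [evP]; exact prod_ne_zero_iff.2 fun k _ => h0 k
  refine ⟨_, by rw [M, e, ← mul_one_sub, ← mul_one_add, mul_left_comm, mul_div_mul_left _ _ p],
    (norm_prod_one_add_sub_one_le _ _).trans ?_⟩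
  gcongr
  refine (sum_le_card_nsmul _ _ (ε * (2 / z.im)) fun k _ => ?_).trans
    (by rw [card_range, nsmul_eq_mul, mul_assoc])
  rw [norm_div, ← mul_div_assoc]
  gcongr
  · simp [abs_of_pos hε, mul_comm]
  · exact h k

end

noncomputable def al (j k : ℕ) : ℝ := min (k / (j + 1 : ℕ)) 1

noncomputable def ep (j : ℕ) : ℝ := 1 / (j + 1) ^ 2

lemma ep_pos (j : ℕ) : 0 < ep j := by unfold ep; positivity

lemma ep_le (j : ℕ) : ep j ≤ 1 / (j + 1) := by
  unfold ep
  gcongr
  nlinarith [Nat.cast_nonneg (α := ℝ) j]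

theorem main : ∃ m : ℕ → ℂ → ℂ, (∀ j, IsNev (m j)) ∧
    (∀ u v : ℝ, 0 ≤ u → u < v → v ≤ 1 → Tendsto (fun j => poles (m j) (seg u v)) atTop (𝓝 ⊤)) ∧
    (∀ z : ℂ, 0 < z.im → Tendsto (fun j => m j z) atTop (𝓝 0)) ∧
    ∀ j : ℕ, poles (m j) box ≠ ⊤ ∧ zeros (fun z => m j z - I) box + j ≤ poles (m j) box := by
  have hn : ∀ j : ℕ, 0 < 10 * (j + 1) := fun j => by positivity
  refine ⟨fun j => M (10 * (j + 1)) (al j) (ep j), fun j => nev _ (hn j) (ep_pos j),
    fun u v hu huv hv => ?_, fun z hz => ?_, fun j => ⟨poles_fin _ (hn j) (ep_pos j) _, ?_⟩⟩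
  · refine ENNReal.tendsto_nhds_top_iff_nat.2 fun c => ?_
    filter_upwards [tendsto_natCast_atTop_atTop (R := ℝ).eventually_ge_atTop
      ((4 * c + 7) / (v - u))] with j hj
    rw [div_le_iff₀ (sub_pos.2 huv)] at hj
    have h0 : (0 : ℝ) < j + 1 := by positivity
    refine lt_of_lt_of_le (by exact_mod_cast c.lt_succ_self) (poles_ge _ (hn j) (ep_pos j) u v huv
      (c + 1) (Ico (⌈u * (j + 1)⌉₊ + 1) (⌈u * (j + 1)⌉₊ + 4 * c + 6)) (fun k hk => ?_)
      (by rw [Nat.card_Ico]; omega) _ subset_rfl)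
    have h1 := Nat.le_ceil (u * (j + 1))
    have h2 := Nat.ceil_lt_add_one (show 0 ≤ u * (j + 1) by positivity)
    have h3 : (⌈u * (j + 1)⌉₊ : ℝ) + 1 ≤ k := by exact_mod_cast (mem_Ico.1 hk).1
    have h4 : (k : ℝ) < ⌈u * (j + 1)⌉₊ + 4 * c + 6 := by exact_mod_cast (mem_Ico.1 hk).2
    have h5 : (k : ℝ) ≤ v * (j + 1) := by nlinarith
    have h6 : (k : ℝ) / (j + 1 : ℕ) ≤ v := by push_cast; rwa [div_le_iff₀ h0]
    rw [al, min_eq_left (h6.trans hv)]
    refine ⟨?_, h6, (add_le_add_right (ep_le j) u).trans ?_⟩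
    · have : (k : ℝ) < 10 * (j + 1) := by nlinarith
      exact_mod_cast this
    · push_cast
      rw [le_div_iff₀ h0, add_mul, one_div_mul_cancel h0.ne']
      linarith
  · choose B e hB using fun j => M_eq (n := 10 * (j + 1)) (al j) (ep_pos j) z hz
    have t : Tendsto (fun j : ℕ => ((10 * (j + 1) : ℕ) : ℝ) * ep j) atTop (𝓝 (10 * 0)) := by
      refine (tendsto_one_div_add_atTop_nhds_zero_nat.const_mul 10).congr fun j => ?_
      unfold ep
      push_cast
      field_simp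
    have t2 := ((Real.continuous_exp.tendsto _).comp (t.mul_const (2 / z.im))).sub_const 1
    simp only [mul_zero, zero_mul, Real.exp_zero, sub_self] at t2
    have t3 : Tendsto B atTop (𝓝 1) :=
      tendsto_iff_norm_sub_tendsto_zero.2 (squeeze_zero (fun _ => norm_nonneg _) hB t2)
    have := ((t3.const_sub 1).const_mul I).div (t3.const_add 1) (by norm_num)
    simp only [sub_self, mul_zero, zero_div] at this
    exact this.congr fun j => (e j).symm
  · classical
    have h0 : (0 : ℝ) < (j + 1 : ℕ) := by positivity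
    have a1 : ∀ k, j + 1 ≤ k → al j k = 1 := fun k hk =>
      min_eq_right ((one_le_div h0).2 (Nat.cast_le.2 hk))
    refine le_trans ?_ (poles_ge _ (hn j) (ep_pos j) 0 1 one_pos (2 * j + 1)
      (Ico (j + 1) (10 * (j + 1))) (fun k hk => ?_) (by rw [Nat.card_Ico]; omega) _
      fun z hz => ⟨hz.1, hz.2.1, by simp [hz.2.2]⟩)
    · refine (add_le_add_left (zeros_le _ (hn j) (ep_pos j) _) _).trans ?_
      have := card_le_card (t := range (j + 1))
        (s := (range (10 * (j + 1))).filter fun k => (al j k + ep j * I : ℂ) ∈ box) fun k hk => by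
          by_contra c
          have := (mem_filter.1 hk).2.2.1
          simp [a1 k (not_lt.1 (mt mem_range.2 c))] at this
      rw [card_range] at this
      exact_mod_cast (by omega)
    · rw [a1 k (mem_Ico.1 hk).1, zero_add]
      refine ⟨(mem_Ico.1 hk).2, le_rfl, (ep_le j).trans ?_⟩
      rw [div_le_one (by positivity)]
      linarith [Nat.cast_nonneg (α := ℝ) j]

end Pool.Agent.H95.NevZ
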