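import Mathlib

set_option autoImplicit false

namespace Pool.Agent.H95.NevZ

open scoped ENNReal

/-- Nevanlinna functions meromorphic on the plane. -/
def IsNev (m : ℂ → ℂ) : Prop :=
  Meromorphic m ∧ (∀ z : ℂ, 0 < z.im → 0 < (m z).im) ∧ ∀ z : ℂ, z.im < 0 → (m z).im < 0

/-- The number of zeros of `f` in `U`, with multiplicity. -/
noncomputable def zeros (f : ℂ → ℂ) (U : Set ℂ) : ℝ≥0∞ :=
  ∑' z : U, ENat.toENNReal ((meromorphicOrderAt f z).map Int.toNat)

/-- The number of poles of `f` in `U`, with multiplicity. -/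
noncomputable def poles (f : ℂ → ℂ) (U : Set ℂ) : ℝ≥0∞ :=
  ∑' z : U, ((-(meromorphicOrderAt f z).untop₀).toNat : ℝ≥0∞)

/-- The real interval `(u, v)`. -/
def seg (u v : ℝ) : Set ℂ := {z | u < z.re ∧ z.re < v ∧ z.im = 0}

/-- The open rectangle `(0, 1) × (-1, 1)`. -/
def box : Set ℂ := {z | 0 < z.re ∧ z.re < 1 ∧ |z.im| < 1}

end Pool.Agent.H95.NevZ
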