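import Pool.Agent.H95.NfDefs

set_option autoImplicit false

open Set CategoryTheory CategoryTheory.Limits TopologicalSpace Function Topology

namespace Pool.Agent.H95.Nf1

open Pool.Agent.H95.NfDefs

def T (X : Type) : Set (Fin 3 → X) := {x | ¬ Injective x}

theorem mem_T {X : Type} {x : Fin 3 → X} : x ∈ T X ↔ ∃ i j, i ≠ j ∧ x i = x j := by
  rw [T, mem_setOf_eq, Function.not_injective_iff]
  exact ⟨fun ⟨i, j, a, b⟩ => ⟨i, j, b, a⟩, fun ⟨i, j, a, b⟩ => ⟨i, j, b, a⟩⟩

instance (X : Comp) : CompactSpace (T X) := isCompact_iff_compactSpace.1 (IsClosed.isCompact (by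
  have : T X = ⋃ i, ⋃ j, ⋃ _ : i ≠ j, {x : Fin 3 → X | x i = x j} := by
    ext x; simp [mem_T]
  rw [this]
  exact isClosed_iUnion_of_finite fun i => isClosed_iUnion_of_finite fun j =>
    isClosed_iUnion_of_finite fun _ => isClosed_eq (continuous_apply i) (continuous_apply j)))

def tm {X Y : Type} (f : X → Y) (x : T X) : T Y := ⟨f ∘ x.1, fun h => x.2 h.of_comp⟩

def F : Comp ⥤ Comp where
  obj X := CompHaus.of (T X)
  map {X Y} f := CompHausLike.ofHom _ ⟨tm f, Continuous.subtype_mk (continuous_pi fun i =>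
    (ConcreteCategory.hom f).continuous.comp ((continuous_apply i).comp continuous_subtype_val)) _⟩
  map_id _ := rfl
  map_comp _ _ := rfl

theorem map_eq {X Y : Comp} (f : X ⟶ Y) : ⇑(F.map f) = tm f := rfl

theorem mem_range {X Y : Type} (f : X → Y) (y : T Y) :
    y ∈ range (tm f) ↔ ∀ i, y.1 i ∈ range f := by
  refine ⟨fun ⟨x, e⟩ i => ⟨x.1 i, e ▸ rfl⟩, fun h => ?_⟩
  have : Nonempty X := ⟨(h 0).choose⟩
  exact ⟨tm (invFun f) y, Subtype.ext (funext fun i => invFun_eq (h i))⟩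

theorem mem_FS (X : Comp) (Z : Closeds X) (y : T X) : y ∈ FS F X Z ↔ ∀ i, y.1 i ∈ Z :=
  (mem_range _ y).trans (forall_congr' fun i =>
    ⟨fun ⟨z, e⟩ => e ▸ z.2, fun h => ⟨⟨_, h⟩, rfl⟩⟩)

theorem cont (J : Type) [SmallCategory J] [IsCofiltered J] : PreservesLimitsOfShape J F := by
  refine ⟨fun {K} => ⟨fun {c} hc => ⟨isLimitOfReflects (forget Comp) (Nonempty.some ?_)⟩⟩⟩
  have h := (Types.isLimit_iff _).1 ⟨isLimitOfPreserves (forget Comp) hc⟩
  refine (Types.isLimit_iff _).2 fun s hs => ?_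
  have w : ∀ {j j' : J} (f : j ⟶ j') (i : Fin 3), K.map f ((s j).1 i) = (s j').1 i :=
    fun f i => congrFun (congrArg Subtype.val (hs f)) i
  choose x x1 x2 using fun i : Fin 3 => h (fun j => (s j).1 i) fun f => w f i
  have u : ∀ i i', (∀ j, (s j).1 i = (s j).1 i') → x i = x i' := fun i i' e =>
    x2 i' _ fun j => (x1 i j).trans (e j)
  refine ⟨⟨x, fun hx => ?_⟩, fun j => Subtype.ext (funext fun i => x1 i j), fun y hy =>
    Subtype.ext (funext fun i => x2 i _ fun j => congrFun (congrArg Subtype.val (hy j)) i)⟩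
  have : ∀ p : Fin 3 × Fin 3, ∃ j, (s j).1 p.1 = (s j).1 p.2 → p.1 = p.2 := fun p => by
    by_contra k
    push Not at k
    exact (k (IsCofiltered.nonempty (C := J)).some).2 (hx (u _ _ fun j => (k j).1))
  choose j hj using this
  classical
  obtain ⟨j0, h0⟩ := IsCofiltered.inf_objs_exists (Finset.univ.image j)
  refine (s j0).2 fun i i' e => hj (i, i') ?_
  obtain ⟨f⟩ := h0 (Finset.mem_image_of_mem j (Finset.mem_univ (i, i')))
  rw [← w f, ← w f]
  exact congrArg _ e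

theorem wt (X : Type) [TopologicalSpace X] [T0Space X] [Infinite X] : weight (T X) ≤ weight X := by
  obtain ⟨B, hB, e⟩ : weight X ∈ _ := csInf_mem (s := {c | ∃ B : Set (Set X),
    IsTopologicalBasis B ∧ Cardinal.mk B = c}) ⟨_, _, isTopologicalBasis_opens, rfl⟩
  have i : Infinite B := not_finite_iff_infinite.1 fun k =>
    not_injective_infinite_finite (α := X) (β := B → Prop) (fun x b => x ∈ b.1) fun x y h =>
      (hB.inseparable_iff.2 fun s hs => iff_of_eq (congrFun h ⟨s, hs⟩)).eq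
  have em : IsInducing fun x : T X => (x.1 0, x.1 1, x.1 2) := by
    have c : ∀ l, Continuous fun v : T X => v.1 l := fun l =>
      (continuous_apply l).comp continuous_subtype_val
    refine IsInducing.of_comp (g := fun p : X × X × X => ![p.1, p.2.1, p.2.2])
      ((c 0).prodMk ((c 1).prodMk (c 2))) (by fun_prop) ?_
    have : ((fun p : X × X × X => ![p.1, p.2.1, p.2.2]) ∘ fun x : T X => (x.1 0, x.1 1, x.1 2)) =
        Subtype.val := by
      ext x i; fin_cases i <;> rfl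
    rw [this]
    exact IsInducing.subtypeVal
  refine (csInf_le' (s := {c | ∃ B : Set (Set (T X)), IsTopologicalBasis B ∧ Cardinal.mk B = c})
    ⟨_, (hB.prod (hB.prod hB)).isInducing em, rfl⟩).trans ?_
  rw [← e]
  refine Cardinal.mk_image_le.trans (Cardinal.mk_image2_le.trans ?_)
  refine (mul_le_mul_right Cardinal.mk_image2_le _).trans ?_
  rw [Cardinal.mul_eq_self (Cardinal.aleph0_le_mk B), Cardinal.mul_eq_self (Cardinal.aleph0_le_mk B)]

theorem wt' (X : Comp) (h : Infinite X) : weight (F.obj X) ≤ weight X := by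
  have t : T0Space X.toTop := @T1Space.t0Space _ _ (@T2Space.t1Space _ _ X.is_hausdorff)
  have k := @wt X.toTop _ t h
  have e : weight (F.obj X) = weight (T X.toTop) := by
    unfold weight
    rfl
  exact e.trans_le k

theorem normal : Normal F := by
  refine ⟨fun f hf x y e => Subtype.ext (funext fun i => hf (congrFun (congrArg Subtype.val e) i)),
    fun f hf y => (mem_range f y).2 fun i => hf _, cont, fun X S => Set.ext fun y => ?_,
    fun X h => ⟨fun y => h.elim (y.1 0)⟩, fun X ⟨h⟩ => ⟨⟨⟨⟨fun _ => default,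
      mem_T.2 ⟨0, 1, by decide, rfl⟩⟩⟩, fun y => Subtype.ext (Subsingleton.elim _ _)⟩⟩, wt',
    fun f Z => Set.ext fun y => (mem_FS _ Z (tm f y)).trans
      (mem_FS _ (Z.preimage (ConcreteCategory.hom f).continuous) y).symm,
    fun g p q f e hf hg b x => Set.ext fun w => ⟨?_, fun hw => ?_⟩⟩
  · simp only [mem_iInter]
    refine (mem_FS X _ y).trans ?_
    simp only [Closeds.mem_sInf]
    exact ⟨fun h Z hZ => (mem_FS _ _ _).2 fun i => h i Z hZ,
      fun h i Z hZ => (mem_FS _ _ _).1 (h Z hZ) i⟩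
  · rintro ⟨u, rfl, rfl⟩
    exact Subtype.ext (funext fun i => (ConcreteCategory.congr_hom e (u.1 i)).symm)
  · have : ∀ i, ∃ u, p u = x.1 i ∧ g u = w.1 i := fun i =>
      (Set.ext_iff.1 (b (x.1 i)) (w.1 i)).2 (congrFun (congrArg Subtype.val hw) i)
    choose u u1 u2 using this
    exact ⟨⟨u, fun h => w.2 (funext u2 ▸ hg.comp h)⟩, Subtype.ext (funext u1),
      Subtype.ext (funext u2)⟩

theorem finitary : Finitary F := fun X _ => inferInstanceAs (Finite (T X))

theorem finDeg : FinDeg F := ⟨3, fun X a => by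
  obtain ⟨i, j, h, e⟩ := mem_T.1 a.2
  refine ⟨ConcreteCategory.ofHom (C := Comp) (⟨a.1, continuous_of_discreteTopology⟩ : C(Fin 3, X)),
    ⟨update id j i, mem_T.2 ⟨i, j, h, by simp [h]⟩⟩, Subtype.ext (funext fun l => ?_)⟩
  show a.1 (update id j i l) = a.1 l
  by_cases k : l = j <;> simp [k, e]⟩

theorem key {X Y : Type} [TopologicalSpace X] [TopologicalSpace Y] [T2Space Y] {f : X → Y}
    (hf : IsOpenMap f) {U : Set (T X)} (hU : IsOpen U) (a : T X) (ha : a ∈ U) :
    ∃ O : Set (T Y), IsOpen O ∧ O.Nonempty ∧ O ⊆ tm f '' U := by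
  obtain ⟨U', h1, rfl⟩ := isOpen_induced_iff.1 hU
  obtain ⟨W, w1, w2⟩ := isOpen_pi_iff'.1 h1 a.1 ha
  obtain ⟨i, j, h, e⟩ := mem_T.1 a.2
  obtain ⟨k, k1, k2, k3⟩ : ∃ k, i ≠ k ∧ j ≠ k ∧ ∀ l, l ≠ k → l = i ∨ l = j := by
    clear e; revert i j; decide
  have o1 := hf _ ((w1 i).1.inter (w1 j).1)
  have o2 := hf _ (w1 k).1
  obtain ⟨P, Q, p1, q1, ⟨p, hp⟩, ⟨q, hq⟩, p2, q2, d⟩ : ∃ P Q : Set Y, IsOpen P ∧ IsOpen Q ∧
      P.Nonempty ∧ Q.Nonempty ∧ P ⊆ f '' (W i ∩ W j) ∧ Q ⊆ f '' W k ∧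
      ((∀ p ∈ P, ∀ q ∈ Q, p ≠ q) ∨ ∀ p ∈ P, ∀ q ∈ Q, p = q) := by
    by_cases c : ∀ p ∈ f '' (W i ∩ W j), ∀ q ∈ f '' W k, p = q
    · exact ⟨_, _, o1, o2, ⟨_, _, ⟨(w1 i).2, e ▸ (w1 j).2⟩, rfl⟩, ⟨_, _, (w1 k).2, rfl⟩,
        subset_rfl, subset_rfl, Or.inr c⟩
    push Not at c
    obtain ⟨p, hp, q, hq, c⟩ := c
    obtain ⟨P, Q, a1, a2, a3, a4, a5⟩ := t2_separation c
    exact ⟨_, _, a1.inter o1, a2.inter o2, ⟨p, a3, hp⟩, ⟨q, a4, hq⟩, inter_subset_right,
      inter_subset_right, Or.inl fun p hp q hq e => disjoint_left.1 a5 hp.1 (e ▸ hq.1)⟩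
  have c : ∀ l, Continuous fun v : T Y => v.1 l := fun l =>
    (continuous_apply l).comp continuous_subtype_val
  refine ⟨{v | v.1 i ∈ P ∧ v.1 j ∈ P ∧ v.1 k ∈ Q}, (p1.preimage (c i)).inter
    ((p1.preimage (c j)).inter (q1.preimage (c k))), ⟨⟨update (fun _ => p) k q,
      mem_T.2 ⟨i, j, h, by simp [k1, k2]⟩⟩, by simp [k1, k2, hp, hq]⟩, fun v ⟨v1, v2, v3⟩ => ?_⟩
  have m : ∀ l, l ≠ k → v.1 l ∈ P := fun l hl => by rcases k3 l hl with rfl | rfl <;> assumption
  have ee : v.1 j = v.1 i := by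
    rcases d with d | d
    · obtain ⟨s, t, st, e⟩ := mem_T.1 v.2
      have s1 : s ≠ k := fun n => d _ (m t (n ▸ st.symm)) _ v3 (n ▸ e.symm)
      have t1 : t ≠ k := fun n => d _ (m s s1) _ v3 (n ▸ e)
      rcases k3 s s1 with rfl | rfl <;> rcases k3 t t1 with rfl | rfl <;> simp_all
    · rw [d _ v1 _ v3, d _ v2 _ v3]
  obtain ⟨x, hx, ex⟩ := p2 v1
  obtain ⟨y, hy, ey⟩ := q2 v3
  refine ⟨⟨update (fun _ => x) k y, mem_T.2 ⟨i, j, h, by simp [k1, k2]⟩⟩, w2 fun l _ => ?_,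
    Subtype.ext (funext fun l => ?_)⟩
  · by_cases n : l = k
    · simpa [n] using hy
    · rcases k3 l n with rfl | rfl <;> simp [n, hx.1, hx.2]
  · show f (update (fun _ => x) k y l) = v.1 l
    by_cases n : l = k
    · simpa [n] using ey
    · rcases k3 l n with rfl | rfl <;> simp [n, ex, ee]

theorem skeletal : Skeletal F := fun f hf _ A hA => by
  by_contra h
  obtain ⟨a, ha⟩ := nonempty_iff_ne_empty.2 h
  obtain ⟨O, o1, ⟨v, hv⟩, o2⟩ := key hf isOpen_interior a ha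
  have : O ⊆ closure A := fun w hw => by
    obtain ⟨u, hu, rfl⟩ := o2 hw
    exact (ConcreteCategory.hom (F.map f)).continuous.closure_preimage_subset A
      (interior_subset hu)
  exact Set.eq_empty_iff_forall_notMem.1 hA v (interior_maximal this o1 hv)

theorem notOpen : ¬ OpenF F := fun h => by
  have o := h (X := CompHaus.of (unitInterval × Bool)) (Y := CompHaus.of unitInterval)
    (CompHausLike.ofHom _ ⟨Prod.fst, continuous_fst⟩) isOpenMap_fst Prod.fst_surjective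
    {u | (u.1 0).2 = false ∧ (u.1 1).2 = false ∧ (u.1 2).2 = true} (by
      have c : ∀ l b, IsOpen {u : T (unitInterval × Bool) | (u.1 l).2 = b} := fun l b =>
        (isOpen_discrete {b}).preimage (continuous_snd.comp ((continuous_apply l).comp
          continuous_subtype_val))
      exact (c _ _).inter ((c _ _).inter (c _ _)))
  have c : Continuous fun t : unitInterval => (⟨![t, 0, 0], mem_T.2 ⟨1, 2, by decide, rfl⟩⟩ :
      T unitInterval) := Continuous.subtype_mk (by fun_prop) _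
  refine not_isOpen_singleton (0 : unitInterval) ?_
  have := o.preimage c
  refine (congrArg IsOpen (Set.ext fun t => ⟨?_, ?_⟩)).mp this
  · rintro ⟨u, ⟨u0, u1, u2⟩, e⟩
    have e0 : (u.1 0).1 = t := congrFun (congrArg Subtype.val e) 0
    have e1 : (u.1 1).1 = 0 := congrFun (congrArg Subtype.val e) 1
    obtain ⟨u, hu⟩ : T (unitInterval × Bool) := u
    change (u 0).2 = false at u0
    change (u 1).2 = false at u1
    change (u 2).2 = true at u2
    change (u 0).1 = t at e0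
    change (u 1).1 = 0 at e1
    clear e this o c h
    obtain ⟨i, j, n, k⟩ := mem_T.1 hu
    clear hu
    show t = 0
    fin_cases i <;> fin_cases j <;> simp_all
  · rintro rfl
    exact ⟨⟨![(0, false), (0, false), (0, true)], mem_T.2 ⟨0, 1, by decide, rfl⟩⟩,
      ⟨rfl, rfl, rfl⟩, Subtype.ext (funext fun l => by fin_cases l <;> rfl)⟩

theorem notSq : ∃ (X' Y' X Y : Comp) (g : X' ⟶ Y') (p : X' ⟶ X) (q : Y' ⟶ Y) (f : X ⟶ Y),
    Finite X' ∧ Finite Y' ∧ Finite X ∧ Finite Y ∧ Surjective g ∧ Surjective p ∧ Surjective q ∧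
    Surjective f ∧ p ≫ f = g ≫ q ∧ Bicomm g p q f ∧ SkelSq g p q f ∧
    ¬ Bicomm (F.map g) (F.map p) (F.map q) (F.map f) ∧
    ¬ SkelSq (F.map g) (F.map p) (F.map q) (F.map f) := by
  let a : T Bool := ⟨![false, false, true], mem_T.2 ⟨0, 1, by decide, rfl⟩⟩
  let b : T Bool := ⟨![false, true, true], mem_T.2 ⟨1, 2, by decide, rfl⟩⟩
  have k : ∀ u : T (Bool × Bool), tm Prod.fst u = a → tm Prod.snd u ≠ b := fun u e1 e2 => by
    have : u.1 = ![(false, false), (false, true), (true, true)] := funext fun l => Prod.ext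
      ((congrFun (congrArg Subtype.val e1) l).trans (by fin_cases l <;> rfl))
      ((congrFun (congrArg Subtype.val e2) l).trans (by fin_cases l <;> rfl))
    exact u.2 (by rw [this]; decide)
  have s : ∀ x y : T Unit, x = y := fun x y => Subtype.ext (Subsingleton.elim _ _)
  refine ⟨CompHaus.of (Bool × Bool), CompHaus.of Bool, CompHaus.of Bool, CompHaus.of Unit,
    CompHausLike.ofHom _ ⟨Prod.snd, continuous_snd⟩, CompHausLike.ofHom _ ⟨Prod.fst, continuous_fst⟩,
    CompHausLike.ofHom _ ⟨fun _ => (), continuous_const⟩,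
    CompHausLike.ofHom _ ⟨fun _ => (), continuous_const⟩, inferInstance, inferInstance,
    inferInstance, inferInstance, Prod.snd_surjective, Prod.fst_surjective, fun _ => ⟨true, rfl⟩,
    fun _ => ⟨true, rfl⟩, rfl, fun x => Set.ext fun y => ⟨fun _ => rfl, fun _ => ⟨(x, y), rfl, rfl⟩⟩,
    fun x U hU => ⟨univ, isOpen_univ, univ_nonempty, fun _ _ => ⟨x, mem_of_mem_nhds hU, rfl⟩,
      fun y _ => ⟨(x, y), (mem_of_mem_nhds hU : x ∈ U), rfl⟩⟩, fun h => ?_, fun h => ?_⟩
  · obtain ⟨u, u1, u2⟩ := (Set.ext_iff.1 (h a) b).2 (s _ _)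
    exact k u u1 u2
  · obtain ⟨V, -, ⟨v, hv⟩, -, h⟩ := h a {a} ((isOpen_discrete (α := T Bool) {a}).mem_nhds rfl)
    obtain ⟨u, u1, u2⟩ := h (a := b) (mem_preimage.2 ((congrArg (· ∈ V) (s v _)).mp hv))
    exact k u u1 u2

end Pool.Agent.H95.Nf1
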