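import Pool.Agent.H95.NfDefs

set_option autoImplicit false

open Set CategoryTheory CategoryTheory.Limits TopologicalSpace Function Topology

namespace Pool.Agent.H95.Nf2

open Pool.Agent.H95.NfDefs

instance (X : Comp) : T1Space X.toTop := @T2Space.t1Space _ _ X.is_hausdorff

theorem cts {X Y : Comp} (f : X ⟶ Y) : Continuous f := (ConcreteCategory.hom f).continuous

theorem cls {X Y : Comp} (f : X ⟶ Y) : IsClosedMap f := (cts f).isClosedMap

def mk {X Y : Comp} (f : X → Y) (h : Continuous f) : X ⟶ Y :=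
  ConcreteCategory.ofHom (C := Comp) (⟨f, h⟩ : C(X, Y))

theorem fc (F : Comp ⥤ Comp) {X Y Z W : Comp} {f : X ⟶ Y} {g : Y ⟶ Z} {f' : X ⟶ W} {g' : W ⟶ Z}
    (e : ∀ x, g (f x) = g' (f' x)) (a : F.obj X) : F.map g (F.map f a) = F.map g' (F.map f' a) := by
  have : f ≫ g = f' ≫ g' := ConcreteCategory.hom_ext _ _ e
  have := congrArg (fun k => F.map k a) this
  simpa using this

theorem fc' (F : Comp ⥤ Comp) {X Y Z : Comp} {f : X ⟶ Y} {g : Y ⟶ Z} {k : X ⟶ Z}
    (e : ∀ x, g (f x) = k x) (a : F.obj X) : F.map g (F.map f a) = F.map k a := by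
  simpa using fc F (f' := 𝟙 X) (g' := k) e a

abbrev D (X : Comp) (d : DiscreteQuotient X) : Comp := CompHaus.of d

instance fi (X : Comp) (d : DiscreteQuotient X) : Finite (D X d).toTop := inferInstanceAs (Finite d)

instance di (X : Comp) (d : DiscreteQuotient X) : DiscreteTopology (D X d).toTop :=
  inferInstanceAs (DiscreteTopology d)

def pr (X : Comp) (d : DiscreteQuotient X) : X ⟶ D X d := mk d.proj d.proj_continuous

def ol {X : Comp} {d d' : DiscreteQuotient X} (h : d ≤ d') : D X d ⟶ D X d' :=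
  mk (DiscreteQuotient.ofLE h) (DiscreteQuotient.ofLE_continuous h)

def K (X : Comp) : DiscreteQuotient X ⥤ Comp where
  obj := D X
  map h := ol h.le
  map_id _ := ConcreteCategory.hom_ext _ _ fun x => DiscreteQuotient.ofLE_refl_apply x
  map_comp f g := ConcreteCategory.hom_ext _ _ fun x =>
    (DiscreteQuotient.ofLE_ofLE f.le g.le x).symm

def cone (X : Comp) : Cone (K X) where
  pt := X
  π := ⟨pr X, fun _ _ _ => rfl⟩

theorem ol_surj {X : Comp} {d d' : DiscreteQuotient X} (h : d ≤ d') : Surjective (ol h) := fun y =>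
  let ⟨x, e⟩ := d'.proj_surjective y
  ⟨d.proj x, e⟩

def Sep (F : Comp ⥤ Comp) (X : Comp) : Prop := ∀ (U : Set (F.obj X)), IsOpen U → ∀ a ∈ U,
  ∃ d, ∀ d' ≤ d, ∃ V, IsOpen V ∧ F.map (pr X d') a ∈ V ∧ F.map (pr X d') ⁻¹' V ⊆ U

theorem sep (F : Comp ⥤ Comp) (X : Comp) [TotallyDisconnectedSpace X] [PreservesLimit (K X) F] :
    Sep F X := fun U hU a ha => by
  have l : IsLimit (cone X) := isLimitOfReflects (forget Comp) (Nonempty.some <|
    (Types.isLimit_iff _).2 fun s hs => by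
      obtain ⟨x, hx⟩ := DiscreteQuotient.exists_of_compat s fun A B h => hs (homOfLE h)
      exact ⟨x, hx, fun y hy => DiscreteQuotient.eq_of_forall_proj_eq (X := X) fun Q =>
        (hy Q).trans (hx Q).symm⟩)
  have m : ∀ d d', d' ≤ d → F.map (pr X d') ⁻¹' {F.map (pr X d') a} ⊆
      F.map (pr X d) ⁻¹' {F.map (pr X d) a} := fun d d' h b hb =>
    (fc' F (g := ol h) (fun _ => rfl) b).symm.trans
      ((congrArg (F.map (ol h)) hb).trans (fc' F (fun _ => rfl) a))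
  obtain ⟨d, hd⟩ := exists_subset_nhds_of_compactSpace
    (V := fun d => F.map (pr X d) ⁻¹' {F.map (pr X d) a})
    (fun d d' => ⟨d ⊓ d', m _ _ inf_le_left, m _ _ inf_le_right⟩)
    (fun d => isClosed_singleton.preimage (cts _)) (U := U) fun b hb => by
      have k : ∀ d, F.map (pr X d) b = F.map (pr X d) a := mem_iInter.1 hb
      have : b = a := by
        apply Concrete.isLimit_ext _ (isLimitOfPreserves F l) b a
        exact k
      exact hU.mem_nhds (this ▸ ha)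
  refine ⟨d, fun d' h => ⟨(F.map (pr X d') '' Uᶜ)ᶜ, (cls _ _ hU.isClosed_compl).isOpen_compl,
    fun ⟨b, b1, b2⟩ => b1 (hd (m _ _ h b2)), fun b hb => by_contra fun k => hb ⟨b, k, rfl⟩⟩⟩

def FSS (F : Comp ⥤ Comp) : Prop :=
  ∀ {X' Y' X Y : Comp} (g : X' ⟶ Y') (p : X' ⟶ X) (q : Y' ⟶ Y) (f : X ⟶ Y),
    Finite X' → Finite Y' → Finite X → Finite Y → Surjective g → Surjective p → Surjective q →
    Surjective f → p ≫ f = g ≫ q → SkelSq g p q f →
      SkelSq (F.map g) (F.map p) (F.map q) (F.map f)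

theorem fsk {F : Comp ⥤ Comp} (h : FSS F) {X Y : Comp} (f : X ⟶ Y) (hX : Finite X) (hY : Finite Y)
    (hf : Surjective f) {U : Set (F.obj X)} (hU : IsOpen U) (ne : U.Nonempty) :
    ∃ V, IsOpen V ∧ V.Nonempty ∧ V ⊆ F.map f '' U := by
  obtain ⟨a, ha⟩ := ne
  obtain ⟨V, v1, v2, v3, -⟩ := h f (𝟙 X) (𝟙 Y) f hX hY hX hY hf surjective_id surjective_id hf
    (by simp) (fun x U hU => ⟨f '' U, isOpen_discrete _, ⟨_, x, mem_of_mem_nhds hU, rfl⟩,
      subset_rfl, subset_rfl⟩) a U (hU.mem_nhds ha)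
  exact ⟨V, v1, v2, v3⟩

theorem zero {F : Comp ⥤ Comp} (h : FSS F)
    (epi : ∀ {X Y : Comp} (f : X ⟶ Y), Surjective f → Surjective (F.map f))
    {X Y : Comp} (sX : Sep F X) (sY : Sep F Y) (f : X ⟶ Y)
    (hf : ∀ A, IsClopen A → IsOpen (f '' A)) (fs : Surjective f)
    {U : Set (F.obj X)} (hU : IsOpen U) (ne : U.Nonempty) :
    ∃ O, IsOpen O ∧ O.Nonempty ∧ O ⊆ closure (F.map f '' U) := by
  obtain ⟨a, ha⟩ := ne
  obtain ⟨d0, h0⟩ := sX U hU a ha
  have cl : ∀ c : d0, IsClopen (f '' (d0.proj ⁻¹' {c})) := fun c =>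
    ⟨cls f _ (d0.isClosed_preimage _), hf _ (d0.isClopen_preimage _)⟩
  let e : DiscreteQuotient Y :=
    { r := fun y y' => ∀ c : d0, y ∈ f '' (d0.proj ⁻¹' {c}) ↔ y' ∈ f '' (d0.proj ⁻¹' {c})
      iseqv := ⟨fun _ _ => Iff.rfl, fun k c => (k c).symm, fun k l c => (k c).trans (l c)⟩
      isOpen_setOfPred_rel := fun y => by
        show IsOpen {y' | ∀ c : d0, y ∈ f '' (d0.proj ⁻¹' {c}) ↔ y' ∈ f '' (d0.proj ⁻¹' {c})}
        rw [setOf_forall]
        refine isOpen_iInter_of_finite fun c => ?_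
        by_cases k : y ∈ f '' (d0.proj ⁻¹' {c})
        · simp only [k, true_iff]; exact (cl c).2
        · simp only [k, false_iff]; exact (cl c).1.isOpen_compl }
  let φ : C(X, Y) := ConcreteCategory.hom f
  let d := d0 ⊓ e.comap φ
  let mp : ∀ (A : DiscreteQuotient X) (B : DiscreteQuotient Y), A ≤ B.comap φ → (D X A ⟶ D Y B) :=
    fun A B k => mk (DiscreteQuotient.map φ k) (DiscreteQuotient.map_continuous k)
  have ms : ∀ A B k, Surjective (mp A B k) := fun A B k y => by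
    obtain ⟨y, rfl⟩ := B.proj_surjective y
    obtain ⟨x, rfl⟩ := fs y
    exact ⟨A.proj x, rfl⟩
  obtain ⟨U1, u1, u2, u3⟩ := h0 d inf_le_left
  obtain ⟨W, w1, ⟨w, w2⟩, w3⟩ := fsk h (mp d e inf_le_right) (fi _ _) (fi _ _) (ms _ _ _)
    u1 ⟨_, u2⟩
  refine ⟨F.map (pr Y e) ⁻¹' W, w1.preimage (cts _), ?_, fun b hb => by_contra fun hb' => ?_⟩
  · obtain ⟨b, rfl⟩ := epi (pr Y e) e.proj_surjective w
    exact ⟨b, w2⟩
  obtain ⟨e1, k1⟩ := sY _ ((w1.preimage (cts (F.map (pr Y e)))).inter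
    isClosed_closure.isOpen_compl) b ⟨hb, hb'⟩
  obtain ⟨O, o1, o2, o3⟩ := k1 (e ⊓ e1) inf_le_right
  have le : e ⊓ e1 ≤ e := inf_le_left
  obtain ⟨W', x1, ⟨w', x2⟩, x3⟩ := fsk h (ol le) (fi _ _) (fi _ _) (ol_surj le) o1 ⟨_, o2⟩
  have : w' ∈ W := by
    obtain ⟨o, k, rfl⟩ := x3 x2
    obtain ⟨b', rfl⟩ := epi (pr Y _) (DiscreteQuotient.proj_surjective _) o
    rw [fc' F (k := pr Y e) (fun _ => rfl) b']
    exact (o3 k).1
  obtain ⟨u, y1, rfl⟩ := w3 this
  let d' := d ⊓ (e ⊓ e1).comap φ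
  have ld : d' ≤ d := inf_le_left
  obtain ⟨V, -, ⟨v, v2⟩, v3, v4⟩ := h (mp d' _ inf_le_right) (ol ld) (ol le) (mp d e inf_le_right)
    (fi _ _) (fi _ _) (fi _ _) (fi _ _) (ms _ _ _) (ol_surj _) (ol_surj _)
    (ms _ _ _) (ConcreteCategory.hom_ext _ _ fun x => by
      obtain ⟨x, rfl⟩ := d'.proj_surjective x
      rfl) (fun x N hN => ⟨{mp d e inf_le_right x}, @isOpen_discrete _ _ (di Y e) _, singleton_nonempty _,
        singleton_subset_iff.2 ⟨x, mem_of_mem_nhds hN, rfl⟩, fun y hy => by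
      obtain ⟨x, rfl⟩ := d.proj_surjective x
      obtain ⟨y, rfl⟩ := (e ⊓ e1).proj_surjective y
      have r : e.toSetoid y (f x) := Quotient.exact' hy
      obtain ⟨x', r1, rfl⟩ := (r (d0.proj x)).2 ⟨x, rfl, rfl⟩
      refine ⟨d'.proj x', ?_, rfl⟩
      have : d.proj x' = d.proj x := Quotient.sound' ⟨Quotient.exact' r1, r⟩
      show d.proj x' ∈ N
      rw [this]
      exact mem_of_mem_nhds hN⟩) u (U1 ∩ F.map (mp d e inf_le_right) ⁻¹' W')
    ((u1.inter (x1.preimage (cts _))).mem_nhds ⟨y1, x2⟩)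
  obtain ⟨u', ⟨-, z⟩, rfl⟩ := v3 v2
  obtain ⟨o, z1, z2⟩ := x3 z
  obtain ⟨t, ⟨t1, -⟩, rfl⟩ := v4 (show F.map (ol le) o ∈ V from z2 ▸ v2)
  obtain ⟨a', rfl⟩ := epi (pr X d') d'.proj_surjective t
  rw [fc' F (k := pr X d) (fun _ => rfl) a'] at t1
  rw [fc F (f := pr X d') (g := mp d' _ inf_le_right) (f' := f) (g' := pr Y (e ⊓ e1))
    (fun _ => rfl) a'] at z1
  exact (o3 z1).2 (subset_closure ⟨a', u3 t1, rfl⟩)

def Irr {E X : Comp} (q : E ⟶ X) : Prop := ∀ W, IsOpen W → W.Nonempty → ∃ y, q ⁻¹' {y} ⊆ W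

theorem gleason (X : Comp) : ∃ (E : Comp) (q : E ⟶ X), Projective E ∧ Surjective q ∧ Irr q := by
  let P := X.projectivePresentation
  obtain ⟨E, e1, e2, e3⟩ := exists_compact_surjective_zorn_subset (cts P.f)
    ((CompHaus.epi_iff_surjective _).1 P.epi)
  let i : CompHaus.of E ⟶ P.p := mk Subtype.val continuous_subtype_val
  have s : Surjective (i ≫ P.f) := fun x => by
    obtain ⟨p, a, b⟩ := e2.symm.subset (mem_univ x)
    exact ⟨⟨p, a⟩, b⟩
  have ir : Irr (i ≫ P.f) := fun W w1 ⟨w, w2⟩ => by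
    obtain ⟨y, hy⟩ := (ne_univ_iff_exists_notMem _).1 (e3 Wᶜ
      ((ne_univ_iff_exists_notMem _).2 ⟨w, fun k => k w2⟩) w1.isClosed_compl)
    exact ⟨y, fun z hz => by_contra fun k => hy ⟨z, k, hz⟩⟩
  have := (CompHaus.epi_iff_surjective _).2 s
  have := P.projective
  let r := Projective.factorThru P.f (i ≫ P.f)
  have r1 : r ≫ i ≫ P.f = P.f := Projective.factorThru_comp _ _
  have r2 : i ≫ r = 𝟙 _ := ConcreteCategory.hom_ext _ _ fun z => by_contra fun k => by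
    obtain ⟨A, B, a1, b1, a2, b2, c⟩ := t2_separation k
    obtain ⟨y, hy⟩ := ir _ ((a1.preimage (cts (i ≫ r))).inter b1) ⟨z, a2, b2⟩
    obtain ⟨z', rfl⟩ := s y
    exact disjoint_left.1 c (hy rfl).1 (hy (ConcreteCategory.congr_hom r1 (i z'))).2
  exact ⟨_, i ≫ P.f, ⟨fun f e _ => ⟨i ≫ Projective.factorThru (r ≫ f) e, by
    rw [Category.assoc, Projective.factorThru_comp, ← Category.assoc, r2, Category.id_comp]⟩⟩, s, ir⟩

theorem fib {F : Comp ⥤ Comp}
    (pre : ∀ {X' Y' X Y : Comp} (g : X' ⟶ Y') (p : X' ⟶ X) (q : Y' ⟶ Y) (f : X ⟶ Y),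
      p ≫ f = g ≫ q → Injective f → Injective g → Bicomm g p q f →
        Bicomm (F.map g) (F.map p) (F.map q) (F.map f))
    {E Y : Comp} (sE : Sep F E) (q : E ⟶ Y) (s : Surjective q) (ir : Irr q) : Irr (F.map q) :=
  fun O o1 ⟨a, ha⟩ => by
  obtain ⟨d, hd⟩ := sE O o1 a ha
  obtain ⟨V, -, v2, v3⟩ := hd d le_rfl
  choose y hy using fun c : d => ir _ (d.isOpen_preimage {c}) (d.proj_surjective c)
  let Z : Closeds E := ⟨q ⁻¹' range y, (finite_range y).isClosed.preimage (cts q)⟩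
  let j : D E d ⟶ Y := mk y continuous_of_discreteTopology
  have k : ∀ z : Z, y (d.proj z.1) = q z.1 := fun ⟨z, c, e⟩ => (congrArg y (hy c e.symm)).trans e
  have := pre (inc E Z) (inc E Z ≫ pr E d) q j (ConcreteCategory.hom_ext _ _ k)
    (fun c c' e => by
      obtain ⟨z, hz⟩ := s (y c)
      exact (hy c hz).symm.trans (hy c' (hz.trans e))) Subtype.val_injective
    (fun c => Set.ext fun z => ⟨by rintro ⟨z, rfl, rfl⟩; exact (k z).symm,
      fun e => ⟨⟨z, c, e.symm⟩, hy c e, rfl⟩⟩) (F.map (pr E d) a)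
  refine ⟨_, this.symm.subset.trans ?_⟩
  rintro _ ⟨z, e, rfl⟩
  refine v3 ?_
  rw [mem_preimage, fc' F (k := inc E Z ≫ pr E d) (fun _ => rfl) z, e]
  exact v2

theorem main {F : Comp ⥤ Comp} (h : FSS F)
    (epi : ∀ {X Y : Comp} (f : X ⟶ Y), Surjective f → Surjective (F.map f))
    (pre : ∀ {X' Y' X Y : Comp} (g : X' ⟶ Y') (p : X' ⟶ X) (q : Y' ⟶ Y) (f : X ⟶ Y),
      p ≫ f = g ≫ q → Injective f → Injective g → Bicomm g p q f →
        Bicomm (F.map g) (F.map p) (F.map q) (F.map f))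
    (sp : ∀ X : Comp, PreservesLimit (K X) F) : Skeletal F := fun {X Y} f hf fs A hA => by
  by_contra n
  obtain ⟨a, ha⟩ := nonempty_iff_ne_empty.2 n
  obtain ⟨X', p, p1, p2, p3⟩ := gleason X
  obtain ⟨Y', q, q1, q2, q3⟩ := gleason Y
  have := (CompHaus.epi_iff_surjective _).2 q2
  let g := Projective.factorThru (p ≫ f) q
  have c : ∀ x, q (g x) = f (p x) := fun x =>
    ConcreteCategory.congr_hom (Projective.factorThru_comp (p ≫ f) q) x
  have k : ∀ B N, IsClosed B → IsOpen N → N ⊆ q '' B → q ⁻¹' N ⊆ B := fun B N b n e z hz =>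
    by_contra fun l => by
      obtain ⟨y, hy⟩ := q3 _ ((n.preimage (cts q)).inter b.isOpen_compl) ⟨z, hz, l⟩
      obtain ⟨z, rfl⟩ := q2 y
      obtain ⟨t, t1, t2⟩ := e (hy rfl).1
      exact (hy t2).2 t1
  have gs : Surjective g := fun y => k _ univ (cls g).isClosed_range isOpen_univ (fun y _ => by
    obtain ⟨x, rfl⟩ := (fs.comp p2) y
    exact ⟨_, ⟨x, rfl⟩, c x⟩) (mem_univ _)
  have go : ∀ B, IsClopen B → IsOpen (g '' B) := fun B b => by
    have cl := cls g _ b.1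
    have : g '' B = closure (interior (g '' B)) := by
      refine subset_antisymm ?_ (closure_minimal interior_subset cl)
      rintro _ ⟨x, hx, rfl⟩
      refine mem_closure_iff.2 fun N n1 n2 => ?_
      obtain ⟨x', hx'⟩ := p3 _ (b.2.inter (n1.preimage (cts g))) ⟨x, hx, n2⟩
      obtain ⟨t, rfl⟩ := p2 x'
      refine ⟨g t, (hx' rfl).2, interior_maximal (k _ _ cl (hf _ (cls p _ b.2.isClosed_compl).isOpen_compl)
        ?_) ((hf _ (cls p _ b.2.isClosed_compl).isOpen_compl).preimage (cts q))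
        ⟨p t, fun ⟨s, s1, s2⟩ => s1 (hx' s2).1, (c t).symm⟩⟩
      rintro _ ⟨s, s1, rfl⟩
      obtain ⟨s, rfl⟩ := p2 s
      exact ⟨_, ⟨s, by_contra fun l => s1 ⟨s, l, rfl⟩, rfl⟩, c s⟩
    rw [this]
    exact ExtremallyDisconnected.open_closure _ isOpen_interior
  obtain ⟨a, rfl⟩ := epi p p2 a
  obtain ⟨O, o1, o2, o3⟩ := zero h epi (sep F X') (sep F Y') g go gs
    (isOpen_interior.preimage (cts (F.map p))) ⟨a, ha⟩
  obtain ⟨b, hb⟩ := fib pre (sep F Y') q q2 q3 O o1 o2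
  refine Set.eq_empty_iff_forall_notMem.1 hA b (interior_maximal (t := (F.map q '' Oᶜ)ᶜ)
    (fun v hv => ?_) (cls _ _ o1.isClosed_compl).isOpen_compl fun ⟨s, s1, s2⟩ => s1 (hb s2))
  obtain ⟨v, rfl⟩ := epi q q2 v
  refine closure_minimal (t := F.map q ⁻¹' closure A) ?_ (isClosed_closure.preimage (cts _))
    (o3 (by_contra fun l => hv ⟨v, l, rfl⟩))
  rintro _ ⟨u, hu, rfl⟩
  rw [mem_preimage, fc F c u]
  exact (cts (F.map f)).closure_preimage_subset A (interior_subset hu)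

end Pool.Agent.H95.Nf2
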