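import Mathlib

set_option autoImplicit false

open Set CategoryTheory CategoryTheory.Limits TopologicalSpace

namespace Pool.Agent.H95.NfDefs

/-- The category of compacta. -/
abbrev Comp := CompHaus.{0}

/-- Preimages of nowhere dense sets are nowhere dense. -/
def SkelMap {X Y : Comp} (f : X ⟶ Y) : Prop :=
  ∀ A : Set Y, IsNowhereDense A → IsNowhereDense (f ⁻¹' A)

/-- A closed subset as a compactum. -/
def sub (X : Comp) (Z : Closeds X) : Comp :=
  haveI : CompactSpace Z := isCompact_iff_compactSpace.1 Z.isClosed.isCompact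
  CompHaus.of Z

/-- The inclusion of a closed subset. -/
def inc (X : Comp) (Z : Closeds X) : sub X Z ⟶ X :=
  ConcreteCategory.ofHom (C := Comp) (⟨Subtype.val, continuous_subtype_val⟩ : C(Z, X))

/-- `F Z` viewed inside `F X`. -/
def FS (F : Comp ⥤ Comp) (X : Comp) (Z : Closeds X) : Set (F.obj X) := range (F.map (inc X Z))

/-- The weight: least cardinality of a base. -/
noncomputable def weight (X : Type) [TopologicalSpace X] : Cardinal :=
  sInf {c | ∃ B : Set (Set X), IsTopologicalBasis B ∧ Cardinal.mk B = c}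

/-- Bicommutativity of the square `g : X' → Y'`, `p : X' → X`, `q : Y' → Y`, `f : X → Y`. -/
def Bicomm {X' Y' X Y : Comp} (g : X' ⟶ Y') (p : X' ⟶ X) (q : Y' ⟶ Y) (f : X ⟶ Y) : Prop :=
  ∀ x : X, g '' (p ⁻¹' {x}) = q ⁻¹' {f x}

/-- Skeletality of the same square. -/
def SkelSq {X' Y' X Y : Comp} (g : X' ⟶ Y') (p : X' ⟶ X) (q : Y' ⟶ Y) (f : X ⟶ Y) : Prop :=
  ∀ x : X, ∀ U ∈ nhds x, ∃ V : Set Y, IsOpen V ∧ V.Nonempty ∧ V ⊆ f '' U ∧
    q ⁻¹' V ⊆ g '' (p ⁻¹' U)

/-- Normal functors in the sense of Shchepin (preservation of preimages in both forms). -/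
structure Normal (F : Comp ⥤ Comp) : Prop where
  mono : ∀ {X Y : Comp} (f : X ⟶ Y), Function.Injective f → Function.Injective (F.map f)
  epi : ∀ {X Y : Comp} (f : X ⟶ Y), Function.Surjective f → Function.Surjective (F.map f)
  cont : ∀ (J : Type) [SmallCategory J] [IsCofiltered J], PreservesLimitsOfShape J F
  inter : ∀ (X : Comp) (S : Set (Closeds X)), FS F X (sInf S) = ⋂ Z ∈ S, FS F X Z
  empty : ∀ X : Comp, IsEmpty X → IsEmpty (F.obj X)
  point : ∀ X : Comp, Nonempty (Unique X) → Nonempty (Unique (F.obj X))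
  wt : ∀ X : Comp, Infinite X → weight (F.obj X) ≤ weight X
  preim : ∀ {X Y : Comp} (f : X ⟶ Y) (Z : Closeds Y),
    F.map f ⁻¹' FS F Y Z = FS F X (Z.preimage (ConcreteCategory.hom f).continuous)
  preimSq : ∀ {X' Y' X Y : Comp} (g : X' ⟶ Y') (p : X' ⟶ X) (q : Y' ⟶ Y) (f : X ⟶ Y),
    p ≫ f = g ≫ q → Function.Injective f → Function.Injective g → Bicomm g p q f →
      Bicomm (F.map g) (F.map p) (F.map q) (F.map f)

/-- `F X` is finite for finite `X`. -/
def Finitary (F : Comp ⥤ Comp) : Prop := ∀ X : Comp, Finite X → Finite (F.obj X)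

/-- `F_n X = F X` for all `X`, for some `n`. -/
def FinDeg (F : Comp ⥤ Comp) : Prop :=
  ∃ n : ℕ, ∀ X : Comp, ∀ a : F.obj X, ∃ ξ : CompHaus.of (Fin n) ⟶ X, a ∈ range (F.map ξ)

/-- `F f` is skeletal for every open surjection `f`. -/
def Skeletal (F : Comp ⥤ Comp) : Prop :=
  ∀ {X Y : Comp} (f : X ⟶ Y), IsOpenMap f → Function.Surjective f → SkelMap (F.map f)

/-- `F f` is open for every open surjection `f`. -/
def OpenF (F : Comp ⥤ Comp) : Prop :=
  ∀ {X Y : Comp} (f : X ⟶ Y), IsOpenMap f → Function.Surjective f → IsOpenMap (F.map f)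

end Pool.Agent.H95.NfDefs
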