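import Pool.Agent.H95.NorDefs

namespace Pool.Agent.H95.Nor
open Finset Nat

section ps
open PowerSeries

noncomputable def G (a : ℕ) (x : ℝ) : ℝ⟦X⟧ := bernoulliPowerSeries ℝ ^ a * rescale x (exp ℝ)
noncomputable def g (a m : ℕ) (x : ℝ) : ℝ := coeff m (G a x)

theorem G_add (a : ℕ) (x y : ℝ) : G a (x + y) = G a x * rescale y (exp ℝ) := by
  rw [G, G, mul_assoc, exp_mul_exp_eq_exp_add]

theorem g_add (a m : ℕ) (x y : ℝ) :
    g a m (x + y) = ∑ p ∈ antidiagonal m, g a p.1 x * (y ^ p.2 / p.2 !) := by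
  simp [g, G_add, coeff_mul, coeff_rescale, div_eq_mul_inv]

theorem g_der (a m : ℕ) (x : ℝ) : HasDerivAt (g a (m + 1)) (g a m x) x := by
  have e : ∀ m, g a m = fun y => ∑ p ∈ antidiagonal m, g a p.1 0 * (y ^ p.2 / p.2 !) :=
    fun m => funext fun y => by rw [← g_add, zero_add]
  rw [e (m + 1), e m]
  simp only [Finset.Nat.sum_antidiagonal_succ']
  simp only [pow_zero]
  refine (HasDerivAt.fun_sum fun p _ => (((hasDerivAt_pow (p.2 + 1) x).div_const _).const_mul _).congr_deriv
    ?_).const_add _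
  push_cast [factorial_succ, Nat.add_sub_cancel]; field_simp

theorem g_step (a m : ℕ) (x : ℝ) : g (a + 1) (m + 1) (x + 1) - g (a + 1) (m + 1) x = g a m x := by
  have : G (a + 1) (x + 1) - G (a + 1) x = G a x * X := by
    rw [G_add, rescale_one, ← bernoulliPowerSeries_mul_exp_sub_one ℝ, G, G]; simp; ring
  rw [g, g, ← map_sub, this, coeff_succ_mul_X, g]

theorem G_der (a : ℕ) (x : ℝ) : d⁄dX ℝ (G a x) * X = C (a : ℝ) * (G a x - G (a + 1) x) + C (x - a) * (G a x * X) := by
  have h := bernoulliPowerSeries_mul_exp_sub_one ℝ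
  have de : d⁄dX ℝ (rescale x (exp ℝ)) = C x * rescale x (exp ℝ) := by
    ext n; simp [coeff_derivative, coeff_rescale, factorial_succ]; field_simp; ring
  have d1 : d⁄dX ℝ (exp ℝ) = exp ℝ := by simpa [rescale_one] using (by
    ext n; simp [coeff_derivative, factorial_succ]; field_simp : d⁄dX ℝ (exp ℝ) = exp ℝ)
  set b := bernoulliPowerSeries ℝ
  have h2 := congrArg (d⁄dX ℝ) h
  simp only [Derivation.leibniz, map_sub, d1, Derivation.map_one_eq_zero, derivative_X, smul_eq_mul] at h2
  have h3 : d⁄dX ℝ b * X = b - X * b - b ^ 2 := by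
    linear_combination b * h2 - (d⁄dX ℝ b + b) * h
  rw [G, G, Derivation.leibniz, de, Derivation.leibniz_pow]
  simp only [smul_eq_mul, nsmul_eq_mul, map_sub, map_natCast]
  cases a with
  | zero => simp; ring
  | succ a =>
    simp only [Nat.add_sub_cancel]
    linear_combination (rescale x (exp ℝ) * (a + 1 : ℕ) * b ^ a) * h3

theorem g_prod (n : ℕ) (x : ℝ) : g (n + 1) n x * n ! = ∏ j ∈ range n, (x - (j + 1)) := by
  induction n with
  | zero =>
    have : constantCoeff (rescale x (exp ℝ)) = 1 := by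
      rw [← coeff_zero_eq_constantCoeff_apply, coeff_rescale]; simp
    simp [g, G, bernoulliPowerSeries, this]
  | succ n ih =>
    have := congrArg (coeff (n + 1)) (G_der (n + 1) x)
    rw [coeff_succ_mul_X, coeff_derivative, map_add, coeff_C_mul, coeff_C_mul, map_sub, coeff_succ_mul_X] at this
    rw [prod_range_succ, ← ih, factorial_succ]
    simp only [g]; push_cast at this ⊢
    linear_combination (n ! : ℝ) * this

theorem g_sign (n k : ℕ) (hk : k ≤ n) : 0 < (-1) ^ (n - k) * g n n k := by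
  obtain ⟨c, ⟨c1, c2⟩, hc⟩ := exists_hasDerivAt_eq_slope (g (n + 1) (n + 1)) (g (n + 1) n)
    (lt_add_one (k : ℝ)) (fun x _ => (g_der _ _ x).continuousAt.continuousWithinAt) fun x _ => g_der _ _ x
  rw [g_step, add_sub_cancel_left, div_one] at hc
  refine pos_of_mul_pos_right ?_ (show (0 : ℝ) ≤ (n !) by positivity)
  rw [← hc, mul_comm, mul_assoc, g_prod]
  obtain ⟨d, rfl⟩ := Nat.exists_eq_add_of_le hk
  rw [prod_range_add, Nat.add_sub_cancel_left, mul_left_comm]
  refine mul_pos (prod_pos fun j hj => ?_) ?_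
  · have : (j : ℝ) + 1 ≤ k := by exact_mod_cast mem_range.1 hj
    linarith
  · nth_rewrite 1 [← card_range d]
    rw [← prod_neg]
    exact prod_pos fun j _ => by push_cast; linarith [j.cast_nonneg (α := ℝ)]
end ps

open Polynomial

def Sg (p : ℝ[X]) : Prop := ∀ k, 0 ≤ (-1) ^ k * p.coeff (2 * k)

theorem sg_prod (n : ℕ) (a b : ℕ → ℝ) :
    Sg ((∏ i ∈ range n, (C (a i) * X + C (b i))) * (∏ i ∈ range n, (C (a i) * X + C (b i))).comp (C (-1) * X)) := by
  induction n with
  | zero => intro k; cases k <;> simp [coeff_one]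
  | succ n ih =>
    rw [prod_range_succ, mul_comp, mul_mul_mul_comm]
    set q := (∏ i ∈ range n, (C (a i) * X + C (b i))) * (∏ i ∈ range n, (C (a i) * X + C (b i))).comp (C (-1) * X)
    have : q * ((C (a n) * X + C (b n)) * (C (a n) * X + C (b n)).comp (C (-1) * X)) =
        C (b n ^ 2) * q - C (a n ^ 2) * (q * X ^ 2) := by simp; ring
    rw [this]
    intro k
    rw [coeff_sub, coeff_C_mul, coeff_C_mul]
    have h1 := mul_nonneg (sq_nonneg (b n)) (ih k)
    cases k with
    | zero => rw [coeff_mul_X_pow', if_neg (by omega)]; linarith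
    | succ k =>
      have h2 := mul_nonneg (sq_nonneg (a n)) (ih k)
      rw [mul_add 2, mul_one, coeff_mul_X_pow, pow_succ (-1 : ℝ)] at *
      linarith

theorem sg_sum {p : ℝ[X]} {n : ℕ} {a b : ℕ → ℝ} {c : ℝ} (h : p = C c * ∏ i ∈ range n, (C (a i) * X + C (b i)))
    (k : ℕ) : 0 ≤ (-1) ^ k * ∑ j ∈ range (2 * k + 1), (-1) ^ j * p.coeff j * p.coeff (2 * k - j) := by
  have := mul_nonneg (sq_nonneg c) (sg_prod n a b k)
  rw [mul_comm (∏ i ∈ range n, _), coeff_mul, Finset.Nat.sum_antidiagonal_eq_sum_range_succ_mk,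
    mul_left_comm, mul_sum] at this
  refine this.trans_eq (congrArg _ (sum_congr rfl fun j _ => ?_))
  simp only [h, coeff_C_mul, comp_C_mul_X_coeff]; ring

theorem refl_prod (n : ℕ) (a b : ℕ → ℝ) : reflect n (∏ i ∈ range n, (C (a i) * X + C (b i))) =
    ∏ i ∈ range n, (C (b i) * X + C (a i)) := by
  induction n with
  | zero => simp
  | succ n ih =>
    rw [prod_range_succ, prod_range_succ, reflect_mul _ _ ((natDegree_prod_le _ _).trans
      ((sum_le_card_nsmul _ _ 1 fun i _ => natDegree_linear_le).trans (by simp))) natDegree_linear_le, ih]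
    congr 1
    rw [reflect_add, reflect_C, reflect_C_mul, reflect_one_X]; ring

noncomputable def T (n : ℕ) (x : ℝ) : ℝ[X] := ∑ r ∈ range (n + 1), monomial r (n.choose r * B n (n - r) x)

theorem T_coeff (n : ℕ) (x : ℝ) (r : ℕ) : (T n x).coeff r = n.choose r * B n (n - r) x := by
  simp only [T, finsetSum_coeff, coeff_monomial, sum_ite_eq', mem_range]
  split_ifs with h
  · rfl
  · simp [choose_eq_zero_of_lt (show n < r by omega)]

theorem T_eval (n : ℕ) (x y : ℝ) : (T n x).eval y = n ! * g n n (x + y) := by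
  rw [g_add, ← Finset.Nat.sum_antidiagonal_swap, Finset.Nat.sum_antidiagonal_eq_sum_range_succ_mk, T,
    eval_finsetSum, mul_sum]
  refine sum_congr rfl fun r hr => ?_
  rw [eval_monomial, ← choose_mul_factorial_mul_factorial (mem_range_succ_iff.1 hr)]
  simp only [B, g, G, Prod.fst_swap, Prod.snd_swap]; push_cast; field_simp

theorem T_prod (n : ℕ) (x : ℝ) : ∃ (c : ℝ) (b : ℕ → ℝ), T n x = C c * ∏ i ∈ range n, (C 1 * X + C (b i)) := by
  have : ∀ k : ℕ, ∃ r ∈ Set.Ioo (k : ℝ) (k + 1), k < n → g n n r = 0 := fun k => by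
    by_cases hk : k < n
    · have c : ContinuousOn (fun y => (-1) ^ (n - (k + 1)) * g n n y) (Set.Icc k (k + 1)) := by
        obtain ⟨m, rfl⟩ : ∃ m, n = m + 1 := ⟨n - 1, by omega⟩
        exact fun y _ => ((g_der _ _ y).const_mul _).continuousAt.continuousWithinAt
      have h1 := g_sign n k hk.le
      have h2 := g_sign n (k + 1) hk
      rw [show n - k = n - (k + 1) + 1 by omega, pow_succ] at h1
      obtain ⟨r, r1, r2⟩ := intermediate_value_Ioo (lt_add_one (k : ℝ)).le c
        (show (0 : ℝ) ∈ _ from ⟨by linarith, by exact_mod_cast h2⟩)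
      exact ⟨r, r1, fun _ => by simpa using r2⟩
    · exact ⟨k + 1 / 2, ⟨by linarith, by linarith⟩, fun h => absurd h hk⟩
  choose r r1 r2 using this
  have sm : StrictMono r := strictMono_nat_of_lt_succ fun k => by
    have := (r1 (k + 1)).1; push_cast at this; linarith [(r1 k).2]
  have dv : ∏ i ∈ range n, (X - C (r i - x)) ∣ T n x :=
    prod_dvd_of_coprime (fun i _ j _ h => pairwise_coprime_X_sub_C (s := fun i => r i - x)
      (sub_left_injective.comp sm.injective) h) fun i hi =>
      dvd_iff_isRoot.2 (by rw [IsRoot, T_eval, add_sub_cancel, r2 i (mem_range.1 hi), mul_zero])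
  refine ⟨(T n x).leadingCoeff, fun i => -(r i - x), (eq_leadingCoeff_mul_of_monic_of_dvd_of_natDegree_le
    (monic_prod_X_sub_C _ _) dv ?_).trans (by simp only [C_1, one_mul, C_neg, ← sub_eq_add_neg])⟩
  rw [natDegree_finsetProd_X_sub_C_eq_card, card_range]
  exact natDegree_le_iff_coeff_eq_zero.2 fun N h => by simp [T_coeff, choose_eq_zero_of_lt h]

theorem main (n : ℕ) (x : ℝ) (k : ℕ) (hk : 2 * k ≤ n) : 0 ≤ α n k x ∧ 0 ≤ β n k x := by
  obtain ⟨c, b, h⟩ := T_prod n x
  have h' : reflect n (T n x) = C c * ∏ i ∈ range n, (C (b i) * X + C 1) := by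
    rw [h, reflect_C_mul, refl_prod]
  refine ⟨(sg_sum h k).trans_eq (congrArg _ (sum_congr rfl fun j hj => ?_)),
    (sg_sum h' k).trans_eq (congrArg _ (sum_congr rfl fun j hj => ?_))⟩
  · have := mem_range.1 hj
    rw [T_coeff, T_coeff, show n - (2 * k - j) = n - 2 * k + j by omega]; ring
  · have := mem_range.1 hj
    rw [coeff_reflect, coeff_reflect, revAt_le (by omega), revAt_le (by omega), T_coeff, T_coeff,
      choose_symm (by omega), choose_symm (by omega), Nat.sub_sub_self (by omega), Nat.sub_sub_self (by omega)]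
    ring

end Pool.Agent.H95.Nor
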