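import Mathlib

namespace Pool.Agent.H95.Nor
open PowerSeries Finset

/-- Norlund polynomial of natural order `a`: `m!` times the coefficient of `t^m` in
`(t/(e^t-1))^a e^(xt)` -/
noncomputable def B (a m : ℕ) (x : ℝ) : ℝ :=
  m.factorial * coeff m (bernoulliPowerSeries ℝ ^ a * rescale x (exp ℝ))

noncomputable def α (n k : ℕ) (x : ℝ) : ℝ := (-1) ^ k * ∑ j ∈ range (2 * k + 1),
  (-1) ^ j * n.choose j * n.choose (2 * k - j) * B n (n - j) x * B n (n - 2 * k + j) x

noncomputable def β (n k : ℕ) (x : ℝ) : ℝ := (-1) ^ k * ∑ j ∈ range (2 * k + 1),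
  (-1) ^ j * n.choose j * n.choose (2 * k - j) * B n j x * B n (2 * k - j) x

end Pool.Agent.H95.Nor
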