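import Pool.Agent.H95.NsumA

set_option autoImplicit false

namespace Pool.Agent.H95.Nsum

open Finset
open scoped Classical

variable {m : ℕ} {t : Fin m → ℕ}

def ll (t : Fin m → ℕ) (c : Fin m × Fin 2) : ℕ :=
  if t c.1 % 2 = 1 then (if c.2.val = 0 then t c.1 else 0) else t c.1 / 2

def em (u : Σ c, Fin (ll t c)) : Vx t :=
  ⟨u.1.1, if 2 * u.2.val + u.1.2.val < t u.1.1 then 2 * u.2.val + u.1.2.val else
    2 * u.2.val - t u.1.1, by
      have := u.2.2
      have := u.1.2.2
      generalize u.2.val = a at *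
      simp only [ll] at *
      split_ifs at * <;> omega⟩

lemma ll_sum : ∑ c, ll t c = ∑ i, t i := by
  rw [Fintype.sum_prod_type]
  refine sum_congr rfl fun i _ => ?_
  simp only [Fin.sum_univ_two, ll]
  split_ifs <;> simp_all <;> omega

lemma ll_K : max 1 #{c | ll t c % 2 = 1} = K t := by
  rw [K, card_filter, card_filter, card_filter, mul_sum, ← sum_add_distrib, Fintype.sum_prod_type]
  refine congrArg _ (sum_congr rfl fun i _ => ?_)
  simp only [Fin.sum_univ_two, ll]
  split_ifs <;> simp_all <;> omega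

lemma em_bij : Function.Bijective (em (t := t)) := by
  refine (Fintype.bijective_iff_injective_and_card _).2 ⟨fun u v h => ?_, by simp [ll_sum]⟩
  have h1 : u.1.1 = v.1.1 := (congrArg Sigma.fst h :)
  have h2 : (em u).2.val = (em v).2.val := by rw [h]
  have h3 := congrArg t h1
  have := u.2.2
  have := v.2.2
  have := u.1.2.2
  have := v.1.2.2
  suffices u.1.2.val = v.1.2.val ∧ u.2.val = v.2.val from sx (Prod.ext h1 (Fin.ext this.1)) this.2
  simp only [em] at h2
  generalize u.2.val = a at *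
  generalize v.2.val = b at *
  simp only [ll] at *
  split_ifs at * <;> omega

lemma md {a b T : ℕ} (h : a < T) : (a + 1) % T = b ↔ a + 1 < T ∧ b = a + 1 ∨ a + 1 = T ∧ b = 0 := by
  rcases (show a + 1 ≤ T from h).eq_or_lt with e | e
  · simp [e, eq_comm]
  · rw [Nat.mod_eq_of_lt e]; omega

lemma ns (h : ∀ i, 3 ≤ t i) (f : Vx t → ℕ) (u : Σ c, Fin (ll t c)) :
    nsum f (sg (em u)) = f (em u) + f (em (sg u)) := by
  have e : (em (sg u)).1 = (em u).1 ∧ (em (sg u)).2.val = (sg (sg (em u))).2.val := ⟨rfl, by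
    have := u.2.2
    have := u.1.2.2
    have := h u.1.1
    have : ll t u.1 = if t u.1.1 % 2 = 1 then (if u.1.2.val = 0 then t u.1.1 else 0) else
      t u.1.1 / 2 := rfl
    simp only [em, sg]
    split_ifs at * <;> omega⟩
  rw [show em (sg u) = sg (sg (em u)) from sx e.1 e.2]
  generalize em u = v
  have := h v.1
  have := v.2.2
  rw [nsum, ← sum_pair fun c => by
    have : v.2.val = (sg (sg v)).2.val := by rw [← c]
    simp only [sg] at this
    split_ifs at this <;> omega]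
  congr 1
  ext w
  have := w.2.2
  have x : ∀ a b : Vx t, a = b ↔ a.1 = b.1 ∧ a.2.val = b.2.val := fun a b =>
    ⟨fun e => by rw [e]; exact ⟨rfl, rfl⟩, fun e => sx e.1 e.2⟩
  simp only [cyc, SimpleGraph.fromRel_adj, mem_filter, mem_univ, true_and, mem_insert,
    mem_singleton, Ne, x, md (Fin.is_lt _)]
  by_cases e : v.1 = w.1
  · have : t v.1 = t w.1 := congrArg t e
    simp only [sg, e, true_and]
    generalize hs : (if v.2.val + 1 < t w.1 then v.2.val + 1 else 0) = s
    generalize hr : (if s + 1 < t w.1 then s + 1 else 0) = r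
    split_ifs at hs hr <;> constructor <;> intro <;> omega
  · simp [sg, e, Ne.symm e]

theorem main (h : ∀ i, 3 ≤ t i) (h4 : ∃ i, t i ≠ 4) :
    IsLeast {s | ∃ f : Vx t → ℕ, IsLab f ∧ s = mx f} (∑ i, t i + 1 + K t) ∧
    IsGreatest {s | ∃ f : Vx t → ℕ, IsLab f ∧ s = mn f} (∑ i, t i + 1 - K t) ∧
    IsLeast {s | ∃ f : Vx t → ℕ, IsLab f ∧ s = mx f - mn f} (2 * K t) := by
  have h1 : ∀ c, ll t c ≠ 1 := fun c => by
    have := h c.1
    simp only [ll]
    split_ifs <;> omega
  have h3 : ∃ c, 3 ≤ ll t c := h4.elim fun i hi => ⟨(i, 0), by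
    have := h i
    simp only [ll, Fin.val_zero, if_true]
    split_ifs <;> omega⟩
  have lo : ∀ f : Vx t → ℕ, IsLab f → ∑ i, t i + 1 + K t ≤ mx f ∧ mn f + K t ≤ ∑ i, t i + 1 :=
    fun f hf => by
      have b : Set.BijOn (f ∘ em) Set.univ (Set.Icc 1 (∑ c, ll t c)) :=
        ll_sum (t := t) ▸ hf.comp (Set.bijOn_univ.2 em_bij)
      obtain ⟨u, hu⟩ := lower h1 h3 b
      obtain ⟨v, hv⟩ := lower h1 h3 (Set.BijOn.comp (Set.InvOn.bijOn (f := fun x => ∑ c, ll t c + 1 - x)
        (f' := fun x => ∑ c, ll t c + 1 - x) ⟨fun x hx => by have := hx.2; dsimp only; omega,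
          fun x hx => by have := hx.2; dsimp only; omega⟩
        (fun x hx => by have := hx.1; have := hx.2; constructor <;> dsimp only <;> omega)
        (fun x hx => by have := hx.1; have := hx.2; constructor <;> dsimp only <;> omega)) b)
      have a1 : nsum f (sg (em u)) ≤ mx f := le_csSup (Set.finite_range _).bddAbove ⟨_, rfl⟩
      have a2 : mn f ≤ nsum f (sg (em v)) := Nat.sInf_le ⟨_, rfl⟩
      have a3 := (hf.mapsTo (Set.mem_univ (em v))).2
      have a4 := (hf.mapsTo (Set.mem_univ (em (sg v)))).2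
      simp only [ns h, ll_sum, ll_K, Function.comp] at *
      omega
  obtain ⟨g, g1, g2⟩ := exists_lab h1
  set e := Equiv.ofBijective _ (em_bij (t := t))
  have l : IsLab (g ∘ e.symm) := (ll_sum (t := t) ▸ g1).comp (Set.bijOn_univ.2 e.symm.bijective)
  have r : ∀ s ∈ Set.range (nsum (g ∘ e.symm)), s ≤ ∑ i, t i + 1 + K t ∧ ∑ i, t i + 1 ≤ s + K t := by
    rintro _ ⟨v, rfl⟩
    obtain ⟨v, rfl⟩ := Finite.injective_iff_surjective.1 sg_inj v
    obtain ⟨u, rfl⟩ := em_bij.2 v
    simpa [ns h, e, ll_sum, ll_K] using g2 u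
  haveI : Nonempty (Vx t) := h4.elim fun i _ => ⟨⟨i, 0, by have := h i; omega⟩⟩
  have a1 : mx (g ∘ e.symm) ≤ _ := csSup_le (Set.range_nonempty _) fun s hs => (r s hs).1
  have a2 : _ ≤ mn (g ∘ e.symm) + _ := (r _ (Nat.sInf_mem (Set.range_nonempty _))).2
  have a3 := lo _ l
  refine ⟨⟨⟨_, l, by omega⟩, ?_⟩, ⟨⟨_, l, by omega⟩, ?_⟩, ⟨_, l, by omega⟩, ?_⟩ <;>
  rintro _ ⟨f, hf, rfl⟩ <;> have := lo f hf <;> omega

end Pool.Agent.H95.Nsum
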