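import Pool.Agent.H95.NsumDefs

set_option autoImplicit false

namespace Pool.Agent.H95.Nsum

open Finset
open scoped Classical

section
variable {ι : Type} {l : ι → ℕ}

lemma sx {u v : Σ i, Fin (l i)} (h1 : u.1 = v.1) (h2 : u.2.val = v.2.val) : u = v := by
  obtain ⟨i, a⟩ := u
  obtain ⟨j, b⟩ := v
  obtain rfl : i = j := h1
  exact congrArg _ (Fin.ext h2)

def sg (u : Σ i, Fin (l i)) : Σ i, Fin (l i) :=
  ⟨u.1, if u.2.val + 1 < l u.1 then u.2.val + 1 else 0, by have := u.2.2; split_ifs <;> omega⟩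

def ta (u : Σ i, Fin (l i)) : Σ i, Fin (l i) :=
  ⟨u.1, if l u.1 % 2 = 1 ∧ u.2.val = 0 then 0 else l u.1 - 1 + l u.1 % 2 - u.2.val, by
    have := u.2.2; split_ifs <;> omega⟩

lemma sg_inj : Function.Injective (sg (l := l)) := fun u v h => by
  have h1 : u.1 = v.1 := (congrArg Sigma.fst h :)
  have h2 : (sg u).2.val = (sg v).2.val := by rw [h]
  have := u.2.2
  have := v.2.2
  have := congrArg l h1
  simp only [sg] at h2
  exact sx h1 (by split_ifs at h2 <;> omega)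

lemma ta_ta (u : Σ i, Fin (l i)) : ta (ta u) = u := sx rfl (by
  have := u.2.2
  simp only [ta]
  split_ifs <;> omega)

def Ky (c L p a b d : ℤ) : Prop :=
  L % 2 = 1 ∧ (p = 0 ∧ a = 0 ∧ b = 0 ∧ d = -c ∨
    0 < p ∧ 2 * p < L ∧ (p % 2 = 1 ∧ a = 1 ∧ b = p ∧ d = c ∨ p % 2 = 0 ∧ a = -1 ∧ b = -p ∧ d = -c) ∨
    L < 2 * p ∧ (p % 2 = 1 ∧ a = 1 ∧ b = L - p ∧ d = -c ∨ p % 2 = 0 ∧ a = -1 ∧ b = p - L ∧ d = c)) ∨
  L % 2 = 0 ∧ (2 * p < L ∧ (p % 2 = 0 ∧ a = 2 ∧ b = c ∧ d = p ∨ p % 2 = 1 ∧ a = -2 ∧ b = -c ∧ d = -p) ∨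
    L ≤ 2 * p ∧ (p % 2 = 0 ∧ a = 2 ∧ b = c ∧ d = L - 1 - p ∨
      p % 2 = 1 ∧ a = -2 ∧ b = -c ∧ d = p + 1 - L))

lemma Ky_ex (c L p : ℤ) (h : 0 ≤ p) : ∃ k : ℤ × ℤ × ℤ, Ky c L p k.1 k.2.1 k.2.2 := by
  unfold Ky
  rcases Int.emod_two_eq_zero_or_one L with a | a <;> rcases Int.emod_two_eq_zero_or_one p with b | b
    <;> rcases lt_or_ge (2 * p) L with d | d
  · exact ⟨(2, c, p), .inr ⟨a, .inl ⟨d, .inl ⟨b, rfl, rfl, rfl⟩⟩⟩⟩
  · exact ⟨(2, c, L - 1 - p), .inr ⟨a, .inr ⟨d, .inl ⟨b, rfl, rfl, rfl⟩⟩⟩⟩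
  · exact ⟨(-2, -c, -p), .inr ⟨a, .inl ⟨d, .inr ⟨b, rfl, rfl, rfl⟩⟩⟩⟩
  · exact ⟨(-2, -c, p + 1 - L), .inr ⟨a, .inr ⟨d, .inr ⟨b, rfl, rfl, rfl⟩⟩⟩⟩
  · rcases h.eq_or_lt with e | e
    · exact ⟨(0, 0, -c), .inl ⟨a, .inl ⟨e.symm, rfl, rfl, rfl⟩⟩⟩
    · exact ⟨(-1, -p, -c), .inl ⟨a, .inr (.inl ⟨e, d, .inr ⟨b, rfl, rfl, rfl⟩⟩)⟩⟩
  · exact ⟨(-1, p - L, c), .inl ⟨a, .inr (.inr ⟨by omega, .inr ⟨b, rfl, rfl, rfl⟩⟩)⟩⟩
  · exact ⟨(1, p, c), .inl ⟨a, .inr (.inl ⟨by omega, d, .inl ⟨b, rfl, rfl, rfl⟩⟩)⟩⟩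
  · exact ⟨(1, L - p, -c), .inl ⟨a, .inr (.inr ⟨by omega, .inl ⟨b, rfl, rfl, rfl⟩⟩)⟩⟩

def Sm (c L a b d : ℤ) : Prop :=
  L % 2 = 1 ∧ (a = 0 ∧ b = 0 ∨ a = 1 ∧ 1 ≤ b ∨ a = -1 ∧ b ≤ -1) ∧
    (b % 2 = 1 ∧ d = c ∨ b % 2 = 0 ∧ d = -c) ∨
  L % 2 = 0 ∧ (a = 2 ∧ b = c ∧ 0 ≤ d ∨ a = -2 ∧ b = -c ∧ d ≤ 0)

lemma Ky.sm {c L p a b d : ℤ} (h : Ky c L p a b d) (h0 : 0 ≤ p) (h1 : p < L) : Sm c L a b d := by
  unfold Ky at h
  unfold Sm
  rcases h with ⟨_, h | ⟨_, _, h | h⟩ | ⟨_, h | h⟩⟩ | ⟨_, ⟨_, h | h⟩ | ⟨_, h | h⟩⟩ <;> omega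

lemma Ky.inj {c L p q a b d : ℤ} (h : Ky c L p a b d) (k : Ky c L q a b d) (h1 : p < L)
    (h2 : q < L) : p = q := by
  unfold Ky at h k
  rcases h with ⟨_, h | ⟨_, _, h | h⟩ | ⟨_, h | h⟩⟩ | ⟨_, ⟨_, h | h⟩ | ⟨_, h | h⟩⟩ <;> omega

lemma Ky.ta {c L p q a b d a' b' d' : ℤ} (h : Ky c L p a b d) (k : Ky c L q a' b' d')
    (h1 : p < L) (e : L % 2 = 1 ∧ p = 0 ∧ q = 0 ∨ ¬ (L % 2 = 1 ∧ p = 0) ∧ q = L - 1 + L % 2 - p) :
    a' = -a ∧ b' = -b ∧ (L % 2 = 1 ∧ d' = d ∨ L % 2 = 0 ∧ d' = -d) := by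
  unfold Ky at h k
  rcases h with ⟨_, h | ⟨_, _, h | h⟩ | ⟨_, h | h⟩⟩ | ⟨_, ⟨_, h | h⟩ | ⟨_, h | h⟩⟩ <;> omega

lemma Ky.sg {c L p q a b d a' b' d' : ℤ} (h : Ky c L p a b d) (k : Ky c L q a' b' d') (h1 : L ≠ 1)
    (h0 : 0 ≤ p) (e : q = p + 1 ∧ q < L ∨ q = 0 ∧ p + 1 = L) :
    L % 2 = 1 ∧ b + b' ≤ 1 ∧ -1 ≤ b + b' ∧ (a = 0 ∨ a' = 0 ∨ a' = -a) ∧ (a ≠ 0 ∨ a' ≠ 0) ∨
      L % 2 = 0 ∧ a' = -a ∧ d + d' ≤ 1 ∧ -1 ≤ d + d' := by
  unfold Ky at h k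
  rcases h with ⟨_, h | ⟨_, _, h | h⟩ | ⟨_, h | h⟩⟩ | ⟨_, ⟨_, h | h⟩ | ⟨_, h | h⟩⟩ <;> omega

def Lt (a b : ℤ × ℤ × ℤ) : Prop :=
  a.1 < b.1 ∨ a.1 = b.1 ∧ (a.2.1 < b.2.1 ∨ a.2.1 = b.2.1 ∧ a.2.2 < b.2.2)

def Bd (u w x y : ℤ × ℤ × ℤ) (o : Prop) : Prop :=
  o ∧ Lt x u ∧ ¬ Lt w y ∨ ¬ o ∧ Lt u x ∧ ¬ Lt y w

lemma bd {c L e M : ℤ} {u w x y : ℤ × ℤ × ℤ} {o : Prop} (u1 : Sm c L u.1 u.2.1 u.2.2)
    (u2 : Sm c L w.1 w.2.1 w.2.2) (u3 : L % 2 = 1 ∧ u.2.1 + w.2.1 ≤ 1 ∧ -1 ≤ u.2.1 + w.2.1 ∧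
      (u.1 = 0 ∨ w.1 = 0 ∨ w.1 = -u.1) ∧ (u.1 ≠ 0 ∨ w.1 ≠ 0) ∨
      L % 2 = 0 ∧ w.1 = -u.1 ∧ u.2.2 + w.2.2 ≤ 1 ∧ -1 ≤ u.2.2 + w.2.2)
    (x1 : Sm e M x.1 x.2.1 x.2.2) (x2 : y.1 = -x.1 ∧ y.2.1 = -x.2.1 ∧
      (M % 2 = 1 ∧ y.2.2 = x.2.2 ∨ M % 2 = 0 ∧ y.2.2 = -x.2.2)) (h : Bd u w x y o) :
    (L % 2 = 1 → M % 2 = 1) ∧ (L % 2 ≠ 1 → e = c) ∧ ∀ x' y' : ℤ × ℤ × ℤ, Sm e M x'.1 x'.2.1 x'.2.2 →
      y'.1 = -x'.1 ∧ y'.2.1 = -x'.2.1 ∧ (M % 2 = 1 ∧ y'.2.2 = x'.2.2 ∨ M % 2 = 0 ∧ y'.2.2 = -x'.2.2) →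
        Bd u w x' y' o → x = x' := by
  obtain ⟨u1, u2, u3⟩ := u
  obtain ⟨w1, w2, w3⟩ := w
  obtain ⟨x1, x2, x3⟩ := x
  obtain ⟨y1, y2, y3⟩ := y
  obtain ⟨rfl, rfl, x2⟩ := x2
  have k : (L % 2 = 1 → M % 2 = 1) ∧ (L % 2 ≠ 1 → e = c ∧ M % 2 = 0) := by
    simp only [Sm, Bd, Lt] at *
    rcases h with ⟨-, h⟩ | ⟨-, h⟩ <;> omega
  refine ⟨k.1, fun a => (k.2 a).1, fun ⟨z1, z2, z3⟩ ⟨t1, t2, t3⟩ a ⟨b1, b2, b⟩ d => ?_⟩
  simp only [Sm, Bd, Lt, Prod.mk.injEq] at *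
  subst b1 b2
  rcases Int.emod_two_eq_zero_or_one L with p | p
  · obtain ⟨rfl, q⟩ := k.2 (by omega)
    simp only [p, q, zero_ne_one, false_and, false_or, true_and] at *
    subst x2 b
    rcases h with ⟨p, h⟩ | ⟨p, h⟩ <;> rcases d with ⟨q, d⟩ | ⟨q, d⟩ <;> try contradiction
    all_goals omega
  · have q := k.1 p
    simp only [p, q, one_ne_zero, false_and, or_false, true_and] at *
    subst x2 b
    have : ∀ a b d : ℤ, (a = 0 ∧ b = 0 ∨ a = 1 ∧ 1 ≤ b ∨ a = -1 ∧ b ≤ -1) → a = b.sign := by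
      rintro a b d (⟨rfl, rfl⟩ | ⟨rfl, h⟩ | ⟨rfl, h⟩)
      exacts [rfl, (Int.sign_eq_one_of_pos h).symm, (Int.sign_eq_neg_one_of_neg (by omega)).symm]
    suffices x2 = z2 by subst this; omega
    rcases h with ⟨p, h⟩ | ⟨p, h⟩ <;> rcases d with ⟨q, d⟩ | ⟨q, d⟩ <;> try contradiction
    all_goals omega

variable [Fintype ι]

lemma exists_key (h1 : ∀ i, l i ≠ 1) : ∃ k : (Σ i, Fin (l i)) → ℤ × ℤ × ℤ, Function.Injective k ∧
    ∀ u, #{x | Lt (k x) (k u) ∧ ¬ Lt (k (sg u)) (k (ta x))} ≤ max 1 #{i | l i % 2 = 1} ∧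
      #{x | Lt (k u) (k x) ∧ ¬ Lt (k (ta x)) (k (sg u))} ≤ max 1 #{i | l i % 2 = 1} := by
  let c : ι → ℕ := fun i => Fintype.equivFin ι i
  have ci : ∀ {i j}, c i = c j → i = j := fun h => (Fintype.equivFin ι).injective (Fin.ext h)
  choose k hk using fun u : Σ i, Fin (l i) => Ky_ex (c u.1) (l u.1) u.2.val (by positivity)
  have E : ∀ x y : Σ i, Fin (l i), (c x.1 = c y.1 → l x.1 = l y.1) ∧
      (c x.1 = c y.1 ∧ x.2.val = y.2.val → x = y) := fun x y =>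
    ⟨fun h => by rw [ci h], fun h => sx (ci h.1) h.2⟩
  have B : ∀ (u : Σ i, Fin (l i)) (P : (Σ i, Fin (l i)) → Prop) [DecidablePred P],
      (∀ x, P x → if l u.1 % 2 = 1 then l x.1 % 2 = 1 else c x.1 = c u.1) →
      (∀ x y, P x → P y → c x.1 = c y.1 → x.2.val = y.2.val) →
      #{x | P x} ≤ max 1 #{i | l i % 2 = 1} := fun u P _ p q => by
    by_cases o : l u.1 % 2 = 1
    · exact le_max_of_le_right (card_le_card_of_injOn Sigma.fst (fun x hx => by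
        simpa [o] using p x (by simpa using hx)) fun x hx y hy e => sx e
          (q x y (by simpa using hx) (by simpa using hy) (congrArg c e)))
    · simp only [o, if_false] at p
      refine le_max_of_le_left (card_le_one.2 fun x hx y hy => ?_)
      have a := (mem_filter.1 hx).2
      have b := (mem_filter.1 hy).2
      exact (E x y).2 ⟨(p x a).trans (p y b).symm, q x y a b ((p x a).trans (p y b).symm)⟩
  have lt : ∀ x : Σ i, Fin (l i), ((x.2.val : ℕ) : ℤ) < l x.1 := fun x => by exact_mod_cast x.2.2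
  have sm := fun x => (hk x).sm (by positivity) (lt x)
  have ij : ∀ x y, c x.1 = c y.1 → k x = k y → x.2.val = y.2.val := fun x y a e => by
    have b := hk x
    have d := lt x
    generalize x.2.val = z at *
    rw [e, a, (E x y).1 a] at b
    exact_mod_cast b.inj (hk y) ((E x y).1 a ▸ d) (lt y)
  have tt := fun x => (hk x).ta (hk (ta x)) (lt x) (by
    have := x.2.2
    simp only [ta]
    split_ifs <;> omega)
  refine ⟨k, fun x y e => ?_, fun u => ?_⟩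
  · have a := sm x
    have b := sm y
    have : c x.1 = c y.1 := by
      rw [e] at a
      unfold Sm at a b
      omega
    exact (E x y).2 ⟨this, ij x y this e⟩
  have u1 := sm u
  have u2 : Sm (c u.1) (l u.1) _ _ _ := sm (sg u)
  have u3 := (hk u).sg (hk (sg u)) (by exact_mod_cast h1 _) (by positivity) (by
    have := u.2.2
    simp only [sg]
    split_ifs <;> omega)
  have F : ∀ o [DecidablePred fun x => Bd (k u) (k (sg u)) (k x) (k (ta x)) o],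
      #{x | Bd (k u) (k (sg u)) (k x) (k (ta x)) o} ≤ max 1 #{i | l i % 2 = 1} := fun o _ =>
    B u _ (fun x h => by
      have := bd u1 u2 u3 (sm x) (tt x) h
      split_ifs <;> omega) fun x y a b e => ij x y e ((bd u1 u2 u3 (sm x) (tt x) a).2.2 _ _
        (by rw [e, (E x y).1 e]; exact sm y) (by rw [(E x y).1 e]; exact tt y) b)
  exact ⟨by simpa [Bd] using F True, by simpa [Bd] using F False⟩

lemma exists_lab (h1 : ∀ i, l i ≠ 1) : ∃ f : (Σ i, Fin (l i)) → ℕ,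
    Set.BijOn f Set.univ (Set.Icc 1 (∑ i, l i)) ∧ ∀ u,
      f u + f (sg u) ≤ ∑ i, l i + 1 + max 1 #{i | l i % 2 = 1} ∧
        ∑ i, l i + 1 ≤ f u + f (sg u) + max 1 #{i | l i % 2 = 1} := by
  obtain ⟨k, ki, hk⟩ := exists_key h1
  have n : Fintype.card (Σ i, Fin (l i)) = ∑ i, l i := by simp
  have tri : ∀ x y, x ≠ y → (¬ Lt (k x) (k y) ↔ Lt (k y) (k x)) := fun x y h => by
    have := ki.ne h
    rw [Ne, Prod.ext_iff, Prod.ext_iff] at this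
    unfold Lt
    omega
  have irr : ∀ x, ¬ Lt x x := fun x => by unfold Lt; omega
  have s : ∀ u, #{x | Lt (k x) (k u)} + #{x | Lt (k u) (k x)} + 1 = ∑ i, l i := fun u => by
    rw [← n, ← card_univ, ← card_filter_add_card_filter_not (s := univ) fun x => Lt (k x) (k u),
      add_assoc, ← card_insert_of_notMem (a := u) (by simp [irr])]
    congr 2
    ext x
    by_cases e : x = u <;> simp [e, irr, tri]
  have tc : ∀ (P : (Σ i, Fin (l i)) → Prop) [DecidablePred P], #{x | P (ta x)} = #{x | P x} := fun P _ =>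
    card_bijective ta (Function.Involutive.bijective ta_ta) (by simp)
  have sp : ∀ (P Q : (Σ i, Fin (l i)) → Prop) [DecidablePred P] [DecidablePred Q],
      #{x | P x} ≤ #{x | P x ∧ ¬ Q (ta x)} + #{x | Q x} := fun P Q _ _ => by
      rw [← tc Q]
      exact (card_le_card fun x => by simp; tauto).trans (card_union_le _ _)
  have inj : Function.Injective fun u => #{x | Lt (k x) (k u)} + 1 := fun u v e => by
    have m : ∀ u v, Lt (k u) (k v) → #{x | Lt (k x) (k u)} < #{x | Lt (k x) (k v)} := fun u v h =>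
      card_lt_card ⟨fun x hx => by
        simp only [mem_filter, mem_univ, true_and] at *
        unfold Lt at *
        omega, fun c => irr (k u) (by simpa using c (by simpa using h : u ∈ _))⟩
    by_contra c
    simp only [add_left_inj] at e
    by_cases d : Lt (k u) (k v)
    · exact (m _ _ d).ne e
    · exact (m _ _ ((tri u v c).1 d)).ne' e
  have mt : Set.MapsTo (fun u => #{x | Lt (k x) (k u)} + 1) (univ : Finset (Σ i, Fin (l i))) (Icc 1 (∑ i, l i)) :=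
    fun u _ => by
      have := s u
      simp only [coe_Icc, Set.mem_Icc]
      omega
  refine ⟨_, by simpa using Set.BijOn.mk mt inj.injOn (surjOn_of_injOn_of_card_le _ mt inj.injOn
    (by simp)), fun u => ?_⟩
  have a := sp (fun x => Lt (k x) (k u)) fun x => Lt (k (sg u)) (k x)
  have b := sp (fun x => Lt (k u) (k x)) fun x => Lt (k x) (k (sg u))
  have := s u
  have := s (sg u)
  have := hk u
  omega

lemma lower (h1 : ∀ i, l i ≠ 1) (h3 : ∃ i, 3 ≤ l i) {f : (Σ i, Fin (l i)) → ℕ}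
    (hf : Set.BijOn f Set.univ (Set.Icc 1 (∑ i, l i))) :
    ∃ u, ∑ i, l i + 1 + max 1 #{i | l i % 2 = 1} ≤ f u + f (sg u) := by
  by_contra! c
  have inj : Function.Injective f := Set.injOn_univ.1 hf.injOn
  have ne : ∀ u : Σ i, Fin (l i), sg u ≠ u := fun u e => by
    have : (sg u).2.val = u.2.val := by rw [e]
    have := h1 u.1
    have := u.2.2
    simp only [sg] at *
    split_ifs at * <;> omega
  have n : Fintype.card (Σ i, Fin (l i)) = ∑ i, l i := by simp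
  rcases Nat.eq_zero_or_pos #{i | l i % 2 = 1} with k | k
  · have s : ∑ u, f u = ∑ x ∈ range (∑ i, l i + 1), x := by
      rw [range_eq_Ico, sum_eq_sum_Ico_succ_bot (by omega), zero_add]
      exact sum_nbij f (fun u _ => by simpa [Nat.lt_succ_iff] using hf.mapsTo trivial) inj.injOn
        (by simpa [Set.Ico_add_one_right_eq_Icc] using hf.surjOn) fun _ _ => rfl
    have := (sum_eq_sum_iff_of_le (s := univ) (g := fun _ => ∑ i, l i + 1) fun u _ => by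
      have := c u
      change f u + f (sg u) ≤ _
      omega).1 (by
      rw [sum_add_distrib, (Finite.injective_iff_bijective.1 sg_inj).sum_comp f, ← mul_two, s,
        sum_range_id_mul_two, sum_const, card_univ, n]
      simp [mul_comm])
    obtain ⟨i, hi⟩ := h3
    have a := this ⟨i, 0, by omega⟩ (mem_univ _)
    have b := this (sg ⟨i, 0, by omega⟩) (mem_univ _)
    have := congrArg (fun u => u.2.val) (inj (show f (sg (sg ⟨i, 0, by omega⟩)) = f ⟨i, 0, by omega⟩ by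
      omega))
    simp [sg, show 1 < l i by omega, show 2 < l i by omega] at this
  have pr : ∑ i, l i = 2 * ∑ i, l i / 2 + #{i | l i % 2 = 1} := by
    rw [card_filter, mul_sum, ← sum_add_distrib]
    exact sum_congr rfl fun i _ => by split_ifs <;> omega
  obtain ⟨M, hM⟩ : ∃ M, M = ∑ i, l i / 2 + #{i | l i % 2 = 1} := ⟨_, rfl⟩
  have b1 : #{u | M ≤ f u} = ∑ i, l i + 1 - M := by
    rw [← Nat.card_Icc]
    refine card_nbij f (fun u hu => by simpa using ⟨by simpa using hu, (hf.mapsTo trivial).2⟩)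
      inj.injOn fun x hx => ?_
    simp only [coe_Icc, Set.mem_Icc] at hx
    obtain ⟨u, -, rfl⟩ := hf.surjOn (show x ∈ _ from ⟨by omega, hx.2⟩)
    exact ⟨u, by simpa using hx.1, rfl⟩
  have b2 : #{u | M ≤ f u} ≤ ∑ i, l i / 2 := by
    rw [card_eq_sum_card_fiberwise (f := Sigma.fst) (t := univ) fun _ _ => mem_univ _]
    refine sum_le_sum fun i _ => ?_
    set B := filter (fun u : Σ i, Fin (l i) => u.1 = i) (univ.filter fun u => M ≤ f u) with hB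
    have d : Disjoint B (B.image sg) := disjoint_left.2 fun u a b => by
      obtain ⟨v, q, rfl⟩ := mem_image.1 b
      simp only [hB, mem_filter, mem_univ, true_and] at a q
      have := a.1
      have := q.1
      have := c v
      have := inj.ne (ne v)
      omega
    have e : #(B ∪ B.image sg) ≤ #(univ.image fun a : Fin (l i) => (⟨i, a⟩ : Σ i, Fin (l i))) :=
      card_le_card fun u hu => by
        have : u.1 = i := by
          rcases mem_union.1 hu with a | a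
          · exact (mem_filter.1 a).2
          · obtain ⟨v, b, rfl⟩ := mem_image.1 a
            exact ((mem_filter.1 b).2 :)
        subst this
        exact mem_image.2 ⟨u.2, mem_univ _, rfl⟩
    have := e.trans card_image_le
    rw [card_union_of_disjoint d, card_image_of_injective _ sg_inj, card_fin] at this
    omega
  omega

end

end Pool.Agent.H95.Nsum
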