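import Mathlib

set_option autoImplicit false

namespace Pool.Agent.H95.Nsum

open Finset
open scoped Classical

variable {m : ℕ}

/-- Vertices of the disjoint union of cycles of lengths `t i`. -/
abbrev Vx (t : Fin m → ℕ) : Type := Σ i, Fin (t i)

/-- The disjoint union of cycles of lengths `t i`. -/
def cyc (t : Fin m → ℕ) : SimpleGraph (Vx t) :=
  SimpleGraph.fromRel fun u v => u.1 = v.1 ∧ (u.2.val + 1) % t u.1 = v.2.val

/-- Bijections onto `{1, …, n}`. -/
def IsLab {t : Fin m → ℕ} (f : Vx t → ℕ) : Prop :=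
  Set.BijOn f Set.univ (Set.Icc 1 (∑ i, t i))

/-- The open neighbourhood sum at `v`. -/
noncomputable def nsum {t : Fin m → ℕ} (f : Vx t → ℕ) (v : Vx t) : ℕ :=
  ∑ u with (cyc t).Adj v u, f u

/-- The largest neighbourhood sum. -/
noncomputable def mx {t : Fin m → ℕ} (f : Vx t → ℕ) : ℕ := sSup (Set.range (nsum f))

/-- The smallest neighbourhood sum. -/
noncomputable def mn {t : Fin m → ℕ} (f : Vx t → ℕ) : ℕ := sInf (Set.range (nsum f))

/-- Odd cycles count once, cycles of length `2 mod 4` twice; the value is at least one. -/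
def K (t : Fin m → ℕ) : ℕ := max 1 (#{i | t i % 2 = 1} + 2 * #{i | t i % 4 = 2})

end Pool.Agent.H95.Nsum
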