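import Mathlib

set_option autoImplicit false

namespace Pool.Agent.H95.OddCyc

open Filter Topology

variable {γ : ℝ} {m : ℕ} {y : ℕ → ℝ}

lemma big (h1 : 1 ≤ γ) (hg : ∀ n, γ < y n)
    (hr : ∀ n, y (n + (2 * m + 3)) = γ + y n / y (n + (2 * m + 1))) : ∃ K, ∀ n, y n ≤ K := by
  have e : ∀ᶠ δ in 𝓝[>] (0 : ℝ), (0 < δ ∧ δ < 1) ∧ ∀ i ∈ Finset.range (2 * m + 3),
      γ + δ ≤ y i ∧ y i * δ ≤ 1 := by
    refine Eventually.and (Ioo_mem_nhdsGT one_pos) ?_
    refine (Finset.eventually_all _).2 fun i _ => eventually_nhdsWithin_of_eventually_nhds ?_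
    have c1 : Continuous fun δ : ℝ => γ + δ := by fun_prop
    have c2 : Continuous fun δ : ℝ => y i * δ := by fun_prop
    exact ((c1.tendsto 0).eventually_le_const (by simpa using hg i)).and
      ((c2.tendsto 0).eventually_le_const (by simp))
  obtain ⟨δ, ⟨d0, d1⟩, hd⟩ := e.exists
  have key : ∀ n, γ + δ ≤ y n ∧ y n * δ ≤ γ + δ := by
    intro n
    induction n using Nat.strong_induction_on with
    | _ n ih =>
      by_cases hn : n < 2 * m + 3
      · have := hd n (Finset.mem_range.2 hn)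
        exact ⟨this.1, by linarith [this.2]⟩
      obtain ⟨j, rfl⟩ : ∃ j, n = j + (2 * m + 3) := ⟨n - (2 * m + 3), by omega⟩
      obtain ⟨a1, a2⟩ := ih j (by omega)
      obtain ⟨b1, b2⟩ := ih (j + (2 * m + 1)) (by omega)
      have p : 0 < y (j + (2 * m + 1)) := by linarith
      rw [hr]
      constructor
      · have : δ ≤ y j / y (j + (2 * m + 1)) := by rw [le_div_iff₀ p]; linarith
        linarith
      · have : y j / y (j + (2 * m + 1)) * δ ≤ 1 := by
          rw [div_mul_eq_mul_div, div_le_one p]; linarith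
        nlinarith
  exact ⟨(γ + δ) / δ, fun n => by rw [le_div_iff₀ d0]; exact (key n).2⟩

lemma down (a b : ℕ → ℝ) (L B ε : ℝ) (t0 T : ℕ) (hL : 1 ≤ L) (hε : γ + ε ≤ ε * L) (hγ : 0 < γ)
    (he : 0 < ε) (hr : ∀ t, b (t + 1) = γ + b t / a (t + 1)) (ha : ∀ t, t0 ≤ t → t ≤ T → L ≤ a t)
    (hb : b t0 ≤ B) (hp : ∀ t, 0 ≤ b t) (r : ℕ) (h : t0 + r ≤ T) :
    b (t0 + r) ≤ γ + ε + B / L ^ r := by
  induction r with
  | zero => simp; linarith
  | succ r ih =>
    have i := ih (by omega)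
    have l := ha (t0 + r + 1) (by omega) (by omega)
    rw [← add_assoc, hr]
    have h1 : b (t0 + r) / a (t0 + r + 1) ≤ (γ + ε + B / L ^ r) / L :=
      div_le_div₀ ((hp _).trans i) i (by linarith) l
    have h2 : (γ + ε) / L ≤ ε := by rw [div_le_iff₀ (by linarith)]; exact hε
    rw [add_div, div_div, ← pow_succ] at h1
    linarith

lemma up (a b : ℕ → ℝ) (g : ℝ) (t0 T : ℕ) (hγ : 0 < γ) (hr : ∀ t, b (t + 1) = γ + b t / a (t + 1))
    (ha : ∀ t, t0 ≤ t → t ≤ T → a t ≤ g) (hp : ∀ t, γ < a t) (hb : ∀ t, γ < b t) (r : ℕ)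
    (h : t0 + r ≤ T) : γ * g⁻¹ ^ r ≤ b (t0 + r) := by
  induction r with
  | zero => simpa using (hb t0).le
  | succ r ih =>
    have i := ih (by omega)
    have l := ha (t0 + r + 1) (by omega) (by omega)
    have p := hγ.trans (hp (t0 + r + 1))
    rw [← add_assoc, hr]
    have h1 : γ * g⁻¹ ^ r / g ≤ b (t0 + r) / a (t0 + r + 1) :=
      div_le_div₀ (hγ.trans (hb _)).le i p l
    rw [div_eq_mul_inv, mul_assoc, ← pow_succ] at h1
    linarith

lemma small (h0 : 0 < γ) (h1 : γ < 1) (hg : ∀ n, γ < y n)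
    (hr : ∀ n, y (n + (2 * m + 3)) = γ + y n / y (n + (2 * m + 1))) : ∃ K, ∀ n, y n ≤ K := by
  obtain ⟨ε, hε⟩ : ∃ ε, ε = (1 - γ) / 4 := ⟨_, rfl⟩
  obtain ⟨c, hc⟩ : ∃ c, c = 2 / γ := ⟨_, rfl⟩
  have e0 : 0 < ε := by linarith
  have cγ : c * γ = 2 := by rw [hc]; field_simp
  have c2 : 2 ≤ c := by nlinarith
  obtain ⟨M, hM⟩ := ((Set.finite_lt_nat (2 * m + 3)).image y).bddAbove
  obtain ⟨L, l1, l2, l3⟩ : ∃ L, M < L ∧ 2 ≤ L ∧ c ^ (4 * m + 6) ≤ ε * L := by
    refine ⟨|M| + 2 + c ^ (4 * m + 6) / ε, ?_, ?_, ?_⟩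
    · have : 0 ≤ c ^ (4 * m + 6) / ε := by positivity
      linarith [le_abs_self M]
    · have : 0 ≤ c ^ (4 * m + 6) / ε := by positivity
      linarith [abs_nonneg M]
    · rw [mul_add, mul_div_cancel₀ _ e0.ne']
      have : 0 ≤ ε * (|M| + 2) := by positivity
      linarith
  have cp : 1 ≤ c ^ (4 * m + 6) := one_le_pow₀ (by linarith)
  have g1 : 1 < (γ + 2 * ε)⁻¹ := (one_lt_inv₀ (by linarith)).2 (by linarith)
  obtain ⟨s, hs⟩ : ∃ s, ∀ r, s + 2 ≤ r → L ≤ γ * (γ + 2 * ε)⁻¹ ^ r := by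
    obtain ⟨s, hs⟩ := eventually_atTop.1
      (((tendsto_pow_atTop_atTop_of_one_lt g1).const_mul_atTop h0).eventually_ge_atTop L)
    exact ⟨s, fun r hr => hs r (by omega)⟩
  obtain ⟨T, hT⟩ : ∃ T, T = (2 * m + 2) * (s + 2) := ⟨_, rfl⟩
  obtain ⟨B, hB⟩ : ∃ B, B = L * c ^ (T + 2) := ⟨_, rfl⟩
  have BL : B ≤ ε * L ^ (s + 2) := by
    have a1 : c ^ (T + 2) ≤ (c ^ (4 * m + 6)) ^ s * c ^ (4 * m + 6) := by
      rw [← pow_succ, ← pow_mul]
      exact pow_le_pow_right₀ (by linarith) (by rw [hT]; nlinarith)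
    have a2 : (c ^ (4 * m + 6)) ^ s ≤ L ^ s :=
      pow_le_pow_left₀ (by positivity) (by nlinarith) s
    have a3 := mul_le_mul a2 l3 (by positivity) (by positivity)
    calc B = L * c ^ (T + 2) := hB
      _ ≤ L * (L ^ s * (ε * L)) := by gcongr; exact a1.trans a3
      _ = _ := by ring
  refine ⟨B, fun n => ?_⟩
  induction n using Nat.strong_induction_on with
  | _ n ih =>
    by_contra hn
    push Not at hn
    have back : ∀ j i, j ≤ T + 2 → L * c ^ j ≤ y i → ∃ N, i = N + j * (2 * m + 3) ∧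
        ∀ t ≤ j, L ≤ y (N + t * (2 * m + 3)) := by
      intro j
      induction j with
      | zero =>
        intro i _ h
        exact ⟨i, by simp, fun t ht => by simpa [Nat.le_zero.1 ht] using h⟩
      | succ j ihj =>
        intro i hj h
        have cj : 1 ≤ c ^ (j + 1) := one_le_pow₀ (by linarith)
        have Li : L ≤ y i := by nlinarith
        have hi : 2 * m + 3 ≤ i := by
          by_contra hi
          have := hM ⟨i, not_le.1 hi, rfl⟩
          linarith
        obtain ⟨u, rfl⟩ : ∃ u, i = u + (2 * m + 3) := ⟨i - (2 * m + 3), by omega⟩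
        have q : y u / y (u + (2 * m + 1)) ≤ y u / γ :=
          div_le_div_of_nonneg_left (h0.trans (hg u)).le h0 (hg _).le
        have q2 : y (u + (2 * m + 3)) / 2 ≤ y u / γ := by
          have := hr u
          linarith
        rw [le_div_iff₀ h0] at q2
        obtain ⟨N, e, hN⟩ := ihj u (by omega) (by
          have := mul_le_mul_of_nonneg_right h h0.le
          rw [pow_succ, mul_assoc, mul_assoc, cγ] at this
          linarith)
        refine ⟨N, by rw [e]; ring, fun t ht => ?_⟩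
        rcases ht.lt_or_eq with ht | rfl
        · exact hN t (by omega)
        · rwa [show N + (j + 1) * (2 * m + 3) = u + (2 * m + 3) by rw [e]; ring]
    obtain ⟨N, e, hN⟩ := back (T + 2) n le_rfl (hB ▸ hn.le)
    have rr : ∀ l t, y (N + (t + 1) * (2 * m + 3) + 2 * (l + 1)) =
        γ + y (N + t * (2 * m + 3) + 2 * (l + 1)) / y (N + (t + 1) * (2 * m + 3) + 2 * l) := by
      intro l t
      have := hr (N + t * (2 * m + 3) + 2 * (l + 1))
      rwa [show N + t * (2 * m + 3) + 2 * (l + 1) + (2 * m + 3) =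
        N + (t + 1) * (2 * m + 3) + 2 * (l + 1) by ring, show N + t * (2 * m + 3) + 2 * (l + 1) +
        (2 * m + 1) = N + (t + 1) * (2 * m + 3) + 2 * l by ring] at this
    have P : ∀ j ≤ m + 1, ∀ t, 2 * j * (s + 2) ≤ t → t ≤ T →
        L ≤ y (N + t * (2 * m + 3) + 2 * (2 * j)) := by
      intro j
      induction j with
      | zero => intro _ t _ h; simpa using hN t (by omega)
      | succ j ihj =>
        intro hj t h2 h3
        have S : ∀ t, (2 * j + 1) * (s + 2) ≤ t → t ≤ T →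
            y (N + t * (2 * m + 3) + 2 * (2 * j + 1)) ≤ γ + 2 * ε := by
          intro t h2 h3
          obtain ⟨r, rfl⟩ : ∃ r, t = 2 * j * (s + 2) + r := ⟨t - 2 * j * (s + 2), by
            have : 2 * j * (s + 2) ≤ t := le_trans (by nlinarith) h2
            omega⟩
          have d := down (γ := γ) (fun t => y (N + t * (2 * m + 3) + 2 * (2 * j)))
            (fun t => y (N + t * (2 * m + 3) + 2 * (2 * j + 1))) L B ε (2 * j * (s + 2)) T
            (by linarith) (by linarith) h0 e0 (rr (2 * j)) (ihj (by omega))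
            (ih _ (by
              have : 2 * j * (s + 2) * (2 * m + 3) ≤ T * (2 * m + 3) :=
                Nat.mul_le_mul_right _ (by omega)
              rw [e]; nlinarith)) (fun t => (h0.trans (hg _)).le) r h3
          have : B / L ^ r ≤ ε := by
            rw [div_le_iff₀ (by positivity)]
            refine BL.trans (mul_le_mul_of_nonneg_left ?_ e0.le)
            exact pow_le_pow_right₀ (by linarith) (by nlinarith)
          linarith
        obtain ⟨r, rfl⟩ : ∃ r, t = (2 * j + 1) * (s + 2) + r := ⟨t - (2 * j + 1) * (s + 2), by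
          have : (2 * j + 1) * (s + 2) ≤ t := le_trans (by nlinarith) h2
          omega⟩
        have u := up (γ := γ) (fun t => y (N + t * (2 * m + 3) + 2 * (2 * j + 1)))
          (fun t => y (N + t * (2 * m + 3) + 2 * (2 * j + 1 + 1))) (γ + 2 * ε)
          ((2 * j + 1) * (s + 2)) T h0 (rr (2 * j + 1)) S (fun _ => hg _) (fun _ => hg _) r h3
        exact (hs r (by nlinarith)).trans u
    have f1 := P (m + 1) le_rfl T (by rw [hT]; nlinarith) le_rfl
    have f2 := hr (N + (T + 1) * (2 * m + 3))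
    rw [show N + (T + 1) * (2 * m + 3) + (2 * m + 3) = n by rw [e]; ring,
      show N + (T + 1) * (2 * m + 3) + (2 * m + 1) = N + T * (2 * m + 3) + 2 * (2 * (m + 1)) by
        ring] at f2
    have f3 := ih (N + (T + 1) * (2 * m + 3)) (by rw [e]; nlinarith)
    have cT : 1 ≤ c ^ (T + 2) := one_le_pow₀ (by linarith)
    have B2 : 2 ≤ B := by rw [hB]; nlinarith
    have f4 := div_le_div₀ (by linarith) f3 two_pos (l2.trans f1)
    linarith

theorem bdd (h0 : 0 < γ) (hm : 1 ≤ m) (x : ℕ → ℝ) (hx : ∀ i < 2 * m + 1, 0 < x i)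
    (hr : ∀ n, x (n + (2 * m + 1)) = γ + x n / x (n + (2 * m - 1))) : BddAbove (Set.range x) := by
  obtain ⟨m, rfl⟩ : ∃ k, m = k + 1 := ⟨m - 1, by omega⟩
  have hr' : ∀ n, x (n + (2 * m + 3)) = γ + x n / x (n + (2 * m + 1)) := hr
  have pos : ∀ n, 0 < x n := by
    intro n
    induction n using Nat.strong_induction_on with
    | _ n ih =>
      by_cases hn : n < 2 * m + 3
      · exact hx n (by omega)
      obtain ⟨j, rfl⟩ : ∃ j, n = j + (2 * m + 3) := ⟨n - (2 * m + 3), by omega⟩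
      have := ih j (by omega)
      have := ih (j + (2 * m + 1)) (by omega)
      rw [hr']
      positivity
  have hg : ∀ n, γ < x (n + (2 * m + 3)) := fun n => by
    have := div_pos (pos n) (pos (n + (2 * m + 1)))
    rw [hr']
    linarith
  have hy : ∀ n, x (n + (2 * m + 3) + (2 * m + 3)) =
      γ + x (n + (2 * m + 3)) / x (n + (2 * m + 1) + (2 * m + 3)) := fun n => by
    rw [hr', add_right_comm n (2 * m + 3) (2 * m + 1)]
  obtain ⟨K, hK⟩ : ∃ K, ∀ n, x (n + (2 * m + 3)) ≤ K := by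
    rcases lt_or_ge γ 1 with h | h
    · exact small (y := fun n => x (n + (2 * m + 3))) h0 h hg hy
    · exact big (y := fun n => x (n + (2 * m + 3))) h hg hy
  obtain ⟨M, hM⟩ := ((Set.finite_lt_nat (2 * m + 3)).image x).bddAbove
  refine ⟨max K M, ?_⟩
  rintro _ ⟨n, rfl⟩
  by_cases hn : n < 2 * m + 3
  · exact (hM ⟨n, hn, rfl⟩).trans (le_max_right _ _)
  · have := hK (n - (2 * m + 3))
    rw [Nat.sub_add_cancel (not_lt.1 hn)] at this
    exact this.trans (le_max_left _ _)

end Pool.Agent.H95.OddCyc
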