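import Mathlib

set_option autoImplicit false
open NormedSpace Filter Topology

namespace Pool.Agent.H95.OpLip

variable {𝔸 : Type} [CStarAlgebra 𝔸]

theorem unit_exp (X : 𝔸) (hX : IsSelfAdjoint X) (c : ℂ) (hc : star c = -c) (s : ℝ) :
    exp (s • (c • X)) ∈ unitary 𝔸 := by
  letI : NormedAlgebra ℚ 𝔸 := NormedAlgebra.restrictScalars ℚ ℂ 𝔸
  apply exp_mem_unitary_of_mem_skewAdjoint
  rw [skewAdjoint.mem_iff, star_smul, star_smul, hX.star_eq, hc]
  simp

theorem key (A B X Y : 𝔸) (c : ℂ) (hc : star c = -c) (hc1 : ‖c‖ = 1) (hX : IsSelfAdjoint X)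
    (hY : IsSelfAdjoint Y) (h1 : A * X = 1) (h2 : X * A = 1) (h3 : B * Y = 1) (h4 : Y * B = 1) :
    ‖A * exp (c • X) * A - B * exp (c • Y) * B‖ ≤ (‖A‖ + ‖B‖ + 1) * ‖A - B‖ := by
  have cA : ∀ s : ℝ, Commute A (exp (s • (c • X))) := fun s =>
    (((show Commute A X from h1.trans h2.symm).smul_right c).smul_right s).exp_right
  have cB : ∀ s : ℝ, Commute B (exp (s • (c • Y))) := fun s =>
    (((show Commute B Y from h3.trans h4.symm).smul_right c).smul_right s).exp_right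
  have hd : ∀ s : ℝ, HasDerivAt
      (fun s : ℝ => A * exp (s • (c • X)) * exp ((1 - s) • (c • Y)) * B)
      (c • (exp (s • (c • X)) * (B - A) * exp ((1 - s) • (c • Y)))) s := by
    intro s
    have d1 := hasDerivAt_exp_smul_const (𝕂 := ℝ) (c • X) s
    have d2 := (hasDerivAt_exp_smul_const' (𝕂 := ℝ) (c • Y) (1 - s)).scomp s
      ((hasDerivAt_id s).const_sub 1)
    have d3 := ((d1.const_mul A).mul d2).mul_const B
    refine HasDerivAt.congr_deriv d3 ?_
    have e1 := (cA s).eq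
    have e2 := (cB (1 - s)).eq
    set U := exp (s • (c • X))
    set E := exp ((1 - s) • (c • Y))
    simp only [Function.comp, neg_smul, one_smul, mul_neg, add_mul, neg_mul, mul_smul_comm,
      smul_mul_assoc]
    change c • (A * (U * X) * E * B) + -(c • (A * U * (Y * E) * B)) = _
    have a1 : A * (U * X) * E * B = U * B * E := by
      rw [← mul_assoc A, e1, mul_assoc U, h1, mul_one, mul_assoc, ← e2, mul_assoc]
    have a2 : A * U * (Y * E) * B = U * A * E := by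
      rw [e1, mul_assoc, mul_assoc Y, ← e2, ← mul_assoc Y, h4, one_mul]
    rw [a1, a2, mul_sub, sub_mul, smul_sub, sub_eq_add_neg]
  have hm := norm_image_sub_le_of_norm_deriv_le_segment_01' (C := ‖A - B‖)
    (fun s _ => (hd s).hasDerivWithinAt) (fun s _ => by
      rw [norm_smul, hc1, one_mul, CStarRing.norm_mul_mem_unitary _ (unit_exp Y hY c hc _),
        CStarRing.norm_mem_unitary_mul _ (unit_exp X hX c hc _), norm_sub_rev])
  simp only [one_smul, sub_self, zero_smul, exp_zero, mul_one, sub_zero] at hm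
  have uA := unit_exp X hX c hc 1
  have uB := unit_exp Y hY c hc 1
  rw [one_smul] at uA uB
  have e : A * exp (c • X) * A - B * exp (c • Y) * B = A * (exp (c • X) * (A - B)) +
      (A * exp (c • X) * B - A * exp (c • Y) * B) + (A - B) * exp (c • Y) * B := by
    noncomm_ring
  rw [e]
  have n1 := norm_mul_le A (exp (c • X) * (A - B))
  rw [CStarRing.norm_mem_unitary_mul _ uA] at n1
  have n2 := norm_mul_le ((A - B) * exp (c • Y)) B
  rw [CStarRing.norm_mul_mem_unitary _ uB] at n2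
  refine (norm_add₃_le).trans ?_
  nlinarith

theorem sin_eq (X : 𝔸) (hX : IsSelfAdjoint X) :
    cfc Real.sin X = (1 / (2 * Complex.I)) • (exp (Complex.I • X) - exp ((-Complex.I) • X)) := by
  have hn : IsStarNormal X := hX.isStarNormal
  rw [cfc_real_eq_complex Real.sin hX, ← CFC.complex_exp_eq_normedSpace_exp (p := IsStarNormal),
    ← CFC.complex_exp_eq_normedSpace_exp (p := IsStarNormal),
    ← cfc_comp_smul Complex.I Complex.exp X, ← cfc_comp_smul (-Complex.I) Complex.exp X,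
    ← cfc_sub _ _ X, ← cfc_const_mul _ _ X]
  apply cfc_congr
  intro z hz
  have := hX.mem_spectrum_eq_re hz
  simp only [smul_eq_mul, Complex.ofReal_sin]
  rw [← this, Complex.sin]
  field_simp
  simp

noncomputable def h (x : ℝ) : ℝ := x * Real.sin x⁻¹ * x

theorem h_pos (A B : 𝔸) (hA : IsSelfAdjoint A) (hB : IsSelfAdjoint B)
    (hA0 : ∀ x ∈ spectrum ℝ A, x ≠ 0) (hB0 : ∀ x ∈ spectrum ℝ B, x ≠ 0) :
    ‖cfc h A - cfc h B‖ ≤ (‖A‖ + ‖B‖ + 1) * ‖A - B‖ := by
  have gen : ∀ A : 𝔸, IsSelfAdjoint A → (∀ x ∈ spectrum ℝ A, x ≠ 0) → ∃ X : 𝔸, IsSelfAdjoint X ∧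
      A * X = 1 ∧ X * A = 1 ∧ cfc h A = A * cfc Real.sin X * A := by
    intro A hA hA0
    have c1 : ContinuousOn (fun x : ℝ => x⁻¹) (spectrum ℝ A) := continuousOn_id.inv₀ hA0
    have c2 : ContinuousOn (fun x : ℝ => Real.sin x⁻¹) (spectrum ℝ A) :=
      Real.continuous_sin.comp_continuousOn c1
    refine ⟨cfc (fun x : ℝ => x⁻¹) A, cfc_predicate _ _, ?_, ?_, ?_⟩
    · conv_lhs => lhs; rw [← cfc_id' ℝ A]
      rw [← cfc_mul _ _ A, ← cfc_one ℝ A]
      exact cfc_congr fun x hx => mul_inv_cancel₀ (hA0 x hx)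
    · conv_lhs => rhs; rw [← cfc_id' ℝ A]
      rw [← cfc_mul _ _ A, ← cfc_one ℝ A]
      exact cfc_congr fun x hx => inv_mul_cancel₀ (hA0 x hx)
    · rw [← cfc_comp' Real.sin (fun x : ℝ => x⁻¹) A]
      unfold h
      rw [cfc_mul _ _ A, cfc_mul _ _ A, cfc_id' ℝ A]
  obtain ⟨X, hX, a1, a2, a3⟩ := gen A hA hA0
  obtain ⟨Y, hY, b1, b2, b3⟩ := gen B hB hB0
  have k1 := key A B X Y Complex.I (by simp) (by simp) hX hY a1 a2 b1 b2
  have k2 := key A B X Y (-Complex.I) (by simp) (by simp) hX hY a1 a2 b1 b2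
  have e : cfc h A - cfc h B = (1 / (2 * Complex.I)) •
      ((A * exp (Complex.I • X) * A - B * exp (Complex.I • Y) * B) -
        (A * exp ((-Complex.I) • X) * A - B * exp ((-Complex.I) • Y) * B)) := by
    rw [a3, b3, sin_eq X hX, sin_eq Y hY]
    simp only [mul_smul_comm, smul_mul_assoc, ← smul_sub]
    congr 1
    noncomm_ring
  rw [e, norm_smul]
  have := norm_sub_le (A * exp (Complex.I • X) * A - B * exp (Complex.I • Y) * B)
    (A * exp ((-Complex.I) • X) * A - B * exp ((-Complex.I) • Y) * B)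
  have e2 : ‖1 / (2 * Complex.I)‖ = 1 / 2 := by simp
  rw [e2]
  linarith

theorem h_deriv0 : HasDerivAt h 0 0 := by
  rw [hasDerivAt_iff_tendsto_slope_zero]
  have : Tendsto (fun t : ℝ => t * Real.sin t⁻¹) (𝓝[≠] 0) (𝓝 0) := by
    refine squeeze_zero_norm (a := fun t => ‖t‖) (fun t => ?_)
      (tendsto_nhdsWithin_of_tendsto_nhds (by simpa using continuous_norm.tendsto (0 : ℝ)))
    rw [norm_mul]
    exact mul_le_of_le_one_right (norm_nonneg _) (Real.abs_sin_le_one _)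
  refine this.congr' (eventually_nhdsWithin_of_forall fun t ht => ?_)
  have ht' : t ≠ 0 := ht
  simp [h]
  field_simp

theorem h_deriv (x : ℝ) (hx : x ≠ 0) :
    HasDerivAt h (2 * x * Real.sin x⁻¹ - Real.cos x⁻¹) x := by
  have := ((hasDerivAt_id x).mul (hasDerivAt_inv hx).sin).mul (hasDerivAt_id x)
  refine HasDerivAt.congr_deriv this ?_
  simp
  field_simp
  ring

theorem h_cont : Continuous h := continuous_iff_continuousAt.2 fun x => by
  by_cases hx : x = 0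
  · rw [hx]; exact h_deriv0.continuousAt
  · exact (h_deriv x hx).continuousAt

theorem norm_le (A : 𝔸) (hA : IsSelfAdjoint A) (hs : spectrum ℝ A ⊆ Set.Icc 0 1) : ‖A‖ ≤ 1 := by
  conv_lhs => rw [← cfc_id' ℝ A]
  exact norm_cfc_le zero_le_one fun x hx => by
    rw [Real.norm_eq_abs, abs_le]; exact ⟨by linarith [(hs hx).1], (hs hx).2⟩

theorem h_lip (A B : 𝔸) (hA : IsSelfAdjoint A) (hB : IsSelfAdjoint B)
    (hA0 : spectrum ℝ A ⊆ Set.Icc 0 1) (hB0 : spectrum ℝ B ⊆ Set.Icc 0 1) :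
    ‖cfc h A - cfc h B‖ ≤ 3 * ‖A - B‖ := by
  let sh : 𝔸 → ℝ → 𝔸 := fun A ε => algebraMap ℝ 𝔸 ε + A
  have sa : ∀ A : 𝔸, IsSelfAdjoint A → ∀ ε, IsSelfAdjoint (sh A ε) := fun A hA ε =>
    (IsSelfAdjoint.algebraMap 𝔸 (.all ε)).add hA
  have sp : ∀ A : 𝔸, spectrum ℝ A ⊆ Set.Icc 0 1 → ∀ ε, ∀ x ∈ spectrum ℝ (sh A ε),
      x - ε ∈ Set.Icc (0 : ℝ) 1 := fun A hA ε x hx => by
    apply hA
    rw [← spectrum.add_mem_add_iff (s := ε), sub_add_cancel]
    exact hx
  have t0 : ∀ A : 𝔸, Tendsto (sh A) (𝓝[Set.Ioc 0 1] 0) (𝓝 A) := fun A => by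
    apply tendsto_nhdsWithin_of_tendsto_nhds
    have : Continuous (sh A) := by fun_prop
    simpa [sh] using this.tendsto 0
  have t1 : ∀ A : 𝔸, IsSelfAdjoint A → spectrum ℝ A ⊆ Set.Icc 0 1 →
      Tendsto (fun ε => cfc h (sh A ε)) (𝓝[Set.Ioc 0 1] 0) (𝓝 (cfc h A)) := fun A hA hs => by
    have c := continuousOn_cfc 𝔸 (p := IsSelfAdjoint) (isCompact_Icc (a := (0 : ℝ)) (b := 2)) h
      h_cont.continuousOn A ⟨hA, hs.trans (Set.Icc_subset_Icc le_rfl (by norm_num))⟩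
    refine c.tendsto.comp (tendsto_nhdsWithin_iff.2 ⟨t0 A, ?_⟩)
    refine eventually_nhdsWithin_of_forall fun ε hε => ⟨sa A hA ε, fun x hx => ?_⟩
    have := sp A hs ε x hx
    exact ⟨by linarith [this.1, hε.1], by linarith [this.2, hε.2]⟩
  haveI : (𝓝[Set.Ioc (0 : ℝ) 1] 0).NeBot := left_nhdsWithin_Ioc_neBot zero_lt_one
  have := le_of_tendsto_of_tendsto ((t1 A hA hA0).sub (t1 B hB hB0)).norm
    ((((t0 A).norm.add (t0 B).norm).add_const 1).mul ((t0 A).sub (t0 B)).norm)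
    (eventually_nhdsWithin_of_forall fun ε hε => h_pos _ _ (sa A hA ε) (sa B hB ε)
      (fun x hx => by have := (sp A hA0 ε x hx).1; linarith [hε.1] |> ne_of_gt)
      (fun x hx => by have := (sp B hB0 ε x hx).1; linarith [hε.1] |> ne_of_gt))
  have n1 := norm_le A hA hA0
  have n2 := norm_le B hB hB0
  nlinarith [norm_nonneg (A - B)]

noncomputable def f (x : ℝ) : ℝ := x + h x + 2 * (x * x)

theorem f_lip (A B : 𝔸) (hA : IsSelfAdjoint A) (hB : IsSelfAdjoint B)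
    (hA0 : spectrum ℝ A ⊆ Set.Icc 0 1) (hB0 : spectrum ℝ B ⊆ Set.Icc 0 1) :
    ‖cfc f A - cfc f B‖ ≤ 8 * ‖A - B‖ := by
  have hc := h_cont
  have e : ∀ A : 𝔸, IsSelfAdjoint A → cfc f A = A + cfc h A + (2 : ℝ) • (A * A) := fun A hA => by
    unfold f
    rw [cfc_add A _ _, cfc_add A _ _, cfc_const_mul _ _ A, cfc_mul _ _ A, cfc_id' ℝ A]
  have e2 : cfc f A - cfc f B = (A - B) + (cfc h A - cfc h B) +
      (2 : ℝ) • (A * (A - B) + (A - B) * B) := by
    rw [e A hA, e B hB, mul_sub, sub_mul, smul_add, smul_sub, smul_sub]; abel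
  rw [e2]
  refine norm_add₃_le.trans ?_
  have n1 := norm_le A hA hA0
  have n2 := norm_le B hB hB0
  have n3 := h_lip A B hA hB hA0 hB0
  have n4 := norm_add_le (A * (A - B)) ((A - B) * B)
  have n5 := norm_mul_le A (A - B)
  have n6 := norm_mul_le (A - B) B
  rw [norm_smul, Real.norm_two]
  nlinarith [norm_nonneg (A - B)]

theorem f_deriv (x : ℝ) (hx : x ≠ 0) :
    HasDerivAt f (1 + (2 * x * Real.sin x⁻¹ - Real.cos x⁻¹) + 4 * x) x := by
  have := ((hasDerivAt_id x).add (h_deriv x hx)).add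
    (((hasDerivAt_id x).mul (hasDerivAt_id x)).const_mul 2)
  refine HasDerivAt.congr_deriv this ?_
  simp; ring

theorem f_deriv0 : HasDerivAt f 1 0 := by
  have := ((hasDerivAt_id (0 : ℝ)).add h_deriv0).add
    (((hasDerivAt_id (0 : ℝ)).mul (hasDerivAt_id (0 : ℝ))).const_mul 2)
  refine HasDerivAt.congr_deriv this ?_
  simp

theorem main :
    ¬ (∀ (f : ℝ → ℝ) (a b : ℝ),
      (ContinuousOn f (Set.Icc a b) ∧
        ∃ C : ℝ, ∀ (H : Type) [NormedAddCommGroup H] [InnerProductSpace ℂ H] [CompleteSpace H],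
          ∀ A B : H →L[ℂ] H, IsSelfAdjoint A → IsSelfAdjoint B →
            spectrum ℝ A ⊆ Set.Icc a b → spectrum ℝ B ⊆ Set.Icc a b →
              ‖cfc f A - cfc f B‖ ≤ C * ‖A - B‖) →
      (∀ x ∈ Set.Icc a b, ∃ d : ℝ, d ≠ 0 ∧ HasDerivWithinAt f d (Set.Icc a b) x) →
      ∃ g : ℝ → ℝ, (∀ x ∈ Set.Icc a b, g (f x) = x) ∧
        (ContinuousOn g (Set.uIcc (f a) (f b)) ∧
          ∃ C : ℝ, ∀ (H : Type) [NormedAddCommGroup H] [InnerProductSpace ℂ H] [CompleteSpace H],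
            ∀ A B : H →L[ℂ] H, IsSelfAdjoint A → IsSelfAdjoint B →
              spectrum ℝ A ⊆ Set.uIcc (f a) (f b) → spectrum ℝ B ⊆ Set.uIcc (f a) (f b) →
                ‖cfc g A - cfc g B‖ ≤ C * ‖A - B‖)) := by
  intro hh
  have hc := h_cont
  obtain ⟨g, hg, -, C, hC⟩ := hh f 0 1 ⟨Continuous.continuousOn (by unfold f; fun_prop), 8,
    fun H _ _ _ A B => f_lip A B⟩ (fun x hx => by
      by_cases h0 : x = 0
      · subst h0; exact ⟨1, one_ne_zero, f_deriv0.hasDerivWithinAt⟩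
      · refine ⟨_, ne_of_gt ?_, (f_deriv x h0).hasDerivWithinAt⟩
        have : 0 < x := lt_of_le_of_ne hx.1 (Ne.symm h0)
        nlinarith [Real.neg_one_le_sin x⁻¹, Real.cos_le_one x⁻¹])
  have hin : ∀ x ∈ Set.Ioo (0 : ℝ) (1 / 2), f x ∈ Set.uIcc (f 0) (f 1) := by
    intro x hx
    apply Set.Icc_subset_uIcc
    have s1 := Real.neg_one_le_sin x⁻¹
    have s2 := Real.sin_le_one x⁻¹
    have s3 := Real.neg_one_le_sin 1
    have s4 : 0 < x * x := mul_pos hx.1 hx.1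
    simp only [f, h, inv_one]
    constructor <;> nlinarith [hx.1, hx.2]
  have hl : ∀ x ∈ Set.Ioo (0 : ℝ) (1 / 2), ∀ y ∈ Set.Ioo (0 : ℝ) (1 / 2),
      |x - y| ≤ C * |f x - f y| := by
    intro x hx y hy
    have := hC ℂ (algebraMap ℝ _ (f x)) (algebraMap ℝ _ (f y))
      (IsSelfAdjoint.algebraMap _ (.all _)) (IsSelfAdjoint.algebraMap _ (.all _))
      ((CFC.spectrum_algebraMap_subset (p := IsSelfAdjoint) _).trans (by simpa using hin x hx))
      ((CFC.spectrum_algebraMap_subset (p := IsSelfAdjoint) _).trans (by simpa using hin y hy))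
    rw [cfc_algebraMap, cfc_algebraMap, ← map_sub, ← map_sub, norm_algebraMap', norm_algebraMap',
      hg x ⟨hx.1.le, by linarith [hx.2]⟩, hg y ⟨hy.1.le, by linarith [hy.2]⟩] at this
    exact this
  obtain ⟨k, hk⟩ := exists_nat_gt (|C| + 1)
  have hk1 : (1 : ℝ) < k := by linarith [abs_nonneg C]
  have hpi := Real.pi_gt_three
  set x : ℝ := ((k : ℝ) * (2 * Real.pi))⁻¹ with hx
  have hx0 : 0 < x := by positivity
  have hx1 : x * ((k : ℝ) * (2 * Real.pi)) = 1 := inv_mul_cancel₀ (by positivity)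
  have hx2 : x * k < 1 / 6 := by nlinarith [mul_pos hx0 (zero_lt_one.trans hk1)]
  have hx3 : x < 1 / 2 := by nlinarith
  have hd := f_deriv x hx0.ne'
  have hsin : Real.sin ((k : ℝ) * (2 * Real.pi)) = 0 := by
    simpa using Real.sin_add_nat_mul_two_pi 0 k
  rw [hx, inv_inv, hsin, Real.cos_nat_mul_two_pi, ← hx,
    hasDerivAt_iff_tendsto_slope] at hd
  have h1 : 1 ≤ C * |1 + (2 * x * 0 - 1) + 4 * x| := by
    refine ge_of_tendsto (hd.abs.const_mul C) ?_
    filter_upwards [self_mem_nhdsWithin, nhdsWithin_le_nhds (Ioo_mem_nhds hx0 hx3)] with y h1 h2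
    have h3 : 0 < |y - x| := abs_pos.2 (sub_ne_zero.2 h1)
    rw [slope_def_field, abs_div, ← mul_div_assoc, le_div_iff₀ h3, one_mul]
    exact hl y h2 x ⟨hx0, hx3⟩
  rw [show 1 + (2 * x * 0 - 1) + 4 * x = 4 * x by ring, abs_of_pos (by linarith)] at h1
  nlinarith [le_abs_self C]

end Pool.Agent.H95.OpLip
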