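import Mathlib

namespace Pool.Agent.H95.OpenSg
open Filter Topology Metric Set BoundedContinuousFunction

/-- bounded continuous functions on the plane, holomorphic in the unit disc -/
noncomputable def DA : Subalgebra ℂ (ℂ →ᵇ ℂ) where
  carrier := {g | DifferentiableOn ℂ g (ball 0 1)}
  mul_mem' := fun h1 h2 => DifferentiableOn.mul h1 h2
  add_mem' := fun h1 h2 => DifferentiableOn.add h1 h2
  algebraMap_mem' := fun c => (differentiableOn_const (algebraMap ℂ ℂ c)).congr fun _ _ => by simp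

theorem closedDA : IsClosed (DA : Set (ℂ →ᵇ ℂ)) := by
  refine isClosed_of_closure_subset fun g hg => ?_
  obtain ⟨u, hu, hg⟩ := mem_closure_iff_seq_limit.1 hg
  exact ((tendsto_iff_tendstoUniformly.1 hg).tendstoUniformlyOn.tendstoLocallyUniformlyOn).differentiableOn
    (Eventually.of_forall hu) isOpen_ball

instance : CompleteSpace DA := closedDA.completeSpace_coe

def Sq (g : ℂ → ℂ) : Prop := ∃ h : ℂ → ℂ, ContinuousOn h (sphere 0 1) ∧ ∀ z ∈ sphere (0 : ℂ) 1, h z ^ 2 = g z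

theorem Sq.near {g k : ℂ → ℂ} (h : Sq g) (hg : ContinuousOn g (sphere 0 1))
    (hk : ContinuousOn k (sphere 0 1)) (hn : ∀ z ∈ sphere (0 : ℂ) 1, ‖k z - g z‖ < ‖g z‖) : Sq k := by
  obtain ⟨h, hc, he⟩ := h
  have g0 : ∀ z ∈ sphere (0 : ℂ) 1, g z ≠ 0 := fun z hz =>
    norm_pos_iff.1 ((norm_nonneg _).trans_lt (hn z hz))
  refine ⟨fun z => h z * (k z / g z) ^ ((2 : ℕ) : ℂ)⁻¹,
    hc.mul ((hk.div hg g0).cpow_const fun z hz => ?_), fun z hz => ?_⟩
  · have : k z / g z = 1 + (k z - g z) / g z := by field_simp [g0 z hz]; ring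
    rw [Pi.div_apply, this]
    refine Complex.mem_slitPlane_of_norm_lt_one ?_
    rw [norm_div, div_lt_one (norm_pos_iff.2 (g0 z hz))]
    exact hn z hz
  · rw [mul_pow, Complex.cpow_nat_inv_pow _ two_ne_zero, he z hz]; field_simp [g0 z hz]

theorem notSq (m : ℕ) : ¬ Sq fun z => z ^ (2 * m + 1) := by
  rintro ⟨h, hc, he⟩
  have ng : ∀ z ∈ sphere (0 : ℂ) 1, -z ∈ sphere (0 : ℂ) 1 := fun z hz => by simpa using hz
  have h0 : ∀ z ∈ sphere (0 : ℂ) 1, h z ≠ 0 := fun z hz e => by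
    have := he z hz
    rw [e] at this
    have := congrArg norm this
    simp [mem_sphere_zero_iff_norm.1 hz] at this
  have hq : ContinuousOn (fun z => h (-z) / h z) (sphere 0 1) :=
    (hc.comp continuous_neg.continuousOn ng).div hc h0
  have q2 : ∀ z ∈ sphere (0 : ℂ) 1, (h (-z) / h z) ^ 2 = -1 := fun z hz => by
    have z0 : z ≠ 0 := fun e => by simp [e] at hz
    rw [div_pow, he _ hz, he _ (ng z hz)]
    beta_reduce
    rw [Odd.neg_pow ⟨m, rfl⟩, neg_div, div_self (pow_ne_zero _ z0)]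
  have hp : IsPreconnected (sphere (0 : ℂ) 1) :=
    isPreconnected_sphere (by rw [Complex.rank_real_complex]; norm_num) _ _
  have o : (1 : ℂ) ∈ sphere (0 : ℂ) 1 := by simp
  have := hp.constant_of_mapsTo (T := {Complex.I, -Complex.I}) (Set.toFinite _).isDiscrete hq
    (fun z hz => by
      have := q2 z hz
      rw [← Complex.I_sq, sq_eq_sq_iff_eq_or_eq_neg] at this
      exact this) o (ng _ o)
  have e := q2 1 o
  rw [sq] at e
  nth_rewrite 1 [this] at e
  rw [neg_neg, div_mul_div_cancel₀ (h0 _ (ng _ o)), div_self (h0 _ o)] at e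
  norm_num at e

def S : Set DA := {g | (∀ z ∈ sphere (0 : ℂ) 1, g.1 z ≠ 0) ∧ (Sq g.1 ∨ ∃ w ∈ ball (0 : ℂ) (1 / 4), g.1 w = 0)}

theorem le_d (g k : DA) (z : ℂ) : ‖k.1 z - g.1 z‖ ≤ dist k g :=
  (dist_eq_norm _ _).symm.trans_le (dist_coe_le_dist (f := k.1) (g := g.1) z)

theorem lowb {g : ℂ → ℂ} (hg : Continuous g) {c : ℂ} {r : ℝ} (h : ∀ z ∈ sphere c r, g z ≠ 0) :
    ∃ m > 0, ∀ z ∈ sphere c r, m ≤ ‖g z‖ :=
  (isCompact_sphere c r).exists_forall_le' hg.norm.continuousOn fun z hz => norm_pos_iff.2 (h z hz)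

theorem zero_near (g : DA) (h1 : g.1 1 ≠ 0) {w : ℂ} (hw : w ∈ ball (0 : ℂ) (1 / 4)) (h0 : g.1 w = 0) :
    ∀ᶠ k in 𝓝 g, ∃ w ∈ ball (0 : ℂ) (1 / 4), k.1 w = 0 := by
  have sub : ball (0 : ℂ) (1 / 4) ⊆ ball 0 1 := ball_subset_ball (by norm_num)
  have an : AnalyticOnNhd ℂ g.1 (ball 0 1) := DifferentiableOn.analyticOnNhd g.2 isOpen_ball
  have ne : ∀ᶠ z in 𝓝[≠] w, g.1 z ≠ 0 := by
    refine (an w (sub hw)).eventually_eq_zero_or_eventually_ne_zero.resolve_left fun h => h1 ?_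
    have := (an.eqOn_zero_of_preconnected_of_eventuallyEq_zero (convex_ball 0 1).isPreconnected
      (sub hw) h).closure g.1.continuous continuous_const
    exact this (by rw [closure_ball _ one_ne_zero]; simp)
  rw [eventually_nhdsWithin_iff] at ne
  obtain ⟨r, r0, hr⟩ := nhds_basis_closedBall.eventually_iff.1 (ne.and (isOpen_ball.mem_nhds hw))
  obtain ⟨m, m0, hm⟩ := lowb g.1.continuous (c := w) (r := r) fun z hz =>
    (hr (sphere_subset_closedBall hz)).1 fun e => by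
      rw [mem_singleton_iff.1 e] at hz; simp at hz; linarith
  filter_upwards [ball_mem_nhds g (half_pos m0)] with k hk
  by_contra! hn
  have k0 : ∀ z ∈ closedBall w r, k.1 z ≠ 0 := fun z hz => hn z (hr hz).2
  have dc : DiffContOnCl ℂ (fun z => (k.1 z)⁻¹) (ball w r) := by
    refine ⟨(DifferentiableOn.mono k.2 fun z hz => sub (hr (ball_subset_closedBall hz)).2).inv
      fun z hz => k0 z (ball_subset_closedBall hz), ?_⟩
    rw [closure_ball _ r0.ne']
    exact k.1.continuous.continuousOn.inv₀ k0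
  have := Complex.norm_le_of_forall_mem_frontier_norm_le isBounded_ball dc (C := (m / 2)⁻¹)
    (fun z hz => by
      rw [frontier_ball _ r0.ne'] at hz
      rw [norm_inv]
      refine inv_anti₀ (half_pos m0) ?_
      linarith [hm z hz, le_d g k z, mem_ball.1 hk, norm_sub_norm_le (g.1 z) (k.1 z),
        norm_sub_rev (g.1 z) (k.1 z)]) (subset_closure (mem_ball_self r0))
  rw [norm_inv, inv_le_inv₀ (norm_pos_iff.2 (hn w hw)) (half_pos m0)] at this
  have e := le_d g k w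
  rw [h0, sub_zero] at e
  linarith [mem_ball.1 hk]

theorem openS : IsOpen S := by
  refine isOpen_iff_mem_nhds.2 fun g ⟨h1, h2⟩ => ?_
  obtain ⟨m, m0, hm⟩ := lowb g.1.continuous h1
  have lt : ∀ᶠ k in 𝓝 g, ∀ z ∈ sphere (0 : ℂ) 1, ‖k.1 z - g.1 z‖ < ‖g.1 z‖ := by
    filter_upwards [ball_mem_nhds g m0] with k hk z hz
    linarith [hm z hz, le_d g k z, mem_ball.1 hk]
  have n0 : ∀ᶠ k in 𝓝 g, ∀ z ∈ sphere (0 : ℂ) 1, k.1 z ≠ 0 :=
    lt.mono fun k hk z hz e => by simpa [e] using hk z hz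
  rcases h2 with h2 | ⟨w, hw, h0⟩
  · filter_upwards [lt, n0] with k a b
    exact ⟨b, Or.inl (h2.near g.1.continuous.continuousOn k.1.continuous.continuousOn a)⟩
  · filter_upwards [zero_near g (h1 1 (by simp)) hw h0, n0] with k a b using ⟨b, Or.inr a⟩

theorem mulS {g k : DA} (hg : g ∈ S) (hk : k ∈ S) : g * k ∈ S := by
  refine ⟨fun z hz => mul_ne_zero (hg.1 z hz) (hk.1 z hz), ?_⟩
  rcases hg.2 with ⟨a, a1, a2⟩ | ⟨w, hw, h⟩
  · rcases hk.2 with ⟨b, b1, b2⟩ | ⟨w, hw, h⟩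
    · exact Or.inl ⟨a * b, a1.mul b1, fun z hz => by simp [mul_pow, a2 z hz, b2 z hz]⟩
    · exact Or.inr ⟨w, hw, by simp [h]⟩
  · exact Or.inr ⟨w, hw, by simp [h]⟩

noncomputable def a0 : ℂ →ᵇ ℂ := ofNormedAddCommGroup (fun z : ℂ => ((max 1 ‖z‖)⁻¹ : ℝ) • z)
  (((continuous_const.max continuous_norm).inv₀ fun z => by positivity).smul continuous_id) 1
  fun z => by
    rw [norm_smul, norm_inv, Real.norm_of_nonneg (by positivity), inv_mul_le_iff₀ (by positivity)]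
    simp

theorem a0_eq {z : ℂ} (h : ‖z‖ ≤ 1) : a0 z = z := by simp [a0, max_eq_left h]

noncomputable def a : DA :=
  ⟨a0, differentiableOn_id.congr fun z hz => a0_eq (mem_ball_zero_iff.1 hz).le⟩

theorem a_pow (n : ℕ) {z : ℂ} (h : ‖z‖ ≤ 1) : (a ^ n).1 z = z ^ n := by simp [a, a0_eq h]

theorem z_not : (0 : DA) ∉ S := fun h => h.1 1 (by simp) rfl

theorem even_d (m : ℕ) : 1 ≤ infDist (a ^ (2 * m)) Sᶜ := by
  refine (le_infDist ⟨0, z_not⟩).2 fun k hk => not_lt.1 fun h => hk ?_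
  have lt : ∀ z ∈ sphere (0 : ℂ) 1, ‖k.1 z - z ^ (2 * m)‖ < ‖z ^ (2 * m)‖ := fun z hz => by
    have hz := mem_sphere_zero_iff_norm.1 hz
    have := le_d (a ^ (2 * m)) k z
    rw [a_pow _ hz.le, dist_comm] at this
    rw [norm_pow, hz, one_pow]; linarith
  refine ⟨fun z hz e => by simpa [e] using lt z hz, Or.inl (Sq.near (g := fun z => z ^ (2 * m))
    ⟨fun z => z ^ m, by fun_prop, fun z _ => by ring⟩ (by fun_prop) k.1.continuous.continuousOn lt)⟩

theorem n1 : ‖(1 : DA)‖ = 1 := norm_one (α := ℂ →ᵇ ℂ)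

theorem odd_d (m : ℕ) : infDist (a ^ (2 * m + 1)) Sᶜ ≤ (1 / 4) ^ (2 * m + 1) := by
  set c : ℝ := (1 / 4) ^ (2 * m + 1) with hc
  have c0 : 0 < c := by positivity
  have c1 : c ≤ 1 / 4 := pow_le_of_le_one (by norm_num) (by norm_num) (by omega)
  have nc : ‖(c : ℂ)‖ = c := by rw [Complex.norm_real, Real.norm_of_nonneg c0.le]
  have ev : ∀ z : ℂ, ‖z‖ ≤ 1 → (a ^ (2 * m + 1) + algebraMap ℂ DA c).1 z = z ^ (2 * m + 1) + c :=
    fun z hz => by rw [← a_pow _ hz]; simp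
  refine (infDist_le_dist_of_mem (y := a ^ (2 * m + 1) + algebraMap ℂ DA c) ?_).trans
    (by rw [dist_self_add_right, Algebra.algebraMap_eq_smul_one, norm_smul, nc, n1, mul_one])
  rintro ⟨-, h | ⟨w, hw, h⟩⟩
  · refine notSq m (h.near (map_continuous _).continuousOn (by fun_prop) fun z hz => ?_)
    have hz := mem_sphere_zero_iff_norm.1 hz
    rw [ev z hz.le, sub_add_cancel_left, norm_neg, nc]
    have := norm_sub_norm_le (z ^ (2 * m + 1)) (-c)
    rw [norm_pow, hz, one_pow, norm_neg, nc, sub_neg_eq_add] at this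
    linarith
  · have hw := mem_ball_zero_iff.1 hw
    rw [ev w (by linarith), add_eq_zero_iff_eq_neg] at h
    have := congrArg norm h
    rw [norm_neg, nc, norm_pow] at this
    exact (pow_lt_pow_left₀ hw (norm_nonneg _) (by omega)).ne this

theorem main : ∃ (A : Type) (_ : NormedCommRing A) (_ : NormedAlgebra ℂ A),
    CompleteSpace A ∧ ‖(1 : A)‖ = 1 ∧ ∃ S : Set A, IsOpen S ∧ (∀ x ∈ S, ∀ y ∈ S, x * y ∈ S) ∧
      S ≠ univ ∧ ∃ a ∈ S, ¬ ∃ L : ℝ,
        Tendsto (fun n : ℕ => infDist (a ^ n) Sᶜ ^ (1 / n : ℝ)) atTop (𝓝 L) := by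
  refine ⟨DA, inferInstance, inferInstance, inferInstance, n1, S, openS, fun _ a _ b => mulS a b,
    fun h => z_not (h ▸ mem_univ _), a, ⟨fun z hz => ?_, Or.inr ⟨0, by simp, a0_eq (by simp)⟩⟩, ?_⟩
  · have hz := mem_sphere_zero_iff_norm.1 hz
    exact (a0_eq hz.le).trans_ne (norm_pos_iff.1 (by linarith))
  rintro ⟨L, h⟩
  have h1 : 1 ≤ L := ge_of_tendsto' (h.comp (f := fun m => 2 * m)
    (tendsto_id.const_mul_atTop' two_pos)) fun m => Real.one_le_rpow (even_d m) (by positivity)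
  have h2 : L ≤ 1 / 4 := le_of_tendsto' (h.comp (f := fun m => 2 * m + 1)
    (tendsto_atTop_mono (fun m => show id m ≤ 2 * m + 1 by simp; omega) tendsto_id)) fun m => by
      refine (Real.rpow_le_rpow infDist_nonneg (odd_d m) (by positivity)).trans_eq ?_
      rw [one_div ((2 * m + 1 : ℕ) : ℝ), Real.pow_rpow_inv_natCast (by norm_num) (by omega)]
  linarith

end Pool.Agent.H95.OpenSg
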