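import Mathlib

set_option autoImplicit false
open Finset Real

namespace Pool.Agent.H95.OrthSys

/-- Rudin-Shapiro signs -/
noncomputable def r : ℕ → ℝ
  | 0 => 1
  | (n + 1) => if (n + 1) % 2 = 0 then r ((n + 1) / 2) else (-1) ^ ((n + 1) / 2) * r ((n + 1) / 2)
  decreasing_by all_goals omega

theorem r_even (n : ℕ) : r (2 * n) = r n := by
  rcases n with _ | n
  · rfl
  · rw [show 2 * (n + 1) = (2 * n + 1) + 1 by ring, r, if_pos (by omega)]
    congr 1; omega

theorem r_odd (n : ℕ) : r (2 * n + 1) = (-1) ^ n * r n := by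
  rw [r, if_neg (by omega), show (2 * n + 1) / 2 = n by omega]

theorem r_sq (n : ℕ) : r n = 1 ∨ r n = -1 := by
  induction n using Nat.strong_induction_on with
  | _ n ih =>
    rcases n with _ | n
    · left; rw [r]
    · rw [r]
      have := ih ((n + 1) / 2) (by omega)
      split_ifs
      · exact this
      · rcases neg_one_pow_eq_or ℝ ((n + 1) / 2) with h | h <;> rcases this with h' | h' <;>
          simp [h, h']

noncomputable def P (k : ℕ) (z : ℂ) : ℂ := ∑ n ∈ range (2 ^ k), (r n : ℂ) * z ^ n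

theorem sum_two {M : Type} [AddCommMonoid M] (f : ℕ → M) (m : ℕ) :
    ∑ n ∈ range (2 * m), f n = ∑ n ∈ range m, (f (2 * n) + f (2 * n + 1)) := by
  induction m with
  | zero => simp
  | succ m ih => rw [show 2 * (m + 1) = 2 * m + 1 + 1 by ring, sum_range_succ, sum_range_succ, ih,
      sum_range_succ, add_assoc]

theorem P_succ (k : ℕ) (z : ℂ) : P (k + 1) z = P k (z ^ 2) + z * P k (-z ^ 2) := by
  rw [P, pow_succ', sum_two, P, P, mul_sum, ← sum_add_distrib]
  refine sum_congr rfl fun n _ => ?_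
  rw [r_even, r_odd, neg_pow (z ^ 2), ← pow_mul]
  push_cast
  ring

theorem P_norm (k : ℕ) (z : ℂ) (hz : Complex.normSq z = 1) :
    Complex.normSq (P k z) + Complex.normSq (P k (-z)) = 2 ^ (k + 1) := by
  induction k generalizing z with
  | zero => simp [P, r]; norm_num
  | succ k ih =>
    have := ih (z ^ 2) (by rw [map_pow, hz]; simp)
    rw [P_succ, P_succ, neg_sq, neg_mul, ← sub_eq_add_neg, Complex.normSq_add, Complex.normSq_sub,
      Complex.normSq_mul, hz, pow_succ (2 : ℝ) (k + 1)]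
    linarith

noncomputable def e (n : ℕ) (t : ℝ) : ℝ := cos ((n + 1) * π * t)

theorem g_bound (m : ℕ) (t : ℝ) : |∑ n ∈ range (2 ^ (2 * m + 1)), r n * e n t| ≤ 2 ^ (m + 1) := by
  set z := Complex.exp ((π * t : ℝ) * Complex.I) with hz
  have hz1 : Complex.normSq z = 1 := by
    rw [Complex.normSq_eq_norm_sq, hz, Complex.norm_exp_ofReal_mul_I]; simp
  have h1 : ∑ n ∈ range (2 ^ (2 * m + 1)), r n * e n t = (z * P (2 * m + 1) z).re := by
    rw [P, mul_sum, Complex.re_sum]
    refine sum_congr rfl fun n _ => ?_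
    rw [mul_left_comm, ← pow_succ', Complex.re_ofReal_mul, hz, ← Complex.exp_nat_mul, e,
      ← Complex.exp_ofReal_mul_I_re]
    congr 3
    push_cast; ring
  rw [h1]
  refine (Complex.abs_re_le_norm _).trans ?_
  have h2 := P_norm (2 * m + 1) z hz1
  have h3 := Complex.normSq_nonneg (P (2 * m + 1) (-z))
  apply (pow_le_pow_iff_left₀ (norm_nonneg _) (by positivity) two_ne_zero).1
  rw [← Complex.normSq_eq_norm_sq, Complex.normSq_mul, hz1, ← pow_mul,
      show (m + 1) * 2 = 2 * m + 1 + 1 by ring]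
  linarith

noncomputable def a (j : ℕ) : ℝ := (1 + r j) / 2
noncomputable def cnt (n : ℕ) : ℝ := ∑ j ∈ range n, a j

theorem a_cases (j : ℕ) : (r j = 1 ∧ a j = 1) ∨ (r j = -1 ∧ a j = 0) := by
  rcases r_sq j with h | h <;> simp [a, h]

theorem a_zero : a 0 = 1 := by simp [a, r]

theorem cnt_pos (n : ℕ) (hn : n ≠ 0) : 0 < cnt n := by
  apply sum_pos'
  · intro i _
    rcases a_cases i with h | h <;> simp [h.2]
  · exact ⟨0, mem_range.2 (Nat.pos_of_ne_zero hn), by simp [a_zero]⟩

open Classical in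
noncomputable def coef (n j : ℕ) : ℝ :=
  if r n = 1 then (if j < n then a j else if j = n then -cnt n else 0)
  else (if j = n then 1 else 0)

noncomputable def φ (n : ℕ) (t : ℝ) : ℝ :=
  if n = 0 then 1 else ∑ j ∈ range (n + 1), coef n j * e j t

theorem int_cos (k : ℤ) (hk : k ≠ 0) : ∫ t in (0 : ℝ)..1, cos (k * π * t) = 0 := by
  have hk' : (k : ℝ) * π ≠ 0 := mul_ne_zero (by exact_mod_cast hk) pi_ne_zero
  rw [intervalIntegral.integral_comp_mul_left (fun x => cos x) hk']
  simp

theorem e_cont (n : ℕ) : Continuous (e n) := by unfold e; fun_prop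

theorem int_ee (m n : ℕ) : ∫ t in (0 : ℝ)..1, e m t * e n t = if m = n then 1 / 2 else 0 := by
  have h : ∀ t, e m t * e n t = (1 / 2) * cos (((m : ℤ) + n + 2 : ℤ) * π * t) +
      (1 / 2) * cos (((m : ℤ) - n : ℤ) * π * t) := fun t => by
    have e1 : (((m : ℤ) + n + 2 : ℤ) : ℝ) * π * t = (m + 1) * π * t + (n + 1) * π * t := by
      push_cast; ring
    have e2 : (((m : ℤ) - n : ℤ) : ℝ) * π * t = (m + 1) * π * t - (n + 1) * π * t := by
      push_cast; ring
    rw [e1, e2, cos_add, cos_sub, e, e]; ring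
  simp only [h]
  rw [intervalIntegral.integral_add (Continuous.intervalIntegrable (by fun_prop) _ _)
    (Continuous.intervalIntegrable (by fun_prop) _ _), intervalIntegral.integral_const_mul,
    intervalIntegral.integral_const_mul, int_cos _ (by omega)]
  split_ifs with hmn
  · subst hmn; simp
  · rw [int_cos _ (by omega)]; simp

theorem int_sum (M N : ℕ) (x y : ℕ → ℝ) (hMN : M ≤ N) :
    ∫ t in (0 : ℝ)..1, (∑ i ∈ range M, x i * e i t) * (∑ j ∈ range N, y j * e j t) =
      (1 / 2) * ∑ i ∈ range M, x i * y i := by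
  have hc := e_cont
  simp only [sum_mul_sum]
  rw [intervalIntegral.integral_finsetSum
    (fun i _ => Continuous.intervalIntegrable (by fun_prop) _ _), mul_sum]
  refine sum_congr rfl fun i hi => ?_
  rw [intervalIntegral.integral_finsetSum
    (fun i _ => Continuous.intervalIntegrable (by fun_prop) _ _)]
  have : ∀ j, ∫ t in (0 : ℝ)..1, x i * e i t * (y j * e j t) =
      x i * y j * if i = j then 1 / 2 else 0 := fun j => by
    rw [← int_ee, ← intervalIntegral.integral_const_mul]
    congr 1; funext t; ring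
  simp only [this]
  rw [sum_eq_single i]
  · simp; ring
  · intro b _ hb; simp [Ne.symm hb]
  · intro h; exact absurd (mem_range.2 (lt_of_lt_of_le (mem_range.1 hi) hMN)) h

theorem int_e (n : ℕ) : ∫ t in (0 : ℝ)..1, e n t = 0 := by
  have := int_cos ((n : ℤ) + 1) (by omega)
  simpa [e] using this

theorem orth_lt (m n : ℕ) (h : m < n) : ∫ t in (0 : ℝ)..1, φ m t * φ n t = 0 := by
  have hn : n ≠ 0 := by omega
  have hc := e_cont
  by_cases hm : m = 0
  · simp only [φ, hm, hn, if_true, if_false, one_mul]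
    rw [intervalIntegral.integral_finsetSum
      (fun i _ => Continuous.intervalIntegrable (by fun_prop) _ _)]
    simp [int_e]
  simp only [φ, hm, hn, if_false]
  rw [int_sum _ _ _ _ (by omega), mul_eq_zero]
  right
  by_cases h1 : r n = 1
  · have e1 : ∀ j ∈ range (m + 1), coef m j * coef n j = coef m j * a j := fun j hj => by
      have : j < n := by have := mem_range.1 hj; omega
      simp [coef, h1, this]
    rw [sum_congr rfl e1, sum_range_succ]
    rcases a_cases m with h2 | h2
    · have e2 : ∀ j ∈ range m, coef m j * a j = a j := fun j hj => by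
        simp only [coef, h2.1, if_true, mem_range.1 hj]
        rcases a_cases j with h | h <;> simp [h.2]
      rw [sum_congr rfl e2]
      simp [coef, h2.1, h2.2, cnt]
    · have h3 : r m ≠ 1 := by rw [h2.1]; norm_num
      rw [h2.2, sum_eq_zero]
      · simp
      · intro j hj
        simp [coef, h3, (mem_range.1 hj).ne]
  · apply sum_eq_zero
    intro j hj
    have : j ≠ n := by have := mem_range.1 hj; omega
    simp [coef, h1, this]

noncomputable def V : Submodule ℝ (ℝ → ℝ) := Submodule.span ℝ (Set.range φ)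

theorem φ_mem (n : ℕ) : φ n ∈ V := Submodule.subset_span ⟨n, rfl⟩

theorem e_mem (n : ℕ) : e n - a n • e 0 ∈ V := by
  induction n using Nat.strong_induction_on with
  | _ n ih =>
    by_cases hn : n = 0
    · simp [hn, a_zero]
    rcases a_cases n with h | h
    · have h1 : e n - a n • e 0 =
          (cnt n)⁻¹ • (∑ j ∈ range n, a j • (e j - a j • e 0) - φ n) := by
        have hc := (cnt_pos n hn).ne'
        funext t
        have e2 : ∀ j ∈ range n, coef n j * e j t = a j * e j t := fun j hj => by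
          simp [coef, h.1, mem_range.1 hj]
        have e3 : ∀ j ∈ range n, a j * (e j t - a j * e 0 t) = a j * e j t - a j * e 0 t :=
          fun j _ => by rcases a_cases j with h | h <;> simp [h.2]
        simp only [Pi.sub_apply, Pi.smul_apply, smul_eq_mul, Finset.sum_apply, φ, hn, if_false,
          sum_range_succ, h.2]
        rw [sum_congr rfl e2, sum_congr rfl e3, sum_sub_distrib, ← sum_mul]
        simp only [coef, h.1, if_true, lt_irrefl, if_false]
        change _ = _ * (_ - cnt n * _ - _)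
        field_simp
        ring
      rw [h1]
      exact V.smul_mem _ (V.sub_mem (V.sum_mem fun j hj => V.smul_mem _ (ih j (mem_range.1 hj)))
        (φ_mem n))
    · have h3 : r n ≠ 1 := by rw [h.1]; norm_num
      have h1 : e n - a n • e 0 = φ n := by
        funext t
        simp [φ, hn, coef, h3, h.2]
      rw [h1]; exact φ_mem n

/-- uniform closure of V -/
def W : Submodule ℝ (ℝ → ℝ) where
  carrier := {g | ∀ ε > 0, ∃ v ∈ V, ∀ t, |g t - v t| < ε}
  add_mem' := by
    intro f g hf hg ε hε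
    obtain ⟨v, hv, h1⟩ := hf (ε / 2) (by linarith)
    obtain ⟨w, hw, h2⟩ := hg (ε / 2) (by linarith)
    refine ⟨v + w, V.add_mem hv hw, fun t => ?_⟩
    have := abs_lt.1 (h1 t)
    have := abs_lt.1 (h2 t)
    simp only [Pi.add_apply, abs_lt]
    constructor <;> linarith [this.1]
  zero_mem' := fun ε hε => ⟨0, V.zero_mem, fun t => by simpa using hε⟩
  smul_mem' := by
    intro c f hf ε hε
    obtain ⟨v, hv, h1⟩ := hf (ε / (|c| + 1)) (by positivity)
    refine ⟨c • v, V.smul_mem _ hv, fun t => ?_⟩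
    simp only [Pi.smul_apply, smul_eq_mul, ← mul_sub, abs_mul]
    have := h1 t
    rw [lt_div_iff₀ (by positivity)] at this
    nlinarith [abs_nonneg c, abs_nonneg (f t - v t)]

theorem V_le : V ≤ W := fun v hv ε hε => ⟨v, hv, fun t => by simpa using hε⟩

theorem e0_mem : e 0 ∈ W := by
  intro ε hε
  obtain ⟨m, hm⟩ := pow_unbounded_of_one_lt (2 / ε + 1) (by norm_num : (1 : ℝ) < 2)
  set N := 2 ^ (2 * m + 1) with hN
  have hc : 2 ^ m * (2 ^ m - 1) ≤ cnt N := by
    have h1 := (abs_le.1 (g_bound m 0)).1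
    simp only [e, mul_zero, cos_zero, mul_one] at h1
    have h2 : cnt N = (N + ∑ j ∈ range N, r j) / 2 := by
      simp [cnt, a, ← sum_div, sum_add_distrib]
    rw [h2]
    have h3 : (N : ℝ) = 2 * 2 ^ m * 2 ^ m := by rw [hN]; push_cast; ring
    rw [pow_succ] at h1
    nlinarith
  have h2 : 0 < 2 / ε := by positivity
  have h3 : (0 : ℝ) < 2 ^ m := by positivity
  have hc0 : 0 < cnt N := lt_of_lt_of_le (mul_pos h3 (by linarith)) hc
  refine ⟨-(cnt N)⁻¹ • ∑ n ∈ range N, r n • (e n - a n • e 0),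
    V.smul_mem _ (V.sum_mem fun n _ => V.smul_mem _ (e_mem n)), fun t => ?_⟩
  have e3 : ∀ j ∈ range N, r j * (e j t - a j * e 0 t) = r j * e j t - a j * e 0 t :=
    fun j _ => by rcases a_cases j with h | h <;> simp [h.1, h.2]
  have h4 : e 0 t - (-(cnt N)⁻¹ • ∑ n ∈ range N, r n • (e n - a n • e 0)) t =
      (∑ n ∈ range N, r n * e n t) / cnt N := by
    simp only [Pi.smul_apply, smul_eq_mul, Finset.sum_apply, Pi.sub_apply]
    rw [sum_congr rfl e3, sum_sub_distrib, ← sum_mul]
    change _ - _ * (_ - cnt N * _) = _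
    field_simp
    ring
  rw [h4, abs_div, abs_of_pos hc0, div_lt_iff₀ hc0]
  refine (g_bound m t).trans_lt ?_
  have h5 : 2 < ε * (2 ^ m - 1) := by
    rw [← div_lt_iff₀' hε]; linarith
  rw [pow_succ]
  nlinarith

theorem cos_mem (n : ℕ) : (fun t => cos (n * π * t)) ∈ W := by
  rcases n with _ | n
  · have : (fun t : ℝ => cos (((0 : ℕ) : ℝ) * π * t)) = φ 0 := by funext t; simp [φ]
    rw [this]; exact V_le (φ_mem 0)
  · have : (fun t : ℝ => cos (((n + 1 : ℕ) : ℝ) * π * t)) = (e n - a n • e 0) + a n • e 0 := by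
      funext t; simp [e]
    rw [this]
    exact W.add_mem (V_le (e_mem n)) (W.smul_mem _ e0_mem)

theorem pow_mem (k n : ℕ) : (fun t => cos (π * t) ^ k * cos (n * π * t)) ∈ W := by
  induction k generalizing n with
  | zero => simpa using cos_mem n
  | succ k ih =>
    rcases n with _ | n
    · have := ih 1
      simpa [pow_succ] using this
    · have h := W.smul_mem (1 / 2 : ℝ) (W.add_mem (ih (n + 2)) (ih n))
      convert h using 1
      funext t
      have e1 : ((n + 2 : ℕ) : ℝ) * π * t = (n + 1 : ℕ) * π * t + π * t := by push_cast; ring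
      have e2 : (n : ℝ) * π * t = (n + 1 : ℕ) * π * t - π * t := by push_cast; ring
      simp only [Pi.smul_apply, Pi.add_apply, smul_eq_mul]
      rw [e1, e2, cos_add, cos_sub]
      ring

theorem poly_mem (p : Polynomial ℝ) : (fun t => p.eval (cos (π * t))) ∈ W := by
  have : (fun t => p.eval (cos (π * t))) = ∑ i ∈ range (p.natDegree + 1),
      p.coeff i • fun t => cos (π * t) ^ i * cos ((0 : ℕ) * π * t) := by
    funext t
    simp [Polynomial.eval_eq_sum_range]
  rw [this]
  exact W.sum_mem fun i _ => W.smul_mem _ (pow_mem i 0)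

theorem main :
    ¬ (∀ φ : ℕ → ℝ → ℝ,
      (∀ n, ContinuousOn (φ n) (Set.Icc (0:ℝ) 1)) →
      (∀ n, ∃ t ∈ Set.Icc (0:ℝ) 1, φ n t ≠ 0) →
      (∀ m n : ℕ, m ≠ n → ∫ t in (0:ℝ)..1, φ m t * φ n t = 0) →
      (∀ g : ℝ → ℝ, ContinuousOn g (Set.Icc (0:ℝ) 1) → ∀ ε : ℝ, ε > 0 →
        ∃ s : Finset ℕ, ∃ c : ℕ → ℝ,
          ∀ t ∈ Set.Icc (0:ℝ) 1, |g t - ∑ i ∈ s, c i * φ i t| < ε) →
      ∀ f : ℝ → ℝ, ContinuousOn f (Set.Icc (0:ℝ) 1) → ∀ ε : ℝ, ε > 0 →
        ∃ s : Finset ℕ, (∀ i ∈ s, ∫ t in (0:ℝ)..1, f t * φ i t ≠ 0) ∧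
          ∃ c : ℕ → ℝ, ∀ t ∈ Set.Icc (0:ℝ) 1, |f t - ∑ i ∈ s, c i * φ i t| < ε) := by
  intro h
  have hc := e_cont
  have hφ : ∀ n, n ≠ 0 → ∀ k ≤ n, ∫ t in (0:ℝ)..1, e k t * φ n t = (1 / 2) * coef n k := by
    intro n hn k hk
    have := int_sum (k + 1) (n + 1) (fun i => if i = k then 1 else 0) (coef n) (by omega)
    simpa [φ, hn] using this
  refine absurd (h φ ?_ ?_ ?_ ?_ (e 0) (hc 0).continuousOn 1 one_pos) ?_
  rotate_right
  · rintro ⟨s, hs, c, hc⟩
    have h1 := hc 0 (by simp)
    rw [sum_eq_zero] at h1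
    · simp [e] at h1
    intro i hi
    have h2 := hs i hi
    by_cases h0 : i = 0
    · exact absurd (by simpa [h0, φ] using int_e 0) h2
    rw [hφ i h0 0 (Nat.zero_le _)] at h2
    by_cases h3 : r i = 1
    · have e2 : ∀ j ∈ range i, coef i j = a j := fun j hj => by
        simp [coef, h3, mem_range.1 hj]
      simp only [φ, h0, if_false, e, mul_zero, cos_zero, mul_one, sum_range_succ]
      rw [sum_congr rfl e2]
      simp [coef, h3, cnt]
    · simp [coef, h3, Ne.symm h0] at h2
  · intro n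
    apply Continuous.continuousOn
    unfold φ
    split_ifs <;> fun_prop
  · intro n
    by_cases h0 : n = 0
    · exact ⟨0, by simp, by simp [φ, h0]⟩
    by_contra hcon
    push Not at hcon
    have h1 := hφ n h0 n le_rfl
    rw [intervalIntegral.integral_congr (g := fun _ => 0) (fun t ht => by
      rw [Set.uIcc_of_le zero_le_one] at ht; simp [hcon t ht])] at h1
    have := (cnt_pos n h0).ne'
    by_cases h3 : r n = 1 <;> simp [coef, h3, this] at h1
  · intro m n hmn
    rcases lt_or_gt_of_ne hmn with h | h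
    · exact orth_lt m n h
    · simp only [mul_comm (φ m _)]; exact orth_lt n m h
  · intro g hg ε hε
    have hg' : ContinuousOn (fun x => g (arccos x / π)) (Set.Icc (-1) 1) := by
      apply hg.comp (Continuous.continuousOn (by fun_prop))
      intro x _
      exact ⟨div_nonneg (arccos_nonneg x) pi_pos.le, (div_le_one pi_pos).2 (arccos_le_pi x)⟩
    obtain ⟨p, hp⟩ := exists_polynomial_near_of_continuousOn (-1) 1 _ hg' (ε / 2) (by linarith)
    obtain ⟨v, hv, h1⟩ := poly_mem p (ε / 2) (by linarith)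
    obtain ⟨c, rfl⟩ := Finsupp.mem_span_range_iff_exists_finsupp.1 hv
    refine ⟨c.support, c, fun t ht => ?_⟩
    have h2 := hp (cos (π * t)) ⟨neg_one_le_cos _, cos_le_one _⟩
    rw [arccos_cos (mul_nonneg pi_pos.le ht.1) (by nlinarith [pi_pos, ht.2]),
      mul_div_cancel_left₀ _ pi_ne_zero] at h2
    have h3 := h1 t
    simp only [Finsupp.sum, Finset.sum_apply, Pi.smul_apply, smul_eq_mul] at h3
    have h4 := abs_lt.1 h2
    have h5 := abs_lt.1 h3
    rw [abs_lt]
    constructor <;> linarith [h4.1, h4.2, h5.1, h5.2]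

end Pool.Agent.H95.OrthSys
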