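import Mathlib

set_option autoImplicit false
open Filter Topology Set Metric

namespace Pool.Agent.H95.Paranormal

theorem bounded {H : Type*} [NormedAddCommGroup H] [NormedSpace ℂ H] [CompleteSpace H]
    (T : H →ₗ[ℂ] H) (hT : ∀ x, ‖T x‖ ^ 2 ≤ ‖T (T x)‖ * ‖x‖) :
    ∃ C : ℝ, ∀ x, ‖T x‖ ≤ C * ‖x‖ := by
  -- Baire
  have hU : (⋃ n : ℕ, closure {x : H | ‖T (T x)‖ ≤ n}) = univ := by
    refine eq_univ_of_forall fun x => ?_
    obtain ⟨n, hn⟩ := exists_nat_ge ‖T (T x)‖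
    exact mem_iUnion.2 ⟨n, subset_closure hn⟩
  obtain ⟨n, x0, hx0⟩ := nonempty_interior_of_iUnion_of_closed (fun n => isClosed_closure) hU
  obtain ⟨r, hr, hball⟩ := Metric.isOpen_iff.1 isOpen_interior x0 hx0
  have key : ∀ x ∈ closure {x : H | ‖T (T x)‖ ≤ n}, ‖T x‖ ^ 2 ≤ n * ‖x‖ := by
    intro x hx
    obtain ⟨u, hu, hux⟩ := mem_closure_iff_seq_limit.1 hx
    have h0 : Tendsto (fun k => ‖u k - x‖) atTop (𝓝 0) := tendsto_iff_norm_sub_tendsto_zero.1 hux
    have h1 : Tendsto (fun k => ‖T (u k) - T x‖ ^ 2) atTop (𝓝 0) := by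
      refine squeeze_zero (fun k => by positivity) (fun k => ?_)
        (by simpa using h0.const_mul ((n : ℝ) + ‖T (T x)‖))
      have h := hT (u k - x)
      rw [map_sub] at h
      refine h.trans (mul_le_mul_of_nonneg_right ?_ (norm_nonneg _))
      rw [map_sub]
      exact (norm_sub_le _ _).trans (add_le_add (hu k) le_rfl)
    have h2 : Tendsto (fun k => ‖T (u k) - T x‖) atTop (𝓝 0) := by
      have := h1.sqrt
      simpa [Real.sqrt_sq_eq_abs] using this
    have h3 : Tendsto (fun k => T (u k)) atTop (𝓝 (T x)) := tendsto_iff_norm_sub_tendsto_zero.2 h2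
    refine le_of_tendsto_of_tendsto' (h3.norm.pow 2) (hux.norm.const_mul (n : ℝ)) fun k => ?_
    exact (hT (u k)).trans (mul_le_mul_of_nonneg_right (hu k) (norm_nonneg _))
  have hb : ∀ x ∈ ball x0 r, ‖T x‖ ≤ n * (‖x0‖ + r) + 1 := by
    intro x hx
    have h1 := key x (interior_subset (hball hx))
    have h2 : ‖x‖ ≤ ‖x0‖ + r := by
      have := mem_ball_iff_norm.1 hx
      calc ‖x‖ = ‖x0 + (x - x0)‖ := by simp
        _ ≤ ‖x0‖ + ‖x - x0‖ := norm_add_le _ _
        _ ≤ _ := by linarith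
    have h3 : (n : ℝ) * ‖x‖ ≤ n * (‖x0‖ + r) := by gcongr
    nlinarith [norm_nonneg (T x), sq_nonneg (‖T x‖ - 1)]
  set B : ℝ := 2 * (n * (‖x0‖ + r) + 1) with hB
  have hb0 : ∀ y : H, ‖y‖ < r → ‖T y‖ ≤ B := by
    intro y hy
    have h1 := hb (x0 + y) (by simpa [mem_ball_iff_norm] using hy)
    have h2 := hb x0 (mem_ball_self hr)
    have : T y = T (x0 + y) - T x0 := by simp
    rw [this]
    exact (norm_sub_le _ _).trans (by linarith)
  refine ⟨B * (2 / r), fun x => ?_⟩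
  rcases eq_or_ne x 0 with rfl | hx
  · simp
  have hxp : 0 < ‖x‖ := norm_pos_iff.2 hx
  have h := hb0 (((r / 2 / ‖x‖ : ℝ) : ℂ) • x) (by
    rw [norm_smul, Complex.norm_real, Real.norm_of_nonneg (by positivity), div_mul_cancel₀ _ hxp.ne']
    linarith)
  rw [map_smul, norm_smul, Complex.norm_real, Real.norm_of_nonneg (by positivity)] at h
  have e : ‖T x‖ = (r / 2 / ‖x‖ * ‖T x‖) * (2 / r) * ‖x‖ := by field_simp
  rw [e]
  gcongr

end Pool.Agent.H95.Paranormal
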