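import Pool.Agent.H95.PauliDefs

namespace Pool.Agent.H95.Pauli
open MeasureTheory Complex Set Filter Topology

noncomputable def c (j : ℕ) (x : ℝ) : ℤ := ⌊3 ^ j * x⌋
noncomputable def χ (j : ℕ) (x : ℝ) : ℝ := if c j x % 3 = 1 then (1 / 2) ^ j else 0
noncomputable def ph (x : ℝ) : ℝ := ∑' j, χ j x
noncomputable def F (n : ℕ) (x : ℝ) : ℂ := if c 0 x = 0 then exp (I * (ph x - 2 * χ n x : ℝ)) else 0

theorem mc (j : ℕ) : Measurable (c j) := by unfold c; fun_prop
theorem mχ (j : ℕ) : Measurable (χ j) :=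
  Measurable.ite ((measurable_from_top (f := fun z : ℤ => z % 3)).comp (mc j) (measurableSet_singleton 1))
    measurable_const measurable_const
theorem χb (j : ℕ) (x : ℝ) : 0 ≤ χ j x ∧ χ j x ≤ (1 / 2) ^ j := by unfold χ; split_ifs <;> simp
theorem sχ (x : ℝ) : Summable fun j => χ j x :=
  summable_geometric_two.of_nonneg_of_le (fun j => (χb j x).1) fun j => (χb j x).2
theorem mph : Measurable ph := measurable_of_tendsto_metrizable
  (f := fun n x => ∑ j ∈ Finset.range n, χ j x) (fun n => Finset.measurable_sum _ fun j _ => mχ j)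
  (tendsto_pi_nhds.2 fun x => (sχ x).hasSum.tendsto_sum_nat)
theorem mF (n : ℕ) : Measurable (F n) := by
  have := mph; have := mχ n
  exact Measurable.ite (mc 0 (measurableSet_singleton 0)) (by fun_prop) measurable_const
theorem c0 (x : ℝ) : c 0 x = 0 ↔ x ∈ Ico (0 : ℝ) 1 := by simp [c]
theorem nF (n : ℕ) (x : ℝ) : ‖F n x‖ = (Ico (0 : ℝ) 1).indicator 1 x := by
  unfold F; simp only [c0]; split_ifs with h <;> simp [h, mul_comm I, -ofReal_sub, -ofReal_mul]

theorem mem {g : ℝ → ℂ} (m : Measurable g) {a : ℝ} (h : ∀ x, ‖g x‖ ≤ (Ico (0 : ℝ) 1).indicator (fun _ => a) x) (p) :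
    MemLp g p := (memLp_indicator_const p measurableSet_Ico a (Or.inr (by simp))).mono' m.aestronglyMeasurable
      (Eventually.of_forall h)

theorem shift {n : ℕ} (k : ℤ) (x : ℝ) : c n (x - k / 3 ^ n) = c n x - k ∧
    (∀ j, n < j → c j (x - k / 3 ^ n) % 3 = c j x % 3) := by
  refine ⟨by rw [c, c, ← Int.floor_sub_intCast]; congr 1; field_simp, fun j h => ?_⟩
  obtain ⟨m, rfl⟩ := Nat.exists_eq_add_of_lt h
  rw [c, c, show (3 : ℝ) ^ (n + m + 1) * (x - k / 3 ^ n) = 3 ^ (n + m + 1) * x - (3 * (k * 3 ^ m) : ℤ) by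
    push_cast; field_simp; ring, Int.floor_sub_intCast]
  omega

theorem cdiv (j m : ℕ) (x : ℝ) : c j x = c (j + m + 1) x / 3 / 3 ^ m := by
  rw [c, c, Int.ediv_ediv_of_nonneg (by norm_num), ← pow_succ', ← Nat.cast_ofNat (R := ℤ), ← Nat.cast_pow,
    ← Int.floor_div_natCast]
  congr 1; push_cast; field_simp; ring

noncomputable def g (n : ℕ) (x : ℝ) : ℂ := if c n x % 3 = 0 then F 0 x else 0

theorem F0 (x : ℝ) : F 0 x = if c 0 x = 0 then exp (I * ph x) else 0 := by
  unfold F; split_ifs with h <;> simp [χ, h]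

theorem dec {n : ℕ} (hn : 0 < n) (x : ℝ) :
    F 0 x = g n x + exp (I * ((1 / 2) ^ n : ℝ)) * g n (x - 1 / 3 ^ n) + g n (x - 2 / 3 ^ n) ∧
    F n x = g n x + exp (-(I * ((1 / 2) ^ n : ℝ))) * g n (x - 1 / 3 ^ n) + g n (x - 2 / 3 ^ n) := by
  have key : ∀ k : ℤ, c n x % 3 = k → g n (x - k / 3 ^ n) = if c 0 x = 0 then exp (I * (ph x - χ n x : ℝ)) else 0 := by
    intro k hk
    obtain ⟨a, b⟩ := shift (n := n) k x
    have l : ∀ j < n, c j (x - k / 3 ^ n) = c j x := fun j h => by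
      obtain ⟨m, rfl⟩ := Nat.exists_eq_add_of_lt h
      rw [cdiv j m, cdiv j m x, a]; congr 1; omega
    rw [g, if_pos (by omega), F0, l 0 hn, ph, ph, (sχ x).tsum_eq_add_tsum_ite n, (sχ _).tsum_eq_add_tsum_ite n,
      add_sub_cancel_left, show χ n (x - k / 3 ^ n) = 0 from if_neg (by omega), zero_add]
    congr 5; funext j; split_ifs with h; · rfl
    rcases lt_or_gt_of_ne h with h | h
    · simp only [χ, l j h]
    · simp only [χ, b j h]
  have z : ∀ k : ℤ, (c n x - k) % 3 ≠ 0 → g n (x - k / 3 ^ n) = 0 := fun k hk => if_neg (by rwa [(shift k x).1])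
  have z0 := z 0; have z1 := z 1; have z2 := z 2; have k0 := key 0; have k1 := key 1; have k2 := key 2
  simp only [Int.cast_zero, zero_div, sub_zero, Int.cast_one, Int.cast_ofNat] at z0 z1 z2 k0 k1 k2
  rw [F0, F]
  obtain h | h | h : c n x % 3 = 0 ∨ c n x % 3 = 1 ∨ c n x % 3 = 2 := by omega
  · rw [k0 h, z1 (by omega), z2 (by omega)]; simp [χ, h]
  · rw [k1 h, z0 (by omega), z2 (by omega)]; simp only [χ, h, if_true]
    split_ifs <;> simp only [zero_add, add_zero, mul_zero, and_self, ← exp_add]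
    constructor <;> congr 1 <;> push_cast <;> ring
  · rw [k2 h, z0 (by omega), z1 (by omega)]; simp [χ, h]

theorem ftF (n : ℕ) (x : ℝ) : ‖ft (F n) x‖ = ‖ft (F 0) x‖ := by
  rcases n.eq_zero_or_pos with rfl | hn; · rfl
  have ig : Integrable (g n) := memLp_one_iff_integrable.1 (mem (g := g n) (a := 1) (Measurable.ite
    ((measurable_from_top (f := fun z : ℤ => z % 3)).comp (mc n) (measurableSet_singleton 0)) (mF 0) measurable_const)
    (fun y => by
      unfold g; split_ifs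
      exacts [(nF 0 y).le, by rw [norm_zero]; exact indicator_nonneg (by simp) _]) 1)
  have i : ∀ h : ℝ, Integrable fun y : ℝ => exp (-(I * x * y)) * g n (y - h) := fun h =>
    (ig.comp_sub_right h).bdd_mul (c := 1) (by fun_prop) (Eventually.of_forall fun y => by simp [norm_exp])
  have s : ∀ h : ℝ, ∫ y : ℝ, exp (-(I * x * y)) * g n (y - h) = exp (-(I * x * h)) * ft (g n) x := fun h => by
    rw [ft, ← integral_const_mul, ← integral_sub_right_eq_self (fun y : ℝ => exp (-(I * x * h)) *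
      (exp (-(I * x * y)) * g n y)) h]
    congr 1; funext y; rw [← mul_assoc, ← exp_add]; congr 2; push_cast; ring
  have e : ∀ (a : ℂ) (f : ℝ → ℂ), (∀ y, f y = g n y + a * g n (y - 1 / 3 ^ n) + g n (y - 2 / 3 ^ n)) →
      ‖ft f x‖ = ‖(2 * Real.cos (x / 3 ^ n) : ℝ) + a‖ * ‖ft (g n) x‖ := fun a f h => by
    have := i 0
    simp only [sub_zero] at this
    simp only [ft, h, mul_add, mul_left_comm _ a]
    rw [integral_add (by exact this.add ((i _).const_mul a)) (i _), integral_add this ((i _).const_mul a),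
      integral_const_mul, s, s, ← ft, ← norm_mul, ← one_mul ‖_ * _‖]
    nth_rw 2 [← norm_exp_ofReal_mul_I (-(x / 3 ^ n))]
    rw [← norm_mul]
    congr 1
    have : exp (-(I * x * (2 / 3 ^ n : ℝ))) = exp (-(I * x * (1 / 3 ^ n : ℝ))) ^ 2 := by
      rw [← exp_nat_mul]; congr 1; push_cast; ring
    rw [this, ofReal_mul, ofReal_cos, show ((2 : ℝ) : ℂ) = 2 from rfl, two_cos,
      show -(I * x * (1 / 3 ^ n : ℝ)) = -((x / 3 ^ n : ℝ) : ℂ) * I by push_cast; ring, ofReal_neg]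
    have u : exp (((x / 3 ^ n : ℝ) : ℂ) * I) * exp (-((x / 3 ^ n : ℝ) : ℂ) * I) = 1 := by rw [← exp_add]; simp
    linear_combination (-ft (g n) x) * u
  rw [e _ _ fun y => (dec hn y).2, e _ _ fun y => (dec hn y).1, ← norm_conj]
  simp [← exp_conj, -ofReal_pow, -ofReal_cos, map_ofNat]

noncomputable def G (n : ℕ) : L2 := (mem (mF n) (a := 1) (fun x => (nF n x).le) 2).toLp _
theorem GF (n : ℕ) : G n =ᵐ[volume] F n := MemLp.coeFn_toLp _

theorem val {n m : ℕ} (k : ℤ) (hk : k = 0 ∨ k = 1) (hn : 0 < n) (h : m ≠ n) {x : ℝ}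
    (hx : x ∈ Ico (k / 3 ^ n : ℝ) (k / 3 ^ n + 1 / 3 ^ (n + m))) :
    c 0 x = 0 ∧ χ m x = 0 ∧ χ n x = k * (1 / 2) ^ n := by
  have z : ∀ j ≤ n + m, c j (x - k / 3 ^ n) = 0 := fun j hj => Int.floor_eq_zero_iff.2
    ⟨mul_nonneg (by positivity) (sub_nonneg.2 hx.1), by
      rw [← lt_div_iff₀' (by positivity)]
      exact (sub_lt_iff_lt_add'.2 hx.2).trans_le (one_div_le_one_div_of_le (by positivity)
        (pow_le_pow_right₀ (by norm_num) hj))⟩
  obtain ⟨a, b⟩ := shift (n := n) k x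
  rw [z n (by omega)] at a
  have l : ∀ j < n, c j x = 0 := fun j h => by
    obtain ⟨m, rfl⟩ := Nat.exists_eq_add_of_lt h
    rw [cdiv j m, show c (j + m + 1) x / 3 = 0 by omega]; simp
  refine ⟨l 0 hn, if_neg ?_, ?_⟩
  · rcases lt_or_gt_of_ne h with h | h
    · simp [l m h]
    · rw [← b m h, z m (by omega)]; simp
  · rcases hk with rfl | rfl <;> simp [χ, show c n x = _ from sub_eq_zero.1 a.symm]

theorem li {n m : ℕ} (hn : 0 < n) (h : m ≠ n) : LinearIndependent ℂ ![G n, G m] := by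
  refine LinearIndependent.pair_iff.2 fun s t e => ?_
  have a : ∀ᵐ x, s * F n x + t * F m x = 0 := by
    filter_upwards [GF n, GF m, Lp.coeFn_add (s • G n) (t • G m), Lp.coeFn_smul s (G n), Lp.coeFn_smul t (G m),
      Lp.coeFn_zero ℂ 2 (volume : Measure ℝ)] with x a b c d e' f
    rw [e, f, Pi.add_apply, d, e'] at c; simpa [a, b] using c.symm
  have b : ∀ k : ℤ, k = 0 ∨ k = 1 → s * exp (-(2 * k * (1 / 2) ^ n : ℝ) * I) + t = 0 := fun k hk => by
    obtain ⟨x, hx, e⟩ := Measure.exists_mem_of_measure_ne_zero_of_ae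
      (s := Ico (k / 3 ^ n : ℝ) (k / 3 ^ n + 1 / 3 ^ (n + m))) (by simp) (ae_restrict_of_ae a)
    obtain ⟨u, v, w⟩ := val k hk hn h hx
    simp only [F, u, v, w, if_true] at e
    refine mul_right_cancel₀ (exp_ne_zero (I * ph x)) ?_
    rw [add_mul, mul_assoc, ← exp_add, zero_mul, ← e]; congr 3 <;> push_cast <;> ring
  have b0 := b 0 (by simp); have b1 := b 1 (by simp)
  have : exp (-(2 * (1 : ℤ) * (1 / 2) ^ n : ℝ) * I) ≠ 1 := fun h => by
    have := congrArg im h
    rw [← ofReal_neg, exp_ofReal_mul_I_im, Real.sin_neg, one_im, neg_eq_zero] at this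
    refine (Real.sin_pos_of_pos_of_lt_pi (by positivity) ?_).ne' this
    have : (1 / 2 : ℝ) ^ n ≤ 1 := pow_le_one₀ (by norm_num) (by norm_num)
    push_cast; linarith [Real.pi_gt_three]
  simp only [Int.cast_zero, mul_zero, zero_mul, ofReal_zero, neg_zero, exp_zero, mul_one] at b0
  have s0 : s = 0 := (mul_eq_zero.1 (show s * (_ - 1) = 0 by linear_combination b1 - b0)).resolve_right (sub_ne_zero.2 this)
  exact ⟨s0, by simpa [s0] using b0⟩

theorem main : ∃ P : Set L2, P.Nontrivial ∧ (∀ f ∈ P, ∀ g ∈ P, f ≠ g → PauliPair f g) ∧ (∀ f ∈ P, BddSupp f) ∧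
    ∃ f ∈ P, ∀ ε > 0, ∃ g ∈ P, g ≠ f ∧ ‖f - g‖ < ε := by
  have ne : ∀ n, G (n + 1) ≠ G 0 := fun n e => by
    have := (li n.succ_pos (Nat.succ_ne_zero n).symm).injective.ne (show (0 : Fin 2) ≠ 1 by decide)
    exact this e
  refine ⟨range G, ⟨_, ⟨1, rfl⟩, _, ⟨0, rfl⟩, ne 0⟩, ?_, ?_, _, ⟨0, rfl⟩, fun ε hε => ?_⟩
  · rintro _ ⟨n, rfl⟩ _ ⟨m, rfl⟩ h
    have h : m ≠ n := by rintro rfl; exact h rfl
    refine ⟨?_, ?_, fun x => ?_⟩
    · rcases n.eq_zero_or_pos with rfl | hn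
      · exact LinearIndependent.pair_symm_iff.1 (li (Nat.pos_of_ne_zero h) h.symm)
      · exact li hn h
    · filter_upwards [GF n, GF m] with x a b; rw [a, b, nF, nF]
    · have : ∀ n, ft (G n) x = ft (F n) x := fun n => integral_congr_ae (by
        filter_upwards [GF n] with y a; rw [a])
      rw [this, this, ftF n, ftF m]
  · rintro _ ⟨n, rfl⟩
    refine ⟨1, ?_⟩
    filter_upwards [GF n] with x a h
    rw [a, ← norm_eq_zero, nF, indicator_of_notMem fun b => by rw [abs_of_nonneg b.1] at h; linarith [b.2]]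
  · obtain ⟨n, hn⟩ := exists_pow_lt_of_lt_one hε (show (1 / 2 : ℝ) < 1 by norm_num)
    refine ⟨_, ⟨n + 1, rfl⟩, ne n, lt_of_le_of_lt ?_ hn⟩
    have := Lp.norm_le_norm_of_ae_le (f := G 0 - G (n + 1)) (g := indicatorConstLp 2 (measurableSet_Ico (a := (0 : ℝ))
      (b := 1)) (by simp) ((1 / 2 : ℝ) ^ n)) (by
      filter_upwards [GF 0, GF (n + 1), Lp.coeFn_sub (G 0) (G (n + 1)), indicatorConstLp_coeFn (p := 2)
        (hs := measurableSet_Ico (a := (0 : ℝ)) (b := 1)) (hμs := by simp) (c := (1 / 2 : ℝ) ^ n)] with x a b c d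
      rw [c, d, Pi.sub_apply, a, b, F0, F]
      simp only [c0]
      split_ifs with h
      · rw [indicator_of_mem h, show I * (ph x - 2 * χ (n + 1) x : ℝ) = I * ph x + I * (-(2 * χ (n + 1) x) : ℝ) by
          push_cast; ring, exp_add, ← mul_one_sub, norm_mul, norm_exp_I_mul_ofReal, one_mul, norm_sub_rev]
        refine (Real.norm_exp_I_mul_ofReal_sub_one_le).trans ?_
        have := χb (n + 1) x
        rw [norm_neg, Real.norm_of_nonneg (by linarith), Real.norm_of_nonneg (by positivity)]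
        rw [pow_succ] at this; linarith
      · simp)
    rw [norm_indicatorConstLp (by simp) (by simp)] at this
    simpa using this

end Pool.Agent.H95.Pauli
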