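import Mathlib

namespace Pool.Agent.H95.Pauli
open MeasureTheory Complex

noncomputable abbrev L2 := Lp ℂ 2 (volume : Measure ℝ)

/-- the Fourier integral -/
noncomputable def ft (f : ℝ → ℂ) (x : ℝ) : ℂ := ∫ y : ℝ, exp (-(I * x * y)) * f y

def PauliPair (f g : L2) : Prop :=
  LinearIndependent ℂ ![f, g] ∧ (∀ᵐ y : ℝ, ‖f y‖ = ‖g y‖) ∧ ∀ x, ‖ft f x‖ = ‖ft g x‖

def BddSupp (f : L2) : Prop := ∃ R : ℝ, ∀ᵐ y : ℝ, R < |y| → f y = 0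

end Pool.Agent.H95.Pauli
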