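import Pool.Agent.H95.PendDefs

set_option autoImplicit false
open Filter Topology MeasureTheory Set Real

namespace Pool.Agent.H95.Pend
open Pool.Agent.H95.PendDefs

theorem deriv_all {u v : ℝ → ℝ} (hu : Continuous u) (hv : Continuous v)
    (h : ∀ x, x ≠ π → x ≠ -π → HasDerivAt u (v x) x) (x : ℝ) : HasDerivAt u (v x) x := by
  have e : u = fun y => u 0 + ∫ t in (0 : ℝ)..y, v t := by
    funext y
    rw [integral_eq_of_hasDerivAt_off_countable u v (s := {π, -π}) (toFinite _).countable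
      hu.continuousOn (fun z hz => h z (fun h => hz.2 (by simp [h])) (fun h => hz.2 (by simp [h])))
      (hv.intervalIntegrable _ _)]
    ring
  rw [e]
  exact (hv.integral_hasStrictDerivAt 0 x).hasDerivAt.const_add _

theorem ibp {u v : ℝ → ℝ} (hu : Continuous u) (hv : Continuous v)
    (h : ∀ x, HasDerivAt u (v x) x) {η : ℝ → ℝ} (hη : IsTest η) :
    ∫ x, u x * deriv η x = -∫ x, v x * η x := by
  have h1 : Continuous η := hη.1.continuous
  have h2 : Continuous (deriv η) := hη.1.continuous_deriv (by simp)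
  have h3 : Differentiable ℝ η := hη.1.differentiable (by simp)
  exact integral_mul_deriv_eq_deriv_mul_of_integrable (fun x _ => h x) (fun x _ => (h3 x).hasDerivAt)
    ((hu.mul h2).integrable_of_hasCompactSupport hη.2.deriv.mul_left)
    ((hv.mul h1).integrable_of_hasCompactSupport hη.2.mul_left)
    ((hu.mul h1).integrable_of_hasCompactSupport hη.2.mul_left)

noncomputable def c (x : ℝ) : ℝ := max (-π) (min π x)

@[fun_prop] theorem c_cont : Continuous c := by unfold c; fun_prop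

theorem c_mid {x : ℝ} (h1 : -π ≤ x) (h2 : x ≤ π) : c x = x := by
  rw [c, min_eq_right h2, max_eq_right h1]

theorem c_hi {x : ℝ} (h : π ≤ x) : c x = π := by
  rw [c, min_eq_left h, max_eq_right (by linarith [pi_pos])]

theorem c_lo {x : ℝ} (h : x ≤ -π) : c x = -π := by
  rw [c, max_eq_left ((min_le_right _ _).trans h)]

theorem c_cases (x : ℝ) (h1 : x ≠ π) (h2 : x ≠ -π) : (HasDerivAt c 1 x ∧ c x = x) ∨
    (HasDerivAt c 0 x ∧ sin (c x) = 0 ∧ cos (c x) = -1) := by
  rcases lt_or_gt_of_ne h2 with h3 | h3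
  · refine Or.inr ⟨(hasDerivAt_const x (-π)).congr_of_eventuallyEq ?_, by simp [c_lo h3.le],
      by simp [c_lo h3.le]⟩
    filter_upwards [Iio_mem_nhds h3] with y hy using c_lo (le_of_lt hy)
  rcases lt_or_gt_of_ne h1 with h4 | h4
  · refine Or.inl ⟨(hasDerivAt_id x).congr_of_eventuallyEq ?_, c_mid h3.le h4.le⟩
    filter_upwards [Ioo_mem_nhds h3 h4] with y hy using c_mid hy.1.le hy.2.le
  · refine Or.inr ⟨(hasDerivAt_const x π).congr_of_eventuallyEq ?_, by simp [c_hi h4.le],
      by simp [c_hi h4.le]⟩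
    filter_upwards [Ioi_mem_nhds h4] with y hy using c_hi (le_of_lt hy)

noncomputable def τ (x : ℝ) : ℝ := -sin (c x) + sinh (x - c x)
noncomputable def a (x : ℝ) : ℝ := 1 + sin (c x) ^ 2
noncomputable def F (x : ℝ) : ℝ := -cos (c x) / cosh (x - c x)
noncomputable def φ (x : ℝ) : ℝ := arctan (τ x)
noncomputable def ψ (x : ℝ) : ℝ := F x / a x

theorem a_ge (x : ℝ) : 1 ≤ a x := by unfold a; nlinarith [sq_nonneg (sin (c x))]
theorem a_le (x : ℝ) : a x ≤ 2 := by unfold a; linarith [sin_sq_le_one (c x)]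
theorem a_cont : Continuous a := by unfold a; fun_prop
theorem τ_cont : Continuous τ := by unfold τ; fun_prop
theorem φ_cont : Continuous φ := continuous_arctan.comp τ_cont
theorem F_cont : Continuous F := by
  unfold F
  exact Continuous.div (by fun_prop) (by fun_prop) fun x => (cosh_pos _).ne'
theorem ψ_cont : Continuous ψ := F_cont.div a_cont fun x => (by linarith [a_ge x])

theorem φ_deriv (x : ℝ) : HasDerivAt φ (ψ x) x := by
  refine deriv_all φ_cont ψ_cont (fun x h1 h2 => ?_) x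
  have hch := cosh_pos (x - c x)
  rcases c_cases x h1 h2 with ⟨h3, h4⟩ | ⟨h3, h4, h5⟩
  · refine ((h3.sin.neg.add ((hasDerivAt_id x).sub h3).sinh).arctan).congr_deriv ?_
    simp [ψ, F, a, h4]
    field_simp
  · refine ((h3.sin.neg.add ((hasDerivAt_id x).sub h3).sinh).arctan).congr_deriv ?_
    simp only [ψ, F, a, h4, h5, Pi.add_apply, Pi.neg_apply, Pi.sub_apply, id]
    simp only [neg_zero, zero_add, ← cosh_sq']
    field_simp
    ring

theorem sc (t : ℝ) : sin (arctan t) * cos (arctan t) = t / (1 + t ^ 2) := by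
  rw [sin_arctan, cos_arctan, div_mul_div_comm, mul_one, mul_self_sqrt (by positivity)]

theorem F_deriv (x : ℝ) : HasDerivAt F (-(a x * sin (φ x) * cos (φ x))) x := by
  have := a_cont
  have := φ_cont
  refine deriv_all (v := fun x => -(a x * sin (φ x) * cos (φ x))) F_cont (by fun_prop)
    (fun x h1 h2 => ?_) x
  have hch := cosh_pos (x - c x)
  rw [mul_assoc, φ, sc]
  rcases c_cases x h1 h2 with ⟨h3, h4⟩ | ⟨h3, h4, h5⟩
  · refine (h3.cos.neg.div ((hasDerivAt_id x).sub h3).cosh hch.ne').congr_deriv ?_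
    simp [τ, a, h4]
    field_simp
  · refine (h3.cos.neg.div ((hasDerivAt_id x).sub h3).cosh hch.ne').congr_deriv ?_
    simp only [τ, a, h4, h5, Pi.neg_apply, Pi.sub_apply, id]
    simp only [neg_zero, zero_add, ← cosh_sq']
    field_simp
    ring

theorem ψ_sq (x : ℝ) : ψ x ^ 2 ≤ 33 * (1 + x ^ 2)⁻¹ := by
  set r := x - c x
  have h1 : r ^ 2 ≤ sinh r ^ 2 := by
    rw [sq_le_sq, abs_sinh]
    exact self_le_sinh_iff.2 (abs_nonneg r)
  have h2 : c x ^ 2 ≤ 16 := by
    have h3 : -π ≤ c x := le_max_left _ _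
    have h4 : c x ≤ π := max_le (by linarith [pi_pos]) (min_le_left _ _)
    nlinarith [pi_le_four]
  have h3 : 1 + x ^ 2 ≤ 33 * cosh r ^ 2 := by
    have : x = r + c x := by simp [r]
    rw [cosh_sq', this]
    nlinarith [sq_nonneg (r - c x), sq_nonneg (sinh r)]
  have h4 : ψ x ^ 2 ≤ 1 / cosh r ^ 2 := by
    rw [ψ, F, div_pow, div_pow, neg_sq]
    refine (div_le_self (by positivity) (one_le_pow₀ (a_ge x))).trans ?_
    gcongr
    exact cos_sq_le_one _
  refine h4.trans ?_
  rw [← div_eq_mul_inv, div_le_div_iff₀ (pow_pos (cosh_pos _) 2) (by positivity)]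
  linarith

theorem main : ∃ a φ ψ : ℝ → ℝ, Continuous a ∧ (∀ x, 1 ≤ a x ∧ a x ≤ 2) ∧ Continuous φ ∧
    Continuous ψ ∧ MemLp ψ 2 volume ∧ IsWeakDeriv φ ψ ∧ Solves a φ ψ ∧ φ 0 = 0 ∧
    Tendsto φ atTop (𝓝 (π / 2)) ∧ Tendsto φ atBot (𝓝 (-(π / 2))) ∧ ∃ x, 0 < x ∧ φ x < 0 := by
  have := a_cont
  have := φ_cont
  refine ⟨a, φ, ψ, a_cont, fun x => ⟨a_ge x, a_le x⟩, φ_cont, ψ_cont, ?_,
    fun η hη => ibp φ_cont ψ_cont φ_deriv hη, fun η hη _ => ?_, ?_, ?_, ?_, π / 2, by positivity, ?_⟩
  · rw [memLp_two_iff_integrable_sq ψ_cont.aestronglyMeasurable]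
    refine (integrable_inv_one_add_sq.const_mul 33).mono' (ψ_cont.pow 2).aestronglyMeasurable
      (Eventually.of_forall fun x => ?_)
    rw [Real.norm_of_nonneg (sq_nonneg _)]
    exact ψ_sq x
  · have h := ibp (v := fun x => -(a x * sin (φ x) * cos (φ x))) F_cont (by fun_prop) F_deriv hη
    have e : ∀ x, a x * ψ x = F x := fun x => mul_div_cancel₀ _ (by linarith [a_ge x])
    simp only [e, h, neg_mul, integral_neg, neg_neg]
    ring
  · simp [φ, τ, c_mid (x := 0) (by linarith [pi_pos]) pi_pos.le]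
  · refine (tendsto_nhds_of_tendsto_nhdsWithin tendsto_arctan_atTop).comp ?_
    refine tendsto_atTop_mono' _ ?_ (tendsto_atTop_add_const_right _ (-π) tendsto_id)
    filter_upwards [eventually_ge_atTop π] with x hx
    simp only [τ, c_hi hx, sin_pi, neg_zero, zero_add, id, ← sub_eq_add_neg]
    exact self_le_sinh_iff.2 (by linarith)
  · refine (tendsto_nhds_of_tendsto_nhdsWithin tendsto_arctan_atBot).comp ?_
    refine tendsto_atBot_mono' _ ?_ (tendsto_atBot_add_const_right _ π tendsto_id)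
    filter_upwards [eventually_le_atBot (-π)] with x hx
    simp only [τ, c_lo hx, sin_neg, sin_pi, neg_zero, zero_add, id, sub_neg_eq_add]
    exact sinh_le_self_iff.2 (by linarith)
  · have h : c (π / 2) = π / 2 := c_mid (by linarith [pi_pos]) (by linarith [pi_pos])
    simp only [φ, τ, h, sin_pi_div_two, sub_self, sinh_zero, add_zero, arctan_neg, arctan_one]
    linarith [pi_pos]

end Pool.Agent.H95.Pend
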