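import Mathlib

set_option autoImplicit false
open MeasureTheory

namespace Pool.Agent.H95.PendDefs

/-- smooth with compact support -/
def IsTest (η : ℝ → ℝ) : Prop := ContDiff ℝ ((⊤ : ℕ∞) : WithTop ℕ∞) η ∧ HasCompactSupport η

/-- `ψ` is the distributional derivative of `φ` on `ℝ`. -/
def IsWeakDeriv (φ ψ : ℝ → ℝ) : Prop :=
  ∀ η, IsTest η → ∫ x, φ x * deriv η x = -∫ x, ψ x * η x

/-- `(a ψ)' + a sin φ cos φ = 0` in the distributions on `ℝ ∖ {0}`. -/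
def Solves (a φ ψ : ℝ → ℝ) : Prop :=
  ∀ η, IsTest η → (0 : ℝ) ∉ tsupport η →
    -(∫ x, a x * ψ x * deriv η x) + ∫ x, a x * Real.sin (φ x) * Real.cos (φ x) * η x = 0

end Pool.Agent.H95.PendDefs
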