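import Mathlib

set_option autoImplicit false

namespace Pool.Agent.H95.Pur

open Matrix Complex

/-- Operators on `ℂ^d`. -/
abbrev Mt (d : ℕ) : Type := Matrix (Fin d) (Fin d) ℂ

variable {d D : ℕ}

/-- The real span of the `i gⱼ`. -/
noncomputable def lie (g : Fin D → Mt d) : Submodule ℝ (Mt d) :=
  Submodule.span ℝ (Set.range fun j => I • g j)

/-- Hermitian, orthogonal with a common norm, spanning a real Lie algebra. -/
def IsFrame (g : Fin D → Mt d) : Prop :=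
  (∀ i, (g i).IsHermitian) ∧
    (∃ c : ℝ, 0 < c ∧ ∀ i j, (g i * g j).trace = if i = j then (c : ℂ) else 0) ∧
    ∀ a ∈ lie g, ∀ b ∈ lie g, a * b - b * a ∈ lie g

/-- The group of complexified free operations. -/
def cfo (g : Fin D → Mt d) : Subgroup (GL (Fin d) ℂ) :=
  Subgroup.closure {u | (∃ a ∈ lie g, ∃ b ∈ lie g, u.val = NormedSpace.exp (a + I • b)) ∨
    ∃ z : ℂ, u.val = z • 1}

/-- The purity of `|ψ⟩⟨ψ|` with normalising constant `N`. -/
noncomputable def purity (N : ℝ) (g : Fin D → Mt d) (ψ : Fin d → ℂ) : ℝ :=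
  1 / N * ∑ i, (vecMulVec ψ (star ψ) * g i).trace.re ^ 2

/-- The probability `⟨ψ|M†M|ψ⟩`. -/
noncomputable def prob (M : Mt d) (ψ : Fin d → ℂ) : ℝ := (star ψ ⬝ᵥ (Mᴴ * M) *ᵥ ψ).re

end Pool.Agent.H95.Pur
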