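import Mathlib

namespace Pool.Agent.H95.QG
open scoped ENNReal
open Finset

noncomputable def Q {J : Type} (z : J → ℝ) : ℝ≥0∞ := ∑' j, ENNReal.ofReal (z j ^ 4)

open Classical in
noncomputable def δ {J : Type} (j : J) : J → ℝ := fun i => if i = j then 1 else 0

instance fact4 : Fact ((1 : ℝ≥0∞) ≤ 4) := ⟨by norm_num⟩

abbrev X := lp (fun _ : ℕ => ℝ) 4

structure Sys (I J : Type) (C : ℕ) where
  An : (J → ℝ) →ₗ[ℝ] (I → ℝ)
  Sy : (I → ℝ) →ₗ[ℝ] (J → ℝ)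
  h1 : ∀ c, An (Sy c) = c
  h2 : ∀ z, Sy (An z) = z
  h3 : ∀ j, (Function.support (An (δ j))).Finite
  h4 : ∀ i, Q (Sy (δ i)) ≤ C ^ 4
  h5 : ∀ z i, ENNReal.ofReal (An z i ^ 4) ≤ C ^ 4 * Q z
  h6 : ∀ z (t : ℝ) (A : Set I), (∀ i ∈ A, t ≤ |An z i|) → (∀ i ∉ A, |An z i| ≤ t) →
    Q (Sy (A.indicator (An z))) ≤ C ^ 4 * Q z

def Bad {I J : Type} {C : ℕ} (S : Sys I J C) (n : ℕ) : Prop :=
  ∃ (B : Finset I) (γ : (J → ℝ) →ₗ[ℝ] ℝ) (c : I → ℝ),
    (∀ z, ENNReal.ofReal (γ z ^ 4) ≤ (n ^ 2 : ℕ) ^ 4 * Q z) ∧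
    (∀ i ∈ B, ∀ k ∉ B, |γ (S.Sy (δ k))| ≤ |γ (S.Sy (δ i))|) ∧ Q (S.Sy c) ≤ (C * n : ℕ) ^ 4 ∧
    ∑ i ∈ B, γ (S.Sy (δ i)) * c i = n ^ 4

theorem p4 (x : ℝ) : ‖x‖ ^ (4 : ℝ≥0∞).toReal = x ^ 4 := by
  rw [show (4 : ℝ≥0∞).toReal = (4 : ℕ) by simp, Real.rpow_natCast, Real.norm_eq_abs]
  exact Even.pow_abs (by decide) x

theorem Qnorm (y : X) : Q y = ENNReal.ofReal (‖y‖ ^ 4) := by
  have := lp.hasSum_norm (p := 4) (by simp) y
  simp only [p4] at this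
  rw [show (4 : ℝ≥0∞).toReal = (4 : ℕ) by simp, Real.rpow_natCast] at this
  rw [← this.tsum_eq, ENNReal.ofReal_tsum_of_nonneg (fun _ => by positivity) this.summable, Q]

theorem mem (z : ℕ → ℝ) (h : Q z ≠ ⊤) : Memℓp z 4 := by
  refine memℓp_gen ?_
  simp only [p4]
  simpa [ENNReal.toReal_ofReal (show 0 ≤ z _ ^ 4 by positivity)] using ENNReal.summable_toReal h

theorem root {u v : ℝ} {a : ℕ} (hv : 0 ≤ v) (h : ENNReal.ofReal (u ^ 4) ≤ a ^ 4 * ENNReal.ofReal (v ^ 4)) :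
    |u| ≤ a * v := by
  rw [← ENNReal.ofReal_natCast, ← ENNReal.ofReal_pow (by positivity), ← ENNReal.ofReal_mul (by positivity),
    ENNReal.ofReal_le_ofReal_iff (by positivity), ← mul_pow, ← Even.pow_abs (by decide) u] at h
  exact le_of_pow_le_pow_left₀ (by decide) (by positivity) h

theorem sumδ {I : Type} (c : I → ℝ) (A : Finset I) : ∑ i ∈ A, c i • δ i = (A : Set I).indicator c := by
  classical
  funext k
  simp [δ, Finset.sum_apply, Set.indicator]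

theorem master {I J : Type} [Countable I] [Infinite I] [Countable J] [Infinite J] {C : ℕ} (S : Sys I J C)
    (hb : ∀ n, Bad S n) : ∃ (x : ℕ → X) (f : ℕ → (X →L[ℝ] ℝ)),
        (∀ m n : ℕ, f m (x n) = if m = n then 1 else 0) ∧
        Dense (Submodule.span ℝ (Set.range x) : Set X) ∧
        (∃ M : ℝ, ∀ n : ℕ, ‖x n‖ ≤ M ∧ ‖f n‖ ≤ M) ∧
        (∃ C : ℝ, ∀ (y : X) (A : Finset ℕ), (∀ n ∈ A, ∀ k ∉ A, |f k y| ≤ |f n y|) →
            ‖∑ n ∈ A, f n y • x n‖ ≤ C * ‖y‖) ∧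
        ¬ (∃ C : ℝ, ∀ (g : X →L[ℝ] ℝ) (A : Finset ℕ), (∀ n ∈ A, ∀ k ∉ A, |g (x k)| ≤ |g (x n)|) →
            ‖∑ n ∈ A, g (x n) • f n‖ ≤ C * ‖g‖) := by
  classical
  obtain ⟨e⟩ : Nonempty (ℕ ≃ J) := inferInstance
  obtain ⟨d⟩ : Nonempty (ℕ ≃ I) := inferInstance
  let R : X →ₗ[ℝ] (J → ℝ) := ⟨⟨fun y j => y (e.symm j), fun _ _ => rfl⟩, fun _ _ => rfl⟩
  have QR : ∀ y, Q (R y) = ENNReal.ofReal (‖y‖ ^ 4) := fun y =>
    (e.symm.tsum_eq fun n => ENNReal.ofReal (y n ^ 4)).trans (Qnorm y)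
  have inj : Function.Injective R := fun a b h => lp.ext (funext fun n => by simpa [R] using congrFun h (e n))
  have mk : ∀ (z : J → ℝ) (a : ℕ), Q z ≤ a ^ 4 → ∃ y : X, R y = z ∧ ‖y‖ ≤ a := fun z a h => by
    have : R ⟨fun n => z (e n), mem _ (ne_top_of_le_ne_top (by finiteness)
      ((e.tsum_eq fun j => ENNReal.ofReal (z j ^ 4)).trans_le h))⟩ = z := funext fun j => by simp [R]
    refine ⟨_, this, ?_⟩
    rw [← this, QR] at h
    simpa using root (v := 1) zero_le_one (h.trans_eq (by simp))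
  have cl : ∀ (γ : (J → ℝ) →ₗ[ℝ] ℝ) (a : ℕ), (∀ z, ENNReal.ofReal (γ z ^ 4) ≤ a ^ 4 * Q z) →
      ∃ g : X →L[ℝ] ℝ, (∀ y, g y = γ (R y)) ∧ ‖g‖ ≤ a := fun γ a h =>
    ⟨(γ ∘ₗ R).mkContinuous a fun y => root (norm_nonneg y) (QR y ▸ h (R y)), fun _ => rfl,
      LinearMap.mkContinuous_norm_le _ (by positivity) _⟩
  choose x hx using fun n => mk _ C (S.h4 (d n))
  choose f hf using fun n => cl (LinearMap.proj (d n) ∘ₗ S.An) C fun z => S.h5 z (d n)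
  have hs : ∀ (c : I → ℝ) (A : Finset ℕ), R (∑ n ∈ A, c (d n) • x n) =
      S.Sy (((A.map d.toEmbedding : Finset I) : Set I).indicator c) := fun c A => by
    rw [← sumδ]; simp [(hx _).1]
  refine ⟨x, f, fun m n => ?_, fun y => ?_, ⟨C, fun n => ⟨(hx n).2, (hf n).2⟩⟩, ⟨C, fun y A h => ?_⟩,
    fun ⟨M, hM⟩ => ?_⟩
  · simp [(hf m).1, (hx n).1, S.h1, δ]
  · refine mem_closure_of_tendsto (lp.hasSum_single (by simp) y) (Filter.Eventually.of_forall fun F =>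
      Submodule.sum_mem _ fun n _ => ?_)
    have : lp.single 4 n (y n) = y n • ∑ m ∈ (S.h3 (e n)).toFinset.map d.symm.toEmbedding,
        S.An (δ (e n)) (d m) • x m := inj (by
      rw [map_smul, hs, show (((S.h3 (e n)).toFinset.map d.symm.toEmbedding).map d.toEmbedding) =
        (S.h3 (e n)).toFinset by ext; simp, Set.Finite.coe_toFinset, Set.indicator_support, S.h2]
      funext j
      simp [R, δ, lp.single_apply, Pi.single_apply, Equiv.symm_apply_eq])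
    rw [this]
    exact Submodule.smul_mem _ _ (Submodule.sum_mem _ fun m _ =>
      Submodule.smul_mem _ _ (Submodule.subset_span ⟨m, rfl⟩))
  · rcases A.eq_empty_or_nonempty with rfl | hA
    · simp; positivity
    obtain ⟨m, hm, hm'⟩ := A.exists_min_image (fun n => |f n y|) hA
    simp only [(hf _).1] at *
    have := S.h6 (R y) _ ((A.map d.toEmbedding : Finset I) : Set I)
      (fun i hi => by simpa using hm' (d.symm i) (by simpa using hi))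
      (fun i hi => by simpa using h m hm (d.symm i) (by simpa using hi))
    rw [← hs, QR, QR] at this
    simpa using root (norm_nonneg _) this
  · obtain ⟨n, hn⟩ := exists_nat_gt (|M| * C)
    obtain ⟨B, γ, c, a1, a2, a3, a4⟩ := hb n
    obtain ⟨g, g1, g2⟩ := cl γ _ a1
    obtain ⟨y, y1, y2⟩ := mk _ _ a3
    have := hM g (B.map d.symm.toEmbedding) fun a ha b hb => by
      rw [g1, g1, (hx _).1, (hx _).1]; exact a2 _ (by simpa using ha) _ (by simpa using hb)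
    have u := (ContinuousLinearMap.le_opNorm _ y).trans (mul_le_mul this y2 (norm_nonneg _)
      ((norm_nonneg _).trans this))
    simp [g1, (hx _).1, (hf _).1, y1, S.h1, a4] at u g2
    have n0 : (0 : ℝ) < n := lt_of_le_of_lt (by positivity) hn
    have : M * ‖g‖ ≤ |M| * n ^ 2 := mul_le_mul (le_abs_self M) g2 (norm_nonneg _) (abs_nonneg _)
    nlinarith [mul_le_mul_of_nonneg_right this (show (0 : ℝ) ≤ C * n by positivity),
      mul_lt_mul_of_pos_right hn (pow_pos n0 3)]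

theorem Qsig {J : ℕ → Type} (z : (Σ K, J K) → ℝ) : Q z = ∑' K, Q fun j => z ⟨K, j⟩ :=
  ENNReal.tsum_sigma' _

theorem δeq {J : ℕ → Type} (x : Σ K, J K) : (fun j => δ x ⟨x.1, j⟩) = δ x.2 := by
  funext j; obtain ⟨K, x⟩ := x; simp only [δ]; congr 1; simp

theorem δne {J : ℕ → Type} (x : Σ K, J K) {K : ℕ} (h : K ≠ x.1) : (fun j => δ x ⟨K, j⟩) = 0 := by
  funext j; simp only [δ, Pi.zero_apply]; rw [if_neg]; rintro rfl; exact h rfl

theorem Q0 {J : Type} : Q (0 : J → ℝ) = 0 := by simp [Q]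

/-- the `ℓ₄` sum of systems -/
noncomputable def sig {I J : ℕ → Type} {C : ℕ} (S : ∀ K, Sys (I K) (J K) C) : Sys (Σ K, I K) (Σ K, J K) C where
  An := ⟨⟨fun z i => (S i.1).An (fun j => z ⟨i.1, j⟩) i.2, fun a b => funext fun i =>
    congrFun ((S i.1).An.map_add _ _) _⟩, fun a b => funext fun i => congrFun ((S i.1).An.map_smul a _) _⟩
  Sy := ⟨⟨fun z i => (S i.1).Sy (fun j => z ⟨i.1, j⟩) i.2, fun a b => funext fun i =>
    congrFun ((S i.1).Sy.map_add _ _) _⟩, fun a b => funext fun i => congrFun ((S i.1).Sy.map_smul a _) _⟩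
  h1 c := funext fun i => congrFun ((S i.1).h1 fun j => c ⟨i.1, j⟩) _
  h2 c := funext fun i => congrFun ((S i.1).h2 fun j => c ⟨i.1, j⟩) _
  h3 x := (((S x.1).h3 x.2).image (Sigma.mk x.1)).subset fun ⟨K, i⟩ hi => by
    have hi : (S K).An (fun j => δ x ⟨K, j⟩) i ≠ 0 := hi
    by_cases h : K = x.1
    · subst h; rw [δeq] at hi; exact ⟨i, hi, rfl⟩
    · simp [δne x h] at hi
  h4 x := by
    rw [Qsig, tsum_eq_single x.1 fun K h => by
      change Q ((S K).Sy fun j => δ x ⟨K, j⟩) = 0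
      rw [δne x h, map_zero, Q0]]
    change Q ((S x.1).Sy fun j => δ x ⟨x.1, j⟩) ≤ _
    rw [δeq]; exact (S _).h4 _
  h5 z i := ((S i.1).h5 _ i.2).trans (by rw [Qsig z]; gcongr; exact ENNReal.le_tsum i.1)
  h6 z t A h1 h2 := by
    rw [Qsig, Qsig z, ← ENNReal.tsum_mul_left]
    refine ENNReal.tsum_le_tsum fun K => ?_
    have := (S K).h6 (fun j => z ⟨K, j⟩) t (Sigma.mk K ⁻¹' A) (fun i hi => h1 ⟨K, i⟩ hi) fun i hi => h2 ⟨K, i⟩ hi
    exact this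

theorem sig_bad {I J : ℕ → Type} {C : ℕ} (S : ∀ K, Sys (I K) (J K) C) (n : ℕ) (h : Bad (S n) n) :
    Bad (sig S) n := by
  classical
  obtain ⟨B, γ, c, a1, a2, a3, a4⟩ := h
  let r : ((Σ K, J K) → ℝ) →ₗ[ℝ] (J n → ℝ) := ⟨⟨fun z j => z ⟨n, j⟩, fun _ _ => rfl⟩, fun _ _ => rfl⟩
  have e : ∀ x, (γ ∘ₗ r) ((sig S).Sy (δ x)) = γ ((S n).Sy fun j => δ x ⟨n, j⟩) := fun _ => rfl
  have e' : ∀ x, (γ ∘ₗ r) ((sig S).Sy (δ ⟨n, x⟩)) = γ ((S n).Sy (δ x)) := fun x => by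
    rw [e, ← δeq ⟨n, x⟩]
  refine ⟨B.map (Function.Embedding.sigmaMk n), γ ∘ₗ r, fun x => if h : x.1 = n then c (h ▸ x.2) else 0,
    fun z => (a1 _).trans (by rw [Qsig z]; gcongr; exact ENNReal.le_tsum n), fun i hi k hk => ?_, ?_, ?_⟩
  · obtain ⟨i, hi', rfl⟩ := Finset.mem_map.1 hi
    obtain ⟨K, k⟩ := k
    by_cases h : n = K
    · subst h
      rw [Function.Embedding.sigmaMk_apply, e', e']
      exact a2 i hi' k fun h => hk (Finset.mem_map_of_mem _ h)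
    · rw [e, δne _ h]; simp
  · rw [Qsig, tsum_eq_single n fun K h => by
      change Q ((S K).Sy fun j => if h : K = n then c (h ▸ j) else 0) = 0
      simp only [h, dite_false]; exact (congrArg Q (map_zero _)).trans Q0]
    change Q ((S n).Sy fun j => if h : n = n then c (h ▸ j) else 0) ≤ _
    simpa using a3
  · rw [Finset.sum_map, ← a4]
    exact Finset.sum_congr rfl fun i _ => by
      change (γ ∘ₗ r) ((sig S).Sy (δ ⟨n, i⟩)) * _ = _
      rw [e']; exact congrArg _ (dif_pos rfl)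

end Pool.Agent.H95.QG
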