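import Pool.Agent.H95.QG1

namespace Pool.Agent.H95.QG
open scoped ENNReal
open Finset LinearMap ENNReal

def n4 {D : Type} [Fintype D] (z : D → ℝ) : ℝ := ∑ d, z d ^ 4
def n2 {D : Type} [Fintype D] (z : D → ℝ) : ℝ := ∑ d, z d ^ 2

def Cut {D : Type} (t : ℝ) (w w' : D → ℝ) : Prop := ∀ d, (w' d = w d ∧ t ≤ |w d|) ∨ (w' d = 0 ∧ |w d| ≤ t)

structure Blk (D S : Type) [Fintype D] [Fintype S] where
  U : (S → ℝ) →ₗ[ℝ] (D → ℝ)
  V : (D → ℝ) →ₗ[ℝ] (S → ℝ)
  T : (D → ℝ) →ₗ[ℝ] (S → ℝ)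
  hVU : ∀ y, V (U y) = y
  hU : ∀ y, n4 (U y) ≤ 3 * n2 y ^ 2
  hV : ∀ z, n2 (V z) ^ 2 ≤ n4 z
  hT : ∀ w j, T w j ^ 4 ≤ n4 w
  hK : ∀ t w w' b b', Cut t w w' → Cut t b b' → n2 (b' + T w') ^ 2 ≤ 10 ^ 6 * (n2 (b + T w) ^ 2 + n4 w)

variable {D S : Type} [Fintype D] [Fintype S] (B : Blk D S)

theorem n4_nonneg (z : D → ℝ) : 0 ≤ n4 z := sum_nonneg fun _ _ => by positivity
theorem n2_nonneg (z : D → ℝ) : 0 ≤ n2 z := sum_nonneg fun _ _ => by positivity
theorem le_n4 (z : D → ℝ) (d : D) : z d ^ 4 ≤ n4 z :=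
  single_le_sum (f := fun d => z d ^ 4) (fun _ _ => by positivity) (mem_univ d)
theorem le_n2 (z : D → ℝ) (d : D) : z d ^ 4 ≤ n2 z ^ 2 := by
  have := single_le_sum (f := fun d => z d ^ 2) (fun _ _ => by positivity) (mem_univ d)
  rw [show z d ^ 4 = (z d ^ 2) ^ 2 by ring]; exact pow_le_pow_left₀ (by positivity) this 2

theorem tri (a : D → ℝ) (y : S → ℝ) : n4 (a - B.U (B.V a) + B.U y) ≤ 108 * n4 a + 81 * n2 y ^ 2 := by
  have : n4 (a - B.U (B.V a) + B.U y) ≤ 27 * (n4 a + n4 (B.U (B.V a)) + n4 (B.U y)) := by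
    simp only [n4, mul_add, mul_sum, ← sum_add_distrib]
    refine sum_le_sum fun d _ => ?_
    simp only [Pi.add_apply, Pi.sub_apply]
    generalize a d = p; generalize B.U (B.V a) d = q; generalize B.U y d = r
    have : (p - q + r) ^ 2 ≤ 3 * (p ^ 2 + q ^ 2 + r ^ 2) := by nlinarith [sq_nonneg (p + q), sq_nonneg (p - r), sq_nonneg (q + r)]
    have := pow_le_pow_left₀ (by positivity) this 2
    nlinarith [sq_nonneg (p ^ 2 - q ^ 2), sq_nonneg (p ^ 2 - r ^ 2), sq_nonneg (q ^ 2 - r ^ 2)]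
  linarith [B.hU (B.V a), B.hU y, B.hV a]

def lev (i : ℕ) : (ℕ × D → ℝ) →ₗ[ℝ] (D → ℝ) := funLeft ℝ ℝ (Prod.mk i)
def wl (i : ℕ) : ((ℕ × D) ⊕ S → ℝ) →ₗ[ℝ] (D → ℝ) := funLeft ℝ ℝ fun d => Sum.inl (i, d)
def bl : ((ℕ × D) ⊕ S → ℝ) →ₗ[ℝ] (S → ℝ) := funLeft ℝ ℝ Sum.inr
def W (i : ℕ) : (ℕ × D → ℝ) →ₗ[ℝ] (D → ℝ) := lev i - B.U ∘ₗ B.V ∘ₗ lev i + B.U ∘ₗ B.V ∘ₗ lev (i + 1)
def Y : ℕ → ((ℕ × D) ⊕ S → ℝ) →ₗ[ℝ] (S → ℝ)
  | 0 => bl + B.T ∘ₗ wl 0
  | i + 1 => B.V ∘ₗ wl i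
def An : (ℕ × D → ℝ) →ₗ[ℝ] ((ℕ × D) ⊕ S → ℝ) := LinearMap.pi fun x =>
  x.elim (fun p => proj p.2 ∘ₗ W B p.1) fun j => proj j ∘ₗ (B.V ∘ₗ lev 0 - B.T ∘ₗ W B 0)
def Sy : ((ℕ × D) ⊕ S → ℝ) →ₗ[ℝ] (ℕ × D → ℝ) := LinearMap.pi fun p =>
  proj p.2 ∘ₗ (wl p.1 - B.U ∘ₗ B.V ∘ₗ wl p.1 + B.U ∘ₗ Y B p.1)

theorem wlAn (i : ℕ) (z) : wl i (An B z) = lev i z - B.U (B.V (lev i z)) + B.U (B.V (lev (i + 1) z)) := rfl
theorem blAn (z) : bl (An B z) = B.V (lev 0 z) - B.T (wl 0 (An B z)) := rfl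
theorem levSy (i : ℕ) (c) : lev i (Sy B c) = wl i c - B.U (B.V (wl i c)) + B.U (Y B i c) := rfl
theorem Y0 (c) : Y B 0 c = bl c + B.T (wl 0 c) := rfl
theorem Y1 (i c) : Y B (i + 1) c = B.V (wl i c) := rfl
theorem VSy (i : ℕ) (c) : B.V (lev i (Sy B c)) = Y B i c := by simp [levSy, B.hVU]
theorem YAn (i : ℕ) (z) : Y B i (An B z) = B.V (lev i z) := by
  cases i
  · simp [Y0, blAn]
  · simp [Y1, wlAn, B.hVU]

theorem Qlev (z : ℕ × D → ℝ) : Q z = ∑' i, ENNReal.ofReal (n4 (lev i z)) := by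
  rw [Q, ENNReal.tsum_prod']
  refine tsum_congr fun i => ?_
  rw [tsum_fintype, n4, ofReal_sum_of_nonneg fun _ _ => by positivity]; rfl

theorem ofR {a b c : ℝ} (hb : 0 ≤ b) (hc : 0 ≤ c) {m n : ℕ} (h : a ≤ m * b + n * c) :
    ENNReal.ofReal a ≤ m * ENNReal.ofReal b + n * ENNReal.ofReal c := by
  rw [← ofReal_natCast, ← ofReal_natCast n, ← ofReal_mul (by positivity), ← ofReal_mul (by positivity),
    ← ofReal_add (by positivity) (by positivity)]
  exact ofReal_le_ofReal h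

theorem QW (z : ℕ × D → ℝ) : ∑' i, ENNReal.ofReal (n4 (wl i (An B z))) ≤ 189 * Q z := by
  refine (ENNReal.tsum_le_tsum fun i => ofR (a := n4 (wl i (An B z))) (m := 108) (n := 81) (n4_nonneg (lev i z))
    (n4_nonneg (lev (i + 1) z)) (by
      rw [wlAn]; push_cast; linarith [B.hV (lev (i + 1) z), tri B (lev i z) (B.V (lev (i + 1) z))])).trans ?_
  rw [ENNReal.tsum_add, ENNReal.tsum_mul_left, ENNReal.tsum_mul_left, Qlev, show (189 : ℝ≥0∞) = 108 + 81 by norm_num,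
    add_mul]
  gcongr ?_ * _ + ?_ * ?_
  · simp
  · simp
  · exact ENNReal.tsum_comp_le_tsum_of_injective (add_left_injective 1) fun i => ENNReal.ofReal (n4 (lev i z))

theorem QS (c) : Q (Sy B c) ≤ 189 * ∑' i, ENNReal.ofReal (n4 (wl i c)) + 81 * ENNReal.ofReal (n2 (Y B 0 c) ^ 2) := by
  rw [Qlev]
  refine (ENNReal.tsum_le_tsum fun i => ofR (m := 108) (n := 81) (n4_nonneg (wl i c)) (sq_nonneg (n2 (Y B i c)))
    (tri B _ _)).trans ?_
  rw [ENNReal.tsum_add, ENNReal.tsum_mul_left, ENNReal.tsum_mul_left, show (189 : ℝ≥0∞) = 108 + 81 by norm_num,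
    add_mul, add_assoc, ← mul_add, tsum_eq_zero_add' (f := fun i => ENNReal.ofReal (n2 (Y B i c) ^ 2))
      ENNReal.summable, add_comm (ENNReal.ofReal _)]
  gcongr with i
  · simp
  · simp
  · exact B.hV _

theorem l0 (f : ℕ → ℝ≥0∞) : f 0 ≤ ∑' i, f i := ENNReal.le_tsum 0

theorem Qδ {J : Type} (x : J) : Q (δ x) = 1 := by
  rw [Q, tsum_eq_single x fun y h => by simp [δ, h]]; simp [δ]

theorem n2δ (x : S) : n2 (δ x) = 1 := by classical simp [n2, δ]

noncomputable def sys : Sys ((ℕ × D) ⊕ S) (ℕ × D) 400 where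
  An := An B
  Sy := Sy B
  h1 c := by
    have : ∀ i, wl i (An B (Sy B c)) = wl i c := fun i => by rw [wlAn, VSy, VSy, levSy, Y1]; abel
    funext x
    rcases x with ⟨i, d⟩ | j
    · exact congrFun (this i) d
    · exact congrFun (show bl (An B (Sy B c)) = bl c by rw [blAn, this, VSy, Y0]; abel) j
  h2 z := funext fun ⟨i, d⟩ => congrFun (show lev i (Sy B (An B z)) = lev i z by
    rw [levSy, ← Y1, YAn, YAn, wlAn]; abel) d
  h3 x := ((((Set.finite_Iic x.1).prod Set.finite_univ).image Sum.inl).union (Set.finite_range Sum.inr)).subset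
    fun y hy => by
      rcases y with ⟨i, d⟩ | j
      · refine Or.inl ⟨_, ⟨?_, trivial⟩, rfl⟩
        by_contra h
        have : ∀ k, i ≤ k → lev k (δ x) = 0 := fun k hk => funext fun d => if_neg fun e => h (by
          rw [← e]; exact hk)
        exact hy (congrFun (show wl i (An B (δ x)) = 0 by simp [wlAn, this]) d)
      · exact Or.inr ⟨j, rfl⟩
  h4 x := by
    have a : ∑' i, ENNReal.ofReal (n4 (wl i (δ x))) ≤ 1 := (Qlev fun p => δ x (Sum.inl p)).symm.trans_le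
      ((ENNReal.tsum_comp_le_tsum_of_injective Sum.inl_injective fun i => ENNReal.ofReal (δ x i ^ 4)).trans_eq (Qδ x))
    have a0 : n4 (wl 0 (δ x)) ≤ 1 := by simpa using (l0 _).trans a
    have b : n2 (Y B 0 (δ x)) ^ 2 ≤ 10 ^ 6 := by
      rcases x with p | j
      · have c : ∀ d, wl 0 (δ (Sum.inl p : ℕ × D ⊕ S)) d = 1 ∨ wl 0 (δ (Sum.inl p : ℕ × D ⊕ S)) d = 0 := fun d => by
          simp only [wl, funLeft_apply, δ]; split_ifs <;> simp
        rw [Y0, show bl (δ (Sum.inl p)) = (0 : S → ℝ) from funext fun j => if_neg (by simp)]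
        generalize wl 0 (δ (Sum.inl p : ℕ × D ⊕ S)) = w at *
        have := B.hK 1 w w (-B.T w) 0 (fun d => by rcases c d with h | h <;> simp [h]) fun j => Or.inr ⟨rfl, by
            rw [Pi.neg_apply, abs_neg]
            exact le_of_pow_le_pow_left₀ (n := 4) (by decide) zero_le_one (by
              rw [Even.pow_abs (by decide)]; linarith [B.hT w j])⟩
        simp only [neg_add_cancel, show n2 (0 : S → ℝ) = 0 by simp [n2]] at this
        linarith
      · rw [Y0, show wl 0 (δ (Sum.inr j)) = (0 : D → ℝ) from funext fun j => if_neg (by simp),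
          show bl (δ (Sum.inr j : ℕ × D ⊕ S)) = δ j from funext fun j => by
            simp only [bl, δ, funLeft_apply]; congr 1; simp]
        simp [n2δ]; norm_num
    refine (QS B _).trans ((add_le_add (mul_le_mul_right a _) (mul_le_mul_right (ofReal_le_ofReal b) _)).trans ?_)
    norm_num
  h5 z x := by
    have a := (l0 _).trans (QW B z)
    rcases x with ⟨i, d⟩ | j
    · refine (ofReal_le_ofReal (le_n4 (wl i (An B z)) d)).trans ((ENNReal.le_tsum i).trans ((QW B z).trans ?_))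
      gcongr; norm_num
    · have : bl (An B z) j ^ 4 ≤ (8 : ℕ) * n4 (lev 0 z) + (8 : ℕ) * n4 (wl 0 (An B z)) := by
        have u := (le_n2 _ j).trans (B.hV (lev 0 z))
        have v := B.hT (wl 0 (An B z)) j
        rw [blAn, Pi.sub_apply]; push_cast
        generalize B.V (lev 0 z) j = p at *; generalize B.T (wl 0 (An B z)) j = q at *
        nlinarith [sq_nonneg (p ^ 2 - q ^ 2), sq_nonneg ((p + q) ^ 2), sq_nonneg (p * q), sq_nonneg (p + q),
          mul_nonneg (sq_nonneg (p + q)) (sq_nonneg (p - q))]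
      refine (ofR (n4_nonneg _) (n4_nonneg _) this).trans ((add_le_add (mul_le_mul_right ((l0 _).trans_eq
        (Qlev z).symm) _) (mul_le_mul_right a _)).trans ?_)
      rw [← mul_assoc, ← add_mul]; gcongr; norm_num
  h6 z t A h1 h2 := by
    have cut : Cut t (An B z) (A.indicator (An B z)) := fun x => by
      by_cases h : x ∈ A
      · exact Or.inl ⟨by simp [h], h1 x h⟩
      · exact Or.inr ⟨by simp [h], h2 x h⟩
    have a : ∑' i, ENNReal.ofReal (n4 (wl i (A.indicator (An B z)))) ≤ 189 * Q z :=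
      (ENNReal.tsum_le_tsum fun i => ofReal_le_ofReal (sum_le_sum fun d _ => by
        rcases cut (Sum.inl (i, d)) with h | h
        · exact (congrArg (· ^ 4) h.1).le
        · exact (congrArg (· ^ 4) h.1).trans_le (by simp only [ne_eq, OfNat.ofNat_ne_zero, not_false_eq_true, zero_pow]; positivity))).trans (QW B z)
    have b := B.hK t (wl 0 (An B z)) (wl 0 (A.indicator (An B z))) (bl (An B z)) (bl (A.indicator (An B z)))
      (fun d => cut _) fun j => cut _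
    rw [← Y0, ← Y0, YAn] at b
    have b := ofR (m := 10 ^ 6) (n := 10 ^ 6) (n4_nonneg (lev 0 z)) (n4_nonneg (wl 0 (An B z)))
      (b.trans (by push_cast; linarith [B.hV (lev 0 z)]))
    refine (QS B _).trans ((add_le_add (mul_le_mul_right a _) (mul_le_mul_right (b.trans (add_le_add
      (mul_le_mul_right ((l0 _).trans_eq (Qlev z).symm) _) (mul_le_mul_right ((l0 _).trans (QW B z)) _))) _)).trans ?_)
    rw [← mul_assoc, ← mul_assoc, ← add_mul, ← mul_assoc, ← add_mul]; gcongr; norm_num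

theorem sys_bad (n : ℕ) (β : S → ℝ) (w : D → ℝ) (h1 : n2 β ≤ n ^ 4) (h2 : n4 w ≤ n ^ 4)
    (h3 : ∀ d j, |∑ k, β k * B.T (δ d) k| ≤ |β j|) (h4 : ∑ k, β k * B.T w k = n ^ 4) : Bad (sys B) n := by
  classical
  let γ : (ℕ × D → ℝ) →ₗ[ℝ] ℝ := ∑ k, β k • (proj k ∘ₗ B.V ∘ₗ lev 0)
  have e : ∀ z, γ z = ∑ k, β k * B.V (lev 0 z) k := fun z => by simp [γ, LinearMap.sum_apply]
  have e' : ∀ c, γ ((sys B).Sy c) = ∑ k, β k * (bl c + B.T (wl 0 c)) k := fun c => by rw [e, ← Y0, ← VSy]; rfl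
  have e2 : ∀ j, γ ((sys B).Sy (δ (Sum.inr j))) = β j := fun j => by
    rw [e', show wl 0 (δ (Sum.inr j)) = (0 : D → ℝ) from funext fun j => if_neg (by simp)]; simp [bl, δ]
  refine ⟨univ.map Function.Embedding.inr, γ, Sum.elim (fun p => if p.1 = 0 then -w p.2 else 0) (B.T w),
    fun z => ?_, fun i hi k hk => ?_, (QS B _).trans ?_, ?_⟩
  · have : γ z ^ 4 ≤ (n ^ 8 : ℕ) * n4 (lev 0 z) + (0 : ℕ) * 0 := by
      have := pow_le_pow_left₀ (sq_nonneg _) (sum_mul_sq_le_sq_mul_sq univ β (B.V (lev 0 z))) 2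
      rw [← e, mul_pow] at this
      have u := mul_le_mul (pow_le_pow_left₀ (n2_nonneg _) h1 2) (B.hV (lev 0 z)) (sq_nonneg _) (sq_nonneg _)
      simp only [n2] at u; push_cast; linarith
    refine (ofR (n4_nonneg _) le_rfl this).trans ?_
    simp only [Nat.cast_zero, zero_mul, add_zero, Nat.cast_pow, ← pow_mul]
    gcongr; exact (l0 _).trans_eq (Qlev z).symm
  · obtain ⟨j, -, rfl⟩ := mem_map.1 hi
    rcases k with ⟨i, d⟩ | k
    · rw [Function.Embedding.inr_apply, e2, e', show bl (δ (Sum.inl (i, d))) = (0 : S → ℝ) from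
        funext fun j => if_neg (by simp), zero_add]
      rcases i with _ | i
      · rw [show wl 0 (δ (Sum.inl (0, d) : ℕ × D ⊕ S)) = δ d from funext fun j => by simp [wl, δ]]; exact h3 d j
      · rw [show wl 0 (δ (Sum.inl (i + 1, d) : ℕ × D ⊕ S)) = 0 from funext fun j => by simp [wl, δ]]; simp
    · simp at hk
  · rw [tsum_eq_single 0 fun i hi => by simp [n4, wl, hi], Y0, show wl 0 (Sum.elim (fun p : ℕ × D =>
      if p.1 = 0 then -w p.2 else 0) (B.T w)) = -w from rfl, show bl (Sum.elim (fun p : ℕ × D =>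
      if p.1 = 0 then -w p.2 else 0) (B.T w)) = B.T w from rfl]
    have : n4 (-w) ≤ (n ^ 4 : ℕ) := by simpa [n4, Even.neg_pow (show Even 4 by decide)] using h2
    have := (ofReal_le_ofReal this).trans_eq (ofReal_natCast _)
    simp only [map_neg, add_neg_cancel, show n2 (0 : S → ℝ) = 0 by simp [n2]]
    push_cast at *; rw [mul_pow]; simp; gcongr; norm_num
  · simp [e2, h4]

end Pool.Agent.H95.QG
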