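import Pool.Agent.H95.QG2

namespace Pool.Agent.H95.QG
open Finset

section Rad
variable {S : Type} [Fintype S] [DecidableEq S]

def ε (j : S) (ω : S → ℤˣ) : ℝ := ((ω j : ℤ) : ℝ)

theorem εsq (j : S) (ω : S → ℤˣ) : ε j ω ^ 2 = 1 := by
  rcases Int.units_eq_one_or (ω j) with h | h <;> simp [ε, h]

theorem flip (j : S) (g : (S → ℤˣ) → ℝ) (h : ∀ ω, g (ω * Pi.mulSingle j (-1)) = g ω) : ∑ ω, ε j ω * g ω = 0 := by
  have := Equiv.sum_comp (Equiv.mulRight (Pi.mulSingle j (-1) : S → ℤˣ)) fun ω => ε j ω * g ω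
  simp only [Equiv.coe_mulRight, h, show ∀ ω : S → ℤˣ, ε j (ω * Pi.mulSingle j (-1)) = -ε j ω by simp [ε],
    neg_mul, sum_neg_distrib] at this
  linarith

theorem εne {i j : S} (h : i ≠ j) (ω : S → ℤˣ) : ε i (ω * Pi.mulSingle j (-1)) = ε i ω := by simp [ε, h]

theorem mom (y : S → ℝ) (F : Finset S) :
    ∑ ω, (∑ j ∈ F, y j * ε j ω) ^ 2 = Fintype.card (S → ℤˣ) * ∑ j ∈ F, y j ^ 2 ∧
    ∑ ω, (∑ j ∈ F, y j * ε j ω) ^ 4 ≤ 3 * Fintype.card (S → ℤˣ) * (∑ j ∈ F, y j ^ 2) ^ 2 := by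
  induction F using Finset.induction_on with
  | empty => simp
  | insert j F hj ih =>
    simp only [sum_insert hj]
    have inv : ∀ ω, ∑ i ∈ F, y i * ε i (ω * Pi.mulSingle j (-1)) = ∑ i ∈ F, y i * ε i ω := fun ω =>
      sum_congr rfl fun i hi => by rw [εne (by rintro rfl; exact hj hi)]
    set s := fun ω => ∑ i ∈ F, y i * ε i ω with hs
    have a := flip j (fun ω => 2 * y j * s ω) (by simp [s, inv])
    have b := flip j (fun ω => 4 * y j * s ω ^ 3 + 4 * y j ^ 3 * s ω) (by simp [s, inv])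
    have e2 : ∀ ω, (y j * ε j ω + s ω) ^ 2 = y j ^ 2 + s ω ^ 2 + ε j ω * (2 * y j * s ω) := fun ω => by
      linear_combination y j ^ 2 * εsq j ω
    have e4 : ∀ ω, (y j * ε j ω + s ω) ^ 4 = y j ^ 4 + 6 * y j ^ 2 * s ω ^ 2 + s ω ^ 4 +
        ε j ω * (4 * y j * s ω ^ 3 + 4 * y j ^ 3 * s ω) := fun ω => by
      linear_combination (y j ^ 4 * (ε j ω ^ 2 + 1) + 6 * y j ^ 2 * s ω ^ 2 + 4 * y j ^ 3 * s ω * ε j ω) * εsq j ω
    change ∑ ω, (y j * ε j ω + s ω) ^ 2 = _ ∧ ∑ ω, (y j * ε j ω + s ω) ^ 4 ≤ _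
    change ∑ ω, s ω ^ 2 = _ ∧ ∑ ω, s ω ^ 4 ≤ _ at ih
    simp only [e2, e4, sum_add_distrib, a, b, ← mul_sum, ih.1, sum_const, card_univ, nsmul_eq_mul]
    refine ⟨by ring, ?_⟩
    nlinarith [ih.2, mul_nonneg (Nat.cast_nonneg (α := ℝ) (Fintype.card (S → ℤˣ))) (show 0 ≤ y j ^ 4 by positivity)]

theorem orth (i j : S) : ∑ ω, ε i ω * ε j ω = if i = j then (Fintype.card (S → ℤˣ) : ℝ) else 0 := by
  split_ifs with h
  · subst h; simp [← sq, εsq]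
  · exact flip i _ (εne (Ne.symm h))

end Rad

noncomputable def φ (R X : ℝ) : ℝ := X * R / (X + R)

theorem pt {t x R q m m' b b' : ℝ} (ht : 0 ≤ t) (hx : 0 < x) (hR : 0 ≤ R) (h1 : q * x ≤ R) (h2 : m ^ 2 ≤ q)
    (h3 : |m - m'| ≤ t) (h4 : t * |m'| ≤ q) (h : (b' = b ∧ t ≤ |b|) ∨ (b' = 0 ∧ |b| ≤ t)) :
    (b' + m') ^ 2 ≤ 18 * (b + m) ^ 2 + 72 * (φ R (4 * x * t ^ 2) - φ R (x * t ^ 2)) / x := by
  have q0 : 0 ≤ q := (sq_nonneg _).trans h2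
  obtain ⟨e, e0, e1, e2, e3⟩ : ∃ e, 0 ≤ e ∧ |b' + m'| ≤ 3 * |b + m| + e ∧ e ≤ 2 * t ∧ t * e ≤ 4 * q := by
    have u := abs_nonneg (b + m)
    rcases h with ⟨rfl, h⟩ | ⟨rfl, h⟩
    · have : |b' + m'| ≤ |b' + m| + t := by
        have := abs_sub (b' + m) (m - m'); rw [show b' + m - (m - m') = b' + m' by ring] at this; linarith
      by_cases c : t ≤ 2 * |b' + m|
      · exact ⟨0, le_rfl, by linarith, by linarith, by linarith⟩
      · have w := abs_sub (b' + m) m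
        rw [add_sub_cancel_right] at w
        exact ⟨t, ht, by linarith, by linarith, by nlinarith [sq_abs m]⟩
    · rw [zero_add]
      by_cases c : |m'| ≤ 2 * t
      · exact ⟨|m'|, abs_nonneg _, by linarith, c, by linarith⟩
      · have w := abs_sub (b + m) b
        have w' := abs_sub m (m - m')
        rw [add_sub_cancel_left] at w; rw [sub_sub_cancel] at w'
        exact ⟨2 * t, by linarith, by linarith, le_rfl, by nlinarith⟩
  have k : x * e ^ 2 ≤ 36 * (φ R (4 * x * t ^ 2) - φ R (x * t ^ 2)) := by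
    have a1 : x * e ^ 2 ≤ 4 * (x * t ^ 2) := by nlinarith [mul_le_mul_of_nonneg_left (pow_le_pow_left₀ e0 e2 2) hx.le]
    have a2 : x * e ^ 2 * (x * t ^ 2) ≤ 16 * R ^ 2 := by
      have : t * e * x ≤ 4 * R := by nlinarith
      have := pow_le_pow_left₀ (by positivity) this 2; linarith
    rw [mul_assoc 4]
    have d0 : 0 ≤ x * e ^ 2 := by positivity
    have X0 : 0 ≤ x * t ^ 2 := by positivity
    generalize x * e ^ 2 = d at *; generalize x * t ^ 2 = X at *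
    have a3 : d ≤ 8 * R := le_of_pow_le_pow_left₀ (n := 2) (by decide) (by linarith) (by nlinarith)
    rcases hR.eq_or_lt with rfl | hR
    · simp [φ]; linarith
    rw [show φ R (4 * X) - φ R X = 3 * X * R ^ 2 / ((4 * X + R) * (X + R)) by unfold φ; field_simp; ring,
      ← mul_div_assoc, le_div_iff₀ (by positivity)]
    nlinarith [mul_le_mul_of_nonneg_left a2 X0, mul_le_mul_of_nonneg_left a3 (mul_nonneg X0 hR.le),
      mul_le_mul_of_nonneg_left a1 (sq_nonneg R)]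
  have : e ^ 2 ≤ 36 * (φ R (4 * x * t ^ 2) - φ R (x * t ^ 2)) / x := by rw [le_div_iff₀' hx]; exact k
  have u := pow_le_pow_left₀ (abs_nonneg _) e1 2
  rw [sq_abs] at u
  rw [show (72 : ℝ) = 2 * 36 by norm_num, mul_assoc, mul_div_assoc]
  nlinarith [sq_abs (b + m), sq_nonneg (3 * |b + m| - e)]

def ρ (K k : ℕ) : ℕ := 2 ^ (k + K)
abbrev SS (K : ℕ) := Σ k : Fin K, Fin (ρ K k ^ 2)
abbrev AA (K : ℕ) := Σ k : Fin K, Fin (ρ K k ^ 4)
abbrev DD (K : ℕ) := (SS K → ℤˣ) ⊕ AA K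
noncomputable def rr (K : ℕ) : ℝ := √√(Fintype.card (SS K → ℤˣ))
theorem rr4 (K : ℕ) : rr K ^ 4 = Fintype.card (SS K → ℤˣ) := by
  rw [show 4 = 2 * 2 by rfl, pow_mul, rr, Real.sq_sqrt (by positivity), Real.sq_sqrt (by positivity)]
theorem rr0 (K : ℕ) : 0 < rr K := Real.sqrt_pos.2 (Real.sqrt_pos.2 (by simp))
theorem ρ0 (K k : ℕ) : (0 : ℝ) < ρ K k := by simp [ρ]

theorem n4A {K : ℕ} (w : DD K → ℝ) (k : Fin K) : ∑ n, w (Sum.inr ⟨k, n⟩) ^ 4 ≤ n4 w := by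
  rw [n4, Fintype.sum_sum_type, Fintype.sum_sigma]
  exact (single_le_sum (f := fun k : Fin K => ∑ n, w (Sum.inr ⟨k, n⟩) ^ 4) (fun _ _ => by positivity)
    (mem_univ k)).trans (le_add_of_nonneg_left (by positivity))

theorem cs {n : ℕ} (f : Fin n → ℝ) : (∑ i, f i) ^ 2 ≤ n * ∑ i, f i ^ 2 := by
  simpa using sq_sum_le_card_mul_sum_sq (s := univ) (f := f)

noncomputable def av {K : ℕ} (w : DD K → ℝ) (j : SS K) : ℝ := ((ρ K j.1 : ℝ) ^ 4)⁻¹ * ∑ n, w (Sum.inr ⟨j.1, n⟩)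

theorem key {K : ℕ} (t : ℝ) (w w' : DD K → ℝ) (b b' : SS K → ℝ) (c1 : Cut t w w') (c2 : Cut t b b') :
    n2 (b' + av w') ^ 2 ≤ 10 ^ 6 * (n2 (b + av w) ^ 2 + n4 w) := by
  wlog ht : 0 ≤ t generalizing t
  · exact this 0 (fun d => (c1 d).imp (fun h => ⟨h.1, abs_nonneg _⟩) fun h => ⟨h.1, h.2.trans (not_le.1 ht).le⟩)
      (fun d => (c2 d).imp (fun h => ⟨h.1, abs_nonneg _⟩) fun h => ⟨h.1, h.2.trans (not_le.1 ht).le⟩) le_rfl
  have R0 := Real.sqrt_nonneg (n4 w)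
  have R2 := Real.sq_sqrt (n4_nonneg w)
  set R := √(n4 w)
  let g : ℕ → ℝ := fun k => φ R ((ρ K k : ℝ) ^ 2 * t ^ 2)
  have k : ∀ j : SS K, (b' + av w') j ^ 2 ≤ 18 * (b + av w) j ^ 2 + 72 * (g (j.1 + 1) - g j.1) / (ρ K j.1 : ℝ) ^ 2 :=
    fun j => by
    have r0 := ρ0 K j.1
    have e : g (j.1 + 1) = φ R (4 * (ρ K j.1 : ℝ) ^ 2 * t ^ 2) := by
      simp only [g, ρ]; congr 2; push_cast; ring
    rw [e]
    refine pt (q := ((ρ K j.1 : ℝ) ^ 4)⁻¹ * ∑ n, w (Sum.inr ⟨j.1, n⟩) ^ 2) ht (by positivity) R0 ?_ ?_ ?_ ?_ (c2 j)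
    · have a2 := cs fun n => w (Sum.inr ⟨j.1, n⟩) ^ 2
      simp only [← pow_mul, Nat.reduceMul] at a2
      have : ∑ n, w (Sum.inr ⟨j.1, n⟩) ^ 2 ≤ (ρ K j.1 : ℝ) ^ 2 * R :=
        le_of_pow_le_pow_left₀ (n := 2) (by decide) (by positivity) (a2.trans (by
          rw [mul_pow, R2, ← pow_mul]; push_cast; gcongr; exact n4A w j.1))
      rw [mul_assoc, inv_mul_le_iff₀ (by positivity)]
      nlinarith [mul_le_mul_of_nonneg_right this (sq_nonneg (ρ K j.1 : ℝ))]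
    · have := cs fun n => w (Sum.inr ⟨j.1, n⟩)
      push_cast at this
      rw [av, mul_pow, sq _⁻¹, mul_assoc]; gcongr
      rwa [inv_mul_le_iff₀ (by positivity)]
    · rw [av, av, ← mul_sub, ← sum_sub_distrib, abs_mul, abs_of_pos (by positivity), inv_mul_le_iff₀ (by positivity)]
      refine (abs_sum_le_sum_abs _ _).trans ((sum_le_card_nsmul _ _ t fun n _ => ?_).trans_eq (by simp))
      rcases c1 (Sum.inr ⟨j.1, n⟩) with h | h <;> simp [h, ht]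
    · rw [av, abs_mul, abs_of_pos (by positivity), mul_left_comm]; gcongr
      refine (mul_le_mul_of_nonneg_left (abs_sum_le_sum_abs _ _) ht).trans ?_
      rw [mul_sum]; refine sum_le_sum fun n _ => ?_
      rcases c1 (Sum.inr ⟨j.1, n⟩) with h | h
      · rw [h.1, ← sq_abs, sq]; gcongr; exact h.2
      · rw [h.1]; simp; positivity
  have s : n2 (b' + av w') ≤ 18 * n2 (b + av w) + 72 * R := by
    refine (sum_le_sum fun j _ => k j).trans ?_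
    rw [sum_add_distrib, ← mul_sum, Fintype.sum_sigma (fun j : SS K => 72 * (g (j.1 + 1) - g j.1) / (ρ K j.1 : ℝ) ^ 2)]
    have : ∀ k : Fin K, ∑ _s : Fin (ρ K k ^ 2), 72 * (g (k + 1) - g k) / (ρ K k : ℝ) ^ 2 = 72 * (g (k + 1) - g k) :=
      fun k => by have := ρ0 K k; simp; field_simp
    simp only [this, ← mul_sum]
    rw [Fin.sum_univ_eq_sum_range (fun k => g (k + 1) - g k), sum_range_sub]
    have a : 0 ≤ g 0 := by simp only [g, φ]; positivity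
    have c : g K ≤ R := div_le_of_le_mul₀ (by positivity) R0 (by nlinarith)
    unfold n2; linarith
  have := pow_le_pow_left₀ (n2_nonneg _) s 2
  nlinarith [sq_nonneg (n2 (b + av w) - R), sq_nonneg R, sq_nonneg (n2 (b + av w))]

noncomputable def blk (K : ℕ) : Blk (DD K) (SS K) where
  U := ⟨⟨fun y => Sum.elim (fun ω => (rr K)⁻¹ * ∑ j, y j * ε j ω) 0, fun a b => by
    funext d; cases d <;> simp [add_mul, sum_add_distrib, mul_add]⟩, fun a b => by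
    funext d; cases d <;> simp [mul_sum, mul_assoc, mul_left_comm]⟩
  V := ⟨⟨fun z j => (rr K ^ 3)⁻¹ * ∑ ω, z (Sum.inl ω) * ε j ω, fun a b => by
    funext d; simp [add_mul, sum_add_distrib, mul_add]⟩, fun a b => by
    funext d; simp [mul_sum, mul_assoc, mul_left_comm]⟩
  T := ⟨⟨fun w j => ((ρ K j.1 : ℝ) ^ 4)⁻¹ * ∑ n, w (Sum.inr ⟨j.1, n⟩), fun a b => by
    funext d; simp [sum_add_distrib, mul_add]⟩, fun a b => by
    funext d; simp [mul_sum, mul_left_comm]⟩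
  hVU y := funext fun j => by
    change (rr K ^ 3)⁻¹ * ∑ ω, ((rr K)⁻¹ * ∑ i, y i * ε i ω) * ε j ω = y j
    simp only [mul_assoc, ← mul_sum, sum_mul]
    rw [sum_comm]
    simp only [← mul_sum, orth, ← rr4, mul_ite, mul_zero, sum_ite_eq', mem_univ, if_true]
    have := rr0 K; field_simp
  hU y := by
    rw [n4, Fintype.sum_sum_type]
    change ∑ ω, ((rr K)⁻¹ * ∑ j, y j * ε j ω) ^ 4 + ∑ _a, (0 : ℝ) ^ 4 ≤ _
    have := (mom y univ).2
    simp only [mul_pow, ← mul_sum, inv_pow, ne_eq, OfNat.ofNat_ne_zero, not_false_eq_true, zero_pow, sum_const_zero,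
      add_zero]
    rw [inv_mul_le_iff₀ (pow_pos (rr0 K) 4), rr4, n2]; linarith
  hV z := by
    change n2 (fun j => (rr K ^ 3)⁻¹ * ∑ ω, z (Sum.inl ω) * ε j ω) ^ 2 ≤ _
    set b := fun j => (rr K ^ 3)⁻¹ * ∑ ω, z (Sum.inl ω) * ε j ω with hb
    have r0 := rr0 K
    have a1 : rr K ^ 3 * n2 b = ∑ ω, z (Sum.inl ω) * ∑ j, b j * ε j ω := by
      simp only [mul_sum, n2]; rw [sum_comm]
      refine sum_congr rfl fun j _ => ?_
      rw [show rr K ^ 3 * b j ^ 2 = b j * ∑ ω, z (Sum.inl ω) * ε j ω by rw [hb]; field_simp, mul_sum]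
      exact sum_congr rfl fun _ _ => by ring
    have a2 := sum_mul_sq_le_sq_mul_sq univ (fun ω => z (Sum.inl ω)) fun ω => ∑ j, b j * ε j ω
    rw [← a1, (mom b univ).1, ← rr4, show ∑ j, b j ^ 2 = n2 b from rfl] at a2
    have a3 := sq_sum_le_card_mul_sum_sq (s := univ) (f := fun ω => z (Sum.inl ω) ^ 2)
    have a4 : ∑ ω, (z (Sum.inl ω) ^ 2) ^ 2 ≤ n4 z := by
      rw [n4, Fintype.sum_sum_type]; simp only [← pow_mul]; exact le_add_of_nonneg_right (by positivity)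
    rw [card_univ, ← rr4] at a3
    rcases (n2_nonneg b).eq_or_lt with h | h
    · rw [← h]; simpa using n4_nonneg z
    have a5 : rr K ^ 2 * n2 b ≤ ∑ ω, z (Sum.inl ω) ^ 2 :=
      le_of_mul_le_mul_right (by linarith) (mul_pos (pow_pos r0 4) h)
    have a6 := pow_le_pow_left₀ (by positivity) a5 2
    exact le_of_mul_le_mul_left (by nlinarith [pow_pos r0 4]) (pow_pos r0 4)
  hT w j := by
    change (((ρ K j.1 : ℝ) ^ 4)⁻¹ * ∑ n, w (Sum.inr ⟨j.1, n⟩)) ^ 4 ≤ _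
    have a1 := pow_le_pow_left₀ (sq_nonneg _) (cs fun n => w (Sum.inr ⟨j.1, n⟩)) 2
    have a2 := cs fun n => w (Sum.inr ⟨j.1, n⟩) ^ 2
    have a3 := n4A w j.1
    simp only [← pow_mul, mul_pow, Nat.reduceMul] at a1 a2
    push_cast at a1 a2
    have r1 : (1 : ℝ) ≤ (ρ K j.1 : ℝ) ^ 4 := one_le_pow₀ (by simp [ρ, one_le_pow₀])
    rw [mul_pow, inv_pow, inv_mul_le_iff₀ (by positivity)]
    generalize (ρ K j.1 : ℝ) ^ 4 = L at *
    have := n4_nonneg w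
    calc _ ≤ L ^ 2 * (L * n4 w) := a1.trans (by gcongr; exact a2.trans (by gcongr))
      _ ≤ _ := by nlinarith [mul_nonneg (pow_nonneg (zero_le_one.trans r1) 3) this]
  hK := key

theorem bad (n : ℕ) : Bad (sys (blk (n ^ 4))) n := by
  classical
  have r0 := ρ0 (n ^ 4)
  refine sys_bad _ n (fun j => (ρ (n ^ 4) j.1 : ℝ)⁻¹) (Sum.elim 0 fun a => (ρ (n ^ 4) a.1 : ℝ)⁻¹) ?_ ?_
    (fun d j => ?_) ?_
  · simp [n2, Fintype.sum_sigma, (r0 _).ne']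
  · simp [n4, Fintype.sum_sigma, (r0 _).ne']
  · have : ∑ k : SS (n ^ 4), (ρ (n ^ 4) k.1 : ℝ)⁻¹ * (blk (n ^ 4)).T (δ d) k =
        ∑ a : AA (n ^ 4), ((ρ (n ^ 4) a.1 : ℝ) ^ 3)⁻¹ * δ d (Sum.inr a) := by
      rw [Fintype.sum_sigma, Fintype.sum_sigma]
      refine sum_congr rfl fun k _ => ?_
      change ∑ _s : Fin (ρ (n ^ 4) k ^ 2), (ρ (n ^ 4) k : ℝ)⁻¹ * (((ρ (n ^ 4) k : ℝ) ^ 4)⁻¹ *
        ∑ m, δ d (Sum.inr ⟨k, m⟩)) = ∑ m, ((ρ (n ^ 4) k : ℝ) ^ 3)⁻¹ * δ d (Sum.inr ⟨k, m⟩)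
      have := r0 k
      rw [← mul_sum univ (fun m => δ d (Sum.inr ⟨k, m⟩))]; generalize ∑ m, δ d (Sum.inr ⟨k, m⟩) = u; simp; field_simp
    rw [this]
    rcases d with d | a
    · simp [δ]
    · rw [sum_eq_single a (fun c _ h => by simp [δ, h]) (by simp), abs_of_pos (inv_pos.2 (r0 _)),
        show δ (Sum.inr a : DD (n ^ 4)) (Sum.inr a) = 1 from if_pos rfl, mul_one, abs_of_pos (inv_pos.2 (pow_pos (r0 _) _))]
      refine inv_anti₀ (r0 _) ?_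
      norm_cast
      rw [ρ, ρ, ← pow_mul]
      exact Nat.pow_le_pow_right two_pos (by have := j.1.2; omega)
  · change ∑ k : SS (n ^ 4), (ρ (n ^ 4) k.1 : ℝ)⁻¹ * (((ρ (n ^ 4) k.1 : ℝ) ^ 4)⁻¹ *
      ∑ _m : Fin (ρ (n ^ 4) k.1 ^ 4), (ρ (n ^ 4) k.1 : ℝ)⁻¹) = _
    simp [Fintype.sum_sigma, (r0 _).ne', ← sq]

instance : Infinite (Σ n, ℕ × DD (n ^ 4)) :=
  Infinite.of_injective (fun i : ℕ => ⟨0, i, Sum.inl 1⟩) fun i j h => by simpa using h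
instance : Infinite (Σ n, (ℕ × DD (n ^ 4)) ⊕ SS (n ^ 4)) :=
  Infinite.of_injective (fun i : ℕ => ⟨0, Sum.inl (i, Sum.inl 1)⟩) fun i j h => by simpa using h

theorem fin : ∃ (x : ℕ → X) (f : ℕ → (X →L[ℝ] ℝ)),
        (∀ m n : ℕ, f m (x n) = if m = n then 1 else 0) ∧
        Dense (Submodule.span ℝ (Set.range x) : Set X) ∧
        (∃ M : ℝ, ∀ n : ℕ, ‖x n‖ ≤ M ∧ ‖f n‖ ≤ M) ∧
        (∃ C : ℝ, ∀ (y : X) (A : Finset ℕ), (∀ n ∈ A, ∀ k ∉ A, |f k y| ≤ |f n y|) →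
            ‖∑ n ∈ A, f n y • x n‖ ≤ C * ‖y‖) ∧
        ¬ (∃ C : ℝ, ∀ (g : X →L[ℝ] ℝ) (A : Finset ℕ), (∀ n ∈ A, ∀ k ∉ A, |g (x k)| ≤ |g (x n)|) →
            ‖∑ n ∈ A, g (x n) • f n‖ ≤ C * ‖g‖) := master (sig fun n => sys (blk (n ^ 4))) fun n => sig_bad _ n (bad n)

end Pool.Agent.H95.QG
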