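import Pool.Agent.H95.VonNeumann

set_option autoImplicit false

open Filter Topology Set Metric ComplexConjugate Polynomial Real

namespace Pool.Agent.H95.QRange

variable {E : Type*} [NormedAddCommGroup E] [InnerProductSpace ℂ E]

/-- Toeplitz-Hausdorff segment lemma. -/
lemma segment (B : E →L[ℂ] E) (x y : E) (hx : ‖x‖ = 1) (hy : ‖y‖ = 1) (t : ℝ)
    (ht : t ∈ Icc (0 : ℝ) 1) : ∃ a b : ℂ, ‖a • x + b • y‖ = 1 ∧
      inner ℂ (a • x + b • y) (B (a • x + b • y)) =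
        (t : ℂ) * inner ℂ x (B x) + (1 - t : ℂ) * inner ℂ y (B y) := by
  set α := inner ℂ x (B x) with hα
  set β := inner ℂ y (B y) with hβ
  rcases eq_or_ne α β with h | h
  · refine ⟨1, 0, by simpa using hx, ?_⟩
    simp only [one_smul, zero_smul, add_zero]
    rw [← hα, h]; ring
  have hd : α - β ≠ 0 := sub_ne_zero.2 h
  set u : ℂ := (inner ℂ y (B x) - β * inner ℂ y x) / (α - β) with hu
  set v : ℂ := (inner ℂ x (B y) - β * inner ℂ x y) / (α - β) with hv
  obtain ⟨l, hl1, hl2⟩ := Complex.exists_norm_eq_mul_self (u - conj v)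
  obtain ⟨ρ, hρ⟩ : ∃ ρ : ℝ, l * u + conj l * v = ρ := by
    refine ⟨(l * u + conj l * v).re, Complex.ext (by simp) ?_⟩
    have := congrArg Complex.im hl2
    simp at this ⊢
    linarith
  have hll : conj l * l = 1 := by rw [Complex.conj_mul', hl1]; simp
  have hxx : inner ℂ x x = (1 : ℂ) := by rw [inner_self_eq_norm_sq_to_K, hx]; simp
  have hyy : inner ℂ y y = (1 : ℂ) := by rw [inner_self_eq_norm_sq_to_K, hy]; simp
  let z : ℝ → E := fun s => ((s : ℂ) * l) • x + (1 - s : ℂ) • y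
  have hz : ∀ s : ℝ, inner ℂ (z s) (B (z s)) - β * inner ℂ (z s) (z s) =
      (α - β) * ((s ^ 2 + s * (1 - s) * ρ : ℝ) : ℂ) := by
    intro s
    have e1 : inner ℂ y (B x) = u * (α - β) + β * inner ℂ y x := by rw [hu]; field_simp; ring
    have e2 : inner ℂ x (B y) = v * (α - β) + β * inner ℂ x y := by rw [hv]; field_simp; ring
    simp only [z, map_add, map_smul, inner_add_left, inner_add_right, inner_smul_left,
      inner_smul_right, map_mul, map_sub, map_one, Complex.conj_ofReal, ← hα, ← hβ, hxx, hyy,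
      e1, e2]
    push_cast
    rw [← hρ]
    linear_combination (s ^ 2 * (α - β)) * hll
  have hz0 : ∀ s : ℝ, z s ≠ 0 := by
    intro s hs
    have h1 : ((s : ℂ) * l) • x = -((1 - s : ℂ) • y) := eq_neg_of_add_eq_zero_left hs
    have h2 := congrArg norm h1
    rw [norm_neg, norm_smul, norm_smul, hx, hy, norm_mul, hl1, Complex.norm_real,
      show (1 - s : ℂ) = ((1 - s : ℝ) : ℂ) by push_cast; rfl, Complex.norm_real] at h2
    simp only [mul_one, Real.norm_eq_abs] at h2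
    have h3 : s = 1 / 2 := by
      rcases abs_eq_abs.1 h2 with h | h <;> linarith
    have h4 : y = -(l • x) := by
      rw [h3] at h1
      have : (2 : ℂ) • (((1 / 2 : ℝ) : ℂ) * l) • x = (2 : ℂ) • -((1 - ((1 / 2 : ℝ) : ℂ)) • y) := by
        rw [h1]
      rw [smul_neg, smul_smul, smul_smul] at this
      push_cast at this
      rw [show (2 : ℂ) * (1 / 2 * l) = l by ring, show (2 : ℂ) * (1 - 1 / 2) = 1 by ring,
        one_smul] at this
      rw [this, neg_neg]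
    apply h
    rw [hβ, h4]
    simp only [map_neg, map_smul, inner_neg_left, inner_neg_right, inner_smul_left,
      inner_smul_right, neg_neg, ← hα]
    linear_combination -α * hll
  have hzc : Continuous z := by simp only [z]; fun_prop
  have hg : Continuous fun s : ℝ => (s ^ 2 + s * (1 - s) * ρ) / ‖z s‖ ^ 2 :=
    Continuous.div (by fun_prop) (by fun_prop) fun s => pow_ne_zero _ (norm_ne_zero_iff.2 (hz0 s))
  have hz1 : ‖z 1‖ = 1 := by simp [z, norm_smul, hl1, hx]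
  obtain ⟨s, -, hs⟩ := intermediate_value_Icc zero_le_one hg.continuousOn
    (show t ∈ _ by simpa [hz1] using ht)
  have hn := norm_pos_iff.2 (hz0 s)
  have hn' : ((‖z s‖ : ℝ) : ℂ) ≠ 0 := by exact_mod_cast hn.ne'
  have e : ((‖z s‖ : ℂ)⁻¹ * (s * l)) • x + ((‖z s‖ : ℂ)⁻¹ * (1 - s)) • y =
      (‖z s‖ : ℂ)⁻¹ • z s := by simp only [z, smul_add, smul_smul]
  refine ⟨(‖z s‖ : ℂ)⁻¹ * (s * l), (‖z s‖ : ℂ)⁻¹ * (1 - s), ?_, ?_⟩
  · rw [e, norm_smul, norm_inv, Complex.norm_real, norm_norm, inv_mul_cancel₀ hn.ne']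
  · have h1 := hz s
    dsimp only at hs
    rw [div_eq_iff (by positivity)] at hs
    rw [hs, inner_self_eq_norm_sq_to_K] at h1
    rw [e, map_smul, inner_smul_left, inner_smul_right, map_inv₀, Complex.conj_ofReal,
      sub_eq_iff_eq_add.1 h1]
    simp only [Complex.coe_algebraMap]
    push_cast
    field_simp
    ring

variable [FiniteDimensional ℂ E] [Nontrivial E]

lemma attain (S : E →L[ℂ] E) : ∃ x : E, ‖x‖ = 1 ∧ ‖S x‖ = ‖S‖ := by
  haveI : ProperSpace E := FiniteDimensional.proper ℂ E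
  obtain ⟨x, hx, hmax⟩ := (isCompact_sphere (0 : E) 1).exists_isMaxOn
    (NormedSpace.sphere_nonempty_rclike ℂ zero_le_one |> nonempty_coe_sort.1)
    (f := fun x => ‖S x‖) (by fun_prop)
  rw [mem_sphere_zero_iff_norm] at hx
  refine ⟨x, hx, le_antisymm (by simpa [hx] using S.le_opNorm x) ?_⟩
  exact ContinuousLinearMap.opNorm_le_of_unit_norm (norm_nonneg _) fun y hy =>
    hmax (mem_sphere_zero_iff_norm.2 hy)

/-- Stampfli centre. -/
lemma stampfli (A : E →L[ℂ] E) : ∃ (μ : ℂ) (x : E), ‖x‖ = 1 ∧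
    ‖(A - μ • 1) x‖ = ‖A - μ • 1‖ ∧ inner ℂ x ((A - μ • 1) x) = 0 := by
  haveI : ProperSpace E := FiniteDimensional.proper ℂ E
  obtain ⟨μ, hμ⟩ : ∃ μ : ℂ, ∀ ν : ℂ, ‖A - μ • 1‖ ≤ ‖A - ν • 1‖ := by
    refine Continuous.exists_forall_le (f := fun ν : ℂ => ‖A - ν • (1 : E →L[ℂ] E)‖)
      (by fun_prop) ?_
    have h0 : Tendsto (fun ν : ℂ => ‖ν‖) (cocompact ℂ) atTop := tendsto_norm_cocompact_atTop
    refine tendsto_atTop_mono (fun ν => ?_) (tendsto_atTop_add_const_right _ (-‖A‖) h0)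
    have := norm_sub_norm_le (ν • (1 : E →L[ℂ] E)) A
    rw [norm_smul, norm_one, mul_one, norm_sub_rev] at this
    linarith
  refine ⟨μ, ?_⟩
  set B := A - μ • 1 with hB
  have hmin : ∀ ε : ℂ, ‖B‖ ≤ ‖B - ε • 1‖ := fun ε => by
    have := hμ (μ + ε)
    rwa [add_smul, ← sub_sub] at this
  let S : Set E := {x | ‖x‖ = 1 ∧ ‖B x‖ = ‖B‖}
  have hS : IsCompact S := by
    refine (isCompact_sphere (0 : E) 1).of_isClosed_subset ?_ fun x hx => by simpa using hx.1
    exact (isClosed_eq continuous_norm continuous_const).inter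
      (isClosed_eq (show Continuous fun x => ‖B x‖ by fun_prop) continuous_const)
  have hdir : ∀ ζ : ℂ, ∃ y ∈ S, (ζ * conj (inner ℂ y (B y))).re ≤ 0 := by
    intro ζ
    choose x hx1 hx2 using fun k : ℕ => attain (B - (((1 / ((k : ℝ) + 1) : ℝ) : ℂ) * ζ) • 1)
    obtain ⟨y, hy, φ, hφ, hlim⟩ := (isCompact_sphere (0 : E) 1).tendsto_subseq
      (x := x) fun k => mem_sphere_zero_iff_norm.2 (hx1 k)
    rw [mem_sphere_zero_iff_norm] at hy
    have h0 : Tendsto (fun k => 1 / ((φ k : ℝ) + 1)) atTop (𝓝 0) :=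
      tendsto_one_div_add_atTop_nhds_zero_nat.comp hφ.tendsto_atTop
    have hBx : ∀ k, ‖B (x k)‖ ≤ ‖B‖ := fun k => by simpa [hx1] using B.le_opNorm (x k)
    have h1 : ∀ k : ℕ, ‖B‖ ≤ ‖B (x k) - (((1 / ((k : ℝ) + 1) : ℝ) : ℂ) * ζ) • x k‖ := fun k =>
      (hmin _).trans (hx2 k).ge
    refine ⟨y, ⟨hy, le_antisymm (by simpa [hy] using B.le_opNorm y) ?_⟩, ?_⟩
    · have h2 : Tendsto (fun k => ‖B (x (φ k)) - (((1 / ((φ k : ℝ) + 1) : ℝ) : ℂ) * ζ) • x (φ k)‖)
          atTop (𝓝 ‖B y - (((0 : ℝ) : ℂ) * ζ) • y‖) :=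
        (((B.continuous.tendsto y).comp hlim).sub
          ((((Complex.continuous_ofReal.tendsto 0).comp h0).mul_const ζ).smul hlim)).norm
      simp only [Complex.ofReal_zero, zero_mul, zero_smul, sub_zero] at h2
      exact ge_of_tendsto' h2 fun k => h1 _
    · have h2 : Tendsto (fun k => (ζ * conj (inner ℂ (x (φ k)) (B (x (φ k))))).re) atTop
          (𝓝 (ζ * conj (inner ℂ y (B y))).re) :=
        ((show Continuous fun y => (ζ * conj (inner ℂ y (B y))).re by fun_prop).tendsto y).comp hlim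
      have h3 := h0.mul_const (‖ζ‖ ^ 2)
      rw [zero_mul] at h3
      refine le_of_tendsto_of_tendsto' h2 h3 fun k => ?_
      have h4 := pow_le_pow_left₀ (norm_nonneg _) (h1 (φ k)) 2
      have h5 := pow_le_pow_left₀ (norm_nonneg _) (hBx (φ k)) 2
      have hp : 0 < 1 / ((φ k : ℝ) + 1) := by positivity
      generalize 1 / ((φ k : ℝ) + 1) = ε at *
      rw [@norm_sub_sq ℂ E, norm_smul, hx1, inner_smul_right, mul_assoc, norm_mul, Complex.norm_real,
        Real.norm_of_nonneg hp.le, RCLike.re_to_complex, Complex.re_ofReal_mul,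
        ← inner_conj_symm] at h4
      refine le_of_mul_le_mul_left ?_ hp
      nlinarith [mul_pos hp hp, sq_nonneg ‖ζ‖]
  obtain ⟨x, hx, hxmin⟩ := hS.exists_isMinOn ((hdir 0).imp fun y hy => hy.1)
    (f := fun x => ‖inner ℂ x (B x)‖) (by fun_prop)
  refine ⟨x, hx.1, hx.2, ?_⟩
  by_contra hw
  set w := inner ℂ x (B x) with hw'
  obtain ⟨y, hy, hyw⟩ := hdir w
  set b := inner ℂ y (B y) with hb
  have hw0 := norm_pos_iff.2 hw
  have hden : 0 < ‖w‖ ^ 2 + ‖b‖ ^ 2 := by positivity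
  set t : ℝ := ‖b‖ ^ 2 / (‖w‖ ^ 2 + ‖b‖ ^ 2) with ht
  have ht0 : 0 ≤ t := by positivity
  have ht1 : t < 1 := by rw [ht, div_lt_one hden]; nlinarith
  obtain ⟨c, d, h1, h2⟩ := segment B x y hx.1 hy.1 t ⟨ht0, ht1.le⟩
  have hsub : ∀ u v : E, ‖B u‖ = ‖B‖ * ‖u‖ → ‖B v‖ = ‖B‖ * ‖v‖ →
      ‖B (u + v)‖ = ‖B‖ * ‖u + v‖ := by
    intro u v hu hv
    have p1 := parallelogram_law_with_norm ℂ u v
    have p2 := parallelogram_law_with_norm ℂ (B u) (B v)
    rw [← map_add, ← map_sub, hu, hv] at p2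
    have q1 := pow_le_pow_left₀ (norm_nonneg _) (B.le_opNorm (u - v)) 2
    refine le_antisymm (B.le_opNorm _) ?_
    refine le_of_sq_le_sq ?_ (norm_nonneg _)
    have p3 := congrArg (fun r => ‖B‖ ^ 2 * r) p1
    simp only [mul_pow] at p2 q1 p3 ⊢
    linarith
  have h3 : c • x + d • y ∈ S := by
    refine ⟨h1, ?_⟩
    rw [hsub _ _ (by rw [map_smul, norm_smul, norm_smul, hx.1, hx.2]; ring)
      (by rw [map_smul, norm_smul, norm_smul, hy.1, hy.2]; ring), h1, mul_one]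
  have h4 : ‖w‖ ≤ ‖(t : ℂ) * w + (1 - t : ℂ) * b‖ := by
    have := hxmin h3
    simp only [mem_setOf_eq] at this
    rwa [h2] at this
  have h5 := pow_le_pow_left₀ (norm_nonneg _) h4 2
  have h6 : ‖(t : ℂ) * w + (1 - t : ℂ) * b‖ ^ 2 = t ^ 2 * ‖w‖ ^ 2 + (1 - t) ^ 2 * ‖b‖ ^ 2 +
      2 * t * (1 - t) * (w * conj b).re := by
    simp only [Complex.sq_norm, Complex.normSq_apply]
    simp
    ring
  have h7 : t * ‖w‖ ^ 2 = (1 - t) * ‖b‖ ^ 2 := by rw [ht]; field_simp; ring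
  have h8 : 2 * t * (1 - t) * (w * conj b).re ≤ 0 :=
    mul_nonpos_of_nonneg_of_nonpos (by nlinarith) hyw
  have h9 : 0 < ‖w‖ ^ 2 := by positivity
  nlinarith

omit [Nontrivial E] in
theorem main (hE : 2 ≤ Module.finrank ℂ E) (A : E →L[ℂ] E) (q : ℂ) (hq0 : q ≠ 0)
    (hq : ‖q‖ ^ 2 ≤ 1 / 2) (p : ℂ[X]) (M : ℝ)
    (hM : ∀ x y : E, ‖x‖ = 1 → ‖y‖ = 1 → inner ℂ y x = q →
      ‖p.eval (inner ℂ y (A x) / q)‖ ≤ M) : ‖aeval A p‖ ≤ M := by
  haveI : Nontrivial E := Module.nontrivial_of_finrank_pos (R := ℂ) (by omega)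
  haveI : CompleteSpace E := FiniteDimensional.complete ℂ E
  obtain ⟨μ, x, hx, hBx, hx0⟩ := stampfli A
  set B := A - μ • 1 with hB
  obtain ⟨v, hv1, hv2, hv3⟩ : ∃ v : E, ‖v‖ = 1 ∧ inner ℂ v x = 0 ∧ B x = (‖B‖ : ℂ) • v := by
    rcases eq_or_ne B 0 with h | h
    · have h1 : Module.finrank ℂ (ℂ ∙ x)ᗮ ≠ 0 := by
        have h2 := Submodule.finrank_add_finrank_orthogonal (ℂ ∙ x)
        have h3 := finrank_span_singleton (K := ℂ) (v := x) (by rw [← norm_ne_zero_iff, hx]; simp)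
        omega
      haveI : Nontrivial (ℂ ∙ x)ᗮ := Module.nontrivial_of_finrank_pos (R := ℂ) (by omega)
      obtain ⟨⟨⟨v, hv⟩, hv'⟩⟩ := NormedSpace.sphere_nonempty_rclike ℂ (E := (ℂ ∙ x)ᗮ)
        (zero_le_one' ℝ)
      rw [mem_sphere_zero_iff_norm] at hv'
      exact ⟨v, hv', Submodule.mem_orthogonal_singleton_iff_inner_left.1 hv, by simp [h]⟩
    · have h1 := norm_pos_iff.2 h
      have h2 : ((‖B‖ : ℝ) : ℂ) ≠ 0 := by exact_mod_cast h1.ne'
      refine ⟨(‖B‖ : ℂ)⁻¹ • B x, ?_, ?_, by rw [smul_inv_smul₀ h2]⟩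
      · rw [norm_smul, norm_inv, Complex.norm_real, norm_norm, hBx, inv_mul_cancel₀ h1.ne']
      · rw [inner_smul_left, ← inner_conj_symm, hx0]; simp
  have hq1 := norm_pos_iff.2 hq0
  set s : ℝ := Real.sqrt (1 - ‖q‖ ^ 2) with hs
  have hs2 : s ^ 2 = 1 - ‖q‖ ^ 2 := Real.sq_sqrt (by linarith)
  have hs0 : 0 ≤ s := Real.sqrt_nonneg _
  have hsq : ‖q‖ ≤ s := le_of_sq_le_sq (by linarith) hs0
  set ρ : ℝ := s / ‖q‖ * ‖B‖ with hρ
  have hcirc : ∀ z : ℂ, ‖z‖ = 1 → ‖p.eval (ρ * z + μ)‖ ≤ M := by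
    intro z hz
    have hq2 : ((‖q‖ : ℝ) : ℂ) ≠ 0 := by exact_mod_cast hq1.ne'
    have hxx : inner ℂ x x = (1 : ℂ) := by rw [inner_self_eq_norm_sq_to_K, hx]; simp
    have hvv : inner ℂ v v = (1 : ℂ) := by rw [inner_self_eq_norm_sq_to_K, hv1]; simp
    have hxv : inner ℂ x v = (0 : ℂ) := by rw [← inner_conj_symm, hv2]; simp
    have hA : A x = (‖B‖ : ℂ) • v + μ • x := by
      rw [← hv3, hB]; simp
    have h1 := hM x (conj q • x + conj ((s : ℂ) * z * q / ‖q‖) • v) hx ?_ ?_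
    · convert h1 using 3
      rw [hA]
      simp only [inner_add_left, inner_add_right, inner_smul_left, inner_smul_right, hxx, hvv, hxv,
        hv2, Complex.conj_conj, hρ]
      push_cast
      field_simp
      ring
    · rw [← pow_eq_one_iff_of_nonneg (norm_nonneg _) two_ne_zero, @norm_add_sq ℂ,
        inner_smul_left, inner_smul_right, hxv, norm_smul, norm_smul, hx, hv1, Complex.norm_conj,
        Complex.norm_conj, norm_div, norm_mul, norm_mul, hz, Complex.norm_real, Complex.norm_real,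
        norm_norm, Real.norm_of_nonneg hs0]
      simp only [mul_one, mul_zero, map_zero, add_zero]
      rw [mul_div_assoc, div_self hq1.ne']
      linarith
    · simp only [inner_add_left, inner_smul_left, hxx, hv2, Complex.conj_conj]
      ring
  rcases eq_or_ne B 0 with h | h
  · have h1 : A = algebraMap ℂ _ μ := by
      rw [Algebra.algebraMap_eq_smul_one, ← sub_eq_zero]; exact h
    have h2 := hcirc 1 norm_one
    rw [hρ, h, norm_zero, mul_zero, Complex.ofReal_zero, zero_mul, zero_add] at h2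
    rw [h1, aeval_algebraMap_apply, norm_algebraMap', coe_aeval_eq_eval]
    exact h2
  · have h1 := norm_pos_iff.2 h
    have h2 : ‖B‖ ≤ ρ := le_mul_of_one_le_left h1.le ((one_le_div hq1).2 hsq)
    have h3 : 0 < ρ := h1.trans_le h2
    have h4 : (ρ : ℂ) ≠ 0 := by exact_mod_cast h3.ne'
    have h5 := VonNeumann.vonNeumann (T := (ρ : ℂ)⁻¹ • B) (by
      rw [norm_smul, norm_inv, Complex.norm_real, Real.norm_of_nonneg h3.le,
        inv_mul_le_iff₀ h3, mul_one]
      exact h2) (p.comp (C (ρ : ℂ) * X + C μ)) M fun z hz => by simpa using hcirc z hz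
    rw [aeval_comp] at h5
    convert h5 using 3
    simp only [map_add, map_mul, aeval_C, aeval_X, ← Algebra.smul_def, smul_inv_smul₀ h4, hB]
    rw [Algebra.algebraMap_eq_smul_one, sub_add_cancel]

end Pool.Agent.H95.QRange
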