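import Pool.Agent.H95.QinDefs

namespace Pool.Agent.H95.Qin
open Quaternion Filter Topology MeasureTheory Finset

noncomputable def w : ℍ := ⟨0, 1 / 2, 0, 0⟩
noncomputable def a : ℕ → ℍ
  | 0 => 1
  | n + 1 => 2 * w ^ (n + 1)

theorem sw : star w = -w := by ext <;> simp [w]
theorem ww : w * w = ((-(1 / 4) : ℝ) : ℍ) := by
  ext <;> simp [w, -Quaternion.coe_div, -Quaternion.coe_inv]; norm_num
theorem nw : ‖w‖ = 1 / 2 := by
  have := congrArg norm ww
  rw [norm_mul, norm_coe, norm_neg, Real.norm_of_nonneg (by norm_num)] at this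
  nlinarith [norm_nonneg w]

theorem sy (n : ℕ) : sym a n = if n = 0 then 1 else 0 := by
  rcases n with _ | n
  · simp [sym, a]
  have c2 : ∀ x : ℍ, x * 2 = 2 * x := fun x => by rw [mul_two, two_mul]
  have : ∀ k ∈ range n, star (a (k + 1)) * a (n + 1 - (k + 1)) = (-1) ^ (k + 1) * (4 * w ^ (n + 1)) := fun k hk => by
    obtain ⟨m, rfl⟩ := Nat.exists_eq_add_of_lt (mem_range.1 hk)
    rw [show k + m + 1 + 1 - (k + 1) = m + 1 by omega, a, a, star_mul, star_pow, sw, neg_pow, star_ofNat, mul_assoc,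
      mul_assoc, show k + m + 1 + 1 = k + 1 + (m + 1) by omega, pow_add w (k + 1), ← mul_assoc 2, ← mul_assoc (w ^ _),
      ← mul_assoc 4]
    congr 2; rw [← mul_assoc, c2, c2, ← mul_assoc]; norm_num
  rw [sym, sum_range_succ, sum_range_succ', sum_congr rfl this, ← sum_mul, Nat.sub_self, Nat.sub_zero, a, a, star_mul,
    star_pow, sw, neg_pow, star_ofNat, star_one, if_neg n.succ_ne_zero, mul_one, one_mul, mul_assoc, c2,
    show (4 : ℍ) * w ^ (n + 1) = 2 * (2 * w ^ (n + 1)) by rw [← mul_assoc]; norm_num, ← mul_assoc, ← add_one_mul, ← add_mul]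
  have : (∑ k ∈ range n, (-1 : ℍ) ^ (k + 1)) * 2 + 1 + (-1) ^ (n + 1) = 0 := by
    clear this
    induction n with
    | zero => simp
    | succ n ih =>
      rw [sum_range_succ, pow_succ _ (n + 1), add_mul, mul_two ((-1 : ℍ) ^ _), mul_neg_one]
      rw [← ih]; abel
  rw [this, zero_mul]

theorem main : ∃ a : ℕ → ℍ, Summable (fun n => ‖a n‖ ^ 2) ∧ Summable (fun n => ‖a n‖) ∧ IsInner (sym a) ∧ ¬IsInner a := by
  have s : Summable fun n => ‖a n‖ := (summable_nat_add_iff 1).1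
    (((summable_geometric_two.mul_right (1 / 2)).mul_left ‖(2 : ℍ)‖).congr fun n => by
      rw [a, norm_mul, norm_pow, nw, pow_succ])
  have e : ∀ q, ev (sym a) q = 1 := fun q => by
    rw [ev, tsum_eq_single 0 fun n h => by simp [sy, h]]; simp [sy]
  refine ⟨a, ?_, s, ⟨fun q _ => ⟨summable_of_ne_finset_zero (s := {0}) fun n h => by simp_all [sy], by simp [e]⟩,
    Eventually.of_forall fun q _ => ⟨1, norm_one, by simp [e]⟩⟩, fun h => ?_⟩
  · exact (s.mul_left (∑' n, ‖a n‖)).of_nonneg_of_le (fun _ => sq_nonneg _) fun n => (sq _).trans_le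
      (mul_le_mul_of_nonneg_right (s.le_tsum n fun _ _ => norm_nonneg _) (norm_nonneg _))
  · obtain ⟨h1, h2⟩ := h.1 (-w) (by rw [norm_neg, nw]; norm_num)
    have k : ∀ n, (-w) ^ (n + 1) * a (n + 1) = ((2 * (1 / 4) ^ (n + 1) : ℝ) : ℍ) := fun n => by
      rw [a, ← mul_assoc, show (-w) ^ (n + 1) * 2 = 2 * (-w) ^ (n + 1) by rw [mul_two, two_mul], mul_assoc,
        ← (Commute.refl w).neg_left.mul_pow, neg_mul, ww]
      rw [Quaternion.coe_neg, neg_neg, Quaternion.coe_mul, Quaternion.coe_pow]; rfl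
    have g := ((hasSum_geometric_of_lt_one (r := 1 / 4) (by norm_num) (by norm_num)).mul_right (1 / 4)).mul_left 2
    rw [ev, h1.tsum_eq_zero_add] at h2
    simp only [k] at h2
    simp only [pow_succ] at h2
    rw [tsum_coe, g.tsum_eq, pow_zero, a, mul_one, ← Quaternion.coe_one, ← Quaternion.coe_add, norm_coe] at h2
    norm_num at h2

end Pool.Agent.H95.Qin
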