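import Mathlib

namespace Pool.Agent.H95.Qin
open Quaternion Filter Topology MeasureTheory

noncomputable instance : MeasurableSpace ℍ := borel _
instance : BorelSpace ℍ := ⟨rfl⟩

/-- the slice regular function with coefficient sequence a -/
noncomputable def ev (a : ℕ → ℍ) (q : ℍ) : ℍ := ∑' n, q ^ n * a n

/-- coefficients of the symmetrization -/
noncomputable def sym (a : ℕ → ℍ) (n : ℕ) : ℍ := ∑ k ∈ Finset.range (n + 1), star (a k) * a (n - k)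

def IsInner (a : ℕ → ℍ) : Prop :=
  (∀ q : ℍ, ‖q‖ < 1 → Summable (fun n => q ^ n * a n) ∧ ‖ev a q‖ ≤ 1) ∧
    ∀ᵐ q : ℍ ∂μH[3], ‖q‖ = 1 → ∃ L : ℍ, ‖L‖ = 1 ∧ Tendsto (fun r : ℝ => ev a (r • q)) (𝓝[<] 1) (𝓝 L)

end Pool.Agent.H95.Qin
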