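import Pool.Agent.H95.QpDefs

set_option autoImplicit false

open Set Filter Topology TopologicalSpace Function

namespace Pool.Agent.H95.Qp1

abbrev C : Type := ℕ → Bool

instance : Countable (Clopens C) := Clopens.countable_iff_secondCountable.2 inferInstance

theorem cyl {x : C} {U : Set C} (h : U ∈ 𝓝 x) : ∃ n, PiNat.cylinder x n ⊆ U := by
  obtain ⟨s, ⟨z, n, rfl⟩, h1, h2⟩ :=
    (PiNat.isTopologicalBasis_cylinders fun _ => Bool).mem_nhds_iff.1 h
  exact ⟨n, (PiNat.mem_cylinder_iff_eq.1 h1).symm ▸ h2⟩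

theorem perf_univ : Perfect (univ : Set C) := by
  refine ⟨isClosed_univ, preperfect_iff_nhds.2 fun x _ U hU => ?_⟩
  obtain ⟨n, hn⟩ := cyl hU
  refine ⟨update x n (!x n), ⟨hn fun i hi => update_of_ne hi.ne _ _, trivial⟩, fun h => ?_⟩
  have := congrFun h n
  simp at this

theorem perf_inter {p K : Set C} (hp : Perfect p) (hK : IsClopen K) : Perfect (p ∩ K) :=
  ⟨hp.closed.inter hK.1, inter_comm K p ▸ hp.acc.open_inter hK.2⟩

theorem perf_inf {p : Set C} (hp : Perfect p) (hn : p.Nonempty) : p.Infinite := by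
  obtain ⟨f, h1, -, h3⟩ := by
    letI : MetricSpace C := PiNat.metricSpace
    exact hp.exists_nat_bool_injection hn
  exact (infinite_range_of_injective h3).mono h1

/-- a family of conditions -/
structure Fam (P : Set (Set C)) : Prop where
  perf : ∀ p ∈ P, Perfect p ∧ p.Nonempty
  res : ∀ p ∈ P, ∀ K, IsClopen K → (p ∩ K).Nonempty → p ∩ K ∈ P

/-- simultaneous density -/
def MD (P : Set (Set C)) (G : Set C → Prop) : Prop :=
  ∀ S : Set (Set C), S.Finite → S ⊆ P →
    ∃ r : Set C → Set C, (∀ p ∈ S, r p ∈ P ∧ r p ⊆ p) ∧ G (⋃ p ∈ S, r p)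

theorem MD.and {P : Set (Set C)} {G H : Set C → Prop} (hG : MD P G) (hH : MD P H)
    (m : ∀ A B, A ⊆ B → G B → G A) : MD P fun A => G A ∧ H A := by
  intro S hS hP
  obtain ⟨r, h1, h2⟩ := hG S hS hP
  obtain ⟨r', h3, h4⟩ := hH (r '' S) (hS.image r) (image_subset_iff.2 fun p hp => (h1 p hp).1)
  refine ⟨r' ∘ r, fun p hp => ⟨(h3 _ (mem_image_of_mem r hp)).1,
    (h3 _ (mem_image_of_mem r hp)).2.trans (h1 p hp).2⟩, m _ _ ?_ h2, ?_⟩
  · exact iUnion₂_mono fun p hp => (h3 _ (mem_image_of_mem r hp)).2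
  · rwa [biUnion_image] at h4

theorem md_ideal {P : Set (Set C)} {G : Set C → Prop} (h0 : G ∅)
    (hU : ∀ A B, G A → G B → G (A ∪ B)) (hd : ∀ p ∈ P, ∃ q, q ∈ P ∧ q ⊆ p ∧ G q) : MD P G := by
  choose! r h1 h2 h3 using hd
  intro S hS hP
  refine ⟨r, fun p hp => ⟨h1 p (hP hp), h2 p (hP hp)⟩, ?_⟩
  induction S, hS using Set.Finite.induction_on with
  | empty => simpa using h0
  | insert _ _ ih =>
    rw [biUnion_insert]
    exact hU _ _ (h3 _ (hP (mem_insert _ _))) (ih ((subset_insert _ _).trans hP))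

theorem sep {P : Set (Set C)} (hP : Fam P) {I : Type} {s : Set I} (hs : s.Finite)
    (d : I → Set C) (hd : ∀ i ∈ s, d i ∈ P) (n : ℕ) :
    ∃ c : I → Set C, (∀ i ∈ s, c i ∈ P ∧ c i ⊆ d i ∧ ∃ z, c i ⊆ PiNat.cylinder z n) ∧
      s.Pairwise (Disjoint on c) := by
  obtain ⟨x, h1, h2⟩ : ∃ x : I → C, (∀ i ∈ s, x i ∈ d i) ∧ InjOn x s := by
    induction s, hs using Set.Finite.induction_on with
    | empty => exact ⟨fun _ _ => true, by simp, by simp⟩
    | @insert a s ha hs ih =>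
      classical
      obtain ⟨x, h1, h2⟩ := ih fun i hi => hd i (mem_insert_of_mem _ hi)
      have h := hP.perf _ (hd a (mem_insert _ _))
      obtain ⟨z, z1, z2⟩ := (perf_inf h.1 h.2).exists_notMem_finite (hs.image x)
      have e : ∀ i ∈ s, update x a z i = x i := fun i hi =>
        update_of_ne (fun h : i = a => ha (h ▸ hi)) _ _
      refine ⟨update x a z, ?_, ?_⟩
      · rintro i (rfl | hi)
        · simpa using z1
        · rw [e i hi]; exact h1 i hi
      · rw [injOn_insert ha]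
        refine ⟨(h2.congr fun i hi => (e i hi).symm), ?_⟩
        rw [update_self, image_congr e]; exact z2
  obtain ⟨U, u1, u2⟩ := (hs.image x).t2_separation
  choose K k1 k2 k3 using fun i => compact_exists_isClopen_in_isOpen
    ((u1 (x i)).2.inter (PiNat.isOpen_cylinder (fun _ => Bool) (x i) n))
    ⟨(u1 (x i)).1, PiNat.self_mem_cylinder _ _⟩
  refine ⟨fun i => d i ∩ K i, fun i hi => ⟨hP.res _ (hd i hi) _ (k1 i) ⟨x i, h1 i hi, k2 i⟩,
    inter_subset_left, x i, fun y hy => (k3 i hy.2).2⟩, fun i hi j hj hij => ?_⟩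
  exact (u2 (mem_image_of_mem x hi) (mem_image_of_mem x hj) fun h => hij (h2 hi hj h)).mono
    (fun y hy => (k3 i hy.2).1) fun y hy => (k3 j hy.2).1

theorem fusion {P : Set (Set C)} (hP : Fam P) (p : ℕ → Set C) (hp : ∀ i, p i ∈ P)
    (G : ℕ → Set C → Prop) (hG : ∀ n, MD P (G n)) :
    ∃ T : ℕ → Set C, (∀ i, Perfect (T i) ∧ (T i).Nonempty ∧ T i ⊆ p i) ∧
      Pairwise (Disjoint on T) ∧ ∃ U : ℕ → Set C, (∀ n, G n (U n)) ∧ ∀ i n, i ≤ n → T i ⊆ U n := by
  let s : ℕ → Set (ℕ × List Bool) := fun n => Iio n ×ˢ {l | l.length = n}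
  have hs : ∀ n, (s n).Finite := fun n => (finite_Iio n).prod (List.finite_length_eq Bool n)
  let Q : ℕ → (ℕ × List Bool → Set C) → Prop := fun n c => ∀ a ∈ s n, c a ∈ P
  have st : ∀ n (c : {c // Q n c}), ∃ c', Q (n + 1) c' ∧ (∀ a ∈ s (n + 1),
      c' a ⊆ (if a.1 < n then c.1 (a.1, a.2.tail) else p a.1) ∧
        ∃ z, c' a ⊆ PiNat.cylinder z n) ∧ (s (n + 1)).Pairwise (Disjoint on c') ∧
        G n (⋃ a ∈ s (n + 1), c' a) := by
    intro n c
    obtain ⟨d, d1, d2⟩ := sep hP (hs (n + 1))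
      (fun a => if a.1 < n then c.1 (a.1, a.2.tail) else p a.1) (fun a ha => by
        split_ifs with h
        · exact c.2 _ ⟨h, by have : a.2.length = n + 1 := ha.2; simp [this]⟩
        · exact hp _) n
    obtain ⟨r, r1, r2⟩ := hG n (d '' s (n + 1)) ((hs _).image d)
      (image_subset_iff.2 fun a ha => (d1 a ha).1)
    have r3 := fun a ha => r1 (d a) (mem_image_of_mem d ha)
    refine ⟨r ∘ d, fun a ha => (r3 a ha).1, fun a ha => ⟨(r3 a ha).2.trans (d1 a ha).2.1,
      (d1 a ha).2.2.imp fun z hz => (r3 a ha).2.trans hz⟩,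
      fun a ha b hb hab => (d2 ha hb hab).mono (r3 a ha).2 (r3 b hb).2, ?_⟩
    rwa [biUnion_image] at r2
  choose F f1 f2 f3 f4 using st
  let c : ∀ n, {c // Q n c} := fun n => Nat.rec ⟨fun _ => ∅, fun a ha => absurd ha.1 (by simp)⟩
    (fun n c => ⟨F n c, f1 n c⟩) n
  have ce : ∀ n, (c (n + 1)).1 = F n (c n) := fun n => rfl
  have sub : ∀ n i l b, i < n → l.length = n → (c (n + 1)).1 (i, b :: l) ⊆ (c n).1 (i, l) :=
    fun n i l b hi hl => by
      have := (f2 n (c n) (i, b :: l) ⟨Nat.lt_succ_of_lt hi, by simpa using hl⟩).1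
      rwa [if_pos hi] at this
  let V : ℕ → ℕ → Set C := fun i n => ⋃ l ∈ {l : List Bool | l.length = n}, (c n).1 (i, l)
  have Vs : ∀ i n, i < n → V i (n + 1) ⊆ V i n := fun i n hi x hx => by
    obtain ⟨l, hl, hx⟩ := mem_iUnion₂.1 hx
    cases l with
    | nil => simp at hl
    | cons b l =>
      have hl : l.length = n := by simpa using hl
      exact mem_biUnion hl (sub n i l b hi hl hx)
  have Va : ∀ i n m, i < n → n ≤ m → V i m ⊆ V i n := fun i n m hi h => by
    induction m, h using Nat.le_induction with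
    | base => exact Subset.rfl
    | succ m h ih => exact (Vs i m (hi.trans_le h)).trans ih
  have cl : ∀ n i l, i < n → l.length = n → IsClosed ((c n).1 (i, l)) := fun n i l hi hl =>
    (hP.perf _ ((c n).2 (i, l) ⟨hi, hl⟩)).1.closed
  let T : ℕ → Set C := fun i => ⋂ n ∈ Ioi i, V i n
  have hit : ∀ n i l, i < n → l.length = n → (T i ∩ (c n).1 (i, l)).Nonempty := by
    intro n i l hi hl
    have L : ∀ k, (List.replicate k false ++ l).length = n + k := fun k => by simp [hl, add_comm]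
    obtain ⟨x, hx⟩ := IsCompact.nonempty_iInter_of_sequence_nonempty_isCompact_isClosed
      (fun k => (c (n + k)).1 (i, List.replicate k false ++ l))
      (fun k => sub (n + k) i _ false (by omega) (L k))
      (fun k => (hP.perf _ ((c (n + k)).2 (i, _) ⟨show i < n + k by omega, L k⟩)).2)
      (cl _ _ _ (by omega) (L 0)).isCompact fun k => cl _ _ _ (by omega) (L k)
    refine ⟨x, mem_iInter₂.2 fun m hm => Va i m (n + m) hm (by omega)
      (mem_biUnion (L m) (mem_iInter.1 hx m)), mem_iInter.1 hx 0⟩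
  refine ⟨T, fun i => ⟨⟨isClosed_biInter fun n hn => (List.finite_length_eq Bool n).isClosed_biUnion
    fun l hl => cl n i l hn hl, preperfect_iff_nhds.2 fun x hx U hU => ?_⟩,
    (hit (i + 1) i (List.replicate (i + 1) false) (by omega) (by simp)).mono inter_subset_left,
    fun x hx => ?_⟩, fun i j hij => ?_, fun n => ⋃ a ∈ s (n + 1), F n (c n) a, fun n => f4 n _,
    fun i n h x hx => ?_⟩
  · obtain ⟨n, hn⟩ := cyl hU
    obtain ⟨l, hl, hx'⟩ := mem_iUnion₂.1 (mem_iInter₂.1 hx (n + i + 1) (show i < n + i + 1 by omega))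
    obtain ⟨z, hz⟩ := (f2 (n + i) (c (n + i)) (i, l) ⟨show i < n + i + 1 by omega, hl⟩).2
    have hU : (c (n + i + 1)).1 (i, l) ⊆ U := fun y hy => hn (PiNat.cylinder_anti x (by omega)
      (show y ∈ PiNat.cylinder x (n + i) from PiNat.mem_cylinder_iff_eq.1 (hz hx') ▸ hz hy))
    have L : ∀ b, (b :: l).length = n + i + 1 + 1 := fun b => by simpa using hl
    obtain ⟨y, y1, y2⟩ := hit _ i (true :: l) (by omega) (L _)
    obtain ⟨w, w1, w2⟩ := hit _ i (false :: l) (by omega) (L _)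
    have ne : y ≠ w := fun h => disjoint_left.1 (f3 (n + i + 1) (c _) (x := (i, true :: l))
      ⟨show i < n + i + 1 + 1 by omega, L _⟩ (y := (i, false :: l))
      ⟨show i < n + i + 1 + 1 by omega, L _⟩ (by simp)) y2 (h ▸ w2)
    by_cases h : y = x
    · exact ⟨w, ⟨hU (sub _ i l _ (by omega) hl w2), w1⟩, fun e => ne (h.trans e.symm)⟩
    · exact ⟨y, ⟨hU (sub _ i l _ (by omega) hl y2), y1⟩, h⟩
  · obtain ⟨l, hl, hx'⟩ := mem_iUnion₂.1 (mem_iInter₂.1 hx (i + 1) (show i < i + 1 by omega))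
    have := (f2 i (c i) (i, l) ⟨show i < i + 1 by omega, hl⟩).1
    rw [if_neg (lt_irrefl i)] at this
    exact this hx'
  · refine disjoint_left.2 fun x hi hj => ?_
    obtain ⟨l, hl, h1⟩ := mem_iUnion₂.1 (mem_iInter₂.1 hi (i + j + 1) (show i < i + j + 1 by omega))
    obtain ⟨m, hm, h2⟩ := mem_iUnion₂.1 (mem_iInter₂.1 hj (i + j + 1) (show j < i + j + 1 by omega))
    exact disjoint_left.1 (f3 (i + j) (c _) (x := (i, l)) ⟨show i < i + j + 1 by omega, hl⟩
      (y := (j, m)) ⟨show j < i + j + 1 by omega, hm⟩ (by simp [hij])) h1 h2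
  · obtain ⟨l, hl, h1⟩ := mem_iUnion₂.1 (mem_iInter₂.1 hx (n + 1) (show i < n + 1 by omega))
    exact mem_biUnion (x := (i, l)) ⟨show i < n + 1 by omega, hl⟩ h1

end Pool.Agent.H95.Qp1
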