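import Pool.Agent.H95.Qp1

set_option autoImplicit false

open Set Filter Topology TopologicalSpace Function Cardinal

namespace Pool.Agent.H95.Qp2

open Pool.Agent.H95.QpDefs Pool.Agent.H95.Qp1

theorem mk_W : #W = ℵ_ 1 := mk_ord_toType _

instance unc : Uncountable W := by rw [← aleph0_lt_mk_iff, mk_W]; exact aleph0_lt_aleph_one

theorem cnt (ξ : W) : (Iio ξ).Countable := le_aleph0_iff_set_countable.1
  (Order.lt_succ_iff.1 (((mk_Iio_lt ξ (by simp)).trans_eq mk_W).trans_eq succ_aleph0.symm))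

theorem bd (s : Set W) (hs : s.Countable) : ∃ β, ∀ α ∈ s, α < β := by
  by_contra h
  push Not at h
  refine not_countable_univ ((hs.biUnion fun α _ => (cnt α).insert α).mono fun β _ => ?_)
  obtain ⟨α, h1, h2⟩ := h β
  exact mem_biUnion h1 h2.eq_or_lt

theorem club (g : W → W) (δ : W) : IsClub {β | δ < β ∧ ∀ i < β, g i < β} := by
  constructor
  · intro s hs ⟨a, ha⟩ _ b hb
    refine ⟨(hs ha).1.trans_le (hb.1 ha), fun i hi => ?_⟩
    obtain ⟨c, hc, hic⟩ := (lt_isLUB_iff hb).1 hi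
    exact ((hs hc).2 i hic).trans_le (hb.1 hc)
  · intro a
    choose F hF using fun b : W => bd (insert b (g '' Iio b)) (((cnt b).image g).insert b)
    let b : ℕ → W := fun n => F^[n] (max a δ)
    have hb : ∀ n, b (n + 1) = F (b n) := fun n => Function.iterate_succ_apply' F n _
    obtain ⟨β, h1, h2⟩ := wellFounded_lt.has_min {β | ∀ α ∈ range b, α < β}
      (bd _ (countable_range b))
    have h0 : max a δ < β := h1 _ ⟨0, rfl⟩
    refine ⟨β, ⟨(le_max_right _ _).trans_lt h0, fun i hi => ?_⟩,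
      ((le_max_left _ _).trans_lt h0).le⟩
    obtain ⟨n, hn⟩ : ∃ n, i ≤ b n := by
      by_contra h
      push Not at h
      exact h2 i (forall_mem_range.2 h) hi
    have h3 : i < b (n + 1) := hn.trans_lt (hb n ▸ hF _ _ (Or.inl rfl))
    exact (hF _ _ (Or.inr (mem_image_of_mem g h3))).trans (hb (n + 1) ▸ h1 _ ⟨n + 2, rfl⟩)

theorem rec_e {α : Type} [Nonempty α] (Good : W → (W → α) → α → Prop)
    (loc : ∀ t f g x, (∀ s, s < t → f s = g s) → Good t f x → Good t g x)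
    (step : ∀ t f, (∀ s, s < t → Good s f (f s)) → ∃ x, Good t f x) :
    ∃ f : W → α, ∀ t, Good t f (f t) := by
  classical
  have wf : WellFounded fun s t : W => s < t := wellFounded_lt
  let f : W → α := wf.fix fun t prev =>
    Classical.epsilon (Good t fun s => if h : s < t then prev s h else Classical.arbitrary α)
  have hf : ∀ t, f t = Classical.epsilon
      (Good t fun s => if s < t then f s else Classical.arbitrary α) := fun t => by
    show wf.fix _ t = _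
    rw [WellFounded.fix_eq]
    rfl
  refine ⟨f, fun t => wf.induction (C := fun t => Good t f (f t)) t fun t ih => ?_⟩
  obtain ⟨x, hx⟩ := step t f ih
  refine loc t (fun s => if s < t then f s else Classical.arbitrary α) f _
    (fun s hs => if_pos hs) ?_
  rw [hf t]
  exact Classical.epsilon_spec ⟨x, loc t f _ x (fun s hs => (if_pos hs).symm) hx⟩

abbrev X : Type := W × ℕ
abbrev Cd : Type := Option X × Clopens C
abbrev Z : Type := ℕ × Finset X × Finset Cd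

def lt (c : Cd) (α : W) : Prop := ∀ a ∈ c.1, a.1 < α

def val (f : W → ℕ → Set C) (c : Cd) : Set C := c.1.elim univ (fun a => f a.1 a.2) ∩ c.2

def V (f : W → ℕ → Set C) (α : W) (c : Cd) : Set C := {x | lt c α ∧ x ∈ val f c}

theorem V_eq (f : W → ℕ → Set C) {α : W} {c : Cd} (h : lt c α) : V f α c = val f c :=
  Set.ext fun _ => and_iff_right h

theorem val_top (f : W → ℕ → Set C) (a : X) : val f (some a, ⊤) = f a.1 a.2 := by simp [val]

theorem V_top (f : W → ℕ → Set C) {α : W} {a : X} (h : a.1 < α) :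
    V f α (some a, ⊤) = f a.1 a.2 := by
  rw [V_eq, val_top]
  rintro b ⟨⟩
  exact h

def Dec (A G : Set C) : Prop := ∃ F, IsClosed F ∧ Disjoint F A ∧ G ⊆ A ∪ F

noncomputable def eps (A : Set C) : C := Classical.epsilon (· ∈ A)

def PP (v : Cd → Set C) : Set (Set C) := {p | p ∈ range v ∧ p.Nonempty}

def GG (R : Set Z) (v : Cd → Set C) (n : ℕ) (F : Finset X) (G : Set C) : Prop :=
  ∃ S, (n, F, S) ∈ R ∧ G ⊆ ⋃ c ∈ S, v c

def Q (R : Set Z) (α : W) (v : Cd → Set C) (x : ℕ → Set C) : Prop :=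
  (∀ i, Perfect (x i) ∧ (x i).Nonempty) ∧ Pairwise (Disjoint on x) ∧
  (∀ p ∈ PP v, ∃ i, x i ⊆ p) ∧
  (∀ a : X, a.1 < α → ∀ i, Dec (v (some a, ⊤)) (x i) ∧ eps (v (some a, ⊤)) ∉ x i ∧
    x i ⊆ ⋃ j, v (some (a.1, j), ⊤)) ∧
  ((∀ n (F : Finset X), (∀ a ∈ F, a.1 < α) → MD (PP v) (GG R v n F)) →
    ∃ (F : ℕ → Finset X) (U : ℕ → Set C), (∀ n, GG R v n (F n) (U n)) ∧
      (∀ a : X, a.1 < α → ∀ᶠ n in atTop, a ∈ F n) ∧ ∀ i n, i ≤ n → x i ⊆ U n)

theorem cntX (α : W) : {a : X | a.1 < α}.Countable :=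
  ((cnt α).prod (countable_univ (α := ℕ))).mono fun _ h => mem_prod.2 ⟨h, mem_univ _⟩

theorem cntC (α : W) : {c : Cd | lt c α}.Countable := by
  refine ((((cntX α).image some).insert none).prod countable_univ).mono ?_
  rintro ⟨_ | a, K⟩ h
  · exact ⟨Or.inl rfl, trivial⟩
  · exact ⟨Or.inr ⟨a, h a rfl, rfl⟩, trivial⟩

theorem Dec.loc {A G : Set C} (h : Dec A G) {x : C} (hx : x ∈ A) :
    ∃ K, IsClopen K ∧ x ∈ K ∧ G ∩ K ⊆ A := by
  obtain ⟨F, h1, h2, h3⟩ := h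
  obtain ⟨K, k1, k2, k3⟩ := compact_exists_isClopen_in_isOpen h1.isOpen_compl
    (disjoint_right.1 h2 hx)
  exact ⟨K, k1, k2, fun y hy => (h3 hy.1).resolve_right (k3 hy.2)⟩

theorem step (R : W → Set Z) (α : W) (f : W → ℕ → Set C)
    (H : ∀ s, s < α → Q (R s) s (V f s) (f s)) : ∃ x, Q (R α) α (V f α) x := by
  classical
  have res : ∀ c (K : Clopens C), V f α (c.1, c.2 ⊓ K) = V f α c ∩ K := fun c K => by
    ext x; simp [V, val, lt, and_assoc]
  have hP : Fam (PP (V f α)) := by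
    refine ⟨?_, ?_⟩
    · rintro _ ⟨⟨c, rfl⟩, x, hx⟩
      refine ⟨?_, x, hx⟩
      rw [V_eq f hx.1]
      refine perf_inter ?_ c.2.isClopen
      obtain ⟨_ | a, K⟩ := c
      · exact perf_univ
      · exact ((H _ (hx.1 a rfl)).1 a.2).1
    · rintro _ ⟨⟨c, rfl⟩, -⟩ K hK h
      exact ⟨⟨_, res c ⟨K, hK⟩⟩, h⟩
  have hc : (PP (V f α)).Countable := ((cntC α).image (V f α)).mono (by
    rintro _ ⟨⟨c, rfl⟩, x, hx⟩; exact ⟨c, hx.1, rfl⟩)
  obtain ⟨p, hp⟩ := hc.exists_eq_range ⟨_, ⟨(none, ⊤), rfl⟩, fun _ => true, by simp [V, val, lt]⟩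
  obtain ⟨e, he⟩ : ∃ e : ℕ → X, ∀ a : X, a.1 < α → ∃ k, e k = a := by
    obtain ⟨e, he⟩ := ((cntX α).insert (α, 0)).exists_eq_range (insert_nonempty _ _)
    exact ⟨e, fun a ha => he.le (Or.inr ha)⟩
  let F : ℕ → Finset X := fun n => ((Finset.range n).image e).filter fun a => a.1 < α
  let G1 : X → Set C → Prop := fun a G => a.1 < α → Dec (f a.1 a.2) G ∧ eps (f a.1 a.2) ∉ G ∧
    G ⊆ ⋃ j, f a.1 j
  have m1 : ∀ a A B, A ⊆ B → G1 a B → G1 a A := fun a A B h hB ha =>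
    ⟨(hB ha).1.imp fun F hF => ⟨hF.1, hF.2.1, h.trans hF.2.2⟩, fun h' => (hB ha).2.1 (h h'),
      h.trans (hB ha).2.2⟩
  have cut : ∀ p ∈ PP (V f α), ∀ A, IsClosed A → ¬ p ⊆ A →
      ∃ q, q ∈ PP (V f α) ∧ q ⊆ p ∧ Disjoint q A := fun p hp A hA h => by
    obtain ⟨x, h1, h2⟩ := not_subset.1 h
    obtain ⟨K, k1, k2, k3⟩ := compact_exists_isClopen_in_isOpen hA.isOpen_compl h2
    exact ⟨p ∩ K, hP.res p hp K k1 ⟨x, h1, k2⟩, inter_subset_left,
      disjoint_left.2 fun y hy => k3 hy.2⟩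
  have d1 : ∀ a, MD (PP (V f α)) (G1 a) := fun a => by
    refine md_ideal (fun _ => ⟨⟨∅, isClosed_empty, by simp, by simp⟩, by simp, by simp⟩)
      (fun A B hA hB ha => ⟨?_, fun h => h.elim (hA ha).2.1 (hB ha).2.1,
        union_subset (hA ha).2.2 (hB ha).2.2⟩) fun p hp => ?_
    · obtain ⟨F1, a1, a2, a3⟩ := (hA ha).1
      obtain ⟨F2, b1, b2, b3⟩ := (hB ha).1
      exact ⟨F1 ∪ F2, a1.union b1, disjoint_union_left.2 ⟨a2, b2⟩, union_subset
        (a3.trans (union_subset_union_right _ subset_union_left))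
        (b3.trans (union_subset_union_right _ subset_union_right))⟩
    by_cases ha : a.1 < α
    swap
    · exact ⟨p, hp, Subset.rfl, fun h => absurd h ha⟩
    obtain ⟨q, q1, q2, q3⟩ : ∃ q, q ∈ PP (V f α) ∧ q ⊆ p ∧ q ⊆ ⋃ j, f a.1 j := by
      obtain ⟨⟨c, rfl⟩, x, hx⟩ := hp
      by_cases h : lt c a.1
      · obtain ⟨i, hi⟩ := (H _ ha).2.2.1 (V f a.1 c) ⟨⟨c, rfl⟩, x, h, hx.2⟩
        refine ⟨f a.1 i, ⟨⟨(some (a.1, i), ⊤), V_top f ha⟩, ((H _ ha).1 i).2⟩, ?_,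
          subset_iUnion _ i⟩
        rw [V_eq f hx.1, ← V_eq f h]; exact hi
      · refine ⟨_, ⟨⟨c, rfl⟩, x, hx⟩, Subset.rfl, fun y hy => ?_⟩
        obtain ⟨_ | b, K⟩ := c
        · exact absurd (by simp [lt]) h
        have hb : a.1 ≤ b.1 := by simpa [lt] using h
        have hy : y ∈ f b.1 b.2 := hy.2.1
        rcases hb.eq_or_lt with e | hb
        · exact mem_iUnion.2 ⟨b.2, e ▸ hy⟩
        · obtain ⟨j, hj⟩ := mem_iUnion.1 (((H _ (hx.1 b rfl)).2.2.2.1 a hb b.2).2.2 hy)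
          rw [V_top f (a := (a.1, j)) hb] at hj
          exact mem_iUnion.2 ⟨j, hj⟩
    obtain ⟨r, r1, r2, r3⟩ := cut q q1 {eps (f a.1 a.2)} isClosed_singleton fun h =>
      perf_inf (hP.perf q q1).1 q1.2 ((finite_singleton _).subset h)
    by_cases h : r ⊆ f a.1 a.2
    · exact ⟨r, r1, r2.trans q2, fun _ => ⟨⟨∅, isClosed_empty, by simp, by simpa using h⟩,
        disjoint_singleton_right.1 r3, r2.trans q3⟩⟩
    · obtain ⟨s, s1, s2, s3⟩ := cut r r1 _ ((H _ ha).1 a.2).1.closed h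
      exact ⟨s, s1, s2.trans (r2.trans q2), fun _ => ⟨⟨s, (hP.perf s s1).1.closed, s3,
        subset_union_right⟩, fun h => disjoint_singleton_right.1 r3 (s2 h),
        s2.trans (r2.trans q3)⟩⟩
  let D : Prop := ∀ n (F : Finset X), (∀ a ∈ F, a.1 < α) →
    MD (PP (V f α)) (GG (R α) (V f α) n F)
  obtain ⟨T, t1, t2, U, u1, u2⟩ := fusion hP p (fun i => hp ▸ mem_range_self i)
    (fun n A => G1 (e n.unpair.1) A ∧ (D → GG (R α) (V f α) n (F n) A)) fun n => by
      refine (d1 _).and ?_ (m1 _)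
      by_cases h : D
      · simpa only [h, true_implies] using h n (F n) fun a ha => (Finset.mem_filter.1 ha).2
      · exact fun S _ hS => ⟨id, fun p hp => ⟨hS hp, Subset.rfl⟩, fun h' => absurd h' h⟩
  refine ⟨T, fun i => ⟨(t1 i).1, (t1 i).2.1⟩, t2, fun q hq => ?_, fun a ha i => ?_,
    fun h => ⟨F, U, fun n => (u1 n).2 h, fun a ha => ?_, u2⟩⟩
  · obtain ⟨i, rfl⟩ : q ∈ range p := hp ▸ hq
    exact ⟨i, (t1 i).2.2⟩
  · obtain ⟨k, rfl⟩ := he a ha
    have := m1 _ _ _ (u2 i (k.pair i) (Nat.right_le_pair _ _)) (u1 _).1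
    rw [Nat.unpair_pair] at this
    rw [V_top f ha]
    refine ⟨(this ha).1, (this ha).2.1, (this ha).2.2.trans (iUnion_mono fun j => ?_)⟩
    rw [V_top f (a := ((e k).1, j)) ha]
  · obtain ⟨k, rfl⟩ := he a ha
    filter_upwards [eventually_gt_atTop k] with n hn
    exact Finset.mem_filter.2 ⟨Finset.mem_image_of_mem e (Finset.mem_range.2 hn), ha⟩

theorem build (R : W → Set Z) : ∃ f : W → ℕ → Set C, ∀ α, Q (R α) α (V f α) (f α) := by
  refine rec_e (fun α f x => Q (R α) α (V f α) x) (fun α f g x h hx => ?_) (step R)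
  have : V f α = V g α := funext fun c => Set.ext fun y => and_congr_right fun hc => by
    obtain ⟨_ | a, K⟩ := c
    · rfl
    · simp only [val, Option.elim, h _ (hc a rfl)]
  rwa [← this]

end Pool.Agent.H95.Qp2
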