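import Pool.Agent.H95.Qp2

set_option autoImplicit false

open Set Filter Topology TopologicalSpace Function Cardinal

namespace Pool.Agent.H95.Qp3

open Pool.Agent.H95.QpDefs Pool.Agent.H95.Qp1 Pool.Agent.H95.Qp2

variable {R : W → Set Z} {f : W → ℕ → Set C}

noncomputable def pt (f : W → ℕ → Set C) (x : X) : C := eps (f x.1 x.2)

/-- the space -/
def Sp (_ : W → ℕ → Set C) : Type := X

instance : TopologicalSpace (Sp f) where
  IsOpen U := ∀ x ∈ U, ∃ K, IsClopen K ∧ pt f x ∈ K ∧ pt f ⁻¹' (f x.1 x.2 ∩ K) ⊆ U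
  isOpen_univ := fun _ _ => ⟨univ, isClopen_univ, trivial, subset_univ _⟩
  isOpen_inter := fun s t hs ht x hx => by
    obtain ⟨K, k1, k2, k3⟩ := hs x hx.1
    obtain ⟨L, l1, l2, l3⟩ := ht x hx.2
    exact ⟨K ∩ L, k1.inter l1, ⟨k2, l2⟩, fun y hy => ⟨k3 ⟨hy.1, hy.2.1⟩, l3 ⟨hy.1, hy.2.2⟩⟩⟩
  isOpen_sUnion := fun s hs x ⟨t, ht, hx⟩ => by
    obtain ⟨K, k1, k2, k3⟩ := hs t ht x hx
    exact ⟨K, k1, k2, k3.trans (subset_sUnion_of_mem ht)⟩

theorem cont : Continuous (X := Sp f) (pt f) := continuous_def.2 fun s hs x hx => by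
  obtain ⟨K, k1, k2, k3⟩ := compact_exists_isClopen_in_isOpen hs hx
  exact ⟨K, k1, k2, fun y hy => k3 hy.2⟩

variable (H : ∀ α, Q (R α) α (V f α) (f α))
include H

theorem pt_mem (x : X) : pt f x ∈ f x.1 x.2 := Classical.epsilon_spec ((H _).1 x.2).2

theorem le_of {x a : X} (h : pt f x ∈ f a.1 a.2) : a.1 < x.1 ∨ a = x := by
  rcases lt_trichotomy a.1 x.1 with c | c | c
  · exact Or.inl c
  · refine Or.inr (Prod.ext c ?_)
    by_contra e
    exact disjoint_left.1 ((H x.1).2.1 e) (c ▸ h) (pt_mem H x)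
  · have := ((H a.1).2.2.2.1 x c a.2).2.1
    rw [V_top f c] at this
    exact absurd h this

theorem inj : Injective (pt f) := fun x y h => by
  rcases le_of H (h ▸ pt_mem H x : pt f y ∈ f x.1 x.2) with c | c
  · rcases le_of H (h.symm ▸ pt_mem H y : pt f x ∈ f y.1 y.2) with d | d
    · exact absurd c d.asymm
    · exact d.symm
  · exact c

theorem loc {x : X} {c : Cd} (h : pt f x ∈ val f c) :
    ∃ K, IsClopen K ∧ pt f x ∈ K ∧ f x.1 x.2 ∩ K ⊆ val f c := by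
  obtain ⟨_ | a, L⟩ := c
  · exact ⟨L, L.isClopen, h.2, fun y hy => ⟨trivial, hy.2⟩⟩
  rcases le_of H (a := a) h.1 with c | rfl
  · have := ((H x.1).2.2.2.1 a c x.2).1
    rw [V_top f c] at this
    obtain ⟨K, k1, k2, k3⟩ := this.loc h.1
    exact ⟨K ∩ L, k1.inter L.isClopen, ⟨k2, h.2⟩, fun y hy => ⟨k3 ⟨hy.1, hy.2.1⟩, hy.2.2⟩⟩
  · exact ⟨L, L.isClopen, h.2, Subset.rfl⟩

theorem op (c : Cd) : IsOpen (pt f ⁻¹' val f c : Set (Sp f)) := fun x hx => by
  obtain ⟨K, k1, k2, k3⟩ := loc H hx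
  exact ⟨K, k1, k2, preimage_mono k3⟩

theorem basis (x : Sp f) : (𝓝 x).HasBasis (fun K : Clopens C => pt f x ∈ K)
    fun K => pt f ⁻¹' (f x.1 x.2 ∩ K) := ⟨fun t => ⟨fun h => by
  obtain ⟨U, u1, u2, u3⟩ := mem_nhds_iff.1 h
  obtain ⟨K, k1, k2, k3⟩ := u2 x u3
  exact ⟨⟨K, k1⟩, k2, k3.trans u1⟩, fun ⟨K, k1, k2⟩ =>
    mem_of_superset ((op H (some x, K)).mem_nhds ⟨pt_mem H x, k1⟩) k2⟩⟩

theorem hit {c : Cd} (h : (val f c).Nonempty) : ∃ x : X, pt f x ∈ val f c := by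
  obtain ⟨α, hα⟩ := bd {b | ∃ a ∈ c.1, b = a.1} (by
    obtain ⟨_ | a, K⟩ := c
    · simp
    · simp)
  have hc : lt c α := fun a ha => hα _ ⟨a, ha, rfl⟩
  obtain ⟨i, hi⟩ := (H α).2.2.1 (V f α c) ⟨⟨c, rfl⟩, by rwa [V_eq f hc]⟩
  exact ⟨(α, i), (hi (pt_mem H (α, i))).2⟩

theorem shrink {g : Sp f → ℝ} (hg : Quasicont g) {c : Cd} {x : X} (hx : pt f x ∈ val f c) {ε : ℝ}
    (hε : 0 < ε) : ∃ d, (val f d).Nonempty ∧ val f d ⊆ val f c ∧
      ∀ y : X, pt f y ∈ val f d → |g y - g x| < ε := by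
  obtain ⟨U, u1, ⟨z, hz⟩, u2, u3⟩ := hg x _ (op H c) hx ε hε
  obtain ⟨K, k1, k2, k3⟩ := u1 z hz
  obtain ⟨L, l1, l2, l3⟩ := loc H (x := z) (u2 hz)
  exact ⟨(some z, ⟨K ∩ L, k1.inter l1⟩), ⟨_, pt_mem H z, k2, l2⟩, fun y hy => l3 ⟨hy.1, hy.2.2⟩,
    fun y hy => u3 y (k3 ⟨hy.1, hy.2.1⟩)⟩

theorem dense {A : Set (Qp (Sp f))} {g : Qp (Sp f)} (hg : g ∈ closure A) {ε : ℝ} (hε : 0 < ε)
    (F : Finset X) (S : Finset Cd) : ∃ r : Cd → Cd, (∀ c ∈ S, (val f c).Nonempty →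
      (val f (r c)).Nonempty ∧ val f (r c) ⊆ val f c) ∧ ∃ h ∈ A, ∀ y : X,
        (y ∈ F ∨ ∃ c ∈ S, pt f y ∈ val f (r c)) → |h.1 y - g.1 y| < ε := by
  classical
  have e4 : 0 < ε / 4 := by positivity
  have h1 : ∀ c, (val f c).Nonempty → ∃ d x, pt f x ∈ val f d ∧ val f d ⊆ val f c ∧
      ∀ y : X, pt f y ∈ val f d → |g.1 y - g.1 x| < ε / 2 := fun c hc => by
    obtain ⟨x, hx⟩ := hit H hc
    obtain ⟨d, d1, d2, d3⟩ := shrink H g.2 hx e4
    obtain ⟨z, hz⟩ := hit H d1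
    refine ⟨d, z, hz, d2, fun y hy => ?_⟩
    have a := abs_lt.1 (d3 y hy)
    have b := abs_lt.1 (d3 z hz)
    exact abs_lt.2 ⟨by linarith, by linarith⟩
  have : Nonempty Cd := ⟨(none, ⊤)⟩
  choose! d x d1 d2 d3 using h1
  obtain ⟨h, h1, h2⟩ := mem_closure_iff_nhds.1 hg
    {h | ∀ y ∈ F ∪ S.image x, |h.1 y - g.1 y| < ε / 4} (by
      refine (eventually_all_finset _).2 fun y _ => ?_
      have : Continuous fun h : Qp (Sp f) => |h.1 y - g.1 y| :=
        (((continuous_apply y).comp continuous_subtype_val).sub continuous_const).abs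
      exact this.continuousAt.eventually_lt continuousAt_const (by simpa using e4))
  have h3 : ∀ c, ∃ r, ((val f c).Nonempty → (val f r).Nonempty ∧ val f r ⊆ val f c) ∧
      (c ∈ S → ∀ y : X, pt f y ∈ val f r → |h.1 y - g.1 y| < ε) := fun c => by
    by_cases hc : (val f c).Nonempty
    · obtain ⟨r, r1, r2, r3⟩ := shrink H h.2 (d1 c hc) e4
      refine ⟨r, fun _ => ⟨r1, r2.trans (d2 c hc)⟩, fun hS y hy => ?_⟩
      have a := abs_lt.1 (r3 y hy)
      have b := abs_lt.1 (d3 c hc y (r2 hy))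
      have c := abs_lt.1 (h1 (x c) (Finset.mem_union_right _ (Finset.mem_image_of_mem x hS)))
      exact abs_lt.2 ⟨by linarith, by linarith⟩
    · exact ⟨c, fun h => absurd h hc, fun _ y hy => absurd ⟨_, hy⟩ hc⟩
  choose r r1 r2 using h3
  refine ⟨r, fun c _ => r1 c, h, h2, fun y hy => ?_⟩
  rcases hy with hy | ⟨c, hc, hy⟩
  · exact (h1 y (Finset.mem_union_left _ hy)).trans (by linarith)
  · exact r2 c hc y hy

omit H in
theorem cntZ (β : W) : {z : Z | (∀ a ∈ z.2.1, a.1 < β) ∧ ∀ c ∈ z.2.2, lt c β}.Countable := by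
  have k : ∀ {T : Type} {s : Set T}, s.Countable → {t : Finset T | ∀ a ∈ t, a ∈ s}.Countable :=
    fun {T s} hs => ((countable_setOf_finite_subset hs).preimage_of_injOn
      (f := fun t : Finset T => (t : Set T)) Finset.coe_injective.injOn).mono
        fun t ht => And.intro t.finite_toSet ht
  refine ((countable_univ (α := ℕ)).prod ((k (cntX β)).prod (k (cntC β)))).mono ?_
  intro z hz
  exact ⟨mem_univ _, hz.1, hz.2⟩

theorem fu {D : W → Set W} (hD : ∀ Y : Set W, IsStationary {α | Y ∩ Iio α = D α}) {e : W → Z}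
    (he : Surjective e) (hR : ∀ α, R α = e '' D α) : FrechetUrysohnSpace (Qp (Sp f)) := by
  classical
  refine ⟨fun A g hg => ?_⟩
  let T : Set Z := {z | ∃ h ∈ A, ∀ y : X, (y ∈ z.2.1 ∨ ∃ c ∈ z.2.2, pt f y ∈ val f c) →
    |h.1 y - g.1 y| < 1 / ((z.1 : ℝ) + 1)}
  choose r r1 r2 using fun z : Z => dense H hg (Nat.one_div_pos_of_nat (n := z.1)) z.2.1 z.2.2
  choose i hi using he
  have b1 : ∀ c : Cd, ∃ β, lt c β := fun c => by
    obtain ⟨_ | a, K⟩ := c
    · exact ⟨Classical.arbitrary _, by simp [lt]⟩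
    · obtain ⟨β, h⟩ := bd {a.1} (countable_singleton _)
      exact ⟨β, by simpa [lt] using h⟩
  choose ρ hρ using b1
  choose γ hγ using fun β => bd (insert β (⋃ z ∈ {z : Z | (∀ a ∈ z.2.1, a.1 < β) ∧
      ∀ c ∈ z.2.2, lt c β}, insert (i (z.1, z.2.1, z.2.2.image (r z)))
        ((fun c => ρ (r z c)) '' z.2.2)))
    (((cntZ β).biUnion fun z _ => ((z.2.2.countable_toSet.image _).insert _)).insert β)
  obtain ⟨α, h1, h2, h3⟩ := hD (e ⁻¹' T) (club γ (Classical.arbitrary _))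
  have h1 : e ⁻¹' T ∩ Iio α = D α := h1
  have fin : ∀ s : Set W, s.Finite → s ⊆ Iio α → ∃ β < α, ∀ a ∈ s, a < β := fun s hs h => by
    obtain ⟨m, m1, m2⟩ := (insert (Classical.arbitrary W) s).exists_max_image id (hs.insert _)
      (insert_nonempty _ _)
    have hm : m < α := m1.elim (fun e => e ▸ h2) fun e => h e
    exact ⟨γ m, h3 m hm, fun a ha => (m2 a (Or.inr ha)).trans_lt (hγ m m (Or.inl rfl))⟩
  obtain ⟨F, U, u1, u2, u3⟩ := (H α).2.2.2.2 fun n F hF S hS hP => by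
    choose! c c1 using fun p (hp : p ∈ S) => (hP hp).1
    have c2 : ∀ p ∈ S, lt (c p) α := fun p hp => by
      obtain ⟨x, hx⟩ := (hP hp).2
      rw [← c1 p hp] at hx
      exact hx.1
    let z : Z := (n, F, hS.toFinset.image c)
    obtain ⟨β, b1, b2⟩ := fin (Prod.fst '' (F : Set X) ∪ ⋃ p ∈ S, {b | ∃ a ∈ (c p).1, b = a.1})
      ((F.finite_toSet.image _).union (hS.biUnion fun p _ => by
        obtain ⟨_ | a, K⟩ := c p
        · simp
        · simp)) (by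
      rintro _ (⟨a, ha, rfl⟩ | h)
      · exact hF a ha
      · obtain ⟨p, hp, a, ha, rfl⟩ := mem_iUnion₂.1 h
        exact c2 p hp a ha)
    have hz : z ∈ {z : Z | (∀ a ∈ z.2.1, a.1 < β) ∧ ∀ c ∈ z.2.2, lt c β} :=
      ⟨fun a ha => b2 _ (Or.inl ⟨a, ha, rfl⟩), fun d hd => by
        obtain ⟨p, hp, rfl⟩ := Finset.mem_image.1 hd
        exact fun a ha => b2 _ (Or.inr (mem_biUnion (hS.mem_toFinset.1 hp) ⟨a, ha, rfl⟩))⟩
    have m : ∀ p ∈ S, c p ∈ z.2.2 := fun p hp => Finset.mem_image_of_mem c (hS.mem_toFinset.2 hp)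
    have l : ∀ p ∈ S, lt (r z (c p)) α := fun p hp a ha => ((hρ _ a ha).trans
      (hγ β _ (Or.inr (mem_biUnion hz (Or.inr ⟨c p, m p hp, rfl⟩))))).trans (h3 β b1)
    refine ⟨fun p => V f α (r z (c p)), fun p hp => ?_, z.2.2.image (r z), ?_, ?_⟩
    · have e := (c1 p hp).symm.trans (V_eq f (c2 p hp))
      have := r1 z _ (m p hp) (e ▸ (hP hp).2)
      rw [← V_eq f (l p hp), ← e] at this
      exact ⟨⟨⟨_, rfl⟩, this.1⟩, this.2⟩
    · rw [hR, ← h1]
      refine ⟨i (z.1, z.2.1, z.2.2.image (r z)), ⟨?_, (hγ β _ (Or.inr (mem_biUnion hz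
        (Or.inl rfl)))).trans (h3 β b1)⟩, hi _⟩
      rw [mem_preimage, hi]
      obtain ⟨h, a, b⟩ := r2 z
      refine ⟨h, a, fun y hy => b y (hy.imp id fun ⟨d, hd, hy⟩ => ?_)⟩
      obtain ⟨d, hd', rfl⟩ := Finset.mem_image.1 hd
      exact ⟨d, hd', hy⟩
    · exact iUnion₂_subset fun p hp => subset_iUnion₂_of_subset (r z (c p))
        (Finset.mem_image_of_mem _ (m p hp)) Subset.rfl
  have : ∀ n, ∃ h ∈ A, ∀ y : X, (y ∈ F n ∨ pt f y ∈ U n) → |h.1 y - g.1 y| < 1 / ((n : ℝ) + 1) :=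
    fun n => by
      obtain ⟨S, s1, s2⟩ := u1 n
      rw [hR, ← h1] at s1
      obtain ⟨j, ⟨j1, -⟩, j2⟩ := s1
      rw [mem_preimage, j2] at j1
      obtain ⟨h, a, b⟩ := j1
      refine ⟨h, a, fun y hy => b y (hy.imp id fun hy => ?_)⟩
      obtain ⟨c, hc, hy⟩ := mem_iUnion₂.1 (s2 hy)
      exact ⟨c, hc, hy.2⟩
  choose h a b using this
  refine ⟨h, a, tendsto_subtype_rng.2 (tendsto_pi_nhds.2 fun y => ?_)⟩
  have ev : ∀ᶠ n in atTop, y ∈ F n ∨ pt f y ∈ U n := by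
    rcases lt_trichotomy y.1 α with c | c | c
    · exact (u2 y c).mono fun n => Or.inl
    · filter_upwards [eventually_ge_atTop y.2] with n hn
      exact Or.inr (u3 _ n hn (c ▸ pt_mem H y))
    · obtain ⟨j, hj⟩ := mem_iUnion.1 (((H y.1).2.2.2.1 (α, 0) c y.2).2.2 (pt_mem H y))
      rw [V_top f (a := (α, j)) c] at hj
      filter_upwards [eventually_ge_atTop j] with n hn
      exact Or.inr (u3 _ n hn hj)
  rw [tendsto_iff_norm_sub_tendsto_zero]
  exact squeeze_zero' (Eventually.of_forall fun _ => norm_nonneg _)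
    (ev.mono fun n hn => (b n y hn).le) tendsto_one_div_add_atTop_nhds_zero_nat

omit H in
theorem main (h : Diamond) : ∃ (X : Type) (_ : TopologicalSpace X), Uncountable X ∧
    FirstCountableTopology X ∧ T3Space X ∧ Submetrizable X ∧ FrechetUrysohnSpace (Qp X) := by
  obtain ⟨D, hD⟩ := h
  obtain ⟨e, he⟩ : ∃ e : W → Z, Surjective e := by
    have : #Z ≤ #W := by
      have h1 : #X = ℵ_ 1 := by simp [mk_W]
      have h2 : #Cd ≤ ℵ_ 1 := by
        rw [mk_prod, mk_option, h1, lift_id, lift_id]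
        exact (mul_le_mul' le_rfl mk_le_aleph0).trans (by simp)
      have : Infinite Cd := Infinite.of_injective (fun a : X => ((some a, ⊤) : Cd))
        fun a b h => by simpa using h
      rw [mk_prod, mk_prod, mk_finset_of_infinite, mk_finset_of_infinite, h1, mk_W]
      simp only [lift_id, mk_nat]
      exact (mul_le_mul' le_rfl (mul_le_mul' le_rfl h2)).trans (by simp)
    obtain ⟨f⟩ := (Cardinal.le_def _ _).1 this
    have : Nonempty Z := ⟨(0, ∅, ∅)⟩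
    exact ⟨_, Function.invFun_surjective f.injective⟩
  obtain ⟨f, H⟩ := build fun α => e '' D α
  have : T2Space (Sp f) := T2Space.of_injective_continuous (inj H) cont
  have : RegularSpace (Sp f) := RegularSpace.of_exists_mem_nhds_isClosed_subset fun x s hs => by
    obtain ⟨K, k1, k2⟩ := (basis H x).mem_iff.1 hs
    exact ⟨_, (basis H x).mem_of_mem k1,
      (((H _).1 x.2).1.closed.inter K.isClopen.1).preimage cont, k2⟩
  refine ⟨Sp f, inferInstance, inferInstanceAs (Uncountable (W × ℕ)),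
    ⟨fun x => (basis H x).isCountablyGenerated⟩, inferInstance,
    ⟨induced (pt f) inferInstance, continuous_iff_le_induced.1 cont, ?_⟩, fu H hD he fun _ => rfl⟩
  letI : TopologicalSpace X := induced (pt f) inferInstance
  exact (IsEmbedding.mk (f := pt f) ⟨rfl⟩ (inj H)).metrizableSpace

end Pool.Agent.H95.Qp3
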