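import Mathlib

set_option autoImplicit false

open Set Cardinal

namespace Pool.Agent.H95.QpDefs

/-- the well order `ω₁` of the countable ordinals -/
abbrev W : Type := (ℵ_ 1 : Cardinal.{0}).ord.ToType

/-- Jensen's diamond principle -/
def Diamond : Prop :=
  ∃ A : W → Set W, ∀ X : Set W, IsStationary {α | X ∩ Iio α = A α}

/-- some coarser topology is metrizable -/
def Submetrizable (X : Type) [t : TopologicalSpace X] : Prop :=
  ∃ s : TopologicalSpace X, t ≤ s ∧ @TopologicalSpace.MetrizableSpace X s

/-- quasicontinuous real functions -/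
def Quasicont {X : Type} [TopologicalSpace X] (f : X → ℝ) : Prop :=
  ∀ x U, IsOpen U → x ∈ U → ∀ ε > 0, ∃ V, IsOpen V ∧ V.Nonempty ∧ V ⊆ U ∧
    ∀ y ∈ V, |f y - f x| < ε

/-- quasicontinuous functions with the topology of pointwise convergence -/
abbrev Qp (X : Type) [TopologicalSpace X] : Type := {f : X → ℝ // Quasicont f}

end Pool.Agent.H95.QpDefs
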