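import Pool.Agent.H95.RaceDefs

namespace Pool.Agent.H95.Race
open MeasureTheory ProbabilityTheory Set Filter Topology

instance (p : ℝ) : IsProbabilityMeasure (seq p) := by unfold seq; infer_instance
def G (T : List Bool) (n : ℕ) : Set (ℕ → Bool) := {x | (n : ℕ∞) < tau T x}
theorem mG {T n x} : x ∈ G T n ↔ ∀ m ≤ n, ¬Occ T x m := by
  simp only [G, mem_setOf, tau, ← ENat.add_one_le_iff (ENat.coe_ne_top n), le_iInf₂_iff]
  exact forall_congr' fun m => by norm_cast; rw [← not_imp_not]; simp [Nat.lt_succ_iff]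
theorem ii (p : ℝ) : iIndepFun (fun i (x : ℕ → Bool) => x i) (seq p) :=
  iIndepFun_infinitePi (X := fun _ b => b) fun _ => measurable_id
theorem dep {E : Set (ℕ → Bool)} {S : Finset ℕ} (h : ∀ x y, (∀ i ∈ S, x i = y i) → x ∈ E → y ∈ E) :
    ∃ A, E = (fun x (i : S) => x i) ⁻¹' A :=
  ⟨_, Subset.antisymm (subset_preimage_image _ _) fun y ⟨x, hx, e⟩ => h x y (fun i hi => congrFun e ⟨i, hi⟩) hx⟩
theorem dG (T n) : ∃ A, G T n = (fun x (i : Finset.range n) => x i) ⁻¹' A := dep fun x y h a =>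
  mG.2 fun m hm ⟨j, e, k⟩ => mG.1 a m hm ⟨j, e, fun i => (h _ (Finset.mem_range.2 (by omega))).trans (k i)⟩
theorem msG (T n) : MeasurableSet (G T n) := by
  obtain ⟨A, e⟩ := dG T n; rw [e]; exact (by fun_prop : Measurable _) (.of_discrete)
theorem Gs (T n) : G T (n + 1) ⊆ G T n := fun _ h => mG.2 fun m hm => mG.1 h m (by omega)
noncomputable def g (p : ℝ) (T : List Bool) (n : ℕ) : ℝ := (seq p).real (G T n)
theorem g1 (p : ℝ) {T : List Bool} {n} (h : n < T.length) : g p T n = 1 := by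
  rw [g, eq_univ_of_forall fun x => mG.2 fun m hm ⟨j, e, _⟩ => by omega, probReal_univ]
theorem gd (p T n) : (seq p).real (G T n \ G T (n + 1)) = g p T n - g p T (n + 1) :=
  measureReal_diff (Gs T n) (msG _ _)

theorem rn {p : ℝ} (hp : p ∈ Icc (0 : ℝ) 1) {T : List Bool} {k : ℕ} (hk : T.length = k + 1) (n : ℕ)
    (h : ∀ x m, n < m → m ≤ n + k → Occ T x (n + k + 1) → ¬Occ T x m) :
    g p T (n + k + 1) = g p T (n + k) - g p T n * ∏ i : Fin T.length, if T[i] then p else 1 - p := by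
  have e : {x | Occ T x (n + k + 1)} = ⋂ i : Fin T.length, (fun x : ℕ → Bool => x (n + i)) ⁻¹' {T[i]} := by
    ext x; simp only [mem_setOf, mem_iInter, mem_preimage, mem_singleton_iff]
    exact ⟨fun ⟨j, a, b⟩ => (show j = n by omega) ▸ b, fun b => ⟨n, by omega, b⟩⟩
  obtain ⟨A, hA⟩ := dG T n
  obtain ⟨B, hB⟩ := dep (E := {x | Occ T x (n + k + 1)}) (S := Finset.Ico n (n + k + 1)) fun x y h ⟨j, a, b⟩ =>
    ⟨j, a, fun i => (h _ (Finset.mem_Ico.2 (by omega))).symm.trans (b i)⟩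
  have i := (((ii p).indepFun_finset (Finset.range n) (Finset.Ico n (n + k + 1)) (Finset.disjoint_left.2 fun a h1 h2 => by
    simp at h1 h2; omega) fun _ => measurable_pi_apply _).measure_inter_preimage_eq_mul A B .of_discrete .of_discrete)
  rw [← hA, ← hB, show G T n ∩ {x | Occ T x (n + k + 1)} = G T (n + k) \ G T (n + k + 1) by
    ext x; simp only [mem_inter_iff, mem_diff, mG, mem_setOf]
    refine ⟨fun ⟨a, b⟩ => ⟨fun m hm => ?_, fun c => c _ le_rfl b⟩, fun ⟨a, b⟩ => ⟨fun m hm => a m (by omega), ?_⟩⟩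
    · rcases le_or_gt m n with l | l
      exacts [a m l, h x m l hm b]
    · by_contra c; refine b fun m hm => ?_
      rcases hm.eq_or_lt with rfl | l
      exacts [c, a m (by omega)], e, ((ii p).precomp (g := fun i : Fin T.length => n + i) fun a b h =>
        Fin.ext (by simpa using h)).meas_iInter fun i => ⟨_, .of_discrete, rfl⟩] at i
  have := congrArg ENNReal.toReal i
  rw [ENNReal.toReal_mul, ENNReal.toReal_prod, ← measureReal_def, ← measureReal_def, gd, ← g] at this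
  rw [← Finset.prod_congr rfl (g := fun i : Fin T.length => if T[i] then p else 1 - p) fun i _ => ?_]
  · linarith
  · rw [show seq p _ = _ from (measurePreserving_eval_infinitePi _ (n + i)).measure_preimage
      (MeasurableSet.of_discrete (s := {T[i]})).nullMeasurableSet]
    cases T[i] <;> simp [projIcc_of_mem _ hp]

theorem step (p : ℝ) (T₁ T₂ : List Bool) (n : ℕ) (R : ℕ∞ → ℕ∞ → Prop) (B : Set (ℕ → Bool))
    (h : ∀ y, R (n + 1) (tau T₂ y) ↔ y ∈ B) :
    ((seq p).prod (seq p)).real ({z | R (tau T₁ z.1) (tau T₂ z.2)} ∩ G T₁ n ×ˢ univ) =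
      ((seq p).prod (seq p)).real ({z | R (tau T₁ z.1) (tau T₂ z.2)} ∩ G T₁ (n + 1) ×ˢ univ) +
        (g p T₁ n - g p T₁ (n + 1)) * (seq p).real B := by
  rw [← measureReal_inter_add_diff ((msG T₁ (n + 1)).prod .univ), ← gd, ← measureReal_prod_prod, inter_assoc,
    inter_eq_right.2 (prod_mono (Gs _ _) subset_rfl)]
  congr 2
  ext ⟨x, y⟩
  simp only [mem_diff, mem_inter_iff, mem_prod, mem_univ, and_true, G, mem_setOf, ← h, not_lt, Nat.cast_add, Nat.cast_one,
    ← ENat.add_one_le_iff (ENat.coe_ne_top n)]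
  constructor
  · rintro ⟨⟨a, b⟩, c⟩; exact ⟨⟨b, c⟩, by rwa [c.antisymm b] at a⟩
  · rintro ⟨⟨b, c⟩, a⟩; exact ⟨⟨by rwa [c.antisymm b], b⟩, c⟩

theorem form {p : ℝ} (hp : p ∈ Ioo (0 : ℝ) 1) {x : ℝ} (hx : x = p * (1 - p)) :
    (1 + x - 5 * x ^ 2 + 5 * x ^ 3 + x ^ 7) * (2 * W [true, false] [false, false, true, true] p) =
      2 - 3 * x ^ 2 + 6 * x ^ 3 + x ^ 7 := by
  set a := g p [true, false]; set b := g p [false, false, true, true]
  have ha : ∀ n, a (n + 2) = a (n + 1) - a n * x := fun n => by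
    rw [hx]; convert rn (Ioo_subset_Icc_self hp) (T := [true, false]) (k := 1) rfl n ?_ using 3
    · simp [Fin.prod_univ_succ]
    · rintro x m h1 h2 ⟨j, a, b⟩ ⟨l, c, d⟩
      obtain rfl : j = l + 1 := by simp at a c; omega
      simpa using (b 0).symm.trans (d 1)
  have hb : ∀ n, b (n + 4) = b (n + 3) - b n * x ^ 2 := fun n => by
    rw [hx]; convert rn (Ioo_subset_Icc_self hp) (T := [false, false, true, true]) (k := 3) rfl n ?_ using 3
    · simp [Fin.prod_univ_succ]; ring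
    · rintro x m h1 h2 ⟨j, a, b⟩ ⟨l, c, d⟩
      obtain rfl | rfl | rfl : j = l + 1 ∨ j = l + 2 ∨ j = l + 3 := by simp at a c; omega
      exacts [by simpa using (b 1).symm.trans (d 2), by simpa using (b 0).symm.trans (d 2),
        by simpa using (b 0).symm.trans (d 3)]
  have x0 : 0 < x := hx ▸ mul_pos hp.1 (sub_pos.2 hp.2)
  have a0 : ∀ n, 0 ≤ a n := fun _ => measureReal_nonneg
  have ta : Tendsto a atTop (𝓝 0) := (summable_of_sum_range_le (c := a 1 / x) a0 fun n => by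
    have : ∀ n, (∑ i ∈ Finset.range n, a i) * x = a 1 - a (n + 1) := fun n => by
      induction n with
      | zero => simp
      | succ n ih => rw [Finset.sum_range_succ, add_mul, ih, ha]; ring
    rw [le_div_iff₀ x0, this]; linarith [a0 (n + 1)]).tendsto_atTop_zero
  have tab : ∀ i j, Tendsto (fun n => a (n + i) * b (n + j)) atTop (𝓝 0) := fun i j =>
    squeeze_zero (fun _ => mul_nonneg (a0 _) measureReal_nonneg)
      (fun _ => mul_le_of_le_one_right (a0 _) measureReal_le_one) ((tendsto_add_atTop_iff_nat i).2 ta)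
  let u : (ℕ∞ → ℕ∞ → Prop) → ℕ → ℝ := fun R n => ((seq p).prod (seq p)).real
    ({z | R (tau [true, false] z.1) (tau [false, false, true, true] z.2)} ∩ G [true, false] n ×ˢ univ)
  have tu : ∀ R, Tendsto (u R) atTop (𝓝 0) := fun R => squeeze_zero (fun _ => measureReal_nonneg)
    (fun n => (measureReal_mono inter_subset_right).trans_eq (by rw [measureReal_prod_prod, probReal_univ, mul_one]; rfl)) ta
  let H : ℕ → ℝ := fun n => (1 + x - 5 * x ^ 2 + 5 * x ^ 3 + x ^ 7) * (2 * (u (· < ·) n + 1 / 2 * u (· = ·) n)) -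
    ((1 + x - 5 * x ^ 2 + 7 * x ^ 3 - x ^ 4 - x ^ 6 + x ^ 7) * (a (n + 0) * b (n + 0)) +
    (1 + 2 * x - 4 * x ^ 2 + 2 * x ^ 3 + 2 * x ^ 4) * (a (n + 0) * b (n + 1)) +
    (x + x ^ 2 - 3 * x ^ 3 + x ^ 5) * (a (n + 0) * b (n + 2)) + (-2 * x + x ^ 3 - x ^ 4 - x ^ 5) * (a (n + 0) * b (n + 3)) +
    (-1 - x + 3 * x ^ 2 - 2 * x ^ 3 + x ^ 6) * (a (n + 1) * b (n + 0)) +
    (-1 - x + 3 * x ^ 2 - x ^ 4) * (a (n + 1) * b (n + 1)) + (x - x ^ 2 + 2 * x ^ 3 + x ^ 4) * (a (n + 1) * b (n + 2)) +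
    (2 - x - x ^ 3) * (a (n + 1) * b (n + 3)))
  have tH : Tendsto H atTop (𝓝 _) := ((((tu _).add ((tu _).const_mul _)).const_mul _).const_mul _).sub
    (((((((((tab 0 0).const_mul _).add ((tab 0 1).const_mul _)).add ((tab 0 2).const_mul _)).add
      ((tab 0 3).const_mul _)).add ((tab 1 0).const_mul _)).add ((tab 1 1).const_mul _)).add
      ((tab 1 2).const_mul _)).add ((tab 1 3).const_mul _))
  have cH : ∀ n, H n = H 0 := fun n => by
    induction n with
    | zero => rfl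
    | succ n ih =>
      have e1 : u (· < ·) n = u (· < ·) (n + 1) + (a n - a (n + 1)) * b (n + 1) :=
        step p _ _ n (· < ·) (G _ (n + 1)) fun _ => by simp [G]
      have e2 : u (· = ·) n = u (· = ·) (n + 1) + _ := step p _ _ n (· = ·)
          (G [false, false, true, true] n \ G [false, false, true, true] (n + 1)) fun _ => by
        simp only [G, mem_diff, mem_setOf, not_lt, ← ENat.add_one_le_iff (ENat.coe_ne_top n), Nat.cast_add, Nat.cast_one,
          le_antisymm_iff]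
      rw [gd] at e2
      rw [← ih]; simp only [H, e1, e2, add_assoc, Nat.reduceAdd, add_zero, ha, hb]; ring
  have := tendsto_nhds_unique tH (tendsto_const_nhds.congr fun n => (cH n).symm)
  have u0 : G [true, false] 0 = univ := eq_univ_of_forall fun x => mG.2 fun m hm ⟨j, e, _⟩ => by simp at e; omega
  simp only [H, u, u0, univ_prod_univ, inter_univ, zero_add, a, b, g1 p (T := [true, false]) (n := 0) (by simp),
    g1 p (T := [true, false]) (n := 1) (by simp), g1 p (T := [false, false, true, true]) (n := 0) (by simp),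
    g1 p (T := [false, false, true, true]) (n := 1) (by simp), g1 p (T := [false, false, true, true]) (n := 2) (by simp),
    g1 p (T := [false, false, true, true]) (n := 3) (by simp)] at this
  rw [W]; linarith

theorem main : ∃ T₁ T₂ : List Bool, T₁ ≠ [] ∧ T₂ ≠ [] ∧ (∃ p ∈ Ioo (0 : ℝ) 1, ∃ q ∈ Ioo (0 : ℝ) 1, W T₁ T₂ p ≠ W T₁ T₂ q) ∧
    ∃ p ∈ Ioo (0 : ℝ) 1, ∃ q ∈ Ioo (0 : ℝ) 1, p ≠ q ∧ IsLocalExtr (W T₁ T₂) p ∧ IsLocalExtr (W T₁ T₂) q := by
  set w := W [true, false] [false, false, true, true]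
  have D : ∀ p ∈ Ioo (0 : ℝ) 1, ∀ x, x = p * (1 - p) → 0 < 1 + x - 5 * x ^ 2 + 5 * x ^ 3 + x ^ 7 := fun p hp x hx => by
    have x0 : 0 < x := hx ▸ mul_pos hp.1 (sub_pos.2 hp.2)
    have : x ≤ 1 / 4 := by nlinarith [sq_nonneg (p - 1 / 2)]
    nlinarith [pow_pos x0 3, pow_pos x0 7]
  have e : ∀ p ∈ Ioo (0 : ℝ) 1, w p = (2 - 3 * (p * (1 - p)) ^ 2 + 6 * (p * (1 - p)) ^ 3 + (p * (1 - p)) ^ 7) /
      (1 + p * (1 - p) - 5 * (p * (1 - p)) ^ 2 + 5 * (p * (1 - p)) ^ 3 + (p * (1 - p)) ^ 7) / 2 := fun p hp => by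
    rw [← form hp rfl, mul_div_cancel_left₀ _ (D p hp _ rfl).ne']; ring
  have c : ContinuousOn w (Ioo 0 1) := (ContinuousOn.div_const (ContinuousOn.div (by fun_prop) (by fun_prop)
    fun p hp => (D p hp _ rfl).ne') 2).congr e
  have k : ∀ r s t, 0 < r → r < s → s < t → t < 1 → w s < w r → w s < w t → ∃ p ∈ Ioo r t, IsLocalExtr w p :=
    fun r s t h1 h2 h3 h4 h5 h6 => by
      obtain ⟨p, hp, m⟩ := isCompact_Icc.exists_isMinOn (nonempty_Icc.2 (h2.trans h3).le) (c.mono (Icc_subset_Ioo h1 h4))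
      have := m ⟨h2.le, h3.le⟩
      have i : p ∈ Ioo r t := ⟨hp.1.lt_of_ne (by rintro rfl; exact h5.not_ge this),
        hp.2.lt_of_ne (by rintro rfl; exact h6.not_ge this)⟩
      exact ⟨p, i, Or.inl (m.isLocalMin (Icc_mem_nhds i.1 i.2))⟩
  have v : w (1 / 5) < w (1 / 10) ∧ w (1 / 5) < w (1 / 2) ∧ w (4 / 5) < w (1 / 2) ∧ w (4 / 5) < w (9 / 10) := by
    rw [e (1 / 5), e (1 / 10), e (1 / 2), e (4 / 5), e (9 / 10)] <;> norm_num
  obtain ⟨p, hp, h1⟩ := k _ _ _ (by norm_num) (by norm_num) (by norm_num) (by norm_num) v.1 v.2.1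
  obtain ⟨q, hq, h2⟩ := k _ _ _ (by norm_num) (by norm_num) (by norm_num) (by norm_num) v.2.2.1 v.2.2.2
  exact ⟨_, _, by simp, by simp, ⟨_, by norm_num, _, by norm_num, v.1.ne⟩, p, ⟨by linarith [hp.1], by linarith [hp.2]⟩,
    q, ⟨by linarith [hq.1], by linarith [hq.2]⟩, (hp.2.trans hq.1).ne, h1, h2⟩

end Pool.Agent.H95.Race
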