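import Mathlib

namespace Pool.Agent.H95.Race
open MeasureTheory ProbabilityTheory

/-- the pattern T occupies the last places among the first n tosses x 0, ..., x (n-1) -/
def Occ (T : List Bool) (x : ℕ → Bool) (n : ℕ) : Prop := ∃ j, n = j + T.length ∧ ∀ i : Fin T.length, x (j + i) = T[i]

/-- the first such n -/
noncomputable def tau (T : List Bool) (x : ℕ → Bool) : ℕ∞ := ⨅ n, ⨅ _ : Occ T x n, (n : ℕ∞)

/-- i.i.d. tosses, heads = true with probability p -/
noncomputable def seq (p : ℝ) : Measure (ℕ → Bool) :=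
  Measure.infinitePi fun _ => bernoulliMeasure true false (Set.projIcc 0 1 zero_le_one p)

noncomputable def W (T₁ T₂ : List Bool) (p : ℝ) : ℝ :=
  ((seq p).prod (seq p)).real {z | tau T₁ z.1 < tau T₂ z.2} +
    1 / 2 * ((seq p).prod (seq p)).real {z | tau T₁ z.1 = tau T₂ z.2}

end Pool.Agent.H95.Race
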