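import Pool.Agent.H95.RcDefs

set_option autoImplicit false

open List

namespace Pool.Agent.H95.Rc1

open Pool.Agent.H95.RcDefs

section
variable {Q R A B C : Type} {δ : Q → Option A → Option B → Q → Prop}
  {ε : R → Option B → Option C → R → Prop}

theorem trans {p q r : Q} {u u' : List A} {v v' : List B} (h : Run δ p u v q)
    (k : Run δ q u' v' r) : Run δ p (u ++ u') (v ++ v') r := by
  induction h with
  | nil => exact k
  | cons a _ ih => rw [append_assoc, append_assoc]; exact .cons a (ih k)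

theorem one {p q : Q} {a : Option A} {b : Option B} (h : δ p a b q) :
    Run δ p a.toList b.toList q := by simpa using Run.cons h (.nil q)

theorem pow {r : Q} {y : List A} {d : ℕ} {x : B} (h : Run δ r y (replicate d x) r) (s : ℕ) :
    Run δ r (replicate s y).flatten (replicate (s * d) x) r := by
  induction s with
  | zero => simpa using Run.nil r
  | succ s ih =>
    have := trans h ih
    rwa [← replicate_add, ← flatten_cons, ← replicate_succ, add_comm d, ← add_one_mul] at this

theorem split {p q : Q} {u : List A} {v : List B} (h : Run δ p u v q) :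
    ∀ v1 v2, v = v1 ++ v2 → ∃ u1 u2 r, u = u1 ++ u2 ∧ Run δ p u1 v1 r ∧ Run δ r u2 v2 q := by
  induction h with
  | nil q =>
    intro v1 v2 e
    obtain ⟨rfl, rfl⟩ := append_eq_nil_iff.1 e.symm
    exact ⟨[], [], q, rfl, .nil q, .nil q⟩
  | @cons p q r a b u v h1 h2 ih =>
    intro v1 v2 e
    cases v1 with
    | nil => exact ⟨[], _, p, rfl, .nil p, (show b.toList ++ v = v2 from e) ▸ .cons h1 h2⟩
    | cons x v1 =>
      cases b with
      | none =>
        obtain ⟨u1, u2, s, rfl, k1, k2⟩ := ih _ _ e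
        exact ⟨a.toList ++ u1, u2, s, by simp, .cons h1 k1, k2⟩
      | some y =>
        obtain ⟨rfl, e'⟩ := cons_eq_cons.1 e
        obtain ⟨u1, u2, s, rfl, k1, k2⟩ := ih v1 v2 e'
        exact ⟨a.toList ++ u1, u2, s, by simp, .cons h1 k1, k2⟩

def cp (δ : Q → Option A → Option B → Q → Prop) (ε : R → Option B → Option C → R → Prop)
    (p : Q × R) (a : Option A) (c : Option C) (q : Q × R) : Prop :=
  (δ p.1 a none q.1 ∧ c = none ∧ q.2 = p.2) ∨ (a = none ∧ q.1 = p.1 ∧ ε p.2 none c q.2) ∨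
    ∃ b, δ p.1 a (some b) q.1 ∧ ε p.2 (some b) c q.2

theorem cp1 {p q : Q × R} {u : List A} {w : List C} (h : Run (cp δ ε) p u w q) :
    ∃ v, Run δ p.1 u v q.1 ∧ Run ε p.2 v w q.2 := by
  induction h with
  | nil q => exact ⟨[], .nil _, .nil _⟩
  | cons h _ ih =>
    obtain ⟨v, a, b⟩ := ih
    rcases h with ⟨h, rfl, e⟩ | ⟨rfl, e, h⟩ | ⟨x, h, k⟩
    · exact ⟨v, .cons h a, e ▸ b⟩
    · exact ⟨v, e ▸ a, .cons h b⟩
    · exact ⟨_, .cons h a, .cons k b⟩

theorem cp2 {p q : Q} {u : List A} {v : List B} (h : Run δ p u v q) :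
    ∀ {p' q' : R} {w : List C}, Run ε p' v w q' → Run (cp δ ε) (p, p') u w (q, q') := by
  induction h with
  | nil q =>
    intro p' q' w k
    generalize e : ([] : List B) = v at k
    induction k with
    | nil => exact .nil _
    | @cons _ p2 _ a _ _ _ k _ ih =>
      obtain ⟨e1, e2⟩ := append_eq_nil_iff.1 e.symm
      obtain rfl : a = none := by simpa using e1
      exact .cons (a := none) (q := (q, p2)) (Or.inr (Or.inl ⟨rfl, rfl, k⟩)) (ih e2.symm)
  | @cons p q r a b u v h _ ih =>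
    intro p' q' w k
    cases b with
    | none => exact .cons (b := none) (q := (q, p')) (Or.inl ⟨h, rfl, rfl⟩) (ih k)
    | some x =>
      generalize e : (some x).toList ++ v = v' at k
      induction k with
      | nil => simp at e
      | @cons _ p2 _ c _ _ _ k k' ih' =>
        cases c with
        | none => exact .cons (a := none) (q := (p, p2)) (Or.inr (Or.inl ⟨rfl, rfl, k⟩)) (ih' e)
        | some y =>
          obtain ⟨rfl, rfl⟩ := cons_eq_cons.1 e
          exact .cons (q := (q, p2)) (Or.inr (Or.inr ⟨x, h, k⟩)) (ih k')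

theorem Img.trans {L : Language A} {M : Language B} {N : Language C} (h : Img L M) (k : Img M N) :
    Img L N := by
  obtain ⟨Q, _, δ, I, F, h⟩ := h
  obtain ⟨R, _, ε, J, G, k⟩ := k
  refine ⟨Q × R, inferInstance, cp δ ε, I ×ˢ J, F ×ˢ G, fun w => (k w).trans ⟨?_, ?_⟩⟩
  · rintro ⟨v, hv, p', a, q', b, c⟩
    obtain ⟨u, hu, p, d, q, e, f⟩ := (h v).1 hv
    exact ⟨u, hu, (p, p'), ⟨d, a⟩, (q, q'), ⟨e, b⟩, cp2 f c⟩
  · rintro ⟨u, hu, p, a, q, b, c⟩
    obtain ⟨v, d, e⟩ := cp1 c
    exact ⟨v, (h v).2 ⟨u, hu, _, a.1, _, b.1, d⟩, _, a.2, _, b.2, e⟩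

theorem Img.refl (L : Language A) : Img L L := by
  refine ⟨Unit, inferInstance, fun _ a b _ => a = b, Set.univ, Set.univ, fun v => ⟨fun h =>
    ⟨v, h, (), trivial, (), trivial, ?_⟩, ?_⟩⟩
  · clear h
    induction v with
    | nil => exact .nil _
    | cons x v ih => exact .cons (a := some x) (b := some x) rfl ih
  · rintro ⟨u, hu, p, -, q, -, h⟩
    obtain rfl : u = v := by
      clear hu
      induction h with
      | nil => rfl
      | cons h _ ih => rw [h, ih]
    exact hu

theorem pump [Finite Q] [Finite A] : ∃ K, ∀ {p q : Q} {u : List A} {x : B},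
    Run δ p u (replicate K x) q → ∃ u1 y u2 r m1 d m2, u = u1 ++ y ++ u2 ∧ K = m1 + d + m2 ∧
      0 < d ∧ Run δ p u1 (replicate m1 x) r ∧ Run δ r y (replicate d x) r ∧
      Run δ r u2 (replicate m2 x) q ∧ u1.getLast? = (u1 ++ y).getLast? := by
  have := Fintype.ofFinite (Q × Option A)
  refine ⟨Fintype.card (Q × Option A), fun {p q u x} h => ?_⟩
  have key : ∀ m p u, Run δ p u (replicate m x) q → ∃ (r : ℕ → Q) (y : ℕ → List A) (z : List A),
      r 0 = p ∧ (∀ t < m, Run δ (r t) (y t) [x] (r (t + 1))) ∧ Run δ (r m) z [] q ∧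
      u = (range' 0 m).flatMap y ++ z := fun m => by
    induction m with
    | zero => exact fun p u h => ⟨fun _ => p, fun _ => [], u, rfl, by simp, h, by simp⟩
    | succ m ih =>
      intro p u h
      obtain ⟨u1, u2, s, rfl, k1, k2⟩ := split h [x] _ rfl
      obtain ⟨r, y, z, rfl, a, b, rfl⟩ := ih s u2 k2
      refine ⟨fun t => Nat.casesOn t p r, fun t => Nat.casesOn t u1 y, z, rfl, ?_, b, ?_⟩
      · rintro (_ | t) ht
        · exact k1
        · exact a t (by omega)
      · simp [range'_eq_map_range, flatMap_map, range_succ_eq_map]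
  obtain ⟨r, y, z, rfl, a, b, rfl⟩ := key _ p u h
  set K := Fintype.card (Q × Option A) with hK
  have seg : ∀ d s, s + d ≤ K → Run δ (r s) ((range' s d).flatMap y) (replicate d x) (r (s + d)) :=
    fun d => by
      induction d with
      | zero => exact fun s _ => .nil _
      | succ d ih =>
        intro s hs
        have := trans (a s (by omega)) (ih (s + 1) (by omega))
        rwa [show s + 1 + d = s + (d + 1) by omega] at this
  obtain ⟨s, t, h1, h2⟩ : ∃ s t : Fin (K + 1), s < t ∧ (r s, ((range' 0 s).flatMap y).getLast?) =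
      (r t, ((range' 0 t).flatMap y).getLast?) := by
    obtain ⟨s, t, h1, h2⟩ := Fintype.exists_ne_map_eq_of_card_lt
      (fun s : Fin (K + 1) => (r s, ((range' 0 s).flatMap y).getLast?)) (by simp [hK])
    rcases lt_or_gt_of_ne h1 with c | c
    · exact ⟨s, t, c, h2⟩
    · exact ⟨t, s, c, h2.symm⟩
  obtain ⟨s, hs⟩ := s
  obtain ⟨t, ht⟩ := t
  obtain ⟨d, rfl⟩ := Nat.exists_eq_add_of_le (le_of_lt h1 : s ≤ t)
  obtain ⟨m, hm⟩ := Nat.exists_eq_add_of_le (Nat.le_of_lt_succ ht)
  have e : ∀ s d, range' 0 (s + d) = range' 0 s ++ range' s d := fun s d => by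
    rw [← range'_append_1, zero_add]
  have h3 : r s = r (s + d) := congrArg Prod.fst h2
  refine ⟨_, (range' s d).flatMap y, (range' (s + d) m).flatMap y ++ z, r s, s, d, m, ?_, hm,
    by simpa using h1, by simpa using seg s 0 (by omega), ?_, ?_, ?_⟩
  · rw [hm, e (s + d), e s d]; simp only [flatMap_append, append_assoc]
  · have := seg d s (by omega)
    rwa [← h3] at this
  · have := trans (seg m (s + d) hm.ge) (hm ▸ b)
    rwa [← h3, append_nil] at this
  · have := congrArg Prod.snd h2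
    rwa [e, flatMap_append] at this

end

def L3 : Language (Fin 3) :=
  {w | w.Pairwise (· ≤ ·) ∧ ¬ (w.count 0 = w.count 1 ∧ w.count 1 = w.count 2)}

theorem form {w : List (Fin 3)} (h : w.Pairwise (· ≤ ·)) :
    w = replicate (w.count 0) 0 ++ replicate (w.count 1) 1 ++ replicate (w.count 2) 2 := by
  refine Perm.eq_of_pairwise (le := (· ≤ ·)) (fun a b _ _ => le_antisymm) h ?_
    (perm_iff_count.2 fun a => ?_)
  · simp [pairwise_append, pairwise_replicate, mem_replicate]
  · fin_cases a <;> simp [count_replicate]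

theorem mem3 (i j k : ℕ) : replicate i 0 ++ replicate j 1 ++ replicate k 2 ∈ L3 ↔
    ¬ (i = j ∧ j = k) := by
  refine (and_iff_right ?_).trans (by simp [count_replicate])
  simp [pairwise_append, pairwise_replicate, mem_replicate]

theorem loop {x y z : List (Fin 3)} (h : (x ++ y ++ z).Pairwise (· ≤ ·)) {u1 : List (Fin 3)}
    (hx : u1 <:+ x) (e : u1.getLast? = (u1 ++ y).getLast?) : ∃ l n, y = replicate n l ∧
      ∀ s, (x ++ y ++ (replicate s y).flatten ++ z).Pairwise (· ≤ ·) := by
  rcases y.eq_nil_or_concat' with rfl | ⟨y, l, rfl⟩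
  · exact ⟨0, 0, rfl, fun s => by simpa using h⟩
  obtain ⟨x, rfl⟩ := hx
  have m : l ∈ u1 := mem_of_getLast? (by simpa using e)
  simp only [pairwise_append, mem_append, mem_singleton] at h
  have a : ∀ b ∈ y ++ [l], b = l := fun b hb => le_antisymm
    (by rcases mem_append.1 hb with c | c
        · exact h.1.2.1.2.2 b c l rfl
        · exact (mem_singleton.1 c).le)
    (h.1.2.2 l (Or.inr m) b (by simpa using hb))
  refine ⟨l, _, eq_replicate_iff.2 ⟨rfl, a⟩, fun s => ?_⟩
  have c : ∀ b ∈ (replicate s (y ++ [l])).flatten, b = l := fun b hb => by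
    obtain ⟨w, h1, h2⟩ := mem_flatten.1 hb
    exact a b (eq_of_mem_replicate h1 ▸ h2)
  generalize (replicate s (y ++ [l])).flatten = w at c
  simp only [pairwise_append, mem_append, mem_singleton]
  refine ⟨⟨h.1, pairwise_of_forall_mem_list fun b hb d hd => by rw [c b hb, c d hd],
    fun b hb d hd => ?_⟩, h.2.1, fun b hb d hd => ?_⟩
  · rw [c d hd]
    rcases hb with hb | hb
    · exact h.1.2.2 b hb l (Or.inr rfl)
    · exact (a b (by simpa using hb)).le
  · rcases hb with hb | hb
    · exact h.2.2 b hb d hd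
    · rw [c b hb]; exact h.2.2 l (Or.inr (Or.inr rfl)) d hd

theorem not_img : ¬ Img L3 sNe := by
  rintro ⟨Q, _, δ, I, F, h⟩
  obtain ⟨K, hK⟩ := pump (δ := δ)
  obtain ⟨u, hu, p, hp, q, hq, k⟩ := (h _).1 ⟨K, K + K.factorial, by
    have := K.factorial_pos; omega, rfl⟩
  obtain ⟨ua, u', r1, rfl, ka, k⟩ := split k _ _ rfl
  obtain ⟨ub, uc, r2, rfl, kb, kc⟩ := split k _ _ (replicate_add ..)
  obtain ⟨x1, y1, z1, s1, a1, d1, b1, rfl, e1, p1, f1, g1, h1, l1⟩ := hK ka
  obtain ⟨x2, y2, z2, s2, a2, d2, b2, rfl, e2, p2, f2, g2, h2, l2⟩ := hK kb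
  obtain ⟨c, hc⟩ := Nat.dvd_factorial p1 (show d1 ≤ K by omega)
  have hs := hu.1
  obtain ⟨l, n, rfl, -⟩ := loop (x := x1) (y := y1) (z := z1 ++ (x2 ++ y2 ++ z2 ++ uc))
    (by simpa using hs) suffix_rfl l1
  have main : ∀ r, ¬ (x1 ++ replicate n l ++ (replicate (c + d2 * r) (replicate n l)).flatten ++
      z1 ++ (x2 ++ y2 ++ (replicate (d1 * r) y2).flatten ++ z2 ++ uc)) ∈ L3 := fun r hr => by
    obtain ⟨m, n, e, e'⟩ := (h _).2 ⟨_, hr, p, hp, q, hq, trans (trans (trans (trans f1 g1)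
      (pow g1 _)) h1) (trans (trans (trans (trans f2 g2) (pow g2 _)) h2) kc)⟩
    have i0 := congrArg (count 0) e'
    have i1 := congrArg (count 1) e'
    simp [count_replicate] at i0 i1
    apply e
    rw [← i0, ← i1, hc]
    nlinarith
  have srt : ∀ r, (x1 ++ replicate n l ++ (replicate (c + d2 * r) (replicate n l)).flatten ++
      z1 ++ (x2 ++ y2 ++ (replicate (d1 * r) y2).flatten ++ z2 ++ uc)).Pairwise (· ≤ ·) := by
    intro r
    obtain ⟨_, _, -, t⟩ := loop (x := x1) (y := replicate n l)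
      (z := z1 ++ (x2 ++ y2 ++ z2 ++ uc)) (by simpa using hs) suffix_rfl l1
    obtain ⟨_, _, -, t⟩ := loop (x := x1 ++ replicate n l ++ (replicate (c + d2 * r)
      (replicate n l)).flatten ++ z1 ++ x2) (y := y2) (z := z2 ++ uc)
      (by simpa using t (c + d2 * r)) (suffix_append _ _) l2
    simpa using t (d1 * r)
  obtain ⟨l', n', rfl, -⟩ := loop (x := x1 ++ replicate n l ++ z1 ++ x2) (y := y2) (z := z2 ++ uc)
    (by simpa using hs) (suffix_append _ _) l2
  have m0 := not_not.1 (not_and.1 (main 0) (srt 0))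
  have m1 := not_not.1 (not_and.1 (main 1) (srt 1))
  have hu := hu.2
  simp only [count_append, flatten_replicate_replicate, count_replicate, mul_zero, mul_one,
    add_zero, zero_mul, add_mul] at m0 m1 hu
  have q1 : n ≤ d2 * n := Nat.le_mul_of_pos_left _ p2
  have q2 : n = 0 → c * n = 0 := fun e => by simp [e]
  generalize d2 * n = A at *
  generalize c * n = B at *
  generalize d1 * n' = C at *
  fin_cases l <;> fin_cases l' <;> simp at m0 m1 hu <;> omega

def dl : Fin 4 → Option (Fin 2) → Option (Fin 3) → Fin 4 → Prop := fun p a b q =>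
  (p = 0 ∧ q = 0 ∧ ∃ x, a = some x ∧ b = some x.castSucc) ∨ (p = 1 ∧ q = 1 ∧ a = none ∧ b = some 2) ∨
  (p = 2 ∧ q = 2 ∧ a = none ∧ b = some 0) ∨ (p = 3 ∧ q = 3 ∧ ∃ x, a = some x ∧ b = some x.succ) ∨
  (p = 0 ∧ q = 1 ∧ a = none ∧ b = none) ∨ (p = 2 ∧ q = 3 ∧ a = none ∧ b = none)

theorem img3 : Img sNe L3 := by
  refine ⟨Fin 4, inferInstance, dl, {0, 2}, {1, 3}, fun v => ⟨fun hv => ?_, ?_⟩⟩
  · have r0 : ∀ u : List (Fin 2), Run dl 0 u (u.map Fin.castSucc) 0 := fun u => by
      induction u with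
      | nil => exact .nil _
      | cons x u ih => exact .cons (a := some x) (b := some _) (Or.inl ⟨rfl, rfl, x, rfl, rfl⟩) ih
    have r3 : ∀ u : List (Fin 2), Run dl 3 u (u.map Fin.succ) 3 := fun u => by
      induction u with
      | nil => exact .nil _
      | cons x u ih => exact .cons (a := some x) (b := some _) (by simp [dl]) ih
    have r1 : ∀ k, Run dl 1 [] (replicate k 2) 1 := fun k => by
      simpa using pow (d := 1) (one (δ := dl) (p := 1) (a := none) (b := some 2) (by simp [dl])) k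
    have r2 : ∀ k, Run dl 2 [] (replicate k 0) 2 := fun k => by
      simpa using pow (d := 1) (one (δ := dl) (p := 2) (a := none) (b := some 0) (by simp [dl])) k
    rw [form hv.1]
    rcases not_and_or.1 hv.2 with c | c
    · refine ⟨_, ⟨_, _, Ne.symm c, rfl⟩, 0, by simp, 1, by simp, ?_⟩
      have := trans (r0 (replicate (v.count 0) 0 ++ replicate (v.count 1) 1)) (trans
        (one (δ := dl) (a := none) (b := none) (by simp [dl])) (r1 (v.count 2)))
      rw [List.map_append, List.map_replicate, List.map_replicate] at this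
      simpa using this
    · refine ⟨_, ⟨_, _, Ne.symm c, rfl⟩, 2, by simp, 3, by simp, ?_⟩
      have := trans (r2 (v.count 0)) (trans (one (δ := dl) (a := none) (b := none)
        (by simp [dl])) (r3 (replicate (v.count 1) 0 ++ replicate (v.count 2) 1)))
      rw [List.map_append, List.map_replicate, List.map_replicate] at this
      simpa using this
  · rintro ⟨u, ⟨m, n, e, hu⟩, p, hp, q, -, h⟩
    have : (p = 1 → u = [] ∧ ∃ k, v = replicate k 2) ∧
        (p = 0 → ∃ k, v = u.map Fin.castSucc ++ replicate k 2) ∧ (p = 3 → v = u.map Fin.succ) ∧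
        (p = 2 → ∃ k, v = replicate k 0 ++ u.map Fin.succ) := by
      clear hu hp
      induction h with
      | nil => exact ⟨fun _ => ⟨rfl, 0, rfl⟩, fun _ => ⟨0, rfl⟩, fun _ => rfl, fun _ => ⟨0, rfl⟩⟩
      | cons h _ ih =>
        rcases h with ⟨rfl, rfl, x, rfl, rfl⟩ | ⟨rfl, rfl, rfl, rfl⟩ | ⟨rfl, rfl, rfl, rfl⟩ |
          ⟨rfl, rfl, x, rfl, rfl⟩ | ⟨rfl, rfl, rfl, rfl⟩ | ⟨rfl, rfl, rfl, rfl⟩
        · obtain ⟨k, rfl⟩ := ih.2.1 rfl
          exact ⟨by simp, fun _ => ⟨k, rfl⟩, by simp, by simp⟩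
        · obtain ⟨rfl, k, rfl⟩ := ih.1 rfl
          exact ⟨fun _ => ⟨rfl, k + 1, rfl⟩, by simp, by simp, by simp⟩
        · obtain ⟨k, rfl⟩ := ih.2.2.2 rfl
          exact ⟨by simp, by simp, by simp, fun _ => ⟨k + 1, rfl⟩⟩
        · obtain rfl := ih.2.2.1 rfl
          exact ⟨by simp, by simp, fun _ => rfl, by simp⟩
        · obtain ⟨rfl, k, rfl⟩ := ih.1 rfl
          exact ⟨by simp, fun _ => ⟨k, rfl⟩, by simp, by simp⟩
        · obtain rfl := ih.2.2.1 rfl
          exact ⟨by simp, by simp, by simp, fun _ => ⟨0, rfl⟩⟩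
    subst hu
    rcases hp with rfl | rfl
    · obtain ⟨k, rfl⟩ := this.2.1 rfl
      simpa using (mem3 m n k).2 fun h => e h.1.symm
    · obtain ⟨k, rfl⟩ := this.2.2.2 rfl
      simpa using (mem3 k m n).2 fun h => e h.2.symm

theorem main : ∃ L : Language (Fin 3), (∀ w ∈ L, ∃ i j k, w = replicate i 0 ++ replicate j 1 ++
    replicate k 2) ∧ L ∈ T sNe 3 ∧ ¬ L.IsRegular ∧ T L ≠ T sNe := by
  refine ⟨L3, fun w hw => ⟨_, _, _, form hw.1⟩, fun C hC h => hC _ _ _ _ h img3, fun h => ?_,
    fun h => not_img ?_⟩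
  · refine Set.infinite_of_injective_forall_mem (f := fun i => L3.leftQuotient (replicate i 0))
      (fun i j e => ?_) (fun i => Set.mem_range_self _)
      (Language.isRegular_iff_finite_range_leftQuotient.1 h)
    by_contra c
    have : replicate j 1 ++ replicate j 2 ∈ L3.leftQuotient (replicate i 0) := by
      rw [Language.mem_leftQuotient, ← append_assoc, mem3]; exact fun h => c h.1
    dsimp only at e
    rw [e, Language.mem_leftQuotient, ← append_assoc, mem3] at this
    exact this ⟨rfl, rfl⟩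
  · have : sNe ∈ T L3 2 := h ▸ fun C _ h => h
    exact this (fun _ => {M | Img L3 M}) (fun _ _ _ _ a b => Img.trans a b) (Img.refl _)

end Pool.Agent.H95.Rc1
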