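import Mathlib

set_option autoImplicit false

namespace Pool.Agent.H95.RcDefs

/-- `Run δ p u v q`: a path from `p` to `q` that reads `u` and writes `v` -/
inductive Run {Q A B : Type} (δ : Q → Option A → Option B → Q → Prop) :
    Q → List A → List B → Q → Prop
  | nil (q : Q) : Run δ q [] [] q
  | cons {p q r : Q} {a : Option A} {b : Option B} {u : List A} {v : List B} :
      δ p a b q → Run δ q u v r → Run δ p (a.toList ++ u) (b.toList ++ v) r

/-- `M` is the image of `L` under a finite transducer -/
def Img {A B : Type} (L : Language A) (M : Language B) : Prop :=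
  ∃ (Q : Type) (_ : Finite Q) (δ : Q → Option A → Option B → Q → Prop) (I F : Set Q),
    ∀ v, v ∈ M ↔ ∃ u ∈ L, ∃ p ∈ I, ∃ q ∈ F, Run δ p u v q

/-- families of languages over the finite alphabets `Fin n` -/
abbrev Fam : Type := ∀ n : ℕ, Set (Language (Fin n))

/-- rational cones -/
def Cone (C : Fam) : Prop := ∀ n m L M, L ∈ C n → Img L M → M ∈ C m

/-- the least rational cone containing `L` -/
def T {n : ℕ} (L : Language (Fin n)) : Fam := fun m => {M | ∀ C, Cone C → L ∈ C n → M ∈ C m}

/-- the language of the words `a^m b^n` with `n ≠ m` -/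
def sNe : Language (Fin 2) := {w | ∃ m n, n ≠ m ∧ w = List.replicate m 0 ++ List.replicate n 1}

end Pool.Agent.H95.RcDefs
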