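import Pool.Agent.H95.RotDefs

/-! Rotor walks: decomposition into excursions to the subtrees. -/

set_option autoImplicit false

namespace Pool.Agent.H95.Rot

open Filter Function Topology

def sub (b : List ℕ → ℕ) (k : ℕ) : List ℕ → ℕ := fun w => b (k :: w)

def glue (k : ℕ) (ρ η : List ℕ → ℕ) : List ℕ → ℕ
  | [] => ρ []
  | k' :: w => if k' = k then η w else ρ (k' :: w)

def emb (k : ℕ) (ρ : List ℕ → ℕ) (s : Option (List ℕ) × (List ℕ → ℕ)) :
    Option (List ℕ) × (List ℕ → ℕ) :=
  (some (match s.1 with | none => [] | some w => k :: w), glue k ρ s.2)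

lemma step_emb (b ρ : List ℕ → ℕ) (k : ℕ) (s : Option (List ℕ) × (List ℕ → ℕ))
    (hs : s.1 ≠ none) : step b (emb k ρ s) = emb k ρ (step (sub b k) s) := by
  obtain ⟨p, η⟩ := s
  cases p with
  | none => exact absurd rfl hs
  | some w =>
    have h1 : glue k ρ η (k :: w) = η w := by simp [glue]
    simp only [emb, step, h1, sub]
    refine Prod.ext ?_ ?_
    · by_cases h : (η w + 1) % (b (k :: w) + 1) = 0
      · by_cases hw : w = []
        · simp [h, hw]
          subst hw
          simp [h]
        · simp [h, hw, List.dropLast_cons_of_ne_nil hw]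
      · simp [h]
    · funext v
      cases v with
      | nil => simp [glue]
      | cons k' w' =>
        by_cases hk : k' = k
        · subst hk
          by_cases hw : w' = w
          · subst hw; simp [glue]
          · simp [glue, hw]
        · simp [glue, hk]

lemma traj_succ (b r : List ℕ → ℕ) (t : ℕ) : traj b r (t + 1) = step b (traj b r t) :=
  iterate_succ_apply' _ _ _

/-- next rotor direction at the top vertex -/
def dir (b r : List ℕ → ℕ) : ℕ := (r [] + 1) % (b [] + 1)

lemma traj_emb (b r : List ℕ → ℕ) (hc : dir b r ≠ 0) (t : ℕ)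
    (ht : ∀ t' < t, (traj (sub b (dir b r)) (sub r (dir b r)) t').1 ≠ none) :
    traj b r (t + 1) = emb (dir b r) (update r [] (dir b r))
      (traj (sub b (dir b r)) (sub r (dir b r)) t) := by
  induction t with
  | zero =>
    have hc' : ¬ (r [] + 1) % (b [] + 1) = 0 := hc
    simp only [traj, zero_add, iterate_one, step, iterate_zero, id, emb, if_neg hc']
    refine Prod.ext rfl ?_
    funext v
    cases v with
    | nil => simp [glue, dir]
    | cons k w =>
      by_cases hk : k = dir b r
      · simp [glue, hk, sub]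
      · simp [glue, hk]
  | succ t ih =>
    rw [traj_succ, ih fun t' h => ht t' (by omega), step_emb _ _ _ _ (ht t (by omega)),
      ← traj_succ]

lemma traj_const (b r : List ℕ → ℕ) {t0 : ℕ} (h : (traj b r t0).1 = none) (t : ℕ) :
    traj b r (t0 + t) = traj b r t0 := by
  induction t with
  | zero => rfl
  | succ t ih =>
    rw [← add_assoc, traj_succ, ih]
    generalize traj b r t0 = s at h
    obtain ⟨p, η⟩ := s
    simp only at h
    subst h
    rfl

lemma lim_shift (f g : ℕ → ℕ) (d : ℕ) (h : ∀ t, f (t + d) = g t) :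
    limUnder atTop f = limUnder atTop g := by
  have : map g atTop = map f atTop := by
    conv_rhs => rw [← map_add_atTop_eq_nat d, map_map]
    exact congrArg (fun u => map u atTop) (funext fun t => (h t).symm)
  simp only [limUnder, this]

lemma lim_const (f : ℕ → ℕ) (d c : ℕ) (h : ∀ t, f (t + d) = c) : limUnder atTop f = c := by
  rw [lim_shift f (fun _ => c) d h]
  exact tendsto_const_nhds.limUnder_eq

lemma next_ret (b r : List ℕ → ℕ) {t0 : ℕ} (h : (traj b r t0).1 = none) :
    next b r = (traj b r t0).2 :=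
  funext fun v => lim_const _ t0 _ fun t => by rw [add_comm, traj_const b r h]

/-- one excursion from the top vertex -/
noncomputable def mstep (b r : List ℕ → ℕ) : List ℕ → ℕ :=
  if dir b r = 0 then update r [] 0
  else glue (dir b r) (update r [] (dir b r)) (next (sub b (dir b r)) (sub r (dir b r)))

lemma r_zero (b r : List ℕ → ℕ) (hc : dir b r = 0) : traj b r 1 = (none, mstep b r) := by
  have hc' : (r [] + 1) % (b [] + 1) = 0 := hc
  simp [traj, step, hc', mstep, hc]

lemma r_esc (b r : List ℕ → ℕ) (hc : dir b r ≠ 0)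
    (h : ¬ Returns (sub b (dir b r)) (sub r (dir b r))) :
    ¬ Returns b r ∧ next b r = mstep b r := by
  have h1 := fun t => traj_emb b r hc t fun t' _ e => h ⟨t', e⟩
  constructor
  · rintro ⟨t, ht⟩
    cases t with
    | zero => simp [traj] at ht
    | succ t => rw [h1] at ht; simp [emb] at ht
  · funext v
    simp only [mstep, if_neg hc]
    cases v with
    | nil => exact lim_const _ 1 _ fun t => by rw [h1]; simp [emb, glue]
    | cons k w =>
      by_cases hk : k = dir b r
      · simp only [glue, if_pos hk]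
        exact lim_shift _ _ 1 fun t => by rw [h1]; simp [emb, glue, hk]
      · simp only [glue, if_neg hk]
        exact lim_const _ 1 _ fun t => by rw [h1]; simp [emb, glue, hk]

lemma r_ret (b r : List ℕ → ℕ) (hc : dir b r ≠ 0)
    (h : Returns (sub b (dir b r)) (sub r (dir b r))) :
    ∃ t0, (traj (sub b (dir b r)) (sub r (dir b r)) t0).1 = none ∧
      (∀ t ≤ t0 + 1, (traj b r t).1 ≠ none) ∧
      ∀ t, traj b r (t + (t0 + 1)) = traj b (mstep b r) t := by
  classical
  have h0 := Nat.find_spec h
  have h1 := fun t (ht : t ≤ Nat.find h) => traj_emb b r hc t fun t' h' =>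
    Nat.find_min h (by omega)
  refine ⟨Nat.find h, h0, fun t ht => ?_, fun t => ?_⟩
  · cases t with
    | zero => simp [traj]
    | succ t => rw [h1 t (by omega)]; simp [emb]
  · have : traj b r (Nat.find h + 1) = (some [], mstep b r) := by
      rw [h1 _ le_rfl]
      simp only [emb, h0, mstep, if_neg hc, next_ret _ _ h0]
    rw [traj, iterate_add_apply]
    exact congrArg _ this

lemma mstep_nil (b r : List ℕ → ℕ) : mstep b r [] = dir b r := by
  unfold mstep
  split_ifs with h
  · simp [h]
  · simp [glue]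

lemma mstep_sub (b r : List ℕ → ℕ) {k : ℕ} (hk : k ≠ 0) : sub (mstep b r) k =
    if k = dir b r then next (sub b k) (sub r k) else sub r k := by
  funext w
  unfold mstep
  by_cases h : dir b r = 0
  · rw [if_pos h, if_neg (by omega)]; simp [sub]
  · rw [if_neg h]
    by_cases h2 : k = dir b r
    · rw [if_pos h2]; simp [sub, glue, h2]
    · rw [if_neg h2]; simp [sub, glue, h2]

lemma timed (b : List ℕ → ℕ) {k : ℕ} (hk : k ≤ b []) (t : ℕ) : ∀ r : List ℕ → ℕ, r [] < k →
    (traj b r t).1 = none → ∃ t' < t, (traj (sub b k) (sub r k) t').1 = none := by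
  induction t using Nat.strong_induction_on with
  | _ t ih =>
    intro r hr ht
    have hd : dir b r = r [] + 1 := Nat.mod_eq_of_lt (by omega)
    have hc : dir b r ≠ 0 := by omega
    by_cases h : Returns (sub b (dir b r)) (sub r (dir b r))
    · obtain ⟨t0, h1, h2, h3⟩ := r_ret b r hc h
      have h4 : t0 + 1 < t := by
        by_contra h5
        exact h2 t (by omega) ht
      by_cases hk2 : k = dir b r
      · exact ⟨t0, by omega, hk2 ▸ h1⟩
      · obtain ⟨d, rfl⟩ : ∃ d, t = d + (t0 + 1) := ⟨t - (t0 + 1), by omega⟩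
        rw [h3] at ht
        obtain ⟨t', h5, h6⟩ := ih d (by omega) (mstep b r) (by rw [mstep_nil]; omega) ht
        rw [mstep_sub b r (by omega), if_neg hk2] at h6
        exact ⟨t', by omega, h6⟩
    · exact absurd ⟨t, ht⟩ (r_esc b r hc h).1

lemma succ_cases (U B : ℕ) (hB : 0 < B) : ((U + 1) % B = U % B + 1 ∧ (U + 1) / B = U / B) ∨
    ((U + 1) % B = 0 ∧ U % B + 1 = B ∧ (U + 1) / B = U / B + 1) := by
  have h1 := Nat.mod_lt U hB
  have h2 := Nat.div_add_mod U B
  by_cases h : U % B + 1 < B
  · left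
    have := (Nat.div_mod_unique (a := U + 1) (d := U / B) (c := U % B + 1) hB).2 ⟨by omega, h⟩
    exact ⟨this.2, this.1⟩
  · right
    have := (Nat.div_mod_unique (a := U + 1) (d := U / B + 1) (c := 0) hB).2
      ⟨by rw [mul_add]; omega, hB⟩
    exact ⟨this.2, by omega, this.1⟩

/-- the rotors converge -/
lemma conv (v : List ℕ) : ∀ b r : List ℕ → ℕ, ∃ c, ∀ᶠ t in atTop, (traj b r t).2 v = c := by
  have sh : ∀ (f g : ℕ → ℕ) (d : ℕ), (∀ t, f (t + d) = g t) → (∃ c, ∀ᶠ t in atTop, g t = c) →
      ∃ c, ∀ᶠ t in atTop, f t = c := fun f g d h ⟨c, hc⟩ => by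
    obtain ⟨N, hN⟩ := eventually_atTop.1 hc
    refine ⟨c, eventually_atTop.2 ⟨N + d, fun t ht => ?_⟩⟩
    obtain ⟨s, rfl⟩ : ∃ s, t = s + d := ⟨t - d, by omega⟩
    rw [h, hN s (by omega)]
  have key : ∀ v : List ℕ, (∀ k w, v = k :: w → ∀ b r : List ℕ → ℕ,
      ∃ c, ∀ᶠ t in atTop, (traj b r t).2 w = c) → ∀ b r : List ℕ → ℕ,
      ∃ c, ∀ᶠ t in atTop, (traj b r t).2 v = c := fun v hv b r => by
    generalize hn : b [] - r [] % (b [] + 1) = n
    induction n using Nat.strong_induction_on generalizing r with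
    | _ n ih =>
      by_cases hc : dir b r = 0
      · have h1 := r_zero b r hc
        exact sh _ (fun _ => mstep b r v) 1
          (fun t => by rw [add_comm, traj_const b r (by rw [h1]), h1]) ⟨_, .of_forall fun _ => rfl⟩
      · by_cases h : Returns (sub b (dir b r)) (sub r (dir b r))
        · obtain ⟨t0, -, -, h3⟩ := r_ret b r hc h
          refine sh _ _ (t0 + 1) (fun t => by rw [h3]) (ih _ ?_ (mstep b r) rfl)
          rw [mstep_nil]
          have h4 := succ_cases (r []) (b [] + 1) (by omega)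
          have h5 : dir b r < b [] + 1 := Nat.mod_lt _ (by omega)
          rw [Nat.mod_eq_of_lt h5]
          unfold dir at *
          omega
        · have h1 := fun t => traj_emb b r hc t fun t' _ e => h ⟨t', e⟩
          cases v with
          | nil => exact sh _ (fun _ => dir b r) 1 (fun t => by rw [h1]; simp [emb, glue])
                      ⟨_, .of_forall fun _ => rfl⟩
          | cons k w =>
            by_cases hk : k = dir b r
            · exact sh _ _ 1 (fun t => by rw [h1]; simp [emb, glue, hk])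
                (hv k w rfl (sub b (dir b r)) (sub r (dir b r)))
            · exact sh _ (fun _ => r (k :: w)) 1 (fun t => by rw [h1]; simp [emb, glue, hk])
                ⟨_, .of_forall fun _ => rfl⟩
  induction v with
  | nil => exact key [] fun k w h => by simp at h
  | cons k w ih => exact key _ fun k' w' h => by cases h; exact ih

/-- the recursion linking an escape sequence to those of the subtrees -/
def Comb (B r : ℕ) (E : ℕ → ℕ → Prop) (e : ℕ → Prop) : Prop :=
  ∃ U : ℕ → ℕ, StrictMono U ∧ (∀ u, (∃ m, U m = u) ↔ r < u ∧ (u % B = 0 ∨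
    E (u % B) (u / B - if u % B ≤ r then 1 else 0))) ∧ ∀ m, e m ↔ U m % B ≠ 0

theorem comb_real (b r : List ℕ → ℕ) (hr : r [] ≤ b []) :
    Comb (b [] + 1) (r []) (fun k => esc (sub b k) (sub r k)) (esc b r) := by
  classical
  set B := b [] + 1 with hB
  have hB0 : 0 < B := by omega
  let C : ℕ → List ℕ → ℕ := fun s => (mstep b)^[s] r
  have Cs : ∀ s, C (s + 1) = mstep b (C s) := fun s => iterate_succ_apply' _ _ _
  have C0 : ∀ s, C s [] = (r [] + s) % B := fun s => by
    induction s with
    | zero => exact (Nat.mod_eq_of_lt (show r [] < B by omega)).symm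
    | succ s ih => rw [Cs, mstep_nil, dir, ih, ← hB, Nat.mod_add_mod, add_assoc]
  have Cd : ∀ s, dir b (C s) = (r [] + s + 1) % B := fun s => by
    rw [← mstep_nil, ← Cs, C0, add_assoc]
  have Ck : ∀ k, k ≠ 0 → k < B → ∀ s, ∃ n, sub (C s) k = (next (sub b k))^[n] (sub r k) ∧
      n + (if k ≤ r [] then 1 else 0) =
        (r [] + s) / B + if k ≤ (r [] + s) % B then 1 else 0 := fun k k0 k1 s => by
    induction s with
    | zero =>
      refine ⟨0, rfl, ?_⟩
      rw [add_zero, Nat.mod_eq_of_lt (by omega), Nat.div_eq_of_lt (by omega)]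
    | succ s ih =>
      obtain ⟨n, h1, h2⟩ := ih
      have h3 := succ_cases (r [] + s) B hB0
      rw [Cs, mstep_sub _ _ k0, Cd, ← add_assoc]
      by_cases h : k = (r [] + s + 1) % B
      · refine ⟨n + 1, by rw [if_pos h, h1, iterate_succ_apply'], ?_⟩
        split_ifs at h2 ⊢ <;> omega
      · refine ⟨n, by rw [if_neg h, h1], ?_⟩
        split_ifs at h2 ⊢ <;> omega
  let S : ℕ → Prop := fun s => dir b (C s) = 0 ∨
    ¬ Returns (sub b (dir b (C s))) (sub (C s) (dir b (C s)))
  have hS : ∀ s, S s ↔ ((r [] + s + 1) % B = 0 ∨ esc (sub b ((r [] + s + 1) % B))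
      (sub r ((r [] + s + 1) % B))
      ((r [] + s + 1) / B - if (r [] + s + 1) % B ≤ r [] then 1 else 0)) := fun s => by
    simp only [S, Cd]
    by_cases h : (r [] + s + 1) % B = 0
    · simp [h]
    · obtain ⟨n, h1, h2⟩ := Ck _ h (Nat.mod_lt _ hB0) s
      have h3 := succ_cases (r [] + s) B hB0
      have : ((r [] + s + 1) / B - if (r [] + s + 1) % B ≤ r [] then 1 else 0) = n := by
        split_ifs at h2 ⊢ <;> omega
      rw [h1, this]; rfl
  have hinf : {s | S s}.Infinite := by
    refine Set.infinite_of_forall_exists_gt fun n => ⟨(n + 2) * B - (r [] + 1), ?_, ?_⟩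
    · refine (hS _).2 (Or.inl ?_)
      have : r [] + ((n + 2) * B - (r [] + 1)) + 1 = (n + 2) * B := by
        have : B ≤ (n + 2) * B := Nat.le_mul_of_pos_left _ (by omega)
        omega
      rw [this, Nat.mul_mod_left]
    · have : n + 1 ≤ (n + 1) * B := Nat.le_mul_of_pos_right _ hB0
      have : (n + 2) * B = (n + 1) * B + B := by ring
      omega
  have hm : StrictMono (Nat.nth S) := Nat.nth_strictMono hinf
  have hrg : ∀ s, S s ↔ ∃ m, Nat.nth S m = s := fun s => by
    have := Nat.range_nth_of_infinite hinf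
    exact ⟨fun h => (this ▸ h : s ∈ Set.range (Nat.nth S)),
      fun h => (this ▸ h : s ∈ {s | S s})⟩
  have run : ∀ T, S T → ∀ d s, s + d = T → (∀ s', s ≤ s' → s' < T → ¬ S s') →
      next b (C s) = C (T + 1) ∧ (Returns b (C s) ↔ dir b (C T) = 0) := fun T hT d => by
    induction d with
    | zero =>
      rintro s rfl -
      rw [add_zero] at hT ⊢
      by_cases hc : dir b (C s) = 0
      · have h1 := r_zero b (C s) hc
        exact ⟨by rw [next_ret (t0 := 1) b _ (by rw [h1]), h1, Cs],
          iff_of_true ⟨1, by rw [h1]⟩ hc⟩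
      · have h1 := r_esc b (C s) hc (hT.resolve_left hc)
        exact ⟨by rw [h1.2, Cs], iff_of_false h1.1 hc⟩
    | succ d ih =>
      intro s hs h
      have h1 := not_or.1 (h s le_rfl (by omega))
      obtain ⟨t0, -, h2, h3⟩ := r_ret b (C s) h1.1 (not_not.1 h1.2)
      obtain ⟨h4, h5⟩ := ih (s + 1) (by omega) fun s' a1 a2 => h s' (by omega) a2
      rw [← h4, ← h5, Cs]
      refine ⟨funext fun v => lim_shift _ _ (t0 + 1) fun t => by rw [h3], ⟨?_, ?_⟩⟩
      · rintro ⟨t, ht⟩
        have h4 : t0 + 1 < t := by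
          by_contra h5
          exact h2 t (by omega) ht
        obtain ⟨d, rfl⟩ : ∃ d, t = d + (t0 + 1) := ⟨t - (t0 + 1), by omega⟩
        exact ⟨d, h3 d ▸ ht⟩
      · rintro ⟨t, ht⟩
        exact ⟨_, (h3 t).symm ▸ ht⟩
  have main : ∀ n, (next b)^[n + 1] r = C (Nat.nth S n + 1) ∧
      (Returns b ((next b)^[n] r) ↔ dir b (C (Nat.nth S n)) = 0) := fun n => by
    induction n with
    | zero =>
      refine run _ ((hrg _).2 ⟨0, rfl⟩) _ 0 (zero_add _) fun s' _ h h' => ?_
      obtain ⟨m, rfl⟩ := (hrg _).1 h'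
      exact absurd (hm.lt_iff_lt.1 h) (by omega)
    | succ n ih =>
      rw [iterate_succ_apply', ih.1]
      have := hm (Nat.lt_add_one n)
      refine run _ ((hrg _).2 ⟨n + 1, rfl⟩) (Nat.nth S (n + 1) - (Nat.nth S n + 1)) _
        (by omega) fun s' h0 h h' => ?_
      obtain ⟨m, rfl⟩ := (hrg _).1 h'
      have a1 := hm.lt_iff_lt.1 h
      have a2 := hm.lt_iff_lt.1 (Nat.lt_of_succ_le h0)
      omega
  refine ⟨fun m => r [] + Nat.nth S m + 1, fun m m' h => ?_, fun u => ⟨?_, ?_⟩, fun m => ?_⟩
  · have := hm h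
    simp only; omega
  · rintro ⟨m, rfl⟩
    exact ⟨by simp only; omega, (hS _).1 ((hrg _).2 ⟨m, rfl⟩)⟩
  · rintro ⟨h1, h2⟩
    obtain ⟨s, rfl⟩ : ∃ s, u = r [] + s + 1 := ⟨u - r [] - 1, by omega⟩
    obtain ⟨m, hm⟩ := (hrg s).1 ((hS s).2 h2)
    exact ⟨m, by simp only [hm]⟩
  · rw [esc, (main m).2, Cd]

end Pool.Agent.H95.Rot
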