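import Pool.Agent.H95.Rot1

/-! Rotor walks: escape sequences are closed under spreading and deleting escapes. -/

set_option autoImplicit false

namespace Pool.Agent.H95.Rot

open Filter Function
open scoped Classical

/-- `e'` arises from `e` by deleting ones and enlarging gaps -/
def Le (e' e : ℕ → Prop) : Prop := ∃ g : ℕ → ℕ, (∀ m, e' m → e (g m)) ∧
  ∀ m m', m < m' → e' m → e' m' → g m < g m' ∧ g m' + m ≤ m' + g m

lemma dm (B j k : ℕ) (hk : k < B) : (j * B + k) / B = j ∧ (j * B + k) % B = k :=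
  (Nat.div_mod_unique (a := j * B + k) (d := j) (c := k) (by omega)).2 ⟨by ring, hk⟩

lemma U_bound {B r : ℕ} (hr : r < B) {U : ℕ → ℕ} (hU : StrictMono U)
    (h : ∀ u, r < u → u % B = 0 → ∃ m, U m = u) (a d : ℕ) :
    U (a + d + 1) ≤ (U a / B + d + 1) * B := by
  have hB : 0 < B := by omega
  have one : ∀ a, U (a + 1) ≤ (U a / B + 1) * B := fun a => by
    have h1 : U a < (U a / B + 1) * B := by
      rw [mul_comm]; exact Nat.lt_mul_div_succ _ hB
    have h2 : B ≤ (U a / B + 1) * B := Nat.le_mul_of_pos_left _ (Nat.succ_pos _)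
    obtain ⟨m, hm⟩ := h ((U a / B + 1) * B) (by omega) (Nat.mul_mod_left _ _)
    rw [← hm] at h1 ⊢
    exact hU.monotone (hU.lt_iff_lt.1 h1)
  induction d with
  | zero => exact one a
  | succ d ih =>
    refine (one _).trans (Nat.mul_le_mul_right _ ?_)
    have : U (a + d + 1) / B ≤ U a / B + d + 1 := Nat.div_le_of_le_mul (by rwa [mul_comm])
    rw [← add_assoc]
    omega

lemma comb_step {B r : ℕ} (hr : r < B) {E : ℕ → ℕ → Prop} {e e' : ℕ → Prop}
    (h : Comb B r E e) (hle : Le e' e) :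
    ∃ E', Comb B (if e' 0 then 0 else B - 1) E' e' ∧ ∀ k, Le (E' k) (E k) := by
  obtain ⟨U, hU, hrg, he⟩ := h
  obtain ⟨g, g1, g2⟩ := hle
  have hB : 0 < B := by omega
  let Z : ℕ → ℕ := Nat.count fun m => ¬ e' m
  have Z0 : Z 0 = 0 := Nat.count_zero _
  have Zs : ∀ m, Z (m + 1) = Z m + if e' m then 0 else 1 := fun m => by
    simp only [Z, Nat.count_succ]; split_ifs <;> rfl
  have Zm : Monotone Z := Nat.count_monotone _
  have hk : ∀ m, e' m → U (g m) % B ≠ 0 := fun m hm => (he _).1 (g1 m hm)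
  have hkB : ∀ m, U (g m) % B < B := fun m => Nat.mod_lt _ hB
  have hJ : ∀ a a', a < a' → U a' % B ≠ 0 → U a' / B + 1 + a ≤ U a / B + a' := by
    intro a a' h1 h2
    obtain ⟨d, rfl⟩ : ∃ d, a' = a + d + 1 := ⟨a' - a - 1, by omega⟩
    have h3 := U_bound hr hU (fun u h1 h2 => (hrg u).2 ⟨h1, Or.inl h2⟩) a d
    have h4 : U (a + d + 1) < (U a / B + d + 1) * B :=
      lt_of_le_of_ne h3 fun e => h2 (by rw [e, Nat.mul_mod_left])
    have := (Nat.div_lt_iff_lt_mul hB).2 h4
    omega
  have claim : ∀ m, e' m → ∀ m', m ≤ m' → e' m' →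
      U (g m') / B + Z m ≤ Z m' + U (g m) / B := fun m hm => by
    have P : ∀ d, ∃ m1, m1 < m + d + 1 ∧ e' m1 ∧ Z (m + d + 1) + m1 + 1 = Z m1 + (m + d + 1) ∧
        U (g m1) / B + Z m ≤ Z m1 + U (g m) / B := fun d => by
      induction d with
      | zero => exact ⟨m, by omega, hm, by rw [add_zero, Zs, if_pos hm]; omega, by omega⟩
      | succ d ih =>
        obtain ⟨m1, a1, a2, a3, a4⟩ := ih
        rw [← add_assoc]
        by_cases h : e' (m + d + 1)
        · obtain ⟨b1, b2⟩ := g2 _ _ a1 a2 h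
          have b3 := hJ _ _ b1 (hk _ h)
          exact ⟨m + d + 1, by omega, h, by rw [Zs, if_pos h]; omega, by omega⟩
        · exact ⟨m1, by omega, a2, by rw [Zs, if_neg h]; omega, a4⟩
    intro m' h1 h2
    rcases h1.eq_or_lt with rfl | h1
    · omega
    · obtain ⟨d, rfl⟩ : ∃ d, m' = m + d + 1 := ⟨m' - m - 1, by omega⟩
      obtain ⟨m1, a1, a2, a3, a4⟩ := P d
      obtain ⟨b1, b2⟩ := g2 _ _ a1 a2 h2
      have b3 := hJ _ _ b1 (hk _ h2)
      omega
  let U' : ℕ → ℕ := fun m => if e' m then Z m * B + U (g m) % B else (Z m + 1) * B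
  have hU' : StrictMono U' := strictMono_nat_of_lt_succ fun m => by
    simp only [U', Zs]
    have c1 := hkB m
    by_cases h1 : e' m <;> by_cases h2 : e' (m + 1) <;> simp only [h1, h2, if_true, if_false]
    · have c2 := claim m h1 (m + 1) (by omega) h2
      rw [Zs, if_pos h1] at c2
      have c3 := hU (g2 m (m + 1) (by omega) h1 h2).1
      have c4 := Nat.div_add_mod (U (g m)) B
      have c5 := Nat.div_add_mod (U (g (m + 1))) B
      have c6 : B * (U (g (m + 1)) / B) ≤ B * (U (g m) / B) := Nat.mul_le_mul_left _ (by omega)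
      rw [add_zero]
      omega
    · rw [add_zero, add_mul]; omega
    · have := hk _ h2
      omega
    · rw [add_mul (Z m + 1)]; omega
  have U1 : ∀ m, e' m → U' m / B = Z m ∧ U' m % B = U (g m) % B := fun m hm => by
    simp only [U', if_pos hm]; exact dm B _ _ (hkB m)
  have U2 : ∀ m, ¬ e' m → U' m = (Z m + 1) * B := fun m hm => if_neg hm
  have Zunb : ∀ j, ∃ m, ¬ e' m ∧ Z m = j := fun j => by
    have h1 : ∀ M, j < Z M → ∃ m, ¬ e' m ∧ Z m = j := fun M => by
      induction M with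
      | zero => intro h; omega
      | succ M ih =>
        intro h
        by_cases h2 : j < Z M
        · exact ih h2
        · rw [Zs] at h
          split_ifs at h with h3
          · omega
          · exact ⟨M, h3, by omega⟩
    refine h1 ((j + 2) * B) ?_
    have h2 : (j + 2) * B ≤ U' ((j + 2) * B) := hU'.le_apply
    have h3 : U' ((j + 2) * B) ≤ (Z ((j + 2) * B) + 1) * B := by
      simp only [U']
      split_ifs
      · have := hkB ((j + 2) * B)
        rw [add_mul (Z _)]; omega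
      · exact le_rfl
    have := Nat.le_of_mul_le_mul_right (h2.trans h3) hB
    omega
  have Z1 : ¬ e' 0 → ∀ m, e' m → 1 ≤ Z m := fun h0 m hm => by
    have : 1 ≤ m := Nat.pos_of_ne_zero fun e => h0 (e ▸ hm)
    have h1 := Zm this
    rw [show Z 1 = Z (0 + 1) from rfl, Zs, if_neg h0] at h1
    omega
  refine ⟨fun k i => ∃ m, e' m ∧ U (g m) % B = k ∧ Z m = i + if e' 0 then 0 else 1,
    ⟨U', hU', fun u => ⟨?_, ?_⟩, fun m => ?_⟩, fun k => ?_⟩
  · rintro ⟨m, rfl⟩
    by_cases hm : e' m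
    · obtain ⟨a1, a2⟩ := U1 m hm
      have a3 := hk m hm
      have a4 := hkB m
      have a5 := Nat.div_add_mod (U' m) B
      rw [a1, a2] at a5
      rw [a1, a2]
      by_cases h0 : e' 0
      · simp only [if_pos h0]
        exact ⟨by omega, Or.inr ⟨m, hm, rfl, by rw [if_neg (by omega)]; rfl⟩⟩
      · simp only [if_neg h0]
        have a6 := Z1 h0 m hm
        have a7 : B * 1 ≤ B * Z m := Nat.mul_le_mul_left _ a6
        exact ⟨by omega, Or.inr ⟨m, hm, rfl, by rw [if_pos (by omega)]; omega⟩⟩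
    · rw [U2 m hm]
      have : B ≤ (Z m + 1) * B := Nat.le_mul_of_pos_left _ (by omega)
      exact ⟨by split_ifs <;> omega, Or.inl (Nat.mul_mod_left _ _)⟩
  · rintro ⟨h1, h2⟩
    have a5 := Nat.div_add_mod u B
    by_cases h3 : u % B = 0
    · obtain ⟨m, a1, a2⟩ := Zunb (u / B - 1)
      have : u / B ≠ 0 := fun e => by rw [e] at a5; omega
      refine ⟨m, ?_⟩
      rw [U2 m a1, a2, Nat.sub_add_cancel (Nat.pos_of_ne_zero this), mul_comm]
      omega
    · obtain ⟨m, a1, a2, a3⟩ := h2.resolve_left h3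
      have a4 := Nat.mod_lt u hB
      have : Z m = u / B := by
        by_cases h0 : e' 0
        · simp only [if_pos h0] at a3 h1
          rw [if_neg (by omega)] at a3
          omega
        · simp only [if_neg h0] at a3 h1
          rw [if_pos (by omega)] at a3
          have : u / B ≠ 0 := fun e => by rw [e] at a5; omega
          generalize u / B = j at *
          omega
      refine ⟨m, ?_⟩
      simp only [U', if_pos a1, this, a2]
      rw [mul_comm]; exact a5
  · by_cases hm : e' m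
    · exact iff_of_true hm (by rw [(U1 m hm).2]; exact hk m hm)
    · exact iff_of_false hm (by rw [U2 m hm, Nat.mul_mod_left]; simp)
  · choose! μ h1 h2 h3 using fun i (h : ∃ m, e' m ∧ U (g m) % B = k ∧
      Z m = i + if e' 0 then 0 else 1) => h
    refine ⟨fun i => U (g (μ i)) / B - if k ≤ r then 1 else 0, fun i hi => ?_,
      fun i i' hi a1 a2 => ?_⟩
    · have := ((hrg _).1 ⟨g (μ i), rfl⟩).2.resolve_left (hk _ (h1 i hi))
      rwa [h2 i hi] at this
    · have b1 := h3 i a1
      have b2 := h3 i' a2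
      have b3 : μ i < μ i' := by
        by_contra hc
        have := Zm (not_lt.1 hc)
        omega
      have b4 := claim _ (h1 i a1) _ b3.le (h1 i' a2)
      have b5 := hU (g2 _ _ b3 (h1 i a1) (h1 i' a2)).1
      have c4 := Nat.div_add_mod (U (g (μ i))) B
      have c5 := Nat.div_add_mod (U (g (μ i'))) B
      rw [h2 i a1] at c4
      rw [h2 i' a2] at c5
      have c6 : U (g (μ i)) / B < U (g (μ i')) / B := lt_of_mul_lt_mul_left (a := B) (by omega)
        hB.le
      have c7 := ((hrg _).1 ⟨g (μ i), rfl⟩).1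
      have c8 : k ≤ r → U (g (μ i)) / B ≠ 0 := fun hk e => by rw [e] at c4; omega
      simp only
      generalize U (g (μ i)) / B = j at *
      generalize U (g (μ i')) / B = j' at *
      split_ifs at b1 b2 ⊢ <;> omega

lemma agree {U U' : ℕ → ℕ} (hU : StrictMono U) (hU' : StrictMono U') {L n : ℕ}
    (h : ∀ u ≤ L, (∃ m, U m = u) ↔ ∃ m, U' m = u) (h1 : U n ≤ L) (h2 : U' n ≤ L) :
    U n = U' n := by
  have : ∀ m ≤ n, U m = U' m := fun m => by
    induction m using Nat.strong_induction_on with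
    | _ m ih =>
      intro hm
      obtain ⟨a, ha⟩ := (h _ ((hU.monotone hm).trans h1)).1 ⟨m, rfl⟩
      obtain ⟨a', ha'⟩ := (h _ ((hU'.monotone hm).trans h2)).2 ⟨m, rfl⟩
      have b1 : m ≤ a := by
        by_contra hc
        rw [← ih a (by omega) (by omega)] at ha
        have := hU.injective ha
        omega
      have b2 : m ≤ a' := by
        by_contra hc
        rw [ih a' (by omega) (by omega)] at ha'
        have := hU'.injective ha'
        omega
      have c1 := hU'.monotone b1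
      have c2 := hU.monotone b2
      omega
  exact this n le_rfl

lemma comb_bound {B r : ℕ} (hr : r < B) {E : ℕ → ℕ → Prop} {e : ℕ → Prop} {U : ℕ → ℕ}
    (hU : StrictMono U) (hrg : ∀ u, (∃ m, U m = u) ↔ r < u ∧ (u % B = 0 ∨
      E (u % B) (u / B - if u % B ≤ r then 1 else 0))) (he : ∀ m, e m ↔ U m % B ≠ 0) :
    (∀ n, U n ≤ (n + 1) * B) ∧ (e 0 → U 0 < B ∧ ∀ n, U (n + 1) ≤ (n + 1) * B) := by
  have h0 : U 0 ≤ B := by
    obtain ⟨m, hm⟩ := (hrg B).2 ⟨hr, Or.inl (Nat.mod_self B)⟩
    exact hm ▸ hU.monotone (Nat.zero_le m)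
  have h1 := U_bound hr hU (fun u h1 h2 => (hrg u).2 ⟨h1, Or.inl h2⟩) 0
  refine ⟨fun n => ?_, fun h => ?_⟩
  · cases n with
    | zero => omega
    | succ n =>
      have h2 : U 0 / B ≤ 1 := Nat.div_le_of_le_mul (by omega)
      have h3 := h1 n
      rw [zero_add] at h3
      exact h3.trans (Nat.mul_le_mul_right _ (by omega))
  · have h2 : U 0 < B := lt_of_le_of_ne h0 fun e => (he 0).1 h (by rw [e, Nat.mod_self])
    refine ⟨h2, fun n => ?_⟩
    have h3 := h1 n
    rwa [Nat.div_eq_of_lt h2, zero_add] at h3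

lemma comb_unique {B r : ℕ} (hr : r < B) {E E' : ℕ → ℕ → Prop} {e e' : ℕ → Prop}
    (h : Comb B r E e) (h' : Comb B r E' e') (n : ℕ) (hE : ∀ k, ∀ i < n, E k i ↔ E' k i)
    (hc : r + 1 = B ∨ (r = 0 ∧ e 0 ∧ e' 0)) : e n ↔ e' n := by
  obtain ⟨U, hU, hrg, he⟩ := h
  obtain ⟨U', hU', hrg', he'⟩ := h'
  have hB : 0 < B := by omega
  obtain ⟨b1, b2⟩ := comb_bound hr hU hrg he
  obtain ⟨b1', b2'⟩ := comb_bound hr hU' hrg' he'
  have lt : ∀ u j, u ≤ j * B → u % B ≠ 0 → u / B < j := fun u j h1 h2 =>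
    (Nat.div_lt_iff_lt_mul hB).2 (lt_of_le_of_ne h1 fun e => h2 (by rw [e, Nat.mul_mod_left]))
  rcases hc with hc | ⟨hc, c1, c2⟩
  · rw [he, he', agree hU hU' (L := (n + 1) * B) (fun u hu => ?_) (b1 n) (b1' n)]
    rw [hrg, hrg']
    refine and_congr_right fun h1 => ?_
    by_cases h2 : u % B = 0
    · simp [h2]
    · have h3 := lt u _ hu h2
      have h4 := Nat.mod_lt u hB
      have h5 : u / B ≠ 0 := (Nat.div_pos (by omega) hB).ne'
      rw [if_pos (by omega), hE _ _ (by generalize u / B = j at *; omega)]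
  · cases n with
    | zero => exact iff_of_true c1 c2
    | succ n =>
      rw [he, he', agree hU hU' (L := (n + 1) * B) (fun u hu => ?_) ((b2 c1).2 n) ((b2' c2).2 n)]
      rw [hrg, hrg']
      refine and_congr_right fun h1 => ?_
      by_cases h2 : u % B = 0
      · simp [h2]
      · have h3 := lt u _ hu h2
        rw [hE _ _ (by omega)]

structure St where
  b : List ℕ → ℕ
  e : ℕ → Prop
  h : ∃ r, (∀ v, r v ≤ b v) ∧ Le e (esc b r)

lemma St.ex (s : St) : ∃ E', Comb (s.b [] + 1) (if s.e 0 then 0 else s.b []) E' s.e ∧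
    ∀ k, ∃ r, (∀ v, r v ≤ sub s.b k v) ∧ Le (E' k) (esc (sub s.b k) r) := by
  obtain ⟨r, h1, h2⟩ := s.h
  obtain ⟨E', h3, h4⟩ := comb_step (Nat.lt_succ_of_le (h1 [])) (comb_real s.b r (h1 [])) h2
  exact ⟨E', h3, fun k => ⟨sub r k, fun v => h1 _, h4 k⟩⟩

noncomputable def St.child (s : St) (k : ℕ) : St :=
  ⟨sub s.b k, s.ex.choose k, s.ex.choose_spec.2 k⟩

noncomputable def cfg : List ℕ → St → ℕ
  | [], s => if s.e 0 then 0 else s.b []
  | k :: w, s => cfg w (s.child k)

lemma cfg_le (w : List ℕ) : ∀ s : St, cfg w s ≤ s.b w := by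
  induction w with
  | nil => intro s; simp only [cfg]; split_ifs <;> omega
  | cons k w ih => intro s; exact ih (s.child k)

lemma first (t : ℕ) : ∀ s : St, s.e 0 → (traj s.b (fun w => cfg w s) t).1 ≠ none := by
  induction t using Nat.strong_induction_on with
  | _ t ih =>
    intro s hs ht
    obtain ⟨U, hU, hrg, he⟩ := s.ex.choose_spec.1
    simp only [if_pos hs] at hrg
    have h1 := ((comb_bound (by omega) hU hrg he).2 hs).1
    have h2 := (he 0).1 hs
    have h3 := ((hrg _).1 ⟨0, rfl⟩).2.resolve_left h2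
    rw [Nat.div_eq_of_lt h1, Nat.zero_sub] at h3
    rw [Nat.mod_eq_of_lt h1] at h2 h3
    obtain ⟨t', h4, h5⟩ := timed s.b (k := U 0) (by omega) t (fun w => cfg w s)
      (by simp only [cfg, if_pos hs]; omega) ht
    exact ih t' h4 (s.child (U 0)) h3 h5

theorem realize (n : ℕ) : ∀ s : St, esc s.b (fun w => cfg w s) n ↔ s.e n := by
  induction n using Nat.strong_induction_on with
  | _ n ih =>
    intro s
    refine comb_unique (Nat.lt_succ_of_le (cfg_le [] s))
      (comb_real s.b (fun w => cfg w s) (cfg_le [] s)) s.ex.choose_spec.1 n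
      (fun k i hi => ih i hi (s.child k)) ?_
    by_cases hs : s.e 0
    · exact Or.inr ⟨if_pos hs, fun ⟨t, ht⟩ => first t s hs ht, hs⟩
    · exact Or.inl (by simp only [cfg, if_neg hs])

theorem main (b r : List ℕ → ℕ) (hr : ∀ v, r v ≤ b v) (e' : ℕ → Prop)
    (he : ∀ n, e' n → esc b r n) : ∃ r' : List ℕ → ℕ, (∀ v, r' v ≤ b v) ∧
      ∀ n, esc b r' n ↔ e' n :=
  let s : St := ⟨b, e', r, hr, id, he, fun m m' h _ _ => ⟨h, by simp [add_comm]⟩⟩
  ⟨fun w => cfg w s, fun w => cfg_le w s, fun n => realize n s⟩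

end Pool.Agent.H95.Rot
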