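import Mathlib

/-! Rotor walks on rooted trees and their escape sequences. -/

set_option autoImplicit false

namespace Pool.Agent.H95.Rot

open Filter

/-- One step of the rotor walk.  Non-root vertices are addresses `v : List ℕ` (`[]` is the child
of the root, the `k`-th child of `v` is `v ++ [k]`, `1 ≤ k ≤ b v`); `none` is the root, where the
particle stops.  The second component is the rotor configuration. -/
def step (b : List ℕ → ℕ) :
    Option (List ℕ) × (List ℕ → ℕ) → Option (List ℕ) × (List ℕ → ℕ)
  | (none, r) => (none, r)
  | (some v, r) =>
    (if (r v + 1) % (b v + 1) = 0 then (if v = [] then none else some v.dropLast)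
      else some (v ++ [(r v + 1) % (b v + 1)]),
     Function.update r v ((r v + 1) % (b v + 1)))

/-- position and rotors `t` steps after a particle has entered the child of the root -/
def traj (b r : List ℕ → ℕ) (t : ℕ) : Option (List ℕ) × (List ℕ → ℕ) :=
  (step b)^[t] (some [], r)

/-- the particle returns to the root -/
def Returns (b r : List ℕ → ℕ) : Prop := ∃ t, (traj b r t).1 = none

/-- the (limiting) rotor configuration left by one particle -/
noncomputable def next (b r : List ℕ → ℕ) : List ℕ → ℕ :=
  fun v => limUnder atTop fun t => (traj b r t).2 v

/-- particle number `n + 1` escapes -/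
def esc (b r : List ℕ → ℕ) (n : ℕ) : Prop := ¬ Returns b ((next b)^[n] r)

end Pool.Agent.H95.Rot
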