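import Pool.Agent.H95.RowVNDefs

set_option autoImplicit false

namespace Pool.Agent.H95.RowVN

open scoped InnerProductSpace ComplexConjugate
open Finset Filter Topology

noncomputable abbrev e0 : Fin 2 →₀ ℕ := Finsupp.single 0 1
noncomputable abbrev e1 : Fin 2 →₀ ℕ := Finsupp.single 1 1

lemma low {V : Type} [AddCommGroup V] [Module ℂ V] (p : Pol) (g : ℕ → ℕ → V)
    (h : ∀ a b, 2 ≤ a + b → g a b = 0) : ∑ α ∈ p.support, p.coeff α • g (α 0) (α 1) =
      p.coeff 0 • g 0 0 + p.coeff e0 • g 1 0 + p.coeff e1 • g 0 1 := by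
  have n1 : (0 : Fin 2 →₀ ℕ) ≠ e0 := fun c => by simpa using congrArg (· 0) c
  have n2 : (0 : Fin 2 →₀ ℕ) ≠ e1 := fun c => by simpa using congrArg (· 1) c
  have n3 : e0 ≠ e1 := fun c => by simpa using congrArg (· 1) c
  rw [sum_subset (subset_union_left (s₂ := {0, e0, e1})) fun α _ c => by
      rw [MvPolynomial.notMem_support_iff.1 c, zero_smul],
    ← sum_subset (subset_union_right (s₁ := p.support)) fun α _ c => ?_,
    sum_insert (by simp [n1, n2]), sum_pair n3]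
  · simp [add_assoc]
  rw [h, smul_zero]
  by_contra d
  have : (α 0 = 0 ∧ α 1 = 0) ∨ (α 0 = 1 ∧ α 1 = 0) ∨ (α 0 = 0 ∧ α 1 = 1) := by omega
  simp only [mem_insert, mem_singleton, Finsupp.ext_iff, Fin.forall_fin_two] at c
  simp at c
  omega

noncomputable def val (p : Pol) (z : Fin 2 → ℂ) : ℂ := ∑ α ∈ p.support, p.coeff α * (z 0 ^ α 0 * z 1 ^ α 1)

lemma sup_le {H : Type} [NormedAddCommGroup H] [InnerProductSpace ℂ H] {k : Ball → H}
    {M : Fin 2 → H →L[ℂ] H} (h : IsMult k M) (hk : ∀ z, k z ≠ 0) {m : ℕ}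
    (P : Matrix (Fin 1) (Fin m) Pol) (c : ℝ) (hP : Bnd M P c) (z : Ball) :
    ∑ j, ‖val (P 0 j) z.1‖ ^ 2 ≤ c ^ 2 := by
  have h1 : ∀ i n f, ⟪k z, (M i ^ n) f⟫_ℂ = z.1 i ^ n * ⟪k z, f⟫_ℂ := fun i n => by
    induction n with
    | zero => simp
    | succ n ih => intro f; rw [pow_succ', ContinuousLinearMap.mul_apply, h.2, ih]; ring
  have h2 : ∀ p f, ⟪k z, ev M p f⟫_ℂ = val p z.1 * ⟪k z, f⟫_ℂ := fun p f => by
    simp only [ev, val, ContinuousLinearMap.sum_apply, ContinuousLinearMap.smul_apply,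
      ContinuousLinearMap.mul_apply, inner_sum, inner_smul_right, h1, sum_mul, mul_assoc]
  have h3 := hP fun j => conj (val (P 0 j) z.1) • k z
  set s := ∑ j, ‖val (P 0 j) z.1‖ ^ 2
  rw [Fin.sum_univ_one] at h3
  set y := ∑ j, ev M (P 0 j) (conj (val (P 0 j) z.1) • k z)
  have h4 : ⟪k z, y⟫_ℂ = (s * ‖k z‖ ^ 2 : ℝ) := by
    simp only [y, s, inner_sum, h2, inner_smul_right, inner_self_eq_norm_sq_to_K, ← mul_assoc,
      Complex.mul_conj', ← sum_mul]
    simp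
  have h5 := norm_inner_le_norm (𝕜 := ℂ) (k z) y
  have s0 : 0 ≤ s := by positivity
  have k0 : 0 < ‖k z‖ := norm_pos_iff.2 (hk z)
  rw [h4, Complex.norm_real, Real.norm_of_nonneg (by positivity)] at h5
  simp only [norm_smul, RCLike.norm_conj, mul_pow, ← sum_mul] at h3
  have h6 : s * ‖k z‖ ≤ ‖y‖ := le_of_mul_le_mul_left (by nlinarith) k0
  have h7 := (pow_le_pow_left₀ (by positivity) h6 2).trans h3
  rcases s0.eq_or_lt with e | e
  · rw [← e]; positivity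
  · exact le_of_mul_le_mul_right (a := s * ‖k z‖ ^ 2) (by nlinarith) (by positivity)

open Polynomial in
lemma bessel {m : ℕ} (q g : Fin m → ℂ[X]) (a b : Fin m → ℂ) (hg : ∀ j, g j = C (a j) + C (b j) * X)
    (c : ℝ) (h : ∀ x : ℂ, ‖x‖ = 1 → ∑ j, ‖(q j).eval x‖ ^ 2 ≤ c ^ 2) :
    ‖∑ j, (q j).coeff 0 * a j‖ ^ 2 + ‖∑ j, ((q j).coeff 0 * b j + (q j).coeff 1 * a j)‖ ^ 2 ≤
      c ^ 2 * ∑ j, (‖a j‖ ^ 2 + ‖b j‖ ^ 2) := by
  have two : ∀ p : ℂ[X], ∑ i ∈ p.support ∪ {0, 1}, ‖p.coeff i‖ ^ 2 =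
      Real.circleAverage (fun θ ↦ ‖p.eval θ‖ ^ 2) 0 1 := fun p => by
    rw [← sum_sq_norm_coeff_eq_circleAverage, ← sum_subset subset_union_left fun i _ c => by
      simp [notMem_support_iff.1 c]]
  have ci : ∀ p : ℂ[X], CircleIntegrable (fun θ ↦ ‖p.eval θ‖ ^ 2) 0 1 := fun p =>
    ContinuousOn.circleIntegrable' (by fun_prop)
  have h1 := (sum_le_sum_of_subset_of_nonneg subset_union_right fun _ _ _ => by positivity).trans
    (two (∑ j, q j * g j)).le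
  rw [sum_pair zero_ne_one] at h1
  have h2 : ∀ j, Real.circleAverage (fun θ ↦ ‖(g j).eval θ‖ ^ 2) 0 1 = ‖a j‖ ^ 2 + ‖b j‖ ^ 2 :=
    fun j => by
      rw [← two, ← sum_subset subset_union_right fun i _ c => ?_, sum_pair zero_ne_one, hg]
      · simp [coeff_C]
      simp only [mem_insert, mem_singleton, not_or] at c
      simp [hg, coeff_C, coeff_X, c.1, Ne.symm c.2]
  refine le_trans (le_of_eq ?_) (h1.trans ?_)
  · simp only [finset_sum_coeff, mul_coeff_zero, mul_coeff_one, hg]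
    simp
  simp only [← h2]
  rw [← Real.circleAverage_fun_sum fun j _ => ci _, ← smul_eq_mul, ← Real.circleAverage_fun_smul]
  refine Real.circleAverage_mono (ci _) (ContinuousOn.circleIntegrable' (by fun_prop))
    fun x hx => ?_
  simp only [eval_finset_sum, eval_mul, smul_eq_mul]
  refine le_trans ?_ (mul_le_mul_of_nonneg_right (h x (by simpa using hx)) (by positivity))
  refine le_trans ?_ (sum_mul_sq_le_sq_mul_sq _ _ _)
  gcongr
  exact (norm_sum_le _ _).trans (by simp)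

noncomputable def TT (i : Fin 2) : C3 →L[ℂ] C3 :=
  (EuclideanSpace.proj 0 : C3 →L[ℂ] ℂ).smulRight (EuclideanSpace.single i.succ 1)

lemma TT_mul (i j : Fin 2) : TT i * TT j = 0 := by
  ext x
  simp [TT, (Fin.succ_ne_zero j).symm]

lemma evT (p : Pol) : ev TT p = p.coeff 0 • 1 + p.coeff e0 • TT 0 + p.coeff e1 • TT 1 := by
  rw [ev, low p fun a b => TT 0 ^ a * TT 1 ^ b]
  · simp
  intro a b h
  rcases a with _ | _ | a
  · obtain ⟨b, rfl⟩ := Nat.exists_eq_add_of_le' (show 2 ≤ b by omega)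
    simp [pow_add, sq, TT_mul]
  · obtain ⟨b, rfl⟩ := Nat.exists_eq_add_of_le (show 1 ≤ b by omega)
    simp [pow_add, ← mul_assoc, TT_mul]
  · simp [pow_succ, mul_assoc _ (TT 0) (TT 0), TT_mul]

lemma unit (s t : ℂ) : ∃ u v : ℂ, ‖u‖ ^ 2 + ‖v‖ ^ 2 ≤ 1 ∧ ‖u * s + v * t‖ ^ 2 = ‖s‖ ^ 2 + ‖t‖ ^ 2 := by
  set n := √(‖s‖ ^ 2 + ‖t‖ ^ 2)
  have hn : n ^ 2 = ‖s‖ ^ 2 + ‖t‖ ^ 2 := Real.sq_sqrt (by positivity)
  have n0 : 0 ≤ n := Real.sqrt_nonneg _
  refine ⟨conj s / n, conj t / n, ?_, ?_⟩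
  · simp only [norm_div, RCLike.norm_conj, div_pow, ← add_div, ← hn, Complex.norm_real,
      Real.norm_of_nonneg n0]
    exact div_self_le_one _
  · rw [div_mul_eq_mul_div, div_mul_eq_mul_div, ← add_div, Complex.conj_mul', Complex.conj_mul',
      ← hn]
    norm_cast
    rw [← hn, sq n, mul_self_div_self, Real.norm_of_nonneg n0, sq]

open Polynomial in
lemma row {m : ℕ} (P : Matrix (Fin 1) (Fin m) Pol) (c : ℝ)
    (h : ∀ z : Ball, ∑ j, ‖val (P 0 j) z.1‖ ^ 2 ≤ c ^ 2) : Bnd TT P c := by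
  intro f
  rw [Fin.sum_univ_one]
  set y := ∑ j, ev TT (P 0 j) (f j) with hy
  obtain ⟨u, v, huv, e⟩ := unit (y 1) (y 2)
  have key : ∀ r : ℝ, 0 < r → r < 1 →
      ‖y 0‖ ^ 2 + r ^ 2 * (‖y 1‖ ^ 2 + ‖y 2‖ ^ 2) ≤ c ^ 2 * ∑ j, ‖f j‖ ^ 2 := fun r r0 r1 => by
    let q : Fin m → ℂ[X] := fun j => ∑ α ∈ (P 0 j).support, (P 0 j).coeff α •
      monomial (α 0 + α 1) ((r * u) ^ α 0 * (r * v) ^ α 1)
    have qc : ∀ j n, n < 2 → (q j).coeff n = _ := fun j n hn => by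
      simp only [q, finset_sum_coeff, coeff_smul, coeff_monomial]
      exact low (P 0 j) (fun a b => if a + b = n then (r * u) ^ a * (r * v) ^ b else 0)
        fun a b hab => if_neg (by omega)
    have := bessel q _ (fun j => f j 0) (fun j => r * (u * f j 1 + v * f j 2)) (fun j => rfl) c
      fun x hx => (le_of_eq ?_).trans (h ⟨![r * u * x, r * v * x], ?_⟩)
    · refine le_trans (le_of_eq ?_) (this.trans ?_)
      · rw [← e, show r ^ 2 = ‖(r : ℂ)‖ ^ 2 by simp, ← mul_pow, ← norm_mul]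
        simp only [hy, evT, qc _ 0 two_pos, qc _ 1 one_lt_two]
        simp [TT, mul_sum, ← sum_add_distrib]
        congr 3
        funext j
        ring
      gcongr with j
      rw [EuclideanSpace.norm_sq_eq, Fin.sum_univ_three, add_assoc, norm_mul, mul_pow]
      have h1 : ‖u * f j 1 + v * f j 2‖ ≤ ‖u‖ * ‖f j 1‖ + ‖v‖ * ‖f j 2‖ :=
        (norm_add_le _ _).trans (by simp)
      have h2 := pow_le_pow_left₀ (norm_nonneg _) h1 2
      have h3 : ‖(r : ℂ)‖ ^ 2 ≤ 1 := by simpa using ⟨by linarith, r1.le⟩ |> abs_le.2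
      have h4 : (‖u‖ * ‖f j 1‖ + ‖v‖ * ‖f j 2‖) ^ 2 ≤ ‖f j 1‖ ^ 2 + ‖f j 2‖ ^ 2 := by
        nlinarith [sq_nonneg (‖u‖ * ‖f j 2‖ - ‖v‖ * ‖f j 1‖), sq_nonneg ‖f j 1‖, sq_nonneg ‖f j 2‖]
      nlinarith [sq_nonneg ‖u * f j 1 + v * f j 2‖]
    · refine sum_congr rfl fun j _ => ?_
      simp only [q, val, eval_finset_sum, eval_smul, eval_monomial, smul_eq_mul]
      congr 3
      funext α
      simp [mul_pow, pow_add]
      left
      ring
    · simp [hx, mul_pow]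
      nlinarith [sq_nonneg r]
  have : Tendsto (fun r : ℝ => ‖y 0‖ ^ 2 + r ^ 2 * (‖y 1‖ ^ 2 + ‖y 2‖ ^ 2)) (𝓝[<] 1) (𝓝 _) :=
    (Continuous.tendsto (by fun_prop) 1).mono_left nhdsWithin_le_nhds
  have := le_of_tendsto this (by
    filter_upwards [Ioo_mem_nhdsLT one_pos] with r hr using key r hr.1 hr.2)
  rw [EuclideanSpace.norm_sq_eq, Fin.sum_univ_three]
  linarith

abbrev E : Type := lp (fun _ : ℕ × ℕ => ℂ) 2

lemma ns (f : E) : HasSum (fun i => ‖f i‖ ^ 2) (‖f‖ ^ 2) := by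
  simpa using lp.hasSum_norm (p := 2) (by norm_num) f

lemma mem2 (f : ℕ × ℕ → ℂ) (h : Summable fun i => ‖f i‖ ^ 2) : Memℓp f 2 :=
  memℓp_gen (by simpa using h)

def sg (i : Fin 2) (a : ℕ × ℕ) : ℕ × ℕ := ![(a.1 + 1, a.2), (a.1, a.2 + 1)] i

lemma sg_inj (i : Fin 2) : Function.Injective (sg i) := fun a b h => by
  fin_cases i <;> simpa [sg, Prod.ext_iff] using h

noncomputable def al (i : Fin 2) (a : ℕ × ℕ) : ℝ := √((![a.1, a.2] i + 1 : ℕ) / (a.1 + a.2 + 2))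

lemma al_sq (a : ℕ × ℕ) : al 0 a ^ 2 + al 1 a ^ 2 = 1 := by
  rw [al, al, Real.sq_sqrt (by positivity), Real.sq_sqrt (by positivity)]
  simp
  field_simp
  ring

lemma pt (f g : E) (a : ℕ × ℕ) : ‖al 0 a * f (sg 0 a) + al 1 a * g (sg 1 a)‖ ^ 2 ≤
    ‖f (sg 0 a)‖ ^ 2 + ‖g (sg 1 a)‖ ^ 2 := by
  have h1 : ‖al 0 a * f (sg 0 a) + al 1 a * g (sg 1 a)‖ ≤
      al 0 a * ‖f (sg 0 a)‖ + al 1 a * ‖g (sg 1 a)‖ :=
    (norm_add_le _ _).trans (by simp [al, abs_of_nonneg (Real.sqrt_nonneg _)])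
  have h2 := pow_le_pow_left₀ (norm_nonneg _) h1 2
  have := al_sq a
  have h3 := sq_nonneg (al 0 a * ‖g (sg 1 a)‖ - al 1 a * ‖f (sg 0 a)‖)
  have h4 := congrArg (· * (‖f (sg 0 a)‖ ^ 2 + ‖g (sg 1 a)‖ ^ 2)) this
  simp only at h4
  nlinarith

lemma sm (f : E) (i : Fin 2) : Summable fun a => ‖f (sg i a)‖ ^ 2 :=
  (ns f).summable.comp_injective (sg_inj i)

noncomputable def R (f g : E) : E := ⟨fun a => al 0 a * f (sg 0 a) + al 1 a * g (sg 1 a),
  mem2 _ (.of_nonneg_of_le (fun _ => by positivity) (pt f g) ((sm f 0).add (sm g 1)))⟩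

lemma R_le (f g : E) : ‖R f g‖ ^ 2 ≤ ‖f‖ ^ 2 + ‖g‖ ^ 2 := by
  refine (hasSum_le (pt f g) (ns (R f g)) ((sm f 0).hasSum.add (sm g 1).hasSum)).trans ?_
  rw [← (ns f).tsum_eq, ← (ns g).tsum_eq]
  exact add_le_add (tsum_comp_le_tsum_of_inj (ns f).summable (fun _ => by positivity) (sg_inj 0))
    (tsum_comp_le_tsum_of_inj (ns g).summable (fun _ => by positivity) (sg_inj 1))

noncomputable def S (i : Fin 2) : E →L[ℂ] E := LinearMap.mkContinuous
  { toFun := fun f => R (![f, 0] i) (![0, f] i)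
    map_add' := fun f g => lp.ext (funext fun a => by fin_cases i <;> simp [R, mul_add])
    map_smul' := fun c f => lp.ext (funext fun a => by fin_cases i <;> simp [R, mul_left_comm]) }
  1 fun f => by
    rw [one_mul]
    refine (sq_le_sq₀ (norm_nonneg _) (norm_nonneg _)).1 ((R_le _ _).trans ?_)
    fin_cases i <;> simp

lemma S_apply (i : Fin 2) (f : E) (a : ℕ × ℕ) : S i f a = al i a * f (sg i a) := by
  fin_cases i <;> simp [S, R]

noncomputable def w (a : ℕ × ℕ) : ℝ := (a.1 + a.2 + 1) * (a.1 + a.2).choose a.1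

lemma hs {K : Type} [RCLike K] (x y : K) (n : ℕ) : HasSum (fun a : antidiagonal n =>
    ((w a.1 : ℝ) : K) * (x ^ a.1.1 * y ^ a.1.2)) ((n + 1).choose 1 * (x + y) ^ n) := by
  convert hasSum_fintype _
  rw [sum_coe_sort (antidiagonal n) fun a => ((w a : ℝ) : K) * (x ^ a.1 * y ^ a.2),
    (Commute.all x y).add_pow', mul_sum]
  refine sum_congr rfl fun a ha => ?_
  rw [w, ← mem_antidiagonal.1 ha]
  simp [mul_assoc]

lemma w0 (a : ℕ × ℕ) : 0 ≤ w a := by unfold w; positivity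

lemma hk (x y : ℂ) (h : ‖x‖ + ‖y‖ < 1) :
    HasSum (fun a : ℕ × ℕ => (w a : ℂ) * (x ^ a.1 * y ^ a.2)) (1 / (1 - (x + y)) ^ 2) := by
  rw [← Finset.HasAntidiagonal.sigmaAntidiagonalEquivProd.hasSum_iff]
  refine HasSum.sigma_of_hasSum (hasSum_choose_mul_geometric_of_norm_lt_one 1
    ((norm_add_le x y).trans_lt h)) (fun n => hs x y n) (.of_norm ?_)
  have := (summable_sigma_of_nonneg (f := fun s : Σ n, antidiagonal n =>
    w s.2.1 * (‖x‖ ^ s.2.1.1 * ‖y‖ ^ s.2.1.2)) fun s => mul_nonneg (w0 _) (by positivity)).2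
    ⟨fun n => (hasSum_fintype _).summable, by
      exact (summable_choose_mul_geometric_of_norm_lt_one 1
        ((Real.norm_of_nonneg (add_nonneg (norm_nonneg x) (norm_nonneg y))).trans_lt h)).congr
        fun n => (hs ‖x‖ ‖y‖ n).tsum_eq.symm⟩
  exact this.congr fun s => by simp [abs_of_nonneg (w0 _)]

noncomputable def k0 (z : Ball) : E := ⟨fun a => √(w a) * conj (z.1 0 ^ a.1 * z.1 1 ^ a.2),
  mem2 _ ((hk (z.1 0 ^ 2) (z.1 1 ^ 2) (by simpa using z.2)).summable.norm.congr fun a => by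
    simp [mul_pow, Real.sq_sqrt (w0 a), abs_of_nonneg (w0 a), ← pow_mul, mul_comm])⟩

lemma k0_inner (z v : Ball) : ⟪k0 z, k0 v⟫_ℂ = szego z v := by
  refine (lp.hasSum_inner _ _).unique ((hk _ _ ?_).congr_fun fun a => ?_)
  · have := z.2
    have := v.2
    simp only [norm_mul, norm_star]
    nlinarith [sq_nonneg (‖z.1 0‖ - ‖v.1 0‖), sq_nonneg (‖z.1 1‖ - ‖v.1 1‖)]
  · have : ((√(w a) : ℝ) : ℂ) * (√(w a) : ℝ) = w a := by
      rw [← Complex.ofReal_mul, Real.mul_self_sqrt (w0 a)]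
    simp [k0, ← this, mul_pow]
    ring

lemma S_k0 (i : Fin 2) (z : Ball) : S i (k0 z) = conj (z.1 i) • k0 z := by
  have : ∀ a, (al i a : ℂ) * √(w (sg i a)) = √(w a) := fun a => by
    rw [← Complex.ofReal_mul, al, ← Real.sqrt_mul (by positivity)]
    congr 2
    have h1 := congrArg (Nat.cast (R := ℝ)) (Nat.add_one_mul_choose_eq (a.1 + a.2) a.1)
    have h2 := congrArg (Nat.cast (R := ℝ)) (Nat.choose_mul_succ_eq (a.1 + a.2) a.1)
    rw [show a.1 + a.2 + 1 - a.1 = a.2 + 1 by omega] at h2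
    fin_cases i <;> simp [w, sg, add_right_comm _ 1, ← add_assoc] at h1 h2 ⊢ <;> field_simp
    · linear_combination -(a.1 + a.2 + 2) * h1
    · linear_combination -(a.1 + a.2 + 2) * h2
  refine lp.ext (funext fun a => ?_)
  rw [S_apply]
  simp only [k0, lp.coeFn_smul, Pi.smul_apply, smul_eq_mul, ← mul_assoc, this]
  fin_cases i <;> simp [sg] <;> ring

noncomputable def H0 : Submodule ℂ E := (Submodule.span ℂ (Set.range k0)).topologicalClosure

instance : CompleteSpace H0 := (Submodule.isClosed_topologicalClosure _).completeSpace_coe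

lemma inv (i : Fin 2) (f : E) (hf : f ∈ H0) : S i f ∈ H0 := by
  refine Submodule.topologicalClosure_minimal (t := H0.comap (S i : E →ₗ[ℂ] E)) _
    (Submodule.span_le.2 ?_) ((Submodule.isClosed_topologicalClosure _).preimage (S i).continuous) hf
  rintro _ ⟨z, rfl⟩
  change S i (k0 z) ∈ H0
  rw [S_k0]
  exact H0.smul_mem _ (Submodule.le_topologicalClosure _ (Submodule.subset_span ⟨z, rfl⟩))

noncomputable def N (i : Fin 2) : H0 →L[ℂ] H0 := (S i).restrict (inv i)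

noncomputable def kk (z : Ball) : H0 :=
  ⟨k0 z, Submodule.le_topologicalClosure _ (Submodule.subset_span ⟨z, rfl⟩)⟩

lemma isMult : IsMult kk fun i => (N i).adjoint := by
  refine ⟨fun f h => ?_, fun i f z => ?_⟩
  · have : f.1 ∈ (Submodule.span ℂ (Set.range k0))ᗮ := fun u hu => by
      induction hu using Submodule.span_induction with
      | mem _ h' => obtain ⟨z, rfl⟩ := h'; exact h z
      | zero => simp
      | add _ _ _ _ a b => rw [inner_add_left, a, b, add_zero]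
      | smul _ _ _ a => rw [inner_smul_left, a, mul_zero]
    rw [← Submodule.orthogonal_closure] at this
    exact Subtype.ext (inner_self_eq_zero.1 (this _ f.2))
  · have : N i (kk z) = conj (z.1 i) • kk z := Subtype.ext (S_k0 i z)
    rw [ContinuousLinearMap.adjoint_inner_right, this]
    exact (inner_smul_left (𝕜 := ℂ) (kk z).1 f.1 _).trans (by rw [RCLike.conj_conj]; rfl)

lemma col (f : H0) : ‖(N 0).adjoint f‖ ^ 2 + ‖(N 1).adjoint f‖ ^ 2 ≤ ‖f‖ ^ 2 := by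
  set a := (N 0).adjoint f
  set b := (N 1).adjoint f
  have h1 : ⟪N 0 a + N 1 b, f⟫_ℂ = (‖a‖ ^ 2 + ‖b‖ ^ 2 : ℝ) := by
    rw [inner_add_left, ← (N 0).adjoint_inner_right, ← (N 1).adjoint_inner_right, inner_self_eq_norm_sq_to_K,
      inner_self_eq_norm_sq_to_K]
    simp
  have h2 : ‖N 0 a + N 1 b‖ ^ 2 ≤ ‖a‖ ^ 2 + ‖b‖ ^ 2 := by
    have : ((N 0 a + N 1 b : H0) : E) = R a b := lp.ext (funext fun c => by
      change (S 0 a + S 1 b) c = _
      simp [S_apply, R])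
    rw [Submodule.coe_norm, this]
    exact R_le _ _
  have h3 := norm_inner_le_norm (𝕜 := ℂ) (N 0 a + N 1 b) f
  rw [h1, Complex.norm_real, Real.norm_of_nonneg (by positivity)] at h3
  nlinarith [sq_nonneg (‖N 0 a + N 1 b‖ - ‖f‖)]

lemma evX {H : Type} [NormedAddCommGroup H] [InnerProductSpace ℂ H] (T : Fin 2 → H →L[ℂ] H)
    (i : Fin 2) : ev T (MvPolynomial.X i) = T i := by
  rw [ev, MvPolynomial.support_X]
  fin_cases i <;> simp

theorem main : ∃ (H : Type) (_ : NormedAddCommGroup H) (_ : InnerProductSpace ℂ H)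
    (_ : CompleteSpace H) (k : Ball → H) (M : Fin 2 → H →L[ℂ] H) (T : Fin 2 → C3 →L[ℂ] C3),
    (∀ z w, ⟪k z, k w⟫_ℂ = szego z w) ∧ IsMult k M ∧ T 0 * T 1 = T 1 * T 0 ∧
    (∀ (m : ℕ) (P : Matrix (Fin 1) (Fin m) Pol) (c : ℝ), Bnd M P c → Bnd T P c) ∧
    ∃ P : Matrix (Fin 2) (Fin 2) Pol, Bnd M P 1 ∧ ¬ Bnd T P 1 := by
  refine ⟨H0, _, _, inferInstance, kk, _, TT, k0_inner, isMult, by rw [TT_mul, TT_mul],
    fun m P c h => row P c (sup_le isMult (fun z e => ?_) P c h),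
    .of fun i j => if j = 0 then MvPolynomial.X i else 0, fun f => ?_, fun h => ?_⟩
  · have h1 : ⟪kk z, kk z⟫_ℂ = _ := k0_inner z z
    have h2 := z.2
    rw [e, inner_zero_left, szego, eq_comm, one_div, inv_eq_zero, sq_eq_zero_iff, sub_eq_zero,
      RCLike.star_def, Complex.mul_conj', Complex.mul_conj'] at h1
    norm_cast at h1
    linarith
  · have := col (f 0)
    simp [evX, show ∀ T : Fin 2 → H0 →L[ℂ] H0, ev T 0 = 0 from fun T => by simp [ev],
      -Submodule.coe_norm]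
    nlinarith [sq_nonneg ‖f 1‖]
  · have := h ![EuclideanSpace.single 0 1, 0]
    simp [evX, TT] at this

end Pool.Agent.H95.RowVN
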