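import Mathlib

set_option autoImplicit false

namespace Pool.Agent.H95.RowVN

open scoped InnerProductSpace

/-- The open unit ball of `ℂ²`. -/
abbrev Ball : Type := {z : Fin 2 → ℂ // ‖z 0‖ ^ 2 + ‖z 1‖ ^ 2 < 1}

/-- Polynomials in `z₁, z₂`. -/
abbrev Pol : Type := MvPolynomial (Fin 2) ℂ

/-- The Hilbert space `ℂ³`. -/
abbrev C3 : Type := EuclideanSpace ℂ (Fin 3)

variable {H : Type} [NormedAddCommGroup H] [InnerProductSpace ℂ H]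

/-- `p(T₁, T₂)`. -/
noncomputable def ev (T : Fin 2 → H →L[ℂ] H) (p : Pol) : H →L[ℂ] H :=
  ∑ α ∈ p.support, p.coeff α • (T 0 ^ α 0 * T 1 ^ α 1)

/-- `‖P(T)‖ ≤ c`, for `P(T)` as an operator from `H ^ m` to `H ^ l`. -/
def Bnd (T : Fin 2 → H →L[ℂ] H) {l m : ℕ} (P : Matrix (Fin l) (Fin m) Pol) (c : ℝ) : Prop :=
  ∀ f : Fin m → H, ∑ i, ‖∑ j, ev T (P i j) (f j)‖ ^ 2 ≤ c ^ 2 * ∑ j, ‖f j‖ ^ 2

/-- `H` is a space of functions `z ↦ ⟪k z, f⟫` on the ball, and `M i` is multiplication by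
the coordinate `z i`. -/
def IsMult (k : Ball → H) (M : Fin 2 → H →L[ℂ] H) : Prop :=
  (∀ f, (∀ z, ⟪k z, f⟫_ℂ = 0) → f = 0) ∧ ∀ i f z, ⟪k z, M i f⟫_ℂ = z.1 i * ⟪k z, f⟫_ℂ

/-- The Szegő kernel of the ball. -/
noncomputable def szego (z w : Ball) : ℂ :=
  1 / (1 - (z.1 0 * star (w.1 0) + z.1 1 * star (w.1 1))) ^ 2

end Pool.Agent.H95.RowVN
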