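import Mathlib

set_option autoImplicit false

open Set Filter Topology Metric

namespace Pool.Agent.H95.Rt1

structure Tree (X : Type) [MetricSpace X] : Prop where
  four : ∀ x y z w : X, dist x z + dist y w ≤ max (dist x y + dist z w) (dist x w + dist y z)
  geo : ∀ x y : X, ∀ s, 0 ≤ s → s ≤ dist x y → ∃ z, dist x z = s ∧ dist z y = dist x y - s
  le3 : ∀ p : X, ∃ c : X → Fin 3, ∀ x y, x ≠ p → y ≠ p → c x = c y →
    dist x y < dist x p + dist p y
  ge3 : ∀ p : X, ∀ r, 0 < r → ∃ y : Fin 3 → X, (∀ i, dist (y i) p = r) ∧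
    ∀ i j, i ≠ j → dist (y i) (y j) = 2 * r

variable {X : Type} [MetricSpace X] (h : Tree X)
include h

theorem Tree.on {u v z : X} (e : dist u z + dist z v = dist u v) (w : X) :
    dist z w = max (dist u w - dist u z) (dist v w - dist z v) := by
  have a := h.four z u w v
  have b := dist_triangle u z w
  have c := dist_triangle v z w
  rw [dist_comm z u, dist_comm w v] at a
  rw [dist_comm v z] at c
  refine le_antisymm ?_ (max_le (by linarith) (by linarith))
  rcases le_max_iff.1 a with a | a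
  · exact le_max_of_le_right (by linarith)
  · exact le_max_of_le_left (by linarith)

theorem Tree.dir {p x y z : X} (a : dist x y < dist x p + dist p y)
    (b : dist y z < dist y p + dist p z) : dist x z < dist x p + dist p z := by
  have c := h.four x y z p
  rw [dist_comm z p] at c
  rw [dist_comm p y] at a
  rcases le_max_iff.1 c with c | c <;> linarith

omit h in
def PI (M : Set (X × X)) : Prop := ∀ a ∈ M, ∀ b ∈ M, dist a.1 b.1 = dist a.2 b.2

theorem total [CompleteSpace X] {M : Set (X × X)} (hM : Maximal PI M) (x : X) :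
    ∃ y, (x, y) ∈ M := by
  have add : ∀ z z', (∀ a ∈ M, dist z a.1 = dist z' a.2) → (z, z') ∈ M := fun z z' e => by
    refine hM.2 (y := insert (z, z') M) ?_ (subset_insert _ _) (mem_insert _ _)
    rintro a (rfl | ha) b (rfl | hb)
    · simp
    · exact e b hb
    · rw [dist_comm, e a ha, dist_comm]
    · exact hM.1 a ha b hb
  rcases M.eq_empty_or_nonempty with rfl | hne
  · exact ⟨x, add x x (by simp)⟩
  set L := infDist x (Prod.fst '' M)
  have key : ∀ a ∈ M, ∀ b ∈ M, 2 * L ≤ dist x a.1 + dist x b.1 - dist a.1 b.1 := by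
    intro a ha b hb
    have t1 := dist_triangle a.1 x b.1
    have t2 := dist_triangle x a.1 b.1
    have t3 := dist_triangle x b.1 a.1
    rw [dist_comm a.1 x] at t1
    rw [dist_comm b.1 a.1] at t3
    obtain ⟨c, c1, c2⟩ := h.geo a.1 b.1 ((dist x a.1 + dist a.1 b.1 - dist x b.1) / 2)
      (by linarith) (by linarith)
    obtain ⟨c', d1, d2⟩ := h.geo a.2 b.2 ((dist x a.1 + dist a.1 b.1 - dist x b.1) / 2)
      (by linarith) (by rw [← hM.1 a ha b hb]; linarith)
    have : (c, c') ∈ M := add c c' fun w hw => by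
      rw [h.on (u := a.1) (v := b.1) (z := c) (by linarith) w.1,
        h.on (u := a.2) (v := b.2) (z := c') (by linarith) w.2,
        c1, c2, d1, d2, hM.1 a ha w hw, hM.1 b hb w hw, hM.1 a ha b hb]
    have l : L ≤ dist x c := infDist_le_dist_of_mem ⟨_, this, rfl⟩
    rw [dist_comm x c, h.on (u := a.1) (v := b.1) (by linarith), c1, c2, dist_comm a.1 x,
      dist_comm b.1 x] at l
    rcases le_max_iff.1 l with l | l <;> linarith
  have : ∀ n : ℕ, ∃ a ∈ M, dist x a.1 < L + 1 / ((n : ℝ) + 1) := fun n => by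
    obtain ⟨_, ⟨a, ha, rfl⟩, e⟩ := (infDist_lt_iff (hne.image Prod.fst)).1
      (lt_add_of_pos_right L (Nat.one_div_pos_of_nat (n := n)))
    exact ⟨a, ha, e⟩
  choose a a1 a2 using this
  have cs : ∀ u : ℕ → X, (∀ n m, dist (u n) (u m) = dist (a n).1 (a m).1) → CauchySeq u :=
    fun u hu => cauchySeq_of_le_tendsto_0' (fun n : ℕ => 2 * (1 / ((n : ℝ) + 1))) (fun n m e => by
      have := key _ (a1 n) _ (a1 m)
      have := Nat.one_div_le_one_div (α := ℝ) e
      linarith [a2 n, a2 m, hu n m])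
      (by simpa using tendsto_one_div_add_atTop_nhds_zero_nat.const_mul (2 : ℝ))
  obtain ⟨p, hp⟩ := cauchySeq_tendsto_of_complete (cs (fun n => (a n).1) fun _ _ => rfl)
  obtain ⟨p', hp'⟩ := cauchySeq_tendsto_of_complete
    (cs (fun n => (a n).2) fun n m => (hM.1 _ (a1 n) _ (a1 m)).symm)
  have pM : (p, p') ∈ M := add p p' fun w hw => tendsto_nhds_unique (hp.dist tendsto_const_nhds)
    ((hp'.dist tendsto_const_nhds).congr fun n => (hM.1 _ (a1 n) w hw).symm)
  have pL : dist x p ≤ L := le_of_tendsto_of_tendsto' (tendsto_const_nhds.dist hp)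
    (by simpa using tendsto_one_div_add_atTop_nhds_zero_nat.const_add L) fun n => (a2 n).le
  have pL' : L ≤ dist x p := infDist_le_dist_of_mem ⟨_, pM, rfl⟩
  have thr : ∀ b ∈ M, dist x b.1 = dist x p + dist p b.1 := fun b hb => by
    have := key _ pM b hb
    have := dist_triangle x p b.1
    dsimp only at *
    linarith
  by_cases e : x = p
  · exact ⟨p', e ▸ pM⟩
  obtain ⟨y, y1, y2⟩ := h.ge3 p' _ (dist_pos.2 e)
  by_contra hc
  have : ∀ i, ∃ b ∈ M, dist (y i) b.2 < dist (y i) p' + dist p' b.2 := fun i => by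
    by_contra k
    push Not at k
    refine hc ⟨y i, add _ _ fun b hb => ?_⟩
    rw [thr b hb, ← y1 i, hM.1 _ pM b hb]
    exact le_antisymm (k b hb) (dist_triangle _ _ _)
  choose b b1 b2 using this
  have ne : ∀ i, (b i).1 ≠ p := fun i e => by
    have := hM.1 _ pM _ (b1 i)
    rw [e, dist_self, eq_comm, dist_eq_zero] at this
    have k := b2 i
    rw [← this] at k
    simp at k
  obtain ⟨c, hc⟩ := h.le3 p
  obtain ⟨i, j, k1, k2⟩ := Fintype.exists_ne_map_eq_of_card_lt
    (fun o : Option (Fin 3) => c (o.elim x fun i => (b i).1)) (by simp)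
  rcases i with _ | i <;> rcases j with _ | j
  · exact k1 rfl
  · exact (hc _ _ e (ne j) k2).ne (thr _ (b1 j))
  · exact (hc _ _ e (ne i) k2.symm).ne (thr _ (b1 i))
  · have k := hc _ _ (ne i) (ne j) k2
    rw [hM.1 _ (b1 i) _ (b1 j), hM.1 _ (b1 i) _ pM, hM.1 _ pM _ (b1 j)] at k
    have k3 := b2 j
    rw [dist_comm (y j), dist_comm (y j), dist_comm p' (b j).2, add_comm] at k3
    have := h.dir (h.dir (b2 i) k) k3
    rw [y2 i j (fun e => k1 (congrArg some e)), y1, dist_comm p' (y j), y1] at this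
    linarith

theorem homog [CompleteSpace X] (A B : Set X) (f : A ≃ᵢ B) : ∃ g : X ≃ᵢ X, ∀ a : A, g a = f a := by
  obtain ⟨M, m1, m2⟩ := zorn_subset_nonempty {M : Set (X × X) | PI M} (fun c hc ch _ =>
    ⟨⋃₀ c, fun a ⟨s, hs, ha⟩ b ⟨t, ht, hb⟩ => by
      rcases ch.total hs ht with e | e
      · exact hc ht a (e ha) b hb
      · exact hc hs a ha b (e hb), fun s hs => subset_sUnion_of_mem hs⟩)
    (range fun a : A => (a.1, (f a).1)) (by
      rintro _ ⟨a, rfl⟩ _ ⟨b, rfl⟩
      exact (f.dist_eq a b).symm)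
  choose g hg using total h m2
  have sw : ∀ N : Set (X × X), PI N → PI (Prod.swap ⁻¹' N) := fun N hN a ha b hb =>
    (hN _ ha _ hb).symm
  have m3 : Maximal PI (Prod.swap ⁻¹' M) := ⟨sw M m2.1, fun N hN e a ha =>
    (m2.2 (sw N hN) (fun b hb => e (show b.swap ∈ Prod.swap ⁻¹' M from hb)) :
      Prod.swap ⁻¹' N ⊆ M) (show a.swap ∈ Prod.swap ⁻¹' N from ha)⟩
  have u : ∀ x y, (x, y) ∈ M → g x = y := fun x y e =>
    dist_eq_zero.1 ((m2.1 _ (hg x) _ e).symm.trans (dist_self x))
  have i : Isometry g := Isometry.of_dist_eq fun x y => (m2.1 _ (hg x) _ (hg y)).symm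
  exact ⟨⟨Equiv.ofBijective g ⟨i.injective, fun y => (total h m3 y).imp fun x => u x y⟩, i⟩,
    fun a => u _ _ (m1 ⟨a, rfl⟩)⟩

theorem conn (p : X) {s : Set X} (hs : ∀ x ∈ s, closedBall p (dist p x) ⊆ s) :
    IsPreconnected s := by
  refine isPreconnected_of_forall p fun x hx => ?_
  choose z z1 z2 using fun t : Icc 0 (dist p x) => h.geo p x t t.2.1 t.2.2
  have i : Isometry z := Isometry.of_dist_eq fun a b => by
    rw [h.on (u := p) (v := x) (by rw [z1, z2]; ring), dist_comm x, z1, z1, z2, z2,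
      Subtype.dist_eq, Real.dist_eq, abs_eq_max_neg, max_comm]
    congr 1 <;> ring
  have := Subtype.preconnectedSpace (isPreconnected_Icc (a := 0) (b := dist p x))
  refine ⟨range z, ?_, ⟨⟨0, le_rfl, dist_nonneg⟩, (dist_eq_zero.1 (z1 _)).symm⟩,
    ⟨⟨_, dist_nonneg, le_rfl⟩, dist_eq_zero.1 ((z2 _).trans (sub_self _))⟩,
    isPreconnected_range i.continuous⟩
  rintro _ ⟨t, rfl⟩
  exact hs x hx (mem_closedBall'.2 ((z1 t).trans_le t.2.2))

end Pool.Agent.H95.Rt1
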