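import Pool.Agent.H95.Rt1

set_option autoImplicit false

open Set Filter Topology Metric

namespace Pool.Agent.H95.Rt2

open Pool.Agent.H95.Rt1

@[ext] structure P where
  t : ℝ
  S : Set ℝ
  lt : ∀ u ∈ S, u < t
  wf : S.IsWF

def E (p q : P) : Set ℝ := insert p.t (insert q.t (symmDiff p.S q.S))

theorem Ewf (p q : P) : (E p q).IsWF :=
  (((p.wf.union q.wf).mono symmDiff_subset_union).insert _).insert _

noncomputable def m (p q : P) : ℝ := (Ewf p q).min (insert_nonempty _ _)

theorem le_m {p q : P} {s : ℝ} :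
    s ≤ m p q ↔ s ≤ p.t ∧ s ≤ q.t ∧ ∀ u < s, (u ∈ p.S ↔ u ∈ q.S) := by
  rw [m, IsWF.le_min_iff]
  simp only [E, forall_mem_insert, mem_symmDiff]
  refine and_congr_right fun _ => and_congr_right fun _ => forall_congr' fun u => ?_
  rw [← not_lt]
  tauto

theorem m1 (p q : P) : m p q ≤ p.t := (le_m.1 le_rfl).1
theorem m2 (p q : P) : m p q ≤ q.t := (le_m.1 le_rfl).2.1
theorem m3 (p q : P) : ∀ u < m p q, (u ∈ p.S ↔ u ∈ q.S) := (le_m.1 le_rfl).2.2

theorem m_comm (p q : P) : m p q = m q p := eq_of_forall_le_iff fun s => by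
  rw [le_m, le_m]
  exact ⟨fun h => ⟨h.2.1, h.1, fun u hu => (h.2.2 u hu).symm⟩,
    fun h => ⟨h.2.1, h.1, fun u hu => (h.2.2 u hu).symm⟩⟩

theorem m_self (p : P) : m p p = p.t := le_antisymm (m1 p p) (le_m.2 ⟨le_rfl, le_rfl, by simp⟩)

theorem ultra (p q r : P) : m p q ≤ m p r ∨ m q r ≤ m p r := min_le_iff.1 (le_m.2
  ⟨(min_le_left _ _).trans (m1 _ _), (min_le_right _ _).trans (m2 _ _), fun u hu =>
    (m3 p q u (hu.trans_le (min_le_left _ _))).trans (m3 q r u (hu.trans_le (min_le_right _ _)))⟩)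

noncomputable instance : MetricSpace P where
  dist p q := p.t + q.t - 2 * m p q
  dist_self p := by rw [m_self]; ring
  dist_comm p q := by rw [m_comm]; ring
  dist_triangle p q r := by
    rcases ultra p q r with h | h <;> linarith [m1 q r, m2 p q]
  eq_of_dist_eq_zero := fun {p q} h => by
    have a := m1 p q
    have b := m2 p q
    have h : p.t + q.t - 2 * m p q = 0 := h
    refine P.ext (by linarith) (Set.ext fun u => ⟨fun c => (m3 p q u ?_).1 c,
      fun c => (m3 p q u ?_).2 c⟩)
    · linarith [p.lt u c]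
    · linarith [q.lt u c]

theorem dist_eq (p q : P) : dist p q = p.t + q.t - 2 * m p q := rfl

def cut (p : P) (u : ℝ) : P := ⟨u, p.S ∩ Iio u, fun _ h => h.2, p.wf.mono inter_subset_left⟩

theorem m_cut {p : P} {u : ℝ} (h : u ≤ p.t) (q : P) : m (cut p u) q = min u (m p q) :=
  eq_of_forall_le_iff fun s => by
    rw [le_min_iff, le_m, le_m]
    refine ⟨fun ⟨a, b, c⟩ => ⟨a, a.trans h, b, fun v hv => ?_⟩, fun ⟨a, _, b, c⟩ =>
      ⟨a, b, fun v hv => ?_⟩⟩ <;> rw [← c v hv]
    · exact (and_iff_left (hv.trans_le a)).symm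
    · exact and_iff_left (hv.trans_le a)

theorem cut_t (p : P) (u : ℝ) : (cut p u).t = u := rfl

def up (p : P) (r : ℝ) (hr : 0 < r) (T : Set ℝ) (hT : T ⊆ Ico p.t (p.t + r)) (w : T.IsWF) : P :=
  ⟨p.t + r, p.S ∪ T, fun u h => h.elim (fun h => by linarith [p.lt u h]) fun h => (hT h).2,
    p.wf.union w⟩

theorem m_up (p : P) (r : ℝ) (hr : 0 < r) (T : Set ℝ) (hT : T ⊆ Ico p.t (p.t + r)) (w : T.IsWF) :
    m (up p r hr T hT w) p = p.t := le_antisymm (m2 _ _) (le_m.2
      ⟨(lt_add_of_pos_right _ hr).le, le_rfl, fun u hu =>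
        or_iff_left fun h => (hT h).1.not_gt hu⟩)

theorem tree : Rt1.Tree P := by
  refine ⟨fun x y z w => ?_, fun x y s s0 s1 => ?_, fun p => ?_, fun p r hr => ?_⟩
  · simp only [dist_eq]
    have a := ultra x y z
    have b := ultra x w z
    have c := ultra y x w
    have d := ultra y z w
    rw [m_comm w z] at b
    rw [m_comm y x] at c
    by_contra h
    rw [not_le, max_lt_iff] at h
    obtain ⟨h1, h2⟩ := h
    rcases a with a | a <;> rcases b with b | b <;> rcases c with c | c <;> rcases d with d | d <;>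
      linarith
  · have a := m1 x y
    have b := m2 x y
    rw [dist_eq] at s1
    by_cases h : s ≤ x.t - m x y
    · refine ⟨cut x (x.t - s), ?_, ?_⟩
      · rw [dist_comm, dist_eq, m_cut (by linarith), m_self, min_eq_left (by linarith), cut_t]; ring
      · rw [dist_eq, dist_eq, m_cut (by linarith), min_eq_right (by linarith), cut_t]; ring
    · refine ⟨cut y (2 * m x y + s - x.t), ?_, ?_⟩
      · rw [dist_comm, dist_eq, m_cut (by linarith), m_comm y, min_eq_right (by linarith), cut_t]
        ring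
      · rw [dist_eq, dist_eq, m_cut (by linarith), m_self, min_eq_left (by linarith), cut_t]; ring
  · classical
    refine ⟨fun x => if m x p < p.t then 0 else if p.t ∈ x.S then 1 else 2, fun x y hx hy e => ?_⟩
    simp only [dist_eq]
    have u := ultra x p y
    rw [m_comm p y] at u ⊢
    have a := m2 x p
    have b := m2 y p
    by_cases c : m x p < p.t <;> by_cases d : m y p < p.t
    · rcases u with u | u <;> linarith
    · simp only [c, d, if_true, if_false] at e; split_ifs at e <;> simp at e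
    · simp only [c, d, if_true, if_false] at e; split_ifs at e <;> simp at e
    have k : p.t ∈ x.S ↔ p.t ∈ y.S := by
      simp only [c, d, if_false] at e
      split_ifs at e <;> simp_all
    have x0 := dist_pos.2 hx
    have y0 := dist_pos.2 hy
    rw [dist_eq] at x0 y0
    have l : p.t ≤ m x y := by rcases u with u | u <;> linarith
    have n : m x y ≠ p.t := fun n => by
      have : m x y ∈ E x y := IsWF.min_mem _ _
      rw [n] at this
      rcases this with h | h | h
      · linarith
      · linarith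
      · rw [mem_symmDiff] at h; tauto
    have := lt_of_le_of_ne l n.symm
    linarith
  · have h1 : (∅ : Set ℝ) ⊆ Ico p.t (p.t + r) := empty_subset _
    have h2 : {p.t} ⊆ Ico p.t (p.t + r) := by simpa using hr
    let y0 := cut p (p.t - r)
    let y1 := up p r hr _ h1 isWF_empty
    let y2 := up p r hr _ h2 isWF_singleton
    have e1 : m y1 p = p.t := m_up ..
    have e2 : m y2 p = p.t := m_up ..
    have t1 : y1.t = p.t + r := rfl
    have t2 : y2.t = p.t + r := rfl
    have d0 : ∀ q, m q p = p.t → q.t = p.t + r → dist y0 q = 2 * r := fun q a b => by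
      rw [dist_eq, m_cut (by linarith), m_comm, a, min_eq_left (by linarith), cut_t, b]; ring
    have d1 : dist y1 y2 = 2 * r := by
      have a : p.t ≤ m y1 y2 := by
        rcases ultra y1 p y2 with u | u
        · linarith
        · rw [m_comm] at u; linarith
      have b : m y1 y2 ≤ p.t := not_lt.1 fun h => lt_irrefl _ (p.lt _
        (by simpa [y1, up] using (m3 _ _ _ h).2 (Or.inr rfl)))
      rw [dist_eq]; linarith
    refine ⟨![y0, y1, y2], fun i => ?_, fun i j h => ?_⟩
    · fin_cases i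
      · show dist y0 p = r
        rw [dist_eq, m_cut (by linarith), m_self, min_eq_left (by linarith), cut_t]; ring
      · show dist y1 p = r
        rw [dist_eq]; linarith
      · show dist y2 p = r
        rw [dist_eq]; linarith
    · have a := d0 y1 e1 t1
      have b := d0 y2 e2 t2
      fin_cases i <;> fin_cases j <;> simp_all [dist_comm]

instance : CompleteSpace P := Metric.complete_of_cauchySeq_tendsto fun x hx => by
  have lip : ∀ p q : P, |p.t - q.t| ≤ dist p q := fun p q => by
    rw [dist_eq, abs_le]; constructor <;> linarith [m1 p q, m2 p q]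
  obtain ⟨t, ht⟩ := cauchySeq_tendsto_of_complete
    ((LipschitzWith.of_dist_le_mul (K := 1) (f := P.t) fun p q => by
      simpa [Real.dist_eq] using lip p q).uniformContinuous.comp_cauchySeq hx)
  have key : ∀ s < t, ∃ N, ∀ n ≥ N, s ≤ (x n).t ∧
      ∀ u < s, (u ∈ (x n).S ↔ u < t ∧ ∀ᶠ k in atTop, u ∈ (x k).S) := fun s hs => by
    obtain ⟨N, hN⟩ := Metric.cauchySeq_iff.1 hx ((t - s) / 2) (by linarith)
    obtain ⟨M, hM⟩ := eventually_atTop.1 (ht.eventually (lt_mem_nhds (show (s + t) / 2 < t by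
      linarith)))
    have k : ∀ n ≥ max N M, ∀ k ≥ max N M, s ≤ m (x n) (x k) := fun n hn k hk => by
      have a := hN n (le_of_max_le_left hn) k (le_of_max_le_left hk)
      have b : (s + t) / 2 < (x n).t := hM n (le_of_max_le_right hn)
      have c : (s + t) / 2 < (x k).t := hM k (le_of_max_le_right hk)
      rw [dist_eq] at a
      linarith
    refine ⟨max N M, fun n hn => ⟨(k n hn n hn).trans (m1 _ _), fun u hu => ⟨fun h =>
      ⟨hu.trans hs, eventually_atTop.2 ⟨_, fun j hj => ((le_m.1 (k n hn j hj)).2.2 u hu).1 h⟩⟩,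
      fun h => ?_⟩⟩⟩
    obtain ⟨j, j1, j2⟩ := (h.2.and (eventually_ge_atTop (max N M))).exists
    exact ((le_m.1 (k n hn j j2)).2.2 u hu).2 j1
  let p : P := ⟨t, {u | u < t ∧ ∀ᶠ k in atTop, u ∈ (x k).S}, fun u h => h.1, by
    refine isWF_iff_no_descending_seq.2 fun f hf hs => ?_
    obtain ⟨N, hN⟩ := key (f 0) (hs 0).1
    exact isWF_iff_no_descending_seq.1 (x N).wf (fun n => f (n + 1))
      (fun a b h => hf (Nat.succ_lt_succ h)) fun n =>
        ((hN N le_rfl).2 _ (hf n.succ_pos)).2 (hs _)⟩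
  refine ⟨p, Metric.tendsto_atTop.2 fun ε hε => ?_⟩
  obtain ⟨N, hN⟩ := key (t - ε / 4) (by linarith)
  obtain ⟨M, hM⟩ := eventually_atTop.1 (ht.eventually (gt_mem_nhds (show t < t + ε / 4 by linarith)))
  refine ⟨max N M, fun n hn => ?_⟩
  have a := hN n (le_of_max_le_left hn)
  have b : (x n).t < t + ε / 4 := hM n (le_of_max_le_right hn)
  have c : t - ε / 4 ≤ m (x n) p := le_m.2 ⟨a.1, by show t - ε / 4 ≤ t; linarith, a.2⟩
  have d : p.t = t := rfl
  rw [dist_eq]
  linarith

theorem main : ∃ (X : Type) (_ : MetricSpace X), CompleteSpace X ∧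
    (∀ (A B : Set X) (f : A ≃ᵢ B), ∃ g : X ≃ᵢ X, ∀ a : A, g a = f a) ∧ ConnectedSpace X ∧
    LocallyConnectedSpace X ∧ ¬ LocallyCompactSpace X := by
  let p : P := ⟨0, ∅, by simp, isWF_empty⟩
  refine ⟨P, inferInstance, inferInstance, homog tree,
    @ConnectedSpace.mk _ _ ⟨conn tree p fun _ _ => subset_univ _⟩ ⟨p⟩,
    locallyConnectedSpace_of_connected_bases _ _ (fun x => nhds_basis_ball) fun x r _ =>
      conn tree x fun y hy => closedBall_subset_ball (mem_ball'.1 hy), fun h => ?_⟩
  obtain ⟨K, k1, k2⟩ := exists_compact_mem_nhds p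
  obtain ⟨r, hr, k3⟩ := nhds_basis_closedBall.mem_iff.1 k2
  have q : ∀ n : ℕ, 0 < r / (n + 2) ∧ r / (n + 2) ≤ r / 2 := fun n =>
    ⟨by positivity, div_le_div_of_nonneg_left hr.le two_pos (by simp)⟩
  have hT : ∀ n : ℕ, {r / (n + 2)} ⊆ Ico p.t (p.t + r) := fun n => by
    rintro _ rfl
    exact ⟨(q n).1.le, by show _ < 0 + r; linarith [(q n).2]⟩
  let x : ℕ → P := fun n => up p r hr _ (hT n) isWF_singleton
  obtain ⟨z, -, φ, f1, f2⟩ := k1.tendsto_subseq (x := x) fun n => k3 (by
    rw [mem_closedBall, dist_eq, m_up]; show p.t + r + _ - _ ≤ r; linarith)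
  obtain ⟨N, hN⟩ := Metric.cauchySeq_iff'.1 f2.cauchySeq r hr
  have a := hN (N + 1) N.le_succ
  have b : m (x (φ (N + 1))) (x (φ N)) ≤ r / (φ N + 2) := not_lt.1 fun h => by
    have := (m3 _ _ _ h).2 (Or.inr rfl)
    simp [x, up, p, hr.ne', div_eq_div_iff, f1.injective.eq_iff] at this
    rw [div_eq_div_iff (by positivity) (by positivity)] at this
    have := f1.injective (Nat.cast_injective (R := ℝ) (add_right_cancel (mul_left_cancel₀ hr.ne' this)))
    omega
  have c : dist (x (φ (N + 1))) (x (φ N)) = 0 + r + (0 + r) - 2 * m _ _ := rfl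
  simp only [Function.comp] at a
  linarith [(q (φ N)).2]

end Pool.Agent.H95.Rt2
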