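import Pool.Agent.H95.SGDefs
import Pool.Agent.H91.Renorm

namespace Pool.Agent.H95.SG
open Finset Pool.Agent.H91.Renorm

variable {𝕜 : Type} [RCLike 𝕜]

abbrev E (𝕜 : Type) [RCLike 𝕜] := lp (fun _ : ℕ => 𝕜) 1

noncomputable def L (n : ℕ) (y : ℕ → 𝕜) : 𝕜 := (if n = 0 then 0 else y 0) - if n = 1 then 0 else y 1

noncomputable def T : Option ℕ → E 𝕜 → ℝ
  | none, y => 3 / 4 * ‖y‖
  | some n, y => ‖y n‖ + ‖L n y‖ / 2

theorem co (y : E 𝕜) (n : ℕ) : ‖y n‖ ≤ ‖y‖ := lp.norm_apply_le_norm one_ne_zero y n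

theorem T_le (o : Option ℕ) (y : E 𝕜) : T o y ≤ 2 * ‖y‖ := by
  rcases o with _ | n
  · simp only [T]; linarith [norm_nonneg y]
  · have := norm_sub_le (if n = 0 then 0 else y 0) (if n = 1 then 0 else y 1)
    have a : ‖(if n = 0 then 0 else y 0 : 𝕜)‖ ≤ ‖y‖ := by split_ifs; exacts [by simp, co y 0]
    have b : ‖(if n = 1 then 0 else y 1 : 𝕜)‖ ≤ ‖y‖ := by split_ifs; exacts [by simp, co y 1]
    simp only [T, L]; linarith [co y n]

theorem le_p (o : Option ℕ) (y : E 𝕜) : T o y ≤ ⨆ o, T o y :=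
  le_ciSup (f := fun o => T o y) ⟨_, Set.forall_mem_range.2 fun o => T_le o y⟩ o

noncomputable def N (𝕜 : Type) [RCLike 𝕜] : EqNorm 𝕜 (E 𝕜) where
  p := Seminorm.of (fun y => ⨆ o, T o y) (fun a b => ciSup_le fun o => (show T o (a + b) ≤ T o a + T o b by
      rcases o with _ | n
      · simp only [T]; linarith [norm_add_le a b]
      · have : L n ((a : ℕ → 𝕜) + (b : ℕ → 𝕜)) = L n a + L n b := by simp only [L, Pi.add_apply]; split_ifs <;> ring
        simp only [T, lp.coeFn_add, this, Pi.add_apply]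
        linarith [norm_add_le (a n) (b n), norm_add_le (L n a) (L n b)]).trans (add_le_add (le_p o a) (le_p o b)))
    fun c a => by
      rw [Real.mul_iSup_of_nonneg (norm_nonneg c)]
      refine iSup_congr fun o => ?_
      rcases o with _ | n
      · simp only [T, norm_smul]; ring
      · have : L n (c • (a : ℕ → 𝕜)) = c * L n a := by simp only [L, Pi.smul_apply, smul_eq_mul]; split_ifs <;> ring
        simp only [T, lp.coeFn_smul, this, Pi.smul_apply, norm_smul, norm_mul]; ring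
  lower := ⟨4 / 3, fun y => by have : 3 / 4 * ‖y‖ ≤ _ := le_p none y; change _ ≤ _ * ⨆ o, T o y; linarith⟩
  upper := ⟨2, fun y => ciSup_le fun o => T_le o y⟩

noncomputable def R (y : E 𝕜) (A : Finset ℕ) : E 𝕜 := y - ∑ n ∈ A, lp.single 1 n (y n)

theorem Rap (y : E 𝕜) (A : Finset ℕ) (k : ℕ) : R y A k = if k ∈ A then 0 else y k := by
  simp only [R, lp.coeFn_sub, lp.coeFn_sum, Pi.sub_apply, Finset.sum_apply, lp.single_apply, Pi.single_apply]
  split_ifs with h <;> simp [h]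

theorem Rn (y : E 𝕜) (A : Finset ℕ) : ‖R y A‖ = ‖y‖ - ∑ n ∈ A, ‖y n‖ := by
  simpa [R] using lp.norm_compl_sum_single (p := 1) (by simp) y A

theorem ag (y : E 𝕜) (A B : Finset ℕ) (h : ∀ n ∈ A, ∀ k ∉ A, ‖y k‖ ≤ ‖y n‖) (hc : B.card ≤ A.card) (o : Option ℕ) :
    T o (R y A) ≤ ⨆ o, T o (R y B) := by
  have c : (B \ A).card ≤ (A \ B).card := by
    have := card_sdiff_add_card_inter A B; have := card_sdiff_add_card_inter B A; rw [inter_comm] at this; omega
  rcases (A \ B).eq_empty_or_nonempty with e | e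
  · have : A = B := eq_of_subset_of_card_le (sdiff_eq_empty_iff_subset.1 e) hc
    subst this; exact le_p o _
  obtain ⟨m, hm, hm'⟩ := A.exists_min_image (fun n => ‖y n‖) (e.mono sdiff_subset)
  have h1 := h m hm
  have t0 := norm_nonneg (y m)
  generalize ‖y m‖ = t at *
  have ut : ∀ k, ‖R y A k‖ ≤ t := fun k => by rw [Rap]; split_ifs with h; exacts [by simpa, h1 k h]
  have v0 : 3 / 4 * ‖R y B‖ ≤ _ := le_p none _
  rcases o with _ | n
  · refine le_trans ?_ v0
    have a := sum_le_card_nsmul (B \ A) (fun n => ‖y n‖) t fun k hk => h1 k (mem_sdiff.1 hk).2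
    have b := card_nsmul_le_sum (A \ B) (fun n => ‖y n‖) t fun k hk => hm' k (mem_sdiff.1 hk).1
    have a' := sum_inter_add_sum_sdiff A B fun n => ‖y n‖
    have b' := sum_inter_add_sum_sdiff B A fun n => ‖y n‖
    rw [inter_comm] at b'
    simp only [T, Rn]; linarith [nsmul_le_nsmul_left t0 c]
  by_cases ex : n ∈ B \ A ∧ (A \ B).card = 1
  · obtain ⟨p, hp⟩ := card_eq_one.1 ex.2
    have hp' := mem_sdiff.1 (hp ▸ mem_singleton_self p)
    have hn := mem_sdiff.1 ex.1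
    have : ∀ k, (if n = k then 0 else R y A k) = if p = k then 0 else R y B k := fun k => by
      have a : k ∈ A → k ∉ B → p = k := fun a b => (mem_singleton.1 (hp ▸ mem_sdiff.2 ⟨a, b⟩)).symm
      have b : k ∈ B → k ∉ A → n = k := fun a b => card_le_one.1 (c.trans ex.2.le) _ ex.1 _ (mem_sdiff.2 ⟨a, b⟩)
      rw [Rap, Rap]; grind
    refine le_trans ?_ (le_p (some p) _)
    simp only [T, L, this]
    rw [Rap y B p, if_neg hp'.2]; linarith [ut n, hm' p hp'.1]
  refine le_trans ?_ v0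
  let g : ℕ → ℝ := fun k => if k ∈ B \ A then 0 else ‖R y A k‖
  have key : ∀ K : Finset ℕ, ∑ k ∈ K, g k + (A \ B).card * t ≤ ‖R y B‖ := fun K => by
    have a := lp.sum_rpow_le_norm_rpow (p := 1) (by simp) (R y B) (K ∪ A \ B)
    simp only [ENNReal.toReal_one, Real.rpow_one] at a
    refine le_trans ?_ ((sum_le_sum (f := fun k => g k + if k ∈ A \ B then t else 0) fun k _ => ?_).trans a)
    · rw [sum_add_distrib, sum_ite_mem, inter_eq_right.2 subset_union_right, sum_const, nsmul_eq_mul]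
      exact add_le_add_left (sum_le_sum_of_subset_of_nonneg subset_union_left
        fun k _ _ => by simp only [g]; positivity) _
    · have := hm' k
      simp only [g, Rap, mem_sdiff]
      by_cases a : k ∈ A <;> by_cases b : k ∈ B <;> simp_all
  have k1 : ∀ K : Finset ℕ, ∑ k ∈ K, g k + t ≤ ‖R y B‖ := fun K => le_trans (by
    gcongr; exact le_mul_of_one_le_left t0 (by simpa using e)) (key K)
  have k2 : n ∈ B \ A → ∀ K : Finset ℕ, ∑ k ∈ K, g k + 2 * t ≤ ‖R y B‖ := fun h K => le_trans (by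
    gcongr; have := e.card_pos; have := mt (And.intro h) ex; norm_cast; omega) (key K)
  have k3 : ∀ K : Finset ℕ, ∑ k ∈ K, (g k + if k ∈ B \ A then t else 0) ≤ ‖R y B‖ := fun K => le_trans (by
    rw [sum_add_distrib, sum_ite_mem, sum_const, nsmul_eq_mul]
    gcongr _ + ?_ * _; exact_mod_cast (card_le_card inter_subset_right).trans c) (key K)
  simp only [T, L]
  have g1 : ∀ k, g k = if k ∈ B \ A then 0 else ‖R y A k‖ := fun _ => rfl
  clear_value g
  generalize ‖R y B‖ = V at *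
  generalize B \ A = F at *
  generalize (R y A : ℕ → 𝕜) = u at *
  clear key ex c h hm' h1 v0 e hm hc
  have u0 := ut 0; have u1 := ut 1; have un := ut n
  have w0 := norm_nonneg (u 0); have w1 := norm_nonneg (u 1); have wn := norm_nonneg (u n)
  by_cases n0 : n = 0
  · subst n0
    have a := k1 {0, 1}; have b := fun h => k2 h {0, 1}; have c := k3 {0, 1}
    by_cases e0 : 0 ∈ F <;> by_cases e1 : 1 ∈ F <;> simp [g1, e0, e1] at a b c ⊢ <;> linarith
  by_cases n1 : n = 1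
  · subst n1
    have a := k1 {0, 1}; have b := fun h => k2 h {0, 1}; have c := k3 {0, 1}
    by_cases e0 : 0 ∈ F <;> by_cases e1 : 1 ∈ F <;> simp [g1, e0, e1] at a b c ⊢ <;> linarith
  have a := k1 {n, 0, 1}; have b := fun h => k2 h {n, 0, 1}; have c := k3 {n, 0, 1}
  have := norm_sub_le (u 0) (u 1)
  by_cases e0 : 0 ∈ F <;> by_cases e1 : 1 ∈ F <;> by_cases en : n ∈ F <;>
    simp [g1, e0, e1, en, n0, n1] at a b c ⊢ <;> linarith

noncomputable def xx (𝕜 : Type) [RCLike 𝕜] (n : ℕ) : (N 𝕜).Sp := (N 𝕜).eqv.symm (lp.single 1 n 1)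
noncomputable def ff (𝕜 : Type) [RCLike 𝕜] (n : ℕ) : (N 𝕜).Sp →L[𝕜] 𝕜 :=
  lp.evalCLM 𝕜 _ 1 n ∘L ((N 𝕜).eqv : (N 𝕜).Sp →L[𝕜] E 𝕜)

theorem ffa (n : ℕ) (y : (N 𝕜).Sp) : ff 𝕜 n y = (N 𝕜).eqv y n := rfl

theorem sm (c : 𝕜) (n : ℕ) : (N 𝕜).eqv (c • xx 𝕜 n) = lp.single 1 n c := by
  rw [map_smul, xx, ContinuousLinearEquiv.apply_symm_apply, ← lp.single_smul, smul_eq_mul, mul_one]

theorem nr (y : (N 𝕜).Sp) : ‖y‖ = ⨆ o, T o ((N 𝕜).eqv y) := rfl

theorem main : IsM (xx 𝕜) (ff 𝕜) ∧ AlmostGreedy1 (xx 𝕜) (ff 𝕜) ∧ ¬ SemiGreedy1 (xx 𝕜) (ff 𝕜) := by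
  refine ⟨⟨fun k n => by simp [ffa, xx, lp.single_apply, Pi.single_apply], fun y => ?_,
    fun y h => (N 𝕜).eqv.map_eq_zero_iff.1 (lp.ext (funext h)), 2, fun n => ⟨?_, ?_⟩⟩, fun y A h => ?_, fun h => ?_⟩
  · have := (lp.hasSum_single (by simp) ((N 𝕜).eqv y)).mapL ((N 𝕜).eqv.symm : E 𝕜 →L[𝕜] (N 𝕜).Sp)
    simp only [← sm, ContinuousLinearEquiv.coe_coe, ContinuousLinearEquiv.symm_apply_apply] at this
    exact mem_closure_of_tendsto this (Filter.Eventually.of_forall fun F => Submodule.sum_mem _ fun n _ =>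
      Submodule.smul_mem _ _ (Submodule.subset_span ⟨n, rfl⟩))
  · rw [nr]; exact ciSup_le fun o => (T_le o _).trans (by simp [xx, lp.norm_single])
  · refine ContinuousLinearMap.opNorm_le_bound _ zero_le_two fun y => ?_
    have : ‖(N 𝕜).eqv y n‖ + _ ≤ ‖y‖ := le_p (some n) _
    rw [ffa]; linarith [norm_nonneg y, norm_nonneg (L n ((N 𝕜).eqv y))]
  · haveI : Nonempty {B : Finset ℕ // B.card ≤ A.card} := ⟨⟨A, le_rfl⟩⟩
    refine le_ciInf fun B => ?_
    simp only [nr, map_sub, map_sum, sm]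
    exact ciSup_le (ag _ A B h B.2)
  · have := h ((1 / 2 : 𝕜) • xx 𝕜 0 + (1 : 𝕜) • xx 𝕜 1 + (1 : 𝕜) • xx 𝕜 2) {2} fun n hn k hk => by
      obtain rfl := mem_singleton.1 hn
      simp only [ffa, map_add, sm, lp.coeFn_add, Pi.add_apply, lp.single_apply, Pi.single_apply]
      rcases k with _ | _ | _ | k <;> simp at hk ⊢
      norm_num
    have a := (le_ciInf (c := 5 / 4) fun a => le_trans ?_ ((le_p (some 1) _).trans_eq (nr _).symm)).trans (this.trans (ciInf_le
      ⟨0, Set.forall_mem_range.2 fun _ => norm_nonneg _⟩ (⟨{1}, by simp⟩, fun _ => 9 / 10)))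
    · have e : (1 / 2 : 𝕜) • xx 𝕜 0 + (1 : 𝕜) • xx 𝕜 1 + (1 : 𝕜) • xx 𝕜 2 - ∑ n ∈ {1}, (9 / 10 : 𝕜) • xx 𝕜 n =
        (1 / 2 : 𝕜) • xx 𝕜 0 + (1 / 10 : 𝕜) • xx 𝕜 1 + (1 : 𝕜) • xx 𝕜 2 := by simp only [sum_singleton]; module
      rw [e, nr] at a
      refine absurd (a.trans (ciSup_le (c := 6 / 5) fun o => ?_)) (by norm_num)
      simp only [map_add, sm]
      rcases o with _ | n
      · have := norm_add₃_le (a := lp.single 1 0 (1 / 2 : 𝕜)) (b := (lp.single 1 1 (1 / 10 : 𝕜) : E 𝕜))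
          (c := lp.single 1 2 1)
        simp only [lp.norm_single one_pos] at this
        simp only [T]; norm_num at this ⊢; linarith
      · simp only [T, L, lp.coeFn_add, Pi.add_apply, lp.single_apply, Pi.single_apply]
        rcases n with _ | _ | _ | n <;> norm_num
        split_ifs <;> norm_num
    · simp only [T, L, map_sub, map_add, sum_singleton, sm, lp.coeFn_add, lp.coeFn_sub, Pi.add_apply, Pi.sub_apply,
        lp.single_apply, Pi.single_apply]
      norm_num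

end Pool.Agent.H95.SG
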