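import Mathlib

namespace Pool.Agent.H95.SG

variable {𝕜 X : Type} [RCLike 𝕜] [NormedAddCommGroup X] [NormedSpace 𝕜 X] (x : ℕ → X) (f : ℕ → X →L[𝕜] 𝕜)

/-- semi-normalized Markushevich basis with biorthogonal functionals -/
def IsM : Prop :=
  (∀ k n, f k (x n) = if k = n then 1 else 0) ∧ Dense (Submodule.span 𝕜 (Set.range x) : Set X) ∧
    (∀ y, (∀ n, f n y = 0) → y = 0) ∧ ∃ M : ℝ, ∀ n, ‖x n‖ ≤ M ∧ ‖f n‖ ≤ M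

def Greedy (y : X) (A : Finset ℕ) : Prop := ∀ n ∈ A, ∀ k ∉ A, ‖f k y‖ ≤ ‖f n y‖

def AlmostGreedy1 : Prop := ∀ y A, Greedy f y A →
  ‖y - ∑ n ∈ A, f n y • x n‖ ≤ ⨅ B : {B : Finset ℕ // B.card ≤ A.card}, ‖y - ∑ n ∈ B.1, f n y • x n‖

def SemiGreedy1 : Prop := ∀ y A, Greedy f y A →
  ⨅ a : ℕ → 𝕜, ‖y - ∑ n ∈ A, a n • x n‖ ≤
    ⨅ p : {B : Finset ℕ // B.card ≤ A.card} × (ℕ → 𝕜), ‖y - ∑ n ∈ p.1.1, p.2 n • x n‖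

end Pool.Agent.H95.SG
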