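import Pool.Agent.H95.SSingDefs

set_option autoImplicit false
open Filter Topology Metric
open scoped BoundedContinuousFunction

namespace Pool.Agent.H95.SSing
open Pool.Agent.H95.SSingDefs

abbrev X : Type := lp (fun _ : ℕ => ℂ) 1
abbrev E : Type := X × (ℕ →ᵇ ℂ)

theorem hs (a : X) : HasSum (fun n => ‖a n‖) ‖a‖ := by
  simpa using lp.hasSum_norm (p := 1) (by simp) a

theorem a_le (x : E) (n : ℕ) : ‖x.1 n‖ ≤ ‖x‖ :=
  (lp.norm_apply_le_norm one_ne_zero x.1 n).trans (norm_fst_le x)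

theorem b_le (x : E) (n : ℕ) : ‖x.2 n‖ ≤ ‖x‖ := (x.2.norm_coe_le_norm n).trans (norm_snd_le x)

noncomputable def co (x : E) (k : ℕ) : ℂ :=
  x.1 (k / 2) + if k % 2 = 1 then (1 / 2) ^ k * x.2 (k / 2) else 0

theorem half_le (k : ℕ) : ‖((1 / 2 : ℂ)) ^ k‖ = (1 / 2) ^ k := by simp

theorem co_le (x : E) (k : ℕ) : ‖co x k‖ ≤ 2 * ‖x‖ := by
  unfold co
  refine (norm_add_le _ _).trans ?_
  have h1 := a_le x (k / 2)
  have h2 := b_le x (k / 2)
  have h3 : ((1 / 2 : ℝ)) ^ k ≤ 1 := pow_le_one₀ (by norm_num) (by norm_num)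
  split_ifs
  · rw [norm_mul, half_le]
    nlinarith [norm_nonneg (x.2 (k / 2))]
  · rw [norm_zero]; linarith [norm_nonneg x]

noncomputable def J (x : E) (z : ℂ) : ℂ := ∑' k, co x k * z ^ k

theorem bd (x : E) (z : ℂ) (k : ℕ) : ‖co x k * z ^ k‖ ≤ 2 * ‖x‖ * ‖z‖ ^ k := by
  rw [norm_mul, norm_pow]
  gcongr
  exact co_le x k

theorem sm (x : E) {z : ℂ} (hz : ‖z‖ < 1) : Summable fun k => co x k * z ^ k :=
  Summable.of_norm_bounded ((summable_geometric_of_lt_one (norm_nonneg z) hz).mul_left _) (bd x z)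

theorem ps (x : E) : HasFPowerSeriesOnBall (J x) (FormalMultilinearSeries.ofScalars ℂ (co x)) 0 1 := by
  refine ⟨?_, one_pos, fun {y} hy => ?_⟩
  · refine FormalMultilinearSeries.le_radius_of_bound _ (2 * ‖x‖) (r := 1) fun n => ?_
    simpa [FormalMultilinearSeries.ofScalars_norm] using co_le x n
  · have hy2 : ‖y‖ < 1 := by
      have := mem_eball_zero_iff.1 hy
      rwa [← ofReal_norm, ENNReal.ofReal_lt_one] at this
    simpa [FormalMultilinearSeries.ofScalars_apply_eq', J, mul_comm] using (sm x hy2).hasSum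

theorem bsaf : IsBSAF J where
  complete := inferInstance
  analytic := fun x z hz => (ps x).analyticAt_of_mem (by
    rw [mem_eball_zero_iff, ← ofReal_norm, ENNReal.ofReal_lt_one]; simpa using hz)
  eval := fun z hz => by
    have hz2 : ‖z‖ < 1 := by simpa using hz
    refine ⟨LinearMap.mkContinuous
      { toFun := fun x => J x z
        map_add' := fun x y => ?_
        map_smul' := fun c x => ?_ } (2 * (1 - ‖z‖)⁻¹) fun x => ?_, fun _ => rfl⟩
    · rw [J, J, J, ← (sm x hz2).tsum_add (sm y hz2)]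
      refine tsum_congr fun k => ?_
      simp only [co, Prod.fst_add, Prod.snd_add, lp.coeFn_add, Pi.add_apply,
        BoundedContinuousFunction.coe_add]
      split_ifs <;> ring
    · rw [J, J, RingHom.id_apply, smul_eq_mul, ← tsum_mul_left]
      refine tsum_congr fun k => ?_
      simp only [co, Prod.smul_fst, Prod.smul_snd, lp.coeFn_smul, Pi.smul_apply, smul_eq_mul,
        BoundedContinuousFunction.coe_smul]
      split_ifs <;> ring
    · have := tsum_of_norm_bounded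
        ((hasSum_geometric_of_lt_one (norm_nonneg z) hz2).mul_left (2 * ‖x‖)) (bd x z)
      refine this.trans (le_of_eq (by ring))
  inj := fun x hx => by
    have h1 := (ps x).hasFPowerSeriesAt.eq_zero_of_eventually (by
      filter_upwards [ball_mem_nhds (0 : ℂ) one_pos] with z hz using hx z hz)
    rw [FormalMultilinearSeries.ofScalars_series_eq_zero] at h1
    have h2 : ∀ n, x.1 n = 0 := fun n => by
      have := congrFun h1 (2 * n)
      simpa [co] using this
    have h3 : ∀ n, x.2 n = 0 := fun n => by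
      have := congrFun h1 (2 * n + 1)
      simpa [co, h2, show (2 * n + 1) / 2 = n by omega] using this
    exact Prod.ext (lp.ext (funext h2)) (BoundedContinuousFunction.ext h3)

noncomputable def C1 (x : E) : X := ⟨fun n => (1 / 2) ^ (2 * n) * x.1 n, by
  refine memℓp_gen ?_
  simp only [ENNReal.toReal_one, Real.rpow_one]
  refine Summable.of_nonneg_of_le (fun _ => norm_nonneg _) (fun n => ?_) (hs x.1).summable
  rw [norm_mul, half_le]
  exact mul_le_of_le_one_left (norm_nonneg _) (pow_le_one₀ (by norm_num) (by norm_num))⟩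

theorem C2_le (x : E) (n : ℕ) : ‖-x.1 n + (1 / 2) ^ (2 * n + 1) * x.2 n‖ ≤
    ‖x.1 n‖ + (1 / 2) ^ n * ‖x.2 n‖ := by
  refine (norm_add_le _ _).trans ?_
  rw [norm_neg, norm_mul, half_le]
  exact add_le_add le_rfl (mul_le_mul_of_nonneg_right
    (pow_le_pow_of_le_one (by norm_num) (by norm_num) (by omega)) (norm_nonneg _))

noncomputable def C2 (x : E) : ℕ →ᵇ ℂ :=
  BoundedContinuousFunction.ofNormedAddCommGroupDiscrete
    (fun n => -x.1 n + (1 / 2) ^ (2 * n + 1) * x.2 n) (2 * ‖x‖) fun n => by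
      refine (C2_le x n).trans ?_
      have h3 : ((1 / 2 : ℝ)) ^ n ≤ 1 := pow_le_one₀ (by norm_num) (by norm_num)
      nlinarith [a_le x n, b_le x n, norm_nonneg (x.2 n)]

theorem C1_apply (x : E) (n : ℕ) : C1 x n = (1 / 2) ^ (2 * n) * x.1 n := rfl
theorem C2_apply (x : E) (n : ℕ) : C2 x n = -x.1 n + (1 / 2) ^ (2 * n + 1) * x.2 n := rfl

theorem est (x : E) (N : ℕ) (h : ∀ n < N, x.1 n = 0 ∧ x.2 n = 0) (s : ℝ) (hs0 : ∀ n, ‖x.1 n‖ ≤ s) :
    ‖(C1 x, C2 x)‖ ≤ (1 / 2) ^ N * ‖x‖ + s := by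
  have s0 : 0 ≤ s := (norm_nonneg _).trans (hs0 0)
  have hp : ∀ n, N ≤ n → ((1 / 2 : ℝ)) ^ n ≤ (1 / 2) ^ N := fun n hn =>
    pow_le_pow_of_le_one (by norm_num) (by norm_num) hn
  rw [Prod.norm_def]
  refine max_le ?_ ?_
  · have h1 : ‖C1 x‖ ≤ (1 / 2) ^ N * ‖x.1‖ := by
      refine hasSum_le (fun n => ?_) (hs (C1 x)) ((hs x.1).mul_left _)
      rw [C1_apply, norm_mul, half_le]
      rcases lt_or_ge n N with h2 | h2
      · simp [(h n h2).1]
      · gcongr ?_ * _
        exact hp _ (by omega)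
    have h2 : (1 / 2 : ℝ) ^ N * ‖x.1‖ ≤ (1 / 2) ^ N * ‖x‖ := by gcongr; exact norm_fst_le x
    linarith
  · refine (BoundedContinuousFunction.norm_le (by positivity)).2 fun n => (C2_le x n).trans ?_
    rw [add_comm]
    refine add_le_add ?_ (hs0 n)
    rcases lt_or_ge n N with h2 | h2
    · rw [(h n h2).2, norm_zero, mul_zero]; positivity
    · exact mul_le_mul (hp n h2) (b_le x n) (norm_nonneg _) (by positivity)

noncomputable def C : E →L[ℂ] E := LinearMap.mkContinuous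
  { toFun := fun x => (C1 x, C2 x)
    map_add' := fun x y => Prod.ext (lp.ext (funext fun n => by simp [C1_apply, mul_add]))
      (BoundedContinuousFunction.ext fun n => by simp [C2_apply]; ring)
    map_smul' := fun c x => Prod.ext (lp.ext (funext fun n => by simp [C1_apply]; ring))
      (BoundedContinuousFunction.ext fun n => by simp [C2_apply]; ring) } 2
  fun x => (est x 0 (by simp) _ (a_le x)).trans (le_of_eq (by ring))

theorem C_apply (x : E) : C x = (C1 x, C2 x) := rfl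

theorem J_C (x : E) (z : ℂ) : J (C x) z = J x (z / 2) := by
  refine tsum_congr fun k => ?_
  simp only [co, C_apply, C1_apply, C2_apply]
  rcases Nat.even_or_odd' k with ⟨n, rfl | rfl⟩
  · simp only [show 2 * n % 2 = 0 by omega, show 2 * n / 2 = n by omega]
    simp [div_pow]; ring
  · simp only [show (2 * n + 1) % 2 = 1 by omega, show (2 * n + 1) / 2 = n by omega, if_true]
    rw [div_eq_mul_one_div z, mul_pow]
    ring

theorem ssing : StrictlySingular C := by
  intro M _ hM c hc h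
  have ex : ∀ N, ∃ x ∈ M, x ≠ 0 ∧ ∀ n < N, x.1 n = 0 ∧ x.2 n = 0 := by
    intro N
    by_contra hn
    push Not at hn
    let L : M →ₗ[ℂ] (Fin N → ℂ × ℂ) :=
      { toFun := fun x n => (x.1.1 n, x.1.2 n)
        map_add' := fun x y => by ext n <;> simp
        map_smul' := fun a x => by ext n <;> simp }
    refine hM (FiniteDimensional.of_injective L ((injective_iff_map_eq_zero L).2 fun x hx => ?_))
    by_contra h0
    obtain ⟨n, h1, h2⟩ := hn x.1 x.2 (fun h => h0 (Subtype.ext h))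
    have := congrFun hx ⟨n, h1⟩
    exact h2 (congrArg Prod.fst this) (congrArg Prod.snd this)
  obtain ⟨N0, hN0⟩ := exists_pow_lt_of_lt_one (half_pos hc) (show (1 / 2 : ℝ) < 1 by norm_num)
  have star : ∀ x ∈ M, (∀ n < N0, x.1 n = 0 ∧ x.2 n = 0) → ∀ s, (∀ n, ‖x.1 n‖ ≤ s) →
      c / 2 * ‖x‖ ≤ s := by
    intro x hx h0 s hs
    have h1 := (h x hx).trans (est x N0 h0 s hs)
    nlinarith [norm_nonneg x]
  have ex2 : ∀ N, N0 ≤ N → ∃ y ∈ M, (∀ n < N, y.1 n = 0 ∧ y.2 n = 0) ∧ (∀ n, ‖y.1 n‖ ≤ 1) ∧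
      ∃ n, 1 / 2 ≤ ‖y.1 n‖ := by
    intro N hN
    obtain ⟨x, hx, hx0, h0⟩ := ex N
    have hb : BddAbove (Set.range fun n => ‖x.1 n‖) := ⟨‖x‖, by rintro _ ⟨n, rfl⟩; exact a_le x n⟩
    set s := ⨆ n, ‖x.1 n‖
    have h1 : ∀ n, ‖x.1 n‖ ≤ s := fun n => le_ciSup hb n
    have h2 : 0 < s := lt_of_lt_of_le (mul_pos (half_pos hc) (norm_pos_iff.2 hx0))
      (star x hx (fun n hn => h0 n (by omega)) s h1)
    obtain ⟨n0, hn0⟩ := exists_lt_of_lt_ciSup (half_lt_self h2)
    have e : ∀ n, ‖(((s⁻¹ : ℝ) : ℂ) • x).1 n‖ = ‖x.1 n‖ / s := fun n => by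
      simp [abs_of_pos h2, div_eq_inv_mul]
    refine ⟨((s⁻¹ : ℝ) : ℂ) • x, M.smul_mem _ hx, fun n hn => by simp [h0 n hn], fun n => ?_, n0, ?_⟩
    · rw [e, div_le_one h2]; exact h1 n
    · rw [e, le_div_iff₀ h2]; linarith
  have P : ∀ k : ℕ, ∃ x ∈ M, (∀ n < N0, x.1 n = 0 ∧ x.2 n = 0) ∧ (∀ n, ‖x.1 n‖ ≤ 2) ∧
      ∃ F : Finset ℕ, F.card = k ∧ ∀ n ∈ F, 1 / 4 ≤ ‖x.1 n‖ := by
    intro k
    induction k with
    | zero => exact ⟨0, M.zero_mem, by simp, by simp, ∅, rfl, by simp⟩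
    | succ k ih =>
      obtain ⟨x, hx, h0, h1, F, hF, h2⟩ := ih
      obtain ⟨N1, hN1⟩ := eventually_atTop.1 ((hs x.1).summable.tendsto_atTop_zero.eventually
        (ge_mem_nhds (show (0 : ℝ) < 1 / 4 by norm_num)))
      obtain ⟨y, hy, g0, g1, n0, g2⟩ := ex2 (N0 + N1 + F.sup id + 1) (by omega)
      have hn0 : N0 + N1 + F.sup id + 1 ≤ n0 := by
        by_contra hlt
        rw [(g0 n0 (by omega)).1] at g2
        norm_num at g2
      have hF2 : ∀ n ∈ F, n ≤ F.sup id := fun n hn => Finset.le_sup (f := id) hn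
      have e : ∀ n, (x + y).1 n = x.1 n + y.1 n := fun n => by simp
      refine ⟨x + y, M.add_mem hx hy, fun n hn => by simp [h0 n hn, g0 n (by omega)], fun n => ?_,
        insert n0 F, ?_, fun n hn => ?_⟩
      · rw [e]
        rcases lt_or_ge n (N0 + N1 + F.sup id + 1) with h3 | h3
        · rw [(g0 n h3).1, add_zero]; exact h1 n
        · exact (norm_add_le _ _).trans (by linarith [hN1 n (by omega), g1 n])
      · rw [Finset.card_insert_of_notMem (fun h => by have := hF2 _ h; omega), hF]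
      · rw [e]
        rcases Finset.mem_insert.1 hn with rfl | hn
        · have := norm_sub_le (x.1 n + y.1 n) (x.1 n)
          rw [add_sub_cancel_left] at this
          linarith [hN1 n (by omega)]
        · rw [(g0 n (by have := hF2 _ hn; omega)).1, add_zero]; exact h2 n hn
  obtain ⟨k, hk⟩ := exists_nat_gt (16 / c)
  obtain ⟨x, hx, h0, h1, F, hF, h2⟩ := P k
  have h3 := star x hx h0 2 h1
  have h4 : (k : ℝ) * (1 / 4) ≤ ‖x‖ := by
    refine le_trans ?_ ((sum_le_hasSum F (fun _ _ => norm_nonneg _) (hs x.1)).trans (norm_fst_le x))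
    simpa [hF] using Finset.card_nsmul_le_sum F (fun n => ‖x.1 n‖) _ h2
  rw [div_lt_iff₀ hc] at hk
  nlinarith

theorem not_compact : ¬ IsCompactOperator C := by
  intro hc
  let u : ℕ → E := fun n => (lp.single 1 n 1, 0)
  obtain ⟨K, hK, hKA⟩ := hc.image_closedBall_subset_compact (f := (C : E →ₗ[ℂ] E)) 1
  obtain ⟨a, -, φ, hφ, hlim⟩ := hK.tendsto_subseq (x := fun n => C (u n))
    (fun n => hKA ⟨u n, by simp [u, Prod.norm_def, lp.norm_single], rfl⟩)
  obtain ⟨i, hi⟩ := Metric.cauchySeq_iff'.1 hlim.cauchySeq 1 one_pos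
  have h1 := hi (i + 1) (by omega)
  have h2 := b_le (C (u (φ (i + 1))) - C (u (φ i))) (φ i)
  have h3 : φ i ≠ φ (i + 1) := (hφ (by omega)).ne
  rw [← dist_eq_norm] at h2
  have h4 := h2.trans_lt h1
  simp [C_apply, C2_apply, u, lp.single_apply, h3] at h4

theorem main : ∃ (E : Type) (_ : NormedAddCommGroup E) (_ : NormedSpace ℂ E) (J : E → ℂ → ℂ)
    (T : E →L[ℂ] E), IsBSAF J ∧ (∀ f, ∀ z ∈ ball (0 : ℂ) 1, J (T f) z = J f (z / 2)) ∧
      StrictlySingular T ∧ ¬ IsCompactOperator T :=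
  ⟨E, inferInstance, inferInstance, J, C, bsaf, fun f z _ => J_C f z, ssing, not_compact⟩

end Pool.Agent.H95.SSing
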