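import Mathlib

set_option autoImplicit false
open Metric

namespace Pool.Agent.H95.SSingDefs

variable {E : Type} [NormedAddCommGroup E] [NormedSpace ℂ E]

/-- `J` identifies `E` with a Banach space of analytic functions on the unit disc. -/
structure IsBSAF (J : E → ℂ → ℂ) : Prop where
  complete : CompleteSpace E
  analytic : ∀ f, AnalyticOnNhd ℂ (J f) (ball 0 1)
  eval : ∀ z ∈ ball (0 : ℂ) 1, ∃ L : E →L[ℂ] ℂ, ∀ f, L f = J f z
  inj : ∀ f, (∀ z ∈ ball (0 : ℂ) 1, J f z = 0) → f = 0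

/-- `T` is bounded below on no closed infinite-dimensional subspace. -/
def StrictlySingular (T : E →L[ℂ] E) : Prop :=
  ∀ M : Submodule ℂ E, IsClosed (M : Set E) → ¬ FiniteDimensional ℂ M →
    ∀ c : ℝ, 0 < c → ¬ ∀ x ∈ M, c * ‖x‖ ≤ ‖T x‖

end Pool.Agent.H95.SSingDefs
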