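import Pool.Agent.H95.ShgDefs

/-! A zero-dimensional homogeneous space which is not a countable union of strongly homogeneous
subspaces. -/

set_option autoImplicit false

namespace Pool.Agent.H95.Shg

open MeasureTheory Set Filter Topology Cardinal Function
open scoped Classical ENNReal

abbrev G := ℕ → ZMod 2

lemma z2 (a b : ZMod 2) : a ≠ 1 → b ≠ 1 → a = b := by revert a b; decide

lemma self_add (x : G) : x + x = 0 := by
  funext j
  have : ∀ a : ZMod 2, a + a = 0 := by decide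
  exact this _

section meas
variable (μ : Measure G)

lemma pair {K1 K2 : Set G} (p1 : μ K1 ≠ 0) (p2 : μ K2 ≠ 0) {g : G → G} (hg : Measurable g)
    (hf : ∀ c, μ (K1 ∩ g ⁻¹' {c}) = 0) :
    ∃ V : Set G, MeasurableSet V ∧ μ (K1 ∩ g ⁻¹' V) ≠ 0 ∧ μ (K2 ∩ g ⁻¹' Vᶜ) ≠ 0 := by
  by_contra hc
  push Not at hc
  have sp : ∀ (K V : Set G), μ (K ∩ g ⁻¹' V) = 0 → μ (K ∩ g ⁻¹' Vᶜ) = 0 → μ K = 0 :=
    fun K V a b => by
      rw [← inter_union_compl K (g ⁻¹' V)]
      exact measure_union_null a b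
  have h : ∀ j : ℕ, ∃ c : ZMod 2, μ (K1 ∩ g ⁻¹' {y | y j ≠ c}) = 0 := fun j => by
    have mV : MeasurableSet {y : G | y j = 1} :=
      measurableSet_eq_fun (measurable_pi_apply j) measurable_const
    by_cases h1 : μ (K1 ∩ g ⁻¹' {y : G | y j = 1}) = 0
    · refine ⟨0, measure_mono_null (inter_subset_inter_right _ fun x hx => ?_) h1⟩
      by_contra h
      exact hx (z2 _ _ h (by decide))
    · refine ⟨1, ?_⟩
      by_contra h2
      have h3 := hc _ mV.compl h2
      rw [compl_compl] at h3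
      exact p2 (sp _ _ h3 (hc _ mV h1))
  choose c hc using h
  refine p1 (measure_mono_null (t := (K1 ∩ g ⁻¹' {c}) ∪ ⋃ j, K1 ∩ g ⁻¹' {y | y j ≠ c j})
    (fun x hx => ?_) (measure_union_null (hf c) (measure_iUnion_null hc)))
  by_cases h : g x = c
  · exact Or.inl ⟨hx, h⟩
  · obtain ⟨j, hj⟩ := Function.ne_iff.1 h
    exact Or.inr (mem_iUnion.2 ⟨j, hx, hj⟩)

lemma shrink {ι : Type} {K0 : Set G} {g : ℕ → G → G} (hg : ∀ i, Measurable (g i))
    (hf : ∀ i c, μ (K0 ∩ g i ⁻¹' {c}) = 0) (K : ι → Set G)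
    (hK : ∀ s, MeasurableSet (K s) ∧ μ (K s) ≠ 0 ∧ K s ⊆ K0) (T : Finset (ℕ × ι × ι)) :
    ∃ K' : ι → Set G, (∀ s, MeasurableSet (K' s) ∧ μ (K' s) ≠ 0 ∧ K' s ⊆ K s) ∧
      ∀ t ∈ T, t.2.1 ≠ t.2.2 → ∀ x ∈ K' t.2.1, ∀ y ∈ K' t.2.2, g t.1 x ≠ g t.1 y := by
  induction T using Finset.induction_on with
  | empty => exact ⟨K, fun s => ⟨(hK s).1, (hK s).2.1, Subset.rfl⟩, by simp⟩
  | insert t T _ ih =>
    obtain ⟨K', h1, h2⟩ := ih
    obtain ⟨i, s, s'⟩ := t
    by_cases hs : s = s'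
    · refine ⟨K', h1, fun t ht => ?_⟩
      rcases Finset.mem_insert.1 ht with rfl | ht
      · exact fun h => absurd hs h
      · exact h2 t ht
    obtain ⟨V, v1, v2, v3⟩ := pair μ (h1 s).2.1 (h1 s').2.1 (hg i) fun c =>
      measure_mono_null (inter_subset_inter_left _ ((h1 s).2.2.trans (hK s).2.2)) (hf i c)
    let K'' : ι → Set G := fun r => if r = s then K' s ∩ g i ⁻¹' V else
      if r = s' then K' s' ∩ g i ⁻¹' Vᶜ else K' r
    have h3 : ∀ r, MeasurableSet (K'' r) ∧ μ (K'' r) ≠ 0 ∧ K'' r ⊆ K' r := fun r => by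
      simp only [K'']
      split_ifs with a b
      · exact ⟨(h1 s).1.inter (hg i v1), v2, a ▸ inter_subset_left⟩
      · exact ⟨(h1 s').1.inter (hg i v1.compl), v3, b ▸ inter_subset_left⟩
      · exact ⟨(h1 r).1, (h1 r).2.1, Subset.rfl⟩
    refine ⟨K'', fun r => ⟨(h3 r).1, (h3 r).2.1, (h3 r).2.2.trans (h1 r).2.2⟩, fun t ht => ?_⟩
    rcases Finset.mem_insert.1 ht with rfl | ht
    · intro _ x hx y hy e
      simp only [K'', if_true, if_neg (Ne.symm hs)] at hx hy
      exact hy.2 (e ▸ hx.2 : g i y ∈ V)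
    · exact fun h x hx y hy => h2 t ht h x ((h3 _).2.2 hx) y ((h3 _).2.2 hy)

lemma perfect [IsFiniteMeasure μ] {K0 : Set G} (m0 : MeasurableSet K0) (p0 : μ K0 ≠ 0)
    {g : ℕ → G → G} (hg : ∀ i, Measurable (g i)) (hf : ∀ i c, μ (K0 ∩ g i ⁻¹' {c}) = 0) :
    ∃ p : (ℕ → Bool) → G, (∀ z, p z ∈ K0) ∧ ∀ i, Injective fun z => g i (p z) := by
  let Q : ∀ n, ((Fin n → Bool) → Set G) → Prop := fun n K =>
    ∀ s, MeasurableSet (K s) ∧ μ (K s) ≠ 0 ∧ K s ⊆ K0
  have st : ∀ n (K : {K // Q n K}), ∃ K', Q (n + 1) K' ∧ (∀ s, IsClosed (K' s) ∧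
      K' s ⊆ K.1 (Fin.init s)) ∧ ∀ i ≤ n, ∀ s s', s ≠ s' → ∀ x ∈ K' s, ∀ y ∈ K' s',
      g i x ≠ g i y := fun n K => by
    obtain ⟨K', h1, h2⟩ := shrink μ hg hf (fun s : Fin (n + 1) → Bool => K.1 (Fin.init s))
      (fun s => K.2 _) (Finset.range (n + 1) ×ˢ Finset.univ)
    choose F f1 f2 f3 using fun s => (h1 s).1.exists_lt_isClosed_of_ne_top (measure_ne_top μ _)
      (pos_iff_ne_zero.2 (h1 s).2.1)
    exact ⟨F, fun s => ⟨(f2 s).measurableSet, (f3 s).ne', (f1 s).trans ((h1 s).2.2.trans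
      (K.2 _).2.2)⟩, fun s => ⟨f2 s, (f1 s).trans (h1 s).2.2⟩, fun i hi s s' hs x hx y hy =>
      h2 (i, s, s') (by simp; omega) hs x (f1 s hx) y (f1 s' hy)⟩
  choose nx n1 n2 n3 using st
  let L : ∀ n, {K // Q n K} := fun n =>
    Nat.rec ⟨fun _ => K0, fun _ => ⟨m0, p0, Subset.rfl⟩⟩ (fun n K => ⟨nx n K, n1 n K⟩) n
  have ne : ∀ z : ℕ → Bool, (⋂ n, (L (n + 1)).1 fun j => z j).Nonempty := fun z =>
    IsCompact.nonempty_iInter_of_sequence_nonempty_isCompact_isClosed _
      (fun n => (n2 (n + 1) (L (n + 1)) fun j => z j).2)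
      (fun n => nonempty_of_measure_ne_zero ((L (n + 1)).2 _).2.1)
      (n2 0 (L 0) _).1.isCompact fun n => (n2 n (L n) _).1
  choose p hp using ne
  refine ⟨p, fun z => ((L 1).2 _).2.2 (mem_iInter.1 (hp z) 0), fun i z z' e => ?_⟩
  by_contra h
  obtain ⟨j, hj⟩ := Function.ne_iff.1 h
  exact n3 (max i j) (L _) i (le_max_left _ _) (fun k => z k) (fun k => z' k)
    (fun e' => hj (congrFun e' ⟨j, by omega⟩)) _ (mem_iInter.1 (hp z) _) _
    (mem_iInter.1 (hp z') _) e

instance : (𝓝[≠] (0 : G)).NeBot := by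
  refine mem_closure_iff_nhdsWithin_neBot.1 (mem_closure_of_tendsto
    (f := fun n : ℕ => (Pi.single n 1 : G)) (b := atTop) ?_ (.of_forall fun n h => ?_))
  · refine tendsto_pi_nhds.2 fun j => tendsto_const_nhds.congr' ?_
    filter_upwards [eventually_gt_atTop j] with n hn
    simp [hn.ne]
  · have := congrFun (mem_singleton_iff.1 h) n
    simp at this

lemma avoid [μ.IsAddHaarMeasure] (D : ℕ → Set G) (H : ℕ → G → G) (mD : ∀ n, MeasurableSet (D n))
    (mH : ∀ n, Measurable (H n)) (inj : ∀ n, InjOn (H n) (D n))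
    (sm : ∑' n, μ (H n '' D n) < μ univ) (S : Set G) (hS : #S < 𝔠) :
    ∃ x, x ∉ S ∧ ∀ n, x ∈ D n → H n x ∉ S ∧ H n x + x ∉ S := by
  let A : ℕ → G → Set G := fun n c => D n ∩ {x | H n x + x = c}
  have mA' : ∀ n c, MeasurableSet {x | H n x + x = c} := fun n c =>
    ((mH n).add measurable_id) (measurableSet_singleton c)
  have mA : ∀ n c, MeasurableSet (A n c) := fun n c => (mD n).inter (mA' n c)
  have hC : ∀ n, {c | 0 < μ (A n c)}.Countable := fun n =>
    Measure.countable_meas_pos_of_disjoint_iUnion (mA n) fun c c' h =>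
      disjoint_left.2 fun x h1 h2 => h (h1.2.symm.trans h2.2)
  let B : ℕ → Set G := fun n => ⋃ c ∈ {c | 0 < μ (A n c)}, A n c
  have mB : ∀ n, MeasurableSet (B n) := fun n => .biUnion (hC n) fun c _ => mA n c
  have key : ∀ n c x, c + x ∈ A n c → H n (c + x) = x := fun n c x h => by
    have h1 : H n (c + x) + (c + x) = c := h.2
    have h2 := self_add x
    linear_combination h1 - h2
  have hB : ∀ n, μ (B n) ≤ μ (H n '' D n) := fun n => by
    refine (measure_biUnion_le μ (hC n) _).trans ?_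
    simp_rw [← fun c => measure_preimage_add μ c (A n c)]
    rw [← measure_biUnion (hC n) (f := fun c => (fun x => c + x) ⁻¹' A n c)]
    · exact measure_mono (iUnion₂_subset fun c _ x hx => ⟨c + x, hx.1, key n c x hx⟩)
    · intro c _ c' _ h
      exact disjoint_left.2 fun x h1 h2 => h (add_right_cancel
        (inj n h1.1 h2.1 ((key n c x h1).trans (key n c' x h2).symm)))
    · exact fun c _ => (measurable_const_add c) (mA n c)
  have p0 : μ (⋃ n, B n)ᶜ ≠ 0 := fun h => by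
    have h1 := measure_union_le (μ := μ) (⋃ n, B n) (⋃ n, B n)ᶜ
    rw [union_compl_self, h, add_zero] at h1
    exact (h1.trans ((measure_iUnion_le _).trans (ENNReal.tsum_le_tsum hB))).not_gt sm
  let g : ℕ → G → G := fun i => (D (i / 2)).piecewise
    (fun x => if i % 2 = 0 then H (i / 2) x else H (i / 2) x + x) id
  have hg : ∀ i, Measurable (g (i)) := fun i => by
    refine Measurable.piecewise (mD _) ?_ measurable_id
    split_ifs
    · exact mH _
    · exact (mH _).add measurable_id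
  let g' : ℕ → G → G := fun i => Nat.casesOn i id g
  obtain ⟨p, p1, p2⟩ := perfect μ (MeasurableSet.iUnion mB).compl p0 (g := g')
    (fun i => by cases i; exacts [measurable_id, hg _]) (fun i c => by
      cases i with
      | zero => exact measure_mono_null inter_subset_right (measure_singleton c)
      | succ i =>
        refine measure_mono_null (t := ((⋃ n, B n)ᶜ ∩ (D (i / 2) ∩ g i ⁻¹' {c})) ∪ {c})
          (fun x hx => ?_) (measure_union_null ?_ (measure_singleton c))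
        · by_cases h : x ∈ D (i / 2)
          · exact Or.inl ⟨hx.1, h, hx.2⟩
          · exact Or.inr (by simpa [g', g, h] using hx.2)
        · by_cases h : i % 2 = 0
          · refine measure_mono_null inter_subset_right (Set.Subsingleton.measure_zero ?_ μ)
            intro x hx y hy
            refine inj _ hx.1 hy.1 ?_
            have h1 := hx.2
            have h2 := hy.2
            simp only [g, mem_preimage, piecewise_eq_of_mem _ _ _ hx.1,
              piecewise_eq_of_mem _ _ _ hy.1, if_pos h, mem_singleton_iff] at h1 h2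
            rw [h1, h2]
          · have h3 : ∀ x ∈ D (i / 2) ∩ g i ⁻¹' {c}, x ∈ A (i / 2) c := fun x hx => ⟨hx.1, by
              show H (i / 2) x + x = c
              simpa only [g, mem_preimage, piecewise_eq_of_mem _ _ _ hx.1, if_neg h,
                mem_singleton_iff] using hx.2⟩
            by_cases h4 : 0 < μ (A (i / 2) c)
            · refine measure_mono_null (t := ∅) (fun x hx => hx.1 ?_) measure_empty
              exact mem_iUnion.2 ⟨_, mem_biUnion h4 (h3 x hx.2)⟩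
            · exact measure_mono_null (fun x hx => h3 x hx.2) (by simpa using h4))
  have : ∃ z, ∀ i, g' i (p z) ∉ S := by
    by_contra hc
    push Not at hc
    choose i hi using hc
    have h1 : Injective fun z => ((i z, ⟨_, hi z⟩) : ℕ × S) := fun z z' e => by
      have e1 : i z = i z' := congrArg Prod.fst e
      have e2 : g' (i z) (p z) = g' (i z') (p z') := congrArg (fun u => u.2.1) e
      rw [← e1] at e2
      exact p2 _ e2
    have h2 := mk_le_of_injective h1
    simp only [mk_pi, mk_fintype, Fintype.card_bool, prod_const, mk_prod, mk_nat, lift_id,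
      Nat.cast_ofNat, two_power_aleph0] at h2
    exact (mul_lt_of_lt aleph0_le_continuum aleph0_lt_continuum hS).not_ge h2
  obtain ⟨z, hz⟩ := this
  refine ⟨p z, hz 0, fun n hn => ⟨?_, ?_⟩⟩
  · have := hz (2 * n + 1)
    have e : 2 * n / 2 = n := by omega
    simpa [g', g, e, hn] using this
  · have := hz (2 * n + 1 + 1)
    have e : (2 * n + 1) / 2 = n := by omega
    simpa [g', g, e, hn] using this

end meas

abbrev MS := {t : Set G // MeasurableSet t}

abbrev Code := ℕ → MS × (ℕ → MS)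

lemma card_code : #Code ≤ 𝔠 := by
  have h : #MS ≤ 𝔠 := by
    have := MeasurableSpace.cardinal_measurableSet_le_continuum
      (s := MeasurableSpace.countableGeneratingSet G) ((le_aleph0_iff_set_countable.2
        MeasurableSpace.countable_countableGeneratingSet).trans aleph0_le_continuum)
    rwa [MeasurableSpace.generateFrom_countableGeneratingSet] at this
  simp only [Code, mk_pi, prod_const, mk_prod, mk_nat, lift_id]
  rw [← continuum_power_aleph0]
  refine power_le_power_right ?_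
  rw [← continuum_mul_self]
  refine mul_le_mul' h ?_
  rw [← continuum_power_aleph0]
  exact power_le_power_right h

/-- the Borel map coded by a sequence of Borel sets -/
noncomputable def dec (O : ℕ → MS) (x : G) : G := fun j => if x ∈ (O j).1 then 1 else 0

lemma dec_meas (O : ℕ → MS) : Measurable (dec O) :=
  measurable_pi_lambda _ fun j => Measurable.ite (O j).2 measurable_const measurable_const

lemma card_cl {A : Set G} (h : #A < 𝔠) : #(AddSubmonoid.closure A) < 𝔠 := by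
  refine lt_of_le_of_lt ?_ ((mk_list_le_max A).trans_lt (max_lt aleph0_lt_continuum h))
  refine mk_le_of_surjective (f := fun l : List A => ⟨(l.map Subtype.val).sum,
    AddSubmonoid.list_sum_mem _ fun x hx => ?_⟩) ?_
  · obtain ⟨a, -, rfl⟩ := List.mem_map.1 hx
    exact AddSubmonoid.subset_closure a.2
  · rintro ⟨x, hx⟩
    obtain ⟨l, h1, rfl⟩ := AddSubmonoid.exists_list_of_mem_closure hx
    exact ⟨l.pmap Subtype.mk h1, by simp [List.map_pmap]⟩

theorem group (μ : Measure G) [μ.IsAddHaarMeasure] : ∃ X : Submodule (ZMod 2) G, ∀ c : Code,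
    (∀ n, InjOn (dec (c n).2) (c n).1) → ∑' n, μ (dec (c n).2 '' (c n).1) < μ univ →
    ∃ x ∈ X, ∀ n, x ∈ (c n).1.1 → dec (c n).2 x ∉ X := by
  obtain ⟨e, he⟩ : ∃ e : (ord 𝔠).ToType → Code, Surjective e := by
    obtain ⟨f⟩ : Nonempty (Code ↪ (ord 𝔠).ToType) := by
      rw [← Cardinal.le_def, mk_ord_toType]; exact card_code
    have : Nonempty Code := ⟨fun _ => (⟨∅, MeasurableSet.empty⟩, fun _ => ⟨∅, MeasurableSet.empty⟩)⟩
    exact ⟨invFun f, invFun_surjective f.injective⟩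
  have ex : ∀ (c : Code) (S : Set G), ∃ x, ((∀ n, InjOn (dec (c n).2) (c n).1) ∧
      ∑' n, μ (dec (c n).2 '' (c n).1) < μ univ → #S < 𝔠 → x ∉ S ∧ ∀ n, x ∈ (c n).1.1 →
      dec (c n).2 x ∉ S ∧ dec (c n).2 x + x ∉ S) := fun c S => by
    by_cases h : ((∀ n, InjOn (dec (c n).2) (c n).1) ∧
      ∑' n, μ (dec (c n).2 '' (c n).1) < μ univ) ∧ #S < 𝔠
    · obtain ⟨x, hx⟩ := avoid μ (fun n => (c n).1) (fun n => dec (c n).2) (fun n => (c n).1.2)
        (fun n => dec_meas _) h.1.1 h.1.2 S h.2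
      exact ⟨x, fun _ _ => hx⟩
    · exact ⟨0, fun a b => absurd ⟨a, b⟩ h⟩
  have ex' : ∀ (c : Code) (S : Set G), ∃ x, #S < 𝔠 → x ∉ S ∧
      ((∀ n, InjOn (dec (c n).2) (c n).1) ∧ ∑' n, μ (dec (c n).2 '' (c n).1) < μ univ →
        ∀ n, x ∈ (c n).1.1 → dec (c n).2 x ∉ S ∧ dec (c n).2 x + x ∉ S) := fun c S => by
    by_cases h : (∀ n, InjOn (dec (c n).2) (c n).1) ∧ ∑' n, μ (dec (c n).2 '' (c n).1) < μ univ
    · obtain ⟨x, hx⟩ := ex c S
      exact ⟨x, fun a => ⟨(hx h a).1, fun _ => (hx h a).2⟩⟩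
    · obtain ⟨x, hx⟩ := ex (fun _ => (⟨∅, MeasurableSet.empty⟩, fun _ => ⟨∅, MeasurableSet.empty⟩)) S
      exact ⟨x, fun a => ⟨(hx ⟨by simp, by simpa using (Measure.measure_univ_pos.2
        (NeZero.ne μ))⟩ a).1, fun b => absurd b h⟩⟩
  choose ch hch using ex'
  let W : ∀ α : (ord 𝔠).ToType, (∀ β, β < α → G) → Set G := fun α u =>
    AddSubmonoid.closure (range (fun β : Iio α => u β.1 β.2) ∪
      range fun t : Iio α × ℕ => dec (e t.1.1 t.2).2 (u t.1.1 t.1.2))
  let x : (ord 𝔠).ToType → G := wellFounded_lt.fix fun α u => ch (e α) (W α u)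
  have hx : ∀ α, x α = ch (e α) (W α fun β _ => x β) := fun α => wellFounded_lt.fix_eq _ α
  have hW : ∀ α, #(W α fun β _ => x β) < 𝔠 := fun α => by
    have h1 : #(Iio α) < 𝔠 := by simpa using mk_Iio_lt α
    refine card_cl ((mk_union_le _ _).trans_lt (add_lt_of_lt aleph0_le_continuum
      (mk_range_le.trans_lt h1) (mk_range_le.trans_lt ?_)))
    rw [mk_prod, lift_id, lift_id, mk_nat]
    exact mul_lt_of_lt aleph0_le_continuum h1 aleph0_lt_continuum
  have hsum : ∀ α (T : Finset (ord 𝔠).ToType), (∀ β ∈ T, β < α) →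
      ∑ β ∈ T, x β ∈ W α fun β _ => x β := fun α T h =>
    AddSubmonoid.sum_mem _ fun β hβ => AddSubmonoid.subset_closure (Or.inl ⟨⟨β, h β hβ⟩, rfl⟩)
  refine ⟨Submodule.span _ (range x), fun c h1 h2 => ?_⟩
  obtain ⟨α, rfl⟩ := he c
  refine ⟨x α, Submodule.subset_span ⟨α, rfl⟩, fun n hn hm => ?_⟩
  obtain ⟨f, hf⟩ := Finsupp.mem_span_range_iff_exists_finsupp.1 hm
  have hf' : ∑ β ∈ f.support, x β = dec (e α n).2 (x α) := by
    rw [← hf]
    refine Finset.sum_congr rfl fun β hβ => ?_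
    have : ∀ a : ZMod 2, a ≠ 0 → a = 1 := by decide
    simp only [this _ (Finsupp.mem_support_iff.1 hβ), one_smul]
  generalize f.support = T at hf'
  have h3 := (hch (e α) _ (hW α)).2 ⟨h1, h2⟩ n (hx α ▸ hn)
  rw [← hx α, ← hf'] at h3
  by_cases h4 : ∀ β ∈ T, β < α
  · exact h3.1 (hsum α T h4)
  push Not at h4
  obtain ⟨β, b1, b2⟩ := h4
  obtain ⟨γ, c1, c2⟩ := T.exists_max_image id ⟨β, b1⟩
  have h5 := hsum γ (T.erase γ) fun δ hδ =>
    lt_of_le_of_ne (c2 δ (Finset.mem_of_mem_erase hδ)) (Finset.ne_of_mem_erase hδ)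
  have h6 := Finset.sum_erase_add T x c1
  rcases (b2.trans (c2 β b1)).eq_or_lt with h | h
  · obtain rfl : α = γ := h
    refine h3.2 ?_
    rwa [← h6, add_assoc, self_add, add_zero]
  · refine (hch (e γ) _ (hW γ)).1 ?_
    rw [← hx γ]
    have : x γ = ∑ β ∈ T.erase γ, x β + dec (e α n).2 (x α) := by
      rw [← hf', ← h6, ← add_assoc, self_add, zero_add]
    rw [this]
    exact AddSubmonoid.add_mem _ h5 (AddSubmonoid.subset_closure (Or.inr ⟨(⟨α, h⟩, n), rfl⟩))

lemma extend {Y : Type} [TopologicalSpace Y] {i h : Y → G} (hi : IsInducing i)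
    (hh : Continuous h) : ∃ O : ℕ → MS, ∀ y, dec O (i y) = h y := by
  have : ∀ j, ∃ O : Set G, IsOpen O ∧ i ⁻¹' O = {y | h y j = 1} := fun j =>
    hi.isOpen_iff.1 ((isOpen_discrete {1}).preimage ((continuous_apply j).comp hh))
  choose O h1 h2 using this
  refine ⟨fun j => ⟨O j, (h1 j).measurableSet⟩, fun y => funext fun j => ?_⟩
  have h3 : i y ∈ O j ↔ h y j = 1 := Set.ext_iff.1 (h2 j) y
  simp only [dec, h3]
  split_ifs with h4
  · exact h4.symm
  · exact z2 _ _ (by decide) h4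

theorem main : ∃ X : Submodule (ZMod 2) G, ¬ ∃ Y : ℕ → Set X,
    (∀ n, StronglyHomogeneous (Y n)) ∧ ⋃ n, Y n = Set.univ := by
  let μ : Measure G := Measure.addHaarMeasure ⊤
  obtain ⟨X, hX⟩ := group μ
  refine ⟨X, fun ⟨Y, h1, h2⟩ => ?_⟩
  obtain ⟨ε, e1, e2⟩ := ENNReal.exists_pos_sum_of_countable
    (Measure.measure_univ_pos.2 (NeZero.ne μ)).ne' ℕ
  have : ∀ n, ∃ c : MS × (ℕ → MS), InjOn (dec c.2) c.1 ∧ μ (dec c.2 '' c.1) ≤ ε n ∧
      ∀ y : Y n, y.1.1 ∈ c.1.1 ∧ dec c.2 y.1.1 ∈ X := fun n => by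
    obtain ⟨⟨y0⟩, h3⟩ := h1 n
    obtain ⟨V, v1, v2, v3⟩ := Set.exists_isOpen_lt_of_lt (μ := μ) {y0.1.1} (ε n)
      (by simpa using e1 n)
    obtain ⟨U, u1, u2, u3⟩ := isTopologicalBasis_isClopen.exists_subset_of_mem_open
      (v1 rfl) v2
    let i : Y n → G := fun y => y.1.1
    have hi : IsInducing i := IsInducing.subtypeVal.comp IsInducing.subtypeVal
    obtain ⟨φ⟩ := h3 (i ⁻¹' U) (IsClopen.preimage u1 hi.continuous) ⟨y0, u2⟩
    obtain ⟨O, hO⟩ := extend (h := fun y => i (φ.symm y)) hi (by fun_prop)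
    obtain ⟨O', hO'⟩ := extend (i := fun y : i ⁻¹' U => i y) (h := fun y => i (φ y))
      (hi.comp IsInducing.subtypeVal) (hi.continuous.comp φ.continuous)
    refine ⟨(⟨{x | dec O' (dec O x) = x} ∩ dec O ⁻¹' U, ?_⟩, O), fun x hx y hy e => ?_, ?_,
      fun y => ⟨⟨?_, ?_⟩, ?_⟩⟩
    · exact (measurableSet_eq_fun ((dec_meas O').comp (dec_meas O)) measurable_id).inter
        (dec_meas O (IsClopen.isOpen u1).measurableSet)
    · rw [← hx.1, ← hy.1]; exact congrArg _ e
    · refine (measure_mono ?_).trans v3.le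
      rintro _ ⟨x, hx, rfl⟩
      exact u3 hx.2
    · show dec O' (dec O (i y)) = i y
      rw [hO, hO']; simp
    · show dec O (i y) ∈ U
      rw [hO]; exact (φ.symm y).2
    · show dec O (i y) ∈ X
      rw [hO]; exact (φ.symm y).1.1.2
  choose c c1 c2 c3 using this
  obtain ⟨x, hx, h4⟩ := hX c c1 ((ENNReal.tsum_le_tsum c2).trans_lt e2)
  obtain ⟨n, hn⟩ := mem_iUnion.1 (h2 ▸ mem_univ _ : (⟨x, hx⟩ : X) ∈ ⋃ n, Y n)
  exact h4 n (c3 n ⟨_, hn⟩).1 (c3 n ⟨_, hn⟩).2

end Pool.Agent.H95.Shg
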