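import Mathlib

/-! Homogeneous and strongly homogeneous spaces. -/

set_option autoImplicit false

namespace Pool.Agent.H95.Shg

/-- any point is moved to any other point by a homeomorphism -/
def Homogeneous (X : Type) [TopologicalSpace X] : Prop :=
  ∀ x y : X, ∃ h : X ≃ₜ X, h x = y

/-- non-empty, and every non-empty clopen subspace is homeomorphic to the whole space -/
def StronglyHomogeneous (X : Type) [TopologicalSpace X] : Prop :=
  Nonempty X ∧ ∀ U : Set X, IsClopen U → U.Nonempty → Nonempty (U ≃ₜ X)

end Pool.Agent.H95.Shg
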