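import Pool.Agent.H95.ShockDefs

set_option autoImplicit false

namespace Pool.Agent.H95.Shock

open Real Set Filter Topology

lemma dpos {β : ℝ} (hβ : 1 < β) (x : ℝ) :
    HasDerivAt (fun x : ℝ => max x 0 ^ β) (β * max x 0 ^ (β - 1)) x := by
  rcases lt_trichotomy x 0 with h | rfl | h
  · rw [max_eq_right h.le, zero_rpow (by linarith), mul_zero]
    refine (hasDerivAt_const x (0 : ℝ)).congr_of_eventuallyEq ?_
    filter_upwards [Iio_mem_nhds h] with y hy
    rw [max_eq_right (le_of_lt hy), zero_rpow (by linarith)]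
  · have := hasDerivAt_abs_rpow 0 hβ
    rw [max_self, zero_rpow (by linarith), mul_zero]
    rw [mul_zero, hasDerivAt_iff_isLittleO] at this
    rw [hasDerivAt_iff_isLittleO]
    refine Asymptotics.IsBigO.trans_isLittleO (.of_norm_le fun y => ?_) this
    simp only [max_self, abs_zero, zero_rpow (show β ≠ 0 by linarith), smul_zero, sub_zero]
    rw [norm_of_nonneg (by positivity)]
    exact rpow_le_rpow (by positivity) (max_le (le_abs_self y) (abs_nonneg y)) (by linarith)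
  · rw [max_eq_left h.le]
    refine (hasDerivAt_rpow_const (Or.inl h.ne')).congr_of_eventuallyEq ?_
    filter_upwards [Ioi_mem_nhds h] with y hy
    rw [max_eq_left (le_of_lt hy)]

noncomputable def G (α ρ₂ m₁ t ρ : ℝ) : ℝ :=
  m₁ * (1 + α * t ^ (-1 / (α - 1)) * max ((ρ - ρ₂) / (α * m₁)) 0 ^ (α / (α - 1))) ^ ((α - 1) / α)

variable {α ρ₂ m₁ : ℝ} (hα : 1 < α) (hm : 0 < m₁)
include hα hm

lemma fan_eq {t : ℝ} (ht : 0 < t) (ρ : ℝ) : fan α ρ₂ m₁ t ρ =
    t ^ (-1 / (α - 1)) * max ((ρ - ρ₂) / (α * m₁)) 0 ^ (α / (α - 1) - 1) *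
    (1 + α * t ^ (-1 / (α - 1)) * max ((ρ - ρ₂) / (α * m₁)) 0 ^ (α / (α - 1))) ^ (-1 / α) := by
  have h1 : 0 < α - 1 := by linarith
  have h0 : 0 < α := by linarith
  have e : α / (α - 1) - 1 = 1 / (α - 1) := by field_simp; ring
  unfold fan
  split_ifs with h
  · rw [max_eq_right (div_nonpos_of_nonpos_of_nonneg (by linarith) (by positivity)), e,
      zero_rpow (by positivity)]
    simp
  have hx : 0 < (ρ - ρ₂) / (α * m₁) := div_pos (by linarith) (by positivity)
  rw [max_eq_left hx.le, ← div_div _ _ t]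
  obtain ⟨x, hx⟩ : ∃ x, (ρ - ρ₂) / (α * m₁) = exp x := ⟨_, (exp_log hx).symm⟩
  obtain ⟨s, rfl⟩ : ∃ x, t = exp x := ⟨_, (exp_log ht).symm⟩
  simp only [hx, ← exp_sub, ← exp_mul, ← exp_add, mul_assoc α]
  have : exp ((x - s) * (-α / (α - 1))) + α * exp s = exp ((x - s) * (-α / (α - 1))) *
      (1 + α * exp (s * (-1 / (α - 1)) + x * (α / (α - 1)))) := by
    rw [mul_add, mul_one, mul_left_comm, ← exp_add]
    congr 3
    field_simp
    ring
  rw [this, mul_rpow (by positivity) (by positivity), ← exp_mul]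
  congr 2
  field_simp
  ring

lemma dG {S T : ℝ → ℝ} {t s τ : ℝ} (ht : 0 < T t) (hS : HasDerivAt S s t)
    (hT : HasDerivAt T τ t) : HasDerivAt (fun t => G α ρ₂ m₁ (T t) (S t))
      (s * fan α ρ₂ m₁ (T t) (S t) -
        τ * fan α ρ₂ m₁ (T t) (S t) ^ α * G α ρ₂ m₁ (T t) (S t)) t := by
  have h1 : 0 < α - 1 := by linarith
  have h0 : 0 < α := by linarith
  have hβ : 1 < α / (α - 1) := by rw [one_lt_div h1]; linarith
  have d1 := (dpos hβ _).comp t ((hS.sub_const ρ₂).div_const (α * m₁))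
  have d2 := ((((hT.rpow_const (p := -1 / (α - 1)) (Or.inl ht.ne')).const_mul α).mul d1).const_add
    1).rpow_const (p := (α - 1) / α) (Or.inl (by
      simp only [Pi.mul_apply, Function.comp_apply]; positivity))
  refine (d2.const_mul m₁).congr_deriv ?_
  simp only [Pi.mul_apply, Function.comp_apply, fan_eq hα hm ht, G]
  set y := max ((S t - ρ₂) / (α * m₁)) 0
  have hy : 0 ≤ y := le_max_right _ _
  set W := 1 + α * T t ^ (-1 / (α - 1)) * y ^ (α / (α - 1))
  have hW : 0 < W := by positivity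
  rw [mul_rpow (by positivity) (by positivity), mul_rpow (by positivity) (by positivity),
    ← rpow_mul ht.le, ← rpow_mul hy, ← rpow_mul hW.le,
    show (α - 1) / α - 1 = -1 / α by field_simp; ring,
    show (α / (α - 1) - 1) * α = α / (α - 1) by field_simp; ring,
    show -1 / (α - 1) * α = -1 / (α - 1) - 1 by field_simp; ring,
    show (α - 1) / α = -1 / α + 1 by field_simp; ring, rpow_add hW, rpow_one,
    show -1 / α * α = -1 by field_simp, rpow_neg_one]
  field_simp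
  ring

lemma intG {t : ℝ} (ht : 0 < t) (a b : ℝ) :
    ∫ ρ in a..b, fan α ρ₂ m₁ t ρ = G α ρ₂ m₁ t b - G α ρ₂ m₁ t a := by
  have h1 : 0 < α - 1 := by linarith
  have h0 : 0 < α := by linarith
  have hβ : 1 < α / (α - 1) := by rw [one_lt_div h1]; linarith
  refine intervalIntegral.integral_eq_sub_of_hasDerivAt (fun x _ => by
    simpa using dG hα hm (T := fun _ => t) ht (hasDerivAt_id x) (hasDerivAt_const x t))
    (Continuous.intervalIntegrable ?_ _ _)
  simp only [funext (fan_eq hα hm ht)]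
  refine (continuous_const.mul (Continuous.rpow_const (by fun_prop) fun _ => Or.inr (by linarith))).mul
    (Continuous.rpow_const (continuous_const.add (continuous_const.mul (Continuous.rpow_const
      (by fun_prop) fun _ => Or.inr (by linarith)))) fun _ => Or.inl (by positivity))

lemma G_low {t ρ : ℝ} (h : ρ ≤ ρ₂) : G α ρ₂ m₁ t ρ = m₁ := by
  have h1 : 0 < α - 1 := by linarith
  have h0 : 0 < α := by linarith
  rw [G, max_eq_right (div_nonpos_of_nonpos_of_nonneg (by linarith) (by positivity)),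
    zero_rpow (by positivity)]
  simp

lemma fan_lt {t : ℝ} (ht : 0 < t) (ρ : ℝ) :
    0 ≤ fan α ρ₂ m₁ t ρ ∧ fan α ρ₂ m₁ t ρ < vor α t := by
  have h0 : 0 < α := by linarith
  unfold fan vor
  split_ifs with h
  · exact ⟨le_rfl, by positivity⟩
  have : 0 < ρ - ρ₂ := by linarith
  exact ⟨by positivity, rpow_lt_rpow_of_neg (by positivity) (lt_add_of_pos_left _ (by positivity))
    (div_neg_of_neg_of_pos (by norm_num) h0)⟩

theorem main {ρ₁ m₂ t₀ : ℝ} (hρ : ρ₁ < ρ₂) (hm₂ : 0 < m₂) (ht₀ : 0 < t₀) (S₁ S₂ : ℝ → ℝ)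
    (c₁ : ContinuousOn S₁ (Ici t₀)) (c₂ : ContinuousOn S₂ (Ici t₀))
    (i₁ : (S₁ t₀ - ρ₁) * vor α t₀ = m₁) (i₂ : S₁ t₀ ≤ ρ₂)
    (i₃ : ∫ ρ in ρ₂..S₂ t₀, fan α ρ₂ m₁ t₀ ρ = m₂)
    (r₁ : ∀ t, t₀ ≤ t → S₁ t < S₂ t → HasDerivAt S₁
      (rh α ((S₁ t - ρ₁) * vor α t) (fan α ρ₂ m₁ t (S₁ t)) (vor α t)) t)
    (r₂ : ∀ t, t₀ ≤ t → S₁ t < S₂ t → HasDerivAt S₂
      (rh α ((S₁ t - ρ₁) * vor α t + ∫ ρ in S₁ t..S₂ t, fan α ρ₂ m₁ t ρ) 0
        (fan α ρ₂ m₁ t (S₂ t))) t) : ∃ t, t₀ ≤ t ∧ S₁ t = S₂ t := by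
  have h1 : 0 < α - 1 := by linarith
  have h0 : 0 < α := by linarith
  rw [intG hα hm ht₀, G_low hα hm le_rfl] at i₃
  by_contra! hne
  have l0 : S₁ t₀ < S₂ t₀ := i₂.trans_lt (not_le.1 fun h => by
    rw [G_low hα hm h] at i₃; linarith)
  have lt : ∀ t, t₀ ≤ t → S₁ t < S₂ t := fun t ht => not_le.1 fun h => by
    obtain ⟨s, hs, e⟩ := intermediate_value_Icc ht ((c₁.sub c₂).mono Icc_subset_Ici_self)
      (show (0 : ℝ) ∈ _ from ⟨by simp [l0.le], by simp [h]⟩)
    exact hne s hs.1 (sub_eq_zero.1 e)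
  let D : ℝ → ℝ := fun t => (S₁ t - ρ₁) * vor α t - G α ρ₂ m₁ t (S₁ t)
  have dD : ∀ t, t₀ ≤ t → HasDerivAt (fun t => D t ^ 2)
      (-(2 * fan α ρ₂ m₁ t (S₁ t) ^ α * D t ^ 2)) t := fun t ht => by
    have tp := ht₀.trans_le ht
    have dv : HasDerivAt (vor α) (-(vor α t ^ α * vor α t)) t := by
      refine (((hasDerivAt_id' t).const_mul α).rpow_const (p := -1 / α)
        (Or.inl (by positivity))).congr_deriv ?_
      rw [vor, ← rpow_mul (by positivity), ← rpow_add (by positivity),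
        show -1 / α * α + -1 / α = -1 / α - 1 by field_simp; ring]
      field_simp
    refine (((((r₁ t ht (lt t ht)).sub_const ρ₁).mul dv).sub (dG (ρ₂ := ρ₂) hα hm (T := id) tp
      (r₁ t ht (lt t ht)) (hasDerivAt_id t))).pow 2).congr_deriv ?_
    have := sub_ne_zero.2 (fan_lt (ρ₂ := ρ₂) hα hm tp (S₁ t)).2.ne
    simp only [D, rh, id, Pi.sub_apply, Pi.mul_apply]
    field_simp
    ring
  have D0 : ∀ t, t₀ ≤ t → D t = 0 := fun t ht => by
    have := antitoneOn_of_deriv_nonpos (convex_Ici t₀) (f := fun t => D t ^ 2)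
      (fun t ht => (dD t ht).continuousAt.continuousWithinAt)
      (fun t ht => (dD t (interior_subset ht)).differentiableAt.differentiableWithinAt)
      (fun t ht => by
        have := (fan_lt (ρ₂ := ρ₂) hα hm (ht₀.trans_le (interior_subset ht)) (S₁ t)).1
        rw [(dD t (interior_subset ht)).deriv, neg_nonpos]
        positivity) self_mem_Ici ht ht
    simp only [show D t₀ = 0 by simp only [D, i₁, G_low hα hm i₂, sub_self]] at this
    exact pow_eq_zero_iff two_ne_zero |>.1 (le_antisymm (by simpa using this) (sq_nonneg _))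
  have dM : ∀ t, t₀ ≤ t → HasDerivAt (fun t => G α ρ₂ m₁ t (S₂ t)) 0 t := fun t ht => by
    have tp := ht₀.trans_le ht
    refine (dG (ρ₂ := ρ₂) hα hm (T := id) tp (r₂ t ht (lt t ht)) (hasDerivAt_id t)).congr_deriv ?_
    simp only [rh, id, intG hα hm tp, sub_eq_zero.1 (D0 t ht), zero_rpow h0.ne', zero_sub,
      neg_div_neg_eq, add_sub_cancel]
    by_cases z : fan α ρ₂ m₁ t (S₂ t) = 0
    · simp [z, zero_rpow h0.ne']
    · field_simp
      ring
  have M0 : ∀ t, t₀ ≤ t → G α ρ₂ m₁ t (S₁ t) ≤ m₁ + m₂ := fun t ht => by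
    have tp := ht₀.trans_le ht
    have := constant_of_has_deriv_right_zero (a := t₀) (b := t)
      (fun s hs => (dM s hs.1).continuousAt.continuousWithinAt)
      (fun s hs => (dM s hs.1).hasDerivWithinAt) t ⟨ht, le_rfl⟩
    have h2 := intervalIntegral.integral_nonneg (μ := MeasureTheory.volume) (lt t ht).le
      fun ρ _ => (fan_lt (ρ₂ := ρ₂) hα hm tp ρ).1
    rw [intG hα hm tp] at h2
    linarith
  let g : ℝ → ℝ := fun y => m₁ * (1 + y ^ (α / (α - 1))) ^ ((α - 1) / α) - m₁ * y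
  have g0 : ∀ y, 0 ≤ y → 0 < g y := fun y hy => by
    have := rpow_lt_rpow (by positivity) (lt_one_add (y ^ (α / (α - 1))))
      (show 0 < (α - 1) / α by positivity)
    rw [← rpow_mul hy, show α / (α - 1) * ((α - 1) / α) = 1 by field_simp, rpow_one] at this
    exact sub_pos.2 (mul_lt_mul_of_pos_left this hm)
  obtain ⟨y₀, hy₀, hmin⟩ := (isCompact_Icc (a := 0) (b := (m₁ + m₂) / m₁)).exists_isMinOn
    (f := g) (nonempty_Icc.2 (by positivity)) (Continuous.continuousOn (by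
      refine (continuous_const.mul (Continuous.rpow_const (continuous_const.add
        (continuous_id.rpow_const fun _ => Or.inr (by positivity)))
        fun _ => Or.inr (by positivity))).sub (by fun_prop)))
  have tv : Tendsto (fun t => (ρ₂ - ρ₁) * vor α t) atTop (𝓝 ((ρ₂ - ρ₁) * 0)) := by
    refine Tendsto.const_mul _ ?_
    unfold vor
    rw [neg_div]
    exact (tendsto_rpow_neg_atTop (by positivity)).comp (tendsto_id.const_mul_atTop h0)
  rw [mul_zero] at tv
  obtain ⟨t, h3, ht⟩ := ((tv.eventually (gt_mem_nhds (g0 _ hy₀.1))).and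
    (eventually_ge_atTop t₀)).exists
  have tp := ht₀.trans_le ht
  have vp : 0 < vor α t := by unfold vor; positivity
  set x := max ((S₁ t - ρ₂) / (α * m₁)) 0 with hx
  have x0 : 0 ≤ x := le_max_right _ _
  have e : G α ρ₂ m₁ t (S₁ t) = g (α * vor α t * x) + m₁ * (α * vor α t * x) := by
    simp only [g, G, ← hx, sub_add_cancel, vor]
    rw [mul_rpow (x := α * _) (by positivity) x0, mul_rpow h0.le tp.le, ← mul_assoc α,
      ← rpow_one_add' h0.le (by rw [show 1 + -1 / α = (α - 1) / α by field_simp; ring]; positivity), mul_rpow (by positivity) (by positivity),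
      ← rpow_mul h0.le, ← rpow_mul tp.le, show (1 + -1 / α) * (α / (α - 1)) = 1 by field_simp; ring,
      show -1 / α * (α / (α - 1)) = -1 / (α - 1) by field_simp, rpow_one]
  have h4 := g0 (α * vor α t * x) (by positivity)
  have h5 : g y₀ ≤ g (α * vor α t * x) := hmin ⟨by positivity, by
    rw [le_div_iff₀ hm]; linarith [M0 t ht]⟩
  have h6 : S₁ t - ρ₂ ≤ x * (α * m₁) := (div_le_iff₀ (by positivity)).1 (le_max_left _ _)
  have h7 := sub_eq_zero.1 (D0 t ht)
  nlinarith [mul_le_mul_of_nonneg_right h6 vp.le]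

end Pool.Agent.H95.Shock
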