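import Mathlib

set_option autoImplicit false

namespace Pool.Agent.H95.Shock

/-- The vortex density `(α t) ^ (-1 / α)`. -/
noncomputable def vor (α t : ℝ) : ℝ := (α * t) ^ (-1 / α)

/-- The density between the shocks: `0` up to `ρ₂`, the rarefaction fan beyond `ρ₂`. -/
noncomputable def fan (α ρ₂ m₁ t ρ : ℝ) : ℝ :=
  if ρ ≤ ρ₂ then 0 else (((ρ - ρ₂) / (α * m₁ * t)) ^ (-α / (α - 1)) + α * t) ^ (-1 / α)

/-- The Rankine-Hugoniot speed for mass `m`, right state `a` and left state `b`. -/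
noncomputable def rh (α m a b : ℝ) : ℝ := m * ((a ^ α - b ^ α) / (a - b))

end Pool.Agent.H95.Shock
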