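import Mathlib

set_option autoImplicit false

namespace Pool.Agent.H95.Shoe

open Filter Topology Set

lemma ivt_le (h : ℝ → ℝ) (hc : Continuous h) (a b : ℝ) (hab : a ≤ b) (ha : h a ≤ -1)
    (hb : 1 ≤ h b) : ∃ a' b', a ≤ a' ∧ a' ≤ b' ∧ b' ≤ b ∧ h a' = -1 ∧ h b' = 1 ∧
      ∀ t ∈ Icc a' b', |h t| ≤ 1 := by
  have c1 : IsCompact (Icc a b ∩ {t | h t ≤ -1}) :=
    isCompact_Icc.inter_right (isClosed_le hc continuous_const)
  obtain ⟨a', ⟨⟨h1, h2⟩, h3⟩, h4⟩ := c1.exists_isGreatest ⟨a, ⟨le_rfl, hab⟩, ha⟩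
  have c2 : IsCompact (Icc a' b ∩ {t | 1 ≤ h t}) :=
    isCompact_Icc.inter_right (isClosed_le continuous_const hc)
  obtain ⟨b', ⟨⟨h5, h6⟩, h7⟩, h8⟩ := c2.exists_isLeast ⟨b, ⟨h2, le_rfl⟩, hb⟩
  have h3' : h a' ≤ -1 := h3
  have h7' : 1 ≤ h b' := h7
  have e1 : h a' = -1 := by
    obtain ⟨c, hc1, hc2⟩ := intermediate_value_Icc h2 hc.continuousOn
      (show (-1 : ℝ) ∈ Icc (h a') (h b) from ⟨h3', by linarith⟩)
    have := h4 ⟨⟨h1.trans hc1.1, hc1.2⟩, hc2.le⟩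
    rw [← hc2, le_antisymm this hc1.1]
  have e2 : h b' = 1 := by
    obtain ⟨c, hc1, hc2⟩ := intermediate_value_Icc h5 hc.continuousOn
      (show (1 : ℝ) ∈ Icc (h a') (h b') from ⟨by linarith, h7'⟩)
    have := h8 ⟨⟨hc1.1, hc1.2.trans h6⟩, hc2.ge⟩
    rw [← hc2, le_antisymm hc1.2 this]
  refine ⟨a', b', h1, h5, h6, e1, e2, fun t ht => abs_le.2 ⟨?_, ?_⟩⟩
  · by_contra hn
    have := h4 ⟨⟨h1.trans ht.1, ht.2.trans h6⟩, (not_le.1 hn).le⟩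
    rw [le_antisymm this ht.1] at hn
    exact hn e1.ge
  · by_contra hn
    have := h8 ⟨⟨ht.1, ht.2.trans h6⟩, (not_le.1 hn).le⟩
    rw [le_antisymm ht.2 this] at hn
    exact hn e2.le

lemma ivt (h : ℝ → ℝ) (hc : Continuous h) (a b : ℝ) (ha : h a ≤ -1) (hb : 1 ≤ h b) :
    ∃ a' b', uIcc a' b' ⊆ uIcc a b ∧ h a' = -1 ∧ h b' = 1 ∧ ∀ t ∈ uIcc a' b', |h t| ≤ 1 := by
  rcases le_total a b with hab | hab
  · obtain ⟨a', b', h1, h2, h3, h4, h5, h6⟩ := ivt_le h hc a b hab ha hb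
    refine ⟨a', b', ?_, h4, h5, ?_⟩
    · rw [uIcc_of_le h2, uIcc_of_le hab]; exact Icc_subset_Icc h1 h3
    · rwa [uIcc_of_le h2]
  · obtain ⟨a', b', h1, h2, h3, h4, h5, h6⟩ := ivt_le (fun t => h (-t)) (hc.comp continuous_neg)
      (-a) (-b) (by linarith) (by simpa using ha) (by simpa using hb)
    refine ⟨-a', -b', ?_, h4, h5, fun t ht => ?_⟩
    · rw [uIcc_of_ge (by linarith), uIcc_of_ge hab]
      exact Icc_subset_Icc (by linarith) (by linarith)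
    · rw [uIcc_of_ge (by linarith)] at ht
      have := h6 (-t) ⟨by linarith [ht.2], by linarith [ht.1]⟩
      simpa using this

abbrev E := ℝ × ℝ × ℝ

def box (ξ : E) : Prop := |ξ.1| ≤ 1 ∧ |ξ.2.1| ≤ 1 ∧ |ξ.2.2| ≤ 1

noncomputable def cl (x : ℝ) : ℝ := max (-1) (min 1 x)

noncomputable def clamp (ξ : E) : E := (cl ξ.1, cl ξ.2.1, cl ξ.2.2)

lemma cl_abs (x : ℝ) : |cl x| ≤ 1 :=
  abs_le.2 ⟨le_max_left _ _, max_le (by norm_num) (min_le_left _ _)⟩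

lemma cl_eq {x : ℝ} (h : |x| ≤ 1) : cl x = x := by
  rw [abs_le] at h
  rw [cl, min_eq_right h.2, max_eq_right h.1]

lemma clamp_eq {ξ : E} (h : box ξ) : clamp ξ = ξ := by
  rw [clamp, cl_eq h.1, cl_eq h.2.1, cl_eq h.2.2]

lemma clamp_cont : Continuous clamp := by
  unfold clamp cl
  fun_prop

def Stretch (g : E → E) : Prop :=
  ContinuousOn g {ξ | box ξ} ∧ (∀ ξ, box ξ → |(g ξ).2.1| ≤ 1 ∧ |(g ξ).2.2| ≤ 1) ∧
    ((∀ ξ, box ξ → (ξ.1 = 1 → 1 ≤ (g ξ).1) ∧ (ξ.1 = -1 → (g ξ).1 ≤ -1)) ∨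
      (∀ ξ, box ξ → (ξ.1 = -1 → 1 ≤ (g ξ).1) ∧ (ξ.1 = 1 → (g ξ).1 ≤ -1)))

noncomputable def orb (g : ℕ → E → E) : ℕ → ℝ → E
  | 0, t => (t, 0, 0)
  | n + 1, t => g n (clamp (orb g n t))

theorem orbit (g : ℕ → E → E) (hg : ∀ n, Stretch (g n)) :
    ∃ ξ : ℕ → E, ∀ n, box (ξ n) ∧ ξ (n + 1) = g n (ξ n) := by
  have hc : ∀ n, Continuous (orb g n) := by
    intro n
    induction n with
    | zero => exact continuous_id.prodMk continuous_const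
    | succ n ih =>
      exact (hg n).1.comp_continuous (clamp_cont.comp ih)
        fun t => ⟨cl_abs _, cl_abs _, cl_abs _⟩
  have key : ∀ n, ∃ a b, (∀ t ∈ uIcc a b, ∀ m ≤ n, box (orb g m t)) ∧ (orb g n a).1 = -1 ∧
      (orb g n b).1 = 1 := by
    intro n
    induction n with
    | zero =>
      refine ⟨-1, 1, fun t ht m hm => ?_, rfl, rfl⟩
      rw [Nat.le_zero.1 hm]
      rw [uIcc_of_le (by norm_num)] at ht
      exact ⟨abs_le.2 ht, by simp [orb], by simp [orb]⟩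
    | succ n ih =>
      obtain ⟨a, b, h1, h2, h3⟩ := ih
      have ba := h1 a left_mem_uIcc n le_rfl
      have bb := h1 b right_mem_uIcc n le_rfl
      have : ∃ a' b', uIcc a' b' ⊆ uIcc a b ∧ (orb g (n + 1) a').1 = -1 ∧
          (orb g (n + 1) b').1 = 1 ∧ ∀ t ∈ uIcc a' b', |(orb g (n + 1) t).1| ≤ 1 := by
        rcases (hg n).2.2 with h | h
        · refine ivt _ (hc (n + 1)).fst a b ?_ ?_
          · rw [orb, clamp_eq ba]; exact (h _ ba).2 h2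
          · rw [orb, clamp_eq bb]; exact (h _ bb).1 h3
        · rw [uIcc_comm a b]
          refine ivt _ (hc (n + 1)).fst b a ?_ ?_
          · rw [orb, clamp_eq bb]; exact (h _ bb).2 h3
          · rw [orb, clamp_eq ba]; exact (h _ ba).1 h2
      obtain ⟨a', b', s, e1, e2, e3⟩ := this
      refine ⟨a', b', fun t ht m hm => ?_, e1, e2⟩
      rcases hm.lt_or_eq with hm | rfl
      · exact h1 t (s ht) m (by omega)
      · have bt := h1 t (s ht) n le_rfl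
        refine ⟨e3 t ht, ?_⟩
        rw [orb, clamp_eq bt]
        exact (hg n).2.1 _ bt
  have hcl : ∀ n, IsClosed {t | ∀ m ≤ n, box (orb g m t)} := by
    intro n
    simp only [setOf_forall]
    refine isClosed_iInter fun m => isClosed_iInter fun _ => ?_
    exact (isClosed_le (hc m).fst.abs continuous_const).inter
      ((isClosed_le (hc m).snd.fst.abs continuous_const).inter
        (isClosed_le (hc m).snd.snd.abs continuous_const))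
  obtain ⟨t, ht⟩ := IsCompact.nonempty_iInter_of_sequence_nonempty_isCompact_isClosed
    (fun n => {t | ∀ m ≤ n, box (orb g m t)}) (fun n t ht m hm => ht m (by omega))
    (fun n => by obtain ⟨a, b, h, -⟩ := key n; exact ⟨a, h a left_mem_uIcc⟩)
    ((isCompact_Icc (a := -1) (b := 1)).of_isClosed_subset (hcl 0)
      fun t ht => abs_le.1 (ht 0 le_rfl).1) hcl
  rw [mem_iInter] at ht
  refine ⟨fun n => orb g n t, fun n => ⟨ht n n le_rfl, ?_⟩⟩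
  change g n (clamp (orb g n t)) = _
  rw [clamp_eq (ht n n le_rfl)]

structure V (K : Type) where
  (c1 c2 c3 m11 m12 m13 m21 m22 m23 m31 m32 m33 : K)

structure Pm (K : Type) where
  (a0 a1 a2 a3 b0 b1 b2 b3 : K)

section generic
variable {K : Type} [Field K] [LinearOrder K]

def V.det (Y : V K) : K :=
  Y.m11 * (Y.m22 * Y.m33 - Y.m23 * Y.m32) - Y.m12 * (Y.m21 * Y.m33 - Y.m23 * Y.m31) +
    Y.m13 * (Y.m21 * Y.m32 - Y.m22 * Y.m31)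

def V.inv (Y : V K) (D : K) : V K :=
  ⟨Y.c1, Y.c2, Y.c3,
    (Y.m22 * Y.m33 - Y.m23 * Y.m32) / D, (Y.m13 * Y.m32 - Y.m12 * Y.m33) / D,
    (Y.m12 * Y.m23 - Y.m13 * Y.m22) / D,
    (Y.m23 * Y.m31 - Y.m21 * Y.m33) / D, (Y.m11 * Y.m33 - Y.m13 * Y.m31) / D,
    (Y.m13 * Y.m21 - Y.m11 * Y.m23) / D,
    (Y.m21 * Y.m32 - Y.m22 * Y.m31) / D, (Y.m12 * Y.m31 - Y.m11 * Y.m32) / D,
    (Y.m11 * Y.m22 - Y.m12 * Y.m21) / D⟩

def row (X Z : V K) (p1 p2 p3 q e1 e2 e3 R s : K) : K :=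
  |p1 * (q - Z.c1) + p2 * (X.c1 - Z.c2) + p3 * (X.c2 - Z.c3)| +
    s * |p1 * e1 + p2 * X.m11 + p3 * X.m21| + |p1 * e2 + p2 * X.m12 + p3 * X.m22| +
    |p1 * e3 + p2 * X.m13 + p3 * X.m23| + |p1| * R

def CovC (X Z : V K) (q e1 e2 e3 R : K) : Prop :=
  row X Z Z.m11 Z.m12 Z.m13 q e1 e2 e3 R (-1) ≤ -1 ∧ row X Z Z.m21 Z.m22 Z.m23 q e1 e2 e3 R 1 ≤ 1 ∧
    row X Z Z.m31 Z.m32 Z.m33 q e1 e2 e3 R 1 ≤ 1

def CovB (X Z : V K) (q e1 e2 e3 d0 D : K) : Prop :=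
  D < d0 ∧ CovC X Z q e1 e2 e3 ((|e1| + |e2| + |e3|) * D / (d0 - D))

def CovA (P : Pm K) (X Z : V K) (q d0 d1 d2 d3 : K) : Prop :=
  CovB X Z q ((P.a1 * X.m11 + P.a2 * X.m21 + P.a3 * X.m31 - q * d1) / d0)
    ((P.a1 * X.m12 + P.a2 * X.m22 + P.a3 * X.m32 - q * d2) / d0)
    ((P.a1 * X.m13 + P.a2 * X.m23 + P.a3 * X.m33 - q * d3) / d0) d0 (|d1| + |d2| + |d3|)

def V.lo (X : V K) : K := X.c3 - (|X.m31| + |X.m32| + |X.m33|)

def V.hi (X : V K) : K := X.c3 + (|X.m31| + |X.m32| + |X.m33|)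

def Cov (P : Pm K) (X Y : V K) : Prop :=
  0 < X.lo ∧ Y.det ≠ 0 ∧ CovA P X (Y.inv Y.det)
    ((P.a0 + P.a1 * X.c1 + P.a2 * X.c2 + P.a3 * X.c3) /
      (P.b0 + P.b1 * X.c1 + P.b2 * X.c2 + P.b3 * X.c3))
    (P.b0 + P.b1 * X.c1 + P.b2 * X.c2 + P.b3 * X.c3)
    (P.b1 * X.m11 + P.b2 * X.m21 + P.b3 * X.m31) (P.b1 * X.m12 + P.b2 * X.m22 + P.b3 * X.m32)
    (P.b1 * X.m13 + P.b2 * X.m23 + P.b3 * X.m33)

end generic

instance (P : Pm ℚ) (X Y : V ℚ) : Decidable (Cov P X Y) := by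
  unfold Cov CovA CovB CovC
  infer_instance

def V.re (X : V ℚ) : V ℝ :=
  ⟨X.c1, X.c2, X.c3, X.m11, X.m12, X.m13, X.m21, X.m22, X.m23, X.m31, X.m32, X.m33⟩

def Pm.re (P : Pm ℚ) : Pm ℝ := ⟨P.a0, P.a1, P.a2, P.a3, P.b0, P.b1, P.b2, P.b3⟩

lemma Cov.re {P : Pm ℚ} {X Y : V ℚ} (h : Cov P X Y) : Cov P.re X.re Y.re := by
  simp only [Cov, CovA, CovB, CovC, row, V.lo, V.det, V.inv, V.re, Pm.re] at h ⊢
  exact_mod_cast h

lemma lo_re (X : V ℚ) : X.re.lo = (X.lo : ℚ) := by simp [V.lo, V.re]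

lemma hi_re (X : V ℚ) : X.re.hi = (X.hi : ℚ) := by simp [V.hi, V.re]

def pt (X : V ℝ) (ξ : E) : E :=
  (X.c1 + X.m11 * ξ.1 + X.m12 * ξ.2.1 + X.m13 * ξ.2.2,
    X.c2 + X.m21 * ξ.1 + X.m22 * ξ.2.1 + X.m23 * ξ.2.2,
    X.c3 + X.m31 * ξ.1 + X.m32 * ξ.2.1 + X.m33 * ξ.2.2)

def co (Z : V ℝ) (z : E) : E :=
  (Z.m11 * (z.1 - Z.c1) + Z.m12 * (z.2.1 - Z.c2) + Z.m13 * (z.2.2 - Z.c3),
    Z.m21 * (z.1 - Z.c1) + Z.m22 * (z.2.1 - Z.c2) + Z.m23 * (z.2.2 - Z.c3),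
    Z.m31 * (z.1 - Z.c1) + Z.m32 * (z.2.1 - Z.c2) + Z.m33 * (z.2.2 - Z.c3))

lemma pt_co (Y : V ℝ) (h : Y.det ≠ 0) (z : E) : pt Y (co (Y.inv Y.det) z) = z := by
  obtain ⟨D, hD⟩ : ∃ D, D = Y.det := ⟨_, rfl⟩
  rw [← hD] at h ⊢
  unfold V.det at hD
  refine Prod.ext ?_ (Prod.ext ?_ ?_) <;> simp only [pt, co, V.inv] <;> field_simp
  · linear_combination (Y.c1 - z.1) * hD
  · linear_combination (Y.c2 - z.2.1) * hD
  · linear_combination (Y.c3 - z.2.2) * hD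

noncomputable def F (P : Pm ℝ) (z : E) : E :=
  ((P.a0 + P.a1 * z.1 + P.a2 * z.2.1 + P.a3 * z.2.2) /
    (P.b0 + P.b1 * z.1 + P.b2 * z.2.1 + P.b3 * z.2.2), z.1, z.2.1)

lemma lin3 {l1 l2 l3 : ℝ} {ξ : E} (h : box ξ) :
    |l1 * ξ.1 + l2 * ξ.2.1 + l3 * ξ.2.2| ≤ |l1| + |l2| + |l3| := by
  refine (abs_add_three _ _ _).trans ?_
  simp only [abs_mul]
  have := mul_le_mul_of_nonneg_left h.1 (abs_nonneg l1)
  have := mul_le_mul_of_nonneg_left h.2.1 (abs_nonneg l2)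
  have := mul_le_mul_of_nonneg_left h.2.2 (abs_nonneg l3)
  linarith

lemma rem (n0 n1 n2 n3 d0 d1 d2 d3 : ℝ) {ξ : E} (h : box ξ) (hD : |d1| + |d2| + |d3| < d0) :
    0 < d0 + d1 * ξ.1 + d2 * ξ.2.1 + d3 * ξ.2.2 ∧
    ∃ r, |r| ≤ (|(n1 - n0 / d0 * d1) / d0| + |(n2 - n0 / d0 * d2) / d0| +
        |(n3 - n0 / d0 * d3) / d0|) * (|d1| + |d2| + |d3|) / (d0 - (|d1| + |d2| + |d3|)) ∧
      (n0 + n1 * ξ.1 + n2 * ξ.2.1 + n3 * ξ.2.2) / (d0 + d1 * ξ.1 + d2 * ξ.2.1 + d3 * ξ.2.2) =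
        n0 / d0 + (n1 - n0 / d0 * d1) / d0 * ξ.1 + (n2 - n0 / d0 * d2) / d0 * ξ.2.1 +
          (n3 - n0 / d0 * d3) / d0 * ξ.2.2 + r := by
  have b1 := lin3 (l1 := d1) (l2 := d2) (l3 := d3) h
  have b2 := lin3 (l1 := (n1 - n0 / d0 * d1) / d0) (l2 := (n2 - n0 / d0 * d2) / d0)
    (l3 := (n3 - n0 / d0 * d3) / d0) h
  have b3 := abs_le.1 b1
  have p0 : 0 < d0 := lt_of_le_of_lt (by positivity) hD
  have p1 : 0 < d0 + d1 * ξ.1 + d2 * ξ.2.1 + d3 * ξ.2.2 := by linarith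
  refine ⟨p1, -((n1 - n0 / d0 * d1) / d0 * ξ.1 + (n2 - n0 / d0 * d2) / d0 * ξ.2.1 +
    (n3 - n0 / d0 * d3) / d0 * ξ.2.2) * (d1 * ξ.1 + d2 * ξ.2.1 + d3 * ξ.2.2) /
      (d0 + d1 * ξ.1 + d2 * ξ.2.1 + d3 * ξ.2.2), ?_, ?_⟩
  · rw [abs_div, abs_mul, abs_neg, abs_of_pos p1]
    exact div_le_div₀ (by positivity) (mul_le_mul b2 b1 (abs_nonneg _) (by positivity))
      (by linarith) (by linarith)
  · have := p0.ne'
    rw [← sub_eq_iff_eq_add', div_sub' p1.ne', div_left_inj' p1.ne']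
    field_simp
    ring

lemma row_bd (X Z : V ℝ) (p1 p2 p3 q e1 e2 e3 R r : ℝ) {ξ : E} (h : box ξ) (hr : |r| ≤ R) :
    |p1 * (q + e1 * ξ.1 + e2 * ξ.2.1 + e3 * ξ.2.2 + r - Z.c1) + p2 * ((pt X ξ).1 - Z.c2) +
      p3 * ((pt X ξ).2.1 - Z.c3) - (p1 * e1 + p2 * X.m11 + p3 * X.m21) * ξ.1| ≤
      row X Z p1 p2 p3 q e1 e2 e3 R 0 := by
  have e : p1 * (q + e1 * ξ.1 + e2 * ξ.2.1 + e3 * ξ.2.2 + r - Z.c1) + p2 * ((pt X ξ).1 - Z.c2) +
      p3 * ((pt X ξ).2.1 - Z.c3) - (p1 * e1 + p2 * X.m11 + p3 * X.m21) * ξ.1 =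
      (p1 * (q - Z.c1) + p2 * (X.c1 - Z.c2) + p3 * (X.c2 - Z.c3)) +
      (0 * ξ.1 + (p1 * e2 + p2 * X.m12 + p3 * X.m22) * ξ.2.1 +
        (p1 * e3 + p2 * X.m13 + p3 * X.m23) * ξ.2.2) + p1 * r := by
    simp only [pt]; ring
  rw [e, row]
  refine (abs_add_three _ _ _).trans ?_
  have b1 := lin3 (l1 := 0) (l2 := p1 * e2 + p2 * X.m12 + p3 * X.m22)
    (l3 := p1 * e3 + p2 * X.m13 + p3 * X.m23) h
  have b2 := mul_le_mul_of_nonneg_left hr (abs_nonneg p1)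
  rw [abs_mul p1 r]
  rw [abs_zero] at b1
  linarith

lemma row_s (X Z : V ℝ) (p1 p2 p3 q e1 e2 e3 R s : ℝ) : row X Z p1 p2 p3 q e1 e2 e3 R s =
    row X Z p1 p2 p3 q e1 e2 e3 R 0 + s * |p1 * e1 + p2 * X.m11 + p3 * X.m21| := by
  simp only [row]; ring

lemma Cov.stretch {P : Pm ℝ} {X Y : V ℝ} (h : Cov P X Y) :
    Stretch fun ξ => co (Y.inv Y.det) (F P (pt X ξ)) := by
  obtain ⟨-, -, hD, h1, h2, h3⟩ := h
  generalize Y.inv Y.det = Z at h1 h2 h3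
  have eN : ∀ ξ : E, P.a0 + P.a1 * (pt X ξ).1 + P.a2 * (pt X ξ).2.1 + P.a3 * (pt X ξ).2.2 =
      (P.a0 + P.a1 * X.c1 + P.a2 * X.c2 + P.a3 * X.c3) +
      (P.a1 * X.m11 + P.a2 * X.m21 + P.a3 * X.m31) * ξ.1 +
      (P.a1 * X.m12 + P.a2 * X.m22 + P.a3 * X.m32) * ξ.2.1 +
      (P.a1 * X.m13 + P.a2 * X.m23 + P.a3 * X.m33) * ξ.2.2 := fun ξ => by simp only [pt]; ring
  have eD : ∀ ξ : E, P.b0 + P.b1 * (pt X ξ).1 + P.b2 * (pt X ξ).2.1 + P.b3 * (pt X ξ).2.2 =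
      (P.b0 + P.b1 * X.c1 + P.b2 * X.c2 + P.b3 * X.c3) +
      (P.b1 * X.m11 + P.b2 * X.m21 + P.b3 * X.m31) * ξ.1 +
      (P.b1 * X.m12 + P.b2 * X.m22 + P.b3 * X.m32) * ξ.2.1 +
      (P.b1 * X.m13 + P.b2 * X.m23 + P.b3 * X.m33) * ξ.2.2 := fun ξ => by simp only [pt]; ring
  simp only [F, eN, eD]
  generalize P.a0 + P.a1 * X.c1 + P.a2 * X.c2 + P.a3 * X.c3 = n0 at *
  generalize P.a1 * X.m11 + P.a2 * X.m21 + P.a3 * X.m31 = n1 at *
  generalize P.a1 * X.m12 + P.a2 * X.m22 + P.a3 * X.m32 = n2 at *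
  generalize P.a1 * X.m13 + P.a2 * X.m23 + P.a3 * X.m33 = n3 at *
  generalize P.b0 + P.b1 * X.c1 + P.b2 * X.c2 + P.b3 * X.c3 = d0 at *
  generalize P.b1 * X.m11 + P.b2 * X.m21 + P.b3 * X.m31 = d1 at *
  generalize P.b1 * X.m12 + P.b2 * X.m22 + P.b3 * X.m32 = d2 at *
  generalize P.b1 * X.m13 + P.b2 * X.m23 + P.b3 * X.m33 = d3 at *
  have hr := fun ξ (h : box ξ) => rem n0 n1 n2 n3 d0 d1 d2 d3 h hD
  generalize (|(n1 - n0 / d0 * d1) / d0| + |(n2 - n0 / d0 * d2) / d0| +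
    |(n3 - n0 / d0 * d3) / d0|) * (|d1| + |d2| + |d3|) / (d0 - (|d1| + |d2| + |d3|)) = R at *
  generalize (n1 - n0 / d0 * d1) / d0 = e1 at *
  generalize (n2 - n0 / d0 * d2) / d0 = e2 at *
  generalize (n3 - n0 / d0 * d3) / d0 = e3 at *
  generalize n0 / d0 = q at *
  rw [row_s] at h1 h2 h3
  refine ⟨?_, fun ξ hξ => ?_, ?_⟩
  · have c : ContinuousOn (fun ξ : E => (n0 + n1 * ξ.1 + n2 * ξ.2.1 + n3 * ξ.2.2) /
        (d0 + d1 * ξ.1 + d2 * ξ.2.1 + d3 * ξ.2.2)) {ξ | box ξ} :=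
      ContinuousOn.div (by fun_prop) (by fun_prop) fun ξ hξ => (hr ξ hξ).1.ne'
    have c2 : Continuous (co Z) := by unfold co; fun_prop
    have c3 : Continuous (pt X) := by unfold pt; fun_prop
    exact c2.comp_continuousOn (c.prodMk (c3.fst.prodMk c3.snd.fst).continuousOn)
  · obtain ⟨-, r, b, e⟩ := hr ξ hξ
    simp only [co, e]
    have t : ∀ y l : ℝ, |y| ≤ |y - l * ξ.1| + |l| := fun y l => by
      have := abs_add_le (y - l * ξ.1) (l * ξ.1)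
      rw [sub_add_cancel, abs_mul] at this
      have := mul_le_mul_of_nonneg_left hξ.1 (abs_nonneg l)
      linarith
    constructor
    · have := row_bd X Z Z.m21 Z.m22 Z.m23 q e1 e2 e3 R r hξ b
      exact (t _ _).trans (by linarith)
    · have := row_bd X Z Z.m31 Z.m32 Z.m33 q e1 e2 e3 R r hξ b
      exact (t _ _).trans (by linarith)
  · rcases le_total 0 (Z.m11 * e1 + Z.m12 * X.m11 + Z.m13 * X.m21) with s | s
    · rw [abs_of_nonneg s] at h1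
      refine Or.inl fun ξ hξ => ?_
      obtain ⟨-, r, b, e⟩ := hr ξ hξ
      have := abs_le.1 (row_bd X Z Z.m11 Z.m12 Z.m13 q e1 e2 e3 R r hξ b)
      simp only [co, e]
      constructor <;> intro h <;> rw [h] at this ⊢ <;> linarith [this.1, this.2]
    · rw [abs_of_nonpos s] at h1
      refine Or.inr fun ξ hξ => ?_
      obtain ⟨-, r, b, e⟩ := hr ξ hξ
      have := abs_le.1 (row_bd X Z Z.m11 Z.m12 Z.m13 q e1 e2 e3 R r hξ b)
      simp only [co, e]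
      constructor <;> intro h <;> rw [h] at this ⊢ <;> linarith [this.1, this.2]

lemma pt_bd (X : V ℝ) {ξ : E} (h : box ξ) : X.lo ≤ (pt X ξ).2.2 ∧ (pt X ξ).2.2 ≤ X.hi := by
  have := abs_le.1 (lin3 (l1 := X.m31) (l2 := X.m32) (l3 := X.m33) h)
  simp only [V.lo, V.hi, pt]
  constructor <;> linarith [this.1, this.2]

theorem shadow (P : Pm ℚ) (v : ℕ → V ℚ) (h : ∀ n, Cov P (v n) (v (n + 1))) :
    ∃ x : ℕ → ℝ, (∀ n, ((v n).lo : ℚ) ≤ x n ∧ x n ≤ ((v n).hi : ℚ)) ∧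
      ∀ n, x (n + 3) = (P.a0 + P.a1 * x (n + 2) + P.a2 * x (n + 1) + P.a3 * x n) /
        (P.b0 + P.b1 * x (n + 2) + P.b2 * x (n + 1) + P.b3 * x n) := by
  obtain ⟨ξ, hξ⟩ := orbit _ fun n => (h n).re.stretch
  have st : ∀ n, pt (v (n + 1)).re (ξ (n + 1)) = F P.re (pt (v n).re (ξ n)) := fun n => by
    rw [(hξ n).2, pt_co _ (h n).re.2.1]
  refine ⟨fun n => (pt (v n).re (ξ n)).2.2, fun n => ?_, fun n => ?_⟩
  · rw [← lo_re, ← hi_re]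
    exact pt_bd _ (hξ n).1
  · simp only [st]
    rfl

def fld (x s w : ℕ) : ℚ :=
  (((x >>> s) % 2 ^ w : ℕ) - (2 ^ (w - 1) : ℕ) : ℤ) * (2 ^ 64 : ℕ) /
    (2 ^ ((x >>> (s + w)) % 256) : ℕ)

def dec (x : ℕ) : V ℚ :=
  ⟨fld x 0 48, fld x 56 48, fld x 112 48, fld x 168 24, fld x 200 24, fld x 232 24, fld x 264 24,
    fld x 296 24, fld x 328 24, fld x 360 24, fld x 392 24, fld x 424 24⟩

open Classical in
theorem main (P : Pm ℚ) (A B : ℕ → V ℚ) (a b i : ℕ) (δ : ℚ) (ha : 0 < a) (hi : i < b)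
    (hδ : 0 < δ) (h0 : A 0 = B 0) (hA : ∀ j < a, Cov P (A j) (A ((j + 1) % a)))
    (hB : ∀ j < b, Cov P (B j) (B ((j + 1) % b)))
    (hs : ∀ j < a, (A j).hi + δ ≤ (B i).lo ∨ (B i).hi + δ ≤ (A j).lo) :
    ∃ x : ℕ → ℝ, (∀ n, 0 < x n) ∧
      (∀ n, x (n + 3) = (P.a0 + P.a1 * x (n + 2) + P.a2 * x (n + 1) + P.a3 * x n) /
        (P.b0 + P.b1 * x (n + 2) + P.b2 * x (n + 1) + P.b3 * x n)) ∧ BddAbove (range x) ∧
      (∀ c : ℝ, ¬ Tendsto x atTop (𝓝 c)) ∧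
      ∀ p : ℕ → ℝ, (∃ k, 0 < k ∧ ∀ n, p (n + k) = p n) →
        ¬ Tendsto (fun n => x n - p n) atTop (𝓝 0) := by
  have hb : 0 < b := by omega
  have hL : 0 < a * b := Nat.mul_pos ha hb
  set v : ℕ → V ℚ := fun n => if IsSquare (n / (a * b)) then B (n % b) else A (n % a) with hv
  have hc : ∀ n, Cov P (v n) (v (n + 1)) := by
    intro n
    have c1 := hA (n % a) (Nat.mod_lt _ ha)
    have c2 := hB (n % b) (Nat.mod_lt _ hb)
    rw [Nat.mod_add_mod] at c1 c2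
    by_cases hd : a * b ∣ n + 1
    · have e1 : (n + 1) % a = 0 := Nat.mod_eq_zero_of_dvd ((Dvd.intro _ rfl).trans hd)
      have e2 : (n + 1) % b = 0 := Nat.mod_eq_zero_of_dvd ((Dvd.intro_left _ rfl).trans hd)
      rw [e1] at c1
      rw [e2] at c2
      have e3 : v (n + 1) = A 0 := by
        simp only [hv, e1, e2, ← h0, ite_self]
      rw [e3]
      simp only [hv]
      split_ifs
      · rw [h0]; exact c2
      · exact c1
    · simp only [hv, Nat.succ_div_of_not_dvd hd]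
      split_ifs
      exacts [c2, c1]
  obtain ⟨x, hx, hr⟩ := shadow P v hc
  have fin : ∀ p : ℕ → ℝ, (∃ k, 0 < k ∧ ∀ n, p (n + k) = p n) →
      ¬ Tendsto (fun n => x n - p n) atTop (𝓝 0) := by
    rintro p ⟨k, hk, hp⟩ ht
    have hp' : ∀ j n, p (n + j * k) = p n := by
      intro j n
      induction j with
      | zero => simp
      | succ j ih => rw [Nat.succ_mul, ← add_assoc, hp, ih]
    have hδ' : (0 : ℝ) < δ := by exact_mod_cast hδ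
    obtain ⟨N, hN⟩ := Metric.tendsto_atTop.1 ht (δ / 2) (by positivity)
    set m := N + k with hm
    have hiL : i < a * b := lt_of_lt_of_le hi (Nat.le_mul_of_pos_left _ ha)
    have q1 : (i + a * b * (m * m)) / (a * b) = m * m := by
      rw [Nat.add_mul_div_left _ _ hL, Nat.div_eq_of_lt hiL, zero_add]
    have q2 : (i + a * b * (m * m) + a * b * k) / (a * b) = m * m + k := by
      rw [Nat.add_mul_div_left _ _ hL, q1]
    have q3 : ¬ IsSquare (m * m + k) := by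
      rintro ⟨r, hr⟩
      exact Nat.not_exists_sq (m := m) (n := m * m + k) (by omega) (by nlinarith) ⟨r, hr.symm⟩
    have q4 : (i + a * b * (m * m)) % b = i := by
      rw [mul_comm a b, mul_assoc, Nat.add_mul_mod_self_left, Nat.mod_eq_of_lt hi]
    have ge : N ≤ i + a * b * (m * m) := by
      have : m ≤ m * m := Nat.le_mul_self m
      have : m * m ≤ a * b * (m * m) := Nat.le_mul_of_pos_left _ hL
      omega
    have x1 := hx (i + a * b * (m * m))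
    have x2 := hx (i + a * b * (m * m) + a * b * k)
    have v1 : v (i + a * b * (m * m)) = B i := by
      simp only [hv, q1, q4]; exact if_pos ⟨m, rfl⟩
    have v2 : v (i + a * b * (m * m) + a * b * k) =
        A ((i + a * b * (m * m) + a * b * k) % a) := by
      simp only [hv, q2]; exact if_neg q3
    rw [v1] at x1
    rw [v2] at x2
    have d1 := hN _ ge
    have d2 := hN (i + a * b * (m * m) + a * b * k) (by omega)
    rw [hp', Real.dist_eq, sub_zero, abs_lt] at d2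
    rw [Real.dist_eq, sub_zero, abs_lt] at d1
    rcases hs _ (Nat.mod_lt (i + a * b * (m * m) + a * b * k) ha) with h | h
    · have h' := (Rat.cast_le (K := ℝ)).2 h
      push_cast at h'
      linarith [x1.1, x2.2, d1.2, d2.1]
    · have h' := (Rat.cast_le (K := ℝ)).2 h
      push_cast at h'
      linarith [x1.2, x2.1, d1.1, d2.2]
  refine ⟨x, fun n => ?_, hr, ?_, fun c hc => ?_, fin⟩
  · have : (0 : ℝ) < ((v n).lo : ℚ) := by exact_mod_cast (hc n).1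
    exact this.trans_le (hx n).1
  · refine ⟨∑ j ∈ Finset.range a, |(((A j).hi : ℚ) : ℝ)| +
      ∑ j ∈ Finset.range b, |(((B j).hi : ℚ) : ℝ)|, ?_⟩
    rintro _ ⟨n, rfl⟩
    have s1 := Finset.single_le_sum (f := fun j => |(((A j).hi : ℚ) : ℝ)|)
      (fun _ _ => abs_nonneg _) (Finset.mem_range.2 (Nat.mod_lt n ha))
    have s2 := Finset.single_le_sum (f := fun j => |(((B j).hi : ℚ) : ℝ)|)
      (fun _ _ => abs_nonneg _) (Finset.mem_range.2 (Nat.mod_lt n hb))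
    have t1 := le_abs_self (((A (n % a)).hi : ℚ) : ℝ)
    have t2 := le_abs_self (((B (n % b)).hi : ℚ) : ℝ)
    have u1 := abs_nonneg (((A (n % a)).hi : ℚ) : ℝ)
    have u2 := abs_nonneg (((B (n % b)).hi : ℚ) : ℝ)
    have := (hx n).2
    simp only [hv] at this
    split_ifs at this <;> linarith
  · refine fin (fun _ => c) ⟨1, one_pos, fun _ => rfl⟩ ?_
    simpa using hc.sub_const c

end Pool.Agent.H95.Shoe
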