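import Mathlib

set_option autoImplicit false

namespace Pool.Agent.H95.Shp
open Finset Complex Filter Topology Asymptotics

theorem parseval {N : ℕ} {ζ : ℂ} (hζ : IsPrimitiveRoot ζ N) (hN : N ≠ 0) (v : ℕ → ℂ) :
    ∑ j ∈ range N, ‖∑ k ∈ range N, v k * (ζ ^ j) ^ k‖ ^ 2 = N * ∑ k ∈ range N, ‖v k‖ ^ 2 := by
  have h1 : ‖ζ‖ = 1 := hζ.norm'_eq_one hN
  have hc : ζ * (starRingEnd ℂ) ζ = 1 := by rw [mul_conj, normSq_eq_norm_sq, h1]; simp
  have hN1 : ζ ^ N = 1 := hζ.pow_eq_one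
  have key : ∀ k ∈ range N, ∀ l ∈ range N,
      ∑ j ∈ range N, (ζ ^ k * (starRingEnd ℂ) ζ ^ l) ^ j = if k = l then (N : ℂ) else 0 := by
    intro k hk l hl
    split_ifs with h
    · subst h
      rw [← mul_pow, hc]; simp
    · have e1 : (ζ ^ k * (starRingEnd ℂ) ζ ^ l) ^ N = 1 := by
        rw [mul_pow, ← pow_mul, ← pow_mul, mul_comm k, mul_comm l, pow_mul, pow_mul, ← map_pow, hN1]
        simp
      have e2 : ζ ^ k * (starRingEnd ℂ) ζ ^ l ≠ 1 := fun e => h (by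
        refine hζ.pow_inj (mem_range.1 hk) (mem_range.1 hl) ?_
        have : ζ ^ k * (ζ * (starRingEnd ℂ) ζ) ^ l = ζ ^ l := by
          rw [mul_pow, mul_left_comm, e, mul_one]
        rwa [hc, one_pow, mul_one] at this)
      have := mul_geom_sum (ζ ^ k * (starRingEnd ℂ) ζ ^ l) N
      rw [e1, sub_self] at this
      exact (mul_eq_zero.1 this).resolve_left (sub_ne_zero.2 e2)
  apply Complex.ofReal_injective
  push_cast
  simp only [← mul_conj', map_sum, map_mul, map_pow, sum_mul_sum]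
  rw [sum_comm, mul_sum]
  refine sum_congr rfl fun k hk => ?_
  rw [sum_comm]
  have : ∀ l ∈ range N, ∑ j ∈ range N,
      v k * (ζ ^ j) ^ k * ((starRingEnd ℂ) (v l) * ((starRingEnd ℂ) ζ ^ j) ^ l) =
      v k * (starRingEnd ℂ) (v l) * if k = l then (N : ℂ) else 0 := fun l hl => by
    rw [← key k hk l hl, mul_sum]
    exact sum_congr rfl fun j _ => by ring
  rw [sum_congr rfl this]
  simp [mem_range.1 hk]
  ring

noncomputable def cf (q : ℝ) (k : ℕ) : ℝ := ‖Ring.choose (q : ℂ) k‖ ^ 2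

theorem loc1 (q : ℝ) : ∃ K : ℝ, ∀ᶠ w in 𝓝 (0 : ℂ),
    |‖1 + w‖ ^ (2 * q) - ‖∑ k ∈ range 9, Ring.choose (q : ℂ) k * w ^ k‖ ^ 2| ≤ K * ‖w‖ ^ 9 := by
  have h := (one_add_cpow_hasFPowerSeriesOnBall_zero (a := (q : ℂ))).hasFPowerSeriesAt
  obtain ⟨K, hK⟩ := (h.isBigO_sub_partialSum_pow 9).bound
  have c1 : ContinuousAt (fun w : ℂ => ‖(1 + w) ^ (q : ℂ)‖ +
      ‖∑ k ∈ range 9, Ring.choose (q : ℂ) k * w ^ k‖) 0 :=
    h.continuousAt.norm.add (by fun_prop)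
  have c2 := c1.eventually (gt_mem_nhds (lt_add_one _))
  refine ⟨K * (‖(1 + 0 : ℂ) ^ (q : ℂ)‖ +
      ‖∑ k ∈ range 9, Ring.choose (q : ℂ) k * (0 : ℂ) ^ k‖ + 1), ?_⟩
  filter_upwards [hK, c2] with w h1 h2
  have e : (binomialSeries ℂ (q : ℂ)).partialSum 9 w =
      ∑ k ∈ range 9, Ring.choose (q : ℂ) k * w ^ k := by
    refine sum_congr rfl fun k _ => ?_
    rw [binomialSeries_apply]
    simp
  rw [e, zero_add, norm_pow, norm_norm] at h1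
  have e2 : ‖1 + w‖ ^ (2 * q) = ‖(1 + w) ^ (q : ℂ)‖ ^ 2 := by
    rw [norm_cpow_real, mul_comm, Real.rpow_mul (norm_nonneg _), Real.rpow_two]
  rw [e2, sq_sub_sq, abs_mul, abs_of_nonneg (by positivity), mul_comm, mul_right_comm]
  exact mul_le_mul ((abs_norm_sub_norm_le _ _).trans h1) h2.le (by positivity)
    ((norm_nonneg _).trans h1)

theorem loc2 (q : ℝ) {ζ : ℂ} (hζ : IsPrimitiveRoot ζ 9) : ∃ K δ : ℝ, 0 ≤ K ∧ 0 < δ ∧
    ∀ w : ℂ, ‖w‖ ≤ δ → |∑ j ∈ range 9, ‖1 + ζ ^ j * w‖ ^ (2 * q) -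
      9 * ∑ k ∈ range 5, cf q k * ‖w‖ ^ (2 * k)| ≤ K * ‖w‖ ^ 9 := by
  obtain ⟨K, hK⟩ := loc1 q
  obtain ⟨δ, hδ, hb⟩ := Metric.eventually_nhds_iff.1 hK
  have h1 : ‖ζ‖ = 1 := hζ.norm'_eq_one (by norm_num)
  have hc : ∀ k, 0 ≤ cf q k := fun k => sq_nonneg _
  refine ⟨9 * |K| + 9 * ∑ k ∈ range 4, cf q (5 + k), min (δ / 2) 1,
    add_nonneg (by positivity) (mul_nonneg (by norm_num) (sum_nonneg fun k _ => hc _)),
    by positivity, fun w hw => ?_⟩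
  have hw1 : ‖w‖ ≤ 1 := hw.trans (min_le_right _ _)
  have p1 := parseval hζ (by norm_num) fun k => Ring.choose (q : ℂ) k * w ^ k
  have p2 : ∀ j ∈ range 9, |‖1 + ζ ^ j * w‖ ^ (2 * q) -
      ‖∑ k ∈ range 9, Ring.choose (q : ℂ) k * w ^ k * (ζ ^ j) ^ k‖ ^ 2| ≤ |K| * ‖w‖ ^ 9 := by
    intro j _
    have n1 : ‖ζ ^ j * w‖ = ‖w‖ := by rw [norm_mul, norm_pow, h1, one_pow, one_mul]
    have := hb (y := ζ ^ j * w) (by
      rw [dist_zero_right, n1]; exact (hw.trans (min_le_left _ _)).trans_lt (by linarith))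
    rw [n1] at this
    simp only [mul_pow, mul_comm ((ζ ^ j) ^ _), ← mul_assoc] at this
    exact this.trans (mul_le_mul_of_nonneg_right (le_abs_self _) (by positivity))
  have p3 := (abs_sum_le_sum_abs _ _).trans (sum_le_sum p2)
  rw [sum_sub_distrib, p1, sum_const, card_range, nsmul_eq_mul] at p3
  have p4 : ∑ k ∈ range 9, ‖Ring.choose (q : ℂ) k * w ^ k‖ ^ 2 =
      ∑ k ∈ range 5, cf q k * ‖w‖ ^ (2 * k) + ∑ k ∈ range 4, cf q (5 + k) * ‖w‖ ^ (2 * (5 + k)) := by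
    rw [← sum_range_add (fun k => cf q k * ‖w‖ ^ (2 * k)) 5 4]
    exact sum_congr rfl fun k _ => by rw [norm_mul, norm_pow, cf]; ring
  have p5 : ∑ k ∈ range 4, cf q (5 + k) * ‖w‖ ^ (2 * (5 + k)) ≤
      (∑ k ∈ range 4, cf q (5 + k)) * ‖w‖ ^ 9 := by
    rw [sum_mul]
    exact sum_le_sum fun k _ => mul_le_mul_of_nonneg_left
      (pow_le_pow_of_le_one (norm_nonneg _) hw1 (by omega)) (hc _)
  have p6 : 0 ≤ ∑ k ∈ range 4, cf q (5 + k) * ‖w‖ ^ (2 * (5 + k)) :=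
    sum_nonneg fun k _ => mul_nonneg (hc _) (by positivity)
  rw [p4] at p3
  push_cast at p3
  rw [abs_le] at p3 ⊢
  constructor <;> nlinarith [p3.1, p3.2]

theorem mix {x y p s : ℝ} (hx : 0 ≤ x) (hy : 0 ≤ y) (hs : 0 ≤ s) (hp : s ≤ p) :
    x ^ p * (y / x) ^ s ≤ x ^ p + y ^ p := by
  rcases le_total (y / x) 1 with h | h
  · have := Real.rpow_le_one (div_nonneg hy hx) h hs
    nlinarith [Real.rpow_nonneg hx p, Real.rpow_nonneg hy p]
  · have hx0 : x ≠ 0 := by rintro rfl; norm_num at h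
    have := Real.rpow_le_rpow_of_exponent_le h hp
    have e : x ^ p * (y / x) ^ p = y ^ p := by
      rw [← Real.mul_rpow hx (div_nonneg hy hx), mul_div_cancel₀ _ hx0]
    nlinarith [Real.rpow_nonneg hx p]

theorem mixn {x y p : ℝ} (hx : 0 ≤ x) (hy : 0 ≤ y) {k : ℕ} (hp : (k : ℝ) ≤ p) :
    x ^ p * (y / x) ^ k ≤ x ^ p + y ^ p := by
  rw [← Real.rpow_natCast (y / x)]
  exact mix hx hy (Nat.cast_nonneg k) hp

theorem glob {q s : ℝ} (hq : 4 ≤ q) (h0 : 0 ≤ s) (hs : s ≤ 9) (hs' : s ≤ 2 * q) {ζ : ℂ}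
    (hζ : IsPrimitiveRoot ζ 9) : ∃ C : ℝ, ∀ a b : ℂ, ∀ t : ℝ, 0 < t → t ≤ 1 →
    |∑ j ∈ range 9, ‖a + ζ ^ j * t * b‖ ^ (2 * q) -
      9 * ∑ k ∈ range 5, cf q k * t ^ (2 * k) * (‖a‖ ^ (2 * q) * (‖b‖ / ‖a‖) ^ (2 * k))| ≤
      C * t ^ s * (‖a‖ ^ (2 * q) + ‖b‖ ^ (2 * q)) := by
  obtain ⟨K, δ, hK, hδ, h⟩ := loc2 q hζ
  have h1 : ‖ζ‖ = 1 := hζ.norm'_eq_one (by norm_num)
  have hc : ∀ k, 0 ≤ cf q k := fun k => sq_nonneg _
  have hS : 0 ≤ ∑ k ∈ range 5, cf q k := sum_nonneg fun k _ => hc _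
  set L := 9 * (δ⁻¹ + 1) ^ (2 * q) + 9 * (∑ k ∈ range 5, cf q k) * (δ⁻¹ ^ (2 * q) + 1) with hL
  have hL0 : 0 ≤ L := by positivity
  refine ⟨K * δ ^ (9 - s) + L, fun a b t ht ht1 => ?_⟩
  have hts : 0 ≤ t ^ s := by positivity
  have ha : 0 ≤ ‖a‖ ^ (2 * q) := by positivity
  have hb : 0 ≤ ‖b‖ ^ (2 * q) := by positivity
  by_cases hA : a ≠ 0 ∧ t * (‖b‖ / ‖a‖) ≤ δ
  · obtain ⟨ha0, hA⟩ := hA
    have nw : ‖(t : ℂ) * b / a‖ = t * (‖b‖ / ‖a‖) := by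
      rw [norm_div, norm_mul, norm_real, Real.norm_of_nonneg ht.le, mul_div_assoc]
    have := h (t * b / a) (nw ▸ hA)
    rw [nw] at this
    have e1 : ∀ j ∈ range 9, ‖a + ζ ^ j * t * b‖ ^ (2 * q) =
        ‖a‖ ^ (2 * q) * ‖1 + ζ ^ j * (t * b / a)‖ ^ (2 * q) := fun j _ => by
      rw [← Real.mul_rpow (norm_nonneg _) (norm_nonneg _), ← norm_mul]
      congr 2
      field_simp
    have e2 : ∀ k ∈ range 5, cf q k * t ^ (2 * k) * (‖a‖ ^ (2 * q) * (‖b‖ / ‖a‖) ^ (2 * k)) =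
        ‖a‖ ^ (2 * q) * (cf q k * (t * (‖b‖ / ‖a‖)) ^ (2 * k)) := fun k _ => by
      rw [mul_pow]; ring
    rw [sum_congr rfl e1, sum_congr rfl e2, ← mul_sum, ← mul_sum, mul_left_comm, ← mul_sub, abs_mul,
      abs_of_nonneg ha]
    have hr : 0 ≤ ‖b‖ / ‖a‖ := by positivity
    have e3 : (t * (‖b‖ / ‖a‖)) ^ 9 ≤ δ ^ (9 - s) * (t ^ s * (‖b‖ / ‖a‖) ^ s) := by
      rw [← Real.mul_rpow ht.le hr, ← Real.rpow_natCast, show ((9 : ℕ) : ℝ) = (9 - s) + s by simp,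
        Real.rpow_add' (by positivity) (by simp)]
      exact mul_le_mul_of_nonneg_right (Real.rpow_le_rpow (by positivity) hA (by linarith))
        (by positivity)
    have e4 := mix (norm_nonneg a) (norm_nonneg b) h0 hs'
    calc _ ≤ ‖a‖ ^ (2 * q) * (K * (δ ^ (9 - s) * (t ^ s * (‖b‖ / ‖a‖) ^ s))) :=
          mul_le_mul_of_nonneg_left (this.trans (mul_le_mul_of_nonneg_left e3 hK)) ha
      _ = K * δ ^ (9 - s) * t ^ s * (‖a‖ ^ (2 * q) * (‖b‖ / ‖a‖) ^ s) := by ring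
      _ ≤ K * δ ^ (9 - s) * t ^ s * (‖a‖ ^ (2 * q) + ‖b‖ ^ (2 * q)) :=
          mul_le_mul_of_nonneg_left e4 (by positivity)
      _ ≤ _ := by gcongr; linarith
  · have hy : 0 ≤ t * ‖b‖ := by positivity
    have hab : ‖a‖ ≤ δ⁻¹ * (t * ‖b‖) := by
      by_cases ha0 : a = 0
      · rw [ha0, norm_zero]; positivity
      · have := not_le.1 fun h' => hA ⟨ha0, h'⟩
        rw [← mul_div_assoc, lt_div_iff₀ (norm_pos_iff.2 ha0)] at this
        rw [inv_mul_eq_div, le_div_iff₀ hδ]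
        linarith
    have e1 : ∀ j ∈ range 9, ‖a + ζ ^ j * t * b‖ ^ (2 * q) ≤
        (δ⁻¹ + 1) ^ (2 * q) * (t * ‖b‖) ^ (2 * q) := fun j _ => by
      rw [← Real.mul_rpow (by positivity) hy]
      refine Real.rpow_le_rpow (norm_nonneg _) ((norm_add_le _ _).trans ?_) (by linarith)
      rw [norm_mul, norm_mul, norm_pow, h1, one_pow, one_mul, norm_real, Real.norm_of_nonneg ht.le]
      linarith
    have e0 : ‖a‖ ^ (2 * q) ≤ δ⁻¹ ^ (2 * q) * (t * ‖b‖) ^ (2 * q) := by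
      rw [← Real.mul_rpow (by positivity) hy]
      exact Real.rpow_le_rpow (norm_nonneg _) hab (by linarith)
    have e2 : ∀ k ∈ range 5, cf q k * t ^ (2 * k) * (‖a‖ ^ (2 * q) * (‖b‖ / ‖a‖) ^ (2 * k)) ≤
        cf q k * ((δ⁻¹ ^ (2 * q) + 1) * (t * ‖b‖) ^ (2 * q)) := fun k hk => by
      have := mixn (norm_nonneg a) hy (k := 2 * k) (p := 2 * q) (by
        have : (k : ℝ) ≤ 4 := by exact_mod_cast Nat.lt_succ_iff.1 (mem_range.1 hk)
        push_cast; linarith)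
      rw [mul_div_assoc, mul_pow] at this
      rw [mul_assoc]
      exact mul_le_mul_of_nonneg_left (by nlinarith) (hc _)
    have s1 := sum_le_sum e1
    have s2 := sum_le_sum e2
    rw [sum_const, card_range, nsmul_eq_mul] at s1
    rw [← sum_mul] at s2
    have s3 : 0 ≤ ∑ j ∈ range 9, ‖a + ζ ^ j * t * b‖ ^ (2 * q) :=
      sum_nonneg fun j _ => by positivity
    have s4 : 0 ≤ ∑ k ∈ range 5, cf q k * t ^ (2 * k) * (‖a‖ ^ (2 * q) * (‖b‖ / ‖a‖) ^ (2 * k)) :=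
      sum_nonneg fun k _ => mul_nonneg (mul_nonneg (hc _) (by positivity)) (by positivity)
    have s5 : (t * ‖b‖) ^ (2 * q) ≤ t ^ s * (‖a‖ ^ (2 * q) + ‖b‖ ^ (2 * q)) := by
      rw [Real.mul_rpow ht.le (norm_nonneg _)]
      exact mul_le_mul (Real.rpow_le_rpow_of_exponent_ge ht ht1 hs') (by linarith) hb hts
    push_cast at s1
    calc _ ≤ L * (t * ‖b‖) ^ (2 * q) := by
          rw [abs_le, hL]
          constructor <;> nlinarith
      _ ≤ L * (t ^ s * (‖a‖ ^ (2 * q) + ‖b‖ ^ (2 * q))) := mul_le_mul_of_nonneg_left s5 hL0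
      _ ≤ _ := by
          rw [← mul_assoc]
          gcongr
          have : 0 ≤ K * δ ^ (9 - s) := by positivity
          linarith

end Pool.Agent.H95.Shp
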