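import Pool.Agent.H95.Shp1

set_option autoImplicit false

namespace Pool.Agent.H95.Shp
open Finset Filter Topology Asymptotics MeasureTheory

theorem dp (a : ℂ) (n : ℕ) :
    (descPochhammer ℤ n).smeval a = ∏ j ∈ range n, (a - j) := by
  induction n with
  | zero => simp
  | succ n ih =>
    rw [descPochhammer_succ_right, Polynomial.smeval_mul, ih, prod_range_succ,
      Polynomial.smeval_sub, Polynomial.smeval_X, Polynomial.smeval_natCast]
    simp

theorem cf_eq (q : ℝ) (k : ℕ) : cf q k = ((∏ j ∈ range k, (q - j)) / k.factorial) ^ 2 := by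
  have : Ring.choose (q : ℂ) k = (((∏ j ∈ range k, (q - j)) / k.factorial : ℝ) : ℂ) := by
    rw [Ring.choose_eq_smul, dp]
    push_cast
    rw [smul_eq_mul, inv_mul_eq_div]
  rw [cf, this, Complex.norm_real, Real.norm_eq_abs, sq_abs]

theorem step {l : Filter ℝ} [l.NeBot] {T : ℝ → ℝ} (hT : Tendsto T l (𝓝 0))
    (hp : ∀ᶠ u in l, 0 < T u) {d K s : ℝ} (hs : 0 < s) {h : ℝ → ℝ} (hh : Continuous h)
    (H : ∀ᶠ u in l, |d + T u ^ 2 * h (T u)| ≤ K * T u ^ s) :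
    d = 0 ∧ ∀ᶠ u in l, |h (T u)| ≤ K * T u ^ (s - 2) := by
  have h1 : Tendsto (fun u => |d + T u ^ 2 * h (T u)|) l (𝓝 |d + 0 ^ 2 * h 0|) :=
    (tendsto_const_nhds.add ((hT.pow 2).mul ((hh.tendsto 0).comp hT))).abs
  have h2 : Tendsto (fun u => K * T u ^ s) l (𝓝 (K * 0 ^ s)) :=
    (hT.rpow_const (Or.inr hs.le)).const_mul K
  have h3 := le_of_tendsto_of_tendsto h1 h2 H
  rw [Real.zero_rpow hs.ne'] at h3
  have hd : d = 0 := by simpa using h3
  refine ⟨hd, ?_⟩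
  filter_upwards [H, hp] with u h4 h5
  rw [hd, zero_add, abs_mul, abs_of_nonneg (sq_nonneg _)] at h4
  rw [Real.rpow_sub h5, Real.rpow_two, ← mul_div_assoc, le_div_iff₀ (by positivity)]
  linarith

theorem expo (q : ℝ) : (fun u : ℝ => Real.exp (2 * q * u) + Real.exp (-(2 * q) * u) -
    (2 + q ^ 2 * (Real.exp u - Real.exp (-u)) ^ 2 +
      q ^ 2 * (q ^ 2 - 1) / 12 * (Real.exp u - Real.exp (-u)) ^ 4 +
      q ^ 2 * (q ^ 2 - 1) * (q ^ 2 - 4) / 360 * (Real.exp u - Real.exp (-u)) ^ 6 +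
      q ^ 2 * (q ^ 2 - 1) * (q ^ 2 - 4) * (q ^ 2 - 9) / 20160 *
        (Real.exp u - Real.exp (-u)) ^ 8)) =O[𝓝 0] fun u => u ^ 9 := by
  have E : ∀ c : ℝ, (fun u : ℝ => Real.exp (c * u) - ∑ i ∈ range 9, (c * u) ^ i / i.factorial)
      =O[𝓝 0] fun u => u ^ 9 := fun c => by
    have := (Real.exp_sub_sum_range_isBigO_pow 9).comp_tendsto
      ((show Continuous fun u : ℝ => c * u by fun_prop).tendsto' 0 0 (mul_zero c))
    refine this.trans ?_
    simp only [Function.comp_def, mul_pow]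
    exact isBigO_const_mul_self (c ^ 9) (fun u : ℝ => u ^ 9) _
  set a1 := q ^ 2
  set a2 := q ^ 2 * (q ^ 2 - 1) / 12
  set a3 := q ^ 2 * (q ^ 2 - 1) * (q ^ 2 - 4) / 360
  set a4 := q ^ 2 * (q ^ 2 - 1) * (q ^ 2 - 4) * (q ^ 2 - 9) / 20160
  refine (((((E (2 * q)).add (E (-(2 * q)))).sub
    (((E 2).add (E (-2))).const_mul_left (a1 - 4 * a2 + 15 * a3 - 56 * a4))).sub
    (((E 4).add (E (-4))).const_mul_left (a2 - 6 * a3 + 28 * a4))).sub
    (((E 6).add (E (-6))).const_mul_left (a3 - 8 * a4))).sub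
    (((E 8).add (E (-8))).const_mul_left a4) |>.congr_left fun u => ?_
  have e : ∀ n : ℕ, Real.exp (n * u) = Real.exp u ^ n ∧
      Real.exp (-(n : ℝ) * u) = Real.exp (-u) ^ n := fun n =>
    ⟨Real.exp_nat_mul u n, by rw [← Real.exp_nat_mul]; congr 1; ring⟩
  have e2 := e 2
  have e4 := e 4
  have e6 := e 6
  have e8 := e 8
  push_cast at e2 e4 e6 e8
  rw [e2.1, e2.2, e4.1, e4.2, e6.1, e6.2, e8.1, e8.2]
  have hxy : Real.exp u * Real.exp (-u) = 1 := by rw [← Real.exp_add]; simp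
  generalize Real.exp u = x at *
  generalize Real.exp (-u) = y at *
  have t2 : (x - y) ^ 2 = x ^ 2 + y ^ 2 - 2 := by linear_combination (-2) * hxy
  have s2 : x ^ 2 * y ^ 2 = 1 := by rw [← mul_pow, hxy, one_pow]
  have t4 : (x - y) ^ 4 = x ^ 4 + y ^ 4 - 4 * (x ^ 2 + y ^ 2) + 6 := by
    rw [show (x - y) ^ 4 = ((x - y) ^ 2) ^ 2 by ring, t2]; linear_combination 2 * s2
  have t6 : (x - y) ^ 6 = x ^ 6 + y ^ 6 - 6 * (x ^ 4 + y ^ 4) + 15 * (x ^ 2 + y ^ 2) - 20 := by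
    rw [show (x - y) ^ 6 = (x - y) ^ 4 * (x - y) ^ 2 by ring, t4, t2]
    linear_combination (x ^ 2 + y ^ 2 - 8) * s2
  have t8 : (x - y) ^ 8 = x ^ 8 + y ^ 8 - 8 * (x ^ 6 + y ^ 6) + 28 * (x ^ 4 + y ^ 4) -
      56 * (x ^ 2 + y ^ 2) + 70 := by
    rw [show (x - y) ^ 8 = (x - y) ^ 6 * (x - y) ^ 2 by ring, t6, t2]
    linear_combination (x ^ 4 + y ^ 4 - 6 * (x ^ 2 + y ^ 2) + 30) * s2
  rw [t2, t4, t6, t8]
  simp only [sum_range_succ, range_zero, sum_empty, Nat.factorial, a1, a2, a3, a4]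
  push_cast
  ring

theorem core {X : Type} [MeasurableSpace X] {μ : Measure X} {q s C : ℝ} (hq : 4 ≤ q) {f g : X → ℂ}
    {ζ : ℂ} (h1 : ‖ζ‖ = 1) (s8 : 8 < s) (s9 : s ≤ 9) (M : ℕ → X → ℝ)
    (iM : ∀ k : ℕ, k < 5 → Integrable (M k) μ)
    (hP : ∀ x, 0 ≤ 49 / 16 * M 0 x - 14 * M 1 x + 39 / 2 * M 2 x - 8 * M 3 x + M 4 x)
    (hC : ∀ x, ∀ t : ℝ, 0 < t → t ≤ 1 → |∑ j ∈ range 9, ‖f x + ζ ^ j * t * g x‖ ^ (2 * q) -
      9 * ∑ k ∈ range 5, cf q k * t ^ (2 * k) * M k x| ≤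
      C * t ^ s * (‖f x‖ ^ (2 * q) + ‖g x‖ ^ (2 * q)))
    (hf : Integrable (fun x => ‖f x‖ ^ (2 * q)) μ) (hg : Integrable (fun x => ‖g x‖ ^ (2 * q)) μ)
    (hI : ∀ z : ℂ, Integrable (fun x => ‖f x + z * g x‖ ^ (2 * q)) μ)
    (H : ∀ u : ℝ, 0 < u → ∀ z : ℂ, ‖z‖ = Real.exp u - Real.exp (-u) →
      ∫ x, ‖f x + z * g x‖ ^ (2 * q) ∂μ = Real.exp (2 * q * u) + Real.exp (-(2 * q) * u)) :
    False := by
  set m : ℕ → ℝ := fun k => ∫ x, M k x ∂μ with hm
  set J := ∫ x, (‖f x‖ ^ (2 * q) + ‖g x‖ ^ (2 * q)) ∂μ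
  set T : ℝ → ℝ := fun u => Real.exp u - Real.exp (-u) with hT
  have uT : ∀ u, 0 < u → u ≤ T u := fun u hu => by
    have := Real.add_one_le_exp u
    have : Real.exp (-u) ≤ 1 := Real.exp_le_one_iff.2 (by linarith)
    simp only [hT]; linarith
  have tT : Tendsto T (𝓝[>] 0) (𝓝 0) :=
    ((show Continuous T by fun_prop).tendsto' 0 0 (by simp [hT])).mono_left nhdsWithin_le_nhds
  have pT : ∀ᶠ u in 𝓝[>] (0 : ℝ), 0 < T u :=
    eventually_mem_nhdsWithin.mono fun u hu => hu.trans_le (uT u hu)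
  have A : ∀ u, 0 < u → T u ≤ 1 → |9 * (Real.exp (2 * q * u) + Real.exp (-(2 * q) * u)) -
      9 * ∑ k ∈ range 5, cf q k * T u ^ (2 * k) * m k| ≤ C * T u ^ s * J := fun u hu hu1 => by
    have hp := hu.trans_le (uT u hu)
    have i1 : ∀ j ∈ range 9, Integrable (fun x => ‖f x + ζ ^ j * T u * g x‖ ^ (2 * q)) μ :=
      fun j _ => hI _
    have i2 : ∀ k ∈ range 5, Integrable (fun x => cf q k * T u ^ (2 * k) * M k x) μ :=
      fun k hk => (iM k (mem_range.1 hk)).const_mul _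
    have := norm_integral_le_of_norm_le ((hf.add hg).const_mul (C * T u ^ s))
      (Eventually.of_forall fun x => (Real.norm_eq_abs _).trans_le (hC x (T u) hp hu1))
    rw [integral_sub (integrable_finset_sum _ i1) ((integrable_finset_sum _ i2).const_mul _),
      integral_const_mul, integral_finset_sum _ i1, integral_finset_sum _ i2,
      sum_congr rfl fun j _ => H u hu _ (by
        rw [norm_mul, norm_pow, h1, one_pow, one_mul, Complex.norm_real, Real.norm_of_nonneg hp.le]),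
      sum_const, card_range, nsmul_eq_mul] at this
    simp only [integral_const_mul] at this
    exact_mod_cast this
  obtain ⟨K, hK⟩ := ((expo q).mono (nhdsWithin_le_nhds (s := Set.Ioi 0))).bound
  have B : ∀ᶠ u in 𝓝[>] (0 : ℝ), |(2 - cf q 0 * m 0) + T u ^ 2 * ((q ^ 2 - cf q 1 * m 1) +
      T u ^ 2 * ((q ^ 2 * (q ^ 2 - 1) / 12 - cf q 2 * m 2) +
      T u ^ 2 * ((q ^ 2 * (q ^ 2 - 1) * (q ^ 2 - 4) / 360 - cf q 3 * m 3) +
      T u ^ 2 * ((q ^ 2 * (q ^ 2 - 1) * (q ^ 2 - 4) * (q ^ 2 - 9) / 20160 - cf q 4 * m 4) +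
      T u ^ 2 * 0))))| ≤ (C * J / 9 + |K|) * T u ^ s := by
    filter_upwards [hK, eventually_mem_nhdsWithin, tT.eventually (ge_mem_nhds one_pos)]
      with u h2 hu h3
    have hu : 0 < u := hu
    have h4 := A u hu h3
    have h5 : K * ‖u ^ 9‖ ≤ |K| * T u ^ s := by
      refine mul_le_mul (le_abs_self _) ?_ (norm_nonneg _) (abs_nonneg _)
      rw [Real.norm_of_nonneg (by positivity)]
      refine (pow_le_pow_left₀ hu.le (uT u hu) 9).trans ?_
      rw [← Real.rpow_natCast]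
      exact Real.rpow_le_rpow_of_exponent_ge (hu.trans_le (uT u hu)) h3 (by simpa using s9)
    have h6 := h2.trans h5
    simp only [sum_range_succ, range_zero, sum_empty, Nat.reduceMul] at h4
    rw [Real.norm_eq_abs] at h6
    change |_ - (2 + _ * T u ^ 2 + _ * T u ^ 4 + _ * T u ^ 6 + _ * T u ^ 8)| ≤ _ at h6
    rw [abs_le] at h4 h6 ⊢
    constructor <;> linarith [h4.1, h4.2, h6.1, h6.2]
  obtain ⟨d0, B⟩ := step tT pT (by linarith) (h := fun t => _ + t ^ 2 * (_ + t ^ 2 *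
    (_ + t ^ 2 * (_ + t ^ 2 * 0)))) (by fun_prop) B
  obtain ⟨d1, B⟩ := step tT pT (by linarith) (h := fun t => _ + t ^ 2 *
    (_ + t ^ 2 * (_ + t ^ 2 * 0))) (by fun_prop) B
  obtain ⟨d2, B⟩ := step tT pT (by linarith) (h := fun t => _ + t ^ 2 * (_ + t ^ 2 * 0))
    (by fun_prop) B
  obtain ⟨d3, B⟩ := step tT pT (by linarith) (h := fun t => _ + t ^ 2 * 0) (by fun_prop) B
  obtain ⟨d4, -⟩ := step tT pT (by linarith) (h := fun _ => 0) (by fun_prop) B
  have P : 0 ≤ 49 / 8 / 2 * m 0 - 14 * m 1 + 39 / 2 * m 2 - 8 * m 3 + m 4 := by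
    have : 0 ≤ ∫ x, (49 / 16 * M 0 x - 14 * M 1 x + 39 / 2 * M 2 x - 8 * M 3 x + M 4 x) ∂μ :=
      integral_nonneg fun x => hP x
    have j := integral_finset_sum (range 5) fun k hk =>
      (iM k (mem_range.1 hk)).const_mul (([49 / 16, -14, 39 / 2, -8, 1] : List ℝ).getD k 0)
    simp only [integral_const_mul] at j
    refine this.trans_eq (Eq.trans (integral_congr_ae (Eventually.of_forall fun x => ?_))
      (j.trans ?_))
    · simp only [sum_range_succ, range_zero, sum_empty, List.getD_cons_succ, List.getD_cons_zero]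
      ring
    · simp only [sum_range_succ, range_zero, sum_empty, List.getD_cons_succ, List.getD_cons_zero, hm]
      ring
  simp only [cf_eq, prod_range_succ, range_zero, prod_empty, Nat.factorial] at d0 d1 d2 d3 d4
  push_cast at d0 d1 d2 d3 d4
  have q0 : q ≠ 0 := by linarith
  have q1 : 0 < q - 1 := by linarith
  have q2 : 0 < q - 2 := by linarith
  have q3 : 0 < q - 3 := by linarith
  have m0 : m 0 = 2 := by linarith
  have m1 : m 1 = 1 := mul_left_cancel₀ (pow_ne_zero 2 q0) (by linarith)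
  have m2 : m 2 = (q + 1) / (3 * (q - 1)) := by
    rw [eq_div_iff (by positivity)]
    exact mul_left_cancel₀ (a := q ^ 2 * (q - 1)) (by positivity) (by linear_combination (-12) * d2)
  have m3 : m 3 = (q + 1) * (q + 2) / (10 * (q - 1) * (q - 2)) := by
    rw [eq_div_iff (by positivity)]
    exact mul_left_cancel₀ (a := q ^ 2 * (q - 1) * (q - 2)) (by positivity)
      (by linear_combination (-360) * d3)
  have m4 : m 4 = (q + 1) * (q + 2) * (q + 3) / (35 * (q - 1) * (q - 2) * (q - 3)) := by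
    rw [eq_div_iff (by positivity)]
    exact mul_left_cancel₀ (a := q ^ 2 * (q - 1) * (q - 2) * (q - 3)) (by positivity)
      (by linear_combination (-20160) * d4)
  rw [m0, m1, m2, m3, m4] at P
  have hD : 0 < (q - 1) * (q - 2) * (q - 3) := by positivity
  have := mul_nonneg P hD.le
  have e : (49 / 8 / 2 * 2 - 14 * 1 + 39 / 2 * ((q + 1) / (3 * (q - 1))) -
      8 * ((q + 1) * (q + 2) / (10 * (q - 1) * (q - 2))) +
      (q + 1) * (q + 2) * (q + 3) / (35 * (q - 1) * (q - 2) * (q - 3))) *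
      ((q - 1) * (q - 2) * (q - 3)) = -63 / 8 * ((q - 1) * (q - 2) * (q - 3)) +
      13 / 2 * (q + 1) * (q - 2) * (q - 3) - 4 / 5 * (q + 1) * (q + 2) * (q - 3) +
      (q + 1) * (q + 2) * (q + 3) / 35 := by
    field_simp
    ring
  rw [e] at this
  obtain ⟨r, rfl⟩ : ∃ r, q = 4 + r := ⟨q - 4, by ring⟩
  have hr : 0 ≤ r := by linarith
  nlinarith [pow_nonneg hr 2, pow_nonneg hr 3]

theorem core2 {X : Type} [MeasurableSpace X] {μ : Measure X} {q : ℝ} (hq : 4 ≤ q) {f g : X → ℂ}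
    (mf : AEMeasurable f μ) (mg : AEMeasurable g μ)
    (hf : Integrable (fun x => ‖f x‖ ^ (2 * q)) μ) (hg : Integrable (fun x => ‖g x‖ ^ (2 * q)) μ)
    (hI : ∀ z : ℂ, Integrable (fun x => ‖f x + z * g x‖ ^ (2 * q)) μ)
    (H : ∀ u : ℝ, 0 < u → ∀ z : ℂ, ‖z‖ = Real.exp u - Real.exp (-u) →
      ∫ x, ‖f x + z * g x‖ ^ (2 * q) ∂μ = Real.exp (2 * q * u) + Real.exp (-(2 * q) * u)) :
    False := by
  have hζ := Complex.isPrimitiveRoot_exp 9 (by norm_num)
  generalize Complex.exp _ = ζ at hζ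
  have h1 : ‖ζ‖ = 1 := hζ.norm'_eq_one (by norm_num)
  rcases hq.eq_or_lt with rfl | hq'
  · have e8 : ∀ x : ℝ, x ^ (2 * (4 : ℝ)) = x ^ 8 := fun x => by
      rw [← Real.rpow_natCast]; norm_num
    refine core (s := 9) (C := 0) le_rfl h1 (by norm_num) le_rfl
      (fun k x => ‖f x‖ ^ (8 - 2 * k) * ‖g x‖ ^ (2 * k)) (fun k hk => ?_) (fun x => ?_)
      (fun x t ht _ => ?_) hf hg hI H
    · refine (hf.add hg).mono' (AEMeasurable.aestronglyMeasurable (by fun_prop))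
        (Eventually.of_forall fun x => ?_)
      rw [Real.norm_of_nonneg (by positivity), Pi.add_apply, e8, e8]
      have hk' : 8 - 2 * k + 2 * k = 8 := by omega
      rcases le_total ‖f x‖ ‖g x‖ with h | h
      · calc _ ≤ ‖g x‖ ^ (8 - 2 * k) * ‖g x‖ ^ (2 * k) := by gcongr
          _ ≤ _ := by rw [← pow_add, hk']; exact le_add_of_nonneg_left (by positivity)
      · calc _ ≤ ‖f x‖ ^ (8 - 2 * k) * ‖f x‖ ^ (2 * k) := by gcongr
          _ ≤ _ := by rw [← pow_add, hk']; exact le_add_of_nonneg_right (by positivity)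
    · have := sq_nonneg (-7 / 4 * ‖f x‖ ^ 4 + 4 * ‖f x‖ ^ 2 * ‖g x‖ ^ 2 - ‖g x‖ ^ 4)
      norm_num
      linarith
    · have p1 := parseval hζ (by norm_num)
        fun k => (Nat.choose 4 k : ℂ) * f x ^ (4 - k) * (t * g x) ^ k
      have p2 : ∀ j ∈ range 9, ‖f x + ζ ^ j * t * g x‖ ^ (2 * (4 : ℝ)) = ‖∑ k ∈ range 9,
          (Nat.choose 4 k : ℂ) * f x ^ (4 - k) * (t * g x) ^ k * (ζ ^ j) ^ k‖ ^ 2 := fun j _ => by
        rw [e8, show 8 = 4 * 2 from rfl, pow_mul, ← norm_pow]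
        congr 2
        simp [sum_range_succ, Nat.choose]
        ring
      rw [sum_congr rfl p2, p1]
      simp [sum_range_succ, Nat.choose, cf_eq, prod_range_succ, Nat.factorial, abs_of_pos ht]
      ring
  have s8 : 8 < min 9 (2 * q) := lt_min (by norm_num) (by linarith)
  obtain ⟨C, hC⟩ := glob hq (by linarith) (min_le_left _ _) (min_le_right _ _) hζ
  refine core hq h1 s8 (min_le_left _ _)
    (fun k x => ‖f x‖ ^ (2 * q) * (‖g x‖ / ‖f x‖) ^ (2 * k)) (fun k hk => ?_) (fun x => ?_)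
    (fun x => hC (f x) (g x)) hf hg hI H
  · refine (hf.add hg).mono' (AEMeasurable.aestronglyMeasurable (by fun_prop))
      (Eventually.of_forall fun x => ?_)
    rw [Real.norm_of_nonneg (by positivity)]
    refine mixn (norm_nonneg _) (norm_nonneg _) ?_
    have : (k : ℝ) ≤ 4 := by exact_mod_cast Nat.lt_succ_iff.1 hk
    push_cast; linarith
  · have : 0 ≤ ‖f x‖ ^ (2 * q) *
        (-7 / 4 + 4 * (‖g x‖ / ‖f x‖) ^ 2 - (‖g x‖ / ‖f x‖) ^ 4) ^ 2 := by positivity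
    exact this.trans_eq (by ring)

end Pool.Agent.H95.Shp
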