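import Pool.Agent.H95.Shp2

set_option autoImplicit false

namespace Pool.Agent.H95.Shp
open Finset Complex Filter Topology Asymptotics MeasureTheory

theorem loc3 (q : ℝ) {ζ : ℂ} (hζ : IsPrimitiveRoot ζ 9) : ∃ K δ : ℝ, 0 ≤ K ∧ 0 < δ ∧
    ∀ w : ℂ, ‖w‖ ≤ δ → |∑ j ∈ range 9, ‖1 + ζ ^ j * w‖ ^ (2 * q) -
      9 * ∑ k ∈ range 2, cf q k * ‖w‖ ^ (2 * k)| ≤ K * ‖w‖ ^ 4 := by
  obtain ⟨K, δ, hK, hδ, h⟩ := loc2 q hζ
  have hc : ∀ k, 0 ≤ cf q k := fun k => sq_nonneg _
  have c2 := hc 2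
  have c3 := hc 3
  have c4 := hc 4
  refine ⟨K + 9 * (cf q 2 + cf q 3 + cf q 4), min δ 1, by positivity, by positivity, fun w hw => ?_⟩
  have h1 := h w (hw.trans (min_le_left _ _))
  have e : ∀ n, 4 ≤ n → ‖w‖ ^ n ≤ ‖w‖ ^ 4 := fun n hn =>
    pow_le_pow_of_le_one (norm_nonneg _) (hw.trans (min_le_right _ _)) hn
  have e9 := mul_le_mul_of_nonneg_left (e 9 (by norm_num)) hK
  have e6 := mul_le_mul_of_nonneg_left (e 6 (by norm_num)) c3
  have e8 := mul_le_mul_of_nonneg_left (e 8 (by norm_num)) c4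
  have p4 : 0 ≤ cf q 2 * ‖w‖ ^ 4 := by positivity
  have p6 : 0 ≤ cf q 3 * ‖w‖ ^ 6 := by positivity
  have p8 : 0 ≤ cf q 4 * ‖w‖ ^ 8 := by positivity
  generalize ∑ j ∈ range 9, ‖1 + ζ ^ j * w‖ ^ (2 * q) = S at *
  simp only [sum_range_succ, range_zero, sum_empty, Nat.reduceMul] at h1 ⊢
  rw [abs_le] at h1 ⊢
  constructor <;> nlinarith [h1.1, h1.2]

theorem glob2 {q s : ℝ} (hq : 1 ≤ q) (h0 : 0 ≤ s) (hs : s ≤ 4) (hs' : s ≤ 2 * q) {ζ : ℂ}
    (hζ : IsPrimitiveRoot ζ 9) : ∃ C : ℝ, ∀ a b : ℂ, ∀ t : ℝ, 0 < t → t ≤ 1 →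
    |∑ j ∈ range 9, ‖a + ζ ^ j * t * b‖ ^ (2 * q) -
      9 * ∑ k ∈ range 2, cf q k * t ^ (2 * k) * (‖a‖ ^ (2 * q) * (‖b‖ / ‖a‖) ^ (2 * k))| ≤
      C * t ^ s * (‖a‖ ^ (2 * q) + ‖b‖ ^ (2 * q)) := by
  obtain ⟨K, δ, hK, hδ, h⟩ := loc3 q hζ
  have h1 : ‖ζ‖ = 1 := hζ.norm'_eq_one (by norm_num)
  have hc : ∀ k, 0 ≤ cf q k := fun k => sq_nonneg _
  have hS : 0 ≤ ∑ k ∈ range 2, cf q k := sum_nonneg fun k _ => hc _
  set L := 9 * (δ⁻¹ + 1) ^ (2 * q) + 9 * (∑ k ∈ range 2, cf q k) * (δ⁻¹ ^ (2 * q) + 1) with hL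
  have hL0 : 0 ≤ L := by positivity
  refine ⟨K * δ ^ (4 - s) + L, fun a b t ht ht1 => ?_⟩
  have hts : 0 ≤ t ^ s := by positivity
  have ha : 0 ≤ ‖a‖ ^ (2 * q) := by positivity
  have hb : 0 ≤ ‖b‖ ^ (2 * q) := by positivity
  by_cases hA : a ≠ 0 ∧ t * (‖b‖ / ‖a‖) ≤ δ
  · obtain ⟨ha0, hA⟩ := hA
    have nw : ‖(t : ℂ) * b / a‖ = t * (‖b‖ / ‖a‖) := by
      rw [norm_div, norm_mul, norm_real, Real.norm_of_nonneg ht.le, mul_div_assoc]
    have := h (t * b / a) (nw ▸ hA)
    rw [nw] at this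
    have e1 : ∀ j ∈ range 9, ‖a + ζ ^ j * t * b‖ ^ (2 * q) =
        ‖a‖ ^ (2 * q) * ‖1 + ζ ^ j * (t * b / a)‖ ^ (2 * q) := fun j _ => by
      rw [← Real.mul_rpow (norm_nonneg _) (norm_nonneg _), ← norm_mul]
      congr 2
      field_simp
    have e2 : ∀ k ∈ range 2, cf q k * t ^ (2 * k) * (‖a‖ ^ (2 * q) * (‖b‖ / ‖a‖) ^ (2 * k)) =
        ‖a‖ ^ (2 * q) * (cf q k * (t * (‖b‖ / ‖a‖)) ^ (2 * k)) := fun k _ => by
      rw [mul_pow]; ring
    rw [sum_congr rfl e1, sum_congr rfl e2, ← mul_sum, ← mul_sum, mul_left_comm, ← mul_sub, abs_mul,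
      abs_of_nonneg ha]
    have hr : 0 ≤ ‖b‖ / ‖a‖ := by positivity
    have e3 : (t * (‖b‖ / ‖a‖)) ^ 4 ≤ δ ^ (4 - s) * (t ^ s * (‖b‖ / ‖a‖) ^ s) := by
      rw [← Real.mul_rpow ht.le hr, ← Real.rpow_natCast, show ((4 : ℕ) : ℝ) = (4 - s) + s by simp,
        Real.rpow_add' (by positivity) (by simp)]
      exact mul_le_mul_of_nonneg_right (Real.rpow_le_rpow (by positivity) hA (by linarith))
        (by positivity)
    have e4 := mix (norm_nonneg a) (norm_nonneg b) h0 hs'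
    calc _ ≤ ‖a‖ ^ (2 * q) * (K * (δ ^ (4 - s) * (t ^ s * (‖b‖ / ‖a‖) ^ s))) :=
          mul_le_mul_of_nonneg_left (this.trans (mul_le_mul_of_nonneg_left e3 hK)) ha
      _ = K * δ ^ (4 - s) * t ^ s * (‖a‖ ^ (2 * q) * (‖b‖ / ‖a‖) ^ s) := by ring
      _ ≤ K * δ ^ (4 - s) * t ^ s * (‖a‖ ^ (2 * q) + ‖b‖ ^ (2 * q)) :=
          mul_le_mul_of_nonneg_left e4 (by positivity)
      _ ≤ _ := by gcongr; linarith
  · have hy : 0 ≤ t * ‖b‖ := by positivity
    have hab : ‖a‖ ≤ δ⁻¹ * (t * ‖b‖) := by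
      by_cases ha0 : a = 0
      · rw [ha0, norm_zero]; positivity
      · have := not_le.1 fun h' => hA ⟨ha0, h'⟩
        rw [← mul_div_assoc, lt_div_iff₀ (norm_pos_iff.2 ha0)] at this
        rw [inv_mul_eq_div, le_div_iff₀ hδ]
        linarith
    have e1 : ∀ j ∈ range 9, ‖a + ζ ^ j * t * b‖ ^ (2 * q) ≤
        (δ⁻¹ + 1) ^ (2 * q) * (t * ‖b‖) ^ (2 * q) := fun j _ => by
      rw [← Real.mul_rpow (by positivity) hy]
      refine Real.rpow_le_rpow (norm_nonneg _) ((norm_add_le _ _).trans ?_) (by linarith)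
      rw [norm_mul, norm_mul, norm_pow, h1, one_pow, one_mul, norm_real, Real.norm_of_nonneg ht.le]
      linarith
    have e0 : ‖a‖ ^ (2 * q) ≤ δ⁻¹ ^ (2 * q) * (t * ‖b‖) ^ (2 * q) := by
      rw [← Real.mul_rpow (by positivity) hy]
      exact Real.rpow_le_rpow (norm_nonneg _) hab (by linarith)
    have e2 : ∀ k ∈ range 2, cf q k * t ^ (2 * k) * (‖a‖ ^ (2 * q) * (‖b‖ / ‖a‖) ^ (2 * k)) ≤
        cf q k * ((δ⁻¹ ^ (2 * q) + 1) * (t * ‖b‖) ^ (2 * q)) := fun k hk => by
      have := mixn (norm_nonneg a) hy (k := 2 * k) (p := 2 * q) (by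
        have : (k : ℝ) ≤ 1 := by exact_mod_cast Nat.lt_succ_iff.1 (mem_range.1 hk)
        push_cast; linarith)
      rw [mul_div_assoc, mul_pow] at this
      rw [mul_assoc]
      exact mul_le_mul_of_nonneg_left (by nlinarith) (hc _)
    have s1 := sum_le_sum e1
    have s2 := sum_le_sum e2
    rw [sum_const, card_range, nsmul_eq_mul] at s1
    rw [← sum_mul] at s2
    have s3 : 0 ≤ ∑ j ∈ range 9, ‖a + ζ ^ j * t * b‖ ^ (2 * q) :=
      sum_nonneg fun j _ => by positivity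
    have s4 : 0 ≤ ∑ k ∈ range 2, cf q k * t ^ (2 * k) * (‖a‖ ^ (2 * q) * (‖b‖ / ‖a‖) ^ (2 * k)) :=
      sum_nonneg fun k _ => mul_nonneg (mul_nonneg (hc _) (by positivity)) (by positivity)
    have s5 : (t * ‖b‖) ^ (2 * q) ≤ t ^ s * (‖a‖ ^ (2 * q) + ‖b‖ ^ (2 * q)) := by
      rw [Real.mul_rpow ht.le (norm_nonneg _)]
      exact mul_le_mul (Real.rpow_le_rpow_of_exponent_ge ht ht1 hs') (by linarith) hb hts
    push_cast at s1
    calc _ ≤ L * (t * ‖b‖) ^ (2 * q) := by
          rw [abs_le, hL]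
          constructor <;> nlinarith
      _ ≤ L * (t ^ s * (‖a‖ ^ (2 * q) + ‖b‖ ^ (2 * q))) := mul_le_mul_of_nonneg_left s5 hL0
      _ ≤ _ := by
          rw [← mul_assoc]
          gcongr
          have : 0 ≤ K * δ ^ (4 - s) := by positivity
          linarith


theorem scal {q s : ℝ} (h1 : 1 ≤ q) (hs : 1 ≤ s) :
    1 + q ^ 2 * s ≤ s ^ q + q ^ 2 * s ^ (q - 1) := by
  obtain ⟨L, rfl⟩ : ∃ L, s = Real.exp L := ⟨Real.log s, (Real.exp_log (by linarith)).symm⟩
  rcases (Real.one_le_exp_iff.1 hs).eq_or_lt with rfl | hL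
  · simp
  have d : ∀ c x : ℝ, HasDerivAt (fun L => Real.exp (L * c)) (Real.exp (x * c) * c) x :=
    fun c x => by simpa using ((hasDerivAt_id x).mul_const c).exp
  obtain ⟨c, hc, e⟩ := exists_hasDerivAt_eq_slope
    (fun L => Real.exp (L * q) + q ^ 2 * Real.exp (L * (q - 1)) - q ^ 2 * Real.exp L)
    (fun x => Real.exp (x * q) * q + q ^ 2 * (Real.exp (x * (q - 1)) * (q - 1)) - q ^ 2 * Real.exp x)
    hL (by fun_prop) fun x _ =>
      ((d q x).add ((d (q - 1) x).const_mul _)).sub ((Real.hasDerivAt_exp x).const_mul _)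
  have e1 : Real.exp (c * q) = Real.exp c * Real.exp (c * (q - 1)) := by
    rw [← Real.exp_add]; congr 1; ring
  have e2 : Real.exp (c * (q - 1)) = Real.exp c * Real.exp (c * (q - 2)) := by
    rw [← Real.exp_add]; congr 1; ring
  have b1 := Real.add_one_le_exp (c * (q - 1))
  have b2 := mul_le_mul_of_nonneg_left (Real.add_one_le_exp (c * (q - 2)))
    (show 0 ≤ q * (q - 1) by nlinarith)
  have b3 : 0 ≤ c * (q - 1) ^ 3 := mul_nonneg hc.1.le (pow_nonneg (by linarith) _)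
  have b4 : 0 ≤ Real.exp (c * (q - 1)) + q * (q - 1) * Real.exp (c * (q - 2)) - q := by
    nlinarith [sq_nonneg (q - 1)]
  have b5 := mul_nonneg (mul_nonneg (show 0 ≤ q by linarith) (Real.exp_pos c).le) b4
  rw [eq_div_iff (by linarith)] at e
  have b6 : 0 ≤ Real.exp (c * q) * q + q ^ 2 * (Real.exp (c * (q - 1)) * (q - 1)) -
      q ^ 2 * Real.exp c := by
    refine b5.trans_eq ?_
    rw [e1]
    nth_rewrite 3 [e2]
    ring
  have := mul_nonneg b6 (show 0 ≤ L - 0 by linarith)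
  rw [e] at this
  simp only [zero_mul, Real.exp_zero] at this
  rw [← Real.exp_mul, ← Real.exp_mul]
  linarith

theorem circ {q : ℝ} (hq : 0 ≤ q) (w : ℂ) (hw : ‖w‖ ≤ 1) : 2 * Real.pi * (1 + q ^ 2 * ‖w‖ ^ 2) ≤
    ∫ θ in (0 : ℝ)..2 * Real.pi, ‖1 + circleMap 0 1 θ * w‖ ^ (2 * q) := by
  have cl : IsClosed {w : ℂ | 2 * Real.pi * (1 + q ^ 2 * ‖w‖ ^ 2) ≤
      ∫ θ in (0 : ℝ)..2 * Real.pi, ‖1 + circleMap 0 1 θ * w‖ ^ (2 * q)} :=
    isClosed_le (by fun_prop) (intervalIntegral.continuous_parametric_intervalIntegral_of_continuous'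
      (Continuous.rpow_const (by fun_prop) fun _ => Or.inr (by linarith)) _ _)
  refine cl.closure_subset_iff.2 (fun w hw => ?_)
    (show w ∈ closure (Metric.ball 0 1) by rw [closure_ball _ one_ne_zero]; simpa using hw)
  have hw : ‖w‖ < 1 := by simpa using hw
  set h : ℂ → ℂ := fun z => (1 + z * w) ^ (q : ℂ) with hh
  have sub : Metric.closedBall (0 : ℂ) 1 ⊆ {z | ‖z * w‖ < 1} := fun z hz => by
    have : ‖z‖ ≤ 1 := by simpa using hz
    show ‖z * w‖ < 1
    rw [norm_mul]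
    nlinarith [norm_nonneg z, norm_nonneg w]
  have dh : DifferentiableOn ℂ h (Metric.closedBall 0 1) := fun z hz =>
    (DifferentiableAt.cpow_const (f := fun z => 1 + z * w) (by fun_prop)
      (mem_slitPlane_of_norm_lt_one (sub hz))).differentiableWithinAt
  have dk := (differentiableOn_dslope (Metric.closedBall_mem_nhds (0 : ℂ) one_pos)).2 dh
  set G : ℂ → ℂ := fun z => 2 * h z + 2 * q * (starRingEnd ℂ) w * dslope h 0 z with hG
  have dG : DifferentiableOn ℂ G (Metric.closedBall 0 1) := (dh.const_mul _).add (dk.const_mul _)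
  have av := DiffContOnCl.circleAverage (f := G) (c := 0) (R := 1)
    (DifferentiableOn.diffContOnCl (by rw [abs_one, closure_ball _ one_ne_zero]; exact dG))
  have h0 : h 0 = 1 := by simp [hh]
  have d0 : dslope h 0 0 = q * w := by
    rw [dslope_same]
    have := (((hasDerivAt_id (0 : ℂ)).mul_const w).const_add 1).cpow_const (c := (q : ℂ))
      (by simp)
    simpa using this.deriv
  have cG : Continuous fun θ : ℝ => G (circleMap 0 1 θ) :=
    dG.continuousOn.comp_continuous (by fun_prop) fun θ => by simp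
  have G0 : G 0 = ((2 + 2 * q ^ 2 * ‖w‖ ^ 2 : ℝ) : ℂ) := by
    simp only [hG, h0, d0]
    push_cast
    rw [← conj_mul']
    ring
  rw [Real.circleAverage_def, G0, inv_smul_eq_iff₀ (by positivity)] at av
  have av2 := reCLM.intervalIntegral_comp_comm (cG.intervalIntegrable (μ := volume) 0 (2 * Real.pi))
  rw [av] at av2
  simp only [reCLM_apply, real_smul, re_ofReal_mul, ofReal_re] at av2
  have cR : Continuous fun θ : ℝ => (G (circleMap 0 1 θ)).re := continuous_re.comp cG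
  have le := intervalIntegral.integral_mono_on (μ := volume)
    (f := fun θ => (G (circleMap 0 1 θ)).re - (1 + q ^ 2 * ‖w‖ ^ 2))
    (g := fun θ => ‖1 + circleMap 0 1 θ * w‖ ^ (2 * q)) Real.two_pi_pos.le
    ((cR.sub continuous_const).intervalIntegrable _ _)
    ((Continuous.rpow_const (f := fun θ : ℝ => ‖1 + circleMap 0 1 θ * w‖) (p := 2 * q)
      (by fun_prop) fun _ => Or.inr (by linarith)).intervalIntegrable _ _) fun θ _ => by
      have n1 : normSq (circleMap 0 1 θ) = 1 := by rw [normSq_eq_norm_sq]; simp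
      generalize circleMap 0 1 θ = z at *
      have e1 : ‖1 + z * w‖ ^ (2 * q) = normSq (h z) := by
        rw [normSq_eq_norm_sq, hh, norm_cpow_real, mul_comm 2, Real.rpow_mul (norm_nonneg _),
          Real.rpow_two]
      have e2 : h z = 1 + z * dslope h 0 z := by
        have := sub_smul_dslope h 0 z
        rw [h0, sub_zero, smul_eq_mul] at this
        rw [this]; ring
      rw [e1, ← normSq_eq_norm_sq, hG]
      simp only
      rw [e2]
      generalize dslope h 0 z = k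
      have := normSq_nonneg (z * (k - q * w))
      have e3 : normSq (1 + z * k) = 1 + 2 * (z * k).re + normSq k := by
        rw [normSq_add, normSq_mul, n1]; simp; ring
      rw [normSq_mul, n1] at this
      rw [e3]
      simp [normSq_apply] at this ⊢
      nlinarith
  rw [intervalIntegral.integral_sub (cR.intervalIntegrable _ _) intervalIntegrable_const, av2] at le
  simp only [intervalIntegral.integral_const, sub_zero, smul_eq_mul] at le
  rw [Set.mem_setOf_eq]
  linarith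

theorem circ2 {q : ℝ} (hq : 1 ≤ q) (a b : ℂ) :
    2 * Real.pi * (‖a‖ ^ (2 * q) + q ^ 2 * (‖a‖ ^ (2 * q) * (‖b‖ / ‖a‖) ^ 2)) ≤
    ∫ θ in (0 : ℝ)..2 * Real.pi, ‖a + circleMap 0 1 θ * b‖ ^ (2 * q) := by
  by_cases ha : a = 0
  · rw [ha, norm_zero, Real.zero_rpow (by linarith)]
    simp only [zero_mul, mul_zero, add_zero]
    exact intervalIntegral.integral_nonneg Real.two_pi_pos.le fun θ _ => by positivity
  have ha' := norm_pos_iff.2 ha
  rcases le_total ‖b‖ ‖a‖ with h | h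
  · have := mul_le_mul_of_nonneg_left (circ (q := q) (by linarith) (b / a)
      (by rw [norm_div]; exact div_le_one_of_le₀ h ha'.le)) (Real.rpow_nonneg ha'.le (2 * q))
    rw [← intervalIntegral.integral_const_mul, norm_div] at this
    refine le_of_eq_of_le (by ring) (this.trans_eq (intervalIntegral.integral_congr fun θ _ => ?_))
    rw [← Real.mul_rpow (norm_nonneg _) (norm_nonneg _), ← norm_mul]
    congr 2
    field_simp
  · have hb' := ha'.trans_le h
    have hb := norm_pos_iff.1 hb'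
    have := mul_le_mul_of_nonneg_left (circ (q := q) (by linarith) ((starRingEnd ℂ) (a / b))
      (by rw [norm_conj, norm_div]; exact div_le_one_of_le₀ h hb'.le))
      (Real.rpow_nonneg hb'.le (2 * q))
    rw [← intervalIntegral.integral_const_mul, norm_conj, norm_div] at this
    refine le_trans ?_ (this.trans_eq (intervalIntegral.integral_congr fun θ _ => ?_))
    · have r1 : 1 ≤ ‖b‖ / ‖a‖ := (one_le_div ha').2 h
      have s1 := mul_le_mul_of_nonneg_left (scal hq (one_le_pow₀ r1 (n := 2)))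
        (Real.rpow_nonneg ha'.le (2 * q))
      have e1 : ((‖b‖ / ‖a‖) ^ 2) ^ q = ‖b‖ ^ (2 * q) / ‖a‖ ^ (2 * q) := by
        rw [← Real.rpow_two, ← Real.rpow_mul (by positivity), Real.div_rpow hb'.le ha'.le]
      have pa : 0 < ‖a‖ ^ (2 * q) := by positivity
      rw [Real.rpow_sub_one (by positivity), e1] at s1
      have e2 : ‖a‖ ^ (2 * q) * (‖b‖ ^ (2 * q) / ‖a‖ ^ (2 * q) + q ^ 2 *
          (‖b‖ ^ (2 * q) / ‖a‖ ^ (2 * q) / (‖b‖ / ‖a‖) ^ 2)) =
          ‖b‖ ^ (2 * q) * (1 + q ^ 2 * (‖a‖ / ‖b‖) ^ 2) := by field_simp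
      rw [e2] at s1
      nlinarith [mul_le_mul_of_nonneg_left s1 Real.two_pi_pos.le]
    · have n1 : circleMap 0 1 θ * (starRingEnd ℂ) (circleMap 0 1 θ) = 1 := by
        rw [mul_conj, normSq_eq_norm_sq]; simp
      have n2 : ‖circleMap 0 1 θ‖ = 1 := by simp
      generalize circleMap 0 1 θ = z at *
      rw [← Real.mul_rpow (norm_nonneg _) (norm_nonneg _), ← norm_conj (1 + _), ← one_mul ‖b‖, ← n2,
        ← norm_mul, ← norm_mul]
      congr 2
      simp only [map_add, map_one, map_mul, conj_conj]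
      field_simp
      linear_combination a * n1

theorem core3 {X : Type} [MeasurableSpace X] {μ : Measure X} [SFinite μ] {q : ℝ} (hq : 1 < q)
    (hq' : q < 3 / 2) {f g : X → ℂ} (mf : AEMeasurable f μ) (mg : AEMeasurable g μ)
    (hf : Integrable (fun x => ‖f x‖ ^ (2 * q)) μ) (hg : Integrable (fun x => ‖g x‖ ^ (2 * q)) μ)
    (hI : ∀ z : ℂ, Integrable (fun x => ‖f x + z * g x‖ ^ (2 * q)) μ)
    (hB : ∀ z : ℂ, Integrable (fun x => (‖f x‖ + ‖z * g x‖) ^ (2 * q)) μ)
    (H : ∀ v : ℝ, 0 ≤ v → ∀ z : ℂ, ‖z‖ ^ 2 = v * (1 + v) →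
      ∫ x, ‖f x + z * g x‖ ^ (2 * q) ∂μ = (1 + v) ^ (2 * q) + v ^ (2 * q)) : False := by
  have hζ := Complex.isPrimitiveRoot_exp 9 (by norm_num)
  generalize Complex.exp _ = ζ at hζ
  have h1 : ‖ζ‖ = 1 := hζ.norm'_eq_one (by norm_num)
  obtain ⟨C, hC⟩ := glob2 (s := 2 * q) hq.le (by linarith) (by linarith) le_rfl hζ
  have iM : Integrable (fun x => ‖f x‖ ^ (2 * q) * (‖g x‖ / ‖f x‖) ^ 2) μ := by
    refine (hf.add hg).mono' (AEMeasurable.aestronglyMeasurable (by fun_prop))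
      (Eventually.of_forall fun x => ?_)
    rw [Real.norm_of_nonneg (by positivity)]
    exact mixn (norm_nonneg _) (norm_nonneg _) (by push_cast; linarith)
  have m0 : ∫ x, ‖f x‖ ^ (2 * q) ∂μ = 1 := by
    have := H 0 le_rfl 0 (by simp)
    rw [Real.zero_rpow (by linarith)] at this
    simpa using this
  set m := ∫ x, ‖f x‖ ^ (2 * q) * (‖g x‖ / ‖f x‖) ^ 2 ∂μ with hm
  set J := ∫ x, (‖f x‖ ^ (2 * q) + ‖g x‖ ^ (2 * q)) ∂μ
  have L : ∀ v : ℝ, 0 ≤ v → 1 + q ^ 2 * (v * (1 + v)) * m ≤ (1 + v) ^ (2 * q) + v ^ (2 * q) := by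
    intro v hv
    obtain ⟨t, ht, tv⟩ : ∃ t : ℝ, 0 ≤ t ∧ t ^ 2 = v * (1 + v) :=
      ⟨√(v * (1 + v)), Real.sqrt_nonneg _, Real.sq_sqrt (by positivity)⟩
    have sw := intervalIntegral_integral_swap (μ := μ) (a := 0) (b := 2 * Real.pi)
      (f := fun θ x => ‖f x + circleMap 0 1 θ * (t * g x)‖ ^ (2 * q)) ?_
    · have i1 : Integrable (fun x => ∫ θ in (0 : ℝ)..2 * Real.pi,
          ‖f x + circleMap 0 1 θ * (t * g x)‖ ^ (2 * q)) μ := by
        by_contra hn
        rw [integral_undef hn, intervalIntegral.integral_congr (g := fun _ =>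
          (1 + v) ^ (2 * q) + v ^ (2 * q)) fun θ _ => by
            simp only [← mul_assoc]
            exact H v hv _ (by simp [tv, abs_of_nonneg ht])] at sw
        simp only [intervalIntegral.integral_const, sub_zero, smul_eq_mul] at sw
        exact absurd sw (by positivity)
      rw [intervalIntegral.integral_congr (g := fun _ =>
          (1 + v) ^ (2 * q) + v ^ (2 * q)) fun θ _ => by
            simp only [← mul_assoc]
            exact H v hv _ (by simp [tv, abs_of_nonneg ht])] at sw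
      simp only [intervalIntegral.integral_const, sub_zero, smul_eq_mul] at sw
      have le := integral_mono ((hf.add (iM.const_mul (q ^ 2 * t ^ 2))).const_mul (2 * Real.pi)) i1
        fun x => le_of_eq_of_le (by
          simp only [Pi.add_apply, norm_mul, norm_real, Real.norm_of_nonneg ht]; ring)
          (circ2 hq.le (f x) (t * g x))
      simp only [Pi.add_apply] at le
      rw [← sw, integral_const_mul, integral_add hf (iM.const_mul _), integral_const_mul, m0, tv]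
        at le
      exact le_of_mul_le_mul_left le Real.two_pi_pos
    · have : IsFiniteMeasure (volume.restrict (Set.uIoc (0 : ℝ) (2 * Real.pi))) :=
        ⟨by simp [Set.uIoc]⟩
      have mf' := mf.comp_snd (μ := volume.restrict (Set.uIoc (0 : ℝ) (2 * Real.pi)))
      have mg' := mg.comp_snd (μ := volume.restrict (Set.uIoc (0 : ℝ) (2 * Real.pi)))
      refine ((hB t).comp_snd _).mono' (AEMeasurable.aestronglyMeasurable ?_)
        (Eventually.of_forall fun y => ?_)
      · exact (mf'.add (((measurable_circleMap 0 1).comp measurable_fst).aemeasurable.mul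
          (mg'.const_mul _))).norm.pow_const _
      · refine (Real.norm_of_nonneg (Real.rpow_nonneg (norm_nonneg _) _)).trans_le ?_
        refine Real.rpow_le_rpow (norm_nonneg _) ((norm_add_le _ _).trans_eq ?_) (by linarith)
        rw [norm_mul]; simp
  have U : ∀ v : ℝ, 0 < v → v * (1 + v) ≤ 1 → 9 * ((1 + v) ^ (2 * q) + v ^ (2 * q)) ≤
      9 * (1 + q ^ 2 * (v * (1 + v)) * m) + C * (v * (1 + v)) ^ q * J := by
    intro v hv hv1
    obtain ⟨t, ht, tv⟩ : ∃ t : ℝ, 0 < t ∧ t ^ 2 = v * (1 + v) :=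
      ⟨√(v * (1 + v)), Real.sqrt_pos.2 (by positivity), Real.sq_sqrt (by positivity)⟩
    have i1 : ∀ j ∈ range 9, Integrable (fun x => ‖f x + ζ ^ j * t * g x‖ ^ (2 * q)) μ :=
      fun j _ => hI _
    have le := integral_mono (integrable_finset_sum _ i1)
      (((hf.add (iM.const_mul (q ^ 2 * t ^ 2))).const_mul 9).add
        ((hf.add hg).const_mul (C * t ^ (2 * q)))) fun x => by
        have := (abs_le.1 (hC (f x) (g x) t ht (by nlinarith))).2
        simp only [sum_range_succ _ 1, sum_range_one, cf_eq, prod_range_succ, range_zero,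
          prod_empty] at this
        simp only [Pi.add_apply]
        norm_num at this
        linarith
    simp only [Pi.add_apply] at le
    have a1 : Integrable (fun x => 9 * (‖f x‖ ^ (2 * q) + q ^ 2 * t ^ 2 *
      (‖f x‖ ^ (2 * q) * (‖g x‖ / ‖f x‖) ^ 2))) μ := (hf.add (iM.const_mul _)).const_mul 9
    have a2 : Integrable (fun x => C * t ^ (2 * q) * (‖f x‖ ^ (2 * q) + ‖g x‖ ^ (2 * q))) μ :=
      (hf.add hg).const_mul _
    rw [integral_finset_sum _ i1, sum_congr rfl fun j _ => H v hv.le _ (by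
        rw [norm_mul, norm_pow, h1, one_pow, one_mul, norm_real, Real.norm_of_nonneg ht.le, tv]),
      sum_const, card_range, nsmul_eq_mul, integral_add a1 a2, integral_const_mul, integral_const_mul,
      integral_add hf (iM.const_mul _), integral_const_mul, m0, Real.rpow_mul ht.le, Real.rpow_two,
      tv] at le
    exact_mod_cast le
  have pm : 2 * q ≤ q ^ 2 * m := by
    have t1 : Tendsto (fun v : ℝ => 9 * (q ^ 2 * (1 + v) * m) +
        C * (v ^ (q - 1) * (1 + v) ^ q) * J) (𝓝[>] 0)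
        (𝓝 (9 * (q ^ 2 * (1 + 0) * m) + C * ((0 : ℝ) ^ (q - 1) * (1 + 0) ^ q) * J)) :=
      (Continuous.tendsto (by
        have c1 : Continuous fun v : ℝ => v ^ (q - 1) := Real.continuous_rpow_const (by linarith)
        have c2 : Continuous fun v : ℝ => (1 + v) ^ q :=
          Continuous.rpow_const (by fun_prop) fun _ => Or.inr (by linarith)
        fun_prop) 0).mono_left nhdsWithin_le_nhds
    rw [Real.zero_rpow (by linarith)] at t1
    have := ge_of_tendsto t1 (b := 9 * (2 * q)) (by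
      filter_upwards [Ioo_mem_nhdsGT (show (0 : ℝ) < 1 / 2 by norm_num)] with v hv
      have h2 := U v hv.1 (by nlinarith [hv.1, hv.2])
      have h3 := one_add_mul_self_le_rpow_one_add (s := v) (by linarith [hv.1]) (p := 2 * q)
        (by linarith)
      have h4 := Real.rpow_nonneg hv.1.le (2 * q)
      rw [Real.mul_rpow hv.1.le (by linarith [hv.1]), show v ^ q = v ^ (q - 1) * v by
        rw [Real.rpow_sub_one hv.1.ne', div_mul_cancel₀ _ hv.1.ne']] at h2
      exact le_of_mul_le_mul_left (by nlinarith) hv.1)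
    linarith
  have bern : ∀ v : ℝ, 0 < v → (1 + v) ^ (2 * q) ≤ (1 + v) ^ 2 * (1 + (2 * q - 2) * v) := by
    intro v hv
    rw [show 2 * q = 2 + (2 * q - 2) by ring, Real.rpow_add (by linarith), Real.rpow_two,
      add_sub_cancel_left]
    exact mul_le_mul_of_nonneg_left (rpow_one_add_le_one_add_mul_self (by linarith) (by linarith)
      (by linarith)) (by positivity)
  have t2 : Tendsto (fun v : ℝ => (2 * q - 2) * v + v ^ (2 * q - 2)) (𝓝[>] 0)
      (𝓝 ((2 * q - 2) * 0 + (0 : ℝ) ^ (2 * q - 2))) :=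
    (Continuous.tendsto (by
      have c1 : Continuous fun v : ℝ => v ^ (2 * q - 2) := Real.continuous_rpow_const (by linarith)
      fun_prop) 0).mono_left nhdsWithin_le_nhds
  rw [Real.zero_rpow (by linarith)] at t2
  have := ge_of_tendsto t2 (b := 3 - 2 * q) (by
    filter_upwards [self_mem_nhdsWithin] with v hv
    have hv : 0 < v := hv
    have h2 := L v hv.le
    have h3 := bern v hv
    have h4 := mul_le_mul_of_nonneg_left pm (show 0 ≤ v * (1 + v) by positivity)
    have h5 : v ^ (2 * q) = v ^ 2 * v ^ (2 * q - 2) := by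
      rw [← Real.rpow_two, ← Real.rpow_add hv]; congr 1; ring
    rw [h5] at h2
    exact le_of_mul_le_mul_left (by nlinarith) (pow_pos hv 2))
  linarith

end Pool.Agent.H95.Shp
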