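import Pool.Agent.H95.Shp3

set_option autoImplicit false

namespace Pool.Agent.H95.Shp
open Finset Complex Filter Topology Asymptotics MeasureTheory

theorem circ3 {q : ℝ} (hq : 0 ≤ q) (w : ℂ) (hw : ‖w‖ ≤ 1) :
    2 * Real.pi * (1 + q ^ 2 * ‖w‖ ^ 2 + (q * (q - 1) / 2) ^ 2 * (‖w‖ ^ 2) ^ 2) ≤
    ∫ θ in (0 : ℝ)..2 * Real.pi, ‖1 + circleMap 0 1 θ * w‖ ^ (2 * q) := by
  have cl : IsClosed {w : ℂ | 2 * Real.pi *
      (1 + q ^ 2 * ‖w‖ ^ 2 + (q * (q - 1) / 2) ^ 2 * (‖w‖ ^ 2) ^ 2) ≤
      ∫ θ in (0 : ℝ)..2 * Real.pi, ‖1 + circleMap 0 1 θ * w‖ ^ (2 * q)} :=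
    isClosed_le (by fun_prop) (intervalIntegral.continuous_parametric_intervalIntegral_of_continuous'
      (Continuous.rpow_const (by fun_prop) fun _ => Or.inr (by linarith)) _ _)
  refine cl.closure_subset_iff.2 (fun w hw => ?_)
    (show w ∈ closure (Metric.ball 0 1) by rw [closure_ball _ one_ne_zero]; simpa using hw)
  have hw : ‖w‖ < 1 := by simpa using hw
  have hp := (one_add_cpow_hasFPowerSeriesOnBall_zero (a := (q : ℂ))).hasFPowerSeriesAt
  set h : ℂ → ℂ := fun z => (1 + z) ^ (q : ℂ) with hh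
  have sub : Set.MapsTo (fun z => z * w) (Metric.closedBall (0 : ℂ) 1) (Metric.ball 0 1) :=
    fun z hz => by
      have : ‖z‖ ≤ 1 := by simpa using hz
      rw [mem_ball_zero_iff, norm_mul]
      nlinarith [norm_nonneg z, norm_nonneg w]
  have dh : DifferentiableOn ℂ h (Metric.ball 0 1) := fun z hz =>
    (DifferentiableAt.cpow_const (f := fun z => 1 + z) (by fun_prop)
      (mem_slitPlane_of_norm_lt_one (mem_ball_zero_iff.1 hz))).differentiableWithinAt
  have dk := (differentiableOn_dslope (Metric.ball_mem_nhds (0 : ℂ) one_pos)).2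
    ((differentiableOn_dslope (Metric.ball_mem_nhds (0 : ℂ) one_pos)).2 dh)
  have hp1 := hp.has_fpower_series_dslope_fslope
  have hp2 := hp1.has_fpower_series_dslope_fslope
  have co : ∀ n, (binomialSeries ℂ (q : ℂ)).coeff n = Ring.choose (q : ℂ) n := fun n => by
    rw [FormalMultilinearSeries.coeff, binomialSeries_apply, List.prod_ofFn]; simp
  have h0 : h 0 = 1 := by simp [hh]
  have d1 : dslope h 0 0 = q := by
    rw [← hp1.coeff_zero 1, ← FormalMultilinearSeries.coeff, FormalMultilinearSeries.coeff_fslope,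
      co]
    simp
  have d2 : dslope (dslope h 0) 0 0 = ((q * (q - 1) / 2 : ℝ) : ℂ) := by
    rw [← hp2.coeff_zero 1, ← FormalMultilinearSeries.coeff, FormalMultilinearSeries.coeff_fslope,
      FormalMultilinearSeries.coeff_fslope, co, Ring.choose_eq_smul, dp]
    simp [prod_range_succ]
    ring
  generalize q * (q - 1) / 2 = c at *
  set k := dslope (dslope h 0) 0 with hk
  set G : ℂ → ℂ := fun z => 2 * q * (z * w) + (2 * (z * w) ^ 2 + 2 * q * ((‖w‖ ^ 2 : ℝ) : ℂ) *
    (z * w) + 2 * c * ((‖w‖ ^ 2 : ℝ) : ℂ) ^ 2) * k (z * w) with hG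
  have dG : DifferentiableOn ℂ G (Metric.closedBall 0 1) :=
    DifferentiableOn.add (by fun_prop) (DifferentiableOn.mul (by fun_prop)
      (dk.comp (by fun_prop) sub))
  have av := DiffContOnCl.circleAverage (f := G) (c := 0) (R := 1)
    (DifferentiableOn.diffContOnCl (by rw [abs_one, closure_ball _ one_ne_zero]; exact dG))
  have cG : Continuous fun θ : ℝ => G (circleMap 0 1 θ) :=
    dG.continuousOn.comp_continuous (by fun_prop) fun θ => by simp
  have G0 : G 0 = ((2 * c ^ 2 * (‖w‖ ^ 2) ^ 2 : ℝ) : ℂ) := by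
    simp only [hG, zero_mul, d2]
    push_cast
    ring
  rw [Real.circleAverage_def, G0, inv_smul_eq_iff₀ (by positivity)] at av
  have av2 := reCLM.intervalIntegral_comp_comm (cG.intervalIntegrable (μ := volume) 0 (2 * Real.pi))
  rw [av] at av2
  simp only [reCLM_apply, real_smul, re_ofReal_mul, ofReal_re] at av2
  have cR : Continuous fun θ : ℝ => (G (circleMap 0 1 θ)).re := continuous_re.comp cG
  have le := intervalIntegral.integral_mono_on (μ := volume)
    (f := fun θ => (G (circleMap 0 1 θ)).re + (1 + q ^ 2 * ‖w‖ ^ 2 - c ^ 2 * (‖w‖ ^ 2) ^ 2))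
    (g := fun θ => ‖1 + circleMap 0 1 θ * w‖ ^ (2 * q)) Real.two_pi_pos.le
    ((cR.add continuous_const).intervalIntegrable _ _)
    ((Continuous.rpow_const (f := fun θ : ℝ => ‖1 + circleMap 0 1 θ * w‖) (p := 2 * q)
      (by fun_prop) fun _ => Or.inr (by linarith)).intervalIntegrable _ _) fun θ _ => by
      have n1 : ‖w‖ ^ 2 = normSq (circleMap 0 1 θ * w) := by rw [normSq_eq_norm_sq]; simp
      simp only [hG]
      rw [n1]
      generalize circleMap 0 1 θ * w = u at *
      have e1 : ‖1 + u‖ ^ (2 * q) = normSq (h u) := by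
        rw [normSq_eq_norm_sq, hh, norm_cpow_real, mul_comm 2, Real.rpow_mul (norm_nonneg _),
          Real.rpow_two]
      have e2 : h u = 1 + u * (q + u * k u) := by
        have a1 := sub_smul_dslope h 0 u
        have a2 := sub_smul_dslope (dslope h 0) 0 u
        rw [h0, sub_zero, smul_eq_mul] at a1
        rw [d1, sub_zero, smul_eq_mul] at a2
        rw [a2]
        linear_combination -a1
      rw [e1, e2]
      generalize k u = y
      have := normSq_nonneg (u ^ 2 * (y - c))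
      simp [normSq_apply, pow_two] at this ⊢
      nlinarith
  rw [intervalIntegral.integral_add (cR.intervalIntegrable _ _) intervalIntegrable_const, av2] at le
  simp only [intervalIntegral.integral_const, sub_zero, smul_eq_mul] at le
  rw [Set.mem_setOf_eq]
  linarith

theorem circ4 {q : ℝ} (hq : 1 ≤ q) (a b : ℂ) {t : ℝ} (ht : 0 ≤ t) :
    2 * Real.pi * (‖a‖ ^ (2 * q) + q ^ 2 * t ^ 2 * (‖a‖ ^ (2 * q) * (‖b‖ / ‖a‖) ^ 2) +
      (t ^ 2) ^ 2 * (q - 1) ^ 2 * (q * (if t ^ 2 * (‖b‖ / ‖a‖) ^ 2 ≤ 1 then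
        ‖a‖ ^ (2 * q) * (‖b‖ / ‖a‖) ^ 2 else 0) - ‖a‖ ^ (2 * q))) ≤
    ∫ θ in (0 : ℝ)..2 * Real.pi, ‖a + circleMap 0 1 θ * (t * b)‖ ^ (2 * q) := by
  have pa : 0 ≤ ‖a‖ ^ (2 * q) := by positivity
  have c2 := circ2 hq a (t * b)
  rw [norm_mul, norm_real, Real.norm_of_nonneg ht, mul_div_assoc, mul_pow] at c2
  by_cases ha : a = 0
  · refine le_trans (le_of_eq ?_) c2
    rw [ha, norm_zero, Real.zero_rpow (by linarith)]
    simp
  split_ifs with h
  · have ha' := norm_pos_iff.2 ha
    have nw : ‖(t : ℂ) * b / a‖ ^ 2 = t ^ 2 * (‖b‖ / ‖a‖) ^ 2 := by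
      rw [norm_div, norm_mul, norm_real, Real.norm_of_nonneg ht, mul_div_assoc, mul_pow]
    have := mul_le_mul_of_nonneg_left (circ3 (q := q) (by linarith) (t * b / a)
      (by nlinarith [norm_nonneg ((t : ℂ) * b / a)])) pa
    rw [← intervalIntegral.integral_const_mul, nw] at this
    refine le_trans ?_ (this.trans_eq (intervalIntegral.integral_congr fun θ _ => ?_))
    · have := mul_nonneg (mul_nonneg Real.two_pi_pos.le pa)
        (sq_nonneg (t ^ 2 * (q - 1) * (q / 2 * (‖b‖ / ‖a‖) ^ 2 - 1)))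
      nlinarith
    · rw [← Real.mul_rpow (norm_nonneg _) (norm_nonneg _), ← norm_mul]
      congr 2
      field_simp
  · refine le_trans (mul_le_mul_of_nonneg_left ?_ Real.two_pi_pos.le) c2
    have : 0 ≤ (t ^ 2) ^ 2 * (q - 1) ^ 2 * ‖a‖ ^ (2 * q) := by positivity
    nlinarith

theorem core4 {X : Type} [MeasurableSpace X] {μ : Measure X} [SFinite μ] {q : ℝ} (hq : 1 < q)
    (hq' : q ^ 2 < q + 1) {f g : X → ℂ} (mf : AEMeasurable f μ) (mg : AEMeasurable g μ)
    (hf : Integrable (fun x => ‖f x‖ ^ (2 * q)) μ) (hg : Integrable (fun x => ‖g x‖ ^ (2 * q)) μ)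
    (hI : ∀ z : ℂ, Integrable (fun x => ‖f x + z * g x‖ ^ (2 * q)) μ)
    (hB : ∀ z : ℂ, Integrable (fun x => (‖f x‖ + ‖z * g x‖) ^ (2 * q)) μ)
    (H : ∀ v : ℝ, 0 ≤ v → ∀ z : ℂ, ‖z‖ ^ 2 = v * (1 + v) →
      ∫ x, ‖f x + z * g x‖ ^ (2 * q) ∂μ = (1 + v) ^ (2 * q) + v ^ (2 * q)) : False := by
  have q2 : q < 2 := by nlinarith
  have hζ := Complex.isPrimitiveRoot_exp 9 (by norm_num)
  generalize Complex.exp _ = ζ at hζ
  have h1 : ‖ζ‖ = 1 := hζ.norm'_eq_one (by norm_num)
  obtain ⟨C, hC⟩ := glob2 (s := 2 * q) hq.le (by linarith) (by linarith) le_rfl hζ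
  have iM : Integrable (fun x => ‖f x‖ ^ (2 * q) * (‖g x‖ / ‖f x‖) ^ 2) μ := by
    refine (hf.add hg).mono' (AEMeasurable.aestronglyMeasurable (by fun_prop))
      (Eventually.of_forall fun x => ?_)
    rw [Real.norm_of_nonneg (by positivity)]
    exact mixn (norm_nonneg _) (norm_nonneg _) (by push_cast; linarith)
  have m0 : ∫ x, ‖f x‖ ^ (2 * q) ∂μ = 1 := by
    have := H 0 le_rfl 0 (by simp)
    rw [Real.zero_rpow (by linarith)] at this
    simpa using this
  set m := ∫ x, ‖f x‖ ^ (2 * q) * (‖g x‖ / ‖f x‖) ^ 2 ∂μ with hm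
  set J := ∫ x, (‖f x‖ ^ (2 * q) + ‖g x‖ ^ (2 * q)) ∂μ
  set N : ℝ → X → ℝ := fun s x => if s * (‖g x‖ / ‖f x‖) ^ 2 ≤ 1 then
    ‖f x‖ ^ (2 * q) * (‖g x‖ / ‖f x‖) ^ 2 else 0 with hN
  have mN : ∀ s, AEStronglyMeasurable (N s) μ := fun s => by
    have m1 : Measurable fun y : ℝ × ℝ => if s * y.2 ≤ 1 then y.1 * y.2 else 0 :=
      Measurable.ite (measurableSet_le (by fun_prop) measurable_const) (by fun_prop)
        measurable_const
    exact (m1.comp_aemeasurable (f := fun x => (‖f x‖ ^ (2 * q), (‖g x‖ / ‖f x‖) ^ 2))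
      (by fun_prop)).aestronglyMeasurable
  have bN : ∀ s x, ‖N s x‖ ≤ ‖f x‖ ^ (2 * q) * (‖g x‖ / ‖f x‖) ^ 2 := fun s x => by
    simp only [hN]
    split_ifs
    · exact (Real.norm_of_nonneg (by positivity)).le
    · rw [norm_zero]; positivity
  have iN : ∀ s, Integrable (N s) μ := fun s => iM.mono' (mN s) (Eventually.of_forall (bN s))
  have tN : Tendsto (fun v : ℝ => ∫ x, N (v * (1 + v)) x ∂μ) (𝓝[>] 0) (𝓝 m) := by
    refine tendsto_integral_filter_of_dominated_convergence _ (Eventually.of_forall fun _ => mN _)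
      (Eventually.of_forall fun _ => Eventually.of_forall (bN _)) iM
      (Eventually.of_forall fun x => tendsto_const_nhds.congr' ?_)
    have : Tendsto (fun v : ℝ => v * (1 + v) * (‖g x‖ / ‖f x‖) ^ 2) (𝓝[>] 0) (𝓝 0) :=
      (Continuous.tendsto' (by fun_prop) 0 0 (by simp)).mono_left nhdsWithin_le_nhds
    filter_upwards [this.eventually (ge_mem_nhds one_pos)] with v hv
    simp only [hN, if_pos hv]
  have L : ∀ v : ℝ, 0 ≤ v → 1 + q ^ 2 * (v * (1 + v)) * m + (v * (1 + v)) ^ 2 * (q - 1) ^ 2 *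
      (q * ∫ x, N (v * (1 + v)) x ∂μ - 1) ≤ (1 + v) ^ (2 * q) + v ^ (2 * q) := by
    intro v hv
    obtain ⟨t, ht, tv⟩ : ∃ t : ℝ, 0 ≤ t ∧ t ^ 2 = v * (1 + v) :=
      ⟨√(v * (1 + v)), Real.sqrt_nonneg _, Real.sq_sqrt (by positivity)⟩
    have sw := intervalIntegral_integral_swap (μ := μ) (a := 0) (b := 2 * Real.pi)
      (f := fun θ x => ‖f x + circleMap 0 1 θ * (t * g x)‖ ^ (2 * q)) ?_
    · have i1 : Integrable (fun x => ∫ θ in (0 : ℝ)..2 * Real.pi,
          ‖f x + circleMap 0 1 θ * (t * g x)‖ ^ (2 * q)) μ := by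
        by_contra hn
        rw [integral_undef hn, intervalIntegral.integral_congr (g := fun _ =>
          (1 + v) ^ (2 * q) + v ^ (2 * q)) fun θ _ => by
            simp only [← mul_assoc]
            exact H v hv _ (by simp [tv, abs_of_nonneg ht])] at sw
        simp only [intervalIntegral.integral_const, sub_zero, smul_eq_mul] at sw
        exact absurd sw (by positivity)
      rw [intervalIntegral.integral_congr (g := fun _ =>
          (1 + v) ^ (2 * q) + v ^ (2 * q)) fun θ _ => by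
            simp only [← mul_assoc]
            exact H v hv _ (by simp [tv, abs_of_nonneg ht])] at sw
      simp only [intervalIntegral.integral_const, sub_zero, smul_eq_mul] at sw
      have a1 : Integrable (fun x => ‖f x‖ ^ (2 * q) + q ^ 2 * t ^ 2 *
        (‖f x‖ ^ (2 * q) * (‖g x‖ / ‖f x‖) ^ 2)) μ := hf.add (iM.const_mul _)
      have a2 : Integrable (fun x => (t ^ 2) ^ 2 * (q - 1) ^ 2 *
        (q * N (t ^ 2) x - ‖f x‖ ^ (2 * q))) μ := (((iN _).const_mul _).sub hf).const_mul _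
      have le := integral_mono ((a1.add a2).const_mul (2 * Real.pi)) i1
        fun x => circ4 hq.le (f x) (g x) ht
      simp only [Pi.add_apply] at le
      rw [← sw, integral_const_mul, integral_add a1 a2, integral_add hf (iM.const_mul _),
        integral_const_mul, integral_const_mul, integral_sub ((iN _).const_mul _) hf,
        integral_const_mul, m0, tv] at le
      exact le_of_mul_le_mul_left le Real.two_pi_pos
    · have : IsFiniteMeasure (volume.restrict (Set.uIoc (0 : ℝ) (2 * Real.pi))) :=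
        ⟨by simp [Set.uIoc]⟩
      have mf' := mf.comp_snd (μ := volume.restrict (Set.uIoc (0 : ℝ) (2 * Real.pi)))
      have mg' := mg.comp_snd (μ := volume.restrict (Set.uIoc (0 : ℝ) (2 * Real.pi)))
      refine ((hB t).comp_snd _).mono' (AEMeasurable.aestronglyMeasurable ?_)
        (Eventually.of_forall fun y => ?_)
      · exact (mf'.add (((measurable_circleMap 0 1).comp measurable_fst).aemeasurable.mul
          (mg'.const_mul _))).norm.pow_const _
      · refine (Real.norm_of_nonneg (Real.rpow_nonneg (norm_nonneg _) _)).trans_le ?_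
        refine Real.rpow_le_rpow (norm_nonneg _) ((norm_add_le _ _).trans_eq ?_) (by linarith)
        rw [norm_mul]; simp
  have U : ∀ v : ℝ, 0 < v → v * (1 + v) ≤ 1 → 9 * ((1 + v) ^ (2 * q) + v ^ (2 * q)) ≤
      9 * (1 + q ^ 2 * (v * (1 + v)) * m) + C * (v * (1 + v)) ^ q * J := by
    intro v hv hv1
    obtain ⟨t, ht, tv⟩ : ∃ t : ℝ, 0 < t ∧ t ^ 2 = v * (1 + v) :=
      ⟨√(v * (1 + v)), Real.sqrt_pos.2 (by positivity), Real.sq_sqrt (by positivity)⟩
    have i1 : ∀ j ∈ range 9, Integrable (fun x => ‖f x + ζ ^ j * t * g x‖ ^ (2 * q)) μ :=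
      fun j _ => hI _
    have le := integral_mono (integrable_finset_sum _ i1)
      (((hf.add (iM.const_mul (q ^ 2 * t ^ 2))).const_mul 9).add
        ((hf.add hg).const_mul (C * t ^ (2 * q)))) fun x => by
        have := (abs_le.1 (hC (f x) (g x) t ht (by nlinarith))).2
        simp only [sum_range_succ _ 1, sum_range_one, cf_eq, prod_range_succ, range_zero,
          prod_empty] at this
        simp only [Pi.add_apply]
        norm_num at this
        linarith
    simp only [Pi.add_apply] at le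
    have a1 : Integrable (fun x => 9 * (‖f x‖ ^ (2 * q) + q ^ 2 * t ^ 2 *
      (‖f x‖ ^ (2 * q) * (‖g x‖ / ‖f x‖) ^ 2))) μ := (hf.add (iM.const_mul _)).const_mul 9
    have a2 : Integrable (fun x => C * t ^ (2 * q) * (‖f x‖ ^ (2 * q) + ‖g x‖ ^ (2 * q))) μ :=
      (hf.add hg).const_mul _
    rw [integral_finset_sum _ i1, sum_congr rfl fun j _ => H v hv.le _ (by
        rw [norm_mul, norm_pow, h1, one_pow, one_mul, norm_real, Real.norm_of_nonneg ht.le, tv]),
      sum_const, card_range, nsmul_eq_mul, integral_add a1 a2, integral_const_mul, integral_const_mul,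
      integral_add hf (iM.const_mul _), integral_const_mul, m0, Real.rpow_mul ht.le, Real.rpow_two,
      tv] at le
    exact_mod_cast le
  have pm : 2 * q ≤ q ^ 2 * m := by
    have t1 : Tendsto (fun v : ℝ => 9 * (q ^ 2 * (1 + v) * m) +
        C * (v ^ (q - 1) * (1 + v) ^ q) * J) (𝓝[>] 0)
        (𝓝 (9 * (q ^ 2 * (1 + 0) * m) + C * ((0 : ℝ) ^ (q - 1) * (1 + 0) ^ q) * J)) :=
      (Continuous.tendsto (by
        have c1 : Continuous fun v : ℝ => v ^ (q - 1) := Real.continuous_rpow_const (by linarith)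
        have c2 : Continuous fun v : ℝ => (1 + v) ^ q :=
          Continuous.rpow_const (by fun_prop) fun _ => Or.inr (by linarith)
        fun_prop) 0).mono_left nhdsWithin_le_nhds
    rw [Real.zero_rpow (by linarith)] at t1
    have := ge_of_tendsto t1 (b := 9 * (2 * q)) (by
      filter_upwards [Ioo_mem_nhdsGT (show (0 : ℝ) < 1 / 2 by norm_num)] with v hv
      have h2 := U v hv.1 (by nlinarith [hv.1, hv.2])
      have h3 := one_add_mul_self_le_rpow_one_add (s := v) (by linarith [hv.1]) (p := 2 * q)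
        (by linarith)
      have h4 := Real.rpow_nonneg hv.1.le (2 * q)
      rw [Real.mul_rpow hv.1.le (by linarith [hv.1]), show v ^ q = v ^ (q - 1) * v by
        rw [Real.rpow_sub_one hv.1.ne', div_mul_cancel₀ _ hv.1.ne']] at h2
      exact le_of_mul_le_mul_left (by nlinarith) hv.1)
    linarith
  obtain ⟨K, hK⟩ := ((Real.one_add_rpow_hasFPowerSeriesOnBall_zero
    (a := 2 * q)).hasFPowerSeriesAt.isBigO_sub_partialSum_pow 3).bound
  have ps : ∀ v : ℝ, (binomialSeries ℝ (2 * q)).partialSum 3 v =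
      1 + 2 * q * v + q * (2 * q - 1) * v ^ 2 := fun v => by
    have : Ring.choose (2 * q) 2 = q * (2 * q - 1) := by
      rw [Ring.choose_eq_smul]
      simp [descPochhammer, Polynomial.smeval_mul, Polynomial.smeval_comp, Polynomial.smeval_sub,
        Polynomial.smeval_X, Polynomial.smeval_one]
      ring
    simp only [FormalMultilinearSeries.partialSum, sum_range_succ, binomialSeries_apply, this,
      List.prod_ofFn, range_zero, sum_empty, Ring.choose_zero_right, Ring.choose_one_right,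
      prod_const, card_univ, Fintype.card_fin, smul_eq_mul]
    ring
  have t2 : Tendsto (fun v : ℝ => K * v + v ^ (2 * q - 2) - (1 + v) ^ 2 * (q - 1) ^ 2 *
      (q * ∫ x, N (v * (1 + v)) x ∂μ - 1)) (𝓝[>] 0)
      (𝓝 (K * 0 + (0 : ℝ) ^ (2 * q - 2) - (1 + 0) ^ 2 * (q - 1) ^ 2 * (q * m - 1))) := by
    have c1 : Continuous fun v : ℝ => v ^ (2 * q - 2) := Real.continuous_rpow_const (by linarith)
    exact ((Continuous.tendsto (by fun_prop) 0).mono_left nhdsWithin_le_nhds).sub
      (((Continuous.tendsto (f := fun v : ℝ => (1 + v) ^ 2 * (q - 1) ^ 2) (by fun_prop) 0).mono_left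
        nhdsWithin_le_nhds).mul ((tN.const_mul q).sub_const 1))
  rw [Real.zero_rpow (by linarith)] at t2
  have := ge_of_tendsto t2 (b := 2 * q - q * (2 * q - 1)) (by
    filter_upwards [self_mem_nhdsWithin, nhdsWithin_le_nhds hK] with v hv h3
    have hv : 0 < v := hv
    have h2 := L v hv.le
    rw [ps, zero_add, norm_pow, norm_norm, Real.norm_of_nonneg hv.le, Real.norm_eq_abs] at h3
    have h6 := (abs_le.1 h3).2
    have h4 := mul_le_mul_of_nonneg_left pm (show 0 ≤ v * (1 + v) by positivity)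
    have h5 : v ^ (2 * q) = v ^ 2 * v ^ (2 * q - 2) := by
      rw [← Real.rpow_two, ← Real.rpow_add hv]; congr 1; ring
    rw [h5] at h2
    exact le_of_mul_le_mul_left (by nlinarith) (pow_pos hv 2))
  have qm : 2 ≤ q * m := le_of_mul_le_mul_left (by nlinarith) (show 0 < q by linarith)
  nlinarith [mul_le_mul_of_nonneg_left qm (sq_nonneg (q - 1))]

end Pool.Agent.H95.Shp
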