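import Pool.Agent.H95.Shp4

set_option autoImplicit false

namespace Pool.Agent.H95.Shp
open Finset Complex Filter Topology Asymptotics MeasureTheory

theorem nn {F F' : ℝ → ℝ} (hd : ∀ x, 1 ≤ x → HasDerivAt F (F' x) x) (h0 : 0 ≤ F 1)
    (h : ∀ x, 1 ≤ x → 0 ≤ F' x) (s : ℝ) (hs : 1 ≤ s) : 0 ≤ F s := by
  rcases hs.eq_or_lt with rfl | hs
  · exact h0
  obtain ⟨c, hc, e⟩ := exists_hasDerivAt_eq_slope F F' hs
    (fun x hx => (hd x hx.1).continuousAt.continuousWithinAt) fun x hx => hd x hx.1.le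
  rw [eq_div_iff (by linarith)] at e
  nlinarith [mul_nonneg (h c hc.1.le) (show 0 ≤ s - 1 by linarith)]

theorem scal2 {q s : ℝ} (h1 : 2 ≤ q) (h2 : q ≤ 3) (hs : 1 ≤ s) :
    1 + q ^ 2 * s + (q * (q - 1) / 2) ^ 2 * s ^ 2 ≤
      s ^ q + q ^ 2 * s ^ (q - 1) + (q * (q - 1) / 2) ^ 2 * s ^ (q - 2) := by
  have d : ∀ (r A B C D E G : ℝ) (x : ℝ), 1 ≤ x → HasDerivAt
      (fun s : ℝ => A * s ^ r + B * s ^ (r - 1) + C * s ^ (r - 2) - (D + E * s + G * s ^ 2))
      (A * r * x ^ (r - 1) + B * (r - 1) * x ^ (r - 1 - 1) + C * (r - 2) * x ^ (r - 1 - 2) -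
        (E + 2 * G * x + 0 * x ^ 2)) x := fun r A B C D E G x hx => by
    have k : ∀ p : ℝ, HasDerivAt (fun s : ℝ => s ^ p) (p * x ^ (p - 1)) x := fun p =>
      Real.hasDerivAt_rpow_const (Or.inl (by linarith))
    refine (((((k r).const_mul A).add ((k (r - 1)).const_mul B)).add
      ((k (r - 2)).const_mul C)).sub ((((hasDerivAt_id x).const_mul E).const_add D).add
      ((hasDerivAt_pow 2 x).const_mul G))).congr_deriv ?_
    rw [show r - 2 - 1 = r - 1 - 2 by ring]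
    simp
    ring
  have := nn (d q 1 (q ^ 2) ((q * (q - 1) / 2) ^ 2) 1 (q ^ 2) ((q * (q - 1) / 2) ^ 2))
    (by simp) (nn (d (q - 1) _ _ _ _ _ _) (by
      simp only [Real.one_rpow]; nlinarith [mul_nonneg (show 0 ≤ q by linarith)
        (sq_nonneg ((q - 1) * (q - 2)))]) (nn (d (q - 1 - 1) _ _ _ _ _ _) (by
      simp only [Real.one_rpow]; nlinarith [mul_nonneg (mul_nonneg (show 0 ≤ q by linarith)
        (show 0 ≤ q - 1 by linarith)) (sq_nonneg ((q - 1) * (q - 2)))]) fun x hx => by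
      have x0 : 0 < x := by linarith
      have e1 : x ^ (q - 1 - 1 - 1) = x ^ (q - 1 - 1 - 1 - 2) * x ^ 2 := by
        rw [← Real.rpow_two, ← Real.rpow_add x0]; congr 1; ring
      have e2 : x ^ (q - 1 - 1 - 1 - 1) = x ^ (q - 1 - 1 - 1 - 2) * x := by
        rw [← Real.rpow_add_one x0.ne']; congr 1; ring
      have e3 : 0 ≤ x ^ 2 - q * (3 - q) * x + q * (q - 1) * (3 - q) * (4 - q) / 4 := by
        obtain ⟨e, rfl⟩ : ∃ e, q = 2 + e := ⟨q - 2, by ring⟩
        obtain ⟨y, rfl⟩ : ∃ y, x = 1 + y := ⟨x - 1, by ring⟩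
        have he : 0 ≤ e := by linarith
        have hy : 0 ≤ y := by linarith
        nlinarith [mul_nonneg he hy, mul_nonneg (sq_nonneg e) hy, sq_nonneg (e ^ 2), sq_nonneg y,
          mul_nonneg he (show 0 ≤ 1 - e by linarith)]
      rw [e1, e2]
      refine (mul_nonneg (mul_nonneg (mul_nonneg (mul_nonneg (show 0 ≤ q by linarith)
        (show 0 ≤ q - 1 by linarith)) (show 0 ≤ q - 2 by linarith))
        (Real.rpow_nonneg x0.le (q - 1 - 1 - 1 - 2))) e3).trans_eq (by ring))) s hs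
  linarith

theorem lim0 {a : ℝ} {G : ℝ → ℝ} (hG : Continuous G) (h0 : G 0 = 0)
    (h : ∀ᶠ v in 𝓝[>] (0 : ℝ), a ≤ G v) : a ≤ 0 :=
  ge_of_tendsto ((hG.tendsto' 0 0 h0).mono_left nhdsWithin_le_nhds) h

theorem loc4 (q : ℝ) {ζ : ℂ} (hζ : IsPrimitiveRoot ζ 9) : ∃ K δ : ℝ, 0 ≤ K ∧ 0 < δ ∧
    ∀ w : ℂ, ‖w‖ ≤ δ → |∑ j ∈ range 9, ‖1 + ζ ^ j * w‖ ^ (2 * q) -
      9 * ∑ k ∈ range 3, cf q k * ‖w‖ ^ (2 * k)| ≤ K * ‖w‖ ^ 6 := by
  obtain ⟨K, δ, hK, hδ, h⟩ := loc2 q hζ
  have hc : ∀ k, 0 ≤ cf q k := fun k => sq_nonneg _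
  have c2 := hc 2
  have c3 := hc 3
  have c4 := hc 4
  refine ⟨K + 9 * (cf q 3 + cf q 4), min δ 1, by positivity, by positivity, fun w hw => ?_⟩
  have h1 := h w (hw.trans (min_le_left _ _))
  have e : ∀ n, 6 ≤ n → ‖w‖ ^ n ≤ ‖w‖ ^ 6 := fun n hn =>
    pow_le_pow_of_le_one (norm_nonneg _) (hw.trans (min_le_right _ _)) hn
  have e9 := mul_le_mul_of_nonneg_left (e 9 (by norm_num)) hK
  have e6 := mul_le_mul_of_nonneg_left (e 6 (by norm_num)) c3
  have e8 := mul_le_mul_of_nonneg_left (e 8 (by norm_num)) c4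
  have p4 : 0 ≤ cf q 2 * ‖w‖ ^ 4 := by positivity
  have p6 : 0 ≤ cf q 3 * ‖w‖ ^ 6 := by positivity
  have p8 : 0 ≤ cf q 4 * ‖w‖ ^ 8 := by positivity
  generalize ∑ j ∈ range 9, ‖1 + ζ ^ j * w‖ ^ (2 * q) = S at *
  simp only [sum_range_succ, range_zero, sum_empty, Nat.reduceMul] at h1 ⊢
  rw [abs_le] at h1 ⊢
  constructor <;> nlinarith [h1.1, h1.2]

theorem glob3 {q s : ℝ} (hq : 2 ≤ q) (h0 : 0 ≤ s) (hs : s ≤ 6) (hs' : s ≤ 2 * q) {ζ : ℂ}
    (hζ : IsPrimitiveRoot ζ 9) : ∃ C : ℝ, ∀ a b : ℂ, ∀ t : ℝ, 0 < t → t ≤ 1 →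
    |∑ j ∈ range 9, ‖a + ζ ^ j * t * b‖ ^ (2 * q) -
      9 * ∑ k ∈ range 3, cf q k * t ^ (2 * k) * (‖a‖ ^ (2 * q) * (‖b‖ / ‖a‖) ^ (2 * k))| ≤
      C * t ^ s * (‖a‖ ^ (2 * q) + ‖b‖ ^ (2 * q)) := by
  obtain ⟨K, δ, hK, hδ, h⟩ := loc4 q hζ
  have h1 : ‖ζ‖ = 1 := hζ.norm'_eq_one (by norm_num)
  have hc : ∀ k, 0 ≤ cf q k := fun k => sq_nonneg _
  have hS : 0 ≤ ∑ k ∈ range 3, cf q k := sum_nonneg fun k _ => hc _
  set L := 9 * (δ⁻¹ + 1) ^ (2 * q) + 9 * (∑ k ∈ range 3, cf q k) * (δ⁻¹ ^ (2 * q) + 1) with hL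
  have hL0 : 0 ≤ L := by positivity
  refine ⟨K * δ ^ (6 - s) + L, fun a b t ht ht1 => ?_⟩
  have hts : 0 ≤ t ^ s := by positivity
  have ha : 0 ≤ ‖a‖ ^ (2 * q) := by positivity
  have hb : 0 ≤ ‖b‖ ^ (2 * q) := by positivity
  by_cases hA : a ≠ 0 ∧ t * (‖b‖ / ‖a‖) ≤ δ
  · obtain ⟨ha0, hA⟩ := hA
    have nw : ‖(t : ℂ) * b / a‖ = t * (‖b‖ / ‖a‖) := by
      rw [norm_div, norm_mul, norm_real, Real.norm_of_nonneg ht.le, mul_div_assoc]
    have := h (t * b / a) (nw ▸ hA)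
    rw [nw] at this
    have e1 : ∀ j ∈ range 9, ‖a + ζ ^ j * t * b‖ ^ (2 * q) =
        ‖a‖ ^ (2 * q) * ‖1 + ζ ^ j * (t * b / a)‖ ^ (2 * q) := fun j _ => by
      rw [← Real.mul_rpow (norm_nonneg _) (norm_nonneg _), ← norm_mul]
      congr 2
      field_simp
    have e2 : ∀ k ∈ range 3, cf q k * t ^ (2 * k) * (‖a‖ ^ (2 * q) * (‖b‖ / ‖a‖) ^ (2 * k)) =
        ‖a‖ ^ (2 * q) * (cf q k * (t * (‖b‖ / ‖a‖)) ^ (2 * k)) := fun k _ => by
      rw [mul_pow]; ring
    rw [sum_congr rfl e1, sum_congr rfl e2, ← mul_sum, ← mul_sum, mul_left_comm, ← mul_sub, abs_mul,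
      abs_of_nonneg ha]
    have hr : 0 ≤ ‖b‖ / ‖a‖ := by positivity
    have e3 : (t * (‖b‖ / ‖a‖)) ^ 6 ≤ δ ^ (6 - s) * (t ^ s * (‖b‖ / ‖a‖) ^ s) := by
      rw [← Real.mul_rpow ht.le hr, ← Real.rpow_natCast, show ((6 : ℕ) : ℝ) = (6 - s) + s by simp,
        Real.rpow_add' (by positivity) (by simp)]
      exact mul_le_mul_of_nonneg_right (Real.rpow_le_rpow (by positivity) hA (by linarith))
        (by positivity)
    have e4 := mix (norm_nonneg a) (norm_nonneg b) h0 hs'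
    calc _ ≤ ‖a‖ ^ (2 * q) * (K * (δ ^ (6 - s) * (t ^ s * (‖b‖ / ‖a‖) ^ s))) :=
          mul_le_mul_of_nonneg_left (this.trans (mul_le_mul_of_nonneg_left e3 hK)) ha
      _ = K * δ ^ (6 - s) * t ^ s * (‖a‖ ^ (2 * q) * (‖b‖ / ‖a‖) ^ s) := by ring
      _ ≤ K * δ ^ (6 - s) * t ^ s * (‖a‖ ^ (2 * q) + ‖b‖ ^ (2 * q)) :=
          mul_le_mul_of_nonneg_left e4 (by positivity)
      _ ≤ _ := by gcongr; linarith
  · have hy : 0 ≤ t * ‖b‖ := by positivity
    have hab : ‖a‖ ≤ δ⁻¹ * (t * ‖b‖) := by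
      by_cases ha0 : a = 0
      · rw [ha0, norm_zero]; positivity
      · have := not_le.1 fun h' => hA ⟨ha0, h'⟩
        rw [← mul_div_assoc, lt_div_iff₀ (norm_pos_iff.2 ha0)] at this
        rw [inv_mul_eq_div, le_div_iff₀ hδ]
        linarith
    have e1 : ∀ j ∈ range 9, ‖a + ζ ^ j * t * b‖ ^ (2 * q) ≤
        (δ⁻¹ + 1) ^ (2 * q) * (t * ‖b‖) ^ (2 * q) := fun j _ => by
      rw [← Real.mul_rpow (by positivity) hy]
      refine Real.rpow_le_rpow (norm_nonneg _) ((norm_add_le _ _).trans ?_) (by linarith)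
      rw [norm_mul, norm_mul, norm_pow, h1, one_pow, one_mul, norm_real, Real.norm_of_nonneg ht.le]
      linarith
    have e0 : ‖a‖ ^ (2 * q) ≤ δ⁻¹ ^ (2 * q) * (t * ‖b‖) ^ (2 * q) := by
      rw [← Real.mul_rpow (by positivity) hy]
      exact Real.rpow_le_rpow (norm_nonneg _) hab (by linarith)
    have e2 : ∀ k ∈ range 3, cf q k * t ^ (2 * k) * (‖a‖ ^ (2 * q) * (‖b‖ / ‖a‖) ^ (2 * k)) ≤
        cf q k * ((δ⁻¹ ^ (2 * q) + 1) * (t * ‖b‖) ^ (2 * q)) := fun k hk => by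
      have := mixn (norm_nonneg a) hy (k := 2 * k) (p := 2 * q) (by
        have : (k : ℝ) ≤ 2 := by exact_mod_cast Nat.lt_succ_iff.1 (mem_range.1 hk)
        push_cast; linarith)
      rw [mul_div_assoc, mul_pow] at this
      rw [mul_assoc]
      exact mul_le_mul_of_nonneg_left (by nlinarith) (hc _)
    have s1 := sum_le_sum e1
    have s2 := sum_le_sum e2
    rw [sum_const, card_range, nsmul_eq_mul] at s1
    rw [← sum_mul] at s2
    have s3 : 0 ≤ ∑ j ∈ range 9, ‖a + ζ ^ j * t * b‖ ^ (2 * q) :=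
      sum_nonneg fun j _ => by positivity
    have s4 : 0 ≤ ∑ k ∈ range 3, cf q k * t ^ (2 * k) * (‖a‖ ^ (2 * q) * (‖b‖ / ‖a‖) ^ (2 * k)) :=
      sum_nonneg fun k _ => mul_nonneg (mul_nonneg (hc _) (by positivity)) (by positivity)
    have s5 : (t * ‖b‖) ^ (2 * q) ≤ t ^ s * (‖a‖ ^ (2 * q) + ‖b‖ ^ (2 * q)) := by
      rw [Real.mul_rpow ht.le (norm_nonneg _)]
      exact mul_le_mul (Real.rpow_le_rpow_of_exponent_ge ht ht1 hs') (by linarith) hb hts
    push_cast at s1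
    calc _ ≤ L * (t * ‖b‖) ^ (2 * q) := by
          rw [abs_le, hL]
          constructor <;> nlinarith
      _ ≤ L * (t ^ s * (‖a‖ ^ (2 * q) + ‖b‖ ^ (2 * q))) := mul_le_mul_of_nonneg_left s5 hL0
      _ ≤ _ := by
          rw [← mul_assoc]
          gcongr
          have : 0 ≤ K * δ ^ (6 - s) := by positivity
          linarith


theorem circ5 {q : ℝ} (hq : 2 ≤ q) (hq' : q ≤ 3) (a b : ℂ) :
    2 * Real.pi * (‖a‖ ^ (2 * q) + q ^ 2 * (‖a‖ ^ (2 * q) * (‖b‖ / ‖a‖) ^ 2) +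
      (q * (q - 1) / 2) ^ 2 * (‖a‖ ^ (2 * q) * (‖b‖ / ‖a‖) ^ 4)) ≤
    ∫ θ in (0 : ℝ)..2 * Real.pi, ‖a + circleMap 0 1 θ * b‖ ^ (2 * q) := by
  by_cases ha : a = 0
  · rw [ha, norm_zero, Real.zero_rpow (by linarith)]
    simp only [zero_mul, mul_zero, add_zero]
    exact intervalIntegral.integral_nonneg Real.two_pi_pos.le fun θ _ => by positivity
  have ha' := norm_pos_iff.2 ha
  rcases le_total ‖b‖ ‖a‖ with h | h
  · have := mul_le_mul_of_nonneg_left (circ3 (q := q) (by linarith) (b / a)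
      (by rw [norm_div]; exact div_le_one_of_le₀ h ha'.le)) (Real.rpow_nonneg ha'.le (2 * q))
    rw [← intervalIntegral.integral_const_mul, norm_div] at this
    refine le_of_eq_of_le (by ring) (this.trans_eq (intervalIntegral.integral_congr fun θ _ => ?_))
    rw [← Real.mul_rpow (norm_nonneg _) (norm_nonneg _), ← norm_mul]
    congr 2
    field_simp
  · have hb' := ha'.trans_le h
    have hb := norm_pos_iff.1 hb'
    have := mul_le_mul_of_nonneg_left (circ3 (q := q) (by linarith) ((starRingEnd ℂ) (a / b))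
      (by rw [norm_conj, norm_div]; exact div_le_one_of_le₀ h hb'.le))
      (Real.rpow_nonneg hb'.le (2 * q))
    rw [← intervalIntegral.integral_const_mul, norm_conj, norm_div] at this
    refine le_trans ?_ (this.trans_eq (intervalIntegral.integral_congr fun θ _ => ?_))
    · have r1 : 1 ≤ ‖b‖ / ‖a‖ := (one_le_div ha').2 h
      have s1 := mul_le_mul_of_nonneg_left (scal2 hq hq' (one_le_pow₀ r1 (n := 2)))
        (Real.rpow_nonneg ha'.le (2 * q))
      have e1 : ((‖b‖ / ‖a‖) ^ 2) ^ q = ‖b‖ ^ (2 * q) / ‖a‖ ^ (2 * q) := by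
        rw [← Real.rpow_two, ← Real.rpow_mul (by positivity), Real.div_rpow hb'.le ha'.le]
      have pa : 0 < ‖a‖ ^ (2 * q) := by positivity
      rw [Real.rpow_sub_one (by positivity), Real.rpow_sub (by positivity), Real.rpow_two, e1] at s1
      have e2 : ‖a‖ ^ (2 * q) * (‖b‖ ^ (2 * q) / ‖a‖ ^ (2 * q) + q ^ 2 *
          (‖b‖ ^ (2 * q) / ‖a‖ ^ (2 * q) / (‖b‖ / ‖a‖) ^ 2) + (q * (q - 1) / 2) ^ 2 *
          (‖b‖ ^ (2 * q) / ‖a‖ ^ (2 * q) / ((‖b‖ / ‖a‖) ^ 2) ^ 2)) =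
          ‖b‖ ^ (2 * q) * (1 + q ^ 2 * (‖a‖ / ‖b‖) ^ 2 +
            (q * (q - 1) / 2) ^ 2 * ((‖a‖ / ‖b‖) ^ 2) ^ 2) := by field_simp
      rw [e2] at s1
      nlinarith [mul_le_mul_of_nonneg_left s1 Real.two_pi_pos.le]
    · have n1 : circleMap 0 1 θ * (starRingEnd ℂ) (circleMap 0 1 θ) = 1 := by
        rw [mul_conj, normSq_eq_norm_sq]; simp
      have n2 : ‖circleMap 0 1 θ‖ = 1 := by simp
      generalize circleMap 0 1 θ = z at *
      rw [← Real.mul_rpow (norm_nonneg _) (norm_nonneg _), ← norm_conj (1 + _), ← one_mul ‖b‖, ← n2,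
        ← norm_mul, ← norm_mul]
      congr 2
      simp only [map_add, map_one, map_mul, conj_conj]
      field_simp
      linear_combination a * n1

theorem core5 {X : Type} [MeasurableSpace X] {μ : Measure X} [SFinite μ] {q : ℝ} (hq : 2 < q)
    (hq' : q < 5 / 2) {f g : X → ℂ} (mf : AEMeasurable f μ) (mg : AEMeasurable g μ)
    (hf : Integrable (fun x => ‖f x‖ ^ (2 * q)) μ) (hg : Integrable (fun x => ‖g x‖ ^ (2 * q)) μ)
    (hI : ∀ z : ℂ, Integrable (fun x => ‖f x + z * g x‖ ^ (2 * q)) μ)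
    (hB : ∀ z : ℂ, Integrable (fun x => (‖f x‖ + ‖z * g x‖) ^ (2 * q)) μ)
    (H : ∀ v : ℝ, 0 ≤ v → ∀ z : ℂ, ‖z‖ ^ 2 = v * (1 + v) →
      ∫ x, ‖f x + z * g x‖ ^ (2 * q) ∂μ = (1 + v) ^ (2 * q) + v ^ (2 * q)) : False := by
  have hζ := Complex.isPrimitiveRoot_exp 9 (by norm_num)
  generalize Complex.exp _ = ζ at hζ
  have h1 : ‖ζ‖ = 1 := hζ.norm'_eq_one (by norm_num)
  obtain ⟨C, hC⟩ := glob3 (s := 2 * q) hq.le (by linarith) (by linarith) le_rfl hζ
  have iM : Integrable (fun x => ‖f x‖ ^ (2 * q) * (‖g x‖ / ‖f x‖) ^ 2) μ := by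
    refine (hf.add hg).mono' (AEMeasurable.aestronglyMeasurable (by fun_prop))
      (Eventually.of_forall fun x => ?_)
    rw [Real.norm_of_nonneg (by positivity)]
    exact mixn (norm_nonneg _) (norm_nonneg _) (by push_cast; linarith)
  have iN : Integrable (fun x => ‖f x‖ ^ (2 * q) * (‖g x‖ / ‖f x‖) ^ 4) μ := by
    refine (hf.add hg).mono' (AEMeasurable.aestronglyMeasurable (by fun_prop))
      (Eventually.of_forall fun x => ?_)
    rw [Real.norm_of_nonneg (by positivity)]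
    exact mixn (norm_nonneg _) (norm_nonneg _) (by push_cast; linarith)
  set n := ∫ x, ‖f x‖ ^ (2 * q) * (‖g x‖ / ‖f x‖) ^ 4 ∂μ with hn
  have aa : ∀ t : ℝ, Integrable (fun x => ‖f x‖ ^ (2 * q) + q ^ 2 * t ^ 2 *
      (‖f x‖ ^ (2 * q) * (‖g x‖ / ‖f x‖) ^ 2)) μ := fun t => hf.add (iM.const_mul _)
  have m0 : ∫ x, ‖f x‖ ^ (2 * q) ∂μ = 1 := by
    have := H 0 le_rfl 0 (by simp)
    rw [Real.zero_rpow (by linarith)] at this
    simpa using this
  set m := ∫ x, ‖f x‖ ^ (2 * q) * (‖g x‖ / ‖f x‖) ^ 2 ∂μ with hm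
  set J := ∫ x, (‖f x‖ ^ (2 * q) + ‖g x‖ ^ (2 * q)) ∂μ
  have L : ∀ v : ℝ, 0 ≤ v → 1 + q ^ 2 * (v * (1 + v)) * m +
      (q * (q - 1) / 2) ^ 2 * (v * (1 + v)) ^ 2 * n ≤ (1 + v) ^ (2 * q) + v ^ (2 * q) := by
    intro v hv
    obtain ⟨t, ht, tv⟩ : ∃ t : ℝ, 0 ≤ t ∧ t ^ 2 = v * (1 + v) :=
      ⟨√(v * (1 + v)), Real.sqrt_nonneg _, Real.sq_sqrt (by positivity)⟩
    have sw := intervalIntegral_integral_swap (μ := μ) (a := 0) (b := 2 * Real.pi)
      (f := fun θ x => ‖f x + circleMap 0 1 θ * (t * g x)‖ ^ (2 * q)) ?_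
    · have i1 : Integrable (fun x => ∫ θ in (0 : ℝ)..2 * Real.pi,
          ‖f x + circleMap 0 1 θ * (t * g x)‖ ^ (2 * q)) μ := by
        by_contra hn'
        rw [integral_undef hn', intervalIntegral.integral_congr (g := fun _ =>
          (1 + v) ^ (2 * q) + v ^ (2 * q)) fun θ _ => by
            simp only [← mul_assoc]
            exact H v hv _ (by simp [tv, abs_of_nonneg ht])] at sw
        simp only [intervalIntegral.integral_const, sub_zero, smul_eq_mul] at sw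
        exact absurd sw (by positivity)
      rw [intervalIntegral.integral_congr (g := fun _ =>
          (1 + v) ^ (2 * q) + v ^ (2 * q)) fun θ _ => by
            simp only [← mul_assoc]
            exact H v hv _ (by simp [tv, abs_of_nonneg ht])] at sw
      simp only [intervalIntegral.integral_const, sub_zero, smul_eq_mul] at sw
      have le := integral_mono (((aa t).add (iN.const_mul ((q * (q - 1) / 2) ^ 2 *
        (t ^ 2) ^ 2))).const_mul (2 * Real.pi)) i1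
        fun x => le_of_eq_of_le (by
          simp only [Pi.add_apply, norm_mul, norm_real, Real.norm_of_nonneg ht]; ring)
          (circ5 hq.le (by linarith) (f x) (t * g x))
      simp only [Pi.add_apply] at le
      rw [← sw, integral_const_mul, integral_add (aa t) (iN.const_mul _),
        integral_add hf (iM.const_mul _), integral_const_mul, integral_const_mul, m0, tv]
        at le
      exact le_of_mul_le_mul_left le Real.two_pi_pos
    · have : IsFiniteMeasure (volume.restrict (Set.uIoc (0 : ℝ) (2 * Real.pi))) :=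
        ⟨by simp [Set.uIoc]⟩
      have mf' := mf.comp_snd (μ := volume.restrict (Set.uIoc (0 : ℝ) (2 * Real.pi)))
      have mg' := mg.comp_snd (μ := volume.restrict (Set.uIoc (0 : ℝ) (2 * Real.pi)))
      refine ((hB t).comp_snd _).mono' (AEMeasurable.aestronglyMeasurable ?_)
        (Eventually.of_forall fun y => ?_)
      · exact (mf'.add (((measurable_circleMap 0 1).comp measurable_fst).aemeasurable.mul
          (mg'.const_mul _))).norm.pow_const _
      · refine (Real.norm_of_nonneg (Real.rpow_nonneg (norm_nonneg _) _)).trans_le ?_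
        refine Real.rpow_le_rpow (norm_nonneg _) ((norm_add_le _ _).trans_eq ?_) (by linarith)
        rw [norm_mul]; simp
  have U : ∀ v : ℝ, 0 < v → v * (1 + v) ≤ 1 → 9 * ((1 + v) ^ (2 * q) + v ^ (2 * q)) ≤
      9 * (1 + q ^ 2 * (v * (1 + v)) * m + (q * (q - 1) / 2) ^ 2 * (v * (1 + v)) ^ 2 * n) +
      C * (v * (1 + v)) ^ q * J := by
    intro v hv hv1
    obtain ⟨t, ht, tv⟩ : ∃ t : ℝ, 0 < t ∧ t ^ 2 = v * (1 + v) :=
      ⟨√(v * (1 + v)), Real.sqrt_pos.2 (by positivity), Real.sq_sqrt (by positivity)⟩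
    have i1 : ∀ j ∈ range 9, Integrable (fun x => ‖f x + ζ ^ j * t * g x‖ ^ (2 * q)) μ :=
      fun j _ => hI _
    have le := integral_mono (integrable_finset_sum _ i1)
      ((((aa t).add (iN.const_mul ((q * (q - 1) / 2) ^ 2 * (t ^ 2) ^ 2))).const_mul 9).add
        ((hf.add hg).const_mul (C * t ^ (2 * q)))) fun x => by
        have := (abs_le.1 (hC (f x) (g x) t ht (by nlinarith))).2
        simp only [sum_range_succ _ 2, sum_range_succ _ 1, sum_range_one, cf_eq, prod_range_succ, range_zero,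
          prod_empty] at this
        simp only [Pi.add_apply]
        norm_num [Nat.factorial] at this
        linarith
    simp only [Pi.add_apply] at le
    have a1 : Integrable (fun x => 9 * (‖f x‖ ^ (2 * q) + q ^ 2 * t ^ 2 *
      (‖f x‖ ^ (2 * q) * (‖g x‖ / ‖f x‖) ^ 2) + (q * (q - 1) / 2) ^ 2 * (t ^ 2) ^ 2 *
      (‖f x‖ ^ (2 * q) * (‖g x‖ / ‖f x‖) ^ 4))) μ := ((aa t).add (iN.const_mul _)).const_mul 9
    have a2 : Integrable (fun x => C * t ^ (2 * q) * (‖f x‖ ^ (2 * q) + ‖g x‖ ^ (2 * q))) μ :=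
      (hf.add hg).const_mul _
    rw [integral_finset_sum _ i1, sum_congr rfl fun j _ => H v hv.le _ (by
        rw [norm_mul, norm_pow, h1, one_pow, one_mul, norm_real, Real.norm_of_nonneg ht.le, tv]),
      sum_const, card_range, nsmul_eq_mul, integral_add a1 a2, integral_const_mul, integral_const_mul,
      integral_add (aa t) (iN.const_mul _), integral_add hf (iM.const_mul _), integral_const_mul,
      integral_const_mul, m0, Real.rpow_mul ht.le, Real.rpow_two,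
      tv] at le
    exact_mod_cast le
  obtain ⟨K, hK⟩ := ((Real.one_add_rpow_hasFPowerSeriesOnBall_zero
    (a := 2 * q)).hasFPowerSeriesAt.isBigO_sub_partialSum_pow 4).bound
  have ch : ∀ k : ℕ, Ring.choose (2 * q) k = (∏ j ∈ range k, (2 * q - j)) / k.factorial := by
    intro k
    apply Complex.ofReal_injective
    have := dp ((2 * q : ℝ) : ℂ) k
    rw [Ring.choose_eq_smul, smul_eq_mul, inv_mul_eq_div]
    congr 2
    induction k with
    | zero => simp
    | succ n ih =>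
      rw [descPochhammer_succ_right, Polynomial.smeval_mul, ih (dp _ _), prod_range_succ,
        Polynomial.smeval_sub, Polynomial.smeval_X, Polynomial.smeval_natCast]
      simp
  have ps : ∀ v : ℝ, (binomialSeries ℝ (2 * q)).partialSum 4 v =
      1 + 2 * q * v + q * (2 * q - 1) * v ^ 2 + q * (2 * q - 1) * (2 * q - 2) / 3 * v ^ 3 :=
    fun v => by
    simp only [FormalMultilinearSeries.partialSum, sum_range_succ, binomialSeries_apply, ch,
      List.prod_ofFn, range_zero, sum_empty, prod_range_succ, prod_empty, Nat.factorial,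
      prod_const, card_univ, Fintype.card_fin, smul_eq_mul]
    push_cast
    ring
  generalize q ^ 2 = A at *
  generalize (q * (q - 1) / 2) ^ 2 = B at *
  have c1 : Continuous fun v : ℝ => v ^ (2 * q - 3) := Real.continuous_rpow_const (by linarith)
  have c2 : Continuous fun v : ℝ => v ^ (q - 2) := Real.continuous_rpow_const (by linarith)
  have c3 : Continuous fun v : ℝ => (1 + v) ^ q :=
    Continuous.rpow_const (by fun_prop) fun _ => Or.inr (by linarith)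
  have z1 : (0 : ℝ) ^ (2 * q - 3) = 0 := Real.zero_rpow (by linarith)
  have z2 : (0 : ℝ) ^ (q - 2) = 0 := Real.zero_rpow (by linarith)
  set d1 := 2 * q - A * m with e1
  set d2 := q * (2 * q - 1) - A * m - B * n with e2
  set d3 := q * (2 * q - 1) * (2 * q - 2) / 3 - 2 * B * n with e3
  have E : ∀ᶠ v in 𝓝[>] (0 : ℝ), 0 < v ∧
      0 ≤ v * (d1 + v * (d2 + v * (d3 + (K - B * n) * v + v ^ (2 * q - 3)))) ∧
      v * (d1 + v * (d2 + (d3 * v - (K + B * n) * v ^ 2 -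
        C * J / 9 * (v ^ (q - 2) * (1 + v) ^ q)))) ≤ 0 := by
    filter_upwards [Ioo_mem_nhdsGT (show (0 : ℝ) < 1 / 2 by norm_num), nhdsWithin_le_nhds hK]
      with v hv h3
    have h2 := L v hv.1.le
    have h4 := U v hv.1 (by nlinarith [hv.1, hv.2])
    rw [ps, zero_add, norm_pow, norm_norm, Real.norm_of_nonneg hv.1.le, Real.norm_eq_abs,
      abs_le] at h3
    have h7 := Real.rpow_nonneg hv.1.le (2 * q)
    have h5 : v ^ (2 * q) = v ^ 3 * v ^ (2 * q - 3) := by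
      rw [← Real.rpow_natCast, ← Real.rpow_add hv.1]; congr 1; push_cast; ring
    rw [Real.mul_rpow hv.1.le (by linarith [hv.1]), show v ^ q = v ^ 2 * v ^ (q - 2) by
      rw [← Real.rpow_two, ← Real.rpow_add hv.1]; congr 1; ring] at h4
    rw [h5] at h2
    refine ⟨hv.1, ?_, ?_⟩ <;> rw [e1, e2, e3] <;> linarith [h3.1, h3.2]
  have a1 : -d1 ≤ 0 := lim0 (G := fun v => v * (d2 + v * (d3 + (K - B * n) * v + v ^ (2 * q - 3))))
    (by fun_prop) (by simp) (E.mono fun v h => by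
      have := nonneg_of_mul_nonneg_right h.2.1 h.1
      linarith)
  have a2 : d1 ≤ 0 := lim0 (G := fun v => -(v * (d2 + (d3 * v - (K + B * n) * v ^ 2 -
        C * J / 9 * (v ^ (q - 2) * (1 + v) ^ q))))) (by fun_prop) (by simp) (E.mono fun v h => by
      have := nonpos_of_mul_nonpos_right h.2.2 h.1
      linarith)
  have a3 : d1 = 0 := by linarith
  simp only [a3, zero_add] at E
  have b1 : -d2 ≤ 0 := lim0 (G := fun v => v * (d3 + (K - B * n) * v + v ^ (2 * q - 3)))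
    (by fun_prop) (by simp) (E.mono fun v h => by
      have := nonneg_of_mul_nonneg_right (nonneg_of_mul_nonneg_right h.2.1 h.1) h.1
      linarith)
  have b2 : d2 ≤ 0 := lim0 (G := fun v => -(d3 * v - (K + B * n) * v ^ 2 -
        C * J / 9 * (v ^ (q - 2) * (1 + v) ^ q))) (by fun_prop) (by simp [z2]) (E.mono fun v h => by
      have := nonpos_of_mul_nonpos_right (nonpos_of_mul_nonpos_right h.2.2 h.1) h.1
      linarith)
  have b3 : d2 = 0 := by linarith
  simp only [b3, zero_add] at E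
  have b4 : -d3 ≤ 0 := lim0 (G := fun v => (K - B * n) * v + v ^ (2 * q - 3))
    (by fun_prop) (by simp [z1]) (E.mono fun v h => by
      have := nonneg_of_mul_nonneg_right (nonneg_of_mul_nonneg_right
        (nonneg_of_mul_nonneg_right h.2.1 h.1) h.1) h.1
      linarith)
  nlinarith [mul_pos (mul_pos (show 0 < q by linarith) (show 0 < q - 2 by linarith))
    (show 0 < 5 / 2 - q by linarith)]

end Pool.Agent.H95.Shp
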