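import Mathlib

set_option autoImplicit false

namespace Pool.Agent.H95.ShpDefs
open Matrix

/-- The Schatten `p`-norm of a complex `2 × 2` matrix (an operator on the Hilbert space `ℂ²`):
the `ℓ_p`-norm of its singular values, the square roots of the eigenvalues of `Aᴴ A`. -/
noncomputable def schatten (p : ℝ) (A : Matrix (Fin 2) (Fin 2) ℂ) : ℝ :=
  (∑ i, √((isHermitian_conjTranspose_mul_self A).eigenvalues i) ^ p) ^ (1 / p)

end Pool.Agent.H95.ShpDefs
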