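import Pool.Agent.H95.Shp5
import Pool.Agent.H95.ShpDefs

set_option autoImplicit false

namespace Pool.Agent.H95.Shp6
open Pool.Agent.H95.ShpDefs Pool.Agent.H95.Shp MeasureTheory Matrix

theorem sv (p u : ℝ) (z : ℂ) (hz : ‖z‖ = Real.exp u - Real.exp (-u))
    (A : Matrix (Fin 2) (Fin 2) ℂ) (hA : A = !![1, z; 0, 1]) :
    ∑ i, √((isHermitian_conjTranspose_mul_self A).eigenvalues i) ^ p =
      Real.exp (p * u) + Real.exp (-p * u) := by
  have h1 := (isHermitian_conjTranspose_mul_self A).trace_eq_sum_eigenvalues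
  have h2 := (isHermitian_conjTranspose_mul_self A).det_eq_prod_eigenvalues
  rw [Fin.sum_univ_two] at h1 ⊢
  rw [Fin.prod_univ_two] at h2
  generalize (isHermitian_conjTranspose_mul_self A).eigenvalues 0 = a at *
  generalize (isHermitian_conjTranspose_mul_self A).eigenvalues 1 = b at *
  have e1 : (Aᴴ * A).trace = ((2 + ‖z‖ ^ 2 : ℝ) : ℂ) := by
    rw [hA]
    simp [Matrix.trace, Matrix.mul_apply, Fin.sum_univ_two, Complex.conj_mul']
    ring
  have e2 : (Aᴴ * A).det = 1 := by
    rw [det_mul, det_conjTranspose, hA]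
    simp
  rw [e1] at h1
  rw [e2] at h2
  have k1 : 2 + ‖z‖ ^ 2 = a + b := Complex.ofReal_injective (by rw [h1]; push_cast; rfl)
  have k2 : 1 = a * b := Complex.ofReal_injective (by push_cast; exact h2)
  have hxy : Real.exp u * Real.exp (-u) = 1 := by rw [← Real.exp_add]; simp
  rw [hz] at k1
  have r1 : √(Real.exp u ^ 2) ^ p = Real.exp (p * u) := by
    rw [Real.sqrt_sq (Real.exp_pos _).le, ← Real.exp_mul, mul_comm]
  have r2 : √(Real.exp (-u) ^ 2) ^ p = Real.exp (-p * u) := by
    rw [Real.sqrt_sq (Real.exp_pos _).le, ← Real.exp_mul]; congr 1; ring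
  have k3 : a + b = Real.exp u ^ 2 + Real.exp (-u) ^ 2 := by linear_combination -k1 - 2 * hxy
  have k4 : (a - Real.exp u ^ 2) * (a - Real.exp (-u) ^ 2) = 0 := by
    linear_combination a * k3 + k2 + (Real.exp u * Real.exp (-u) + 1) * hxy
  rcases mul_eq_zero.1 k4 with h | h
  · rw [show a = Real.exp u ^ 2 by linarith, show b = Real.exp (-u) ^ 2 by linarith, r1, r2]
  · rw [show a = Real.exp (-u) ^ 2 by linarith, show b = Real.exp u ^ 2 by linarith, r1, r2,
      add_comm]

theorem sv2 (p v : ℝ) (hv : 0 ≤ v) (z : ℂ) (hz : ‖z‖ ^ 2 = v * (1 + v))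
    (A : Matrix (Fin 2) (Fin 2) ℂ) (hA : A = !![z, 1; 0, z]) :
    ∑ i, √((isHermitian_conjTranspose_mul_self A).eigenvalues i) ^ p = (1 + v) ^ p + v ^ p := by
  have h1 := (isHermitian_conjTranspose_mul_self A).trace_eq_sum_eigenvalues
  have h2 := (isHermitian_conjTranspose_mul_self A).det_eq_prod_eigenvalues
  rw [Fin.sum_univ_two] at h1 ⊢
  rw [Fin.prod_univ_two] at h2
  generalize (isHermitian_conjTranspose_mul_self A).eigenvalues 0 = a at *
  generalize (isHermitian_conjTranspose_mul_self A).eigenvalues 1 = b at *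
  have e1 : (Aᴴ * A).trace = ((1 + 2 * ‖z‖ ^ 2 : ℝ) : ℂ) := by
    rw [hA]
    simp [Matrix.trace, Matrix.mul_apply, Fin.sum_univ_two, Complex.conj_mul']
    ring
  have e2 : (Aᴴ * A).det = (((‖z‖ ^ 2) ^ 2 : ℝ) : ℂ) := by
    rw [det_mul, det_conjTranspose, hA]
    push_cast
    rw [← Complex.conj_mul']
    simp
    ring
  rw [e1] at h1
  rw [e2] at h2
  have k1 : 1 + 2 * ‖z‖ ^ 2 = a + b := Complex.ofReal_injective (by rw [h1]; push_cast; rfl)
  have k2 : (‖z‖ ^ 2) ^ 2 = a * b := Complex.ofReal_injective (by rw [h2]; push_cast; rfl)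
  rw [hz] at k1 k2
  have k4 : (a - (1 + v) ^ 2) * (a - v ^ 2) = 0 := by linear_combination k2 - a * k1
  rcases mul_eq_zero.1 k4 with h | h
  · rw [show a = (1 + v) ^ 2 by linarith, show b = v ^ 2 by linarith, Real.sqrt_sq hv,
      Real.sqrt_sq (by linarith)]
  · rw [show a = v ^ 2 by linarith, show b = (1 + v) ^ 2 by linarith, Real.sqrt_sq hv,
      Real.sqrt_sq (by linarith), add_comm]

theorem fails (p : ℝ) (hp : (2 < p ∧ p < 1 + √5) ∨ (4 < p ∧ p < 5) ∨ 8 ≤ p) :
    ∃ A B : Matrix (Fin 2) (Fin 2) ℂ, ¬∃ f g : ℝ → ℂ,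
      MemLp f (ENNReal.ofReal p) (volume.restrict (Set.Ioo 0 1)) ∧
      MemLp g (ENNReal.ofReal p) (volume.restrict (Set.Ioo 0 1)) ∧
      ∀ α β : ℂ, schatten p (α • A + β • B) =
        (∫ x in Set.Ioo (0 : ℝ) 1, ‖α * f x + β * g x‖ ^ p) ^ (1 / p) := by
  refine ⟨1, !![0, 1; 0, 0], fun ⟨f, g, hf, hg, h⟩ => ?_⟩
  obtain ⟨q, rfl⟩ : ∃ q, p = 2 * q := ⟨p / 2, by ring⟩
  have hq : 0 < q := by rcases hp with h | h | h <;> linarith [h]
  have I : ∀ {E : Type} [NormedAddCommGroup E] (F : ℝ → E),
      MemLp F (ENNReal.ofReal (2 * q)) (volume.restrict (Set.Ioo 0 1)) →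
      Integrable (fun x => ‖F x‖ ^ (2 * q)) (volume.restrict (Set.Ioo 0 1)) := fun F hF => by
    have := hF.integrable_norm_rpow (by simp; linarith) ENNReal.ofReal_ne_top
    rwa [ENNReal.toReal_ofReal (by linarith)] at this
  rcases hp with hp | hp | hp
  · refine core4 (q := q) (by linarith [hp.1])
      (by
        have := (Real.lt_sqrt (show 0 ≤ 2 * q - 1 by linarith [hp.1])).1
          (show 2 * q - 1 < √5 by linarith [hp.2])
        nlinarith) hg.1.aemeasurable
      hf.1.aemeasurable (I g hg) (I f hf) (fun z => I _ (hg.add (hf.const_mul z)))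
      (fun z => (I _ (hg.norm.add (hf.const_mul z).norm)).congr
        (Filter.Eventually.of_forall fun x => ?_)) fun v hv z hz => ?_
    · simp only [Pi.add_apply]
      rw [Real.norm_of_nonneg (by positivity)]
    have h1 := h z 1
    rw [schatten, sv2 (2 * q) v hv z hz _ (by ext i j; fin_cases i <;> fin_cases j <;> simp),
      Real.rpow_left_inj (by positivity) (integral_nonneg fun x => by positivity)
        (by positivity)] at h1
    simpa [add_comm] using h1.symm
  · refine core5 (q := q) (by linarith [hp.1])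
      (by linarith [hp.2]) hg.1.aemeasurable
      hf.1.aemeasurable (I g hg) (I f hf) (fun z => I _ (hg.add (hf.const_mul z)))
      (fun z => (I _ (hg.norm.add (hf.const_mul z).norm)).congr
        (Filter.Eventually.of_forall fun x => ?_)) fun v hv z hz => ?_
    · simp only [Pi.add_apply]
      rw [Real.norm_of_nonneg (by positivity)]
    have h1 := h z 1
    rw [schatten, sv2 (2 * q) v hv z hz _ (by ext i j; fin_cases i <;> fin_cases j <;> simp),
      Real.rpow_left_inj (by positivity) (integral_nonneg fun x => by positivity)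
        (by positivity)] at h1
    simpa [add_comm] using h1.symm
  refine core2 (q := q) (by linarith) hf.1.aemeasurable hg.1.aemeasurable (I f hf) (I g hg)
    (fun z => I _ (hf.add (hg.const_mul z))) fun u _ z hz => ?_
  have h1 := h 1 z
  rw [schatten, sv (2 * q) u z hz _ (by ext i j; fin_cases i <;> fin_cases j <;> simp),
    Real.rpow_left_inj (by positivity) (integral_nonneg fun x => by positivity)
      (by positivity)] at h1
  simpa using h1.symm

end Pool.Agent.H95.Shp6
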