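import Mathlib

set_option autoImplicit false

namespace Pool.Agent.H95.Shq
open Matrix MeasureTheory

def J (y : Fin 4 → ℝ) : ℝ := 4 * y 0 * y 1 - y 2 ^ 2 - y 3 ^ 2
def D (h y : Fin 4 → ℝ) : ℝ := (h 0 * y 0 + h 1 * y 1 + h 2 * y 2 + h 3 * y 3) ^ 2

theorem rot {y z : Fin 4 → ℝ} (h : J y * J z < 0) : ∃ y' z' : Fin 4 → ℝ, J y' = 0 ∧
    J z' = J y + J z ∧ ∀ h, D h y' + D h z' = D h y + D h z := by
  have c : Continuous fun t : ℝ => J y * J (Real.cos t • y + Real.sin t • z) := by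
    unfold J; fun_prop
  obtain ⟨t, -, ht⟩ := intermediate_value_Icc' (show (0 : ℝ) ≤ Real.pi / 2 by positivity)
    c.continuousOn (show (0 : ℝ) ∈ _ from ⟨by simpa using h.le, by simpa using mul_self_nonneg _⟩)
  have hy : J y ≠ 0 := fun e => by simp [e] at h
  have h0 := (mul_eq_zero.1 ht).resolve_left hy
  have e := Real.sin_sq_add_cos_sq t
  refine ⟨_, Real.cos t • z - Real.sin t • y, h0, ?_, fun h => ?_⟩
  · simp only [J, Pi.add_apply, Pi.sub_apply, Pi.smul_apply, smul_eq_mul] at h0 ⊢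
    linear_combination -h0 + (4 * y 0 * y 1 - y 2 ^ 2 - y 3 ^ 2 +
      (4 * z 0 * z 1 - z 2 ^ 2 - z 3 ^ 2)) * e
  · simp only [D, Pi.add_apply, Pi.sub_apply, Pi.smul_apply, smul_eq_mul]
    linear_combination ((h 0 * y 0 + h 1 * y 1 + h 2 * y 2 + h 3 * y 3) ^ 2 +
      (h 0 * z 0 + h 1 * z 1 + h 2 * z 2 + h 3 * z 3) ^ 2) * e

theorem sz (n : ℕ) : ∀ s : Multiset (Fin 4 → ℝ), s.card = n → (s.map J).sum = 0 →
    ∃ l : List (Fin 4 → ℝ), (∀ y ∈ l, J y = 0) ∧ ∀ h, (l.map (D h)).sum = (s.map (D h)).sum := by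
  induction n with
  | zero => intro s hs _; rw [Multiset.card_eq_zero.1 hs]; exact ⟨[], by simp, by simp⟩
  | succ n ih =>
    intro s hs h
    obtain ⟨y, hy⟩ := Multiset.card_pos_iff_exists_mem.1 (show 0 < s.card by omega)
    obtain ⟨r, rfl⟩ := Multiset.exists_cons_of_mem hy
    simp only [Multiset.map_cons, Multiset.sum_cons, Multiset.card_cons] at h hs ⊢
    by_cases h0 : J y = 0
    · obtain ⟨l, h1, h2⟩ := ih r (by omega) (by linarith)
      exact ⟨y :: l, by simpa [h0] using h1, fun h => by simp [h2]⟩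
    have : ∃ z ∈ r, J y * J z < 0 := by
      by_contra hn
      push Not at hn
      have := Multiset.sum_nonneg (s := r.map fun z => J y * J z) (by simpa using hn)
      rw [Multiset.sum_map_mul_left, show (r.map J).sum = -J y by linarith] at this
      exact h0 (by nlinarith)
    obtain ⟨z, hz, hyz⟩ := this
    obtain ⟨r, rfl⟩ := Multiset.exists_cons_of_mem hz
    obtain ⟨y', z', a1, a2, a3⟩ := rot hyz
    simp only [Multiset.map_cons, Multiset.sum_cons, Multiset.card_cons] at h hs ⊢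
    obtain ⟨l, h1, h2⟩ := ih (z' ::ₘ r) (by simp; omega) (by simp; linarith)
    exact ⟨y' :: l, by simpa [a1] using h1, fun h => by simp [h2]; linarith [a3 h]⟩

def hv (α β : ℂ) : Fin 4 → ℝ :=
  ![Complex.normSq α, Complex.normSq β, ((starRingEnd ℂ) α * β).re, ((starRingEnd ℂ) α * β).im]

theorem light {y : Fin 4 → ℝ} (h : J y = 0) :
    ∃ ab : ℂ × ℂ, ∀ α β, D (hv α β) y = ‖α * ab.1 + β * ab.2‖ ^ 4 := by
  have key : ∀ y : Fin 4 → ℝ, J y = 0 → 0 ≤ y 0 → 0 ≤ y 1 →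
      ∃ ab : ℂ × ℂ, ∀ α β, D (hv α β) y = ‖α * ab.1 + β * ab.2‖ ^ 4 := by
    intro y h h0 h1
    unfold J at h
    rcases h0.eq_or_lt with h0 | h0
    · refine ⟨(0, √(y 1)), fun α β => ?_⟩
      have e2 : y 2 = 0 := by rw [← h0] at h; nlinarith
      have e3 : y 3 = 0 := by rw [← h0] at h; nlinarith
      rw [show ∀ x : ℝ, x ^ 4 = (x ^ 2) ^ 2 from fun x => by ring, ← Complex.normSq_eq_norm_sq]
      simp [D, hv, e2, e3, ← h0, h1]
    · obtain ⟨r, hr, e⟩ : ∃ r : ℝ, 0 < r ∧ y 0 = r ^ 2 :=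
        ⟨√(y 0), Real.sqrt_pos.2 h0, (Real.sq_sqrt h0.le).symm⟩
      refine ⟨(r, ⟨y 2 / (2 * r), -y 3 / (2 * r)⟩), fun α β => ?_⟩
      have e1 : y 1 = (y 2 ^ 2 + y 3 ^ 2) / (4 * r ^ 2) := by
        rw [eq_div_iff (by positivity), ← e]; linarith
      rw [show ∀ x : ℝ, x ^ 4 = (x ^ 2) ^ 2 from fun x => by ring, ← Complex.normSq_eq_norm_sq, D, e, e1]
      congr 1
      simp [hv, Complex.normSq_apply]
      field_simp
      ring
  have hp : 0 ≤ y 0 * y 1 := by unfold J at h; nlinarith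
  rcases mul_nonneg_iff.1 hp with ⟨a, b⟩ | ⟨a, b⟩
  · exact key y h a b
  · obtain ⟨ab, e⟩ := key (-y) (by simpa [J] using h) (by simpa using a) (by simpa using b)
    exact ⟨ab, fun α β => by rw [← e]; simp only [D, Pi.neg_apply]; ring⟩

theorem stepf (N : ℕ) (φ : ℕ → ℝ) :
    ∫ x in Set.Ioo (0 : ℝ) 1, φ ⌊(N + 1 : ℝ) * x⌋₊ = (∑ k ∈ Finset.range (N + 1), φ k) / (N + 1) := by
  have hN : (0 : ℝ) < N + 1 := by positivity
  have fl : ∀ k : ℕ, ∀ x ∈ Set.Ioo ((k : ℝ) / (N + 1)) (((k + 1 : ℕ) : ℝ) / (N + 1)),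
      φ ⌊(N + 1 : ℝ) * x⌋₊ = φ k := fun k x hx => by
    have h1 := (div_lt_iff₀' hN).1 hx.1
    have h2 := (lt_div_iff₀' hN).1 hx.2
    rw [(Nat.floor_eq_iff (le_trans (by positivity) h1.le)).2 ⟨h1.le, by exact_mod_cast h2⟩]
  have le : ∀ k : ℕ, (k : ℝ) / (N + 1) ≤ ((k + 1 : ℕ) : ℝ) / (N + 1) := fun k => by
    gcongr; omega
  have := intervalIntegral.sum_integral_adjacent_intervals (μ := volume) (n := N + 1)
    (a := fun k : ℕ => (k : ℝ) / (N + 1)) (f := fun x => φ ⌊(N + 1 : ℝ) * x⌋₊) fun k _ =>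
      (intervalIntegrable_iff_integrableOn_Ioo_of_le (le k)).2
        ((integrableOn_const (by simp)).congr_fun (fun x hx => (fl k x hx).symm) measurableSet_Ioo)
  rw [← integral_Ioc_eq_integral_Ioo, ← intervalIntegral.integral_of_le zero_le_one]
  simp only [Nat.cast_zero, zero_div] at this
  rw [show ((N + 1 : ℕ) : ℝ) / (N + 1) = 1 by push_cast; exact div_self hN.ne'] at this
  rw [← this, Finset.sum_div]
  refine Finset.sum_congr rfl fun k _ => ?_
  rw [intervalIntegral.integral_of_le (le k), integral_Ioc_eq_integral_Ioo,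
    setIntegral_congr_fun measurableSet_Ioo (fl k), setIntegral_const,
    Real.volume_real_Ioo_of_le (le k)]
  push_cast
  rw [smul_eq_mul]
  field_simp
  ring

variable {n : ℕ}

theorem ip (M N : Matrix (Fin n) (Fin n) ℂ) :
    ∑ x : Fin n × Fin n, ((M x.1 x.2).re * (N x.1 x.2).re + (M x.1 x.2).im * (N x.1 x.2).im) =
      (M * Nᴴ).trace.re := by
  simp [Fintype.sum_prod_type, Matrix.trace, Matrix.mul_apply]

def fam (P R S : Matrix (Fin n) (Fin n) ℂ) : Multiset (Fin 4 → ℝ) :=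
  (Finset.univ.val.map fun x : Fin n × Fin n => ![(P x.1 x.2).re, (R x.1 x.2).re,
    ((S + Sᴴ) x.1 x.2).re, ((Complex.I • (S - Sᴴ)) x.1 x.2).re]) +
  Finset.univ.val.map fun x : Fin n × Fin n => ![(P x.1 x.2).im, (R x.1 x.2).im,
    ((S + Sᴴ) x.1 x.2).im, ((Complex.I • (S - Sᴴ)) x.1 x.2).im]

theorem famJ (P R S : Matrix (Fin n) (Fin n) ℂ) :
    ((fam P R S).map J).sum = 4 * (P * Rᴴ).trace.re - 2 * (S * Sᴴ).trace.re -
      2 * (Sᴴ * Sᴴᴴ).trace.re := by
  simp only [fam, Multiset.map_add, Multiset.sum_add, Multiset.map_map, ← ip, Finset.mul_sum,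
    ← Finset.sum_sub_distrib]
  rw [← Finset.sum_eq_multiset_sum, ← Finset.sum_eq_multiset_sum, ← Finset.sum_add_distrib]
  refine Finset.sum_congr rfl fun x _ => ?_
  simp [J]
  ring

theorem famD (P R S H : Matrix (Fin n) (Fin n) ℂ) (α β : ℂ)
    (hH : H = ((starRingEnd ℂ) α * α) • P + ((starRingEnd ℂ) β * β) • R +
      ((starRingEnd ℂ) α * β) • S + ((starRingEnd ℂ) β * α) • Sᴴ) :
    ((fam P R S).map (D (hv α β))).sum = (H * Hᴴ).trace.re := by
  simp only [fam, Multiset.map_add, Multiset.sum_add, Multiset.map_map, ← ip]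
  rw [← Finset.sum_eq_multiset_sum, ← Finset.sum_eq_multiset_sum, ← Finset.sum_add_distrib]
  refine Finset.sum_congr rfl fun x _ => ?_
  simp [D, hv, hH, Complex.normSq_apply]
  ring

theorem sq_eig {H : Matrix (Fin n) (Fin n) ℂ} (h : H.IsHermitian) :
    ∑ i, h.eigenvalues i ^ 2 = (H * H).trace.re := by
  conv_rhs => rw [h.spectral_theorem]
  rw [← map_mul, Unitary.conjStarAlgAut_apply, trace_mul_cycle, Unitary.coe_star_mul_self, one_mul,
    diagonal_mul_diagonal, trace_diagonal]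
  simp [sq]

end Pool.Agent.H95.Shq
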