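import Pool.Agent.H95.L2

set_option autoImplicit false
open Filter Topology

namespace Pool.Agent.H95.SimIso
open Pool.Agent.H95.L2

noncomputable def unitDiag (w : ℕ → ℂ) (h1 : ∀ i, ‖w i‖ ≤ 2) (h2 : ∀ i, ‖(w i)⁻¹‖ ≤ 2)
    (h0 : ∀ i, w i ≠ 0) : (H ℕ →L[ℂ] H ℕ)ˣ where
  val := diag w (by norm_num) h1
  inv := diag (fun i => (w i)⁻¹) (by norm_num) h2
  val_inv := by ext x i; simp [h0 i]
  inv_val := by ext x i; simp [h0 i]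

noncomputable def l (i : ℕ) : ℂ := if i = 0 then 2 else if i = 1 then 1 / 2 else 1
noncomputable def m (i : ℕ) : ℂ := if i = 0 then 2 else if i = 1 then 1 else if Even i then 1 else 2

noncomputable def L : (H ℕ →L[ℂ] H ℕ)ˣ := unitDiag l
  (fun i => by unfold l; split_ifs <;> norm_num)
  (fun i => by unfold l; split_ifs <;> norm_num)
  (fun i => by unfold l; split_ifs <;> norm_num)

noncomputable def M : (H ℕ →L[ℂ] H ℕ)ˣ := unitDiag m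
  (fun i => by unfold m; split_ifs <;> norm_num)
  (fun i => by unfold m; split_ifs <;> norm_num)
  (fun i => by unfold m; split_ifs <;> norm_num)

noncomputable def S : H ℕ →L[ℂ] H ℕ := fwd * fwd

theorem L_apply (x : H ℕ) (i : ℕ) : (L : H ℕ →L[ℂ] H ℕ) x i = l i * x i := by
  simp [L, unitDiag]
theorem Li_apply (x : H ℕ) (i : ℕ) : (↑L⁻¹ : H ℕ →L[ℂ] H ℕ) x i = (l i)⁻¹ * x i := by
  simp [L, unitDiag]
theorem M_apply (x : H ℕ) (i : ℕ) : (M : H ℕ →L[ℂ] H ℕ) x i = m i * x i := by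
  simp [M, unitDiag]
theorem Mi_apply (x : H ℕ) (i : ℕ) : (↑M⁻¹ : H ℕ →L[ℂ] H ℕ) x i = (m i)⁻¹ * x i := by
  simp [M, unitDiag]

theorem hS (x : H ℕ) : ‖S x‖ = ‖x‖ := by simp [S, norm_fwd]

theorem LS : (L : H ℕ →L[ℂ] H ℕ) * S = S := by
  ext x i
  rcases i with _ | _ | i <;> simp [L_apply, S, l]

theorem LiS : (↑L⁻¹ : H ℕ →L[ℂ] H ℕ) * S = S := by
  ext x i
  rcases i with _ | _ | i <;> simp [Li_apply, S, l]

theorem TM : S * (L : H ℕ →L[ℂ] H ℕ) = (↑M⁻¹ : H ℕ →L[ℂ] H ℕ) * S * M := by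
  ext x i
  rcases i with _ | _ | _ | _ | i
  · simp [S, Mi_apply]
  · simp [S, Mi_apply]
  · simp [S, Mi_apply, M_apply, L_apply, l, m]
  · have : ¬ Even 3 := by decide
    simp [S, Mi_apply, M_apply, L_apply, l, m, this]
  · have : Even (i + 1 + 1 + 1 + 1) ↔ Even (i + 1 + 1) := by
      simp [Nat.even_add_one]
    simp only [S, Mi_apply, M_apply, L_apply, l, m, mul_apply_eq_comp, fwd_succ, this]
    by_cases h : Even (i + 1 + 1) <;> simp [h]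

theorem pow_eq (n : ℕ) : (S * (L : H ℕ →L[ℂ] H ℕ)) ^ (n + 1) = S ^ (n + 1) * L := by
  induction n with
  | zero => simp
  | succ n ih =>
    rw [pow_succ, ih, mul_assoc, ← mul_assoc (L : H ℕ →L[ℂ] H ℕ), LS, ← mul_assoc, ← pow_succ]

theorem hSn (n : ℕ) (x : H ℕ) : ‖(S ^ n) x‖ = ‖x‖ := by
  induction n with
  | zero => simp
  | succ n ih => rw [pow_succ', mul_apply_eq_comp, hS, ih]

theorem main :
    ¬ (∀ (H : Type) [NormedAddCommGroup H] [InnerProductSpace ℂ H] [CompleteSpace H]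
      (T S : H →L[ℂ] H) (L : (H →L[ℂ] H)ˣ),
      (∀ x : H, ‖S x‖ = ‖x‖) →
      T = (↑L⁻¹ : H →L[ℂ] H) * S * (↑L : H →L[ℂ] H) →
      (∀ x : H, Tendsto (fun n : ℕ => ‖(T ^ n) x‖) atTop (𝓝 ‖(↑L : H →L[ℂ] H) x‖)) →
      ‖(↑L : H →L[ℂ] H)‖ * ‖(↑L⁻¹ : H →L[ℂ] H)‖ =
        sInf {r : ℝ | ∃ (M : (H →L[ℂ] H)ˣ) (S' : H →L[ℂ] H),
          (∀ x : H, ‖S' x‖ = ‖x‖) ∧
          T = (↑M⁻¹ : H →L[ℂ] H) * S' * (↑M : H →L[ℂ] H) ∧
          r = ‖(↑M : H →L[ℂ] H)‖ * ‖(↑M⁻¹ : H →L[ℂ] H)‖}) := by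
  intro h
  have h1 := h (H ℕ) (S * L) S L hS (by rw [LiS]) (fun x => by
    rw [← tendsto_add_atTop_iff_nat 1]
    simp only [pow_eq, mul_apply_eq_comp, hSn]
    exact tendsto_const_nhds)
  have h2 := csInf_le (s := {r : ℝ | ∃ (M : (H ℕ →L[ℂ] H ℕ)ˣ) (S' : H ℕ →L[ℂ] H ℕ),
          (∀ x : H ℕ, ‖S' x‖ = ‖x‖) ∧
          S * L = (↑M⁻¹ : H ℕ →L[ℂ] H ℕ) * S' * (↑M : H ℕ →L[ℂ] H ℕ) ∧
          r = ‖(↑M : H ℕ →L[ℂ] H ℕ)‖ * ‖(↑M⁻¹ : H ℕ →L[ℂ] H ℕ)‖})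
    ⟨0, by rintro r ⟨M, S', -, -, rfl⟩; positivity⟩ ⟨M, S, hS, TM, rfl⟩
  rw [← h1] at h2
  have a1 : 2 ≤ ‖(L : H ℕ →L[ℂ] H ℕ)‖ := by
    have := le_norm_diag l (K := 2) (by norm_num) (fun i => by unfold l; split_ifs <;> norm_num) 0
    exact le_trans (by simp [l]) this
  have a2 : 2 ≤ ‖(↑L⁻¹ : H ℕ →L[ℂ] H ℕ)‖ := by
    have := le_norm_diag (fun i => (l i)⁻¹) (K := 2) (by norm_num)
      (fun i => by unfold l; split_ifs <;> norm_num) 1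
    exact le_trans (by simp [l]) this
  have a3 : ‖(M : H ℕ →L[ℂ] H ℕ)‖ ≤ 2 :=
    norm_diag_le m (K := 2) (by norm_num) (fun i => by unfold m; split_ifs <;> norm_num)
  have a4 : ‖(↑M⁻¹ : H ℕ →L[ℂ] H ℕ)‖ ≤ 1 := by
    have := norm_diag_le (fun i => (m i)⁻¹) (K := 1) (by norm_num)
      (fun i => by unfold m; split_ifs <;> norm_num)
    exact this
  nlinarith [norm_nonneg (M : H ℕ →L[ℂ] H ℕ), norm_nonneg (↑M⁻¹ : H ℕ →L[ℂ] H ℕ)]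

end Pool.Agent.H95.SimIso
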