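import Pool.Agent.H95.SmallTriDefs

set_option autoImplicit false

namespace Pool.Agent.H95.SmallTri

open Metric RealInnerProductSpace

noncomputable def f (p : P) : P := ((1 + ‖p‖ ^ 2) / 2) • p

lemma norm_f (p : P) : ‖f p‖ = (1 + ‖p‖ ^ 2) / 2 * ‖p‖ := by
  rw [f, norm_smul, Real.norm_of_nonneg (by positivity)]

lemma f_inj : Function.Injective f := by
  intro p q h
  have h1 : ‖p‖ = ‖q‖ := by
    have := congrArg norm h
    rw [norm_f, norm_f] at this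
    have h2 : (‖p‖ - ‖q‖) * (1 + ‖p‖ ^ 2 + ‖p‖ * ‖q‖ + ‖q‖ ^ 2) = 0 := by linarith
    exact sub_eq_zero.1 ((mul_eq_zero.1 h2).resolve_right (by positivity))
  rw [f, f, h1] at h
  exact smul_right_injective _ (by positivity) h

noncomputable def g (p : closedBall (0 : P) 1) : closedBall (0 : P) 1 :=
  ⟨f p, by
    have := mem_closedBall_zero_iff.1 p.2
    rw [mem_closedBall_zero_iff, norm_f]
    nlinarith [norm_nonneg (p : P), pow_le_one₀ (n := 2) (norm_nonneg (p : P)) this]⟩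

lemma g_bij : Function.Bijective g := by
  refine ⟨fun p q h => Subtype.ext (f_inj (congrArg Subtype.val h)), fun q => ?_⟩
  have hq := mem_closedBall_zero_iff.1 q.2
  rcases eq_or_ne (q : P) 0 with h | h
  · exact ⟨q, Subtype.ext (by change f q = q; rw [h, f, smul_zero])⟩
  have n := norm_pos_iff.2 h
  obtain ⟨t, ⟨t0, t1⟩, ht⟩ := intermediate_value_Icc zero_le_one
    (f := fun t : ℝ => (1 + t ^ 2) / 2 * t) (by fun_prop) (show ‖(q : P)‖ ∈ _ from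
      ⟨by simp, by simpa using hq⟩)
  have e : ‖(t / ‖(q : P)‖) • (q : P)‖ = t := by
    rw [norm_smul, Real.norm_of_nonneg (by positivity), div_mul_cancel₀ _ n.ne']
  refine ⟨⟨(t / ‖(q : P)‖) • q, by rw [mem_closedBall_zero_iff, e]; exact t1⟩, Subtype.ext ?_⟩
  change f ((t / ‖(q : P)‖) • (q : P)) = q
  rw [f, e, smul_smul, ← mul_div_assoc, show (1 + t ^ 2) / 2 * t = ‖(q : P)‖ from ht,
    div_self n.ne', one_smul]

noncomputable def T : closedBall (0 : P) 1 ≃ₜ closedBall (0 : P) 1 :=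
  Continuous.homeoOfEquivCompactToT2 (f := Equiv.ofBijective g g_bij)
    (Continuous.subtype_mk (by unfold f; fun_prop) _)

lemma approx (p e : P) (s : ℝ) (hp : ‖p‖ ≤ 1) (he : ‖e‖ = 1) (s0 : 0 < s) (s1 : s ≤ 1 / 100) :
    ∃ r : P, ‖r‖ ≤ 1 / 50 ∧
      f (p + s • e) - f p = s • (((1 + ‖p‖ ^ 2) / 2) • e + ⟪p, e⟫ • p + r) := by
  refine ⟨(s * ⟪p, e⟫ + s ^ 2 / 2) • e + (s / 2) • p, ?_, ?_⟩
  · have h := abs_le.1 ((abs_real_inner_le_norm p e).trans (by rwa [he, mul_one] : _ ≤ (1 : ℝ)))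
    refine (norm_add_le _ _).trans ?_
    rw [norm_smul, norm_smul, he, mul_one, Real.norm_of_nonneg (by positivity : 0 ≤ s / 2)]
    have : ‖s * ⟪p, e⟫ + s ^ 2 / 2‖ ≤ 3 / 2 * s := abs_le.2 ⟨by nlinarith, by nlinarith⟩
    nlinarith
  · rw [f, f, norm_add_sq_real, norm_smul, he, real_inner_smul_right, Real.norm_of_nonneg s0.le]
    module

lemma near (X Y r r' : P) (hX : ‖X + r‖ = 1) (hY : ‖Y + r'‖ = 1) (hr : ‖r‖ ≤ 1 / 50)
    (hr' : ‖r'‖ ≤ 1 / 50) : |⟪X, Y⟫ - ⟪X + r, Y + r'⟫| ≤ 1 / 20 := by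
  have e : ⟪X, Y⟫ - ⟪X + r, Y + r'⟫ = ⟪r, r'⟫ - ⟪r, Y + r'⟫ - ⟪X + r, r'⟫ := by
    simp only [inner_add_left, inner_add_right]; ring
  have h1 := abs_le.1 (abs_real_inner_le_norm r r')
  have h2 := abs_le.1 (abs_real_inner_le_norm r (Y + r'))
  have h3 := abs_le.1 (abs_real_inner_le_norm (X + r) r')
  rw [hY] at h2
  rw [hX] at h3
  have := mul_le_mul hr hr' (norm_nonneg _) (by norm_num)
  rw [e, abs_le]
  constructor <;> linarith

lemma pyth (p e e' : P) (he : ‖e‖ = 1) (he' : ‖e'‖ = 1) (h : ⟪e, e'⟫ = 0) :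
    ‖p‖ ^ 2 = ⟪p, e⟫ ^ 2 + ⟪p, e'⟫ ^ 2 := by
  have a : ‖e‖ ^ 2 = 1 := by rw [he]; ring
  have b : ‖e'‖ ^ 2 = 1 := by rw [he']; ring
  simp only [EuclideanSpace.real_norm_sq_eq, PiLp.inner_apply, Fin.sum_univ_two, RCLike.inner_apply,
    conj_trivial] at *
  have d : (e 0 * e' 1 - e 1 * e' 0) ^ 2 = 1 := by
    linear_combination (e' 0 ^ 2 + e' 1 ^ 2) * a + b - (e' 0 * e 0 + e' 1 * e 1) * h
  linear_combination -(p 0 ^ 2 + p 1 ^ 2) * d + (e' 0 * p 0 + e' 1 * p 1) ^ 2 * a +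
    (e 0 * p 0 + e 1 * p 1) ^ 2 * b -
    (2 * (e 0 * p 0 + e 1 * p 1) * (e' 0 * p 0 + e' 1 * p 1)) * h

lemma fin (α β : ℝ) (h1 : |((1 + (α ^ 2 + β ^ 2)) / 2) ^ 2 + (1 + 2 * (α ^ 2 + β ^ 2)) * α ^ 2 - 1|
    ≤ 1 / 20) (h2 : |((1 + (α ^ 2 + β ^ 2)) / 2) ^ 2 + (1 + 2 * (α ^ 2 + β ^ 2)) * β ^ 2 - 1|
    ≤ 1 / 20) (h3 : |(1 + 2 * (α ^ 2 + β ^ 2)) * α * β| ≤ 1 / 20) : False := by
  obtain ⟨c, hc⟩ : ∃ c, c = 1 + 2 * (α ^ 2 + β ^ 2) := ⟨_, rfl⟩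
  rw [← hc, abs_le] at h1 h2 h3
  have a1 : (c * α ^ 2 - c * β ^ 2) ^ 2 ≤ (1 / 10) ^ 2 :=
    sq_le_sq' (by linarith [h1.1, h2.2]) (by linarith [h1.2, h2.1])
  have a2 : (c * α * β) ^ 2 ≤ (1 / 20) ^ 2 := sq_le_sq' h3.1 h3.2
  have a3 : c * α ^ 2 + c * β ^ 2 ≤ 3 / 20 := by
    refine (abs_le_of_sq_le_sq' ?_ (by norm_num)).2
    linarith
  have a4 : α ^ 2 + β ^ 2 ≤ 3 / 20 := by nlinarith [sq_nonneg α, sq_nonneg β]
  nlinarith [h1.1, h2.1, sq_nonneg α, sq_nonneg β]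

lemma core (p u v : P) (hp : ‖p‖ ≤ 1) (u0 : u ≠ 0) (v0 : v ≠ 0) (u1 : ‖u‖ < 1 / 100)
    (v1 : ‖v‖ < 1 / 100) (h : ⟪u, v⟫ = 0) (hu : ‖f (p + u) - f p‖ = ‖u‖)
    (hv : ‖f (p + v) - f p‖ = ‖v‖) (huv : ‖f (p + u) - f (p + v)‖ = ‖u - v‖) : False := by
  have h0 : ⟪f (p + u) - f p, f (p + v) - f p⟫ = 0 := by
    have a := norm_sub_sq_real (f (p + u) - f p) (f (p + v) - f p)
    have b := norm_sub_sq_real u v
    rw [sub_sub_sub_cancel_right, huv, hu, hv] at a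
    linarith
  have dec : ∀ u : P, u ≠ 0 → ∃ e : P, ‖e‖ = 1 ∧ u = ‖u‖ • e := fun u h =>
    ⟨‖u‖⁻¹ • u, norm_smul_inv_norm h, by
      rw [smul_smul, mul_inv_cancel₀ (norm_ne_zero_iff.2 h), one_smul]⟩
  obtain ⟨e, he, eu⟩ := dec u u0
  obtain ⟨e', he', ev⟩ := dec v v0
  have s0 := norm_pos_iff.2 u0
  have t0 := norm_pos_iff.2 v0
  generalize ‖u‖ = s at *
  generalize ‖v‖ = t at *
  subst eu ev
  obtain ⟨r, r1, r2⟩ := approx p e s hp he s0 u1.le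
  obtain ⟨r', r1', r2'⟩ := approx p e' t hp he' t0 v1.le
  rw [r2, norm_smul, Real.norm_of_nonneg s0.le, mul_eq_left₀ s0.ne'] at hu
  rw [r2', norm_smul, Real.norm_of_nonneg t0.le, mul_eq_left₀ t0.ne'] at hv
  rw [r2, r2', real_inner_smul_left, real_inner_smul_right, mul_eq_zero, mul_eq_zero] at h0
  rw [real_inner_smul_left, real_inner_smul_right, mul_eq_zero, mul_eq_zero] at h
  replace h0 := (h0.resolve_left s0.ne').resolve_left t0.ne'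
  replace h := (h.resolve_left s0.ne').resolve_left t0.ne'
  have n1 := near _ _ r r hu hu r1 r1
  have n2 := near _ _ r' r' hv hv r1' r1'
  have n3 := near _ _ r r' hu hv r1 r1'
  rw [real_inner_self_eq_norm_sq (_ + r), hu] at n1
  rw [real_inner_self_eq_norm_sq (_ + r'), hv] at n2
  rw [h0] at n3
  simp only [inner_add_left, inner_add_right, real_inner_smul_left, real_inner_smul_right]
    at n1 n2 n3
  simp only [real_inner_self_eq_norm_sq, he, he', h, real_inner_comm p,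
    pyth p e e' he he' h] at n1 n2 n3
  refine fin ⟪p, e⟫ ⟪p, e'⟫ ?_ ?_ ?_
  · convert n1 using 2; ring
  · convert n2 using 2; ring
  · convert n3 using 2; ring

theorem main : ∃ (T : closedBall (0 : P) 1 ≃ₜ closedBall (0 : P) 1) (ε : ℝ), 0 < ε ∧
    ∀ p₁ p₂ p₃ : closedBall (0 : P) 1, p₁ ≠ p₂ → p₁ ≠ p₃ →
      EuclideanGeometry.angle (p₂ : P) p₁ p₃ = Real.pi / 2 →
      dist p₁ p₂ < ε → dist p₁ p₃ < ε →
      ¬(dist (T p₁) (T p₂) = dist p₁ p₂ ∧ dist (T p₁) (T p₃) = dist p₁ p₃ ∧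
        dist (T p₂) (T p₃) = dist p₂ p₃) := by
  refine ⟨T, 1 / 100, by norm_num, fun p q r h1 h2 h3 h4 h5 ⟨h6, h7, h8⟩ => ?_⟩
  rw [dist_comm, Subtype.dist_eq, dist_eq_norm] at h4 h5
  rw [dist_comm, dist_comm p] at h6 h7
  simp only [Subtype.dist_eq, dist_eq_norm] at h6 h7 h8
  refine core p (q - p) (r - p) (mem_closedBall_zero_iff.1 p.2)
    (sub_ne_zero.2 fun h => h1 (Subtype.ext h.symm))
    (sub_ne_zero.2 fun h => h2 (Subtype.ext h.symm)) h4 h5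
    ((InnerProductGeometry.inner_eq_zero_iff_angle_eq_pi_div_two _ _).2 h3) ?_ ?_ ?_
  · rw [add_sub_cancel]; exact h6
  · rw [add_sub_cancel]; exact h7
  · rw [add_sub_cancel, add_sub_cancel, sub_sub_sub_cancel_right]; exact h8

end Pool.Agent.H95.SmallTri
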