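import Mathlib

set_option autoImplicit false

namespace Pool.Agent.H95.SmallTri

/-- The Euclidean plane. -/
abbrev P : Type := EuclideanSpace ℝ (Fin 2)

/-- The closed unit disk. -/
def Disk : Type := Metric.closedBall (0 : P) 1

instance : TopologicalSpace Disk := instTopologicalSpaceSubtype

/-- Euclidean distance of two points of the disk. -/
noncomputable def dd (p q : Disk) : ℝ := dist (p.1 : P) q.1

/-- The unoriented angle at `p` between `q` and `r`. -/
noncomputable def ang (q p r : Disk) : ℝ := EuclideanGeometry.angle (q.1 : P) p.1 r.1

end Pool.Agent.H95.SmallTri
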