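import Pool.Agent.H95.SmoothDefs

set_option autoImplicit false
open Filter Topology

namespace Pool.Agent.H95.Smooth
open Pool.Agent.H95.SmoothDefs

theorem exists_sqrt {R : Type*} [NormedRing R] [NormedAlgebra ℝ R] [CompleteSpace R]
    (P : Subalgebra ℝ R) (hP : IsClosed (P : Set R)) (hc : ∀ a ∈ P, ∀ b ∈ P, a * b = b * a)
    {a : R} (ha : a ∈ P) (h1 : ‖a‖ ≤ 1) : ∃ Y ∈ P, ‖Y‖ ≤ 1 ∧ (1 - Y) * (1 - Y) = 1 - a := by
  let Y : ℕ → R := fun n => (fun y => (1 / 2 : ℝ) • (a + y * y))^[n] 0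
  let y : ℕ → ℝ := fun n => (fun y => (1 / 2 : ℝ) * (1 + y * y))^[n] 0
  have hY : ∀ n, Y (n + 1) = (1 / 2 : ℝ) • (a + Y n * Y n) := fun n =>
    Function.iterate_succ_apply' _ _ _
  have hy : ∀ n, y (n + 1) = (1 / 2 : ℝ) * (1 + y n * y n) := fun n =>
    Function.iterate_succ_apply' _ _ _
  have hY0 : Y 0 = 0 := rfl
  have hy0 : y 0 = 0 := rfl
  have hm : ∀ n, Y n ∈ P := by
    intro n
    induction n with
    | zero => exact P.zero_mem
    | succ n ih => rw [hY]; exact P.smul_mem (P.add_mem ha (P.mul_mem ih ih)) _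
  have h2 : ∀ n, ‖Y n‖ ≤ y n ∧ y n ≤ 1 := by
    intro n
    induction n with
    | zero => simp [hY0, hy0]
    | succ n ih =>
      rw [hY, hy, norm_smul]
      have h3 := norm_add_le a (Y n * Y n)
      have h4 := norm_mul_le (Y n) (Y n)
      have h5 := norm_nonneg (Y n)
      rw [Real.norm_of_nonneg (by norm_num)]
      constructor <;> nlinarith [ih.1, ih.2]
  have h3 : ∀ n, ‖Y (n + 1) - Y n‖ ≤ y (n + 1) - y n := by
    intro n
    induction n with
    | zero => simpa [hY0, hy0] using (h2 1).1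
    | succ n ih =>
      have e : Y (n + 1 + 1) - Y (n + 1) = (1 / 2 : ℝ) • ((Y (n + 1) + Y n) * (Y (n + 1) - Y n)) := by
        conv_lhs => rw [hY (n + 1), hY n, ← smul_sub, ← hY n]
        congr 1
        rw [add_mul, mul_sub, mul_sub, hc _ (hm n) _ (hm (n + 1))]
        abel
      have e2 : y (n + 1 + 1) - y (n + 1) = (1 / 2) * ((y (n + 1) + y n) * (y (n + 1) - y n)) := by
        conv_lhs => rw [hy (n + 1), hy n, ← mul_sub, ← hy n]
        ring
      rw [e, e2, norm_smul, Real.norm_of_nonneg (by norm_num)]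
      gcongr
      refine (norm_mul_le _ _).trans (mul_le_mul ((norm_add_le _ _).trans
        (add_le_add (h2 _).1 (h2 _).1)) ih (norm_nonneg _) ?_)
      exact add_nonneg ((norm_nonneg _).trans (h2 _).1) ((norm_nonneg _).trans (h2 _).1)
  have h4 : Summable fun n => y (n + 1) - y n :=
    summable_of_sum_range_le (c := 1) (fun n => (norm_nonneg _).trans (h3 n)) fun n => by
      rw [Finset.sum_range_sub, hy0, sub_zero]; exact (h2 n).2
  obtain ⟨Z, hZ⟩ := cauchySeq_tendsto_of_complete (cauchySeq_of_dist_le_of_summable (f := Y) _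
    (fun n => by rw [dist_comm, dist_eq_norm]; exact h3 n) h4)
  refine ⟨Z, hP.mem_of_tendsto hZ (Eventually.of_forall hm),
    le_of_tendsto' hZ.norm fun n => (h2 n).1.trans (h2 n).2, ?_⟩
  have h5 : Z = (1 / 2 : ℝ) • (a + Z * Z) := by
    refine tendsto_nhds_unique ((tendsto_add_atTop_iff_nat 1).2 hZ) ?_
    simp only [hY]
    exact ((hZ.mul hZ).const_add a).const_smul _
  have h6 : a + Z * Z = Z + Z := by
    rw [← two_smul ℝ Z]
    conv_rhs => rw [h5, smul_smul]
    norm_num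
  rw [show a = Z + Z - Z * Z from eq_sub_of_add_eq h6]
  noncomm_ring

variable {X : Type*} [NormedAddCommGroup X] [NormedSpace ℂ X] {J : X → (X →L[ℂ] ℂ)}

theorem J_le (hJ : IsDualityMap J) (x y : X) : ‖J x y‖ ≤ ‖x‖ * ‖y‖ :=
  (J x).le_of_opNorm_le (hJ x).1.le y

theorem uniq (hX : Smooth X) (hJ : IsDualityMap J) (x : X) (f : X →L[ℂ] ℂ) (h1 : ‖f‖ ≤ ‖x‖)
    (h2 : f x = ((‖x‖ ^ 2 : ℝ) : ℂ)) : f = J x := by
  rcases eq_or_ne x 0 with rfl | hx
  · rw [norm_zero, norm_le_zero_iff] at h1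
    rw [h1, eq_comm, ← norm_eq_zero, (hJ 0).1, norm_zero]
  have hp : 0 < ‖x‖ := norm_pos_iff.2 hx
  have hc : ((‖x‖ : ℝ) : ℂ) ≠ 0 := by exact_mod_cast hp.ne'
  have key : ∀ g : X →L[ℂ] ℂ, ‖g‖ ≤ ‖x‖ → g x = ((‖x‖ ^ 2 : ℝ) : ℂ) →
      ‖((‖x‖ : ℂ))⁻¹ • g‖ = 1 ∧ (((‖x‖ : ℂ))⁻¹ • g) (((‖x‖ : ℂ))⁻¹ • x) = 1 := by
    intro g g1 g2
    have g3 : ‖x‖ ≤ ‖g‖ := by
      have := g.le_opNorm x
      rw [g2, Complex.norm_real, Real.norm_of_nonneg (by positivity), sq] at this
      exact le_of_mul_le_mul_right this hp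
    refine ⟨by simp [norm_smul, le_antisymm g1 g3, hp.ne'], ?_⟩
    simp only [smul_apply, map_smul, g2, smul_eq_mul]
    push_cast
    field_simp
  have := (hX (((‖x‖ : ℂ))⁻¹ • x) (by simp [norm_smul, hp.ne'])).unique (key f h1 h2)
    (key _ (hJ x).1.le (hJ x).2)
  exact smul_right_injective _ (inv_ne_zero hc) this

theorem J_cont1 (hX : Smooth X) (hJ : IsDualityMap J) (y : X) : Continuous fun x => J x y := by
  refine continuous_iff_continuousAt.2 fun x => tendsto_iff_ultrafilter _ _ _ |>.2 fun U hU => ?_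
  have hn : Tendsto (fun z : X => z) U (𝓝 x) := hU
  have ex : ∀ w, ∃ c, Tendsto (fun z => J z w) U (𝓝 c) := by
    intro w
    obtain ⟨c, -, hc⟩ := (isCompact_closedBall (0 : ℂ) ((‖x‖ + 1) * ‖w‖)).ultrafilter_le_nhds
      (U.map fun z => J z w) (by
        rw [le_principal_iff, Ultrafilter.coe_map, mem_map]
        filter_upwards [hn.norm.eventually (ge_mem_nhds (lt_add_one ‖x‖))] with z hz
        rw [Set.mem_preimage, mem_closedBall_zero_iff]
        exact (J_le hJ z w).trans (by gcongr))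
    exact ⟨c, hc⟩
  choose ξ hξ using ex
  let L : X →ₗ[ℂ] ℂ :=
    { toFun := ξ
      map_add' := fun a b => tendsto_nhds_unique (hξ _) (by simpa using (hξ a).add (hξ b))
      map_smul' := fun c a => tendsto_nhds_unique (hξ _) (by simpa using (hξ a).const_mul c) }
  have hL : ∀ w, ‖L w‖ ≤ ‖x‖ * ‖w‖ := fun w =>
    le_of_tendsto_of_tendsto' (hξ w).norm (hn.norm.mul_const _) fun z => J_le hJ z w
  have h2 : L x = ((‖x‖ ^ 2 : ℝ) : ℂ) := by
    refine tendsto_nhds_unique (hξ x) ?_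
    have a1 : Tendsto (fun z => J z (x - z)) U (𝓝 0) :=
      squeeze_zero_norm (fun z => J_le hJ z _)
        (by simpa using hn.norm.mul (hn.const_sub x).norm)
    have a2 : Tendsto (fun z : X => ((‖z‖ ^ 2 : ℝ) : ℂ)) U (𝓝 ((‖x‖ ^ 2 : ℝ) : ℂ)) :=
      (Complex.continuous_ofReal.tendsto _).comp (hn.norm.pow 2)
    have a3 := a1.add a2
    rw [zero_add] at a3
    refine a3.congr fun z => ?_
    rw [map_sub, (hJ z).2]; ring
  have := uniq hX hJ x (L.mkContinuous _ hL) (L.mkContinuous_norm_le (norm_nonneg _) hL) h2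
  change Tendsto _ _ (𝓝 (J x y))
  rw [← this]
  exact hξ y

theorem J_cont (hX : Smooth X) (hJ : IsDualityMap J) : Continuous fun p : X × X => J p.1 p.2 := by
  refine continuous_iff_continuousAt.2 fun p => ?_
  have a1 : Tendsto (fun q : X × X => J q.1 (q.2 - p.2)) (𝓝 p) (𝓝 0) := by
    refine squeeze_zero_norm (fun z => J_le hJ _ _) ?_
    have : Continuous fun q : X × X => ‖q.1‖ * ‖q.2 - p.2‖ := by fun_prop
    simpa using this.tendsto p
  have a2 := (((J_cont1 hX hJ p.2).comp continuous_fst).tendsto p)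
  have a3 := a1.add a2
  rw [zero_add] at a3
  refine a3.congr fun q => ?_
  simp

theorem subgrad (hJ : IsDualityMap J) (x z : X) : 2 * (J x (z - x)).re ≤ ‖z‖ ^ 2 - ‖x‖ ^ 2 := by
  have h1 := (Complex.re_le_norm _).trans (J_le hJ x z)
  rw [map_sub, (hJ x).2, Complex.sub_re, Complex.ofReal_re]
  nlinarith [sq_nonneg (‖x‖ - ‖z‖)]

theorem line_cont (hX : Smooth X) (hJ : IsDualityMap J) (x y w : X) :
    Continuous fun t : ℝ => 2 * (J (x + (t : ℂ) • y) w).re :=
  continuous_const.mul (Complex.continuous_re.comp ((J_cont1 hX hJ w).comp (by fun_prop)))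

theorem sq_deriv (hX : Smooth X) (hJ : IsDualityMap J) (x y : X) (s : ℝ) :
    HasDerivAt (fun t : ℝ => ‖x + (t : ℂ) • y‖ ^ 2) (2 * (J (x + (s : ℂ) • y) y).re) s := by
  rw [hasDerivAt_iff_tendsto]
  have h0 := ((line_cont hX hJ x y y).tendsto s).sub_const (2 * (J (x + (s : ℂ) • y) y).re)
  replace h0 := h0.abs
  rw [sub_self, abs_zero] at h0
  refine squeeze_zero (fun _ => by positivity) (fun t => ?_) h0
  have h1 := subgrad hJ (x + (s : ℂ) • y) (x + (t : ℂ) • y)
  have h2 := subgrad hJ (x + (t : ℂ) • y) (x + (s : ℂ) • y)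
  rw [add_sub_add_left_eq_sub, ← sub_smul, map_smul, ← Complex.ofReal_sub, smul_eq_mul,
    Complex.re_ofReal_mul] at h1 h2
  rcases eq_or_ne t s with rfl | hts
  · simp
  rw [inv_mul_le_iff₀ (norm_pos_iff.2 (sub_ne_zero.2 hts)), Real.norm_eq_abs, Real.norm_eq_abs,
    ← abs_mul, smul_eq_mul]
  refine le_trans (abs_le.2 ⟨?_, ?_⟩) (le_abs_self _) <;> nlinarith

/-- operators whose quadratic form has the expected gradient -/
def G (hX : Smooth X) (hJ : IsDualityMap J) : Submodule ℝ (X →L[ℂ] X) where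
  carrier := {C | ∀ x y (s : ℝ), (J (x + (s : ℂ) • y) (C (x + (s : ℂ) • y))).re =
    (J x (C x)).re + ∫ t in (0 : ℝ)..s, 2 * (J (x + (t : ℂ) • y) (C y)).re}
  add_mem' := fun {C D} hC hD x y s => by
    simp only [add_apply, map_add (J _), Complex.add_re, mul_add]
    rw [hC, hD, intervalIntegral.integral_add ((line_cont hX hJ _ _ _).intervalIntegrable _ _)
      ((line_cont hX hJ _ _ _).intervalIntegrable _ _)]
    ring
  zero_mem' := fun x y s => by simp
  smul_mem' := fun c C hC x y s => by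
    have e : ∀ z w, (J z ((c • C) w)).re = c * (J z (C w)).re := fun z w => by
      rw [smul_apply, ← Complex.coe_smul, map_smul, smul_eq_mul, Complex.re_ofReal_mul]
    simp only [e]
    rw [hC, mul_add, ← intervalIntegral.integral_const_mul]
    congr 2
    funext t; ring

theorem G_closed (hX : Smooth X) (hJ : IsDualityMap J) :
    IsClosed (G hX hJ : Set (X →L[ℂ] X)) := by
  have : (G hX hJ : Set (X →L[ℂ] X)) = ⋂ (x : X) (y : X) (s : ℝ),
      {C | (J (x + (s : ℂ) • y) (C (x + (s : ℂ) • y))).re =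
        (J x (C x)).re + ∫ t in (0 : ℝ)..s, 2 * (J (x + (t : ℂ) • y) (C y)).re} := by
    ext C; simp only [Set.mem_iInter]; rfl
  rw [this]
  refine isClosed_iInter fun x => isClosed_iInter fun y => isClosed_iInter fun s =>
    isClosed_eq (by fun_prop) (Continuous.add (by fun_prop) ?_)
  refine intervalIntegral.continuous_parametric_intervalIntegral_of_continuous' ?_ 0 s
  exact continuous_const.mul (Complex.continuous_re.comp ((J_cont hX hJ).comp
    (f := fun p : (X →L[ℂ] X) × ℝ => (x + (p.2 : ℂ) • y, p.1 y)) (by fun_prop)))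

theorem G_deriv {hX : Smooth X} {hJ : IsDualityMap J} {C : X →L[ℂ] X} (hC : C ∈ G hX hJ)
    (x y : X) (s : ℝ) : HasDerivAt (fun t : ℝ => (J (x + (t : ℂ) • y) (C (x + (t : ℂ) • y))).re)
      (2 * (J (x + (s : ℂ) • y) (C y)).re) s := by
  rw [funext (hC x y)]
  exact ((line_cont hX hJ x y (C y)).integral_hasStrictDerivAt 0 s).hasDerivAt.const_add _

theorem sa_sq (hJ : IsDualityMap J) {T : X →L[ℂ] X} (hT : SelfAdj J T) (x : X) :
    (J x (T (T x))).re = ‖T x‖ ^ 2 := by rw [← hT, (hJ _).2, Complex.ofReal_re]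

theorem sq_mem (hX : Smooth X) (hJ : IsDualityMap J) {T : X →L[ℂ] X} (hT : SelfAdj J T) :
    T * T ∈ G hX hJ := by
  intro x y s
  simp only [mul_apply_eq_comp, sa_sq hJ hT]
  have e : ∀ t : ℝ, J (x + (t : ℂ) • y) (T (T y)) = J (T x + (t : ℂ) • T y) (T y) := fun t => by
    rw [← hT, map_add, map_smul]
  simp only [e]
  rw [intervalIntegral.integral_eq_sub_of_hasDerivAt (fun t _ => sq_deriv hX hJ (T x) (T y) t)
    ((line_cont hX hJ _ _ _).intervalIntegrable _ _)]
  simp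

theorem sa_pow {T : X →L[ℂ] X} (hT : SelfAdj J T) (n : ℕ) : SelfAdj J (T ^ n) := by
  induction n with
  | zero => intro x y; simp
  | succ n ih =>
    intro x y
    conv_lhs => rw [pow_succ', mul_apply_eq_comp, hT, ih]
    rw [pow_succ, mul_apply_eq_comp]

theorem re_ext {f g : X →L[ℂ] ℂ} (h : ∀ w, (f w).re = (g w).re) (w : X) : f w = g w := by
  refine Complex.ext (h w) ?_
  have := h (Complex.I • w)
  simpa using this

theorem sa_of_path [CompleteSpace X] (hX : Smooth X) (hJ : IsDualityMap J)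
    (P : Subalgebra ℝ (X →L[ℂ] X)) (hP : IsClosed (P : Set (X →L[ℂ] X)))
    (hc : ∀ a ∈ P, ∀ b ∈ P, a * b = b * a) (hG : ∀ a ∈ P, a ∈ G hX hJ) {Y : X →L[ℂ] X}
    (hY : Y ∈ P) (h1 : ‖Y‖ < 1) : SelfAdj J (1 - Y) := by
  set B := 1 - Y with hB
  have hBP : B ∈ P := P.sub_mem P.one_mem hY
  let R : ℝ → (X →L[ℂ] X) := fun u => Ring.inverse (1 - u • Y)
  have hn : ∀ u ∈ Set.Icc (0 : ℝ) 1, ‖u • Y‖ < 1 := fun u hu => by
    rw [norm_smul, Real.norm_of_nonneg hu.1]
    nlinarith [hu.1, hu.2, norm_nonneg Y]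
  have hR : ∀ u ∈ Set.Icc (0 : ℝ) 1, R u ∈ P := fun u hu =>
    hP.mem_of_tendsto (hasSum_geom_series_inverse _ (hn u hu)).tendsto_sum_nat
      (Eventually.of_forall fun n => P.sum_mem fun i _ => P.pow_mem (P.smul_mem hY u) i)
  have hR1 : ∀ u ∈ Set.Icc (0 : ℝ) 1, R u * (1 - u • Y) = 1 := fun u hu =>
    Ring.inverse_mul_cancel _ (Units.oneSub _ (hn u hu)).isUnit
  have hRd : ∀ u ∈ Set.Icc (0 : ℝ) 1, HasDerivAt R (R u * Y * R u) u := fun u hu => by
    have h2 := hasFDerivAt_ringInverse (𝕜 := ℝ) (Units.oneSub _ (hn u hu))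
    have h3 : HasDerivAt (fun u : ℝ => 1 - u • Y) (-Y) u := by
      simpa using ((hasDerivAt_id u).smul_const Y).const_sub 1
    have h4 := HasFDerivAt.comp_hasDerivAt u (l := Ring.inverse) h2 h3
    have h5 : (↑(Units.oneSub _ (hn u hu))⁻¹ : X →L[ℂ] X) = R u :=
      (Ring.inverse_unit (Units.oneSub _ (hn u hu))).symm
    refine h4.congr_deriv ?_
    simp [h5]
  have key : ∀ x, ‖B x‖ ^ 2 = (J x ((B * B) x)).re := by
    intro x
    let θ : ℝ → ℝ := fun u => (J (x + (u : ℂ) • (-Y x)) ((R u * B * B) x)).re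
    have hx : ∀ u : ℝ, x + (u : ℂ) • (-Y x) = (1 - u • Y) x := fun u => by
      simp [sub_eq_add_neg]
    have hd : ∀ u ∈ Set.Icc (0 : ℝ) 1, HasDerivAt θ 0 u := by
      intro u0 hu
      set M := B * B * R u0 * R u0 with hM
      have hMP : M ∈ P := P.mul_mem (P.mul_mem (P.mul_mem hBP hBP) (hR _ hu)) (hR _ hu)
      have d1 := G_deriv (hG M hMP) x (-Y x) u0
      let V : ℝ → (X →L[ℂ] X) := fun u => R u * B * B - M * (1 - u • Y)
      have hV0 : V u0 = 0 := by
        change R u0 * B * B - M * (1 - u0 • Y) = 0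
        rw [hM, mul_assoc (B * B * R u0), hR1 _ hu, mul_one, mul_assoc,
          hc _ (hR _ hu) _ (P.mul_mem hBP hBP), sub_self]
      have hV : HasDerivAt V (M * Y + M * Y) u0 := by
        have h3 : HasDerivAt (fun u : ℝ => 1 - u • Y) (-Y) u0 := by
          simpa using ((hasDerivAt_id u0).smul_const Y).const_sub 1
        refine ((((hRd _ hu).mul_const B).mul_const B).sub (h3.const_mul M)).congr_deriv ?_
        rw [mul_neg, sub_neg_eq_add, hc _ (hR _ hu) _ hY, mul_assoc _ B B,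
          hc _ (P.mul_mem (P.mul_mem hY (hR _ hu)) (hR _ hu)) _ (P.mul_mem hBP hBP),
          mul_assoc Y, hc _ hY _ (P.mul_mem (hR _ hu) (hR _ hu)), hM]
        simp only [mul_assoc]
      have d2 : HasDerivAt (fun u : ℝ => (J (x + (u : ℂ) • (-Y x)) (V u x)).re)
          (J (x + (u0 : ℂ) • (-Y x)) ((M * Y + M * Y) x)).re u0 := by
        rw [hasDerivAt_iff_tendsto_slope] at hV ⊢
        have c1 : Continuous fun p : ℝ × (X →L[ℂ] X) => (J (x + (p.1 : ℂ) • (-Y x)) (p.2 x)).re :=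
          Complex.continuous_re.comp ((J_cont hX hJ).comp
            (f := fun p : ℝ × (X →L[ℂ] X) => (x + (p.1 : ℂ) • (-Y x), p.2 x)) (by fun_prop))
        refine ((c1.tendsto _).comp ((tendsto_id.mono_left nhdsWithin_le_nhds).prodMk_nhds hV)).congr
          fun u => ?_
        simp only [Function.comp, slope_def_module, hV0, sub_zero, id, zero_apply, map_zero,
          Complex.zero_re, smul_eq_mul]
        rw [smul_apply, ← Complex.coe_smul, map_smul, smul_eq_mul, Complex.re_ofReal_mul]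
      have d3 := d1.add d2
      have e : θ = (fun t : ℝ => (J (x + (t : ℂ) • (-Y x)) (M (x + (t : ℂ) • (-Y x)))).re) +
          fun u : ℝ => (J (x + (u : ℂ) • (-Y x)) (V u x)).re := by
        funext u
        simp only [θ, V, Pi.add_apply, sub_apply, map_sub (J _), Complex.sub_re]
        rw [mul_apply_eq_comp M, ← hx]
        ring
      rw [e]
      refine d3.congr_deriv ?_
      simp only [add_apply, mul_apply_eq_comp, map_neg, map_add, Complex.add_re, Complex.neg_re]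
      ring
    have h2 := constant_of_has_deriv_right_zero
      (fun u hu => (hd u hu).continuousAt.continuousWithinAt)
      (fun u hu => (hd u (Set.Ico_subset_Icc_self hu)).hasDerivWithinAt) 1 (by simp)
    have h3 : R 1 * B = 1 := by simpa using hR1 1 (by simp)
    have h4 : R 0 = 1 := by simp [R]
    simp only [θ] at h2
    rw [h3, h4, hx 1, one_smul, one_mul, ← hB, (hJ _).2, Complex.ofReal_re] at h2
    simpa using h2
  intro x y
  refine re_ext (g := (J x).comp B) (fun w => ?_) y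
  have hBR : B (R 1 w) = w := by
    rw [← mul_apply_eq_comp, hc _ hBP _ (hR 1 (by simp))]
    have h3 : R 1 * B = 1 := by simpa using hR1 1 (by simp)
    rw [h3, one_apply_eq_self]
  have d1 := sq_deriv hX hJ (B x) w 0
  have d2 := G_deriv (hG _ (P.mul_mem hBP hBP)) x (R 1 w) 0
  simp only [← key] at d2
  simp only [map_add B, map_smul B, hBR, mul_apply_eq_comp] at d2
  have := d1.unique d2
  simp only [Complex.ofReal_zero, zero_smul, add_zero] at this
  change _ = (J x (B w)).re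
  linarith

theorem lemL [CompleteSpace X] (hX : Smooth X) (hJ : IsDualityMap J) {T : X →L[ℂ] X}
    (hT : SelfAdj J T) {K : ℝ} (hK : ‖T‖ ^ 2 ≤ K) :
    ∃ S : X →L[ℂ] X, SelfAdj J S ∧ ∀ x, S (S x) = (K : ℂ) • x - T (T x) := by
  rcases eq_or_lt_of_le ((sq_nonneg _).trans hK) with h0 | h0
  · subst h0
    have : T = 0 := norm_eq_zero.1 (pow_eq_zero_iff two_ne_zero |>.1 (le_antisymm hK (sq_nonneg _)))
    refine ⟨0, fun x y => ?_, fun x => by simp [this]⟩
    have h1 := J_le hJ 0 y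
    simpa using h1
  let P := Algebra.elemental ℝ (T * T)
  have hP : IsClosed (P : Set (X →L[ℂ] X)) := Algebra.elemental.isClosed ℝ _
  have hc : ∀ a ∈ P, ∀ b ∈ P, a * b = b * a := fun a ha b hb =>
    congrArg Subtype.val (mul_comm (⟨a, ha⟩ : P) ⟨b, hb⟩)
  have hG : ∀ a ∈ P, a ∈ G hX hJ := by
    refine fun a ha => closure_minimal (s := (Algebra.adjoin ℝ {T * T} : Set (X →L[ℂ] X))) ?_
      (G_closed hX hJ) ha
    intro b hb
    have h2 : b ∈ Subalgebra.toSubmodule (Algebra.adjoin ℝ {T * T}) := hb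
    rw [Algebra.adjoin_eq_span] at h2
    refine Submodule.span_le.2 ?_ h2
    intro c hc
    obtain ⟨n, rfl⟩ := Submonoid.mem_closure_singleton.1 hc
    rw [(Commute.refl T).mul_pow]
    exact sq_mem hX hJ (sa_pow hT n)
  obtain ⟨Y, hY, h1, h2⟩ := exists_sqrt P hP hc (a := K⁻¹ • (T * T))
    (P.smul_mem (Algebra.elemental.self_mem ℝ _) _) (by
      rw [norm_smul, Real.norm_of_nonneg (by positivity), inv_mul_le_iff₀ h0, mul_one]
      exact (norm_mul_le _ _).trans (by rwa [← sq]))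
  have h3 : SelfAdj J (1 - Y) := by
    intro x y
    have hcl : IsClosed {u : ℝ | J ((1 - u • Y) x) y = J x ((1 - u • Y) y)} :=
      isClosed_eq ((J_cont1 hX hJ y).comp (by fun_prop)) (by fun_prop)
    have h4 : Set.Ico (0 : ℝ) 1 ⊆ {u : ℝ | J ((1 - u • Y) x) y = J x ((1 - u • Y) y)} :=
      fun u hu => sa_of_path hX hJ P hP hc hG (P.smul_mem hY u) (by
        rw [norm_smul, Real.norm_of_nonneg hu.1]
        nlinarith [hu.1, hu.2, norm_nonneg Y]) x y
    have h5 := closure_minimal h4 hcl (show (1 : ℝ) ∈ closure (Set.Ico (0 : ℝ) 1) by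
      rw [closure_Ico zero_ne_one]; simp)
    simpa only [Set.mem_setOf_eq, one_smul] using h5
  have hs : ∀ (c : ℝ) (z : X), 0 ≤ c → J ((c : ℂ) • z) = (c : ℂ) • J z := fun c z hc =>
    (uniq hX hJ _ _ (by rw [norm_smul, norm_smul, (hJ z).1]) (by
      rw [smul_apply, map_smul, (hJ z).2, norm_smul, Complex.norm_real, Real.norm_of_nonneg hc]
      simp only [smul_eq_mul]; push_cast; ring)).symm
  refine ⟨((√K : ℝ) : ℂ) • (1 - Y), fun x y => ?_, fun x => ?_⟩
  · rw [smul_apply, hs _ _ (Real.sqrt_nonneg _), smul_apply, h3, smul_apply, map_smul]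
  · rw [smul_apply, smul_apply, map_smul, smul_smul, ← mul_apply_eq_comp, h2, ← Complex.ofReal_mul,
      Real.mul_self_sqrt h0.le, sub_apply, smul_sub, smul_apply, ← Complex.coe_smul, smul_smul,
      ← Complex.ofReal_mul, mul_inv_cancel₀ h0.ne']
    simp

theorem main [CompleteSpace X] (hX : Smooth X) (hJ : IsDualityMap J) {T : X →L[ℂ] X}
    (hT : SelfAdj J T) : StronglyNormal J (quad (‖T‖ ^ 2) (-1) T) ∧
      StronglyNormal J (quad (-(minMod T ^ 2)) 1 T) := by
  obtain ⟨S, hS, h1⟩ := lemL hX hJ hT le_rfl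
  refine ⟨⟨S, hS, fun x => by rw [h1]; simp [quad, sub_eq_add_neg]⟩, ?_⟩
  rcases subsingleton_or_nontrivial X with h | h
  · exact ⟨S, hS, fun x => Subsingleton.elim _ _⟩
  have hb : BddBelow {r : ℝ | ∃ x, ‖x‖ = 1 ∧ r = ‖T x‖} :=
    ⟨0, by rintro _ ⟨x, -, rfl⟩; exact norm_nonneg _⟩
  have h0 : 0 ≤ minMod T := Real.sInf_nonneg (by rintro _ ⟨x, -, rfl⟩; exact norm_nonneg _)
  have h2 : ∀ x, ‖x‖ = 1 → ‖S x‖ ^ 2 ≤ ‖T‖ ^ 2 - minMod T ^ 2 := by
    intro x hx
    have h3 : minMod T ≤ ‖T x‖ := csInf_le hb ⟨x, hx, rfl⟩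
    rw [← sa_sq hJ hS, h1, map_sub, map_smul, (hJ x).2, Complex.sub_re, sa_sq hJ hT, smul_eq_mul,
      ← Complex.ofReal_mul, Complex.ofReal_re, hx]
    nlinarith
  have h3 : ‖S‖ ^ 2 ≤ ‖T‖ ^ 2 - minMod T ^ 2 := by
    obtain ⟨x, hx⟩ := exists_norm_eq X zero_le_one
    have h4 := (sq_nonneg _).trans (h2 x hx)
    rw [← Real.le_sqrt (norm_nonneg _) h4]
    exact ContinuousLinearMap.opNorm_le_of_unit_norm (Real.sqrt_nonneg _) fun x hx =>
      (Real.le_sqrt (norm_nonneg _) h4).2 (h2 x hx)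
  obtain ⟨S2, hS2, h4⟩ := lemL hX hJ hS h3
  refine ⟨S2, hS2, fun x => ?_⟩
  rw [h4, h1]
  simp only [quad, add_apply, smul_apply, ContinuousLinearMap.id_apply,
    ContinuousLinearMap.comp_apply]
  push_cast
  module

end Pool.Agent.H95.Smooth
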