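import Mathlib

set_option autoImplicit false

namespace Pool.Agent.H95.SmoothDefs

/-- every unit vector has exactly one norming functional of norm one -/
def Smooth (X : Type*) [NormedAddCommGroup X] [NormedSpace ℂ X] : Prop :=
  ∀ x : X, ‖x‖ = 1 → ∃! f : X →L[ℂ] ℂ, ‖f‖ = 1 ∧ f x = 1

variable {X : Type*} [NormedAddCommGroup X] [NormedSpace ℂ X]

/-- `J` is the duality map -/
def IsDualityMap (J : X → (X →L[ℂ] ℂ)) : Prop :=
  ∀ x, ‖J x‖ = ‖x‖ ∧ J x x = ((‖x‖ ^ 2 : ℝ) : ℂ)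

def SelfAdj (J : X → (X →L[ℂ] ℂ)) (T : X →L[ℂ] X) : Prop := ∀ x y, J (T x) y = J x (T y)

def StronglyNormal (J : X → (X →L[ℂ] ℂ)) (T : X →L[ℂ] X) : Prop :=
  ∃ S : X →L[ℂ] X, SelfAdj J S ∧ ∀ x, T x = S (S x)

/-- the minimum modulus -/
noncomputable def minMod (T : X →L[ℂ] X) : ℝ := sInf {r : ℝ | ∃ x, ‖x‖ = 1 ∧ r = ‖T x‖}

/-- the operator `a I + b T²` -/
noncomputable def quad (a b : ℝ) (T : X →L[ℂ] X) : X →L[ℂ] X :=
  (a : ℂ) • ContinuousLinearMap.id ℂ X + (b : ℂ) • T.comp T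

end Pool.Agent.H95.SmoothDefs
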