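import Pool.Agent.H95.SocksDefs

namespace Pool.Agent.H95.Socks
open ENNReal NNReal Classical Finset Nat

variable {C : Type}

theorem swap (f : Finset C → C → ℝ≥0∞) : ∑' J, ∑' i, (if i ∉ J then f (insert i J) i else 0) =
    ∑' J, ∑' i, if i ∈ J then f J i else 0 := by
  rw [ENNReal.tsum_comm, ENNReal.tsum_comm (f := fun J i => if i ∈ J then f J i else 0)]
  refine tsum_congr fun i => ?_
  have : Function.Involutive fun J : Finset C => if i ∈ J then J.erase i else insert i J := fun J => by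
    by_cases h : i ∈ J <;> simp [h]
  rw [← this.toPerm.tsum_eq fun J => if i ∈ J then f J i else 0]
  exact tsum_congr fun J => by by_cases h : i ∈ J <;> simp [h]

noncomputable def e (w : C → ℝ≥0∞) (k : ℕ) : ℝ≥0∞ := ∑' J : Finset C, if J.card = k then ∏ j ∈ J, w j else 0
noncomputable def ex (w : C → ℝ≥0∞) (i : C) (k : ℕ) : ℝ≥0∞ :=
  ∑' J : Finset C, if J.card = k ∧ i ∉ J then ∏ j ∈ J, w j else 0
noncomputable def B (w : C → ℝ≥0∞) : ℕ → ℝ≥0∞
  | 0 => 0
  | m + 1 => ∑' i, w i ^ 2 * ex w i m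

theorem e0 (w : C → ℝ≥0∞) : e w 0 = 1 := by
  rw [e, tsum_eq_single ∅ fun J h => by simp [h]]; simp

theorem rec1 (w : C → ℝ≥0∞) (k : ℕ) : e w k * ∑' i, w i = (k + 1) * e w (k + 1) + B w k := by
  have h1 := swap fun J _ => if J.card = k + 1 then ∏ j ∈ J, w j else 0
  have h2 := swap fun J i => (if J.card = k then ∏ j ∈ J, w j else 0) * w i
  have a : (k + 1) * e w (k + 1) = ∑' J : Finset C, ∑' i,
      if i ∈ J then (if J.card = k + 1 then ∏ j ∈ J, w j else 0) else 0 := by
    rw [e, ← ENNReal.tsum_mul_left]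
    refine tsum_congr fun J => ?_
    rw [tsum_eq_sum (s := J) fun i h => if_neg h, sum_congr rfl fun i h => if_pos h]
    split_ifs with h <;> simp [h]
  have b : B w k = ∑' J : Finset C, ∑' i,
      if i ∉ J then (if (insert i J).card = k then ∏ j ∈ insert i J, w j else 0) * w i else 0 := by
    cases k with
    | zero => simp [B]
    | succ m =>
      simp only [B, ex, ← ENNReal.tsum_mul_left]
      rw [ENNReal.tsum_comm]
      refine tsum_congr fun J => tsum_congr fun i => ?_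
      by_cases h : i ∈ J
      · simp [h]
      · simp [h, sq, mul_comm, mul_left_comm]
  rw [a, ← h1, b, h2, e, ← ENNReal.tsum_mul_right, ← ENNReal.tsum_add]
  refine tsum_congr fun J => ?_
  rw [← ENNReal.tsum_mul_left, ← ENNReal.tsum_add]
  refine tsum_congr fun i => ?_
  by_cases h : i ∈ J
  · simp [h]
  · simp [h, mul_comm]

theorem rec2 (w : C → ℝ≥0∞) (k : ℕ) : k ! * e w k * ∑' i, w i = (k + 1)! * e w (k + 1) + k ! * B w k := by
  rw [mul_assoc, rec1, factorial_succ]; push_cast; ring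

theorem E_le {w : C → ℝ≥0∞} (h : ∑' i, w i ≤ 1) (k : ℕ) : k ! * e w k ≤ 1 := by
  induction k with
  | zero => simp [e0]
  | succ k ih => exact le_self_add.trans ((rec2 w k).symm.le.trans (mul_le_one' ih h))

theorem tot {p : C → ℝ≥0∞} (h : ∑' i, p i = 1) : ∑' i, PY p i ≤ 1 := by
  have : ∀ N, ∑ m ∈ range N, (m + 1)! * B p (m + 1) + (N + 1)! * e p (N + 1) ≤ 1 := fun N => by
    induction N with
    | zero => simpa using E_le h.le 1
    | succ N ih =>
      have := rec2 p (N + 1)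
      rw [h, mul_one] at this
      rwa [sum_range_succ, add_assoc, add_comm _ (_ * e p _), ← this]
  refine le_of_eq_of_le ?_ (ENNReal.tsum_le_of_sum_range_le fun N => le_self_add.trans (this N))
  simp only [PY, B, ← ENNReal.tsum_mul_left (f := fun k : ℕ => _ * _), ← ex.eq_1, mul_left_comm (p _ ^ 2)]
  exact ENNReal.tsum_comm.trans (tsum_congr fun _ => ENNReal.tsum_mul_left)

theorem low {w : C → ℝ≥0∞} {s t : ℝ≥0∞} (h : ∑' i, w i + s = 1) (ht : ∑' i, w i ^ 2 ≤ t) (k : ℕ) :
    1 ≤ k ! * e w k + k * (k * t + s) := by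
  have l := E_le (le_self_add.trans h.le)
  induction k with
  | zero => simp [e0]
  | succ k ih =>
    have b : k ! * B w k ≤ k * t := by
      cases k with
      | zero => simp [B]
      | succ m =>
        have : B w (m + 1) ≤ t * e w m := by
          refine le_trans (ENNReal.tsum_le_tsum fun i => mul_le_mul_right
            (ENNReal.tsum_le_tsum fun J => ?_) _) (ENNReal.tsum_mul_right.trans_le (mul_le_mul_left ht _))
          split_ifs with a b <;> simp_all
        calc _ ≤ (m + 1)! * (t * e w m) := by gcongr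
          _ = (m + 1 : ℕ) * t * (m ! * e w m) := by rw [factorial_succ]; push_cast; ring
          _ ≤ _ := mul_le_of_le_one_right' (l m)
    calc 1 ≤ k ! * e w k * (∑' i, w i + s) + k * (k * t + s) := by rwa [h, mul_one]
      _ ≤ (k + 1)! * e w (k + 1) + k * t + s + k * (k * t + s) := by
        rw [mul_add, rec2]; gcongr; exact mul_le_of_le_one_left' (l k)
      _ = (k + 1)! * e w (k + 1) + (k + 1) * (k * t + s) := by ring
      _ ≤ _ := by push_cast; gcongr; exact le_self_add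

theorem num {s t : ℝ≥0} (h1 : s ^ 2 ≤ t) (h2 : 0 < t) {E : ℕ → ℝ≥0∞}
    (h : ∀ k, 1 ≤ E k + k * (k * t + s)) : 64⁻¹ ≤ t * ∑' k : ℕ, (k + 1) * E k := by
  obtain ⟨r, rfl⟩ : ∃ r, t = r ^ 2 := ⟨NNReal.sqrt t, (NNReal.sq_sqrt t).symm⟩
  have r0 : 0 < r := pos_of_ne_zero fun e => by simp [e] at h2
  have sr : s ≤ r := le_of_pow_le_pow_left₀ two_ne_zero zero_le h1
  set K := ⌊1 / (4 * r)⌋₊
  have k1 : (K : ℝ≥0) * r ≤ 1 / 4 := by
    have := Nat.floor_le (show 0 ≤ 1 / (4 * r) from zero_le)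
    rw [le_div_iff₀ (by positivity)] at this ⊢; linarith
  have k2 : 1 / 4 ≤ (K + 1 : ℝ≥0) * r := by
    have := (Nat.lt_floor_add_one (1 / (4 * r))).le
    rw [div_le_iff₀ (by positivity)] at this ⊢; linarith
  have a : ∀ k ∈ range (K + 1), (((k + 1) / 2 : ℝ≥0) : ℝ≥0∞) ≤ (k + 1) * E k := fun k hk => by
    have : (k : ℝ≥0) * r ≤ 1 / 4 := le_trans (by gcongr; exact mem_range_succ_iff.1 hk) k1
    have b : (k * (k * r ^ 2 + s) : ℝ≥0) ≤ 2⁻¹ := by
      have : (k : ℝ≥0) * s ≤ k * r := by gcongr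
      have e : (2⁻¹ : ℝ≥0) = 1 / 2 := by norm_num
      nlinarith [zero_le (a := (k : ℝ≥0) * r)]
    have b : (k * (k * (r ^ 2 : ℝ≥0) + s) : ℝ≥0∞) ≤ 2⁻¹ := by simpa using ENNReal.coe_le_coe.2 b
    have c := (h k).trans (add_le_add_right b _)
    rw [← ENNReal.inv_two_add_inv_two, ENNReal.add_le_add_iff_right (by simp)] at c
    rw [div_eq_mul_inv]; push_cast; gcongr
  have s2 : ∀ n : ℕ, ((n : ℝ≥0) ^ 2 / 4) ≤ ∑ k ∈ range n, ((k + 1) / 2 : ℝ≥0) := fun n => by
    induction n with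
    | zero => simp
    | succ n ih => rw [sum_range_succ]; push_cast; linarith [show ((n : ℝ≥0) + 1) ^ 2 / 4 + 1 / 4 = n ^ 2 / 4 + (n + 1) / 2 by ring]
  refine le_trans ?_ (mul_le_mul_right ((sum_le_sum a).trans (ENNReal.sum_le_tsum _)) _)
  have : (64⁻¹ : ℝ≥0) ≤ r ^ 2 * ∑ k ∈ range (K + 1), ((k + 1) / 2 : ℝ≥0) := by
    refine le_trans ?_ (mul_le_mul_right (s2 _) _)
    have := pow_le_pow_left' k2 2
    push_cast
    rw [show (64⁻¹ : ℝ≥0) = (1 / 4) ^ 2 / 4 by norm_num, mul_div_assoc', ← mul_pow, mul_comm r]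
    gcongr
  simpa using ENNReal.coe_le_coe.2 this

theorem ratio {p : C → ℝ≥0∞} (h : ∑' i, p i = 1) (t0 : ∑' j, p j ^ 2 ≠ 0) (t1 : ∑' j, p j ^ 2 ≠ ⊤) (i : C) :
    64⁻¹ * PX p i ≤ PY p i := by
  have s1 : p i ≠ ⊤ := ne_top_of_le_ne_top one_ne_top (h ▸ ENNReal.le_tsum i)
  have := num (s := (p i).toNNReal) (t := (∑' j, p j ^ 2).toNNReal) (E := fun k => k ! * e (Function.update p i 0) k)
    (by rw [← ENNReal.coe_le_coe]; simpa [s1, t1] using ENNReal.le_tsum (f := fun j => p j ^ 2) i)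
    (toNNReal_pos t0 t1) fun k => by
      rw [coe_toNNReal s1, coe_toNNReal t1]
      refine low ?_ (ENNReal.tsum_le_tsum fun j => by by_cases e : j = i <;> simp [e]) k
      rw [← h, ENNReal.tsum_eq_add_tsum_ite i (f := p), add_comm]
      congr 1
      exact tsum_congr fun j => by by_cases e : j = i <;> simp [e]
  rw [coe_toNNReal t1, mul_comm, ← ENNReal.div_le_iff t0 t1] at this
  rw [PX, PY, div_eq_mul_inv, mul_left_comm]
  refine mul_le_mul_right (this.trans_eq (tsum_congr fun k => ?_)) _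
  rw [factorial_succ, ← mul_assoc]; push_cast
  refine congrArg _ (tsum_congr fun J => ?_)
  by_cases e : i ∈ J
  · simp [e, prod_eq_zero e]
  · simp [e, prod_update_of_notMem e]

theorem main (C : Type) (p : C → ℝ≥0∞) (h : ∑' i, p i = 1) : D p ≤ 63 / 64 := by
  have t1 : ∑' j, p j ^ 2 ≤ 1 := h ▸ ENNReal.tsum_le_tsum fun j =>
    pow_le_of_le_one zero_le (h ▸ ENNReal.le_tsum j) two_ne_zero
  have t1 := ne_top_of_le_ne_top one_ne_top t1
  have t0 : ∑' j, p j ^ 2 ≠ 0 := fun e => by simp_all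
  have sx : ∑' i, PX p i = 1 := by
    simp only [PX, div_eq_mul_inv, ENNReal.tsum_mul_right, ENNReal.mul_inv_cancel t0 t1]
  have := ENNReal.tsum_le_tsum (f := fun i => (PX p i - PY p i) + (PY p i - PX p i) + 2 * (64⁻¹ * PX p i))
    (g := fun i => PX p i + PY p i) fun i => by
      have a := ratio h t0 t1 i
      have b : 64⁻¹ * PX p i ≤ PX p i := mul_le_of_le_one_left' (by norm_num)
      rcases le_total (PX p i) (PY p i) with c | c
      · rw [tsub_eq_zero_of_le c, zero_add, two_mul, add_comm (PX p i), ← add_assoc]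
        exact add_le_add ((add_le_add_right b _).trans_eq (tsub_add_cancel_of_le c)) b
      · rw [tsub_eq_zero_of_le c, add_zero, two_mul, ← add_assoc]
        exact add_le_add ((add_le_add_right a _).trans_eq (tsub_add_cancel_of_le c)) a
  rw [ENNReal.tsum_add, ENNReal.tsum_add (f := PX p), ENNReal.tsum_mul_left, ENNReal.tsum_mul_left, sx,
    mul_one] at this
  refine ENNReal.div_le_of_le_mul ((ENNReal.le_sub_of_add_le_right (by finiteness)
    (this.trans (add_le_add_right (tot h) _))).trans (tsub_le_iff_right.2 (le_of_eq ?_)))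
  rw [← toReal_eq_toReal_iff' (by finiteness) (by finiteness), toReal_add (by finiteness) (by finiteness),
    toReal_add (by finiteness) (by finiteness)]
  norm_num

end Pool.Agent.H95.Socks
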