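import Mathlib

namespace Pool.Agent.H95.Socks
open ENNReal Classical

variable {C : Type}

noncomputable def PX (p : C → ℝ≥0∞) (i : C) : ℝ≥0∞ := p i ^ 2 / ∑' j, p j ^ 2

noncomputable def PY (p : C → ℝ≥0∞) (i : C) : ℝ≥0∞ :=
  p i ^ 2 * ∑' k : ℕ, (k + 1).factorial *
    ∑' J : Finset C, if J.card = k ∧ i ∉ J then ∏ j ∈ J, p j else 0

/-- total variation distance; the two truncated differences add up to the absolute difference -/
noncomputable def D (p : C → ℝ≥0∞) : ℝ≥0∞ := (∑' i, ((PX p i - PY p i) + (PY p i - PX p i))) / 2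

end Pool.Agent.H95.Socks
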