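import Pool.Agent.H95.SqzDefs

set_option autoImplicit false

namespace Pool.Agent.H95.Sqz

open Matrix Finset
open scoped MatrixOrder

variable {m : Type} [Fintype m] [DecidableEq m]

lemma co (f : ℝ → ℝ) (A : Matrix m m ℝ) : ContinuousOn f (spectrum ℝ A) :=
  (Matrix.finite_real_spectrum (A := A)).continuousOn f

lemma det_cfc {A : Matrix m m ℝ} (hA : A.IsHermitian) (f : ℝ → ℝ) :
    (cfc f A).det = ∏ i, f (hA.eigenvalues i) := by
  rw [hA.cfc_eq, IsHermitian.cfc]
  simp [det_diagonal, -Unitary.conjStarAlgAut_apply]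

lemma ss {a : Matrix m m ℝ} (h : a.PosSemidef) : CFC.sqrt a * CFC.sqrt a = a :=
  CFC.sqrt_mul_sqrt_self a h.nonneg

lemma sq_pd {a : Matrix m m ℝ} (h : a.PosDef) : (CFC.sqrt a).PosDef :=
  (CFC.sqrt_nonneg a).posSemidef.posDef_iff_isUnit.2
    ((CFC.isUnit_sqrt_iff a h.posSemidef.nonneg).2 h.isUnit)

lemma ud {a : Matrix m m ℝ} (h : a.PosDef) : IsUnit a.det := (isUnit_iff_isUnit_det _).1 h.isUnit

lemma pe {a b : Matrix m m ℝ} (h : a.PosSemidef) (e : a = b) : b.PosSemidef := e ▸ h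

lemma cj {a : Matrix m m ℝ} (h : a.PosSemidef) {b : Matrix m m ℝ} (hb : b.IsHermitian) :
    (b * a * b).PosSemidef := by
  simpa only [hb.eq] using h.mul_mul_conjTranspose_same b

lemma cjd {a : Matrix m m ℝ} (h : a.PosDef) {b : Matrix m m ℝ} (hb : b.PosDef) :
    (b * a * b).PosDef :=
  (cj h.posSemidef hb.1).posDef_iff_isUnit.2 ((hb.isUnit.mul h.isUnit).mul hb.isUnit)

lemma cjl {a c b : Matrix m m ℝ} (h : a ≤ c) (hb : b.IsHermitian) : b * a * b ≤ b * c * b := by
  have := cj h hb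
  rwa [mul_sub, sub_mul] at this

lemma det_mono {a b : Matrix m m ℝ} (ha : a.PosDef) (h : a ≤ b) : a.det ≤ b.det := by
  have r := sq_pd ha
  have e := cj h r.inv.1
  set s := CFC.sqrt a
  have k : b = s * (1 + s⁻¹ * (b - a) * s⁻¹) * s := by
    rw [mul_add, add_mul, mul_one, ss ha.posSemidef, mul_assoc s⁻¹, mul_nonsing_inv_cancel_left _ _ (ud r),
      nonsing_inv_mul_cancel_right _ _ (ud r), add_sub_cancel]
  have h1 := e.1.isSelfAdjoint
  have h2 : 1 ≤ (1 + s⁻¹ * (b - a) * s⁻¹).det := by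
    rw [← cfc_id' ℝ (s⁻¹ * (b - a) * s⁻¹), ← map_one (algebraMap ℝ (Matrix m m ℝ)),
      ← cfc_const_add _ _ _ (co _ _), det_cfc e.1]
    exact prod_induction _ (1 ≤ ·) (fun _ _ => one_le_mul_of_one_le_of_one_le) le_rfl
      fun i _ => le_add_of_nonneg_right (e.eigenvalues_nonneg i)
  rw [k, det_mul, det_mul, mul_right_comm, ← det_mul, ss ha.posSemidef]
  exact le_mul_of_one_le_right ha.det_pos.le h2

lemma inv_anti {a b : Matrix m m ℝ} (ha : a.PosDef) (h : a ≤ b) : b⁻¹ ≤ a⁻¹ := by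
  have hb : b.PosDef := by simpa using ha.add_posSemidef h
  have := (cj h hb.inv.1).add (cj ha.posSemidef (ha.inv.1.sub hb.inv.1))
  simp only [mul_sub, sub_mul, nonsing_inv_mul _ (ud ha), nonsing_inv_mul _ (ud hb), one_mul,
    mul_nonsing_inv_cancel_right _ _ (ud ha)] at this
  exact pe this (by abel)

noncomputable def D (p : Matrix m m ℝ) : ℝ := (p.charpoly.roots.map (max · 1)).prod

lemma D_eq {p : Matrix m m ℝ} (h : p.IsHermitian) : D p = (cfc (max · (1 : ℝ)) p).det := by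
  rw [det_cfc h, D, h.roots_charpoly_eq_eigenvalues, Multiset.map_map]
  rfl

lemma D_one (p : Matrix m m ℝ) : 1 ≤ D p :=
  Multiset.prod_induction (1 ≤ ·) _ (fun _ _ => one_le_mul_of_one_le_of_one_le) le_rfl fun a h => by
    obtain ⟨x, -, rfl⟩ := Multiset.mem_map.1 h
    exact le_max_right _ _

noncomputable def gm (a b : Matrix m m ℝ) : Matrix m m ℝ :=
  CFC.sqrt a * CFC.sqrt ((CFC.sqrt a)⁻¹ * b * (CFC.sqrt a)⁻¹) * CFC.sqrt a

lemma gm_pd {a b : Matrix m m ℝ} (ha : a.PosDef) (hb : b.PosDef) : (gm a b).PosDef :=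
  cjd (sq_pd (cjd hb (sq_pd ha).inv)) (sq_pd ha)

lemma gm_eq {a b : Matrix m m ℝ} (ha : a.PosDef) (hb : b.PosDef) : gm a b * a⁻¹ * gm a b = b := by
  have r := ud (sq_pd ha)
  have e := ss (cjd hb (sq_pd ha).inv).posSemidef
  have : a⁻¹ = (CFC.sqrt a)⁻¹ * (CFC.sqrt a)⁻¹ := by rw [← Matrix.mul_inv_rev, ss ha.posSemidef]
  rw [gm, this]
  simp only [mul_assoc, mul_nonsing_inv_cancel_left _ _ r, nonsing_inv_mul_cancel_left _ _ r] at e ⊢
  rw [← mul_assoc (CFC.sqrt (_ * _)), e]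
  simp only [mul_assoc, mul_nonsing_inv_cancel_left _ _ r, nonsing_inv_mul _ r, mul_one]

lemma gm_uniq {a x y : Matrix m m ℝ} (ha : a.PosDef) (hx : x.PosSemidef) (hy : y.PosSemidef)
    (h : x * a * x = y * a * y) : x = y := by
  have r := sq_pd ha
  have k : ∀ z : Matrix m m ℝ, CFC.sqrt a * z * CFC.sqrt a * (CFC.sqrt a * z * CFC.sqrt a) =
      CFC.sqrt a * (z * a * z) * CFC.sqrt a := fun z => by
    conv_rhs => rw [← ss ha.posSemidef]
    rw [CFC.sqrt_mul_self _ r.posSemidef.nonneg]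
    simp only [mul_assoc]
  have := (CFC.sqrt_unique (k x) (cj hx r.1).nonneg).symm.trans
    (h ▸ CFC.sqrt_unique (k y) (cj hy r.1).nonneg)
  exact r.isUnit.mul_left_cancel (r.isUnit.mul_right_cancel this)

lemma amgm {a b q γ : Matrix m m ℝ} (ha : a.PosDef) (hq : q.IsHermitian) (h : q * a⁻¹ * q = b)
    (h1 : a ≤ γ) (h2 : b ≤ γ) : q ≤ γ := by
  have := ((cj ha.inv.posSemidef (ha.1.sub hq)).add (PosSemidef.add h1 h2)).smul
    (show (0 : ℝ) ≤ 2⁻¹ by norm_num)
  simp only [mul_sub, sub_mul, mul_nonsing_inv _ (ud ha), one_mul, h,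
    nonsing_inv_mul_cancel_right _ _ (ud ha)] at this
  exact pe this (by module)

lemma compr {p P : Matrix m m ℝ} (hp : p.PosDef) (hP : P.IsHermitian) (h : P * P = P) :
    (P * p * P + (1 - P)).PosDef ∧ (P * p * P + (1 - P)).det ≤ D p := by
  have hs := hp.1.isSelfAdjoint
  have q : (1 - P).PosSemidef := by
    have := cj PosSemidef.one (isHermitian_one.sub hP)
    simpa [mul_sub, sub_mul, h] using this
  have pd : (P * p * P + (1 - P)).PosDef := ((cj hp.posSemidef hP).add q).posDef_iff_isUnit.2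
    (IsUnit.of_mul_eq_one (P * (P * p * P + (1 - P) * p * (1 - P))⁻¹ * P + (1 - P)) (by
      have u : (P * p * P + (1 - P) * p * (1 - P)).PosDef := by
        have := (hp.add (hp.conjTranspose_mul_mul_same (B := P - (1 - P)) (mulVec_injective_of_isUnit
          (IsUnit.of_mul_eq_one (P - (1 - P)) (by simp [mul_sub, sub_mul, h]))))).smul
          (show (0 : ℝ) < 2⁻¹ by norm_num)
        rw [(hP.sub (isHermitian_one.sub hP)).eq] at this
        convert this using 1
        simp only [mul_sub, sub_mul, mul_one, one_mul]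
        module
      have e := congrArg (fun x => P * x * P) (mul_nonsing_inv _ (ud u))
      simp only [mul_add, add_mul, mul_sub, sub_mul, mul_one, one_mul, ← mul_assoc, h,
        mul_assoc _ P P, sub_self, add_zero, zero_add] at e ⊢
      rw [e]
      abel))
  refine ⟨pd, ?_⟩
  have r : (cfc (max · (1 : ℝ)) p - 1).PosSemidef := by
    rw [← cfc_const_one ℝ p]
    exact cfc_mono (fun x _ => le_max_right _ _) (co _ _) (co _ _)
  have l : p ≤ cfc (max · (1 : ℝ)) p := by
    conv_lhs => rw [← cfc_id' ℝ p]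
    exact cfc_mono (fun x _ => le_max_left _ _) (co _ _) (co _ _)
  have s := (CFC.sqrt_nonneg (cfc (max · (1 : ℝ)) p - 1)).posSemidef
  refine (det_mono pd (add_le_add_left (cjl l hP) _)).trans ?_
  rw [D_eq hp.1]
  set c := cfc (max · (1 : ℝ)) p
  have e : P * c * P + (1 - P) = 1 + P * CFC.sqrt (c - 1) * (CFC.sqrt (c - 1) * P) := by
    rw [mul_assoc P (CFC.sqrt _), ← mul_assoc (CFC.sqrt _), ss r, sub_mul, mul_sub, one_mul, h,
      mul_assoc]
    abel
  have hP' : P.PosSemidef := by simpa [h] using cj PosSemidef.one hP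
  rw [e, det_one_add_mul_comm, ← mul_assoc, mul_assoc _ P P, h]
  refine det_mono (PosDef.one.add_posSemidef (cj hP' s.1)) ?_
  have := cjl (show P ≤ 1 from q) s.1
  rw [mul_one, ss r] at this
  exact le_sub_iff_add_le'.1 this

lemma D_gm {a b q : Matrix m m ℝ} (ha : a.PosDef) (hb : b.PosDef) (hq : q.PosDef)
    (h : q * a⁻¹ * q = b) : D q * D q ≤ D a * D b := by
  have hs := hq.1.isSelfAdjoint
  set P := cfc (fun x : ℝ => if 1 < x then (1 : ℝ) else 0) q with hPd
  have hP : P.IsHermitian := cfc_predicate _ q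
  have hPP : P * P = P := by
    rw [hPd, ← cfc_mul _ _ _ (co _ _) (co _ _)]
    congr 1
    funext x
    split_ifs <;> simp
  have e : cfc (max · (1 : ℝ)) q = P * q * P + (1 - P) := by
    conv_rhs => rw [hPd, ← cfc_const_one ℝ q]; enter [1, 1, 2]; rw [← cfc_id' ℝ q]
    rw [← cfc_mul _ _ _ (co _ _) (co _ _), ← cfc_mul _ _ _ (co _ _) (co _ _),
      ← cfc_sub _ _ _ (co _ _) (co _ _), ← cfc_add _ _ _ (co _ _) (co _ _)]
    congr 1
    funext x
    split_ifs with c
    · simp [c.le]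
    · simp [not_lt.1 c]
  obtain ⟨a1, a2⟩ := compr ha hP hPP
  obtain ⟨b1, b2⟩ := compr hb hP hPP
  obtain ⟨q1, -⟩ := compr hq hP hPP
  rw [D_eq hq.1, e]
  letI := ha.isUnit.invertible
  letI := a1.isUnit.invertible
  have k1 : (fromBlocks a q qᴴ b).PosSemidef := by
    rw [ha.fromBlocks₁₁, hq.1.eq, h, sub_self]
    exact PosSemidef.zero
  have k2 := (k1.conjTranspose_mul_mul_same (fromBlocks P 0 0 P)).add
    (posSemidef_conjTranspose_mul_self (fromCols (1 - P) (1 - P)))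
  have e2 : (1 - P) * (1 - P) = 1 - P := by simp [mul_sub, sub_mul, hPP]
  simp only [fromBlocks_conjTranspose, fromBlocks_multiply, conjTranspose_zero, hP.eq, hq.1.eq,
    conjTranspose_fromCols_eq_fromRows_conjTranspose, fromRows_mul_fromCols, fromBlocks_add,
    (isHermitian_one.sub hP).eq, e2, Matrix.zero_mul, Matrix.mul_zero, add_zero, zero_add] at k2
  rw [← congrArg (fromBlocks _ _ · _) q1.1.eq, a1.fromBlocks₁₁, q1.1.eq] at k2
  have k3 := det_mono (cjd a1.inv q1) k2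
  rw [det_mul, det_mul, det_nonsing_inv, Ring.inverse_eq_inv', mul_right_comm, ← div_eq_mul_inv,
    div_le_iff₀' a1.det_pos] at k3
  exact k3.trans (mul_le_mul a2 b2 b1.det_pos.le (zero_le_one.trans (D_one a)))

end Pool.Agent.H95.Sqz
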