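import Pool.Agent.H95.SqzA

set_option autoImplicit false

namespace Pool.Agent.H95.Sqz

open Matrix Finset
open scoped MatrixOrder Kronecker ComplexOrder

section
variable {m : Type} [Fintype m] [DecidableEq m]

def Fm (σ : Matrix m m ℝ) : Prop := σᵀ = -σ ∧ σ * σ = -1

def Pu (σ p : Matrix m m ℝ) : Prop := p.PosDef ∧ p * σ * p = σ

def HS (σ γ : Matrix m m ℝ) : Set ℝ := {r | ∃ p, Pu σ p ∧ p ≤ γ ∧ r = Real.log (D p) / 2}

lemma HS_bdd (σ γ : Matrix m m ℝ) : BddBelow (HS σ γ) := ⟨0, by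
  rintro _ ⟨p, -, -, rfl⟩
  exact div_nonneg (Real.log_nonneg (D_one p)) two_pos.le⟩

variable {σ : Matrix m m ℝ} (hσ : Fm σ)
include hσ

lemma s2 (x : Matrix m m ℝ) : σ * (σ * x) = -x := by rw [← mul_assoc, hσ.2, neg_mul, one_mul]

lemma cs {a : Matrix m m ℝ} (h : a.PosSemidef) : (-(σ * a * σ)).PosSemidef := by
  simpa [hσ.1] using h.conjTranspose_mul_mul_same σ

lemma csd {a : Matrix m m ℝ} (h : a.PosDef) : (-(σ * a * σ)).PosDef := by
  have u : IsUnit σ := IsUnit.of_mul_eq_one (-σ) (by simp [hσ.2])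
  exact (cs hσ h.posSemidef).posDef_iff_isUnit.2 ((u.mul h.isUnit).mul u).neg

lemma Pu.inv {p : Matrix m m ℝ} (h : Pu σ p) : p⁻¹ = -(σ * p * σ) :=
  inv_eq_right_inv (by rw [mul_neg, ← mul_assoc, ← mul_assoc, h.2, hσ.2, neg_neg])

lemma pu_of {p : Matrix m m ℝ} (h : p.PosDef) (e : p⁻¹ = -(σ * p * σ)) : Pu σ p := by
  have := congrArg (· * σ) (mul_nonsing_inv _ (ud h))
  simp only [e, mul_neg, neg_mul, mul_assoc, hσ.2, mul_one, neg_neg, one_mul] at this
  exact ⟨h, by rw [mul_assoc, this]⟩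

lemma Pu.sqrt {p : Matrix m m ℝ} (h : Pu σ p) : Pu σ (CFC.sqrt p) := by
  have r := sq_pd h.1
  refine pu_of hσ r (gm_uniq PosDef.one r.inv.posSemidef (cs hσ r.posSemidef) ?_)
  rw [mul_one, mul_one, ← Matrix.mul_inv_rev, ss h.1.posSemidef, h.inv hσ]
  simp only [mul_neg, neg_mul, mul_assoc, s2 hσ, neg_neg]
  rw [← mul_assoc (CFC.sqrt p), ss h.1.posSemidef]

lemma pu_gm {a b q : Matrix m m ℝ} (ha : a.PosDef) (hb : b.PosDef) (hq : q.PosDef)
    (h : q * a⁻¹ * q = b) (e : Pu σ a ∧ Pu σ b ∨ b = -(σ * a⁻¹ * σ)) : Pu σ q := by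
  rcases e with ⟨h1, h2⟩ | e
  · refine pu_of hσ hq (gm_uniq ha hq.inv.posSemidef (cs hσ hq.posSemidef) ?_)
    have e1 : q⁻¹ * a * q⁻¹ = b⁻¹ := by
      rw [← h, Matrix.mul_inv_rev, Matrix.mul_inv_rev, nonsing_inv_nonsing_inv _ (ud ha), mul_assoc]
    rw [e1, h2.inv hσ, ← h, h1.inv hσ]
    simp only [mul_neg, neg_mul, mul_assoc, neg_neg]
  · refine pu_of hσ hq (gm_uniq hb hq.inv.posSemidef (cs hσ hq.posSemidef) ?_)
    have e1 : q⁻¹ * b * q⁻¹ = a⁻¹ := by
      rw [← h, ← mul_assoc, ← mul_assoc, nonsing_inv_mul _ (ud hq), one_mul,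
        mul_nonsing_inv_cancel_right _ _ (ud hq)]
    have := congrArg (fun x => -(σ * x * σ)) (h.trans e)
    rw [e1, e]
    simp only [mul_neg, neg_mul, mul_assoc, s2 hσ, neg_neg, hσ.2, mul_one] at this ⊢
    exact this.symm

lemma pu_sp {S : Matrix m m ℝ} (h : Sᵀ * σ * S = σ) : Pu σ (Sᵀ * S) := by
  have e : -(σ * Sᵀ * σ) * S = 1 := by
    rw [neg_mul, mul_assoc σ, mul_assoc σ, h, hσ.2, neg_neg]
  have u : IsUnit S := IsUnit.of_mul_eq_one_right _ e
  have e2 := congrArg (· * σ) (mul_eq_one_comm.1 e)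
  simp only [mul_neg, neg_mul, mul_assoc, hσ.2, mul_one, neg_neg, one_mul] at e2
  refine ⟨by simpa using PosDef.one.conjTranspose_mul_mul_same (mulVec_injective_of_isUnit u), ?_⟩
  rw [mul_assoc, mul_assoc, ← mul_assoc σ, ← mul_assoc S, e2, ← mul_assoc, h]

lemma top {p : Matrix m m ℝ} (h : Pu σ p) (n : ℕ) (hn : Fintype.card m = 2 * n) :
    ∑ i with i.val < n, Real.log √(h.1.1.eigenvalues₀ i) = Real.log (D p) / 2 := by
  have hs := h.1.1.isSelfAdjoint
  set e := h.1.1.eigenvalues₀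
  have pos : ∀ i, 0 < e i := fun i => by
    simpa [e, IsHermitian.eigenvalues] using
      h.1.eigenvalues_pos (Fintype.equivOfCardEq (Fintype.card_fin _) i)
  have anti : Antitone e := h.1.1.eigenvalues₀_antitone
  have r : p.charpoly.roots = Multiset.map e univ.val := h.1.1.roots_charpoly_eq_eigenvalues₀
  have c : p⁻¹.charpoly = p.charpoly := by
    rw [h.inv hσ, ← neg_mul, charpoly_mul_comm, mul_neg, ← mul_assoc, hσ.2, neg_mul, neg_neg, one_mul]
  have r2 : p.charpoly.roots = p.charpoly.roots.map (·⁻¹) := by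
    conv_lhs => rw [← c, nonsing_inv_eq_ringInverse, ← cfc_ringInverse_id (R := ℝ) p h.1.isUnit,
      h.1.1.charpoly_cfc_eq, prod_eq_multiset_prod]
    have := Polynomial.roots_multiset_prod_X_sub_C (univ.val.map fun i => (h.1.1.eigenvalues i)⁻¹)
    rw [Multiset.map_map] at this
    rw [h.1.1.roots_charpoly_eq_eigenvalues, Multiset.map_map]
    exact this
  have cnt : #{i | 1 < e i} = #{i | e i < 1} := by
    have := congrArg (Multiset.countP (1 < ·)) r2
    rw [r, Multiset.map_map, Multiset.countP_map, Multiset.countP_map] at this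
    exact this.trans (congrArg card (filter_congr (s := univ) fun i _ => one_lt_inv₀ (pos i)))
  have dj : #{i | 1 < e i} + #{i | e i < 1} ≤ 2 * n := by
    rw [← card_union_of_disjoint (disjoint_filter.2 fun i _ a b => lt_asymm a b), ← hn]
    exact (card_le_univ _).trans (Fintype.card_fin _).le
  have a1 : ∀ i, i.val < n → 1 ≤ e i := fun i hi => not_lt.1 fun c => by
    have := card_le_card (show Ici i ⊆ univ.filter fun i => e i < 1 from fun j hj =>
      mem_filter.2 ⟨mem_univ _, (anti (mem_Ici.1 hj)).trans_lt c⟩)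
    rw [Fin.card_Ici] at this
    omega
  have a2 : ∀ i, ¬ i.val < n → e i ≤ 1 := fun i hi => not_lt.1 fun c => by
    have := card_le_card (show Iic i ⊆ univ.filter fun i => 1 < e i from fun j hj =>
      mem_filter.2 ⟨mem_univ _, c.trans_le (anti (mem_Iic.1 hj))⟩)
    rw [Fin.card_Iic] at this
    omega
  rw [D, r, Multiset.map_map, ← prod_eq_multiset_prod, Real.log_prod fun i _ => by
    simp only [Function.comp]; positivity, sum_filter, sum_div]
  refine sum_congr rfl fun i _ => ?_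
  split_ifs with c
  · simp [Real.log_sqrt (pos i).le, a1 i c]
  · simp [a2 i c]

end

lemma fm_sig (n : ℕ) : Fm (sig n) := by
  constructor
  · rw [sig, ← kroneckerMap_transpose, transpose_one, ← neg_one_smul ℝ (_ ⊗ₖ _), ← kronecker_smul]
    congr 1
    ext i j
    fin_cases i <;> fin_cases j <;> simp
  · rw [sig, ← mul_kronecker_mul, mul_one, ← one_kronecker_one, ← neg_one_smul ℝ (_ ⊗ₖ _),
      ← kronecker_smul]
    congr 1
    ext i j
    fin_cases i <;> fin_cases j <;> simp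

lemma G_eq {n : ℕ} (γ : Mat n) : G γ = sInf (HS (sig n) γ) := by
  have c : Fintype.card (Ix n) = 2 * n := by simp [mul_comm]
  have f := fm_sig n
  refine congrArg sInf (Set.ext fun r => ⟨?_, ?_⟩)
  · rintro ⟨S, h1, h2, rfl⟩
    exact ⟨_, pu_sp f h1, h2, top f (pu_sp f h1) n c⟩
  · rintro ⟨p, h1, h2, rfl⟩
    have r := h1.sqrt f
    have t : (CFC.sqrt p)ᵀ = CFC.sqrt p := r.1.1
    have k : (CFC.sqrt p)ᵀ * sig n * CFC.sqrt p = sig n := by rw [t, r.2]
    have := top f (pu_sp f k) n c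
    refine ⟨_, k, by rwa [t, ss h1.1.posSemidef], Eq.trans ?_ this.symm⟩
    rw [t, ss h1.1.posSemidef]

lemma cov_q {n : ℕ} {γ : Mat n} (h : IsCov γ) (x y : Ix n → ℝ) :
    0 ≤ x ⬝ᵥ γ *ᵥ x + y ⬝ᵥ γ *ᵥ y + 2 * (x ⬝ᵥ sig n *ᵥ y) := by
  have := (Complex.nonneg_iff.1 (h.2.dotProduct_mulVec_nonneg fun i => x i + y i * Complex.I)).1
  have e : y ⬝ᵥ sig n *ᵥ x = -(x ⬝ᵥ sig n *ᵥ y) := by
    rw [dotProduct_mulVec, ← mulVec_transpose, (fm_sig n).1, neg_mulVec, neg_dotProduct,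
      dotProduct_comm]
  suffices 0 ≤ x ⬝ᵥ γ *ᵥ x + y ⬝ᵥ γ *ᵥ y + (x ⬝ᵥ sig n *ᵥ y - y ⬝ᵥ sig n *ᵥ x) by linarith
  refine this.trans_eq ?_
  simp only [dotProduct, mulVec, mul_sum, Complex.re_sum, ← sum_add_distrib, ← sum_sub_distrib]
  refine sum_congr rfl fun i _ => sum_congr rfl fun j _ => ?_
  simp
  ring

lemma cov_pd {n : ℕ} {γ : Mat n} (h : IsCov γ) : γ.PosDef ∧ -(sig n * γ⁻¹ * sig n) ≤ γ := by
  have f := fm_sig n
  have hh : γ.IsHermitian := h.1
  have k : (fromBlocks γ (sig n) (sig n)ᴴ γ).PosSemidef := by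
    refine .of_dotProduct_mulVec_nonneg (.fromBlocks hh rfl hh) fun v => ?_
    have := cov_q h (v ∘ Sum.inl) (v ∘ Sum.inr)
    rw [← Sum.elim_comp_inl_inr v, fromBlocks_mulVec, star_trivial, sumElim_dotProduct_sumElim]
    simp only [Sum.elim_comp_inl, Sum.elim_comp_inr, dotProduct_add,
      conjTranspose_eq_transpose_of_trivial]
    rw [dotProduct_mulVec _ (sig n)ᵀ, vecMul_transpose, dotProduct_comm (sig n *ᵥ _)]
    linarith
  have ps : γ.PosSemidef := k.submatrix Sum.inl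
  have pd : γ.PosDef := ps.posDef_iff_isUnit.2 (mulVec_injective_iff_isUnit.1
    ((injective_iff_map_eq_zero γ.mulVecLin).2 fun x (hx : γ *ᵥ x = 0) => by
      have := congrArg (· ∘ Sum.inr) ((k.dotProduct_mulVec_zero_iff (Sum.elim x 0)).1 (by
        simp [fromBlocks_mulVec, sumElim_dotProduct_sumElim, hx]))
      simp only [fromBlocks_mulVec, Sum.elim_comp_inl, Sum.elim_comp_inr, mulVec_zero, add_zero,
        conjTranspose_eq_transpose_of_trivial, f.1] at this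
      have := congrArg (sig n *ᵥ ·) this
      simpa [mulVec_mulVec, f.2, Function.comp_def, ← Pi.zero_def] using this))
  letI := pd.isUnit.invertible
  rw [pd.fromBlocks₁₁, conjTranspose_eq_transpose_of_trivial, f.1, neg_mul, neg_mul] at k
  exact ⟨pd, k⟩

lemma cov_pu {n : ℕ} {γ : Mat n} (h : IsCov γ) : Pu (sig n) (gm γ (-(sig n * γ⁻¹ * sig n))) ∧
    gm γ (-(sig n * γ⁻¹ * sig n)) ≤ γ := by
  obtain ⟨a, b⟩ := cov_pd h
  have c := csd (fm_sig n) a.inv
  exact ⟨pu_gm (fm_sig n) a c (gm_pd a c) (gm_eq a c) (.inr rfl),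
    amgm a (gm_pd a c).1 (gm_eq a c) le_rfl b⟩

lemma HS_ne {n : ℕ} {γ : Mat n} (h : IsCov γ) : (HS (sig n) γ).Nonempty :=
  ⟨_, _, (cov_pu h).1, (cov_pu h).2, rfl⟩

section
variable {k l : Type} [Fintype k] [DecidableEq k] [Fintype l] [DecidableEq l]

lemma HS_sub (e : k ≃ l) (σ γ : Matrix l l ℝ) :
    HS σ γ ⊆ HS (σ.submatrix e e) (γ.submatrix e e) := by
  rintro _ ⟨p, h1, h2, rfl⟩
  refine ⟨p.submatrix e e, ⟨h1.1.submatrix e.injective, by
    rw [submatrix_mul_equiv, submatrix_mul_equiv, h1.2]⟩, PosSemidef.submatrix h2 e, ?_⟩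
  rw [D, D, ← charpoly_reindex e.symm]
  rfl

lemma HS_re (e : k ≃ l) (σ γ : Matrix l l ℝ) :
    HS (σ.submatrix e e) (γ.submatrix e e) = HS σ γ :=
  ((HS_sub e.symm _ _).trans (by simp)).antisymm (HS_sub e σ γ)

lemma D_blk (a : Matrix k k ℝ) (b : Matrix l l ℝ) : D (fromBlocks a 0 0 b) = D a * D b := by
  rw [D, charpoly_fromBlocks_zero₁₂, Polynomial.roots_mul
    ((charpoly_monic _).mul (charpoly_monic _)).ne_zero, Multiset.map_add, Multiset.prod_add, D, D]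

lemma psd_blk {a : Matrix k k ℝ} {b : Matrix l l ℝ} (ha : a.PosSemidef) (hb : b.PosSemidef) :
    (fromBlocks a 0 0 b).PosSemidef := by
  have := posSemidef_conjTranspose_mul_self (fromBlocks (CFC.sqrt a) 0 0 (CFC.sqrt b))
  simpa [fromBlocks_conjTranspose, fromBlocks_multiply, -conjTranspose_eq_transpose_of_trivial,
    (CFC.sqrt_nonneg a).posSemidef.1.eq, (CFC.sqrt_nonneg b).posSemidef.1.eq, ss ha, ss hb] using this

lemma add_abs {σ A : Matrix k k ℝ} {τ B : Matrix l l ℝ} (hσ : Fm σ) (hτ : Fm τ)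
    (hA : (HS σ A).Nonempty) (hB : (HS τ B).Nonempty) :
    sInf (HS (fromBlocks σ 0 0 τ) (fromBlocks A 0 0 B)) = sInf (HS σ A) + sInf (HS τ B) := by
  have lg : ∀ (a : Matrix k k ℝ) (b : Matrix l l ℝ), Real.log (D (fromBlocks a 0 0 b)) / 2 =
      Real.log (D a) / 2 + Real.log (D b) / 2 := fun a b => by
    rw [D_blk, Real.log_mul (one_pos.trans_le (D_one a)).ne' (one_pos.trans_le (D_one b)).ne', add_div]
  have up : ∀ a ∈ HS σ A, ∀ b ∈ HS τ B, a + b ∈ HS (fromBlocks σ 0 0 τ) (fromBlocks A 0 0 B) := by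
    rintro _ ⟨a, a1, a2, rfl⟩ _ ⟨b, b1, b2, rfl⟩
    refine ⟨fromBlocks a 0 0 b, ⟨(psd_blk a1.1.posSemidef b1.1.posSemidef).posDef_iff_isUnit.2
      (isUnit_fromBlocks_zero₂₁.2 ⟨a1.1.isUnit, b1.1.isUnit⟩), by
        simp [fromBlocks_multiply, a1.2, b1.2]⟩, pe (psd_blk a2 b2) (by
          ext (i | i) (j | j) <;> simp), (lg a b).symm⟩
  have f : Fm (fromBlocks σ 0 0 τ) := ⟨by simp [fromBlocks_transpose, hσ.1, hτ.1, fromBlocks_neg], by
    simp [fromBlocks_multiply, hσ.2, hτ.2, ← fromBlocks_one, fromBlocks_neg]⟩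
  refine le_antisymm (sub_le_iff_le_add.1 (le_csInf hA fun a ha => sub_le_comm.1 (le_csInf hB
    fun b hb => sub_le_iff_le_add'.2 (csInf_le (HS_bdd _ _) (up a ha b hb))))) (le_csInf
    ⟨_, up _ hA.some_mem _ hB.some_mem⟩ ?_)
  rintro _ ⟨p, h1, h2, rfl⟩
  set Z : Matrix (k ⊕ l) (k ⊕ l) ℝ := fromBlocks 1 0 0 (-1) with hZ
  have z1 : Z * Z = 1 := by simp [hZ, fromBlocks_multiply]
  have z2 : Z.IsHermitian := .fromBlocks isHermitian_one (by simp) isHermitian_one.neg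
  have z3 : ∀ (a : Matrix k k ℝ) (b : Matrix l l ℝ), Z * fromBlocks a 0 0 b * Z = fromBlocks a 0 0 b :=
    fun a b => by simp [hZ, fromBlocks_multiply]
  have z4 : ∀ x, Z * (Z * x) = x := fun x => by rw [← mul_assoc, z1, one_mul]
  have u : IsUnit Z := IsUnit.of_mul_eq_one _ z1
  have pd : (Z * p * Z).PosDef :=
    (cj h1.1.posSemidef z2).posDef_iff_isUnit.2 ((u.mul h1.1.isUnit).mul u)
  have pu : Pu (fromBlocks σ 0 0 τ) (Z * p * Z) := ⟨pd, by
    rw [← z3 σ τ]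
    simp only [mul_assoc, z4]
    rw [← mul_assoc p, ← mul_assoc (p * _), h1.2]⟩
  have q1 := gm_pd h1.1 pd
  have q2 := gm_eq h1.1 pd
  set q := gm p (Z * p * Z)
  have q3 := pu_gm f h1.1 pd q1 q2 (.inl ⟨h1, pu⟩)
  have q4 := amgm h1.1 q1.1 q2 h2 ((cjl h2 z2).trans_eq (z3 A B))
  have q5 := D_gm h1.1 pd q1 q2
  have zi : Z⁻¹ = Z := inv_eq_right_inv z1
  have q6 : Z * q * Z = q := gm_uniq pd.inv (cj q1.posSemidef z2) q1.posSemidef (by
    have e : (Z * p * Z)⁻¹ = q⁻¹ * p * q⁻¹ := by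
      rw [← q2, Matrix.mul_inv_rev, Matrix.mul_inv_rev, nonsing_inv_nonsing_inv _ (ud h1.1), mul_assoc]
    conv_rhs => rw [e, ← mul_assoc, ← mul_assoc, mul_nonsing_inv _ (ud q1), one_mul,
      nonsing_inv_mul_cancel_right _ _ (ud q1)]
    rw [Matrix.mul_inv_rev, Matrix.mul_inv_rev, zi]
    simp only [mul_assoc, z4]
    rw [← mul_assoc p⁻¹, ← mul_assoc q, ← mul_assoc q, q2]
    simp only [mul_assoc, z4, z1, mul_one])
  have dz : D (Z * p * Z) = D p := by rw [D, charpoly_mul_comm, ← mul_assoc, z1, one_mul, D]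
  obtain ⟨a, c, d, b, e⟩ : ∃ a c d b, q = fromBlocks a c d b := ⟨_, _, _, _, (fromBlocks_toBlocks q).symm⟩
  rw [e] at q1 q3 q4 q5 q6
  simp only [hZ, fromBlocks_multiply, Matrix.mul_zero, Matrix.zero_mul, add_zero, zero_add,
    Matrix.mul_one, Matrix.one_mul, Matrix.mul_neg, Matrix.neg_mul, fromBlocks_inj, neg_eq_self,
    neg_zero] at q6
  obtain rfl : c = 0 := Matrix.ext fun i j => neg_eq_self.1 (congrFun₂ q6.2.1 i j)
  obtain rfl : d = 0 := Matrix.ext fun i j => neg_eq_self.1 (congrFun₂ q6.2.2.1 i j)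
  have q7 := q3.2
  simp only [fromBlocks_multiply, Matrix.mul_zero, Matrix.zero_mul, add_zero, zero_add,
    fromBlocks_inj] at q7
  refine (add_le_add (csInf_le (HS_bdd _ _) ⟨a, ⟨q1.submatrix Sum.inl_injective, q7.1⟩,
    PosSemidef.submatrix q4 Sum.inl, rfl⟩) (csInf_le (HS_bdd _ _) ⟨b, ⟨q1.submatrix
    Sum.inr_injective, q7.2.2.2⟩, PosSemidef.submatrix q4 Sum.inr, rfl⟩)).trans ?_
  rw [← lg]
  rw [dz] at q5
  gcongr
  · exact one_pos.trans_le (D_one _)
  · exact abs_le_of_sq_le_sq' (by rwa [sq, sq]) (zero_le_one.trans (D_one _)) |>.2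

end

theorem additive {a b : ℕ} {A : Mat a} {B : Mat b} (hA : IsCov A) (hB : IsCov B) :
    G (dsum A B) = G A + G B := by
  have : sig (a + b) = (fromBlocks (sig a) 0 0 (sig b)).submatrix (split a b) (split a b) := by
    ext ⟨i, s⟩ ⟨j, t⟩
    obtain ⟨i | i, rfl⟩ := finSumFinEquiv.surjective i <;>
    obtain ⟨j | j, rfl⟩ := finSumFinEquiv.surjective j <;>
    simp [sig, split, one_apply, -finSumFinEquiv_apply_left, -finSumFinEquiv_apply_right]
  rw [G_eq, G_eq, G_eq, this, dsum, HS_re, add_abs (fm_sig a) (fm_sig b) (HS_ne hA) (HS_ne hB)]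

end Pool.Agent.H95.Sqz
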