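import Pool.Agent.H95.SqzB

set_option autoImplicit false

namespace Pool.Agent.H95.Sqz

open Matrix Finset Filter Topology
open scoped MatrixOrder

section
variable {m : Type} [Fintype m] [DecidableEq m] {X : Type} [TopologicalSpace X]

open scoped Matrix.Norms.L2Operator in
lemma c_sqrt {f : X → Matrix m m ℝ} (h : Continuous f) (hp : ∀ x, (f x).PosSemidef) :
    Continuous fun x => CFC.sqrt (f x) :=
  CFC.continuousOn_sqrt.comp_continuous h fun x => (hp x).nonneg

open scoped Matrix.Norms.L2Operator in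
lemma c_abs : Continuous (CFC.abs : Matrix m m ℝ → Matrix m m ℝ) := CFC.continuous_abs

lemma c_inv {f : X → Matrix m m ℝ} (h : Continuous f) (hp : ∀ x, (f x).PosDef) :
    Continuous fun x => (f x)⁻¹ := continuous_iff_continuousAt.2 fun x =>
  (continuousAt_matrix_inv _ (by
    rw [Ring.inverse_eq_inv']
    exact continuousAt_inv₀ (hp x).det_pos.ne')).comp h.continuousAt

lemma cl_psd {f : X → Matrix m m ℝ} (h : Continuous f) : IsClosed {x | (f x).PosSemidef} := by
  rw [show {x | (f x).PosSemidef} = {x | CFC.abs (f x) = f x} from Set.ext fun x =>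
    ⟨fun a => CFC.abs_of_nonneg _ (PosSemidef.nonneg a), fun a =>
      pe (CFC.abs_nonneg (f x)).posSemidef a⟩]
  exact isClosed_eq (c_abs.comp h) h

noncomputable def Dc (p : Matrix m m ℝ) : ℝ := ((2⁻¹ : ℝ) • (CFC.abs (p - 1) + p + 1)).det

lemma c_Dc : Continuous (Dc : Matrix m m ℝ → ℝ) :=
  ((((c_abs.comp (continuous_id.sub continuous_const)).add continuous_id).add
    continuous_const).const_smul (2⁻¹ : ℝ)).matrix_det

lemma D_Dc {p : Matrix m m ℝ} (h : p.IsHermitian) : D p = Dc p := by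
  have hs := h.isSelfAdjoint
  have e : p - 1 = cfc (fun x : ℝ => x - 1) p := by
    rw [cfc_sub _ _ _ (co _ _) (co _ _), cfc_id' ℝ p, cfc_const_one ℝ p]
  rw [D_eq h, Dc, CFC.abs_eq_cfc_norm _ (h.sub isHermitian_one).isSelfAdjoint, e,
    ← cfc_comp' _ _ _ (((Matrix.finite_real_spectrum (A := p)).image _).continuousOn _) (co _ _)]
  conv_rhs => rw [← cfc_const_one ℝ p]; enter [1, 2, 1, 2]; rw [← cfc_id' ℝ p]
  rw [← cfc_add _ _ _ (co _ _) (co _ _), ← cfc_add _ _ _ (co _ _) (co _ _),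
    ← cfc_smul _ _ _ (co _ _)]
  congr 2
  funext x
  rw [Real.norm_eq_abs, smul_eq_mul]
  rcases le_total x 1 with c | c
  · rw [max_eq_right c, abs_of_nonpos (by linarith)]; ring
  · rw [max_eq_left c, abs_of_nonneg (by linarith)]; ring

lemma doug {σ A K : Matrix m m ℝ} (hA : A.PosSemidef) (h1 : K ≤ A) (h2 : -K ≤ A)
    (c : Commute A σ) (a : σ * K = -(K * σ)) :
    ∃ C, C ≤ 1 ∧ -C ≤ 1 ∧ σ * C = -(C * σ) ∧ CFC.sqrt A * C * CFC.sqrt A = K := by
  have r := (CFC.sqrt_nonneg A).posSemidef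
  have hs := r.1.isSelfAdjoint
  have rr := ss hA
  have c1 : Commute (CFC.sqrt A) σ := c.cfcₙ_nnreal _
  set R := CFC.sqrt A
  set W := cfc (fun x : ℝ => x⁻¹) R with hW
  have w : W.IsHermitian := cfc_predicate _ R
  have c2 : Commute W σ := c1.cfc_real _
  have q1 : R * W = cfc (fun x : ℝ => x * x⁻¹) R := by
    rw [cfc_mul _ _ _ (co _ _) (co _ _), cfc_id' ℝ R]
  have q2 : W * R = R * W := by
    rw [q1, hW]
    conv_lhs => enter [2]; rw [← cfc_id' ℝ R]
    rw [← cfc_mul _ _ _ (co _ _) (co _ _)]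
    simp only [mul_comm]
  have q3 : R * W * R = R := by
    rw [q1]
    conv_lhs => enter [2]; rw [← cfc_id' ℝ R]
    rw [← cfc_mul _ _ _ (co _ _) (co _ _)]
    conv_rhs => rw [← cfc_id' ℝ R]
    congr 1
    funext x
    by_cases x = 0 <;> simp [*]
  have q4 : W * A * W ≤ 1 := by
    rw [← rr, ← mul_assoc, q2, q3, q1, ← cfc_const_one ℝ R]
    exact cfc_mono (fun x _ => by by_cases x = 0 <;> simp [*]) (co _ _) (co _ _)
  have hP : (1 - R * W).IsHermitian := isHermitian_one.sub (by rw [q1]; exact cfc_predicate _ R)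
  have z : (1 - R * W) * A = 0 := by rw [← rr, ← mul_assoc, sub_mul, q3, one_mul, sub_self, zero_mul]
  have k0 : (1 - R * W) * (A - K) * (1 - R * W) = 0 := by
    refine le_antisymm ?_ (cj h1 hP).nonneg
    have := cjl h2 hP
    rw [z, zero_mul, mul_neg] at this
    rwa [mul_sub _ A, z, zero_sub]
  have k1 : (1 - R * W) * K = 0 := by
    have s := (CFC.sqrt_nonneg (A - K)).posSemidef
    have : (1 - R * W) * CFC.sqrt (A - K) = 0 := by
      rw [← self_mul_conjTranspose_eq_zero, conjTranspose_mul, s.1.eq, hP.eq, ← mul_assoc,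
        mul_assoc _ _ (CFC.sqrt _), ss h1, k0]
    have := congrArg (· * CFC.sqrt (A - K)) this
    simpa only [mul_assoc _ (CFC.sqrt (A - K)), ss h1, zero_mul, mul_sub, z, zero_sub,
      neg_eq_zero] using this
  have hK : K.IsHermitian := by simpa using hA.1.sub (PosSemidef.isHermitian h1)
  have k2 := congrArg conjTranspose k1
  rw [conjTranspose_mul, hK.eq, hP.eq, conjTranspose_zero, mul_sub, mul_one, sub_eq_zero] at k2
  rw [sub_mul, one_mul, sub_eq_zero] at k1
  refine ⟨W * K * W, (cjl h1 w).trans q4, by simpa using (cjl h2 w).trans q4, ?_, ?_⟩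
  · rw [← mul_assoc, ← mul_assoc, ← c2.eq, mul_assoc W, a, mul_assoc _ W, c2.eq]
    simp only [mul_neg, neg_mul, mul_assoc]
  · rw [← mul_assoc, ← mul_assoc, ← k1, mul_assoc, q2, ← k2]

lemma pd' {a b : Matrix m m ℝ} (h : a.PosDef) (e : a = b) : b.PosDef := e ▸ h

lemma i2 {a : Matrix m m ℝ} (h : a.PosDef) : ((2 : ℝ) • a⁻¹)⁻¹ = (2⁻¹ : ℝ) • a :=
  inv_eq_right_inv (by simp [smul_smul, nonsing_inv_mul _ (ud h)])

lemma cinv {a σ : Matrix m m ℝ} (h : a.PosDef) (c : Commute a σ) : Commute a⁻¹ σ := by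
  have := congrArg (fun z => a⁻¹ * z * a⁻¹) c.eq
  simp only [mul_assoc, nonsing_inv_mul_cancel_left _ _ (ud h), mul_nonsing_inv _ (ud h),
    mul_one] at this
  exact this.symm

lemma cay {σ g K : Matrix m m ℝ} (hg : g.PosDef) (h1 : K ≤ 1 - (2 : ℝ) • (1 + g)⁻¹)
    (h2 : -K ≤ 1 - (2 : ℝ) • (1 + g)⁻¹) (h3 : σ * K = -(K * σ)) :
    (1 - K).PosDef ∧ Pu σ ((2 : ℝ) • (1 - K)⁻¹ - 1) ∧ (2 : ℝ) • (1 - K)⁻¹ - 1 ≤ g := by
  have a := PosDef.one.add hg
  have b := a.inv.smul (two_pos (α := ℝ))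
  have x : (1 - K).PosDef := pd' (b.add_posSemidef h1) (by abel)
  have y : (1 + K).PosDef := pd' (b.add_posSemidef h2) (by abel)
  have e1 := mul_nonsing_inv _ (ud x)
  have e2 := nonsing_inv_mul _ (ud x)
  have e : 1 + K = (2 : ℝ) • 1 - (1 - K) := by module
  refine ⟨x, ⟨?_, ?_⟩, ?_⟩
  · refine pd' ((y.add (cjd x.inv y)).smul (show (0 : ℝ) < 2⁻¹ by norm_num)) ?_
    rw [e]
    generalize 1 - K = Z at *
    simp only [mul_sub, sub_mul, e1, smul_mul_assoc, mul_smul_comm, one_mul, mul_one, e2]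
    module
  · have : σ * (1 - K) + (1 - K) * σ = (2 : ℝ) • σ := by
      rw [mul_sub, sub_mul, h3, mul_one, one_mul]
      module
    have := congrArg (fun z => (1 - K)⁻¹ * z * (1 - K)⁻¹) this
    generalize 1 - K = Z at *
    simp only [mul_sub, sub_mul, mul_add, add_mul, smul_mul_assoc, mul_smul_comm, one_mul, mul_one,
      ← mul_assoc, e2, mul_assoc _ Z, e1] at this ⊢
    rw [← this]
    module
  · have := inv_anti b (show _ ≤ 1 - K from pe h1 (by abel))
    rw [i2 a] at this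
    exact pe (PosSemidef.smul this (zero_le_two (α := ℝ))) (by module)

lemma Pu.cj {σ T p : Matrix m m ℝ} (hT : Pu σ T) (hp : Pu σ p) : Pu σ (T * p * T) :=
  ⟨cjd hp.1 hT.1, by
    calc _ = T * (p * (T * σ * T) * p) * T := by simp only [mul_assoc]
      _ = _ := by rw [hT.2, hp.2, hT.2]⟩

lemma Pu.iv {σ T : Matrix m m ℝ} (hT : Pu σ T) : Pu σ T⁻¹ :=
  ⟨hT.1.inv, by
    conv_lhs => rw [← hT.2]
    rw [mul_assoc T, nonsing_inv_mul_cancel_left _ _ (ud hT.1),
      mul_nonsing_inv_cancel_right _ _ (ud hT.1)]⟩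

end

lemma nf {n : ℕ} {γ T g : Mat n} (h : IsCov γ) (hT : T = CFC.sqrt (gm γ (-(sig n * γ⁻¹ * sig n))))
    (hg : g = T⁻¹ * γ * T⁻¹) : Pu (sig n) T ∧ g.PosDef ∧ (1 - (2 : ℝ) • (1 + g)⁻¹).PosSemidef ∧
      Commute (1 - (2 : ℝ) • (1 + g)⁻¹) (sig n) := by
  have f := fm_sig n
  obtain ⟨a, b⟩ := cov_pu h
  have pd := (cov_pd h).1
  have t : Pu (sig n) T := hT ▸ a.sqrt f
  have tt : T * T = _ := hT ▸ ss a.1.posSemidef
  have u := ud t.1
  have gd : g.PosDef := hg ▸ cjd pd t.1.inv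
  have g1 : 1 ≤ g := by
    have := cjl b t.1.inv.1
    rwa [← tt, nonsing_inv_mul_cancel_left _ _ u, mul_nonsing_inv _ u, ← hg] at this
  have e := gm_eq pd (csd f pd.inv)
  have c : Commute g⁻¹ (sig n) := by
    have := congrArg (fun z => T⁻¹ * z * T⁻¹ * sig n) e
    have i := t.iv.inv f
    rw [nonsing_inv_nonsing_inv _ u] at i
    rw [Commute, SemiconjBy, hg, Matrix.mul_inv_rev, Matrix.mul_inv_rev, nonsing_inv_nonsing_inv _ u]
    rw [← tt] at this
    simp only [mul_assoc, nonsing_inv_mul_cancel_left _ _ u, mul_nonsing_inv_cancel_left _ _ u]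
      at this ⊢
    generalize T⁻¹ = U at i this
    rw [this, i]
    simp only [mul_neg, neg_mul, mul_assoc, s2 f, neg_neg]
  have c1 : Commute (1 + g) (sig n) := (Commute.one_left _).add_left (by
    have := cinv gd.inv c
    rwa [nonsing_inv_nonsing_inv _ (ud gd)] at this)
  refine ⟨t, gd, ?_, (Commute.one_left _).sub_left ((cinv (PosDef.one.add gd) c1).smul_left _)⟩
  have := inv_anti (PosDef.one.smul (two_pos (α := ℝ))) (show _ ≤ 1 + g from pe g1 (by module))
  have i : ((2 : ℝ) • (1 : Mat n))⁻¹ = (2⁻¹ : ℝ) • 1 := inv_eq_right_inv (by simp [smul_smul])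
  rw [i] at this
  exact pe (PosSemidef.smul this (zero_le_two (α := ℝ))) (by module)

lemma sel {n : ℕ} (x : {γ : Mat n | IsCov γ}) {p : Mat n} (h1 : Pu (sig n) p) (h2 : p ≤ x.1) :
    ∃ P : {γ : Mat n | IsCov γ} → Mat n, Continuous P ∧ (∀ y, Pu (sig n) (P y) ∧ P y ≤ y.1) ∧
      P x = p := by
  have f := fm_sig n
  set T : {γ : Mat n | IsCov γ} → Mat n := fun y => CFC.sqrt (gm y.1 (-(sig n * y.1⁻¹ * sig n)))
  set g : {γ : Mat n | IsCov γ} → Mat n := fun y => (T y)⁻¹ * y.1 * (T y)⁻¹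
  set A : {γ : Mat n | IsCov γ} → Mat n := fun y => 1 - (2 : ℝ) • (1 + g y)⁻¹
  have N := fun y : {γ : Mat n | IsCov γ} => nf (T := T y) (g := g y) y.2 rfl rfl
  have pd := fun y : {γ : Mat n | IsCov γ} => (cov_pd y.2).1
  have c0 := c_sqrt continuous_subtype_val fun y => (pd y).posSemidef
  have c1 := c_inv c0 fun y => sq_pd (pd y)
  have cT : Continuous T := c_sqrt ((c0.mul (c_sqrt ((c1.mul ((continuous_const.mul
    (c_inv continuous_subtype_val pd)).mul continuous_const).neg).mul c1) fun y =>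
      (cjd (csd f (pd y).inv) (sq_pd (pd y)).inv).posSemidef)).mul c0) fun y =>
      (cov_pu y.2).1.1.posSemidef
  have c2 := c_inv cT fun y => (N y).1.1
  have cg : Continuous g := (c2.mul continuous_subtype_val).mul c2
  have cR := c_sqrt (f := A) (continuous_const.sub ((c_inv (continuous_const.add cg) fun y =>
    PosDef.one.add (N y).2.1).const_smul (2 : ℝ))) fun y => (N y).2.2.1
  have pq := (N x).1.iv.cj h1
  have lq : _ ≤ g x := cjl h2 (N x).1.1.inv.1
  set q := (T x)⁻¹ * p * (T x)⁻¹ with hq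
  have d := PosDef.one.add pq.1
  have k1 : 1 - (2 : ℝ) • (1 + q)⁻¹ ≤ A x :=
    pe (PosSemidef.smul (inv_anti d (add_le_add_right lq 1)) (zero_le_two (α := ℝ))) (by simp only [A]; module)
  have k2 : sig n * (1 - (2 : ℝ) • (1 + q)⁻¹) = -((1 - (2 : ℝ) • (1 + q)⁻¹) * sig n) := by
    have : sig n * (1 + q) + (1 + q) * sig n = (1 + q) * sig n * (1 + q) := by
      simp only [mul_add, add_mul, mul_one, one_mul, pq.2]
      abel
    have := congrArg (fun z => (1 + q)⁻¹ * z * (1 + q)⁻¹) this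
    generalize 1 + q = Z at *
    simp only [mul_sub, sub_mul, mul_add, add_mul, smul_mul_assoc, mul_smul_comm, one_mul, mul_one,
      mul_assoc, nonsing_inv_mul_cancel_left _ _ (ud d), mul_nonsing_inv _ (ud d)] at this ⊢
    linear_combination (norm := module) (-2 : ℝ) • this
  obtain ⟨C, b1, b2, b3, b4⟩ := doug (N x).2.2.1 k1 (pe (cs f k1) (by
    rw [mul_sub, sub_mul, k2, ← (N x).2.2.2.eq, neg_mul, mul_assoc, mul_assoc, f.2]
    simp only [A, mul_neg, mul_one]
    abel)) (N x).2.2.2 k2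
  have Y := fun y => cay (σ := sig n) (K := CFC.sqrt (A y) * C * CFC.sqrt (A y)) (N y).2.1
    ((cjl b1 (CFC.sqrt_nonneg _).posSemidef.1).trans_eq (by rw [mul_one, ss (N y).2.2.1]))
    (by
      have := cjl b2 (CFC.sqrt_nonneg (A y)).posSemidef.1
      rwa [mul_one, ss (N y).2.2.1, mul_neg, neg_mul] at this) (by
      have c : Commute (CFC.sqrt (A y)) (sig n) := (N y).2.2.2.cfcₙ_nnreal _
      rw [← mul_assoc, ← mul_assoc, ← c.eq, mul_assoc _ _ C, b3, mul_assoc _ (CFC.sqrt _), c.eq]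
      simp only [mul_neg, neg_mul, mul_assoc])
  refine ⟨fun y => T y * ((2 : ℝ) • (1 - CFC.sqrt (A y) * C * CFC.sqrt (A y))⁻¹ - 1) * T y,
    (cT.mul (((c_inv (continuous_const.sub ((cR.mul continuous_const).mul cR)) fun y =>
      (Y y).1).const_smul (2 : ℝ)).sub continuous_const)).mul cT, fun y => ⟨(N y).1.cj (Y y).2.1,
      (cjl (Y y).2.2 (N y).1.1.1).trans_eq ?_⟩, ?_⟩
  · simp only [g, mul_assoc, mul_nonsing_inv_cancel_left _ _ (ud (N y).1.1),
      nonsing_inv_mul _ (ud (N y).1.1), mul_one]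
  · simp only [A]
    rw [b4, sub_sub_cancel, i2 d, smul_smul, mul_inv_cancel₀ two_ne_zero, one_smul, add_sub_cancel_left]
    simp only [hq, mul_assoc, mul_nonsing_inv_cancel_left _ _ (ud (N x).1.1),
      nonsing_inv_mul _ (ud (N x).1.1), mul_one]

lemma ent {m : Type} [Fintype m] [DecidableEq m] {p : Matrix m m ℝ} (h : p.PosSemidef) (i j : m) :
    |p i j| ≤ p.trace := by
  have a := h.dotProduct_mulVec_nonneg (Pi.single i 1 + Pi.single j 1)
  have b := h.dotProduct_mulVec_nonneg (Pi.single i 1 - Pi.single j 1)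
  have c : p j i = p i j := h.1.apply i j
  have d := fun i => single_le_sum (f := p.diag) (fun i _ => h.diag_nonneg) (mem_univ i)
  simp [mulVec_add, mulVec_sub, c] at a b
  have d1 := d i
  have d2 := d j
  simp only [Matrix.diag] at d1 d2
  rw [abs_le, trace]
  simp only [Matrix.diag]
  constructor <;> linarith

theorem contG (n : ℕ) : ContinuousOn (G (n := n)) {γ | IsCov γ} := by
  have f := fm_sig n
  refine continuousOn_iff_continuous_restrict.2 (continuous_iff_continuousAt.2 fun x =>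
    tendsto_order.2 ⟨fun a ha => ?_, fun a ha => ?_⟩)
  · obtain ⟨b, h1, h2⟩ := exists_between ha
    have K : IsCompact (Set.univ.pi fun _ : Ix n => Set.univ.pi fun _ : Ix n =>
        Set.Icc (-(x.1.trace + 1)) (x.1.trace + 1)) :=
      isCompact_univ_pi fun _ => isCompact_univ_pi fun _ => isCompact_Icc
    have cl : IsClosed {z : {γ : Mat n | IsCov γ} × Mat n | z.2.PosSemidef ∧
        z.2 * sig n * z.2 = sig n ∧ (z.1.1 - z.2).PosSemidef ∧ Dc z.2 ≤ Real.exp (2 * b)} :=
      (cl_psd continuous_snd).inter ((isClosed_eq (by fun_prop) continuous_const).inter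
        ((cl_psd (by fun_prop)).inter (isClosed_le (c_Dc.comp continuous_snd) continuous_const)))
    have E := K.eventually_forall_of_forall_eventually (x₀ := x) (P := fun y p : _ =>
      (y, p) ∉ _) fun (p : Mat n) _ => cl.isOpen_compl.mem_nhds (by
        rintro ⟨p1, p2, p3, p4⟩
        have u : IsUnit p := IsUnit.of_mul_eq_one (-(sig n * p * sig n)) (by
          rw [mul_neg, ← mul_assoc, ← mul_assoc, p2, f.2, neg_neg])
        have := csInf_le (HS_bdd _ _) ⟨p, ⟨p1.posDef_iff_isUnit.2 u, p2⟩, p3, rfl⟩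
        have l := Real.log_le_log (one_pos.trans_le (D_one p)) ((D_Dc p1.1).trans_le p4)
        rw [Set.restrict_apply, G_eq] at h2
        rw [Real.log_exp] at l
        linarith)
    have t : Continuous fun y : {γ : Mat n | IsCov γ} => y.1.trace := by fun_prop
    filter_upwards [E, t.continuousAt.eventually_lt_const (lt_add_one _)] with y y1 y2
    rw [Set.restrict_apply, G_eq]
    refine h1.trans_le (le_csInf (HS_ne y.2) ?_)
    rintro _ ⟨p, p1, p2, rfl⟩
    by_contra c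
    refine y1 p (fun i _ j _ => abs_le.1 ((ent p1.1.posSemidef i j).trans ?_))
      ⟨p1.1.posSemidef, p1.2, p2, ?_⟩
    · have := (PosSemidef.trace_nonneg p2)
      rw [trace_sub] at this
      linarith
    · rw [← D_Dc p1.1.1, ← Real.log_le_iff_le_exp (one_pos.trans_le (D_one p))]
      linarith
  · rw [Set.restrict_apply, G_eq] at ha
    obtain ⟨_, ⟨p, p1, p2, rfl⟩, h⟩ := exists_lt_of_csInf_lt (HS_ne x.2) ha
    obtain ⟨P, c, h1, rfl⟩ := sel x p1 p2
    have e : ∀ y, D (P y) = Dc (P y) := fun y => D_Dc (h1 y).1.1.1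
    have t : Continuous fun y => Real.log (D (P y)) / 2 := (((c_Dc.comp c).congr fun y =>
      (e y).symm).log fun y => (one_pos.trans_le (D_one _)).ne').div_const _
    filter_upwards [t.continuousAt.eventually_lt_const h] with y hy
    rw [Set.restrict_apply, G_eq]
    exact (csInf_le (HS_bdd _ _) ⟨_, (h1 y).1, (h1 y).2, rfl⟩).trans_lt hy

end Pool.Agent.H95.Sqz
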