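import Mathlib

set_option autoImplicit false

namespace Pool.Agent.H95.Sqz

open Matrix
open scoped Kronecker ComplexOrder

/-- Labels of `Q₁, P₁, …, Qₙ, Pₙ`. -/
abbrev Ix (n : ℕ) : Type := Fin n × Fin 2

/-- Real `2n × 2n` matrices. -/
abbrev Mat (n : ℕ) : Type := Matrix (Ix n) (Ix n) ℝ

/-- The symplectic form. -/
def sig (n : ℕ) : Mat n := (1 : Matrix (Fin n) (Fin n) ℝ) ⊗ₖ !![(0 : ℝ), 1; -1, 0]

/-- Covariance matrices: real symmetric with `γ ≥ iσ`. -/
def IsCov {n : ℕ} (γ : Mat n) : Prop :=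
  γᵀ = γ ∧ (γ.map Complex.ofReal - Complex.I • (sig n).map Complex.ofReal).PosSemidef

/-- The singular values of `S` in decreasing order. -/
noncomputable def sv {n : ℕ} (S : Mat n) (i : Fin (Fintype.card (Ix n))) : ℝ :=
  √((isHermitian_conjTranspose_mul_self S).eigenvalues₀ i)

/-- The operational squeezing measure. -/
noncomputable def G {n : ℕ} (γ : Mat n) : ℝ :=
  sInf {r | ∃ S : Mat n, Sᵀ * sig n * S = sig n ∧ (γ - Sᵀ * S).PosSemidef ∧
    r = ∑ i with i.val < n, Real.log (sv S i)}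

/-- The modes of a composite system. -/
def split (a b : ℕ) : Ix (a + b) ≃ Ix a ⊕ Ix b :=
  (finSumFinEquiv.symm.prodCongr (Equiv.refl _)).trans (Equiv.sumProdDistrib _ _ _)

/-- The direct sum `A ⊕ B`. -/
def dsum {a b : ℕ} (A : Mat a) (B : Mat b) : Mat (a + b) :=
  (fromBlocks A 0 0 B).submatrix (split a b) (split a b)

end Pool.Agent.H95.Sqz
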