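import Pool.Agent.H95.Sr1Defs
import Pool.Agent.H95.L2

namespace Pool.Agent.H95.Sr1
open Filter Topology WithLp

def Sc (_n : ℕ) (B : Type) : Type := B

variable {B : Type} [NormedRing B] [NormedAlgebra ℂ B] [CompleteSpace B] (n : ℕ)

instance : NonUnitalRing (Sc n B) := inferInstanceAs (NonUnitalRing B)
instance : Module ℂ (Sc n B) := inferInstanceAs (Module ℂ B)
instance : IsScalarTower ℂ (Sc n B) (Sc n B) := inferInstanceAs (IsScalarTower ℂ B B)
instance : SMulCommClass ℂ (Sc n B) (Sc n B) := inferInstanceAs (SMulCommClass ℂ B B)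

noncomputable def toB : Sc n B →ₙₐ[ℂ] B := NonUnitalAlgHom.id ℂ B

noncomputable instance : NormedAddCommGroup (Sc n B) := AddGroupNorm.toNormedAddCommGroup
  { toFun := fun x => (n + 1) * ‖toB n x‖
    map_zero' := by simp
    add_le' := fun x y => by rw [map_add, ← mul_add]; gcongr; exact norm_add_le _ _
    neg' := fun x => by simp
    eq_zero_of_map_eq_zero' := fun x h =>
      norm_eq_zero.1 ((mul_eq_zero.1 h).resolve_left (by positivity)) }

omit [CompleteSpace B] in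
theorem nrm (x : Sc n B) : ‖x‖ = (n + 1) * ‖toB n x‖ := rfl

omit [CompleteSpace B] in
theorem nrm_mul (x y : Sc n B) : ‖x * y‖ ≤ ‖x‖ * ‖y‖ / (n + 1) := by
  rw [nrm, nrm, nrm, map_mul, le_div_iff₀ (by positivity)]
  have := mul_le_mul_of_nonneg_left (norm_mul_le (toB n x) (toB n y))
    (show (0 : ℝ) ≤ (n + 1) * (n + 1) by positivity)
  linarith

noncomputable instance : NonUnitalNormedRing (Sc n B) :=
  { (inferInstance : NormedAddCommGroup (Sc n B)), (inferInstance : NonUnitalRing (Sc n B)) with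
    norm_mul_le := fun x y => (nrm_mul n x y).trans
      (div_le_self (by positivity) (by linarith [n.cast_nonneg (α := ℝ)])) }

noncomputable instance : NormedSpace ℂ (Sc n B) :=
  ⟨fun c x => by rw [nrm, nrm, map_smul, norm_smul]; exact le_of_eq (by ring)⟩

instance : CompleteSpace (Sc n B) := by
  let e : Sc n B ≃ₗ[ℂ] B := LinearEquiv.refl ℂ B
  refine (completeSpace_congr (e := e.toEquiv) (e.toContinuousLinearEquivOfBounds 1 (n + 1)
    (fun x => ?_) fun x => le_rfl).isUniformEmbedding).2 inferInstance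
  rw [one_mul, nrm]
  exact le_mul_of_one_le_left (norm_nonneg _) (by linarith [n.cast_nonneg (α := ℝ)])

abbrev A (B : Type) [NormedRing B] [NormedAlgebra ℂ B] (n : ℕ) : Type :=
  WithLp 1 (Unitization ℂ (Sc n B))

omit [CompleteSpace B] in
theorem nA (l : ℂ) (x : Sc n B) : ‖(toLp 1 (Unitization.mk (l, x)) : A B n)‖ = ‖l‖ + ‖x‖ :=
  unitization_norm_def _

omit [CompleteSpace B] in
theorem asy : AsySR1 (A B) := by
  rintro a ⟨C, hC⟩ ε hε
  have h1 : ∀ n, ‖(ofLp (a n)).fst‖ + ‖(ofLp (a n)).snd‖ ≤ C := fun n =>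
    (unitization_norm_def (a n)).symm.trans_le (hC n)
  have h2 : ∀ n, ‖(ofLp (a n)).snd‖ ≤ C := fun n => by linarith [h1 n, norm_nonneg (ofLp (a n)).fst]
  have : ∀ l : ℂ, ∃ m : ℂ, ε / 4 ≤ ‖m‖ ∧ ‖l - m‖ ≤ ε / 2 := fun l => by
    by_cases h : ε / 4 ≤ ‖l‖
    · exact ⟨l, h, by simp; positivity⟩
    · have e : ‖((ε / 4 : ℝ) : ℂ)‖ = ε / 4 := by rw [Complex.norm_real]; exact abs_of_pos (by positivity)
      exact ⟨(ε / 4 : ℝ), e.ge, (norm_sub_le _ _).trans (by linarith)⟩
  choose m m1 m2 using fun n => this (ofLp (a n)).fst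
  have m0 : ∀ n, m n ≠ 0 := fun n => norm_pos_iff.1 (lt_of_lt_of_le (by positivity) (m1 n))
  have m3 : ∀ n, ‖(m n)⁻¹‖ ≤ 4 / ε := fun n => by
    rw [norm_inv, ← inv_div]; exact inv_anti₀ (by positivity) (m1 n)
  have key : Tendsto (fun n => ‖(toLp 1 (Unitization.mk ((0 : ℂ),
      -((m n)⁻¹ ^ 2 • ((ofLp (a n)).snd * (ofLp (a n)).snd)))) : A B n)‖) atTop (𝓝 0) := by
    refine squeeze_zero (fun _ => norm_nonneg _) (fun n => ?_)
      (g := fun n : ℕ => (4 / ε) ^ 2 * (C * C) * (1 / ((n : ℝ) + 1)))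
      (by simpa using (tendsto_one_div_add_atTop_nhds_zero_nat (𝕜 := ℝ)).const_mul ((4 / ε) ^ 2 * (C * C)))
    rw [nA, norm_zero, zero_add, norm_neg, norm_smul, norm_pow, mul_assoc, mul_one_div]
    have := m3 n
    have := h2 n
    have := norm_nonneg (ofLp (a n)).snd
    gcongr
    exact (nrm_mul _ _ _).trans (by gcongr; linarith)
  refine ⟨fun n => toLp 1 (Unitization.mk (m n, (ofLp (a n)).snd)),
    fun n => toLp 1 (Unitization.mk ((m n)⁻¹, -((m n)⁻¹ ^ 2 • (ofLp (a n)).snd))),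
    ⟨C + ε / 2, fun n => ?_⟩, ⟨4 / ε + (4 / ε) ^ 2 * C, fun n => ?_⟩, ?_, key.congr fun n => ?_,
    key.congr fun n => ?_⟩
  · rw [nA]; linarith [h1 n, m2 n, norm_sub_norm_le (m n) (ofLp (a n)).fst, norm_sub_rev (m n) (ofLp (a n)).fst]
  · rw [nA, norm_neg, norm_smul, norm_pow]
    have := m3 n
    have := h2 n
    gcongr
  · refine lt_of_le_of_lt (limsup_le_of_le (isCoboundedUnder_le_of_le _ fun _ => norm_nonneg _)
      (Eventually.of_forall fun n => ?_)) (half_lt_self hε)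
    rw [unitization_norm_def]; simpa [sub_eq_add_neg] using m2 n
  · congr 1; apply ofLp_injective; have := m0 n
    have o : ofLp (1 : A B n) = 1 := rfl
    ext <;> simp [unitization_mul, smul_smul, this, sq, sub_eq_add_neg, o, mul_smul_comm, smul_mul_assoc]
  · congr 1; apply ofLp_injective; have := m0 n
    have o : ofLp (1 : A B n) = 1 := rfl
    ext <;> simp [unitization_mul, smul_smul, this, sq, sub_eq_add_neg, o, mul_smul_comm, smul_mul_assoc]

theorem notB {u v : B} (h1 : v * u = 1) (h2 : u * v ≠ 1) : ¬ SR1 B := by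
  intro h
  obtain ⟨t, ht, hu⟩ := h.inter_open_nonempty {t | IsUnit (v * t)}
    (Units.isOpen.preimage (continuous_const_mul v)) ⟨u, by simp [h1]⟩
  have hv : IsUnit v := (IsUnit.mul_right_iff hu).1 ht
  obtain ⟨w, rfl⟩ := hv
  exact h2 (by rw [Units.eq_inv_of_mul_eq_one_left h1]; simp)

omit [CompleteSpace B] in
theorem notA (h : ¬ SR1 B) : ¬ SR1 (A B n) := by
  intro h'
  let π : A B n →ₐ[ℂ] B := (Unitization.lift (toB n)).comp (unitizationAlgEquiv ℂ).toAlgHom
  have hπ : ∀ x, π x = algebraMap ℂ B (ofLp x).fst + toB n (ofLp x).snd := fun x => rfl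
  have c : Continuous π := AddMonoidHomClass.continuous_of_bound π (‖(1 : B)‖ + 1) fun x => by
    rw [hπ, unitization_norm_def, nrm]
    refine (norm_add_le _ _).trans ?_
    rw [Algebra.algebraMap_eq_smul_one, norm_smul]
    have := norm_nonneg (1 : B)
    have := norm_nonneg (ofLp x).fst
    have := norm_nonneg (toB n (ofLp x).snd)
    have : 0 ≤ n * ‖toB n (ofLp x).snd‖ := by positivity
    have : 0 ≤ ‖(1 : B)‖ * ((n + 1) * ‖toB n (ofLp x).snd‖) := by positivity
    nlinarith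
  have s : Function.Surjective π := fun b => ⟨toLp 1 (Unitization.mk (0, b)), by simp [hπ]; rfl⟩
  refine h ((s.denseRange.dense_image c h').mono ?_)
  rintro _ ⟨x, hx, rfl⟩
  exact hx.map π

theorem main : ∃ (A : ℕ → Type) (_ : ∀ n, NormedRing (A n)) (_ : ∀ n, NormedAlgebra ℂ (A n)),
    (∀ n, CompleteSpace (A n)) ∧ (∀ n, ‖(1 : A n)‖ = 1) ∧ AsySR1 A ∧ ∀ n, ¬ SR1 (A n) := by
  refine ⟨A (L2.H ℕ →L[ℂ] L2.H ℕ), inferInstance, inferInstance, inferInstance,
    fun n => (nA n 1 0).trans (by simp), asy,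
    fun n => notA n (notB (u := L2.fwd) (v := L2.bwd) (by ext x i; simp) fun h => ?_)⟩
  have := congrArg (fun T : L2.H ℕ →L[ℂ] L2.H ℕ => T (L2.e 0) 0) h
  simp [L2.e_apply] at this

end Pool.Agent.H95.Sr1
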