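import Mathlib

namespace Pool.Agent.H95.Sr1
open Filter Topology

/-- stable rank one of a unital normed algebra: the invertible elements are dense -/
def SR1 (B : Type*) [NormedRing B] : Prop := Dense {x : B | IsUnit x}

/-- bounded sequences, the elements of the l-infinity product -/
def Bdd {A : ℕ → Type*} [∀ n, NormedRing (A n)] (a : ∀ n, A n) : Prop := ∃ C, ∀ n, ‖a n‖ ≤ C

/-- stable rank one of the asymptotic sequence algebra, written out on representatives -/
def AsySR1 (A : ℕ → Type*) [∀ n, NormedRing (A n)] : Prop :=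
  ∀ a : ∀ n, A n, Bdd a → ∀ ε > 0, ∃ b c : ∀ n, A n, Bdd b ∧ Bdd c ∧
    limsup (fun n => ‖a n - b n‖) atTop < ε ∧
    Tendsto (fun n => ‖b n * c n - 1‖) atTop (𝓝 0) ∧ Tendsto (fun n => ‖c n * b n - 1‖) atTop (𝓝 0)

end Pool.Agent.H95.Sr1
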