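import Mathlib

/-! Step-isometries of Banach spaces are continuous. -/

set_option autoImplicit false

namespace Pool.Agent.H95.Step

open Set Filter Topology Function TopologicalSpace

variable {X : Type*} [NormedAddCommGroup X] [NormedSpace ℝ X]

def IsStep (T : X → X) : Prop :=
  Surjective T ∧ ∀ (k : ℕ) x y, ‖T x - T y‖ < k ↔ ‖x - y‖ < k

lemma big (F : X →L[ℝ] ℝ) {r : ℝ} (h : r < ‖F‖) : ∃ v, ‖v‖ < 1 ∧ r < F v := by
  obtain ⟨v, h1, h2⟩ := F.exists_lt_apply_of_lt_opNorm h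
  rcases lt_abs.1 h2 with h3 | h3
  · exact ⟨v, h1, h3⟩
  · exact ⟨-v, by simpa using h1, by simpa using h3⟩

lemma weak_open {T : X → X} (hT : IsStep T) (F : X →L[ℝ] ℝ) (c : ℝ) :
    IsOpen {x | c < F (T x)} := by
  refine isOpen_iff_mem_nhds.2 fun x hx => ?_
  obtain ⟨v, h1, h2⟩ := big F (r := ‖F‖ - (F (T x) - c)) (by simpa using hx)
  obtain ⟨z, hz⟩ := hT.1 (T x + v)
  have h3 : ‖x - z‖ < (1 : ℕ) := (hT.2 1 x z).1 (by simpa [hz] using h1)
  filter_upwards [(isOpen_lt (continuous_id.sub continuous_const).norm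
    continuous_const).mem_nhds h3] with y hy
  have h4 : ‖T y - T z‖ < (1 : ℕ) := (hT.2 1 y z).2 hy
  have h5 := F.le_opNorm (T y - T z)
  have h6 := neg_le_abs (F (T y - T z))
  rw [hz] at h4 h5 h6
  simp only [map_sub, map_add, Real.norm_eq_abs, Nat.cast_one] at h4 h5 h6
  have h7 := mul_le_mul_of_nonneg_left h4.le (norm_nonneg F)
  show c < F (T y)
  linarith

lemma weak_cont {T : X → X} (hT : IsStep T) (F : X →L[ℝ] ℝ) : Continuous fun x => F (T x) := by
  refine continuous_iff_lower_upperSemicontinuous.2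
    ⟨lowerSemicontinuous_iff_isOpen_preimage.2 fun c => weak_open hT F c,
    upperSemicontinuous_iff_isOpen_preimage.2 fun c => ?_⟩
  have e : (fun x => F (T x)) ⁻¹' Iio c = {x | -c < (-F) (T x)} := by
    ext x
    simp
  exact e ▸ weak_open hT (-F) (-c)

lemma map_closure {T : X → X} (hT : IsStep T) {A : Set X} {x : X} (hx : x ∈ closure A) :
    T x ∈ closure (Submodule.span ℝ (T '' A) : Set X) := by
  by_contra h
  obtain ⟨f, u, h1, h2⟩ := geometric_hahn_banach_closed_point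
    (Submodule.span ℝ (T '' A)).convex.closure isClosed_closure h
  obtain ⟨a, h3, h4⟩ := mem_closure_iff.1 hx _ (weak_open hT f u) h2
  exact lt_asymm h3 (h1 _ (subset_closure (Submodule.subset_span ⟨a, h4, rfl⟩)))

lemma dense_smooth (e : X) {ε : ℝ} (hε : 0 < ε) :
    Dense {u : X | ∃ τ > 0, ‖u + τ • e‖ + ‖u - τ • e‖ - 2 * ‖u‖ < τ * ε} := by
  refine Metric.dense_iff.2 fun u r hr => ?_
  by_contra h
  obtain ⟨N, hN⟩ := exists_nat_gt (2 * ‖e‖ / ε)
  rw [div_lt_iff₀ hε] at hN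
  obtain ⟨τ, h0, h1⟩ : ∃ τ : ℝ, 0 < τ ∧ τ * (N * ‖e‖) < r := by
    have : 0 < N * ‖e‖ + 1 := by positivity
    refine ⟨r / (N * ‖e‖ + 1), by positivity, ?_⟩
    rw [div_mul_eq_mul_div, div_lt_iff₀ this]
    linarith
  let φ : ℕ → ℝ := fun j => ‖u + ((j : ℝ) * τ) • e‖
  have h2 : ∀ j, |φ (j + 1) - φ j| ≤ τ * ‖e‖ := fun j => by
    refine (abs_norm_sub_norm_le _ _).trans (le_of_eq ?_)
    rw [add_sub_add_left_eq_sub, ← sub_smul, norm_smul, Real.norm_eq_abs]
    push_cast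
    rw [show ((j : ℝ) + 1) * τ - j * τ = τ by ring, abs_of_pos h0]
  have h3 : ∀ j ≤ N, φ 1 - φ 0 + j * (τ * ε) ≤ φ (j + 1) - φ j := fun j hj => by
    induction j with
    | zero => simp
    | succ j ih =>
      have h4 : τ * ε ≤ φ (j + 1 + 1) + φ j - 2 * φ (j + 1) := by
        by_contra h5
        refine h ⟨u + (((j + 1 : ℕ) : ℝ) * τ) • e, ?_, τ, h0, ?_⟩
        · rw [mem_ball_iff_norm, add_sub_cancel_left, norm_smul, Real.norm_eq_abs,
            abs_of_nonneg (by positivity)]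
          have : ((j + 1 : ℕ) : ℝ) ≤ N := by exact_mod_cast hj
          calc _ ≤ N * τ * ‖e‖ := by gcongr
            _ < r := by linarith
        · have e1 : u + (((j + 1 : ℕ) : ℝ) * τ) • e + τ • e =
            u + (((j + 1 + 1 : ℕ) : ℝ) * τ) • e := by push_cast; module
          have e2 : u + (((j + 1 : ℕ) : ℝ) * τ) • e - τ • e = u + ((j : ℝ) * τ) • e := by
            push_cast; module
          rw [e1, e2]
          exact not_le.1 h5
      have := ih (by omega)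
      push_cast
      linarith
  have h4 := h3 N le_rfl
  have h5 := abs_le.1 (h2 0)
  have h6 := abs_le.1 (h2 N)
  rw [zero_add] at h5
  nlinarith

lemma smooth [CompleteSpace X] [SeparableSpace X] (y : X) {δ : ℝ} (hδ : 0 < δ)
    (hy : 3 * δ ≤ ‖y‖) : ∃ (w : X) (f : X →L[ℝ] ℝ), ‖f‖ = 1 ∧ f w = 1 ∧ δ ≤ f y ∧
      ∀ z, f z < 0 → ∃ K : ℕ, ∀ k : ℕ, K ≤ k → ‖z + (k : ℝ) • w‖ < k := by
  haveI : Nonempty X := ⟨0⟩
  have hd := dense_iInter_of_isOpen (f := fun p : ℕ × ℕ => {u : X | ∃ τ > 0,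
    ‖u + τ • denseSeq X p.1‖ + ‖u - τ • denseSeq X p.1‖ - 2 * ‖u‖ < τ * (1 / (p.2 + 1))})
    (fun p => by
      simp only [setOf_exists, setOf_and]
      refine isOpen_iUnion fun τ => IsOpen.inter ?_ (isOpen_lt (by fun_prop) continuous_const)
      exact isOpen_const)
    fun p => dense_smooth _ (by positivity)
  obtain ⟨u, h1, h2⟩ := Metric.dense_iff.1 hd y δ hδ
  rw [mem_ball_iff_norm] at h1
  have h3 : 2 * δ ≤ ‖u‖ := by linarith [norm_sub_norm_le y u, norm_sub_rev y u]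
  have h4 : 0 < ‖u‖ := by linarith
  obtain ⟨f, f1, f2⟩ := exists_dual_vector ℝ u h4.ne'
  have f2' : f u = ‖u‖ := f2
  have f3 : ∀ z, f z ≤ ‖z‖ := fun z => by
    simpa [f1] using (le_abs_self _).trans (f.le_opNorm z)
  refine ⟨‖u‖⁻¹ • u, f, f1, by simp [f2', h4.ne'], ?_, fun z hz => ?_⟩
  · have := f3 (u - y)
    rw [map_sub] at this
    linarith
  obtain ⟨m, hm⟩ := exists_nat_one_div_lt (show 0 < -f z / 3 by linarith)
  obtain ⟨j, hj⟩ := (denseRange_denseSeq X).exists_dist_lt z (show 0 < -f z / 3 by linarith)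
  obtain ⟨τ, t0, t1⟩ := mem_iInter.1 h2 (j, m)
  simp only at t1
  rw [dist_eq_norm] at hj
  set e := denseSeq X j
  have a1 : ‖u + τ • z‖ ≤ ‖u + τ • e‖ + τ * ‖z - e‖ := by
    rw [show u + τ • z = u + τ • e + τ • (z - e) by module]
    exact (norm_add_le _ _).trans (by rw [norm_smul, Real.norm_eq_abs, abs_of_pos t0])
  have a2 := f3 (u - τ • e)
  have a3 := f3 (e - z)
  rw [norm_sub_rev] at a3
  simp only [map_sub, map_smul, smul_eq_mul] at a2 a3
  have a4 : ‖u + τ • z‖ < ‖u‖ := by nlinarith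
  obtain ⟨K, hK⟩ := exists_nat_ge (‖u‖ / τ)
  refine ⟨K, fun k hk => ?_⟩
  have a5 : ‖u‖ / τ ≤ k := hK.trans (by exact_mod_cast hk)
  have a6 : z + (k : ℝ) • ‖u‖⁻¹ • u = τ⁻¹ • (u + τ • z) + ((k - ‖u‖ / τ) * ‖u‖⁻¹) • u := by
    have : ((k : ℝ) - ‖u‖ / τ) * ‖u‖⁻¹ = k * ‖u‖⁻¹ - τ⁻¹ := by field_simp
    rw [this, smul_add, smul_smul, smul_smul, inv_mul_cancel₀ t0.ne']
    module
  rw [a6]
  refine (norm_add_le _ _).trans_lt ?_
  rw [norm_smul, norm_smul, Real.norm_eq_abs, Real.norm_eq_abs, abs_of_pos (inv_pos.2 t0),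
    abs_of_nonneg (mul_nonneg (sub_nonneg.2 a5) (by positivity)), mul_assoc,
    inv_mul_cancel₀ h4.ne', div_eq_inv_mul]
  have := mul_lt_mul_of_pos_left a4 (inv_pos.2 t0)
  linarith

lemma separate [CompleteSpace X] [SeparableSpace X] {T : X → X} (hT : IsStep T) (x0 x : X)
    {δ : ℝ} (hδ : 0 < δ) (hy : 3 * δ ≤ ‖T x - T x0‖) : ∃ f g : X →L[ℝ] ℝ, ‖f‖ = 1 ∧ ‖g‖ = 1 ∧
      ∀ a, ‖x - x0‖ ≤ g (a - x0) → δ ≤ f (T a) - f (T x0) := by
  obtain ⟨w, f, f1, f2, f3, f4⟩ := smooth _ hδ hy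
  have hc : Convex ℝ {a | f (T a) - f (T x0) < δ} := fun a ha b hb s t hs ht hst => by
    have key : ∀ a, f (T a - (T x0 + δ • w)) = f (T a) - f (T x0) - δ := fun a => by
      simp [f2]; ring
    obtain ⟨K, hK⟩ := f4 (T a - (T x0 + δ • w)) (by rw [key]; exact sub_neg.2 ha)
    obtain ⟨L, hL⟩ := f4 (T b - (T x0 + δ • w)) (by rw [key]; exact sub_neg.2 hb)
    obtain ⟨z, hz⟩ := hT.1 (T x0 + δ • w - ((max K L : ℕ) : ℝ) • w)
    have e : ∀ a, T a - T z = T a - (T x0 + δ • w) + ((max K L : ℕ) : ℝ) • w := fun a => by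
      rw [hz]; abel
    have h1 := (hT.2 _ a z).1 (e a ▸ hK _ (le_max_left K L))
    have h2 := (hT.2 _ b z).1 (e b ▸ hL _ (le_max_right K L))
    have h3 := (hT.2 _ _ z).2 (mem_ball_iff_norm.1 (convex_ball z _ (mem_ball_iff_norm.2 h1)
      (mem_ball_iff_norm.2 h2) hs ht hst))
    have h4 := (le_abs_self _).trans (f.le_opNorm (T (s • a + t • b) - T z))
    rw [f1, one_mul] at h4
    have h5 := h4.trans_lt h3
    rw [e, map_add, key, map_smul, f2] at h5
    show f (T (s • a + t • b)) - f (T x0) < δ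
    simp only [smul_eq_mul, mul_one] at h5
    linarith
  obtain ⟨g, hg⟩ := geometric_hahn_banach_open_point hc
    (isOpen_lt ((weak_cont hT f).sub continuous_const) continuous_const) (x := x)
    (by simpa using f3)
  have g0 : 0 < ‖g‖ := norm_pos_iff.2 fun e => by simpa [e] using hg x0 (by simpa using hδ)
  refine ⟨f, ‖g‖⁻¹ • g, f1, by simp [norm_smul, g0.ne'], fun a ha => ?_⟩
  by_contra h
  have h1 := hg a (not_le.1 h)
  have h2 := (le_abs_self _).trans (g.le_opNorm (x - x0))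
  simp only [ContinuousLinearMap.smul_apply, smul_eq_mul, map_sub] at ha h2
  rw [← mul_sub, le_inv_mul_iff₀ g0] at ha
  linarith

lemma sep_case [CompleteSpace X] [SeparableSpace X] {T : X → X} (hT : IsStep T) (x0 : X)
    (x : ℕ → X) (hx : Tendsto x atTop (𝓝 x0)) {δ : ℝ} (hδ : 0 < δ)
    (hy : ∀ n, 3 * δ ≤ ‖T (x n) - T x0‖) : False := by
  choose f g f1 g1 h using fun n => separate hT x0 (x n) hδ (hy n)
  obtain ⟨F, -, φ, hφ, hF⟩ := WeakDual.isSeqCompact_closedBall ℝ X 0 1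
    (x := fun n => StrongDual.toWeakDual (f n)) fun n => by simp [f1]
  have hF' : ∀ y, Tendsto (fun n => f (φ n) y) atTop (𝓝 (F y)) := fun y =>
    ((WeakDual.eval_continuous y).tendsto F).comp hF
  have ht : Tendsto (fun n => ‖x (φ n) - x0‖) atTop (𝓝 0) :=
    tendsto_iff_norm_sub_tendsto_zero.1 (hx.comp hφ.tendsto_atTop)
  have hd := dense_iInter_of_isOpen (f := fun m : ℕ => {e : X | ∃ n ≥ m,
    m * ‖x (φ n) - x0‖ < |g (φ n) e|})
    (fun m => by
      simp only [setOf_exists, setOf_and]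
      refine isOpen_iUnion fun n => IsOpen.inter ?_ (isOpen_lt continuous_const (by fun_prop))
      exact isOpen_const)
    fun m => Metric.dense_iff.2 fun e r hr => by
      have h1 := (ht.const_mul (m : ℝ)).eventually (gt_mem_nhds (show (m : ℝ) * 0 < r / 2 by
        linarith))
      obtain ⟨n, h2, h3⟩ := (h1.and (eventually_ge_atTop m)).exists
      obtain ⟨v, v1, v2⟩ := big (g (φ n)) (r := 1 / 2) (by rw [g1]; norm_num)
      have v3 : ‖r • v‖ < r := by
        rw [norm_smul, Real.norm_eq_abs, abs_of_pos hr]; nlinarith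
      rcases le_total 0 (g (φ n) e) with h4 | h4
      · refine ⟨e + r • v, by simpa [mem_ball_iff_norm] using v3, n, h3, lt_abs.2 (Or.inl ?_)⟩
        simp only [map_add, map_smul, smul_eq_mul]
        nlinarith
      · refine ⟨e - r • v, by simpa [mem_ball_iff_norm] using v3, n, h3, lt_abs.2 (Or.inr ?_)⟩
        simp only [map_sub, map_smul, smul_eq_mul]
        nlinarith
  obtain ⟨e, he⟩ := hd.nonempty
  have hc := weak_cont hT (WeakDual.toStrongDual F)
  have key : ∀ a, (∃ᶠ n in atTop, ‖x (φ n) - x0‖ ≤ g (φ n) a) →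
      δ ≤ F (T (x0 + a)) - F (T x0) := fun a ha =>
    isClosed_Ici.mem_of_frequently_of_tendsto
      (ha.mono fun n hn => h (φ n) (x0 + a) (by simpa using hn)) ((hF' _).sub (hF' _))
  have lim : ∀ e : X, ∀ᶠ s in 𝓝[>] (0 : ℝ), F (T (x0 + s • e)) - F (T x0) < δ := fun e => by
    have h1 : Continuous fun s : ℝ => F (T (x0 + s • e)) - F (T x0) :=
      (hc.comp (by fun_prop)).sub continuous_const
    exact nhdsWithin_le_nhds ((h1.tendsto 0).eventually (gt_mem_nhds (by simpa using hδ)))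
  obtain ⟨s, ⟨s1, s2⟩, s0⟩ := (((lim e).and (lim (-e))).and self_mem_nhdsWithin).exists
  have s0' : 0 < s := s0
  have : ∃ᶠ n in atTop, ‖x (φ n) - x0‖ ≤ g (φ n) (s • e) ∨
      ‖x (φ n) - x0‖ ≤ g (φ n) (s • -e) := by
    refine frequently_atTop.2 fun N => ?_
    obtain ⟨M, hM⟩ := exists_nat_ge (1 / s)
    obtain ⟨n, h1, h2⟩ := mem_iInter.1 he (max N M)
    refine ⟨n, (le_max_left N M).trans h1, ?_⟩
    have h3 : 1 ≤ ((max N M : ℕ) : ℝ) * s :=
      (div_le_iff₀ s0').1 (hM.trans (by exact_mod_cast le_max_right N M))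
    have h4 := norm_nonneg (x (φ n) - x0)
    simp only [map_smul, map_neg, smul_eq_mul]
    rcases lt_abs.1 h2 with h5 | h5
    · left; nlinarith
    · right; nlinarith
  rcases frequently_or_distrib.1 this with h1 | h1
  · exact (key _ h1).not_gt s1
  · exact (key _ h1).not_gt s2

theorem main [CompleteSpace X] (T : X ≃ X) (hT : IsStep T) : Continuous T := by
  have hS : IsStep T.symm := ⟨T.symm.surjective, fun k x y => by rw [← hT.2]; simp⟩
  refine SeqContinuous.continuous fun x x0 hx => ?_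
  by_contra h
  obtain ⟨ε, hε, h1⟩ : ∃ ε > 0, ∃ᶠ n in atTop, ε ≤ ‖T (x n) - T x0‖ := by
    rw [Metric.tendsto_nhds] at h
    push Not at h
    simpa [dist_eq_norm] using h
  obtain ⟨φ, hφ, h2⟩ := extraction_of_frequently_atTop h1
  let A : ℕ → Submodule ℝ X := fun k => Nat.rec (Submodule.span ℝ (insert x0 (range x)))
    (fun _ B => Submodule.span ℝ (B ∪ (T '' B ∪ T.symm '' B))) k
  have im : ∀ {U : X → X}, IsStep U → ∀ B : Set X, IsSeparable B → IsSeparable (U '' B) := by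
    rintro U hU B ⟨D, d1, d2⟩
    refine ((d1.image U).isSeparable.span (R := ℝ)).closure.mono ?_
    rintro _ ⟨b, hb, rfl⟩
    exact map_closure hU (d2 hb)
  have a1 : ∀ k : ℕ, TopologicalSpace.IsSeparable (SetLike.coe (A k) : Set X) := by
    intro k
    induction k with
    | zero => exact ((countable_range x).insert x0).isSeparable.span (R := ℝ)
    | succ k ih => exact (ih.union ((im hT _ ih).union (im hS _ ih))).span (R := ℝ)
  have a2 : Monotone A := monotone_nat_of_le_succ fun k y hy => Submodule.subset_span (Or.inl hy)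
  let Y := (⨆ k, A k).topologicalClosure
  have a3 : ((⨆ k, A k : Submodule ℝ X) : Set X) = ⋃ k, (SetLike.coe (A k) : Set X) :=
    Submodule.coe_iSup_of_directed _ a2.directed_le
  have a4 : ∀ {U : X → X}, IsStep U → (∀ k, ∀ y ∈ A k, U y ∈ A (k + 1)) → ∀ y ∈ Y, U y ∈ Y := by
    intro U hU h y hy
    refine closure_mono (Submodule.span_le.2 ?_ : _ ≤ ⨆ k, A k) (map_closure hU hy)
    rintro _ ⟨b, hb, rfl⟩
    obtain ⟨k, hk⟩ := mem_iUnion.1 (a3 ▸ hb)
    exact le_iSup A (k + 1) (h k b hk)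
  have a5 := a4 hT fun k y hy => Submodule.subset_span (Or.inr (Or.inl ⟨y, hy, rfl⟩))
  have a6 := a4 hS fun k y hy => Submodule.subset_span (Or.inr (Or.inr ⟨y, hy, rfl⟩))
  have a7 : ∀ y ∈ insert x0 (range x), y ∈ Y := fun y hy =>
    subset_closure (le_iSup A 0 (Submodule.subset_span hy))
  haveI : SeparableSpace Y := IsSeparable.separableSpace
    (show IsSeparable ((⨆ k, A k : Submodule ℝ X) : Set X) from
      a3 ▸ isSeparable_iUnion.2 a1).closure
  haveI : CompleteSpace Y := (Submodule.isClosed_topologicalClosure _).completeSpace_coe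
  refine sep_case (X := Y) (T := fun y => ⟨T y, a5 _ y.2⟩) ⟨fun y => ⟨⟨T.symm y, a6 _ y.2⟩,
    Subtype.ext (by simp)⟩, fun k a b => hT.2 k a b⟩ ⟨x0, a7 _ (Or.inl rfl)⟩
    (fun n => ⟨x (φ n), a7 _ (Or.inr ⟨_, rfl⟩)⟩)
    (tendsto_subtype_rng.2 (hx.comp hφ.tendsto_atTop)) (δ := ε / 3) (by positivity) fun n => ?_
  have := h2 n
  show 3 * (ε / 3) ≤ ‖T (x (φ n)) - T x0‖
  linarith

end Pool.Agent.H95.Step
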