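import Pool.Agent.H95.Step

/-! Step-isometries on dense sets of strictly convex spaces with separable dual. -/

set_option autoImplicit false

namespace Pool.Agent.H95.StepE

open Set Filter Topology Function TopologicalSpace

variable {X : Type*} [NormedAddCommGroup X] [NormedSpace ℝ X] {ι : Type*}

def Sm (w : X) (f : X →L[ℝ] ℝ) : Prop :=
  (∀ z, f z ≤ ‖z‖) ∧ f w = 1 ∧ ‖w‖ = 1 ∧ ∀ z, f z < 0 → ∃ K : ℝ, ‖z + K • w‖ < K

def St (p q : ι → X) : Prop :=
  DenseRange p ∧ DenseRange q ∧ ∀ (k : ℤ) i j, ‖p i - p j‖ < k ↔ ‖q i - q j‖ < k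

lemma St.symm {p q : ι → X} (h : St p q) : St q p := ⟨h.2.1, h.1, fun k i j => (h.2.2 k i j).symm⟩

lemma Sm.neg {w : X} {f : X →L[ℝ] ℝ} (h : Sm w f) : Sm (-w) (-f) := by
  refine ⟨fun z => by simpa using h.1 (-z), by simpa using h.2.1, by simpa using h.2.2.1,
    fun z hz => ?_⟩
  obtain ⟨K, hK⟩ := h.2.2.2 (-z) (by simpa using hz)
  exact ⟨K, by rwa [← norm_neg, show -(z + K • -w) = -z + K • w by module]⟩

lemma horo1 {p q : ι → X} (hs : St p q) {w : X} {f : X →L[ℝ] ℝ} (hf : Sm w f) (c : ℝ) :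
    ∃ h : X → ℝ, (∀ x y, h x - h y ≤ ‖x - y‖) ∧ (∀ x v, 2 * h x ≤ h (x + v) + h (x - v)) ∧
      (∀ j (k : ℤ), f (p j) < c + k → h (q j) ≤ k) ∧
      ∀ j (k : ℤ), c + k < f (p j) → k ≤ h (q j) := by
  choose i hi using fun n : ℕ => hs.1.exists_dist_lt ((c - n) • w)
    (show (0 : ℝ) < 1 / (n + 1) by positivity)
  simp only [dist_eq_norm] at hi
  have sm : ∀ δ : ℝ, 0 < δ → ∀ᶠ n : ℕ in atTop, 1 / ((n : ℝ) + 1) < δ := fun δ hδ =>
    tendsto_one_div_add_atTop_nhds_zero_nat.eventually (gt_mem_nhds hδ)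
  have e1 : ∀ j (k : ℤ), f (p j) < c + k → ∀ᶠ n : ℕ in atTop, ‖q j - q (i n)‖ - n ≤ k := by
    intro j k hk
    obtain ⟨δ, h0, h1⟩ : ∃ δ, 0 < δ ∧ f (p j) + δ < c + k := ⟨(c + k - f (p j)) / 2, by linarith,
      by linarith⟩
    obtain ⟨K, hK⟩ := hf.2.2.2 (p j - (c + k - δ) • w) (by simp [hf.2.1]; linarith)
    filter_upwards [sm δ h0, tendsto_natCast_atTop_atTop.eventually_ge_atTop (K + δ - k)]
      with n h2 h3
    have h4 : p j - p (i n) = (p j - (c + k - δ) • w + K • w) + (n + k - δ - K) • w +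
      ((c - n) • w - p (i n)) := by module
    have h5 : ‖p j - p (i n)‖ < ((n + k : ℤ) : ℝ) := by
      rw [h4]
      refine (norm_add₃_le).trans_lt ?_
      rw [norm_smul, hf.2.2.1, Real.norm_eq_abs, abs_of_nonneg (by linarith)]
      have := hi n
      push_cast
      linarith
    have := (hs.2.2 _ _ _).1 h5
    push_cast at this
    linarith
  have e2 : ∀ j (k : ℤ), c + k < f (p j) → ∀ᶠ n : ℕ in atTop, k ≤ ‖q j - q (i n)‖ - n := by
    intro j k hk
    filter_upwards [sm _ (sub_pos.2 hk)] with n h2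
    have h5 : ¬ ‖p j - p (i n)‖ < ((n + k : ℤ) : ℝ) := by
      have a1 := hf.1 (p j - p (i n))
      have a2 := hf.1 (p (i n) - (c - n) • w)
      have := hi n
      rw [norm_sub_rev] at this
      simp only [map_sub, map_smul, hf.2.1, smul_eq_mul] at a1 a2
      push_cast
      linarith
    have := mt (hs.2.2 _ _ _).2 h5
    push_cast at this
    linarith
  have U : (hyperfilter ℕ : Filter ℕ) ≤ atTop := Nat.cofinite_eq_atTop ▸ hyperfilter_le_cofinite
  have ex : ∀ y, ∃ L, Tendsto (fun n : ℕ => ‖y - q (i n)‖ - n) (hyperfilter ℕ) (𝓝 L) := by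
    intro y
    obtain ⟨k, hk⟩ := exists_int_gt (f (p (i 0)) - c)
    obtain ⟨l, hl⟩ := exists_int_lt (f (p (i 0)) - c)
    obtain ⟨L, -, hL⟩ := (isCompact_Icc (a := l - ‖y - q (i 0)‖)
      (b := k + ‖y - q (i 0)‖)).ultrafilter_le_nhds
      ((hyperfilter ℕ).map fun n : ℕ => ‖y - q (i n)‖ - n) (by
        rw [le_principal_iff, Ultrafilter.coe_map, mem_map]
        filter_upwards [U (e1 (i 0) k (by linarith)), U (e2 (i 0) l (by linarith))] with n h1 h2
        have a1 := abs_le.1 (abs_norm_sub_norm_le (y - q (i n)) (q (i 0) - q (i n)))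
        rw [sub_sub_sub_cancel_right] at a1
        constructor <;> linarith)
    exact ⟨L, hL⟩
  choose h hh using ex
  refine ⟨h, fun x y => le_of_tendsto' ((hh x).sub (hh y)) fun n => ?_,
    fun x v => le_of_tendsto_of_tendsto' ((hh x).const_mul 2) ((hh _).add (hh _)) fun n => ?_,
    fun j k hk => le_of_tendsto (hh _) (U (e1 j k hk)),
    fun j k hk => ge_of_tendsto (hh _) (U (e2 j k hk))⟩
  · have := norm_sub_norm_le (x - q (i n)) (y - q (i n))
    rw [sub_sub_sub_cancel_right] at this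
    linarith
  · have := norm_add_le (x + v - q (i n)) (x - v - q (i n))
    rw [show x + v - q (i n) + (x - v - q (i n)) = (2 : ℝ) • (x - q (i n)) by module,
      norm_smul, Real.norm_two] at this
    linarith

lemma const_of {g : X → ℝ} (hg : ∀ x v, 2 * g x ≤ g (x + v) + g (x - v)) {M : ℝ}
    (hM : ∀ x, g x ≤ M) (x y : X) : g y ≤ g x := by
  by_contra h
  have h1 : ∀ n : ℕ, 2 ^ n * (g y - g x) ≤ g (x + (2 : ℝ) ^ n • (y - x)) - g x := fun n => by
    induction n with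
    | zero => simp
    | succ n ih =>
      have := hg (x + (2 : ℝ) ^ n • (y - x)) ((2 : ℝ) ^ n • (y - x))
      rw [add_sub_cancel_right, show x + (2 : ℝ) ^ n • (y - x) + (2 : ℝ) ^ n • (y - x) =
        x + (2 : ℝ) ^ (n + 1) • (y - x) by rw [pow_succ]; module] at this
      have e : (2 : ℝ) ^ (n + 1) * (g y - g x) = 2 * (2 ^ n * (g y - g x)) := by ring
      linarith
  obtain ⟨n, hn⟩ := pow_unbounded_of_one_lt ((M - g x) / (g y - g x)) (show (1 : ℝ) < 2 by norm_num)
  rw [div_lt_iff₀ (by linarith)] at hn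
  linarith [h1 n, hM (x + (2 : ℝ) ^ n • (y - x))]

def Mo (p q : ι → X) (f F : X →L[ℝ] ℝ) : Prop :=
  (∀ z, F z ≤ ‖z‖) ∧ ∀ i j (k : ℤ), f (p i) + k < f (p j) → F (q i) + k ≤ F (q j)

lemma horo {p q : ι → X} (hs : St p q) {w : X} {f : X →L[ℝ] ℝ} (hf : Sm w f) :
    ∃ F, Mo p q f F := by
  obtain ⟨g, g1, g2, g3, -⟩ := horo1 hs hf.neg 0
  choose h h1 h2 h3 h4 using horo1 hs hf
  have co : ∀ {h : X → ℝ}, (∀ x y, h x - h y ≤ ‖x - y‖) → Continuous h := fun {h} h1 =>
    (LipschitzWith.of_le_add fun x y => by rw [dist_eq_norm]; linarith [h1 x y]).continuous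
  have k : ∀ c x y, h c y + g y = h c x + g x := fun c => by
    have a1 : ∀ x, h c x + g x ≤ 2 - c := fun x => hs.2.1.induction_on x
      (isClosed_le ((co (h1 c)).add (co g1)) continuous_const) fun j => by
        have b1 := h3 c j (⌊f (p j) - c⌋ + 1) (by
          push_cast; linarith [Int.lt_floor_add_one (f (p j) - c)])
        have b2 := g3 j (⌊-f (p j)⌋ + 1) (by
          push_cast; simpa using Int.lt_floor_add_one (-f (p j)))
        push_cast at b1 b2
        linarith [Int.floor_le (f (p j) - c), Int.floor_le (-f (p j))]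
    have a2 := const_of (g := fun x => h c x + g x) (fun x v => by linarith [h2 c x v, g2 x v]) a1
    exact fun x y => (a2 x y).antisymm (a2 y x)
  have m : ∀ x v, g (x + v) + g (x - v) = 2 * g x := fun x v => by
    linarith [g2 x v, h2 0 x v, k 0 x (x + v), k 0 x (x - v)]
  let A : X →+ ℝ := AddMonoidHom.mk' (fun x => g 0 - g x) fun a b => by
    have b1 := m ((1 / 2 : ℝ) • (a + b)) ((1 / 2 : ℝ) • (a - b))
    have b2 := m ((1 / 2 : ℝ) • (a + b)) ((1 / 2 : ℝ) • (a + b))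
    rw [show (1 / 2 : ℝ) • (a + b) + (1 / 2 : ℝ) • (a - b) = a by module,
      show (1 / 2 : ℝ) • (a + b) - (1 / 2 : ℝ) • (a - b) = b by module] at b1
    rw [show (1 / 2 : ℝ) • (a + b) + (1 / 2 : ℝ) • (a + b) = a + b by module, sub_self] at b2
    linarith
  refine ⟨A.toRealLinearMap (continuous_const.sub (co g1)), fun z => ?_, fun i j l hl => ?_⟩
  · simpa [A] using g1 0 z
  · have b1 := h3 ((f (p i) + f (p j) - l) / 2) i 0 (by push_cast; linarith)
    have b2 := h4 ((f (p i) + f (p j) - l) / 2) j l (by linarith)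
    have b3 := k ((f (p i) + f (p j) - l) / 2) (q i) (q j)
    show g 0 - g (q i) + l ≤ g 0 - g (q j)
    push_cast at b1
    linarith

lemma Mo.bd {p q : ι → X} {f F : X →L[ℝ] ℝ} (h : Mo p q f F) (i j : ι) :
    f (p j - p i) ≤ F (q j - q i) + 1 := by
  have := h.2 i j (⌈f (p j) - f (p i)⌉ - 1) (by
    push_cast; linarith [Int.ceil_lt_add_one (f (p j) - f (p i))])
  push_cast at this
  rw [map_sub, map_sub]
  linarith [Int.le_ceil (f (p j) - f (p i))]

lemma norming [CompleteSpace X] [SeparableSpace X] {C : Set (X →L[ℝ] ℝ)} (hC : C.Countable)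
    (hd : ∀ f ∈ C, Dense {u | f u < ‖u‖}) {y : X} {a : ℝ} (ha : 0 ≤ a)
    (h : ∀ w f, Sm w f → f ∉ C → f y ≤ a) : ‖y‖ ≤ a := by
  by_contra hy
  haveI : Nonempty X := ⟨0⟩
  have hd1 : ∀ᶠ u in residual X, ∀ p : ℕ × ℕ, ∃ τ > 0,
      ‖u + τ • denseSeq X p.1‖ + ‖u - τ • denseSeq X p.1‖ - 2 * ‖u‖ < τ * (1 / (p.2 + 1)) :=
    eventually_countable_forall.2 fun p => residual_of_dense_open (by
      simp only [setOf_exists, setOf_and]
      refine isOpen_iUnion fun τ => IsOpen.inter ?_ (isOpen_lt (by fun_prop) continuous_const)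
      exact isOpen_const) (Step.dense_smooth _ (by positivity))
  have hd2 : ∀ᶠ u in residual X, ∀ f ∈ C, f u < ‖u‖ := (eventually_countable_ball hC).2
    fun f hf => residual_of_dense_open (isOpen_lt f.continuous continuous_norm) (hd f hf)
  obtain ⟨u, h1, h2, h5⟩ := Metric.dense_iff.1 (dense_of_mem_residual (hd1.and hd2)) y
    ((‖y‖ - a) / 2) (by linarith)
  rw [mem_ball_iff_norm] at h1
  have h3 := norm_sub_norm_le y u
  rw [norm_sub_rev] at h3
  have h4 : 0 < ‖u‖ := by linarith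
  obtain ⟨f, f1, f2⟩ := exists_dual_vector ℝ u h4.ne'
  have f2' : f u = ‖u‖ := f2
  have f3 : ∀ z, f z ≤ ‖z‖ := fun z => by
    simpa [f1] using (le_abs_self _).trans (f.le_opNorm z)
  have := h (‖u‖⁻¹ • u) f ⟨f3, by simp [f2', h4.ne'], by simp [norm_smul, h4.ne'],
    fun z hz => ?_⟩ fun hf => (h5 f hf).ne f2'
  · have := f3 (u - y)
    rw [map_sub] at this
    linarith
  obtain ⟨m, hm⟩ := exists_nat_one_div_lt (show 0 < -f z / 3 by linarith)
  obtain ⟨j, hj⟩ := (denseRange_denseSeq X).exists_dist_lt z (show 0 < -f z / 3 by linarith)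
  obtain ⟨τ, t0, t1⟩ := h2 (j, m)
  simp only at t1
  rw [dist_eq_norm] at hj
  set e := denseSeq X j
  have a1 : ‖u + τ • z‖ ≤ ‖u + τ • e‖ + τ * ‖z - e‖ := by
    rw [show u + τ • z = u + τ • e + τ • (z - e) by module]
    exact (norm_add_le _ _).trans (by rw [norm_smul, Real.norm_eq_abs, abs_of_pos t0])
  have a2 := f3 (u - τ • e)
  have a3 := f3 (e - z)
  rw [norm_sub_rev] at a3
  simp only [map_sub, map_smul, smul_eq_mul] at a2 a3
  have a4 : ‖u + τ • z‖ < ‖u‖ := by nlinarith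
  refine ⟨‖u‖ / τ, ?_⟩
  have a6 : z + (‖u‖ / τ) • ‖u‖⁻¹ • u = τ⁻¹ • (u + τ • z) := by
    have : ‖u‖ / τ * ‖u‖⁻¹ = τ⁻¹ := by field_simp
    rw [smul_smul, this, smul_add, smul_smul, inv_mul_cancel₀ t0.ne']
    module
  rw [a6, norm_smul, Real.norm_eq_abs, abs_of_pos (inv_pos.2 t0), div_eq_inv_mul]
  exact mul_lt_mul_of_pos_left a4 (inv_pos.2 t0)

lemma St.le {p q : ι → X} (hs : St p q) (i j : ι) : ‖p i - p j‖ ≤ ‖q i - q j‖ + 1 := by
  have := (hs.2.2 (⌊‖q i - q j‖⌋ + 1) i j).2 (by push_cast; exact Int.lt_floor_add_one _)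
  push_cast at this
  linarith [Int.floor_le ‖q i - q j‖]

lemma le_of_nat {a b c : ℝ} (h : ∀ n : ℕ, n * a ≤ n * b + c) : a ≤ b := by
  by_contra h1
  obtain ⟨n, hn⟩ := exists_nat_gt (c / (a - b))
  rw [div_lt_iff₀ (by linarith)] at hn
  linarith [h n]

lemma close [CompleteSpace X] [SeparableSpace X] {p q : ι → X} (hs : St p q)
    {f F g G : X →L[ℝ] ℝ} (h1 : Mo p q f F) (h2 : Mo p q g G) (i l : ι) :
    (F - G) (q i - q l) - (f - g) (p i - p l) ≤ ‖f - g‖ := by
  have b1 : ∀ j, |(F - G) (q j - q l) - (f - g) (p j - p l)| ≤ 2 := fun j => by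
    have a1 := h1.bd j l
    have a2 := h1.bd l j
    have a3 := h2.bd j l
    have a4 := h2.bd l j
    simp only [map_sub, ContinuousLinearMap.sub_apply] at *
    exact abs_le.2 ⟨by linarith, by linarith⟩
  have b0 : ∀ z, (f - g) z ≤ ‖f - g‖ * ‖z‖ := fun z =>
    (le_abs_self _).trans ((f - g).le_opNorm z)
  generalize F - G = Φ at *
  generalize f - g = φ at *
  have b2 : ∀ y, Φ (y - q l) ≤ ‖φ‖ * ‖y - q l‖ + (‖φ‖ + 2) := fun y =>
    hs.2.1.induction_on y (isClosed_le (by fun_prop) (by fun_prop)) fun j => by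
      have := mul_le_mul_of_nonneg_left (hs.le j l) (norm_nonneg φ)
      linarith [b0 (p j - p l), (abs_le.1 (b1 j)).2]
  have b3 : ∀ y, Φ y ≤ ‖φ‖ * ‖y‖ := fun y => le_of_nat (c := ‖φ‖ + 2) fun n => by
    have := b2 ((n : ℝ) • y + q l)
    rw [add_sub_cancel_right, map_smul, norm_smul, Real.norm_natCast, smul_eq_mul] at this
    linarith
  have := le_of_nat (a := Φ (q i - q l) - φ (p i - p l)) (b := ‖φ‖) (c := 3 * ‖φ‖ + 2) fun n => by
    obtain ⟨j, hj⟩ := hs.1.exists_dist_lt (p l + (n : ℝ) • (p i - p l)) one_pos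
    rw [dist_eq_norm, show p l + (n : ℝ) • (p i - p l) - p j =
      (n : ℝ) • (p i - p l) + (p l - p j) by module] at hj
    have c1 : ‖(n : ℝ) • (q i - q l) + (q l - q j)‖ ≤ n + 2 :=
      norming countable_empty (by simp) (by positivity) fun w v hv _ => by
        obtain ⟨V, hV⟩ := horo hs.symm hv
        have d1 := mul_le_mul_of_nonneg_left (hV.bd l i) (Nat.cast_nonneg (α := ℝ) n)
        have d2 := hV.bd j l
        have d3 := hV.1 ((n : ℝ) • (p i - p l) + (p l - p j))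
        simp only [map_add, map_smul, smul_eq_mul] at d3 ⊢
        linarith
    have c2 := b3 ((n : ℝ) • (q i - q l) + (q l - q j))
    have c3 := b0 (-((n : ℝ) • (p i - p l) + (p l - p j)))
    have c4 := mul_le_mul_of_nonneg_left c1 (norm_nonneg φ)
    have c5 := mul_le_mul_of_nonneg_left hj.le (norm_nonneg φ)
    have c6 := (abs_le.1 (b1 j)).2
    rw [norm_neg] at c3
    simp only [map_add, map_smul, map_neg, map_sub, smul_eq_mul] at c2 c3 c6 ⊢
    linarith
  exact this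

lemma rigid [CompleteSpace X] [SeparableSpace X] {p q : ι → X} (hs : St p q) {w w' : X}
    {f F g : X →L[ℝ] ℝ} (hf : Sm w f) (hg : Sm w' g) (h1 : Mo p q f F) (ne : g ≠ f)
    (lt : ‖f - g‖ < 1) (i j : ι) : f (p j - p i) ≤ F (q j - q i) + ‖f - g‖ := by
  obtain ⟨G, h2⟩ := horo hs hg
  obtain ⟨v, v1, v2⟩ : ∃ v, f v = 0 ∧ g v = 1 := by
    by_contra h
    have a1 : ∀ z, g z = g w * f z := fun z => by
      by_contra h3
      have h4 : g z - f z * g w ≠ 0 := fun e => h3 (by linarith)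
      refine h ⟨(g z - f z * g w)⁻¹ • (z - f z • w), by simp [hf.2.1], ?_⟩
      simp only [map_smul, map_sub, smul_eq_mul]
      exact inv_mul_cancel₀ h4
    have a2 := (le_abs_self _).trans ((f - g).le_opNorm w)
    have a3 := hg.1 w
    have a4 := a1 w'
    have a5 := hf.1 w'
    rw [hf.2.2.1] at a2 a3
    rw [hg.2.2.1] at a5
    rw [hg.2.1] at a4
    simp only [ContinuousLinearMap.sub_apply, hf.2.1] at a2
    have a6 : g w = 1 := by nlinarith
    exact ne (by ext z; rw [a1, a6, one_mul])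
  refine le_of_forall_pos_le_add fun η hη => ?_
  obtain ⟨l, hl⟩ := hs.1.exists_dist_lt ((f (p i) + η / 4) • w +
    (g (p j) - η / 4 - (f (p i) + η / 4) * g w) • v) (show 0 < η / 4 by positivity)
  rw [dist_eq_norm] at hl
  have a1 := (hf.1 _).trans_lt hl
  have a2 := (hg.1 _).trans_lt hl
  rw [norm_sub_rev] at hl
  have a3 := (hf.1 _).trans_lt hl
  have a4 := (hg.1 _).trans_lt hl
  have a5 := close hs h1 h2 l j
  simp only [map_sub, map_add, map_smul, smul_eq_mul, v1, v2, hf.2.1,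
    ContinuousLinearMap.sub_apply] at a1 a2 a3 a4 a5 ⊢
  have a6 := h1.2 i l 0 (by push_cast; linarith)
  have a7 := h2.2 l j 0 (by push_cast; linarith)
  push_cast at a6 a7
  linarith

lemma expand [CompleteSpace X] [SeparableSpace X] [StrictConvexSpace ℝ X]
    [SeparableSpace (X →L[ℝ] ℝ)] (nd : ∀ e : X, ∃ v, ∀ t : ℝ, v ≠ t • e) {p q : ι → X}
    (hs : St p q) (i j : ι) : ‖p j - p i‖ ≤ ‖q j - q i‖ := by
  let D : Set (X →L[ℝ] ℝ) := {f | ∃ w, Sm w f}
  have hc : (Subtype.val '' {f : D | IsOpen {f}}).Countable := by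
    refine Countable.image ?_ _
    exact PairwiseDisjoint.countable_of_isOpen (s := fun f : D => {f})
      (fun a _ b _ h => disjoint_singleton.2 h) (fun f hf => hf) fun f _ => singleton_nonempty f
  refine norming hc ?_ (norm_nonneg _) fun w f hf hn => ?_
  · rintro _ ⟨⟨f, w, hf⟩, -, rfl⟩
    refine Metric.dense_iff.2 fun u r hr => ?_
    by_contra h
    have a1 : ∀ x, ‖x‖ < r → ‖u + x‖ ≤ f (u + x) := fun x hx => not_lt.1 fun h1 =>
      h ⟨u + x, by simpa [mem_ball_iff_norm] using hx, h1⟩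
    obtain ⟨v, hv⟩ := nd u
    obtain ⟨s, s0, s1⟩ : ∃ s : ℝ, 0 < s ∧ ‖s • v‖ < r := by
      have : 0 < ‖v‖ + 1 := by positivity
      refine ⟨r / (‖v‖ + 1), by positivity, ?_⟩
      rw [norm_smul, Real.norm_eq_abs, abs_of_pos (by positivity), div_mul_eq_mul_div,
        div_lt_iff₀ this]
      linarith
    have a2 := a1 0 (by simpa using hr)
    have a3 := a1 _ s1
    have a4 := a1 (-(s • v)) (by rwa [norm_neg])
    rw [add_zero] at a2
    have a5 : SameRay ℝ u (u + s • v) := sameRay_iff_norm_add.2 ((norm_add_le _ _).antisymm (by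
      have := hf.1 (u + (u + s • v))
      rw [map_add] at this
      linarith))
    have a6 : ∀ t : ℝ, s • v ≠ t • u := fun t e => hv (s⁻¹ * t) (by
      rw [mul_smul, ← e, smul_smul, inv_mul_cancel₀ s0.ne', one_smul])
    rcases a5 with e | e | ⟨a, b, ha, hb, e⟩
    · rw [e, zero_add] at a3 a4
      rw [norm_neg, map_neg] at a4
      exact a6 0 (by rw [zero_smul]; exact norm_le_zero_iff.1 (by linarith))
    · exact a6 (-1) (by rw [neg_one_smul]; exact (neg_eq_of_add_eq_zero_right e).symm)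
    · refine a6 (b⁻¹ * a - 1) ?_
      rw [sub_smul, mul_smul, e, smul_smul, inv_mul_cancel₀ hb.ne']
      module
  · obtain ⟨F, hF⟩ := horo hs hf
    refine le_trans (le_of_forall_pos_le_add fun η hη => ?_) (hF.1 _)
    by_contra h
    refine hn ⟨⟨f, w, hf⟩, ?_, rfl⟩
    rw [mem_setOf_eq]
    refine Metric.isOpen_iff.2 fun g hg => ⟨min η 1, by positivity, ?_⟩
    rintro ⟨g', w', hg'⟩ h3
    rw [mem_singleton_iff.1 hg, Metric.mem_ball, Subtype.dist_eq, dist_eq_norm, norm_sub_rev,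
      lt_min_iff] at h3
    by_contra h4
    exact h ((rigid hs hf hg' hF (fun e => h4 (Subtype.ext e)) h3.2 i j).trans (by linarith [h3.1]))

lemma line {a b : ι → ℝ} (ha : DenseRange a) (hb : DenseRange b) (ia : Injective a)
    (ib : Injective b) (h : ∀ i j (k : ℤ), a i + k < a j → b i + k ≤ b j) :
    ∃ φ : ℝ → ℝ, Bijective φ ∧ (∀ i, φ (a i) = b i) ∧
      ∀ (s t : ℝ) (k : ℤ), s + k < t ↔ φ s + k < φ t := by
  have da : ∀ s t, s < t → ∃ i, s < a i ∧ a i < t := fun s t h =>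
    ha.exists_mem_open isOpen_Ioo (nonempty_Ioo.2 h)
  have h0 : ∀ i j, a i < a j → b i < b j := fun i j hij =>
    lt_of_le_of_ne (by simpa using h i j 0 (by simpa using hij)) fun e => hij.ne (by rw [ib e])
  let φ : ℝ → ℝ := fun t => sSup (b '' {i | a i < t})
  have p1 : ∀ t i, a i < t → b i ≤ φ t := fun t i hi => by
    obtain ⟨j, hj, -⟩ := da t (t + 1) (by linarith)
    refine le_csSup ⟨b j, ?_⟩ ⟨i, hi, rfl⟩
    rintro _ ⟨l, hl, rfl⟩
    exact (h0 _ _ (hl.trans hj)).le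
  have p2 : ∀ t c, (∀ i, a i < t → b i ≤ c) → φ t ≤ c := fun t c hc => by
    obtain ⟨j, -, hj⟩ := da (t - 1) t (by linarith)
    refine csSup_le ⟨_, j, hj, rfl⟩ ?_
    rintro _ ⟨l, hl, rfl⟩
    exact hc l hl
  have p3 : ∀ i, φ (a i) = b i := fun i => by
    refine (p2 _ _ fun j hj => (h0 _ _ hj).le).antisymm (not_lt.1 fun h1 => ?_)
    obtain ⟨j, j1, j2⟩ := hb.exists_mem_open isOpen_Ioo (nonempty_Ioo.2 h1)
    rcases lt_trichotomy (a j) (a i) with h2 | h2 | h2
    · exact (p1 _ _ h2).not_gt j1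
    · exact j2.ne (by rw [ia h2])
    · exact lt_asymm (h0 _ _ h2) j2
  have p4 : ∀ (s t : ℝ) (k : ℤ), s + k < t → φ s + k < φ t := fun s t k hk => by
    obtain ⟨j, j1, j2⟩ := da _ _ hk
    obtain ⟨l, l1, l2⟩ := da _ _ j2
    have := p2 s (b j - k) fun i hi => by linarith [h i j k (by linarith)]
    linarith [p1 _ _ l2, h0 _ _ l1]
  have p5 : StrictMono φ := fun s t hst => by simpa using p4 s t 0 (by simpa using hst)
  have p6 : DenseRange φ := hb.mono (by rintro _ ⟨i, rfl⟩; exact ⟨_, p3 i⟩)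
  have p7 : Continuous φ := p5.monotone.continuous_of_denseRange p6
  refine ⟨φ, ⟨p5.injective, fun y => ?_⟩, p3, fun s t k => ⟨p4 s t k, fun h1 => ?_⟩⟩
  · obtain ⟨s, -, s2⟩ := p6.exists_mem_open isOpen_Ioo (nonempty_Ioo.2 (sub_one_lt y))
    obtain ⟨t, t1, -⟩ := p6.exists_mem_open isOpen_Ioo (nonempty_Ioo.2 (lt_add_one y))
    exact intermediate_value_univ s t p7 ⟨s2.le, t1.le⟩
  · by_contra h2
    obtain ⟨r, r1, r2⟩ := p6.exists_mem_open isOpen_Ioo
      (nonempty_Ioo.2 (show φ s < φ t - k by linarith))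
    have := p4 t r (-k) (by push_cast; linarith [p5.lt_iff_lt.1 r1])
    push_cast at this
    linarith

lemma floor_eq {a b : ℝ} (h : ∀ k : ℤ, a < k ↔ b < k) : ⌊a⌋ = ⌊b⌋ :=
  le_antisymm (Int.lt_add_one_iff.1 (Int.floor_lt.2 ((h _).2 (by
    push_cast; exact Int.lt_floor_add_one _))))
    (Int.lt_add_one_iff.1 (Int.floor_lt.2 ((h _).1 (by push_cast; exact Int.lt_floor_add_one _))))

theorem main [CompleteSpace X] [StrictConvexSpace ℝ X] [SeparableSpace (X →L[ℝ] ℝ)]
    (S : Set X) (hc : S.Countable) (hd : Dense S) (T : S → S) (hb : Bijective T)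
    (h : ∀ x y : S, ⌊‖(x : X) - y‖⌋ = ⌊‖(T x : X) - T y‖⌋) :
    ∃ T' : X → X, Bijective T' ∧ (∀ x y, ⌊‖x - y‖⌋ = ⌊‖T' x - T' y‖⌋) ∧ ∀ s : S, T' s = T s := by
  haveI : SeparableSpace X := ⟨S, hc, hd⟩
  have hs : St (fun x : S => (x : X)) fun x => T x := ⟨hd.denseRange_val,
    hd.denseRange_val.comp hb.2.denseRange continuous_subtype_val, fun k i j => by
      rw [← Int.floor_lt, ← Int.floor_lt, h]⟩
  by_cases nd : ∀ e : X, ∃ v, ∀ t : ℝ, v ≠ t • e
  · have h1 : Isometry fun x : S => (T x : X) := Isometry.of_dist_eq fun x y => by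
      rw [Subtype.dist_eq, dist_eq_norm, dist_eq_norm]
      exact (expand nd hs.symm _ _).antisymm (expand nd hs _ _)
    have h2 := (hd.uniformContinuous_extend h1.uniformContinuous).continuous
    have h3 := hd.extend_eq h1.continuous
    have h4 : Isometry (hd.extend fun x : S => (T x : X)) := Isometry.of_dist_eq fun x y =>
      hd.denseRange_val.induction_on₂ (isClosed_eq (by fun_prop) (by fun_prop))
        (fun a b => by rw [h3, h3, h1.dist_eq, Subtype.dist_eq]) x y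
    refine ⟨_, ⟨h4.injective, fun y => ?_⟩, fun x y => by
      rw [← dist_eq_norm, ← dist_eq_norm, h4.dist_eq], h3⟩
    exact hs.2.1.induction_on y h4.isClosedEmbedding.isClosed_range fun j => ⟨_, h3 j⟩
  push Not at nd
  obtain ⟨e, he⟩ := nd
  by_cases e0 : e = 0
  · refine ⟨id, bijective_id, fun _ _ => rfl, fun s => ?_⟩
    obtain ⟨a, ha⟩ := he s
    obtain ⟨b, hb⟩ := he (T s)
    simp [ha, hb, e0]
  have e1 : 0 < ‖e‖ := norm_pos_iff.2 e0
  obtain ⟨w, w1, hw⟩ : ∃ w : X, ‖w‖ = 1 ∧ ∀ v, ∃ t : ℝ, v = t • w :=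
    ⟨‖e‖⁻¹ • e, by simp [norm_smul, e1.ne'], fun v => by
      obtain ⟨t, rfl⟩ := he v
      exact ⟨t * ‖e‖, by rw [smul_smul, mul_assoc, mul_inv_cancel₀ e1.ne', mul_one]⟩⟩
  obtain ⟨f, f1, f2⟩ := exists_dual_vector ℝ w (by rw [w1]; exact one_ne_zero)
  have f3 : f w = 1 := f2.trans w1
  have f4 : ∀ v, f v • w = v := fun v => by
    obtain ⟨t, rfl⟩ := hw v
    simp [f3]
  have f5 : ∀ v, ‖v‖ = |f v| := fun v => by
    rw [← f4 v, norm_smul, w1, f4]; simp
  have hf : Sm w f := ⟨fun z => f5 z ▸ le_abs_self _, f3, w1, fun z hz => ⟨-f z, by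
    rw [neg_smul, f4]; simpa using hz⟩⟩
  obtain ⟨F, hF⟩ := horo hs hf
  have F1 : ∀ v, F v = f v * F w := fun v => by
    conv_lhs => rw [← f4 v]
    simp
  have F2 : |F w| = 1 := by
    refine le_antisymm (abs_le.2 ⟨by simpa [w1, neg_le] using hF.1 (-w), w1 ▸ hF.1 w⟩)
      (le_of_nat (c := 2 + 2 * |F w|) fun n => ?_)
    obtain ⟨i, -⟩ := hs.1.exists_dist_lt 0 one_pos
    obtain ⟨j, hj⟩ := hs.1.exists_dist_lt (i + (n : ℝ) • w) (show (0 : ℝ) < 1 / 2 by norm_num)
    rw [dist_eq_norm] at hj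
    have a1 := hF.bd i j
    have a2 := hs.symm.le j i
    have a3 := hf.1 (i + (n : ℝ) • w - j)
    have a4 := norm_sub_le ((n : ℝ) • w) (i + (n : ℝ) • w - j)
    rw [show (n : ℝ) • w - (i + (n : ℝ) • w - j) = j - i by module, norm_smul, w1,
      Real.norm_natCast] at a4
    have a5 := le_abs_self (F (T j - T i))
    rw [F1, abs_mul, ← f5, ← F1] at a5
    have a6 := mul_le_mul_of_nonneg_right (show ‖(T j : X) - T i‖ ≤ n + 2 by linarith)
      (abs_nonneg (F w))
    simp only [map_sub, map_add, map_smul, f3, smul_eq_mul] at a1 a3 a5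
    linarith
  have F3 : F w * F w = 1 := by rw [← abs_mul_abs_self, F2, mul_one]
  have fi : Injective f := fun x y e => by rw [← f4 x, e, f4]
  have su : ∀ t, f (t • w) = t := fun t => by simp [f3]
  have F4 : ∀ t, F ((t * F w) • w) = t := fun t => by simp [mul_assoc, F3]
  have F5 : ∀ v, (F v * F w) • w = v := fun v => by rw [F1 v, mul_assoc, F3, mul_one, f4]
  obtain ⟨φ, p1, p2, p3⟩ := line (a := fun x : S => f x) (b := fun x : S => F (T x))
    ((show Surjective f from fun t => ⟨_, su t⟩).denseRange.comp hs.1 f.continuous)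
    ((show Surjective F from fun t => ⟨_, F4 t⟩).denseRange.comp hs.2.1 F.continuous)
    (fi.comp Subtype.val_injective)
    (fun x y e => hb.1 (Subtype.ext (by rw [← F5 (T x), show F (T x) = F (T y) from e, F5]))) hF.2
  refine ⟨fun x => (φ (f x) * F w) • w, ⟨fun x y e => fi (p1.1 ?_), fun y => ?_⟩,
    fun x y => floor_eq fun k => ?_, fun s => by simp only [p2, F5]⟩
  · rw [← F4 (φ (f x)), show (φ (f x) * F w) • w = _ from e, F4]
  · obtain ⟨t, ht⟩ := p1.2 (F y)
    exact ⟨t • w, by simp only [su, ht, F5]⟩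
  · rw [← sub_smul, ← sub_mul, norm_smul, w1, mul_one, Real.norm_eq_abs, abs_mul, F2, mul_one,
      f5, map_sub, abs_lt, abs_lt]
    have a1 := p3 (f x) (f y) (-k)
    have a2 := p3 (f y) (f x) (-k)
    push_cast at a1 a2
    constructor <;> rintro ⟨b1, b2⟩
    · exact ⟨by linarith [a2.1 (by linarith)], by linarith [a1.1 (by linarith)]⟩
    · exact ⟨by linarith [a2.2 (by linarith)], by linarith [a1.2 (by linarith)]⟩

end Pool.Agent.H95.StepE
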