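import Pool.Agent.H95.Moment

set_option autoImplicit false
open Matrix Polynomial

namespace Pool.Agent.H95.TTO
open Pool.Agent.H95.Moment

theorem entry {ι : Type} [Fintype ι] [DecidableEq ι] (B : Matrix ι ι ℂ) (U V : Matrix ι Unit ℂ)
    (a b : ι) (hU : U = cl (Pi.single a 1)) (hV : V = cl (Pi.single b 1)) :
    (Uᴴ * B * V) () () = B a b := by
  subst hU hV
  simp [cl, Matrix.mul_apply, Pi.single_apply]

theorem entry' {ι : Type} [Fintype ι] [DecidableEq ι] (B : Matrix ι ι ℂ) (d : ι → ℂ)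
    (hB : hr B = Matrix.diagonal d) (ξ : Matrix ι Unit ℂ) (p q : ℂ[X]) (a b : ι)
    (hp : ∀ i, p.eval (d i) * ξ i () = if i = a then 1 else 0)
    (hq : ∀ i, q.eval (d i) * ξ i () = if i = b then 1 else 0) :
    ((Polynomial.aeval (hr B) p * ξ)ᴴ * hi B * (Polynomial.aeval (hr B) q * ξ)) () ()
      = hi B a b := by
  apply entry
  · rw [hB, aeval_diag]
    ext i u
    rw [Matrix.diagonal_mul, hp]
    simp [cl, Pi.single_apply]
  · rw [hB, aeval_diag]
    ext i u
    rw [Matrix.diagonal_mul, hq]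
    simp [cl, Pi.single_apply]

/-- block Toeplitz matrices from linearly many parameters -/
noncomputable def toep {r : ℕ} {m : Fin r → ℕ} (c : (Σ i : Fin r, Fin (m i)) × Bool → ℂ) :
    Matrix (Σ i : Fin r, Fin (m i)) (Σ i : Fin r, Fin (m i)) ℂ :=
  Matrix.blockDiagonal' (fun i => Matrix.of fun (j k : Fin (m i)) =>
    if (j : ℕ) ≤ k then c (⟨i, ⟨k - j, by omega⟩⟩, true) else c (⟨i, ⟨j - k, by omega⟩⟩, false))

theorem toep_sm {r : ℕ} {m : Fin r → ℕ} : Sm (toep (m := m)) := by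
  rintro ⟨i, j⟩ ⟨i', k⟩
  by_cases h : i = i'
  · subst h
    simp only [toep, Matrix.blockDiagonal'_apply_eq, Matrix.of_apply]
    split_ifs <;> fun_prop
  · simp only [toep, Matrix.blockDiagonal'_apply_ne _ _ _ h]
    exact contDiff_const

theorem exists_toep {r : ℕ} {m : Fin r → ℕ} (g : Fin r → ℂ → ℂ) :
    ∃ c, Matrix.blockDiagonal' (fun i => Matrix.of fun (j k : Fin (m i)) =>
      g i (((k : ℕ) : ℂ) - ((j : ℕ) : ℂ))) = toep c := by
  refine ⟨fun z => if z.2 then g z.1.1 (z.1.2 : ℕ) else g z.1.1 (-(z.1.2 : ℕ)), ?_⟩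
  unfold toep
  congr 1
  funext i
  ext j k
  simp only [Matrix.of_apply]
  by_cases h : (j : ℕ) ≤ k
  · simp [h, Nat.cast_sub h]
  · simp [h, Nat.cast_sub (le_of_not_ge h)]

theorem gram_inj {M : ℕ} (w : ℝ → ℝ) (hw : Continuous w) (hw0 : ∀ t, 0 < w t) (c : Fin M → ℂ)
    (h : (Matrix.of fun (j k : Fin M) => ∫ t in (0:ℝ)..(2 * Real.pi),
      Complex.exp ((((k : ℕ) : ℂ) - ((j : ℕ) : ℂ)) * (t : ℂ) * Complex.I) / ((w t : ℝ) : ℂ)) *ᵥ c
        = 0) : c = 0 := by
  set q : ℝ → ℂ := fun t => ∑ k : Fin M, c k * Complex.exp (t * Complex.I) ^ (k : ℕ) with hq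
  have hqc : Continuous q := by rw [hq]; fun_prop
  have hwc : Continuous fun t => ((w t : ℝ) : ℂ) := Complex.continuous_ofReal.comp hw
  have hw1 : ∀ t, ((w t : ℝ) : ℂ) ≠ 0 := fun t => by exact_mod_cast (hw0 t).ne'
  have hint : ∀ j k : Fin M, IntervalIntegrable (fun t : ℝ =>
      Complex.exp ((((k : ℕ) : ℂ) - ((j : ℕ) : ℂ)) * (t : ℂ) * Complex.I) / ((w t : ℝ) : ℂ))
      MeasureTheory.volume 0 (2 * Real.pi) := fun j k =>
    (Continuous.div (by fun_prop) hwc hw1).intervalIntegrable _ _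
  have h1 : ∫ t in (0:ℝ)..(2 * Real.pi), ((Complex.normSq (q t) / w t : ℝ) : ℂ) = 0 := by
    have h2 : star c ⬝ᵥ (0 : Fin M → ℂ) = 0 := by simp
    rw [← h] at h2
    rw [← h2]
    simp only [dotProduct, Matrix.mulVec, Matrix.of_apply, Finset.mul_sum]
    simp only [← intervalIntegral.integral_mul_const, ← intervalIntegral.integral_const_mul]
    rw [← Finset.sum_congr rfl fun j _ => intervalIntegral.integral_finsetSum
      (fun k _ => ((hint j k).mul_const _).const_mul _)]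
    rw [← intervalIntegral.integral_finsetSum]
    · congr 1
      funext t
      have e : ∀ j k : Fin M, Complex.exp ((((k : ℕ) : ℂ) - ((j : ℕ) : ℂ)) * (t : ℂ) * Complex.I)
          = (starRingEnd ℂ) (Complex.exp (t * Complex.I) ^ (j : ℕ)) *
            Complex.exp (t * Complex.I) ^ (k : ℕ) := by
        intro j k
        rw [← Complex.exp_nat_mul, ← Complex.exp_nat_mul, ← Complex.exp_conj, ← Complex.exp_add]
        congr 1
        simp
        ring
      push_cast
      rw [Complex.normSq_eq_conj_mul_self, hq]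
      simp only [map_sum, Finset.sum_mul, Finset.mul_sum, Finset.sum_div, e]
      rw [Finset.sum_comm]
      refine Finset.sum_congr rfl fun j _ => Finset.sum_congr rfl fun k _ => ?_
      simp only [map_mul, Pi.star_apply, RCLike.star_def]
      ring
    · intro j _
      have := IntervalIntegrable.sum (s := Finset.univ)
        (fun k _ => ((hint j k).mul_const (c k)).const_mul (star c j))
      rwa [Finset.sum_fn] at this
  rw [intervalIntegral.integral_ofReal, Complex.ofReal_eq_zero] at h1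
  have h3 : ∀ t ∈ Set.Icc (0 : ℝ) (2 * Real.pi), q t = 0 := by
    intro t ht
    by_contra hne
    have := intervalIntegral.integral_pos (a := 0) (b := 2 * Real.pi)
      (f := fun t => Complex.normSq (q t) / w t) (by positivity)
      (Continuous.div (Complex.continuous_normSq.comp hqc) hw fun t => (hw0 t).ne').continuousOn
      (fun x _ => div_nonneg (Complex.normSq_nonneg _) (hw0 x).le)
      ⟨t, ht, div_pos (Complex.normSq_pos.2 hne) (hw0 t)⟩
    exact this.ne' h1
  let p : ℂ[X] := ∑ k : Fin M, Polynomial.monomial (k : ℕ) (c k)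
  have hp : p = 0 := by
    apply Polynomial.eq_zero_of_infinite_isRoot
    have hinf : ((fun t : ℝ => Complex.exp (t * Complex.I)) '' Set.Icc 0 Real.pi).Infinite := by
      apply Set.Infinite.image _ (Set.Icc_infinite Real.pi_pos)
      intro a ha b hb hab
      have := congrArg Complex.re hab
      simp only [Complex.exp_ofReal_mul_I_re] at this
      exact Real.injOn_cos ha hb this
    refine hinf.mono ?_
    rintro _ ⟨t, ht, rfl⟩
    have := h3 t ⟨ht.1, by linarith [ht.2, Real.pi_pos]⟩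
    simpa [p, Polynomial.eval_finsetSum] using this
  funext k
  have := congrArg (fun p => Polynomial.coeff p k) hp
  simpa [p, Polynomial.coeff_monomial, Fin.val_inj] using this

theorem main2 :
    ¬ (∀ (n : ℕ) (A : Matrix (Fin n) (Fin n) ℂ),
    ∃ (r : ℕ) (m : Fin r → ℕ) (a : (i : Fin r) → Fin (m i) → ℂ) (φ : Fin r → ℝ → ℂ)
      (S : Matrix (Fin n ⊕ Fin n) (Σ i : Fin r, Fin (m i)) ℂ),
      ∑ i, m i = 2 * n ∧
      (∀ i j, ‖a i j‖ < 1) ∧
      (∀ i, Continuous (φ i)) ∧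
      Matrix.conjTranspose S * S = Matrix.blockDiagonal' (fun i => Matrix.of (fun (j k : Fin (m i)) =>
          ∫ t in (0:ℝ)..(2 * Real.pi),
            Complex.exp ((((k : ℕ) : ℂ) - ((j : ℕ) : ℂ)) * (t : ℂ) * Complex.I) /
              ((Complex.normSq (∏ l : Fin (m i),
                  (1 - starRingEnd ℂ (a i l) * Complex.exp ((t : ℂ) * Complex.I))) : ℝ) : ℂ))) ∧
      Matrix.conjTranspose S * Matrix.fromBlocks A 0 0 (Matrix.transpose A) * S =
        Matrix.blockDiagonal' (fun i => Matrix.of (fun (j k : Fin (m i)) =>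
          ∫ t in (0:ℝ)..(2 * Real.pi),
            φ i t * Complex.exp ((((k : ℕ) : ℂ) - ((j : ℕ) : ℂ)) * (t : ℂ) * Complex.I) /
              ((Complex.normSq (∏ l : Fin (m i),
                  (1 - starRingEnd ℂ (a i l) * Complex.exp ((t : ℂ) * Complex.I))) : ℝ) : ℂ)))) := by
  intro h
  have key : ∀ n : ℕ, (n + 1).choose 2 ≤ 20 * n + 2 := by
    intro n
    let I := {z : Σ r : ℕ, Fin r → ℕ // ∑ i, z.2 i = 2 * n}
    let W : I → Set (Sym2 (Fin n) → ℝ) := fun z =>
      {X | ∃ (θ : (((Σ i : Fin z.1.1, Fin (z.1.2 i)) × Bool → ℂ) ×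
          ((Σ i : Fin z.1.1, Fin (z.1.2 i)) × Bool → ℂ))), ∃ y t, ∀ i j,
        X s(i, j) = (val (lag i) (lag j) (toep θ.1) (toep θ.2) y t).re}
    have hW : ∀ z, dimH (W z) ≤ ((20 * n + 2 : ℕ) : ENNReal) := fun z => by
      refine (dimH_le _ _ (toep_sm.comp contDiff_fst) (toep_sm.comp contDiff_snd) lag).trans
        (le_of_eq ?_)
      congr 1
      simp [Module.finrank_prod, Module.finrank_pi_fintype, Complex.finrank_real_complex, z.2]
      ring
    have hU : (Set.univ : Set (Sym2 (Fin n) → ℝ)) ⊆ ⋃ z, W z := by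
      intro X _
      obtain ⟨r, m, a, φ, S, h1, h2, -, h4, h5⟩ := h n (A X)
      refine Set.mem_iUnion.2 ⟨⟨⟨r, m⟩, h1⟩, ?_⟩
      obtain ⟨c1, hc1⟩ := exists_toep (m := m) (fun i z => ∫ t in (0:ℝ)..(2 * Real.pi),
            Complex.exp (z * (t : ℂ) * Complex.I) /
              ((Complex.normSq (∏ l : Fin (m i),
                  (1 - starRingEnd ℂ (a i l) * Complex.exp ((t : ℂ) * Complex.I))) : ℝ) : ℂ))
      obtain ⟨c2, hc2⟩ := exists_toep (m := m) (fun i z => ∫ t in (0:ℝ)..(2 * Real.pi),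
            φ i t * Complex.exp (z * (t : ℂ) * Complex.I) /
              ((Complex.normSq (∏ l : Fin (m i),
                  (1 - starRingEnd ℂ (a i l) * Complex.exp ((t : ℂ) * Complex.I))) : ℝ) : ℂ))
      have hdet : (Sᴴ * S).det ≠ 0 := by
        intro h0
        obtain ⟨v, hv0, hv⟩ := Matrix.exists_mulVec_eq_zero_iff.2 h0
        apply hv0
        funext ⟨i, j⟩
        have := gram_inj (M := m i) (fun t => Complex.normSq (∏ l : Fin (m i),
            (1 - starRingEnd ℂ (a i l) * Complex.exp ((t : ℂ) * Complex.I))))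
          (Complex.continuous_normSq.comp (by fun_prop)) (fun t => by
            rw [Complex.normSq_pos, Finset.prod_ne_zero_iff]
            intro l _ hl
            have h6 := congrArg norm (sub_eq_zero.1 hl)
            simp [Complex.norm_exp_ofReal_mul_I] at h6
            exact (h2 i l).ne h6.symm) (fun k => v ⟨i, k⟩) (by
            funext k
            have h7 := congrFun hv ⟨i, k⟩
            rw [h4] at h7
            simp only [Matrix.mulVec, dotProduct, Fintype.sum_sigma] at h7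
            rw [Finset.sum_eq_single i] at h7
            · simpa [Matrix.mulVec, dotProduct] using h7
            · intro b _ hb
              simp [Matrix.blockDiagonal'_apply_ne _ _ _ (Ne.symm hb)]
            · simp)
        exact congrFun this j
      have hcard : Fintype.card (Fin n ⊕ Fin n) = Fintype.card (Σ i : Fin r, Fin (m i)) := by
        simp [h1]; ring
      obtain ⟨L, hLS⟩ : ∃ L : Matrix (Σ i : Fin r, Fin (m i)) (Fin n ⊕ Fin n) ℂ, L * S = 1 :=
        ⟨(Sᴴ * S)⁻¹ * Sᴴ, by rw [Matrix.mul_assoc, Matrix.nonsing_inv_mul _ (Ne.isUnit hdet)]⟩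
      have hSL : S * L = 1 := (Matrix.mul_eq_one_comm_of_card_eq _ _ ℂ hcard.symm).1 hLS
      have hSL' : Lᴴ * Sᴴ = 1 := by rw [← Matrix.conjTranspose_mul, hSL]; simp
      obtain ⟨y, t, hy⟩ := val_eq hcard (Matrix.fromBlocks (A X) 0 0 (A X)ᵀ) Lᴴ (toep c1) (toep c2)
        (by
          rw [← hc2, ← h5, Matrix.conjTranspose_conjTranspose, ← Matrix.mul_assoc,
            ← Matrix.mul_assoc, hSL', Matrix.one_mul, Matrix.mul_assoc, hSL, Matrix.mul_one])
        (by
          rw [← hc1, ← h4, Matrix.conjTranspose_conjTranspose, ← Matrix.mul_assoc, hSL',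
            Matrix.one_mul, hSL])
        (cl (Sum.elim 1 0))
      refine ⟨(c1, c2), y, t, fun i j => ?_⟩
      rw [hy]
      have e1 : hr (Matrix.fromBlocks (A X) 0 0 (A X)ᵀ) =
          Matrix.diagonal (Sum.elim (fun i : Fin n => ((i : ℕ) : ℂ)) (fun i : Fin n => ((i : ℕ) : ℂ))) := by
        rw [← Matrix.fromBlocks_diagonal, ← hr_A X, A_transpose]
        simp [hr, Matrix.fromBlocks_conjTranspose, Matrix.fromBlocks_add, Matrix.fromBlocks_smul]
      rw [entry' _ _ e1 _ _ _ (Sum.inl i) (Sum.inl j)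
        (by rintro (b | b) <;> simp [cl, lag_eval]) (by rintro (b | b) <;> simp [cl, lag_eval])]
      have e3 : hi (Matrix.fromBlocks (A X) 0 0 (A X)ᵀ) (Sum.inl i) (Sum.inl j) = hi (A X) i j := by
        simp [hi]
      simp [e3, hi_A]
    have h1 := (dimH_mono hU).trans ((dimH_iUnion W).le.trans (iSup_le hW))
    rw [Real.dimH_univ_eq_finrank, Module.finrank_fintype_fun_eq_card, Sym2.card] at h1
    simpa using (by exact_mod_cast h1 : (Fintype.card (Fin n) + 1).choose 2 ≤ 20 * n + 2)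
  have := key 40
  norm_num [Nat.choose_two_right] at this

/-! ### The compressed shift model -/

/-- lower shift matrix -/
def Z (n : ℕ) : Matrix (Fin n) (Fin n) ℂ := Matrix.of fun i j => if (i : ℕ) = j + 1 then 1 else 0

theorem Z_pow (n k : ℕ) (i j : Fin n) : (Z n ^ k) i j = if (i : ℕ) = j + k then 1 else 0 := by
  induction k generalizing i with
  | zero => simp [Matrix.one_apply, Fin.val_inj]
  | succ k ih =>
    rw [pow_succ', Matrix.mul_apply]
    simp only [ih]
    simp only [Z, Matrix.of_apply]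
    split_ifs with h
    · rw [Finset.sum_eq_single ⟨j + k, by omega⟩]
      · simp [h, add_assoc]
      · intro b _ hb
        have : (b : ℕ) ≠ j + k := fun h => hb (Fin.ext h)
        simp [this]
      · simp
    · apply Finset.sum_eq_zero
      intro b _
      split_ifs with h1 h2 <;> first | omega | simp

theorem Z_nil (n : ℕ) : Z n ^ n = 0 := by
  ext i j
  rw [Z_pow, if_neg (by omega)]; rfl

noncomputable def disp {n : ℕ} (θ : Fin 8 → Fin n → ℂ) : Matrix (Fin n) (Fin n) ℂ :=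
  ∑ k ∈ Finset.range n, Z n ^ k * (vecMulVec (θ 0) (θ 1) + vecMulVec (θ 2) (θ 3) +
    vecMulVec (θ 4) (θ 5) + vecMulVec (θ 6) (θ 7)) * (Z n)ᴴ ^ k

theorem disp_sm {n : ℕ} : Sm (disp (n := n)) := by
  have h : ∀ a b : Fin 8, Sm (fun θ : Fin 8 → Fin n → ℂ => vecMulVec (θ a) (θ b)) := by
    intro a b i j
    simp only [vecMulVec_apply]; fun_prop
  exact Sm.sum _ fun k => ((Sm.const _).mul ((((h _ _).add (h _ _)).add (h _ _)).add (h _ _))).mul
    (Sm.const _)

theorem telescope {n : ℕ} (N : Matrix (Fin n) (Fin n) ℂ) :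
    N = ∑ k ∈ Finset.range n, Z n ^ k * (N - Z n * N * (Z n)ᴴ) * (Z n)ᴴ ^ k := by
  have : ∀ k : ℕ, Z n ^ k * (N - Z n * N * (Z n)ᴴ) * (Z n)ᴴ ^ k =
      Z n ^ k * N * (Z n)ᴴ ^ k - Z n ^ (k + 1) * N * (Z n)ᴴ ^ (k + 1) := by
    intro k
    rw [pow_succ, pow_succ']
    noncomm_ring
  simp only [this]
  rw [Finset.sum_range_sub' (fun k => Z n ^ k * N * (Z n)ᴴ ^ k), Z_nil]
  simp

theorem exists_disp {n : ℕ} (N : Matrix (Fin n) (Fin n) ℂ) (c e a1 b1 a2 b2 : Fin n → ℂ)
    (h : N - (Z n + vecMulVec c e) * N * (Z n + vecMulVec c e)ᴴ =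
      vecMulVec a1 b1 + vecMulVec a2 b2) : ∃ θ, N = disp θ := by
  refine ⟨![a1, b1, a2, b2, c, e ᵥ* (N * (Z n + vecMulVec c e)ᴴ), (Z n * N) *ᵥ star e, star c], ?_⟩
  conv_lhs => rw [telescope N]
  unfold disp
  refine Finset.sum_congr rfl fun k _ => ?_
  congr 2
  simp only [Matrix.cons_val]
  rw [← h, ← Matrix.vecMulVec_mul, ← Matrix.mul_vecMulVec, ← Matrix.conjTranspose_vecMulVec,
    Matrix.conjTranspose_add]
  noncomm_ring

theorem krylov {n : ℕ} (T : Matrix (Fin n) (Fin n) ℂ) (k : Fin n → ℂ)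
    (h1 : 1 - T * Tᴴ = vecMulVec k (star k))
    (h2 : ∀ μ : ℂ, ∀ x : Fin n → ℂ, x ≠ 0 → T *ᵥ x = μ • x → ‖μ‖ < 1) :
    (Matrix.of fun i j : Fin n => ((T ^ (j : ℕ)) *ᵥ k) i).det ≠ 0 := by
  intro h0
  obtain ⟨v, hv0, hv⟩ := Matrix.exists_vecMul_eq_zero_iff.2 h0
  have hv1 : ∀ j : Fin n, v ⬝ᵥ ((T ^ (j : ℕ)) *ᵥ k) = 0 := fun j => congrFun hv j
  have hv2 : ∀ j : ℕ, v ⬝ᵥ ((T ^ j) *ᵥ k) = 0 := by
    intro j
    rcases Nat.eq_zero_or_pos n with rfl | hn
    · simp [dotProduct]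
    haveI : Nonempty (Fin n) := ⟨⟨0, hn⟩⟩
    have hdeg : (X ^ j %ₘ T.charpoly).natDegree < n := by
      have := Polynomial.natDegree_modByMonic_lt (X ^ j) T.charpoly_monic (by
        intro h
        have := T.charpoly_natDegree_eq_dim
        rw [h] at this
        simp at this
        omega)
      simpa using this
    rw [Matrix.pow_eq_aeval_mod_charpoly, Polynomial.aeval_eq_sum_range' hdeg, Matrix.sum_mulVec,
      dotProduct_sum]
    apply Finset.sum_eq_zero
    intro i hi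
    rw [Matrix.smul_mulVec, dotProduct_smul, hv1 ⟨i, Finset.mem_range.1 hi⟩, smul_zero]
  let W : Submodule ℂ (Fin n → ℂ) :=
    { carrier := {v | ∀ j : ℕ, v ⬝ᵥ ((T ^ j) *ᵥ k) = 0}
      add_mem' := fun ha hb j => by rw [add_dotProduct, ha j, hb j, add_zero]
      zero_mem' := fun j => by simp
      smul_mem' := fun c x hx j => by rw [smul_dotProduct, hx j, smul_zero] }
  have hW : ∀ x ∈ W, T.vecMulLinear x ∈ W := by
    intro x hx j
    rw [Matrix.vecMulLinear_apply, ← Matrix.dotProduct_mulVec, Matrix.mulVec_mulVec, ← pow_succ']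
    exact hx (j + 1)
  haveI : Nontrivial W := ⟨⟨⟨v, hv2⟩, 0, fun h => hv0 (congrArg Subtype.val h)⟩⟩
  obtain ⟨μ, hμ⟩ := Module.End.exists_eigenvalue (T.vecMulLinear.restrict hW)
  obtain ⟨⟨x, hx⟩, hx1⟩ := hμ.exists_hasEigenvector
  have hx0 : x ≠ 0 := fun h => hx1.2 (Subtype.ext h)
  have hx2 : x ᵥ* T = μ • x := congrArg Subtype.val hx1.apply_eq_smul
  have hx3 : x ⬝ᵥ k = 0 := by simpa using hx 0
  have hx4 : Tᴴ *ᵥ star x = star μ • star x := by
    rw [← Matrix.star_vecMul, hx2, star_smul]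
  have hx5 : star k ⬝ᵥ star x = 0 := by
    rw [star_dotProduct_star, hx3, star_zero]
  have hx6 : star x = star μ • (T *ᵥ star x) := by
    have := congrArg (fun M => M *ᵥ star x) h1
    simp only [Matrix.sub_mulVec, Matrix.one_mulVec, ← Matrix.mulVec_mulVec, hx4,
      Matrix.vecMulVec_mulVec, hx5, Matrix.mulVec_smul] at this
    simpa [sub_eq_zero] using this
  have hx7 : star x ≠ 0 := by simpa using hx0
  have hx8 : x ⬝ᵥ star x = (star μ * μ) * (x ⬝ᵥ star x) := by
    conv_lhs => rw [hx6]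
    rw [dotProduct_smul, Matrix.dotProduct_mulVec, hx2, smul_dotProduct]
    simp [mul_assoc]
  have hx9 : x ⬝ᵥ star x ≠ 0 := by
    open scoped ComplexOrder in rw [Ne, dotProduct_self_star_eq_zero]
    exact hx0
  have hμ1 : star μ * μ = 1 := by
    have : (star μ * μ - 1) * (x ⬝ᵥ star x) = 0 := by linear_combination -hx8
    exact sub_eq_zero.1 ((mul_eq_zero.1 this).resolve_right hx9)
  have hT : T *ᵥ star x = μ • star x := by
    conv_rhs => rw [hx6]
    rw [smul_smul, mul_comm, hμ1, one_smul]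
  have := h2 μ _ hx7 hT
  have h3 := congrArg norm hμ1
  simp at h3
  nlinarith [norm_nonneg μ]

theorem no_orth {n : ℕ} (x y : Fin n → ℂ) (a b : ℂ) (hx : x ≠ 0) (hy : y ≠ 0)
    (h1 : A (fun _ => 1) *ᵥ x = a • x) (h2 : A (fun _ => 1) *ᵥ y = b • y)
    (h3 : star x ⬝ᵥ y = 0) : False := by
  have e : ∀ (x : Fin n → ℂ) (i : Fin n),
      (A (fun _ => 1) *ᵥ x) i = ((i : ℕ) : ℂ) * x i + Complex.I * ∑ j, x j := by
    intro x i
    rw [A, Matrix.add_mulVec, Pi.add_apply, Matrix.mulVec_diagonal]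
    simp [Matrix.mulVec, dotProduct, Finset.mul_sum]
  have hs : ∀ (x : Fin n → ℂ) (a : ℂ), x ≠ 0 → A (fun _ => 1) *ᵥ x = a • x → ∑ j, x j ≠ 0 := by
    intro x a hx h h0
    obtain ⟨j, hj⟩ := Function.ne_iff.1 hx
    have h4 : ∀ i : Fin n, (((i : ℕ) : ℂ) - a) * x i = 0 := fun i => by
      have := congrFun h i
      rw [e, h0] at this
      simp at this ⊢
      rcases this with h | h
      · left; rw [h]; simp
      · right; exact h
    have h5 : a = (j : ℕ) := (sub_eq_zero.1 ((mul_eq_zero.1 (h4 j)).resolve_right hj)).symm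
    rw [Finset.sum_eq_single j] at h0
    · exact hj h0
    · intro i _ hi
      refine (mul_eq_zero.1 (h4 i)).resolve_left ?_
      rw [h5, sub_eq_zero]
      intro h
      exact hi (Fin.ext (by exact_mod_cast h))
    · simp
  have h6 : star x ⬝ᵥ (A (fun _ => 1) *ᵥ y) = 0 := by rw [h2, dotProduct_smul, h3, smul_zero]
  have h7 : star (A (fun _ => 1) *ᵥ x) ⬝ᵥ y = 0 := by
    rw [h1, star_smul, smul_dotProduct, h3, smul_zero]
  simp only [dotProduct, Pi.star_apply, e, mul_add, star_add, add_mul, Finset.sum_add_distrib,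
    star_mul', star_natCast, ← Finset.sum_mul, ← Finset.mul_sum] at h6 h7
  have h8 : ∑ i : Fin n, star (x i) * (((i : ℕ) : ℂ) * y i) =
      ∑ i : Fin n, ((i : ℕ) : ℂ) * star (x i) * y i :=
    Finset.sum_congr rfl fun i _ => by ring
  have h9 : star (∑ j, x j) * ∑ j, y j = 0 := by
    rw [h8, ← star_sum] at h6
    have hI : star Complex.I = -Complex.I := by simp
    rw [hI] at h7
    have : (2 * Complex.I) * (star (∑ j, x j) * ∑ j, y j) = 0 := by linear_combination h6 - h7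
    exact (mul_eq_zero.1 this).resolve_left (by simp)
  rcases mul_eq_zero.1 h9 with h | h
  · exact hs x a hx h1 (star_eq_zero.1 h)
  · exact hs y b hy h2 h

theorem good_nhds (n : ℕ) : {X : Sym2 (Fin n) → ℝ | ¬ ∃ x y : Fin n → ℂ, ∃ a b : ℂ, x ≠ 0 ∧ y ≠ 0 ∧
    A X *ᵥ x = a • x ∧ A X *ᵥ y = b • y ∧ star x ⬝ᵥ y = 0} ∈ nhds (fun _ => 1) := by
  let Sph := Metric.sphere (0 : Fin n → ℂ) 1
  let Zs : Set ((Sym2 (Fin n) → ℝ) × (Sph × Sph)) := {w |
    (∀ i j, (A w.1 *ᵥ w.2.1.1) i * w.2.1.1 j = (A w.1 *ᵥ w.2.1.1) j * w.2.1.1 i) ∧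
    (∀ i j, (A w.1 *ᵥ w.2.2.1) i * w.2.2.1 j = (A w.1 *ᵥ w.2.2.1) j * w.2.2.1 i) ∧
    star w.2.1.1 ⬝ᵥ w.2.2.1 = 0}
  have hA : Continuous fun X : Sym2 (Fin n) → ℝ => A X := by
    refine continuous_matrix fun i j => ?_
    simp only [A, Matrix.add_apply, Matrix.of_apply]; fun_prop
  have hZ : IsClosed Zs := by
    simp only [Zs, Set.setOf_and, Set.setOf_forall]
    have c1 : Continuous fun w : (Sym2 (Fin n) → ℝ) × (Sph × Sph) => A w.1 *ᵥ w.2.1.1 :=
      (hA.comp continuous_fst).matrix_mulVec (by fun_prop)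
    have c2 : Continuous fun w : (Sym2 (Fin n) → ℝ) × (Sph × Sph) => A w.1 *ᵥ w.2.2.1 :=
      (hA.comp continuous_fst).matrix_mulVec (by fun_prop)
    have c3 : Continuous fun w : (Sym2 (Fin n) → ℝ) × (Sph × Sph) => w.2.1.1 := by fun_prop
    have c4 : Continuous fun w : (Sym2 (Fin n) → ℝ) × (Sph × Sph) => w.2.2.1 := by fun_prop
    refine IsClosed.inter ?_ (IsClosed.inter ?_ ?_)
    · exact isClosed_iInter fun i => isClosed_iInter fun j => isClosed_eq
        (((continuous_apply i).comp c1).mul ((continuous_apply j).comp c3))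
        (((continuous_apply j).comp c1).mul ((continuous_apply i).comp c3))
    · exact isClosed_iInter fun i => isClosed_iInter fun j => isClosed_eq
        (((continuous_apply i).comp c2).mul ((continuous_apply j).comp c4))
        (((continuous_apply j).comp c2).mul ((continuous_apply i).comp c4))
    · exact isClosed_eq (by fun_prop) continuous_const
  have hcl : IsClosed (Prod.fst '' Zs) := isClosedMap_fst_of_compactSpace _ hZ
  have eig : ∀ (M : Matrix (Fin n) (Fin n) ℂ) (x : Sph),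
      (∀ i j, (M *ᵥ x.1) i * x.1 j = (M *ᵥ x.1) j * x.1 i) →
      x.1 ≠ 0 ∧ ∃ a : ℂ, M *ᵥ x.1 = a • x.1 := by
    intro M x h
    have hx : x.1 ≠ 0 := by
      intro h0
      have := x.2
      rw [h0] at this
      simp [Sph] at this
    obtain ⟨j, hj⟩ := Function.ne_iff.1 hx
    refine ⟨hx, (M *ᵥ x.1) j / x.1 j, funext fun i => ?_⟩
    have hj' : x.1 j ≠ 0 := hj
    rw [Pi.smul_apply, smul_eq_mul, div_mul_eq_mul_div, eq_div_iff hj', h i j]
  refine Filter.mem_of_superset (hcl.isOpen_compl.mem_nhds ?_) ?_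
  · rintro ⟨⟨X, x, y⟩, ⟨h1, h2, h3⟩, hX⟩
    simp only at hX h1 h2 h3
    subst hX
    obtain ⟨hx, a, ha⟩ := eig _ x h1
    obtain ⟨hy, b, hb⟩ := eig _ y h2
    exact no_orth _ _ a b hx hy ha hb h3
  · rintro X hX ⟨x, y, a, b, hx, hy, h1, h2, h3⟩
    apply hX
    have hn : ∀ x : Fin n → ℂ, x ≠ 0 → ((‖x‖⁻¹ : ℝ) : ℂ) • x ∈ Sph := fun x hx => by
      simp [Sph, norm_smul, hx]
    refine ⟨(X, ⟨_, hn x hx⟩, ⟨_, hn y hy⟩), ⟨?_, ?_, ?_⟩, rfl⟩
    · intro i j
      simp only [Matrix.mulVec_smul, h1, Pi.smul_apply, smul_eq_mul]; ring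
    · intro i j
      simp only [Matrix.mulVec_smul, h2, Pi.smul_apply, smul_eq_mul]; ring
    · simp only [star_smul, smul_dotProduct, dotProduct_smul, h3, smul_zero]

theorem main1 :
    ¬ (∀ n : ℕ, 4 ≤ n → ∀ M : Matrix (Fin n) (Fin n) ℂ, Mᵀ = M →
      (¬ ∃ x y : Fin n → ℂ, ∃ a b : ℂ, x ≠ 0 ∧ y ≠ 0 ∧
          M *ᵥ x = a • x ∧ M *ᵥ y = b • y ∧ star x ⬝ᵥ y = 0) →
      ∃ T : Matrix (Fin n) (Fin n) ℂ, ∃ k u v : Fin n → ℂ,
        1 - T * Tᴴ = Matrix.vecMulVec k (star k) ∧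
        (∀ μ : ℂ, ∀ x : Fin n → ℂ, x ≠ 0 → T *ᵥ x = μ • x → ‖μ‖ < 1) ∧
        M - T * M * Tᴴ = Matrix.vecMulVec u (star k) + Matrix.vecMulVec k (star v)) := by
  intro h
  have key : ∀ n : ℕ, 4 ≤ n → (n + 1).choose 2 ≤ 34 * n + 2 := by
    intro n hn
    have hW := dimH_le (κ := Fin n) (E := (Fin 8 → Fin n → ℂ) × (Fin 8 → Fin n → ℂ))
      _ _ (disp_sm.comp contDiff_fst) (disp_sm.comp contDiff_snd) (lag (n := n))
    have h1 := Real.dimH_of_mem_nhds (good_nhds n)
    have h2 := h1.symm.le.trans ((dimH_mono ?_).trans hW)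
    · rw [Module.finrank_fintype_fun_eq_card, Sym2.card] at h2
      have h3 := Nat.cast_le.1 h2
      simp [Module.finrank_prod, Module.finrank_pi_fintype, Complex.finrank_real_complex] at h3
      omega
    intro X hX
    obtain ⟨T, k, u, v, a1, a2, a3⟩ := h n hn (A X) (A_transpose X) hX
    have hdet := krylov T k a1 a2
    set K := (Matrix.of fun i j : Fin n => ((T ^ (j : ℕ)) *ᵥ k) i) with hK
    obtain ⟨L, hLK, hKL⟩ : ∃ L : Matrix (Fin n) (Fin n) ℂ, L * K = 1 ∧ K * L = 1 :=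
      ⟨K⁻¹, Matrix.nonsing_inv_mul _ (Ne.isUnit hdet), Matrix.mul_nonsing_inv _ (Ne.isUnit hdet)⟩
    have hTK : T * K = K * Z n +
        vecMulVec ((T ^ n) *ᵥ k) (fun j : Fin n => if (j : ℕ) + 1 = n then 1 else 0) := by
      ext i j
      have e1 : (T * K) i j = ((T ^ ((j : ℕ) + 1)) *ᵥ k) i := by
        rw [pow_succ', ← Matrix.mulVec_mulVec]; rfl
      rw [e1, Matrix.add_apply, Matrix.mul_apply, vecMulVec_apply]
      simp only [Z, Matrix.of_apply, hK]
      split_ifs with hj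
      · rw [Finset.sum_eq_zero, hj]
        · simp
        · intro b _
          rw [if_neg (by omega), mul_zero]
      · rw [Finset.sum_eq_single ⟨j + 1, by omega⟩]
        · simp
        · intro b _ hb
          have : (b : ℕ) ≠ j + 1 := fun h => hb (Fin.ext h)
          simp [this]
        · simp
    have hC : Z n + vecMulVec (L *ᵥ ((T ^ n) *ᵥ k)) (fun j : Fin n => if (j : ℕ) + 1 = n then 1 else 0)
        = L * T * K := by
      rw [Matrix.mul_assoc, hTK, Matrix.mul_add, ← Matrix.mul_assoc, hLK, Matrix.one_mul,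
        Matrix.mul_vecMulVec]
    have hLK' : Lᴴ * Kᴴ = 1 := by rw [← Matrix.conjTranspose_mul, hKL]; simp
    have hgen : ∀ M : Matrix (Fin n) (Fin n) ℂ, L * M * Lᴴ - (L * T * K) * (L * M * Lᴴ) *
        (L * T * K)ᴴ = L * (M - T * M * Tᴴ) * Lᴴ := by
      intro M
      have : (L * T * K) * (L * M * Lᴴ) * (L * T * K)ᴴ =
          L * T * (K * L) * M * (Lᴴ * Kᴴ) * Tᴴ * Lᴴ := by
        simp only [Matrix.conjTranspose_mul, Matrix.mul_assoc]
      rw [this, hKL, hLK']
      noncomm_ring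
    obtain ⟨θ1, hθ1⟩ := exists_disp (L * 1 * Lᴴ) _ _ (L *ᵥ k) (star k ᵥ* Lᴴ) 0 0 (by
      rw [hC, hgen, Matrix.mul_one, a1, Matrix.mul_vecMulVec, Matrix.vecMulVec_mul]; simp)
    obtain ⟨θ2, hθ2⟩ := exists_disp (L * A X * Lᴴ) _ _ (L *ᵥ u) (star k ᵥ* Lᴴ) (L *ᵥ k)
      (star v ᵥ* Lᴴ) (by
      rw [hC, hgen, a3, Matrix.mul_add, Matrix.add_mul, Matrix.mul_vecMulVec, Matrix.vecMulVec_mul,
        Matrix.mul_vecMulVec, Matrix.vecMulVec_mul])
    obtain ⟨y, t, hy⟩ := val_eq rfl (A X) K (disp θ1) (disp θ2)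
      (by
        rw [← hθ2, ← Matrix.mul_assoc, ← Matrix.mul_assoc, hKL, Matrix.one_mul, Matrix.mul_assoc,
          hLK', Matrix.mul_one])
      (by
        rw [← hθ1, ← Matrix.mul_assoc, ← Matrix.mul_assoc, hKL, Matrix.one_mul, Matrix.mul_assoc,
          hLK', Matrix.mul_one])
      (cl 1)
    refine ⟨(θ1, θ2), y, t, fun i j => ?_⟩
    rw [hy]
    rw [entry' _ _ (hr_A X) _ _ _ i j (by simp [cl, lag_eval]) (by simp [cl, lag_eval])]
    simp [hi_A]
  have := key 70 (by norm_num)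
  norm_num [Nat.choose_two_right] at this

end Pool.Agent.H95.TTO
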