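import Pool.Agent.H95.TasDefs

set_option autoImplicit false

namespace Pool.Agent.H95.Tas

open Equiv

section general
variable {n : ℕ} [NeZero n]

lemma sw_sw (w : Perm (Fin n)) (j : Fin n) : sw (sw w j) j = w := by
  simp [sw, mul_assoc]

lemma sw_left (w : Perm (Fin n)) (j : Fin n) : sw w j (j - 1) = w j := by simp [sw]

lemma sw_right (w : Perm (Fin n)) (j : Fin n) : sw w j j = w (j - 1) := by simp [sw]

lemma inflow (t : Fin n → ℝ) (p : Perm (Fin n) → ℝ) (x : Perm (Fin n)) :
    ∑ w, p w * rate t w x =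
      ∑ j, if x (j - 1) < x j then p (sw x j) * (1 / t (x (j - 1))) else 0 := by
  unfold rate
  simp_rw [Finset.mul_sum]
  rw [Finset.sum_comm]
  refine Finset.sum_congr rfl fun j _ => ?_
  rw [Finset.sum_eq_single (sw x j)]
  · simp only [sw_sw, sw_left, sw_right, and_true]
    split_ifs <;> simp
  · intro w _ hw
    rw [if_neg, mul_zero]
    rintro ⟨-, h⟩
    exact hw (by rw [h, sw_sw])
  · simp

lemma outflow (t : Fin n → ℝ) (x : Perm (Fin n)) :
    ∑ w, rate t x w = ∑ j, if x j < x (j - 1) then 1 / t (x j) else 0 := by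
  unfold rate
  rw [Finset.sum_comm]
  refine Finset.sum_congr rfl fun j _ => ?_
  rw [Finset.sum_eq_single (sw x j)]
  · simp
  · intro w _ hw
    rw [if_neg]
    rintro ⟨-, h⟩
    exact hw h
  · simp

end general

def tab : ℕ := 27230347365971166465698955349818998906671524678708805506245543819455442511501963950876441610891343617656407373182710150536768476817315110236076347235201802920084880377489464764205992319632970007200455413569529593849981514224017818310379813572535415219619811087149772901288356239680399245749365180230948832240322953985956379396663331711480806337035041606645459955540315046739130080669892661365573899248240826167950578523310899938791697891943094538157906738104200265075340475500301809996789053185817347799078645191605967570726424551984541804174990707206283047903183520888800606630166121545966486184343751777581844442462854791333953397402124163354867046793158710549048921271712690885942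

def lt (x y : Fin 6) : ℕ := if x < y then 1 else 0

def leh (b c d e f : Fin 6) : ℕ :=
  (((lt c b + lt d b + lt e b + lt f b) * 4 + (lt d c + lt e c + lt f c)) * 3 +
    (lt e d + lt f d)) * 2 + lt f e

def T (i : ℕ) : ℕ := tab / 524288 ^ i % 524288

def W (a b c d e f : Fin 6) : ℕ :=
  if a = 0 then T (leh b c d e f) else if b = 0 then T (leh c d e f a) else
  if c = 0 then T (leh d e f a b) else if d = 0 then T (leh e f a b c) else
  if e = 0 then T (leh f a b c d) else T (leh a b c d e)

def r (x : Fin 6) : ℕ := if x = 0 ∨ x = 1 then 4 else if x = 2 ∨ x = 4 then 8 else 1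

set_option synthInstance.maxSize 4000 in
lemma chk : ∀ a b : Fin 6, a ≠ b → ∀ c : Fin 6, a ≠ c ∧ b ≠ c → ∀ d : Fin 6,
    a ≠ d ∧ b ≠ d ∧ c ≠ d → ∀ e : Fin 6, a ≠ e ∧ b ≠ e ∧ c ≠ e ∧ d ≠ e → ∀ f : Fin 6,
    a ≠ f ∧ b ≠ f ∧ c ≠ f ∧ d ≠ f ∧ e ≠ f → 0 < W a b c d e f ∧
    (if f < a then W f b c d e a * r f else 0) + (if a < b then W b a c d e f * r a else 0) +
    (if b < c then W a c b d e f * r b else 0) + (if c < d then W a b d c e f * r c else 0) +
    (if d < e then W a b c e d f * r d else 0) + (if e < f then W a b c d f e * r e else 0) =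
    W a b c d e f * ((if a < f then r a else 0) + (if b < a then r b else 0) +
      (if c < b then r c else 0) + (if d < c then r d else 0) + (if e < d then r e else 0) +
      (if f < e then r f else 0)) := by
  decide +kernel

noncomputable def t0 : Fin 6 → ℝ := ![1 / 4, 1 / 4, 1 / 8, 1, 1 / 8, 1]

lemma t0_r (x : Fin 6) : 1 / t0 x = (r x : ℝ) := by
  fin_cases x <;> simp [t0, r]

def Wp (w : Perm (Fin 6)) : ℕ := W (w 0) (w 1) (w 2) (w 3) (w 4) (w 5)

lemma chk' (w : Perm (Fin 6)) : 0 < Wp w ∧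
    (∑ j, if w (j - 1) < w j then (Wp (sw w j) : ℝ) * (1 / t0 (w (j - 1))) else 0) =
      (Wp w : ℝ) * ∑ j, if w j < w (j - 1) then 1 / t0 (w j) else 0 := by
  have h := chk (w 0) (w 1) (by simp) (w 2) (by simp) (w 3) (by simp) (w 4) (by simp) (w 5)
    (by simp)
  refine ⟨h.1, ?_⟩
  have h2 := congrArg (fun m : ℕ => (m : ℝ)) h.2
  simp only [t0_r, Fin.sum_univ_six]
  have e0 : (0 : Fin 6) - 1 = 5 := rfl
  have e1 : (1 : Fin 6) - 1 = 0 := rfl
  have e2 : (2 : Fin 6) - 1 = 1 := rfl
  have e3 : (3 : Fin 6) - 1 = 2 := rfl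
  have e4 : (4 : Fin 6) - 1 = 3 := rfl
  have e5 : (5 : Fin 6) - 1 = 4 := rfl
  simp only [e0, e1, e2, e3, e4, e5]
  push_cast at h2
  exact h2

def mu (w : Perm (Fin 6)) : ℕ :=
  (w 1).val + 2 * (w 2).val + 3 * (w 3).val + 4 * (w 4).val + 5 * (w 5).val

lemma mu_sw (w : Perm (Fin 6)) (j : Fin 6) (hj : j ≠ 0) :
    mu (sw w j) + (w j).val = mu w + (w (j - 1)).val := by
  fin_cases j
  · exact absurd rfl hj
  · change (w 0).val + 2 * (w 2).val + 3 * (w 3).val + 4 * (w 4).val + 5 * (w 5).val +
      (w 1).val = mu w + (w 0).val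
    unfold mu; omega
  · change (w 2).val + 2 * (w 1).val + 3 * (w 3).val + 4 * (w 4).val + 5 * (w 5).val +
      (w 2).val = mu w + (w 1).val
    unfold mu; omega
  · change (w 1).val + 2 * (w 3).val + 3 * (w 2).val + 4 * (w 4).val + 5 * (w 5).val +
      (w 3).val = mu w + (w 2).val
    unfold mu; omega
  · change (w 1).val + 2 * (w 2).val + 3 * (w 4).val + 4 * (w 3).val + 5 * (w 5).val +
      (w 4).val = mu w + (w 3).val
    unfold mu; omega
  · change (w 1).val + 2 * (w 2).val + 3 * (w 3).val + 4 * (w 5).val + 5 * (w 4).val +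
      (w 5).val = mu w + (w 4).val
    unfold mu; omega

lemma mu_le (w : Perm (Fin 6)) : mu w ≤ 75 := by
  unfold mu
  have := (w 1).2; have := (w 2).2; have := (w 3).2; have := (w 4).2; have := (w 5).2
  omega

lemma eq_of_vals {w u : Perm (Fin 6)} (h0 : w 0 = u 0) (h1 : w 1 = u 1) (h2 : w 2 = u 2)
    (h3 : w 3 = u 3) (h4 : w 4 = u 4) (h5 : w 5 = u 5) : w = u := by
  ext i
  fin_cases i
  exacts [congrArg _ h0, congrArg _ h1, congrArg _ h2, congrArg _ h3, congrArg _ h4,
    congrArg _ h5]

lemma ne_pred (w : Perm (Fin 6)) (j : Fin 6) : w (j - 1) ≠ w j := by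
  intro h
  have := w.injective h
  revert this
  fin_cases j <;> decide

lemma eq_rev (w : Perm (Fin 6)) (h : ∀ j : Fin 6, j ≠ 0 → w j < w (j - 1)) :
    w = Fin.revPerm := by
  have h1 : w 1 < w 0 := h 1 (by decide)
  have h2 : w 2 < w 1 := h 2 (by decide)
  have h3 : w 3 < w 2 := h 3 (by decide)
  have h4 : w 4 < w 3 := h 4 (by decide)
  have h5 : w 5 < w 4 := h 5 (by decide)
  rw [Fin.lt_def] at h1 h2 h3 h4 h5
  have := (w 0).2
  apply eq_of_vals <;> apply Fin.ext
  · change _ = 5; omega
  · change _ = 4; omega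
  · change _ = 3; omega
  · change _ = 2; omega
  · change _ = 1; omega
  · change _ = 0; omega

lemma eq_id (w : Perm (Fin 6)) (h : ∀ j : Fin 6, j ≠ 0 → w (j - 1) < w j) : w = 1 := by
  have h1 : w 0 < w 1 := h 1 (by decide)
  have h2 : w 1 < w 2 := h 2 (by decide)
  have h3 : w 2 < w 3 := h 3 (by decide)
  have h4 : w 3 < w 4 := h 4 (by decide)
  have h5 : w 4 < w 5 := h 5 (by decide)
  rw [Fin.lt_def] at h1 h2 h3 h4 h5
  have := (w 5).2
  apply eq_of_vals <;> apply Fin.ext
  · change _ = 0; omega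
  · change _ = 1; omega
  · change _ = 2; omega
  · change _ = 3; omega
  · change _ = 4; omega
  · change _ = 5; omega

def run : List (Fin 6) → Perm (Fin 6) → Perm (Fin 6)
  | [], x => x
  | j :: l, x => run l (sw x j)

def ok : List (Fin 6) → Perm (Fin 6) → Bool
  | [], _ => true
  | j :: l, x => decide (x (j - 1) < x j) && ok l (sw x j)

def path : List (Fin 6) :=
  [0, 1, 2, 3, 5, 0, 1, 4, 3, 2, 1, 5, 0, 1, 4, 3, 2, 5, 0, 1, 4, 3, 2, 5, 0, 1, 4, 5, 0]

lemma path_ok : ok path Fin.revPerm = true ∧ ∀ i, run path Fin.revPerm i = i := by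
  decide +kernel

lemma reach (Z : Perm (Fin 6) → Prop) (hZ : ∀ x j, Z x → x (j - 1) < x j → Z (sw x j))
    (x : Perm (Fin 6)) (hx : Z x) (y : Perm (Fin 6)) : Z y := by
  have h1 : ∀ m, ∀ x, mu x ≤ m → Z x → Z Fin.revPerm := by
    intro m
    induction m using Nat.strong_induction_on with
    | _ m ih =>
      intro x hm hx
      by_cases h : ∀ j : Fin 6, j ≠ 0 → x j < x (j - 1)
      · rw [← eq_rev x h]; exact hx
      · push Not at h
        obtain ⟨j, hj, hl⟩ := h
        have hl' : x (j - 1) < x j := lt_of_le_of_ne hl (ne_pred x j)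
        have := mu_sw x j hj
        have h' := hl'
        rw [Fin.lt_def] at h'
        exact ih (mu (sw x j)) (by omega) _ le_rfl (hZ x j hx hl')
  have h2 : ∀ l x, ok l x = true → Z x → Z (run l x) := by
    intro l
    induction l with
    | nil => intro x _ hx; exact hx
    | cons j l ih =>
      intro x ho hx
      simp only [ok, Bool.and_eq_true, decide_eq_true_eq] at ho
      exact ih _ ho.2 (hZ x j hx ho.1)
  have h3 : Z 1 := by
    have := h2 _ _ path_ok.1 (h1 _ x le_rfl hx)
    have e : run path Fin.revPerm = 1 := Equiv.ext path_ok.2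
    rwa [e] at this
  have h4 : ∀ m, ∀ y, 75 ≤ mu y + m → Z y := by
    intro m
    induction m using Nat.strong_induction_on with
    | _ m ih =>
      intro y hm
      by_cases h : ∀ j : Fin 6, j ≠ 0 → y (j - 1) < y j
      · rw [eq_id y h]; exact h3
      · push Not at h
        obtain ⟨j, hj, hl⟩ := h
        have hl' : y j < y (j - 1) := lt_of_le_of_ne hl (ne_pred y j).symm
        have e := mu_sw y j hj
        have h' := hl'
        rw [Fin.lt_def] at h'
        have hb := mu_le (sw y j)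
        have := ih (75 - mu (sw y j)) (by omega) (sw y j) (by omega)
        have := hZ _ j this (by rwa [sw_left, sw_right])
        rwa [sw_sw] at this
  exact h4 75 y (by omega)

lemma r_pos (x : Fin 6) : 0 < 1 / t0 x := by
  rw [t0_r]
  fin_cases x <;> simp [r]

lemma prop (p : Perm (Fin 6) → ℝ) (hp : IsStat t0 p) : ∃ M : ℝ, 0 < M ∧ ∀ w, p w = M * Wp w := by
  obtain ⟨x, -, hx⟩ := Finset.exists_max_image Finset.univ (fun w => p w / Wp w)
    Finset.univ_nonempty
  have hW : ∀ w, (0 : ℝ) < Wp w := fun w => by exact_mod_cast (chk' w).1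
  set M := p x / Wp x with hM
  have hle : ∀ w, p w ≤ M * Wp w := fun w => by
    have := hx w (Finset.mem_univ _)
    rwa [div_le_iff₀ (hW w)] at this
  have hall : ∀ w, p w = M * Wp w := by
    refine reach (fun w => p w = M * Wp w) ?_ x (by rw [hM]; field_simp [(hW x).ne'])
    intro y j hy hj
    have b1 := hp.2.2 y
    rw [inflow, outflow] at b1
    have b2 := (chk' y).2
    have b3 : ∑ i, (if y (i - 1) < y i then (M * Wp (sw y i) - p (sw y i)) * (1 / t0 (y (i - 1)))
        else 0) = 0 := by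
      have : ∀ i, (if y (i - 1) < y i then (M * Wp (sw y i) - p (sw y i)) * (1 / t0 (y (i - 1)))
          else 0) = M * (if y (i - 1) < y i then (Wp (sw y i) : ℝ) * (1 / t0 (y (i - 1))) else 0)
          - (if y (i - 1) < y i then p (sw y i) * (1 / t0 (y (i - 1))) else 0) := by
        intro i; split_ifs <;> ring
      simp_rw [this]
      rw [Finset.sum_sub_distrib, ← Finset.mul_sum, b1, b2, hy]
      ring
    rw [Finset.sum_eq_zero_iff_of_nonneg] at b3
    · have := b3 j (Finset.mem_univ _)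
      rw [if_pos hj] at this
      have h5 := (mul_eq_zero.1 this).resolve_right (r_pos _).ne'
      linarith
    · intro i _
      split_ifs
      · exact mul_nonneg (sub_nonneg.2 (hle _)) (r_pos _).le
      · exact le_rfl
  refine ⟨M, ?_, hall⟩
  have hs := hp.2.1
  simp_rw [hall, ← Finset.mul_sum] at hs
  have : (0 : ℝ) < ∑ w, (Wp w : ℝ) := Finset.sum_pos (fun w _ => hW w) Finset.univ_nonempty
  by_contra hn
  push Not at hn
  nlinarith

lemma exists_unique : ∃! p, IsStat t0 p := by
  have hW : ∀ w, (0 : ℝ) < Wp w := fun w => by exact_mod_cast (chk' w).1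
  have hS : (0 : ℝ) < ∑ w, (Wp w : ℝ) := Finset.sum_pos (fun w _ => hW w) Finset.univ_nonempty
  refine ⟨fun w => (∑ w, (Wp w : ℝ))⁻¹ * Wp w, ⟨fun w => by have := hW w; positivity, ?_, ?_⟩, ?_⟩
  · rw [← Finset.mul_sum]; field_simp
  · intro y
    rw [inflow, outflow, mul_assoc, ← (chk' y).2, Finset.mul_sum]
    refine Finset.sum_congr rfl fun j _ => ?_
    split_ifs <;> ring
  · intro p hp
    obtain ⟨M, -, hM⟩ := prop p hp
    have hs := hp.2.1
    simp_rw [hM, ← Finset.mul_sum] at hs
    funext w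
    rw [hM, eq_inv_of_mul_eq_one_left hs]

def pos0 : Fin 6 → Fin 6 := ![0, 2, 0, 0, 0, 0]

def w0 : Perm (Fin 6) := ⟨![0, 3, 1, 5, 4, 2], ![0, 2, 5, 1, 4, 3], by decide, by decide⟩

lemma desc_chk : ∀ b d e f : Fin 6, List.IsRotated [5, 4, 3, 2]
    ([0, b, 1, d, e, f].filter fun x => decide (2 ≤ x.val)) →
    (0 ≠ b ∧ 0 ≠ d ∧ 0 ≠ e ∧ 0 ≠ f ∧ 1 ≠ b ∧ 1 ≠ d ∧ 1 ≠ e ∧ 1 ≠ f) →
    W 0 3 1 5 4 2 < W 0 b 1 d e f := by
  decide +kernel

theorem main : (∃! p, IsStat t0 p) ∧ ∀ p, IsStat t0 p → InE 2 pos0 w0 ∧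
    ∀ w, InE 2 pos0 w → CycDesc 2 w → cond p 2 pos0 w0 < cond p 2 pos0 w := by
  refine ⟨exists_unique, fun p hp => ?_⟩
  have hE : InE 2 pos0 w0 := by unfold InE; decide
  refine ⟨hE, fun w hw hd => ?_⟩
  obtain ⟨M, hM, hall⟩ := prop p hp
  have hW : ∀ w, (0 : ℝ) < Wp w := fun w => by exact_mod_cast (chk' w).1
  have h0 : w 0 = 0 := hw 0 (by decide)
  have h2 : w 2 = 1 := hw 1 (by decide)
  have hlt : Wp w0 < Wp w := by
    have e : Wp w = W 0 (w 1) 1 (w 3) (w 4) (w 5) := by rw [Wp, h0, h2]
    rw [e]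
    refine desc_chk _ _ _ _ ?_ ?_
    · have e2 : List.ofFn w = [0, w 1, 1, w 3, w 4, w 5] := by
        rw [show List.ofFn w = [w 0, w 1, w 2, w 3, w 4, w 5] by simp [List.ofFn_succ], h0, h2]
      have := hd
      unfold CycDesc at this
      rw [show (arr 2 (1 : Perm (Fin 6))).reverse = [5, 4, 3, 2] by decide] at this
      unfold arr at this
      rwa [e2] at this
    · have a0 : ∀ i, i ≠ 0 → 0 ≠ w i := fun i hi h => hi (w.injective (h.symm.trans h0.symm))
      have a2 : ∀ i, i ≠ 2 → 1 ≠ w i := fun i hi h => hi (w.injective (h.symm.trans h2.symm))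
      exact ⟨a0 _ (by decide), a0 _ (by decide), a0 _ (by decide), a0 _ (by decide),
        a2 _ (by decide), a2 _ (by decide), a2 _ (by decide), a2 _ (by decide)⟩
  unfold cond
  apply div_lt_div_of_pos_right
  · rw [hall, hall]
    exact mul_lt_mul_of_pos_left (by exact_mod_cast hlt) hM
  · classical
    refine Finset.sum_pos' (fun u _ => ?_) ⟨w0, Finset.mem_univ _, ?_⟩
    · split_ifs
      exacts [hp.1 u, le_rfl]
    · rw [if_pos hE, hall]
      exact mul_pos hM (hW _)

end Pool.Agent.H95.Tas
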