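import Mathlib

set_option autoImplicit false

namespace Pool.Agent.H95.Tas

/-- The word obtained from `w` (position ↦ entry) by exchanging the entries at position `j`
and at its cyclic left neighbour `j - 1`. -/
def sw {n : ℕ} [NeZero n] (w : Equiv.Perm (Fin n)) (j : Fin n) : Equiv.Perm (Fin n) :=
  w * Equiv.swap (j - 1) j

/-- Jump rate from `w` to `w'`: the entry `w j` jumps left at rate `1 / t (w j)` when its cyclic
left neighbour is larger. -/
noncomputable def rate {n : ℕ} [NeZero n] (t : Fin n → ℝ) (w w' : Equiv.Perm (Fin n)) : ℝ :=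
  ∑ j, if w j < w (j - 1) ∧ w' = sw w j then 1 / t (w j) else 0

/-- Stationary probability distributions of the chain. -/
def IsStat {n : ℕ} [NeZero n] (t : Fin n → ℝ) (p : Equiv.Perm (Fin n) → ℝ) : Prop :=
  (∀ w, 0 ≤ p w) ∧ ∑ w, p w = 1 ∧
    ∀ w', ∑ w, p w * rate t w w' = p w' * ∑ w, rate t w' w

/-- The event that every small entry `i < k` sits at position `pos i`. -/
def InE {n : ℕ} (k : ℕ) (pos : Fin n → Fin n) (w : Equiv.Perm (Fin n)) : Prop :=
  ∀ i : Fin n, i.val < k → w (pos i) = i

/-- The arrangement of the large entries, read in increasing order of position. -/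
def arr {n : ℕ} (k : ℕ) (w : Equiv.Perm (Fin n)) : List (Fin n) :=
  (List.ofFn w).filter fun x => decide (k ≤ x.val)

/-- The arrangement is a cyclic rotation of the large entries in decreasing order. -/
def CycDesc {n : ℕ} (k : ℕ) (w : Equiv.Perm (Fin n)) : Prop :=
  List.IsRotated (arr k (1 : Equiv.Perm (Fin n))).reverse (arr k w)

open Classical in
/-- Conditional probability of the word `w` given the event. -/
noncomputable def cond {n : ℕ} (p : Equiv.Perm (Fin n) → ℝ) (k : ℕ) (pos : Fin n → Fin n)
    (w : Equiv.Perm (Fin n)) : ℝ :=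
  p w / ∑ u, if InE k pos u then p u else 0

end Pool.Agent.H95.Tas
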