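import Mathlib

namespace Pool.Agent.H95.Tball
open Complex Metric Finset Filter Topology Real ComplexConjugate InnerProductSpace Nat

theorem cf {F : ℂ → ℂ} {s M : ℝ} (hs : 0 < s) (hF : DifferentiableOn ℂ F (closedBall 0 s))
    (h : ∀ z ∈ sphere (0 : ℂ) s, |(F z).re| ≤ M) (n : ℕ) :
    ‖((n + 1)! : ℂ)⁻¹ * iteratedDeriv (n + 1) F 0‖ * s ^ (n + 1) ≤ 2 * M := by
  have h1 := hF.circleIntegral_one_div_sub_center_pow_smul hs (n + 1)
  have h2 : ∮ z in C(0, s), z ^ n * F z = 0 := DiffContOnCl.circleIntegral_eq_zero hs.le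
    (((differentiableOn_pow n).mul hF).mono closure_ball_subset_closedBall).diffContOnCl
  have h3 : ∮ z in C(0, s), (1 / (z - 0) ^ (n + 1 + 1)) • conj (F z) = 0 := by
    simp only [circleIntegral, deriv_circleMap] at h2 ⊢
    have h := congrArg (fun w => (-((s : ℂ) ^ 2) ^ (n + 1))⁻¹ * conj w) h2
    simp only [map_zero, mul_zero, ← intervalIntegral.intervalIntegral_conj, ← intervalIntegral.integral_const_mul] at h
    refine Eq.trans (intervalIntegral.integral_congr fun θ _ => ?_) h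
    have z0 := circleMap_ne_center (c := 0) (θ := θ) hs.ne'
    have e : (s : ℂ) ^ 2 = circleMap 0 s θ * conj (circleMap 0 s θ) := by
      rw [mul_conj, normSq_eq_norm_sq, norm_circleMap_zero, sq_abs, ofReal_pow]
    have z1 : conj (circleMap 0 s θ) ≠ 0 := by simpa using z0
    simp only [smul_eq_mul, map_mul, map_pow, conj_I, e, sub_zero, mul_pow]
    field_simp; ring
  have c0 : ContinuousOn (fun z : ℂ => 1 / (z - 0) ^ (n + 1 + 1)) (sphere 0 s) :=
    continuousOn_const.div (by fun_prop) fun z hz => pow_ne_zero _ (sub_ne_zero.2 (ne_of_mem_sphere hz hs.ne'))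
  have c1 := hF.continuousOn.mono sphere_subset_closedBall
  have h4 := circleIntegral.integral_add ((c0.smul c1).circleIntegrable hs.le)
    ((c0.smul (continuous_conj.comp_continuousOn c1)).circleIntegrable hs.le)
  have h5 := circleIntegral.norm_integral_le_of_norm_le_const (C := 2 * M / s ^ (n + 1 + 1)) hs.le
    (f := fun z => (1 / (z - 0) ^ (n + 1 + 1)) • F z + (1 / (z - 0) ^ (n + 1 + 1)) • conj (F z)) fun z hz => by
      rw [← smul_add, add_conj, norm_smul, norm_div, norm_one, norm_pow, sub_zero, mem_sphere_zero_iff_norm.1 hz,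
        norm_real, norm_eq_abs, abs_mul, abs_two, one_div_mul_eq_div]
      gcongr; exact h z hz
  erw [h4, h1, h3] at h5
  rw [add_zero, smul_eq_mul, div_eq_mul_inv, mul_assoc, norm_mul, show ‖2 * (π : ℂ) * I‖ = 2 * π by
    simp [pi_pos.le], mul_assoc (2 * π), mul_le_mul_iff_right₀ two_pi_pos, pow_succ s (n + 1)] at h5
  rw [← le_div_iff₀ (by positivity)]
  exact h5.trans_eq (by field_simp)

theorem cf' {F : ℂ → ℂ} {s M : ℝ} (hs : 0 < s) (hF : DifferentiableOn ℂ F (ball 0 s))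
    (h : ∀ z ∈ ball (0 : ℂ) s, |(F z).re| ≤ M) (n : ℕ) :
    ‖((n + 1)! : ℂ)⁻¹ * iteratedDeriv (n + 1) F 0‖ * s ^ (n + 1) ≤ 2 * M := by
  refine le_of_tendsto (x := 𝓝[<] s) (f := fun t => ‖((n + 1)! : ℂ)⁻¹ * iteratedDeriv (n + 1) F 0‖ * t ^ (n + 1))
    ((Continuous.tendsto (by fun_prop) s).mono_left nhdsWithin_le_nhds) ?_
  filter_upwards [Ioo_mem_nhdsLT hs] with t ht
  exact cf ht.1 (hF.mono (closedBall_subset_ball ht.2))
    (fun z hz => h z (closedBall_subset_ball ht.2 (sphere_subset_closedBall hz))) n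

theorem re_bd {ρ r : ℝ} (h0 : 0 < ρ) (h1 : ρ < r) (h2 : r < 1) {v : ℂ → ℝ} (hv : HarmonicOnNhd v (ball 0 1))
    (b1 : ∀ z ∈ ball (0 : ℂ) 1, |v z| ≤ 1) {N : ℕ} (b2 : ∀ z ∈ ball (0 : ℂ) ρ, |v z| ≤ ρ ^ N)
    {z : ℂ} (hz : z ∈ ball 0 r) : |v z| ≤ 2 * ((1 - ρ / r)⁻¹ + (1 - r)⁻¹) * r ^ N := by
  obtain ⟨F, hF, e⟩ := hv.exists_analyticOnNhd_ball_re_eq
  have r0 := h0.trans h1
  have s1 := ball_subset_ball (x := (0 : ℂ)) (h1.trans h2).le
  have hz1 := ball_subset_ball h2.le hz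
  have t := reCLM.hasSum (hasSum_taylorSeries_on_ball hF.differentiableOn hz1)
  set a : ℕ → ℝ := fun n => reCLM ((n ! : ℂ)⁻¹ • (z - 0) ^ n • iteratedDeriv n F 0)
  have k : ∀ n, |a (n + 1)| ≤ ‖((n + 1)! : ℂ)⁻¹ * iteratedDeriv (n + 1) F 0‖ * r ^ (n + 1) := fun n =>
    (abs_re_le_norm _).trans (by
      rw [smul_comm, norm_smul, norm_pow, sub_zero, mul_comm]
      gcongr
      exacts [le_rfl, (mem_ball_zero_iff.1 hz).le])
  have a1 : ∀ n, |a (n + (N + 1))| ≤ 2 * r ^ N * r ^ n := fun n => (k (n + N)).trans (by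
    have := cf' one_pos hF.differentiableOn (fun z hz => (congrArg abs (e hz)).trans_le (b1 z hz)) (n + N)
    rw [one_pow, mul_one, mul_one] at this
    calc _ ≤ 2 * r ^ (n + N + 1) := by gcongr
      _ ≤ 2 * r ^ (n + N) := mul_le_mul_of_nonneg_left (pow_le_pow_of_le_one r0.le h2.le (by omega)) two_pos.le
      _ = _ := by ring)
  have a2 : ∀ n ∈ range (N + 1), |a n| ≤ 2 * r ^ N * (ρ / r) ^ (N + 1 - 1 - n) := fun n hn => by
    obtain ⟨m, rfl⟩ := Nat.exists_eq_add_of_le (Nat.lt_succ_iff.1 (mem_range.1 hn))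
    rw [show n + m + 1 - 1 - n = m by omega]
    rcases n with _ | n
    · have := b2 0 (mem_ball_self h0)
      rw [← e (mem_ball_self one_pos)] at this
      have p := pow_pos h0 m
      simp only [a, factorial_zero, cast_one, inv_one, pow_zero, one_smul, iteratedDeriv_zero, reCLM_apply, zero_add] at this ⊢
      rw [div_pow, mul_assoc, mul_div_cancel₀ _ (by positivity)]; linarith
    · have := cf' h0 (hF.differentiableOn.mono s1) (fun z hz => (congrArg abs (e (s1 hz))).trans_le (b2 z hz)) n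
      rw [← le_div_iff₀ (by positivity)] at this
      refine (k n).trans ((mul_le_mul_of_nonneg_right this (by positivity)).trans_eq ?_)
      rw [div_pow]; field_simp; ring
  have g1 := hasSum_geometric_of_lt_one r0.le h2
  have g2 := hasSum_geometric_of_lt_one (r := ρ / r) (by positivity) ((div_lt_one r0).2 h1)
  rw [← show (F z).re = v z from e hz1, ← show _ = (F z).re from t.tsum_eq, ← t.summable.sum_add_tsum_nat_add (N + 1)]
  have u1 := tsum_of_norm_bounded (f := fun n => a (n + (N + 1))) (g1.mul_left (2 * r ^ N)) a1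
  have u2 := (abs_sum_le_sum_abs _ _).trans (sum_le_sum a2)
  rw [← mul_sum, sum_range_reflect fun n => (ρ / r) ^ n] at u2
  have u3 := mul_le_mul_of_nonneg_left (sum_le_hasSum (range (N + 1)) (fun _ _ => by positivity) g2)
    (show 0 ≤ 2 * r ^ N by positivity)
  refine (abs_add_le _ _).trans ?_
  rw [norm_eq_abs] at u1
  linarith

theorem main {ρ r : ℝ} (h0 : 0 < ρ) (h1 : ρ < r) (h2 : r < 1) : ∃ K : ℝ, ∀ u : ℂ → ℂ, HarmonicOnNhd u (ball 0 1) →
    ⨆ z : ball (0 : ℂ) 1, ‖u z‖ = 1 →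
      ⨆ z : ball (0 : ℂ) r, ‖u z‖ ≤ K * (⨆ z : ball (0 : ℂ) ρ, ‖u z‖) ^ (Real.log r / Real.log ρ) := by
  have r0 := h0.trans h1
  refine ⟨4 * ((1 - ρ / r)⁻¹ + (1 - r)⁻¹) / r, fun u hu e => ?_⟩
  have c : 0 < (1 - ρ / r)⁻¹ + (1 - r)⁻¹ := add_pos (inv_pos.2 (sub_pos.2 ((div_lt_one r0).2 h1))) (inv_pos.2 (sub_pos.2 h2))
  have bd : BddAbove (Set.range fun z : ball (0 : ℂ) 1 => ‖u z‖) := by
    by_contra g; rw [Real.iSup_of_not_bddAbove g] at e; exact zero_ne_one e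
  have b1 : ∀ z ∈ ball (0 : ℂ) 1, ‖u z‖ ≤ 1 := fun z hz => (le_ciSup bd ⟨z, hz⟩).trans_eq e
  have s1 := ball_subset_ball (x := (0 : ℂ)) (h1.trans h2).le
  have : Nonempty (ball (0 : ℂ) ρ) := ⟨⟨0, mem_ball_self h0⟩⟩
  have : Nonempty (ball (0 : ℂ) r) := ⟨⟨0, mem_ball_self r0⟩⟩
  set ε := ⨆ z : ball (0 : ℂ) ρ, ‖u z‖
  have b2 : ∀ z ∈ ball (0 : ℂ) ρ, ‖u z‖ ≤ ε := fun z hz => le_ciSup (f := fun z : ball (0 : ℂ) ρ => ‖u z‖)
    ⟨1, by rintro _ ⟨z, rfl⟩; exact b1 _ (s1 z.2)⟩ ⟨z, hz⟩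
  have e1 : ε ≤ 1 := ciSup_le fun z => b1 _ (s1 z.2)
  have e0 : 0 ≤ ε := (norm_nonneg _).trans (b2 0 (mem_ball_self h0))
  have k : ∀ N : ℕ, ε ≤ ρ ^ N → ⨆ z : ball (0 : ℂ) r, ‖u z‖ ≤ 4 * ((1 - ρ / r)⁻¹ + (1 - r)⁻¹) * r ^ N :=
    fun N hN => ciSup_le fun z => by
      have p := re_bd h0 h1 h2 (hu.comp_CLM reCLM) (fun z hz => (abs_re_le_norm _).trans (b1 z hz))
        (fun z hz => (abs_re_le_norm _).trans ((b2 z hz).trans hN)) z.2
      have q := re_bd h0 h1 h2 (hu.comp_CLM imCLM) (fun z hz => (abs_im_le_norm _).trans (b1 z hz))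
        (fun z hz => (abs_im_le_norm _).trans ((b2 z hz).trans hN)) z.2
      refine (norm_le_abs_re_add_abs_im _).trans ((add_le_add p q).trans_eq (by ring))
  rcases e0.eq_or_lt with z | z
  · refine le_trans (ge_of_tendsto' ((tendsto_pow_atTop_nhds_zero_of_lt_one r0.le h2).const_mul _)
      fun N => k N (z ▸ by positivity)) ?_
    rw [mul_zero]; positivity
  obtain ⟨N, n1, n2⟩ := exists_nat_pow_near_of_lt_one z e1 h0 (h1.trans h2)
  have l : Real.log ρ < 0 := Real.log_neg h0 (h1.trans h2)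
  have : r ^ (N + 1) ≤ ε ^ (Real.log r / Real.log ρ) := by
    refine le_trans (le_of_eq ?_) (rpow_le_rpow (by positivity) n1.le
      (div_nonneg_of_nonpos (Real.log_neg r0 h2).le l.le))
    rw [← rpow_natCast ρ, ← rpow_mul h0.le, mul_comm, rpow_mul h0.le, rpow_natCast, rpow_def_of_pos h0,
      mul_div_cancel₀ _ l.ne, Real.exp_log r0]
  refine (k N n2).trans (le_trans (le_of_eq ?_) (mul_le_mul_of_nonneg_left this (by positivity)))
  rw [pow_succ]; field_simp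

end Pool.Agent.H95.Tball
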