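import Pool.Agent.H95.TdcDefs

set_option autoImplicit false

namespace Pool.Agent.H95.Tdc

open Filter Finset Topology
open scoped Pointwise Classical

variable {G : Type} [Group G]

lemma comm_card {M : Type} [CommMonoid M] [DecidableEq M] (Y : Finset M) (n : ℕ) : #(Y ^ n) ≤ (n + 1) ^ #Y := by
  have h : ∀ n, ∀ g ∈ Y ^ n, ∃ f : M → ℕ, (∀ y, f y ≤ n) ∧ g = ∏ y ∈ Y, y ^ f y := fun n => by
    induction n with
    | zero => exact fun g hg => ⟨0, by simp, by simpa using hg⟩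
    | succ n ih =>
      intro g hg
      rw [pow_succ, Finset.mem_mul] at hg
      obtain ⟨a, ha, b, hb, rfl⟩ := hg
      obtain ⟨f, h1, rfl⟩ := ih a ha
      refine ⟨fun y => f y + if y = b then 1 else 0, fun y => by
        have := h1 y
        dsimp only
        split_ifs <;> omega, ?_⟩
      simp only [pow_add, prod_mul_distrib]
      simp [hb]
  refine (card_le_card (t := univ.image fun f : Y → Fin (n + 1) => ∏ y : Y, y.1 ^ (f y).1)
    fun g hg => ?_).trans (card_image_le.trans (by simp))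
  obtain ⟨f, h1, rfl⟩ := h n g hg
  exact mem_image.2 ⟨fun y => ⟨f y, Nat.lt_succ_of_le (h1 y)⟩, mem_univ _,
    prod_coe_sort Y fun y => y ^ f y⟩

lemma poly (A : Subgroup G) [A.FiniteIndex] (h : ∀ a ∈ A, ∀ b ∈ A, a * b = b * a) (S : Finset G) :
    ∃ C d, ∀ n, #(S ^ n) ≤ C * (n + 2) ^ d := by
  letI : CommMonoid A := { (inferInstance : Monoid A) with
    mul_comm := fun a b => Subtype.ext (h _ a.2 _ b.2) }
  letI := Fintype.ofFinite (G ⧸ A)
  let c : G → A := fun g => ⟨(g : G ⧸ A).out⁻¹ * g, QuotientGroup.eq.1 (QuotientGroup.out_eq' _)⟩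
  set T : Finset G := univ.image fun q : G ⧸ A => q.out
  set Y := (insert 1 (S * T)).image c
  have k : ∀ n, ∀ g ∈ S ^ n, ∃ t ∈ T, ∃ a ∈ Y ^ (n + 1), g = t * a := fun n => by
    induction n with
    | zero => exact fun g hg => ⟨_, mem_image_of_mem _ (mem_univ ((1 : G) : G ⧸ A)), c 1, by
        rw [zero_add, pow_one]
        exact mem_image_of_mem c (mem_insert_self 1 (S * T)), by simpa [c] using hg⟩
    | succ n ih =>
      intro g hg
      rw [pow_succ', Finset.mem_mul] at hg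
      obtain ⟨s, hs, b, hb, rfl⟩ := hg
      obtain ⟨t, ht, a, ha, rfl⟩ := ih b hb
      exact ⟨_, mem_image_of_mem _ (mem_univ ((s * t : G) : G ⧸ A)), c (s * t) * a, by
        rw [pow_succ']
        exact mul_mem_mul (mem_image_of_mem _ (mem_insert_of_mem (mul_mem_mul hs ht))) ha, by
        simp [c, mul_assoc]⟩
  refine ⟨#T, #Y, fun n => (card_le_card (t := T * (Y ^ (n + 1)).image (↑)) fun g hg => ?_).trans
    (card_mul_le.trans (Nat.mul_le_mul_left _ (card_image_le.trans (comm_card _ _))))⟩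
  obtain ⟨t, ht, a, ha, rfl⟩ := k n g hg
  exact mul_mem_mul ht (mem_image_of_mem _ ha)

lemma scales {b : ℕ → ℕ} (b0 : ∀ n, 0 < b n) {C d : ℕ} (h : ∀ n, b n ≤ C * (n + 2) ^ d) (K : ℕ) :
    ∃ k, K ≤ k ∧ b (3 * k) ≤ 2 * 3 ^ d * b k := by
  by_contra! c
  have : ∀ j, (2 * 3 ^ d) ^ j ≤ b (3 ^ j * K) := fun j => by
    induction j with
    | zero => exact b0 _
    | succ j ih =>
      rw [pow_succ', pow_succ', mul_assoc 3]
      exact (Nat.mul_le_mul_left _ ih).trans (c _ (Nat.le_mul_of_pos_left _ (by positivity))).le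
  set j := C * (K + 2) ^ d
  have a := (this j).trans ((h _).trans (Nat.mul_le_mul_left _ (Nat.pow_le_pow_left
    (show _ ≤ (K + 2) * 3 ^ j by nlinarith [Nat.one_le_pow j 3 (by norm_num)]) d)))
  rw [mul_pow, mul_pow, ← mul_assoc, ← pow_mul, ← pow_mul, mul_comm d] at a
  exact (Nat.le_of_mul_le_mul_right a (by positivity)).not_gt j.lt_two_pow_self

section
variable [DecidableEq G] {S : Finset G}

lemma annul (h1 : 1 ∈ S) (hi : S⁻¹ = S) (m k : ℕ) :
    #(S ^ (m + 4 * k) \ S ^ (m + 3 * k)) * #(S ^ k) ≤ #(S ^ (m + 3 * k) \ S ^ m) * #(S ^ (3 * k)) := by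
  have iv : ∀ n, ∀ w ∈ S ^ n, w⁻¹ ∈ S ^ n := fun n w hw => by
    rw [← hi, inv_pow]
    exact inv_mem_inv hw
  have mu : ∀ {n l a b}, a ∈ S ^ n → b ∈ S ^ l → a * b ∈ S ^ (n + l) := fun ha hb => by
    rw [pow_add]
    exact mul_mem_mul ha hb
  refine card_mul_le_card_mul (fun x u => u⁻¹ * x ∈ S ^ (3 * k)) (fun x hx => ?_) fun u _ => ?_
  · obtain ⟨h2, h3⟩ := mem_sdiff.1 hx
    rw [show m + 4 * k = m + 2 * k + 2 * k by ring, pow_add, Finset.mem_mul] at h2
    obtain ⟨y, hy, z, hz, rfl⟩ := h2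
    refine card_le_card_of_injOn (y * ·) (fun w hw => ?_) fun a _ b _ => mul_left_cancel
    have e : (y * w)⁻¹ * (y * z) ∈ S ^ (3 * k) := by
      simpa [mul_assoc, show k + 2 * k = 3 * k by ring] using mu (iv _ _ hw) hz
    refine mem_coe.2 ((mem_bipartiteAbove _).2 ⟨mem_sdiff.2 ⟨?_, fun c => h3 ?_⟩, e⟩)
    · simpa [show m + 2 * k + k = m + 3 * k by ring] using mu hy hw
    · simpa using mu c e
  · exact card_le_card_of_injOn (u⁻¹ * ·) (fun x hx => ((mem_bipartiteBelow _).1 hx).2)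
      fun a _ b _ => mul_left_cancel

lemma ratio (h1 : 1 ∈ S) (hi : S⁻¹ = S) {C d : ℕ} (h : ∀ n, #(S ^ n) ≤ C * (n + 2) ^ d) (r : ℕ) :
    Tendsto (fun n => (#(S ^ (n + r)) : ℝ) / #(S ^ n)) atTop (𝓝 1) := by
  have b0 : ∀ n, 0 < #(S ^ n) := fun n => card_pos.2 ⟨1, one_mem_pow h1⟩
  have mo : ∀ {m n}, m ≤ n → S ^ m ⊆ S ^ n := fun h => pow_subset_pow_right h1 h
  set D := 2 * 3 ^ d
  have k : ∀ J : ℕ, ∃ K, ∀ n, K ≤ n + 1 → (J : ℝ) * (#(S ^ (n + 1)) - #(S ^ n)) ≤
      D * (#(S ^ (n + 1)) - #(S ^ (n + 1 - K))) := fun J => by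
    induction J with
    | zero => exact ⟨0, fun n _ => by simp⟩
    | succ J ih =>
      obtain ⟨K, hK⟩ := ih
      obtain ⟨k, k1, k2⟩ := scales b0 h (K + 1)
      refine ⟨4 * k, fun n hn => ?_⟩
      have a := (annul h1 hi (n + 1 - 4 * k) k).trans (Nat.mul_le_mul_left _ k2)
      rw [← mul_assoc] at a
      have a := Nat.le_of_mul_le_mul_right a (b0 k)
      rw [card_sdiff_of_subset (mo (by omega)), card_sdiff_of_subset (mo (by omega)),
        Nat.sub_add_cancel hn, ← Nat.cast_le (α := ℝ), Nat.cast_mul, Nat.cast_sub (card_le_card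
          (mo (by omega))), Nat.cast_sub (card_le_card (mo (by omega)))] at a
      have c1 : (#(S ^ (n + 1 - 4 * k + 3 * k)) : ℝ) ≤ #(S ^ n) :=
        Nat.cast_le.2 (card_le_card (mo (by omega)))
      have c2 : (#(S ^ (n + 1 - 4 * k + 3 * k)) : ℝ) ≤ #(S ^ (n + 1 - K)) :=
        Nat.cast_le.2 (card_le_card (mo (by omega)))
      have := hK n (by omega)
      have := mul_le_mul_of_nonneg_left c2 D.cast_nonneg
      push_cast [-Nat.cast_pow, -Nat.cast_mul]
      nlinarith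
  have t : Tendsto (fun n => (#(S ^ n) : ℝ) / #(S ^ (n + 1))) atTop (𝓝 1) :=
    tendsto_order.2 ⟨fun a ha => by
      obtain ⟨J, hJ⟩ := exists_nat_gt (D / (1 - a))
      obtain ⟨K, hK⟩ := k J
      filter_upwards [eventually_ge_atTop K] with n hn
      have p : (0 : ℝ) < #(S ^ (n + 1)) := Nat.cast_pos.2 (b0 _)
      have q := hK n (by omega)
      rw [div_lt_iff₀ (sub_pos.2 ha)] at hJ
      rw [lt_div_iff₀ p]
      by_contra! c
      nlinarith [mul_le_mul_of_nonneg_left c J.cast_nonneg, mul_lt_mul_of_pos_right hJ p,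
        mul_nonneg (D.cast_nonneg (α := ℝ)) (Nat.cast_nonneg #(S ^ (n + 1 - K)))],
    fun a ha => .of_forall fun n => ((div_le_one (Nat.cast_pos.2 (b0 _))).2
      (Nat.cast_le.2 (card_le_card (mo n.le_succ)))).trans_lt ha⟩
  induction r with
  | zero => simp [(b0 _).ne']
  | succ r ih =>
    have := ih.div (t.comp (tendsto_add_atTop_nat r)) one_ne_zero
    rw [div_one] at this
    refine this.congr fun n => ?_
    have := (Nat.cast_pos (α := ℝ)).2 (b0 (n + r))
    simp only [Pi.div_apply, Function.comp, ← add_assoc]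
    field_simp

end

structure Mean (μ : Set G → ℝ) : Prop where
  nn : ∀ E, 0 ≤ μ E
  add : ∀ E F, Disjoint E F → μ (E ∪ F) = μ E + μ F
  one : μ Set.univ = 1
  inv : ∀ g E, μ ((g * ·) ⁻¹' E) = μ E

lemma exists_mean [DecidableEq G] {S : Finset G} (h1 : 1 ∈ S) (hi : S⁻¹ = S) (hg : ∀ g, ∃ r, g ∈ S ^ r) {C d : ℕ}
    (h : ∀ n, #(S ^ n) ≤ C * (n + 2) ^ d) (U : Ultrafilter ℕ) (hU : (U : Filter ℕ) ≤ atTop) :
    ∃ μ : Set G → ℝ, Mean μ ∧ ∀ E,
      Tendsto (fun n => (#{x ∈ S ^ n | x ∈ E} : ℝ) / #(S ^ n)) U (𝓝 (μ E)) := by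
  have b0 : ∀ n, (0 : ℝ) < #(S ^ n) := fun n => Nat.cast_pos.2 (card_pos.2 ⟨1, one_mem_pow h1⟩)
  choose μ _ hμ using fun E : Set G => (isCompact_Icc (a := (0 : ℝ)) (b := 1)).ultrafilter_le_nhds
    (U.map fun n => (#{x ∈ S ^ n | x ∈ E} : ℝ) / #(S ^ n)) (le_principal_iff.2 (Filter.mem_map.2 <| univ_mem' fun n =>
      ⟨by positivity, (div_le_one (b0 n)).2 (Nat.cast_le.2 (card_filter_le _ _))⟩))
  replace hμ : ∀ E, Tendsto (fun n => (#{x ∈ S ^ n | x ∈ E} : ℝ) / #(S ^ n)) U (𝓝 (μ E)) := hμ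
  have le : ∀ g E, μ ((g * ·) ⁻¹' E) ≤ μ E := fun g E => by
    obtain ⟨r, hr⟩ := hg g
    have := (hμ E).add (((ratio h1 hi h r).mono_left hU).sub_const 1)
    rw [sub_self, add_zero] at this
    refine le_of_tendsto_of_tendsto' (hμ _) this fun n => ?_
    rw [← div_self (b0 n).ne', ← sub_div, ← add_div, ← Nat.cast_sub (card_le_card
      (pow_subset_pow_right h1 (n.le_add_right r))), ← card_sdiff_of_subset
        (pow_subset_pow_right h1 (n.le_add_right r)), ← Nat.cast_add]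
    gcongr
    refine (card_le_card_of_injOn (g * ·) (fun x hx => ?_) fun a _ b _ => mul_left_cancel).trans
      (card_union_le _ _)
    obtain ⟨p, q⟩ := mem_filter.1 hx
    by_cases c : g * x ∈ S ^ n
    · exact mem_union_left _ (mem_filter.2 ⟨c, q⟩)
    · exact mem_union_right _ (mem_sdiff.2 ⟨by rw [add_comm, pow_add]; exact mul_mem_mul hr p, c⟩)
  refine ⟨μ, ⟨fun E => ge_of_tendsto' (hμ E) fun n => by positivity, fun E F d =>
    tendsto_nhds_unique (hμ _) (((hμ E).add (hμ F)).congr fun n => ?_), tendsto_nhds_unique (hμ _)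
      (by simp [(b0 _).ne']), fun g E => (le g E).antisymm ((le g⁻¹ _).trans_eq' ?_)⟩, hμ⟩
  · rw [← add_div, ← Nat.cast_add, ← card_union_of_disjoint (disjoint_filter.2 fun x _ a b =>
      Set.disjoint_left.1 d a b), ← filter_or]
    simp only [Set.mem_union]
  · simp [Set.preimage_preimage]

namespace Mean
variable {μ : Set G → ℝ} (h : Mean μ)
include h

lemma mono {E F : Set G} (k : E ⊆ F) : μ E ≤ μ F := by
  rw [← Set.union_diff_cancel k, h.add _ _ Set.disjoint_sdiff_right]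
  linarith [h.nn (F \ E)]

lemma empty : μ ∅ = 0 := by simpa using h.add ∅ ∅ disjoint_bot_left

lemma sum {ι : Type} (s : Finset ι) (E : ι → Set G) (d : (s : Set ι).PairwiseDisjoint E) :
    μ (⋃ i ∈ s, E i) = ∑ i ∈ s, μ (E i) := by
  induction s using Finset.induction_on with
  | empty => simp [h.empty]
  | insert a s ha ih =>
    rw [set_biUnion_insert, h.add, sum_insert ha, ih (d.subset (by simp))]
    exact Set.disjoint_iUnion₂_right.2 fun i hi => d (by simp) (by simp [hi]) (ne_of_mem_of_not_mem hi ha).symm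

lemma fib {Q : Type} [Fintype Q] (π : G → Q) (E : Set G) : μ E = ∑ q, μ (E ∩ π ⁻¹' {q}) := by
  rw [← h.sum _ _ fun a _ b _ c => Set.disjoint_left.2 fun x p q => c (p.2.symm.trans q.2)]
  congr 1
  ext x
  simp

lemma quot {Q : Type} [Group Q] [Finite Q] (π : G →* Q) (hπ : Function.Surjective π) (T : Set Q) :
    μ (π ⁻¹' T) = T.ncard / Nat.card Q := by
  letI := Fintype.ofFinite Q
  have e : ∀ q, μ (π ⁻¹' {q}) = μ (π ⁻¹' {1}) := fun q => by
    obtain ⟨g, rfl⟩ := hπ q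
    rw [← h.inv g]
    congr 1
    ext x
    simp
  have a := h.fib π Set.univ
  simp only [Set.univ_inter, e, h.one, sum_const, nsmul_eq_mul, card_univ] at a
  rw [h.fib π, eq_div_iff (by simp), Set.ncard_eq_toFinset_card', Nat.card_eq_fintype_card,
    sum_congr rfl (g := fun q => if q ∈ T then μ (π ⁻¹' {1}) else 0) fun q _ => ?_]
  · rw [← sum_filter, sum_const, nsmul_eq_mul, mul_assoc, mul_comm (μ _), ← a]
    simp [Set.toFinset]
  · split_ifs with c
    · rw [← e q, ← Set.preimage_inter, Set.inter_eq_right.2 (Set.singleton_subset_iff.2 c)]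
    · rw [← Set.preimage_inter, Set.inter_singleton_of_notMem c, Set.preimage_empty, h.empty]

lemma small (E : Set G) (M : ℕ) (g : ℕ → G)
    (d : (range M : Set ℕ).PairwiseDisjoint fun i => (g i * ·) ⁻¹' E) : M * μ E ≤ 1 := by
  have := h.mono (Set.subset_univ (⋃ i ∈ range M, (g i * ·) ⁻¹' E))
  simpa [h.sum _ _ d, h.inv, h.one, -mem_range] using this

end Mean

end Pool.Agent.H95.Tdc
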