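import Pool.Agent.H95.TdcA

set_option autoImplicit false

namespace Pool.Agent.H95.Tdc

open Filter Finset Topology
open scoped Pointwise Classical

variable {G : Type} [Group G]

def P (G : Type) [Group G] (k : ℕ) : Subgroup G := Subgroup.closure (Set.range fun g : G => g ^ k)

lemma P_le {k : ℕ} {H : Subgroup G} (h : ∀ g, g ^ k ∈ H) : P G k ≤ H :=
  (Subgroup.closure_le _).2 (Set.range_subset_iff.2 h)

lemma P_mem (k : ℕ) (g : G) : g ^ k ∈ P G k := Subgroup.subset_closure ⟨g, rfl⟩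

lemma P_map (φ : G →* G) (k : ℕ) : P G k ≤ (P G k).comap φ :=
  P_le fun g => by simpa using P_mem k (φ g)

instance P_normal (k : ℕ) : (P G k).Normal :=
  ⟨fun _ h g => P_map (MulAut.conj g).toMonoidHom k h⟩

lemma P_dvd {k l : ℕ} (h : k ∣ l) : P G l ≤ P G k := P_le fun g => by
  obtain ⟨c, rfl⟩ := h
  rw [mul_comm, pow_mul]
  exact P_mem _ _

lemma krull {M : Type} [AddCommGroup M] [Module.Finite ℤ M] (x : M)
    (h : ∀ k : ℤ, k ≠ 0 → ∃ y, x = k • y) : x = 0 := by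
  have k : ∀ n : ℤ, n ≠ 0 → ∃ s, (s * n) • x = x := fun n hn => by
    obtain ⟨⟨r, hr⟩, e⟩ := ((Ideal.span {n}).mem_iInf_smul_pow_eq_bot_iff x).1
      (Submodule.mem_iInf _ |>.2 fun i => by
        obtain ⟨y, rfl⟩ := h _ (pow_ne_zero i hn)
        exact Submodule.smul_mem_smul (Ideal.pow_mem_pow (Ideal.mem_span_singleton_self n) i) trivial)
    obtain ⟨s, rfl⟩ := Ideal.mem_span_singleton'.1 hr
    exact ⟨s, e⟩
  obtain ⟨s, e⟩ := k 2 two_ne_zero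
  obtain ⟨t, f⟩ := k (s * 2 - 1) (by omega)
  rw [← f, mul_smul, sub_smul, e, one_smul, sub_self, smul_zero]

lemma struct [Group.FG G] (h : VirtAb G) : ∃ m, 0 < m ∧ (∀ a ∈ P G m, ∀ b ∈ P G m, a * b = b * a) ∧
    (∀ k, 0 < k → (P G k).FiniteIndex) ∧ ∀ g : G, g ≠ 1 → ∃ k, 0 < k ∧ g ∉ P G k := by
  obtain ⟨A, _, hA⟩ := h
  letI : CommGroup A := { (inferInstance : Group A) with
    mul_comm := fun a b => Subtype.ext (hA _ a.2 _ b.2) }
  have m0 : 0 < A.normalCore.index := Nat.pos_of_ne_zero Subgroup.FiniteIndex.index_ne_zero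
  have l : ∀ g, g ^ A.normalCore.index ∈ A := fun g => A.normalCore_le (Subgroup.pow_index_mem _ g)
  refine ⟨_, m0, fun a ha b hb => hA _ (P_le l ha) _ (P_le l hb), fun k hk => ?_, fun g hg => ?_⟩
  · haveI := Subgroup.finiteIndex_range_powMonoidHom_of_fg A hk.ne'
    haveI : ((powMonoidHom k : A →* A).range.map A.subtype).FiniteIndex := ⟨by
      rw [Subgroup.index_map_subtype]
      exact mul_ne_zero Subgroup.FiniteIndex.index_ne_zero Subgroup.FiniteIndex.index_ne_zero⟩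
    refine Subgroup.finiteIndex_of_le (H := (powMonoidHom k : A →* A).range.map A.subtype) ?_
    rintro _ ⟨_, ⟨a, rfl⟩, rfl⟩
    exact P_mem k a.1
  by_contra! c
  have := krull (Additive.ofMul (⟨g, P_le l (c _ m0)⟩ : A)) fun k hk => by
    obtain ⟨_, ⟨a, rfl⟩, e⟩ := P_le (H := (zpowGroupHom k : A →* A).range.map A.subtype)
      (fun y => ⟨_, ⟨⟨_, l y⟩ ^ k.sign, rfl⟩, by
        change ((y ^ _) ^ k.sign) ^ k = _
        rw [← zpow_mul, Int.sign_mul_self_eq_natAbs, zpow_natCast, pow_mul]⟩)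
      (c _ (mul_pos m0 (Int.natAbs_pos.2 hk)))
    exact ⟨.ofMul a, congrArg Additive.ofMul (Subtype.ext e.symm)⟩
  exact hg (congrArg Subtype.val this)

lemma sep (h : ∀ g : G, g ≠ 1 → ∃ k, 0 < k ∧ g ∉ P G k) {m : ℕ} (hm : 0 < m) {V : Set G}
    (hV : V.Finite) : ∃ k, 0 < k ∧ m ∣ k ∧ ∀ v ∈ V, v ∈ P G k → v = 1 := by
  induction V, hV using Set.Finite.induction_on with
  | empty => exact ⟨m, hm, dvd_rfl, by simp⟩
  | @insert a s _ _ ih =>
    obtain ⟨k, k0, k1, k2⟩ := ih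
    by_cases c : a = 1
    · exact ⟨k, k0, k1, Set.forall_mem_insert.2 ⟨fun _ => c, k2⟩⟩
    obtain ⟨l, l0, l1⟩ := h a c
    exact ⟨k * l, mul_pos k0 l0, k1.mul_right _, Set.forall_mem_insert.2 ⟨fun p =>
      (l1 (P_dvd (dvd_mul_left _ _) p)).elim, fun v a b => k2 v a (P_dvd (dvd_mul_right _ _) b)⟩⟩

def ff (φ : G →* G) (p : G × G) : G := p.1 * p.2 * (p.2 * φ p.1)⁻¹

lemma ff_mul {φ : G →* G} {A : Subgroup G} [n : A.Normal] (hA : ∀ a ∈ A, ∀ b ∈ A, a * b = b * a)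
    (hφ : A ≤ A.comap φ) {γ p q : G × G} (h1 : γ.1 ∈ A) (h2 : γ.2 ∈ A) (h3 : p.1⁻¹ * q.1 ∈ A)
    (h4 : p.2⁻¹ * q.2 ∈ A) (h5 : ff φ p ∈ A) (h6 : ff φ q ∈ A) :
    ff φ (γ * q) * (ff φ q)⁻¹ = ff φ (γ * p) * (ff φ p)⁻¹ := by
  have k : ∀ p : G × G, ff φ p ∈ A → ff φ (γ * p) * (ff φ p)⁻¹ =
      γ.1 * (p.1 * γ.2 * p.1⁻¹) * (p.2 * (φ γ.1)⁻¹ * p.2⁻¹) * γ.2⁻¹ := fun p h => by
    have := hA _ h _ (A.mul_mem (n.conj_mem _ (A.inv_mem (hφ h1)) p.2) (A.inv_mem h2))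
    rw [mul_inv_eq_iff_eq_mul, mul_assoc, mul_assoc, ← mul_assoc _ γ.2⁻¹, ← this]
    simp [ff, mul_assoc]
  have c : ∀ x y a, x⁻¹ * y ∈ A → a ∈ A → y * a * y⁻¹ = x * a * x⁻¹ := fun x y a p q => by
    have := hA _ p _ q
    calc _ = x * (x⁻¹ * y * a) * y⁻¹ := by group
      _ = _ := by rw [this]; group
  rw [k p h5, k q h6, c _ _ _ h3 h2, c _ _ _ h4 (A.inv_mem (hφ h1))]

lemma mean_eq [Group.FG G] (h : VirtAb G) (φ : G →* G) {μ : Set (G × G) → ℝ} (hμ : Mean μ) :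
    μ {p | ff φ p = 1} = quotInf φ := by
  obtain ⟨m, m0, hA, hf, hr⟩ := struct h
  have q : ∀ (N : Subgroup G) [N.Normal] (h : N ≤ N.comap φ), N.FiniteIndex →
      tdcF (QuotientGroup.map N N φ h) = μ {p | ff φ p ∈ N} := fun N _ h _ => by
    rw [tdcF, ← Nat.cast_pow, sq, ← Nat.card_prod, ← hμ.quot ((QuotientGroup.mk' N).prodMap
      (QuotientGroup.mk' N)) ((QuotientGroup.mk'_surjective N).prodMap (QuotientGroup.mk'_surjective N))]
    congr 1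
    ext p
    simp [ff, ← QuotientGroup.eq_one_iff, mul_inv_eq_one, -mul_inv_rev]
  have lo : ∀ r ∈ {r | ∃ (N : Subgroup G) (_ : N.Normal) (h : N ≤ N.comap φ), N.FiniteIndex ∧
      r = tdcF (QuotientGroup.map N N φ h)}, μ {p | ff φ p = 1} ≤ r := by
    rintro _ ⟨N, _, h, f, rfl⟩
    exact (hμ.mono fun p (e : _ = _) => show _ ∈ N from e ▸ N.one_mem).trans (q N h f).ge
  refine le_antisymm (le_csInf ⟨_, _, P_normal m, P_map φ m, hf m m0, rfl⟩ lo) (le_of_forall_pos_le_add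
    fun ε hε => ?_)
  haveI := hf m m0
  letI := Fintype.ofFinite (G ⧸ P G m)
  set π : G × G → (G ⧸ P G m) × (G ⧸ P G m) := fun p => (p.1, p.2)
  obtain ⟨M, hM⟩ := exists_nat_gt (Fintype.card ((G ⧸ P G m) × (G ⧸ P G m)) / ε)
  have key : ∀ c, ∃ k, 0 < k ∧ M * μ ({p | ff φ p ∈ P G k ∧ ff φ p ≠ 1} ∩ π ⁻¹' {c}) ≤ 1 := fun c => by
    rcases (ff φ '' ({p | ff φ p ∈ P G m} ∩ π ⁻¹' {c})).finite_or_infinite with f | f
    · obtain ⟨k, k0, k1, k2⟩ := sep hr m0 f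
      refine ⟨k, k0, ?_⟩
      rw [Set.eq_empty_of_forall_notMem (s := {p | ff φ p ∈ P G k ∧ ff φ p ≠ 1} ∩ π ⁻¹' {c}) fun p hp => hp.1.2 (k2 _ ⟨p, ⟨P_dvd k1 hp.1.1, hp.2⟩, rfl⟩
        hp.1.1), hμ.empty]
      simp
    choose p p1 p2 using fun i => (f.natEmbedding _ i).2
    have co : ∀ {x y}, x ∈ π ⁻¹' {c} → y ∈ π ⁻¹' {c} → x.1⁻¹ * y.1 ∈ P G m ∧ x.2⁻¹ * y.2 ∈ P G m :=
      fun a b => (Prod.ext_iff.1 (a.trans b.symm)).imp QuotientGroup.eq.1 QuotientGroup.eq.1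
    obtain ⟨k, k0, k1, k2⟩ := sep hr m0 (((range M ×ˢ range M).finite_toSet).image
      fun z => (ff φ (p z.1))⁻¹ * ff φ (p z.2))
    refine ⟨k, k0, hμ.small _ M (fun i => p 0 * (p i)⁻¹) fun i hi j hj ij =>
      Set.disjoint_left.2 fun x a b => ij ((f.natEmbedding _).injective (Subtype.ext ?_))⟩
    have e : ∀ i, p 0 * (p i)⁻¹ * x ∈ {p | ff φ p ∈ P G k ∧ ff φ p ≠ 1} ∩ π ⁻¹' {c} →
        ff φ (p 0) * (ff φ (p i))⁻¹ * ff φ x ∈ P G k := fun i a => by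
      have := ff_mul hA (P_map φ m) (γ := p i * (p 0)⁻¹)
        ((P_normal m).mem_comm (co (p1 0).2 (p1 i).2).1) ((P_normal m).mem_comm (co (p1 0).2 (p1 i).2).2)
        (co (p1 0).2 a.2).1 (co (p1 0).2 a.2).2 (p1 0).1 (P_dvd k1 a.1.1)
      rw [← mul_assoc, ← mul_assoc, inv_mul_cancel_right, mul_inv_cancel, one_mul,
        mul_inv_eq_iff_eq_mul] at this
      simpa [this, mul_assoc] using a.1.1
    have := (P_normal k).mem_comm (mul_assoc (ff φ (p 0)) _ _ ▸ mul_assoc (ff φ (p 0)) _ _ ▸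
      mul_mem (e i a) (inv_mem (e j b)))
    rw [← p2, ← p2, ← inv_mul_eq_one]
    exact k2 _ ⟨(i, j), mem_coe.2 (mk_mem_product hi hj), rfl⟩ (by simpa [mul_assoc] using this)
  choose k k0 k1 using key
  have p0 : 0 < ∏ c, k c := prod_pos fun c _ => k0 c
  refine (csInf_le ⟨_, lo⟩ ⟨_, P_normal _, P_map φ _, hf _ p0, rfl⟩).trans ?_
  rw [q _ _ (hf _ p0), show {p | ff φ p ∈ P G (∏ c, k c)} = {p | ff φ p = 1} ∪
    {p | ff φ p ∈ P G (∏ c, k c) ∧ ff φ p ≠ 1} from Set.ext fun p => by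
      by_cases ff φ p = 1 <;> simp [*, one_mem], hμ.add _ _ (Set.disjoint_left.2 fun p a b => b.2 a),
      hμ.fib π {p | _ ∧ _}, add_le_add_iff_left]
  have M0 : (0 : ℝ) < M := lt_of_le_of_lt (by positivity) hM
  refine (sum_le_card_nsmul _ _ (1 / (M : ℝ)) fun c _ => (le_div_iff₀' M0).2 (le_trans
    (mul_le_mul_of_nonneg_left (hμ.mono (Set.inter_subset_inter_left _ fun p (a : _ ∧ _) =>
      And.intro (P_dvd (dvd_prod_of_mem k (mem_univ c)) a.1) a.2)) M0.le) (k1 c))).trans ?_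
  rw [nsmul_eq_mul, card_univ, mul_one_div, div_le_iff₀' M0]
  exact ((div_lt_iff₀ hε).1 hM).le

lemma ball_eq (X : Finset G) (n : ℕ) : ball X n = ↑((insert 1 (X ∪ X⁻¹)) ^ n) := by
  induction n with
  | zero => ext g; simp [ball, eq_comm]
  | succ n ih =>
    ext g
    rw [pow_succ', mem_coe, Finset.mem_mul]
    constructor
    · rintro ⟨_ | ⟨a, l⟩, h1, h2, rfl⟩
      · exact ⟨1, by simp, 1, one_mem_pow (by simp), by simp⟩
      · exact ⟨a, by simpa using .inr (h2 a (by simp)), l.prod, mem_coe.1 (ih ▸ ⟨l, by simpa using h1,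
          fun x hx => h2 x (by simp [hx]), rfl⟩), by simp⟩
    · rintro ⟨a, ha, b, hb, rfl⟩
      obtain ⟨l, h1, h2, rfl⟩ : b ∈ ball X n := ih ▸ mem_coe.2 hb
      rcases mem_insert.1 ha with rfl | ha
      · exact ⟨l, by omega, h2, by simp⟩
      · exact ⟨a :: l, by simpa using h1, List.forall_mem_cons.2 ⟨by simpa using ha, h2⟩, by simp⟩

theorem main (h : VirtAb G) (X : Finset G) (hX : Subgroup.closure (X : Set G) = ⊤) (φ : G →* G) :
    tdc X φ = quotInf φ := by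
  haveI : Group.FG G := ⟨⟨X, hX⟩⟩
  set S := insert 1 (X ∪ X⁻¹) with hS
  have h1 : 1 ∈ S := mem_insert_self _ _
  have hi : S⁻¹ = S := by ext; simp [hS, or_comm]
  have pw : ∀ n : ℕ, (S ×ˢ S) ^ n = (S ^ n) ×ˢ (S ^ n) := fun n => by
    induction n with
    | zero => rfl
    | succ n ih => rw [pow_succ, pow_succ, ih, product_mul_product_comm]
  have hg : ∀ g, ∃ r, g ∈ S ^ r := fun g => by
    induction (hX ▸ Subgroup.mem_top g : g ∈ Subgroup.closure (X : Set G)) using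
      Subgroup.closure_induction with
    | mem x hx => exact ⟨1, by simp [hS, mem_coe.1 hx]⟩
    | one => exact ⟨0, by simp⟩
    | mul x y _ _ a b => exact a.elim fun r a => b.elim fun s b => ⟨r + s, pow_add S r s ▸ mul_mem_mul a b⟩
    | inv x _ a => exact a.imp fun r a => by rw [← hi, inv_pow]; exact inv_mem_inv a
  obtain ⟨C, d, hC⟩ := h.elim fun A ⟨_, hA⟩ => poly A hA S
  refine Tendsto.limsup_eq (tendsto_iff_ultrafilter _ _ _ |>.2 fun U hU => ?_)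
  obtain ⟨μ, m, t⟩ := exists_mean (S := S ×ˢ S) (C := C ^ 2) (d := d * 2) (mk_mem_product h1 h1)
    (by ext; rw [Finset.mem_inv', mem_product, mem_product, Prod.fst_inv, Prod.snd_inv,
      ← Finset.mem_inv', ← Finset.mem_inv', hi]) (fun g => by
      obtain ⟨r, a⟩ := hg g.1
      obtain ⟨s, b⟩ := hg g.2
      exact ⟨r + s, pw _ ▸ mem_product.2 ⟨pow_subset_pow_right h1 (by omega) a,
        pow_subset_pow_right h1 (by omega) b⟩⟩)
    (fun n => by rw [pw, card_product, ← sq, pow_mul, ← mul_pow]; exact Nat.pow_le_pow_left (hC n) 2) U hU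
  rw [← mean_eq h φ m]
  refine (t _).congr fun n => ?_
  rw [pw, card_product, ball_eq, Set.ncard_coe_finset, ← Set.ncard_coe_finset, Nat.cast_mul, sq]
  congr 3
  ext p
  simp [ff, mul_inv_eq_one, -mul_inv_rev, and_assoc, hS, -coe_pow]

end Pool.Agent.H95.Tdc
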