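import Mathlib

set_option autoImplicit false

namespace Pool.Agent.H95.Tdc

open Filter

variable {G : Type} [Group G]

/-- Products of at most `n` elements of `X ∪ X⁻¹`. -/
def ball (X : Finset G) (n : ℕ) : Set G :=
  {g | ∃ l : List G, l.length ≤ n ∧ (∀ x ∈ l, x ∈ X ∨ x⁻¹ ∈ X) ∧ l.prod = g}

/-- The degree of twisted commutativity with respect to `X`. -/
noncomputable def tdc (X : Finset G) (φ : G →* G) : ℝ :=
  limsup (fun n => ({p : G × G | p.1 ∈ ball X n ∧ p.2 ∈ ball X n ∧
    p.1 * p.2 = p.2 * φ p.1}.ncard : ℝ) / ((ball X n).ncard : ℝ) ^ 2) atTop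

/-- The degree of twisted commutativity of a finite group. -/
noncomputable def tdcF (φ : G →* G) : ℝ :=
  ({p : G × G | p.1 * p.2 = p.2 * φ p.1}.ncard : ℝ) / (Nat.card G : ℝ) ^ 2

/-- The infimum over finite invariant quotients. -/
noncomputable def quotInf (φ : G →* G) : ℝ :=
  sInf {r | ∃ (N : Subgroup G) (_ : N.Normal) (h : N ≤ N.comap φ), N.FiniteIndex ∧
    r = tdcF (QuotientGroup.map N N φ h)}

/-- Groups with an abelian subgroup of finite index. -/
def VirtAb (G : Type) [Group G] : Prop :=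
  ∃ A : Subgroup G, A.FiniteIndex ∧ ∀ a ∈ A, ∀ b ∈ A, a * b = b * a

end Pool.Agent.H95.Tdc
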