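import Pool.Agent.H95.ToepTri

set_option autoImplicit false

open Set Filter Topology

namespace Pool.Agent.H95.Toep

variable {A : Type} [NonUnitalCStarAlgebra A] [PartialOrder A] [StarOrderedRing A]

omit [NonUnitalCStarAlgebra A] [PartialOrder A] [StarOrderedRing A] in
lemma tri_data (m : tri → tri → A) (hm : ∀ i, m i i = m t0 t0) :
    ∃ a : (Fin 2 → ℤ) → A, ∀ i j : tri, a (i.1 - j.1) = m i j := by
  classical
  have h : ∀ i j i' j' : tri, i'.1 - j'.1 = i.1 - j.1 → (i' = i ∧ j' = j) ∨ (i = j ∧ i' = j') := by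
    decide
  refine ⟨fun l => if h : ∃ p : tri × tri, p.1.1 - p.2.1 = l then m h.choose.1 h.choose.2
    else m t0 t0, fun i j => ?_⟩
  have h1 : ∃ p : tri × tri, p.1.1 - p.2.1 = i.1 - j.1 := ⟨(i, j), rfl⟩
  dsimp only
  rw [dif_pos h1]
  rcases h i j _ _ h1.choose_spec with ⟨h2, h3⟩ | ⟨h2, h3⟩
  · rw [h2, h3]
  · rw [h3, hm, ← h2, hm i]

lemma norm_le_of_sum {ι : Type} [Fintype ι] (x : ι → A) (y : A)
    (h : ∑ r, star (x r) * x r = star y * y) (r : ι) : ‖x r‖ ≤ ‖y‖ := by
  have h1 : star (x r) * x r ≤ star y * y :=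
    h ▸ Finset.single_le_sum (f := fun r => star (x r) * x r)
      (fun r _ => star_mul_self_nonneg _) (Finset.mem_univ r)
  have h2 := CStarAlgebra.norm_le_norm_of_nonneg_of_le (star_mul_self_nonneg _) h1
  rw [CStarRing.norm_star_mul_self, CStarRing.norm_star_mul_self] at h2
  exact le_of_sq_le_sq (by nlinarith) (norm_nonneg _)

omit [PartialOrder A] [StarOrderedRing A] in
lemma gram_pair {ι : Type} [Fintype ι] (x y : ι → A) (g g' c c' : A)
    (h1 : ∑ r, star (x r) * x r = star g * g) (h2 : ∑ r, star (x r) * y r = star g * g')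
    (h3 : ∑ r, star (y r) * x r = star g' * g) (h4 : ∑ r, star (y r) * y r = star g' * g') :
    ∑ r, star (x r * c - y r * c') * (x r * c - y r * c') =
      star (g * c - g' * c') * (g * c - g' * c') := by
  have e : ∀ p q : A, star (p * c - q * c') * (p * c - q * c') =
      star c * (star p * p) * c - star c * (star p * q) * c' - star c' * (star q * p) * c +
        star c' * (star q * q) * c' := fun p q => by
    simp only [star_sub, star_mul]
    noncomm_ring
  simp only [e, Finset.sum_add_distrib, Finset.sum_sub_distrib, ← Finset.sum_mul,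
    ← Finset.mul_sum, h1, h2, h3, h4]

def K4 : Finset (Fin 2 → ℤ) := {0, e1, e2, e1 + e2}
def k0 : K4 := ⟨0, by decide⟩
def k1 : K4 := ⟨e1, by decide⟩
def k2 : K4 := ⟨e2, by decide⟩
def k3 : K4 := ⟨e1 + e2, by decide⟩

noncomputable def L (u : Unitization ℂ A) (a : A) : A := u.fst • a + u.snd * a

omit [PartialOrder A] [StarOrderedRing A] in
lemma L_inr (u : Unitization ℂ A) (a : A) : ((L u a : A) : Unitization ℂ A) = u * a := by
  ext <;> simp [L]

omit [PartialOrder A] [StarOrderedRing A] in
lemma L_mul (u : Unitization ℂ A) (a b : A) : L u a * b = L u (a * b) := by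
  simp only [L, add_mul, mul_assoc, smul_mul_assoc]

omit [PartialOrder A] [StarOrderedRing A] in
lemma L_star {u : Unitization ℂ A} (hu : u ∈ unitary (Unitization ℂ A)) (a : A) :
    star (L u a) * L u a = star a * a := by
  apply Unitization.inr_injective (R := ℂ)
  simp only [Unitization.inr_mul, Unitization.inr_star]
  rw [L_inr, star_mul, mul_assoc, ← mul_assoc (star u), hu.1, one_mul]

lemma key_est (h : ExtProp A tri) {u v : Unitization ℂ A} (hu : u ∈ unitary (Unitization ℂ A))
    (hv : v ∈ unitary (Unitization ℂ A)) (x k : A) :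
    ‖k * (L v (L u x) - L u (L v x))‖ ^ 2 ≤ 4 * (‖k * L v (L u x) - L v (k * L u x)‖ +
      ‖k * L u x - L u (k * x)‖ + ‖k * L u (L v x) - L u (k * L v x)‖ +
      ‖k * L v x - L v (k * x)‖) ^ 2 := by
  let g : tri → A := fun i => if i = t0 then k else if i = t1 then L u k else L v k
  have g0 : g t0 = k := rfl
  have g1 : g t1 = L u k := rfl
  have g2 : g t2 = L v k := rfl
  obtain ⟨a, ha⟩ := tri_data (fun i j => star (g i) * g j) fun i => by
    rcases tri_cases i with rfl | rfl | rfl
    · rfl
    · rw [g1, g0, L_star hu]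
    · rw [g2, g0, L_star hv]
  obtain ⟨b, hb1, hb2⟩ := h a (posT_of_gram (ι := Unit) (fun _ => g) fun i j => by simp [ha])
    K4 (by decide)
  obtain ⟨B, hB⟩ := hb2.gram
  have hG : ∀ (p q : K4) (i j : tri), p.1 - q.1 = i.1 - j.1 →
      ∑ r, star (B r p) * B r q = star (g i) * g j := fun p q i j hh => by
    rw [← hB, hh, hb1 _ i.2 _ j.2, ha]
  have hP : ∀ (p q : K4) (j : tri), p.1 - q.1 = t0.1 - j.1 → ∀ c c' r,
      ‖B r p * c - B r q * c'‖ ≤ ‖k * c - g j * c'‖ := fun p q j hh c c' r =>
    norm_le_of_sum (fun r => B r p * c - B r q * c') _ (gram_pair (fun r => B r p)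
      (fun r => B r q) k (g j) c c' (hG p p t0 t0 (by simp)) (hG p q t0 j hh)
      (hG q p j t0 (by rw [← neg_sub, hh, neg_sub])) (hG q q j j (by simp))) r
  set δ := ‖k * L v (L u x) - L v (k * L u x)‖ +
      ‖k * L u x - L u (k * x)‖ + ‖k * L u (L v x) - L u (k * L v x)‖ +
      ‖k * L v x - L v (k * x)‖ with hδ
  set c := L v (L u x) - L u (L v x) with hc
  have h1 : ∀ r, ‖B r k0 * c‖ ≤ δ := fun r => by
    have p1 := hP k0 k2 t2 (by decide) (L v (L u x)) (L u x) r
    have p2 := hP k2 k3 t1 (by decide) (L u x) x r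
    have p3 := hP k0 k1 t1 (by decide) (L u (L v x)) (L v x) r
    have p4 := hP k1 k3 t2 (by decide) (L v x) x r
    rw [g2, L_mul] at p1 p4
    rw [g1, L_mul] at p2 p3
    have e : B r k0 * c = (B r k0 * L v (L u x) - B r k2 * L u x) + (B r k2 * L u x - B r k3 * x)
        - (B r k0 * L u (L v x) - B r k1 * L v x) - (B r k1 * L v x - B r k3 * x) := by
      rw [hc, mul_sub]; abel
    rw [e]
    refine (norm_sub_le _ _).trans (add_le_add ((norm_sub_le _ _).trans
      (add_le_add ((norm_add_le _ _).trans (add_le_add p1 p2)) p3)) p4)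
  have h2 : star (k * c) * (k * c) = ∑ r, star (B r k0 * c) * (B r k0 * c) := by
    have := gram_pair (fun r => B r k0) (fun r => B r k0) k k c 0 (hG k0 k0 t0 t0 (by simp))
      (hG k0 k0 t0 t0 (by simp)) (hG k0 k0 t0 t0 (by simp)) (hG k0 k0 t0 t0 (by simp))
    simpa using this.symm
  rw [pow_two, ← CStarRing.norm_star_mul_self, h2]
  refine (norm_sum_le_of_le _ (n := fun _ => δ ^ 2) fun r _ => ?_).trans ?_
  · rw [CStarRing.norm_star_mul_self, ← pow_two]
    exact pow_le_pow_left₀ (norm_nonneg _) (h1 r) 2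
  · have : K4.card = 4 := by decide
    simp [this]

theorem comm_of_ext (h : ExtProp A tri) (x y : A) : x * y = y * x := by
  have hU : ∀ u ∈ unitary (Unitization ℂ A), ∀ v ∈ unitary (Unitization ℂ A), v * u = u * v := by
    intro u hu v hv
    have h1 : ∀ x : A, L v (L u x) - L u (L v x) = 0 := by
      intro x
      have hA := (CStarAlgebra.increasingApproximateUnit A).toIsApproximateUnit
      haveI := hA.neBot
      have hL : ∀ w : Unitization ℂ A, Continuous (L w) := fun w => by unfold L; fun_prop
      have t : ∀ (w : Unitization ℂ A) (z : A), Tendsto (fun k => ‖k * L w z - L w (k * z)‖)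
          (CStarAlgebra.approximateUnit A) (𝓝 0) := fun w z => by
        have := ((hA.tendsto_mul_right (L w z)).sub
          (((hL w).tendsto z).comp (hA.tendsto_mul_right z))).norm
        rwa [sub_self, norm_zero] at this
      have h2 := le_of_tendsto_of_tendsto' ((hA.tendsto_mul_right _).norm.pow 2)
        ((((((t v (L u x)).add (t u x)).add (t u (L v x))).add (t v x)).pow 2).const_mul 4)
        fun k => key_est h hu hv x k
      rw [← norm_eq_zero]
      nlinarith [norm_nonneg (L v (L u x) - L u (L v x))]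
    have h2 : v * u - u * v = ((v * u - u * v).snd : Unitization ℂ A) := by
      ext
      · rw [sub_eq_add_neg]; simp [mul_comm]
      · rfl
    set w := (v * u - u * v).snd
    have h3 : w * star w = 0 := by
      apply Unitization.inr_injective (R := ℂ)
      have := congrArg (fun a : A => (a : Unitization ℂ A)) (h1 (star w))
      simp only [Unitization.inr_sub] at this
      rw [L_inr, L_inr, L_inr, L_inr] at this
      rw [Unitization.inr_mul, ← h2, sub_mul, mul_assoc, mul_assoc]
      exact this
    rw [CStarRing.mul_star_self_eq_zero_iff] at h3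
    rw [h3, Unitization.inr_zero, sub_eq_zero] at h2
    exact h2
  have hS : ∀ p : Unitization ℂ A, (∀ u ∈ unitary (Unitization ℂ A), p * u = u * p) →
      ∀ q, p * q = q * p := by
    intro p hp q
    have hq : q ∈ Submodule.span ℂ (unitary (Unitization ℂ A) : Set (Unitization ℂ A)) := by
      rw [CStarAlgebra.span_unitary]; trivial
    induction hq using Submodule.span_induction with
    | mem u hu => exact hp u hu
    | zero => simp
    | add a b _ _ ha hb => rw [mul_add, add_mul, ha, hb]
    | smul c a _ ha => rw [mul_smul_comm, smul_mul_assoc, ha]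
  apply Unitization.inr_injective (R := ℂ)
  rw [Unitization.inr_mul, Unitization.inr_mul]
  exact hS _ (fun u hu => (hS u (fun v hv => hU v hv u hu) _).symm) _

end Pool.Agent.H95.Toep
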