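import Mathlib

set_option autoImplicit false

namespace Pool.Agent.H95.Toep

variable {G : Type} [AddCommGroup G]

/-- The multilevel Toeplitz matrix with entries a (i - j), i, j in L, is a positive element of the
C*-algebra of L x L matrices over A. -/
def PosT {A : Type} [NonUnitalCStarAlgebra A] [PartialOrder A] [StarOrderedRing A]
    (L : Finset G) (a : G → A) : Prop :=
  0 ≤ CStarMatrix.ofMatrix (Matrix.of fun i j : L => a (i.1 - j.1))

/-- The A-extension property of the finite set L. -/
def ExtProp (A : Type) [NonUnitalCStarAlgebra A] [PartialOrder A] [StarOrderedRing A]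
    (L : Finset G) : Prop :=
  ∀ a : G → A, PosT L a → ∀ K : Finset G, L ⊆ K →
    ∃ b : G → A, (∀ i ∈ L, ∀ j ∈ L, b (i - j) = a (i - j)) ∧ PosT K b

end Pool.Agent.H95.Toep
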