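import Mathlib

set_option autoImplicit false

open Set Filter Topology

namespace Pool.Agent.H95.Toep

variable {Ω : Type} [TopologicalSpace Ω] [CompactSpace Ω] (ω0 : Ω)

def SepP : Prop := ∀ x y z : C(Ω, ℝ), x ω0 = 0 → y ω0 = 0 → z ω0 = 0 → (∀ ω, x ω * y ω = 0) →
  ∃ e : C(Ω, ℝ), e ω0 = 0 ∧ (∀ ω, x ω ≠ 0 → e ω = z ω) ∧ ∀ ω, y ω ≠ 0 → e ω = 0

omit [CompactSpace Ω] in
lemma cozero (p : ℕ → C(Ω, ℝ)) (r : ℝ) (hp : ∀ n ω, p n ω ≤ r) :
    ∃ x : C(Ω, ℝ), ∀ ω, x ω ≠ 0 ↔ ∃ n, 0 < p n ω := by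
  have hs : Summable fun n : ℕ => (1 / 2 : ℝ) ^ n * max r 0 := summable_geometric_two.mul_right _
  have hb : ∀ n ω, ‖(1 / 2 : ℝ) ^ n * max (p n ω) 0‖ ≤ (1 / 2 : ℝ) ^ n * max r 0 := fun n ω => by
    rw [Real.norm_of_nonneg (by positivity)]
    gcongr
    exact hp n ω
  refine ⟨⟨fun ω => ∑' n, (1 / 2 : ℝ) ^ n * max (p n ω) 0,
    continuous_tsum (fun n => by fun_prop) hs hb⟩, fun ω => ⟨fun h => ?_, ?_⟩⟩
  · by_contra hc
    push Not at hc
    exact h (by simp [hc])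
  · rintro ⟨n, hn⟩
    exact ((Summable.of_norm_bounded hs fun n => hb n ω).tsum_pos (fun n => by positivity) n
      (by positivity)).ne'

omit [CompactSpace Ω] in
lemma cip_step (h : SepP ω0) (p q : ℕ → C(Ω, ℝ)) (hp0 : ∀ n, p n ω0 = 0) (hq0 : ∀ n, q n ω0 = 0)
    (hpq : ∀ n m ω, p n ω ≤ q m ω) (r : ℝ) (hr : 0 ≤ r) (hp : ∀ n ω, p n ω ≤ r)
    (hq : ∀ n ω, -r ≤ q n ω) : ∃ g : C(Ω, ℝ), g ω0 = 0 ∧ (∀ ω, |g ω| ≤ r / 3) ∧
      (∀ n ω, p n ω - g ω ≤ 2 / 3 * r) ∧ ∀ n ω, -(2 / 3 * r) ≤ q n ω - g ω := by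
  obtain ⟨x, hx⟩ := cozero (fun n => p n - ContinuousMap.const Ω (r / 3)) r fun n ω => by
    have := hp n ω
    simp only [ContinuousMap.sub_apply, ContinuousMap.const_apply]; linarith
  obtain ⟨y, hy⟩ := cozero (fun n => ContinuousMap.const Ω (-(r / 3)) - q n) r fun n ω => by
    have := hq n ω
    simp only [ContinuousMap.sub_apply, ContinuousMap.const_apply]; linarith
  simp only [ContinuousMap.sub_apply, ContinuousMap.const_apply, sub_pos] at hx hy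
  have hx0 : x ω0 = 0 := by
    by_contra hc
    obtain ⟨n, hn⟩ := (hx _).1 hc
    rw [hp0] at hn; linarith
  have hy0 : y ω0 = 0 := by
    by_contra hc
    obtain ⟨n, hn⟩ := (hy _).1 hc
    rw [hq0] at hn; linarith
  have hxy : ∀ ω, x ω * y ω = 0 := fun ω => by
    by_contra hc
    obtain ⟨n, hn⟩ := (hx _).1 (left_ne_zero_of_mul hc)
    obtain ⟨m, hm⟩ := (hy _).1 (right_ne_zero_of_mul hc)
    linarith [hpq n m ω]
  obtain ⟨e, he0, he1, he2⟩ := h x y (q 0 ⊓ ContinuousMap.const Ω (r / 3)) hx0 hy0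
    (by simp [hq0]; positivity) hxy
  obtain ⟨f, hf0, hf1, hf2⟩ := h y x (p 0 ⊔ ContinuousMap.const Ω (-(r / 3))) hy0 hx0
    (by simp [hp0]; positivity) fun ω => by rw [mul_comm, hxy]
  have hb : ∀ s : ℝ, |max (-(r / 3)) (min (r / 3) s)| ≤ r / 3 := fun s =>
    abs_le.2 ⟨le_max_left _ _, max_le (by linarith) (min_le_left _ _)⟩
  refine ⟨⟨fun ω => max (-(r / 3)) (min (r / 3) (e ω + f ω)), by fun_prop⟩, ?_, fun ω => hb _,
    fun n ω => ?_, fun n ω => ?_⟩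
  · simp only [ContinuousMap.coe_mk, he0, hf0, add_zero]
    rw [min_eq_right (by positivity), max_eq_right (by linarith)]
  · simp only [ContinuousMap.coe_mk]
    rcases le_or_gt (p n ω) (r / 3) with h1 | h1
    · linarith [(abs_le.1 (hb (e ω + f ω))).1]
    · have h2 := (hx ω).2 ⟨n, h1⟩
      rw [he1 ω h2, hf2 ω h2, ContinuousMap.inf_apply, ContinuousMap.const_apply,
        min_eq_right (h1.le.trans (hpq n 0 ω)), add_zero, min_self, max_eq_right (by linarith)]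
      linarith [hp n ω]
  · simp only [ContinuousMap.coe_mk]
    rcases le_or_gt (-(r / 3)) (q n ω) with h1 | h1
    · linarith [(abs_le.1 (hb (e ω + f ω))).2]
    · have h2 := (hy ω).2 ⟨n, h1⟩
      rw [hf1 ω h2, he2 ω h2, ContinuousMap.sup_apply, ContinuousMap.const_apply,
        max_eq_right ((hpq 0 n ω).trans h1.le), zero_add, min_eq_right (by linarith), max_self]
      linarith [hq n ω]

lemma cip (h : SepP ω0) (p q : ℕ → C(Ω, ℝ)) (hp0 : ∀ n, p n ω0 = 0) (hq0 : ∀ n, q n ω0 = 0)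
    (hpq : ∀ n m ω, p n ω ≤ q m ω) :
    ∃ f : C(Ω, ℝ), f ω0 = 0 ∧ (∀ n ω, p n ω ≤ f ω) ∧ ∀ n ω, f ω ≤ q n ω := by
  set r : ℝ := ‖p 0‖ + ‖q 0‖ with hr
  have hr0 : 0 ≤ r := by positivity
  let P : ℕ → C(Ω, ℝ) → Prop := fun k f => f ω0 = 0 ∧ (∀ n ω, p n ω - f ω ≤ (2 / 3) ^ k * r) ∧
    ∀ n ω, -((2 / 3) ^ k * r) ≤ q n ω - f ω
  have h0 : P 0 0 := ⟨rfl, fun n ω => by
      have := (abs_le.1 ((q 0).norm_coe_le_norm ω)).2
      have := hpq n 0 ω
      have := norm_nonneg (p 0)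
      simp only [ContinuousMap.zero_apply, pow_zero]; linarith, fun n ω => by
      have := (abs_le.1 ((p 0).norm_coe_le_norm ω)).1
      have := hpq 0 n ω
      have := norm_nonneg (q 0)
      simp only [ContinuousMap.zero_apply, pow_zero]; linarith⟩
  have hstep : ∀ k f, P k f → ∃ f', P (k + 1) f' ∧ dist f f' ≤ r * (2 / 3) ^ k := by
    rintro k f ⟨h1, h2, h3⟩
    obtain ⟨g, g0, g1, g2, g3⟩ := cip_step ω0 h (fun n => p n - f) (fun n => q n - f)
      (fun n => by simp [hp0, h1]) (fun n => by simp [hq0, h1])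
      (fun n m ω => by simpa using hpq n m ω) ((2 / 3) ^ k * r) (by positivity) h2 h3
    simp only [ContinuousMap.sub_apply] at g2 g3
    refine ⟨f + g, ⟨by simp [h1, g0], fun n ω => ?_, fun n ω => ?_⟩, ?_⟩
    · have := g2 n ω
      rw [ContinuousMap.add_apply, pow_succ]; linarith
    · have := g3 n ω
      rw [ContinuousMap.add_apply, pow_succ]; linarith
    · rw [dist_self_add_right, ContinuousMap.norm_le _ (by positivity)]
      intro ω
      have : 0 ≤ (2 / 3 : ℝ) ^ k * r := by positivity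
      refine (g1 ω).trans (by linarith)
  choose! nxt hn1 hn2 using hstep
  let F : ℕ → C(Ω, ℝ) := fun k => Nat.rec 0 nxt k
  have hF : ∀ k, P k (F k) := fun k => by
    induction k with
    | zero => exact h0
    | succ k ih => exact hn1 k _ ih
  obtain ⟨f, hf⟩ := cauchySeq_tendsto_of_complete
    (cauchySeq_of_le_geometric (2 / 3) r (by norm_num) (f := F) fun k => hn2 k _ (hF k))
  have hω : ∀ ω, Tendsto (fun k => F k ω) atTop (𝓝 (f ω)) := fun ω =>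
    ((continuous_eval_const ω).tendsto f).comp hf
  have hz : Tendsto (fun k : ℕ => (2 / 3 : ℝ) ^ k * r) atTop (𝓝 0) := by
    simpa using (tendsto_pow_atTop_nhds_zero_of_lt_one (r := (2 / 3 : ℝ)) (by norm_num)
      (by norm_num)).mul_const r
  refine ⟨f, tendsto_nhds_unique (hω ω0) (by simp [fun k => (hF k).1]), fun n ω => ?_,
    fun n ω => ?_⟩
  · have := le_of_tendsto_of_tendsto' ((hω ω).const_sub (p n ω)) hz fun k => (hF k).2.1 n ω
    linarith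
  · have := le_of_tendsto_of_tendsto' hz.neg ((hω ω).const_sub (q n ω)) fun k => (hF k).2.2 n ω
    linarith

lemma cone_countable {E : Type} [NormedAddCommGroup E] [NormedSpace ℝ E]
    [SecondCountableTopology E] (D : Set E) (hD : IsClosed D) (hc : Convex ℝ D) (h0 : 0 ∈ D)
    (hs : ∀ d ∈ D, ∀ s : ℝ, 0 ≤ s → s • d ∈ D) :
    ∃ φ : ℕ → E →L[ℝ] ℝ, ∀ e, e ∈ D ↔ ∀ n, 0 ≤ φ n e := by
  have h1 : ∀ e : (Dᶜ : Set E), ∃ φ : E →L[ℝ] ℝ, φ e < 0 ∧ ∀ d ∈ D, 0 ≤ φ d := by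
    rintro ⟨e, he⟩
    obtain ⟨φ, u, h1, h2⟩ := geometric_hahn_banach_point_closed hc hD he
    have h3 : u < 0 := by simpa using h2 0 h0
    refine ⟨φ, h1.trans h3, fun d hd => ?_⟩
    by_contra hneg
    push Not at hneg
    have h4 := h2 _ (hs d hd (u / φ d) (div_nonneg_of_nonpos h3.le hneg.le))
    rw [map_smul, smul_eq_mul, div_mul_cancel₀ _ hneg.ne] at h4
    exact lt_irrefl _ h4
  choose φ hφ1 hφ2 using h1
  obtain ⟨T, hT, hT'⟩ := TopologicalSpace.isOpen_iUnion_countable (fun e => {x | φ e x < 0})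
    fun e => isOpen_lt (φ e).continuous continuous_const
  obtain ⟨ψ, hψ⟩ := ((hT.image φ).insert 0).exists_eq_range (insert_nonempty _ _)
  refine ⟨ψ, fun e => ⟨fun he n => ?_, fun he => ?_⟩⟩
  · rcases (hψ ▸ mem_range_self n : ψ n ∈ insert 0 (φ '' T)) with h | ⟨e', -, h⟩
    · simp [h]
    · exact h ▸ hφ2 e' e he
  · by_contra hc
    have : e ∈ ⋃ e' ∈ T, {x | φ e' x < 0} := by
      rw [hT']; exact mem_iUnion.2 ⟨⟨e, hc⟩, hφ1 _⟩
    obtain ⟨e', h1, h2⟩ := mem_iUnion₂.1 this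
    obtain ⟨n, hn⟩ : φ e' ∈ range ψ := hψ ▸ mem_insert_of_mem _ (mem_image_of_mem _ h1)
    exact absurd (he n) (not_le.2 (hn ▸ h2))

lemma sel_one (h : SepP ω0) {E : Type} [NormedAddCommGroup E] [NormedSpace ℝ E]
    [SecondCountableTopology E] (D : Set (E × ℝ)) (hD : IsClosed D) (hc : Convex ℝ D)
    (h0 : 0 ∈ D) (hs : ∀ d ∈ D, ∀ s : ℝ, 0 ≤ s → s • d ∈ D) (α : C(Ω, E)) (hα : α ω0 = 0)
    (b : C(Ω, ℝ)) (hb : b ω0 = 0) (hne : ∀ ω, ∃ t, (α ω, t) ∈ D ∧ |t| ≤ b ω) :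
    ∃ f : C(Ω, ℝ), f ω0 = 0 ∧ ∀ ω, (α ω, f ω) ∈ D := by
  obtain ⟨φ, hφ⟩ := cone_countable D hD hc h0 hs
  have e : ∀ n x t, φ n (x, t) = φ n (x, 0) + t * φ n (0, 1) := fun n x t => by
    rw [← smul_eq_mul, ← map_smul, ← map_add]; simp
  let l : ℕ → C(Ω, ℝ) := fun n => ⟨fun ω => -φ n (α ω, 0) / φ n (0, 1), by fun_prop⟩
  have hl : ∀ n, l n ω0 = 0 := fun n => by
    show -φ n (α ω0, 0) / φ n (0, 1) = 0
    rw [hα, Prod.mk_zero_zero, map_zero]; simp
  have hl' : ∀ n ω, l n ω = -φ n (α ω, 0) / φ n (0, 1) := fun n ω => rfl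
  obtain ⟨f, f0, f1, f2⟩ := cip ω0 h (fun n => if 0 < φ n (0, 1) then l n else -b)
    (fun n => if φ n (0, 1) < 0 then l n else b)
    (fun n => by split_ifs <;> simp [hl, hb]) (fun n => by split_ifs <;> simp [hl, hb])
    fun n m ω => by
      obtain ⟨t, ht, ht'⟩ := hne ω
      refine le_trans (b := t) ?_ ?_
      · split_ifs with h1
        · have := (hφ _).1 ht n
          rw [e] at this
          rw [hl', div_le_iff₀ h1]; linarith
        · exact (abs_le.1 ht').1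
      · split_ifs with h1
        · have := (hφ _).1 ht m
          rw [e] at this
          rw [hl', le_div_iff_of_neg h1]; linarith
        · exact (abs_le.1 ht').2
  refine ⟨f, f0, fun ω => (hφ _).2 fun n => ?_⟩
  rw [e]
  rcases lt_trichotomy (φ n (0, 1)) 0 with h1 | h1 | h1
  · have := f2 n ω
    simp only [h1, if_true] at this
    rw [hl', le_div_iff_of_neg h1] at this; linarith
  · obtain ⟨t, ht, -⟩ := hne ω
    have := (hφ _).1 ht n
    rw [e] at this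
    simpa [h1] using this
  · have := f1 n ω
    simp only [h1, if_true] at this
    rw [hl', div_le_iff₀ h1] at this; linarith

lemma sel (h : SepP ω0) {V σ : Type} [NormedAddCommGroup V] [NormedSpace ℝ V] [ProperSpace V]
    [Fintype σ] (π : σ → V →L[ℝ] ℝ) (D : Set V) (hD : IsClosed D) (hc : Convex ℝ D)
    (h0 : 0 ∈ D) (hs : ∀ d ∈ D, ∀ s : ℝ, 0 ≤ s → s • d ∈ D) (s0 : σ)
    (hb : ∀ d ∈ D, ‖d‖ ≤ π s0 d) (hb' : ∀ d ∈ D, ∀ s, |π s d| ≤ π s0 d) (S : Set σ) (hs0 : s0 ∈ S)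
    (α : σ → C(Ω, ℝ)) (hα : ∀ s, α s ω0 = 0) (hne : ∀ ω, ∃ d ∈ D, ∀ s ∈ S, π s d = α s ω) :
    ∃ β : σ → C(Ω, ℝ), (∀ s, β s ω0 = 0) ∧ (∀ s ∈ S, β s = α s) ∧
      ∀ ω, ∃ d ∈ D, ∀ s, π s d = β s ω := by
  classical
  suffices H : ∀ T : Finset σ, ∃ β : σ → C(Ω, ℝ), (∀ s, β s ω0 = 0) ∧ (∀ s ∈ S, β s = α s) ∧
      ∀ ω, ∃ d ∈ D, ∀ s, s ∈ S ∨ s ∈ T → π s d = β s ω by
    obtain ⟨β, h1, h2, h3⟩ := H Finset.univ
    exact ⟨β, h1, h2, fun ω => (h3 ω).imp fun d hd => ⟨hd.1, fun s => hd.2 s (by simp)⟩⟩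
  intro T
  induction T using Finset.induction_on with
  | empty => exact ⟨α, hα, fun _ _ => rfl, by simpa using hne⟩
  | insert i T hi ih =>
    obtain ⟨β, h1, h2, h3⟩ := ih
    by_cases hiS : i ∈ S
    · refine ⟨β, h1, h2, fun ω => (h3 ω).imp fun d hd => ⟨hd.1, fun s hs => hd.2 s ?_⟩⟩
      rcases hs with hs | hs
      · exact Or.inl hs
      · rcases Finset.mem_insert.1 hs with rfl | hs
        exacts [Or.inl hiS, Or.inr hs]
    let D' : Set ((σ → ℝ) × ℝ) :=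
      {x | ∃ d ∈ D, (∀ s, s ∈ S ∨ s ∈ T → π s d = x.1 s) ∧ π i d = x.2}
    have hD' : IsClosed D' := by
      apply IsSeqClosed.isClosed
      intro x y hx hxy
      choose d hd1 hd2 hd3 using hx
      have t1 : ∀ s, Tendsto (fun k => (x k).1 s) atTop (𝓝 (y.1 s)) := fun s =>
        ((show Continuous fun z : (σ → ℝ) × ℝ => z.1 s by fun_prop).tendsto y).comp hxy
      obtain ⟨R, hR⟩ := (t1 s0).bddAbove_range
      obtain ⟨e, he, ψ, hψ, hlim⟩ := ((isCompact_closedBall (0 : V) R).inter_left hD).tendsto_subseq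
        (x := d) fun k => ⟨hd1 k, mem_closedBall_zero_iff.2 ((hb _ (hd1 k)).trans (by
          rw [hd2 k s0 (Or.inl hs0)]; exact hR ⟨k, rfl⟩))⟩
      refine ⟨e, he.1, fun s hs => ?_, ?_⟩
      · exact tendsto_nhds_unique (((π s).continuous.tendsto e).comp hlim)
          (((t1 s).comp hψ.tendsto_atTop).congr fun k => (hd2 _ s hs).symm)
      · exact tendsto_nhds_unique (((π i).continuous.tendsto e).comp hlim)
          ((((continuous_snd.tendsto y).comp hxy).comp hψ.tendsto_atTop).congr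
            fun k => (hd3 _).symm)
    obtain ⟨f, f0, f1⟩ := sel_one ω0 h D' hD' (by
        rintro x ⟨d, d1, d2, d3⟩ y ⟨e, e1, e2, e3⟩ a b ha hb hab
        exact ⟨a • d + b • e, hc d1 e1 ha hb hab, fun s hs => by simp [d2 s hs, e2 s hs],
          by simp [d3, e3]⟩)
      ⟨0, h0, by simp, by simp⟩ (by
        rintro x ⟨d, d1, d2, d3⟩ a ha
        exact ⟨a • d, hs d d1 a ha, fun s hs => by simp [d2 s hs], by simp [d3]⟩)
      ⟨fun ω s => β s ω, by fun_prop⟩ (funext h1) (β s0) (h1 s0) fun ω => by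
        obtain ⟨d, d1, d2⟩ := h3 ω
        exact ⟨π i d, ⟨d, d1, d2, rfl⟩, d2 s0 (Or.inl hs0) ▸ hb' d d1 i⟩
    refine ⟨Function.update β i f, fun s => ?_, fun s hs => ?_, fun ω => ?_⟩
    · rcases eq_or_ne s i with rfl | hsi
      · simpa using f0
      · simpa [hsi] using h1 s
    · rw [Function.update_of_ne (show s ≠ i by rintro rfl; exact hiS hs), h2 s hs]
    · obtain ⟨d, d1, d2, d3⟩ := f1 ω
      refine ⟨d, d1, fun s hs => ?_⟩
      rcases eq_or_ne s i with rfl | hsi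
      · simpa using d3
      · rw [Function.update_of_ne hsi]
        exact d2 s (by simpa [hsi] using hs)

end Pool.Agent.H95.Toep
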