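import Pool.Agent.H95.ToepComm
import Pool.Agent.H95.ToepSel

set_option autoImplicit false

open Set Filter Topology ComplexConjugate
open scoped ComplexOrder

namespace Pool.Agent.H95.Toep

variable {G : Type} [AddCommGroup G]
variable {A : Type} [NonUnitalCStarAlgebra A] [PartialOrder A] [StarOrderedRing A]

lemma gen_closed : IsClosed {a : A | 0 ≤ a} := isClosed_Ici

lemma gen_smul {s : ℝ} (hs : 0 ≤ s) {a : A} (ha : 0 ≤ a) : 0 ≤ (s : ℂ) • a :=
  smul_nonneg (by exact_mod_cast hs) ha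

lemma gen_sqrt : ∃ s : A → A, ContinuousOn s {a : A | 0 ≤ a} ∧
    ∀ a, 0 ≤ a → a = star (s a) * s a :=
  ⟨CFC.sqrt, CFC.continuousOn_sqrt, fun a ha => by
    rw [(IsSelfAdjoint.of_nonneg (CFC.sqrt_nonneg a)).star_eq, CFC.sqrt_mul_sqrt_self a ha]⟩

lemma sum_conj_mul {ι : Type} [Fintype ι] (x : ι → ℂ) :
    ∑ r, conj (x r) * x r = ((∑ r, ‖x r‖ ^ 2 : ℝ) : ℂ) := by
  simp [Complex.conj_mul']

lemma sum_conj_zero {ι : Type} [Fintype ι] (x : ι → ℂ) (h : ∑ r, conj (x r) * x r = 0) (r : ι) :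
    x r = 0 := by
  rw [sum_conj_mul, Complex.ofReal_eq_zero,
    Finset.sum_eq_zero_iff_of_nonneg fun _ _ => by positivity] at h
  simpa using h r (Finset.mem_univ r)

lemma kernel3 {ι : Type} [Fintype ι] (p q s : ι → ℂ) (h m : ℂ) (c : ℝ)
    (hc : (c : ℂ) ^ 2 + conj m * m = 1)
    (h1 : ∑ r, conj (p r) * p r = h) (h2 : ∑ r, conj (q r) * q r = h)
    (h3 : ∑ r, conj (s r) * s r = h) (h4 : ∑ r, conj (p r) * q r = h * c)
    (h5 : ∑ r, conj (q r) * p r = h * c) (h6 : ∑ r, conj (p r) * s r = 0)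
    (h7 : ∑ r, conj (s r) * p r = 0) (h8 : ∑ r, conj (q r) * s r = h * conj m)
    (h9 : ∑ r, conj (s r) * q r = h * m) (r : ι) : q r = c * p r + m * s r := by
  rw [← sub_eq_zero]
  refine sum_conj_zero (fun r => q r - (c * p r + m * s r)) ?_ r
  have e : ∀ r, conj (q r - (c * p r + m * s r)) * (q r - (c * p r + m * s r)) =
      conj (q r) * q r - c * (conj (q r) * p r) - m * (conj (q r) * s r) - c * (conj (p r) * q r)
      + c ^ 2 * (conj (p r) * p r) + c * m * (conj (p r) * s r) - conj m * (conj (s r) * q r)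
      + conj m * c * (conj (s r) * p r) + conj m * m * (conj (s r) * s r) := fun r => by
    simp only [map_sub, map_add, map_mul, Complex.conj_ofReal]; ring
  simp only [e, Finset.sum_add_distrib, Finset.sum_sub_distrib, ← Finset.mul_sum, h1, h2, h3, h4,
    h5, h6, h7, h8, h9]
  linear_combination -h * hc

def K5 : Finset (Fin 2 → ℤ) := {0, e1, e2, e1 + e2, e2 + e2}

lemma rigid (b : (Fin 2 → ℤ) → ℂ) (hb : PosT K5 b) (h m : ℂ) (c : ℝ)
    (hc : (c : ℂ) ^ 2 + conj m * m = 1) (h0 : b 0 = h) (h1 : b (0 - e1) = h * c)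
    (h2 : b (e1 - 0) = h * c) (h3 : b (0 - e2) = 0) (h4 : b (e2 - 0) = 0)
    (h5 : b (e1 - e2) = h * conj m) (h6 : b (e2 - e1) = h * m) :
    c * (m * b (0 - (e2 + e2)) + conj m * h) = 0 := by
  obtain ⟨B, hB⟩ := hb.gram
  simp only [Complex.star_def] at hB
  let a0 : K5 := ⟨0, by decide⟩
  let a1 : K5 := ⟨e1, by decide⟩
  let a2 : K5 := ⟨e2, by decide⟩
  let a3 : K5 := ⟨e1 + e2, by decide⟩
  let a4 : K5 := ⟨e2 + e2, by decide⟩
  have hG : ∀ (p q : K5) (l : Fin 2 → ℤ), p.1 - q.1 = l → ∑ r, conj (B r p) * B r q = b l :=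
    fun p q l hl => by rw [← hB, hl]
  have hK : ∀ p q s : K5, q.1 = p.1 + e1 → s.1 = p.1 + e2 → ∀ r,
      B r q = c * B r p + m * B r s := fun p q s hq hs =>
    kernel3 (fun r => B r p) (fun r => B r q) (fun r => B r s) h m c hc
      ((hG p p 0 (by simp)).trans h0) ((hG q q 0 (by simp)).trans h0)
      ((hG s s 0 (by simp)).trans h0) ((hG p q _ (by rw [hq]; abel)).trans h1)
      ((hG q p _ (by rw [hq]; abel)).trans h2) ((hG p s _ (by rw [hs]; abel)).trans h3)
      ((hG s p _ (by rw [hs]; abel)).trans h4) ((hG q s _ (by rw [hq, hs]; abel)).trans h5)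
      ((hG s q _ (by rw [hq, hs]; abel)).trans h6)
  have k1 := hK a0 a1 a2 (by decide) (by decide)
  have k2 := hK a2 a3 a4 (by decide) (by decide)
  have e1' : ∑ r, conj (B r a0) * B r a3 = m * b (0 - (e2 + e2)) := by
    simp only [k2, mul_add, Finset.sum_add_distrib, mul_left_comm (conj (B _ a0)),
      ← Finset.mul_sum, hG a0 a2 _ rfl, hG a0 a4 _ rfl]
    show c * b (0 - e2) + m * b (0 - (e2 + e2)) = _
    rw [h3]; ring
  have e2' := (hG a1 a3 (0 - e2) (by decide)).trans h3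
  have e3' := (hG a2 a3 (0 - e1) (by decide)).trans h1
  simp only [k1, map_add, map_mul, Complex.conj_ofReal, add_mul, mul_assoc, Finset.sum_add_distrib,
    ← Finset.mul_sum, e1', e3'] at e2'
  linear_combination e2'

section rep
variable {Ω : Type} [TopologicalSpace Ω] [CompactSpace Ω] (ω0 : Ω) (j : A →⋆ₙₐ[ℂ] C(Ω, ℂ))

lemma pos_pt {L : Finset G} {a : G → A} (h : PosT L a) (ω : Ω) : PosT L fun l => j (a l) ω := by
  obtain ⟨B, hB⟩ := h.gram
  refine posT_of_gram (fun r i => j (B r i) ω) fun i k => ?_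
  simp [hB, map_star]

variable (hinj : Function.Injective j) (hr0 : ∀ a, j a ω0 = 0)
  (hr : ∀ f : C(Ω, ℂ), f ω0 = 0 → ∃ a, j a = f)
include hinj hr0 hr

lemma pos_of_pt {L : Finset G} {a : G → A} (h : ∀ ω, PosT L fun l => j (a l) ω) : PosT L a := by
  obtain ⟨s, hs1, hs2⟩ := gen_sqrt (A := CStarMatrix L L ℂ)
  let M : Ω → CStarMatrix L L ℂ := fun ω =>
    CStarMatrix.ofMatrix (Matrix.of fun i k : L => j (a (i.1 - k.1)) ω)
  have hM : Continuous M := continuous_matrix fun i k => (j (a (i.1 - k.1))).continuous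
  have hc : Continuous fun ω => s (M ω) := hs1.comp_continuous hM h
  have hG : ∀ ω (i k : L), j (a (i.1 - k.1)) ω = ∑ r, conj (s (M ω) r i) * s (M ω) r k :=
    fun ω i k => congrFun (congrFun (hs2 _ (h ω)) i) k
  choose B hB using fun r i : L => hr ⟨fun ω => s (M ω) r i, hc.matrix_elem r i⟩
    (sum_conj_zero (fun r => s (M ω0) r i) ((hG ω0 i i).symm.trans (hr0 _)) r)
  refine posT_of_gram B fun i k => hinj ?_
  ext ω
  simp [hG, map_star, hB]

theorem sep_of_ext (h : ExtProp A tri) (x y z : A) (hxy : x * y = 0) :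
    ∃ e : A, e * x = z * x ∧ e * y = 0 := by
  have hz : z ∈ Submodule.span ℂ {a : A | 0 ≤ a} := by rw [CStarAlgebra.span_nonneg]; trivial
  induction hz using Submodule.span_induction with
  | zero => exact ⟨0, rfl, zero_mul _⟩
  | add a b _ _ ha hb =>
    obtain ⟨e, h1, h2⟩ := ha
    obtain ⟨f, h3, h4⟩ := hb
    exact ⟨e + f, by rw [add_mul, add_mul, h1, h3], by rw [add_mul, h2, h4, add_zero]⟩
  | smul c a _ ha =>
    obtain ⟨e, h1, h2⟩ := ha
    exact ⟨c • e, by rw [smul_mul_assoc, smul_mul_assoc, h1], by rw [smul_mul_assoc, h2, smul_zero]⟩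
  | mem z hz =>
    obtain ⟨k, rfl⟩ := exists_sq hz
    set s : ℝ := (‖j x‖ + ‖j y‖ + 1)⁻¹ with hs
    have hs0 : 0 < s := by positivity
    let m : Ω → ℂ := fun ω => s * (‖j x ω‖ + Complex.I * ‖j y ω‖)
    have hm : ∀ ω, ‖m ω‖ < 1 := fun ω => by
      rw [norm_mul, Complex.norm_real, Real.norm_of_nonneg hs0.le, hs, inv_mul_lt_iff₀
        (by positivity), mul_one]
      refine (norm_add_le _ _).trans_lt ?_
      simp only [Complex.norm_real, norm_norm, norm_mul, Complex.norm_I, one_mul]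
      linarith [(j x).norm_coe_le_norm ω, (j y).norm_coe_le_norm ω]
    let c : Ω → ℝ := fun ω => Real.sqrt (1 - ‖m ω‖ ^ 2)
    have hc0 : ∀ ω, 0 < 1 - ‖m ω‖ ^ 2 := fun ω => by nlinarith [hm ω, norm_nonneg (m ω)]
    have hc : ∀ ω, (c ω : ℂ) ^ 2 + conj (m ω) * m ω = 1 := fun ω => by
      rw [Complex.conj_mul', ← Complex.ofReal_pow, Real.sq_sqrt (hc0 ω).le]; push_cast; ring
    obtain ⟨a1, ha1⟩ := hr ⟨fun ω => j k ω * c ω, by simp only [c, m]; fun_prop⟩ (by simp [hr0])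
    obtain ⟨a2, ha2⟩ := hr ⟨fun ω => j k ω * m ω, by simp only [m]; fun_prop⟩ (by simp [hr0])
    have ha1' : ∀ ω, j a1 ω = j k ω * c ω := fun ω => by rw [ha1]; rfl
    have ha2' : ∀ ω, j a2 ω = j k ω * m ω := fun ω => by rw [ha2]; rfl
    let B : Bool → tri → A := fun r i => if r then (if i = t0 then k else if i = t1 then a1 else 0)
      else (if i = t0 then 0 else if i = t1 then a2 else k)
    have B0 : B true t0 = k ∧ B true t1 = a1 ∧ B true t2 = 0 ∧ B false t0 = 0 ∧ B false t1 = a2 ∧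
      B false t2 = k := ⟨rfl, rfl, rfl, rfl, rfl, rfl⟩
    obtain ⟨a, ha⟩ := tri_data (fun p q => ∑ r, star (B r p) * B r q) fun i => by
      rcases tri_cases i with rfl | rfl | rfl
      · rfl
      · apply hinj
        ext ω
        simp only [Fintype.sum_bool, B0, star_zero, zero_mul, add_zero, map_add, map_mul, map_star,
          ContinuousMap.add_apply, ContinuousMap.mul_apply, ContinuousMap.star_apply, ha1', ha2',
          Complex.star_def, Complex.conj_ofReal]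
        linear_combination (conj (j k ω) * j k ω) * hc ω
      · simp [B0]
    obtain ⟨b, hb1, hb2⟩ := h a (posT_of_gram B ha) K5 (by decide)
    have hb : ∀ ω (p q : tri), j (b (p.1 - q.1)) ω =
        conj (j (B true p) ω) * j (B true q) ω + conj (j (B false p) ω) * j (B false q) ω :=
      fun ω p q => by rw [hb1 _ p.2 _ q.2, ha]; simp [map_star]
    have key : ∀ ω, m ω * j (b (0 - (e2 + e2))) ω + conj (m ω) * (conj (j k ω) * j k ω) = 0 := by
      intro ω
      refine (mul_eq_zero.1 (rigid _ (pos_pt j hb2 ω) _ (m ω) (c ω) (hc ω) ?_ ?_ ?_ ?_ ?_ ?_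
        ?_)).resolve_left (by exact_mod_cast (Real.sqrt_pos.2 (hc0 ω)).ne')
      · simpa [B0] using hb ω t0 t0
      · exact (hb ω t0 t1).trans (by simp [B0, ha1']; ring)
      · exact (hb ω t1 t0).trans (by simp [B0, ha1']; ring)
      · exact (hb ω t0 t2).trans (by simp [B0])
      · exact (hb ω t2 t0).trans (by simp [B0])
      · exact (hb ω t1 t2).trans (by simp [B0, ha2']; ring)
      · exact (hb ω t2 t1).trans (by simp [B0, ha2']; ring)
    have hxy' : ∀ ω, j x ω * j y ω = 0 := fun ω => by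
      rw [← ContinuousMap.mul_apply, ← map_mul, hxy]; simp
    have hs1 : (s : ℂ) ≠ 0 := by exact_mod_cast hs0.ne'
    refine ⟨(1 / 2 : ℂ) • (star k * k - b (0 - (e2 + e2))), hinj ?_, hinj ?_⟩
    · ext ω
      simp only [map_mul, map_smul, map_sub, map_star, ContinuousMap.mul_apply,
        ContinuousMap.smul_apply, ContinuousMap.sub_apply, ContinuousMap.star_apply,
        Complex.star_def, smul_eq_mul]
      rcases eq_or_ne (j x ω) 0 with h0 | h0
      · simp [h0]
      have h1 := key ω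
      have h2 : ((‖j x ω‖ : ℝ) : ℂ) ≠ 0 := by exact_mod_cast norm_ne_zero_iff.2 h0
      simp only [m, (mul_eq_zero.1 (hxy' ω)).resolve_left h0, norm_zero, Complex.ofReal_zero,
        mul_zero, add_zero, map_mul, Complex.conj_ofReal] at h1
      rw [← mul_add] at h1
      have h3 := (mul_eq_zero.1 h1).resolve_left (mul_ne_zero hs1 h2)
      linear_combination (-1 / 2 * j x ω) * h3
    · ext ω
      simp only [map_mul, map_smul, map_sub, map_star, ContinuousMap.mul_apply,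
        ContinuousMap.smul_apply, ContinuousMap.sub_apply, ContinuousMap.star_apply,
        Complex.star_def, smul_eq_mul, map_zero, ContinuousMap.zero_apply]
      rcases eq_or_ne (j y ω) 0 with h0 | h0
      · simp [h0]
      have h1 := key ω
      have h2 : ((‖j y ω‖ : ℝ) : ℂ) ≠ 0 := by exact_mod_cast norm_ne_zero_iff.2 h0
      simp only [m, (mul_eq_zero.1 (hxy' ω)).resolve_right h0, norm_zero, Complex.ofReal_zero,
        zero_add, map_mul, Complex.conj_ofReal, Complex.conj_I] at h1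
      have h3 : (s * (Complex.I * ‖j y ω‖)) *
          (j (b (0 - (e2 + e2))) ω - conj (j k ω) * j k ω) = 0 := by linear_combination h1
      have h4 := (mul_eq_zero.1 h3).resolve_left (mul_ne_zero hs1 (mul_ne_zero Complex.I_ne_zero h2))
      linear_combination (-1 / 2 * j y ω) * h4

omit [PartialOrder A] [StarOrderedRing A] hinj hr0 in
lemma lift_real (f : C(Ω, ℝ)) (hf : f ω0 = 0) : ∃ a, ∀ ω, j a ω = f ω := by
  obtain ⟨a, ha⟩ := hr ⟨fun ω => f ω, by fun_prop⟩ (by simp [hf])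
  exact ⟨a, fun ω => by rw [ha]; rfl⟩

omit [PartialOrder A] [StarOrderedRing A] in
lemma sepP (hP : ∀ x y z : A, x * y = 0 → ∃ e : A, e * x = z * x ∧ e * y = 0) : SepP ω0 := by
  intro x y z hx hy hz hxy
  obtain ⟨x', hx'⟩ := lift_real ω0 j hr x hx
  obtain ⟨y', hy'⟩ := lift_real ω0 j hr y hy
  obtain ⟨z', hz'⟩ := lift_real ω0 j hr z hz
  obtain ⟨e, h1, h2⟩ := hP x' y' z' (hinj (by
    ext ω
    simp only [map_mul, ContinuousMap.mul_apply, hx', hy', map_zero, ContinuousMap.zero_apply]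
    exact_mod_cast hxy ω))
  refine ⟨⟨fun ω => (j e ω).re, by fun_prop⟩, by simp [hr0], fun ω hω => ?_, fun ω hω => ?_⟩
  · have := congrArg (fun a => j a ω) h1
    simp only [map_mul, ContinuousMap.mul_apply, hx', hz'] at this
    simp [mul_right_cancel₀ (by exact_mod_cast hω) this]
  · have := congrArg (fun a => j a ω) h2
    simp only [map_mul, ContinuousMap.mul_apply, hy', map_zero, ContinuousMap.zero_apply] at this
    simp [(mul_eq_zero.1 this).resolve_right (by exact_mod_cast hω)]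

theorem ext_of_sep (hS : SepP ω0) (L : Finset G) (h : ExtProp ℂ L) : ExtProp A L := by
  classical
  intro a ha K hK
  rcases L.eq_empty_or_nonempty with rfl | ⟨i0, hi0⟩
  · exact ⟨0, by simp, posT_of_gram (ι := Empty) (fun r => r.elim) (by simp)⟩
  let k0 : K := ⟨i0, hK hi0⟩
  let π : K × K × Bool → (K → K → ℂ) →L[ℝ] ℝ := fun s =>
    (if s.2.2 then Complex.reCLM else Complex.imCLM).comp
      ((ContinuousLinearMap.proj (R := ℝ) (φ := fun _ : K => ℂ) s.2.1).comp
        (ContinuousLinearMap.proj (R := ℝ) (φ := fun _ : K => K → ℂ) s.1))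
  have π1 : ∀ p q N, π (p, q, true) N = (N p q).re := fun _ _ _ => rfl
  have π2 : ∀ p q N, π (p, q, false) N = (N p q).im := fun _ _ _ => rfl
  let D : Set (K → K → ℂ) := {N | 0 ≤ CStarMatrix.ofMatrix (Matrix.of N) ∧
    ∀ p q p' q' : K, p.1 - q.1 = p'.1 - q'.1 → N p q = N p' q'}
  have hs : ∀ d ∈ D, ∀ s : ℝ, 0 ≤ s → s • d ∈ D := fun d hd s hs =>
    ⟨gen_smul (A := CStarMatrix K K ℂ) hs hd.1, fun p q p' q' hh => by simp [hd.2 p q p' q' hh]⟩
  have hb : ∀ d ∈ D, ∀ p q, ‖d p q‖ ≤ (d k0 k0).re := by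
    intro d hd p q
    obtain ⟨B, hB⟩ := exists_sq (A := CStarMatrix K K ℂ) hd.1
    have hB' : ∀ p q, d p q = ∑ r, conj (B r p) * B r q := fun p q => congrFun (congrFun hB p) q
    have h1 : ∀ p, (d k0 k0).re = ∑ r, ‖B r p‖ ^ 2 := fun p => by
      rw [hd.2 k0 k0 p p (by simp), hB', sum_conj_mul, Complex.ofReal_re]
    rw [hB']
    refine (norm_sum_le_of_le _ (n := fun r => (‖B r p‖ ^ 2 + ‖B r q‖ ^ 2) / 2)
      fun r _ => ?_).trans ?_
    · rw [norm_mul, Complex.norm_conj]; nlinarith [sq_nonneg (‖B r p‖ - ‖B r q‖)]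
    · rw [← Finset.sum_div, Finset.sum_add_distrib, ← h1, ← h1]; linarith
  obtain ⟨β, hβ0, hβ1, hβ2⟩ := sel ω0 hS π D (by
      refine IsClosed.inter (gen_closed (A := CStarMatrix K K ℂ)) ?_
      show IsClosed {N : K → K → ℂ | ∀ p q p' q' : K, p.1 - q.1 = p'.1 - q'.1 → N p q = N p' q'}
      simp only [Set.setOf_forall]
      exact isClosed_iInter fun p => isClosed_iInter fun q => isClosed_iInter fun p' =>
        isClosed_iInter fun q' => isClosed_iInter fun _ => isClosed_eq (by fun_prop) (by fun_prop))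
    (fun d hd e he s t hs' ht' _ => ⟨add_nonneg (α := CStarMatrix K K ℂ) (hs d hd s hs').1
      (hs e he t ht').1, fun p q p' q' hh => by simp [hd.2 p q p' q' hh, he.2 p q p' q' hh]⟩)
    ⟨le_rfl, fun _ _ _ _ _ => rfl⟩ hs (k0, k0, true)
    (fun d hd => (pi_norm_le_iff_of_nonneg ((norm_nonneg _).trans (hb d hd k0 k0))).2 fun p =>
      (pi_norm_le_iff_of_nonneg ((norm_nonneg _).trans (hb d hd k0 k0))).2 fun q => hb d hd p q)
    (fun d hd s => by
      rcases s with ⟨p, q, _ | _⟩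
      · exact (Complex.abs_im_le_norm _).trans (hb d hd p q)
      · exact (Complex.abs_re_le_norm _).trans (hb d hd p q))
    {s | ∃ i ∈ L, ∃ k ∈ L, s.1.1 - s.2.1.1 = i - k} ⟨i0, hi0, i0, hi0, rfl⟩
    (fun s => if s.2.2 then ⟨fun ω => (j (a (s.1.1 - s.2.1.1)) ω).re, by fun_prop⟩
      else ⟨fun ω => (j (a (s.1.1 - s.2.1.1)) ω).im, by fun_prop⟩)
    (fun s => by rcases s with ⟨p, q, _ | _⟩ <;> simp [hr0])
    (fun ω => by
      obtain ⟨b, hb1, hb2⟩ := h _ (pos_pt j ha ω) K hK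
      refine ⟨fun p q => b (p.1 - q.1), ⟨hb2, fun p q p' q' hh => congrArg b hh⟩, ?_⟩
      rintro ⟨p, q, _ | _⟩ ⟨i, hi, k, hk, hik⟩
      · rw [π2]; dsimp only at hik ⊢; simp [hik, hb1 i hi k hk]
      · rw [π1]; dsimp only at hik ⊢; simp [hik, hb1 i hi k hk])
  choose c hc using fun p q : K => hr ⟨fun ω => β (p, q, true) ω + β (p, q, false) ω * Complex.I,
    by fun_prop⟩ (by simp [hβ0])
  choose d hd1 hd2 using hβ2
  have hcd : ∀ p q ω, j (c p q) ω = d ω p q := fun p q ω => by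
    rw [hc, ContinuousMap.coe_mk, ← hd2, ← hd2, π1, π2, Complex.re_add_im]
  let b : G → A := fun l => if h : ∃ p : K × K, p.1.1 - p.2.1 = l then c h.choose.1 h.choose.2
    else 0
  have hbd : ∀ (p q : K) ω, j (b (p.1 - q.1)) ω = d ω p q := fun p q ω => by
    have h1 : ∃ r : K × K, r.1.1 - r.2.1 = p.1 - q.1 := ⟨(p, q), rfl⟩
    simp only [b]
    rw [dif_pos h1, hcd]
    exact (hd1 ω).2 _ _ _ _ h1.choose_spec
  refine ⟨b, fun i hi k hk => hinj ?_, pos_of_pt ω0 j hinj hr0 hr fun ω => ?_⟩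
  · ext ω
    rw [hbd ⟨i, hK hi⟩ ⟨k, hK hk⟩]
    apply Complex.ext
    · rw [← π1, hd2, hβ1 _ ⟨i, hi, k, hk, rfl⟩]; rfl
    · rw [← π2, hd2, hβ1 _ ⟨i, hi, k, hk, rfl⟩]; rfl
  · unfold PosT
    simp only [hbd]
    exact (hd1 ω).1

omit hr0 hr in
theorem ext_scalar [Nontrivial A] (L : Finset G) (h : ExtProp A L) : ExtProp ℂ L := by
  intro a ha K hK
  obtain ⟨k, hk⟩ := exists_ne (0 : A)
  obtain ⟨ω, hω⟩ : ∃ ω, j k ω ≠ 0 := by
    by_contra hc
    push Not at hc
    exact hk (hinj (by ext ω; simp [hc]))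
  obtain ⟨B, hB⟩ := ha.gram
  obtain ⟨b, hb1, hb2⟩ := h (fun l => a l • (star k * k)) (posT_of_gram (fun r i => B r i • k)
    fun p q => by
      simp only [hB, Finset.sum_smul, star_smul, smul_mul_smul_comm]) K hK
  obtain ⟨C, hC⟩ := (pos_pt j hb2 ω).gram
  have h1 : conj (j k ω) ≠ 0 := by simpa using hω
  refine ⟨fun l => (conj (j k ω) * j k ω)⁻¹ * j (b l) ω, fun i hi l hl => ?_,
    posT_of_gram (fun r i => (j k ω)⁻¹ * C r i) fun p q => ?_⟩
  · simp only [hb1 i hi l hl, map_smul, map_mul, map_star, ContinuousMap.smul_apply,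
      ContinuousMap.mul_apply, ContinuousMap.star_apply, Complex.star_def, smul_eq_mul]
    field_simp
  · rw [hC, Finset.mul_sum]
    refine Finset.sum_congr rfl fun r _ => ?_
    simp only [Complex.star_def, map_mul, map_inv₀]
    field_simp

end rep

omit [PartialOrder A] [StarOrderedRing A] in
lemma exists_rep (hc : ∀ x y : A, x * y = y * x) : ∃ (Ω : Type) (_ : TopologicalSpace Ω)
    (_ : CompactSpace Ω) (ω0 : Ω) (j : A →⋆ₙₐ[ℂ] C(Ω, ℂ)), Function.Injective j ∧
    (∀ a, j a ω0 = 0) ∧ ∀ f : C(Ω, ℂ), f ω0 = 0 → ∃ a, j a = f := by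
  letI : NonUnitalCommCStarAlgebra A := { ‹NonUnitalCStarAlgebra A› with mul_comm := hc }
  let g := gelfandStarTransform (Unitization ℂ A)
  let ω0 : WeakDual.characterSpace ℂ (Unitization ℂ A) :=
    WeakDual.CharacterSpace.equivAlgHom.symm (Unitization.fstHom ℂ A)
  have h0 : ∀ u, g u ω0 = u.fst := fun u => rfl
  refine ⟨WeakDual.characterSpace ℂ (Unitization ℂ A), inferInstance, inferInstance, ω0,
    (g : Unitization ℂ A →⋆ₙₐ[ℂ] C(WeakDual.characterSpace ℂ (Unitization ℂ A), ℂ)).comp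
      (Unitization.inrNonUnitalStarAlgHom ℂ A),
    g.injective.comp Unitization.inr_injective, fun a => h0 a, fun f hf => ?_⟩
  obtain ⟨u, rfl⟩ := g.surjective f
  refine ⟨u.snd, congrArg g ?_⟩
  ext
  · exact ((h0 u).symm.trans hf).symm
  · rfl

def bad : Finset (Fin 2 → ℤ) := {0, e1, e1 + e1 + e1}

theorem bad_not : ¬ ExtProp ℂ bad := by
  intro h
  obtain ⟨b, hb1, hb2⟩ := h (fun l => if l = 0 ∨ l = e1 ∨ l = -e1 then 1 else 0)
    (posT_of_gram (ι := Bool) (fun r i => if r = decide (i.1 = e1 + e1 + e1) then 1 else 0) (by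
      have hc : ∀ i : bad, i = ⟨0, by decide⟩ ∨ i = ⟨e1, by decide⟩ ∨
        i = ⟨e1 + e1 + e1, by decide⟩ := by decide
      intro p q
      rcases hc p with rfl | rfl | rfl <;> rcases hc q with rfl | rfl | rfl <;>
        simp (config := {decide := true})))
    {0, e1, e1 + e1, e1 + e1 + e1} (by decide)
  obtain ⟨B, hB⟩ := hb2.gram
  have h0 : b 0 = 1 := (hb1 0 (by decide) 0 (by decide)).trans (if_pos (by decide))
  have h1 : b (0 - e1) = 1 := (hb1 0 (by decide) e1 (by decide)).trans (if_pos (by decide))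
  have h2 : b (e1 - 0) = 1 := (hb1 e1 (by decide) 0 (by decide)).trans (if_pos (by decide))
  have h3 : b (e1 - (e1 + e1 + e1)) = 0 :=
    (hb1 e1 (by decide) _ (by decide)).trans (if_neg (by decide))
  have hK : ∀ p q : ({0, e1, e1 + e1, e1 + e1 + e1} : Finset (Fin 2 → ℤ)), q.1 = p.1 + e1 →
      ∀ r, B r q = B r p := fun p q hq r => by
    rw [← sub_eq_zero]
    refine sum_conj_zero (fun r => B r q - B r p) ?_ r
    simp only [map_sub, sub_mul, mul_sub, Finset.sum_sub_distrib, ← Complex.star_def, ← hB, hq,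
      sub_self, h0, show p.1 + e1 - p.1 = e1 - 0 by abel, show p.1 - (p.1 + e1) = 0 - e1 by abel,
      h1, h2]
  have h4 := hB ⟨e1, by decide⟩ ⟨e1 + e1 + e1, by decide⟩
  simp only [hK ⟨e1 + e1, by decide⟩ ⟨e1 + e1 + e1, by decide⟩ rfl,
    hK ⟨e1, by decide⟩ ⟨e1 + e1, by decide⟩ rfl, ← hB, sub_self, h0, h3] at h4
  exact zero_ne_one h4

theorem suff [Nontrivial A] (hc : ∀ x y : A, x * y = y * x)
    (hP : ∀ x y z : A, x * y = 0 → ∃ e : A, e * x = z * x ∧ e * y = 0) (L : Finset G) :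
    ExtProp ℂ L ↔ ExtProp A L := by
  obtain ⟨Ω, _, _, ω0, j, h1, h2, h3⟩ := exists_rep hc
  exact ⟨ext_of_sep ω0 j h1 h2 h3 (sepP ω0 j h1 h2 h3 hP) L, ext_scalar j h1 L⟩

theorem nec (h : ∀ L : Finset (Fin 2 → ℤ), ExtProp ℂ L ↔ ExtProp A L) :
    Nontrivial A ∧ (∀ x y : A, x * y = y * x) ∧
      ∀ x y z : A, x * y = 0 → ∃ e : A, e * x = z * x ∧ e * y = 0 := by
  have h0 := (h tri).1 tri_ext
  have hc := comm_of_ext h0
  obtain ⟨Ω, _, _, ω0, j, h1, h2, h3⟩ := exists_rep hc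
  refine ⟨?_, hc, sep_of_ext ω0 j h1 h2 h3 h0⟩
  by_contra hn
  rw [not_nontrivial_iff_subsingleton] at hn
  exact bad_not ((h bad).2 fun a _ K _ => ⟨0, fun _ _ _ _ => Subsingleton.elim _ _,
    posT_of_gram (ι := Empty) (fun r => r.elim) (by simp)⟩)

end Pool.Agent.H95.Toep
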