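import Pool.Agent.H95.ToepDefs

set_option autoImplicit false

open Set ComplexConjugate
open scoped ComplexOrder

namespace Pool.Agent.H95.Toep

variable {G : Type} [AddCommGroup G]

section gram
variable {A : Type} [NonUnitalCStarAlgebra A] [PartialOrder A] [StarOrderedRing A]

lemma exists_sq {x : A} (h : 0 ≤ x) : ∃ b : A, x = star b * b :=
  CStarAlgebra.nonneg_iff_eq_star_mul_self.1 h

lemma PosT.gram {L : Finset G} {a : G → A} (h : PosT L a) :
    ∃ B : L → L → A, ∀ i j : L, a (i.1 - j.1) = ∑ r, star (B r i) * B r j := by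
  obtain ⟨B, hB⟩ := exists_sq (A := CStarMatrix L L A) h
  exact ⟨B, fun i j => congrFun (congrFun hB i) j⟩

lemma posT_of_gram {L : Finset G} {a : G → A} {ι : Type} [Fintype ι] (B : ι → L → A)
    (h : ∀ i j : L, a (i.1 - j.1) = ∑ r, star (B r i) * B r j) : PosT L a := by
  classical
  unfold PosT
  rcases isEmpty_or_nonempty L with h0 | ⟨⟨i0⟩⟩
  · exact le_of_eq (CStarMatrix.ext fun i _ => h0.elim i)
  let R : ι → CStarMatrix L L A := fun r =>
    CStarMatrix.ofMatrix (Matrix.of fun i j => if i = i0 then B r j else 0)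
  have : CStarMatrix.ofMatrix (Matrix.of fun i j : L => a (i.1 - j.1)) = ∑ r, star (R r) * R r := by
    ext i j
    rw [show (∑ r, star (R r) * R r) i j = ∑ r, (star (R r) * R r) i j from
      Matrix.sum_apply _ _ _ _]
    refine (h i j).trans (Finset.sum_congr rfl fun r _ => ?_)
    rw [CStarMatrix.mul_apply, Finset.sum_eq_single i0]
    · simp [R, CStarMatrix.star_apply]
    · intro k _ hk
      simp [R, hk]
    · simp
  rw [this]
  exact Finset.sum_nonneg fun r _ => star_mul_self_nonneg _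

end gram

lemma rot2 (α β u v : ℂ) (t : ℝ) (ht : t ∈ Icc (0 : ℝ) 1) : ∃ a b : ℂ,
    conj a * a + conj b * b = 1 ∧
    conj a * a * α + conj b * b * β + a * conj b * u + conj a * b * v = t * α + (1 - t) * β := by
  rcases eq_or_ne α β with h | h
  · exact ⟨1, 0, by simp, by simp [h]; ring⟩
  have hd : α - β ≠ 0 := sub_ne_zero.2 h
  obtain ⟨l, hl1, hl2⟩ := Complex.exists_norm_eq_mul_self (u / (α - β) - conj (v / (α - β)))
  obtain ⟨ρ, hρ⟩ : ∃ ρ : ℝ, l * (u / (α - β)) + conj l * (v / (α - β)) = ρ := by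
    generalize u / (α - β) = u' at *
    generalize v / (α - β) = v' at *
    refine ⟨(l * u' + conj l * v').re, Complex.ext (by simp) ?_⟩
    have := congrArg Complex.im hl2
    simp at this ⊢
    linarith
  have hll : conj l * l = 1 := by rw [Complex.conj_mul', hl1]; simp
  have hg : Continuous fun s : ℝ => s + Real.sqrt s * Real.sqrt (1 - s) * ρ := by fun_prop
  obtain ⟨s, hs, hst⟩ := intermediate_value_Icc zero_le_one hg.continuousOn
    (show t ∈ _ by simpa using ht)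
  have h1 : ((Real.sqrt s : ℝ) : ℂ) * Real.sqrt s = s := by
    rw [← Complex.ofReal_mul, Real.mul_self_sqrt hs.1]
  have h2 : ((Real.sqrt (1 - s) : ℝ) : ℂ) * Real.sqrt (1 - s) = 1 - s := by
    rw [← Complex.ofReal_mul, Real.mul_self_sqrt (by linarith [hs.2])]; push_cast; rfl
  have h3 : l * u + conj l * v = ρ * (α - β) := by rw [← hρ]; field_simp
  refine ⟨Real.sqrt s * l, Real.sqrt (1 - s), ?_, ?_⟩
  · simp only [map_mul, Complex.conj_ofReal]
    linear_combination h1 * (conj l * l) + s * hll + h2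
  · simp only [map_mul, Complex.conj_ofReal]
    rw [← hst]
    push_cast
    linear_combination α * (conj l * l) * h1 + α * s * hll + β * h2 +
      (Real.sqrt s : ℂ) * (Real.sqrt (1 - s) : ℂ) * h3

section tri
variable {I : Type} (i0 i1 i2 : I)

noncomputable def Q (x y : I → ℂ) : ℂ :=
  (conj (x i0) * y i0 - conj (x i1) * y i1) + Complex.I * (conj (x i0) * y i0 - conj (x i2) * y i2)

lemma rot (x y : I → ℂ) (t : ℝ) (ht : t ∈ Icc (0 : ℝ) 1) : ∃ x' y' : I → ℂ,
    (∀ i j, conj (x' i) * x' j + conj (y' i) * y' j = conj (x i) * x j + conj (y i) * y j) ∧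
    Q i0 i1 i2 x' x' = t * Q i0 i1 i2 x x + (1 - t) * Q i0 i1 i2 y y ∧
    Q i0 i1 i2 y' y' = (1 - t) * Q i0 i1 i2 x x + t * Q i0 i1 i2 y y := by
  obtain ⟨a, b, h1, h2⟩ := rot2 (Q i0 i1 i2 x x) (Q i0 i1 i2 y y) (Q i0 i1 i2 y x)
    (Q i0 i1 i2 x y) t ht
  have h3 : ∀ i j, conj (a * x i + b * y i) * (a * x j + b * y j) +
      conj (-conj b * x i + conj a * y i) * (-conj b * x j + conj a * y j) =
      conj (x i) * x j + conj (y i) * y j := fun i j => by
    simp only [map_add, map_mul, map_neg, Complex.conj_conj]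
    linear_combination (conj (x i) * x j + conj (y i) * y j) * h1
  have h4 : Q i0 i1 i2 (fun i => a * x i + b * y i) (fun i => a * x i + b * y i) =
      t * Q i0 i1 i2 x x + (1 - t) * Q i0 i1 i2 y y := by
    rw [← h2]
    simp only [Q, map_add, map_mul]
    ring
  refine ⟨fun i => a * x i + b * y i, fun i => -conj b * x i + conj a * y i, h3, h4, ?_⟩
  simp only [Q] at h4 ⊢
  linear_combination (1 + Complex.I) * h3 i0 i0 - h3 i1 i1 - Complex.I * h3 i2 i2 - h4

lemma three (x y z : I → ℂ)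
    (h : Q i0 i1 i2 x x + Q i0 i1 i2 y y + Q i0 i1 i2 z z = 0) : ∃ f : Fin 3 → I → ℂ,
    (∀ i j, ∑ r, conj (f r i) * f r j = conj (x i) * x j + conj (y i) * y j + conj (z i) * z j) ∧
    ∀ r, Q i0 i1 i2 (f r) (f r) = 0 := by
  obtain ⟨x1, y1, a1, a2, a3⟩ := rot i0 i1 i2 x y (1 / 2) ⟨by norm_num, by norm_num⟩
  obtain ⟨x2, z2, b1, b2, b3⟩ := rot i0 i1 i2 x1 z (2 / 3) ⟨by norm_num, by norm_num⟩
  obtain ⟨y3, z3, c1, c2, c3⟩ := rot i0 i1 i2 y1 z2 (1 / 2) ⟨by norm_num, by norm_num⟩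
  push_cast at *
  refine ⟨![x2, y3, z3], fun i j => ?_, fun r => ?_⟩
  · simp only [Fin.sum_univ_three, Matrix.cons_val]
    linear_combination a1 i j + b1 i j + c1 i j
  · fin_cases r
    · show Q i0 i1 i2 x2 x2 = 0
      linear_combination b2 + (2 / 3) * a2 + (1 / 3) * h
    · show Q i0 i1 i2 y3 y3 = 0
      linear_combination c2 + (1 / 2) * a3 + (1 / 2) * b3 + (1 / 6) * a2 + (1 / 3) * h
    · show Q i0 i1 i2 z3 z3 = 0
      linear_combination c3 + (1 / 2) * a3 + (1 / 2) * b3 + (1 / 6) * a2 + (1 / 3) * h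

lemma Q_zero {x : I → ℂ} (h : Q i0 i1 i2 x x = 0) : ∃ z w : ℂ, ‖z‖ = 1 ∧ ‖w‖ = 1 ∧
    x i1 = z * x i0 ∧ x i2 = w * x i0 := by
  have key : ∀ p q : ℂ, ‖p‖ ^ 2 = ‖q‖ ^ 2 → ∃ z : ℂ, ‖z‖ = 1 ∧ q = z * p := by
    intro p q hpq
    have h1 : ‖p‖ = ‖q‖ := (pow_left_inj₀ (norm_nonneg _) (norm_nonneg _) two_ne_zero).1 hpq
    rcases eq_or_ne p 0 with h0 | h0
    · refine ⟨1, norm_one, ?_⟩
      rw [h0, norm_zero] at h1
      rw [h0, mul_zero, ← norm_eq_zero, h1]
    · exact ⟨q / p, by rw [norm_div, ← h1, div_self (norm_ne_zero_iff.2 h0)], by field_simp⟩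
  simp only [Q, Complex.conj_mul', ← Complex.ofReal_pow, ← Complex.ofReal_sub] at h
  have h1 := congrArg Complex.re h
  have h2 := congrArg Complex.im h
  simp only [Complex.add_re, Complex.ofReal_re, Complex.mul_re, Complex.I_re, zero_mul,
    Complex.I_im, Complex.ofReal_im, mul_zero, sub_zero, add_zero, Complex.zero_re,
    Complex.add_im, Complex.mul_im, one_mul, zero_add, Complex.zero_im] at h1 h2
  obtain ⟨z, hz1, hz2⟩ := key (x i0) (x i1) (by linarith)
  obtain ⟨w, hw1, hw2⟩ := key (x i0) (x i2) (by linarith)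
  exact ⟨z, w, hz1, hw1, hz2, hw2⟩

end tri

def e1 : Fin 2 → ℤ := ![1, 0]
def e2 : Fin 2 → ℤ := ![0, 1]
def tri : Finset (Fin 2 → ℤ) := {0, e1, e2}

def t0 : tri := ⟨0, by decide⟩
def t1 : tri := ⟨e1, by decide⟩
def t2 : tri := ⟨e2, by decide⟩

lemma tri_cases (i : tri) : i = t0 ∨ i = t1 ∨ i = t2 := by
  revert i; decide

lemma sum_tri {M : Type*} [AddCommMonoid M] (f : tri → M) : ∑ i, f i = f t0 + f t1 + f t2 := by
  have : (Finset.univ : Finset tri) = {t0, t1, t2} := by decide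
  rw [this, Finset.sum_insert (by decide), Finset.sum_insert (by decide), Finset.sum_singleton,
    add_assoc]

theorem tri_ext : ExtProp ℂ tri := by
  intro a ha K hK
  obtain ⟨B, hB⟩ := ha.gram
  simp only [sum_tri, Complex.star_def] at hB
  obtain ⟨f, hf1, hf2⟩ := three t0 t1 t2 (B t0) (B t1) (B t2) (by
    have h0 := hB t0 t0
    have h1 := hB t1 t1
    have h2 := hB t2 t2
    simp only [sub_self] at h0 h1 h2
    simp only [Q]
    linear_combination h1 - h0 + Complex.I * (h2 - h0))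
  choose z w hz hw h1 h2 using fun r => Q_zero t0 t1 t2 (hf2 r)
  have hz0 : ∀ r, z r ≠ 0 := fun r => norm_ne_zero_iff.1 (by rw [hz]; norm_num)
  have hw0 : ∀ r, w r ≠ 0 := fun r => norm_ne_zero_iff.1 (by rw [hw]; norm_num)
  have hzc : ∀ r, conj (z r) = (z r)⁻¹ := fun r => (Complex.inv_eq_conj (hz r)).symm
  have hwc : ∀ r, conj (w r) = (w r)⁻¹ := fun r => (Complex.inv_eq_conj (hw r)).symm
  let v : Fin 3 → (Fin 2 → ℤ) → ℂ := fun r k => z r ^ k 0 * w r ^ k 1 * f r t0
  have hv : ∀ i j : Fin 2 → ℤ, ∑ r, conj (v r (i - j)) * f r t0 = ∑ r, conj (v r i) * v r j := by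
    intro i j
    refine Finset.sum_congr rfl fun r _ => ?_
    have := hz0 r
    have := hw0 r
    simp only [v, map_mul, map_zpow₀, hzc, hwc, Pi.sub_apply, zpow_sub₀ (inv_ne_zero (hz0 r)),
      zpow_sub₀ (inv_ne_zero (hw0 r)), inv_zpow]
    field_simp
  refine ⟨fun l => ∑ r, conj (v r l) * f r t0, fun i hi j hj => ?_,
    posT_of_gram (fun r k => v r k.1) fun i j => hv i j⟩
  have hvf : ∀ r (i : tri), v r i = f r i := fun r i => by
    rcases tri_cases i with rfl | rfl | rfl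
    · simp [v, t0]
    · rw [h1]; simp [v, t1, e1]
    · rw [h2]; simp [v, t2, e2]
  dsimp only
  rw [hv, hB ⟨i, hi⟩ ⟨j, hj⟩, ← hf1]
  exact Finset.sum_congr rfl fun r _ => by rw [hvf r ⟨i, hi⟩, hvf r ⟨j, hj⟩]

end Pool.Agent.H95.Toep
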