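import Pool.Agent.H95.UFDefs

namespace Pool.Agent.H95.UF
open SimpleGraph Finset

def ix (u v : Fin 7) : Option (Fin 11) :=
  ![![none, some 0, some 1, some 2, some 3, some 4, some 5], ![some 0, none, some 6, some 7, some 8, some 9, some 10],
    ![some 1, some 6, none, none, none, none, none], ![some 2, some 7, none, none, none, none, none],
    ![some 3, some 8, none, none, none, none, none], ![some 4, some 9, none, none, none, none, none],
    ![some 5, some 10, none, none, none, none, none]] u v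

def ed : Fin 11 → Fin 7 × Fin 7 :=
  ![(0, 1), (0, 2), (0, 3), (0, 4), (0, 5), (0, 6), (1, 2), (1, 3), (1, 4), (1, 5), (1, 6)]

def ad (b : Fin 11 → Bool) (u v : Fin 7) : Bool := (ix u v).elim false b

theorem ixs : ∀ u v, ix u v = ix v u := by decide
theorem ixe : ∀ i, ix (ed i).1 (ed i).2 = some i := by decide
theorem ixi : ∀ u v i, ix u v = some i → (u, v) = ed i ∨ (v, u) = ed i := by decide

def Φ (b : Fin 11 → Bool) : SimpleGraph (Fin 7) where
  Adj u v := ad b u v = true
  symm := ⟨fun u v h => by rwa [ad, ixs]⟩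
  loopless := ⟨fun u => by fin_cases u <;> simp [ad, ix]⟩

instance (b : Fin 11 → Bool) : DecidableRel (Φ b).Adj := fun _ _ => inferInstanceAs (Decidable (_ = true))

def G0 : SimpleGraph (Fin 7) := Φ fun _ => true

theorem count (P : SimpleGraph (Fin 7) → Prop) (p : (Fin 11 → Bool) → Bool) (h : ∀ b, P (Φ b) ↔ p b = true) :
    {H | H ≤ G0 ∧ P H}.ncard = (univ.filter fun b => p b = true).card := by
  classical
  rw [← Set.ncard_coe_finset, ← Set.ncard_image_of_injective _ (f := Φ) fun a b e => funext fun i => by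
    have := congrArg (fun H : SimpleGraph (Fin 7) => H.Adj (ed i).1 (ed i).2) e
    simpa [Φ, ad, ixe] using this]
  congr 1; ext H
  simp only [Set.mem_setOf_eq, coe_filter, mem_univ, true_and, Set.mem_image, ← h]
  refine ⟨fun ⟨a, c⟩ => ?_, ?_⟩
  · have : Φ (fun i => decide (H.Adj (ed i).1 (ed i).2)) = H := by
      ext u v
      have := @a u v
      simp only [G0, Φ, ad] at *
      rcases e : ix u v with _ | i
      · simpa [e] using this
      · rcases ixi u v i e with e | e <;> simp [← e, H.adj_comm]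
    exact ⟨_, this.symm ▸ c, this⟩
  · rintro ⟨b, c, rfl⟩
    refine ⟨fun u v => ?_, c⟩
    simp only [G0, Φ, ad]; cases ix u v <;> simp

def good (b : Fin 11 → Bool) : Bool :=
  ((b 0).toNat + (b 1 && b 6).toNat + (b 2 && b 7).toNat + (b 3 && b 8).toNat + (b 4 && b 9).toNat +
    (b 5 && b 10).toNat).ble 1

def cut (b : Fin 11 → Bool) (u v w : Fin 7) : Bool :=
  if 2 ≤ max u v ∧ !(ad b 0 (max u v) && ad b 1 (max u v)) then w = max u v
  else w = 0 || (ad b 0 w && !ad b 1 w && w ≠ 1) || (min u v = 1 && w = max u v)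

theorem c1 : ∀ b, good b = true → ∀ i, b i = true → cut b (ed i).1 (ed i).2 (ed i).1 ≠ cut b (ed i).1 (ed i).2 (ed i).2 ∧
    ∀ j, b j = true → j ≠ i → cut b (ed i).1 (ed i).2 (ed j).1 = cut b (ed i).1 (ed i).2 (ed j).2 := by
  decide +kernel

theorem c2 : ∀ b, good b = false → ∃ v w, 2 ≤ v ∧ ad b 0 v = true ∧ ad b v 1 = true ∧ w ≠ v ∧ ad b 0 w = true ∧
    (w = 1 ∨ ad b w 1 = true) := by decide +kernel

theorem EE (b : Fin 11 → Bool) (x y : Fin 7) (a : (Φ b).Adj x y) :
    ∃ i, b i = true ∧ s(x, y) = s((ed i).1, (ed i).2) := by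
  simp only [Φ, ad] at a
  rcases e : ix x y with _ | i
  · simp [e] at a
  · exact ⟨i, by simpa [e] using a, by rcases ixi x y i e with e | e <;> simp [← e]⟩

theorem ec (b : Fin 11 → Bool) : (Φ b).edgeSet.ncard = (univ.filter fun i => b i = true).card := by
  rw [← Set.ncard_coe_finset, ← Set.ncard_image_of_injective _ (f := fun i => s((ed i).1, (ed i).2)) (by decide)]
  congr 1; ext e
  induction e using Sym2.ind with | _ x y
  simp only [mem_edgeSet, coe_filter, mem_univ, true_and, Set.mem_image, Set.mem_setOf_eq]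
  refine ⟨fun a => (EE b x y a).imp fun i h => ⟨h.1, h.2.symm⟩, fun ⟨i, h, e⟩ => ?_⟩
  rw [← mem_edgeSet, ← e]; simpa [Φ, ad, ixe] using h

theorem acy (b : Fin 11 → Bool) : (Φ b).IsAcyclic ↔ good b = true := by
  rw [isAcyclic_iff_forall_adj_isBridge]
  refine ⟨fun h => by_contra fun g => ?_, fun g u v a => ?_⟩
  · obtain ⟨v, w, h1, h2, h3, h4, h5, h6⟩ := c2 b (by simpa using g)
    refine isBridge_iff.1 (h h2) ?_
    have a : ∀ x y, ad b x y = true → s(x, y) ≠ s(0, v) → ((Φ b).deleteEdges {s(0, v)}).Reachable x y :=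
      fun x y p q => Adj.reachable (deleteEdges_adj.2 ⟨p, q⟩)
    have v0 : v ≠ 0 := by rintro rfl; simp at h1
    have v1 : v ≠ 1 := by rintro rfl; simp at h1
    refine (a 0 w h5 (by simp [h4, v0.symm])).trans (Reachable.trans ?_ (a v 1 h3 (by simp [v0])).symm)
    rcases h6 with rfl | h6
    · rfl
    · exact a w 1 h6 (by simp [v1.symm])
  · obtain ⟨i, hi, e⟩ := EE b u v a
    rw [e, isBridge_iff]
    intro r
    refine (c1 b g i hi).1 ?_
    rw [reachable_iff_reflTransGen] at r
    have := (c1 b g i hi).2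
    generalize cut b (ed i).1 (ed i).2 = f at *
    generalize hs : s((ed i).1, (ed i).2) = t at r
    generalize (ed i).2 = y at r ⊢
    induction r with
    | refl => rfl
    | tail _ h ih =>
      rw [ih]
      obtain ⟨h1, h2⟩ := deleteEdges_adj.1 h
      obtain ⟨j, hj, e'⟩ := EE b _ _ h1
      have := this j hj (by rintro rfl; exact h2 (e'.trans hs))
      rcases Sym2.eq_iff.1 e' with ⟨rfl, rfl⟩ | ⟨rfl, rfl⟩
      exacts [this, this.symm]

theorem mg (k : ℕ) : marg (forests G0 k) s(0, 1) =
    ((univ.filter fun b : Fin 11 → Bool => (good b && (univ.filter fun i => b i = true).card + k == 7 && b 0) = true).card : ℚ) /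
    (univ.filter fun b : Fin 11 → Bool => (good b && (univ.filter fun i => b i = true).card + k == 7) = true).card := by
  rw [← count (fun H => (H.IsAcyclic ∧ H.edgeSet.ncard + k = Fintype.card (Fin 7)) ∧ s(0, 1) ∈ H.edgeSet) _
    fun b => by simp [acy, ec]; intros; rfl, ← count (fun H => H.IsAcyclic ∧ H.edgeSet.ncard + k = Fintype.card (Fin 7)) _
    fun b => by simp [acy, ec]]
  simp only [marg, forests, Set.mem_setOf_eq, and_assoc]

theorem cnt : ∀ k : Fin 2,
    (univ.filter fun b : Fin 11 → Bool => (good b && (univ.filter fun i => b i = true).card + (k + 1) == 7 && b 0) = true).card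
      = 32 + 48 * k ∧
    (univ.filter fun b : Fin 11 → Bool => (good b && (univ.filter fun i => b i = true).card + (k + 1) == 7) = true).card
      = 112 + 160 * k := by decide +kernel

theorem m1 : marg (forests G0 1) s(0, 1) = 32 / 112 :=
  (mg 1).trans (congrArg₂ (fun a b : ℕ => (a : ℚ) / b) (cnt 0).1 (cnt 0).2)
theorem m2 : marg (forests G0 2) s(0, 1) = 80 / 272 :=
  (mg 2).trans (congrArg₂ (fun a b : ℕ => (a : ℚ) / b) (cnt 1).1 (cnt 1).2)

theorem conn : G0.Connected := by
  have : ∀ v, G0.Reachable 0 v := fun v => by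
    rcases eq_or_ne v 0 with rfl | h
    · rfl
    · refine Adj.reachable ?_
      revert v; unfold G0; decide
  exact ⟨fun u v => (this u).symm.trans (this v)⟩

theorem main : G0.Connected ∧ s(0, 1) ∈ G0.edgeSet ∧ G0.edgeSet.ncard = 11 ∧
    marg (forests G0 1) s(0, 1) < marg (forests G0 2) s(0, 1) :=
  ⟨conn, rfl, (ec _).trans (by decide), by rw [m1, m2]; norm_num⟩

end Pool.Agent.H95.UF
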