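import Mathlib

namespace Pool.Agent.H95.UF

variable {V : Type} [Fintype V] (G : SimpleGraph V)

/-- spanning forests of `G` with `k` components, that is with `|V| - k` edges -/
def forests (k : ℕ) : Set (SimpleGraph V) :=
  {H | H ≤ G ∧ H.IsAcyclic ∧ H.edgeSet.ncard + k = Fintype.card V}

/-- probability that `e` lies in a uniformly random member of the family `S` -/
noncomputable def marg (S : Set (SimpleGraph V)) (e : Sym2 V) : ℚ :=
  ({H ∈ S | e ∈ H.edgeSet}.ncard : ℚ) / S.ncard

end Pool.Agent.H95.UF
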