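import Pool.Agent.H95.UncDefs

set_option autoImplicit false

namespace Pool.Agent.H95.Unc

open MeasureTheory FourierTransform Complex Finset

noncomputable def box (r x : ℝ) : ℝ := if |x| ≤ r then 1 else 0

noncomputable def S (n : ℕ) (r d : ℕ → ℝ) (x : ℝ) : ℝ := ∑ k ∈ range n, d k * box (r k) x

variable {E : Type} [NormedAddCommGroup E] [NormedSpace ℝ E]

lemma box_smul (r : ℝ) (φ : ℝ → E) : (fun x => box r x • φ x) = (Set.Icc (-r) r).indicator φ := by
  ext x
  by_cases h : |x| ≤ r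
  · rw [box, if_pos h, one_smul, Set.indicator_of_mem (Set.mem_Icc.2 (abs_le.1 h))]
  · rw [box, if_neg h, zero_smul, Set.indicator_of_notMem fun h' =>
      h (abs_le.2 (Set.mem_Icc.1 h'))]

lemma int_S (n : ℕ) (r d : ℕ → ℝ) (hr : ∀ k, 0 ≤ r k) (φ : ℝ → E) (hφ : Continuous φ) :
    Integrable (fun x => S n r d x • φ x) ∧
      ∫ x, S n r d x • φ x = ∑ k ∈ range n, d k • ∫ x in (-r k)..r k, φ x := by
  have i : ∀ k, Integrable fun x => d k • (box (r k) x • φ x) := fun k => by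
    refine Integrable.smul (d k) ?_
    rw [box_smul, integrable_indicator_iff measurableSet_Icc]
    exact hφ.integrableOn_Icc
  simp only [S, sum_smul, mul_smul]
  refine ⟨integrable_finset_sum _ fun k _ => i k, ?_⟩
  rw [integral_finset_sum _ fun k _ => i k]
  refine sum_congr rfl fun k _ => ?_
  rw [integral_smul, box_smul, integral_indicator measurableSet_Icc, integral_Icc_eq_integral_Ioc,
    intervalIntegral.integral_of_le (by linarith [hr k])]

lemma four (n : ℕ) (r d : ℕ → ℝ) (hr : ∀ k, 0 ≤ r k) (ξ : ℝ) :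
    (ξ : ℂ) * 𝓕 (fun x => (S n r d x : ℂ)) ξ =
      ((∑ k ∈ range n, d k * Real.sin (2 * Real.pi * r k * ξ)) / Real.pi : ℝ) := by
  rcases eq_or_ne ξ 0 with rfl | h
  · simp
  have hp : (Real.pi : ℂ) ≠ 0 := ofReal_ne_zero.2 Real.pi_ne_zero
  have hx : (ξ : ℂ) ≠ 0 := ofReal_ne_zero.2 h
  have := (int_S n r d hr (fun x : ℝ => exp (-2 * Real.pi * ξ * I * x)) (by fun_prop)).2
  rw [Real.fourier_real_eq_integral_exp_smul]
  have e : ∀ x : ℝ, exp (↑(-2 * Real.pi * x * ξ) * I) • (S n r d x : ℂ) =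
      S n r d x • exp (-2 * Real.pi * ξ * I * x) := fun x => by
    rw [smul_eq_mul, real_smul, mul_comm]
    congr 2
    push_cast; ring
  simp only [e]
  rw [this, mul_sum]
  push_cast
  rw [sum_div]
  refine sum_congr rfl fun k _ => ?_
  rw [integral_exp_mul_complex (by simp [h, Real.pi_ne_zero]), real_smul, Complex.sin]
  push_cast
  rw [show -2 * (Real.pi : ℂ) * ξ * I * -r k = 2 * Real.pi * r k * ξ * I by ring,
    show -2 * (Real.pi : ℂ) * ξ * I * r k = -(2 * Real.pi * r k * ξ) * I by ring]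
  field_simp
  ring_nf
  simp only [I_sq]
  ring

lemma norms (n : ℕ) (r d e : ℕ → ℝ) (hr : ∀ k, 0 ≤ r k) (he : ∀ x, |S n r d x| = S n r e x) :
    eLpNorm (fun x => (S n r d x : ℂ)) 1 volume = .ofReal (∑ k ∈ range n, e k * (2 * r k)) ∧
    eLpNorm (fun x : ℝ => ((|x| ^ (2 : ℝ) : ℝ) : ℂ) * (S n r d x : ℂ)) 1 volume =
      .ofReal (∑ k ∈ range n, e k * (2 * r k ^ 3 / 3)) := by
  have key : ∀ (φ : ℝ → ℝ) (f : ℝ → ℂ), Continuous φ → (∀ x, ‖f x‖ = S n r e x • φ x) →
      eLpNorm f 1 volume = .ofReal (∑ k ∈ range n, e k • ∫ x in (-r k)..r k, φ x) := by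
    intro φ f h1 h2
    rw [eLpNorm_one_eq_lintegral_enorm, ← (int_S n r e hr φ h1).2,
      ofReal_integral_eq_lintegral_ofReal (int_S n r e hr φ h1).1
        (ae_of_all _ fun x => (norm_nonneg _).trans (h2 x).le)]
    simp only [← h2, ofReal_norm_eq_enorm]
  constructor
  · rw [key (fun _ => 1) _ continuous_const fun x => by simp [he]]
    congr 1
    refine sum_congr rfl fun k _ => ?_
    simp; ring_nf; simp
  · rw [key (fun x => x ^ 2) _ (by fun_prop) fun x => by simp [he, mul_comm]]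
    congr 1
    refine sum_congr rfl fun k _ => ?_
    rw [integral_pow, smul_eq_mul]; ring

/-- Horner evaluation. -/
noncomputable def ev : List ℤ → ℂ → ℂ
  | [], _ => 0
  | a :: l, w => a + w * ev l w

def add : List ℤ → List ℤ → List ℤ
  | [], m => m
  | a :: l, [] => a :: l
  | a :: l, b :: m => (a + b) :: add l m

def mul : List ℤ → List ℤ → List ℤ
  | [], _ => []
  | a :: l, m => add (m.map (a * ·)) (0 :: mul l m)

lemma ev_add (l m : List ℤ) (w : ℂ) : ev (add l m) w = ev l w + ev m w := by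
  induction l generalizing m with
  | nil => simp [add, ev]
  | cons a l ih => cases m with
    | nil => simp [add, ev]
    | cons b m => simp [add, ev, ih]; ring

lemma ev_map (a : ℤ) (m : List ℤ) (w : ℂ) : ev (m.map (a * ·)) w = a * ev m w := by
  induction m with
  | nil => simp [ev]
  | cons b m ih => simp only [List.map_cons, ev, ih]; push_cast; ring

lemma ev_mul (l m : List ℤ) (w : ℂ) : ev (mul l m) w = ev l w * ev m w := by
  induction l with
  | nil => simp [mul, ev]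
  | cons a l ih => simp only [mul, ev_add, ev_map, ev, ih]; push_cast; ring

lemma ev_norm (l : List ℤ) (w : ℂ) (hw : ‖w‖ = 1) : ‖ev l w‖ ≤ ((l.map (|·|)).sum : ℤ) := by
  induction l with
  | nil => simp [ev]
  | cons a l ih =>
    refine (norm_add_le _ _).trans ?_
    rw [norm_mul, hw, one_mul, List.map_cons, List.sum_cons, Int.cast_add, norm_intCast,
      Int.cast_abs]
    linarith

lemma ev_app (l : List ℤ) (a : ℤ) (w : ℂ) : ev (l ++ [a]) w = ev l w + a * w ^ l.length := by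
  induction l with
  | nil => simp [ev]
  | cons b l ih => simp [ev, ih]; ring

lemma ev_rev (l : List ℤ) (w : ℂ) (hw : w * (starRingEnd ℂ) w = 1) :
    w * ev l.reverse w = w ^ l.length * (starRingEnd ℂ) (ev l w) := by
  induction l with
  | nil => simp [ev]
  | cons b l ih =>
    simp only [List.reverse_cons, ev_app, ev, mul_add, ih, List.length_reverse, List.length_cons,
      map_add, map_mul, map_intCast]
    linear_combination -(w ^ l.length * (starRingEnd ℂ) (ev l w)) * hw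

def P : List ℤ := [-5, -9, -11, -12, -13, -14, -15, -14, -14, -12, -9, -5, 1, 10, 31, 121, -121,
  -31, -10, -1, 5, 9, 12, 14, 14, 15, 14, 13, 12, 11, 9, 5]

def Q : List ℤ := [668, 233, 193, 72, 38, 6, 24, 13, -63, 24, -26, -29, -7, 31, 21, -100, -188, 29,
  95, 124, 136, 136, 128, 115, 99, 82, 65, 49, 36, 23, 12, 4]

lemma boundP (w : ℂ) (hw : ‖w‖ = 1) : ‖ev P w‖ ≤ 206 := by
  have h1 : w * (starRingEnd ℂ) w = 1 := by rw [mul_conj', hw]; simp
  have h2 := ev_norm (add (mul Q Q.reverse) ((mul P P.reverse).map (100 * ·))) w hw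
  rw [show ((add (mul Q Q.reverse) ((mul P P.reverse).map (100 * ·))).map (|·|)).sum = 4192069 by
    decide +kernel] at h2
  have h3 : w * ev (add (mul Q Q.reverse) ((mul P P.reverse).map (100 * ·))) w =
      w ^ 32 * ((‖ev Q w‖ ^ 2 + 100 * ‖ev P w‖ ^ 2 : ℝ) : ℂ) := by
    have a := ev_rev Q w h1
    have b := ev_rev P w h1
    rw [show Q.length = 32 from rfl] at a
    rw [show P.length = 32 from rfl] at b
    rw [ev_add, ev_map, ev_mul, ev_mul]
    push_cast
    rw [← mul_conj', ← mul_conj']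
    linear_combination ev Q w * a + 100 * ev P w * b
  have h4 := congrArg norm h3
  rw [norm_mul, norm_mul, norm_pow, hw, one_pow, one_mul, one_mul, norm_real,
    Real.norm_of_nonneg (by positivity)] at h4
  rw [h4] at h2
  push_cast at h2
  nlinarith [norm_nonneg (ev P w), sq_nonneg ‖ev Q w‖]

def dl : List ℤ := [-121, -31, -10, -1, 5, 9, 12, 14, 14, 15, 14, 13, 12, 11, 9, 5]

noncomputable def d (k : ℕ) : ℝ := (dl.getD k 0 : ℤ)

noncomputable def e (k : ℕ) : ℝ := (dl.getD k 0 + if k = 0 then 60 else 0 : ℤ)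

noncomputable def r (k : ℕ) : ℝ := (2 * k + 1) / 62

lemma boundS (θ : ℝ) : |∑ k ∈ range 16, d k * Real.sin ((2 * k + 1) * θ)| ≤ 103 := by
  set z := exp (θ * I) with hz
  have z1 : ‖z‖ = 1 := norm_exp_ofReal_mul_I θ
  have z0 : z ≠ 0 := exp_ne_zero _
  have s : ∀ k : ℕ, (Real.sin ((2 * k + 1) * θ) : ℂ) = (z⁻¹ ^ (2 * k + 1) - z ^ (2 * k + 1)) * I / 2 :=
    fun k => by
      rw [ofReal_sin, Complex.sin, hz, ← exp_neg, ← exp_nat_mul, ← exp_nat_mul]
      congr 4 <;> push_cast <;> ring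
  have h : ((∑ k ∈ range 16, d k * Real.sin ((2 * k + 1) * θ) : ℝ) : ℂ) * z ^ 31 =
      ev P (z ^ 2) * (-I / 2) := by
    rw [ofReal_sum]
    simp only [ofReal_mul _ (Real.sin _), s]
    simp only [sum_range_succ, sum_range_zero, d, dl, List.getD_cons_succ, List.getD_cons_zero, P, ev]
    push_cast
    field_simp
    ring
  have h2 := congrArg norm h
  rw [norm_mul, norm_mul, norm_pow, z1, one_pow, mul_one, norm_real, Real.norm_eq_abs] at h2
  have := boundP (z ^ 2) (by rw [norm_pow, z1, one_pow])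
  rw [h2]
  simp
  linarith

lemma S_eq (a : ℕ → ℝ) (x : ℝ) :
    S 16 r a x = ∑ k ∈ range 16, if ⌈31 * |x| - 1 / 2⌉₊ ≤ k then a k else 0 := by
  refine sum_congr rfl fun k _ => ?_
  have : |x| ≤ r k ↔ ⌈31 * |x| - 1 / 2⌉₊ ≤ k := by
    rw [Nat.ceil_le, r]
    constructor <;> intro h <;> linarith
  simp only [box, this]
  split_ifs <;> simp

def F (m : ℕ) : ℤ := ∑ k ∈ range 16, if m ≤ k then dl.getD k 0 else 0

def G (m : ℕ) : ℤ := ∑ k ∈ range 16, if m ≤ k then dl.getD k 0 + (if k = 0 then 60 else 0) else 0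

lemma FG (m : ℕ) : |F m| = G m ∧ (m ≤ 15 → F m ≠ 0) ∧ (15 < m → F m = 0) := by
  by_cases h : m < 16
  · revert m; decide
  · have : ∀ k ∈ range 16, ¬m ≤ k := fun k hk => by have := mem_range.1 hk; omega
    rw [F, G, sum_congr rfl fun k hk => if_neg (this k hk),
      sum_congr rfl fun k hk => if_neg (this k hk)]
    simp; omega

lemma Sd (x : ℝ) : S 16 r d x = F ⌈31 * |x| - 1 / 2⌉₊ := by
  rw [S_eq, F]; push_cast; rfl

lemma Se (x : ℝ) : S 16 r e x = G ⌈31 * |x| - 1 / 2⌉₊ := by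
  rw [S_eq, G, Int.cast_sum]
  refine sum_congr rfl fun k _ => ?_
  rw [apply_ite Int.cast, Int.cast_zero, e]

theorem main : ∃ u : ℝ → ℝ, Integrable u ∧ (∀ x ∉ Set.Icc (-1 / 2 : ℝ) (1 / 2), u x = 0) ∧
    (∀ x ∈ Set.Icc (-1 / 2 : ℝ) (1 / 2), u x ≠ 0) ∧ Phi 2 (fun x => u x) < Phi 2 chi := by
  have hr : ∀ k, 0 ≤ r k := fun k => by unfold r; positivity
  have pi := Real.pi_pos
  refine ⟨S 16 r d, by simpa using (int_S 16 r d hr (fun _ => (1 : ℝ)) continuous_const).1,
    fun x hx => ?_, fun x hx => ?_, ?_⟩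
  · rw [Sd, (FG _).2.2, Int.cast_zero]
    rw [Nat.lt_ceil]
    have : ¬|x| ≤ 1 / 2 := fun h => hx ⟨by linarith [(abs_le.1 h).1], (abs_le.1 h).2⟩
    push_cast
    linarith [not_le.1 this]
  · rw [Sd, Int.cast_ne_zero]
    refine (FG _).2.1 (Nat.ceil_le.2 ?_)
    have : |x| ≤ 1 / 2 := abs_le.2 ⟨by linarith [hx.1], hx.2⟩
    push_cast
    linarith
  have c : chi = fun x => (S 1 (fun _ => 1 / 2) (fun _ => 1) x : ℂ) := by
    ext x
    have := congrFun (box_smul (1 / 2) (1 : ℝ → ℂ)) x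
    rw [chi, neg_div, ← this]
    simp [S]
  obtain ⟨n1, n2⟩ := norms 16 r d e hr fun x => by rw [Sd, Se, ← (FG _).1, Int.cast_abs]
  obtain ⟨m1, m2⟩ := norms 1 (fun _ => 1 / 2) (fun _ => 1) (fun _ => 1) (fun _ => by norm_num)
    fun x => by simp only [S, box, sum_range_one]; split_ifs <;> simp
  have A1 : eLpNorm (fun ξ : ℝ => (ξ : ℂ) * 𝓕 (fun x => (S 16 r d x : ℂ)) ξ) ⊤ volume ≤
      .ofReal (103 / Real.pi) := by
    rw [eLpNorm_exponent_top]
    refine eLpNormEssSup_le_of_ae_bound (ae_of_all _ fun ξ => ?_)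
    rw [four 16 r d hr, norm_real, Real.norm_eq_abs, abs_div, abs_of_pos pi]
    gcongr
    refine le_trans (le_of_eq ?_) (boundS (Real.pi * ξ / 31))
    congr 1
    refine sum_congr rfl fun k _ => ?_
    congr 2
    rw [r]; ring
  have A2 : .ofReal (1 / Real.pi) ≤ eLpNorm (fun ξ : ℝ => (ξ : ℂ) *
      𝓕 (fun x => (S 1 (fun _ => 1 / 2) (fun _ => 1) x : ℂ)) ξ) ⊤ volume := by
    simp only [four 1 (fun _ => 1 / 2) (fun _ => 1) fun _ => by norm_num, eLpNorm_exponent_top]
    set f : ℝ → ℂ := fun ξ => ((∑ k ∈ range 1, 1 * Real.sin (2 * Real.pi * (1 / 2) * ξ)) /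
      Real.pi : ℝ) with hf
    have cl : IsClosed {y | ‖f y‖ₑ ≤ eLpNormEssSup f volume} :=
      isClosed_le (by rw [hf]; fun_prop) continuous_const
    have : (1 / 2 : ℝ) ∈ {y | ‖f y‖ₑ ≤ eLpNormEssSup f volume} :=
      cl.closure_subset (Measure.dense_of_ae ae_le_eLpNormEssSup _)
    refine le_trans (le_of_eq ?_) this
    rw [← ofReal_norm_eq_enorm, hf, norm_real, sum_range_one, show 2 * Real.pi * (1 / 2) * (1 / 2) =
      Real.pi / 2 by ring, Real.sin_pi_div_two, Real.norm_of_nonneg (by positivity), one_mul]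
  have e1 : ∑ k ∈ range 16, e k * (2 * r k) = 2428 / 31 := by
    simp [sum_range_succ, e, r, dl]; norm_num
  have e2 : ∑ k ∈ range 16, e k * (2 * r k ^ 3 / 3) = 329677 / 89373 := by
    simp [sum_range_succ, e, r, dl]; norm_num
  rw [Phi, Phi, c, n1, n2, m1, m2, e1, e2, sum_range_one, sum_range_one]
  calc _ ≤ ENNReal.ofReal (103 / Real.pi) ^ (2 : ℝ) * .ofReal (329677 / 89373) /
        .ofReal (2428 / 31) ^ (2 + 1 : ℝ) := by gcongr
    _ < ENNReal.ofReal (1 / Real.pi) ^ (2 : ℝ) * .ofReal (1 * (2 * (1 / 2) ^ 3 / 3)) /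
        .ofReal (1 * (2 * (1 / 2))) ^ (2 + 1 : ℝ) := by
      rw [ENNReal.ofReal_rpow_of_pos (by positivity), ENNReal.ofReal_rpow_of_pos (by positivity),
        ENNReal.ofReal_rpow_of_pos (by positivity), ENNReal.ofReal_rpow_of_pos (by positivity),
        ← ENNReal.ofReal_mul (by positivity), ← ENNReal.ofReal_mul (by positivity),
        ← ENNReal.ofReal_div_of_pos (by positivity), ← ENNReal.ofReal_div_of_pos (by positivity),
        ENNReal.ofReal_lt_ofReal_iff (by positivity), show (2 + 1 : ℝ) = (3 : ℕ) by norm_num]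
      simp only [Real.rpow_two, Real.rpow_natCast]
      field_simp
      norm_num
    _ ≤ _ := by gcongr

end Pool.Agent.H95.Unc
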