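import Mathlib

set_option autoImplicit false

namespace Pool.Agent.H95.Unc

open MeasureTheory FourierTransform

/-- The uncertainty quotient with `β = 1`, `n = 1`. -/
noncomputable def Phi (α : ℝ) (u : ℝ → ℂ) : ENNReal :=
  eLpNorm (fun ξ : ℝ => (ξ : ℂ) * 𝓕 u ξ) ⊤ volume ^ α *
    eLpNorm (fun x : ℝ => ((|x| ^ α : ℝ) : ℂ) * u x) 1 volume / eLpNorm u 1 volume ^ (α + 1)

/-- The indicator of `[-1/2, 1/2]`. -/
noncomputable def chi : ℝ → ℂ := Set.indicator (Set.Icc (-1 / 2) (1 / 2)) 1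

end Pool.Agent.H95.Unc
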