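import Mathlib

set_option autoImplicit false

open Filter Topology Set Metric ComplexConjugate Polynomial Real

namespace Pool.Agent.H95.VonNeumann

variable {E : Type*} [NormedAddCommGroup E] [InnerProductSpace ℂ E] [CompleteSpace E]

noncomputable def R (T : E →L[ℂ] E) (w : ℂ) : E →L[ℂ] E := Ring.inverse (1 - w • T)

lemma unit {T : E →L[ℂ] E} (hT : ‖T‖ < 1) {w : ℂ} (hw : ‖w‖ ≤ 1) : IsUnit (1 - w • T) := by
  have : ‖w • T‖ < 1 := by
    rw [norm_smul]; nlinarith [norm_nonneg T, norm_nonneg w]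
  exact (Units.oneSub _ this).isUnit

lemma R_diff {T : E →L[ℂ] E} (hT : ‖T‖ < 1) {w : ℂ} (hw : ‖w‖ ≤ 1) :
    DifferentiableAt ℂ (R T) w := by
  obtain ⟨u, hu⟩ := unit hT hw
  have h1 : DifferentiableAt ℂ (Ring.inverse : (E →L[ℂ] E) → _) (1 - w • T) := by
    rw [← hu]; exact (hasFDerivAt_ringInverse u).differentiableAt
  exact h1.comp w (f := fun w : ℂ => 1 - w • T) (by fun_prop)

lemma R_eq {T : E →L[ℂ] E} (hT : ‖T‖ < 1) {w : ℂ} (hw : ‖w‖ ≤ 1) (x : E) :
    R T w x = x + w • R T w (T x) := by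
  have h := congrArg (fun S : E →L[ℂ] E => S x) (Ring.inverse_mul_cancel _ (unit hT hw))
  simp only [mul_apply_eq_comp, ContinuousLinearMap.sub_apply, ContinuousLinearMap.one_apply,
    ContinuousLinearMap.smul_apply, map_sub, map_smul] at h
  exact sub_eq_iff_eq_add.1 h

lemma R_eq' {T : E →L[ℂ] E} (hT : ‖T‖ < 1) {w : ℂ} (hw : ‖w‖ ≤ 1) (x : E) :
    R T w x - w • T (R T w x) = x := by
  have h := congrArg (fun S : E →L[ℂ] E => S x) (Ring.mul_inverse_cancel _ (unit hT hw))
  simp only [mul_apply_eq_comp, ContinuousLinearMap.sub_apply, ContinuousLinearMap.one_apply,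
    ContinuousLinearMap.smul_apply] at h
  exact h

lemma avg_an {f : ℂ → ℂ} (hf : ∀ w, ‖w‖ ≤ 1 → DifferentiableAt ℂ f w) :
    circleAverage f 0 1 = f 0 := by
  apply DiffContOnCl.circleAverage
  apply DifferentiableOn.diffContOnCl
  intro w hw
  rw [abs_one, closure_ball _ one_ne_zero, mem_closedBall_zero_iff] at hw
  exact (hf w hw).differentiableWithinAt

lemma integ {F : Type*} [NormedAddCommGroup F] {f : ℂ → F}
    (hf : ∀ w, ‖w‖ ≤ 1 → ContinuousAt f w) : CircleIntegrable f 0 1 :=
  ContinuousOn.circleIntegrable zero_le_one fun w hw =>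
    (hf w (mem_sphere_zero_iff_norm.1 hw).le).continuousWithinAt

lemma avg_conj {f : ℂ → ℂ} (hf : ∀ w, ‖w‖ ≤ 1 → DifferentiableAt ℂ f w) :
    circleAverage (fun w => conj (f w)) 0 1 = conj (f 0) := by
  rw [← avg_an hf]
  exact (Complex.conjCLE : ℂ →L[ℝ] ℂ).circleAverage_comp_comm
    (integ fun w hw => (hf w hw).continuousAt)

lemma a_diff {T : E →L[ℂ] E} (hT : ‖T‖ < 1) (y x : E) (w : ℂ) (hw : ‖w‖ ≤ 1) :
    DifferentiableAt ℂ (fun w => inner ℂ y (R T w x)) w :=
  (innerSL ℂ y).differentiableAt.comp w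
    ((ContinuousLinearMap.apply ℂ E x).differentiableAt.comp w (R_diff hT hw))

lemma avg_pow {T : E →L[ℂ] E} (hT : ‖T‖ < 1) (y : E) (k : ℕ) : ∀ x : E,
    circleAverage (fun w => conj w ^ k * inner ℂ y (R T w x)) 0 1 = inner ℂ y ((T ^ k) x) := by
  induction k with
  | zero =>
    intro x
    simp only [pow_zero, one_mul]
    rw [avg_an (a_diff hT y x)]
    simp [R]
  | succ k ih =>
    intro x
    have h1 : circleAverage (fun w => conj (w ^ (k + 1) * conj (inner ℂ y x))) 0 1 = _ :=
      avg_conj (f := fun w => w ^ (k + 1) * conj (inner ℂ y x)) fun w _ => by fun_prop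
    have hc : Continuous (conj : ℂ → ℂ) := Complex.continuous_conj
    simp only [ne_eq, Nat.add_eq_zero_iff, one_ne_zero, and_false, not_false_eq_true, zero_pow,
      zero_mul, map_zero] at h1
    have h3 := circleAverage_fun_add (c := 0) (R := 1)
      (f₁ := fun w => conj (w ^ (k + 1) * conj (inner ℂ y x)))
      (f₂ := fun w => conj w ^ k * inner ℂ y (R T w (T x))) (integ fun w _ => by fun_prop)
      (integ fun w hw => (hc.continuousAt.pow k).mul (a_diff hT y _ w hw).continuousAt)
    rw [h1, zero_add, ih] at h3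
    rw [pow_succ T, mul_apply_eq_comp, ← h3]
    apply circleAverage_congr_sphere
    intro w hw
    rw [abs_one, mem_sphere_zero_iff_norm] at hw
    have h2 : conj w * w = 1 := by rw [Complex.conj_mul', hw]; simp
    dsimp only
    rw [R_eq hT hw.le x, inner_add_right, inner_smul_right]
    simp only [map_mul, map_pow, Complex.conj_conj]
    linear_combination (conj w ^ k * inner ℂ y (R T w (T x))) * h2

omit [CompleteSpace E] in
lemma form_re {T : E →L[ℂ] E} (hT : ‖T‖ ≤ 1) (u v : E) (c : ℂ) (M : ℝ) (hc : ‖c‖ ≤ M) :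
    (c * (inner ℂ u v - inner ℂ (T u) (T v))).re ≤
      M / 2 * ((‖u‖ ^ 2 - ‖T u‖ ^ 2) + (‖v‖ ^ 2 - ‖T v‖ ^ 2)) := by
  have hn : ∀ z : E, 0 ≤ ‖z‖ ^ 2 - ‖T z‖ ^ 2 := fun z => by
    have := (T.le_of_opNorm_le hT z)
    rw [one_mul] at this
    nlinarith [norm_nonneg (T z)]
  obtain ⟨d, hd1, hd2⟩ := Complex.exists_norm_mul_eq_self c
  have h1 := hn (u - d • v)
  rw [map_sub, map_smul, @norm_sub_sq ℂ, @norm_sub_sq ℂ, norm_smul, norm_smul, hd1, one_mul,
    one_mul, inner_smul_right, inner_smul_right] at h1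
  have h2 : (c * (inner ℂ u v - inner ℂ (T u) (T v))).re =
      ‖c‖ * ((d * inner ℂ u v).re - (d * inner ℂ (T u) (T v)).re) := by
    rw [← Complex.sub_re, ← Complex.re_ofReal_mul]
    congr 1
    conv_lhs => rw [← hd2]
    ring
  simp only [RCLike.re_to_complex] at h1
  rw [h2]
  have h3 := hn u
  have h4 := hn v
  nlinarith [norm_nonneg c]

lemma strict {T : E →L[ℂ] E} (hT : ‖T‖ < 1) (p : ℂ[X]) (M : ℝ)
    (hM : ∀ z : ℂ, ‖z‖ = 1 → ‖p.eval z‖ ≤ M) (y x : E) :
    (inner ℂ y (aeval T p x)).re ≤ M / 2 * (‖y‖ ^ 2 + ‖x‖ ^ 2) := by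
  have hc : Continuous (conj : ℂ → ℂ) := Complex.continuous_conj
  have hB : ∀ (u v : E) (w : ℂ), ‖w‖ = 1 → inner ℂ (R T w u) (R T w v) -
      inner ℂ (T (R T w u)) (T (R T w v)) =
      inner ℂ u (R T w v) + conj (inner ℂ v (R T w u) - inner ℂ v u) := by
    intro u v w hw
    have h2 : conj w * w = 1 := by rw [Complex.conj_mul', hw]; simp
    have h3 := R_eq' hT hw.le u
    have h4 := R_eq' hT hw.le v
    generalize R T w u = a at *
    generalize R T w v = b at *
    subst h3 h4
    simp only [map_sub, inner_conj_symm, inner_sub_left, inner_sub_right, inner_smul_left,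
      inner_smul_right, map_mul, Complex.conj_conj]
    linear_combination (inner ℂ (T a) (T b)) * h2
  have hA : ∀ (q : ℂ[X]) (u v : E), circleAverage (fun w => q.eval (conj w) *
      (inner ℂ u (R T w v) + conj (inner ℂ v (R T w u) - inner ℂ v u))) 0 1 =
      inner ℂ u (aeval T q v) := by
    intro q u v
    have hi : ∀ w : ℂ, ‖w‖ ≤ 1 → ContinuousAt (fun w => inner ℂ u (R T w v) +
        conj (inner ℂ v (R T w u) - inner ℂ v u)) w := fun w hw =>
      (a_diff hT u v w hw).continuousAt.add (hc.continuousAt.comp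
        ((a_diff hT v u w hw).continuousAt.sub continuousAt_const))
    induction q using Polynomial.induction_on' with
    | add p q hp hq =>
      simp only [eval_add, add_mul, map_add, ContinuousLinearMap.add_apply, inner_add_right]
      rw [circleAverage_fun_add, hp, hq]
      · exact integ fun w hw => ((p.continuous.comp hc).continuousAt).mul (hi w hw)
      · exact integ fun w hw => ((q.continuous.comp hc).continuousAt).mul (hi w hw)
    | monomial k c =>
      have h1 := avg_conj (f := fun w => w ^ k * (inner ℂ v (R T w u) - inner ℂ v u))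
        fun w hw => DifferentiableAt.mul (by fun_prop) ((a_diff hT v u w hw).sub_const _)
      have h0 : R T 0 = 1 := by simp [R]
      simp only [h0, ContinuousLinearMap.one_apply, sub_self, mul_zero, map_zero] at h1
      have h3 := circleAverage_fun_add (c := 0) (R := 1)
        (f₁ := fun w => conj w ^ k * inner ℂ u (R T w v))
        (f₂ := fun w => conj (w ^ k * (inner ℂ v (R T w u) - inner ℂ v u)))
        (integ fun w hw => (hc.continuousAt.pow k).mul (a_diff hT u _ w hw).continuousAt)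
        (integ fun w hw => hc.continuousAt.comp ((continuousAt_id.pow k).mul
          ((a_diff hT v u w hw).continuousAt.sub continuousAt_const)))
      rw [h1, add_zero, avg_pow hT] at h3
      rw [aeval_monomial, ← Algebra.smul_def, ContinuousLinearMap.smul_apply, inner_smul_right,
        ← h3, ← smul_eq_mul c, ← circleAverage_fun_smul]
      congr 1
      ext w
      simp only [eval_monomial, smul_eq_mul, map_mul, map_pow]
      ring
  have hi : ∀ (q : ℂ[X]) (u v : E), CircleIntegrable (fun w => q.eval (conj w) *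
      (inner ℂ u (R T w v) + conj (inner ℂ v (R T w u) - inner ℂ v u))) 0 1 := fun q u v =>
    integ fun w hw => ((q.continuous.comp hc).continuousAt).mul
      ((a_diff hT u v w hw).continuousAt.add (hc.continuousAt.comp
        ((a_diff hT v u w hw).continuousAt.sub continuousAt_const)))
  have e1 := hA (C ((M / 2 : ℝ) : ℂ)) y y
  have e2 := hA (C ((M / 2 : ℝ) : ℂ)) x x
  have e3 := hA p y x
  have e4 := circleAverage_fun_sub ((hi (C ((M / 2 : ℝ) : ℂ)) y y).add
    (hi (C ((M / 2 : ℝ) : ℂ)) x x)) (hi p y x)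
  rw [circleAverage_add (hi _ _ _) (hi _ _ _), e1, e2, e3] at e4
  have e5 := Complex.reCLM.circleAverage_comp_comm (((hi (C ((M / 2 : ℝ) : ℂ)) y y).add
    (hi (C ((M / 2 : ℝ) : ℂ)) x x)).sub (hi p y x))
  have e6 := circleAverage_nonneg_of_nonneg (c := 0) (R := 1) (f := Complex.reCLM ∘
    (((fun w => (C ((M / 2 : ℝ) : ℂ)).eval (conj w) *
      (inner ℂ y (R T w y) + conj (inner ℂ y (R T w y) - inner ℂ y y))) +
      (fun w => (C ((M / 2 : ℝ) : ℂ)).eval (conj w) *
      (inner ℂ x (R T w x) + conj (inner ℂ x (R T w x) - inner ℂ x x)))) -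
      (fun w => p.eval (conj w) *
      (inner ℂ y (R T w x) + conj (inner ℂ x (R T w y) - inner ℂ x y))))) (by
    intro w hw
    rw [abs_one, mem_sphere_zero_iff_norm] at hw
    simp only [Function.comp_apply, Pi.sub_apply, Pi.add_apply, Complex.reCLM_apply, eval_C]
    rw [← hB _ _ w hw, ← hB _ _ w hw, ← hB _ _ w hw, Complex.sub_re, Complex.add_re,
      Complex.re_ofReal_mul, Complex.re_ofReal_mul, Complex.sub_re, Complex.sub_re]
    have h1 := form_re hT.le (R T w y) (R T w x) (p.eval (conj w)) M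
      (hM _ (by rwa [Complex.norm_conj]))
    simp only [← RCLike.re_to_complex, inner_self_eq_norm_sq] at h1 ⊢
    linarith)
  rw [e5] at e6
  erw [e4] at e6
  simp only [aeval_C, Complex.reCLM_apply, Complex.sub_re, Complex.add_re, Algebra.algebraMap_eq_smul_one,
    ContinuousLinearMap.smul_apply, ContinuousLinearMap.one_apply, inner_smul_right,
    Complex.re_ofReal_mul] at e6
  simp only [← RCLike.re_to_complex, inner_self_eq_norm_sq] at e6 ⊢
  linarith

theorem vonNeumann {T : E →L[ℂ] E} (hT : ‖T‖ ≤ 1) (p : ℂ[X]) (M : ℝ)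
    (hM : ∀ z : ℂ, ‖z‖ = 1 → ‖p.eval z‖ ≤ M) : ‖aeval T p‖ ≤ M := by
  have hM0 : 0 ≤ M := (norm_nonneg _).trans (hM 1 norm_one)
  have h1 : ∀ S : E →L[ℂ] E, ‖S‖ < 1 → ‖aeval S p‖ ≤ M := fun S hS => by
    refine ContinuousLinearMap.opNorm_le_of_unit_norm hM0 fun x hx => ?_
    set v := aeval S p x with hv
    rcases eq_or_ne v 0 with h | h
    · rw [h, norm_zero]; exact hM0
    have hv0 := norm_pos_iff.2 h
    have h2 := strict hS p M hM (((‖v‖⁻¹ : ℝ) : ℂ) • v) x
    rw [← hv, inner_smul_left, Complex.conj_ofReal, Complex.re_ofReal_mul, norm_smul,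
      Complex.norm_real, norm_inv, norm_norm, inv_mul_cancel₀ hv0.ne', hx,
      ← RCLike.re_to_complex, inner_self_eq_norm_sq, pow_two, inv_mul_cancel_left₀ hv0.ne'] at h2
    linarith
  have h2 : Tendsto (fun s : ℝ => ‖aeval ((s : ℂ) • T) p‖) (𝓝[<] 1)
      (𝓝 ‖aeval (((1 : ℝ) : ℂ) • T) p‖) :=
    Tendsto.mono_left (Continuous.tendsto (p.continuous_aeval.comp
      (Complex.continuous_ofReal.smul continuous_const)).norm 1) nhdsWithin_le_nhds
  rw [Complex.ofReal_one, one_smul] at h2
  refine le_of_tendsto h2 ?_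
  filter_upwards [Ioo_mem_nhdsLT (zero_lt_one' ℝ)] with s hs
  apply h1
  rw [norm_smul, Complex.norm_real, Real.norm_of_nonneg hs.1.le]
  nlinarith [hs.1, hs.2, norm_nonneg T]

end Pool.Agent.H95.VonNeumann
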