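import Pool.Agent.H95.WBaireDefs

namespace Pool.Agent.H95.WBaire
open Filter Topology Set Sum Classical MeasureTheory

abbrev S : Type := (m : ℕ) × (Fin m → Bool)
abbrev G : Type := ℕ → Bool
abbrev X : Type := lp (fun _ : S ⊕ G => ℝ) 2

def r (g : G) (m : ℕ) : Fin m → Bool := fun i => g i

theorem sq (x : X) : HasSum (fun i => x i ^ 2) (‖x‖ ^ 2) := by
  simpa using lp.hasSum_norm (p := 2) (by norm_num) x

theorem mco (i : S ⊕ G) : Measurable[Ba X] fun x : X => x i := by
  have : (fun x : X => x i) = fun x => innerSL ℝ (lp.single 2 i 1 : X) x := by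
    ext x; simp [lp.inner_single_left]
  rw [this]
  exact Measurable.of_comap_le (le_iSup_of_le ⟨_, WeakBilin.eval_continuous _ (innerSL ℝ (lp.single 2 i 1 : X))⟩ le_rfl)

def P (x : X) (F : Finset G) : Prop := (∀ g ∉ F, x (inr g) = 0) ∧
  ∀ᶠ m in atTop, ∀ σ, 2 ^ m * x (inl ⟨m, σ⟩) = ∑ g ∈ F, if r g m = σ then x (inr g) else 0

theorem P.mono {x : X} {F F' : Finset G} (h : P x F) (e : F ⊆ F') : P x F' :=
  ⟨fun g hg => h.1 g fun a => hg (e a), h.2.mono fun m hm σ => (hm σ).trans
    (Finset.sum_subset e fun g _ hg => by simp [h.1 g hg])⟩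

def A : Submodule ℝ X where
  carrier := {x | ∃ F, P x F}
  zero_mem' := ⟨∅, by simp [P]⟩
  add_mem' := fun {x y} ⟨F, a⟩ ⟨F', b⟩ => by
    have a := a.mono (Finset.subset_union_left (s₂ := F'))
    have b := b.mono (Finset.subset_union_right (s₁ := F))
    refine ⟨F ∪ F', fun g hg => by simp [a.1 g hg, b.1 g hg], (a.2.and b.2).mono fun m hm σ => ?_⟩
    simp only [lp.coeFn_add, Pi.add_apply, mul_add, hm.1 σ, hm.2 σ, ← Finset.sum_add_distrib, ite_add_ite, add_zero]
  smul_mem' := fun c x ⟨F, a⟩ => ⟨F, fun g hg => by simp [a.1 g hg], a.2.mono fun m hm σ => by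
    simp only [lp.coeFn_smul, Pi.smul_apply, smul_eq_mul, mul_left_comm _ c, hm σ, Finset.mul_sum, mul_ite, mul_zero]⟩

theorem relm : Measurable[(Ba X).comap Subtype.val] fun a : A => ‖a.1‖ := by
  letI := Ba X
  letI : MeasurableSpace A := (Ba X).comap Subtype.val
  have mv : Measurable (Subtype.val : A → X) := comap_measurable _
  refine measurable_of_tendsto_metrizable (f := fun m (a : A) => √((∑' s, a.1 (inl s) ^ 2) +
    ∑ σ, (2 ^ m * a.1 (inl ⟨m, σ⟩)) ^ 2)) (fun m => Measurable.sqrt (Measurable.add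
      (Measurable.tsum fun s => ((mco _).comp mv).pow_const 2) (Finset.measurable_sum _ fun σ _ =>
        (((mco _).comp mv).const_mul _).pow_const 2))) (tendsto_pi_nhds.2 fun ⟨x, F, h1, h2⟩ => ?_)
  have inj : ∀ᶠ m in atTop, ∀ g ∈ F, ∀ k ∈ F, r g m = r k m → g = k :=
    (eventually_all_finset F).2 fun g _ => (eventually_all_finset F).2 fun k _ => by
      by_cases e : g = k
      · exact Eventually.of_forall fun _ _ => e
      · obtain ⟨i, hi⟩ := Function.ne_iff.1 e
        exact (eventually_gt_atTop i).mono fun m hm h => absurd (congrFun h ⟨i, hm⟩) hi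
  refine tendsto_const_nhds.congr' ((inj.and h2).mono fun m ⟨a, b⟩ => ?_)
  refine ((Real.sqrt_eq_iff_eq_sq (by positivity) (norm_nonneg x)).2 ?_).symm
  rw [← (sq x).tsum_eq, Summable.tsum_sum ((sq x).summable.comp_injective inl_injective)
    ((sq x).summable.comp_injective inr_injective), tsum_eq_sum (s := F) fun g hg => by simp [h1 g hg]]
  congr 1
  simp only [b, pow_two, Finset.sum_mul_sum]
  rw [Finset.sum_comm]
  refine Finset.sum_congr rfl fun g hg => ?_
  rw [Finset.sum_eq_single (r g m) (fun σ _ h => by simp [h.symm]) (by simp),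
    Finset.sum_eq_single g (fun k hk h => by simp [show r k m ≠ r g m from fun e => h (a k hk g hg e)])
      (by simp [hg])]
  simp

noncomputable def d (g : G) : X :=
  ⟨Sum.elim (fun s => if r g s.1 = s.2 then (1 / 2) ^ s.1 else 0) 0, memℓp_gen (by
    refine ((Function.Injective.summable_iff (g := fun m => (inl ⟨m, r g m⟩ : S ⊕ G))
      (fun a b h => congrArg Sigma.fst (inl_injective h)) ?_).1 ?_)
    · rintro (⟨m, σ⟩ | k) h
      · simp [show r g m ≠ σ from fun e => h ⟨m, e ▸ rfl⟩]
      · simp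
    · refine (summable_geometric_of_lt_one (r := ((2 : ℝ) ^ 2)⁻¹) (by norm_num) (by norm_num)).congr fun m => ?_
      simp [← pow_mul, mul_comm])⟩

theorem denseA : Dense (A : Set X) := by
  rw [Submodule.dense_iff_topologicalClosure_eq_top, Submodule.topologicalClosure_eq_top_iff,
    Submodule.eq_bot_iff]
  intro y hy
  have h1 : ∀ s, y (inl s) = 0 := fun s => by
    simpa [lp.inner_single_left] using hy (lp.single 2 (inl s) 1) ⟨∅, by simp [lp.single_apply],
      (eventually_gt_atTop s.1).mono fun m hm σ => by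
        simp [lp.single_apply, Pi.single_eq_of_ne (show inl ⟨m, σ⟩ ≠ (inl s : S ⊕ G) from
          fun e => hm.ne' (congrArg Sigma.fst (inl_injective e)))]⟩
  have h2 : ∀ g, y (inr g) = 0 := fun g => by
    have := hy (d g + lp.single 2 (inr g) 1) ⟨{g}, fun k hk => by
      simp [d, lp.single_apply, Pi.single_eq_of_ne (inr_injective.ne (Finset.notMem_singleton.1 hk))],
      Eventually.of_forall fun m σ => by simp [d, lp.single_apply]⟩
    have e : inner ℝ (d g) y = 0 := by
      rw [lp.inner_eq_tsum]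
      exact (tsum_congr (by rintro (s | k) <;> simp [h1, d])).trans tsum_zero
    simpa [inner_add_left, e, lp.inner_single_left] using this
  ext (s | k) <;> simp [h1, h2]

noncomputable def e (g : G) : X := lp.single 2 (inr g) 1

abbrev N : MeasurableSpace X where
  MeasurableSet' B := {g | ¬ (e g ∈ B ↔ 0 ∈ B)}.Countable
  measurableSet_empty := by simp
  measurableSet_compl B h := by simpa [not_iff_not] using h
  measurableSet_iUnion f h := (countable_iUnion h).mono fun g hg => by
    by_contra hn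
    simp only [mem_iUnion, mem_setOf_eq, not_exists, not_not] at hn hg
    exact hg (exists_congr hn)

theorem notm : ¬ Measurable[Ba X] fun x : X => ‖x‖ := fun h => by
  have t : Tendsto (fun g => toWeakSpace ℝ X (e g)) cofinite (𝓝 (toWeakSpace ℝ X 0)) := by
    refine (Topology.IsInducing.tendsto_nhds_iff (g := fun (x : WeakSpace ℝ X) y => (topDualPairing ℝ X).flip x y)
      ⟨rfl⟩).2 (tendsto_pi_nhds.2 fun l => ?_)
    obtain ⟨v, rfl⟩ := (InnerProductSpace.toDual ℝ X).surjective l
    have := ((sq v).summable.comp_injective inr_injective).tendsto_cofinite_zero.sqrt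
    change Tendsto (fun g => inner ℝ v (e g)) cofinite (𝓝 (inner ℝ v 0))
    rw [inner_zero_right, tendsto_zero_iff_abs_tendsto_zero]
    simpa [e, lp.inner_single_right, Real.sqrt_sq_eq_abs, Function.comp_def] using this
  have le : Ba X ≤ N := iSup_le fun f => by
    rintro _ ⟨U, -, rfl⟩
    refine Set.Countable.mono (s₁ := {g | ¬ (e g ∈ _ ↔ 0 ∈ _)}) (fun g hg => ?_)
      ((f.continuous.tendsto _).comp t).countable_compl_preimage_ker
    refine fun h => hg ?_
    simp only [ker_nhds_eq_specializes, mem_preimage, mem_setOf_eq, specializes_iff_eq] at h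
    simp only [mem_preimage]; rw [← h]; rfl
  have : {g | ¬ (e g ∈ (fun x : X => ‖x‖) ⁻¹' {0} ↔ 0 ∈ (fun x : X => ‖x‖) ⁻¹' {0})}.Countable := le _ (h (measurableSet_singleton 0))
  haveI u : Uncountable G := Cardinal.aleph0_lt_mk_iff.1 (by simpa using Cardinal.aleph0_lt_continuum)
  exact not_countable_univ (this.mono fun g _ => by simp [e, lp.norm_single])

theorem main : ∃ (X : Type) (_ : NormedAddCommGroup X) (_ : NormedSpace ℝ X), CompleteSpace X ∧
    ∃ A : Submodule ℝ X, Dense (A : Set X) ∧ (Measurable[(Ba X).comap Subtype.val] fun a : A => ‖a.1‖) ∧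
      ¬ Measurable[Ba X] fun x : X => ‖x‖ :=
  ⟨X, inferInstance, inferInstance, inferInstance, A, denseA, relm, notm⟩

end Pool.Agent.H95.WBaire
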