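import Mathlib

namespace Pool.Agent.H95.WBaire

/-- the Baire sigma-algebra of the weak topology: generated by the weakly continuous real functions -/
noncomputable abbrev Ba (X : Type) [NormedAddCommGroup X] [NormedSpace ℝ X] : MeasurableSpace X :=
  ⨆ f : C(WeakSpace ℝ X, ℝ), MeasurableSpace.comap (fun x => f (toWeakSpace ℝ X x)) inferInstance

end Pool.Agent.H95.WBaire
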