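import Pool.Agent.H95.L2

set_option autoImplicit false

open Filter Topology Set Metric ComplexConjugate

namespace Pool.Agent.H95.WComp
open Pool.Agent.H95.L2

noncomputable def D (z : ℂ) : ℝ := 1 - ‖z‖ ^ 2

lemma D_pos {z : ℂ} (hz : ‖z‖ < 1) : 0 < D z := by
  have := norm_nonneg z
  unfold D; nlinarith

noncomputable def m (a z : ℂ) : ℂ := (a - z) / (1 - conj a * z)

lemma den_ge {a z : ℂ} (hz : ‖z‖ < 1) : 1 - ‖a‖ ≤ ‖1 - conj a * z‖ := by
  have h1 := norm_sub_norm_le (1 : ℂ) (conj a * z)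
  rw [norm_one, norm_mul, Complex.norm_conj] at h1
  nlinarith [norm_nonneg a]

lemma den_le {a z : ℂ} (ha : ‖a‖ < 1) (hz : ‖z‖ < 1) : ‖1 - conj a * z‖ ≤ 2 := by
  have h1 := norm_sub_le (1 : ℂ) (conj a * z)
  rw [norm_one, norm_mul, Complex.norm_conj] at h1
  nlinarith [norm_nonneg a, norm_nonneg z]

lemma den_ne {a z : ℂ} (ha : ‖a‖ < 1) (hz : ‖z‖ < 1) : 1 - conj a * z ≠ 0 := by
  have := den_ge (a := a) hz
  rw [← norm_pos_iff]; linarith

lemma D_m {a z : ℂ} (ha : ‖a‖ < 1) (hz : ‖z‖ < 1) :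
    D (m a z) * ‖1 - conj a * z‖ ^ 2 = D a * D z := by
  have h := norm_pos_iff.2 (den_ne ha hz)
  unfold D m
  rw [norm_div, div_pow, sub_mul, div_mul_cancel₀ _ (by positivity)]
  simp only [Complex.sq_norm, Complex.normSq_apply]
  simp
  ring

lemma m_mem {a z : ℂ} (ha : ‖a‖ < 1) (hz : ‖z‖ < 1) : ‖m a z‖ < 1 := by
  have h := norm_pos_iff.2 (den_ne ha hz)
  have h1 := D_m ha hz
  have h2 := mul_pos (D_pos ha) (D_pos hz)
  rw [← h1] at h2
  have h3 : 0 < D (m a z) := (mul_pos_iff_of_pos_right (by positivity)).1 h2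
  unfold D at h3
  nlinarith [norm_nonneg (m a z)]

lemma m_m {a z : ℂ} (ha : ‖a‖ < 1) (hz : ‖z‖ < 1) : m a (m a z) = z := by
  have h1 := den_ne ha hz
  have h2 := den_ne ha (m_mem ha hz)
  have h3 := den_ne ha ha
  have h4 : m a z * (1 - conj a * z) = a - z := div_mul_cancel₀ _ h1
  rw [m, div_eq_iff h2]
  linear_combination -h4

lemma m_diff {a : ℂ} (ha : ‖a‖ < 1) : DifferentiableOn ℂ (m a) (ball 0 1) := by
  unfold m
  refine DifferentiableOn.div (by fun_prop) (by fun_prop) fun z hz => den_ne ha ?_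
  simpa using hz

lemma m_maps {a : ℂ} (ha : ‖a‖ < 1) : MapsTo (m a) (ball 0 1) (ball 0 1) := fun z hz => by
  rw [mem_ball_zero_iff] at hz ⊢
  exact m_mem ha hz

section SP
variable {φ : ℂ → ℂ} (hφ : DifferentiableOn ℂ φ (ball 0 1))
  (hm : MapsTo φ (ball 0 1) (ball 0 1))
include hm

lemma phi_mem {a : ℂ} (ha : ‖a‖ < 1) : ‖φ a‖ < 1 := by
  simpa using hm (mem_ball_zero_iff.2 ha)

include hφ

lemma F_props {a : ℂ} (ha : ‖a‖ < 1) :
    DifferentiableOn ℂ (m (φ a) ∘ φ ∘ m a) (ball 0 1) ∧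
    MapsTo (m (φ a) ∘ φ ∘ m a) (ball 0 1) (closedBall 0 1) ∧ (m (φ a) ∘ φ ∘ m a) 0 = 0 := by
  have h1 := phi_mem hm ha
  refine ⟨(m_diff h1).comp (hφ.comp (m_diff ha) (m_maps ha)) (hm.comp (m_maps ha)),
    ((m_maps h1).comp (hm.comp (m_maps ha))).mono_right ball_subset_closedBall, ?_⟩
  simp [m]

lemma pick {a b : ℂ} (ha : ‖a‖ < 1) (hb : ‖b‖ < 1) : ‖m (φ a) (φ b)‖ ≤ ‖m a b‖ := by
  obtain ⟨h1, h2, h3⟩ := F_props hφ hm ha
  have := Complex.norm_le_norm_of_mapsTo_ball h1 h2 h3 (m_mem ha hb)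
  simpa [m_m ha hb] using this

lemma pick_eq {a b : ℂ} (ha : ‖a‖ < 1) (hb : ‖b‖ < 1) (hab : b ≠ a)
    (h : ‖m (φ a) (φ b)‖ = ‖m a b‖) : ∃ C : ℝ, 0 < C ∧ ∀ z, ‖z‖ < 1 → D (φ z) ≤ C * D z := by
  obtain ⟨h1, h2, h3⟩ := F_props hφ hm ha
  have hne : m a b ≠ 0 := div_ne_zero (sub_ne_zero.2 hab.symm) (den_ne ha hb)
  have h4 : ‖dslope (m (φ a) ∘ φ ∘ m a) 0 (m a b)‖ = 1 / 1 := by
    rw [dslope_of_ne _ hne, slope_def_module, h3]
    simp [m_m ha hb, h, hne]
  have h5 := Complex.affine_of_mapsTo_ball_of_norm_dslope_eq_div h1 (by rwa [h3])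
    (mem_ball_zero_iff.2 (m_mem ha hb)) h4
  have hφa := phi_mem hm ha
  have hDa := D_pos ha
  have hDb := D_pos hφa
  have h1a : 0 < 1 - ‖a‖ := by linarith
  refine ⟨D a * 4 / (D (φ a) * (1 - ‖a‖) ^ 2), by positivity, fun z hz => ?_⟩
  have h6 := congrArg norm (h5 (mem_ball_zero_iff.2 (m_mem ha hz)))
  simp only [h3, zero_add, sub_zero, norm_smul, h4, Function.comp_apply, m_m ha hz] at h6
  have h7 : D (m (φ a) (φ z)) = D (m a z) := by unfold D; rw [h6]; simp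
  have h8 := D_m ha hz
  have h9 := D_m hφa (phi_mem hm hz)
  have h10 := D_pos (m_mem ha hz)
  have h11 : (1 - ‖a‖) ^ 2 ≤ ‖1 - conj a * z‖ ^ 2 := pow_le_pow_left₀ h1a.le (den_ge hz) 2
  have h12 : ‖1 - conj (φ a) * φ z‖ ^ 2 ≤ 2 ^ 2 :=
    pow_le_pow_left₀ (norm_nonneg _) (den_le hφa (phi_mem hm hz)) 2
  rw [h7] at h9
  rw [div_mul_eq_mul_div, le_div_iff₀ (by positivity)]
  calc D (φ z) * (D (φ a) * (1 - ‖a‖) ^ 2) = (D (φ a) * D (φ z)) * (1 - ‖a‖) ^ 2 := by ring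
    _ ≤ (D (m a z) * 2 ^ 2) * ‖1 - conj a * z‖ ^ 2 := by
      rw [← h9]; gcongr
    _ = D a * 4 * D z := by rw [mul_right_comm, h8]; ring

lemma escape (hfix : ∀ p, ‖p‖ < 1 → φ p ≠ p) :
    (∃ C : ℝ, 0 < C ∧ ∀ z, ‖z‖ < 1 → D (φ z) ≤ C * D z) ∨
    ∀ w, ‖w‖ < 1 → ∀ δ > 0, ∀ᶠ n in atTop, D (φ^[n] w) < δ := by
  by_contra hcon
  push Not at hcon
  obtain ⟨h1, w, hw, δ, hδ, h2⟩ := hcon
  have hz : ∀ n, ‖φ^[n] w‖ < 1 := fun n => by
    simpa using hm.iterate n (mem_ball_zero_iff.2 hw)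
  have hK : IsCompact {z : ℂ | ‖z‖ ≤ 1 ∧ δ ≤ D z} := by
    refine (isCompact_closedBall (0 : ℂ) 1).of_isClosed_subset ?_ fun z hz => by simpa using hz.1
    exact (isClosed_le continuous_norm continuous_const).inter
      (isClosed_le continuous_const (show Continuous D by unfold D; fun_prop))
  obtain ⟨q, hq, s, hs, hsq⟩ := hK.tendsto_subseq' (x := fun n => φ^[n] w)
    (h2.mono fun n hn => ⟨(hz n).le, hn⟩)
  have hq1 : ‖q‖ < 1 := by
    have h3 := hq.2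
    unfold D at h3
    nlinarith [norm_nonneg q]
  have hcont : ∀ p, ‖p‖ < 1 → ContinuousAt φ p := fun p hp =>
    hφ.continuousOn.continuousAt (isOpen_ball.mem_nhds (mem_ball_zero_iff.2 hp))
  have hd : ∀ p, ‖p‖ < 1 → ContinuousAt (fun z => ‖m z (φ z)‖) p := fun p hp => by
    have h3 := hcont p hp
    have h4 : ContinuousAt (fun z => 1 - conj z * φ z) p :=
      continuousAt_const.sub (Complex.continuous_conj.continuousAt.mul h3)
    exact ((continuousAt_id.sub h3).div h4 (den_ne hp (phi_mem hm hp))).norm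
  let d : ℕ → ℝ := fun n => ‖m (φ^[n] w) (φ (φ^[n] w))‖
  have hanti : Antitone d := antitone_nat_of_succ_le fun n => by
    simp only [d, Function.iterate_succ_apply']
    exact pick hφ hm (hz n) (phi_mem hm (hz n))
  have hlim := tendsto_atTop_ciInf hanti ⟨0, by rintro _ ⟨n, rfl⟩; exact norm_nonneg _⟩
  have e1 := tendsto_nhds_unique (hlim.comp hs.tendsto_atTop) ((hd q hq1).tendsto.comp hsq)
  have e2 := tendsto_nhds_unique
    (hlim.comp ((tendsto_add_atTop_nat 1).comp hs.tendsto_atTop))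
    ((((hd _ (phi_mem hm hq1)).tendsto.comp (hcont q hq1).tendsto).comp hsq).congr fun k => by
      simp [d, Function.iterate_succ_apply'])
  obtain ⟨C, hC, hC'⟩ := pick_eq hφ hm hq1 (phi_mem hm hq1) (hfix q hq1) (e2.symm.trans e1)
  obtain ⟨z, hz1, hz2⟩ := h1 C hC
  exact absurd (hC' z hz1) (not_le.2 hz2)

end SP

noncomputable def ev (a : H ℕ) (z : ℂ) : ℂ := ∑' n, a n * z ^ n

lemma sum_geom {z : ℂ} (hz : ‖z‖ < 1) : HasSum (fun n : ℕ => ‖conj z ^ n‖ ^ 2) (D z)⁻¹ := by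
  have := hasSum_geometric_of_lt_one (sq_nonneg ‖z‖) (by have := D_pos hz; unfold D at this; linarith)
  refine this.congr fun s => ?_
  simp only [norm_pow, Complex.norm_conj, ← pow_mul, mul_comm]

noncomputable def k (z : ℂ) : H ℕ :=
  if h : ‖z‖ < 1 then ⟨fun n => conj z ^ n, mem_of_summable (sum_geom h).summable⟩ else 0

lemma k_apply {z : ℂ} (hz : ‖z‖ < 1) (n : ℕ) : k z n = conj z ^ n := by
  simp [k, hz]

lemma norm_k {z : ℂ} (hz : ‖z‖ < 1) : ‖k z‖ ^ 2 = (D z)⁻¹ := by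
  rw [norm_sq_eq, ← (sum_geom hz).tsum_eq]
  simp only [k_apply hz]

lemma inner_k {z : ℂ} (hz : ‖z‖ < 1) (a : H ℕ) : inner ℂ (k z) a = ev a z := by
  rw [lp.inner_eq_tsum, ev]
  simp [k_apply hz]

noncomputable def u (z : ℂ) : H ℕ := ((Real.sqrt (D z) : ℝ) : ℂ) • k z

lemma norm_u {z : ℂ} (hz : ‖z‖ < 1) : ‖u z‖ = 1 := by
  have h := D_pos hz
  have : ‖u z‖ ^ 2 = 1 := by
    rw [u, norm_smul, mul_pow, norm_k hz, Complex.norm_real, Real.norm_eq_abs, sq_abs,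
      Real.sq_sqrt h.le, mul_inv_cancel₀ h.ne']
  exact (pow_eq_one_iff_of_nonneg (norm_nonneg _) two_ne_zero).1 this

lemma inner_u {z : ℂ} (hz : ‖z‖ < 1) (a : H ℕ) :
    ‖inner ℂ (u z) a‖ = Real.sqrt (D z) * ‖ev a z‖ := by
  rw [u, inner_smul_left, inner_k hz, norm_mul, Complex.norm_conj, Complex.norm_real,
    Real.norm_of_nonneg (Real.sqrt_nonneg _)]

lemma W_le {z : ℂ} (hz : ‖z‖ < 1) (a : H ℕ) : ‖inner ℂ (u z) a‖ ≤ ‖a‖ := by
  simpa [norm_u hz] using norm_inner_le_norm (𝕜 := ℂ) (u z) a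

noncomputable def F : Filter ℂ := comap D (𝓝 0) ⊓ 𝓟 {z | ‖z‖ < 1}

lemma F_ball : ∀ᶠ z in F, ‖z‖ < 1 := mem_inf_of_right (mem_principal_self _)

lemma F_elim {P : ℂ → Prop} (h : ∀ᶠ z in F, P z) :
    ∃ δ > 0, ∀ z, ‖z‖ < 1 → D z < δ → P z := by
  rw [F, eventually_inf_principal, eventually_comap, Metric.eventually_nhds_iff] at h
  obtain ⟨δ, hδ, h⟩ := h
  refine ⟨δ, hδ, fun z hz hD => h (y := D z) ?_ z rfl hz⟩
  rwa [Real.dist_eq, sub_zero, abs_of_pos (D_pos hz)]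

lemma vanish (a : H ℕ) (ε : ℝ) (hε : 0 < ε) : ∀ᶠ z in F, ‖inner ℂ (u z) a‖ ≤ ε := by
  obtain ⟨s, hs⟩ := ((lp.hasSum_single (p := 2) (by norm_num) a).eventually
    (ball_mem_nhds a (half_pos hε))).exists
  have h1 : Tendsto (fun z => Real.sqrt (D z) * ∑ i ∈ s, ‖a i‖) F
      (𝓝 (Real.sqrt 0 * ∑ i ∈ s, ‖a i‖)) :=
    ((Real.continuous_sqrt.tendsto 0).comp (tendsto_comap.mono_left inf_le_left)).mul_const _
  rw [Real.sqrt_zero, zero_mul] at h1
  filter_upwards [F_ball, h1.eventually (gt_mem_nhds (half_pos hε))] with z hz h2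
  set p : H ℕ := ∑ i ∈ s, lp.single 2 i (a i)
  have h3 : ‖inner ℂ (u z) p‖ ≤ Real.sqrt (D z) * ∑ i ∈ s, ‖a i‖ := by
    rw [inner_u hz, ← inner_k hz, inner_sum]
    gcongr
    refine norm_sum_le_of_le _ fun i _ => ?_
    rw [lp.inner_single_right, k_apply hz]
    simp only [RCLike.inner_apply, norm_mul, norm_pow, RCLike.norm_conj]
    exact mul_le_of_le_one_right (norm_nonneg _) (pow_le_one₀ (norm_nonneg _) hz.le)
  have h4 := W_le hz (a - p)
  rw [inner_sub_right] at h4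
  have h5 := norm_sub_norm_le (inner ℂ (u z) a) (inner ℂ (u z) p)
  rw [dist_comm, dist_eq_norm] at hs
  linarith

lemma vanish_K {K : Set (H ℕ)} (hK : IsCompact K) (ε : ℝ) (hε : 0 < ε) :
    ∀ᶠ z in F, ∀ a ∈ K, ‖inner ℂ (u z) a‖ ≤ ε := by
  obtain ⟨t, -, ht, hcov⟩ := finite_cover_balls_of_compact hK (half_pos hε)
  filter_upwards [F_ball, (eventually_all_finite ht).2 fun b _ => vanish b _ (half_pos hε)]
    with z hz h a ha
  obtain ⟨b, hb, hab⟩ := mem_iUnion₂.1 (hcov ha)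
  have h4 := W_le hz (a - b)
  rw [inner_sub_right] at h4
  have h5 := norm_sub_norm_le (inner ℂ (u z) a) (inner ℂ (u z) b)
  rw [mem_ball, dist_eq_norm] at hab
  linarith [h b hb]

lemma ev_split {z : ℂ} (hz : ‖z‖ < 1) (a : H ℕ) : ev a z = a 0 + z * ev (bwd a) z := by
  have h : Summable fun n => a n * z ^ n := by
    have := lp.summable_inner (𝕜 := ℂ) (k z) a
    simpa [k_apply hz] using this
  rw [ev, h.tsum_eq_zero_add, ev, ← tsum_mul_left]
  simp only [pow_zero, mul_one, bwd_apply, pow_succ]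
  congr 2
  ext n
  ring

lemma ev_inj (n : ℕ) : ∀ a : H ℕ, (∀ z, ‖z‖ < 1 → z ≠ 0 → ev a z = 0) → a n = 0 := by
  have h0 : ∀ a : H ℕ, (∀ z, ‖z‖ < 1 → z ≠ 0 → ev a z = 0) → a 0 = 0 := by
    intro a ha
    have h1 : Tendsto (fun z : ℂ => ‖z‖ * (‖bwd a‖ / Real.sqrt (D z))) (𝓝[≠] 0)
        (𝓝 (‖(0 : ℂ)‖ * (‖bwd a‖ / Real.sqrt (D 0)))) := by
      refine Tendsto.mono_left (ContinuousAt.tendsto ?_) nhdsWithin_le_nhds
      refine ContinuousAt.mul (by fun_prop) (continuousAt_const.div (by unfold D; fun_prop) ?_)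
      simp [D]
    rw [norm_zero, zero_mul] at h1
    rw [← norm_le_zero_iff]
    refine ge_of_tendsto h1 ?_
    filter_upwards [self_mem_nhdsWithin, nhdsWithin_le_nhds (ball_mem_nhds (0 : ℂ) one_pos)]
      with z hz1 hz2
    rw [mem_ball_zero_iff] at hz2
    have h2 := ev_split hz2 a
    rw [ha z hz2 hz1] at h2
    rw [eq_neg_of_add_eq_zero_left h2.symm, norm_neg, norm_mul]
    gcongr
    rw [le_div_iff₀ (Real.sqrt_pos.2 (D_pos hz2)), mul_comm, ← inner_u hz2]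
    exact W_le hz2 _
  induction n with
  | zero => exact h0
  | succ n ih =>
    intro a ha
    refine ih (bwd a) fun z hz hz0 => ?_
    have h2 := ev_split hz a
    rw [ha z hz hz0, h0 a ha, zero_add] at h2
    exact (mul_eq_zero.1 h2.symm).resolve_left hz0

theorem main (ψ φ : ℂ → ℂ) (hψ : DifferentiableOn ℂ ψ (ball 0 1))
    (hφ : DifferentiableOn ℂ φ (ball 0 1)) (hm : MapsTo φ (ball 0 1) (ball 0 1))
    (hfix : ∀ p ∈ ball (0 : ℂ) 1, φ p ≠ p) (T : H ℕ →L[ℂ] H ℕ)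
    (hT : ∀ (a : H ℕ), ∀ z ∈ ball (0 : ℂ) 1,
      ∑' n, T a n * z ^ n = ψ z * ∑' n, a n * φ z ^ n)
    (hc : IsCompactOperator T) : spectrum ℂ T = {0} := by
  have hT' : ∀ a z, ‖z‖ < 1 → ev (T a) z = ψ z * ev a (φ z) := fun a z hz =>
    hT a z (mem_ball_zero_iff.2 hz)
  haveI : Nontrivial (H ℕ) := ⟨e 0, 0, norm_ne_zero_iff.1 (by rw [norm_e]; norm_num)⟩
  refine (spectrum.nonempty T).subset_singleton_iff.1 fun l hl => ?_
  by_contra hl0
  obtain ⟨a, ha, ha0⟩ := ((hc.hasEigenvalue_iff_mem_spectrum hl0).2 hl).exists_hasEigenvector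
  have ha' : T a = l • a := Module.End.mem_eigenspace_iff.1 ha
  have hl0' : l ≠ 0 := hl0
  have heig : ∀ z, ‖z‖ < 1 → l * ev a z = ψ z * ev a (φ z) := fun z hz => by
    rw [← hT' a z hz, ha', ← inner_k hz, ← inner_k hz, inner_smul_right]
  have key : ∀ ε > 0, ∃ δ > 0, ∀ z, ‖z‖ < 1 → D z < δ →
      Real.sqrt (D z) * ‖ψ z‖ ≤ ε * Real.sqrt (D (φ z)) := by
    intro ε hε
    obtain ⟨K, hK, hK'⟩ := hc.image_closedBall_subset_compact 1
    obtain ⟨δ, hδ, h⟩ := F_elim (vanish_K hK ε hε)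
    refine ⟨δ, hδ, fun z hz hD => ?_⟩
    have h1 := phi_mem hm hz
    have h2 := h z hz hD (T (u (φ z))) (hK' ⟨_, by simp [norm_u h1], rfl⟩)
    have h3 := inner_u h1 (u (φ z))
    rw [inner_self_eq_norm_sq_to_K, norm_u h1] at h3
    rw [inner_u hz, hT' _ z hz, norm_mul] at h2
    have h4 := Real.sqrt_nonneg (D (φ z))
    simp only [RCLike.ofReal_one, one_pow, norm_one] at h3
    calc Real.sqrt (D z) * ‖ψ z‖
        = Real.sqrt (D z) * (‖ψ z‖ * ‖ev (u (φ z)) (φ z)‖) * Real.sqrt (D (φ z)) := by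
          rw [mul_assoc, mul_assoc, mul_comm _ (Real.sqrt (D (φ z))), ← h3, mul_one]
      _ ≤ _ := by gcongr
  refine ha0 (lp.ext (funext fun n => ev_inj n a fun w hw _ => ?_))
  rcases escape hφ hm fun p hp => hfix p (mem_ball_zero_iff.2 hp) with ⟨C, hC, h⟩ | h
  · have hψ0 : ‖ψ w‖ ≤ 0 := by
      refine le_of_forall_pos_le_add fun ε hε => ?_
      have hs := Real.sqrt_pos.2 hC
      obtain ⟨δ, hδ, h1⟩ := key (ε / Real.sqrt C) (by positivity)
      have h2 : Tendsto (fun r : ℝ => 1 - r ^ 2) (𝓝[<] 1) (𝓝 (1 - 1 ^ 2)) :=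
        Tendsto.mono_left (Continuous.tendsto (by fun_prop) 1) nhdsWithin_le_nhds
      obtain ⟨r, hr1, hr2⟩ := ((h2.eventually (gt_mem_nhds (show 1 - 1 ^ 2 < δ by simpa))).and
        (Ioo_mem_nhdsLT hw)).exists
      have hr0 : 0 < r := (norm_nonneg w).trans_lt hr2.1
      rw [zero_add]
      refine Complex.norm_le_of_forall_mem_frontier_norm_le (U := ball 0 r) isBounded_ball
        (DifferentiableOn.diffContOnCl (hψ.mono ?_)) (fun z hz => ?_)
        (subset_closure (mem_ball_zero_iff.2 hr2.1))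
      · rw [closure_ball _ hr0.ne']
        exact closedBall_subset_ball hr2.2
      · rw [frontier_ball _ hr0.ne', mem_sphere_zero_iff_norm] at hz
        have hz1 : ‖z‖ < 1 := hz ▸ hr2.2
        have h3 := h1 z hz1 (by unfold D; rwa [hz])
        have h4 := Real.sqrt_le_sqrt (h z hz1)
        rw [Real.sqrt_mul hC.le] at h4
        have h5 := Real.sqrt_pos.2 (D_pos hz1)
        refine le_of_mul_le_mul_left (h3.trans ?_) h5
        calc _ ≤ ε / Real.sqrt C * (Real.sqrt C * Real.sqrt (D z)) := by gcongr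
          _ = _ := by field_simp
    have h1 := heig w hw
    rw [norm_le_zero_iff.1 hψ0, zero_mul] at h1
    exact (mul_eq_zero.1 h1).resolve_left hl0'
  · have hz : ∀ n, ‖φ^[n] w‖ < 1 := fun n => by
      simpa using hm.iterate n (mem_ball_zero_iff.2 hw)
    have hlp := norm_pos_iff.2 hl0'
    obtain ⟨δ, hδ, h1⟩ := key (‖l‖ / 2) (by positivity)
    obtain ⟨N, hN⟩ := eventually_atTop.1 (h w hw δ hδ)
    let W : ℕ → ℝ := fun n => ‖inner ℂ (u (φ^[n] w)) a‖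
    have hW : ∀ n, N ≤ n → W n ≤ (1 / 2) * W (n + 1) := fun n hn => by
      simp only [W, Function.iterate_succ_apply']
      rw [inner_u (hz n), inner_u (phi_mem hm (hz n))]
      have h2 := congrArg norm (heig _ (hz n))
      rw [norm_mul, norm_mul] at h2
      refine le_of_mul_le_mul_left ?_ hlp
      have h3 := mul_le_mul_of_nonneg_right (h1 _ (hz n) (hN n hn))
        (norm_nonneg (ev a (φ (φ^[n] w))))
      rw [mul_left_comm, h2]
      linarith
    have hW2 : ∀ j, W N ≤ (1 / 2) ^ j * W (N + j) := fun j => by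
      induction j with
      | zero => simp
      | succ j ih =>
        refine ih.trans ?_
        rw [pow_succ, mul_assoc]
        gcongr
        exact hW _ (Nat.le_add_right _ _)
    have hW3 : W N ≤ 0 := by
      have h2 := (tendsto_pow_atTop_nhds_zero_of_lt_one (r := (1 / 2 : ℝ)) (by norm_num)
        (by norm_num)).mul_const ‖a‖
      rw [zero_mul] at h2
      refine ge_of_tendsto' h2 fun j => (hW2 j).trans ?_
      gcongr
      exact W_le (hz _) a
    have h0 : ev a (φ^[N] w) = 0 := by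
      simp only [W] at hW3
      rw [inner_u (hz N)] at hW3
      have h5 := Real.sqrt_pos.2 (D_pos (hz N))
      rw [← norm_le_zero_iff]
      by_contra hcon
      exact absurd hW3 (not_le.2 (mul_pos h5 (not_le.1 hcon)))
    have h6 : ∀ n, ev a (φ^[n] w) = 0 → ev a w = 0 := fun n => by
      induction n with
      | zero => exact id
      | succ n ih =>
        intro h7
        have h8 := heig _ (hz n)
        rw [Function.iterate_succ_apply'] at h7
        rw [h7, mul_zero] at h8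
        exact ih ((mul_eq_zero.1 h8).resolve_left hl0')
    exact h6 N h0

end Pool.Agent.H95.WComp
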