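import Mathlib

set_option autoImplicit false
open Filter Topology Matrix

namespace Pool.Agent.H95.WInf

def A : Matrix (Fin 2) (Fin 2) ℂ := !![1, 2; -2, 1]

noncomputable def c (t : ℝ) : ℝ := Real.exp (-t) * Real.cos (2 * t)
noncomputable def s (t : ℝ) : ℝ := Real.exp (-t) * Real.sin (2 * t)
noncomputable def T (t : ℝ) : Matrix (Fin 2) (Fin 2) ℂ := !![c t, -s t; s t, c t]

theorem dc (t : ℝ) : HasDerivAt c (-c t - 2 * s t) t :=
  ((hasDerivAt_neg t).exp.mul ((hasDerivAt_id t).const_mul 2).cos).congr_deriv (by simp [c, s]; ring)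

theorem ds (t : ℝ) : HasDerivAt s (2 * c t - s t) t :=
  ((hasDerivAt_neg t).exp.mul ((hasDerivAt_id t).const_mul 2).sin).congr_deriv (by simp [c, s]; ring)

theorem T0 (t : ℝ) (f : Fin 2 → ℂ) : (T t *ᵥ f) 0 = c t * f 0 - s t * f 1 := by
  simp [T, mulVec, dotProduct, Fin.sum_univ_two]; ring
theorem T1 (t : ℝ) (f : Fin 2 → ℂ) : (T t *ᵥ f) 1 = s t * f 0 + c t * f 1 := by
  simp [T, mulVec, dotProduct, Fin.sum_univ_two]

theorem nopos {φ : ℝ → ℝ} {d : ℝ} (h : HasDerivAt φ d 0) (h1 : ∀ t, 0 ≤ t → φ t ≤ φ 0) : d ≤ 0 := by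
  refine le_of_tendsto h.tendsto_slope_zero_right ?_
  filter_upwards [self_mem_nhdsWithin] with t ht
  have ht' : (0 : ℝ) < t := ht
  rw [zero_add, smul_eq_mul]
  exact mul_nonpos_of_nonneg_of_nonpos (by positivity) (sub_nonpos.2 (h1 t ht'.le))

theorem main : ∃ (A : Matrix (Fin 2) (Fin 2) ℂ) (T : ℝ → Matrix (Fin 2) (Fin 2) ℂ),
    (∃ θ : ℝ, 0 ≤ θ ∧ θ < Real.pi / 2 ∧ ∀ u : Fin 2 → ℂ, star u ⬝ᵥ A *ᵥ u = 0 ∨
      |Complex.arg (star u ⬝ᵥ A *ᵥ u)| ≤ θ) ∧
    T 0 = 1 ∧ (∀ t f i, HasDerivAt (fun t => (T t *ᵥ f) i) (-(A *ᵥ T t *ᵥ f) i) t) ∧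
    (∃ M : ℝ, ∀ t, 0 ≤ t → ∀ f, ‖T t *ᵥ f‖ ≤ M * ‖f‖) ∧
    ∀ g : Fin 2 → ℝ, (∀ i, 0 < g i) →
      ¬ ∀ t, 0 ≤ t → ∀ f : Fin 2 → ℂ, ‖fun i => g i * (T t *ᵥ f) i‖ ≤ ‖fun i => g i * f i‖ := by
  refine ⟨A, T, ⟨Real.arctan 2, (Real.arctan_pos.2 two_pos).le, Real.arctan_lt_pi_div_two _,
    fun u => ?_⟩, ?_, fun t f i => ?_, ⟨2, fun t ht f => ?_⟩, fun g hg h => ?_⟩
  · set z := star u ⬝ᵥ A *ᵥ u with hz
    have h1 : z.re = (u 0).re ^ 2 + (u 0).im ^ 2 + (u 1).re ^ 2 + (u 1).im ^ 2 := by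
      simp [hz, A, mulVec, dotProduct, Fin.sum_univ_two]; ring
    have h2 : z.im = 4 * ((u 0).re * (u 1).im - (u 0).im * (u 1).re) := by
      simp [hz, A, mulVec, dotProduct, Fin.sum_univ_two]; ring
    have h3 : |z.im| ≤ 2 * z.re := by
      rw [h1, h2, abs_le]
      constructor <;> nlinarith [sq_nonneg ((u 0).re + (u 1).im), sq_nonneg ((u 0).re - (u 1).im),
        sq_nonneg ((u 0).im + (u 1).re), sq_nonneg ((u 0).im - (u 1).re)]
    rcases eq_or_lt_of_le (show 0 ≤ z.re by rw [h1]; positivity) with h4 | h4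
    · left
      refine Complex.ext h4.symm ?_
      rw [← h4, mul_zero] at h3
      exact abs_nonpos_iff.1 h3
    · right
      have h5 := abs_lt.1 (Complex.abs_arg_lt_pi_div_two_iff.2 (Or.inl h4))
      rw [← Real.arctan_tan h5.1 h5.2, Complex.tan_arg, abs_le, ← Real.arctan_neg]
      have h6 := abs_le.1 h3
      constructor
      · exact Real.arctan_mono (by rw [le_div_iff₀ h4]; linarith)
      · exact Real.arctan_mono (by rw [div_le_iff₀ h4]; linarith)
  · ext i j; fin_cases i <;> fin_cases j <;> simp [T, c, s]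
  · have e0 : (A *ᵥ T t *ᵥ f) 0 = (T t *ᵥ f) 0 + 2 * (T t *ᵥ f) 1 := by
      generalize T t *ᵥ f = v
      simp [A, mulVec, dotProduct, Fin.sum_univ_two]
    have e1 : (A *ᵥ T t *ᵥ f) 1 = -2 * (T t *ᵥ f) 0 + (T t *ᵥ f) 1 := by
      generalize T t *ᵥ f = v
      simp [A, mulVec, dotProduct, Fin.sum_univ_two]
    revert i
    rw [Fin.forall_fin_two]
    simp only [e0, e1, T0, T1]
    constructor
    · exact (((dc t).ofReal_comp.mul_const _).sub ((ds t).ofReal_comp.mul_const _)).congr_deriv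
        (by push_cast; ring)
    · exact (((ds t).ofReal_comp.mul_const _).add ((dc t).ofReal_comp.mul_const _)).congr_deriv
        (by push_cast; ring)
  · have he : Real.exp (-t) ≤ 1 := Real.exp_le_one_iff.2 (by linarith)
    have hc : ‖(c t : ℂ)‖ ≤ 1 := by
      rw [Complex.norm_real, c, norm_mul, Real.norm_of_nonneg (Real.exp_pos _).le]
      exact mul_le_one₀ he (norm_nonneg _) (Real.abs_cos_le_one _)
    have hs : ‖(s t : ℂ)‖ ≤ 1 := by
      rw [Complex.norm_real, s, norm_mul, Real.norm_of_nonneg (Real.exp_pos _).le]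
      exact mul_le_one₀ he (norm_nonneg _) (Real.abs_sin_le_one _)
    have k : ∀ (a : ℂ) i, ‖a‖ ≤ 1 → ‖a * f i‖ ≤ ‖f‖ := fun a i ha => by
      rw [norm_mul]
      exact (mul_le_of_le_one_left (norm_nonneg _) ha).trans (norm_le_pi_norm f i)
    rw [pi_norm_le_iff_of_nonneg (by positivity), Fin.forall_fin_two, T0, T1]
    exact ⟨(norm_sub_le _ _).trans (by linarith [k _ 0 hc, k _ 1 hs]),
      (norm_add_le _ _).trans (by linarith [k _ 0 hs, k _ 1 hc])⟩
  · have g0 := hg 0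
    have g1 := hg 1
    have key : ∀ (e : ℝ), |e| = 1 → ∀ t, 0 ≤ t → ∀ i,
        ‖(g i : ℂ) * (T t *ᵥ ![((g 0)⁻¹ : ℝ), (e * (g 1)⁻¹ : ℝ)]) i‖ ≤ 1 := by
      intro e he t ht i
      refine ((norm_le_pi_norm _ i).trans (h t ht _)).trans ?_
      rw [pi_norm_le_iff_of_nonneg zero_le_one, Fin.forall_fin_two]
      simp [g0.ne', g1.ne', he, mul_left_comm, abs_of_pos g0, abs_of_pos g1]
    have a0 := nopos (φ := fun t => g 0 * (c t * (g 0)⁻¹ - s t * (-1 * (g 1)⁻¹)))
      ((((dc 0).mul_const _).sub ((ds 0).mul_const _)).const_mul _) fun t ht => by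
        have := key (-1) (by simp) t ht 0
        rw [T0] at this
        simp only [cons_val_zero, cons_val_one] at this
        rw [← Complex.ofReal_mul, ← Complex.ofReal_mul] at this
        first | rw [← Complex.ofReal_sub] at this | rw [← Complex.ofReal_add] at this
        rw [← Complex.ofReal_mul, Complex.norm_real] at this
        refine ((le_abs_self _).trans this).trans (le_of_eq ?_)
        simp [c, s, g0.ne']
    have a1 := nopos (φ := fun t => g 1 * (s t * (g 0)⁻¹ + c t * (1 * (g 1)⁻¹)))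
      ((((ds 0).mul_const _).add ((dc 0).mul_const _)).const_mul _) fun t ht => by
        have := key 1 (by simp) t ht 1
        rw [T1] at this
        simp only [cons_val_zero, cons_val_one] at this
        rw [← Complex.ofReal_mul, ← Complex.ofReal_mul] at this
        first | rw [← Complex.ofReal_sub] at this | rw [← Complex.ofReal_add] at this
        rw [← Complex.ofReal_mul, Complex.norm_real] at this
        refine ((le_abs_self _).trans this).trans (le_of_eq ?_)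
        simp [c, s, g1.ne']
    simp only [c, s, neg_zero, Real.exp_zero, mul_zero, Real.cos_zero, Real.sin_zero] at a0 a1
    field_simp at a0 a1
    nlinarith

end Pool.Agent.H95.WInf
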