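import Pool.Agent.H95.WMeanDefs

namespace Pool.Agent.H95.WMean
open Filter Topology Finset

noncomputable def t (j : ℕ) : ℝ := (1 / 2) ^ ((1 / 2 : ℝ) ^ j)

theorem t_pos (j : ℕ) : 0 < t j := Real.rpow_pos_of_pos (by norm_num) _
theorem t_lt (j : ℕ) : t j < 1 := Real.rpow_lt_one (by norm_num) (by norm_num) (by positivity)
theorem t_sq (j : ℕ) : t (j + 1) ^ 2 = t j := by
  rw [t, ← Real.rpow_natCast, ← Real.rpow_mul (by norm_num), t, pow_succ]; congr 1; push_cast; ring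
theorem t_pow (j : ℕ) : t j ^ 2 ^ j = 1 / 2 := by
  induction j with
  | zero => simp [t]
  | succ j ih => rw [pow_succ', pow_mul, t_sq, ih]
theorem t_ge (j : ℕ) : 1 / 2 ≤ t j :=
  (t_pow j).symm.trans_le (pow_le_of_le_one (t_pos j).le (t_lt j).le (by positivity))

theorem tel (n : ℕ) (S : Finset ℕ) : ∑ j ∈ S, t j ^ n * (1 - t j ^ n) ≤ 2 := by
  have p : ∀ j, 0 ≤ t j ^ n := fun j => pow_nonneg (t_pos j).le n
  have q : ∀ j, t j ^ n ≤ 1 := fun j => pow_le_one₀ (t_pos j).le (t_lt j).le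
  obtain ⟨N, hN⟩ := S.exists_nat_subset_range
  refine (sum_le_sum_of_subset_of_nonneg (hN.trans (range_subset_range.2 N.le_succ)) fun j _ _ =>
    mul_nonneg (p j) (sub_nonneg.2 (q j))).trans ?_
  have : ∀ j, t (j + 1) ^ n * (1 - t (j + 1) ^ n) = t (j + 1) ^ n - t j ^ n := fun j => by
    rw [← t_sq j, ← pow_mul, mul_comm 2, pow_mul]; ring
  rw [sum_range_succ', sum_congr rfl fun j _ => this j, sum_range_sub fun j => t j ^ n]
  nlinarith [p 0, q 0, q N]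

theorem geo (x : ℝ) (n : ℕ) : ∑ i ∈ range n, (1 - x) * x ^ i = 1 - x ^ n := by
  rw [← mul_sum, mul_neg_geom_sum]

theorem hgeo (j : ℕ) (n : ℕ) : HasSum (fun i => (1 - t j) * t j ^ (i + n)) (t j ^ n) := by
  have := (hasSum_geometric_of_lt_one (t_pos j).le (t_lt j)).mul_left ((1 - t j) * t j ^ n)
  rw [mul_right_comm, mul_inv_cancel₀ (sub_pos.2 (t_lt j)).ne', one_mul] at this
  simpa only [pow_add, mul_assoc, mul_comm (t j ^ n)] using this

noncomputable def A (s : ℕ → ℝ) (j : ℕ) : ℝ := ∑' i, (1 - t j) * t j ^ i * s i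

theorem w_pos (j i : ℕ) : 0 < (1 - t j) * t j ^ i := mul_pos (sub_pos.2 (t_lt j)) (pow_pos (t_pos j) i)

theorem nb {s : ℕ → ℝ} {C : ℝ} (h : ∀ i, |s i| ≤ C) (j i : ℕ) :
    ‖(1 - t j) * t j ^ i * s i‖ ≤ (1 - t j) * t j ^ i * C := by
  rw [Real.norm_eq_abs, abs_mul, abs_of_pos (w_pos j i)]
  exact mul_le_mul_of_nonneg_left (h i) (w_pos j i).le

theorem sA {s : ℕ → ℝ} {C : ℝ} (h : ∀ i, |s i| ≤ C) (j : ℕ) : Summable fun i => (1 - t j) * t j ^ i * s i :=
  .of_norm_bounded ((hgeo j 0).summable.mul_right C) (nb h j)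

theorem tail {s : ℕ → ℝ} {C : ℝ} (h : ∀ i, |s i| ≤ C) (j n : ℕ) :
    |A s j - ∑ i ∈ range n, (1 - t j) * t j ^ i * s i| ≤ t j ^ n * C := by
  rw [A, ← (sA h j).sum_add_tsum_nat_add n, add_sub_cancel_left]
  exact tsum_of_norm_bounded ((hgeo j n).mul_right C) fun i => nb h j _

theorem blk {s : ℕ → ℝ} {C : ℝ} (h : ∀ i, |s i| ≤ C) (j n : ℕ) :
    |∑ i ∈ range n, (1 - t j) * t j ^ i * s i| ≤ |A s j| + 2 * C * (t j ^ n * (1 - t j ^ n)) := by
  have h1 := tail h j n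
  have h2 : |∑ i ∈ range n, (1 - t j) * t j ^ i * s i| ≤ (1 - t j ^ n) * C := by
    rw [← geo, sum_mul]; exact norm_sum_le_of_le _ fun i _ => nb h j i
  have p : 0 ≤ t j ^ n := pow_nonneg (t_pos j).le n
  have q : 0 ≤ 1 - t j ^ n := sub_nonneg.2 (pow_le_one₀ (t_pos j).le (t_lt j).le)
  have h3 := abs_sub_abs_le_abs_sub (∑ i ∈ range n, (1 - t j) * t j ^ i * s i) (A s j)
  rw [abs_sub_comm] at h3
  nlinarith [mul_le_mul_of_nonneg_left h2 p, mul_le_mul_of_nonneg_left (h3.trans h1) q,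
    mul_nonneg p (abs_nonneg (A s j))]

theorem core0 {s : ℕ → ℝ} {C : ℝ} (h : ∀ i, |s i| ≤ C) {φ : ℕ → ℕ} (hφ : Function.Injective φ)
    (hA : ∀ k, |A s (φ k)| ≤ (1 / 2) ^ k) : ∃ l, Adm s l 0 ∧ FM l := by
  have C0 := (abs_nonneg _).trans (h 0)
  have tl : ∀ n K, ∑ k ∈ range K, t (φ k) ^ n * (1 - t (φ k) ^ n) ≤ 2 := fun n K => by
    have := tel n ((range K).map ⟨φ, hφ⟩)
    rwa [sum_map] at this
  have s0 : Summable fun k => 1 - t (φ k) := summable_of_sum_range_le (c := 4)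
    (fun k => (sub_pos.2 (t_lt _)).le) fun K => by
      refine le_trans (sum_le_sum fun k _ => ?_) ((mul_sum _ _ _).symm.trans_le
        (show 2 * ∑ k ∈ range K, t (φ k) ^ 1 * (1 - t (φ k) ^ 1) ≤ 4 by linarith [tl 1 K]))
      nlinarith [t_ge (φ k), t_lt (φ k)]
  have s1 : ∀ m n, Summable fun k => (1 - t (φ k)) ^ (m + 1) * t (φ k) ^ n := fun m n =>
    s0.of_nonneg_of_le (fun k => mul_nonneg (pow_nonneg (sub_pos.2 (t_lt _)).le _) (pow_nonneg (t_pos _).le _))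
      fun k => (mul_le_of_le_one_right (pow_nonneg (sub_pos.2 (t_lt _)).le _)
        (pow_le_one₀ (t_pos _).le (t_lt _).le)).trans
        (pow_le_of_le_one (sub_pos.2 (t_lt _)).le (by linarith [t_pos (φ k)]) m.succ_ne_zero)
  have s2 : ∀ n, Summable fun k => (1 - t (φ k)) * t (φ k) ^ n := fun n => by simpa using s1 0 n
  have td : Tendsto (fun n => ∑ i ∈ range n, ∑' k, (1 - t (φ k)) * t (φ k) ^ i) atTop atTop := by
    refine tendsto_atTop.2 fun b => ?_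
    obtain ⟨K, hK⟩ := exists_nat_gt b
    have : Tendsto (fun n => ∑ k ∈ range K, (1 - t (φ k) ^ n)) atTop (𝓝 (∑ k ∈ range K, (1 - 0))) :=
      tendsto_finsetSum _ fun k _ =>
        (tendsto_pow_atTop_nhds_zero_of_lt_one (t_pos _).le (t_lt _)).const_sub _
    filter_upwards [this.eventually (lt_mem_nhds (show b < _ by simpa using hK))] with n hn
    simp only [← geo] at hn
    rw [sum_comm] at hn
    exact hn.le.trans (sum_le_sum fun i _ => (s2 i).sum_le_tsum _ fun k _ => (w_pos _ _).le)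
  refine ⟨fun n => ∑' k, (1 - t (φ k)) * t (φ k) ^ n, ⟨fun n => (s2 n).tsum_pos (fun k => (w_pos _ _).le) 0
    (w_pos _ _), td, ?_⟩, fun m n => ?_⟩
  · refine tendsto_bdd_div_atTop_nhds_zero (b := -(2 + 2 * C * 2)) (B := 2 + 2 * C * 2) ?_ ?_ td <;>
    refine Eventually.of_forall fun n => ?_ <;>
    have : |∑ i ∈ range n, (∑' k, (1 - t (φ k)) * t (φ k) ^ i) * s i| ≤ 2 + 2 * C * 2 := by
      refine le_of_tendsto' (hasSum_sum fun i (_ : i ∈ range n) =>
        (s2 i).hasSum.mul_right (s i)).tendsto_sum_nat.abs fun K => ?_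
      refine (abs_sum_le_sum_abs _ _).trans ((sum_le_sum fun k _ =>
        (blk h _ n).trans (add_le_add_left (hA k) _)).trans ?_)
      rw [sum_add_distrib, ← mul_sum]
      gcongr
      exacts [sum_geometric_two_le K, tl n K]
    exacts [(abs_le.1 this).1, (abs_le.1 this).2]
  · have : (fun (a : ℕ → ℝ) (n : ℕ) => a n - a (n + 1))^[m] (fun n => ∑' k, (1 - t (φ k)) * t (φ k) ^ n) =
        fun n => ∑' k, (1 - t (φ k)) ^ (m + 1) * t (φ k) ^ n := by
      induction m with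
      | zero => simp
      | succ m ih =>
        rw [Function.iterate_succ_apply', ih]
        ext n
        rw [← (s1 m n).tsum_sub (s1 m (n + 1))]
        exact tsum_congr fun k => by ring
    rw [this]
    exact tsum_nonneg fun k => mul_nonneg (pow_nonneg (sub_pos.2 (t_lt _)).le _) (pow_nonneg (t_pos _).le _)

theorem core {s : ℕ → ℝ} {C : ℝ} (h : ∀ i, |s i| ≤ C) {ψ : ℕ → ℕ} (hψ : StrictMono ψ) {a b : ℝ}
    (hA : ∀ k, A s (ψ k) ∈ Set.Icc a b) : ∃ L ∈ Set.Icc a b, ∃ l, Adm s l L ∧ FM l := by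
  obtain ⟨L, hL, φ, hφ, t1⟩ := isCompact_Icc.tendsto_subseq hA
  obtain ⟨θ, hθ, t2⟩ := extraction_forall_of_eventually fun k =>
    Metric.tendsto_nhds.1 t1 ((1 / 2) ^ k) (by positivity)
  obtain ⟨l, ⟨l1, l2, l3⟩, l4⟩ := core0 (s := fun i => s i - L) (C := C + |L|)
    (fun i => (abs_sub _ _).trans (add_le_add_left (h i) _)) ((hψ.comp hφ).comp hθ).injective fun k => by
      refine le_of_eq_of_le ?_ (t2 k).le
      have := ((sA h (ψ (φ (θ k)))).hasSum.sub ((hgeo (ψ (φ (θ k))) 0).mul_right L)).tsum_eq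
      simp only [pow_zero, one_mul, add_zero, ← mul_sub] at this
      exact congrArg abs this
  refine ⟨L, hL, l, ⟨l1, l2, ?_⟩, l4⟩
  have := l3.add_const L
  rw [zero_add] at this
  refine this.congr' ((l2.eventually_gt_atTop 0).mono fun n hn => ?_)
  simp only [mul_sub, sum_sub_distrib, ← sum_mul]
  field_simp; ring

theorem q1 (s : ℕ → ℝ) (h : ∃ C, ∀ i, |s i| ≤ C) : ∃ l L, Adm s l L ∧ FM l ∧ Antitone l := by
  obtain ⟨C, h⟩ := h
  obtain ⟨L, -, l, h1, h2⟩ := core h strictMono_id (a := -C) (b := C) fun k =>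
    abs_le.1 (by simpa using tail h k 0)
  exact ⟨l, L, h1, h2, antitone_nat_of_succ_le fun n => sub_nonneg.1 (h2 1 n)⟩

theorem mass {s : ℕ → ℝ} (h0 : ∀ i, 0 ≤ s i) (h : ∀ i, |s i| ≤ 1) (m : ℕ)
    (h1 : ∀ i, Nat.log 16 i = m → s i = 1) : 2 / 3 ≤ A s (4 * m + 2) := by
  refine le_trans ?_ ((sA h _).sum_le_tsum (Ico (16 ^ m) (16 ^ (m + 1))) fun i _ =>
    mul_nonneg (w_pos _ _).le (h0 i))
  rw [sum_congr rfl fun i hi => by
      rw [h1 i (Nat.log_eq_of_pow_le_of_lt_pow (mem_Ico.1 hi).1 (mem_Ico.1 hi).2), mul_one],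
    sum_Ico_eq_sub _ (Nat.pow_le_pow_right (by norm_num) m.le_succ), geo, geo, pow_succ, pow_mul]
  have e : (t (4 * m + 2) ^ 16 ^ m) ^ 4 = 1 / 2 := by
    rw [← pow_mul, ← t_pow (4 * m + 2), pow_add, pow_mul 2]; norm_num
  have p := pow_pos (t_pos (4 * m + 2)) (16 ^ m)
  generalize t (4 * m + 2) ^ 16 ^ m = y at *
  have : 3 / 4 ≤ y := le_of_pow_le_pow_left₀ four_ne_zero p.le (by rw [e]; norm_num)
  rw [show y ^ 16 = (y ^ 4) ^ 4 by ring, e]; linarith

theorem q2 : ∃ s : ℕ → ℝ, (∃ C, ∀ i, |s i| ≤ C) ∧ ∃ l l' L L', Adm s l L ∧ Adm s l' L' ∧ FM l ∧ FM l' ∧ L ≠ L' := by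
  let s : ℕ → ℝ := fun i => if Even (Nat.log 16 i) then 1 else 0
  have b1 : ∀ i, |s i| ≤ 1 := fun i => by simp only [s]; split_ifs <;> simp
  have b2 : ∀ i, |1 - s i| ≤ 1 := fun i => by simp only [s]; split_ifs <;> simp
  have bA : ∀ k, |A s k| ≤ 1 := fun k => by simpa using tail b1 k 0
  obtain ⟨L, hL, l, h1, h2⟩ := core b1 (ψ := fun k => 4 * (2 * k) + 2) (fun a b h => by simp only; omega)
    (a := 2 / 3) (b := 1) fun k => ⟨mass (fun i => by simp only [s]; split_ifs <;> simp) b1 _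
      fun i hi => if_pos (by simp [hi]), (abs_le.1 (bA _)).2⟩
  obtain ⟨L', hL', l', h1', h2'⟩ := core b1 (ψ := fun k => 4 * (2 * k + 1) + 2) (fun a b h => by simp only; omega)
    (a := -1) (b := 1 / 3) fun k => ⟨(abs_le.1 (bA _)).1, by
      have := mass (s := fun i => 1 - s i) (fun i => by linarith [(abs_le.1 (b1 i)).2]) b2 (2 * k + 1)
        fun i hi => by simp [s, hi]
      have e := ((hgeo (4 * (2 * k + 1) + 2) 0).sub (sA b1 (4 * (2 * k + 1) + 2)).hasSum).tsum_eq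
      simp only [pow_zero, add_zero, ← mul_one_sub] at e
      rw [A, e] at this
      rw [A]; linarith⟩
  exact ⟨s, ⟨1, b1⟩, l, l', L, L', h1, h1', h2, h2', fun e => by linarith [hL.1, hL'.2]⟩

end Pool.Agent.H95.WMean
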