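import Mathlib

namespace Pool.Agent.H95.WMean
open Filter Topology Finset

/-- `l` is admissible for `s` and the weighted means tend to `L` -/
def Adm (s l : ℕ → ℝ) (L : ℝ) : Prop :=
  (∀ n, 0 < l n) ∧ Tendsto (fun n => ∑ i ∈ range n, l i) atTop atTop ∧
    Tendsto (fun n => (∑ i ∈ range n, l i * s i) / ∑ i ∈ range n, l i) atTop (𝓝 L)

/-- fully monotonic: all iterated differences are nonnegative -/
def FM (l : ℕ → ℝ) : Prop := ∀ k n, 0 ≤ (fun (a : ℕ → ℝ) (n : ℕ) => a n - a (n + 1))^[k] l n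

end Pool.Agent.H95.WMean
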