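import Pool.Agent.H95.WTransDefs

set_option autoImplicit false
open Filter Topology MeasureTheory Set

namespace Pool.Agent.H95.WTrans
open Pool.Agent.H95.WTransDefs

section
variable {X : Type*} [MeasurableSpace X] {μ : Measure X} {τ : X → X}

theorem inv_of_sets (hτ : MeasurePreserving τ μ μ)
    (h : ∀ B, MeasurableSet B → ∀ᵐ x ∂μ, τ x ∈ B → x ∈ B) {u : X → ℝ} (hu : AEMeasurable u μ) :
    ∀ᵐ x ∂μ, u (τ x) = u x := by
  have h1 := ae_all_iff.2 fun q : ℚ => h {x | hu.mk u x < q}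
    (measurableSet_lt hu.measurable_mk measurable_const)
  have h2 := ae_all_iff.2 fun q : ℚ => h {x | (q : ℝ) < hu.mk u x}
    (measurableSet_lt measurable_const hu.measurable_mk)
  have h3 := hτ.quasiMeasurePreserving.ae hu.ae_eq_mk
  filter_upwards [h1, h2, h3, hu.ae_eq_mk] with x h1 h2 h3 h4
  rw [h3, h4]
  rcases lt_trichotomy (hu.mk u (τ x)) (hu.mk u x) with h5 | h5 | h5
  · obtain ⟨q, a, b⟩ := exists_rat_btwn h5
    exact absurd (h1 q a) (not_lt.2 b.le)
  · exact h5
  · obtain ⟨q, a, b⟩ := exists_rat_btwn h5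
    exact absurd (h2 q b) (not_lt.2 a.le)

theorem general [IsFiniteMeasure μ] (hμ : μ ≠ 0) (hτ : MeasurePreserving τ μ μ) {φ : X → ℂ}
    (hφ : AEStronglyMeasurable φ μ) {C : ℝ} (hC : ∀ᵐ x ∂μ, ‖φ x‖ < C) (F : ℕ → X → ℂ)
    (hF0 : AEStronglyMeasurable (F 0) μ) (hF : ∀ n x, F (n + 1) x = φ x * F n (τ x))
    (hd : ∀ (B : Set X) (c : ℕ), MeasurableSet B → ∃ n : ℕ → ℕ,
      ∀ᵐ x ∂μ, Tendsto (fun k => F (n k) x) atTop (𝓝 (B.indicator (fun _ => (c : ℂ)) x))) :
    False := by
  have hne : (ae μ).NeBot := ae_neBot.2 hμ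
  have hm : ∀ n, AEStronglyMeasurable (F n) μ := by
    intro n
    induction n with
    | zero => exact hF0
    | succ n ih =>
      have : F (n + 1) = fun x => φ x * F n (τ x) := funext (hF n)
      rw [this]
      exact hφ.mul (ih.comp_measurePreserving hτ)
  have hc : ∀ c : ℕ, ∃ n : ℕ → ℕ, ∀ᵐ x ∂μ, Tendsto (fun k => F (n k) x) atTop (𝓝 (c : ℂ)) :=
    fun c => by simpa using hd univ c MeasurableSet.univ
  have hφ0 : ∀ᵐ x ∂μ, φ x ≠ 0 := by
    obtain ⟨n, hn⟩ := hc 1
    obtain ⟨n', hn'⟩ := hc 2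
    filter_upwards [hn, hn'] with x h1 h2 h0
    have hcl : IsClosed ({F 0 x, 0} : Set ℂ) := (toFinite _).isClosed
    have hmem : ∀ k, F k x ∈ ({F 0 x, 0} : Set ℂ) := by
      intro k
      cases k with
      | zero => simp
      | succ k => simp [hF, h0]
    have a1 := hcl.mem_of_tendsto h1 (Eventually.of_forall fun k => hmem _)
    have a2 := hcl.mem_of_tendsto h2 (Eventually.of_forall fun k => hmem _)
    simp only [mem_insert_iff, mem_singleton_iff, Nat.cast_eq_zero, one_ne_zero, or_false,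
      OfNat.ofNat_ne_zero] at a1 a2
    rw [← a1] at a2
    norm_num at a2
  have hshift : ∀ {n : ℕ → ℕ} {g : X → ℂ},
      (∀ᵐ x ∂μ, Tendsto (fun k => F (n k) x) atTop (𝓝 (g x))) →
      ∀ᵐ x ∂μ, Tendsto (fun k => F (n k + 1) x) atTop (𝓝 (φ x * g (τ x))) := by
    intro n g h
    filter_upwards [hτ.quasiMeasurePreserving.ae h] with x hx
    simp only [hF]
    exact hx.const_mul _
  let S : ℕ → Set X := fun n => {x | C * ‖F n x‖ < ‖F (n + 1) x‖}
  have hS : ∀ n, NullMeasurableSet (S n) μ := fun n =>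
    nullMeasurableSet_lt ((hm n).norm.aemeasurable.const_mul C) (hm (n + 1)).norm.aemeasurable
  have hS1 : ∀ n, μ (S n) = μ (S 0) := by
    intro n
    induction n with
    | zero => rfl
    | succ n ih =>
      rw [← ih, ← hτ.measure_preimage (hS n)]
      refine measure_congr ?_
      filter_upwards [hφ0] with x hx
      have hp : 0 < ‖φ x‖ := norm_pos_iff.2 hx
      refine propext ?_
      change C * ‖F (n + 1) x‖ < ‖F (n + 1 + 1) x‖ ↔ C * ‖F n (τ x)‖ < ‖F (n + 1) (τ x)‖
      rw [hF (n + 1) x, hF n x, norm_mul, norm_mul, mul_left_comm, mul_lt_mul_iff_right₀ hp]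
  have hS0 : μ (S 0) = 0 := by
    obtain ⟨n, hn⟩ := hc 1
    have h2 := hshift (g := fun _ => ((1 : ℕ) : ℂ)) hn
    let A : ℕ → Set X := fun K => ⋃ k, S (n (K + k))
    have hA : Antitone A := antitone_nat_of_succ_le fun K => iUnion_subset fun k =>
      subset_iUnion_of_subset (k + 1) (by rw [show K + (k + 1) = K + 1 + k by omega])
    have hlim := tendsto_measure_iInter_atTop (μ := μ)
      (fun K => NullMeasurableSet.iUnion fun k => hS (n (K + k))) hA ⟨0, measure_ne_top _ _⟩
    have hz : μ (⋂ K, A K) = 0 := by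
      rw [measure_eq_zero_iff_ae_notMem]
      filter_upwards [hn, h2, hC] with x h1 h2 h3 hx
      have h4 := (h2.norm.eventually_lt (h1.norm.const_mul C) (by simpa using h3))
      obtain ⟨K, hK⟩ := eventually_atTop.1 h4
      obtain ⟨k, hk⟩ := mem_iUnion.1 (mem_iInter.1 hx K)
      exact lt_asymm (hK (K + k) (by omega)) hk
    rw [hz] at hlim
    refine le_antisymm (ge_of_tendsto' hlim fun K => ?_) zero_le
    rw [← hS1 (n (K + 0))]
    exact measure_mono (subset_iUnion (fun k => S (n (K + k))) 0)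
  have hb : ∀ᵐ x ∂μ, ∀ n, ‖F (n + 1) x‖ ≤ C * ‖F n x‖ := by
    refine ae_all_iff.2 fun n => ?_
    have := measure_eq_zero_iff_ae_notMem.1 ((hS1 n).trans hS0)
    filter_upwards [this] with x hx
    exact not_lt.1 hx
  have hsets : ∀ B, MeasurableSet B → ∀ᵐ x ∂μ, τ x ∈ B → x ∈ B := by
    intro B hB
    obtain ⟨n, hn⟩ := hd B 1 hB
    filter_upwards [hn, hshift hn, hb, hφ0] with x h1 h2 h3 h4 hx
    by_contra hxB
    have := le_of_tendsto_of_tendsto' h2.norm (h1.norm.const_mul C) fun k => h3 (n k)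
    simp [hx, hxB, h4] at this
  have hinv : ∀ᵐ x ∂μ, ∀ n, ‖F n (τ x)‖ = ‖F n x‖ :=
    ae_all_iff.2 fun n => inv_of_sets hτ hsets (hm n).norm.aemeasurable
  choose n hn using hc
  obtain ⟨x, h1, h2⟩ := (hinv.and (ae_all_iff.2 hn)).exists
  have hp : ∀ k, ‖F k x‖ = ‖φ x‖ ^ k * ‖F 0 x‖ := by
    intro k
    induction k with
    | zero => simp
    | succ k ih => rw [hF, norm_mul, h1, ih]; ring
  rcases le_total ‖φ x‖ 1 with h | h
  · obtain ⟨c, hc⟩ := exists_nat_gt ‖F 0 x‖
    have := le_of_tendsto' (h2 c).norm fun k => show ‖F (n c k) x‖ ≤ ‖F 0 x‖ by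
      rw [hp]; exact mul_le_of_le_one_left (norm_nonneg _) (pow_le_one₀ (norm_nonneg _) h)
    simp only [Complex.norm_natCast] at this
    linarith
  · have a := ge_of_tendsto' (h2 0).norm fun k => show ‖F 0 x‖ ≤ ‖F (n 0 k) x‖ by
      rw [hp (n 0 k)]; exact le_mul_of_one_le_left (norm_nonneg _) (one_le_pow₀ h)
    have a2 : ‖F 0 x‖ = 0 := le_antisymm (by simpa using a) (norm_nonneg _)
    have := le_of_tendsto' (h2 1).norm fun k => show ‖F (n 1 k) x‖ ≤ 0 by rw [hp, a2, mul_zero]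
    norm_num at this

end

theorem m01_eq : m01 = volume.restrict (Ioc (0 : ℝ) (0 + 1)) := by
  rw [m01, zero_add, Measure.restrict_congr_set Ioc_ae_eq_Icc]

theorem mp (α : ℝ) : MeasurePreserving (fun x => Int.fract (x + α)) m01 m01 := by
  let ψ : UnitAddCircle → ℝ := fun y => (AddCircle.equivIco 1 0 y : ℝ)
  have hψm : Measurable ψ := measurable_subtype_coe.comp (AddCircle.measurableEquivIco 1 0).measurable
  have hψ : ∀ x : ℝ, ψ x = Int.fract x := fun x => by
    have := AddCircle.coe_equivIco_mk_apply (p := (1 : ℝ)) x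
    rw [div_one, mul_one] at this
    exact this
  have hmk : MeasurePreserving ((↑) : ℝ → UnitAddCircle) m01 volume := by
    rw [m01_eq]; exact AddCircle.measurePreserving_mk 1 0
  have h1 : MeasurePreserving ψ volume m01 := by
    refine ⟨hψm, ?_⟩
    rw [← hmk.map_eq, Measure.map_map hψm hmk.measurable]
    conv_rhs => rw [← Measure.map_id (μ := m01)]
    refine Measure.map_congr ?_
    rw [m01, ← Measure.restrict_congr_set Ico_ae_eq_Icc]
    filter_upwards [ae_restrict_mem measurableSet_Ico] with x hx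
    simp only [Function.comp, hψ, id]
    exact Int.fract_eq_self.2 hx
  have h2 := h1.comp ((measurePreserving_add_right volume ((α : ℝ) : UnitAddCircle)).comp hmk)
  convert h2 using 1
  funext x
  simp only [Function.comp]
  rw [← hψ]
  rfl

theorem main {p : ENNReal} (hp : p ≠ 0) {φ : ℝ → ℂ} (hφ : MemLp φ ⊤ m01) (α : ℝ) {f : ℝ → ℂ}
    (hf : MemLp f p m01) :
    ¬ ∀ g : ℝ → ℂ, MemLp g p m01 → ∀ ε : ENNReal, 0 < ε →
      ∃ n : ℕ, eLpNorm ((wt φ α)^[n] f - g) p m01 < ε := by
  intro h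
  have hfin : IsFiniteMeasure m01 := by unfold m01; infer_instance
  have hne : m01 ≠ 0 := by
    intro h0
    have : m01 univ = 1 := by simp [m01]
    simp [h0] at this
  have hF : ∀ n x, (wt φ α)^[n + 1] f x = φ x * (wt φ α)^[n] f (Int.fract (x + α)) := fun n x => by
    rw [Function.iterate_succ_apply']; rfl
  have hm : ∀ n, AEStronglyMeasurable ((wt φ α)^[n] f) m01 := by
    intro n
    induction n with
    | zero => exact hf.1
    | succ n ih =>
      rw [funext (hF n)]
      exact hφ.1.mul (ih.comp_measurePreserving (mp α))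
  refine general hne (mp α) hφ.1 (C := (eLpNormEssSup φ m01).toReal + 1) ?_
    (fun n => (wt φ α)^[n] f) hf.1 hF fun B c hB => ?_
  · filter_upwards [ae_le_eLpNormEssSup (f := φ) (μ := m01)] with x hx
    have h2 : eLpNormEssSup φ m01 ≠ ⊤ := by simpa using hφ.2.ne
    have := ENNReal.toReal_mono h2 hx
    simp only [toReal_enorm] at this
    linarith
  · have hg : MemLp (B.indicator fun _ => (c : ℂ)) p m01 := (memLp_const _).indicator hB
    choose n hn using fun k : ℕ => h _ hg ((k : ENNReal))⁻¹ (by simp)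
    have h1 : Tendsto (fun k => eLpNorm ((wt φ α)^[n k] f - B.indicator fun _ => (c : ℂ)) p m01)
        atTop (𝓝 0) :=
      tendsto_of_tendsto_of_tendsto_of_le_of_le tendsto_const_nhds ENNReal.tendsto_inv_nat_nhds_zero
        (fun _ => zero_le) fun k => (hn k).le
    obtain ⟨s, -, hs⟩ := (tendstoInMeasure_of_tendsto_eLpNorm hp (fun k => hm (n k)) hg.1
      h1).exists_seq_tendsto_ae
    exact ⟨fun k => n (s k), hs⟩

end Pool.Agent.H95.WTrans
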