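import Mathlib

set_option autoImplicit false

namespace Pool.Agent.H95.WTransDefs

/-- The weighted translation `f ↦ φ(x) f({x + α})`, on functions. -/
noncomputable def wt (φ : ℝ → ℂ) (α : ℝ) (f : ℝ → ℂ) : ℝ → ℂ :=
  fun x => φ x * f (Int.fract (x + α))

/-- Lebesgue measure on `[0,1]`. -/
noncomputable def m01 : MeasureTheory.Measure ℝ := MeasureTheory.volume.restrict (Set.Icc 0 1)

end Pool.Agent.H95.WTransDefs
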