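import Pool.Agent.H95.WinfDefs

namespace Pool.Agent.H95.Winf
open Filter Topology Real Set

theorem kc_le (n : ℕ) : kc (Pi.single (0 : Fin (n + 1)) 1) ≤ 1 := by
  refine iInf₂_le_of_le 1 ⟨one_pos, fun κ hκ => ?_⟩ le_rfl
  have n0 : (0 : ℝ) ≤ n := n.cast_nonneg
  obtain ⟨x, -, hx⟩ := intermediate_value_Icc (a := 0) (b := π / 2) (by positivity)
    (f := fun x => κ / (n + 1) * ((1 + cos x + 2 * n) * sin x)) (by fun_prop) (show (1 : ℝ) ∈ _ from
      ⟨by simp, by simp only [cos_pi_div_two, sin_pi_div_two]; rw [div_mul_eq_mul_div, one_le_div (by positivity)]; nlinarith⟩)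
  refine ⟨Pi.single 0 x, fun i => ?_⟩
  refine Fin.cases ?_ (fun i => ?_) i
  · simp only [rhs, ← Finset.sum_mul, Fin.sum_univ_succ, Pi.single_eq_same]
    simp only [Fin.succ_ne_zero, ne_eq, not_false_eq_true, Pi.single_eq_of_ne, cos_zero, Finset.sum_const,
      Finset.card_univ, Fintype.card_fin, nsmul_eq_mul]
    push_cast; linarith
  · simp [rhs]

theorem notConv (n : ℕ) {κ : ℝ} (k0 : 0 < κ) (hκ : κ < (n + 1) / 2) :
    ¬ Conv (Fin.cons 0 fun _ => π) (Pi.single (0 : Fin (n + 1)) 1) κ := by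
  rintro ⟨θ, h0, hd, hc⟩
  have c1 : ∀ x, 0 ≤ 1 + cos x := fun x => by linarith [neg_one_le_cos x]
  have c2 : ∀ x, 1 + cos x ≤ 2 := fun x => by linarith [cos_le_one x]
  have st : ∀ j : Fin n, ∀ t ≥ 0, θ t j.succ = π := fun j t ht => by
    have := norm_le_gronwallBound_of_norm_deriv_right_le (f := fun s => θ s j.succ - π) (a := 0) (b := t)
      (δ := 0) (K := κ / (n + 1 : ℕ) * ∑ _j : Fin (n + 1), 2) (ε := 0)
      (fun s hs => ((hd _ s hs.1).sub_const _).continuousWithinAt.mono Icc_subset_Ici_self)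
      (fun s hs => ((hd _ s hs.1).sub_const _).mono (Ici_subset_Ici.2 hs.1)) (by simp [h0])
      (fun s _ => by
        rw [rhs, Pi.single_eq_of_ne j.succ_ne_zero, zero_sub, norm_neg, ← Finset.sum_mul, add_zero, ← mul_assoc,
          norm_mul, Real.norm_of_nonneg (mul_nonneg (by positivity) (Finset.sum_nonneg fun _ _ => c1 _))]
        gcongr
        · exact c2 _
        · rw [← norm_neg, ← sin_sub_pi]; exact abs_sin_le_abs) t ⟨ht, le_rfl⟩
    rw [gronwallBound_ε0_δ0] at this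
    exact sub_eq_zero.1 (norm_le_zero_iff.1 this)
  have p : 0 < 1 - κ / (n + 1) * 2 := by
    rw [sub_pos, div_mul_eq_mul_div, div_lt_one (by positivity)]; linarith
  obtain ⟨L, hL⟩ := hc 0
  refine not_tendsto_atTop_of_tendsto_nhds hL (tendsto_atTop_mono' _ ((eventually_ge_atTop 0).mono fun t ht => ?_)
    (tendsto_id.const_mul_atTop p))
  have := (convex_Ici (0 : ℝ)).mul_sub_le_image_sub_of_le_deriv (f := fun s => θ s 0) (C := 1 - κ / (n + 1) * 2)
    (fun s hs => (hd 0 s hs).continuousWithinAt)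
    (fun s hs => (hd 0 s (interior_subset hs)).differentiableWithinAt.mono interior_subset)
    (fun s hs => by
      have s0 : 0 ≤ s := interior_subset hs
      rw [((hd 0 s s0).hasDerivAt (mem_interior_iff_mem_nhds.1 hs)).deriv, rhs, Fin.sum_univ_succ]
      simp only [st _ s s0, cos_pi, add_neg_cancel, zero_mul, Finset.sum_const_zero, add_zero, Pi.single_eq_same]
      push_cast
      gcongr
      nlinarith [c1 (θ s 0), c2 (θ s 0), sin_le_one (θ s 0)]) 0 self_mem_Ici t ht ht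
  simpa [h0] using this

theorem le_kpc (n : ℕ) : (((n + 1) / 2 : ℝ) : EReal) ≤
    kpc (Fin.cons 0 fun _ => π) (Pi.single (0 : Fin (n + 1)) 1) := by
  refine le_iInf₂ fun k hk => EReal.coe_le_coe_iff.2 (le_of_not_gt fun h => ?_)
  exact notConv n (κ := (k + (n + 1) / 2) / 2) (by linarith [hk.1]) (by linarith) (hk.2 _ (by linarith))

theorem main : (∃ (N : ℕ) (Ω θ₀ : Fin N → ℝ), 1 ≤ N ∧ kc Ω < kpc θ₀ Ω) ∧
    ∀ c : ℝ, ∃ (N : ℕ) (Ω θ₀ : Fin N → ℝ), 1 ≤ N ∧ ((c * ‖Ω‖ : ℝ) : EReal) < kpc θ₀ Ω := by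
  refine ⟨⟨3, _, _, by norm_num, (kc_le 2).trans_lt (lt_of_lt_of_le ?_ (le_kpc 2))⟩, fun c => ?_⟩
  · exact_mod_cast (by norm_num : (1 : ℝ) < ((2 : ℕ) + 1) / 2)
  · obtain ⟨n, hn⟩ := exists_nat_gt (2 * c)
    refine ⟨n + 1, _, _, by omega, lt_of_lt_of_le (EReal.coe_lt_coe_iff.2 ?_) (le_kpc n)⟩
    rw [Pi.norm_single, norm_one]; linarith

end Pool.Agent.H95.Winf
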