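import Mathlib

namespace Pool.Agent.H95.Winf
open Filter Topology Real

variable {N : ℕ}

/-- right-hand side of the Winfree model -/
noncomputable def rhs (Ω : Fin N → ℝ) (κ : ℝ) (θ : Fin N → ℝ) (i : Fin N) : ℝ :=
  Ω i - κ / N * ∑ j, (1 + cos (θ j)) * sin (θ i)

/-- the solution from `θ₀` converges -/
def Conv (θ₀ Ω : Fin N → ℝ) (κ : ℝ) : Prop :=
  ∃ θ : ℝ → Fin N → ℝ, θ 0 = θ₀ ∧
    (∀ i, ∀ t ≥ 0, HasDerivWithinAt (fun s => θ s i) (rhs Ω κ (θ t) i) (Set.Ici 0) t) ∧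
    ∀ i, ∃ L, Tendsto (fun t => θ t i) atTop (𝓝 L)

/-- threshold of a property of the coupling strength, in the extended reals -/
noncomputable def thr (P : ℝ → Prop) : EReal := ⨅ (k : ℝ) (_ : 0 < k ∧ ∀ κ > k, P κ), (k : EReal)

noncomputable def kc (Ω : Fin N → ℝ) : EReal := thr fun κ => ∃ θ, ∀ i, rhs Ω κ θ i = 0

noncomputable def kpc (θ₀ Ω : Fin N → ℝ) : EReal := thr (Conv θ₀ Ω)

end Pool.Agent.H95.Winf
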