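import Mathlib

set_option autoImplicit false

namespace Pool.Agent.H95.Zs
open Filter Topology Set
open Classical

theorem comb {ι : Type*} (T : Finset ι) (y a : ι → ℝ) (hpos : ∃ p ∈ T, 0 < a p)
    (hy : ∀ p ∈ T, y p ≠ 0)
    (hg : ∀ p ∈ T, ∀ q ∈ T, p ≠ q → a p ≠ 0 → a q * y p ≠ a p * y q) :
    (if ∀ p ∈ T, 0 ≤ y p then (1 : ℝ) else 0) =
      ∑ p ∈ T with a p ≠ 0, (if 0 < a p then (1 : ℝ) else -1) *
        (if 0 ≤ y p / a p ∧ ∀ q ∈ T, 0 ≤ y q - y p / a p * a q then (1 : ℝ) else 0) := by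
  set c : ι → Prop := fun p => 0 ≤ y p / a p ∧ ∀ q ∈ T, 0 ≤ y q - y p / a p * a q with hc
  have up : ∀ μ p, 0 < a p → (0 ≤ y p - μ * a p ↔ μ ≤ y p / a p) := fun μ p h => by
    rw [le_div_iff₀ h]; constructor <;> intro <;> linarith
  have lo : ∀ μ p, a p < 0 → (0 ≤ y p - μ * a p ↔ y p / a p ≤ μ) := fun μ p h => by
    rw [div_le_iff_of_neg h]; constructor <;> intro <;> linarith
  have uniq : ∀ p ∈ T, ∀ q ∈ T, a p ≠ 0 → a q ≠ 0 → y p / a p = y q / a q → p = q := by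
    intro p hp q hq h1 h2 h
    by_contra hne
    apply hg p hp q hq hne h1
    field_simp at h
    linarith
  have hsum : ∑ p ∈ T with a p ≠ 0, (if 0 < a p then (1 : ℝ) else -1) * (if c p then (1 : ℝ) else 0)
      = ((T.filter fun p => 0 < a p ∧ c p).card : ℝ) - ((T.filter fun p => a p < 0 ∧ c p).card : ℝ) := by
    rw [Finset.card_filter, Finset.card_filter, Finset.sum_filter]
    push_cast
    rw [← Finset.sum_sub_distrib]
    refine Finset.sum_congr rfl fun p _ => ?_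
    rcases lt_trichotomy (a p) 0 with h | h | h
    · by_cases h' : c p <;> simp [h, h', h.ne, not_lt.2 h.le]
    · simp [h]
    · by_cases h' : c p <;> simp [h, h', h.ne', not_lt.2 h.le]
  rw [hsum]
  have one : ∀ (P : ι → Prop) [DecidablePred P], (∀ p ∈ T, P p → a p ≠ 0) →
      (∀ p ∈ T, ∀ q ∈ T, P p → P q → y p / a p ≤ y q / a q) → (∃ m ∈ T, P m) →
      (T.filter P).card = 1 := by
    rintro P _ h1 h2 ⟨m, hm, hPm⟩
    rw [Finset.card_eq_one]
    refine ⟨m, Finset.eq_singleton_iff_unique_mem.2 ⟨Finset.mem_filter.2 ⟨hm, hPm⟩, fun p hp => ?_⟩⟩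
    rw [Finset.mem_filter] at hp
    exact uniq p hp.1 m hm (h1 p hp.1 hp.2) (h1 m hm hPm)
      (le_antisymm (h2 p hp.1 m hm hp.2 hPm) (h2 m hm p hp.1 hPm hp.2))
  by_cases hJ : ∃ μ, 0 ≤ μ ∧ ∀ q ∈ T, 0 ≤ y q - μ * a q
  · obtain ⟨μ, hμ, hI⟩ := hJ
    have hP : (T.filter fun p => 0 < a p ∧ c p).card = 1 := by
      refine one (fun p => 0 < a p ∧ c p) (fun p _ h => h.1.ne') 
        (fun p hp q hq h1 h2 => (up _ q h2.1).1 (h1.2.2 q hq)) ?_
      obtain ⟨p0, hp0, ha0⟩ := hpos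
      obtain ⟨m, hm, hmin⟩ := (T.filter fun p => 0 < a p).exists_min_image (fun p => y p / a p)
        ⟨p0, Finset.mem_filter.2 ⟨hp0, ha0⟩⟩
      rw [Finset.mem_filter] at hm
      have hle : μ ≤ y m / a m := (up _ m hm.2).1 (hI m hm.1)
      refine ⟨m, hm.1, hm.2, hμ.trans hle, fun q hq => ?_⟩
      by_cases h : 0 < a q
      · exact (up _ q h).2 (hmin q (Finset.mem_filter.2 ⟨hq, h⟩))
      · have := hI q hq
        nlinarith [not_lt.1 h]
    rw [hP]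
    by_cases h0 : ∀ p ∈ T, 0 ≤ y p
    · have : (T.filter fun p => a p < 0 ∧ c p) = ∅ := by
        refine Finset.filter_eq_empty_iff.2 fun p hp h => hy p hp ?_
        have h1 := h.2.1
        rw [le_div_iff_of_neg h.1] at h1
        exact le_antisymm (by simpa using h1) (h0 p hp)
      rw [this, if_pos h0]; simp
    · have hN : (T.filter fun p => a p < 0 ∧ c p).card = 1 := by
        refine one (fun p => a p < 0 ∧ c p) (fun p _ h => h.1.ne) 
          (fun p hp q hq h1 h2 => (lo _ p h1.1).1 (h2.2.2 p hp)) ?_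
        push Not at h0
        obtain ⟨q0, hq0, hy0⟩ := h0
        have ha0 : a q0 < 0 := by
          by_contra h
          have := hI q0 hq0
          nlinarith [mul_nonneg hμ (not_lt.1 h)]
        obtain ⟨m, hm, hmax⟩ := (T.filter fun p => a p < 0).exists_max_image (fun p => y p / a p)
          ⟨q0, Finset.mem_filter.2 ⟨hq0, ha0⟩⟩
        rw [Finset.mem_filter] at hm
        have hle : y m / a m ≤ μ := (lo _ m hm.2).1 (hI m hm.1)
        refine ⟨m, hm.1, hm.2, ?_, fun q hq => ?_⟩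
        · exact (div_pos_of_neg_of_neg hy0 ha0).le.trans (hmax q0 (Finset.mem_filter.2 ⟨hq0, ha0⟩))
        · by_cases h : a q < 0
          · exact (lo _ q h).2 (hmax q (Finset.mem_filter.2 ⟨hq, h⟩))
          · have := hI q hq
            nlinarith [not_lt.1 h]
      rw [hN, if_neg h0]; simp
  · have e1 : ∀ (P : ι → Prop) [DecidablePred fun p => P p ∧ c p],
        (T.filter fun p => P p ∧ c p) = ∅ := fun P _ =>
      Finset.filter_eq_empty_iff.2 fun p _ h => hJ ⟨_, h.2.1, h.2.2⟩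
    rw [e1, e1, if_neg]
    · simp
    · intro h
      exact hJ ⟨0, le_rfl, fun q hq => by simpa using h q hq⟩

variable {W : Type*} [AddCommGroup W] [Module ℝ W]

/-- generic points of a subspace -/
def gen (E : Submodule ℝ W) : Filter W where
  sets := {A | ∃ 𝒲 : Set (Submodule ℝ W), 𝒲.Finite ∧ (∀ U ∈ 𝒲, ¬ E ≤ U) ∧
    ∀ x ∈ E, (∀ U ∈ 𝒲, x ∉ U) → x ∈ A}
  univ_sets := ⟨∅, finite_empty, by simp, by simp⟩
  sets_of_superset := by
    rintro A B ⟨𝒲, h1, h2, h3⟩ h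
    exact ⟨𝒲, h1, h2, fun x hx h' => h (h3 x hx h')⟩
  inter_sets := by
    rintro A B ⟨𝒲, h1, h2, h3⟩ ⟨𝒱, k1, k2, k3⟩
    refine ⟨𝒲 ∪ 𝒱, h1.union k1, ?_, fun x hx h' =>
      ⟨h3 x hx fun U hU => h' U (Or.inl hU), k3 x hx fun U hU => h' U (Or.inr hU)⟩⟩
    rintro U (h | h)
    exacts [h2 U h, k2 U h]

theorem gen_iff {E : Submodule ℝ W} {Q : W → Prop} : (∀ᶠ x in gen E, Q x) ↔
    ∃ 𝒲 : Set (Submodule ℝ W), 𝒲.Finite ∧ (∀ U ∈ 𝒲, ¬ E ≤ U) ∧
      ∀ x ∈ E, (∀ U ∈ 𝒲, x ∉ U) → Q x := Iff.rfl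

theorem gen_mem (E : Submodule ℝ W) : ∀ᶠ x in gen E, x ∈ E :=
  gen_iff.2 ⟨∅, finite_empty, by simp, fun _ h _ => h⟩

theorem gen_not {E U : Submodule ℝ W} (h : ¬ E ≤ U) : ∀ᶠ x in gen E, x ∉ U :=
  gen_iff.2 ⟨{U}, finite_singleton _, by simpa using h, fun _ _ h => h U rfl⟩

theorem gen_ne {E : Submodule ℝ W} (φ : W →ₗ[ℝ] ℝ) {z : W} (hz : z ∈ E) (h : φ z ≠ 0) :
    ∀ᶠ x in gen E, φ x ≠ 0 :=
  gen_not (U := LinearMap.ker φ) fun h' => h (h' hz)

theorem gen_tendsto {E H : Submodule ℝ W} (π : W →ₗ[ℝ] W) (hHE : H ≤ E) (h1 : ∀ x ∈ E, π x ∈ H)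
    (h2 : ∀ x ∈ H, π x = x) : Tendsto π (gen E) (gen H) := by
  rintro A ⟨𝒲, k1, k2, k3⟩
  refine ⟨Submodule.comap π '' 𝒲, k1.image _, ?_, fun x hx h => k3 _ (h1 x hx) fun U hU h' =>
    h _ (mem_image_of_mem _ hU) h'⟩
  rintro _ ⟨U, hU, rfl⟩ h
  exact k2 U hU fun x hx => by simpa [h2 x hx] using h (hHE hx)

theorem ev_line {U : Submodule ℝ W} {y v : W} (h : v ∈ U → y ∉ U) :
    ∀ᶠ t in 𝓝[≠] (0 : ℝ), y + t • v ∉ U := by
  by_cases hv : v ∈ U
  · exact Eventually.of_forall fun t ht => h hv (by simpa using U.sub_mem ht (U.smul_mem t hv))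
  · by_cases hs : ∃ s : ℝ, y + s • v ∈ U
    · obtain ⟨s, hs⟩ := hs
      have : ∀ᶠ t in 𝓝[≠] (0 : ℝ), t ≠ s := by
        by_cases h0 : s = 0
        · subst h0; exact self_mem_nhdsWithin
        · exact nhdsWithin_le_nhds (isOpen_ne.mem_nhds (Ne.symm h0))
      refine this.mono fun t ht h' => hv ?_
      have h3 := U.smul_mem (t - s)⁻¹ (U.sub_mem h' hs)
      have : (t - s)⁻¹ • (y + t • v - (y + s • v)) = v := by
        rw [add_sub_add_left_eq_sub, ← sub_smul, smul_smul, inv_mul_cancel₀ (sub_ne_zero.2 ht),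
          one_smul]
      rwa [this] at h3
    · exact Eventually.of_forall fun t ht => hs ⟨t, ht⟩

theorem ev_sign {b : ℝ} (hb : b ≠ 0) : ∀ᶠ t in 𝓝 (0 : ℝ), (0 ≤ b + t ↔ 0 ≤ b) := by
  have : ∀ᶠ t in 𝓝 (0 : ℝ), |t| < |b| :=
    (continuous_abs.tendsto 0).eventually (gt_mem_nhds (by simpa using hb))
  refine this.mono fun t ht => ?_
  rcases abs_cases b with h | h <;> rcases abs_cases t with k | k <;> constructor <;> intro <;>
    linarith [h.1, h.2, k.1, k.2]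

end Pool.Agent.H95.Zs
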