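import Pool.Agent.H95.Zs1

set_option autoImplicit false

namespace Pool.Agent.H95.Zs
open Filter Topology Set
open Classical

variable {W : Type*} [AddCommGroup W] [Module ℝ W] {ι : Type*} (e : ι → W)

def Ind (T : Finset ι) : Prop :=
  ∃ ℓ : ι → W →ₗ[ℝ] ℝ, ∀ p ∈ T, ∀ q ∈ T, ℓ p (e q) = if p = q then 1 else 0

def sp (T : Finset ι) : Submodule ℝ W := Submodule.span ℝ (e '' (T : Set ι))

def cone (T : Finset ι) : Set W :=
  {x | ∃ c : ι → ℝ, (∀ p ∈ T, 0 ≤ c p) ∧ x = ∑ p ∈ T, c p • e p}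

noncomputable def chi (T : Finset ι) : W → ℝ := fun x => if x ∈ cone e T then 1 else 0

def BB (S : Finset ι) (E : Submodule ℝ W) : Set (Finset ι) := {T | T ⊆ S ∧ Ind e T ∧ sp e T = E}

noncomputable def CC (φ : W →ₗ[ℝ] ℝ) (v : W) : (W → ℝ) →ₗ[ℝ] (W → ℝ) where
  toFun g x := if 0 ≤ φ x then g (x - φ x • v) else 0
  map_add' f g := by ext x; by_cases h : 0 ≤ φ x <;> simp [h]
  map_smul' c g := by ext x; by_cases h : 0 ≤ φ x <;> simp [h]

variable {e}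

theorem mem_sp {T : Finset ι} {p : ι} (hp : p ∈ T) : e p ∈ sp e T :=
  Submodule.subset_span (mem_image_of_mem _ hp)

theorem cone_sub {T : Finset ι} {x : W} (hx : x ∈ cone e T) : x ∈ sp e T := by
  obtain ⟨c, -, rfl⟩ := hx
  exact Submodule.sum_mem _ fun p hp => Submodule.smul_mem _ _ (mem_sp hp)

theorem ell_sum {T : Finset ι} {ℓ : ι → W →ₗ[ℝ] ℝ}
    (h : ∀ p ∈ T, ∀ q ∈ T, ℓ p (e q) = if p = q then 1 else 0) (c : ι → ℝ) {p : ι} (hp : p ∈ T) :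
    ℓ p (∑ q ∈ T, c q • e q) = c p := by
  rw [map_sum, Finset.sum_eq_single p]
  · simp [h p hp p hp]
  · intro q hq hne; simp [h p hp q hq, Ne.symm hne]
  · intro h'; exact absurd hp h'

theorem repr_eq {T : Finset ι} {ℓ : ι → W →ₗ[ℝ] ℝ}
    (h : ∀ p ∈ T, ∀ q ∈ T, ℓ p (e q) = if p = q then 1 else 0) {x : W} (hx : x ∈ sp e T) :
    x = ∑ p ∈ T, ℓ p x • e p := by
  obtain ⟨c, rfl⟩ := (Submodule.mem_span_image_finset_iff_exists_fun' ℝ).1 hx
  exact Finset.sum_congr rfl fun p hp => by rw [ell_sum h c hp]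

theorem mem_cone {T : Finset ι} {ℓ : ι → W →ₗ[ℝ] ℝ}
    (h : ∀ p ∈ T, ∀ q ∈ T, ℓ p (e q) = if p = q then 1 else 0) {x : W} (hx : x ∈ sp e T) :
    x ∈ cone e T ↔ ∀ p ∈ T, 0 ≤ ℓ p x := by
  constructor
  · rintro ⟨c, hc, rfl⟩ p hp
    rw [ell_sum h c hp]; exact hc p hp
  · intro h'
    exact ⟨fun p => ℓ p x, h', repr_eq h hx⟩

theorem mem_sp_erase {T : Finset ι} {ℓ : ι → W →ₗ[ℝ] ℝ}
    (h : ∀ p ∈ T, ∀ q ∈ T, ℓ p (e q) = if p = q then 1 else 0) {p : ι} (hp : p ∈ T) {x : W}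
    (hx : x ∈ sp e T) : x ∈ sp e (T.erase p) ↔ ℓ p x = 0 := by
  constructor
  · intro h'
    have : sp e (T.erase p) ≤ LinearMap.ker (ℓ p) := by
      refine Submodule.span_le.2 ?_
      rintro _ ⟨q, hq, rfl⟩
      have hq' := Finset.mem_erase.1 (Finset.mem_coe.1 hq)
      simp [h p hp q hq'.2, Ne.symm hq'.1]
    exact this h'
  · intro h'
    rw [repr_eq h hx, ← Finset.add_sum_erase _ _ hp, h', zero_smul, zero_add]
    exact Submodule.sum_mem _ fun q hq => Submodule.smul_mem _ _ (mem_sp hq)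

theorem CC_chi {τ : Finset ι} {v : ι} {φ : W →ₗ[ℝ] ℝ} (h1 : φ (e v) = 1)
    (h0 : ∀ x ∈ sp e τ, φ x = 0) : CC φ (e v) (chi e τ) = chi e (insert v τ) := by
  have hv : v ∉ τ := fun h => by simpa [h1] using h0 _ (mem_sp h)
  ext x
  have : x ∈ cone e (insert v τ) ↔ 0 ≤ φ x ∧ x - φ x • e v ∈ cone e τ := by
    constructor
    · rintro ⟨c, hc, rfl⟩
      have hy : ∑ p ∈ τ, c p • e p ∈ cone e τ :=
        ⟨c, fun p hp => hc p (Finset.mem_insert_of_mem hp), rfl⟩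
      rw [Finset.sum_insert hv, map_add, h0 _ (cone_sub hy), map_smul, h1]
      simpa using ⟨hc v (Finset.mem_insert_self _ _), hy⟩
    · rintro ⟨h2, c, hc, h3⟩
      refine ⟨Function.update c v (φ x), fun p hp => ?_, ?_⟩
      · by_cases hpv : p = v
        · subst hpv; simpa using h2
        · rw [Function.update_of_ne hpv]
          exact hc p ((Finset.mem_insert.1 hp).resolve_left hpv)
      · rw [Finset.sum_insert hv, Function.update_self, Finset.sum_congr rfl fun p hp => by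
          rw [Function.update_of_ne (ne_of_mem_of_not_mem hp hv)], ← h3]
        simp
  by_cases h2 : 0 ≤ φ x <;> simp [CC, chi, this, h2]

theorem ind_insert {τ : Finset ι} {v : ι} {φ : W →ₗ[ℝ] ℝ} (h1 : φ (e v) = 1)
    (h0 : ∀ x ∈ sp e τ, φ x = 0) (h : Ind e τ) : Ind e (insert v τ) := by
  have hv : v ∉ τ := fun h => by simpa [h1] using h0 _ (mem_sp h)
  obtain ⟨ℓ, hℓ⟩ := h
  refine ⟨fun p => if p = v then φ else ℓ p - ℓ p (e v) • φ, fun p hp q hq => ?_⟩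
  rcases Finset.mem_insert.1 hp with rfl | hp' <;> rcases Finset.mem_insert.1 hq with rfl | hq'
  · simp [h1]
  · simp [h0 _ (mem_sp hq'), (ne_of_mem_of_not_mem hq' hv).symm]
  · simp [h1, ne_of_mem_of_not_mem hp' hv]
  · simp [ne_of_mem_of_not_mem hp' hv, h0 _ (mem_sp hq'), hℓ p hp' q hq']

theorem sp_insert (τ : Finset ι) (v : ι) :
    sp e (insert v τ) = sp e τ ⊔ Submodule.span ℝ {e v} := by
  simp only [sp, Finset.coe_insert, image_insert_eq]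
  rw [Submodule.span_insert, sup_comm]

theorem proj_mem {H E : Submodule ℝ W} {v : W} {φ : W →ₗ[ℝ] ℝ} (h1 : φ v = 1)
    (h0 : ∀ x ∈ H, φ x = 0) (hE : H ⊔ Submodule.span ℝ {v} = E) {x : W} (hx : x ∈ E) :
    x - φ x • v ∈ H := by
  rw [← hE] at hx
  obtain ⟨y, hy, z, hz, rfl⟩ := Submodule.mem_sup.1 hx
  obtain ⟨t, rfl⟩ := Submodule.mem_span_singleton.1 hz
  simpa [h0 y hy, h1] using hy

/-- the cone identity -/
theorem cone_id {T : Finset ι} {ℓ : ι → W →ₗ[ℝ] ℝ}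
    (h : ∀ p ∈ T, ∀ q ∈ T, ℓ p (e q) = if p = q then 1 else 0) {v : W} (hv : v ∈ sp e T)
    (hpos : ∃ p ∈ T, 0 < ℓ p v) (Φ : ι → W →ₗ[ℝ] ℝ)
    (h1 : ∀ p ∈ T, ℓ p v ≠ 0 → Φ p v = 1 ∧ ∀ x ∈ sp e (T.erase p), Φ p x = 0) :
    chi e T =ᶠ[gen (sp e T)] ∑ p ∈ T with ℓ p v ≠ 0,
      CC (Φ p) v ((if 0 < ℓ p v then (1 : ℝ) else -1) • chi e (T.erase p)) := by
  have g1 : ∀ᶠ x in gen (sp e T), ∀ p ∈ T, ℓ p x ≠ 0 :=
    (eventually_all_finset T).2 fun p hp => gen_ne _ (mem_sp hp) (by simp [h p hp p hp])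
  have g2 : ∀ᶠ x in gen (sp e T), ∀ p ∈ T, ∀ q ∈ T, p ≠ q → ℓ p v ≠ 0 →
      ℓ q v * ℓ p x ≠ ℓ p v * ℓ q x := by
    refine (eventually_all_finset T).2 fun p hp => (eventually_all_finset T).2 fun q hq => ?_
    by_cases hpq : p ≠ q ∧ ℓ p v ≠ 0
    · refine (gen_ne (ℓ q v • ℓ p - ℓ p v • ℓ q) (mem_sp hq) ?_).mono fun x hx _ _ h' => hx ?_
      · simp [h p hp q hq, h q hq q hq, hpq.1, hpq.2]
      · simp [h']
    · exact Eventually.of_forall fun x h2 h3 => absurd ⟨h2, h3⟩ hpq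
  filter_upwards [g1, g2, gen_mem _] with x hx1 hx2 hx
  have := comb T (fun p => ℓ p x) (fun p => ℓ p v) hpos hx1 hx2
  rw [Finset.sum_apply, chi]
  simp only [mem_cone h hx]
  rw [this]
  refine Finset.sum_congr rfl fun p hp => ?_
  obtain ⟨hp, ha⟩ := Finset.mem_filter.1 hp
  obtain ⟨k1, k0⟩ := h1 p hp ha
  have hz : ∀ t : ℝ, x - t • v ∈ sp e T := fun t => Submodule.sub_mem _ hx (Submodule.smul_mem _ _ hv)
  have hm : x - (ℓ p x / ℓ p v) • v ∈ sp e (T.erase p) := by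
    rw [mem_sp_erase h hp (hz _)]; simp [ha]
  have hΦ : Φ p x = ℓ p x / ℓ p v := by
    have := k0 _ hm
    simp only [map_sub, map_smul, k1, smul_eq_mul, mul_one] at this
    linarith
  have hc : x - (ℓ p x / ℓ p v) • v ∈ cone e (T.erase p) ↔
      ∀ q ∈ T, 0 ≤ ℓ q x - ℓ p x / ℓ p v * ℓ q v := by
    rw [mem_cone (ℓ := ℓ) (fun a ha b hb => h a (Finset.mem_of_mem_erase ha) b
      (Finset.mem_of_mem_erase hb)) hm]
    simp only [map_sub, map_smul, smul_eq_mul]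
    constructor
    · intro h' q hq
      by_cases hqp : q = p
      · subst hqp; simp [ha]
      · exact h' q (Finset.mem_erase.2 ⟨hqp, hq⟩)
    · exact fun h' q hq => h' q (Finset.mem_of_mem_erase hq)
  rw [map_smul, Pi.smul_apply, smul_eq_mul]
  congr 1
  show _ = if 0 ≤ Φ p x then chi e (T.erase p) (x - Φ p x • v) else 0
  rw [hΦ, chi]
  simp only [hc]
  by_cases k : 0 ≤ ℓ p x / ℓ p v <;> simp [k]

end Pool.Agent.H95.Zs
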