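import Pool.Agent.H95.Zs2

set_option autoImplicit false

namespace Pool.Agent.H95.Zs
open Filter Topology Set
open Classical

variable {W : Type*} [AddCommGroup W] [Module ℝ W] {ι : Type*} {e : ι → W}

theorem exists_phi (H : Submodule ℝ W) (v : W) :
    ∃ φ : W →ₗ[ℝ] ℝ, v ∉ H → φ v = 1 ∧ ∀ x ∈ H, φ x = 0 := by
  by_cases hv : v ∈ H
  · exact ⟨0, fun h => absurd hv h⟩
  · obtain ⟨g, h1, h2⟩ := LinearMap.exists_extend_of_notMem (0 : H →ₗ[ℝ] ℝ) hv 1
    exact ⟨g, fun _ => ⟨h2, fun x hx => by simpa using LinearMap.congr_fun h1 ⟨x, hx⟩⟩⟩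

theorem main [FiniteDimensional ℝ W] (S : Finset ι) (h : W →ₗ[ℝ] ℝ) (hh : ∀ p ∈ S, h (e p) = 1)
    (k : ℕ) : ∀ E : Submodule ℝ W, Module.finrank ℝ E = k →
    ∀ f ∈ Submodule.span ℝ (chi e '' BB e S E), (∀ᶠ x in gen E, ∃ z : ℤ, f x = z) →
    ∃ n ∈ Submodule.span ℤ (chi e '' BB e S E), f =ᶠ[gen E] n := by
  induction k using Nat.strong_induction_on with
  | _ k ih =>
  intro E hk f hf hint
  by_cases hv : ∃ v ∈ S, e v ∈ E
  swap
  · by_cases hB : (BB e S E).Nonempty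
    · obtain ⟨T, hT⟩ := hB
      have hT0 : T = ∅ := Finset.eq_empty_of_forall_notMem fun p hp =>
        hv ⟨p, hT.1 hp, hT.2.2 ▸ mem_sp hp⟩
      subst hT0
      have hE : E = ⊥ := by rw [← hT.2.2]; simp [sp]
      obtain ⟨𝒲, -, k2, k3⟩ := gen_iff.1 hint
      obtain ⟨z, hz⟩ := k3 0 E.zero_mem fun U hU => absurd (hE ▸ bot_le) (k2 U hU)
      refine ⟨z • chi e ∅, Submodule.smul_mem _ _ (Submodule.subset_span ⟨_, hT, rfl⟩), ?_⟩
      filter_upwards [gen_mem E] with x hx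
      have : x = 0 := by simpa [hE] using hx
      subst this
      have : (0 : W) ∈ cone e ∅ := ⟨0, by simp, by simp⟩
      simp [hz, chi, this]
    · rw [not_nonempty_iff_eq_empty.1 hB] at hf ⊢
      exact ⟨f, by simpa using hf, EventuallyEq.rfl⟩
  obtain ⟨v, hvS, hvE⟩ := hv
  choose φ hφ using fun H : Submodule ℝ W => exists_phi H (e v)
  set 𝓗 : Finset (Submodule ℝ W) := (S.powerset.image (sp e)).filter
    fun H => e v ∉ H ∧ H ⊔ Submodule.span ℝ {e v} = E with h𝓗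
  have hH : ∀ H ∈ 𝓗, e v ∉ H ∧ H ⊔ Submodule.span ℝ {e v} = E := fun H hH =>
    (Finset.mem_filter.1 hH).2
  have hle : ∀ H ∈ 𝓗, H ≤ E := fun H h' => (hH H h').2 ▸ le_sup_left
  -- decomposition
  let D : Submodule ℝ (W → ℝ) :=
    { carrier := {f | ∃ G : Submodule ℝ W → W → ℝ,
        (∀ H ∈ 𝓗, G H ∈ Submodule.span ℝ (chi e '' BB e S H)) ∧
        f =ᶠ[gen E] ∑ H ∈ 𝓗, CC (φ H) (e v) (G H)}
      add_mem' := by
        rintro f g ⟨G, h1, h2⟩ ⟨G', k1, k2⟩
        refine ⟨G + G', fun H hH => Submodule.add_mem _ (h1 H hH) (k1 H hH), ?_⟩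
        simpa [Finset.sum_add_distrib] using h2.add k2
      zero_mem' := ⟨0, fun H _ => Submodule.zero_mem _, by simp⟩
      smul_mem' := by
        rintro c f ⟨G, h1, h2⟩
        refine ⟨c • G, fun H hH => Submodule.smul_mem _ _ (h1 H hH), ?_⟩
        simpa [Finset.smul_sum] using h2.const_smul c }
  have hD1 : ∀ H ∈ 𝓗, ∀ g ∈ Submodule.span ℝ (chi e '' BB e S H), CC (φ H) (e v) g ∈ D := by
    intro H hH g hg
    refine ⟨Pi.single H g, fun H' _ => ?_, ?_⟩
    · by_cases h' : H' = H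
      · subst h'; simpa using hg
      · simp [h']
    · rw [Finset.sum_eq_single H]
      · simp
      · intro H' _ h'; simp [h']
      · intro h'; exact absurd hH h'
  have hD : Submodule.span ℝ (chi e '' BB e S E) ≤ D := by
    refine Submodule.span_le.2 ?_
    rintro _ ⟨T, ⟨hTS, ⟨ℓ, hℓ⟩, hTE⟩, rfl⟩
    have hvT : e v ∈ sp e T := hTE ▸ hvE
    have hpos : ∃ p ∈ T, 0 < ℓ p (e v) := by
      by_contra hc
      push Not at hc
      have h1 := hh v hvS
      rw [repr_eq hℓ hvT, map_sum] at h1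
      have : ∑ p ∈ T, h (ℓ p (e v) • e p) ≤ 0 :=
        Finset.sum_nonpos fun p hp => by simpa [hh p (hTS hp)] using hc p hp
      linarith
    have hnot : ∀ p ∈ T, ℓ p (e v) ≠ 0 → e v ∉ sp e (T.erase p) := fun p hp ha h' =>
      ha ((mem_sp_erase hℓ hp hvT).1 h')
    have key := cone_id hℓ hvT hpos (fun p => φ (sp e (T.erase p)))
      fun p hp ha => hφ _ (hnot p hp ha)
    rw [hTE] at key
    have hmem : (∑ p ∈ T with ℓ p (e v) ≠ 0, CC (φ (sp e (T.erase p))) (e v)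
        ((if 0 < ℓ p (e v) then (1 : ℝ) else -1) • chi e (T.erase p))) ∈ D := by
      refine Submodule.sum_mem _ fun p hp => ?_
      obtain ⟨hp, ha⟩ := Finset.mem_filter.1 hp
      have hsub : T.erase p ⊆ S := (Finset.erase_subset _ _).trans hTS
      refine hD1 _ (Finset.mem_filter.2 ⟨Finset.mem_image_of_mem _ (Finset.mem_powerset.2 hsub),
        hnot p hp ha, ?_⟩) _ (Submodule.smul_mem _ _ (Submodule.subset_span ⟨_, ⟨hsub,
          ⟨ℓ, fun a ha b hb => hℓ a (Finset.mem_of_mem_erase ha) b (Finset.mem_of_mem_erase hb)⟩,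
          rfl⟩, rfl⟩))
      rw [← hTE]
      refine le_antisymm (sup_le (Submodule.span_mono (image_mono (Finset.erase_subset _ _)))
        ((Submodule.span_singleton_le_iff_mem _ _).2 hvT)) fun x hx => ?_
      have hm : x - (ℓ p x / ℓ p (e v)) • e v ∈ sp e (T.erase p) := by
        rw [mem_sp_erase hℓ hp (Submodule.sub_mem _ hx (Submodule.smul_mem _ _ hvT))]; simp [ha]
      exact Submodule.mem_sup.2 ⟨_, hm, _, Submodule.smul_mem _ (ℓ p x / ℓ p (e v))
        (Submodule.mem_span_singleton_self _), by simp⟩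
    obtain ⟨G, h1, h2⟩ := hmem
    exact ⟨G, h1, key.trans h2⟩
  obtain ⟨G, hG, hfG⟩ := hD hf
  -- jumps are integers
  have hjump : ∀ H ∈ 𝓗, ∀ᶠ y in gen H, ∃ z : ℤ, G H y = z := by
    intro H hHm
    obtain ⟨k1, k0⟩ := hφ H (hH H hHm).1
    obtain ⟨𝒲, w1, w2, w3⟩ := gen_iff.1 (hint.and hfG)
    have g1 : ∀ᶠ y in gen H, ∀ U ∈ 𝒲, e v ∈ U → y ∉ U := by
      refine (eventually_all_finite w1).2 fun U hU => ?_
      by_cases hvU : e v ∈ U
      · refine (gen_not (U := U) fun h' => w2 U hU ?_).mono fun y hy _ => hy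
        rw [← (hH H hHm).2]
        exact sup_le h' ((Submodule.span_singleton_le_iff_mem _ _).2 hvU)
      · exact Eventually.of_forall fun y h' => absurd h' hvU
    have g2 : ∀ᶠ y in gen H, ∀ H' ∈ 𝓗, H' ≠ H → φ H' y ≠ 0 := by
      refine (eventually_all_finset 𝓗).2 fun H' hH' => ?_
      by_cases hne : H' = H
      · exact Eventually.of_forall fun y h' => absurd hne h'
      · obtain ⟨k1', k0'⟩ := hφ H' (hH H' hH').1
        refine (gen_not (U := LinearMap.ker (φ H')) fun h' => hne ?_).mono fun y hy _ => hy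
        have h3 : H ≤ H' := fun x hx => by
          have := proj_mem k1' k0' (hH H' hH').2 (hle H hHm hx)
          rwa [LinearMap.mem_ker.1 (h' hx), zero_smul, sub_zero] at this
        refine le_antisymm (fun x hx => ?_) h3
        have h4 := proj_mem k1 k0 (hH H hHm).2 (hle H' hH' hx)
        have h5 := k0' _ (h3 h4)
        simp only [map_sub, map_smul, k0' x hx, k1', smul_eq_mul, mul_one, zero_sub,
          neg_eq_zero] at h5
        rwa [h5, zero_smul, sub_zero] at h4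
    filter_upwards [g1, g2, gen_mem H] with y y1 y2 hy
    have e1 : ∀ᶠ t in 𝓝[≠] (0 : ℝ), ∀ U ∈ 𝒲, y + t • e v ∉ U :=
      (eventually_all_finite w1).2 fun U hU => ev_line (y1 U hU)
    have e2 : ∀ᶠ t in 𝓝 (0 : ℝ), ∀ H' ∈ 𝓗, H' ≠ H → (0 ≤ φ H' y + t ↔ 0 ≤ φ H' y) := by
      refine (eventually_all_finset 𝓗).2 fun H' hH' => ?_
      by_cases hne : H' = H
      · exact Eventually.of_forall fun y h' => absurd hne h'
      · exact (ev_sign (y2 H' hH' hne)).mono fun t ht _ => ht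
    have e3 : ∀ᶠ t in 𝓝[≠] (0 : ℝ), ∃ z : ℤ, (if 0 ≤ t then G H y else 0) +
        ∑ H' ∈ 𝓗.erase H, CC (φ H') (e v) (G H') y = z := by
      filter_upwards [e1, nhdsWithin_le_nhds e2] with t t1 t2
      obtain ⟨⟨z, hz⟩, hf'⟩ := w3 _ (E.add_mem (hle H hHm hy) (E.smul_mem t hvE)) t1
      refine ⟨z, ?_⟩
      rw [← hz, hf', Finset.sum_apply, ← Finset.add_sum_erase _ _ hHm]
      congr 1
      · simp [CC, k0 y hy, k1]
      · refine Finset.sum_congr rfl fun H' hH' => ?_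
        obtain ⟨hne, hH'⟩ := Finset.mem_erase.1 hH'
        have k1' := (hφ H' (hH H' hH').1).1
        have : y + t • e v - (φ H' y + t) • e v = y - φ H' y • e v := by
          rw [add_smul]; abel
        simp [CC, k1', t2 H' hH' hne, this]
    obtain ⟨t, ⟨z1, h1⟩, ht⟩ := ((e3.filter_mono (nhdsGT_le_nhdsNE 0)).and
      self_mem_nhdsWithin).exists
    obtain ⟨s, ⟨z2, h2⟩, hs⟩ := ((e3.filter_mono (nhdsLT_le_nhdsNE 0)).and
      self_mem_nhdsWithin).exists
    rw [if_pos (le_of_lt ht)] at h1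
    rw [if_neg (not_le.2 hs)] at h2
    exact ⟨z1 - z2, by push_cast; linarith⟩
  have hIH : ∀ H ∈ 𝓗, ∃ n ∈ Submodule.span ℤ (chi e '' BB e S E),
      CC (φ H) (e v) (G H) =ᶠ[gen E] n := by
    intro H hHm
    obtain ⟨k1, k0⟩ := hφ H (hH H hHm).1
    have hlt : H < E := lt_of_le_of_ne (hle H hHm) fun h' => (hH H hHm).1 (h' ▸ hvE)
    obtain ⟨n, hn, hGn⟩ := ih _ (hk ▸ Submodule.finrank_lt_finrank_of_lt hlt) H rfl (G H)
      (hG H hHm) (hjump H hHm)
    refine ⟨CC (φ H) (e v) n, ?_, ?_⟩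
    · have : Submodule.span ℤ (chi e '' BB e S H) ≤ (Submodule.span ℤ (chi e '' BB e S E)).comap
          ((CC (φ H) (e v)).restrictScalars ℤ) := by
        refine Submodule.span_le.2 ?_
        rintro _ ⟨τ, ⟨h1, h2, h3⟩, rfl⟩
        have k0' : ∀ x ∈ sp e τ, φ H x = 0 := h3 ▸ k0
        refine Submodule.subset_span ⟨insert v τ, ⟨Finset.insert_subset hvS h1,
          ind_insert k1 k0' h2, ?_⟩, (CC_chi k1 k0').symm⟩
        rw [sp_insert, h3, (hH H hHm).2]
      exact this hn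
    · have ht := gen_tendsto (LinearMap.id - (φ H).smulRight (e v)) (hle H hHm)
        (fun x hx => proj_mem k1 k0 (hH H hHm).2 hx) (fun x hx => by simp [k0 x hx])
      filter_upwards [ht.eventually hGn] with x hx
      have hx' : G H (x - φ H x • e v) = n (x - φ H x • e v) := hx
      simp [CC, hx']
  choose! N hN1 hN2 using hIH
  refine ⟨∑ H ∈ 𝓗, N H, Submodule.sum_mem _ hN1, hfG.trans ?_⟩
  filter_upwards [(eventually_all_finset 𝓗).2 hN2] with x hx
  rw [Finset.sum_apply, Finset.sum_apply]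
  exact Finset.sum_congr rfl hx

end Pool.Agent.H95.Zs
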