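import Mathlib

set_option autoImplicit false

namespace Pool.Agent.H95.ZsDefs
open MeasureTheory

/-- The standard measure `χ_Ω dx₁ ⋯ dx_d` of a set, as a signed measure. -/
noncomputable def stdMeasure {d : ℕ} (Ω : Set (EuclideanSpace ℝ (Fin d))) :
    SignedMeasure (EuclideanSpace ℝ (Fin d)) :=
  volume.withDensityᵥ (Ω.indicator fun _ => (1 : ℝ))

/-- The standard measures of the `d`-simplices with all vertices in `S`. -/
def simplexMeasures {d : ℕ} (S : Set (EuclideanSpace ℝ (Fin d))) :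
    Set (SignedMeasure (EuclideanSpace ℝ (Fin d))) :=
  {ν | ∃ T : Finset (EuclideanSpace ℝ (Fin d)), (T : Set (EuclideanSpace ℝ (Fin d))) ⊆ S ∧
    T.card = d + 1 ∧ AffineIndependent ℝ ((↑) : T → EuclideanSpace ℝ (Fin d)) ∧
    ν = stdMeasure (convexHull ℝ (T : Set (EuclideanSpace ℝ (Fin d))))}

/-- A finite union of convex `d`-dimensional polytopes. -/
def IsGenPolytope {d : ℕ} (P : Set (EuclideanSpace ℝ (Fin d))) : Prop :=
  ∃ F : Finset (Finset (EuclideanSpace ℝ (Fin d))),
    (∀ A ∈ F, (interior (convexHull ℝ (A : Set (EuclideanSpace ℝ (Fin d))))).Nonempty) ∧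
    P = ⋃ A ∈ F, convexHull ℝ (A : Set (EuclideanSpace ℝ (Fin d)))

/-- `B` is a basis of the real span of the simplex measures of `S` made of simplex measures. -/
def IsSimplexBasis {d : ℕ} (S : Set (EuclideanSpace ℝ (Fin d)))
    (B : Set (SignedMeasure (EuclideanSpace ℝ (Fin d)))) : Prop :=
  B ⊆ simplexMeasures S ∧ LinearIndepOn ℝ id B ∧
    Submodule.span ℝ B = Submodule.span ℝ (simplexMeasures S)

end Pool.Agent.H95.ZsDefs
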