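import Pool.Agent.H95.Zs3
import Pool.Agent.H95.ZsDefs

set_option autoImplicit false

namespace Pool.Agent.H95.Zs
open Filter Topology Set MeasureTheory Pool.Agent.H95.ZsDefs
open Classical

variable {d : ℕ}

abbrev V (d : ℕ) := EuclideanSpace ℝ (Fin d)

def lf (x : V d) : V d × ℝ := (x, 1)

theorem sum_lf {α : Type*} (s : Finset α) (c : α → ℝ) (p : α → V d) :
    ∑ q ∈ s, c q • lf (p q) = (∑ q ∈ s, c q • p q, ∑ q ∈ s, c q) := by
  ext <;> simp [lf, Prod.fst_sum, Prod.snd_sum]

theorem ind_iff (T : Finset (V d)) : AffineIndependent ℝ ((↑) : T → V d) ↔ Ind lf T := by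
  rw [affineIndependent_iff]
  constructor
  · intro h
    choose φ hφ using fun p : V d => exists_phi (sp lf (T.erase p)) (lf p)
    refine ⟨φ, fun p hp q hq => ?_⟩
    have hn : lf p ∉ sp lf (T.erase p) := by
      intro h'
      obtain ⟨c, hc⟩ := (Submodule.mem_span_image_finset_iff_exists_fun' ℝ).1 h'
      rw [sum_lf (T.erase p) c fun q => q] at hc
      obtain ⟨h1, h2⟩ := Prod.ext_iff.1 hc
      simp only [lf] at h1 h2
      have e1 : ∀ q ∈ T.erase p, Function.update c p (-1) q = c q := fun q hq =>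
        Function.update_of_ne (Finset.mem_erase.1 hq).1 _ _
      have := h Finset.univ (fun q => Function.update c p (-1) q) ?_ ?_ ⟨p, hp⟩ (Finset.mem_univ _)
      · simp at this
      · rw [Finset.sum_coe_sort T (Function.update c p (-1)), ← Finset.add_sum_erase _ _ hp,
          Finset.sum_congr rfl e1, h2]
        simp
      · rw [Finset.sum_coe_sort T (fun q => Function.update c p (-1) q • q),
          ← Finset.add_sum_erase _ _ hp, Finset.sum_congr rfl fun q hq => by rw [e1 q hq], h1]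
        simp
    split_ifs with hpq
    · subst hpq; exact (hφ p hn).1
    · exact (hφ p hn).2 _ (mem_sp (Finset.mem_erase.2 ⟨Ne.symm hpq, hq⟩))
  · rintro ⟨ℓ, hℓ⟩ s w h1 h2 p hp
    have h3 : ∑ q ∈ s, w q • lf (q : V d) = 0 := by rw [sum_lf, h1, h2]; rfl
    have := congrArg (ℓ p) h3
    rw [map_sum, Finset.sum_eq_single p] at this
    · simpa [hℓ p p.2 p p.2] using this
    · intro q _ hne
      have : (p : V d) ≠ q := fun h => hne (Subtype.ext h.symm)
      simp [hℓ p p.2 q q.2, this]
    · intro h; exact absurd hp h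

theorem top_iff {T : Finset (V d)} (h : Ind lf T) : sp lf T = ⊤ ↔ T.card = d + 1 := by
  obtain ⟨ℓ, hℓ⟩ := h
  have hli : LinearIndependent ℝ fun p : T => lf (p : V d) := by
    rw [linearIndependent_iff']
    intro s w h3 p hp
    have := congrArg (ℓ p) h3
    rw [map_sum, Finset.sum_eq_single p] at this
    · simpa [hℓ p p.2 p p.2] using this
    · intro q _ hne
      have : (p : V d) ≠ q := fun h => hne (Subtype.ext h.symm)
      simp [hℓ p p.2 q q.2, this]
    · intro h; exact absurd hp h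
  have hr : sp lf T = Submodule.span ℝ (range fun p : T => lf (p : V d)) := by
    rw [sp, image_eq_range]; rfl
  have hf : Module.finrank ℝ (V d × ℝ) = d + 1 := by simp
  rw [hr]
  constructor
  · intro h
    have := finrank_span_eq_card hli
    rw [h, finrank_top, hf] at this
    simpa using this.symm
  · intro h
    exact hli.span_eq_top_of_card_eq_finrank' (by simpa [hf] using h)

theorem chi_lf (T : Finset (V d)) :
    (fun x => chi lf T (lf x)) = (convexHull ℝ (T : Set (V d))).indicator fun _ => (1 : ℝ) := by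
  ext x
  have : lf x ∈ cone lf T ↔ x ∈ convexHull ℝ (T : Set (V d)) := by
    rw [Finset.mem_convexHull']
    constructor
    · rintro ⟨c, h1, h2⟩
      rw [sum_lf T c fun q => q] at h2
      obtain ⟨h3, h4⟩ := Prod.ext_iff.1 h2
      exact ⟨c, h1, h4.symm, h3.symm⟩
    · rintro ⟨c, h1, h2, h3⟩
      exact ⟨c, h1, by rw [sum_lf T c fun q => q, h2, h3]; rfl⟩
  simp [chi, this, indicator]

theorem int_ind {P : Set (V d)} (h : IsCompact P) :
    Integrable (P.indicator fun _ => (1 : ℝ)) volume :=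
  (integrable_indicator_iff h.measurableSet).2 (integrableOn_const h.measure_lt_top.ne)

theorem int_chi (T : Finset (V d)) : Integrable (fun x => chi lf T (lf x)) volume := by
  rw [chi_lf]; exact int_ind (T.finite_toSet.isCompact_convexHull ℝ)

def LC (F : V d × ℝ → ℝ) : Prop := ∀ᶠ w in gen (⊤ : Submodule ℝ (V d × ℝ)),
  (w.2 < 0 → F w = 0) ∧ (0 < w.2 → ∀ᶠ x in 𝓝 (w.2⁻¹ • w.1), F (lf x) = F w)

theorem lc_chi {T : Finset (V d)} (h : Ind lf T) (hT : sp lf T = ⊤) : LC (chi lf T) := by
  obtain ⟨ℓ, hℓ⟩ := h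
  have hc : ∀ w, w ∈ cone lf T ↔ ∀ p ∈ T, 0 ≤ ℓ p w := fun w => mem_cone hℓ (hT ▸ trivial)
  have g1 : ∀ᶠ w in gen (⊤ : Submodule ℝ (V d × ℝ)), ∀ p ∈ T, ℓ p w ≠ 0 :=
    (eventually_all_finset T).2 fun p hp => gen_ne _ (z := lf p) trivial (by simp [hℓ p hp p hp])
  filter_upwards [g1] with w hw
  constructor
  · intro h2
    have : w ∉ cone lf T := by
      rintro ⟨c, h3, h4⟩
      rw [sum_lf T c fun q => q] at h4
      have := Finset.sum_nonneg h3
      rw [h4] at h2
      exact absurd h2 (not_lt.2 this)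
    simp [chi, this]
  · intro h2
    have hw' : lf (w.2⁻¹ • w.1) = w.2⁻¹ • w := by
      ext <;> simp [lf, h2.ne']
    have : ∀ᶠ x in 𝓝 (w.2⁻¹ • w.1), ∀ p ∈ T, (0 ≤ ℓ p (lf x) ↔ 0 ≤ ℓ p w) := by
      refine (eventually_all_finset T).2 fun p hp => ?_
      have hcont : Continuous fun x : V d => ℓ p (lf x) - w.2⁻¹ * ℓ p w :=
        ((ℓ p).continuous_of_finiteDimensional.comp (by unfold lf; fun_prop)).sub continuous_const
      have ht := hcont.tendsto (w.2⁻¹ • w.1)
      rw [hw', map_smul, smul_eq_mul, sub_self] at ht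
      refine (ht.eventually (ev_sign (b := w.2⁻¹ * ℓ p w)
        (mul_ne_zero (inv_ne_zero h2.ne') (hw p hp)))).mono fun x hx => ?_
      rw [add_sub_cancel] at hx
      rw [hx, mul_nonneg_iff_of_pos_left (inv_pos.2 h2)]
    filter_upwards [this] with x hx
    simp only [chi, hc]
    exact if_congr (forall₂_congr hx) rfl rfl

theorem ae_of_gen {Q : V d × ℝ → Prop} (h : ∀ᶠ w in gen (⊤ : Submodule ℝ (V d × ℝ)), Q w) :
    ∀ᵐ x : V d, Q (lf x) := by
  obtain ⟨𝒲, h1, h2, h3⟩ := gen_iff.1 h
  have : ∀ᵐ x : V d, ∀ U ∈ 𝒲, lf x ∉ U := by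
    refine (eventually_all_finite h1).2 fun U hU => ?_
    let A : AffineSubspace ℝ (V d) :=
      { carrier := {x | lf x ∈ U}
        smul_vsub_vadd_mem' := fun c x y z hx hy hz => by
          have : lf (c • (x -ᵥ y) +ᵥ z) = c • (lf x - lf y) + lf z := by ext <;> simp [lf]
          show lf _ ∈ U
          rw [this]
          exact U.add_mem (U.smul_mem _ (U.sub_mem hx hy)) hz }
    have hA : A ≠ ⊤ := by
      intro hA
      have hall : ∀ x, lf x ∈ U := fun x => (hA ▸ AffineSubspace.mem_top ℝ _ x : x ∈ A)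
      refine h2 U hU fun w _ => ?_
      have : w = lf w.1 + (w.2 - 1) • lf 0 := by ext <;> simp [lf]
      rw [this]
      exact U.add_mem (hall _) (U.smul_mem _ (hall _))
    exact measure_eq_zero_iff_ae_notMem.1 (Measure.addHaar_affineSubspace volume A hA)
  exact this.mono fun x hx => h3 _ trivial hx

theorem final (S P : Set (V d)) (hP : IsCompact P)
    (h : stdMeasure P ∈ Submodule.span ℝ (simplexMeasures S)) :
    stdMeasure P ∈ Submodule.span ℤ (simplexMeasures S) := by
  have mono : ∀ {A B : Finset (V d)}, A ⊆ B → Submodule.span ℝ (chi lf '' BB lf A ⊤) ≤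
      Submodule.span ℝ (chi lf '' BB lf B ⊤) := fun h =>
    Submodule.span_mono (image_mono fun T hT => ⟨hT.1.trans h, hT.2⟩)
  have key : ∀ ν ∈ Submodule.span ℝ (simplexMeasures S), ∃ A : Finset (V d), (A : Set (V d)) ⊆ S ∧
      ∃ F ∈ Submodule.span ℝ (chi lf '' BB lf A ⊤), Integrable (fun x => F (lf x)) volume ∧
        ν = volume.withDensityᵥ (fun x => F (lf x)) ∧ LC F := by
    intro ν hν
    induction hν using Submodule.span_induction with
    | mem ν hν =>
      obtain ⟨T, h1, h2, h3, rfl⟩ := hν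
      have h4 := (ind_iff T).1 h3
      have h5 := (top_iff h4).2 h2
      exact ⟨T, h1, _, Submodule.subset_span ⟨T, ⟨subset_rfl, h4, h5⟩, rfl⟩, int_chi T,
        by rw [chi_lf]; rfl, lc_chi h4 h5⟩
    | zero =>
      refine ⟨∅, by simp, 0, Submodule.zero_mem _, integrable_zero _ _ _, ?_,
        Eventually.of_forall fun w => by simp⟩
      exact withDensityᵥ_zero.symm
    | add ν ν' _ _ h1 h2 =>
      obtain ⟨A, a1, F, a2, a3, rfl, a5⟩ := h1
      obtain ⟨B, b1, G, b2, b3, rfl, b5⟩ := h2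
      refine ⟨A ∪ B, by simp [a1, b1], F + G, Submodule.add_mem _
        (mono Finset.subset_union_left a2) (mono Finset.subset_union_right b2), a3.add b3,
        (withDensityᵥ_add a3 b3).symm, ?_⟩
      filter_upwards [a5, b5] with w k1 k2
      refine ⟨fun h => by simp [k1.1 h, k2.1 h], fun h => ?_⟩
      filter_upwards [k1.2 h, k2.2 h] with x x1 x2
      simp [x1, x2]
    | smul c ν _ h1 =>
      obtain ⟨A, a1, F, a2, a3, rfl, a5⟩ := h1
      refine ⟨A, a1, c • F, Submodule.smul_mem _ _ a2, a3.smul c,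
        (withDensityᵥ_smul (fun x => F (lf x)) c).symm, ?_⟩
      filter_upwards [a5] with w k1
      refine ⟨fun h => by simp [k1.1 h], fun h => ?_⟩
      filter_upwards [k1.2 h] with x x1
      simp [x1]
  obtain ⟨A, hA, F, hF, hint, hPF, hlc⟩ := key _ h
  have hae := ((int_ind hP).withDensityᵥ_eq_iff hint).1 hPF
  have hz : ∀ᶠ w in gen (⊤ : Submodule ℝ (V d × ℝ)), ∃ z : ℤ, F w = z := by
    filter_upwards [hlc, gen_ne (LinearMap.snd ℝ (V d) ℝ) (z := lf 0) trivial (by simp [lf])]
      with w k1 k2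
    rcases lt_or_gt_of_ne k2 with k | k
    · exact ⟨0, by simp [k1.1 k]⟩
    · obtain ⟨x, x1, x2⟩ := (Measure.dense_of_ae hae).inter_nhds_nonempty (k1.2 k)
      have x3 : P.indicator (fun _ => (1 : ℝ)) x = F (lf x) := x1
      have x4 : F (lf x) = F w := x2
      rw [← x4, ← x3]
      by_cases hx : x ∈ P
      · exact ⟨1, by simp [hx]⟩
      · exact ⟨0, by simp [hx]⟩
  obtain ⟨N, hN, hFN⟩ := main A (LinearMap.snd ℝ (V d) ℝ) (fun p _ => rfl) _ ⊤ rfl F hF hz
  have key2 : ∀ N ∈ Submodule.span ℤ (chi lf '' BB lf A ⊤), Integrable (fun x => N (lf x)) volume ∧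
      volume.withDensityᵥ (fun x => N (lf x)) ∈ Submodule.span ℤ (simplexMeasures S) := by
    intro N hN
    rw [← Submodule.mem_toAddSubgroup, Submodule.span_int_eq_addSubgroupClosure] at hN
    induction hN using AddSubgroup.closure_induction with
    | mem N hN =>
      obtain ⟨T, ⟨h1, h2, h3⟩, rfl⟩ := hN
      exact ⟨int_chi T, Submodule.subset_span ⟨T, (Finset.coe_subset.2 h1).trans hA,
        (top_iff h2).1 h3, (ind_iff T).2 h2, by rw [chi_lf]; rfl⟩⟩
    | zero =>
      refine ⟨integrable_zero _ _ _, ?_⟩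
      have : volume.withDensityᵥ (fun x : V d => (0 : V d × ℝ → ℝ) (lf x)) = 0 := withDensityᵥ_zero
      rw [this]; exact Submodule.zero_mem _
    | add N N' _ _ h1 h2 =>
      refine ⟨h1.1.add h2.1, ?_⟩
      have := withDensityᵥ_add h1.1 h2.1
      exact (show volume.withDensityᵥ (fun x => (N + N') (lf x)) = _ from this) ▸
        Submodule.add_mem _ h1.2 h2.2
    | neg N _ h1 =>
      refine ⟨h1.1.neg, ?_⟩
      have := withDensityᵥ_neg (μ := volume) (f := fun x : V d => N (lf x))
      exact (show volume.withDensityᵥ (fun x => (-N) (lf x)) = _ from this) ▸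
        Submodule.neg_mem _ h1.2
  have hae2 : (fun x : V d => F (lf x)) =ᵐ[volume] fun x => N (lf x) :=
    ae_of_gen (Q := fun w => F w = N w) hFN
  have e1 : stdMeasure P = volume.withDensityᵥ fun x => N (lf x) :=
    hPF.trans (WithDensityᵥEq.congr_ae hae2)
  rw [e1]
  exact (key2 N hN).2

end Pool.Agent.H95.Zs
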